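import Pool.Agent.Q106.PK.Stm

/-!
# Job PEX of project PK: an admissible number exists
-/

namespace Pool.Agent.Q106.PK

theorem t_PEX : S_PEX := by
  intro f m hm
  set S : ℕ := 1 + ∑ k ∈ Finset.range (4 * m + 1), f k * k ^ 5 with hS
  refine ⟨m * S, ?_⟩
  intro k hk hmk
  have h1 : f k * k ^ 5 ≤ S := by
    have := Finset.single_le_sum (f := fun k => f k * k ^ 5) (fun i _ => Nat.zero_le _)
      (Finset.mem_range.2 hk)
    omega
  have h2 : S ≤ S ^ k := Nat.le_self_pow (by omega) S
  rw [mul_pow, mul_comm (m ^ k)]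
  exact Nat.mul_le_mul_right _ (h1.trans h2)

end Pool.Agent.Q106.PK
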