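import Mathlib
import Pool.Agent.Q16.SQ.Stm3

/-!
# Job C2F of project SQ
-/

set_option autoImplicit false
noncomputable section
open scoped BigOperators
open Pool.Agent.Helper549.Tri

namespace Q16.SQ

private lemma c2f_swap {A B C : E2} (h : AffineIndependent ℝ ![A, B, C]) :
    AffineIndependent ℝ ![B, A, C] := by
  have h2 := (affineIndependent_equiv (k := ℝ) (Equiv.swap (0 : Fin 3) 1) (p := ![A, B, C])).2 h
  convert h2 using 1
  funext i
  fin_cases i <;> rfl

private lemma c2f_rot {A B C : E2} (h : AffineIndependent ℝ ![A, B, C]) :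
    AffineIndependent ℝ ![B, C, A] := by
  have h2 := (affineIndependent_equiv (k := ℝ) (finRotate 3) (p := ![A, B, C])).2 h
  convert h2 using 1
  funext i
  fin_cases i <;> rfl

private lemma c2f_range (A B C : E2) : Set.range ![A, B, C] = {A, B, C} := by
  ext x
  simp only [Set.mem_range, Set.mem_insert_iff, Set.mem_singleton_iff]
  constructor
  · rintro ⟨i, rfl⟩
    fin_cases i <;> simp
  · rintro (rfl | rfl | rfl)
    · exact ⟨0, rfl⟩
    · exact ⟨1, rfl⟩
    · exact ⟨2, rfl⟩

private lemma c2f_tri_swap (A B C : E2) : TriSet ![A, B, C] = TriSet ![B, A, C] := by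
  unfold TriSet
  rw [c2f_range, c2f_range, Set.insert_comm]

private lemma c2f_tri_rot (A B C : E2) : TriSet ![A, B, C] = TriSet ![B, C, A] := by
  unfold TriSet
  rw [c2f_range, c2f_range]
  congr 1
  ext x
  simp only [Set.mem_insert_iff, Set.mem_singleton_iff]
  tauto

private lemma c2f_stewart (A B C : E2) (t : ℝ) :
    dist B (AffineMap.lineMap A C t) ^ 2 =
      (1 - t) * dist A B ^ 2 + t * dist B C ^ 2 - t * (1 - t) * dist A C ^ 2 := by
  have e1 : B - AffineMap.lineMap A C t = (1 - t) • (B - A) + t • (B - C) := by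
    rw [AffineMap.lineMap_apply_module]
    module
  have e2 : A - C = (B - C) - (B - A) := by abel
  rw [dist_eq_norm, dist_comm A B, dist_eq_norm B A, dist_eq_norm B C, dist_eq_norm A C, e1, e2,
    norm_add_sq_real, norm_sub_sq_real (B - C) (B - A), norm_smul, norm_smul, mul_pow, mul_pow,
    Real.norm_eq_abs, Real.norm_eq_abs, sq_abs, sq_abs, real_inner_smul_left,
    real_inner_smul_right, real_inner_comm (B - C) (B - A)]
  ring

theorem t_C2F (h1 : S_C1) (h2 : S_GLUE) (h3 : S_TRIK) (h4 : S_SPLIT) : S_C2F := by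
  intro e a b c he ha hb hc habc A B C hABC hBC hAC hAB
  have ha' : (0 : ℝ) < a := by exact_mod_cast ha
  have hb' : (0 : ℝ) < b := by exact_mod_cast hb
  have hc' : (0 : ℝ) < c := by exact_mod_cast hc
  have habc' : (a : ℝ) ^ 2 + b * c = c ^ 2 := by exact_mod_cast habc
  obtain ⟨t, ht⟩ : ∃ t : ℝ, t = (c : ℝ) / (b + 2 * c) := ⟨_, rfl⟩
  have hs : (0 : ℝ) < b + 2 * c := by positivity
  have ht0 : 0 < t := by rw [ht]; positivity
  have ht1' : 1 - t = (b + c) / (b + 2 * c) := by rw [ht]; field_simp; ring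
  have ht1 : t < 1 := by
    have : 0 < 1 - t := by rw [ht1']; positivity
    linarith
  obtain ⟨i1, i2, hU, hD⟩ := h4 ![B, A, C] (c2f_swap hABC) t ht0 ht1
  simp only [Matrix.cons_val_zero, Matrix.cons_val_one, Matrix.cons_val] at i1 i2 hU hD
  have dBD2 := c2f_stewart A B C t
  have dAD : dist A (AffineMap.lineMap A C t) = e * (c * (b * c)) := by
    rw [dist_left_lineMap, hAC, Real.norm_of_nonneg ht0.le, ht]
    field_simp
  have dDC : dist (AffineMap.lineMap A C t) C = e * (c * (b * (b + c))) := by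
    rw [dist_lineMap_right, hAC, ht1', Real.norm_of_nonneg (by positivity)]
    field_simp
  obtain ⟨D, hDD⟩ : ∃ D, D = AffineMap.lineMap A C t := ⟨_, rfl⟩
  rw [← hDD] at i1 i2 hU hD dBD2 dAD dDC
  have dBD : dist B D = e * (c * (a * (b + c))) := by
    have h5 : dist B D ^ 2 = (e * (c * (a * (b + c)))) ^ 2 := by
      rw [dBD2, hAB, hBC, hAC, ht1', ht]
      have : (a : ℝ) ^ 2 = c ^ 2 - b * c := by linarith
      have h6 : (e * (c * (a * (b + c)))) ^ 2 = e ^ 2 * c ^ 2 * (c ^ 2 - b * c) * (b + c : ℝ) ^ 2 := by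
        rw [← this]; ring
      rw [h6]
      field_simp
      ring
    have h7 : (0 : ℝ) ≤ e * (c * (a * (b + c))) := by positivity
    exact (pow_left_inj₀ dist_nonneg h7 (by norm_num)).1 h5
  -- the part `A D B`
  have p1 : Tlb (e * a) (e * b) (e * c) (TriOf A D B) := by
    refine h1 e a b c he ha hb hc habc A D B (c2f_rot i1) ?_ ?_ ?_
    · rw [dist_comm]; exact dBD
    · exact hAB
    · exact dAD
  -- the part `B C D`
  have p2 : Tlb (e * a) (e * b) (e * c) (TriOf B C D) := by
    refine h3 (e * a) (e * b) (e * c) (c * (b + c)) (by positivity) B C D i2 ?_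
    rw [dist_comm C D, dDC, dBD, hBC]
    push_cast
    right; right; left
    refine ⟨?_, ?_, ?_⟩ <;> ring
  have e3 : TriOf A D B = TriSet ![B, A, D] := by
    unfold TriOf
    rw [c2f_tri_rot B A D]
  have e4 : TriOf A B C = TriOf A D B ∪ TriOf B C D := by
    rw [e3]
    unfold TriOf
    rw [c2f_tri_swap A B C, hU]
  rw [e4]
  refine h2 _ _ _ _ _ p1 p2 ?_
  rw [e3]
  exact hD

end Q16.SQ
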