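import Mathlib
import Pool.Agent.Q16.SQ.Stm2

/-!
# Job F1 of project SQ
-/

set_option autoImplicit false
noncomputable section
open scoped BigOperators
open Pool.Agent.Helper549.Tri

namespace Q16.SQ

private lemma f1_sq {N D e : ℕ} (hD : 0 < D) (h : N * D ^ 2 = e ^ 2) : IsSquare N := by
  have h1 : D ^ 2 ∣ e ^ 2 := ⟨N, by rw [← h]; ring⟩
  have h2 : D ∣ e := (Nat.pow_dvd_pow_iff (by norm_num)).1 h1
  obtain ⟨f, rfl⟩ := h2
  refine ⟨f, ?_⟩
  have h3 : N * D ^ 2 = f * f * D ^ 2 := by rw [h]; ring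
  exact Nat.eq_of_mul_eq_mul_right (by positivity) h3

private lemma f1_rat {z : ℝ} (hz : 0 < z) (h : ∃ q : ℚ, z = q) :
    ∃ n d : ℕ, 0 < n ∧ 0 < d ∧ z * d = n := by
  obtain ⟨q, rfl⟩ := h
  have hq : 0 < q := by exact_mod_cast hz
  have hn : 0 < q.num := Rat.num_pos.2 hq
  obtain ⟨n, hn'⟩ := Int.eq_ofNat_of_zero_le hn.le
  refine ⟨n, q.den, by omega, q.den_pos, ?_⟩
  have h1 : q * q.den = n := by
    rw [Rat.mul_den_eq_num, hn']
    simp
  exact_mod_cast h1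

theorem t_F1 (h : S_SH1) : S_F1 := by
  intro N ℓ θ S A κ β hd hN hκ
  obtain ⟨h1, r, hr, hS0, hS1, hS2, hNr⟩ := h hd hκ
  have ha := hd.lpos 0
  have hb := hd.lpos 1
  have hc := hd.lpos 2
  obtain ⟨M, -, -, hM, -⟩ := hd.char ![-1, 1, 1] (by intro k; fin_cases k <;> simp) (by simp)
    ⟨2, by subst hκ; simp [Fin.sum_univ_three, K1]⟩
    (by subst hκ; simp [Fin.prod_univ_three, Fin.sum_univ_three, K1])
  have hM' : S 0 - S 1 + S 2 = M * (-ℓ 0 + ℓ 1 + ℓ 2) := by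
    subst hκ
    simp [Fin.sum_univ_three, Fin.prod_univ_three, K1] at hM
    linarith
  have hac : ℓ 0 < ℓ 2 := by nlinarith [mul_pos hb hc]
  have hx : r * ℓ 0 = M := by
    have h2 : (r * ℓ 0 - M) * (ℓ 1 + ℓ 2 - ℓ 0) = 0 := by
      rw [hS0, hS1, hS2] at hM'
      linear_combination hM' - r * h1
    rcases mul_eq_zero.1 h2 with h3 | h3
    · linarith
    · linarith
  have hMpos : 0 < M := by
    have : (0 : ℝ) < M := by rw [← hx]; positivity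
    exact_mod_cast this
  obtain ⟨m, hm⟩ := Int.eq_ofNat_of_zero_le hMpos.le
  have hmr : (M : ℝ) = m := by rw [hm]; simp
  rw [hmr] at hx
  have hmpos : 0 < m := by omega
  obtain ⟨y, hy⟩ : ∃ y, y = r * ℓ 1 := ⟨_, rfl⟩
  obtain ⟨z, hz⟩ : ∃ z, z = r * ℓ 2 := ⟨_, rfl⟩
  have hy0 : 0 < y := by rw [hy]; positivity
  have hz0 : 0 < z := by rw [hz]; positivity
  have hNz : (N : ℝ) = z * (y + z) := by rw [hNr, hy, hz]; ring
  have hmz : (m : ℝ) ^ 2 + y * z = z ^ 2 := by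
    rw [← hx, hy, hz]; linear_combination r ^ 2 * h1
  -- z is rational
  have hcor : 0 < β 1 1 ∨ 0 < β 1 2 := by
    obtain ⟨u, v, huv, hu, hv⟩ := hd.corner 0 1 (by decide)
    subst hκ
    fin_cases u
    · fin_cases v
      · exact absurd rfl huv
      · left; exact hv
      · right; exact hv
    · simp [K1] at hu
    · simp [K1] at hu
  have hside : z ^ 2 = β 1 0 * m + β 1 1 * y + β 1 2 * z := by
    have h2 := hd.side 1
    rw [Fin.sum_univ_three, hS1] at h2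
    rw [← hx, hy, hz]
    linear_combination r * h2
  have hT : (2 : ℝ) * z ^ 2 = N + m ^ 2 := by linarith
  have hyz : (2 : ℝ) * (y * z) = N - m ^ 2 := by linarith
  have hyT : y * (N + (m : ℝ) ^ 2) = z * (N - (m : ℝ) ^ 2) := by
    rw [← hT, ← hyz]; ring
  have hTpos : (0 : ℝ) < N + m ^ 2 := by rw [← hT]; positivity
  have hdpos : (0 : ℝ) < N - m ^ 2 := by rw [← hyz]; positivity
  have hW : (0 : ℝ) < β 1 1 * (N - (m : ℝ) ^ 2) + β 1 2 * (N + (m : ℝ) ^ 2) := by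
    have e1 : (0 : ℝ) ≤ β 1 1 * (N - (m : ℝ) ^ 2) := by positivity
    have e2 : (0 : ℝ) ≤ β 1 2 * (N + (m : ℝ) ^ 2) := by positivity
    rcases hcor with h2 | h2
    · have : (0 : ℝ) < β 1 1 := by exact_mod_cast h2
      have : (0 : ℝ) < β 1 1 * (N - (m : ℝ) ^ 2) := by positivity
      linarith
    · have : (0 : ℝ) < β 1 2 := by exact_mod_cast h2
      have : (0 : ℝ) < β 1 2 * (N + (m : ℝ) ^ 2) := by positivity
      linarith
  have hzq : ∃ q : ℚ, z = q := by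
    refine ⟨(((N : ℚ) + m ^ 2) ^ 2 / 2 - ((N : ℚ) + m ^ 2) * (β 1 0 * m)) /
      (β 1 1 * ((N : ℚ) - m ^ 2) + β 1 2 * ((N : ℚ) + m ^ 2)), ?_⟩
    push_cast
    rw [eq_div_iff hW.ne']
    have h3 : z * (β 1 1 * (N - (m : ℝ) ^ 2)) = β 1 1 * (y * (N + (m : ℝ) ^ 2)) := by
      rw [hyT]; ring
    have h4 : z ^ 2 = (N + (m : ℝ) ^ 2) / 2 := by linarith
    rw [mul_add, h3]
    have h5 : (N + (m : ℝ) ^ 2) * ((N + (m : ℝ) ^ 2) / 2) =
        (N + (m : ℝ) ^ 2) * (β 1 0 * m + β 1 1 * y + β 1 2 * z) := by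
      rw [← h4, ← hside]
    linear_combination -h5
  have hyq : ∃ q : ℚ, y = q := by
    obtain ⟨q, hq⟩ := hzq
    refine ⟨q * ((N : ℚ) - m ^ 2) / ((N : ℚ) + m ^ 2), ?_⟩
    push_cast
    rw [eq_div_iff hTpos.ne', hyT, hq]
  obtain ⟨n1, d1, hn1, hd1, e1⟩ := f1_rat hz0 hzq
  obtain ⟨n2, d2, hn2, hd2, e2⟩ := f1_rat hy0 hyq
  have hd1' : (0 : ℝ) < d1 := by exact_mod_cast hd1
  have hd2' : (0 : ℝ) < d2 := by exact_mod_cast hd2
  have hcN : n1 * d2 * (n2 * d1 + n1 * d2) = N * (d1 * d2) ^ 2 := by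
    have : ((n1 * d2 * (n2 * d1 + n1 * d2) : ℕ) : ℝ) = ((N * (d1 * d2) ^ 2 : ℕ) : ℝ) := by
      push_cast
      rw [← e1, ← e2, hNz]
      ring
    exact_mod_cast this
  refine ⟨0, 1, 2, by decide, by decide, by decide,
    (m * (d1 * d2)) * (n2 * d1 + n1 * d2), (n1 * d2) ^ 2, n2 * d1 * (n1 * d2),
    ⟨m * (d1 * d2), n2 * d1, n1 * d2, by positivity, by positivity, by positivity,
      Or.inl ⟨?_, Or.inl ⟨rfl, rfl, rfl, ?_⟩⟩⟩, 1 / (r * (d1 * d2) ^ 2), by positivity, ?_, ?_, ?_⟩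
  · have : (((m * (d1 * d2)) ^ 2 + n2 * d1 * (n1 * d2) : ℕ) : ℝ) = (((n1 * d2) ^ 2 : ℕ) : ℝ) := by
      push_cast
      rw [← e1, ← e2]
      linear_combination ((d1 : ℝ) * d2) ^ 2 * hmz
    exact_mod_cast this
  · rintro ⟨e, he⟩
    rw [hcN] at he
    exact hN (f1_sq (D := d1 * d2) (e := e) (by positivity) (by rw [he]; ring))
  · push_cast
    rw [← e1, ← e2, hS0, ← hx, hy, hz]
    field_simp
  · push_cast
    rw [← e1, hS1, hz]
    field_simp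
  · push_cast
    rw [← e1, ← e2, hS2, hy, hz]
    field_simp

end Q16.SQ
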