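import Pool.Agent.Q37.GU.Stm

/-! Project GU (helper37), job T9: constant functions are regular. -/

set_option autoImplicit false

open CategoryTheory CategoryTheory.Limits AlgebraicGeometry Topology
open Pool.Agent.Q37.GU Pool.Agent.W481

namespace Q94.GU_T9

theorem t9 : S_T9 := by
  intro X c
  let f : X ⟶ Over.mk (𝟙 SpecC) := Over.homMk X.hom (by simp)
  let g : Γ((Over.mk (𝟙 SpecC)).left, ⊤) := (Scheme.ΓSpecIso (.of ℂ)).inv c
  refine ⟨f.left.app ⊤ g, fun x => ?_⟩
  have h1 := value_push f x ⊤ (mem_top _) g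
  have h2 : (x.push f).mor = Spec.map (𝟙 (CommRingCat.of ℂ)) := by
    rw [mor_push, Spec.map_id]
    exact pt_mor_hom x
  have h3 := value_inv_eq (A := ℂ) (𝟙 SpecC) (x.push f) (𝟙 _) h2 c
  change x.value (mem_top x) (f.left.app ⊤ g) = c
  exact h1.symm.trans h3

end Q94.GU_T9
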