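import Pool.Agent.Q61.ND.Stm

set_option autoImplicit false

/-!
Project ND, job LBD: the functional is bounded.
-/

open MeasureTheory Set Filter Topology Real

namespace Pool.Agent.Q94.NDLBD

open Pool.Agent.Q61.ND
open Pool.Agent.Q61.AD (P Q Per dt dx dy lap Tst D)

/-- Cauchy-Schwarz -/
theorem cs {α : Type*} [MeasurableSpace α] (μ : Measure α) (f g : α → ℝ)
    (hf : Integrable (fun x => f x ^ 2) μ) (hg : Integrable (fun x => g x ^ 2) μ)
    (hfg : Integrable (fun x => f x * g x) μ) :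
    (∫ x, f x * g x ∂μ) ^ 2 ≤ (∫ x, f x ^ 2 ∂μ) * ∫ x, g x ^ 2 ∂μ := by
  have h : ∀ t : ℝ, 0 ≤ (∫ x, f x ^ 2 ∂μ) * (t * t) + (-2 * ∫ x, f x * g x ∂μ) * t +
      ∫ x, g x ^ 2 ∂μ := by
    intro t
    have h1 : 0 ≤ ∫ x, (t * f x - g x) ^ 2 ∂μ := integral_nonneg fun x => sq_nonneg _
    have h2 : ∫ x, (t * f x - g x) ^ 2 ∂μ = (∫ x, f x ^ 2 ∂μ) * (t * t) +
        (-2 * ∫ x, f x * g x ∂μ) * t + ∫ x, g x ^ 2 ∂μ := by
      have h3 : ∀ x, (t * f x - g x) ^ 2 = (t * t) * f x ^ 2 + (-2 * t) * (f x * g x) + g x ^ 2 :=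
        fun x => by ring
      have i1 : Integrable (fun x => (t * t) * f x ^ 2 + (-2 * t) * (f x * g x)) μ :=
        (hf.const_mul _).add (hfg.const_mul _)
      simp_rw [h3]
      rw [integral_add i1 hg,
        integral_add (hf.const_mul _) (hfg.const_mul _), integral_const_mul, integral_const_mul]
      ring
    rw [h2] at h1
    exact h1
  have h4 := discrim_le_zero h
  unfold discrim at h4
  nlinarith [h4]

theorem int_one : Integrable (fun p : P => (p.1 ^ (-(5 / 4) : ℝ)) ^ 2)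
    (volume.restrict (Sp 21)) := by
  have h1 : IntegrableOn (fun s : ℝ => s ^ (-(5 / 2) : ℝ)) (Ioi 21) :=
    integrableOn_Ioi_rpow_of_lt (by norm_num) (by norm_num)
  have h2 : Integrable (fun _ : ℝ => (1 : ℝ)) (volume.restrict (Ioo (-π) π)) :=
    integrable_const _
  have h3 : Integrable (fun z : ℝ × ℝ => z.1 ^ (-(5 / 2) : ℝ) * 1)
      ((volume.restrict (Ioi (21 : ℝ))).prod (volume.restrict (Ioo (-π) π))) := h1.mul_prod h2
  rw [Measure.prod_restrict] at h3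
  have h4 : IntegrableOn (fun z : ℝ × ℝ => z.1 ^ (-(5 / 2) : ℝ) * 1)
    (Ioi (21 : ℝ) ×ˢ Ioo (-π) π) volume := h3
  have h5 : MeasurableSet (Sp 21) := measurableSet_Ioi.prod measurableSet_Ioo
  refine (integrableOn_congr_fun (fun p hp => ?_) h5).1 h4
  have hp0 : (0 : ℝ) < p.1 := lt_trans (by norm_num) (show (21 : ℝ) < p.1 from hp.1)
  show p.1 ^ (-(5 / 2) : ℝ) * 1 = (p.1 ^ (-(5 / 4) : ℝ)) ^ 2
  rw [mul_one, ← Real.rpow_natCast, ← Real.rpow_mul hp0.le]
  norm_num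

/-- the functional is bounded -/
theorem lbd (h : S_apr) (h1 : S_ibp) (h2 : S_bnd) : S_lbd := by
  obtain ⟨K, hK⟩ := h2
  refine ⟨K ^ 2 * (∫ p in Sp 21, (p.1 ^ (-(5 / 4) : ℝ)) ^ 2) * 16, fun Φ hΦ => ?_⟩
  have hms : MeasurableSet (Sp 21) := measurableSet_Ioi.prod measurableSet_Ioo
  have hcont : Continuous Φ := hΦ.smooth.continuous
  set f : P → ℝ := fun p => p.1 ^ (-(5 / 4) : ℝ) with hf
  set g : P → ℝ := fun p => exp p.1 * p.1 ^ (-(3 / 2) : ℝ) * |Φ p| with hg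
  have hg2 : ∀ p ∈ Sp 21, g p ^ 2 = exp (2 * p.1) / p.1 ^ 3 * Φ p ^ 2 := by
    intro p hp
    have hp0 : (0 : ℝ) < p.1 := lt_trans (by norm_num) (show (21 : ℝ) < p.1 from hp.1)
    show (exp p.1 * p.1 ^ (-(3 / 2) : ℝ) * |Φ p|) ^ 2 = _
    have e1 : (exp p.1) ^ 2 = exp (2 * p.1) := by
      rw [← Real.exp_nat_mul]
      norm_num
    have e2 : (p.1 ^ (-(3 / 2) : ℝ)) ^ 2 = (p.1 ^ 3)⁻¹ := by
      rw [← Real.rpow_natCast, ← Real.rpow_mul hp0.le, ← Real.rpow_natCast, ← Real.rpow_neg hp0.le]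
      norm_num
    rw [mul_pow, mul_pow, e1, e2, sq_abs, div_eq_mul_inv]
  have hfi : Integrable (fun p => f p ^ 2) (volume.restrict (Sp 21)) := int_one
  have hgi : Integrable (fun p => g p ^ 2) (volume.restrict (Sp 21)) := by
    obtain ⟨a, b, ha, hab⟩ := hΦ.supp
    have h3 : IntegrableOn (fun p : P => exp (2 * p.1) / p.1 ^ 3 * Φ p ^ 2)
        (Icc a b ×ˢ Icc (-π) π) := by
      refine ContinuousOn.integrableOn_compact (isCompact_Icc.prod isCompact_Icc) ?_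
      refine ContinuousOn.mul (ContinuousOn.div ?_ ?_ ?_) (hcont.pow 2).continuousOn
      · exact (Real.continuous_exp.comp (continuous_const.mul continuous_fst)).continuousOn
      · exact (continuous_fst.pow 3).continuousOn
      · intro p hp
        have hp0 : (0 : ℝ) < p.1 := lt_of_lt_of_le (by linarith) hp.1.1
        exact (pow_pos hp0 3).ne'
    have h4 : IntegrableOn (fun p : P => exp (2 * p.1) / p.1 ^ 3 * Φ p ^ 2) (Sp 21) := by
      refine h3.of_forall_sdiff_eq_zero hms fun p hp => ?_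
      have h5 : Φ p = 0 := by
        by_contra hne
        exact hp.2 ⟨hab p.1 p.2 hne, ⟨hp.1.2.1.le, hp.1.2.2.le⟩⟩
      rw [h5]
      ring
    exact (integrableOn_congr_fun (fun p hp => (hg2 p hp).symm) hms).1 h4
  have hfm : Measurable f := measurable_fst.pow_const _
  have hgm : Measurable g := ((Real.measurable_exp.comp measurable_fst).mul
    (measurable_fst.pow_const _)).mul hcont.abs.measurable
  have hfg : Integrable (fun p => f p * g p) (volume.restrict (Sp 21)) := by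
    refine (hfi.add hgi).mono' (hfm.mul hgm).aestronglyMeasurable
      (Filter.Eventually.of_forall fun p => ?_)
    rw [Real.norm_eq_abs, abs_mul]
    show |f p| * |g p| ≤ f p ^ 2 + g p ^ 2
    nlinarith [sq_nonneg (|f p| - |g p|), sq_abs (f p), sq_abs (g p), abs_nonneg (f p),
      abs_nonneg (g p), sq_nonneg (f p), sq_nonneg (g p)]
  have hcs := cs (volume.restrict (Sp 21)) f g hfi hgi hfg
  have hle : ‖∫ p in Sp 21, F0 p * Φ p‖ ≤ ∫ p in Sp 21, K * (f p * g p) := by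
    refine norm_integral_le_of_norm_le (hfg.const_mul K) ?_
    refine (ae_restrict_iff' hms).2 (Filter.Eventually.of_forall fun p hp => ?_)
    have hp0 : (0 : ℝ) < p.1 := lt_trans (by norm_num) (show (21 : ℝ) < p.1 from hp.1)
    rw [norm_mul, Real.norm_eq_abs, Real.norm_eq_abs]
    have h5 : f p * g p = exp p.1 * p.1 ^ (-(11 / 4) : ℝ) * |Φ p| := by
      show p.1 ^ (-(5 / 4) : ℝ) * (exp p.1 * p.1 ^ (-(3 / 2) : ℝ) * |Φ p|) = _
      have e3 : p.1 ^ (-(11 / 4) : ℝ) = p.1 ^ (-(5 / 4) : ℝ) * p.1 ^ (-(3 / 2) : ℝ) := by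
        rw [← Real.rpow_add hp0]
        norm_num
      rw [e3]
      ring
    rw [h5, ← mul_assoc]
    exact mul_le_mul_of_nonneg_right (hK p hp) (abs_nonneg _)
  rw [integral_const_mul] at hle
  have hB : ∫ p in Sp 21, g p ^ 2 = ∫ p in Sp 21, exp (2 * p.1) / p.1 ^ 3 * Φ p ^ 2 :=
    setIntegral_congr_fun hms fun p hp => hg2 p hp
  have hap := h Φ hΦ
  rw [h1 Φ hΦ]
  have hA : 0 ≤ ∫ p in Sp 21, f p ^ 2 := integral_nonneg fun p => sq_nonneg _
  calc (∫ p in Sp 21, F0 p * Φ p) ^ 2 = ‖∫ p in Sp 21, F0 p * Φ p‖ ^ 2 := by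
        rw [Real.norm_eq_abs, sq_abs]
    _ ≤ (K * ∫ p in Sp 21, f p * g p) ^ 2 := pow_le_pow_left₀ (norm_nonneg _) hle 2
    _ = K ^ 2 * (∫ p in Sp 21, f p * g p) ^ 2 := by ring
    _ ≤ K ^ 2 * ((∫ p in Sp 21, f p ^ 2) * ∫ p in Sp 21, g p ^ 2) :=
        mul_le_mul_of_nonneg_left hcs (sq_nonneg K)
    _ ≤ K ^ 2 * ((∫ p in Sp 21, f p ^ 2) * (16 * ∫ p in Sp 21, exp (2 * p.1) / p.1 * G0 Φ p ^ 2)) := by
        refine mul_le_mul_of_nonneg_left (mul_le_mul_of_nonneg_left ?_ hA) (sq_nonneg K)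
        rw [hB]
        exact hap
    _ = K ^ 2 * (∫ p in Sp 21, f p ^ 2) * 16 * ∫ p in Sp 21, exp (2 * p.1) / p.1 * G0 Φ p ^ 2 := by
        ring

end Pool.Agent.Q94.NDLBD
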