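import Mathlib
import Pool.Agent.Q82.BC.Stm

/-!
# Project BC, part NL2: the Lipschitz property of the nonlinear part
-/

set_option autoImplicit false

open MeasureTheory Filter Topology Set
open Pool.Agent.Q82.BB (chi mu lam IsSh cv Nl Good UU Tower)

namespace Pool.Agent.Q82.BC

private lemma nl2_cont {T : ℝ} {w : ℝ → ℝ → ℂ} {Cs : ℕ → ℝ} (h : Adm2 T w Cs) :
    ContinuousOn (fun q : ℝ × ℝ => w q.1 q.2) (univ ×ˢ Ioc 0 T) := by
  have h0 := h.2.1 0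
  simpa only [iteratedDeriv_zero] using h0

private lemma nl2_bd {T : ℝ} {w : ℝ → ℝ → ℂ} {Cs : ℕ → ℝ} (h : Adm2 T w Cs) (ξ : ℝ)
    {τ : ℝ} (hτ : τ ∈ Ioc 0 T) : ‖w ξ τ‖ ≤ Cs 0 * ((1 + |ξ|) * er ξ τ) := by
  have h0 := h.2.2.2 0 ξ τ hτ
  simpa only [iteratedDeriv_zero] using h0

private lemma nl2_cx {T : ℝ} {w : ℝ → ℝ → ℂ} {Cs : ℕ → ℝ} (h : Adm2 T w Cs)
    {τ : ℝ} (hτ : τ ∈ Ioc 0 T) : Continuous (fun ξ => w ξ τ) := (h.1 τ hτ 0).continuous

private lemma nl2_ct {T : ℝ} {w : ℝ → ℝ → ℂ} {Cs : ℕ → ℝ} (h : Adm2 T w Cs) (ξ : ℝ) :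
    ContinuousOn (fun τ => w ξ τ) (Ioc 0 T) := by
  have h0 := nl2_cont h
  have h1 : ContinuousOn (fun τ : ℝ => ((ξ, τ) : ℝ × ℝ)) (Ioc 0 T) := by fun_prop
  have h2 := h0.comp h1 (fun τ hτ => ⟨mem_univ _, hτ⟩)
  exact h2

private lemma nl2_er_pos (ξ τ : ℝ) : 0 < er ξ τ := Real.exp_pos _

private lemma nl2_er_mono (ξ : ℝ) {a τ : ℝ} (h : a ≤ τ) : er ξ τ ≤ er ξ a := by
  unfold er
  refine Real.exp_le_exp.2 ?_
  have h1 := Real.sqrt_le_sqrt h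
  have h2 := mul_le_mul_of_nonneg_right h1 (abs_nonneg ξ)
  linarith

private lemma nl2_cv_Icc (h1 : S_CVB2) {T : ℝ} {w : ℝ → ℝ → ℂ} {Cs : ℕ → ℝ}
    (h : Adm2 T w Cs) (ξ : ℝ) {a : ℝ} (ha : 0 < a) :
    ContinuousOn (fun s => cv w w ξ s) (Icc a T) := by
  obtain ⟨K, hK, hb⟩ := h1
  have hA := h.2.2.1 0
  have hsub : Icc a T ⊆ Ioc 0 T := fun s hs => ⟨lt_of_lt_of_le ha hs.1, hs.2⟩
  have hc : Continuous (fun η : ℝ => ((Cs 0 * ((1 + |η|) * er η a) : ℝ) : ℂ)) := by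
    unfold er
    fun_prop
  have hn : ∀ η : ℝ, ‖((Cs 0 * ((1 + |η|) * er η a) : ℝ) : ℂ)‖ =
      Cs 0 * ((1 + |η|) * er η a) := by
    intro η
    rw [Complex.norm_real, Real.norm_of_nonneg]
    have := abs_nonneg η
    have := (nl2_er_pos η a).le
    positivity
  have i1 := (hb _ _ (Cs 0) (Cs 0) a ha hA hA hc hc (fun η => (hn η).le)
    (fun η => (hn η).le) ξ).1.norm
  unfold cv
  refine continuousOn_of_dominated (bound := fun η => ‖((Cs 0 * ((1 + |η|) * er η a) : ℝ) : ℂ) *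
    ((Cs 0 * ((1 + |ξ - η|) * er (ξ - η) a) : ℝ) : ℂ)‖) ?_ ?_ i1 ?_
  · intro s hs
    refine Continuous.aestronglyMeasurable ?_
    exact (nl2_cx h (hsub hs)).mul ((nl2_cx h (hsub hs)).comp (continuous_const.sub continuous_id))
  · intro s hs
    refine Eventually.of_forall fun η => ?_
    have hq : ∀ η : ℝ, ‖w η s‖ ≤ Cs 0 * ((1 + |η|) * er η a) := by
      intro η
      refine (nl2_bd h η (hsub hs)).trans ?_
      refine mul_le_mul_of_nonneg_left ?_ hA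
      have := abs_nonneg η
      exact mul_le_mul_of_nonneg_left (nl2_er_mono η hs.1) (by positivity)
    rw [norm_mul, norm_mul, hn, hn]
    exact mul_le_mul (hq η) (hq _) (norm_nonneg _) ((norm_nonneg _).trans (hq η))
  · refine Eventually.of_forall fun η => ?_
    exact (((nl2_ct h η).mul (nl2_ct h (ξ - η)))).mono hsub

private lemma nl2_cv (h1 : S_CVB2) {T : ℝ} {w : ℝ → ℝ → ℂ} {Cs : ℕ → ℝ}
    (h : Adm2 T w Cs) (ξ : ℝ) : ContinuousOn (fun s => cv w w ξ s) (Ioc 0 T) := by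
  intro s hs
  have h2 : (0 : ℝ) < s / 2 := by have := hs.1; linarith
  have h3 := nl2_cv_Icc h1 h ξ h2 s ⟨by have := hs.1; linarith, hs.2⟩
  refine h3.mono_of_mem_nhdsWithin ?_
  refine mem_nhdsWithin.2 ⟨Ioi (s / 2), isOpen_Ioi, by have := hs.1; simp only [mem_Ioi]; linarith, ?_⟩
  rintro x ⟨hx, hx2⟩
  exact ⟨le_of_lt hx, hx2.2⟩

theorem nl2 (h1 : S_CVB2) (h2 : S_TI2) : S_NL2 := by
  intro T κ hT hκ
  obtain ⟨K, hK, hb⟩ := id h1
  obtain ⟨K', hK', hti⟩ := h2 T hT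
  obtain ⟨C, hC, hk⟩ := hκ.2.2.2 0
  refine ⟨C * K * K', by positivity, ?_⟩
  intro w v Cs Ds D hD hw hv hwv ξ τ hτ
  have hA := hw.2.2.1 0
  have hB := hv.2.2.1 0
  have hkc : Continuous (fun s : ℝ => κ ξ τ s) := by
    have h0 := hκ.2.1 0
    simp only [iteratedDeriv_zero] at h0
    exact h0.comp (by fun_prop : Continuous (fun s : ℝ => ((ξ, τ, s) : ℝ × ℝ × ℝ)))
  have hk1 : ∀ s ∈ Ioc 0 T, |κ ξ τ s| ≤
      C * (min 1 ((1 + ξ ^ 2) * s) * Real.exp (-(ξ ^ 2 * |τ - s| / 4))) := by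
    intro s hs
    have := hk ξ τ hτ s hs
    rwa [iteratedDeriv_zero] at this
  have hmin : ∀ s ∈ Ioc 0 T, 0 ≤ min 1 ((1 + ξ ^ 2) * s) := by
    intro s hs
    have := hs.1
    exact le_min (by norm_num) (by positivity)
  have hi : ∀ (z : ℝ → ℝ → ℂ) (Es : ℕ → ℝ), Adm2 T z Es →
      IntervalIntegrable (fun s => (κ ξ τ s : ℂ) * cv z z ξ s) volume 0 T := by
    intro z Es hz
    have hE := hz.2.2.1 0
    rw [intervalIntegrable_iff_integrableOn_Ioc_of_le hT.le]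
    have hg := ((hti ξ τ hτ).1.const_mul (C * (K * Es 0 * Es 0)))
    rw [intervalIntegrable_iff_integrableOn_Ioc_of_le hT.le] at hg
    refine Integrable.mono' hg ?_ ?_
    · refine ContinuousOn.aestronglyMeasurable ?_ measurableSet_Ioc
      exact ((Complex.continuous_ofReal.comp hkc).continuousOn).mul (nl2_cv h1 hz ξ)
    · refine (ae_restrict_iff' measurableSet_Ioc).2 (Eventually.of_forall fun s hs => ?_)
      have cz := nl2_cx hz hs
      have e := (hb (fun ξ => z ξ s) (fun ξ => z ξ s) (Es 0) (Es 0) s hs.1 hE hE cz cz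
        (fun ξ => nl2_bd hz ξ hs) (fun ξ => nl2_bd hz ξ hs) ξ).2
      rw [norm_mul, Complex.norm_real, Real.norm_eq_abs]
      have h0 := hmin s hs
      refine (mul_le_mul (hk1 s hs) e (norm_nonneg _) (by positivity)).trans (le_of_eq ?_)
      ring
  have hcv : ∀ s ∈ Ioc 0 T, ‖cv w w ξ s - cv v v ξ s‖ ≤
      K * (Cs 0 + Ds 0) * D * (er ξ s * ((1 + |ξ|) ^ 3 + (s * Real.sqrt s)⁻¹)) := by
    intro s hs
    have cw := nl2_cx hw hs
    have cvv := nl2_cx hv hs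
    have cd : Continuous (fun ξ => w ξ s - v ξ s) := cw.sub cvv
    have bw : ∀ ξ, ‖w ξ s‖ ≤ Cs 0 * ((1 + |ξ|) * er ξ s) := fun ξ => nl2_bd hw ξ hs
    have bv : ∀ ξ, ‖v ξ s‖ ≤ Ds 0 * ((1 + |ξ|) * er ξ s) := fun ξ => nl2_bd hv ξ hs
    have bd : ∀ ξ, ‖w ξ s - v ξ s‖ ≤ D * ((1 + |ξ|) * er ξ s) := fun ξ => hwv ξ s hs
    have e1 := hb (fun ξ => w ξ s) (fun ξ => w ξ s - v ξ s) (Cs 0) D s hs.1 hA hD cw cd bw bd ξ
    have e2 := hb (fun ξ => w ξ s - v ξ s) (fun ξ => v ξ s) D (Ds 0) s hs.1 hD hB cd cvv bd bv ξ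
    have e3 := hb (fun ξ => w ξ s) (fun ξ => w ξ s) (Cs 0) (Cs 0) s hs.1 hA hA cw cw bw bw ξ
    have e4 := hb (fun ξ => v ξ s) (fun ξ => v ξ s) (Ds 0) (Ds 0) s hs.1 hB hB cvv cvv bv bv ξ
    have e5 : cv w w ξ s - cv v v ξ s = (∫ η, w η s * (w (ξ - η) s - v (ξ - η) s)) +
        ∫ η, (w η s - v η s) * v (ξ - η) s := by
      unfold cv
      rw [← integral_sub e3.1 e4.1, ← integral_add e1.1 e2.1]
      refine integral_congr_ae (Eventually.of_forall fun η => ?_)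
      simp only
      ring
    rw [e5]
    refine (norm_add_le _ _).trans ?_
    refine (add_le_add e1.2 e2.2).trans (le_of_eq ?_)
    ring
  unfold Nl
  rw [← intervalIntegral.integral_sub (hi w Cs hw) (hi v Ds hv)]
  have hbound : ∀ s ∈ Ioc 0 T, ‖(κ ξ τ s : ℂ) * cv w w ξ s - (κ ξ τ s : ℂ) * cv v v ξ s‖ ≤
      C * K * (Cs 0 + Ds 0) * D *
        (min 1 ((1 + ξ ^ 2) * s) * Real.exp (-(ξ ^ 2 * |τ - s| / 4)) *
          (er ξ s * ((1 + |ξ|) ^ 3 + (s * Real.sqrt s)⁻¹))) := by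
    intro s hs
    rw [← mul_sub, norm_mul, Complex.norm_real, Real.norm_eq_abs]
    have h0 := hmin s hs
    refine (mul_le_mul (hk1 s hs) (hcv s hs) (norm_nonneg _) (by positivity)).trans (le_of_eq ?_)
    ring
  refine (intervalIntegral.norm_integral_le_of_norm_le hT.le
    (Eventually.of_forall fun s hs => hbound s hs)
    ((hti ξ τ hτ).1.const_mul _)).trans ?_
  rw [intervalIntegral.integral_const_mul]
  have h0 : 0 ≤ C * K * (Cs 0 + Ds 0) * D := by positivity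
  refine (mul_le_mul_of_nonneg_left (hti ξ τ hτ).2 h0).trans (le_of_eq ?_)
  ring

end Pool.Agent.Q82.BC
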