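import Mathlib

open Filter Topology Asymptotics

namespace Pool.Agent.Q94.AL

noncomputable section

lemma mv_step {f f' : ℝ → ℝ} {r C : ℝ} (hr : 0 ≤ r)
    (hf : ∀ b ∈ Set.Icc (-r) r, HasDerivAt f (f' b) b)
    (hC : ∀ b ∈ Set.Icc (-r) r, |f' b| ≤ C) (h0 : f 0 = 0) :
    ∀ b ∈ Set.Icc (-r) r, |f b| ≤ C * r := by
  intro b hb
  have h00 : (0 : ℝ) ∈ Set.Icc (-r) r := ⟨by linarith, hr⟩
  have h := (convex_Icc (-r) r).norm_image_sub_le_of_norm_hasDerivWithin_le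
    (f := f) (f' := f') (C := C) (fun x hx => (hf x hx).hasDerivWithinAt)
    (fun x hx => hC x hx) h00 hb
  rw [h0, sub_zero, sub_zero, Real.norm_eq_abs, Real.norm_eq_abs] at h
  have hC0 : 0 ≤ C := (abs_nonneg _).trans (hC 0 h00)
  exact h.trans (mul_le_mul_of_nonneg_left (abs_le.2 hb) hC0)

/-- third order expansion of the real power near `1` -/
lemma rpow_taylor (ν : ℝ) : ∃ C : ℝ, 0 ≤ C ∧ ∀ a : ℝ, |a| ≤ 1 / 2 →
    |(1 + a) ^ ν - (1 + ν * a + ν * (ν - 1) / 2 * a ^ 2)| ≤ C * |a| ^ 3 := by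
  have hpos : ∀ b ∈ Set.Icc (-(1 / 2 : ℝ)) (1 / 2), 0 < 1 + b := by
    intro b hb; linarith [hb.1]
  obtain ⟨C, hC⟩ := (isCompact_Icc (a := -(1 / 2 : ℝ)) (b := 1 / 2)).exists_bound_of_continuousOn
    (f := fun b : ℝ => ν * (ν - 1) * (ν - 2) * (1 + b) ^ (ν - 3)) (by
      intro b hb
      have : ContinuousAt (fun b : ℝ => ν * (ν - 1) * (ν - 2) * (1 + b) ^ (ν - 3)) b := by
        apply ContinuousAt.mul continuousAt_const
        apply ContinuousAt.rpow_const (by fun_prop)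
        exact Or.inl (hpos b hb).ne'
      exact this.continuousWithinAt)
  have hC0 : 0 ≤ C := (norm_nonneg _).trans (hC 0 (by constructor <;> norm_num))
  refine ⟨C, hC0, fun a ha => ?_⟩
  set r := |a| with hr
  have hr0 : 0 ≤ r := abs_nonneg _
  have hsub : Set.Icc (-r) r ⊆ Set.Icc (-(1 / 2 : ℝ)) (1 / 2) := Set.Icc_subset_Icc (by linarith) ha
  have hd : ∀ (μ : ℝ), ∀ b ∈ Set.Icc (-r) r,
      HasDerivAt (fun b : ℝ => (1 + b) ^ μ) (μ * (1 + b) ^ (μ - 1)) b := by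
    intro μ b hb
    have h1 : HasDerivAt (fun b : ℝ => 1 + b) 1 b := (hasDerivAt_id b).const_add 1
    have h2 := h1.rpow_const (p := μ) (Or.inl (hpos b (hsub hb)).ne')
    convert h2 using 1
    ring
  have h2 : ∀ b ∈ Set.Icc (-r) r, |ν * (ν - 1) * (1 + b) ^ (ν - 2) - ν * (ν - 1)| ≤ C * r := by
    apply mv_step (f := fun b => ν * (ν - 1) * (1 + b) ^ (ν - 2) - ν * (ν - 1))
      (f' := fun b => ν * (ν - 1) * (ν - 2) * (1 + b) ^ (ν - 3)) hr0
    · intro b hb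
      have h3 : HasDerivAt (fun b : ℝ => ν * (ν - 1) * (1 + b) ^ (ν - 2) - ν * (ν - 1))
          (ν * (ν - 1) * ((ν - 2) * (1 + b) ^ (ν - 2 - 1))) b :=
        ((hd (ν - 2) b hb).const_mul (ν * (ν - 1))).sub_const (ν * (ν - 1))
      have h4 : ν * (ν - 1) * (ν - 2) * (1 + b) ^ (ν - 3)
          = ν * (ν - 1) * ((ν - 2) * (1 + b) ^ (ν - 2 - 1)) := by
        rw [show ν - 2 - 1 = ν - 3 by ring]
        ring
      rw [h4]
      exact h3
    · intro b hb
      exact hC b (hsub hb)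
    · simp
  have h1 : ∀ b ∈ Set.Icc (-r) r, |ν * (1 + b) ^ (ν - 1) - (ν + ν * (ν - 1) * b)| ≤ C * r * r := by
    apply mv_step (f := fun b => ν * (1 + b) ^ (ν - 1) - (ν + ν * (ν - 1) * b))
      (f' := fun b => ν * (ν - 1) * (1 + b) ^ (ν - 2) - ν * (ν - 1)) hr0 _ h2
    · simp
    · intro b hb
      have e1 := (hd (ν - 1) b hb).const_mul ν
      have e2 : HasDerivAt (fun b : ℝ => ν + ν * (ν - 1) * b) (ν * (ν - 1)) b := by
        have := ((hasDerivAt_id b).const_mul (ν * (ν - 1))).const_add ν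
        simpa using this
      have e3 : HasDerivAt (fun b : ℝ => ν * (1 + b) ^ (ν - 1) - (ν + ν * (ν - 1) * b))
          (ν * ((ν - 1) * (1 + b) ^ (ν - 1 - 1)) - ν * (ν - 1)) b := e1.sub e2
      have h4 : ν * (ν - 1) * (1 + b) ^ (ν - 2) - ν * (ν - 1)
          = ν * ((ν - 1) * (1 + b) ^ (ν - 1 - 1)) - ν * (ν - 1) := by
        rw [show ν - 1 - 1 = ν - 2 by ring]
        ring
      rw [h4]
      exact e3
  have h0 : ∀ b ∈ Set.Icc (-r) r, |(1 + b) ^ ν - (1 + ν * b + ν * (ν - 1) / 2 * b ^ 2)|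
      ≤ C * r * r * r := by
    apply mv_step (f := fun b => (1 + b) ^ ν - (1 + ν * b + ν * (ν - 1) / 2 * b ^ 2))
      (f' := fun b => ν * (1 + b) ^ (ν - 1) - (ν + ν * (ν - 1) * b)) hr0 _ h1
    · simp
    · intro b hb
      have e1 := hd ν b hb
      have e2 : HasDerivAt (fun b : ℝ => 1 + ν * b + ν * (ν - 1) / 2 * b ^ 2)
          (ν + ν * (ν - 1) * b) b := by
        have a1 : HasDerivAt (fun b : ℝ => 1 + ν * b) ν b := by
          simpa using ((hasDerivAt_id b).const_mul ν).const_add 1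
        have a2 : HasDerivAt (fun b : ℝ => ν * (ν - 1) / 2 * b ^ 2) (ν * (ν - 1) * b) b := by
          have h3 : HasDerivAt (fun b : ℝ => ν * (ν - 1) / 2 * b ^ 2)
              (ν * (ν - 1) / 2 * (((2 : ℕ) : ℝ) * b ^ (2 - 1))) b :=
            (hasDerivAt_pow 2 b).const_mul (ν * (ν - 1) / 2)
          have h4 : ν * (ν - 1) * b = ν * (ν - 1) / 2 * (((2 : ℕ) : ℝ) * b ^ (2 - 1)) := by
            push_cast
            ring
          rw [h4]
          exact h3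
        exact a1.add a2
      exact e1.sub e2
  have := h0 a ⟨neg_abs_le a, le_abs_self a⟩
  calc _ ≤ C * r * r * r := this
    _ = C * r ^ 3 := by ring

variable {A : Type*} [CStarAlgebra A]

lemma norm_one_le' : ‖(1 : A)‖ ≤ 1 := by
  rcases subsingleton_or_nontrivial A with h | h
  · have : (1 : A) = 0 := Subsingleton.elim _ _
    rw [this, norm_zero]; norm_num
  · rw [CStarRing.norm_one]

lemma spec_abs_le {a : A} {t : ℝ} (ht : t ∈ spectrum ℝ a) : |t| ≤ ‖a‖ := by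
  have h1 := spectrum.norm_le_norm_mul_of_mem ht
  have h2 : ‖a‖ * ‖(1 : A)‖ ≤ ‖a‖ * 1 := mul_le_mul_of_nonneg_left norm_one_le' (norm_nonneg _)
  rw [mul_one] at h2
  exact h1.trans h2

lemma cfc_one_add {f : ℝ → ℝ} {a : A} (ha : IsSelfAdjoint a)
    (hf : ContinuousOn f ((fun t : ℝ => 1 + t) '' spectrum ℝ a)) :
    cfc f (1 + a) = cfc (fun t : ℝ => f (1 + t)) a := by
  have h1 : cfc (fun t : ℝ => 1 + t) a = 1 + a := by
    rw [cfc_const_add (1 : ℝ) (fun t => t) a (by fun_prop) ha, cfc_id' ℝ a, map_one]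
  rw [← h1]
  exact (cfc_comp' f (fun t : ℝ => 1 + t) a hf (by fun_prop) ha).symm

lemma cont_pow_one_add (ν : ℝ) {a : A} (hn : ‖a‖ ≤ 1 / 2) :
    ContinuousOn (fun t : ℝ => t ^ ν) ((fun t : ℝ => 1 + t) '' spectrum ℝ a) := by
  rintro _ ⟨t, ht, rfl⟩
  have h1 := (abs_le.1 ((spec_abs_le ht).trans hn)).1
  have h2 : (0 : ℝ) < 1 + t := by linarith
  exact (Real.continuousAt_rpow_const _ _ (Or.inl h2.ne')).continuousWithinAt

lemma cfc_taylor (ν : ℝ) : ∃ C : ℝ, 0 ≤ C ∧ ∀ a : A, IsSelfAdjoint a → ‖a‖ ≤ 1 / 2 →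
    ‖cfc (fun t : ℝ => t ^ ν) (1 + a) - (1 + ν • a + (ν * (ν - 1) / 2) • (a * a))‖
      ≤ C * ‖a‖ ^ 3 := by
  obtain ⟨C, hC0, hC⟩ := rpow_taylor ν
  refine ⟨C, hC0, fun a ha hn => ?_⟩
  have hsp : ∀ t ∈ spectrum ℝ a, |t| ≤ ‖a‖ := fun t ht => spec_abs_le ht
  have hcont : ContinuousOn (fun t : ℝ => (1 + t) ^ ν) (spectrum ℝ a) := by
    have := cont_pow_one_add ν hn
    exact this.comp (by fun_prop) (fun t ht => Set.mem_image_of_mem _ ht)
  have h1 : cfc (fun t : ℝ => 1 + ν * t + ν * (ν - 1) / 2 * t ^ 2) a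
      = 1 + ν • a + (ν * (ν - 1) / 2) • (a * a) := by
    rw [cfc_add (a := a) (fun t : ℝ => 1 + ν * t) (fun t => ν * (ν - 1) / 2 * t ^ 2)
      (by fun_prop) (by fun_prop), cfc_const_add (1 : ℝ) (fun t => ν * t) a (by fun_prop) ha,
      cfc_const_mul ν (fun t => t) a (by fun_prop),
      cfc_const_mul (ν * (ν - 1) / 2) (fun t => t ^ 2) a (by fun_prop),
      cfc_id' ℝ a, cfc_pow_id a 2, map_one, pow_two]
  rw [cfc_one_add ha (cont_pow_one_add ν hn), ← h1, ← cfc_sub _ _ _ hcont (by fun_prop)]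
  apply norm_cfc_le (by positivity)
  intro t ht
  rw [Real.norm_eq_abs]
  refine (hC t ((hsp t ht).trans hn)).trans ?_
  have := hsp t ht
  gcongr

/-- order of vanishing at `0` -/
def O (n : ℕ) (f : A → A) : Prop := f =O[𝓝 0] (fun Z : A => ‖Z‖ ^ n)

namespace O

variable {m n : ℕ} {f g : A → A}

lemma add (hf : O n f) (hg : O n g) : O n (fun Z => f Z + g Z) := IsBigO.add hf hg

lemma sub (hf : O n f) (hg : O n g) : O n (fun Z => f Z - g Z) := IsBigO.sub hf hg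

lemma smul (c : ℝ) (hf : O n f) : O n (fun Z => c • f Z) := IsBigO.const_smul_left hf c

lemma mul (hf : O m f) (hg : O n g) : O (m + n) (fun Z => f Z * g Z) := by
  have h : (fun Z => f Z * g Z) =O[𝓝 0] (fun Z : A => ‖Z‖ ^ m * ‖Z‖ ^ n) := IsBigO.mul hf hg
  unfold O
  simp only [pow_add]
  exact h

lemma mono (h : m ≤ n) (hf : O n f) : O m f := by
  refine IsBigO.trans hf ?_
  apply IsBigO.of_bound 1
  have h1 : ∀ᶠ Z : A in 𝓝 0, ‖Z‖ < 1 := by
    have := Metric.ball_mem_nhds (0 : A) one_pos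
    filter_upwards [this] with Z hZ
    simpa using hZ
  filter_upwards [h1] with Z hZ
  rw [one_mul, norm_pow, norm_pow, norm_norm]
  exact pow_le_pow_of_le_one (norm_nonneg _) hZ.le h

lemma id : O 1 (fun Z : A => Z) := by
  apply IsBigO.of_bound 1
  filter_upwards with Z
  simp

lemma star' : O 1 (fun Z : A => star Z) := by
  apply IsBigO.of_bound 1
  filter_upwards with Z
  simp

lemma const (a : A) : O 0 (fun _ : A => a) := by
  apply IsBigO.of_bound ‖a‖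
  filter_upwards with Z
  simp

lemma starf (hf : O n f) : O n (fun Z => star (f Z)) := by
  refine IsBigO.trans (IsBigO.of_bound 1 ?_) hf
  filter_upwards with Z
  simp

lemma congr' (hf : O n f) (h : ∀ᶠ Z in 𝓝 (0 : A), f Z = g Z) : O n g :=
  IsBigO.congr' hf h (EventuallyEq.refl _ _)

lemma tendsto (hf : O (n + 1) f) : Tendsto f (𝓝 0) (𝓝 0) := by
  have hf1 : O 1 f := hf.mono (by omega)
  have h2 : Tendsto (fun Z : A => ‖Z‖ ^ 1) (𝓝 0) (𝓝 0) := by
    have : Continuous (fun Z : A => ‖Z‖ ^ 1) := by fun_prop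
    have h := this.tendsto 0
    simpa using h
  exact IsBigO.trans_tendsto hf1 h2

lemma comp (hf : O n f) (hg : O 1 g) : O n (fun Z => f (g Z)) := by
  have h1 : (fun Z => f (g Z)) =O[𝓝 0] (fun Z => ‖g Z‖ ^ n) :=
    IsBigO.comp_tendsto hf (O.tendsto (n := 0) hg)
  refine h1.trans ?_
  have h2 : (fun Z => ‖g Z‖) =O[𝓝 0] (fun Z : A => ‖Z‖ ^ 1) := IsBigO.norm_left hg
  have h3 := h2.pow n
  simpa using h3

end O

/-- commutator -/
def br (x y : A) : A := x * y - y * x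

/-- the expansion polynomial -/
def P4 (κ δ β γ : ℝ) (Z : A) : A :=
  1 + Z + κ • br (star Z) Z + δ • br Z (br Z (star Z)) + β • br (star Z) (br (star Z) Z)
    - γ • br (star Z * star Z) Z

/-- `(T^*T)^ν T (T^*T)^(-ν)` -/
def Sf (ν : ℝ) (T : A) : A :=
  cfc (fun t : ℝ => t ^ ν) (star T * T) * T * cfc (fun t : ℝ => t ^ (-ν)) (star T * T)

end

end Pool.Agent.Q94.AL
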