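import Pool.Agent.Q94.ALB

open Filter Topology Asymptotics

namespace Pool.Agent.Q94.AL

noncomputable section

variable {A : Type*} [CStarAlgebra A]

lemma norm_small {f : A → A} {n : ℕ} (hf : O (n + 1) f) {ε : ℝ} (hε : 0 < ε) :
    ∀ᶠ Z in 𝓝 (0 : A), ‖f Z‖ ≤ ε := by
  have h := hf.tendsto
  have h2 := h.eventually (Metric.closedBall_mem_nhds (0 : A) hε)
  filter_upwards [h2] with Z hZ
  simpa using hZ

/-- `T^*T - 1` for `T = 1 + Z` -/
def Af (Z : A) : A := star Z + Z + star Z * Z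

lemma star_mul_one_add (Z : A) : star (1 + Z) * (1 + Z) = 1 + Af Z := by
  unfold Af
  rw [star_add, star_one]
  noncomm_ring

lemma Af_sa (Z : A) : IsSelfAdjoint (Af Z) := by
  unfold Af
  rw [IsSelfAdjoint]
  simp only [star_add, star_mul, star_star]
  abel

lemma O_Q : O 2 (fun Z : A => star Z * Z) := O.mul O.star' O.id

lemma O_H : O 1 (fun Z : A => star Z + Z) := O.add O.star' O.id

lemma O_A : O 1 (fun Z : A => Af Z) := O.add O_H (O_Q.mono (by norm_num))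

/-- polynomial part -/
def pf (ν : ℝ) (Z : A) : A := 1 + ν • Af Z + (ν * (ν - 1) / 2) • (Af Z * Af Z)

/-- remainder -/
def Rf (ν : ℝ) (Z : A) : A := cfc (fun t : ℝ => t ^ ν) (1 + Af Z) - pf ν Z

lemma O_R (ν : ℝ) : O 3 (fun Z : A => Rf ν Z) := by
  obtain ⟨C, hC0, hC⟩ := cfc_taylor (A := A) ν
  have h1 : O 3 (fun Z : A => Af Z * Af Z * Af Z) := O.mul (O.mul O_A O_A) O_A
  have h2 : (fun Z : A => ‖Af Z‖ ^ 3) =O[𝓝 0] (fun Z : A => ‖Z‖ ^ 3) := by
    have h := (IsBigO.norm_left (O_A (A := A))).pow 3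
    simpa using h
  refine IsBigO.trans ?_ h2
  apply IsBigO.of_bound C
  filter_upwards [norm_small (n := 0) (O_A (A := A)) (ε := 1 / 2) (by norm_num)] with Z hZ
  rw [norm_pow, norm_norm]
  exact hC _ (Af_sa Z) hZ

lemma O_p (ν : ℝ) : O 0 (fun Z : A => pf ν Z) :=
  O.add (O.add (O.const 1) ((O_A.smul ν).mono (by norm_num)))
    (((O.mul O_A O_A).smul _).mono (by norm_num))

lemma O_f (ν : ℝ) : O 0 (fun Z : A => cfc (fun t : ℝ => t ^ ν) (1 + Af Z)) := by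
  have h : O 0 (fun Z : A => pf ν Z + Rf ν Z) := O.add (O_p ν) ((O_R ν).mono (by norm_num))
  have e : (fun Z : A => cfc (fun t : ℝ => t ^ ν) (1 + Af Z)) = fun Z => pf ν Z + Rf ν Z := by
    ext Z; unfold Rf; abel
  rw [e]; exact h

lemma f_mul_f (ν : ℝ) : ∀ᶠ Z in 𝓝 (0 : A),
    cfc (fun t : ℝ => t ^ ν) (1 + Af Z) * cfc (fun t : ℝ => t ^ (-ν)) (1 + Af Z) = 1 := by
  filter_upwards [norm_small (n := 0) (O_A (A := A)) (ε := 1 / 2) (by norm_num)] with Z hZ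
  have hA : IsSelfAdjoint (Af Z) := Af_sa Z
  have hsp : ∀ t ∈ spectrum ℝ (1 + Af Z), 0 < t := by
    intro t ht
    have e : cfc (fun t : ℝ => 1 + t) (Af Z) = 1 + Af Z := by
      rw [cfc_const_add (1 : ℝ) (fun t => t) (Af Z) (by fun_prop) hA, cfc_id' ℝ (Af Z), map_one]
    rw [← e, cfc_map_spectrum (fun t : ℝ => 1 + t) (Af Z) hA (by fun_prop)] at ht
    obtain ⟨u, hu, rfl⟩ := ht
    have := (abs_le.1 ((spec_abs_le hu).trans hZ)).1
    simp only
    linarith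
  have h1A : IsSelfAdjoint (1 + Af Z) := (IsSelfAdjoint.one A).add hA
  have hc : ∀ μ : ℝ, ContinuousOn (fun t : ℝ => t ^ μ) (spectrum ℝ (1 + Af Z)) := fun μ t ht =>
    (Real.continuousAt_rpow_const _ _ (Or.inl (hsp t ht).ne')).continuousWithinAt
  rw [← cfc_mul _ _ _ (hc ν) (hc (-ν))]
  have : cfc (fun t : ℝ => t ^ ν * t ^ (-ν)) (1 + Af Z) = cfc (fun _ : ℝ => (1 : ℝ)) (1 + Af Z) := by
    apply cfc_congr
    intro t ht
    simp only
    rw [← Real.rpow_add (hsp t ht)]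
    simp
  rw [this, cfc_const_one ℝ (1 + Af Z)]

lemma Sf_alg (ν : ℝ) (Z F G R R' : A)
    (hF : F = 1 + ν • Af Z + (ν * (ν - 1) / 2) • (Af Z * Af Z) + R)
    (hG : G = 1 + (-ν) • Af Z + ((-ν) * ((-ν) - 1) / 2) • (Af Z * Af Z) + R')
    (hFG : F * G = 1) :
    F * (1 + Z) * G - P4 ν (ν * (1 - ν) / 2) (ν ^ 2 / 2) (ν / 2) Z
      = R * Z * G + (1 + ν • Af Z + (ν * (ν - 1) / 2) • (Af Z * Af Z)) * Z * R'
        - (ν * (ν * (ν - 1) / 2)) • (Af Z * Af Z * Z * Af Z)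
        + (ν * (ν * (ν + 1) / 2)) • (Af Z * Z * Af Z * Af Z)
        + ((ν * (ν - 1) / 2) * (ν * (ν + 1) / 2)) • (Af Z * Af Z * Z * Af Z * Af Z)
        + (ν * (ν - 1) / 2) • (((star Z + Z) * (star Z * Z) + (star Z * Z) * (star Z + Z)
            + (star Z * Z) * (star Z * Z)) * Z)
        + (ν * (ν + 1) / 2) • (Z * ((star Z + Z) * (star Z * Z) + (star Z * Z) * (star Z + Z)
            + (star Z * Z) * (star Z * Z)))
        - (ν * ν) • ((star Z + Z) * Z * (star Z * Z) + (star Z * Z) * Z * (star Z + Z)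
            + (star Z * Z) * Z * (star Z * Z)) := by
  have e1 : F * (1 + Z) * G = 1 + F * Z * G := by
    rw [mul_add, mul_one, add_mul, hFG]
  have e2 : F * Z * G = R * Z * G + (1 + ν • Af Z + (ν * (ν - 1) / 2) • (Af Z * Af Z)) * Z * R'
      + (1 + ν • Af Z + (ν * (ν - 1) / 2) • (Af Z * Af Z)) * Z
        * (1 + (-ν) • Af Z + ((-ν) * ((-ν) - 1) / 2) • (Af Z * Af Z)) := by
    conv_lhs => rw [hF]
    rw [add_mul _ R Z, add_mul _ (R * Z) G]
    conv_lhs => enter [1]; rw [hG]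
    rw [mul_add _ _ R']
    abel
  rw [e1, e2]
  unfold P4 br Af
  simp only [mul_add, add_mul, mul_sub, sub_mul, smul_add, smul_sub, smul_mul_assoc,
    mul_smul_comm, ← mul_assoc, mul_one, one_mul]
  module

/-- expansion of `Sf ν` at `1` -/
lemma Sf_exp (ν : ℝ) :
    O 4 (fun Z : A => Sf ν (1 + Z) - P4 ν (ν * (1 - ν) / 2) (ν ^ 2 / 2) (ν / 2) Z) := by
  have hA : O 1 (fun Z : A => Af Z) := O_A
  have hZ : O 1 (fun Z : A => Z) := O.id
  have hQ : O 2 (fun Z : A => star Z * Z) := O_Q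
  have hH : O 1 (fun Z : A => star Z + Z) := O_H
  have hHQ : O 3 (fun Z : A => (star Z + Z) * (star Z * Z) + (star Z * Z) * (star Z + Z)
            + (star Z * Z) * (star Z * Z)) :=
    ((hH.mul hQ).add (hQ.mul hH)).add ((hQ.mul hQ).mono (by norm_num))
  have t1 : O 4 (fun Z : A => Rf ν Z * Z * cfc (fun t : ℝ => t ^ (-ν)) (1 + Af Z)) :=
    ((O_R ν).mul hZ).mul (O_f (-ν))
  have t2 : O 4 (fun Z : A => (1 + ν • Af Z + (ν * (ν - 1) / 2) • (Af Z * Af Z)) * Z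
      * Rf (-ν) Z) := ((O_p ν).mul hZ).mul (O_R (-ν))
  have t3 : O 4 (fun Z : A => (ν * (ν * (ν - 1) / 2)) • (Af Z * Af Z * Z * Af Z)) :=
    (((hA.mul hA).mul hZ).mul hA).smul _
  have t4 : O 4 (fun Z : A => (ν * (ν * (ν + 1) / 2)) • (Af Z * Z * Af Z * Af Z)) :=
    (((hA.mul hZ).mul hA).mul hA).smul _
  have t5 : O 4 (fun Z : A => ((ν * (ν - 1) / 2) * (ν * (ν + 1) / 2)) •
      (Af Z * Af Z * Z * Af Z * Af Z)) :=
    O.mono (n := 5) (by norm_num) (((((hA.mul hA).mul hZ).mul hA).mul hA).smul _)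
  have t6 : O 4 (fun Z : A => (ν * (ν - 1) / 2) • (((star Z + Z) * (star Z * Z)
      + (star Z * Z) * (star Z + Z) + (star Z * Z) * (star Z * Z)) * Z)) :=
    (hHQ.mul hZ).smul _
  have t7 : O 4 (fun Z : A => (ν * (ν + 1) / 2) • (Z * ((star Z + Z) * (star Z * Z)
      + (star Z * Z) * (star Z + Z) + (star Z * Z) * (star Z * Z)))) :=
    (hZ.mul hHQ).smul _
  have t8 : O 4 (fun Z : A => (ν * ν) • ((star Z + Z) * Z * (star Z * Z)
      + (star Z * Z) * Z * (star Z + Z) + (star Z * Z) * Z * (star Z * Z))) :=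
    ((((hH.mul hZ).mul hQ).add ((hQ.mul hZ).mul hH)).add
      (((hQ.mul hZ).mul hQ).mono (by norm_num))).smul _
  refine O.congr' ((((((((t1.add t2).sub t3).add t4).add t5).add t6).add t7)).sub t8) ?_
  filter_upwards [f_mul_f (A := A) ν] with Z hFG
  have e := Sf_alg ν Z (cfc (fun t : ℝ => t ^ ν) (1 + Af Z))
    (cfc (fun t : ℝ => t ^ (-ν)) (1 + Af Z)) (Rf ν Z) (Rf (-ν) Z)
    (by unfold Rf pf; abel) (by unfold Rf pf; abel) hFG
  unfold Sf
  rw [star_mul_one_add, e]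

end

end Pool.Agent.Q94.AL
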