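import Pool.Agent.Q94.ALC

open Filter Topology Asymptotics

namespace Pool.Agent.Q94.AL

noncomputable section

variable {A : Type*} [CStarAlgebra A]

/-- third order expansion property -/
def Exp (L : A → A) : Prop :=
  ∃ κ δ β γ : ℝ, κ ≠ 0 ∧ γ ≠ 0 ∧ O 4 (fun Z : A => L (1 + Z) - P4 κ δ β γ Z)

lemma P4_half (κ δ β γ κ' δ' β' γ' : ℝ) (Z : A) :
    (1 / 2 : ℝ) • (P4 κ δ β γ Z + P4 κ' δ' β' γ' Z)
      = P4 ((κ + κ') / 2) ((δ + δ') / 2) ((β + β') / 2) ((γ + γ') / 2) Z := by
  unfold P4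
  module

lemma mean_exp (a b : ℝ) :
    O 4 (fun Z : A => (1 / 2 : ℝ) • (Sf a (1 + Z) + Sf b (1 + Z))
      - P4 ((a + b) / 2) ((a * (1 - a) / 2 + b * (1 - b) / 2) / 2) ((a ^ 2 / 2 + b ^ 2 / 2) / 2)
        ((a / 2 + b / 2) / 2) Z) := by
  have h := ((Sf_exp (A := A) a).add (Sf_exp (A := A) b)).smul (1 / 2 : ℝ)
  have e : (fun Z : A => (1 / 2 : ℝ) • (Sf a (1 + Z) + Sf b (1 + Z))
      - P4 ((a + b) / 2) ((a * (1 - a) / 2 + b * (1 - b) / 2) / 2) ((a ^ 2 / 2 + b ^ 2 / 2) / 2)
        ((a / 2 + b / 2) / 2) Z)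
      = fun Z => (1 / 2 : ℝ) • (Sf a (1 + Z) - P4 a (a * (1 - a) / 2) (a ^ 2 / 2) (a / 2) Z
        + (Sf b (1 + Z) - P4 b (b * (1 - b) / 2) (b ^ 2 / 2) (b / 2) Z)) := by
    ext Z
    rw [← P4_half]
    module
  rw [e]
  exact h

/-- two functions of order `n` with the same leading part -/
def Q (n : ℕ) (f g : A → A) : Prop := O n f ∧ O n g ∧ O (n + 1) (fun Z => f Z - g Z)

lemma Q.mul {m n : ℕ} {f g f' g' : A → A} (h : Q m f g) (h' : Q n f' g') :
    Q (m + n) (fun Z => f Z * f' Z) (fun Z => g Z * g' Z) := by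
  refine ⟨h.1.mul h'.1, h.2.1.mul h'.2.1, ?_⟩
  have h1 : O (m + n + 1) (fun Z => (f Z - g Z) * f' Z) :=
    (h.2.2.mul h'.1).mono (by omega)
  have h2 : O (m + n + 1) (fun Z => g Z * (f' Z - g' Z)) :=
    (h.2.1.mul h'.2.2).mono (by omega)
  refine (h1.add h2).congr' ?_
  filter_upwards with Z
  noncomm_ring

lemma Q.sub {n : ℕ} {f g f' g' : A → A} (h : Q n f g) (h' : Q n f' g') :
    Q n (fun Z => f Z - f' Z) (fun Z => g Z - g' Z) := by
  refine ⟨h.1.sub h'.1, h.2.1.sub h'.2.1, ?_⟩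
  refine (h.2.2.sub h'.2.2).congr' ?_
  filter_upwards with Z
  abel

lemma Q.br {m n : ℕ} {f g f' g' : A → A} (h : Q m f g) (h' : Q n f' g') :
    Q (m + n) (fun Z => br (f Z) (f' Z)) (fun Z => br (g Z) (g' Z)) := by
  have h2 := h'.mul h
  rw [add_comm n m] at h2
  exact (h.mul h').sub h2

lemma Q.starf {n : ℕ} {f g : A → A} (h : Q n f g) :
    Q n (fun Z => star (f Z)) (fun Z => star (g Z)) := by
  refine ⟨h.1.starf, h.2.1.starf, ?_⟩
  refine h.2.2.starf.congr' ?_
  filter_upwards with Z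
  rw [star_sub]

lemma O_br {m n : ℕ} {f g : A → A} (h : O m f) (h' : O n g) :
    O (m + n) (fun Z => Pool.Agent.Q94.AL.br (f Z) (g Z)) := by
  have h2 := h'.mul h
  rw [add_comm n m] at h2
  exact (h.mul h').sub h2

lemma comp_alg (κ δ β γ κ' δ' β' γ' : ℝ) (Z z u v : A) (hz : z = Z + u)
    (hu : u = κ • br (star Z) Z + v)
    (_hv : v = δ • br Z (br Z (star Z)) + β • br (star Z) (br (star Z) Z)
      - γ • br (star Z * star Z) Z + (z - (P4 κ δ β γ Z - 1))) :
    P4 κ' δ' β' γ' z - P4 (κ + κ') (δ + δ' + κ * κ') (β + β' + κ * κ') (γ + γ') Z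
      = (z - (P4 κ δ β γ Z - 1)) + κ' • (br (star Z) v + br (star v) Z + br (star u) u)
        + δ' • (br z (br z (star z)) - br Z (br Z (star Z)))
        + β' • (br (star z) (br (star z) z) - br (star Z) (br (star Z) Z))
        - γ' • (br (star z * star z) z - br (star Z * star Z) Z) := by
  have hbr : br (star z) z = br (star Z) Z + κ • br Z (br Z (star Z))
      + κ • br (star Z) (br (star Z) Z)
      + (br (star Z) v + br (star v) Z + br (star u) u) := by
    have e1 : br (star z) z = br (star Z) Z + br (star Z) u + br (star u) Z + br (star u) u := by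
      rw [hz, star_add]
      unfold br
      noncomm_ring
    have e2 : star u = κ • br (star Z) Z + star v := by
      rw [hu, star_add, star_smul]
      congr 1
      unfold br
      simp only [star_sub, star_mul, star_star, star_trivial]
    have e3 : br (star Z) u = κ • br (star Z) (br (star Z) Z) + br (star Z) v := by
      conv_lhs => rw [hu]
      unfold br
      simp only [mul_add, add_mul, mul_sub, sub_mul, smul_sub, smul_mul_assoc, mul_smul_comm,
        ← mul_assoc]
      module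
    have e4 : br (star u) Z = κ • br Z (br Z (star Z)) + br (star v) Z := by
      rw [e2]
      unfold br
      simp only [mul_add, add_mul, mul_sub, sub_mul, smul_sub, smul_mul_assoc, mul_smul_comm,
        ← mul_assoc]
      module
    rw [e1, e3, e4]
    abel
  have h1 : P4 κ' δ' β' γ' z = 1 + z + κ' • (br (star Z) Z + κ • br Z (br Z (star Z))
      + κ • br (star Z) (br (star Z) Z)
      + (br (star Z) v + br (star v) Z + br (star u) u)) + δ' • br z (br z (star z))
      + β' • br (star z) (br (star z) z) - γ' • br (star z * star z) z := by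
    rw [← hbr]; rfl
  rw [h1]
  unfold P4
  module

lemma comp_exp (κ δ β γ κ' δ' β' γ' : ℝ) (f : A → A)
    (hf : O 4 (fun Z : A => f Z - P4 κ δ β γ Z)) :
    O 4 (fun Z : A => P4 κ' δ' β' γ' (f Z - 1)
      - P4 (κ + κ') (δ + δ' + κ * κ') (β + β' + κ * κ') (γ + γ') Z) := by
  have hZ : O 1 (fun Z : A => Z) := O.id
  have hZs : O 1 (fun Z : A => star Z) := O.star'
  have hR : O 4 (fun Z : A => (f Z - 1) - (P4 κ δ β γ Z - 1)) := by
    refine hf.congr' ?_
    filter_upwards with Z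
    abel
  have hE : O 3 (fun Z : A => δ • br Z (br Z (star Z)) + β • br (star Z) (br (star Z) Z)
      - γ • br (star Z * star Z) Z) :=
    (((O_br hZ (O_br hZ hZs)).smul δ).add ((O_br hZs (O_br hZs hZ)).smul β)).sub
      ((O_br (hZs.mul hZs) hZ).smul γ)
  set v : A → A := fun Z => δ • br Z (br Z (star Z)) + β • br (star Z) (br (star Z) Z)
      - γ • br (star Z * star Z) Z + ((f Z - 1) - (P4 κ δ β γ Z - 1)) with hv
  have hvO : O 3 v := hE.add (hR.mono (by norm_num))
  set u : A → A := fun Z => κ • br (star Z) Z + v Z with hu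
  have huO : O 2 u := ((O_br hZs hZ).smul κ).add (hvO.mono (by norm_num))
  have hz : ∀ Z, f Z - 1 = Z + u Z := by
    intro Z
    simp only [hu, hv]
    unfold P4
    abel
  have hQ : Q 1 (fun Z : A => f Z - 1) (fun Z => Z) := by
    have h1 : O 1 (fun Z : A => f Z - 1) := by
      refine (hZ.add (huO.mono (by norm_num))).congr' ?_
      filter_upwards with Z
      exact (hz Z).symm
    refine ⟨h1, hZ, ?_⟩
    refine huO.congr' ?_
    filter_upwards with Z
    rw [hz Z]; abel
  have hQs := hQ.starf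
  have s1 : O 4 (fun Z : A => br (star Z) (v Z)) := O_br (m := 1) (n := 3) hZs hvO
  have s2 : O 4 (fun Z : A => br (star (v Z)) Z) := O_br (m := 3) (n := 1) hvO.starf hZ
  have s3 : O 4 (fun Z : A => br (star (u Z)) (u Z)) := O_br (m := 2) (n := 2) huO.starf huO
  have t1 : O 4 (fun Z : A => κ' • (br (star Z) (v Z) + br (star (v Z)) Z
      + br (star (u Z)) (u Z))) := ((s1.add s2).add s3).smul κ'
  have t2 : O 4 (fun Z : A => δ' • (br (f Z - 1) (br (f Z - 1) (star (f Z - 1)))
      - br Z (br Z (star Z)))) := (hQ.br (hQ.br hQs)).2.2.smul δ'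
  have t3 : O 4 (fun Z : A => β' • (br (star (f Z - 1)) (br (star (f Z - 1)) (f Z - 1))
      - br (star Z) (br (star Z) Z))) := (hQs.br (hQs.br hQ)).2.2.smul β'
  have t4 : O 4 (fun Z : A => γ' • (br (star (f Z - 1) * star (f Z - 1)) (f Z - 1)
      - br (star Z * star Z) Z)) := ((hQs.mul hQs).br hQ).2.2.smul γ'
  refine ((((hR.add t1).add t2).add t3).sub t4).congr' ?_
  filter_upwards with Z
  exact (comp_alg κ δ β γ κ' δ' β' γ' Z (f Z - 1) (u Z) (v Z) (hz Z) rfl rfl).symm

end

end Pool.Agent.Q94.AL
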