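import Pool.Agent.Q94.MAD
import Pool.Agent.Q94.ALD
import Pool.Agent.Q93.Alu.Glob

open Filter Topology Asymptotics

namespace Pool.Agent.Q94.AL

open Pool.Agent.Q94.MA

noncomputable section

universe u

variable {H : Type u} [NormedAddCommGroup H] [InnerProductSpace ℂ H] [CompleteSpace H]

/-- The partial isometry of the canonical polar decomposition. -/
def pol (T : H →L[ℂ] H) : H →L[ℂ] H := (exists_polar T).choose

lemma pol_spec (T : H →L[ℂ] H) : IsPolar T (pol T) := (exists_polar T).choose_spec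

lemma pol_eq {T V : H →L[ℂ] H} (h : IsPolar T V) : pol T = V :=
  polar_unique T V (pol T) h (pol_spec T)

/-- `|T|^s` by the continuous functional calculus; `|T|^0 = 1`. -/
def absPow (T : H →L[ℂ] H) (s : ℝ) : H →L[ℂ] H := cfc (fun t : ℝ => t ^ s) (CFC.abs T)

/-- The Aluthge transform with parameter `μ`: `|T|^μ V |T|^(1-μ)`. -/
def alu (μ : ℝ) (T : H →L[ℂ] H) : H →L[ℂ] H := absPow T μ * pol T * absPow T (1 - μ)

/-- The mean transform `(V|T| + |T|V)/2`. -/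
def meanT (T : H →L[ℂ] H) : H →L[ℂ] H :=
  (1 / 2 : ℝ) • (pol T * CFC.abs T + CFC.abs T * pol T)

/-- The transform `M_l`. -/
def M (l : ℝ) (T : H →L[ℂ] H) : H →L[ℂ] H := (1 / 2 : ℝ) • (alu l T + alu (1 - l) T)

/-- The mean-Aluthge transform: the mean transform of the Aluthge transform. -/
def hatD (T : H →L[ℂ] H) : H →L[ℂ] H := meanT (alu (1 / 2) T)

lemma absPow_zero (T : H →L[ℂ] H) : absPow T 0 = 1 := by
  unfold absPow
  simp only [Real.rpow_zero]
  exact cfc_const_one ℝ (CFC.abs T) (abs_sa T)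

lemma absPow_one (T : H →L[ℂ] H) : absPow T 1 = CFC.abs T := by
  unfold absPow
  simp only [Real.rpow_one]
  exact cfc_id' ℝ (CFC.abs T) (abs_sa T)

lemma alu_zero (T : H →L[ℂ] H) : alu 0 T = T := by
  unfold alu
  rw [absPow_zero, sub_zero, absPow_one, one_mul]
  exact (pol_spec T).1.symm

lemma alu_one (T : H →L[ℂ] H) : alu 1 T = CFC.abs T * pol T := by
  unfold alu
  rw [sub_self, absPow_zero, absPow_one, mul_one]

lemma M_zero (T : H →L[ℂ] H) : M 0 T = meanT T := by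
  unfold M meanT
  rw [sub_zero, alu_one, alu_zero, ← (pol_spec T).1]

lemma abs_spec_nonneg (T : H →L[ℂ] H) {t : ℝ} (ht : t ∈ spectrum ℝ (CFC.abs T)) : 0 ≤ t :=
  spectrum_nonneg_of_nonneg (CFC.abs_nonneg T) ht

lemma abs_spec (T : H →L[ℂ] H) :
    ∀ t ∈ spectrum ℝ (CFC.abs T), 0 ≤ t ∧ t ≤ ‖CFC.abs T‖ + 1 := by
  intro t ht
  refine ⟨abs_spec_nonneg T ht, ?_⟩
  have h1 : |t| ≤ ‖CFC.abs T‖ := spec_abs_le ht
  have h4 : t ≤ |t| := le_abs_self t
  linarith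

/-- `|T|^s |T|^(1-s)` -/
lemma absPow_mul (T : H →L[ℂ] H) {l : ℝ} (h0 : 0 ≤ l) (h1 : l ≤ 1) :
    absPow T l * absPow T (1 - l) = CFC.abs T := by
  unfold absPow
  have hsa := abs_sa T
  rw [← cfc_mul _ _ _ (Q93.Alu.cont_rpow h0 _) (Q93.Alu.cont_rpow (by linarith) _)]
  conv_rhs => rw [← cfc_id' ℝ (CFC.abs T)]
  apply cfc_congr
  intro t ht
  have ht0 := abs_spec_nonneg T ht
  change t ^ l * t ^ (1 - l) = t
  rw [← Real.rpow_add' ht0 (by norm_num : l + (1 - l) ≠ 0)]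
  norm_num

/-! ### homogeneity -/

lemma pol_smul (c : ℂ) (hc : c ≠ 0) (T : H →L[ℂ] H) :
    pol (c • T) = (c / (‖c‖ : ℂ)) • pol T := by
  have h := pol_spec T
  set u : ℂ := c / (‖c‖ : ℂ) with hu
  have hn : (‖c‖ : ℂ) ≠ 0 := by
    exact_mod_cast (norm_pos_iff.2 hc).ne'
  have huu : u * star u = 1 := by
    have h1 : c * star c = (‖c‖ : ℂ) ^ 2 := by
      have := Complex.mul_conj c
      rw [Complex.normSq_eq_norm_sq] at this
      push_cast at this
      exact this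
    have h2 : star ((‖c‖ : ℝ) : ℂ) = ((‖c‖ : ℝ) : ℂ) := Complex.conj_ofReal _
    rw [hu, star_div₀, h2]
    field_simp
    exact h1
  have hu0 : u ≠ 0 := by
    intro h0; rw [h0] at huu; simp at huu
  apply pol_eq
  refine ⟨?_, ?_, ?_⟩
  · rw [CFC.abs_smul, ← Complex.coe_smul, smul_mul_smul_comm, ← h.1, hu, div_mul_cancel₀ _ hn]
  · rw [star_smul, smul_mul_smul_comm, smul_mul_smul_comm, h.2.1, huu, one_mul]
  · intro x
    rw [_root_.smul_apply, _root_.smul_apply, smul_eq_zero, smul_eq_zero, h.2.2 x]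
    simp [hu0, hc]

lemma absPow_smul (c : ℂ) (T : H →L[ℂ] H) {s : ℝ} (hs : 0 ≤ s) :
    absPow (c • T) s = (‖c‖ ^ s) • absPow T s := by
  unfold absPow
  have hsa := abs_sa T
  rw [CFC.abs_smul, ← cfc_comp_const_mul ‖c‖ (fun t : ℝ => t ^ s) (CFC.abs T)
    (Q93.Alu.cont_rpow hs _) hsa, ← cfc_const_mul (‖c‖ ^ s) (fun t : ℝ => t ^ s) (CFC.abs T)
    (Q93.Alu.cont_rpow hs _)]
  apply cfc_congr
  intro t ht
  exact Real.mul_rpow (norm_nonneg c) (abs_spec_nonneg T ht)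

lemma alu_smul {μ : ℝ} (h0 : 0 ≤ μ) (h1 : μ ≤ 1) (c : ℂ) (T : H →L[ℂ] H) :
    alu μ (c • T) = c • alu μ T := by
  rcases eq_or_ne c 0 with hc | hc
  · subst hc
    have h2 : pol (0 : H →L[ℂ] H) = 0 := by
      apply pol_eq
      refine ⟨by simp, by simp, by simp⟩
    unfold alu
    rw [zero_smul, zero_smul, h2]
    simp
  · unfold alu
    have hn : ‖c‖ ≠ 0 := norm_ne_zero_iff.2 hc
    have hn' : (‖c‖ : ℂ) ≠ 0 := by exact_mod_cast hn
    rw [pol_smul c hc, absPow_smul c T h0, absPow_smul c T (by linarith)]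
    rw [← Complex.coe_smul, ← Complex.coe_smul (‖c‖ ^ (1 - μ)), smul_mul_smul_comm,
      smul_mul_smul_comm]
    congr 1
    have h3 : ‖c‖ ^ μ * ‖c‖ ^ (1 - μ) = ‖c‖ := by
      rw [← Real.rpow_add (norm_pos_iff.2 hc)]
      norm_num
    have h4 : ((‖c‖ ^ μ : ℝ) : ℂ) * ((‖c‖ ^ (1 - μ) : ℝ) : ℂ) = (‖c‖ : ℂ) := by
      exact_mod_cast h3
    calc ((‖c‖ ^ μ : ℝ) : ℂ) * (c / (‖c‖ : ℂ)) * ((‖c‖ ^ (1 - μ) : ℝ) : ℂ)
        = (c / (‖c‖ : ℂ)) * (((‖c‖ ^ μ : ℝ) : ℂ) * ((‖c‖ ^ (1 - μ) : ℝ) : ℂ)) := by ring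
      _ = c := by rw [h4, div_mul_cancel₀ _ hn']

/-! ### unitary invariance -/

lemma abs_conj (U : unitary (H →L[ℂ] H)) (T : H →L[ℂ] H) :
    CFC.abs ((U : H →L[ℂ] H) * T * star (U : H →L[ℂ] H))
      = (U : H →L[ℂ] H) * CFC.abs T * star (U : H →L[ℂ] H) := by
  have hU : star (U : H →L[ℂ] H) * (U : H →L[ℂ] H) = 1 := Unitary.coe_star_mul_self U
  unfold CFC.abs
  apply CFC.sqrt_unique
  · have h1 := CFC.abs_mul_abs T
    unfold CFC.abs at h1
    calc (U : H →L[ℂ] H) * CFC.sqrt (star T * T) * star (U : H →L[ℂ] H)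
        * ((U : H →L[ℂ] H) * CFC.sqrt (star T * T) * star (U : H →L[ℂ] H))
        = (U : H →L[ℂ] H) * CFC.sqrt (star T * T) * (star (U : H →L[ℂ] H) * (U : H →L[ℂ] H))
          * CFC.sqrt (star T * T) * star (U : H →L[ℂ] H) := by noncomm_ring
      _ = (U : H →L[ℂ] H) * (CFC.sqrt (star T * T) * CFC.sqrt (star T * T))
          * star (U : H →L[ℂ] H) := by rw [hU]; noncomm_ring
      _ = (U : H →L[ℂ] H) * (star T * T) * star (U : H →L[ℂ] H) := by rw [h1]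
      _ = (U : H →L[ℂ] H) * (star T * (star (U : H →L[ℂ] H) * (U : H →L[ℂ] H)) * T)
          * star (U : H →L[ℂ] H) := by rw [hU]; noncomm_ring
      _ = _ := by
        rw [star_mul, star_mul, star_star]
        noncomm_ring
  · exact star_right_conjugate_nonneg (CFC.sqrt_nonneg _) _

lemma pol_conj (U : unitary (H →L[ℂ] H)) (T : H →L[ℂ] H) :
    pol ((U : H →L[ℂ] H) * T * star (U : H →L[ℂ] H))
      = (U : H →L[ℂ] H) * pol T * star (U : H →L[ℂ] H) := by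
  have hU : star (U : H →L[ℂ] H) * (U : H →L[ℂ] H) = 1 := Unitary.coe_star_mul_self U
  have h := pol_spec T
  apply pol_eq
  refine ⟨?_, ?_, ?_⟩
  · rw [abs_conj]
    calc (U : H →L[ℂ] H) * T * star (U : H →L[ℂ] H)
        = (U : H →L[ℂ] H) * (pol T * CFC.abs T) * star (U : H →L[ℂ] H) := by rw [← h.1]
      _ = (U : H →L[ℂ] H) * (pol T * (star (U : H →L[ℂ] H) * (U : H →L[ℂ] H)) * CFC.abs T)
          * star (U : H →L[ℂ] H) := by rw [hU]; noncomm_ring
      _ = _ := by noncomm_ring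
  · rw [star_mul, star_mul, star_star]
    calc (U : H →L[ℂ] H) * pol T * star (U : H →L[ℂ] H)
          * ((U : H →L[ℂ] H) * (star (pol T) * star (U : H →L[ℂ] H)))
          * ((U : H →L[ℂ] H) * pol T * star (U : H →L[ℂ] H))
        = (U : H →L[ℂ] H) * pol T * (star (U : H →L[ℂ] H) * (U : H →L[ℂ] H)) * star (pol T)
          * (star (U : H →L[ℂ] H) * (U : H →L[ℂ] H)) * pol T * star (U : H →L[ℂ] H) := by
          noncomm_ring
      _ = (U : H →L[ℂ] H) * (pol T * star (pol T) * pol T) * star (U : H →L[ℂ] H) := by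
          rw [hU]; noncomm_ring
      _ = _ := by rw [h.2.1]
  · intro x
    have hinj : ∀ y : H, (U : H →L[ℂ] H) y = 0 ↔ y = 0 := by
      intro y
      constructor
      · intro hy
        have h1 : (star (U : H →L[ℂ] H) * (U : H →L[ℂ] H)) y = y := by rw [hU]; rfl
        rw [← h1, mul_apply_eq_comp, hy, map_zero]
      · intro hy; rw [hy, map_zero]
    change (U : H →L[ℂ] H) (pol T (star (U : H →L[ℂ] H) x)) = 0
      ↔ (U : H →L[ℂ] H) (T (star (U : H →L[ℂ] H) x)) = 0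
    rw [hinj, hinj]
    exact h.2.2 _

lemma absPow_conj (U : unitary (H →L[ℂ] H)) (T : H →L[ℂ] H) {s : ℝ} (hs : 0 ≤ s) :
    absPow ((U : H →L[ℂ] H) * T * star (U : H →L[ℂ] H)) s
      = (U : H →L[ℂ] H) * absPow T s * star (U : H →L[ℂ] H) := by
  unfold absPow
  rw [abs_conj]
  have h := StarAlgHomClass.map_cfc (Unitary.conjStarAlgAut ℂ (H →L[ℂ] H) U)
    (fun t : ℝ => t ^ s) (CFC.abs T) (Q93.Alu.cont_rpow hs _) (by
      change Continuous (fun x => (U : H →L[ℂ] H) * x * star (U : H →L[ℂ] H))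
      fun_prop) (abs_sa T) (by
      rw [Unitary.conjStarAlgAut_apply, ← abs_conj]
      exact abs_sa _)
  simp only [Unitary.conjStarAlgAut_apply] at h
  exact h.symm

lemma alu_conj {μ : ℝ} (h0 : 0 ≤ μ) (h1 : μ ≤ 1) (U : unitary (H →L[ℂ] H)) (T : H →L[ℂ] H) :
    alu μ ((U : H →L[ℂ] H) * T * star (U : H →L[ℂ] H))
      = (U : H →L[ℂ] H) * alu μ T * star (U : H →L[ℂ] H) := by
  have hU : star (U : H →L[ℂ] H) * (U : H →L[ℂ] H) = 1 := Unitary.coe_star_mul_self U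
  unfold alu
  rw [absPow_conj U T h0, absPow_conj U T (by linarith), pol_conj]
  calc (U : H →L[ℂ] H) * absPow T μ * star (U : H →L[ℂ] H)
        * ((U : H →L[ℂ] H) * pol T * star (U : H →L[ℂ] H))
        * ((U : H →L[ℂ] H) * absPow T (1 - μ) * star (U : H →L[ℂ] H))
      = (U : H →L[ℂ] H) * absPow T μ * (star (U : H →L[ℂ] H) * (U : H →L[ℂ] H)) * pol T
        * (star (U : H →L[ℂ] H) * (U : H →L[ℂ] H)) * absPow T (1 - μ)
        * star (U : H →L[ℂ] H) := by noncomm_ring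
    _ = _ := by rw [hU]; noncomm_ring

end

end Pool.Agent.Q94.AL
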