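import Pool.Agent.Q94.ALE

open Filter Topology Asymptotics

namespace Pool.Agent.Q94.AL

open Pool.Agent.Q94.MA

noncomputable section

universe u

variable {H : Type u} [NormedAddCommGroup H] [InnerProductSpace ℂ H] [CompleteSpace H]

/-! ### the formula near the identity -/

lemma alu_eq_Sf {T : H →L[ℂ] H} (h : ∀ t ∈ spectrum ℝ (star T * T), 0 < t) {μ : ℝ}
    (h0 : 0 ≤ μ) (h1 : μ ≤ 1) : alu μ T = Sf (μ / 2) T := by
  have hsa := abs_sa T
  set P := CFC.abs T with hP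
  have hPP : cfc (fun t : ℝ => t ^ 2) P = star T * T := by
    rw [cfc_pow_id P 2, pow_two, hP, CFC.abs_mul_abs]
  have hpos : ∀ t ∈ spectrum ℝ P, 0 < t := by
    intro t ht
    have hh : t ^ 2 ∈ spectrum ℝ (star T * T) := by
      rw [← hPP, cfc_map_spectrum (fun t : ℝ => t ^ 2) P hsa (by fun_prop)]
      exact ⟨t, ht, rfl⟩
    have h3 := h _ hh
    have h4 := abs_spec_nonneg T ht
    rcases eq_or_lt_of_le h4 with h5 | h5
    · rw [← h5] at h3; norm_num at h3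
    · exact h5
  have hcomp : ∀ s : ℝ, cfc (fun t : ℝ => t ^ (s / 2)) (star T * T) = cfc (fun t : ℝ => t ^ s) P := by
    intro s
    have hcs : ContinuousOn (fun t : ℝ => t ^ (s / 2)) ((fun t : ℝ => t ^ 2) '' spectrum ℝ P) := by
      rintro _ ⟨t, ht, rfl⟩
      have : (0 : ℝ) < t ^ 2 := pow_pos (hpos t ht) 2
      exact (Real.continuousAt_rpow_const _ _ (Or.inl this.ne')).continuousWithinAt
    rw [← hPP, ← cfc_comp' (fun t : ℝ => t ^ (s / 2)) (fun t : ℝ => t ^ 2) P hcs (by fun_prop) hsa]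
    apply cfc_congr
    intro t ht
    simp only
    rw [← Real.rpow_natCast t 2, ← Real.rpow_mul (hpos t ht).le]
    congr 1
    push_cast
    ring
  have hc : ∀ s : ℝ, ContinuousOn (fun t : ℝ => t ^ s) (spectrum ℝ P) := fun s t ht =>
    (Real.continuousAt_rpow_const _ _ (Or.inl (hpos t ht).ne')).continuousWithinAt
  have hsplit : cfc (fun t : ℝ => t ^ (1 - μ)) P = P * cfc (fun t : ℝ => t ^ (-μ)) P := by
    conv_rhs => enter [1]; rw [← cfc_id' ℝ P hsa]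
    rw [← cfc_mul _ _ _ (by fun_prop) (hc (-μ))]
    apply cfc_congr
    intro t ht
    simp only
    rw [sub_eq_add_neg, Real.rpow_add (hpos t ht), Real.rpow_one]
  unfold alu Sf absPow
  rw [← hP, hcomp μ, show -(μ / 2) = (-μ) / 2 by ring, hcomp (-μ), hsplit, ← mul_assoc,
    mul_assoc _ (pol T) P, ← (pol_spec T).1]

lemma spec_pos {Z : H →L[ℂ] H} (hZ : ‖Af Z‖ ≤ 1 / 2) :
    ∀ t ∈ spectrum ℝ (star (1 + Z) * (1 + Z)), 0 < t := by
  intro t ht
  have hA : IsSelfAdjoint (Af Z) := Af_sa Z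
  rw [star_mul_one_add] at ht
  have e : cfc (fun t : ℝ => 1 + t) (Af Z) = 1 + Af Z := by
    rw [cfc_const_add (1 : ℝ) (fun t => t) (Af Z) (by fun_prop) hA, cfc_id' ℝ (Af Z), map_one]
  rw [← e, cfc_map_spectrum (fun t : ℝ => 1 + t) (Af Z) hA (by fun_prop)] at ht
  obtain ⟨u, hu, rfl⟩ := ht
  have := (abs_le.1 ((spec_abs_le hu).trans hZ)).1
  simp only
  linarith

lemma ev_small : ∀ᶠ Z in 𝓝 (0 : H →L[ℂ] H), ‖Af Z‖ ≤ 1 / 2 :=
  norm_small (n := 0) O_A (by norm_num)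

lemma alu_near {μ : ℝ} (h0 : 0 ≤ μ) (h1 : μ ≤ 1) {Z : H →L[ℂ] H} (hZ : ‖Af Z‖ ≤ 1 / 2) :
    alu μ (1 + Z) = Sf (μ / 2) (1 + Z) := alu_eq_Sf (spec_pos hZ) h0 h1

lemma M_near {l : ℝ} (h0 : 0 ≤ l) (h1 : l ≤ 1 / 2) {Z : H →L[ℂ] H} (hZ : ‖Af Z‖ ≤ 1 / 2) :
    M l (1 + Z) = (1 / 2 : ℝ) • (Sf (l / 2) (1 + Z) + Sf ((1 - l) / 2) (1 + Z)) := by
  unfold M
  rw [alu_near h0 (by linarith) hZ, alu_near (by linarith) (by linarith) hZ]

lemma M_exp {l : ℝ} (h0 : 0 ≤ l) (h1 : l ≤ 1 / 2) : Exp (M (H := H) l) := by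
  refine ⟨(l / 2 + (1 - l) / 2) / 2,
    ((l / 2) * (1 - l / 2) / 2 + ((1 - l) / 2) * (1 - (1 - l) / 2) / 2) / 2,
    ((l / 2) ^ 2 / 2 + ((1 - l) / 2) ^ 2 / 2) / 2, (l / 2 / 2 + (1 - l) / 2 / 2) / 2, ?_, ?_,
    (mean_exp (A := H →L[ℂ] H) (l / 2) ((1 - l) / 2)).congr' ?_⟩
  · intro h; linarith
  · intro h; linarith
  · filter_upwards [ev_small] with Z hZ
    rw [M_near h0 h1 hZ]

/-- the displacement `Sf (1/4) (1 + Z) - 1` -/
def zf (Z : H →L[ℂ] H) : H →L[ℂ] H := Sf (1 / 4) (1 + Z) - 1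

lemma P4_one (κ δ β γ : ℝ) : O 1 (fun Z : H →L[ℂ] H => P4 κ δ β γ Z - 1) := by
  have hZ : O 1 (fun Z : H →L[ℂ] H => Z) := O.id
  have hZs : O 1 (fun Z : H →L[ℂ] H => star Z) := O.star'
  have h1 : O 1 (fun Z : H →L[ℂ] H => κ • br (star Z) Z) :=
    O.mono (n := 2) (by norm_num) ((O_br hZs hZ).smul κ)
  have h2 : O 1 (fun Z : H →L[ℂ] H => δ • br Z (br Z (star Z))) :=
    O.mono (n := 3) (by norm_num) ((O_br hZ (O_br hZ hZs)).smul δ)
  have h3 : O 1 (fun Z : H →L[ℂ] H => β • br (star Z) (br (star Z) Z)) :=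
    O.mono (n := 3) (by norm_num) ((O_br hZs (O_br hZs hZ)).smul β)
  have h4 : O 1 (fun Z : H →L[ℂ] H => γ • br (star Z * star Z) Z) :=
    O.mono (n := 3) (by norm_num) ((O_br (hZs.mul hZs) hZ).smul γ)
  refine ((((hZ.add h1).add h2).add h3).sub h4).congr' ?_
  filter_upwards with Z
  unfold P4
  abel

lemma O_zf : O 1 (fun Z : H →L[ℂ] H => zf Z) := by
  have h1 := (Sf_exp (A := H →L[ℂ] H) (1 / 4)).mono (show 1 ≤ 4 by norm_num)
  have h2 := P4_one (H := H) (1 / 4) (1 / 4 * (1 - 1 / 4) / 2) ((1 / 4) ^ 2 / 2) (1 / 4 / 2)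
  have h3 := h1.add h2
  refine O.congr' h3 ?_
  filter_upwards with Z
  unfold zf
  abel

lemma ev_small_zf : ∀ᶠ Z in 𝓝 (0 : H →L[ℂ] H), ‖Af (zf Z)‖ ≤ 1 / 2 :=
  norm_small (n := 0) (O.comp O_A O_zf) (by norm_num)

lemma hatD_near {Z : H →L[ℂ] H} (hZ : ‖Af Z‖ ≤ 1 / 2) (hz : ‖Af (zf Z)‖ ≤ 1 / 2) :
    hatD (1 + Z) = (1 / 2 : ℝ) • (Sf 0 (1 + zf Z) + Sf (1 / 2) (1 + zf Z)) := by
  have h1 : alu (1 / 2) (1 + Z) = 1 + zf Z := by
    rw [alu_near (by norm_num) (by norm_num) hZ, show (1 / 2 : ℝ) / 2 = 1 / 4 by norm_num]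
    unfold zf
    abel
  unfold hatD
  rw [h1, ← M_zero, M_near le_rfl (by norm_num) hz]
  norm_num

lemma hatD_exp : Exp (hatD (H := H)) := by
  have h1 := (mean_exp (A := H →L[ℂ] H) 0 (1 / 2)).comp O_zf
  have h2 := comp_exp (A := H →L[ℂ] H) (1 / 4) (1 / 4 * (1 - 1 / 4) / 2) ((1 / 4) ^ 2 / 2)
    (1 / 4 / 2) ((0 + 1 / 2) / 2) ((0 * (1 - 0) / 2 + 1 / 2 * (1 - 1 / 2) / 2) / 2)
    ((0 ^ 2 / 2 + (1 / 2) ^ 2 / 2) / 2) ((0 / 2 + 1 / 2 / 2) / 2)
    (fun Z => Sf (1 / 4) (1 + Z)) (Sf_exp (1 / 4))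
  refine ⟨1 / 4 + (0 + 1 / 2) / 2,
    1 / 4 * (1 - 1 / 4) / 2 + (0 * (1 - 0) / 2 + 1 / 2 * (1 - 1 / 2) / 2) / 2
      + 1 / 4 * ((0 + 1 / 2) / 2),
    (1 / 4) ^ 2 / 2 + (0 ^ 2 / 2 + (1 / 2) ^ 2 / 2) / 2 + 1 / 4 * ((0 + 1 / 2) / 2),
    1 / 4 / 2 + (0 / 2 + 1 / 2 / 2) / 2, ?_, ?_, (h1.add h2).congr' ?_⟩
  · norm_num
  · norm_num
  · filter_upwards [ev_small, ev_small_zf] with Z hZ hz
    rw [hatD_near hZ hz]
    have e : (Sf (1 / 4) (1 + Z) - 1 : H →L[ℂ] H) = zf Z := rfl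
    rw [e]
    abel

/-! ### fixed points -/

lemma M_fix {l : ℝ} (hl0 : 0 ≤ l) (hl1 : l ≤ 1 / 2) (T : H →L[ℂ] H) :
    M l T = T ↔ QuasiNormal T := by
  set V := pol T with hV
  have h : IsPolar T V := pol_spec T
  set P := CFC.abs T with hP
  have hPsa : IsSelfAdjoint P := abs_sa T
  have hTP : T = V * P := h.1
  have hPP : P * P = star T * T := CFC.abs_mul_abs T
  constructor
  · intro hM
    have hm : (0 : ℝ) < ‖P‖ + 1 := by positivity
    have heq : ∀ z, Q93.Alu.pw P l (V (Q93.Alu.pw P (1 - l) z))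
        + Q93.Alu.pw P (1 - l) (V (Q93.Alu.pw P l z)) = (2 : ℝ) • V (P z) := by
      intro z
      have h1 : (2 : ℝ) • (M l T z) = (2 : ℝ) • T z := by rw [hM]
      have h2 : (2 : ℝ) • T z = (2 : ℝ) • V (P z) := by
        conv_lhs => rw [hTP]
        rfl
      rw [h2] at h1
      rw [← h1]
      unfold M alu
      simp only [sub_sub_cancel]
      change _ = (2 : ℝ) • ((1 / 2 : ℝ) • (absPow T l (V (absPow T (1 - l) z))
        + absPow T (1 - l) (V (absPow T l z))))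
      rw [smul_smul]
      norm_num
      rfl
    have hc := Q93.Alu.comm_P P hPsa hm (abs_spec T) V hl0 hl1 heq
    have hc' : P * V * P = V * P * P := by
      ext x; exact hc x
    unfold QuasiNormal
    rw [← hPP]
    calc T * (P * P) = V * P * P * P := by rw [hTP]; noncomm_ring
      _ = P * V * P * P := by rw [← hc']
      _ = P * (V * P * P) := by noncomm_ring
      _ = P * (P * V * P) := by rw [← hc']
      _ = P * P * (V * P) := by noncomm_ring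
      _ = P * P * T := by rw [← hTP]
  · intro hq
    have hVc : Commute P V := abs_comm_of_quasi h hq
    have hpow : ∀ s, Commute (absPow T s) V := fun s => Commute.cfc_real hVc _
    have hd : ∀ s : ℝ, 0 ≤ s → s ≤ 1 → alu s T = T := by
      intro s hs0 hs1
      unfold alu
      rw [← hV, (hpow s).eq, mul_assoc, absPow_mul T hs0 hs1, ← hP, ← hTP]
    unfold M
    rw [hd l hl0 (by linarith), hd (1 - l) (by linarith) (by linarith), ← two_smul ℝ T, smul_smul]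
    norm_num

lemma absPow_half (T : H →L[ℂ] H) : absPow T (1 / 2) = half T := by
  unfold half
  symm
  apply CFC.sqrt_unique
  · have := absPow_mul T (l := 1 / 2) (by norm_num) (by norm_num)
    rwa [show (1 : ℝ) - 1 / 2 = 1 / 2 by norm_num] at this
  · unfold absPow
    apply cfc_nonneg
    intro t ht
    exact Real.rpow_nonneg (abs_spec_nonneg T ht) _

lemma hatD_fix (T : H →L[ℂ] H) : hatD T = T ↔ QuasiNormal T := by
  have hS : alu (1 / 2) T = half T * pol T * half T := by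
    unfold alu
    rw [show (1 : ℝ) - 1 / 2 = 1 / 2 by norm_num, absPow_half]
  constructor
  · intro h
    unfold hatD meanT at h
    refine quasi_of_fixed (pol_spec T) hS (pol_spec _) ?_
    have e : ((1 / 2 : ℂ)) = (((1 / 2 : ℝ)) : ℂ) := by push_cast; ring
    rw [e, Complex.coe_smul]
    exact h
  · intro hq
    unfold hatD
    rw [hS, aluthge_of_quasi (pol_spec T) hq, ← M_zero]
    exact (M_fix le_rfl (by norm_num) T).2 hq

/-! ### invariance of closed subalgebras near the identity -/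

lemma Sf_mem {s : StarSubalgebra ℂ (H →L[ℂ] H)} (hs : IsClosed (s : Set (H →L[ℂ] H))) (ν : ℝ)
    {T : H →L[ℂ] H} (hT : T ∈ s) : Sf ν T ∈ s := by
  have h1 : star T * T ∈ s := mul_mem (star_mem hT) hT
  have h2 : ∀ f : ℝ → ℝ, cfc f (star T * T) ∈ s := fun f =>
    cfc_mem (𝕜' := ℂ) (hs := hs) f h1
  exact mul_mem (mul_mem (h2 _) hT) (h2 _)

/-- invariance of closed star subalgebras near the identity -/
def Mem (L : (H →L[ℂ] H) → (H →L[ℂ] H)) : Prop :=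
  ∀ᶠ Z in 𝓝 (0 : H →L[ℂ] H), ∀ s : StarSubalgebra ℂ (H →L[ℂ] H),
    IsClosed (s : Set (H →L[ℂ] H)) → 1 + Z ∈ s → L (1 + Z) ∈ s

lemma half_smul_mem {s : StarSubalgebra ℂ (H →L[ℂ] H)} {X Y : H →L[ℂ] H} (hX : X ∈ s)
    (hY : Y ∈ s) : (1 / 2 : ℝ) • (X + Y) ∈ s := by
  rw [← Complex.coe_smul]
  exact s.smul_mem (add_mem hX hY) _

lemma M_mem {l : ℝ} (h0 : 0 ≤ l) (h1 : l ≤ 1 / 2) : Mem (M (H := H) l) := by
  filter_upwards [ev_small] with Z hZ s hs hT
  rw [M_near h0 h1 hZ]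
  exact half_smul_mem (Sf_mem hs _ hT) (Sf_mem hs _ hT)

lemma hatD_mem : Mem (hatD (H := H)) := by
  filter_upwards [ev_small, ev_small_zf] with Z hZ hz s hs hT
  rw [hatD_near hZ hz]
  have e : 1 + zf Z = Sf (1 / 4) (1 + Z) := by unfold zf; abel
  rw [e]
  have h2 : Sf (1 / 4) (1 + Z) ∈ s := Sf_mem hs _ hT
  exact half_smul_mem (Sf_mem hs _ h2) (Sf_mem hs _ h2)

/-- The properties of the transforms which are used. -/
structure Good (L : (H →L[ℂ] H) → (H →L[ℂ] H)) : Prop where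
  hom : ∀ (c : ℂ) T, L (c • T) = c • L T
  unit : ∀ (U : unitary (H →L[ℂ] H)) T, L ((U : H →L[ℂ] H) * T * star (U : H →L[ℂ] H))
    = (U : H →L[ℂ] H) * L T * star (U : H →L[ℂ] H)
  fix : ∀ T, L T = T ↔ QuasiNormal T
  exp : Exp L
  mem : Mem L

lemma M_good {l : ℝ} (h0 : 0 ≤ l) (h1 : l ≤ 1 / 2) : Good (M (H := H) l) where
  hom c T := by
    unfold M
    rw [alu_smul h0 (by linarith), alu_smul (by linarith) (by linarith), ← smul_add, smul_comm]
  unit U T := by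
    unfold M
    rw [alu_conj h0 (by linarith), alu_conj (by linarith) (by linarith), mul_smul_comm,
      smul_mul_assoc, mul_add, add_mul]
  fix := M_fix h0 h1
  exp := M_exp h0 h1
  mem := M_mem h0 h1

lemma hatD_eq (T : H →L[ℂ] H) : hatD T = M 0 (alu (1 / 2) T) := by
  unfold hatD; rw [M_zero]

lemma hatD_good : Good (hatD (H := H)) where
  hom c T := by
    rw [hatD_eq, hatD_eq, alu_smul (by norm_num) (by norm_num),
      (M_good le_rfl (by norm_num)).hom]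
  unit U T := by
    rw [hatD_eq, hatD_eq, alu_conj (by norm_num) (by norm_num),
      (M_good le_rfl (by norm_num)).unit]
  fix := hatD_fix
  exp := hatD_exp
  mem := hatD_mem

end

end Pool.Agent.Q94.AL
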