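import Pool.Agent.Q94.ALF

open Filter Topology Asymptotics InnerProductSpace

namespace Pool.Agent.Q94.AL

open Pool.Agent.Q94.MA

noncomputable section

universe u

variable {H : Type u} [NormedAddCommGroup H] [InnerProductSpace ℂ H] [CompleteSpace H]

/-! ### the finite dimensional algebras `ℂ + P B(H) P` -/

/-- `ℂ + P B(H) P` -/
def Lf (K : Submodule ℂ H) [K.HasOrthogonalProjection] : StarSubalgebra ℂ (H →L[ℂ] H) where
  carrier := {X | ∃ (c : ℂ) (B : H →L[ℂ] H), X = c • 1 + K.starProjection * B * K.starProjection}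
  mul_mem' := by
    rintro X Y ⟨c, B, rfl⟩ ⟨d, C, rfl⟩
    refine ⟨c * d, c • C + d • B + B * K.starProjection * C, ?_⟩
    have hP : K.starProjection * K.starProjection = K.starProjection :=
      K.isIdempotentElem_starProjection
    set P := K.starProjection
    have e : P * B * P * (P * C * P) = P * B * P * C * P := by
      rw [← mul_assoc, ← mul_assoc, mul_assoc (P * B) P P, hP]
    have e2 : (c • (1 : H →L[ℂ] H) + P * B * P) * (d • (1 : H →L[ℂ] H) + P * C * P)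
        = (c * d) • 1 + c • (P * C * P) + d • (P * B * P) + P * B * P * (P * C * P) := by
      simp only [add_mul, mul_add, smul_mul_assoc, mul_smul_comm, mul_one, one_mul]
      module
    rw [e2, e]
    simp only [add_mul, mul_add, smul_mul_assoc, mul_smul_comm, ← mul_assoc]
    module
  add_mem' := by
    rintro X Y ⟨c, B, rfl⟩ ⟨d, C, rfl⟩
    refine ⟨c + d, B + C, ?_⟩
    simp only [add_mul, mul_add, add_smul]
    abel
  algebraMap_mem' := by
    intro r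
    refine ⟨r, 0, ?_⟩
    rw [Algebra.algebraMap_eq_smul_one]
    simp
  star_mem' := by
    rintro X ⟨c, B, rfl⟩
    refine ⟨star c, star B, ?_⟩
    have hP : star K.starProjection = K.starProjection := isSelfAdjoint_starProjection K
    simp only [star_add, star_smul, star_one, star_mul, hP, mul_assoc]

lemma mem_Lf {K : Submodule ℂ H} [K.HasOrthogonalProjection] {X : H →L[ℂ] H} :
    X ∈ Lf K ↔ ∃ (c : ℂ) (B : H →L[ℂ] H),
      X = c • 1 + K.starProjection * B * K.starProjection := Iff.rfl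

lemma Lf_mono {K K' : Submodule ℂ H} [K.HasOrthogonalProjection] [K'.HasOrthogonalProjection]
    (h : K ≤ K') : Lf K ≤ Lf K' := by
  intro X hX
  obtain ⟨c, B, rfl⟩ := mem_Lf.1 hX
  refine mem_Lf.2 ⟨c, K.starProjection * B * K.starProjection, ?_⟩
  have h1 : K.starProjection * K'.starProjection = K.starProjection :=
    Submodule.starProjection_comp_starProjection_of_le h
  have h2 : K'.starProjection * K.starProjection = K.starProjection := by
    have := congrArg star h1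
    rwa [star_mul, isSelfAdjoint_starProjection K, isSelfAdjoint_starProjection K'] at this
  have e : K'.starProjection * (K.starProjection * B * K.starProjection) * K'.starProjection
      = (K'.starProjection * K.starProjection) * B * (K.starProjection * K'.starProjection) := by
    noncomm_ring
  rw [e, h1, h2]

/-- The parametrization of `ℂ + P B(H) P`. -/
def para (K : Submodule ℂ H) [FiniteDimensional ℂ K] :
    (ℂ × (K →ₗ[ℂ] K)) →ₗ[ℂ] (H →L[ℂ] H) where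
  toFun p := p.1 • 1 + K.subtypeL ∘L (LinearMap.toContinuousLinearMap p.2)
    ∘L K.orthogonalProjectionOnto
  map_add' p q := by
    ext x
    simp [add_smul]
    abel
  map_smul' c p := by
    ext x
    simp [mul_smul]

lemma Lf_sub_range (K : Submodule ℂ H) [FiniteDimensional ℂ K] :
    Subalgebra.toSubmodule (Lf K).toSubalgebra ≤ LinearMap.range (para K) := by
  rintro X ⟨c, B, rfl⟩
  refine ⟨(c, (K.orthogonalProjectionOnto ∘L B ∘L K.subtypeL).toLinearMap), ?_⟩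
  ext x
  simp only [para, LinearMap.coe_mk, AddHom.coe_mk]
  rfl

instance Lf_fin (K : Submodule ℂ H) [FiniteDimensional ℂ K] :
    FiniteDimensional ℂ (Subalgebra.toSubmodule (Lf K).toSubalgebra) :=
  Submodule.finiteDimensional_of_le (Lf_sub_range K)

lemma Lf_closed (K : Submodule ℂ H) [FiniteDimensional ℂ K] :
    IsClosed ((Lf K : StarSubalgebra ℂ (H →L[ℂ] H)) : Set (H →L[ℂ] H)) :=
  Submodule.closed_of_finiteDimensional (Subalgebra.toSubmodule (Lf K).toSubalgebra)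

lemma Lf_bound (K : Submodule ℂ H) [FiniteDimensional ℂ K]
    (Φ : (H →L[ℂ] H) →ₗ[ℂ] (H →L[ℂ] H)) :
    ∃ C : ℝ, 0 ≤ C ∧ ∀ X ∈ Lf K, ‖Φ X‖ ≤ C * ‖X‖ := by
  set W := Subalgebra.toSubmodule (Lf K).toSubalgebra with hW
  set f : W →L[ℂ] (H →L[ℂ] H) := LinearMap.toContinuousLinearMap (Φ ∘ₗ W.subtype) with hf
  refine ⟨‖f‖, f.opNorm_nonneg, fun X hX => ?_⟩
  exact f.le_opNorm ⟨X, hX⟩

lemma rk_mem (K : Submodule ℂ H) [K.HasOrthogonalProjection] {x y : H} (hx : x ∈ K)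
    (hy : y ∈ K) : rankOne ℂ x y ∈ Lf K := by
  refine mem_Lf.2 ⟨0, rankOne ℂ x y, ?_⟩
  rw [zero_smul, zero_add]
  ext z
  have e : ⟪y, K.starProjection z⟫_ℂ = ⟪y, z⟫_ℂ := by
    rw [← Submodule.inner_starProjection_left_eq_right, Submodule.starProjection_eq_self_iff.2 hy]
  change _ = K.starProjection (rankOne ℂ x y (K.starProjection z))
  rw [rankOne_apply, rankOne_apply, map_smul, e, Submodule.starProjection_eq_self_iff.2 hx]

/-- the set of all scalars plus finite rank operators -/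
def Fin' (X : H →L[ℂ] H) : Prop :=
  ∃ (K : Submodule ℂ H) (_ : FiniteDimensional ℂ K), X ∈ Lf K

lemma Fin'.pair {X Y : H →L[ℂ] H} (hX : Fin' X) (hY : Fin' Y) :
    ∃ (K : Submodule ℂ H) (_ : FiniteDimensional ℂ K), X ∈ Lf K ∧ Y ∈ Lf K := by
  obtain ⟨K, hK, h1⟩ := hX
  obtain ⟨K', hK', h2⟩ := hY
  exact ⟨K ⊔ K', inferInstance, Lf_mono le_sup_left h1, Lf_mono le_sup_right h2⟩

lemma Fin'.mul {X Y : H →L[ℂ] H} (hX : Fin' X) (hY : Fin' Y) : Fin' (X * Y) := by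
  obtain ⟨K, hK, h1, h2⟩ := hX.pair hY
  exact ⟨K, hK, mul_mem h1 h2⟩

lemma Fin'.add {X Y : H →L[ℂ] H} (hX : Fin' X) (hY : Fin' Y) : Fin' (X + Y) := by
  obtain ⟨K, hK, h1, h2⟩ := hX.pair hY
  exact ⟨K, hK, add_mem h1 h2⟩

lemma Fin'.sub {X Y : H →L[ℂ] H} (hX : Fin' X) (hY : Fin' Y) : Fin' (X - Y) := by
  obtain ⟨K, hK, h1, h2⟩ := hX.pair hY
  exact ⟨K, hK, sub_mem h1 h2⟩

lemma Fin'.smul {X : H →L[ℂ] H} (c : ℂ) (hX : Fin' X) : Fin' (c • X) := by
  obtain ⟨K, hK, h1⟩ := hX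
  exact ⟨K, hK, (Lf K).smul_mem h1 c⟩

lemma Fin'.star {X : H →L[ℂ] H} (hX : Fin' X) : Fin' (Star.star X) := by
  obtain ⟨K, hK, h1⟩ := hX
  exact ⟨K, hK, star_mem h1⟩

lemma Fin'.one : Fin' (1 : H →L[ℂ] H) := ⟨⊥, inferInstance, one_mem _⟩

lemma Fin'.rk (x y : H) : Fin' (rankOne ℂ x y) := by
  refine ⟨Submodule.span ℂ {x, y}, ?_, ?_⟩
  · exact FiniteDimensional.span_of_finite ℂ (by simp)
  · have : FiniteDimensional ℂ (Submodule.span ℂ {x, y}) :=
      FiniteDimensional.span_of_finite ℂ (by simp)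
    exact rk_mem _ (Submodule.subset_span (by simp)) (Submodule.subset_span (by simp))

/-! ### coefficients -/

/-- second order coefficient -/
def C2 (X : H →L[ℂ] H) : H →L[ℂ] H := br (star X) X

/-- third order coefficient -/
def E3 (δ β γ : ℝ) (X : H →L[ℂ] H) : H →L[ℂ] H :=
  δ • br X (br X (star X)) + β • br (star X) (br (star X) X) - γ • br (star X * star X) X

lemma P4_smul (κ δ β γ : ℝ) (X : H →L[ℂ] H) (s : ℝ) :
    P4 κ δ β γ (s • X) = 1 + s • X + s ^ 2 • (κ • C2 X) + s ^ 3 • E3 δ β γ X := by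
  unfold P4 C2 E3 br
  simp only [star_smul, star_trivial, smul_mul_assoc, mul_smul_comm, mul_sub, sub_mul,
    ← mul_assoc]
  module

lemma br_mem {s : StarSubalgebra ℂ (H →L[ℂ] H)} {X Y : H →L[ℂ] H} (hX : X ∈ s) (hY : Y ∈ s) :
    br X Y ∈ s := sub_mem (mul_mem hX hY) (mul_mem hY hX)

lemma rsmul_mem {s : StarSubalgebra ℂ (H →L[ℂ] H)} {X : H →L[ℂ] H} (r : ℝ) (hX : X ∈ s) :
    r • X ∈ s := by
  rw [← Complex.coe_smul]
  exact s.smul_mem hX _

lemma C2_mem {s : StarSubalgebra ℂ (H →L[ℂ] H)} {X : H →L[ℂ] H} (hX : X ∈ s) : C2 X ∈ s :=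
  br_mem (star_mem hX) hX

lemma E3_mem {s : StarSubalgebra ℂ (H →L[ℂ] H)} (δ β γ : ℝ) {X : H →L[ℂ] H} (hX : X ∈ s) :
    E3 δ β γ X ∈ s :=
  sub_mem (add_mem (rsmul_mem _ (br_mem hX (br_mem hX (star_mem hX))))
    (rsmul_mem _ (br_mem (star_mem hX) (br_mem (star_mem hX) hX))))
    (rsmul_mem _ (br_mem (mul_mem (star_mem hX) (star_mem hX)) hX))

lemma two_coeff {E : Type*} [NormedAddCommGroup E] [NormedSpace ℝ E] (a b : E) (C : ℝ)
    (h : ∀ᶠ s in 𝓝[>] (0 : ℝ), ‖s ^ 2 • a + s ^ 3 • b‖ ≤ C * s ^ 4) : a = 0 ∧ b = 0 := by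
  have hpos : ∀ᶠ s in 𝓝[>] (0 : ℝ), 0 < s := eventually_mem_nhdsWithin
  have h1 : ∀ᶠ s in 𝓝[>] (0 : ℝ), ‖a‖ ≤ s * ‖b‖ + C * s ^ 2 := by
    filter_upwards [h, hpos] with s hs hs0
    have e : s ^ 2 • a + s ^ 3 • b = s ^ 2 • (a + s • b) := by module
    rw [e, norm_smul, Real.norm_of_nonneg (by positivity)] at hs
    have h2 : ‖a + s • b‖ ≤ C * s ^ 2 := by
      have h3 : s ^ 2 * ‖a + s • b‖ ≤ s ^ 2 * (C * s ^ 2) := by
        calc _ ≤ C * s ^ 4 := hs
          _ = _ := by ring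
      exact le_of_mul_le_mul_left h3 (by positivity)
    calc ‖a‖ = ‖(a + s • b) - s • b‖ := by congr 1; abel
      _ ≤ ‖a + s • b‖ + ‖s • b‖ := norm_sub_le _ _
      _ ≤ s * ‖b‖ + C * s ^ 2 := by
        rw [norm_smul, Real.norm_of_nonneg hs0.le]
        linarith
  have hlim : Tendsto (fun s : ℝ => s * ‖b‖ + C * s ^ 2) (𝓝[>] 0) (𝓝 0) := by
    have : Continuous (fun s : ℝ => s * ‖b‖ + C * s ^ 2) := by fun_prop
    have h := this.tendsto 0
    simp only [zero_mul, ne_eq, OfNat.ofNat_ne_zero, not_false_eq_true, zero_pow, mul_zero,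
      add_zero] at h
    exact h.mono_left nhdsWithin_le_nhds
  have ha : a = 0 := by
    have := ge_of_tendsto hlim h1
    exact norm_le_zero_iff.1 this
  refine ⟨ha, ?_⟩
  have h2 : ∀ᶠ s in 𝓝[>] (0 : ℝ), ‖b‖ ≤ C * s := by
    filter_upwards [h, hpos] with s hs hs0
    rw [ha, smul_zero, zero_add, norm_smul, Real.norm_of_nonneg (by positivity)] at hs
    have h3 : s ^ 3 * ‖b‖ ≤ s ^ 3 * (C * s) := by
      calc _ ≤ C * s ^ 4 := hs
        _ = _ := by ring
    exact le_of_mul_le_mul_left h3 (by positivity)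
  have hlim2 : Tendsto (fun s : ℝ => C * s) (𝓝[>] 0) (𝓝 0) := by
    have : Continuous (fun s : ℝ => C * s) := by fun_prop
    have h := this.tendsto 0
    simp only [mul_zero] at h
    exact h.mono_left nhdsWithin_le_nhds
  have := ge_of_tendsto hlim2 h2
  exact norm_le_zero_iff.1 this

/-- expansion along a ray -/
lemma ray {L : (H →L[ℂ] H) → (H →L[ℂ] H)} {κ δ β γ : ℝ}
    (h : O 4 (fun Z : H →L[ℂ] H => L (1 + Z) - P4 κ δ β γ Z)) (X : H →L[ℂ] H) :
    ∃ C : ℝ, 0 ≤ C ∧ ∀ᶠ s in 𝓝[>] (0 : ℝ), ‖L (1 + s • X) - P4 κ δ β γ (s • X)‖ ≤ C * s ^ 4 := by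
  obtain ⟨C, hC0, hC⟩ := IsBigO.exists_nonneg h
  have hlim : Tendsto (fun s : ℝ => s • X) (𝓝[>] 0) (𝓝 0) := by
    have : Continuous (fun s : ℝ => s • X) := by fun_prop
    have h := this.tendsto 0
    rw [zero_smul] at h
    exact h.mono_left nhdsWithin_le_nhds
  refine ⟨C * ‖X‖ ^ 4, by positivity, ?_⟩
  have hpos : ∀ᶠ s in 𝓝[>] (0 : ℝ), 0 < s := eventually_mem_nhdsWithin
  filter_upwards [hlim.eventually hC.bound, hpos] with s hs hs0
  refine hs.trans (le_of_eq ?_)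
  rw [norm_pow, norm_norm, norm_smul, Real.norm_of_nonneg hs0.le]
  ring

lemma coeff {L : (H →L[ℂ] H) → (H →L[ℂ] H)} (hmem : Mem L) {κ δ β γ : ℝ}
    (h : O 4 (fun Z : H →L[ℂ] H => L (1 + Z) - P4 κ δ β γ Z))
    (Φ : (H →L[ℂ] H) →ₗ[ℂ] (H →L[ℂ] H)) (hΦ : ∀ T, Φ (L T) = L (Φ T)) (h1 : Φ 1 = 1)
    (K : Submodule ℂ H) [FiniteDimensional ℂ K] {X : H →L[ℂ] H} (hX : X ∈ Lf K) :
    κ • (Φ (C2 X) - C2 (Φ X)) = 0 ∧ Φ (E3 δ β γ X) - E3 δ β γ (Φ X) = 0 := by
  obtain ⟨C, hC0, hC⟩ := ray h X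
  obtain ⟨C', hC'0, hC'⟩ := ray h (Φ X)
  obtain ⟨B, hB0, hB⟩ := Lf_bound K Φ
  apply two_coeff _ _ (C' + B * C)
  have hlim : Tendsto (fun s : ℝ => s • X) (𝓝[>] 0) (𝓝 0) := by
    have : Continuous (fun s : ℝ => s • X) := by fun_prop
    have h := this.tendsto 0
    rw [zero_smul] at h
    exact h.mono_left nhdsWithin_le_nhds
  have hpos : ∀ᶠ s in 𝓝[>] (0 : ℝ), 0 < s := eventually_mem_nhdsWithin
  filter_upwards [hC, hC', hlim.eventually hmem, hpos] with s h2 h3 h4 hs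
  have hT : 1 + s • X ∈ Lf K := add_mem (one_mem _) (rsmul_mem s hX)
  have h5 : L (1 + s • X) ∈ Lf K := h4 _ (Lf_closed K) hT
  have h6 : P4 κ δ β γ (s • X) ∈ Lf K := by
    rw [P4_smul]
    exact add_mem (add_mem (add_mem (one_mem _) (rsmul_mem _ hX))
      (rsmul_mem _ (rsmul_mem _ (C2_mem hX)))) (rsmul_mem _ (E3_mem _ _ _ hX))
  have h7 := hB _ (sub_mem h5 h6)
  have hr : ∀ (r : ℝ) (Y : H →L[ℂ] H), Φ (r • Y) = r • Φ Y := fun r Y =>
    LinearMap.map_smul_of_tower Φ r Y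
  have e : s ^ 2 • κ • (Φ (C2 X) - C2 (Φ X)) + s ^ 3 • (Φ (E3 δ β γ X) - E3 δ β γ (Φ X))
      = (L (1 + s • Φ X) - P4 κ δ β γ (s • Φ X))
        - Φ (L (1 + s • X) - P4 κ δ β γ (s • X)) := by
    rw [map_sub, hΦ, map_add, h1, hr, P4_smul, P4_smul, map_add, map_add, map_add, h1, hr, hr, hr,
      hr]
    module
  rw [e]
  calc _ ≤ ‖L (1 + s • Φ X) - P4 κ δ β γ (s • Φ X)‖
        + ‖Φ (L (1 + s • X) - P4 κ δ β γ (s • X))‖ := norm_sub_le _ _
    _ ≤ C' * s ^ 4 + B * (C * s ^ 4) :=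
        add_le_add h3 (h7.trans (mul_le_mul_of_nonneg_left h2 hB0))
    _ = _ := by ring

/-! ### polarization -/

/-- polarization operator -/
def polz (f : (H →L[ℂ] H) → (H →L[ℂ] H)) (X Y : H →L[ℂ] H) : H →L[ℂ] H :=
  (1 / 4 : ℂ) • (f (X + Y) - f (X - Y) - Complex.I • f (X + Complex.I • Y)
    + Complex.I • f (X - Complex.I • Y))

lemma star_I_smul (Y : H →L[ℂ] H) : star (Complex.I • Y) = -(Complex.I • star Y) := by
  rw [star_smul]
  have : star Complex.I = -Complex.I := Complex.conj_I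
  rw [this, neg_smul]

lemma polz_C2 (X Y : H →L[ℂ] H) : polz C2 X Y = br (star X) Y := by
  unfold polz C2 br
  simp only [star_add, star_sub, star_I_smul, add_mul, mul_add, sub_mul, mul_sub, neg_mul,
    mul_neg, smul_mul_assoc, mul_smul_comm]
  have hI : Complex.I ^ 2 = -1 := Complex.I_sq
  have hI3 : Complex.I ^ 3 = -Complex.I := by rw [pow_succ, hI]; ring
  have hI4 : Complex.I ^ 4 = 1 := Complex.I_pow_four
  match_scalars <;> (ring_nf; try simp only [hI, hI3, hI4]; try ring_nf)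

/-- the cubic expression -/
def G3 (X : H →L[ℂ] H) : H →L[ℂ] H := br (star X * star X) X

lemma polz_G3 (X Y : H →L[ℂ] H) : polz G3 X Y = br (star X * star X) Y := by
  unfold polz G3 br
  simp only [star_add, star_sub, star_I_smul, add_mul, mul_add, sub_mul, mul_sub, neg_mul,
    mul_neg, smul_mul_assoc, mul_smul_comm, ← mul_assoc]
  have hI : Complex.I ^ 2 = -1 := Complex.I_sq
  have hI3 : Complex.I ^ 3 = -Complex.I := by rw [pow_succ, hI]; ring
  have hI4 : Complex.I ^ 4 = 1 := Complex.I_pow_four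
  match_scalars <;> (ring_nf; try simp only [hI, hI3, hI4]; try ring_nf)

end

end Pool.Agent.Q94.AL
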