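import Pool.Agent.Q94.ALG

open Filter Topology Asymptotics InnerProductSpace

namespace Pool.Agent.Q94.AL

open Pool.Agent.Q94.MA

noncomputable section

universe u

variable {H : Type u} [NormedAddCommGroup H] [InnerProductSpace ℂ H] [CompleteSpace H]

/-- `Φ` is a linear map commuting with `L` and fixing `1`. -/
structure Com (L : (H →L[ℂ] H) → (H →L[ℂ] H)) (Φ : (H →L[ℂ] H) →ₗ[ℂ] (H →L[ℂ] H)) : Prop where
  good : Good L
  comm : ∀ T, Φ (L T) = L (Φ T)
  one : Φ 1 = 1

variable {L : (H →L[ℂ] H) → (H →L[ℂ] H)} {Φ : (H →L[ℂ] H) →ₗ[ℂ] (H →L[ℂ] H)}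

lemma polz_map {f : (H →L[ℂ] H) → (H →L[ℂ] H)} {X Y : H →L[ℂ] H} {s : Set (H →L[ℂ] H)}
    (h : ∀ Z ∈ s, Φ (f Z) = f (Φ Z)) (h1 : X + Y ∈ s) (h2 : X - Y ∈ s)
    (h3 : X + Complex.I • Y ∈ s) (h4 : X - Complex.I • Y ∈ s) :
    Φ (polz f X Y) = polz f (Φ X) (Φ Y) := by
  unfold polz
  simp only [map_smul, map_add, map_sub, h _ h1, h _ h2, h _ h3, h _ h4]

namespace Com

lemma coeffs (h : Com L Φ) : ∃ δ β γ : ℝ, γ ≠ 0 ∧
    ∀ (K : Submodule ℂ H) [FiniteDimensional ℂ K], ∀ X ∈ Lf K,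
      Φ (C2 X) = C2 (Φ X) ∧ Φ (E3 δ β γ X) = E3 δ β γ (Φ X) := by
  obtain ⟨κ, δ, β, γ, hκ, hγ, hexp⟩ := h.good.exp
  refine ⟨δ, β, γ, hγ, fun K _ X hX => ?_⟩
  obtain ⟨h1, h2⟩ := coeff h.good.mem hexp Φ h.comm h.one K hX
  refine ⟨?_, sub_eq_zero.1 h2⟩
  exact sub_eq_zero.1 ((smul_eq_zero.1 h1).resolve_left hκ)

lemma id1K (h : Com L Φ) (K : Submodule ℂ H) [FiniteDimensional ℂ K] {X Y : H →L[ℂ] H}
    (hX : X ∈ Lf K) (hY : Y ∈ Lf K) : Φ (br (star X) Y) = br (star (Φ X)) (Φ Y) := by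
  obtain ⟨δ, β, γ, hγ, hc⟩ := h.coeffs
  rw [← polz_C2, ← polz_C2]
  have hIY : Complex.I • Y ∈ Lf K := (Lf K).smul_mem hY _
  exact polz_map (s := (Lf K : Set (H →L[ℂ] H))) (fun Z hZ => (hc K Z hZ).1) (add_mem hX hY)
    (sub_mem hX hY) (add_mem hX hIY) (sub_mem hX hIY)

lemma C2_sa (X : H →L[ℂ] H) : star (C2 X) = C2 X := by
  unfold C2 br
  simp only [star_sub, star_mul, star_star]

lemma G3K (h : Com L Φ) (K : Submodule ℂ H) [FiniteDimensional ℂ K] {X : H →L[ℂ] H}
    (hX : X ∈ Lf K) : Φ (G3 X) = G3 (Φ X) := by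
  obtain ⟨δ, β, γ, hγ, hc⟩ := h.coeffs
  obtain ⟨h1, h2⟩ := hc K X hX
  have hr : ∀ (r : ℝ) (Y : H →L[ℂ] H), Φ (r • Y) = r • Φ Y := fun r Y =>
    LinearMap.map_smul_of_tower Φ r Y
  have hC : C2 X ∈ Lf K := C2_mem hX
  have e1 : ∀ Z : H →L[ℂ] H, br Z (br Z (star Z)) = br (star (C2 Z)) Z := by
    intro Z
    rw [C2_sa]
    unfold C2 br
    noncomm_ring
  have e2 : Φ (br X (br X (star X))) = br (Φ X) (br (Φ X) (star (Φ X))) := by
    rw [e1, e1, h.id1K K hC hX, h1]
  have e3 : Φ (br (star X) (br (star X) X)) = br (star (Φ X)) (br (star (Φ X)) (Φ X)) := by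
    have : br (star X) (br (star X) X) = br (star X) (C2 X) := rfl
    rw [this, h.id1K K hX hC, h1]
    rfl
  unfold E3 at h2
  rw [map_sub, map_add, hr, hr, hr, e2, e3] at h2
  have h3 : γ • Φ (G3 X) = γ • G3 (Φ X) := sub_right_injective h2
  exact smul_right_injective _ hγ h3

lemma id3K (h : Com L Φ) (K : Submodule ℂ H) [FiniteDimensional ℂ K] {X Y : H →L[ℂ] H}
    (hX : X ∈ Lf K) (hY : Y ∈ Lf K) :
    Φ (br (star X * star X) Y) = br (star (Φ X) * star (Φ X)) (Φ Y) := by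
  rw [← polz_G3, ← polz_G3]
  have hIY : Complex.I • Y ∈ Lf K := (Lf K).smul_mem hY _
  exact polz_map (s := (Lf K : Set (H →L[ℂ] H))) (fun Z hZ => h.G3K K hZ) (add_mem hX hY)
    (sub_mem hX hY) (add_mem hX hIY) (sub_mem hX hIY)

end Com

/-- `X ↦ Φ(X^*)^*` -/
def Psi (Φ : (H →L[ℂ] H) →ₗ[ℂ] (H →L[ℂ] H)) : (H →L[ℂ] H) →ₗ[ℂ] (H →L[ℂ] H) where
  toFun X := star (Φ (star X))
  map_add' X Y := by simp only [star_add, map_add]
  map_smul' c X := by
    simp only [star_smul, map_smul, RingHom.id_apply, star_star]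

lemma Psi_def (X : H →L[ℂ] H) : Psi Φ X = star (Φ (star X)) := rfl

lemma Psi_star (X : H →L[ℂ] H) : Psi Φ (star X) = star (Φ X) := by
  rw [Psi_def, star_star]

lemma star_br (X Y : H →L[ℂ] H) : star (br X Y) = br (star Y) (star X) := by
  unfold br
  rw [star_sub, star_mul, star_mul]

lemma br_anti (X Y : H →L[ℂ] H) : br X Y = - br Y X := by unfold br; abel

namespace Com

lemma id1 (h : Com L Φ) {X Y : H →L[ℂ] H} (hX : Fin' X) (hY : Fin' Y) :
    Φ (br X Y) = br (Psi Φ X) (Φ Y) := by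
  obtain ⟨K, hK, h1, h2⟩ := hX.pair hY
  have := h.id1K K (star_mem h1) h2
  rw [star_star] at this
  rw [this, Psi_def]

lemma id3 (h : Com L Φ) {X Y : H →L[ℂ] H} (hX : Fin' X) (hY : Fin' Y) :
    Φ (br (X * X) Y) = br (Psi Φ X * Psi Φ X) (Φ Y) := by
  obtain ⟨K, hK, h1, h2⟩ := hX.pair hY
  have := h.id3K K (star_mem h1) h2
  rw [star_star] at this
  rw [this, Psi_def]

lemma Psi_br (h : Com L Φ) {X Y : H →L[ℂ] H} (hX : Fin' X) (hY : Fin' Y) :
    Psi Φ (br X Y) = br (Psi Φ X) (Φ Y) := by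
  rw [Psi_def, star_br, h.id1 hY.star hX.star, star_br, Psi_star, star_star, ← Psi_def]

/-- commuting self-adjoint operators -/
lemma quasi (h : Com L Φ) {T : H →L[ℂ] H} (hT : QuasiNormal T) : QuasiNormal (Φ T) := by
  rw [← h.good.fix] at hT ⊢
  rw [← h.comm, hT]

lemma normal (h : Com L Φ) {N : H →L[ℂ] H} (hN : N * star N = star N * N) :
    Φ N * star (Φ N) = star (Φ N) * Φ N := by
  have hq : ∀ r : H →L[ℂ] H, r * star r = star r * r → QuasiNormal (1 + r) := by
    intro r hr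
    unfold QuasiNormal
    rw [star_add, star_one]
    have : (1 + r) * ((1 + star r) * (1 + r)) - (1 + star r) * (1 + r) * (1 + r)
        = (r * star r - star r * r) * (1 + r) := by noncomm_ring
    rw [hr, sub_self, zero_mul] at this
    exact sub_eq_zero.1 this
  have h1 := h.quasi (hq N hN)
  have h2 := h.quasi (hq (-N) (by rw [star_neg, neg_mul_neg, neg_mul_neg, hN]))
  rw [map_add, h.one] at h1 h2
  rw [map_neg] at h2
  unfold QuasiNormal at h1 h2
  set A := Φ N
  have e1 : (1 + A) * (star (1 + A) * (1 + A)) - star (1 + A) * (1 + A) * (1 + A)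
      = (A * star A - star A * A) + (A * (star A * A) - star A * A * A) := by
    rw [star_add, star_one]; noncomm_ring
  have e2 : (1 + -A) * (star (1 + -A) * (1 + -A)) - star (1 + -A) * (1 + -A) * (1 + -A)
      = (A * star A - star A * A) - (A * (star A * A) - star A * A * A) := by
    rw [star_add, star_one, star_neg]; noncomm_ring
  rw [h1, sub_self] at e1
  rw [h2, sub_self] at e2
  have e3 : (2 : ℂ) • (A * star A - star A * A) = 0 := by
    calc (2 : ℂ) • (A * star A - star A * A)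
        = ((A * star A - star A * A) + (A * (star A * A) - star A * A * A))
          + ((A * star A - star A * A) - (A * (star A * A) - star A * A * A)) := by module
      _ = 0 := by rw [← e1, ← e2, add_zero]
  exact sub_eq_zero.1 ((smul_eq_zero.1 e3).resolve_left two_ne_zero)

lemma nc (h : Com L Φ) {C D : H →L[ℂ] H} (hC : star C = C) (hD : star D = D)
    (hCD : C * D = D * C) : Φ C * star (Φ D) = star (Φ D) * Φ C := by
  have h1 := h.normal (N := C) (by rw [hC])
  have h2 := h.normal (N := D) (by rw [hD])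
  have h3 := h.normal (N := C + D) (by rw [star_add, hC, hD])
  have h4 := h.normal (N := C + Complex.I • D) (by
    rw [star_add, star_I_smul, hC, hD]
    simp only [add_mul, mul_add, mul_neg, neg_mul, smul_mul_assoc, mul_smul_comm, hCD]
    module)
  rw [map_add] at h3 h4
  rw [map_smul] at h4
  set A := Φ C
  set B := Φ D
  rw [star_add] at h3 h4
  rw [star_I_smul] at h4
  have e3 : (A * star B - star B * A) + (B * star A - star A * B) = 0 := by
    have : (A + B) * (star A + star B) - (star A + star B) * (A + B)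
        = (A * star A - star A * A) + (B * star B - star B * B)
          + ((A * star B - star B * A) + (B * star A - star A * B)) := by noncomm_ring
    rw [h3, h1, h2, sub_self, sub_self, sub_self, zero_add, zero_add] at this
    exact this.symm
  have e4 : Complex.I • ((B * star A - star A * B) - (A * star B - star B * A)) = 0 := by
    have : (A + Complex.I • B) * (star A + -(Complex.I • star B))
        - (star A + -(Complex.I • star B)) * (A + Complex.I • B)
        = (A * star A - star A * A) + (B * star B - star B * B)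
          + Complex.I • ((B * star A - star A * B) - (A * star B - star B * A)) := by
      simp only [add_mul, mul_add, mul_neg, neg_mul, smul_mul_assoc, mul_smul_comm]
      have hI : Complex.I ^ 2 = -1 := Complex.I_sq
      match_scalars <;> (ring_nf; try simp only [hI]; try ring_nf)
    rw [h4, h1, h2, sub_self, sub_self, sub_self, zero_add, zero_add] at this
    exact this.symm
  have e5 : (B * star A - star A * B) - (A * star B - star B * A) = 0 :=
    (smul_eq_zero.1 e4).resolve_left Complex.I_ne_zero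
  have e6 : (2 : ℂ) • (A * star B - star B * A) = 0 := by
    calc (2 : ℂ) • (A * star B - star B * A)
        = ((A * star B - star B * A) + (B * star A - star A * B))
          - ((B * star A - star A * B) - (A * star B - star B * A)) := by module
      _ = 0 := by rw [e3, e5, sub_zero]
  exact sub_eq_zero.1 ((smul_eq_zero.1 e6).resolve_left two_ne_zero)

end Com

/-! ### scalars -/

lemma rk_mul (x y z w : H) :
    rankOne ℂ x y * rankOne ℂ z w = ⟪y, z⟫_ℂ • rankOne ℂ x w := rankOne_comp_rankOne x y z w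

lemma rk_star (x y : H) : star (rankOne ℂ x y) = rankOne ℂ y x := adjoint_rankOne x y

lemma mul_rk (Z : H →L[ℂ] H) (x y : H) : Z * rankOne ℂ x y = rankOne ℂ (Z x) y :=
  comp_rankOne x y Z

lemma rk_mul' (Z : H →L[ℂ] H) (x y : H) :
    rankOne ℂ x y * Z = rankOne ℂ x (star Z y) := rankOne_comp x y Z

lemma scalar_of_comm {e₁ e₂ : H} (h1 : ‖e₁‖ = 1) (h2 : ‖e₂‖ = 1) (h12 : ⟪e₁, e₂⟫_ℂ = 0)
    {Z : H →L[ℂ] H} (hZ : ∀ x y : H, ⟪x, y⟫_ℂ = 0 → Z * rankOne ℂ x y = rankOne ℂ x y * Z) :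
    ∃ c : ℂ, Z = c • 1 := by
  have key : ∀ y : H, ‖y‖ = 1 → ∀ x : H, ⟪x, y⟫_ℂ = 0 → Z x = ⟪y, Z y⟫_ℂ • x := by
    intro y hy x hxy
    have h := congrArg (fun A : H →L[ℂ] H => A y) (hZ x y hxy)
    simp only [mul_apply_eq_comp, rankOne_apply] at h
    rw [inner_self_eq_norm_sq_to_K, hy] at h
    simpa using h
  have h21 : ⟪e₂, e₁⟫_ℂ = 0 := by rw [← inner_conj_symm, h12, map_zero]
  set c := ⟪e₁, Z e₁⟫_ℂ with hc
  have k2 : Z e₂ = c • e₂ := key e₁ h1 e₂ h21
  have k1 : Z e₁ = c • e₁ := by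
    have := key e₂ h2 e₁ h12
    rw [k2, inner_smul_right, inner_self_eq_norm_sq_to_K, h2] at this
    simpa using this
  refine ⟨c, ?_⟩
  ext x
  have hx : ⟪x - ⟪e₁, x⟫_ℂ • e₁, e₁⟫_ℂ = 0 := by
    rw [inner_sub_left, inner_smul_left, inner_self_eq_norm_sq_to_K, h1, inner_conj_symm]
    simp
  have h3 := key e₁ h1 _ hx
  rw [← hc, map_sub, map_smul, k1] at h3
  have h4 : Z x = (Z x - ⟪e₁, x⟫_ℂ • c • e₁) + ⟪e₁, x⟫_ℂ • c • e₁ := by abel
  rw [h4, h3]
  simp only [_root_.smul_apply, one_apply_eq_self]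
  module

end

end Pool.Agent.Q94.AL
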