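import Pool.Agent.Q94.ALH

open Filter Topology Asymptotics InnerProductSpace

namespace Pool.Agent.Q94.AL

open Pool.Agent.Q94.MA

noncomputable section

universe u

variable {H : Type u} [NormedAddCommGroup H] [InnerProductSpace ℂ H] [CompleteSpace H]

variable {L : (H →L[ℂ] H) → (H →L[ℂ] H)} {Φ Θ : (H →L[ℂ] H) →ₗ[ℂ] (H →L[ℂ] H)}

/-- `Φ` and its inverse `Θ` both commute with `L`; `e₁, e₂` are orthonormal. -/
structure Dat (L : (H →L[ℂ] H) → (H →L[ℂ] H)) (Φ Θ : (H →L[ℂ] H) →ₗ[ℂ] (H →L[ℂ] H))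
    (e₁ e₂ : H) : Prop where
  a : Com L Φ
  b : Com L Θ
  left : ∀ T, Θ (Φ T) = T
  right : ∀ T, Φ (Θ T) = T
  n1 : ‖e₁‖ = 1
  n2 : ‖e₂‖ = 1
  n12 : ⟪e₁, e₂⟫_ℂ = 0

lemma rk_Psi (h : Com L Φ) {x y : H} (hxy : ⟪x, y⟫_ℂ = 0) :
    Psi Φ (rankOne ℂ x y) = Φ (rankOne ℂ x y) := by
  rcases eq_or_ne y 0 with hy | hy
  · subst hy
    rw [map_zero, map_zero, map_zero]
  · have hyx : ⟪y, x⟫_ℂ = 0 := by rw [← inner_conj_symm, hxy, map_zero]
    have hn : ⟪y, y⟫_ℂ ≠ 0 := inner_self_ne_zero.2 hy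
    have hb : br (rankOne ℂ x y) (rankOne ℂ y y) = ⟪y, y⟫_ℂ • rankOne ℂ x y := by
      unfold br
      rw [rk_mul, rk_mul, hyx, zero_smul, sub_zero]
    have h1 := h.Psi_br (Fin'.rk x y) (Fin'.rk y y)
    have h2 := h.id1 (Fin'.rk x y) (Fin'.rk y y)
    rw [← h2, hb, map_smul, map_smul] at h1
    exact smul_right_injective _ hn h1

lemma star_Phi_rk (h : Com L Φ) {x y : H} (hxy : ⟪x, y⟫_ℂ = 0) :
    star (Φ (rankOne ℂ x y)) = Φ (rankOne ℂ y x) := by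
  have hyx : ⟪y, x⟫_ℂ = 0 := by rw [← inner_conj_symm, hxy, map_zero]
  rw [← rk_Psi h hyx, Psi_def, rk_star]

namespace Dat

variable {e₁ e₂ : H}

lemma irr_sa (D : Dat L Φ Θ e₁ e₂) {C : H →L[ℂ] H} (hs : star C = C)
    (hC : ∀ x y : H, ⟪x, y⟫_ℂ = 0 → C * Φ (rankOne ℂ x y) = Φ (rankOne ℂ x y) * C) :
    ∃ c : ℂ, C = c • 1 := by
  have h1 : ∃ c : ℂ, Θ C = c • 1 := by
    apply scalar_of_comm D.n1 D.n2 D.n12
    intro x y hxy
    have hyx : ⟪y, x⟫_ℂ = 0 := by rw [← inner_conj_symm, hxy, map_zero]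
    set F₁ := rankOne ℂ x y + rankOne ℂ y x with hF₁
    set F₂ := Complex.I • (rankOne ℂ x y - rankOne ℂ y x) with hF₂
    have s1 : star F₁ = F₁ := by rw [hF₁, star_add, rk_star, rk_star, add_comm]
    have s2 : star F₂ = F₂ := by
      rw [hF₂, star_I_smul, star_sub, rk_star, rk_star, ← smul_neg, neg_sub]
    have t1 : star (Φ F₁) = Φ F₁ := by
      rw [hF₁, map_add, star_add, star_Phi_rk D.a hxy, star_Phi_rk D.a hyx, add_comm]
    have t2 : star (Φ F₂) = Φ F₂ := by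
      rw [hF₂, map_smul, star_I_smul, map_sub, star_sub, star_Phi_rk D.a hxy,
        star_Phi_rk D.a hyx, ← smul_neg, neg_sub]
    have c1 : C * Φ F₁ = Φ F₁ * C := by
      rw [hF₁, map_add, mul_add, add_mul, hC x y hxy, hC y x hyx]
    have c2 : C * Φ F₂ = Φ F₂ * C := by
      rw [hF₂, map_smul, map_sub, mul_smul_comm, smul_mul_assoc, mul_sub, sub_mul, hC x y hxy,
        hC y x hyx]
    have d1 := D.b.nc hs t1 c1
    have d2 := D.b.nc hs t2 c2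
    rw [D.left, s1] at d1
    rw [D.left, s2] at d2
    have e : rankOne ℂ x y = (1 / 2 : ℂ) • (F₁ - Complex.I • F₂) := by
      rw [hF₁, hF₂]
      have hI : Complex.I ^ 2 = -1 := Complex.I_sq
      match_scalars <;> (ring_nf; try simp only [hI]; try ring_nf)
    rw [e]
    simp only [mul_smul_comm, smul_mul_assoc, mul_sub, sub_mul, d1, d2]
  obtain ⟨c, hc⟩ := h1
  refine ⟨c, ?_⟩
  rw [← D.right C, hc, map_smul, D.a.one]

lemma irr (D : Dat L Φ Θ e₁ e₂) {C : H →L[ℂ] H}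
    (hC : ∀ x y : H, ⟪x, y⟫_ℂ = 0 → C * Φ (rankOne ℂ x y) = Φ (rankOne ℂ x y) * C) :
    ∃ c : ℂ, C = c • 1 := by
  have hC' : ∀ x y : H, ⟪x, y⟫_ℂ = 0 → star C * Φ (rankOne ℂ x y) = Φ (rankOne ℂ x y) * star C := by
    intro x y hxy
    have hyx : ⟪y, x⟫_ℂ = 0 := by rw [← inner_conj_symm, hxy, map_zero]
    have := congrArg star (hC y x hyx)
    rw [star_mul, star_mul, star_Phi_rk D.a hyx] at this
    exact this.symm
  obtain ⟨c₁, h1⟩ := D.irr_sa (C := C + star C) (by rw [star_add, star_star, add_comm]) (by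
    intro x y hxy
    rw [add_mul, mul_add, hC x y hxy, hC' x y hxy])
  obtain ⟨c₂, h2⟩ := D.irr_sa (C := Complex.I • (C - star C)) (by
    rw [star_I_smul, star_sub, star_star, ← smul_neg, neg_sub]) (by
    intro x y hxy
    rw [smul_mul_assoc, mul_smul_comm, sub_mul, mul_sub, hC x y hxy, hC' x y hxy])
  refine ⟨(1 / 2) * (c₁ - Complex.I * c₂), ?_⟩
  have e : C = (1 / 2 : ℂ) • ((C + star C) - Complex.I • (Complex.I • (C - star C))) := by
    have hI : Complex.I ^ 2 = -1 := Complex.I_sq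
    match_scalars <;> (ring_nf; try simp only [hI]; try ring_nf)
  rw [e, h1, h2]
  module

lemma diff_scalar (D : Dat L Φ Θ e₁ e₂) {Y : H →L[ℂ] H} (hY : Fin' Y) :
    ∃ c : ℂ, Psi Φ Y = Φ Y + c • 1 := by
  obtain ⟨c, hc⟩ := D.irr (C := Psi Φ Y - Φ Y) (by
    intro x y hxy
    have h1 := D.a.id1 hY (Fin'.rk x y)
    have h2 := D.a.id1 (Fin'.rk x y) hY
    rw [rk_Psi D.a hxy, br_anti, map_neg, h1] at h2
    unfold br at h2
    have h3 : (Psi Φ Y - Φ Y) * Φ (rankOne ℂ x y) - Φ (rankOne ℂ x y) * (Psi Φ Y - Φ Y)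
        = -(-(Psi Φ Y * Φ (rankOne ℂ x y) - Φ (rankOne ℂ x y) * Psi Φ Y))
          + (Φ (rankOne ℂ x y) * Φ Y - Φ Y * Φ (rankOne ℂ x y)) := by noncomm_ring
    rw [h2] at h3
    rw [← sub_eq_zero, h3]
    abel)
  exact ⟨c, by rw [← hc]; abel⟩

lemma br_Psi (D : Dat L Φ Θ e₁ e₂) {X Y : H →L[ℂ] H} (hX : Fin' X) (hY : Fin' Y) :
    Psi Φ (br X Y) = br (Psi Φ X) (Psi Φ Y) := by
  obtain ⟨c, hc⟩ := D.diff_scalar hY
  rw [D.a.Psi_br hX hY, hc]
  unfold br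
  simp only [mul_add, add_mul, mul_smul_comm, smul_mul_assoc, mul_one, one_mul]
  abel

lemma sq_scalar (D : Dat L Φ Θ e₁ e₂) {X : H →L[ℂ] H} (hX : Fin' X) :
    ∃ c : ℂ, Psi Φ (X * X) = Psi Φ X * Psi Φ X + c • 1 := by
  obtain ⟨c, hc⟩ := D.irr (C := Psi Φ (X * X) - Psi Φ X * Psi Φ X) (by
    intro x y hxy
    have h1 := D.a.id1 (hX.mul hX) (Fin'.rk x y)
    have h2 := D.a.id3 hX (Fin'.rk x y)
    rw [h1] at h2
    unfold br at h2
    rw [← sub_eq_zero]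
    have h3 : (Psi Φ (X * X) - Psi Φ X * Psi Φ X) * Φ (rankOne ℂ x y)
        - Φ (rankOne ℂ x y) * (Psi Φ (X * X) - Psi Φ X * Psi Φ X)
        = (Psi Φ (X * X) * Φ (rankOne ℂ x y) - Φ (rankOne ℂ x y) * Psi Φ (X * X))
          - (Psi Φ X * Psi Φ X * Φ (rankOne ℂ x y) - Φ (rankOne ℂ x y) * (Psi Φ X * Psi Φ X)) := by
      noncomm_ring
    rw [h3, h2, sub_self])
  exact ⟨c, by rw [← hc]; abel⟩

lemma prod_scalar (D : Dat L Φ Θ e₁ e₂) {X Y : H →L[ℂ] H} (hX : Fin' X) (hY : Fin' Y) :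
    ∃ c : ℂ, Psi Φ (X * Y) = Psi Φ X * Psi Φ Y + c • 1 := by
  obtain ⟨c₁, h1⟩ := D.sq_scalar (hX.add hY)
  obtain ⟨c₂, h2⟩ := D.sq_scalar hX
  obtain ⟨c₃, h3⟩ := D.sq_scalar hY
  have h4 := D.br_Psi hX hY
  refine ⟨(1 / 2) * (c₁ - c₂ - c₃), ?_⟩
  have e : X * Y = (1 / 2 : ℂ) • ((X + Y) * (X + Y) - X * X - Y * Y + br X Y) := by
    unfold br
    simp only [add_mul, mul_add]
    module
  rw [e, map_smul, map_add, map_sub, map_sub, h1, h2, h3, h4, map_add]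
  unfold br
  simp only [add_mul, mul_add]
  module

lemma Psi_inj (D : Dat L Φ Θ e₁ e₂) {X : H →L[ℂ] H} (h : Psi Φ X = 0) : X = 0 := by
  rw [Psi_def, star_eq_zero] at h
  have h1 : star X = 0 := by rw [← D.left (star X), h, map_zero]
  exact star_eq_zero.1 h1

lemma Psi_one (D : Dat L Φ Θ e₁ e₂) : Psi Φ 1 = 1 := by
  rw [Psi_def, star_one, D.a.one, star_one]

lemma e_ne (D : Dat L Φ Θ e₁ e₂) : rankOne ℂ e₁ e₁ ≠ rankOne ℂ e₂ e₂ := by
  intro h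
  have h1 := congrArg (fun A : H →L[ℂ] H => A e₁) h
  have h21 : ⟪e₂, e₁⟫_ℂ = 0 := by rw [← inner_conj_symm, D.n12, map_zero]
  simp only [rankOne_apply, h21, zero_smul, inner_self_eq_norm_sq_to_K, D.n1] at h1
  have h2 : e₁ = 0 := by simpa using h1
  have := D.n1
  rw [h2, norm_zero] at this
  norm_num at this

lemma mult (D : Dat L Φ Θ e₁ e₂) {X Y : H →L[ℂ] H} (hX : Fin' X) (hY : Fin' Y) :
    Psi Φ (X * Y) = Psi Φ X * Psi Φ Y := by
  obtain ⟨g, hg⟩ := D.prod_scalar hX hY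
  by_cases h0 : g = 0
  · rw [hg, h0, zero_smul, add_zero]
  exfalso
  have hsp : ∀ Z : H →L[ℂ] H, Fin' Z → ∃ a b : ℂ, g • Z = a • X + b • 1 := by
    intro Z hZ
    obtain ⟨g₂, h2⟩ := D.prod_scalar hY hZ
    obtain ⟨g₃, h3⟩ := D.prod_scalar (hX.mul hY) hZ
    obtain ⟨g₄, h4⟩ := D.prod_scalar hX (hY.mul hZ)
    rw [hg] at h3
    rw [h2, ← mul_assoc, h3] at h4
    refine ⟨g₂, g₄ - g₃, ?_⟩
    have h5 : Psi Φ (g • Z - g₂ • X - (g₄ - g₃) • 1) = 0 := by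
      rw [map_sub, map_sub, map_smul, map_smul, map_smul, D.Psi_one]
      have h6 : g • Psi Φ Z - g₂ • Psi Φ X - (g₄ - g₃) • (1 : H →L[ℂ] H)
          = ((Psi Φ X * Psi Φ Y + g • 1) * Psi Φ Z + g₃ • 1)
            - (Psi Φ X * (Psi Φ Y * Psi Φ Z + g₂ • 1) + g₄ • 1) := by
        simp only [add_mul, mul_add, mul_smul_comm, smul_mul_assoc, mul_one, one_mul, mul_assoc]
        module
      rw [h6, h4, sub_self]
    have h7 := D.Psi_inj h5
    have h8 : g • Z = (g • Z - g₂ • X - (g₄ - g₃) • 1) + (g₂ • X + (g₄ - g₃) • 1) := by abel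
    rw [h8, h7, zero_add]
  obtain ⟨a, b, h1⟩ := hsp _ (Fin'.rk e₁ e₂)
  obtain ⟨a', b', h2⟩ := hsp _ (Fin'.rk e₂ e₁)
  have h3 : (g • rankOne ℂ e₁ e₂) * (g • rankOne ℂ e₂ e₁)
      = (g • rankOne ℂ e₂ e₁) * (g • rankOne ℂ e₁ e₂) := by
    rw [h1, h2]
    simp only [add_mul, mul_add, mul_smul_comm, smul_mul_assoc, mul_one, one_mul]
    module
  rw [smul_mul_smul_comm, smul_mul_smul_comm, rk_mul, rk_mul, inner_self_eq_norm_sq_to_K,
    inner_self_eq_norm_sq_to_K, D.n1, D.n2] at h3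
  have h4 := smul_right_injective _ (mul_ne_zero h0 h0) h3
  simp only [RCLike.ofReal_one, one_pow, one_smul] at h4
  exact D.e_ne h4

lemma rk_unit (D : Dat L Φ Θ e₁ e₂) {x : H} (hx : ‖x‖ = 1) :
    Psi Φ (rankOne ℂ x x) = Φ (rankOne ℂ x x) := by
  have hP : rankOne ℂ x x * rankOne ℂ x x = rankOne ℂ x x := by
    rw [rk_mul, inner_self_eq_norm_sq_to_K, hx]
    simp
  have hs : star (rankOne ℂ x x) = rankOne ℂ x x := rk_star x x
  have h1 : Psi Φ (rankOne ℂ x x) = star (Φ (rankOne ℂ x x)) := by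
    rw [Psi_def, hs]
  have h2 := D.a.normal (N := rankOne ℂ x x) (by rw [hs])
  have h3 := D.mult (Fin'.rk x x) (Fin'.rk x x)
  rw [hP] at h3
  have h4 : IsStarProjection (Psi Φ (rankOne ℂ x x)) := by
    rw [isStarProjection_iff_isIdempotentElem_and_isStarNormal]
    refine ⟨h3.symm, ⟨?_⟩⟩
    rw [h1, star_star]
    exact h2
  have h5 : star (Psi Φ (rankOne ℂ x x)) = Psi Φ (rankOne ℂ x x) := h4.isSelfAdjoint
  rw [← h5, h1, star_star]

lemma rk_all (D : Dat L Φ Θ e₁ e₂) (x y : H) :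
    Psi Φ (rankOne ℂ x y) = Φ (rankOne ℂ x y) := by
  rcases eq_or_ne x 0 with hx | hx
  · subst hx
    rw [map_zero]
    simp
  · have hn : (‖x‖ : ℂ) ≠ 0 := by exact_mod_cast (norm_pos_iff.2 hx).ne'
    obtain ⟨w, hw⟩ : ∃ w : H, w = ((‖x‖ : ℂ)⁻¹) • x := ⟨_, rfl⟩
    have hw1 : ‖w‖ = 1 := by
      rw [hw, norm_smul, norm_inv, Complex.norm_real, norm_norm,
        inv_mul_cancel₀ (norm_pos_iff.2 hx).ne']
    have hxw : x = (‖x‖ : ℂ) • w := by
      rw [hw, smul_smul, mul_inv_cancel₀ hn, one_smul]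
    obtain ⟨y', hy'⟩ : ∃ y' : H, y' = y - ⟪w, y⟫_ℂ • w := ⟨_, rfl⟩
    have hwy : ⟪w, y'⟫_ℂ = 0 := by
      rw [hy', inner_sub_right, inner_smul_right, inner_self_eq_norm_sq_to_K, hw1]
      simp
    have hxy' : ⟪x, y'⟫_ℂ = 0 := by
      rw [hxw, inner_smul_left, hwy, mul_zero]
    have e : rankOne ℂ x y = ((‖x‖ : ℂ) * starRingEnd ℂ ⟪w, y⟫_ℂ) • rankOne ℂ w w
        + rankOne ℂ x y' := by
      have h1 : y = ⟪w, y⟫_ℂ • w + y' := by rw [hy']; abel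
      have h2 : rankOne ℂ x y = rankOne ℂ x (⟪w, y⟫_ℂ • w + y') := by rw [← h1]
      have h3 : rankOne ℂ x w = (‖x‖ : ℂ) • rankOne ℂ w w := by
        ext z
        rw [rankOne_apply, _root_.smul_apply, rankOne_apply]
        conv_lhs => rw [hxw]
        rw [smul_comm]
      rw [h2, map_add, map_smulₛₗ, h3, smul_smul, mul_comm]
    rw [e, (Psi Φ).map_add, Φ.map_add, (Psi Φ).map_smul, Φ.map_smul, D.rk_unit hw1,
      rk_Psi D.a hxy']

lemma star_rk (D : Dat L Φ Θ e₁ e₂) (x y : H) :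
    star (Φ (rankOne ℂ x y)) = Φ (rankOne ℂ y x) := by
  rw [← D.rk_all y x, Psi_def, rk_star]

lemma mul_rk' (D : Dat L Φ Θ e₁ e₂) (x y z w : H) :
    Φ (rankOne ℂ x y) * Φ (rankOne ℂ z w) = ⟪y, z⟫_ℂ • Φ (rankOne ℂ x w) := by
  rw [← D.rk_all x y, ← D.rk_all z w, ← D.mult (Fin'.rk x y) (Fin'.rk z w), rk_mul, map_smul,
    D.rk_all]

theorem exists_unitary (D : Dat L Φ Θ e₁ e₂) : ∃ U : unitary (H →L[ℂ] H), ∀ x y : H,
    Φ (rankOne ℂ x y) = (U : H →L[ℂ] H) * rankOne ℂ x y * star (U : H →L[ℂ] H) := by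
  have hp0 : Φ (rankOne ℂ e₁ e₁) ≠ 0 := by
    intro h0
    have h1 : rankOne ℂ e₁ e₁ = 0 := by rw [← D.left (rankOne ℂ e₁ e₁), h0, map_zero]
    have h2 := congrArg (fun A : H →L[ℂ] H => A e₁) h1
    simp only [rankOne_apply, inner_self_eq_norm_sq_to_K, D.n1] at h2
    have h3 : e₁ = 0 := by simpa using h2
    have := D.n1
    rw [h3, norm_zero] at this
    norm_num at this
  obtain ⟨η, hη⟩ : ∃ η, Φ (rankOne ℂ e₁ e₁) η ≠ 0 := by
    by_contra hcon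
    push Not at hcon
    exact hp0 (by ext x; exact hcon x)
  set v : H := Φ (rankOne ℂ e₁ e₁) η with hv
  have hn : (‖v‖ : ℂ) ≠ 0 := by exact_mod_cast (norm_pos_iff.2 hη).ne'
  obtain ⟨ξ, hξ⟩ : ∃ ξ : H, ξ = ((‖v‖ : ℂ)⁻¹) • v := ⟨_, rfl⟩
  have hξ1 : ‖ξ‖ = 1 := by
    rw [hξ, norm_smul, norm_inv, Complex.norm_real, norm_norm,
      inv_mul_cancel₀ (norm_pos_iff.2 hη).ne']
  have he11 : ⟪e₁, e₁⟫_ℂ = 1 := by rw [inner_self_eq_norm_sq_to_K, D.n1]; simp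
  have hpξ : Φ (rankOne ℂ e₁ e₁) ξ = ξ := by
    rw [hξ, map_smul, hv]
    congr 1
    have := congrArg (fun A : H →L[ℂ] H => A η) (D.mul_rk' e₁ e₁ e₁ e₁)
    rw [he11, one_smul] at this
    exact this
  have hin : ∀ x y : H, ⟪Φ (rankOne ℂ x e₁) ξ, Φ (rankOne ℂ y e₁) ξ⟫_ℂ = ⟪x, y⟫_ℂ := by
    intro x y
    rw [← star_inner', D.star_rk]
    have : Φ (rankOne ℂ e₁ x) (Φ (rankOne ℂ y e₁) ξ)
        = (Φ (rankOne ℂ e₁ x) * Φ (rankOne ℂ y e₁)) ξ := rfl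
    rw [this, D.mul_rk', _root_.smul_apply, hpξ, inner_smul_right, inner_self_eq_norm_sq_to_K,
      hξ1]
    simp
  let f : H →ₗ[ℂ] H :=
    { toFun := fun x => Φ (rankOne ℂ x e₁) ξ
      map_add' := fun x y => by
        have : rankOne ℂ (x + y) e₁ = rankOne ℂ x e₁ + rankOne ℂ y e₁ := by
          ext z
          rw [rankOne_apply, _root_.add_apply, rankOne_apply, rankOne_apply, smul_add]
        rw [this, Φ.map_add]; rfl
      map_smul' := fun c x => by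
        have : rankOne ℂ (c • x) e₁ = c • rankOne ℂ x e₁ := by
          ext z
          rw [rankOne_apply, _root_.smul_apply, rankOne_apply, smul_comm]
        rw [this, Φ.map_smul]; rfl }
  have hf : ∀ x, f x = Φ (rankOne ℂ x e₁) ξ := fun x => rfl
  let F : H →ₗᵢ[ℂ] H := ⟨f, fun x => by
    have h1 := hin x x
    rw [inner_self_eq_norm_sq_to_K, inner_self_eq_norm_sq_to_K] at h1
    have h2 : ‖Φ (rankOne ℂ x e₁) ξ‖ ^ 2 = ‖x‖ ^ 2 := by exact_mod_cast h1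
    rw [hf]
    exact (sq_eq_sq₀ (norm_nonneg _) (norm_nonneg _)).1 h2⟩
  set W : H →L[ℂ] H := F.toContinuousLinearMap with hW
  have hWx : ∀ x, W x = Φ (rankOne ℂ x e₁) ξ := fun x => rfl
  have hWW : star W * W = 1 := by
    ext x
    apply ext_inner_left ℂ
    intro y
    rw [mul_apply_eq_comp, star_inner', hWx, hWx, hin]
    rfl
  have hint : ∀ x y : H, Φ (rankOne ℂ x y) * W = W * rankOne ℂ x y := by
    intro x y
    ext z
    rw [mul_apply_eq_comp, mul_apply_eq_comp, rankOne_apply, map_smul, hWx, hWx]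
    have : Φ (rankOne ℂ x y) (Φ (rankOne ℂ z e₁) ξ)
        = (Φ (rankOne ℂ x y) * Φ (rankOne ℂ z e₁)) ξ := rfl
    rw [this, D.mul_rk', _root_.smul_apply]
  have hint' : ∀ x y : H, star W * Φ (rankOne ℂ x y) = rankOne ℂ x y * star W := by
    intro x y
    have := congrArg star (hint y x)
    rw [star_mul, star_mul, D.star_rk, rk_star] at this
    exact this
  obtain ⟨c, hc⟩ := D.irr (C := W * star W) (by
    intro x y _
    rw [mul_assoc, hint', ← mul_assoc, ← hint, mul_assoc])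
  have hc1 : W * star W = 1 := by
    have h1 : (W * star W) * W = W := by rw [mul_assoc, hWW, mul_one]
    rw [hc, smul_mul_assoc, one_mul] at h1
    have h2 : (c - 1) • W = 0 := by rw [sub_smul, one_smul, h1, sub_self]
    have hW0 : W ≠ 0 := by
      intro h0
      rw [h0, mul_zero] at hWW
      have h3 := congrArg (fun A : H →L[ℂ] H => A e₁) hWW
      have h4 : (0 : H) = e₁ := h3
      have := D.n1
      rw [← h4, norm_zero] at this
      norm_num at this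
    have h3 : c - 1 = 0 := (smul_eq_zero.1 h2).resolve_right hW0
    rw [hc, sub_eq_zero.1 h3, one_smul]
  refine ⟨⟨W, ?_⟩, ?_⟩
  · rw [Unitary.mem_iff]
    exact ⟨hWW, hc1⟩
  · intro x y
    change Φ (rankOne ℂ x y) = W * rankOne ℂ x y * star W
    rw [← hint, mul_assoc, hc1, mul_one]

end Dat

end

end Pool.Agent.Q94.AL
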