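import Pool.Agent.Q94.ALI

open Filter Topology Asymptotics InnerProductSpace ComplexStarModule

namespace Pool.Agent.Q94.AL

open Pool.Agent.Q94.MA

noncomputable section

universe u

variable {H : Type u} [NormedAddCommGroup H] [InnerProductSpace ℂ H] [CompleteSpace H]

variable {L : (H →L[ℂ] H) → (H →L[ℂ] H)}

lemma quasi_one_add {r : H →L[ℂ] H} (hr : r * star r = star r * r) : QuasiNormal (1 + r) := by
  unfold QuasiNormal
  rw [star_add, star_one]
  have : (1 + r) * ((1 + star r) * (1 + r)) - (1 + star r) * (1 + r) * (1 + r)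
      = (r * star r - star r * r) * (1 + r) := by noncomm_ring
  rw [hr, sub_self, zero_mul] at this
  exact sub_eq_zero.1 this

/-- the image of the identity is a scalar -/
lemma phi_one (hL : Good L) (Φ : (H →L[ℂ] H) →ₗ[ℂ] (H →L[ℂ] H)) (hΦ : ∀ T, Φ (L T) = L (Φ T))
    (hsurj : ∀ S, ∃ T, Φ T = S) {e₁ e₂ : H} (h1 : ‖e₁‖ = 1) (h2 : ‖e₂‖ = 1)
    (h12 : ⟪e₁, e₂⟫_ℂ = 0) : ∃ c : ℂ, Φ 1 = c • 1 := by
  set m := Φ 1 with hm
  have hq : ∀ T, QuasiNormal T → QuasiNormal (Φ T) := by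
    intro T hT
    rw [← hL.fix] at hT ⊢
    rw [← hΦ, hT]
  have hbr : ∀ T : H →L[ℂ] H, QuasiNormal T → br T (star T * T) = 0 := by
    intro T hT
    unfold QuasiNormal at hT
    unfold br
    rw [hT, sub_self]
  have hc2 : ∀ F : H →L[ℂ] H, star F = F → br (Φ F) (star m * Φ F) = 0 := by
    intro F hF
    have k : ∀ z : ℂ, br (m + z • Φ F) (star (m + z • Φ F) * (m + z • Φ F)) = 0 := by
      intro z
      have hn : (z • F) * star (z • F) = star (z • F) * (z • F) := by
        rw [star_smul, hF, smul_mul_smul_comm, smul_mul_smul_comm, mul_comm]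
      have h3 := hbr _ (hq _ (quasi_one_add hn))
      rwa [map_add, map_smul, ← hm] at h3
    have k1 := k 1
    have k2 := k (-1)
    have k3 := k Complex.I
    have k4 := k (-Complex.I)
    have e : (4 : ℂ) • br (Φ F) (star m * Φ F)
        = br (m + (1 : ℂ) • Φ F) (star (m + (1 : ℂ) • Φ F) * (m + (1 : ℂ) • Φ F))
          + br (m + (-1 : ℂ) • Φ F) (star (m + (-1 : ℂ) • Φ F) * (m + (-1 : ℂ) • Φ F))
          - br (m + Complex.I • Φ F) (star (m + Complex.I • Φ F) * (m + Complex.I • Φ F))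
          - br (m + (-Complex.I) • Φ F)
            (star (m + (-Complex.I) • Φ F) * (m + (-Complex.I) • Φ F)) := by
      have s1 : star (m + (1 : ℂ) • Φ F) = star m + star (Φ F) := by rw [one_smul, star_add]
      have s2 : star (m + (-1 : ℂ) • Φ F) = star m - star (Φ F) := by
        rw [neg_smul, one_smul, star_add, star_neg]; abel
      have s3 : star (m + Complex.I • Φ F) = star m - Complex.I • star (Φ F) := by
        rw [star_add, star_I_smul]; abel
      have s4 : star (m + (-Complex.I) • Φ F) = star m + Complex.I • star (Φ F) := by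
        rw [star_add, neg_smul, star_neg, star_I_smul]; abel
      rw [s1, s2, s3, s4]
      unfold br
      simp only [add_mul, mul_add, sub_mul, mul_sub, smul_mul_assoc, mul_smul_comm, ← mul_assoc]
      have hI : Complex.I ^ 2 = -1 := Complex.I_sq
      have hI3 : Complex.I ^ 3 = -Complex.I := by rw [pow_succ, hI]; ring
      match_scalars <;> (ring_nf; try simp only [hI, hI3]; try ring_nf)
    rw [k1, k2, k3, k4] at e
    have e' : (4 : ℂ) • br (Φ F) (star m * Φ F) = 0 := by rw [e]; abel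
    exact (smul_eq_zero.1 e').resolve_left (by norm_num)
  have hb : ∀ F G : H →L[ℂ] H, star F = F → star G = G →
      br (Φ F) (star m * Φ G) + br (Φ G) (star m * Φ F) = 0 := by
    intro F G hF hG
    have k1 := hc2 (F + G) (by rw [star_add, hF, hG])
    have k2 := hc2 F hF
    have k3 := hc2 G hG
    rw [map_add] at k1
    have e : br (Φ F) (star m * Φ G) + br (Φ G) (star m * Φ F)
        = br (Φ F + Φ G) (star m * (Φ F + Φ G)) - br (Φ F) (star m * Φ F)
          - br (Φ G) (star m * Φ G) := by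
      unfold br; noncomm_ring
    rw [e, k1, k2, k3]
    simp
  have hb2 : ∀ S T : H →L[ℂ] H, br (Φ S) (star m * Φ T) + br (Φ T) (star m * Φ S) = 0 := by
    intro S T
    have hS := realPart_add_I_smul_imaginaryPart S
    have hT := realPart_add_I_smul_imaginaryPart T
    set S₁ : H →L[ℂ] H := (ℜ S : H →L[ℂ] H)
    set S₂ : H →L[ℂ] H := (ℑ S : H →L[ℂ] H)
    set T₁ : H →L[ℂ] H := (ℜ T : H →L[ℂ] H)
    set T₂ : H →L[ℂ] H := (ℑ T : H →L[ℂ] H)
    have s1 : star S₁ = S₁ := (ℜ S).2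
    have s2 : star S₂ = S₂ := (ℑ S).2
    have t1 : star T₁ = T₁ := (ℜ T).2
    have t2 : star T₂ = T₂ := (ℑ T).2
    have b11 := hb _ _ s1 t1
    have b12 := hb _ _ s1 t2
    have b21 := hb _ _ s2 t1
    have b22 := hb _ _ s2 t2
    rw [← hS, ← hT, map_add, map_add, map_smul, map_smul]
    have e : br (Φ S₁ + Complex.I • Φ S₂) (star m * (Φ T₁ + Complex.I • Φ T₂))
        + br (Φ T₁ + Complex.I • Φ T₂) (star m * (Φ S₁ + Complex.I • Φ S₂))
        = (br (Φ S₁) (star m * Φ T₁) + br (Φ T₁) (star m * Φ S₁))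
          + Complex.I • (br (Φ S₁) (star m * Φ T₂) + br (Φ T₂) (star m * Φ S₁))
          + Complex.I • (br (Φ S₂) (star m * Φ T₁) + br (Φ T₁) (star m * Φ S₂))
          + (Complex.I * Complex.I) • (br (Φ S₂) (star m * Φ T₂)
            + br (Φ T₂) (star m * Φ S₂)) := by
      unfold br
      simp only [add_mul, mul_add, smul_mul_assoc, mul_smul_comm]
      module
    rw [e, b11, b12, b21, b22]
    simp
  obtain ⟨J, hJ⟩ := hsurj 1
  have hcen : ∀ B : H →L[ℂ] H, star m * B = B * star m := by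
    intro B
    obtain ⟨T, hT⟩ := hsurj B
    have h3 := hb2 J T
    rw [hJ, hT] at h3
    unfold br at h3
    rw [mul_one, one_mul, mul_one, sub_self, zero_add] at h3
    exact (sub_eq_zero.1 h3).symm
  obtain ⟨c, hc⟩ := scalar_of_comm h1 h2 h12 (Z := star m) (fun x y _ => hcen _)
  refine ⟨star c, ?_⟩
  have := congrArg star hc
  rwa [star_star, star_smul, star_one] at this

/-- separating functional -/
def phi (e₁ e₂ : H) (A : H →L[ℂ] H) : ℂ := ⟪e₁, A e₁⟫_ℂ - ⟪e₂, A e₂⟫_ℂ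

lemma phi_add (e₁ e₂ : H) (A B : H →L[ℂ] H) : phi e₁ e₂ (A + B) = phi e₁ e₂ A + phi e₁ e₂ B := by
  unfold phi
  rw [_root_.add_apply, _root_.add_apply, inner_add_right, inner_add_right]
  ring

lemma phi_sub (e₁ e₂ : H) (A B : H →L[ℂ] H) : phi e₁ e₂ (A - B) = phi e₁ e₂ A - phi e₁ e₂ B := by
  unfold phi
  rw [_root_.sub_apply, _root_.sub_apply, inner_sub_right, inner_sub_right]
  ring

lemma phi_smul (e₁ e₂ : H) (c : ℂ) (A : H →L[ℂ] H) : phi e₁ e₂ (c • A) = c * phi e₁ e₂ A := by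
  unfold phi
  rw [_root_.smul_apply, _root_.smul_apply, inner_smul_right, inner_smul_right]
  ring

lemma phi_one' {e₁ e₂ : H} (h1 : ‖e₁‖ = 1) (h2 : ‖e₂‖ = 1) : phi e₁ e₂ 1 = 0 := by
  unfold phi
  rw [one_apply_eq_self, one_apply_eq_self, inner_self_eq_norm_sq_to_K,
    inner_self_eq_norm_sq_to_K, h1, h2, sub_self]

lemma phi_norm {e₁ e₂ : H} (h1 : ‖e₁‖ = 1) (h2 : ‖e₂‖ = 1) (A : H →L[ℂ] H) :
    ‖phi e₁ e₂ A‖ ≤ 2 * ‖A‖ := by
  unfold phi
  have a1 : ‖⟪e₁, A e₁⟫_ℂ‖ ≤ ‖A‖ := by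
    refine (norm_inner_le_norm _ _).trans ?_
    have := A.le_opNorm e₁
    rw [h1, mul_one] at this
    rw [h1, one_mul]
    exact this
  have a2 : ‖⟪e₂, A e₂⟫_ℂ‖ ≤ ‖A‖ := by
    refine (norm_inner_le_norm _ _).trans ?_
    have := A.le_opNorm e₂
    rw [h2, mul_one] at this
    rw [h2, one_mul]
    exact this
  calc _ ≤ ‖⟪e₁, A e₁⟫_ℂ‖ + ‖⟪e₂, A e₂⟫_ℂ‖ := norm_sub_le _ _
    _ ≤ _ := by linarith

lemma shift_alg (κ δ β γ : ℝ) (W : H →L[ℂ] H) (c : ℂ) (s : ℝ) :
    P4 κ δ β γ (s • (W + c • 1)) - P4 κ δ β γ (s • W)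
      = ((s : ℂ) * c) • 1 + ((s : ℂ) ^ 3 * (-(2 * (γ : ℂ) * star c))) • C2 W := by
  rw [P4_smul, P4_smul]
  have hb1 : ∀ X : H →L[ℂ] H, br X (c • (1 : H →L[ℂ] H)) = 0 := by
    intro X
    unfold br
    simp
  have e1 : C2 (W + c • 1) = C2 W := by
    unfold C2 br
    simp only [star_add, star_smul, star_one, add_mul, mul_add, smul_mul_assoc, mul_smul_comm,
      mul_one, one_mul]
    module
  have e2 : E3 δ β γ (W + c • 1) = E3 δ β γ W - ((2 * (γ : ℂ) * star c)) • C2 W := by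
    unfold E3 C2 br
    rw [← Complex.coe_smul, ← Complex.coe_smul, ← Complex.coe_smul, ← Complex.coe_smul,
      ← Complex.coe_smul, ← Complex.coe_smul]
    simp only [star_add, star_smul, star_one, add_mul, mul_add, sub_mul, mul_sub, smul_mul_assoc,
      mul_smul_comm, mul_one, one_mul, ← mul_assoc]
    module
  rw [e1, e2]
  rw [← Complex.coe_smul, ← Complex.coe_smul, ← Complex.coe_smul, ← Complex.coe_smul,
    ← Complex.coe_smul]
  push_cast
  module

end

end Pool.Agent.Q94.AL
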