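import Pool.Agent.Q94.ALJ

open Filter Topology Asymptotics InnerProductSpace ComplexStarModule

namespace Pool.Agent.Q94.AL

open Pool.Agent.Q94.MA

noncomputable section

universe u

variable {H : Type u} [NormedAddCommGroup H] [InnerProductSpace ℂ H] [CompleteSpace H]

variable {L : (H →L[ℂ] H) → (H →L[ℂ] H)} {Φ : (H →L[ℂ] H) →ₗ[ℂ] (H →L[ℂ] H)}

/-- a linear map commuting with `L` and fixing the rank one operators differs from the identity by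
scalars, on self-adjoint operators -/
lemma diff_sa (h : Com L Φ) (hfix : ∀ x y : H, Φ (rankOne ℂ x y) = rankOne ℂ x y)
    {e₁ e₂ : H} (h1 : ‖e₁‖ = 1) (h2 : ‖e₂‖ = 1) (h12 : ⟪e₁, e₂⟫_ℂ = 0)
    {T : H →L[ℂ] H} (hT : star T = T) : ∃ c : ℂ, Φ T = T + c • 1 := by
  have hu : ∀ x : H, ‖x‖ = 1 → (Φ T - T) * rankOne ℂ x x = rankOne ℂ x x * (Φ T - T) := by
    intro x hx
    obtain ⟨P, hP⟩ : ∃ P : H →L[ℂ] H, P = rankOne ℂ x x := ⟨_, rfl⟩
    have hPs : star P = P := by rw [hP]; exact rk_star x x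
    have hPP : P * P = P := by
      rw [hP, rk_mul, inner_self_eq_norm_sq_to_K, hx]
      simp
    have hPT : Φ (P * T) = P * T := by
      rw [hP, rk_mul', hfix]
    have hTP : Φ (T * P) = T * P := by
      rw [hP, Pool.Agent.Q94.AL.mul_rk, hfix]
    have hPTP : Φ (P * T * P) = P * T * P := by
      rw [hP, mul_assoc, Pool.Agent.Q94.AL.mul_rk, rk_mul, Φ.map_smul, hfix]
    have hPf : Φ P = P := by rw [hP, hfix]
    set T₂ := T - P * T - T * P + P * T * P with hT₂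
    have s1 : star T₂ = T₂ := by
      rw [hT₂]
      simp only [star_add, star_sub, star_mul, hPs, hT, ← mul_assoc]
      abel
    have hc1 : T₂ * P = 0 := by
      rw [hT₂]
      simp only [add_mul, sub_mul, mul_assoc, hPP]
      abel
    have hc2 : P * T₂ = 0 := by
      rw [hT₂]
      simp only [mul_add, mul_sub, ← mul_assoc, hPP]
      abel
    have hnc := h.nc (C := T₂) (D := P) s1 hPs (by rw [hc1, hc2])
    rw [hPf, hPs, hT₂, map_add, map_sub, map_sub, hPT, hTP, hPTP] at hnc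
    rw [← hP]
    have e : (Φ T - T) * P - P * (Φ T - T)
        = (Φ T - P * T - T * P + P * T * P) * P - P * (Φ T - P * T - T * P + P * T * P)
          + (P * T * P - P * T * (P * P)) + (T * (P * P) - T * P)
          + ((P * P) * T * P - P * T * P) + (P * T - (P * P) * T) := by noncomm_ring
    rw [hnc, hPP] at e
    simp only [sub_self, add_zero] at e
    exact sub_eq_zero.1 e
  have hz : ∀ z : H, (Φ T - T) * rankOne ℂ z z = rankOne ℂ z z * (Φ T - T) := by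
    intro z
    rcases eq_or_ne z 0 with h0 | h0
    · subst h0
      simp
    · have hn : (‖z‖ : ℂ) ≠ 0 := by exact_mod_cast (norm_pos_iff.2 h0).ne'
      obtain ⟨w, hw⟩ : ∃ w : H, w = ((‖z‖ : ℂ)⁻¹) • z := ⟨_, rfl⟩
      have hw1 : ‖w‖ = 1 := by
        rw [hw, norm_smul, norm_inv, Complex.norm_real, norm_norm,
          inv_mul_cancel₀ (norm_pos_iff.2 h0).ne']
      have hzw : z = (‖z‖ : ℂ) • w := by
        rw [hw, smul_smul, mul_inv_cancel₀ hn, one_smul]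
      have e : rankOne ℂ z z = ((‖z‖ : ℂ) * (‖z‖ : ℂ)) • rankOne ℂ w w := by
        ext y
        rw [rankOne_apply, _root_.smul_apply, rankOne_apply]
        have h3 : ⟪z, y⟫_ℂ = (‖z‖ : ℂ) * ⟪w, y⟫_ℂ := by
          calc ⟪z, y⟫_ℂ = ⟪(‖z‖ : ℂ) • w, y⟫_ℂ := by rw [← hzw]
            _ = _ := by rw [inner_smul_left, Complex.conj_ofReal]
        rw [h3]
        calc ((‖z‖ : ℂ) * ⟪w, y⟫_ℂ) • z = ((‖z‖ : ℂ) * ⟪w, y⟫_ℂ) • ((‖z‖ : ℂ) • w) := by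
              rw [← hzw]
          _ = _ := by module
      rw [e, mul_smul_comm, smul_mul_assoc, hu w hw1]
  obtain ⟨E, hE⟩ : ∃ E : H →L[ℂ] H, E = Φ T - T := ⟨_, rfl⟩
  rw [← hE] at hz
  obtain ⟨c, hc⟩ := scalar_of_comm h1 h2 h12 (Z := E) (fun x y _ => by
    have e : rankOne ℂ x y = (1 / 4 : ℂ) • (rankOne ℂ (x + y) (x + y) - rankOne ℂ (x - y) (x - y)
        + Complex.I • rankOne ℂ (x + Complex.I • y) (x + Complex.I • y)
        - Complex.I • rankOne ℂ (x - Complex.I • y) (x - Complex.I • y)) := by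
      ext z
      simp only [_root_.smul_apply, _root_.add_apply, _root_.sub_apply, rankOne_apply,
        inner_add_left, inner_sub_left, inner_smul_left, Complex.conj_I]
      have hI : Complex.I ^ 2 = -1 := Complex.I_sq
      match_scalars <;> (ring_nf; try simp only [hI]; try ring_nf)
    rw [e]
    simp only [mul_smul_comm, smul_mul_assoc, mul_add, add_mul, mul_sub, sub_mul]
    rw [hz, hz, hz, hz])
  exact ⟨c, by rw [← hc, hE]; abel⟩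

lemma diff_all (h : Com L Φ) (hfix : ∀ x y : H, Φ (rankOne ℂ x y) = rankOne ℂ x y)
    {e₁ e₂ : H} (h1 : ‖e₁‖ = 1) (h2 : ‖e₂‖ = 1) (h12 : ⟪e₁, e₂⟫_ℂ = 0)
    (T : H →L[ℂ] H) : ∃ c : ℂ, Φ T = T + c • 1 := by
  have hT := realPart_add_I_smul_imaginaryPart T
  set T₁ : H →L[ℂ] H := (ℜ T : H →L[ℂ] H)
  set T₂ : H →L[ℂ] H := (ℑ T : H →L[ℂ] H)
  have t1 : star T₁ = T₁ := (ℜ T).2
  have t2 : star T₂ = T₂ := (ℑ T).2
  obtain ⟨a, ha⟩ := diff_sa h hfix h1 h2 h12 t1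
  obtain ⟨b, hb⟩ := diff_sa h hfix h1 h2 h12 t2
  refine ⟨a + Complex.I * b, ?_⟩
  rw [← hT, map_add, map_smul, ha, hb]
  module

/-- the third order term -/
lemma phi_C2 (h : Com L Φ) {e₁ e₂ : H} (h1 : ‖e₁‖ = 1) (h2 : ‖e₂‖ = 1)
    (hd : ∀ T : H →L[ℂ] H, ∃ c : ℂ, Φ T = T + c • 1) {W : H →L[ℂ] H} {c : ℂ}
    (hW : Φ W = W + c • 1) : c = 0 ∨ phi e₁ e₂ (C2 W) = 0 := by
  obtain ⟨κ, δ, β, γ, hκ, hγ, hexp⟩ := h.good.exp
  obtain ⟨C, hC0, hC⟩ := ray hexp W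
  obtain ⟨C', hC'0, hC'⟩ := ray hexp (W + c • 1)
  have hpos : ∀ᶠ s in 𝓝[>] (0 : ℝ), 0 < s := eventually_mem_nhdsWithin
  obtain ⟨q, hq⟩ : ∃ q : ℂ, q = -(2 * (γ : ℂ) * star c) * phi e₁ e₂ (C2 W) := ⟨_, rfl⟩
  have hr : ∀ (r : ℝ) (Y : H →L[ℂ] H), Φ (r • Y) = r • Φ Y := fun r Y =>
    LinearMap.map_smul_of_tower Φ r Y
  have hb : ∀ᶠ s in 𝓝[>] (0 : ℝ), ‖q‖ ≤ (2 * (C + C')) * s := by
    filter_upwards [hC, hC', hpos] with s k1 k2 hs
    obtain ⟨d, hd'⟩ := hd (L (1 + s • W))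
    rw [h.comm, map_add, h.one, hr, hW] at hd'
    -- `L (1 + s (W + c)) = L (1 + s W) + d`
    have e1 : ((s : ℂ) ^ 3 * (-(2 * (γ : ℂ) * star c))) • C2 W
        = (L (1 + s • W) - P4 κ δ β γ (s • W))
          - (L (1 + s • (W + c • 1)) - P4 κ δ β γ (s • (W + c • 1)))
          + (d - (s : ℂ) * c) • 1 := by
      have e2 := shift_alg κ δ β γ W c s
      have e3 : P4 κ δ β γ (s • (W + c • 1)) = P4 κ δ β γ (s • W)
          + (((s : ℂ) * c) • 1 + ((s : ℂ) ^ 3 * (-(2 * (γ : ℂ) * star c))) • C2 W) := by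
        rw [← e2]; abel
      rw [hd', e3]
      module
    have e4 := congrArg (phi e₁ e₂) e1
    rw [phi_smul, phi_add, phi_sub, phi_smul, phi_one' h1 h2, mul_zero, add_zero] at e4
    have e5 : (s : ℂ) ^ 3 * q = phi e₁ e₂ (L (1 + s • W) - P4 κ δ β γ (s • W))
        - phi e₁ e₂ (L (1 + s • (W + c • 1)) - P4 κ δ β γ (s • (W + c • 1))) := by
      rw [← e4, hq]; ring
    have e6 : s ^ 3 * ‖q‖ ≤ s ^ 3 * ((2 * (C + C')) * s) := by
      calc s ^ 3 * ‖q‖ = ‖(s : ℂ) ^ 3 * q‖ := by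
            rw [norm_mul, norm_pow, Complex.norm_real, Real.norm_of_nonneg hs.le]
        _ ≤ ‖phi e₁ e₂ (L (1 + s • W) - P4 κ δ β γ (s • W))‖
            + ‖phi e₁ e₂ (L (1 + s • (W + c • 1)) - P4 κ δ β γ (s • (W + c • 1)))‖ := by
            rw [e5]; exact norm_sub_le _ _
        _ ≤ 2 * (C * s ^ 4) + 2 * (C' * s ^ 4) := by
            apply add_le_add
            · exact (phi_norm h1 h2 _).trans (by linarith)
            · exact (phi_norm h1 h2 _).trans (by linarith)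
        _ = _ := by ring
    exact le_of_mul_le_mul_left e6 (by positivity)
  have hlim : Tendsto (fun s : ℝ => (2 * (C + C')) * s) (𝓝[>] 0) (𝓝 0) := by
    have : Continuous (fun s : ℝ => (2 * (C + C')) * s) := by fun_prop
    have h := this.tendsto 0
    simp only [mul_zero] at h
    exact h.mono_left nhdsWithin_le_nhds
  have hq0 : q = 0 := norm_le_zero_iff.1 (ge_of_tendsto hlim hb)
  rw [hq] at hq0
  rcases mul_eq_zero.1 hq0 with h3 | h3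
  · left
    rw [neg_eq_zero, mul_eq_zero] at h3
    rcases h3 with h4 | h4
    · exfalso
      have : (γ : ℂ) ≠ 0 := by exact_mod_cast hγ
      exact (mul_ne_zero two_ne_zero this) h4
    · exact star_eq_zero.1 h4
  · right; exact h3

lemma eq_self (h : Com L Φ) (hfix : ∀ x y : H, Φ (rankOne ℂ x y) = rankOne ℂ x y)
    {e₁ e₂ : H} (h1 : ‖e₁‖ = 1) (h2 : ‖e₂‖ = 1) (h12 : ⟪e₁, e₂⟫_ℂ = 0)
    (T : H →L[ℂ] H) : Φ T = T := by
  have hd := diff_all h hfix h1 h2 h12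
  obtain ⟨c, hc⟩ := hd T
  by_cases h0 : c = 0
  · rw [hc, h0, zero_smul, add_zero]
  exfalso
  set N := rankOne ℂ e₁ e₂ with hN
  have hNf : Φ N = N := hfix _ _
  have k1 := (phi_C2 h h1 h2 hd hc).resolve_left h0
  have k2 := (phi_C2 h h1 h2 hd (W := T + N) (c := c) (by
    rw [map_add, hc, hNf]; abel)).resolve_left h0
  have k3 := (phi_C2 h h1 h2 hd (W := T - N) (c := c) (by
    rw [map_sub, hc, hNf]; abel)).resolve_left h0
  have e : C2 (T + N) + C2 (T - N) = (2 : ℂ) • C2 T + (2 : ℂ) • C2 N := by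
    unfold C2 br
    simp only [star_add, star_sub, add_mul, mul_add, sub_mul, mul_sub]
    module
  have e2 := congrArg (phi e₁ e₂) e
  rw [phi_add, phi_add, phi_smul, phi_smul, k1, k2, k3] at e2
  have h21 : ⟪e₂, e₁⟫_ℂ = 0 := by rw [← inner_conj_symm, h12, map_zero]
  have i11 : ⟪e₁, e₁⟫_ℂ = 1 := by rw [inner_self_eq_norm_sq_to_K, h1]; simp
  have i22 : ⟪e₂, e₂⟫_ℂ = 1 := by rw [inner_self_eq_norm_sq_to_K, h2]; simp
  have e3 : C2 N = rankOne ℂ e₂ e₂ - rankOne ℂ e₁ e₁ := by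
    unfold C2 br
    rw [hN, rk_star, rk_mul, rk_mul, i11, i22, one_smul, one_smul]
  rw [e3, phi_sub] at e2
  unfold phi at e2
  simp only [rankOne_apply, i11, i22, h12, h21, zero_smul, one_smul, inner_zero_right] at e2
  norm_num at e2

theorem main_dim2 (hL : Good L) (Φ : (H →L[ℂ] H) ≃ₗ[ℂ] (H →L[ℂ] H))
    (hΦ : ∀ T, Φ (L T) = L (Φ T)) {e₁ e₂ : H} (h1 : ‖e₁‖ = 1) (h2 : ‖e₂‖ = 1)
    (h12 : ⟪e₁, e₂⟫_ℂ = 0) :
    ∃ (c : ℂ) (U : unitary (H →L[ℂ] H)), c ≠ 0 ∧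
      ∀ T, Φ T = c • ((U : H →L[ℂ] H) * T * star (U : H →L[ℂ] H)) := by
  obtain ⟨c, hc⟩ := phi_one hL Φ.toLinearMap hΦ (fun S => ⟨Φ.symm S, Φ.apply_symm_apply S⟩)
    h1 h2 h12
  have hc : Φ 1 = c • 1 := hc
  have hone : (1 : H →L[ℂ] H) ≠ 0 := by
    intro h0
    have h3 := congrArg (fun A : H →L[ℂ] H => A e₁) h0
    have h4 : e₁ = 0 := h3
    rw [h4, norm_zero] at h1
    norm_num at h1
  have hc0 : c ≠ 0 := by
    intro h0
    rw [h0, zero_smul] at hc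
    exact hone ((map_eq_zero_iff Φ Φ.injective).1 hc)
  obtain ⟨Φ₁, hΦ₁⟩ : ∃ Φ₁ : (H →L[ℂ] H) →ₗ[ℂ] (H →L[ℂ] H), ∀ T, Φ₁ T = c⁻¹ • Φ T :=
    ⟨c⁻¹ • Φ.toLinearMap, fun T => rfl⟩
  obtain ⟨Θ₁, hΘ₁⟩ : ∃ Θ₁ : (H →L[ℂ] H) →ₗ[ℂ] (H →L[ℂ] H), ∀ T, Θ₁ T = Φ.symm (c • T) :=
    ⟨Φ.symm.toLinearMap ∘ₗ (c • LinearMap.id), fun T => rfl⟩
  have D : Dat L Φ₁ Θ₁ e₁ e₂ := by
    refine ⟨⟨hL, fun T => ?_, ?_⟩, ⟨hL, fun T => ?_, ?_⟩, fun T => ?_, fun T => ?_, h1, h2, h12⟩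
    · rw [hΦ₁, hΦ₁, hΦ, hL.hom]
    · rw [hΦ₁, hc, smul_smul, inv_mul_cancel₀ hc0, one_smul]
    · rw [hΘ₁, hΘ₁, ← hL.hom]
      apply Φ.injective
      rw [Φ.apply_symm_apply, hΦ, Φ.apply_symm_apply]
    · rw [hΘ₁, ← hc, Φ.symm_apply_apply]
    · rw [hΦ₁, hΘ₁, smul_smul, mul_inv_cancel₀ hc0, one_smul, Φ.symm_apply_apply]
    · rw [hΦ₁, hΘ₁, Φ.apply_symm_apply, smul_smul, inv_mul_cancel₀ hc0, one_smul]
  obtain ⟨U, hU⟩ := D.exists_unitary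
  have hUU : star (U : H →L[ℂ] H) * (U : H →L[ℂ] H) = 1 := Unitary.coe_star_mul_self U
  have hUU' : (U : H →L[ℂ] H) * star (U : H →L[ℂ] H) = 1 := Unitary.coe_mul_star_self U
  obtain ⟨Φ₂, hΦ₂⟩ : ∃ Φ₂ : (H →L[ℂ] H) →ₗ[ℂ] (H →L[ℂ] H),
      ∀ T, Φ₂ T = star (U : H →L[ℂ] H) * Φ₁ T * (U : H →L[ℂ] H) :=
    ⟨{ toFun := fun T => star (U : H →L[ℂ] H) * Φ₁ T * (U : H →L[ℂ] H)
       map_add' := fun S T => by rw [map_add, mul_add, add_mul]
       map_smul' := fun a T => by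
        rw [Φ₁.map_smul, mul_smul_comm, smul_mul_assoc, RingHom.id_apply] }, fun T => rfl⟩
  have hcom : Com L Φ₂ := by
    refine ⟨hL, fun T => ?_, ?_⟩
    · rw [hΦ₂, hΦ₂, D.a.comm]
      have := hL.unit (star U) (Φ₁ T)
      rw [Unitary.coe_star, star_star] at this
      exact this.symm
    · rw [hΦ₂, D.a.one, mul_one, hUU]
  have hfix : ∀ x y : H, Φ₂ (rankOne ℂ x y) = rankOne ℂ x y := by
    intro x y
    rw [hΦ₂, hU]
    calc star (U : H →L[ℂ] H) * ((U : H →L[ℂ] H) * rankOne ℂ x y * star (U : H →L[ℂ] H))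
          * (U : H →L[ℂ] H)
        = (star (U : H →L[ℂ] H) * (U : H →L[ℂ] H)) * rankOne ℂ x y
          * (star (U : H →L[ℂ] H) * (U : H →L[ℂ] H)) := by noncomm_ring
      _ = _ := by rw [hUU, one_mul, mul_one]
  refine ⟨c, U, hc0, fun T => ?_⟩
  have h3 := eq_self hcom hfix h1 h2 h12 T
  rw [hΦ₂] at h3
  have h4 : Φ₁ T = (U : H →L[ℂ] H) * T * star (U : H →L[ℂ] H) := by
    calc Φ₁ T = ((U : H →L[ℂ] H) * star (U : H →L[ℂ] H)) * Φ₁ T
          * ((U : H →L[ℂ] H) * star (U : H →L[ℂ] H)) := by rw [hUU', one_mul, mul_one]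
      _ = (U : H →L[ℂ] H) * (star (U : H →L[ℂ] H) * Φ₁ T * (U : H →L[ℂ] H))
          * star (U : H →L[ℂ] H) := by noncomm_ring
      _ = _ := by rw [h3]
  rw [← h4, hΦ₁, smul_smul, mul_inv_cancel₀ hc0, one_smul]

/-- If there is no orthonormal pair, all operators are scalar. -/
lemma scalar_of_small (hno : ¬ ∃ e₁ e₂ : H, ‖e₁‖ = 1 ∧ ‖e₂‖ = 1 ∧ ⟪e₁, e₂⟫_ℂ = 0)
    (T : H →L[ℂ] H) : ∃ t : ℂ, T = t • 1 := by
  by_cases hH : ∃ x : H, x ≠ 0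
  · obtain ⟨x, hx⟩ := hH
    have norml : ∀ z : H, z ≠ 0 → ‖((‖z‖ : ℂ)⁻¹) • z‖ = 1 := by
      intro z hz
      rw [norm_smul, norm_inv, Complex.norm_real, norm_norm,
        inv_mul_cancel₀ (norm_pos_iff.2 hz).ne']
    obtain ⟨w, hw⟩ : ∃ w : H, w = ((‖x‖ : ℂ)⁻¹) • x := ⟨_, rfl⟩
    have hw1 : ‖w‖ = 1 := by rw [hw]; exact norml x hx
    have hspan : ∀ z : H, z = ⟪w, z⟫_ℂ • w := by
      intro z
      by_contra hz
      have hz' : z - ⟪w, z⟫_ℂ • w ≠ 0 := sub_ne_zero.2 hz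
      apply hno
      refine ⟨w, ((‖z - ⟪w, z⟫_ℂ • w‖ : ℂ)⁻¹) • (z - ⟪w, z⟫_ℂ • w), hw1, norml _ hz', ?_⟩
      rw [inner_smul_right, inner_sub_right, inner_smul_right, inner_self_eq_norm_sq_to_K, hw1]
      simp
    refine ⟨⟪w, T w⟫_ℂ, ?_⟩
    ext z
    have h1 := hspan (T w)
    have h2 := hspan z
    rw [_root_.smul_apply, one_apply_eq_self]
    calc T z = T (⟪w, z⟫_ℂ • w) := by rw [← h2]
      _ = ⟪w, z⟫_ℂ • T w := by rw [map_smul]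
      _ = ⟪w, z⟫_ℂ • (⟪w, T w⟫_ℂ • w) := by rw [← h1]
      _ = ⟪w, T w⟫_ℂ • (⟪w, z⟫_ℂ • w) := by rw [smul_comm]
      _ = ⟪w, T w⟫_ℂ • z := by rw [← h2]
  · push Not at hH
    refine ⟨1, ?_⟩
    ext z
    rw [hH z]
    simp

theorem main (hL : Good L) (Φ : (H →L[ℂ] H) ≃ₗ[ℂ] (H →L[ℂ] H)) :
    (∀ T, Φ (L T) = L (Φ T)) ↔
    ∃ (c : ℂ) (U : unitary (H →L[ℂ] H)), c ≠ 0 ∧
      ∀ T, Φ T = c • ((U : H →L[ℂ] H) * T * star (U : H →L[ℂ] H)) := by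
  constructor
  · intro hΦ
    by_cases hex : ∃ e₁ e₂ : H, ‖e₁‖ = 1 ∧ ‖e₂‖ = 1 ∧ ⟪e₁, e₂⟫_ℂ = 0
    · obtain ⟨e₁, e₂, h1, h2, h12⟩ := hex
      exact main_dim2 hL Φ hΦ h1 h2 h12
    · have hs := scalar_of_small hex
      obtain ⟨c, hc⟩ := hs (Φ 1)
      by_cases h0 : (1 : H →L[ℂ] H) = 0
      · refine ⟨1, 1, one_ne_zero, fun T => ?_⟩
        have hz : ∀ S : H →L[ℂ] H, S = 0 := fun S => by
          rw [← mul_one S, h0, mul_zero]
        rw [hz (Φ T), hz (_ • _)]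
      · refine ⟨c, 1, ?_, fun T => ?_⟩
        · intro hc0
          rw [hc0, zero_smul] at hc
          exact h0 ((map_eq_zero_iff Φ Φ.injective).1 hc)
        · obtain ⟨t, ht⟩ := hs T
          rw [ht, map_smul, hc]
          simp [smul_smul, mul_comm]
  · rintro ⟨c, U, hc, hU⟩ T
    rw [hU, hU, hL.hom, hL.unit]

end

end Pool.Agent.Q94.AL
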