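import Mathlib

/-!
# Riesz Bernstein-Markov property: definitions and basic lemmas
-/

open scoped BigOperators Topology ENNReal
open Set Filter MeasureTheory

namespace Q94.BM

/-- `ℝ^d`. -/
abbrev E (d : ℕ) : Type := EuclideanSpace ℝ (Fin d)

variable {d : ℕ}

/-- The Riesz kernel `|x - y|^{-α}`, with value `∞` on the diagonal. -/
noncomputable def kern (α : ℝ) (x y : E d) : ℝ≥0∞ := edist x y ^ (-α)

/-- Positive Riesz `α`-capacity: some Borel probability measure on `K` has finite energy. -/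
def PosCap (α : ℝ) (K : Set (E d)) : Prop :=
  ∃ ν : Measure (E d), IsProbabilityMeasure ν ∧ ν Kᶜ = 0 ∧
    ∫⁻ x, ∫⁻ y, kern α x y ∂ν ∂ν < ⊤

open Classical in
/-- `f(y) = exp(-∑_j |y - x_j|^{-α})`, with `f(x_j) = 0`. -/
noncomputable def P (α : ℝ) {m : ℕ} (x : Fin m → E d) (y : E d) : ℝ :=
  if ∃ j, y = x j then 0 else Real.exp (-∑ j, ‖y - x j‖ ^ (-α))

/-- A finite positive measure on `K` with the Riesz Bernstein-Markov property. -/
structure IsRBM (α : ℝ) (K : Set (E d)) (μ : Measure (E d)) : Prop where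
  finite : μ univ < ⊤
  carried : μ Kᶜ = 0
  bm : ∃ M : ℕ → ℝ, (∀ n, 0 < M n) ∧ Tendsto (fun n : ℕ => M n ^ (1 / (n : ℝ))) atTop (𝓝 1) ∧
    ∀ n, 2 ≤ n → ∀ x : Fin (n - 1) → E d, (∀ j, x j ∈ K) →
      sSup ((fun y => |P α x y|) '' K) ≤ M n * ∫ y in K, P α x y ∂μ

/-- A discrete measure `∑_{s ∈ S} c_s δ_s` with `S ⊆ K` countable and `c_s > 0`. -/
def IsDiscreteOn (K : Set (E d)) (μ : Measure (E d)) : Prop :=
  ∃ (S : Set (E d)) (c : S → ℝ≥0∞), S.Countable ∧ S ⊆ K ∧ (∀ s, 0 < c s) ∧
    μ = Measure.sum fun s : S => c s • Measure.dirac (s : E d)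

/-! ### The one-variable function -/

/-- `exp(-t^{-α})` for `t > 0` and `0` for `t ≤ 0`. -/
noncomputable def g (α t : ℝ) : ℝ := if t ≤ 0 then 0 else Real.exp (-t ^ (-α))

lemma g_nonneg (α t : ℝ) : 0 ≤ g α t := by
  unfold g; split_ifs
  · exact le_rfl
  · exact (Real.exp_pos _).le

lemma g_le_one (α t : ℝ) : g α t ≤ 1 := by
  unfold g; split_ifs with h
  · norm_num
  · push Not at h
    rw [Real.exp_le_one_iff]
    have : 0 < t ^ (-α) := Real.rpow_pos_of_pos h _
    linarith

lemma g_le {α t : ℝ} : g α t ≤ |t| ^ α := by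
  unfold g; split_ifs with h
  · positivity
  · push Not at h
    rw [abs_of_pos h, Real.exp_neg, Real.rpow_neg h.le]
    have h1 : 0 < t ^ α := Real.rpow_pos_of_pos h _
    have h2 := Real.add_one_le_exp (t ^ α)⁻¹
    rw [inv_le_comm₀ (Real.exp_pos _) h1]
    linarith

lemma continuous_g {α : ℝ} (hα : 0 < α) : Continuous (g α) := by
  rw [continuous_iff_continuousAt]
  intro t
  rcases lt_trichotomy t 0 with ht | ht | ht
  · refine ContinuousAt.congr (f := fun _ => (0 : ℝ)) continuousAt_const ?_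
    filter_upwards [eventually_lt_nhds ht] with s hs
    unfold g; rw [if_pos hs.le]
  · subst ht
    unfold ContinuousAt
    have h0 : g α 0 = 0 := by unfold g; rw [if_pos le_rfl]
    rw [h0]
    have h1 : Tendsto (fun s : ℝ => |s| ^ α) (𝓝 0) (𝓝 0) := by
      have h2 : Continuous fun s : ℝ => |s| ^ α :=
        continuous_abs.rpow_const fun s => Or.inr hα.le
      have h3 := h2.tendsto 0
      rwa [abs_zero, Real.zero_rpow hα.ne'] at h3
    exact squeeze_zero (fun s => g_nonneg α s) (fun s => g_le) h1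
  · refine ContinuousAt.congr (f := fun s => Real.exp (-s ^ (-α))) ?_ ?_
    · exact (Real.continuousAt_rpow_const _ _ (Or.inl ht.ne')).neg.rexp
    · filter_upwards [eventually_gt_nhds ht] with s hs
      unfold g; rw [if_neg (not_le.2 hs)]

lemma P_eq (α : ℝ) {m : ℕ} (x : Fin m → E d) (y : E d) : P α x y = ∏ j, g α ‖y - x j‖ := by
  unfold P
  split_ifs with h
  · obtain ⟨j, hj⟩ := h
    symm
    refine Finset.prod_eq_zero (Finset.mem_univ j) ?_
    rw [hj, sub_self, norm_zero]
    unfold g; rw [if_pos le_rfl]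
  · push Not at h
    rw [← Finset.sum_neg_distrib, Real.exp_sum]
    refine Finset.prod_congr rfl fun j _ => ?_
    unfold g
    rw [if_neg]
    rw [not_le, norm_pos_iff, sub_ne_zero]
    exact h j

lemma P_nonneg (α : ℝ) {m : ℕ} (x : Fin m → E d) (y : E d) : 0 ≤ P α x y := by
  rw [P_eq]; exact Finset.prod_nonneg fun j _ => g_nonneg _ _

lemma P_le_one (α : ℝ) {m : ℕ} (x : Fin m → E d) (y : E d) : P α x y ≤ 1 := by
  rw [P_eq]; exact Finset.prod_le_one (fun j _ => g_nonneg _ _) fun j _ => g_le_one _ _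

lemma continuous_P_joint {α : ℝ} (hα : 0 < α) (m : ℕ) :
    Continuous fun z : (Fin m → E d) × E d => P α z.1 z.2 := by
  simp_rw [P_eq]
  refine continuous_finsetProd _ fun j _ => ?_
  exact (continuous_g hα).comp
    ((continuous_snd.sub ((continuous_apply j).comp continuous_fst)).norm)

lemma continuous_P {α : ℝ} (hα : 0 < α) {m : ℕ} (x : Fin m → E d) : Continuous (P α x) :=
  (continuous_P_joint hα m).comp (continuous_const.prodMk continuous_id)

lemma integrable_P {α : ℝ} (hα : 0 < α) {m : ℕ} (x : Fin m → E d) (μ : Measure (E d))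
    [IsFiniteMeasure μ] : Integrable (P α x) μ :=
  Integrable.of_bound (continuous_P hα x).aestronglyMeasurable 1
    (Eventually.of_forall fun y => by
      rw [Real.norm_eq_abs, abs_of_nonneg (P_nonneg _ _ _)]; exact P_le_one _ _ _)

/-! ### Sums of measures -/

/-- Carried by a countable subset of `K`. -/
def Carried (K : Set (E d)) (μ : Measure (E d)) : Prop :=
  ∃ S : Set (E d), S.Countable ∧ S ⊆ K ∧ μ Sᶜ = 0

lemma Carried.isDiscreteOn {K : Set (E d)} {μ : Measure (E d)} (h : Carried K μ) :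
    IsDiscreteOn K μ := by
  obtain ⟨T, hTc, hTK, hT⟩ := h
  set S : Set (E d) := {s ∈ T | 0 < μ {s}} with hS
  have hST : S ⊆ T := fun s hs => hs.1
  have hSc : S.Countable := hTc.mono hST
  have hS0 : μ Sᶜ = 0 := by
    have h1 : Sᶜ ⊆ Tᶜ ∪ ⋃ s ∈ T \ S, {s} := by
      intro x hx
      by_cases hxT : x ∈ T
      · right
        simp only [mem_iUnion, mem_singleton_iff, exists_prop, exists_eq_right']
        exact ⟨hxT, hx⟩
      · exact Or.inl hxT
    refine measure_mono_null h1 (measure_union_null hT ?_)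
    rw [measure_biUnion_null_iff (hTc.mono sdiff_subset)]
    intro s hs
    by_contra hcon
    exact hs.2 ⟨hs.1, pos_iff_ne_zero.2 hcon⟩
  refine ⟨S, fun s => μ {(s : E d)}, hSc, hST.trans hTK, fun s => s.2.2, ?_⟩
  have : Countable S := hSc.to_subtype
  ext A hA
  rw [Measure.sum_apply _ hA]
  have h1 : μ A = μ (A ∩ S) := by
    refine le_antisymm ?_ (measure_mono inter_subset_left)
    calc μ A ≤ μ ((A ∩ S) ∪ Sᶜ) := measure_mono fun x hx => by
          by_cases hxS : x ∈ S
          · exact Or.inl ⟨hx, hxS⟩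
          · exact Or.inr hxS
      _ ≤ μ (A ∩ S) + μ Sᶜ := measure_union_le _ _
      _ = μ (A ∩ S) := by rw [hS0, add_zero]
  have h2 : A ∩ S = ⋃ s : S, A ∩ {(s : E d)} := by
    ext x
    simp only [mem_inter_iff, mem_iUnion, mem_singleton_iff, Subtype.exists, exists_prop]
    constructor
    · rintro ⟨h1, h2⟩; exact ⟨x, h2, h1, rfl⟩
    · rintro ⟨y, hy, h1, rfl⟩; exact ⟨h1, hy⟩
  rw [h1, h2, measure_iUnion]
  · refine tsum_congr fun s => ?_
    rw [Measure.smul_apply, Measure.dirac_apply' _ hA, smul_eq_mul]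
    by_cases hs : (s : E d) ∈ A
    · rw [indicator_of_mem hs, inter_eq_right.2 (by simpa using hs)]
      simp
    · rw [indicator_of_notMem hs]
      have : A ∩ {(s : E d)} = ∅ := by
        ext x; simp only [mem_inter_iff, mem_singleton_iff, mem_empty_iff_false, iff_false]
        rintro ⟨h1, rfl⟩; exact hs h1
      rw [this]; simp
  · intro s t hst
    refine disjoint_left.2 fun x hx hy => ?_
    simp only [mem_inter_iff, mem_singleton_iff] at hx hy
    exact hst (Subtype.ext (hx.2.symm.trans hy.2))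
  · exact fun s => hA.inter (measurableSet_singleton _)

/-- Weighted sums of measures. -/
noncomputable def wsum (ν : ℕ → Measure (E d)) : Measure (E d) :=
  Measure.sum fun n : ℕ => ENNReal.ofReal (1 / ((n : ℝ) + 1) ^ 2) • ν n

lemma wsum_univ {ν : ℕ → Measure (E d)} {C : ℝ≥0∞} (hC : C < ⊤) (hν : ∀ n, ν n univ ≤ C) :
    wsum ν univ < ⊤ := by
  unfold wsum
  rw [Measure.sum_apply _ MeasurableSet.univ]
  have h1 : Summable fun n : ℕ => 1 / ((n : ℝ) + 1) ^ 2 := by
    have := (summable_nat_add_iff 1).2 (Real.summable_one_div_nat_pow.2 (by norm_num : 1 < 2))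
    simpa using this
  calc ∑' n : ℕ, (ENNReal.ofReal (1 / ((n : ℝ) + 1) ^ 2) • ν n) univ
      ≤ ∑' n : ℕ, ENNReal.ofReal (1 / ((n : ℝ) + 1) ^ 2) * C := by
        refine ENNReal.tsum_le_tsum fun n => ?_
        rw [Measure.smul_apply, smul_eq_mul]
        exact mul_le_mul_right (hν n) _
    _ = (∑' n : ℕ, ENNReal.ofReal (1 / ((n : ℝ) + 1) ^ 2)) * C := ENNReal.tsum_mul_right
    _ < ⊤ := by
        refine ENNReal.mul_lt_top ?_ hC
        rw [← ENNReal.ofReal_tsum_of_nonneg (fun n => by positivity) h1]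
        exact ENNReal.ofReal_lt_top

lemma wsum_null {ν : ℕ → Measure (E d)} {A : Set (E d)} (hA : ∀ n, ν n A = 0) :
    wsum ν A = 0 := by
  unfold wsum
  rw [Measure.sum_apply_eq_zero]
  intro n
  rw [Measure.smul_apply, hA n, smul_zero]

lemma wsum_carried {ν : ℕ → Measure (E d)} {K : Set (E d)} (h : ∀ n, Carried K (ν n)) :
    Carried K (wsum ν) := by
  choose S hS1 hS2 hS3 using h
  refine ⟨⋃ n, S n, countable_iUnion hS1, iUnion_subset hS2, wsum_null fun n => ?_⟩
  exact measure_mono_null (compl_subset_compl.2 (subset_iUnion S n)) (hS3 n)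

lemma wsum_integral {ν : ℕ → Measure (E d)} [IsFiniteMeasure (wsum ν)] {α : ℝ} (hα : 0 < α)
    {m : ℕ} (x : Fin m → E d) (n : ℕ) :
    1 / ((n : ℝ) + 1) ^ 2 * ∫ y, P α x y ∂(ν n) ≤ ∫ y, P α x y ∂(wsum ν) := by
  have h1 : ENNReal.ofReal (1 / ((n : ℝ) + 1) ^ 2) • ν n ≤ wsum ν := Measure.le_sum _ n
  have h2 := integral_mono_measure h1 (Eventually.of_forall fun y => P_nonneg α x y)
    (integrable_P hα x _)
  rw [integral_smul_measure, ENNReal.toReal_ofReal (by positivity), smul_eq_mul] at h2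
  exact h2

end Q94.BM
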