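import Pool.Agent.Q94.BMA

/-!
# Positive capacity gives a discrete Bernstein-Markov measure
-/

open scoped BigOperators Topology ENNReal
open Set Filter MeasureTheory

namespace Q94.BM

variable {d : ℕ}

lemma kern_eq (α : ℝ) (x y : E d) : kern α x y = (edist x y ^ α)⁻¹ := by
  unfold kern; rw [ENNReal.rpow_neg]

lemma kern_comm (α : ℝ) (x y : E d) : kern α x y = kern α y x := by
  unfold kern; rw [edist_comm]

lemma measurable_kern (α : ℝ) : Measurable fun z : E d × E d => kern α z.1 z.2 := by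
  unfold kern
  exact measurable_edist.pow_const _

lemma measurable_kern_left (α : ℝ) (w : E d) : Measurable fun x : E d => kern α w x := by
  unfold kern
  exact (measurable_const.edist measurable_id).pow_const _

lemma kern_le {α : ℝ} (hα : 0 < α) {x y y' : E d} (h : edist y' x ≤ 2 * edist y x) :
    kern α y x ≤ 2 ^ α * kern α y' x := by
  rw [kern_eq, kern_eq]
  have h1 : edist y' x ^ α ≤ 2 ^ α * edist y x ^ α := by
    rw [← ENNReal.mul_rpow_of_nonneg _ _ hα.le]
    exact ENNReal.rpow_le_rpow h hα.le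
  have h2 : (2 : ℝ≥0∞) ^ α ≠ 0 := by
    simp [ENNReal.rpow_eq_zero_iff]
  have h3 : (2 : ℝ≥0∞) ^ α ≠ ⊤ := by
    rw [Ne, ENNReal.rpow_eq_top_iff]
    push Not
    constructor
    · intro h; norm_num at h
    · intro h; norm_num at h
  have h4 : (2 ^ α * edist y x ^ α)⁻¹ ≤ (edist y' x ^ α)⁻¹ := ENNReal.inv_le_inv.2 h1
  rw [ENNReal.mul_inv (Or.inl h2) (Or.inl h3)] at h4
  calc (edist y x ^ α)⁻¹ = 2 ^ α * ((2 ^ α)⁻¹ * (edist y x ^ α)⁻¹) := by
        rw [← mul_assoc, ENNReal.mul_inv_cancel h2 h3, one_mul]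
    _ ≤ _ := mul_le_mul_right h4 _

/-- A probability measure on `K` with bounded potential. -/
lemma exists_bounded {α : ℝ} (hα : 0 < α) {K : Set (E d)} (hK : IsCompact K) (h : PosCap α K) :
    ∃ ν : Measure (E d), IsProbabilityMeasure ν ∧ ν Kᶜ = 0 ∧
      ∃ C : ℝ≥0∞, C < ⊤ ∧ ∀ y, ∫⁻ x, kern α y x ∂ν ≤ C := by
  obtain ⟨ν, hν, hνK, hI⟩ := h
  set pot : E d → ℝ≥0∞ := fun x => ∫⁻ y, kern α x y ∂ν with hpot
  have hpm : Measurable pot := (measurable_kern α).lintegral_prod_right'
  set I := ∫⁻ x, pot x ∂ν with hIdef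
  set C : ℝ≥0∞ := 2 * (I + 1) with hC
  have hCtop : C < ⊤ := ENNReal.mul_lt_top (by simp) (ENNReal.add_lt_top.2 ⟨hI, by simp⟩)
  have hC0 : C ≠ 0 := by simp [hC]
  have h1 : ν {x | C ≤ pot x} ≤ I / C := meas_ge_le_lintegral_div hpm.aemeasurable hC0 hCtop.ne
  have h2 : I / C < 1 := by
    rw [ENNReal.div_lt_iff (Or.inl hC0) (Or.inl hCtop.ne), one_mul, hC, two_mul]
    calc I < I + 1 := ENNReal.lt_add_right hI.ne (by simp)
      _ ≤ (I + 1) + (I + 1) := le_self_add
  have h3 : 0 < ν (K ∩ {x | pot x < C}) := by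
    rw [pos_iff_ne_zero]
    intro h0
    have h4 : ν univ ≤ ν {x | C ≤ pot x} := by
      calc ν univ ≤ ν ((Kᶜ ∪ (K ∩ {x | pot x < C})) ∪ {x | C ≤ pot x}) :=
            measure_mono fun x _ => by
              by_cases hx : x ∈ K
              · by_cases hx2 : pot x < C
                · exact Or.inl (Or.inr ⟨hx, hx2⟩)
                · exact Or.inr (not_lt.1 hx2)
              · exact Or.inl (Or.inl hx)
        _ ≤ ν (Kᶜ ∪ (K ∩ {x | pot x < C})) + ν {x | C ≤ pot x} := measure_union_le _ _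
        _ ≤ (ν Kᶜ + ν (K ∩ {x | pot x < C})) + ν {x | C ≤ pot x} :=
            add_le_add_left (measure_union_le _ _) _
        _ = ν {x | C ≤ pot x} := by rw [hνK, h0, zero_add, zero_add]
    rw [measure_univ] at h4
    exact absurd (h4.trans h1) (not_le.2 h2)
  have hAm : MeasurableSet (K ∩ {x | pot x < C}) :=
    hK.measurableSet.inter (measurableSet_lt hpm measurable_const)
  obtain ⟨A, hAsub, hAc, hA0⟩ := hAm.exists_lt_isCompact h3
  have hAne : A.Nonempty := by
    rw [nonempty_iff_ne_empty]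
    rintro rfl
    simp at hA0
  have hAt : ν A ≠ ⊤ := measure_ne_top _ _
  refine ⟨(ν A)⁻¹ • ν.restrict A, ?_, ?_, (ν A)⁻¹ * (2 ^ α * C), ?_, fun y => ?_⟩
  · constructor
    rw [Measure.smul_apply, Measure.restrict_apply_univ, smul_eq_mul]
    exact ENNReal.inv_mul_cancel hA0.ne' hAt
  · rw [Measure.smul_apply, Measure.restrict_apply hK.measurableSet.compl]
    have : Kᶜ ∩ A = ∅ := by
      ext x; simp only [mem_inter_iff, mem_compl_iff, mem_empty_iff_false, iff_false]
      rintro ⟨h1, h2⟩; exact h1 (hAsub h2).1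
    rw [this]; simp
  · refine ENNReal.mul_lt_top (ENNReal.inv_lt_top.2 hA0) (ENNReal.mul_lt_top ?_ hCtop)
    rw [lt_top_iff_ne_top, Ne, ENNReal.rpow_eq_top_iff]
    push Not
    constructor
    · intro h; norm_num at h
    · intro h; norm_num at h
  · rw [lintegral_smul_measure, smul_eq_mul]
    refine mul_le_mul_right ?_ _
    obtain ⟨y', hy', hd⟩ := hAc.exists_infDist_eq_dist hAne y
    calc ∫⁻ x in A, kern α y x ∂ν ≤ ∫⁻ x in A, 2 ^ α * kern α y' x ∂ν := by
          refine setLIntegral_mono ?_ fun x hx => ?_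
          · exact (measurable_kern_left α y').const_mul _
          · refine kern_le hα ?_
            have h5 : dist y y' ≤ dist y x := by
              rw [← hd]; exact Metric.infDist_le_dist_of_mem hx
            have h6 : dist y' x ≤ 2 * dist y x := by
              have := dist_triangle y' y x
              rw [dist_comm y' y] at this
              linarith
            have h7 : ENNReal.ofReal (2 * dist y x) = 2 * ENNReal.ofReal (dist y x) := by
              rw [ENNReal.ofReal_mul (by norm_num), ENNReal.ofReal_ofNat]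
            rw [edist_dist, edist_dist, ← h7]
            exact ENNReal.ofReal_le_ofReal h6
      _ = 2 ^ α * ∫⁻ x in A, kern α y' x ∂ν := by
          rw [lintegral_const_mul _ (measurable_kern_left α y')]
      _ ≤ 2 ^ α * C := by
          refine mul_le_mul_right ?_ _
          exact (setLIntegral_le_lintegral _ _).trans (le_of_lt (hAsub hy').2)

/-- A point of `K` where the potential of `m` points is at most `m C`. -/
lemma exists_low {α : ℝ} (hα : 0 < α) {K : Set (E d)} (hK : IsCompact K) (h : PosCap α K) :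
    ∃ C : ℕ, 1 ≤ C ∧ ∀ (m : ℕ) (x : Fin m → E d), ∃ y ∈ K, (∀ j, y ≠ x j) ∧
      ∑ j, ‖y - x j‖ ^ (-α) ≤ m * C := by
  obtain ⟨ν, hν, hνK, C, hC, hb⟩ := exists_bounded hα hK h
  obtain ⟨C', hC'⟩ := ENNReal.exists_nat_gt hC.ne
  refine ⟨C' + 1, by omega, fun m x => ?_⟩
  have hmeas : ∀ j, Measurable fun y : E d => kern α y (x j) := fun j => by
    unfold kern
    exact (measurable_id.edist measurable_const).pow_const _
  have h1 : ∫⁻ y, ∑ j, kern α y (x j) ∂ν ≤ m * C := by
    rw [lintegral_finsetSum _ fun j _ => hmeas j]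
    calc ∑ j, ∫⁻ y, kern α y (x j) ∂ν ≤ ∑ _j : Fin m, C := by
          refine Finset.sum_le_sum fun j _ => ?_
          refine le_trans (le_of_eq ?_) (hb (x j))
          exact lintegral_congr fun y => kern_comm α y (x j)
      _ = m * C := by simp
  obtain ⟨y, hy, hy2⟩ := exists_notMem_null_le_lintegral (μ := ν) (N := Kᶜ)
    (f := fun y => ∑ j, kern α y (x j)) (Finset.measurable_fun_sum _ fun j _ => hmeas j).aemeasurable hνK
  have h2 : ∑ j, kern α y (x j) ≤ m * C := hy2.trans h1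
  have hmC : (m : ℝ≥0∞) * C < ⊤ := ENNReal.mul_lt_top (by simp) hC
  have hne : ∀ j, y ≠ x j := by
    intro j hj
    have h3 : kern α y (x j) ≤ ∑ j, kern α y (x j) :=
      Finset.single_le_sum (f := fun j => kern α y (x j)) (fun _ _ => bot_le) (Finset.mem_univ j)
    have h4 : kern α y (x j) = ⊤ := by
      rw [kern_eq, hj, edist_self, ENNReal.zero_rpow_of_pos hα, ENNReal.inv_zero]
    rw [h4] at h3
    exact absurd (h3.trans h2) (not_le.2 hmC)
  refine ⟨y, by simpa using hy, hne, ?_⟩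
  have h5 : ∀ j, kern α y (x j) = ENNReal.ofReal (‖y - x j‖ ^ (-α)) := by
    intro j
    unfold kern
    rw [edist_dist, dist_eq_norm, ENNReal.ofReal_rpow_of_pos]
    exact norm_pos_iff.2 (sub_ne_zero.2 (hne j))
  simp_rw [h5] at h2
  rw [← ENNReal.ofReal_sum_of_nonneg fun j _ => by positivity] at h2
  have h6 : ENNReal.ofReal (∑ j, ‖y - x j‖ ^ (-α)) ≤ ENNReal.ofReal (m * ((C' + 1 : ℕ) : ℝ)) := by
    refine h2.trans ?_
    rw [ENNReal.ofReal_mul (by positivity), ENNReal.ofReal_natCast, ENNReal.ofReal_natCast]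
    refine mul_le_mul_right (hC'.le.trans ?_) _
    exact_mod_cast Nat.le_succ C'
  exact (ENNReal.ofReal_le_ofReal_iff (by positivity)).1 h6

/-- Grid nets. -/
lemma exists_net {K : Set (E d)} (hK : IsCompact K) :
    ∃ R : ℕ, ∀ q : ℕ, 0 < q → ∃ Z : Finset (E d), (Z : Set (E d)) ⊆ K ∧
      Z.card ≤ (2 * (q * R) + 1) ^ d ∧ ∀ y ∈ K, ∃ z ∈ Z, ‖y - z‖ ≤ d / q := by
  obtain ⟨C, hC⟩ := hK.isBounded.exists_norm_le
  obtain ⟨R, hR⟩ := exists_nat_gt C
  refine ⟨R, fun q hq => ?_⟩
  classical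
  have hq' : (0 : ℝ) < q := by exact_mod_cast hq
  set φ : E d → (Fin d → ℤ) := fun x i => ⌊(q : ℝ) * x i⌋ with hφ
  set B : Finset (Fin d → ℤ) := Fintype.piFinset fun _ => Finset.Icc (-((q * R : ℕ) : ℤ)) ((q * R : ℕ) : ℤ)
    with hB
  have hφB : ∀ x ∈ K, φ x ∈ B := by
    intro x hx
    rw [hB, Fintype.mem_piFinset]
    intro i
    have h1 : |x i| ≤ R := by
      have h2 : ‖x i‖ ≤ ‖x‖ := PiLp.norm_apply_le x i
      rw [Real.norm_eq_abs] at h2
      exact h2.trans ((hC x hx).trans hR.le)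
    rw [abs_le] at h1
    rw [Finset.mem_Icc, hφ]
    constructor
    · apply Int.le_floor.2
      push_cast
      nlinarith
    · have h3 : (⌊(q : ℝ) * x i⌋ : ℝ) ≤ (q : ℝ) * R :=
        (Int.floor_le _).trans (mul_le_mul_of_nonneg_left h1.2 hq'.le)
      have : ((⌊(q : ℝ) * x i⌋ : ℤ) : ℝ) ≤ (((q * R : ℕ) : ℤ) : ℝ) := by push_cast; exact h3
      exact_mod_cast this
  set S : Finset (Fin d → ℤ) := B.filter fun v => v ∈ φ '' K with hS
  refine ⟨S.image (Function.invFunOn φ K), ?_, ?_, ?_⟩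
  · intro z hz
    rw [Finset.coe_image] at hz
    obtain ⟨v, hv, rfl⟩ := hz
    have hv' : v ∈ φ '' K := (Finset.mem_filter.1 hv).2
    exact Function.invFunOn_mem hv'
  · refine Finset.card_image_le.trans ((Finset.card_filter_le _ _).trans ?_)
    rw [hB, Fintype.card_piFinset]
    simp only [Int.card_Icc, Finset.prod_const, Finset.card_univ, Fintype.card_fin]
    apply le_of_eq
    congr 1
    omega
  · intro y hy
    refine ⟨Function.invFunOn φ K (φ y), ?_, ?_⟩
    · exact Finset.mem_image_of_mem _ (Finset.mem_filter.2 ⟨hφB y hy, ⟨y, hy, rfl⟩⟩)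
    · set z := Function.invFunOn φ K (φ y) with hz
      have hzy : φ z = φ y := Function.invFunOn_eq ⟨y, hy, rfl⟩
      have h1 : ∀ i, |y i - z i| ≤ 1 / q := by
        intro i
        have h2 : ⌊(q : ℝ) * z i⌋ = ⌊(q : ℝ) * y i⌋ := congrFun hzy i
        have h3 := Int.floor_le ((q : ℝ) * z i)
        have h4 := Int.lt_floor_add_one ((q : ℝ) * z i)
        have h5 := Int.floor_le ((q : ℝ) * y i)
        have h6 := Int.lt_floor_add_one ((q : ℝ) * y i)
        rw [h2] at h3 h4
        have h7 : |(q : ℝ) * y i - q * z i| ≤ 1 := by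
          rw [abs_le]; constructor <;> linarith
        rw [← mul_sub, abs_mul, abs_of_pos hq'] at h7
        rw [le_div_iff₀ hq', mul_comm]
        exact h7
      have h2 : ‖y - z‖ ^ 2 ≤ (d / q) ^ 2 := by
        rw [EuclideanSpace.norm_sq_eq]
        calc ∑ i, ‖(y - z) i‖ ^ 2 ≤ ∑ _i : Fin d, (1 / (q : ℝ)) ^ 2 := by
              refine Finset.sum_le_sum fun i _ => ?_
              rw [PiLp.sub_apply, Real.norm_eq_abs]
              exact pow_le_pow_left₀ (abs_nonneg _) (h1 i) 2
          _ = d * (1 / q) ^ 2 := by simp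
          _ ≤ (d / q) ^ 2 := by
              have h3 : (d : ℝ) ≤ d ^ 2 := by
                exact_mod_cast (Nat.le_self_pow (by norm_num) d : d ≤ d ^ 2)
              calc (d : ℝ) * (1 / q) ^ 2 ≤ d ^ 2 * (1 / q) ^ 2 :=
                    mul_le_mul_of_nonneg_right h3 (by positivity)
                _ = (d / q) ^ 2 := by ring
      exact (pow_le_pow_iff_left₀ (norm_nonneg _) (by positivity) (by norm_num)).1 h2

end Q94.BM
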