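import Pool.Agent.Q94.BMB

/-!
# Question 1: discrete Bernstein-Markov measures on sets of positive capacity
-/

open scoped BigOperators Topology ENNReal
open Set Filter MeasureTheory

namespace Q94.BM

variable {d : ℕ}

lemma near {α : ℝ} {k C N : ℕ} (hk : 1 ≤ k) (hαk : α ≤ k) (hαk' : 1 ≤ α * k) (hα : 0 < α)
    (hC : 1 ≤ C) (hN : 1 ≤ N) {m : ℕ} (x : Fin m → E d) {y z : E d} (hy : ∀ j, y ≠ x j)
    (hU : ∑ j, ‖y - x j‖ ^ (-α) ≤ C * N)
    (hz : ‖y - z‖ ≤ 1 / (2 * k * N * ((C : ℝ) * N) ^ k)) :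
    Real.exp (-∑ j, ‖y - x j‖ ^ (-α)) ≤ Real.exp C * P α x z := by
  have hk' : (1 : ℝ) ≤ k := by exact_mod_cast hk
  have hC' : (1 : ℝ) ≤ C := by exact_mod_cast hC
  have hN' : (1 : ℝ) ≤ N := by exact_mod_cast hN
  set B : ℝ := (C : ℝ) * N with hB
  have hB1 : 1 ≤ B := one_le_mul_of_one_le_of_one_le hC' hN'
  set ε : ℝ := 1 / (2 * k * N) with hε
  have hε0 : 0 < ε := by positivity
  have hkε : k * ε = 1 / (2 * N) := by rw [hε]; field_simp
  have hkε2 : k * ε ≤ 1 / 2 := by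
    rw [hkε, div_le_div_iff₀ (by positivity) (by norm_num)]; linarith
  have hε1 : ε ≤ 1 / 2 := by nlinarith
  have hfac : (1 - ε) ^ (-α) ≤ 1 + 1 / N := by
    have h1 : (1 - ε) ^ (-α) ≤ (1 - ε) ^ (-(k : ℝ)) :=
      Real.rpow_le_rpow_of_exponent_ge (by linarith) (by linarith) (by linarith)
    refine h1.trans ?_
    rw [Real.rpow_neg (by linarith), Real.rpow_natCast]
    have h2 : 1 - k * ε ≤ (1 - ε) ^ k := by
      have := one_add_mul_le_pow (a := -ε) (by linarith) k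
      have h3 : (1 + -ε) = 1 - ε := by ring
      rw [h3] at this
      linarith
    have h4 : 0 < 1 - k * ε := by linarith
    refine (inv_anti₀ h4 h2).trans ?_
    rw [inv_le_iff_one_le_mul₀ h4, hkε]
    have h5 : (1 + 1 / (N : ℝ)) * (1 - 1 / (2 * N)) = 1 + (1 / (2 * N)) * (1 - 1 / N) := by
      field_simp; ring
    rw [h5]
    have h6 : 0 ≤ 1 - 1 / (N : ℝ) := by
      rw [sub_nonneg, div_le_one (by linarith)]; exact hN'
    have : 0 ≤ (1 / (2 * (N : ℝ))) * (1 - 1 / N) := mul_nonneg (by positivity) h6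
    linarith
  have hj : ∀ j, z ≠ x j ∧ ‖z - x j‖ ^ (-α) ≤ (1 + 1 / N) * ‖y - x j‖ ^ (-α) := by
    intro j
    set t := ‖y - x j‖ with ht
    have ht0 : 0 < t := norm_pos_iff.2 (sub_ne_zero.2 (hy j))
    have h1 : t ^ (-α) ≤ B :=
      (Finset.single_le_sum (f := fun j => ‖y - x j‖ ^ (-α)) (fun _ _ => by positivity)
        (Finset.mem_univ j)).trans hU
    have h2 : 1 / B ^ k ≤ t := by
      by_contra hcon
      push Not at hcon
      have h3 : (1 / B ^ k) ^ (-α) < t ^ (-α) := Real.rpow_lt_rpow_of_neg ht0 hcon (by linarith)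
      have h4 : B ≤ (1 / B ^ k) ^ (-α) := by
        rw [Real.rpow_neg (by positivity), ← Real.inv_rpow (by positivity), one_div, inv_inv,
          ← Real.rpow_natCast, ← Real.rpow_mul (by positivity)]
        calc B = B ^ (1 : ℝ) := (Real.rpow_one B).symm
          _ ≤ B ^ ((k : ℝ) * α) := Real.rpow_le_rpow_of_exponent_le hB1 (by linarith)
      linarith
    have h3 : ‖y - z‖ ≤ ε * t := by
      refine hz.trans ?_
      calc 1 / (2 * k * N * B ^ k) = ε * (1 / B ^ k) := by rw [hε]; field_simp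
        _ ≤ ε * t := mul_le_mul_of_nonneg_left h2 hε0.le
    have h4 : (1 - ε) * t ≤ ‖z - x j‖ := by
      have h5 : t ≤ ‖y - z‖ + ‖z - x j‖ := by
        rw [ht]
        have : y - x j = (y - z) + (z - x j) := by abel
        rw [this]; exact norm_add_le _ _
      linarith
    have h5 : 0 < (1 - ε) * t := mul_pos (by linarith) ht0
    refine ⟨?_, ?_⟩
    · intro h
      rw [h, sub_self, norm_zero] at h4
      linarith
    · calc ‖z - x j‖ ^ (-α) ≤ ((1 - ε) * t) ^ (-α) :=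
            Real.rpow_le_rpow_of_nonpos h5 h4 (by linarith)
        _ = (1 - ε) ^ (-α) * t ^ (-α) := Real.mul_rpow (by linarith) ht0.le
        _ ≤ _ := mul_le_mul_of_nonneg_right hfac (by positivity)
  have hPz : P α x z = Real.exp (-∑ j, ‖z - x j‖ ^ (-α)) := by
    unfold P
    rw [if_neg]
    push Not
    exact fun j => (hj j).1
  rw [hPz, ← Real.exp_add, Real.exp_le_exp]
  have h1 : ∑ j, ‖z - x j‖ ^ (-α) ≤ (1 + 1 / N) * ∑ j, ‖y - x j‖ ^ (-α) := by
    rw [Finset.mul_sum]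
    exact Finset.sum_le_sum fun j _ => (hj j).2
  have h2 : 1 / (N : ℝ) * ∑ j, ‖y - x j‖ ^ (-α) ≤ C := by
    calc 1 / (N : ℝ) * ∑ j, ‖y - x j‖ ^ (-α) ≤ 1 / (N : ℝ) * (C * N) :=
          mul_le_mul_of_nonneg_left hU (by positivity)
      _ = C := by field_simp
  linarith

lemma tendsto_poly {A : ℝ} (hA : 0 < A) (b : ℕ) :
    Tendsto (fun n : ℕ => (A * ((n : ℝ) + 1) ^ b) ^ (1 / (n : ℝ))) atTop (𝓝 1) := by
  have h1 : Tendsto (fun n : ℕ => A ^ (1 / (n : ℝ))) atTop (𝓝 1) := by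
    have h2 : Tendsto (fun n : ℕ => 1 / (n : ℝ)) atTop (𝓝 0) := tendsto_one_div_atTop_nhds_zero_nat
    have h3 := (Real.continuousAt_const_rpow (b := 0) hA.ne').tendsto.comp h2
    rw [Real.rpow_zero] at h3
    exact h3
  have h2 : Tendsto (fun n : ℕ => ((n : ℝ) + 1) ^ ((b : ℝ) / n)) atTop (𝓝 1) := by
    have h3 := (tendsto_rpow_div_mul_add (b : ℝ) 1 (-1) (by norm_num)).comp
      (tendsto_atTop_add_const_right atTop (1 : ℝ) tendsto_natCast_atTop_atTop)
    refine h3.congr fun n => ?_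
    simp only [Function.comp_apply]
    congr 2
    ring
  have h3 := h1.mul h2
  rw [one_mul] at h3
  refine h3.congr fun n => ?_
  rw [Real.mul_rpow hA.le (by positivity), ← Real.rpow_natCast, ← Real.rpow_mul (by positivity)]
  congr 2
  ring

/-- Question 1, with a discrete measure. -/
theorem q1 {α : ℝ} (hα : 0 < α) {K : Set (E d)} (hK : IsCompact K) (h : PosCap α K) :
    ∃ μ : Measure (E d), IsRBM α K μ ∧ IsDiscreteOn K μ := by
  classical
  obtain ⟨C, hC, hlow⟩ := exists_low hα hK h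
  obtain ⟨R, hR⟩ := exists_net hK
  obtain ⟨k, hk1, hk2, hk3⟩ : ∃ k : ℕ, 1 ≤ k ∧ α ≤ k ∧ 1 ≤ α * k := by
    obtain ⟨k1, h1⟩ := exists_nat_ge α
    obtain ⟨k2, h2⟩ := exists_nat_ge (1 / α)
    refine ⟨max 1 (max k1 k2), le_max_left _ _, ?_, ?_⟩
    · push_cast
      exact h1.trans ((le_max_left _ _).trans (le_max_right _ _))
    · rw [div_le_iff₀ hα] at h2
      push_cast
      calc 1 ≤ (k2 : ℝ) * α := h2
        _ ≤ max 1 (max (k1 : ℝ) k2) * α :=
          mul_le_mul_of_nonneg_right ((le_max_right _ _).trans (le_max_right _ _)) hα.le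
        _ = _ := mul_comm _ _
  set q : ℕ → ℕ := fun n => 2 * k * (n + 1) * (C * (n + 1)) ^ k * (d + 1) with hq
  have hq0 : ∀ n, 0 < q n := fun n => by
    have : 0 < C := hC
    rw [hq]; positivity
  choose Z hZK hZc hZn using fun n => hR (q n) (hq0 n)
  set B : ℕ → ℕ := fun n => (2 * (q n * R) + 1) ^ d with hB
  have hB0 : ∀ n, 0 < B n := fun n => by rw [hB]; positivity
  have hB0' : ∀ n, (0 : ℝ) < B n := fun n => by exact_mod_cast hB0 n
  set ν : ℕ → Measure (E d) := fun n =>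
    ENNReal.ofReal (1 / (B n : ℝ)) • ∑ z ∈ Z n, Measure.dirac z with hν
  have hν1 : ∀ n, ν n univ ≤ 1 := by
    intro n
    rw [hν]
    simp only
    rw [Measure.smul_apply, Measure.finsetSum_apply]
    simp only [measure_univ, Finset.sum_const, nsmul_eq_mul, mul_one, smul_eq_mul]
    rw [← ENNReal.ofReal_natCast, ← ENNReal.ofReal_mul (by positivity)]
    rw [ENNReal.ofReal_le_one, one_div, inv_mul_le_iff₀ (hB0' n), mul_one]
    exact_mod_cast hZc n
  have hcar : ∀ n, Carried K (ν n) := by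
    intro n
    refine ⟨Z n, (Z n).countable_toSet, hZK n, ?_⟩
    rw [hν]
    simp only
    rw [Measure.smul_apply, Measure.finsetSum_apply, Finset.sum_eq_zero, smul_zero]
    intro z hz
    rw [Measure.dirac_apply' _ (Z n).measurableSet.compl, indicator_of_notMem]
    simpa using hz
  have hfin : wsum ν univ < ⊤ := wsum_univ ENNReal.one_lt_top hν1
  have : IsFiniteMeasure (wsum ν) := ⟨hfin⟩
  have hc := wsum_carried hcar
  have hKc : wsum ν Kᶜ = 0 := by
    obtain ⟨S, _, hSK, hS⟩ := hc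
    exact measure_mono_null (compl_subset_compl.2 hSK) hS
  refine ⟨wsum ν, ⟨hfin, hKc, ?_⟩, hc.isDiscreteOn⟩
  set a : ℝ := 4 * k * C ^ k * (d + 1) * R + 1 with ha
  have ha0 : 0 < a := by positivity
  refine ⟨fun n => Real.exp C * a ^ d * ((n : ℝ) + 1) ^ ((k + 1) * d + 2), fun n => by positivity,
    tendsto_poly (by positivity) _, ?_⟩
  intro n hn x hx
  have hrestrict : (wsum ν).restrict K = wsum ν :=
    Measure.restrict_eq_self_of_ae_mem (by rw [ae_iff]; exact hKc)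
  rw [hrestrict]
  have hKne : K.Nonempty := ⟨x ⟨0, by omega⟩, hx _⟩
  refine csSup_le (hKne.image _) ?_
  rintro _ ⟨y, hyK, rfl⟩
  simp only
  rw [abs_of_nonneg (P_nonneg _ _ _)]
  -- reduction to the net
  have hnet : ∀ y ∈ K, (∀ j, y ≠ x j) → ∑ j, ‖y - x j‖ ^ (-α) ≤ C * ((n + 1 : ℕ) : ℝ) →
      ∃ z ∈ Z n, Real.exp (-∑ j, ‖y - x j‖ ^ (-α)) ≤ Real.exp C * P α x z := by
    intro y hy hyx hU
    obtain ⟨z, hz, hyz⟩ := hZn n y hy
    refine ⟨z, hz, near (N := n + 1) hk1 hk2 hk3 hα hC (by omega) x hyx hU (hyz.trans ?_)⟩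
    have hC' : (0 : ℝ) < C := by exact_mod_cast hC
    have hk' : (0 : ℝ) < k := by exact_mod_cast hk1
    rw [hq]
    push_cast
    rw [div_le_div_iff₀ (by positivity) (by positivity), one_mul]
    have : (d : ℝ) ≤ d + 1 := by linarith
    calc (d : ℝ) * (2 * k * (n + 1) * (C * (n + 1)) ^ k)
        ≤ (d + 1) * (2 * k * (n + 1) * (C * (n + 1)) ^ k) := by gcongr
      _ = _ := by ring
  have hpt : ∃ z ∈ Z n, P α x y ≤ Real.exp C * P α x z := by
    obtain ⟨y0, hy0, hy0x, hy0U⟩ := hlow (n - 1) x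
    have h1 : ∑ j, ‖y0 - x j‖ ^ (-α) ≤ C * ((n + 1 : ℕ) : ℝ) := by
      refine hy0U.trans ?_
      rw [mul_comm]
      have : (((n - 1 : ℕ)) : ℝ) ≤ ((n + 1 : ℕ) : ℝ) := by exact_mod_cast (by omega)
      gcongr
    by_cases hyx : ∃ j, y = x j
    · obtain ⟨z, hz, _⟩ := hnet y0 hy0 hy0x h1
      refine ⟨z, hz, ?_⟩
      have : P α x y = 0 := by unfold P; rw [if_pos hyx]
      rw [this]
      exact mul_nonneg (Real.exp_pos _).le (P_nonneg _ _ _)
    · have hPy : P α x y = Real.exp (-∑ j, ‖y - x j‖ ^ (-α)) := by unfold P; rw [if_neg hyx]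
      push Not at hyx
      by_cases hU : ∑ j, ‖y - x j‖ ^ (-α) ≤ C * ((n + 1 : ℕ) : ℝ)
      · rw [hPy]; exact hnet y hyK hyx hU
      · obtain ⟨z, hz, hz2⟩ := hnet y0 hy0 hy0x h1
        refine ⟨z, hz, le_trans ?_ hz2⟩
        rw [hPy, Real.exp_le_exp]
        push Not at hU
        linarith
  obtain ⟨z, hz, hPz⟩ := hpt
  have h1 : P α x z ≤ B n * ∫ y, P α x y ∂(ν n) := by
    have h2 : ∫ y, P α x y ∂(ν n) = 1 / (B n : ℝ) * ∑ z ∈ Z n, P α x z := by
      rw [hν]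
      simp only
      rw [integral_smul_measure, ENNReal.toReal_ofReal (by positivity), smul_eq_mul,
        integral_finsetSum_measure]
      · simp only [integral_dirac]
      · intro z _
        exact integrable_P hα x _
    rw [h2, ← mul_assoc, mul_one_div_cancel (hB0' n).ne', one_mul]
    exact Finset.single_le_sum (f := fun z => P α x z) (fun _ _ => P_nonneg _ _ _) hz
  have h2 := wsum_integral (ν := ν) hα x n
  have hI0 : 0 ≤ ∫ y, P α x y ∂(wsum ν) := integral_nonneg fun y => P_nonneg _ _ _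
  have h3 : (B n : ℝ) ≤ a ^ d * ((n : ℝ) + 1) ^ ((k + 1) * d) := by
    rw [pow_mul, ← mul_pow, hB]
    push_cast
    refine pow_le_pow_left₀ (by positivity) ?_ d
    rw [hq, ha]
    push_cast
    have h4 : (1 : ℝ) ≤ ((n : ℝ) + 1) ^ (k + 1) := one_le_pow₀ (by linarith [Nat.cast_nonneg (α := ℝ) n])
    have h5 : 2 * (2 * (k : ℝ) * (n + 1) * (C * (n + 1)) ^ k * (d + 1) * R)
        = 4 * k * C ^ k * (d + 1) * R * ((n : ℝ) + 1) ^ (k + 1) := by
      rw [mul_pow, pow_succ]; ring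
    rw [h5, add_mul]
    linarith
  calc P α x y ≤ Real.exp C * P α x z := hPz
    _ ≤ Real.exp C * (B n * ∫ y, P α x y ∂(ν n)) := by gcongr
    _ = Real.exp C * B n * ((n : ℝ) + 1) ^ 2 * (1 / ((n : ℝ) + 1) ^ 2 * ∫ y, P α x y ∂(ν n)) := by
        field_simp
    _ ≤ Real.exp C * B n * ((n : ℝ) + 1) ^ 2 * ∫ y, P α x y ∂(wsum ν) := by gcongr
    _ ≤ Real.exp C * (a ^ d * ((n : ℝ) + 1) ^ ((k + 1) * d)) * ((n : ℝ) + 1) ^ 2
          * ∫ y, P α x y ∂(wsum ν) := by gcongr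
    _ = _ := by rw [pow_add]; ring

end Q94.BM
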