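import Pool.Agent.Q94.BMC

/-!
# Question 2: discretisation of Bernstein-Markov measures
-/

open scoped BigOperators Topology ENNReal
open Set Filter MeasureTheory

namespace Q94.BM

variable {d : ℕ}

/-- Finite nets as sequences. -/
lemma exists_seq_net {K : Set (E d)} (hK : IsCompact K) (hne : K.Nonempty) {δ : ℝ} (hδ : 0 < δ) :
    ∃ (e : ℕ → E d) (N : ℕ), (∀ i, e i ∈ K) ∧ ∀ y ∈ K, ∃ i ≤ N, dist (e i) y < δ := by
  obtain ⟨t, htK, htf, ht⟩ := hK.finite_cover_balls hδ
  obtain ⟨y0, hy0⟩ := hne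
  have htne : t.Nonempty := by
    obtain ⟨z, hz, _⟩ := mem_iUnion₂.1 (ht hy0)
    exact ⟨z, hz⟩
  obtain ⟨e, he⟩ := htf.countable.exists_eq_range htne
  have hidx : ∀ z ∈ t, ∃ i, e i = z := fun z hz => by rw [he] at hz; exact hz
  choose! idx hidx2 using hidx
  refine ⟨e, htf.toFinset.sup idx, fun i => htK (he ▸ mem_range_self i), fun y hy => ?_⟩
  obtain ⟨z, hz, hyz⟩ := mem_iUnion₂.1 (ht hy)
  refine ⟨idx z, Finset.le_sup (htf.mem_toFinset.2 hz), ?_⟩
  rw [hidx2 z hz, dist_comm]
  exact hyz

/-- Discretisation at level `n`. -/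
lemma discretise {α : ℝ} (hα : 0 < α) {K : Set (E d)} (hK : IsCompact K) (hinf : K.Infinite)
    {μ : Measure (E d)} (hμ : μ univ < ⊤) {n : ℕ} (hn : 2 ≤ n) {M : ℝ} (hM : 0 < M)
    (hbm : ∀ x : Fin (n - 1) → E d, (∀ j, x j ∈ K) →
      ∀ y ∈ K, P α x y ≤ M * ∫ y in K, P α x y ∂μ) :
    ∃ ν : Measure (E d), ν univ ≤ μ univ ∧ Carried K ν ∧
      ∀ x : Fin (n - 1) → E d, (∀ j, x j ∈ K) → ∫ y in K, P α x y ∂μ ≤ 2 * ∫ y, P α x y ∂ν := by
  classical
  have : IsFiniteMeasure μ := ⟨hμ⟩
  obtain ⟨T, hTK, hTc⟩ := hinf.exists_subset_card_eq n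
  have hKne : K.Nonempty := hinf.nonempty
  set X : Set (Fin (n - 1) → E d) := Set.pi univ fun _ => K with hX
  have hXc : IsCompact X := isCompact_univ_pi fun _ => hK
  have hXne : X.Nonempty := univ_pi_nonempty_iff.2 fun _ => hKne
  set G : (Fin (n - 1) → E d) → ℝ := fun x => ∑ p ∈ T, P α x p with hG
  have hGc : Continuous G := by
    refine continuous_finsetSum _ fun p _ => ?_
    exact (continuous_P_joint hα (n - 1)).comp (continuous_id.prodMk continuous_const)
  have hGpos : ∀ x, 0 < G x := by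
    intro x
    obtain ⟨p, hp, hpx⟩ : ∃ p ∈ T, ∀ j, p ≠ x j := by
      by_contra hcon
      push Not at hcon
      have h1 : T ⊆ Finset.univ.image x := by
        intro p hp
        obtain ⟨j, hj⟩ := hcon p hp
        exact Finset.mem_image.2 ⟨j, Finset.mem_univ _, hj.symm⟩
      have h2 := (Finset.card_le_card h1).trans Finset.card_image_le
      rw [hTc, Finset.card_univ, Fintype.card_fin] at h2
      omega
    have h1 : 0 < P α x p := by
      unfold P
      rw [if_neg]
      · exact Real.exp_pos _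
      · push Not; exact hpx
    exact lt_of_lt_of_le h1
      (Finset.single_le_sum (f := fun p => P α x p) (fun _ _ => P_nonneg _ _ _) hp)
  obtain ⟨x0, hx0, hmin⟩ := hXc.exists_isMinOn hXne hGc.continuousOn
  set β := G x0 with hβ
  have hβ0 : 0 < β := hGpos x0
  have hn0 : (0 : ℝ) < n := by exact_mod_cast (by omega : 0 < n)
  have hlow : ∀ x ∈ X, β / (n * M) ≤ ∫ y in K, P α x y ∂μ := by
    intro x hx
    have h1 : β ≤ G x := hmin hx
    have h2 : G x ≤ n * (M * ∫ y in K, P α x y ∂μ) := by
      calc G x ≤ ∑ _p ∈ T, M * ∫ y in K, P α x y ∂μ :=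
            Finset.sum_le_sum fun p hp => hbm x (fun j => hx j (mem_univ j)) p (hTK hp)
        _ = n * (M * ∫ y in K, P α x y ∂μ) := by rw [Finset.sum_const, hTc, nsmul_eq_mul]
    rw [div_le_iff₀ (by positivity)]
    calc β ≤ n * (M * ∫ y in K, P α x y ∂μ) := h1.trans h2
      _ = _ := by ring
  set m : ℝ := μ.real univ with hm
  have hm0 : 0 ≤ m := measureReal_nonneg
  set η : ℝ := β / (n * M) / (2 * (m + 1)) with hη
  have hη0 : 0 < η := by positivity
  -- uniform continuity
  have huc := (hXc.prod hK).uniformContinuousOn_of_continuous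
    ((continuous_P_joint hα (n - 1)).continuousOn)
  rw [Metric.uniformContinuousOn_iff] at huc
  obtain ⟨δ, hδ, huc⟩ := huc η hη0
  obtain ⟨e, N, heK, hnet⟩ := exists_seq_net hK hKne hδ
  set g := SimpleFunc.nearestPt e N with hg
  have hgrange : ∀ y, g y ∈ (Finset.range (N + 1)).image e := by
    intro y
    rw [hg]
    unfold SimpleFunc.nearestPt
    rw [SimpleFunc.map_apply]
    refine Finset.mem_image_of_mem _ ?_
    rw [Finset.mem_range, Nat.lt_succ_iff]
    exact SimpleFunc.nearestPtInd_le e N y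
  have hgK : ∀ y, g y ∈ K := by
    intro y
    obtain ⟨i, _, hi⟩ := Finset.mem_image.1 (hgrange y)
    rw [← hi]; exact heK i
  have hgd : ∀ y ∈ K, dist (g y) y < δ := by
    intro y hy
    obtain ⟨i, hi, hid⟩ := hnet y hy
    have := SimpleFunc.edist_nearestPt_le e y hi
    rw [edist_dist, edist_dist, ENNReal.ofReal_le_ofReal_iff dist_nonneg] at this
    exact lt_of_le_of_lt this hid
  refine ⟨(μ.restrict K).map g, ?_, ⟨(Finset.range (N + 1)).image e, Finset.countable_toSet _,
    ?_, ?_⟩, fun x hx => ?_⟩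
  · rw [Measure.map_apply g.measurable MeasurableSet.univ, preimage_univ]
    exact Measure.restrict_apply_univ K ▸ measure_mono (subset_univ K)
  · intro z hz
    obtain ⟨i, _, hi⟩ := Finset.mem_image.1 (Finset.mem_coe.1 hz)
    rw [← hi]; exact heK i
  · rw [Measure.map_apply g.measurable (Finset.measurableSet _).compl]
    have : g ⁻¹' ((Finset.range (N + 1)).image e : Set (E d))ᶜ = ∅ := by
      ext y
      simp only [mem_preimage, mem_compl_iff, mem_empty_iff_false, iff_false, not_not]
      exact hgrange y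
    rw [this, measure_empty]
  · have hxX : x ∈ X := fun j _ => hx j
    rw [integral_map g.measurable.aemeasurable (continuous_P hα x).aestronglyMeasurable]
    have h1 : ∫ y in K, P α x y ∂μ - η * m ≤ ∫ y in K, P α x (g y) ∂μ := by
      have hi1 : Integrable (fun y => P α x y) (μ.restrict K) := integrable_P hα x _
      have hi2 : Integrable (fun y => P α x (g y)) (μ.restrict K) := by
        refine Integrable.of_bound ?_ 1 (Eventually.of_forall fun y => ?_)
        · exact ((continuous_P hα x).measurable.comp g.measurable).aestronglyMeasurable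
        · rw [Real.norm_eq_abs, abs_of_nonneg (P_nonneg _ _ _)]; exact P_le_one _ _ _
      have h2 : ∫ y in K, (P α x y - P α x (g y)) ∂μ ≤ ∫ y in K, η ∂μ := by
        refine setIntegral_mono_on (hi1.sub hi2) (integrable_const η) hK.measurableSet
          fun y hy => ?_
        have h3 := huc (x, y) ⟨hxX, hy⟩ (x, g y) ⟨hxX, hgK y⟩ (by
          rw [Prod.dist_eq]
          simp only [dist_self]
          rw [max_eq_right dist_nonneg, dist_comm]
          exact hgd y hy)
        rw [Real.dist_eq] at h3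
        exact (le_abs_self _).trans h3.le
      rw [integral_sub hi1 hi2, setIntegral_const, smul_eq_mul] at h2
      have h4 : μ.real K ≤ m := measureReal_mono (subset_univ K)
      have h5 : μ.real K * η ≤ η * m := by rw [mul_comm]; exact mul_le_mul_of_nonneg_left h4 hη0.le
      linarith
    have h2 := hlow x hxX
    have h3 : η * m ≤ β / (n * M) / 2 := by
      rw [hη]
      have h4 : β / (n * M) / (2 * (m + 1)) * m = β / (n * M) / 2 * (m / (m + 1)) := by
        field_simp
      rw [h4]
      refine mul_le_of_le_one_right (by positivity) ?_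
      rw [div_le_one (by linarith)]
      linarith
    linarith

/-- Question 2. -/
theorem q2 {α : ℝ} (hα : 0 < α) {K : Set (E d)} (hK : IsCompact K)
    (h : ∃ μ : Measure (E d), IsRBM α K μ) :
    ∃ μ : Measure (E d), IsRBM α K μ ∧ IsDiscreteOn K μ := by
  classical
  obtain ⟨μ, hμ, hμK, M, hM0, hM1, hM⟩ := h
  have hbm : ∀ n, 2 ≤ n → ∀ x : Fin (n - 1) → E d, (∀ j, x j ∈ K) →
      ∀ y ∈ K, P α x y ≤ M n * ∫ y in K, P α x y ∂μ := by
    intro n hn x hx y hy
    refine le_trans ?_ (hM n hn x hx)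
    have hbdd : BddAbove ((fun y => |P α x y|) '' K) := by
      refine ⟨1, ?_⟩
      rintro _ ⟨z, _, rfl⟩
      simp only
      rw [abs_of_nonneg (P_nonneg _ _ _)]
      exact P_le_one _ _ _
    exact (le_abs_self _).trans (le_csSup hbdd ⟨y, hy, rfl⟩)
  by_cases hfin : K.Finite
  · -- finite sets: counting measure
    have hcar : Carried K (∑ z ∈ hfin.toFinset, Measure.dirac z) := by
      refine ⟨K, hfin.countable, subset_rfl, ?_⟩
      rw [Measure.finsetSum_apply, Finset.sum_eq_zero]
      intro z hz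
      rw [Measure.dirac_apply' _ hfin.measurableSet.compl, indicator_of_notMem]
      simpa using hz
    refine ⟨∑ z ∈ hfin.toFinset, Measure.dirac z, ⟨?_, ?_, fun _ => 1, fun _ => one_pos, ?_, ?_⟩,
      hcar.isDiscreteOn⟩
    · rw [Measure.finsetSum_apply]
      simp only [measure_univ, Finset.sum_const, nsmul_eq_mul, mul_one]
      exact ENNReal.natCast_lt_top _
    · obtain ⟨S, _, hSK, hS⟩ := hcar
      exact measure_mono_null (compl_subset_compl.2 hSK) hS
    · simp
    · intro n hn x hx
      have hKc : (∑ z ∈ hfin.toFinset, Measure.dirac z : Measure (E d)) Kᶜ = 0 := by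
        obtain ⟨S, _, hSK, hS⟩ := hcar
        exact measure_mono_null (compl_subset_compl.2 hSK) hS
      rw [Measure.restrict_eq_self_of_ae_mem (by rw [ae_iff]; exact hKc), one_mul,
        integral_finsetSum_measure fun z _ => integrable_P hα x _]
      simp only [integral_dirac]
      have hKne : K.Nonempty := ⟨x ⟨0, by omega⟩, hx _⟩
      refine csSup_le (hKne.image _) ?_
      rintro _ ⟨y, hyK, rfl⟩
      simp only
      rw [abs_of_nonneg (P_nonneg _ _ _)]
      exact Finset.single_le_sum (f := fun z => P α x z) (fun _ _ => P_nonneg _ _ _)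
        (hfin.mem_toFinset.2 hyK)
  · have hex : ∀ n : ℕ, ∃ ν : Measure (E d), ν univ ≤ μ univ ∧ Carried K ν ∧
        (2 ≤ n → ∀ x : Fin (n - 1) → E d, (∀ j, x j ∈ K) →
          ∫ y in K, P α x y ∂μ ≤ 2 * ∫ y, P α x y ∂ν) := by
      intro n
      by_cases hn : 2 ≤ n
      · obtain ⟨ν, h1, h2, h3⟩ := discretise hα hK hfin hμ hn (hM0 n) (hbm n hn)
        exact ⟨ν, h1, h2, fun _ => h3⟩
      · exact ⟨0, by simp, ⟨∅, countable_empty, empty_subset _, by simp⟩, fun h => absurd h hn⟩
    choose ν hν1 hν2 hν3 using hex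
    have hfin2 : wsum ν univ < ⊤ := wsum_univ hμ hν1
    have : IsFiniteMeasure (wsum ν) := ⟨hfin2⟩
    have hc := wsum_carried hν2
    have hKc : wsum ν Kᶜ = 0 := by
      obtain ⟨S, _, hSK, hS⟩ := hc
      exact measure_mono_null (compl_subset_compl.2 hSK) hS
    refine ⟨wsum ν, ⟨hfin2, hKc, fun n => 2 * ((n : ℝ) + 1) ^ 2 * M n,
      fun n => mul_pos (by positivity) (hM0 n), ?_, ?_⟩, hc.isDiscreteOn⟩
    · have h1 := (tendsto_poly (A := 2) (by norm_num) 2).mul hM1
      rw [one_mul] at h1
      refine h1.congr fun n => ?_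
      rw [← Real.mul_rpow (by positivity) (hM0 n).le]
    · intro n hn x hx
      rw [Measure.restrict_eq_self_of_ae_mem (by rw [ae_iff]; exact hKc)]
      have hKne : K.Nonempty := ⟨x ⟨0, by omega⟩, hx _⟩
      refine csSup_le (hKne.image _) ?_
      rintro _ ⟨y, hyK, rfl⟩
      simp only
      rw [abs_of_nonneg (P_nonneg _ _ _)]
      have h1 := hbm n hn x hx y hyK
      have h2 := hν3 n hn x hx
      have h3 := wsum_integral (ν := ν) hα x n
      have hMn := hM0 n
      calc P α x y ≤ M n * ∫ y in K, P α x y ∂μ := h1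
        _ ≤ M n * (2 * ∫ y, P α x y ∂(ν n)) := by gcongr
        _ = 2 * ((n : ℝ) + 1) ^ 2 * M n * (1 / ((n : ℝ) + 1) ^ 2 * ∫ y, P α x y ∂(ν n)) := by
            field_simp
        _ ≤ 2 * ((n : ℝ) + 1) ^ 2 * M n * ∫ y, P α x y ∂(wsum ν) := by gcongr

end Q94.BM
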