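import Mathlib
import Pool.Agent.H758R2.Besov.Polar

/-!
Wirtinger derivatives along curves, Green identities on discs.
-/

set_option autoImplicit false

open Metric Filter Topology MeasureTheory Real Set

namespace Pool.Agent.Q94.BX

open scoped ComplexConjugate

/-- `φ` has the Wirtinger derivatives `a` and `b` at `z` (tested along curves). -/
def WD (φ : ℂ → ℂ) (a b z : ℂ) : Prop :=
  ∀ (γ : ℝ → ℂ) (t : ℝ) (v : ℂ), γ t = z → HasDerivAt γ v t →
    HasDerivAt (fun s => φ (γ s)) (a * v + b * conj v) t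

/-- continuously differentiable on the closed disc of radius `r` -/
structure SW (φ A B : ℂ → ℂ) (r : ℝ) : Prop where
  c0 : ContinuousOn φ (closedBall 0 r)
  ca : ContinuousOn A (closedBall 0 r)
  cb : ContinuousOn B (closedBall 0 r)
  wd : ∀ z ∈ closedBall (0 : ℂ) r, WD φ (A z) (B z) z

lemma WD.mul {φ ψ : ℂ → ℂ} {a b c d z : ℂ} (h : WD φ a b z) (k : WD ψ c d z) :
    WD (fun w => φ w * ψ w) (a * ψ z + φ z * c) (b * ψ z + φ z * d) z := by
  intro γ t v hγ hv
  have h1 : HasDerivAt (fun s => φ (γ s) * ψ (γ s))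
      ((a * v + b * conj v) * ψ (γ t) + φ (γ t) * (c * v + d * conj v)) t :=
    (h γ t v hγ hv).mul (k γ t v hγ hv)
  rw [hγ] at h1
  exact h1.congr_deriv (by ring)

lemma WD.add {φ ψ : ℂ → ℂ} {a b c d z : ℂ} (h : WD φ a b z) (k : WD ψ c d z) :
    WD (fun w => φ w + ψ w) (a + c) (b + d) z := by
  intro γ t v hγ hv
  have h1 : HasDerivAt (fun s => φ (γ s) + ψ (γ s))
      ((a * v + b * conj v) + (c * v + d * conj v)) t :=
    (h γ t v hγ hv).add (k γ t v hγ hv)
  exact h1.congr_deriv (by ring)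

lemma WD.const (c z : ℂ) : WD (fun _ => c) 0 0 z := by
  intro γ t v hγ hv
  simpa using hasDerivAt_const t c

lemma WD.conj' {φ : ℂ → ℂ} {a b z : ℂ} (h : WD φ a b z) :
    WD (fun w => conj (φ w)) (conj b) (conj a) z := by
  intro γ t v hγ hv
  have h1 : HasDerivAt (fun s => conj (φ (γ s))) (conj (a * v + b * conj v)) t := by
    have h2 : HasFDerivAt (fun w : ℂ => conj w) (Complex.conjCLE.toContinuousLinearMap) (φ (γ t)) :=
      Complex.conjCLE.toContinuousLinearMap.hasFDerivAt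
    exact HasFDerivAt.comp_hasDerivAt t h2 (h γ t v hγ hv)
  refine h1.congr_deriv ?_
  simp only [map_add, map_mul, Complex.conj_conj]
  ring

lemma WD.holo {f : ℂ → ℂ} {f' z : ℂ} (h : HasDerivAt f f' z) : WD f f' 0 z := by
  intro γ t v hγ hv
  subst hγ
  have h1 : HasDerivAt (fun s => f (γ s)) (f' * v) t := h.comp t hv
  exact h1.congr_deriv (by simp)

/-- composition of a real valued function with a real function -/
lemma WD.realComp {q : ℂ → ℝ} {a z : ℂ} (h : WD (fun w => (q w : ℂ)) a (conj a) z) {G : ℝ → ℝ}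
    {g : ℝ} (hG : HasDerivAt G g (q z)) :
    WD (fun w => (G (q w) : ℂ)) (g * a) (conj (g * a)) z := by
  intro γ t v hγ hv
  have h1 := h γ t v hγ hv
  have h2 : HasDerivAt (fun s => q (γ s)) (2 * (a * v).re) t := by
    have h3 : HasDerivAt (fun s => q (γ s)) (a * v + conj a * conj v).re t := by
      have h6 : HasFDerivAt (fun w : ℂ => w.re) Complex.reCLM ((q (γ t) : ℝ) : ℂ) :=
        Complex.reCLM.hasFDerivAt
      exact HasFDerivAt.comp_hasDerivAt t h6 h1
    refine h3.congr_deriv ?_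
    rw [← map_mul]
    simp only [Complex.add_re, Complex.conj_re]
    ring
  have h4 : HasDerivAt (fun s => G (q (γ s))) (g * (2 * (a * v).re)) t := by
    subst hγ
    exact hG.comp t h2
  have h5 : HasDerivAt (fun s => ((G (q (γ s)) : ℝ) : ℂ)) ((g * (2 * (a * v).re) : ℝ) : ℂ) t :=
    h4.ofReal_comp
  refine h5.congr_deriv ?_
  apply Complex.ext <;> simp <;> ring

lemma SW.mul {φ ψ A B C D : ℂ → ℂ} {r : ℝ} (h : SW φ A B r) (k : SW ψ C D r) :
    SW (fun w => φ w * ψ w) (fun z => A z * ψ z + φ z * C z) (fun z => B z * ψ z + φ z * D z) r where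
  c0 := h.c0.mul k.c0
  ca := (h.ca.mul k.c0).add (h.c0.mul k.ca)
  cb := (h.cb.mul k.c0).add (h.c0.mul k.cb)
  wd z hz := (h.wd z hz).mul (k.wd z hz)

lemma SW.add {φ ψ A B C D : ℂ → ℂ} {r : ℝ} (h : SW φ A B r) (k : SW ψ C D r) :
    SW (fun w => φ w + ψ w) (fun z => A z + C z) (fun z => B z + D z) r where
  c0 := h.c0.add k.c0
  ca := h.ca.add k.ca
  cb := h.cb.add k.cb
  wd z hz := (h.wd z hz).add (k.wd z hz)

lemma SW.const (c : ℂ) (r : ℝ) : SW (fun _ => c) (fun _ => 0) (fun _ => 0) r where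
  c0 := continuousOn_const
  ca := continuousOn_const
  cb := continuousOn_const
  wd z _ := WD.const c z

lemma SW.conj' {φ A B : ℂ → ℂ} {r : ℝ} (h : SW φ A B r) :
    SW (fun w => conj (φ w)) (fun z => conj (B z)) (fun z => conj (A z)) r where
  c0 := Complex.continuous_conj.comp_continuousOn h.c0
  ca := Complex.continuous_conj.comp_continuousOn h.cb
  cb := Complex.continuous_conj.comp_continuousOn h.ca
  wd z hz := (h.wd z hz).conj'

lemma SW.congr {φ A B φ' A' B' : ℂ → ℂ} {r : ℝ} (h : SW φ A B r) (h1 : φ' = φ)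
    (h2 : ∀ z ∈ closedBall (0 : ℂ) r, A' z = A z) (h3 : ∀ z ∈ closedBall (0 : ℂ) r, B' z = B z) :
    SW φ' A' B' r where
  c0 := by rw [h1]; exact h.c0
  ca := h.ca.congr h2
  cb := h.cb.congr h3
  wd z hz := by rw [h1, h2 z hz, h3 z hz]; exact h.wd z hz

lemma SW.holo {f : ℂ → ℂ} {R : ℝ} (hf : DifferentiableOn ℂ f (ball 0 R)) {r : ℝ} (hr : r < R) :
    SW f (deriv f) (fun _ => 0) r where
  c0 := hf.continuousOn.mono (closedBall_subset_ball hr)
  ca := ((hf.deriv isOpen_ball).continuousOn).mono (closedBall_subset_ball hr)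
  cb := continuousOn_const
  wd _ hz := WD.holo
    ((hf.differentiableAt (isOpen_ball.mem_nhds (closedBall_subset_ball hr hz))).hasDerivAt)

/-- composition of a real valued function with a real function -/
lemma SW.realComp {q : ℂ → ℝ} {A : ℂ → ℂ} {r : ℝ}
    (h : SW (fun w => (q w : ℂ)) A (fun z => conj (A z)) r) {G g : ℝ → ℝ} {S : Set ℝ}
    (hS : ∀ z ∈ closedBall (0 : ℂ) r, q z ∈ S) (hG : ∀ x ∈ S, HasDerivAt G (g x) x)
    (hg : ContinuousOn g S) :
    SW (fun w => (G (q w) : ℂ)) (fun z => g (q z) * A z) (fun z => conj (g (q z) * A z)) r := by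
  have hq : ContinuousOn q (closedBall 0 r) := by
    have h1 := Complex.continuous_re.comp_continuousOn h.c0
    refine h1.congr fun w _ => ?_
    simp
  have hGc : ContinuousOn G S := fun x hx => (hG x hx).continuousAt.continuousWithinAt
  have h2 : ContinuousOn (fun z => ((g (q z) : ℝ) : ℂ) * A z) (closedBall 0 r) :=
    (Complex.continuous_ofReal.comp_continuousOn (hg.comp hq hS)).mul h.ca
  exact {
    c0 := Complex.continuous_ofReal.comp_continuousOn (hGc.comp hq hS)
    ca := h2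
    cb := Complex.continuous_conj.comp_continuousOn h2
    wd := fun z hz => (h.wd z hz).realComp (hG _ (hS z hz)) }

lemma circ_mem {r ρ : ℝ} (h0 : 0 ≤ ρ) (h1 : ρ ≤ r) (θ : ℝ) :
    circleMap 0 ρ θ ∈ closedBall (0 : ℂ) r := by
  simp [abs_of_nonneg h0, h1]

lemma circ_deriv_r (ρ θ : ℝ) :
    HasDerivAt (fun x : ℝ => circleMap 0 x θ) (Complex.exp (θ * Complex.I)) ρ := by
  have h : (fun x : ℝ => circleMap 0 x θ) = fun x : ℝ => (x : ℂ) * Complex.exp (θ * Complex.I) := by
    funext x; simp [circleMap]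
  rw [h]
  simpa using (Complex.ofRealCLM.hasDerivAt (x := ρ)).mul_const (Complex.exp (θ * Complex.I))

lemma conj_exp (θ : ℝ) : conj (Complex.exp (θ * Complex.I)) = Complex.exp (-(θ * Complex.I)) := by
  rw [← Complex.exp_conj]; simp

/-- a function on the rectangle which is a derivative in the first variable -/
lemma swap_ftc {r : ℝ} (hr : 0 ≤ r) {K K' : ℝ → ℝ → ℂ}
    (hc : ContinuousOn (fun p : ℝ × ℝ => K' p.1 p.2) (Icc 0 r ×ˢ Icc (-π) π))
    (hd : ∀ ρ ∈ Icc 0 r, ∀ θ, HasDerivAt (fun x => K x θ) (K' ρ θ) ρ) :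
    ∫ ρ in (0 : ℝ)..r, ∫ θ in (-π)..π, K' ρ θ = ∫ θ in (-π)..π, (K r θ - K 0 θ) := by
  have hpi : -π ≤ π := by linarith [Real.pi_pos]
  rw [intervalIntegral_intervalIntegral_swap]
  · apply intervalIntegral.integral_congr
    intro θ hθ
    rw [uIcc_of_le hpi] at hθ
    simp only
    apply intervalIntegral.integral_eq_sub_of_hasDerivAt
    · intro x hx
      rw [uIcc_of_le hr] at hx
      exact hd x hx θ
    · apply ContinuousOn.intervalIntegrable
      rw [uIcc_of_le hr]
      exact hc.comp (f := fun x : ℝ => (x, θ)) (by fun_prop) (fun x hx => ⟨hx, hθ⟩)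
  · rw [uIoc_of_le hr, uIoc_of_le hpi]
    apply (hc.integrableOn_compact (isCompact_Icc.prod isCompact_Icc)).mono_set
    exact Set.prod_mono Ioc_subset_Icc_self Ioc_subset_Icc_self

lemma comp_circ {φ : ℂ → ℂ} {r : ℝ} (h : ContinuousOn φ (closedBall 0 r)) :
    ContinuousOn (fun p : ℝ × ℝ => φ (circleMap 0 p.1 p.2)) (Icc 0 r ×ˢ Icc (-π) π) :=
  h.comp H758R2.Besov.continuous_circle2.continuousOn (fun p hp => circ_mem hp.1.1 hp.1.2 p.2)

lemma comp_circ' {φ : ℂ → ℂ} {r ρ : ℝ} (h : ContinuousOn φ (closedBall 0 r)) (h0 : 0 ≤ ρ)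
    (h1 : ρ ≤ r) : Continuous (fun θ : ℝ => φ (circleMap 0 ρ θ)) := by
  rw [← continuousOn_univ]
  exact h.comp (f := fun θ : ℝ => circleMap 0 ρ θ) (continuous_circleMap 0 ρ).continuousOn
    (fun θ _ => circ_mem h0 h1 θ)

/-- the integral of the angular derivative vanishes -/
lemma ang_zero {f f' : ℝ → ℂ} (hd : ∀ θ, HasDerivAt f (f' θ) θ) (hc : Continuous f')
    (hp : f π = f (-π)) : ∫ θ in (-π)..π, f' θ = 0 := by
  rw [intervalIntegral.integral_eq_sub_of_hasDerivAt (fun x _ => hd x)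
    (hc.intervalIntegrable _ _), hp, sub_self]

lemma circ_pi (ρ : ℝ) : circleMap 0 ρ π = circleMap 0 ρ (-π) := by
  have := periodic_circleMap 0 ρ (-π)
  rw [← this]; congr 1; ring

lemma exp_pi' : Complex.exp ((π : ℝ) * Complex.I) = Complex.exp (((-π : ℝ) : ℂ) * Complex.I) := by
  rw [Complex.exp_eq_exp_iff_exists_int]
  exact ⟨1, by push_cast; ring⟩

theorem green1 {φ A B : ℂ → ℂ} {r : ℝ} (hr : 0 < r) (h : SW φ A B r) :
    ∫ z in ball (0 : ℂ) r, (φ z + z * A z) =
      (r ^ 2 / 2 : ℝ) * ∫ θ in (-π)..π, φ (circleMap 0 r θ) := by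
  have hcont : ContinuousOn (fun z => φ z + z * A z) (closedBall 0 r) :=
    h.c0.add (continuousOn_id.mul h.ca)
  rw [H758R2.Besov.polar_ball _ hr hcont]
  set K : ℝ → ℝ → ℂ := fun ρ θ => ((ρ ^ 2 / 2 : ℝ) : ℂ) * φ (circleMap 0 ρ θ) with hK
  set K' : ℝ → ℝ → ℂ := fun ρ θ => (ρ : ℂ) * φ (circleMap 0 ρ θ) + ((ρ ^ 2 / 2 : ℝ) : ℂ) *
    (A (circleMap 0 ρ θ) * Complex.exp (θ * Complex.I) +
      B (circleMap 0 ρ θ) * conj (Complex.exp (θ * Complex.I))) with hK'
  have h1 : ∫ ρ in (0 : ℝ)..r, ∫ θ in (-π)..π,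
      ρ • (φ (circleMap 0 ρ θ) + circleMap 0 ρ θ * A (circleMap 0 ρ θ)) =
      ∫ ρ in (0 : ℝ)..r, ∫ θ in (-π)..π, K' ρ θ := by
    apply intervalIntegral.integral_congr
    intro ρ hρ
    rw [uIcc_of_le hr.le] at hρ
    simp only
    have cφ := comp_circ' h.c0 hρ.1 hρ.2
    have cA := comp_circ' h.ca hρ.1 hρ.2
    have cB := comp_circ' h.cb hρ.1 hρ.2
    have cE : Continuous fun θ : ℝ => Complex.exp (θ * Complex.I) := by fun_prop
    have cE' : Continuous fun θ : ℝ => conj (Complex.exp (θ * Complex.I)) :=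
      Complex.continuous_conj.comp cE
    have cC : Continuous fun θ : ℝ => circleMap 0 ρ θ := continuous_circleMap 0 ρ
    -- the angular derivative
    have hang : ∫ θ in (-π)..π, (A (circleMap 0 ρ θ) * (circleMap 0 ρ θ * Complex.I) +
        B (circleMap 0 ρ θ) * conj (circleMap 0 ρ θ * Complex.I)) = 0 := by
      apply ang_zero (f := fun θ => φ (circleMap 0 ρ θ))
      · intro θ
        exact h.wd _ (circ_mem hρ.1 hρ.2 θ) _ θ _ rfl (hasDerivAt_circleMap 0 ρ θ)
      · exact (cA.mul (cC.mul continuous_const)).add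
          (cB.mul (Complex.continuous_conj.comp (cC.mul continuous_const)))
      · show φ _ = φ _
        rw [circ_pi]
    have e2 : ∀ θ : ℝ, ρ • (φ (circleMap 0 ρ θ) + circleMap 0 ρ θ * A (circleMap 0 ρ θ)) =
        K' ρ θ + (ρ / 2 * (-Complex.I)) * (A (circleMap 0 ρ θ) * (circleMap 0 ρ θ * Complex.I) +
        B (circleMap 0 ρ θ) * conj (circleMap 0 ρ θ * Complex.I)) := by
      intro θ
      have hcm : circleMap 0 ρ θ = ρ * Complex.exp (θ * Complex.I) := by simp [circleMap]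
      simp only [hK', Complex.real_smul]
      rw [map_mul, Complex.conj_I, hcm, map_mul, Complex.conj_ofReal]
      push_cast
      have hI : Complex.I * Complex.I = -1 := Complex.I_mul_I
      linear_combination ((ρ : ℂ) / 2 * (A ((ρ : ℂ) * Complex.exp (θ * Complex.I)) *
        ((ρ : ℂ) * Complex.exp (θ * Complex.I))) - (ρ : ℂ) / 2 *
        (B ((ρ : ℂ) * Complex.exp (θ * Complex.I)) *
        ((ρ : ℂ) * conj (Complex.exp (θ * Complex.I))))) * hI
    simp_rw [e2]
    rw [intervalIntegral.integral_add, intervalIntegral.integral_const_mul, hang, mul_zero, add_zero]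
    · apply Continuous.intervalIntegrable
      simp only [hK']
      exact (continuous_const.mul cφ).add (continuous_const.mul ((cA.mul cE).add (cB.mul cE')))
    · apply Continuous.intervalIntegrable
      exact continuous_const.mul ((cA.mul (cC.mul continuous_const)).add
          (cB.mul (Complex.continuous_conj.comp (cC.mul continuous_const))))
  rw [h1, swap_ftc (K := K) hr.le]
  · simp only [hK]
    rw [← intervalIntegral.integral_const_mul]
    apply intervalIntegral.integral_congr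
    intro θ _
    simp
  · simp only [hK']
    have c1 := comp_circ h.c0
    have c2 := comp_circ h.ca
    have c3 := comp_circ h.cb
    have cE : Continuous fun p : ℝ × ℝ => Complex.exp (p.2 * Complex.I) := by fun_prop
    have cE' : Continuous fun p : ℝ × ℝ => conj (Complex.exp (p.2 * Complex.I)) :=
      Complex.continuous_conj.comp cE
    have cR : Continuous fun p : ℝ × ℝ => ((p.1 : ℝ) : ℂ) := by fun_prop
    have cR2 : Continuous fun p : ℝ × ℝ => ((p.1 ^ 2 / 2 : ℝ) : ℂ) := by fun_prop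
    exact (cR.continuousOn.mul c1).add (cR2.continuousOn.mul
      ((c2.mul cE.continuousOn).add (c3.mul cE'.continuousOn)))
  · intro ρ hρ θ
    have h2 := h.wd _ (circ_mem hρ.1 hρ.2 θ) _ ρ _ rfl (circ_deriv_r ρ θ)
    have h3 : HasDerivAt (fun x : ℝ => ((x ^ 2 / 2 : ℝ) : ℂ)) (ρ : ℂ) ρ := by
      have h4 : HasDerivAt (fun x : ℝ => x ^ 2 / 2) ρ ρ := by
        have h6 : HasDerivAt (fun x : ℝ => x ^ 2 / 2) _ ρ := ((hasDerivAt_pow 2 ρ).div_const 2)
        exact h6.congr_deriv (by simp)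
      exact h4.ofReal_comp
    exact h3.mul h2

theorem green2 {Ψ A B : ℂ → ℂ} {r : ℝ} (hr : 0 < r) (h : SW Ψ A B r) :
    ∫ z in ball (0 : ℂ) r, z * Ψ z = ∫ z in ball (0 : ℂ) r, ((r ^ 2 - ‖z‖ ^ 2 : ℝ) : ℂ) * B z := by
  have hw : ContinuousOn (fun z : ℂ => ((r ^ 2 - ‖z‖ ^ 2 : ℝ) : ℂ)) (closedBall 0 r) := by fun_prop
  have hc1 : ContinuousOn (fun z => z * Ψ z) (closedBall 0 r) := continuousOn_id.mul h.c0
  have hc2 : ContinuousOn (fun z => ((r ^ 2 - ‖z‖ ^ 2 : ℝ) : ℂ) * B z) (closedBall 0 r) :=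
    hw.mul h.cb
  have hi1 : IntegrableOn (fun z => z * Ψ z) (ball (0 : ℂ) r) :=
    (hc1.integrableOn_compact (isCompact_closedBall 0 r)).mono_set ball_subset_closedBall
  have hi2 : IntegrableOn (fun z => ((r ^ 2 - ‖z‖ ^ 2 : ℝ) : ℂ) * B z) (ball (0 : ℂ) r) :=
    (hc2.integrableOn_compact (isCompact_closedBall 0 r)).mono_set ball_subset_closedBall
  have hc3 : ContinuousOn (fun z => z * Ψ z - ((r ^ 2 - ‖z‖ ^ 2 : ℝ) : ℂ) * B z)
    (closedBall 0 r) := hc1.sub hc2
  rw [← sub_eq_zero, ← integral_sub hi1 hi2, H758R2.Besov.polar_ball _ hr hc3]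
  set K : ℝ → ℝ → ℂ := fun ρ θ => ((-((r ^ 2 - ρ ^ 2) * ρ / 2) : ℝ) : ℂ) *
    (Complex.exp (θ * Complex.I) * Ψ (circleMap 0 ρ θ)) with hK
  set K' : ℝ → ℝ → ℂ := fun ρ θ => ((-((r ^ 2 - 3 * ρ ^ 2) / 2) : ℝ) : ℂ) *
    (Complex.exp (θ * Complex.I) * Ψ (circleMap 0 ρ θ)) + ((-((r ^ 2 - ρ ^ 2) * ρ / 2) : ℝ) : ℂ) *
    (Complex.exp (θ * Complex.I) * (A (circleMap 0 ρ θ) * Complex.exp (θ * Complex.I) +
      B (circleMap 0 ρ θ) * conj (Complex.exp (θ * Complex.I)))) with hK'
  have h1 : ∫ ρ in (0 : ℝ)..r, ∫ θ in (-π)..π, ρ • (circleMap 0 ρ θ * Ψ (circleMap 0 ρ θ) -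
      ((r ^ 2 - ‖circleMap 0 ρ θ‖ ^ 2 : ℝ) : ℂ) * B (circleMap 0 ρ θ)) =
      ∫ ρ in (0 : ℝ)..r, ∫ θ in (-π)..π, K' ρ θ := by
    apply intervalIntegral.integral_congr
    intro ρ hρ
    rw [uIcc_of_le hr.le] at hρ
    simp only
    have cφ := comp_circ' h.c0 hρ.1 hρ.2
    have cA := comp_circ' h.ca hρ.1 hρ.2
    have cB := comp_circ' h.cb hρ.1 hρ.2
    have cE : Continuous fun θ : ℝ => Complex.exp (θ * Complex.I) := by fun_prop
    have cE' : Continuous fun θ : ℝ => conj (Complex.exp (θ * Complex.I)) :=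
      Complex.continuous_conj.comp cE
    have cC : Continuous fun θ : ℝ => circleMap 0 ρ θ := continuous_circleMap 0 ρ
    have cg : Continuous fun θ : ℝ => Complex.exp (θ * Complex.I) * Complex.I * Ψ (circleMap 0 ρ θ) +
        Complex.exp (θ * Complex.I) * (A (circleMap 0 ρ θ) * (circleMap 0 ρ θ * Complex.I) +
          B (circleMap 0 ρ θ) * conj (circleMap 0 ρ θ * Complex.I)) :=
      ((cE.mul continuous_const).mul cφ).add (cE.mul ((cA.mul (cC.mul continuous_const)).add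
          (cB.mul (Complex.continuous_conj.comp (cC.mul continuous_const)))))
    have hang : ∫ θ in (-π)..π, (Complex.exp (θ * Complex.I) * Complex.I * Ψ (circleMap 0 ρ θ) +
        Complex.exp (θ * Complex.I) * (A (circleMap 0 ρ θ) * (circleMap 0 ρ θ * Complex.I) +
          B (circleMap 0 ρ θ) * conj (circleMap 0 ρ θ * Complex.I))) = 0 := by
      apply ang_zero (f := fun θ : ℝ => Complex.exp (θ * Complex.I) * Ψ (circleMap 0 ρ θ))
      · intro θ
        have h2 := h.wd _ (circ_mem hρ.1 hρ.2 θ) _ θ _ rfl (hasDerivAt_circleMap 0 ρ θ)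
        have h3 : HasDerivAt (fun θ : ℝ => Complex.exp (θ * Complex.I))
            (Complex.exp (θ * Complex.I) * Complex.I) θ := by
          have h4 : HasDerivAt (fun θ : ℝ => (θ : ℂ) * Complex.I) Complex.I θ := by
            simpa using (Complex.ofRealCLM.hasDerivAt (x := θ)).mul_const Complex.I
          exact h4.cexp
        exact h3.mul h2
      · exact cg
      · show _ * Ψ _ = _ * Ψ _
        rw [circ_pi, exp_pi']
    have e2 : ∀ θ : ℝ, ρ • (circleMap 0 ρ θ * Ψ (circleMap 0 ρ θ) -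
        ((r ^ 2 - ‖circleMap 0 ρ θ‖ ^ 2 : ℝ) : ℂ) * B (circleMap 0 ρ θ)) =
        K' ρ θ + ((((r ^ 2 - ρ ^ 2) / 2 : ℝ) : ℂ) * (-Complex.I)) *
        (Complex.exp (θ * Complex.I) * Complex.I * Ψ (circleMap 0 ρ θ) +
        Complex.exp (θ * Complex.I) * (A (circleMap 0 ρ θ) * (circleMap 0 ρ θ * Complex.I) +
          B (circleMap 0 ρ θ) * conj (circleMap 0 ρ θ * Complex.I))) := by
      intro θ
      have hcm : circleMap 0 ρ θ = ρ * Complex.exp (θ * Complex.I) := by simp [circleMap]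
      have hn : ‖circleMap 0 ρ θ‖ = ρ := by simp [abs_of_nonneg hρ.1]
      have hee : Complex.exp (θ * Complex.I) * conj (Complex.exp (θ * Complex.I)) = 1 := by
        rw [conj_exp, ← Complex.exp_add]; simp
      simp only [hK', Complex.real_smul]
      rw [hn, map_mul, Complex.conj_I, hcm, map_mul, Complex.conj_ofReal]
      push_cast
      have hI : Complex.I * Complex.I = -1 := Complex.I_mul_I
      generalize Complex.exp (θ * Complex.I) = e at *
      generalize conj e = e' at *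
      generalize A (↑ρ * e) = a at *
      generalize B (↑ρ * e) = b at *
      generalize Ψ (↑ρ * e) = ψ at *
      linear_combination (((r : ℂ) ^ 2 - (ρ : ℂ) ^ 2) / 2 * (e * ψ + e * (a * (ρ * e)) -
        e * (b * (ρ * e')))) * hI + (ρ * ((r : ℂ) ^ 2 - (ρ : ℂ) ^ 2) * b) * hee
    simp_rw [e2]
    rw [intervalIntegral.integral_add, intervalIntegral.integral_const_mul, hang, mul_zero, add_zero]
    · apply Continuous.intervalIntegrable
      simp only [hK']
      exact (continuous_const.mul (cE.mul cφ)).add (continuous_const.mul (cE.mul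
        ((cA.mul cE).add (cB.mul cE'))))
    · apply Continuous.intervalIntegrable
      exact continuous_const.mul cg
  rw [h1, swap_ftc (K := K) hr.le]
  · simp only [hK]
    simp
  · simp only [hK']
    have c1 := comp_circ h.c0
    have c2 := comp_circ h.ca
    have c3 := comp_circ h.cb
    have cE : Continuous fun p : ℝ × ℝ => Complex.exp (p.2 * Complex.I) := by fun_prop
    have cE' : Continuous fun p : ℝ × ℝ => conj (Complex.exp (p.2 * Complex.I)) :=
      Complex.continuous_conj.comp cE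
    have cR : Continuous fun p : ℝ × ℝ => ((-((r ^ 2 - 3 * p.1 ^ 2) / 2) : ℝ) : ℂ) := by fun_prop
    have cR2 : Continuous fun p : ℝ × ℝ => ((-((r ^ 2 - p.1 ^ 2) * p.1 / 2) : ℝ) : ℂ) := by fun_prop
    exact (cR.continuousOn.mul (cE.continuousOn.mul c1)).add (cR2.continuousOn.mul
      (cE.continuousOn.mul ((c2.mul cE.continuousOn).add (c3.mul cE'.continuousOn))))
  · intro ρ hρ θ
    have h2 := h.wd _ (circ_mem hρ.1 hρ.2 θ) _ ρ _ rfl (circ_deriv_r ρ θ)
    have h3 : HasDerivAt (fun x : ℝ => ((-((r ^ 2 - x ^ 2) * x / 2) : ℝ) : ℂ))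
        ((-((r ^ 2 - 3 * ρ ^ 2) / 2) : ℝ) : ℂ) ρ := by
      have h4 : HasDerivAt (fun x : ℝ => -((r ^ 2 - x ^ 2) * x / 2)) (-((r ^ 2 - 3 * ρ ^ 2) / 2)) ρ := by
        have h6 : HasDerivAt (fun x : ℝ => -((r ^ 2 - x ^ 2) * x / 2)) _ ρ :=
          (((((hasDerivAt_pow 2 ρ).const_sub (r ^ 2)).mul (hasDerivAt_id ρ)).div_const 2).neg)
        refine h6.congr_deriv ?_
        simp
        ring
      exact h4.ofReal_comp
    exact h3.mul (h2.const_mul (Complex.exp (θ * Complex.I)))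

end Pool.Agent.Q94.BX
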