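import Pool.Agent.Q94.BXA

/-!
The area estimate.
-/

set_option autoImplicit false

open Metric Filter Topology MeasureTheory Real Set

namespace Pool.Agent.Q94.BX

open scoped ComplexConjugate

/-- `|f|^2 + ε` -/
lemma sw_sq {f : ℂ → ℂ} (hf : DifferentiableOn ℂ f (ball 0 1)) {r : ℝ} (hr : r < 1) (ε : ℝ) :
    SW (fun w => ((‖f w‖ ^ 2 + ε : ℝ) : ℂ)) (fun z => deriv f z * conj (f z))
      (fun z => conj (deriv f z * conj (f z))) r := by
  have h1 := (SW.holo hf hr).mul (SW.holo hf hr).conj'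
  have h2 := h1.add (SW.const (ε : ℂ) r)
  refine h2.congr ?_ ?_ ?_
  · funext w
    have h3 : f w * conj (f w) = ((‖f w‖ ^ 2 : ℝ) : ℂ) := by
      rw [Complex.mul_conj, Complex.normSq_eq_norm_sq]
    rw [h3]; push_cast; ring
  · intro z _
    simp
  · intro z _
    simp
    ring

lemma lapl {f : ℂ → ℂ} (hf : DifferentiableOn ℂ f (ball 0 1)) {r : ℝ} (hr : r < 1) {ε : ℝ}
    (hε : 0 < ε) {G g g2 : ℝ → ℝ} (h1 : ∀ x ∈ Ioi (0 : ℝ), HasDerivAt G (g x) x)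
    (h2 : ∀ x ∈ Ioi (0 : ℝ), HasDerivAt g (g2 x) x) (h3 : ContinuousOn g2 (Ioi 0)) :
    SW (fun w => (G (‖f w‖ ^ 2 + ε) : ℂ)) (fun z => g (‖f z‖ ^ 2 + ε) * (deriv f z * conj (f z)))
      (fun z => conj (g (‖f z‖ ^ 2 + ε) * (deriv f z * conj (f z)))) r ∧
    ∃ A, SW (fun z => g (‖f z‖ ^ 2 + ε) * (deriv f z * conj (f z))) A
      (fun z => ((‖deriv f z‖ ^ 2 * (g (‖f z‖ ^ 2 + ε) + g2 (‖f z‖ ^ 2 + ε) * ‖f z‖ ^ 2) : ℝ) : ℂ))
      r := by
  have hq : ∀ z ∈ closedBall (0 : ℂ) r, ‖f z‖ ^ 2 + ε ∈ Ioi (0 : ℝ) := fun z _ => by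
    have : 0 ≤ ‖f z‖ ^ 2 := sq_nonneg _
    simp only [mem_Ioi]; linarith
  have hgc : ContinuousOn g (Ioi 0) := fun x hx => (h2 x hx).continuousAt.continuousWithinAt
  refine ⟨(sw_sq hf hr ε).realComp hq h1 hgc, ?_⟩
  have h4 := (sw_sq hf hr ε).realComp hq h2 h3
  have h5 := (SW.holo (hf.deriv isOpen_ball) hr).mul (SW.holo hf hr).conj'
  refine ⟨_, (h4.mul h5).congr rfl (fun z _ => rfl) ?_⟩
  intro z _
  have e1 : f z * conj (f z) = ((‖f z‖ ^ 2 : ℝ) : ℂ) := by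
    rw [Complex.mul_conj, Complex.normSq_eq_norm_sq]
  have e2 : deriv f z * conj (deriv f z) = ((‖deriv f z‖ ^ 2 : ℝ) : ℂ) := by
    rw [Complex.mul_conj, Complex.normSq_eq_norm_sq]
  simp only [map_mul, Complex.conj_ofReal, Complex.conj_conj]
  push_cast at e1 e2 ⊢
  rw [← e1, ← e2]
  ring

/-- the algebraic inequality -/
lemma alg_ineq {a a' b b' m μ E κ q t ε δ : ℝ} (ha : 0 ≤ a) (hμ : 0 < μ)
    (hm : μ ^ 2 = a ^ 2 + δ) (hδ : 0 < δ) (hE : 1 ≤ E) (hκ : 0 < κ) (hq : q = b ^ 2 + ε) (hε : 0 < ε)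
    (ht : 0 < t) (hmm : m = min 1 t) :
    a * m * κ * b' ^ 2 ≤ a' ^ 2 * (1 / (2 * μ) - 1 / (4 * μ ^ 3) * a ^ 2) * E -
      2 * ((1 / (2 * μ) * (a' * a)) * (E * κ * (b' * b))) +
      μ * (b' ^ 2 * (E * κ + E * (κ ^ 2 + κ * (t - 1) / q) * b ^ 2)) := by
  have hq0 : 0 < q := by rw [hq]; positivity
  have hE0 : 0 < E := by linarith
  have k1 : a' ^ 2 * (1 / (2 * μ) - 1 / (4 * μ ^ 3) * a ^ 2) * E -
      2 * ((1 / (2 * μ) * (a' * a)) * (E * κ * (b' * b))) +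
      μ * (b' ^ 2 * (E * κ + E * (κ ^ 2 + κ * (t - 1) / q) * b ^ 2)) =
      E * (μ * b' ^ 2 * κ * ((t * b ^ 2 + ε) / q)) +
      E / μ ^ 3 * ((μ ^ 2 * κ * b * b' - a * a' / 2) ^ 2 + δ * a' ^ 2 / 2) := by
    have e1 : (t * b ^ 2 + ε) / q = 1 + (t - 1) * b ^ 2 / q := by
      field_simp
      rw [hq]; ring
    have e2 : δ = μ ^ 2 - a ^ 2 := by linarith
    rw [e1, e2]
    field_simp
    ring
  rw [k1]
  have k2 : 0 ≤ E / μ ^ 3 * ((μ ^ 2 * κ * b * b' - a * a' / 2) ^ 2 + δ * a' ^ 2 / 2) := by positivity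
  have k3 : m ≤ (t * b ^ 2 + ε) / q := by
    rw [le_div_iff₀ hq0, hq, mul_add]
    have m1 : m ≤ 1 := hmm ▸ min_le_left _ _
    have m2 : m ≤ t := hmm ▸ min_le_right _ _
    nlinarith [sq_nonneg b]
  have m0 : 0 < m := by rw [hmm]; positivity
  have k4 : a ≤ μ := by
    have : a ^ 2 ≤ μ ^ 2 := by rw [hm]; linarith
    exact le_of_sq_le_sq this hμ.le
  have k5 : a * m * κ * b' ^ 2 ≤ E * (μ * b' ^ 2 * κ * ((t * b ^ 2 + ε) / q)) := by
    calc a * m * κ * b' ^ 2 = 1 * (a * b' ^ 2 * κ * m) := by ring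
      _ ≤ E * (μ * b' ^ 2 * κ * ((t * b ^ 2 + ε) / q)) := by gcongr
  linarith

lemma dsqrt {x : ℝ} (hx : x ∈ Ioi (0 : ℝ)) :
    HasDerivAt (fun y => √y) (1 / (2 * √x)) x := Real.hasDerivAt_sqrt (ne_of_gt hx)

lemma dsqrt' {x : ℝ} (hx : x ∈ Ioi (0 : ℝ)) :
    HasDerivAt (fun y => 1 / (2 * √y)) (-(1 / (4 * √x ^ 3))) x := by
  have h0 : 0 < √x := Real.sqrt_pos.mpr hx
  have h1 : HasDerivAt (fun y => 2 * √y) (2 * (1 / (2 * √x))) x := (dsqrt hx).const_mul 2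
  have h2 : HasDerivAt (fun y => (2 * √y)⁻¹) (-(2 * (1 / (2 * √x))) / (2 * √x) ^ 2) x :=
    h1.fun_inv (by positivity)
  simp only [one_div] at h2 ⊢
  refine h2.congr_deriv ?_
  field_simp
  norm_num

lemma dexp {c t x : ℝ} (hx : x ∈ Ioi (0 : ℝ)) :
    HasDerivAt (fun y => Real.exp (c * y ^ t)) (Real.exp (c * x ^ t) * (c * (t * x ^ (t - 1)))) x := by
  have h1 : HasDerivAt (fun y : ℝ => y ^ t) (t * x ^ (t - 1)) x :=
    Real.hasDerivAt_rpow_const (Or.inl (ne_of_gt hx))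
  exact (h1.const_mul c).exp

lemma dexp' {c t x : ℝ} (hx : x ∈ Ioi (0 : ℝ)) :
    HasDerivAt (fun y => Real.exp (c * y ^ t) * (c * (t * y ^ (t - 1))))
      (Real.exp (c * x ^ t) * ((c * (t * x ^ (t - 1))) ^ 2 + c * (t * x ^ (t - 1)) * (t - 1) / x))
      x := by
  have h0 : 0 < x := hx
  have h1 : HasDerivAt (fun y : ℝ => y ^ (t - 1)) ((t - 1) * x ^ (t - 1 - 1)) x :=
    Real.hasDerivAt_rpow_const (Or.inl (ne_of_gt hx))
  have h2 : HasDerivAt (fun y => Real.exp (c * y ^ t) * (c * (t * y ^ (t - 1)))) _ x :=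
    (dexp (c := c) (t := t) hx).mul ((h1.const_mul t).const_mul c)
  refine h2.congr_deriv ?_
  rw [Real.rpow_sub_one h0.ne' (t - 1)]
  ring

lemma exists_U {F h : ℂ → ℂ} (hF : DifferentiableOn ℂ F (ball 0 1))
    (hh : DifferentiableOn ℂ h (ball 0 1)) {r : ℝ} (hr : r < 1) {ε δ t c : ℝ}
    (hε : 0 < ε) (hδ : 0 < δ) (ht : 0 < t) (hc0 : 0 < c) :
    ∃ A B A' B' : ℂ → ℂ,
      SW (fun z => ((√(‖h z‖ ^ 2 + δ) * Real.exp (c * (‖F z‖ ^ 2 + ε) ^ t) : ℝ) : ℂ)) A B r ∧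
      SW A A' B' r ∧
      ∀ z, ‖h z‖ * min 1 t * (c * (t * (‖F z‖ ^ 2 + ε) ^ (t - 1))) * ‖deriv F z‖ ^ 2 ≤ (B' z).re := by
  have hm0 : 0 < min 1 t := by positivity
  obtain ⟨S1, A1, S1'⟩ := lapl hh hr hδ (G := fun y => √y) (g := fun y => 1 / (2 * √y))
    (g2 := fun y => -(1 / (4 * √y ^ 3))) (fun x hx => dsqrt hx) (fun x hx => dsqrt' hx)
    (by
      apply ContinuousOn.neg
      apply ContinuousOn.div continuousOn_const
      · exact (continuous_const.mul (Real.continuous_sqrt.pow 3)).continuousOn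
      · intro x hx
        have : 0 < √x := Real.sqrt_pos.mpr hx
        positivity)
  have hrc : ∀ u : ℝ, ContinuousOn (fun y : ℝ => y ^ u) (Ioi 0) := fun u x hx =>
    (Real.continuousAt_rpow_const x u (Or.inl (ne_of_gt hx))).continuousWithinAt
  obtain ⟨S2, A2, S2'⟩ := lapl hF hr hε (G := fun y => Real.exp (c * y ^ t))
    (g := fun y => Real.exp (c * y ^ t) * (c * (t * y ^ (t - 1))))
    (g2 := fun y => Real.exp (c * y ^ t) * ((c * (t * y ^ (t - 1))) ^ 2 +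
      c * (t * y ^ (t - 1)) * (t - 1) / y))
    (fun x hx => dexp hx) (fun x hx => dexp' hx)
    (by
      have c1 := hrc t
      have c2 := hrc (t - 1)
      have c3 : ContinuousOn (fun y : ℝ => c * (t * y ^ (t - 1))) (Ioi 0) :=
        continuousOn_const.mul (continuousOn_const.mul c2)
      refine ((continuousOn_const.mul c1).rexp).mul ((c3.pow 2).add ?_)
      exact (c3.mul continuousOn_const).div continuousOn_id (fun x hx => ne_of_gt hx))
  have SU := S1.mul S2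
  have SU' := (S1'.mul S2).add (S1.mul S2')
  refine ⟨_, _, _, _, SU.congr (by funext z; push_cast; rfl) (fun _ _ => rfl) (fun _ _ => rfl),
    SU', fun z => ?_⟩
  have hμ : 0 < √(‖h z‖ ^ 2 + δ) := by
    apply Real.sqrt_pos.mpr
    positivity
  have hm : √(‖h z‖ ^ 2 + δ) ^ 2 = ‖h z‖ ^ 2 + δ := Real.sq_sqrt (by positivity)
  have hq0 : 0 < ‖F z‖ ^ 2 + ε := by positivity
  have hqt : 0 < (‖F z‖ ^ 2 + ε) ^ t := Real.rpow_pos_of_pos hq0 _
  have hqt1 : 0 < (‖F z‖ ^ 2 + ε) ^ (t - 1) := Real.rpow_pos_of_pos hq0 _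
  have hE : 1 ≤ Real.exp (c * (‖F z‖ ^ 2 + ε) ^ t) := Real.one_le_exp (by positivity)
  have hκ : 0 < c * (t * (‖F z‖ ^ 2 + ε) ^ (t - 1)) := by positivity
  have key := alg_ineq (a := ‖h z‖) (a' := ‖deriv h z‖) (b := ‖F z‖) (b' := ‖deriv F z‖)
    (m := min 1 t) (norm_nonneg _) hμ hm hδ hE hκ rfl hε ht rfl
  refine key.trans ?_
  simp only [Complex.add_re]
  set μ := √(‖h z‖ ^ 2 + δ) with hμd
  set E := Real.exp (c * (‖F z‖ ^ 2 + ε) ^ t) with hEd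
  set κ := c * (t * (‖F z‖ ^ 2 + ε) ^ (t - 1)) with hκd
  set q := ‖F z‖ ^ 2 + ε with hqd
  have e1 : (((‖deriv h z‖ ^ 2 * (1 / (2 * μ) + -(1 / (4 * μ ^ 3)) * ‖h z‖ ^ 2) : ℝ) : ℂ) *
      (E : ℂ)).re = ‖deriv h z‖ ^ 2 * (1 / (2 * μ) - 1 / (4 * μ ^ 3) * ‖h z‖ ^ 2) * E := by
    rw [← Complex.ofReal_mul, Complex.ofReal_re]; ring
  have e2 : ((μ : ℂ) * ((‖deriv F z‖ ^ 2 * (E * κ + E * (κ ^ 2 + κ * (t - 1) / q) * ‖F z‖ ^ 2) : ℝ) :
      ℂ)).re = μ * (‖deriv F z‖ ^ 2 * (E * κ + E * (κ ^ 2 + κ * (t - 1) / q) * ‖F z‖ ^ 2)) := by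
    rw [← Complex.ofReal_mul, Complex.ofReal_re]
  set X : ℂ := ((1 / (2 * μ) : ℝ) : ℂ) * (deriv h z * conj (h z)) with hX
  set Y : ℂ := ((E * κ : ℝ) : ℂ) * (deriv F z * conj (F z)) with hY
  have nX : ‖X‖ = 1 / (2 * μ) * (‖deriv h z‖ * ‖h z‖) := by
    rw [hX, norm_mul, norm_mul, RCLike.norm_conj, Complex.norm_real, Real.norm_of_nonneg (by positivity)]
  have nY : ‖Y‖ = E * κ * (‖deriv F z‖ * ‖F z‖) := by
    rw [hY, norm_mul, norm_mul, RCLike.norm_conj, Complex.norm_real, Real.norm_of_nonneg (by positivity)]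
  have e3 : -(‖X‖ * ‖Y‖) ≤ (X * conj Y).re := by
    have h1 := Complex.abs_re_le_norm (X * conj Y)
    rw [norm_mul, RCLike.norm_conj] at h1
    exact neg_le_of_abs_le h1
  have e4 : -(‖X‖ * ‖Y‖) ≤ (conj X * Y).re := by
    have h1 := Complex.abs_re_le_norm (conj X * Y)
    rw [norm_mul, RCLike.norm_conj] at h1
    exact neg_le_of_abs_le h1
  rw [nX, nY] at e3 e4
  have e5 := e1.ge
  have e6 := e2.ge
  linarith

lemma io {f : ℂ → ℂ} {r : ℝ} (hf : ContinuousOn f (closedBall 0 r)) :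
    IntegrableOn f (ball (0 : ℂ) r) :=
  (hf.integrableOn_compact (isCompact_closedBall 0 r)).mono_set ball_subset_closedBall

lemma ior {f : ℂ → ℝ} {r : ℝ} (hf : ContinuousOn f (closedBall 0 r)) :
    IntegrableOn f (ball (0 : ℂ) r) :=
  (hf.integrableOn_compact (isCompact_closedBall 0 r)).mono_set ball_subset_closedBall

lemma re_int {f : ℂ → ℂ} {μ : Measure ℂ} (hf : Integrable f μ) :
    (∫ a, f a ∂μ).re = ∫ a, (f a).re ∂μ := (Complex.reCLM.integral_comp_comm hf).symm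

lemma contF {f : ℂ → ℂ} (hf : DifferentiableOn ℂ f (ball 0 1)) {r : ℝ} (hr : r < 1) :
    ContinuousOn f (closedBall 0 r) := hf.continuousOn.mono (closedBall_subset_ball hr)

/-- the area estimate -/
lemma area_est {F h : ℂ → ℂ} (hF : DifferentiableOn ℂ F (ball 0 1))
    (hh : DifferentiableOn ℂ h (ball 0 1)) {r : ℝ} (hr0 : 0 < r) (hr : r < 1) {ε δ t N : ℝ}
    (hε : 0 < ε) (hδ : 0 < δ) (ht : 0 < t) (hN : 0 < N)
    (hM : ∀ z ∈ closedBall (0 : ℂ) r, (‖F z‖ ^ 2 + ε) ^ t ≤ N) :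
    ∫ z in ball (0 : ℂ) r, (r ^ 2 - ‖z‖ ^ 2) *
        (‖h z‖ * ‖deriv F z‖ ^ 2 * (‖F z‖ ^ 2 + ε) ^ (t - 1)) ≤
      (r ^ 2 * Real.exp 1 / 2 * N / (t * min 1 t)) *
        ∫ θ in (-π)..π, √(‖h (circleMap 0 r θ)‖ ^ 2 + δ) := by
  set c : ℝ := 1 / N with hc
  have hc0 : 0 < c := by positivity
  have hm0 : 0 < min 1 t := by positivity
  have hpi : -π ≤ π := by linarith [Real.pi_pos]
  obtain ⟨A, B, A', B', hU, hA, hB⟩ := exists_U hF hh hr hε hδ ht hc0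
  set U : ℂ → ℝ := fun z => √(‖h z‖ ^ 2 + δ) * Real.exp (c * (‖F z‖ ^ 2 + ε) ^ t) with hUd
  have hU0 : ∀ z, 0 ≤ U z := fun z => by positivity
  have g1 := green1 hr0 hU
  have g2 := green2 hr0 hA
  have iU : IntegrableOn (fun z => (U z : ℂ)) (ball 0 r) := io hU.c0
  have iA : IntegrableOn (fun z => z * A z) (ball 0 r) := io (continuousOn_id.mul hU.ca)
  have hw : Continuous fun z : ℂ => ((r ^ 2 - ‖z‖ ^ 2 : ℝ) : ℂ) := by fun_prop
  have iB : IntegrableOn (fun z => ((r ^ 2 - ‖z‖ ^ 2 : ℝ) : ℂ) * B' z) (ball 0 r) :=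
    io (hw.continuousOn.mul hA.cb)
  rw [integral_add iU iA, g2, intervalIntegral.integral_ofReal] at g1
  have r1 := congrArg Complex.re g1
  rw [Complex.add_re, re_int iU, re_int iB, Complex.re_ofReal_mul, Complex.ofReal_re] at r1
  have hpos : 0 ≤ ∫ z in ball (0 : ℂ) r, ((U z : ℂ)).re :=
    integral_nonneg fun z => by simpa using hU0 z
  -- continuity facts
  have cF := contF hF hr
  have ch := contF hh hr
  have cF' := contF (hF.deriv isOpen_ball) hr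
  have hq0 : ∀ z, 0 < ‖F z‖ ^ 2 + ε := fun z => by positivity
  have cq : ∀ u : ℝ, ContinuousOn (fun z => (‖F z‖ ^ 2 + ε) ^ u) (closedBall 0 r) := fun u =>
    ContinuousOn.rpow_const ((cF.norm.pow 2).add continuousOn_const)
      (fun z _ => Or.inl (hq0 z).ne')
  have cint : ContinuousOn (fun z => (r ^ 2 - ‖z‖ ^ 2) *
        (‖h z‖ * ‖deriv F z‖ ^ 2 * (‖F z‖ ^ 2 + ε) ^ (t - 1))) (closedBall 0 r) := by
    refine ContinuousOn.mul (by fun_prop) ((ch.norm.mul (cF'.norm.pow 2)).mul (cq _))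
  have m1 : (c * t * min 1 t) * ∫ z in ball (0 : ℂ) r, (r ^ 2 - ‖z‖ ^ 2) *
        (‖h z‖ * ‖deriv F z‖ ^ 2 * (‖F z‖ ^ 2 + ε) ^ (t - 1)) ≤
      ∫ z in ball (0 : ℂ) r, (((r ^ 2 - ‖z‖ ^ 2 : ℝ) : ℂ) * B' z).re := by
    rw [← integral_const_mul]
    apply setIntegral_mono_on ((ior cint).const_mul _) iB.re measurableSet_ball
    intro z hz
    rw [mem_ball_zero_iff] at hz
    have hz2 : 0 ≤ r ^ 2 - ‖z‖ ^ 2 := by nlinarith [norm_nonneg z]
    have h1 := mul_le_mul_of_nonneg_left (hB z) hz2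
    have h2 : (((r ^ 2 - ‖z‖ ^ 2 : ℝ) : ℂ) * B' z).re = (r ^ 2 - ‖z‖ ^ 2) * (B' z).re := by
      rw [Complex.re_ofReal_mul]
    show _ ≤ (((r ^ 2 - ‖z‖ ^ 2 : ℝ) : ℂ) * B' z).re
    rw [h2]
    refine le_trans (le_of_eq ?_) h1
    ring
  have m2 : ∫ θ in (-π)..π, U (circleMap 0 r θ) ≤
      Real.exp 1 * ∫ θ in (-π)..π, √(‖h (circleMap 0 r θ)‖ ^ 2 + δ) := by
    rw [← intervalIntegral.integral_const_mul]
    have cc : Continuous fun θ : ℝ => ‖h (circleMap 0 r θ)‖ := (comp_circ' ch hr0.le le_rfl).norm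
    have cUc : Continuous fun θ : ℝ => ((U (circleMap 0 r θ) : ℝ) : ℂ) :=
      comp_circ' hU.c0 hr0.le le_rfl
    have cU : Continuous fun θ : ℝ => U (circleMap 0 r θ) := by
      have := Complex.continuous_re.comp cUc
      simpa [Function.comp_def] using this
    apply intervalIntegral.integral_mono_on hpi
    · exact cU.intervalIntegrable _ _
    · apply Continuous.intervalIntegrable
      exact continuous_const.mul (((cc.pow 2).add continuous_const).sqrt)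
    · intro θ _
      have h1 := hM (circleMap 0 r θ) (circ_mem hr0.le le_rfl θ)
      have h2 : c * (‖F (circleMap 0 r θ)‖ ^ 2 + ε) ^ t ≤ 1 := by
        rw [hc, one_div, inv_mul_le_iff₀ hN]
        simpa using h1
      rw [mul_comm (Real.exp 1)]
      exact mul_le_mul_of_nonneg_left (Real.exp_le_exp.mpr h2) (Real.sqrt_nonneg _)
  have m3 : (c * t * min 1 t) * ∫ z in ball (0 : ℂ) r, (r ^ 2 - ‖z‖ ^ 2) *
        (‖h z‖ * ‖deriv F z‖ ^ 2 * (‖F z‖ ^ 2 + ε) ^ (t - 1)) ≤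
      r ^ 2 / 2 * (Real.exp 1 * ∫ θ in (-π)..π, √(‖h (circleMap 0 r θ)‖ ^ 2 + δ)) := by
    have h1 := mul_le_mul_of_nonneg_left m2 (by positivity : 0 ≤ r ^ 2 / 2)
    linarith
  have hk : 0 < c * t * min 1 t := by positivity
  have m4 := (le_div_iff₀' hk).mpr m3
  refine m4.trans (le_of_eq ?_)
  rw [hc]
  field_simp

lemma area_est' {F h : ℂ → ℂ} (hF : DifferentiableOn ℂ F (ball 0 1))
    (hh : DifferentiableOn ℂ h (ball 0 1)) {r : ℝ} (hr0 : 0 < r) (hr : r < 1) {ε t N : ℝ}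
    (hε : 0 < ε) (ht : 0 < t) (hN : 0 < N)
    (hM : ∀ z ∈ closedBall (0 : ℂ) r, (‖F z‖ ^ 2 + ε) ^ t ≤ N) :
    ∫ z in ball (0 : ℂ) r, (r ^ 2 - ‖z‖ ^ 2) *
        (‖h z‖ * ‖deriv F z‖ ^ 2 * (‖F z‖ ^ 2 + ε) ^ (t - 1)) ≤
      (r ^ 2 * Real.exp 1 / 2 * N / (t * min 1 t)) *
        ∫ θ in (-π)..π, ‖h (circleMap 0 r θ)‖ := by
  have hm0 : 0 < min 1 t := by positivity
  have hpi : -π ≤ π := by linarith [Real.pi_pos]
  set K := (r ^ 2 * Real.exp 1 / 2 * N / (t * min 1 t)) with hK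
  have hK0 : 0 ≤ K := by positivity
  have cc : Continuous fun θ : ℝ => ‖h (circleMap 0 r θ)‖ :=
    (comp_circ' (contF hh hr) hr0.le le_rfl).norm
  have key : ∀ η : ℝ, 0 < η → ∫ z in ball (0 : ℂ) r, (r ^ 2 - ‖z‖ ^ 2) *
        (‖h z‖ * ‖deriv F z‖ ^ 2 * (‖F z‖ ^ 2 + ε) ^ (t - 1)) ≤
      (K * ∫ θ in (-π)..π, ‖h (circleMap 0 r θ)‖) + η := by
    intro η hη
    set δ := (η / (2 * π * (K + 1))) ^ 2 with hδ
    have hpi0 := Real.pi_pos
    have hx : 0 < η / (2 * π * (K + 1)) := by positivity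
    have h1 := area_est hF hh hr0 hr hε (δ := δ) (by positivity) ht hN hM
    refine h1.trans ?_
    have h2 : ∫ θ in (-π)..π, √(‖h (circleMap 0 r θ)‖ ^ 2 + δ) ≤
        ∫ θ in (-π)..π, (‖h (circleMap 0 r θ)‖ + η / (2 * π * (K + 1))) := by
      apply intervalIntegral.integral_mono_on hpi
      · exact (((cc.pow 2).add continuous_const).sqrt).intervalIntegrable _ _
      · exact (cc.add continuous_const).intervalIntegrable _ _
      · intro θ _
        rw [Real.sqrt_le_iff]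
        refine ⟨by positivity, ?_⟩
        rw [hδ]
        nlinarith [norm_nonneg (h (circleMap 0 r θ))]
    rw [intervalIntegral.integral_add (cc.intervalIntegrable _ _) (by simp),
      intervalIntegral.integral_const] at h2
    have h3 := mul_le_mul_of_nonneg_left h2 hK0
    refine h3.trans ?_
    rw [mul_add]
    have h4 : K * ((π - -π) • (η / (2 * π * (K + 1)))) ≤ η := by
      have : K * ((π - -π) • (η / (2 * π * (K + 1)))) = K / (K + 1) * η := by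
        simp only [smul_eq_mul]
        field_simp
        ring
      rw [this]
      have h5 : K / (K + 1) ≤ 1 := by
        rw [div_le_one (by positivity)]; linarith
      nlinarith
    linarith
  exact le_of_forall_pos_le_add key

/-- the constant -/
noncomputable def Cp (p : ℝ) : ℝ :=
  1 / 2 + |(p - 2) / 2| * (2 + |(p - 2) / 2 - 1|) *
    (Real.exp 1 / 2 / ((p - 1) / 2 * min 1 ((p - 1) / 2)))

lemma est_eps {F h : ℂ → ℂ} (hF : DifferentiableOn ℂ F (ball 0 1))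
    (hh : DifferentiableOn ℂ h (ball 0 1)) {r : ℝ} (hr0 : 0 < r) (hr : r < 1) {ε p N : ℝ}
    (hε : 0 < ε) (hp : 1 < p) (hN : 0 < N)
    (hM : ∀ z ∈ closedBall (0 : ℂ) r, (‖F z‖ ^ 2 + ε) ^ ((p - 1) / 2) ≤ N) :
    ‖∫ z in ball (0 : ℂ) r, (h z + z * deriv h z) *
      ((((‖F z‖ ^ 2 + ε) ^ ((p - 2) / 2) : ℝ) : ℂ) * conj (F z))‖ ≤
      Cp p * N * ∫ θ in (-π)..π, ‖h (circleMap 0 r θ)‖ := by
  set s := (p - 2) / 2 with hs
  set t := (p - 1) / 2 with ht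
  have ht0 : 0 < t := by rw [ht]; linarith
  have hm0 : 0 < min 1 t := by positivity
  have hpi : -π ≤ π := by linarith [Real.pi_pos]
  have hq0 : ∀ z, 0 < ‖F z‖ ^ 2 + ε := fun z => by positivity
  have hqS : ∀ z ∈ closedBall (0 : ℂ) r, ‖F z‖ ^ 2 + ε ∈ Ioi (0 : ℝ) := fun z _ => hq0 z
  have drp : ∀ u : ℝ, ∀ x ∈ Ioi (0 : ℝ), HasDerivAt (fun y : ℝ => y ^ u) (u * x ^ (u - 1)) x :=
    fun u x hx => Real.hasDerivAt_rpow_const (Or.inl (ne_of_gt hx))
  have crp : ∀ u : ℝ, ContinuousOn (fun y : ℝ => y ^ u) (Ioi 0) := fun u x hx =>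
    (Real.continuousAt_rpow_const x u (Or.inl (ne_of_gt hx))).continuousWithinAt
  have Sq := sw_sq hF hr ε
  have SF := SW.holo hF hr
  have Sh := SW.holo hh hr
  have SF' := SW.holo (hF.deriv isOpen_ball) hr
  have R1 := Sq.realComp hqS (drp s) (continuousOn_const.mul (crp (s - 1)))
  have R2 := Sq.realComp hqS (drp (s - 1)) (continuousOn_const.mul (crp (s - 1 - 1)))
  set W : ℂ → ℂ := fun z => (((‖F z‖ ^ 2 + ε) ^ (s - 1) : ℝ) : ℂ) * (conj (F z) * conj (F z)) with hW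
  set u : ℂ → ℂ := fun z => (((‖F z‖ ^ 2 + ε) ^ s : ℝ) : ℂ) * conj (F z) with hu
  have Su : SW u (fun z => (s : ℂ) * (deriv F z * W z)) _ r :=
    (R1.mul SF.conj').congr rfl (fun z _ => by
      simp only [hW, map_zero, mul_zero, add_zero]
      push_cast
      ring) (fun _ _ => rfl)
  have g1 := green1 hr0 (Sh.mul Su)
  have SW' := R2.mul (SF.conj'.mul SF.conj')
  set Ψ : ℂ → ℂ := fun z => (h z * deriv F z) * W z with hΨ
  obtain ⟨A, B, SΨ, hB⟩ : ∃ A B, SW Ψ A B r ∧ ∀ z, ‖B z‖ ≤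
      (2 + |s - 1|) * (‖h z‖ * ‖deriv F z‖ ^ 2 * (‖F z‖ ^ 2 + ε) ^ (t - 1)) := by
    refine ⟨_, _, (Sh.mul SF').mul SW', fun z => ?_⟩
    have q0 := hq0 z
    have p1 : 0 < (‖F z‖ ^ 2 + ε) ^ (s - 1) := Real.rpow_pos_of_pos q0 _
    have p2 : 0 < (‖F z‖ ^ 2 + ε) ^ (s - 1 - 1) := Real.rpow_pos_of_pos q0 _
    have k1 : (‖F z‖ ^ 2 + ε) ^ (s - 1) * ‖F z‖ ≤ (‖F z‖ ^ 2 + ε) ^ (t - 1) := by
      have h1 : ‖F z‖ ≤ (‖F z‖ ^ 2 + ε) ^ (1 / 2 : ℝ) := by
        rw [← Real.sqrt_eq_rpow]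
        apply Real.le_sqrt_of_sq_le
        linarith
      have h2 : (‖F z‖ ^ 2 + ε) ^ (t - 1) =
          (‖F z‖ ^ 2 + ε) ^ (s - 1) * (‖F z‖ ^ 2 + ε) ^ (1 / 2 : ℝ) := by
        rw [← Real.rpow_add q0]
        congr 1
        rw [hs, ht]; ring
      rw [h2]
      gcongr
    have k2 : (‖F z‖ ^ 2 + ε) ^ (s - 1 - 1) * (‖F z‖ ^ 2 * ‖F z‖) ≤
        (‖F z‖ ^ 2 + ε) ^ (t - 1) := by
      have h1 : (‖F z‖ ^ 2 + ε) ^ (s - 1 - 1) * (‖F z‖ ^ 2 + ε) = (‖F z‖ ^ 2 + ε) ^ (s - 1) := by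
        rw [Real.rpow_sub_one q0.ne' (s - 1)]
        field_simp
      calc (‖F z‖ ^ 2 + ε) ^ (s - 1 - 1) * (‖F z‖ ^ 2 * ‖F z‖)
          ≤ (‖F z‖ ^ 2 + ε) ^ (s - 1 - 1) * ((‖F z‖ ^ 2 + ε) * ‖F z‖) := by
            gcongr
            linarith
        _ = (‖F z‖ ^ 2 + ε) ^ (s - 1) * ‖F z‖ := by rw [← mul_assoc, h1]
        _ ≤ _ := k1
    simp only [mul_zero, zero_mul, add_zero, zero_add]
    rw [norm_mul, norm_mul]
    have n1 : ‖conj ((((s - 1) * (‖F z‖ ^ 2 + ε) ^ (s - 1 - 1) : ℝ) : ℂ) *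
        (deriv F z * conj (F z))) * (conj (F z) * conj (F z)) +
        (((‖F z‖ ^ 2 + ε) ^ (s - 1) : ℝ) : ℂ) *
          (conj (deriv F z) * conj (F z) + conj (F z) * conj (deriv F z))‖ ≤
        |s - 1| * ‖deriv F z‖ * ((‖F z‖ ^ 2 + ε) ^ (s - 1 - 1) * (‖F z‖ ^ 2 * ‖F z‖)) +
        2 * ‖deriv F z‖ * ((‖F z‖ ^ 2 + ε) ^ (s - 1) * ‖F z‖) := by
      refine (norm_add_le _ _).trans ?_
      rw [norm_mul, norm_mul, RCLike.norm_conj, norm_mul, norm_mul, norm_mul, RCLike.norm_conj,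
        Complex.norm_real, Complex.norm_real, norm_mul, Real.norm_of_nonneg p2.le,
        Real.norm_of_nonneg p1.le, Real.norm_eq_abs]
      have n2 : ‖conj (deriv F z) * conj (F z) + conj (F z) * conj (deriv F z)‖ ≤
          2 * (‖deriv F z‖ * ‖F z‖) := by
        refine (norm_add_le _ _).trans ?_
        rw [norm_mul, norm_mul, RCLike.norm_conj, RCLike.norm_conj]
        linarith
      have n3 := mul_le_mul_of_nonneg_left n2 p1.le
      nlinarith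
    have n4 := mul_le_mul_of_nonneg_left n1 (by positivity : 0 ≤ ‖h z‖ * ‖deriv F z‖)
    refine n4.trans ?_
    have n5 := mul_le_mul_of_nonneg_left k1 (by positivity : 0 ≤ 2 * (‖h z‖ * ‖deriv F z‖ ^ 2))
    have n6 := mul_le_mul_of_nonneg_left k2
      (by positivity : 0 ≤ |s - 1| * (‖h z‖ * ‖deriv F z‖ ^ 2))
    nlinarith
  have g2 := green2 hr0 SΨ
  have cF := contF hF hr
  have ch := contF hh hr
  have ch' := contF (hh.deriv isOpen_ball) hr
  have cF' := contF (hF.deriv isOpen_ball) hr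
  have cq : ∀ v : ℝ, ContinuousOn (fun z => (‖F z‖ ^ 2 + ε) ^ v) (closedBall 0 r) := fun v =>
    ContinuousOn.rpow_const ((cF.norm.pow 2).add continuousOn_const)
      (fun z _ => Or.inl (hq0 z).ne')
  have c1 : ContinuousOn (fun z => (h z + z * deriv h z) * u z) (closedBall 0 r) :=
    (ch.add (continuousOn_id.mul ch')).mul Su.c0
  have c2 : ContinuousOn (fun z => (s : ℂ) * (z * Ψ z)) (closedBall 0 r) :=
    continuousOn_const.mul (continuousOn_id.mul SΨ.c0)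
  have e1 : ∀ z, h z * u z + z * (deriv h z * u z + h z * ((s : ℂ) * (deriv F z * W z))) =
      (h z + z * deriv h z) * u z + (s : ℂ) * (z * Ψ z) := fun z => by
    simp only [hΨ]; ring
  simp_rw [e1] at g1
  rw [integral_add (io c1) (io c2), integral_const_mul, g2] at g1
  have e2 : ∫ z in ball (0 : ℂ) r, (h z + z * deriv h z) * u z =
      ((r ^ 2 / 2 : ℝ) : ℂ) * (∫ θ in (-π)..π, h (circleMap 0 r θ) * u (circleMap 0 r θ)) -
      (s : ℂ) * ∫ z in ball (0 : ℂ) r, ((r ^ 2 - ‖z‖ ^ 2 : ℝ) : ℂ) * B z := by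
    rw [← g1]; ring
  show ‖∫ z in ball (0 : ℂ) r, (h z + z * deriv h z) * u z‖ ≤ _
  rw [e2]
  set I := ∫ θ in (-π)..π, ‖h (circleMap 0 r θ)‖ with hI
  have hI0 : 0 ≤ I := intervalIntegral.integral_nonneg hpi fun θ _ => norm_nonneg _
  have nu : ∀ z ∈ closedBall (0 : ℂ) r, ‖u z‖ ≤ N := by
    intro z hz
    have q0 := hq0 z
    have p1 : 0 < (‖F z‖ ^ 2 + ε) ^ s := Real.rpow_pos_of_pos q0 _
    have h1 : ‖F z‖ ≤ (‖F z‖ ^ 2 + ε) ^ (1 / 2 : ℝ) := by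
      rw [← Real.sqrt_eq_rpow]
      apply Real.le_sqrt_of_sq_le
      linarith
    have h2 : (‖F z‖ ^ 2 + ε) ^ t =
        (‖F z‖ ^ 2 + ε) ^ s * (‖F z‖ ^ 2 + ε) ^ (1 / 2 : ℝ) := by
      rw [← Real.rpow_add q0]
      congr 1
      rw [hs, ht]; ring
    simp only [hu]
    rw [norm_mul, RCLike.norm_conj, Complex.norm_real, Real.norm_of_nonneg p1.le]
    refine le_trans ?_ (hM z hz)
    rw [h2]
    gcongr
  have b1 : ‖((r ^ 2 / 2 : ℝ) : ℂ) * (∫ θ in (-π)..π, h (circleMap 0 r θ) * u (circleMap 0 r θ))‖ ≤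
      1 / 2 * (N * I) := by
    rw [norm_mul, Complex.norm_real, Real.norm_of_nonneg (by positivity)]
    have hr2 : r ^ 2 / 2 ≤ 1 / 2 := by nlinarith
    have h3 : ‖∫ θ in (-π)..π, h (circleMap 0 r θ) * u (circleMap 0 r θ)‖ ≤ N * I := by
      refine (intervalIntegral.norm_integral_le_integral_norm hpi).trans ?_
      rw [hI, ← intervalIntegral.integral_const_mul]
      have k1 := comp_circ' ch hr0.le le_rfl
      have k2 := comp_circ' Su.c0 hr0.le le_rfl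
      apply intervalIntegral.integral_mono_on hpi
      · exact (k1.mul k2).norm.intervalIntegrable _ _
      · exact (continuous_const.mul k1.norm).intervalIntegrable _ _
      · intro θ _
        rw [norm_mul, mul_comm N]
        exact mul_le_mul_of_nonneg_left (nu _ (circ_mem hr0.le le_rfl θ)) (norm_nonneg _)
    exact mul_le_mul hr2 h3 (norm_nonneg _) (by norm_num)
  have b2 : ‖∫ z in ball (0 : ℂ) r, ((r ^ 2 - ‖z‖ ^ 2 : ℝ) : ℂ) * B z‖ ≤
      (2 + |s - 1|) * ((Real.exp 1 / 2 / (t * min 1 t)) * (N * I)) := by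
    refine (norm_integral_le_integral_norm _).trans ?_
    have cint : ContinuousOn (fun z => (r ^ 2 - ‖z‖ ^ 2) *
        (‖h z‖ * ‖deriv F z‖ ^ 2 * (‖F z‖ ^ 2 + ε) ^ (t - 1))) (closedBall 0 r) := by
      refine ContinuousOn.mul (by fun_prop) ((ch.norm.mul (cF'.norm.pow 2)).mul (cq _))
    have hw : Continuous fun z : ℂ => ((r ^ 2 - ‖z‖ ^ 2 : ℝ) : ℂ) := by fun_prop
    have h4 : ∫ z in ball (0 : ℂ) r, ‖((r ^ 2 - ‖z‖ ^ 2 : ℝ) : ℂ) * B z‖ ≤
        ∫ z in ball (0 : ℂ) r, (2 + |s - 1|) * ((r ^ 2 - ‖z‖ ^ 2) *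
        (‖h z‖ * ‖deriv F z‖ ^ 2 * (‖F z‖ ^ 2 + ε) ^ (t - 1))) := by
      apply setIntegral_mono_on
      · exact (io (hw.continuousOn.mul SΨ.cb)).norm
      · exact (ior cint).const_mul _
      · exact measurableSet_ball
      · intro z hz
        rw [mem_ball_zero_iff] at hz
        have hz2 : 0 ≤ r ^ 2 - ‖z‖ ^ 2 := by nlinarith [norm_nonneg z]
        rw [norm_mul, Complex.norm_real, Real.norm_of_nonneg hz2]
        have := mul_le_mul_of_nonneg_left (hB z) hz2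
        linarith
    refine h4.trans ?_
    rw [integral_const_mul]
    apply mul_le_mul_of_nonneg_left _ (by positivity)
    refine (area_est' hF hh hr0 hr hε ht0 hN hM).trans ?_
    rw [← hI]
    have h5 : r ^ 2 * Real.exp 1 / 2 * N / (t * min 1 t) * I =
        r ^ 2 * ((Real.exp 1 / 2 / (t * min 1 t)) * (N * I)) := by ring
    rw [h5]
    have hr2 : r ^ 2 ≤ 1 := by nlinarith
    have h6 : 0 ≤ (Real.exp 1 / 2 / (t * min 1 t)) * (N * I) := by positivity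
    nlinarith
  have b3 : ‖(s : ℂ) * ∫ z in ball (0 : ℂ) r, ((r ^ 2 - ‖z‖ ^ 2 : ℝ) : ℂ) * B z‖ ≤
      |s| * ((2 + |s - 1|) * ((Real.exp 1 / 2 / (t * min 1 t)) * (N * I))) := by
    rw [norm_mul, Complex.norm_real, Real.norm_eq_abs]
    exact mul_le_mul_of_nonneg_left b2 (abs_nonneg _)
  refine (norm_sub_le _ _).trans ((add_le_add b1 b3).trans (le_of_eq ?_))
  rw [Cp, ← hs, ← ht]
  ring

/-- the duality function -/
noncomputable def Ph (p : ℝ) (w : ℂ) : ℂ := ((‖w‖ ^ (p - 2) : ℝ) : ℂ) * conj w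

lemma sq_rpow_half (x u : ℝ) (hx : 0 ≤ x) : (x ^ 2) ^ (u / 2) = x ^ u := by
  rw [← Real.rpow_natCast x 2, ← Real.rpow_mul hx]
  congr 1
  push_cast
  ring

theorem main_est {F h : ℂ → ℂ} (hF : DifferentiableOn ℂ F (ball 0 1))
    (hh : DifferentiableOn ℂ h (ball 0 1)) {M p : ℝ} (hp : 1 < p) (hM0 : 0 < M)
    (hM : ∀ z ∈ ball (0 : ℂ) 1, ‖F z‖ ≤ M) {r : ℝ} (hr0 : 0 < r) (hr : r < 1) :
    ‖∫ z in ball (0 : ℂ) r, (h z + z * deriv h z) * Ph p (F z)‖ ≤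
      Cp p * M ^ (p - 1) * ∫ θ in (-π)..π, ‖h (circleMap 0 r θ)‖ := by
  have ht0 : 0 < (p - 1) / 2 := by linarith
  set e : ℕ → ℝ := fun n => 1 / ((n : ℝ) + 1) with he
  have he0 : ∀ n, 0 < e n := fun n => by positivity
  have he1 : ∀ n, e n ≤ 1 := fun n => by
    simp only [he]
    rw [div_le_one (by positivity)]
    have : (0 : ℝ) ≤ n := Nat.cast_nonneg n
    linarith
  have het : Tendsto e atTop (𝓝 0) := tendsto_one_div_add_atTop_nhds_zero_nat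
  have hq0 : ∀ n z, 0 < ‖F z‖ ^ 2 + e n := fun n z => by
    have := he0 n
    positivity
  have cF := contF hF hr
  have ch := contF hh hr
  have ch' := contF (hh.deriv isOpen_ball) hr
  have cq : ∀ n, ∀ v : ℝ, ContinuousOn (fun z => (‖F z‖ ^ 2 + e n) ^ v) (closedBall 0 r) :=
    fun n v => ContinuousOn.rpow_const ((cF.norm.pow 2).add continuousOn_const)
      (fun z _ => Or.inl (hq0 n z).ne')
  have cd : ContinuousOn (fun z => h z + z * deriv h z) (closedBall 0 r) :=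
    ch.add (continuousOn_id.mul ch')
  have hFM : ∀ z ∈ closedBall (0 : ℂ) r, ‖F z‖ ≤ M := fun z hz => hM z (closedBall_subset_ball hr hz)
  have l1 : Tendsto (fun n => ∫ z in ball (0 : ℂ) r, (h z + z * deriv h z) *
      ((((‖F z‖ ^ 2 + e n) ^ ((p - 2) / 2) : ℝ) : ℂ) * conj (F z))) atTop
      (𝓝 (∫ z in ball (0 : ℂ) r, (h z + z * deriv h z) * Ph p (F z))) := by
    apply tendsto_integral_of_dominated_convergence
      (bound := fun z => ‖h z + z * deriv h z‖ * (M ^ 2 + 1) ^ ((p - 1) / 2))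
    · intro n
      refine (io (cd.mul ((Complex.continuous_ofReal.comp_continuousOn (cq n _)).mul
        (Complex.continuous_conj.comp_continuousOn cF)))).aestronglyMeasurable
    · exact (ior cd.norm).mul_const _
    · intro n
      refine (ae_restrict_iff' measurableSet_ball).mpr (Eventually.of_forall fun z hz => ?_)
      have hz' : z ∈ closedBall (0 : ℂ) r := ball_subset_closedBall hz
      rw [norm_mul]
      apply mul_le_mul_of_nonneg_left _ (norm_nonneg _)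
      have q0 := hq0 n z
      have p1 : 0 < (‖F z‖ ^ 2 + e n) ^ ((p - 2) / 2) := Real.rpow_pos_of_pos q0 _
      have h1 : ‖F z‖ ≤ (‖F z‖ ^ 2 + e n) ^ (1 / 2 : ℝ) := by
        rw [← Real.sqrt_eq_rpow]
        apply Real.le_sqrt_of_sq_le
        linarith [he0 n]
      have h2 : (‖F z‖ ^ 2 + e n) ^ ((p - 1) / 2) =
          (‖F z‖ ^ 2 + e n) ^ ((p - 2) / 2) * (‖F z‖ ^ 2 + e n) ^ (1 / 2 : ℝ) := by
        rw [← Real.rpow_add q0]
        congr 1
        ring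
      rw [norm_mul, RCLike.norm_conj, Complex.norm_real, Real.norm_of_nonneg p1.le]
      calc (‖F z‖ ^ 2 + e n) ^ ((p - 2) / 2) * ‖F z‖
          ≤ (‖F z‖ ^ 2 + e n) ^ ((p - 2) / 2) * (‖F z‖ ^ 2 + e n) ^ (1 / 2 : ℝ) := by gcongr
        _ = (‖F z‖ ^ 2 + e n) ^ ((p - 1) / 2) := h2.symm
        _ ≤ (M ^ 2 + 1) ^ ((p - 1) / 2) := by
          have := hFM z hz'
          have := he1 n
          gcongr
    · refine Eventually.of_forall fun z => ?_
      apply Tendsto.const_mul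
      simp only [Ph]
      by_cases hz : F z = 0
      · simp [hz]
      · apply Tendsto.mul_const
        apply (Complex.continuous_ofReal.tendsto _).comp
        have h3 : Tendsto (fun n => ‖F z‖ ^ 2 + e n) atTop (𝓝 (‖F z‖ ^ 2)) := by
          simpa using (tendsto_const_nhds (x := ‖F z‖ ^ 2)).add het
        have h4 := (Real.continuousAt_rpow_const (‖F z‖ ^ 2) ((p - 2) / 2)
          (Or.inl (by positivity))).tendsto.comp h3
        rw [sq_rpow_half _ _ (norm_nonneg _)] at h4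
        exact h4
  have l2 : Tendsto (fun n => Cp p * (M ^ 2 + e n) ^ ((p - 1) / 2) *
      ∫ θ in (-π)..π, ‖h (circleMap 0 r θ)‖) atTop
      (𝓝 (Cp p * M ^ (p - 1) * ∫ θ in (-π)..π, ‖h (circleMap 0 r θ)‖)) := by
    apply Tendsto.mul_const
    apply Tendsto.const_mul
    have h3 : Tendsto (fun n => M ^ 2 + e n) atTop (𝓝 (M ^ 2)) := by
      simpa using (tendsto_const_nhds (x := M ^ 2)).add het
    have h4 := (Real.continuousAt_rpow_const (M ^ 2) ((p - 1) / 2)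
      (Or.inl (by positivity))).tendsto.comp h3
    rw [sq_rpow_half _ _ hM0.le] at h4
    exact h4
  refine le_of_tendsto_of_tendsto' l1.norm l2 fun n => ?_
  apply est_eps hF hh hr0 hr (he0 n) hp (Real.rpow_pos_of_pos (by have := he0 n; positivity) _)
  intro z hz
  have := hFM z hz
  have := he0 n
  gcongr

end Pool.Agent.Q94.BX
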