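import Pool.Agent.Q94.BXB

/-!
The variational identity.
-/

set_option autoImplicit false

open Metric Filter Topology MeasureTheory Real Set

namespace Pool.Agent.Q94.BX

open scoped ComplexConjugate

lemma norm_Ph {p : ℝ} (hp : 1 < p) (w : ℂ) : ‖Ph p w‖ = ‖w‖ ^ (p - 1) := by
  by_cases hw : w = 0
  · subst hw
    simp [Ph, Real.zero_rpow (by linarith : p - 1 ≠ 0)]
  · have h0 : 0 < ‖w‖ := norm_pos_iff.mpr hw
    have h1 : 0 < ‖w‖ ^ (p - 2) := Real.rpow_pos_of_pos h0 _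
    rw [Ph, norm_mul, RCLike.norm_conj, Complex.norm_real, Real.norm_of_nonneg h1.le,
      ← Real.rpow_add_one h0.ne']
    congr 1
    ring

lemma continuous_Ph {p : ℝ} (hp : 1 < p) : Continuous (Ph p) := by
  rw [continuous_iff_continuousAt]
  intro w
  by_cases hw : w = 0
  · subst hw
    have h0 : Ph p 0 = 0 := by simp [Ph]
    rw [ContinuousAt, h0, tendsto_zero_iff_norm_tendsto_zero]
    have h1 : Tendsto (fun w : ℂ => ‖w‖ ^ (p - 1)) (𝓝 0) (𝓝 (‖(0 : ℂ)‖ ^ (p - 1))) :=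
      (continuous_norm.rpow_const (fun _ => Or.inr (by linarith))).tendsto 0
    rw [norm_zero, Real.zero_rpow (by linarith : p - 1 ≠ 0)] at h1
    refine h1.congr fun w => (norm_Ph hp w).symm
  · have h1 : ContinuousAt (fun w : ℂ => ‖w‖ ^ (p - 2)) w :=
      continuous_norm.continuousAt.rpow_const (Or.inl (norm_ne_zero_iff.mpr hw))
    exact (Complex.continuous_ofReal.continuousAt.comp h1).mul
      Complex.continuous_conj.continuousAt

/-- the gradient inequality -/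
lemma grad_ineq {p : ℝ} (hp : 1 < p) (a b : ℂ) :
    ‖a‖ ^ p + p * (Ph p a * (b - a)).re ≤ ‖b‖ ^ p := by
  have hp0 : 0 < p := by linarith
  have hq := Real.HolderConjugate.conjExponent hp
  have y := Real.young_inequality_of_nonneg (norm_nonneg b)
    (Real.rpow_nonneg (norm_nonneg a) (p - 1)) hq
  have e1 : (‖a‖ ^ (p - 1)) ^ p.conjExponent = ‖a‖ ^ p := by
    rw [← Real.rpow_mul (norm_nonneg a)]
    congr 1
    rw [Real.conjExponent]
    have : p - 1 ≠ 0 := by linarith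
    field_simp
  rw [e1] at y
  have e2 : ‖a‖ ^ p / p.conjExponent = (p - 1) / p * ‖a‖ ^ p := by
    rw [Real.conjExponent]
    have : p - 1 ≠ 0 := by linarith
    field_simp
  rw [e2] at y
  have e3 : (Ph p a * (b - a)).re = (Ph p a * b).re - ‖a‖ ^ p := by
    rw [mul_sub, Complex.sub_re]
    congr 1
    rw [Ph, mul_assoc, mul_comm (conj a) a, Complex.mul_conj, Complex.normSq_eq_norm_sq]
    by_cases ha : a = 0
    · subst ha
      simp [Real.zero_rpow hp0.ne']
    · have h0 : 0 < ‖a‖ := norm_pos_iff.mpr ha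
      rw [← Complex.ofReal_mul, Complex.ofReal_re, ← Real.rpow_natCast ‖a‖ 2, ← Real.rpow_add h0]
      congr 1
      push_cast
      ring
  have e4 : (Ph p a * b).re ≤ ‖b‖ * ‖a‖ ^ (p - 1) := by
    refine (Complex.re_le_norm _).trans (le_of_eq ?_)
    rw [norm_mul, norm_Ph hp, mul_comm]
  rw [e3]
  have y2 : p * (‖b‖ * ‖a‖ ^ (p - 1)) ≤ ‖b‖ ^ p + (p - 1) * ‖a‖ ^ p := by
    have := mul_le_mul_of_nonneg_left y hp0.le
    refine this.trans (le_of_eq ?_)
    field_simp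
  nlinarith

lemma int_bdd {f : ℂ → ℂ} (hf : ContinuousOn f (ball 0 1)) {B : ℝ}
    (hB : ∀ z ∈ ball (0 : ℂ) 1, ‖f z‖ ≤ B) : IntegrableOn f (ball (0 : ℂ) 1) := by
  refine Integrable.mono' (integrableOn_const (C := B) measure_ball_lt_top.ne)
    (hf.aestronglyMeasurable measurableSet_ball) ?_
  exact (ae_restrict_iff' measurableSet_ball).mpr (Eventually.of_forall hB)

lemma int_bddr {f : ℂ → ℝ} (hf : ContinuousOn f (ball 0 1)) {B : ℝ}
    (hB : ∀ z ∈ ball (0 : ℂ) 1, ‖f z‖ ≤ B) : IntegrableOn f (ball (0 : ℂ) 1) := by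
  refine Integrable.mono' (integrableOn_const (C := B) measure_ball_lt_top.ne)
    (hf.aestronglyMeasurable measurableSet_ball) ?_
  exact (ae_restrict_iff' measurableSet_ball).mpr (Eventually.of_forall hB)

lemma L1_of_Lq {k : ℂ → ℂ} (hk : DifferentiableOn ℂ k (ball 0 1)) {q : ℝ} (hq : 1 ≤ q)
    (hi : IntegrableOn (fun z => ‖k z‖ ^ q) (ball (0 : ℂ) 1)) : IntegrableOn k (ball (0 : ℂ) 1) := by
  have h1 : IntegrableOn (fun z => 1 + ‖k z‖ ^ q) (ball (0 : ℂ) 1) :=
    (integrableOn_const measure_ball_lt_top.ne).add hi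
  refine Integrable.mono' h1 (hk.continuousOn.aestronglyMeasurable measurableSet_ball) ?_
  refine Eventually.of_forall fun z => ?_
  rcases le_total ‖k z‖ 1 with h | h
  · have : 0 ≤ ‖k z‖ ^ q := by positivity
    linarith
  · have := Real.self_le_rpow_of_one_le h hq
    linarith

/-- extremality, scaled -/
lemma scaled {p : ℝ} (hp : 1 < p) {k F : ℂ → ℂ}
    (hext : ∀ f : ℂ → ℂ, DifferentiableOn ℂ f (ball 0 1) →
      IntegrableOn (fun z => ‖f z‖ ^ p) (ball (0 : ℂ) 1) → ∫ z in ball (0 : ℂ) 1, ‖f z‖ ^ p = 1 →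
      (∫ z in ball (0 : ℂ) 1, f z * conj (k z)).re ≤ (∫ z in ball (0 : ℂ) 1, F z * conj (k z)).re)
    {f : ℂ → ℂ} (hf : DifferentiableOn ℂ f (ball 0 1)) {B : ℝ}
    (hB : ∀ z ∈ ball (0 : ℂ) 1, ‖f z‖ ≤ B) :
    (∫ z in ball (0 : ℂ) 1, f z * conj (k z)).re ≤
      (∫ z in ball (0 : ℂ) 1, F z * conj (k z)).re * (∫ z in ball (0 : ℂ) 1, ‖f z‖ ^ p) ^ (1 / p) := by
  have hp0 : 0 < p := by linarith
  have hfi : IntegrableOn (fun z => ‖f z‖ ^ p) (ball (0 : ℂ) 1) := by
    refine int_bddr (hf.continuousOn.norm.rpow_const (fun _ _ => Or.inr hp0.le)) (B := B ^ p) ?_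
    intro z hz
    rw [Real.norm_of_nonneg (by positivity)]
    have := hB z hz
    gcongr
  have hN0 : 0 ≤ ∫ z in ball (0 : ℂ) 1, ‖f z‖ ^ p := integral_nonneg fun z => by positivity
  rcases hN0.eq_or_lt with hN | hN
  · have h1 : (fun z => ‖f z‖ ^ p) =ᵐ[volume.restrict (ball (0 : ℂ) 1)] 0 :=
      (integral_eq_zero_iff_of_nonneg (fun z => by positivity) hfi).mp hN.symm
    have h2 : ∫ z in ball (0 : ℂ) 1, f z * conj (k z) = 0 := by
      apply integral_eq_zero_of_ae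
      filter_upwards [h1] with z hz
      have h3 : ‖f z‖ ^ p = 0 := hz
      rw [Real.rpow_eq_zero (norm_nonneg _) hp0.ne'] at h3
      simp [norm_eq_zero.mp h3]
    rw [h2, ← hN, Real.zero_rpow (by positivity)]
    simp
  · set N := ∫ z in ball (0 : ℂ) 1, ‖f z‖ ^ p with hNd
    set c : ℝ := N ^ (-(1 / p)) with hc
    have hc0 : 0 < c := Real.rpow_pos_of_pos hN _
    have hcp : c ^ p = N⁻¹ := by
      rw [hc, ← Real.rpow_mul hN.le, ← Real.rpow_neg_one]
      congr 1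
      field_simp
    have e1 : ∀ z, ‖(c : ℂ) * f z‖ ^ p = c ^ p * ‖f z‖ ^ p := fun z => by
      rw [norm_mul, Complex.norm_real, Real.norm_of_nonneg hc0.le,
        Real.mul_rpow hc0.le (norm_nonneg _)]
    have h1 := hext (fun z => (c : ℂ) * f z) (hf.const_mul _)
      (by simp_rw [e1]; exact hfi.const_mul _)
      (by simp_rw [e1]; rw [integral_const_mul, hcp, ← hNd, inv_mul_cancel₀ hN.ne'])
    have e2 : ∫ z in ball (0 : ℂ) 1, (c : ℂ) * f z * conj (k z) =
        (c : ℂ) * ∫ z in ball (0 : ℂ) 1, f z * conj (k z) := by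
      rw [← integral_const_mul]
      congr 1
      funext z
      ring
    rw [e2, Complex.re_ofReal_mul] at h1
    have h2 : c * N ^ (1 / p) = 1 := by
      rw [hc, ← Real.rpow_add hN]
      simp
    have h3 : 0 ≤ N ^ (1 / p) := by positivity
    have h4 := mul_le_mul_of_nonneg_right h1 h3
    calc (∫ z in ball (0 : ℂ) 1, f z * conj (k z)).re
        = (c * N ^ (1 / p)) * (∫ z in ball (0 : ℂ) 1, f z * conj (k z)).re := by rw [h2, one_mul]
      _ = c * (∫ z in ball (0 : ℂ) 1, f z * conj (k z)).re * N ^ (1 / p) := by ring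
      _ ≤ _ := h4

lemma var_re {p q : ℝ} (hp : 1 < p) (hq : 1 < q) {k F : ℂ → ℂ}
    (hk : DifferentiableOn ℂ k (ball 0 1))
    (hkq : IntegrableOn (fun z => ‖k z‖ ^ q) (ball (0 : ℂ) 1))
    (hF : DifferentiableOn ℂ F (ball 0 1)) {M : ℝ} (hM : ∀ z ∈ ball (0 : ℂ) 1, ‖F z‖ ≤ M)
    (hF1 : ∫ z in ball (0 : ℂ) 1, ‖F z‖ ^ p = 1)
    (hext : ∀ f : ℂ → ℂ, DifferentiableOn ℂ f (ball 0 1) →
      IntegrableOn (fun z => ‖f z‖ ^ p) (ball (0 : ℂ) 1) → ∫ z in ball (0 : ℂ) 1, ‖f z‖ ^ p = 1 →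
      (∫ z in ball (0 : ℂ) 1, f z * conj (k z)).re ≤ (∫ z in ball (0 : ℂ) 1, F z * conj (k z)).re)
    (hΛ : 0 ≤ (∫ z in ball (0 : ℂ) 1, F z * conj (k z)).re)
    {g : ℂ → ℂ} (hg : DifferentiableOn ℂ g (ball 0 1)) {B : ℝ} (hB : ∀ z ∈ ball (0 : ℂ) 1, ‖g z‖ ≤ B) :
    (∫ z in ball (0 : ℂ) 1, g z * conj (k z)).re ≤
      (∫ z in ball (0 : ℂ) 1, F z * conj (k z)).re *
        (∫ z in ball (0 : ℂ) 1, g z * Ph p (F z)).re := by
  have hp0 : 0 < p := by linarith
  have hki := L1_of_Lq hk hq.le hkq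
  have hM0 : 0 ≤ M := (norm_nonneg _).trans (hM 0 (by simp))
  have hB0 : 0 ≤ B := (norm_nonneg _).trans (hB 0 (by simp))
  set Λ := (∫ z in ball (0 : ℂ) 1, F z * conj (k z)).re with hΛd
  have hconjk : IntegrableOn (fun z => conj (k z)) (ball (0 : ℂ) 1) :=
    Complex.conjCLE.toContinuousLinearMap.integrable_comp hki
  have hpair : ∀ {f : ℂ → ℂ}, DifferentiableOn ℂ f (ball 0 1) → ∀ {C : ℝ},
      (∀ z ∈ ball (0 : ℂ) 1, ‖f z‖ ≤ C) → IntegrableOn (fun z => f z * conj (k z)) (ball 0 1) := by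
    intro f hf C hC
    refine Integrable.bdd_mul (c := C) hconjk (hf.continuousOn.aestronglyMeasurable measurableSet_ball) ?_
    exact (ae_restrict_iff' measurableSet_ball).mpr (Eventually.of_forall hC)
  set τ : ℕ → ℝ := fun n => 1 / ((n : ℝ) + 1) with hτ
  have hτ0 : ∀ n, 0 < τ n := fun n => by positivity
  have hτ1 : ∀ n, τ n ≤ 1 := fun n => by
    simp only [hτ]
    rw [div_le_one (by positivity)]
    have : (0 : ℝ) ≤ n := Nat.cast_nonneg n
    linarith
  have hτt : Tendsto τ atTop (𝓝 0) := tendsto_one_div_add_atTop_nhds_zero_nat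
  have hfd : ∀ n, DifferentiableOn ℂ (fun z => F z + (τ n : ℂ) * g z) (ball 0 1) := fun n =>
    hF.add (hg.const_mul _)
  have hfb : ∀ n, ∀ z ∈ ball (0 : ℂ) 1, ‖F z + (τ n : ℂ) * g z‖ ≤ M + B := by
    intro n z hz
    refine (norm_add_le _ _).trans ?_
    rw [norm_mul, Complex.norm_real, Real.norm_of_nonneg (hτ0 n).le]
    have h1 := hM z hz
    have h2 := hB z hz
    have h3 : τ n * ‖g z‖ ≤ 1 * B := mul_le_mul (hτ1 n) h2 (norm_nonneg _) zero_le_one
    linarith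
  -- integrability
  have hΦb : ∀ n, ∀ z ∈ ball (0 : ℂ) 1, ‖g z * Ph p (F z + (τ n : ℂ) * g z)‖ ≤ B * (M + B) ^ (p - 1) := by
    intro n z hz
    rw [norm_mul, norm_Ph hp]
    have h1 := hB z hz
    have h2 := hfb n z hz
    have h3 : 0 ≤ p - 1 := by linarith
    gcongr
  have hΦc : ∀ n, ContinuousOn (fun z => g z * Ph p (F z + (τ n : ℂ) * g z)) (ball 0 1) := fun n =>
    hg.continuousOn.mul ((continuous_Ph hp).comp_continuousOn (hfd n).continuousOn)
  have hΦi : ∀ n, IntegrableOn (fun z => g z * Ph p (F z + (τ n : ℂ) * g z)) (ball 0 1) := fun n =>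
    int_bdd (hΦc n) (hΦb n)
  have hpi : ∀ {f : ℂ → ℂ}, DifferentiableOn ℂ f (ball 0 1) → ∀ {C : ℝ},
      (∀ z ∈ ball (0 : ℂ) 1, ‖f z‖ ≤ C) → IntegrableOn (fun z => ‖f z‖ ^ p) (ball (0 : ℂ) 1) := by
    intro f hf C hC
    refine int_bddr (hf.continuousOn.norm.rpow_const (fun _ _ => Or.inr hp0.le)) (B := C ^ p) ?_
    intro z hz
    rw [Real.norm_of_nonneg (by positivity)]
    have := hC z hz
    gcongr
  have step : ∀ n, (∫ z in ball (0 : ℂ) 1, g z * conj (k z)).re ≤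
      Λ * (∫ z in ball (0 : ℂ) 1, g z * Ph p (F z + (τ n : ℂ) * g z)).re := by
    intro n
    set R := (∫ z in ball (0 : ℂ) 1, g z * Ph p (F z + (τ n : ℂ) * g z)).re with hR
    have h1 := scaled hp hext (hfd n) (hfb n)
    rw [← hΛd] at h1
    have e1 : ∫ z in ball (0 : ℂ) 1, (F z + (τ n : ℂ) * g z) * conj (k z) =
        (∫ z in ball (0 : ℂ) 1, F z * conj (k z)) +
          (τ n : ℂ) * ∫ z in ball (0 : ℂ) 1, g z * conj (k z) := by
      rw [← integral_const_mul, ← integral_add (hpair hF hM) ((hpair hg hB).const_mul _)]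
      congr 1
      funext z
      ring
    rw [e1, Complex.add_re, Complex.re_ofReal_mul, ← hΛd] at h1
    have h2 : ∫ z in ball (0 : ℂ) 1, ‖F z + (τ n : ℂ) * g z‖ ^ p ≤ 1 + p * (τ n * R) := by
      have e2 : R = ∫ z in ball (0 : ℂ) 1, (g z * Ph p (F z + (τ n : ℂ) * g z)).re := by
        rw [hR, re_int (hΦi n)]
      have i1 : IntegrableOn (fun z => p * (τ n * (g z * Ph p (F z + (τ n : ℂ) * g z)).re))
        (ball 0 1) := ((hΦi n).re.const_mul _).const_mul _
      have e4 : ∫ z in ball (0 : ℂ) 1, (‖F z‖ ^ p +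
          p * (τ n * (g z * Ph p (F z + (τ n : ℂ) * g z)).re)) = 1 + p * (τ n * R) := by
        rw [integral_add (hpi hF hM) i1, hF1, integral_const_mul, integral_const_mul, e2]
      rw [← e4]
      apply integral_mono (hpi (hfd n) (hfb n))
        ((hpi hF hM).add (((hΦi n).re.const_mul _).const_mul _))
      intro z
      have h3 := grad_ineq hp (F z + (τ n : ℂ) * g z) (F z)
      have e3 : (Ph p (F z + (τ n : ℂ) * g z) * (F z - (F z + (τ n : ℂ) * g z))).re =
          -(τ n * (g z * Ph p (F z + (τ n : ℂ) * g z)).re) := by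
        rw [← Complex.re_ofReal_mul, ← Complex.neg_re]
        congr 1
        ring
      rw [e3] at h3
      show ‖F z + (τ n : ℂ) * g z‖ ^ p ≤ ‖F z‖ ^ p +
        p * (τ n * (g z * Ph p (F z + (τ n : ℂ) * g z)).re)
      linarith
    have h4 : 0 ≤ ∫ z in ball (0 : ℂ) 1, ‖F z + (τ n : ℂ) * g z‖ ^ p :=
      integral_nonneg fun z => by positivity
    have h5 : (∫ z in ball (0 : ℂ) 1, ‖F z + (τ n : ℂ) * g z‖ ^ p) ^ (1 / p) ≤ 1 + τ n * R := by
      calc _ ≤ (1 + p * (τ n * R)) ^ (1 / p) := by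
            apply Real.rpow_le_rpow h4 h2 (by positivity)
        _ ≤ 1 + 1 / p * (p * (τ n * R)) := by
            apply _root_.rpow_one_add_le_one_add_mul_self (by linarith) (by positivity)
            rw [div_le_one hp0]
            exact hp.le
        _ = 1 + τ n * R := by field_simp
    have h6 := mul_le_mul_of_nonneg_left h5 hΛ
    have h7 : τ n * (∫ z in ball (0 : ℂ) 1, g z * conj (k z)).re ≤ τ n * (Λ * R) := by linarith
    exact le_of_mul_le_mul_left h7 (hτ0 n)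
  have hlim : Tendsto (fun n => Λ * (∫ z in ball (0 : ℂ) 1, g z * Ph p (F z + (τ n : ℂ) * g z)).re)
      atTop (𝓝 (Λ * (∫ z in ball (0 : ℂ) 1, g z * Ph p (F z)).re)) := by
    apply Tendsto.const_mul
    apply (Complex.continuous_re.tendsto _).comp
    apply tendsto_integral_of_dominated_convergence (bound := fun _ => B * (M + B) ^ (p - 1))
    · intro n
      exact (hΦi n).aestronglyMeasurable
    · exact integrableOn_const measure_ball_lt_top.ne
    · intro n
      exact (ae_restrict_iff' measurableSet_ball).mpr (Eventually.of_forall (hΦb n))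
    · refine Eventually.of_forall fun z => ?_
      apply Tendsto.const_mul
      apply ((continuous_Ph hp).tendsto _).comp
      have h1 : Tendsto (fun n => ((τ n : ℝ) : ℂ)) atTop (𝓝 ((0 : ℝ) : ℂ)) :=
        (Complex.continuous_ofReal.tendsto _).comp hτt
      simpa using (h1.mul_const (g z)).const_add (F z)
  exact ge_of_tendsto' hlim step

theorem variation {p q : ℝ} (hp : 1 < p) (hq : 1 < q) {k F : ℂ → ℂ}
    (hk : DifferentiableOn ℂ k (ball 0 1))
    (hkq : IntegrableOn (fun z => ‖k z‖ ^ q) (ball (0 : ℂ) 1))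
    (hF : DifferentiableOn ℂ F (ball 0 1)) {M : ℝ} (hM : ∀ z ∈ ball (0 : ℂ) 1, ‖F z‖ ≤ M)
    (hF1 : ∫ z in ball (0 : ℂ) 1, ‖F z‖ ^ p = 1)
    (hext : ∀ f : ℂ → ℂ, DifferentiableOn ℂ f (ball 0 1) →
      IntegrableOn (fun z => ‖f z‖ ^ p) (ball (0 : ℂ) 1) → ∫ z in ball (0 : ℂ) 1, ‖f z‖ ^ p = 1 →
      (∫ z in ball (0 : ℂ) 1, f z * conj (k z)).re ≤ (∫ z in ball (0 : ℂ) 1, F z * conj (k z)).re) :
    ∃ Λ : ℝ, 0 ≤ Λ ∧ ∀ g : ℂ → ℂ, DifferentiableOn ℂ g (ball 0 1) →
      (∃ B, ∀ z ∈ ball (0 : ℂ) 1, ‖g z‖ ≤ B) →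
      ∫ z in ball (0 : ℂ) 1, g z * conj (k z) = Λ * ∫ z in ball (0 : ℂ) 1, g z * Ph p (F z) := by
  have hp0 : 0 < p := by linarith
  have hneg : ∀ (g : ℂ → ℂ) (G : ℂ → ℂ), ∫ z in ball (0 : ℂ) 1, (-g z) * G z =
      -∫ z in ball (0 : ℂ) 1, g z * G z := by
    intro g G
    rw [← integral_neg]
    congr 1
    funext z
    ring
  have hΛ : 0 ≤ (∫ z in ball (0 : ℂ) 1, F z * conj (k z)).re := by
    have h1 := hext (fun z => -F z) hF.neg (by
      simp only [norm_neg]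
      refine int_bddr (hF.continuousOn.norm.rpow_const (fun _ _ => Or.inr hp0.le)) (B := M ^ p) ?_
      intro z hz
      rw [Real.norm_of_nonneg (by positivity)]
      have := hM z hz
      gcongr) (by simpa only [norm_neg] using hF1)
    rw [hneg, Complex.neg_re] at h1
    linarith
  refine ⟨_, hΛ, ?_⟩
  have hre : ∀ g : ℂ → ℂ, DifferentiableOn ℂ g (ball 0 1) →
      (∃ B, ∀ z ∈ ball (0 : ℂ) 1, ‖g z‖ ≤ B) →
      (∫ z in ball (0 : ℂ) 1, g z * conj (k z)).re =
      (∫ z in ball (0 : ℂ) 1, F z * conj (k z)).re *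
        (∫ z in ball (0 : ℂ) 1, g z * Ph p (F z)).re := by
    rintro g hg ⟨B, hB⟩
    apply le_antisymm
    · exact var_re hp hq hk hkq hF hM hF1 hext hΛ hg hB
    · have h1 := var_re hp hq hk hkq hF hM hF1 hext hΛ hg.neg (B := B)
        (fun z hz => by simpa using hB z hz)
      have e1 := hneg g (fun z => conj (k z))
      have e2 := hneg g (fun z => Ph p (F z))
      simp only [Pi.neg_apply] at h1
      rw [e1, e2, Complex.neg_re, Complex.neg_re] at h1
      linarith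
  rintro g hg ⟨B, hB⟩
  have hI : ∀ G : ℂ → ℂ, ∫ z in ball (0 : ℂ) 1, (Complex.I * g z) * G z =
      Complex.I * ∫ z in ball (0 : ℂ) 1, g z * G z := by
    intro G
    rw [← integral_const_mul]
    congr 1
    funext z
    ring
  apply Complex.ext
  · rw [Complex.re_ofReal_mul]
    exact hre g hg ⟨B, hB⟩
  · rw [Complex.im_ofReal_mul]
    have h1 := hre (fun z => Complex.I * g z) (hg.const_mul _) ⟨B, fun z hz => by
      simpa using hB z hz⟩
    rw [hI, hI] at h1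
    simp at h1
    linarith

end Pool.Agent.Q94.BX
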