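import Pool.Agent.Q94.BXC

/-!
The duality estimate and the Garsia bound.
-/

set_option autoImplicit false

open Metric Filter Topology MeasureTheory Real Set

namespace Pool.Agent.Q94.BX

open scoped ComplexConjugate

lemma avg_eq {E : Type*} [NormedAddCommGroup E] [NormedSpace ℝ E] (f : ℂ → E) (R : ℝ) :
    ∫ θ in (-π)..π, f (circleMap 0 R θ) = (2 * π) • Real.circleAverage f 0 R := by
  have hper : Function.Periodic (fun θ : ℝ => f (circleMap 0 R θ)) (2 * π) := by
    intro θ
    simp only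
    rw [periodic_circleMap 0 R θ]
  have h1 := hper.intervalIntegral_add_eq (-π) 0
  have e1 : -π + 2 * π = π := by ring
  rw [e1, zero_add] at h1
  rw [h1, Real.circleAverage, smul_smul]
  have : (2 * π) * (2 * π)⁻¹ = 1 := mul_inv_cancel₀ (by positivity)
  rw [this, one_smul]

/-- the Poisson formula -/
lemma poisson_pi {f : ℂ → ℂ} {ρ R : ℝ} (hf : DifferentiableOn ℂ f (ball 0 ρ)) (hR : R < ρ) (hR0 : 0 < R)
    {w : ℂ} (hw : ‖w‖ < R) :
    ∫ θ in (-π)..π, ((poissonKernel 0 w (circleMap 0 R θ) : ℝ) : ℂ) * f (circleMap 0 R θ) =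
      2 * π * f w := by
  have h1 : DiffContOnCl ℂ f (ball 0 R) := by
    apply DifferentiableOn.diffContOnCl
    rw [closure_ball 0 hR0.ne']
    exact hf.mono (closedBall_subset_ball hR)
  have h2 := h1.circleAverage_poissonKernel_smul (w := w) (by simpa using hw)
  have h3 := avg_eq (poissonKernel 0 w • f) R
  rw [h2] at h3
  simpa [Pi.smul_apply', Complex.real_smul] using h3

lemma poisson_one {R : ℝ} (hR0 : 0 < R) {w : ℂ} (hw : ‖w‖ < R) :
    ∫ θ in (-π)..π, poissonKernel 0 w (circleMap 0 R θ) = 2 * π := by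
  have h1 := poisson_pi (f := fun _ => (1 : ℂ)) (ρ := R + 1) (differentiableOn_const _) (by linarith)
    hR0 hw
  simp only [mul_one] at h1
  rw [intervalIntegral.integral_ofReal] at h1
  exact_mod_cast h1

lemma pk_nonneg {R : ℝ} {w : ℂ} (hw : ‖w‖ < R) (θ : ℝ) :
    0 ≤ poissonKernel 0 w (circleMap 0 R θ) := by
  have hR0 : 0 < R := (norm_nonneg w).trans_lt hw
  rw [poissonKernel_def]
  apply div_nonneg _ (sq_nonneg _)
  simp only [sub_zero, norm_circleMap_zero, sq_abs]
  nlinarith [norm_nonneg w]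

/-- integral means increase -/
lemma means_mono {H : ℂ → ℂ} (hH : DifferentiableOn ℂ H (ball 0 1)) {x y : ℝ} (hx : 0 < x)
    (hxy : x < y) (hy : y < 1) :
    ∫ θ in (-π)..π, ‖H (circleMap 0 x θ)‖ ≤ ∫ θ in (-π)..π, ‖H (circleMap 0 y θ)‖ := by
  have hpi : -π ≤ π := by linarith [Real.pi_pos]
  have hy0 : 0 < y := hx.trans hxy
  have cx : Continuous fun θ : ℝ => H (circleMap 0 x θ) :=
    comp_circ' (contF hH (hxy.trans hy)) hx.le le_rfl
  have cy : Continuous fun θ : ℝ => H (circleMap 0 y θ) := comp_circ' (contF hH hy) hy0.le le_rfl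
  have hnx : ∀ θ : ℝ, ‖circleMap 0 x θ‖ < y := fun θ => by
    simp [abs_of_pos hx, hxy]
  have hne : ∀ θ φ : ℝ, circleMap 0 y φ - circleMap 0 x θ ≠ 0 := by
    intro θ φ h
    have h1 : ‖circleMap 0 y φ‖ = ‖circleMap 0 x θ‖ := by rw [sub_eq_zero.mp h]
    simp [abs_of_pos hx, abs_of_pos hy0] at h1
    linarith
  have cP : Continuous fun p : ℝ × ℝ => poissonKernel 0 (circleMap 0 x p.1) (circleMap 0 y p.2) := by
    simp only [poissonKernel_def, sub_zero]
    have c1 : Continuous fun p : ℝ × ℝ => circleMap 0 x p.1 := (continuous_circleMap 0 x).comp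
      continuous_fst
    have c2 : Continuous fun p : ℝ × ℝ => circleMap 0 y p.2 := (continuous_circleMap 0 y).comp
      continuous_snd
    apply ((c2.norm.pow 2).sub (c1.norm.pow 2)).div ((c2.sub c1).norm.pow 2)
    intro p
    exact (pow_pos (norm_pos_iff.mpr (hne p.1 p.2)) 2).ne'
  have hpt : ∀ θ : ℝ, (2 * π) * ‖H (circleMap 0 x θ)‖ ≤
      ∫ φ in (-π)..π, poissonKernel 0 (circleMap 0 x θ) (circleMap 0 y φ) * ‖H (circleMap 0 y φ)‖ := by
    intro θ
    have h1 := poisson_pi hH hy hy0 (hnx θ)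
    have h2 := congrArg norm h1
    have e1 : ‖(2 * π * H (circleMap 0 x θ) : ℂ)‖ = (2 * π) * ‖H (circleMap 0 x θ)‖ := by
      rw [norm_mul, norm_mul, Complex.norm_real, Real.norm_of_nonneg Real.pi_pos.le]
      simp
    rw [e1] at h2
    rw [← h2]
    refine (intervalIntegral.norm_integral_le_integral_norm hpi).trans (le_of_eq ?_)
    congr 1
    funext φ
    rw [norm_mul, Complex.norm_real, Real.norm_of_nonneg (pk_nonneg (hnx θ) φ)]
  have hsymm : ∀ θ φ : ℝ, poissonKernel 0 (circleMap 0 x θ) (circleMap 0 y φ) =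
      poissonKernel 0 (circleMap 0 x φ) (circleMap 0 y θ) := by
    intro θ φ
    simp only [poissonKernel_def, sub_zero, norm_circleMap_zero, sq_abs]
    congr 1
    have key : ∀ a b : ℝ, ‖circleMap 0 y a - circleMap 0 x b‖ ^ 2 =
        y ^ 2 + x ^ 2 - 2 * (x * y) * Real.cos (a - b) := by
      intro a b
      rw [← Complex.normSq_eq_norm_sq, Complex.normSq_apply]
      simp only [circleMap, zero_add, Complex.sub_re, Complex.sub_im, Complex.re_ofReal_mul,
        Complex.im_ofReal_mul, Complex.exp_ofReal_mul_I_re, Complex.exp_ofReal_mul_I_im]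
      rw [Real.cos_sub]
      nlinarith [Real.sin_sq_add_cos_sq a, Real.sin_sq_add_cos_sq b]
    rw [key, key]
    congr 2
    rw [← Real.cos_neg]
    congr 1
    ring
  have step : (2 * π) * ∫ θ in (-π)..π, ‖H (circleMap 0 x θ)‖ ≤
      ∫ θ in (-π)..π, ∫ φ in (-π)..π,
        poissonKernel 0 (circleMap 0 x θ) (circleMap 0 y φ) * ‖H (circleMap 0 y φ)‖ := by
    rw [← intervalIntegral.integral_const_mul]
    apply intervalIntegral.integral_mono_on hpi
    · exact (continuous_const.mul cx.norm).intervalIntegrable _ _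
    · apply Continuous.intervalIntegrable
      apply intervalIntegral.continuous_parametric_intervalIntegral_of_continuous' _ _ _
      exact cP.mul (cy.norm.comp continuous_snd)
    · intro θ _
      exact hpt θ
  have swap : ∫ θ in (-π)..π, ∫ φ in (-π)..π,
        poissonKernel 0 (circleMap 0 x θ) (circleMap 0 y φ) * ‖H (circleMap 0 y φ)‖ =
      (2 * π) * ∫ φ in (-π)..π, ‖H (circleMap 0 y φ)‖ := by
    rw [intervalIntegral_intervalIntegral_swap]
    · rw [← intervalIntegral.integral_const_mul]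
      apply intervalIntegral.integral_congr
      intro φ _
      simp only
      rw [intervalIntegral.integral_mul_const]
      congr 1
      simp_rw [hsymm _ φ]
      exact poisson_one hy0 (hnx φ)
    · have hc : Continuous fun p : ℝ × ℝ => poissonKernel 0 (circleMap 0 x p.1) (circleMap 0 y p.2) *
          ‖H (circleMap 0 y p.2)‖ := cP.mul (cy.norm.comp continuous_snd)
      rw [uIoc_of_le hpi]
      exact (hc.continuousOn.integrableOn_compact (isCompact_Icc.prod isCompact_Icc)).mono_set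
        (Set.prod_mono Ioc_subset_Icc_self Ioc_subset_Icc_self)
  rw [swap] at step
  exact le_of_mul_le_mul_left step (by positivity)

/-- the pairing of two functions on circles -/
noncomputable def J (H k : ℂ → ℂ) (x y : ℝ) : ℂ :=
  ∫ θ in (-π)..π, H (circleMap 0 x θ) * conj (k (circleMap 0 y θ))

lemma pair {H k : ℂ → ℂ} (hH : DifferentiableOn ℂ H (ball 0 1)) (hk : DifferentiableOn ℂ k (ball 0 1))
    {x x' y y' : ℝ} (hx : 0 < x) (hxx : x ≤ x') (hx' : x' < 1) (hy : y < 1) (hy0 : 0 < y)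
    (hc : x * y = x' * y') : J H k x y = J H k x' y' := by
  have hx'0 : 0 < x' := hx.trans_le hxx
  set c : ℝ := x * y with hcd
  have hc0 : 0 < c := by positivity
  set K : ℂ → ℂ := fun z => conj (k (conj z)) with hK
  have hKd : ∀ z : ℂ, ‖z‖ < 1 → DifferentiableAt ℂ K z := by
    intro z hz
    have h1 : DifferentiableAt ℂ k (conj z) :=
      hk.differentiableAt (isOpen_ball.mem_nhds (by simpa using hz))
    have h2 := h1.conj_conj
    rw [Complex.conj_conj] at h2
    exact h2
  set G : ℂ → ℂ := fun ζ => ζ⁻¹ * (H ζ * K (c / ζ)) with hG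
  have hGd : ∀ ζ : ℂ, x ≤ ‖ζ‖ → ‖ζ‖ ≤ x' → DifferentiableAt ℂ G ζ := by
    intro ζ h1 h2
    have h0 : ζ ≠ 0 := by
      intro h
      rw [h, norm_zero] at h1
      linarith
    have h3 : ‖(c : ℂ) / ζ‖ < 1 := by
      rw [norm_div, Complex.norm_real, Real.norm_of_nonneg hc0.le, div_lt_one (by linarith)]
      have : c < x := by rw [hcd]; nlinarith
      linarith
    have h4 : DifferentiableAt ℂ (fun ζ => K (c / ζ)) ζ :=
      (hKd _ h3).comp ζ ((differentiableAt_const _).div differentiableAt_id h0)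
    have h5 : DifferentiableAt ℂ H ζ :=
      hH.differentiableAt (isOpen_ball.mem_nhds (by simpa using h2.trans_lt hx'))
    exact (differentiableAt_inv h0).mul (h5.mul h4)
  have key := Complex.circleIntegral_eq_of_differentiable_on_annulus_off_countable
    (c := (0 : ℂ)) (f := G) hx hxx Set.countable_empty
    (by
      intro ζ hζ
      simp only [Set.mem_sdiff, mem_closedBall_zero_iff, mem_ball_zero_iff, not_lt] at hζ
      exact (hGd ζ hζ.2 hζ.1).continuousAt.continuousWithinAt)
    (by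
      intro ζ hζ
      simp only [Set.mem_sdiff, mem_closedBall_zero_iff, mem_ball_zero_iff, not_le] at hζ
      exact hGd ζ hζ.1.2.le hζ.1.1.le)
  have conv : ∀ u v : ℝ, 0 < u → u * v = c → (∮ z in C(0, u), G z) = Complex.I * J H k u v := by
    intro u v hu huv
    have hper : Function.Periodic (fun θ : ℝ => H (circleMap 0 u θ) * conj (k (circleMap 0 v θ)))
        (2 * π) := by
      intro θ
      simp only
      rw [periodic_circleMap 0 u θ, periodic_circleMap 0 v θ]
    have h1 := hper.intervalIntegral_add_eq (-π) 0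
    have e1 : -π + 2 * π = π := by ring
    rw [e1, zero_add] at h1
    rw [J, h1, circleIntegral, ← intervalIntegral.integral_const_mul]
    apply intervalIntegral.integral_congr
    intro θ _
    simp only [deriv_circleMap, hG, smul_eq_mul, hK]
    have hne : circleMap 0 u θ ≠ 0 := circleMap_ne_center hu.ne'
    have e2 : conj ((c : ℂ) / circleMap 0 u θ) = circleMap 0 v θ := by
      have h2 : circleMap 0 u θ * conj (circleMap 0 v θ) = c := by
        simp only [circleMap, zero_add, map_mul, Complex.conj_ofReal]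
        rw [conj_exp]
        have : Complex.exp (θ * Complex.I) * Complex.exp (-(θ * Complex.I)) = 1 := by
          rw [← Complex.exp_add]; simp
        rw [← huv]
        push_cast
        linear_combination (u : ℂ) * v * this
      rw [← h2, mul_div_assoc, mul_comm, div_mul_cancel₀ _ hne, Complex.conj_conj]
    rw [e2]
    field_simp
  rw [conv x' y' hx'0 hc.symm, conv x y hx rfl] at key
  exact (mul_left_cancel₀ Complex.I_ne_zero key).symm

/-- exhaustion -/
noncomputable def rd (n : ℕ) : ℝ := 1 - 1 / ((n : ℝ) + 2)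

lemma rd_lt (n : ℕ) : rd n < 1 := by
  unfold rd
  have : (0 : ℝ) < 1 / ((n : ℝ) + 2) := by positivity
  linarith

lemma rd_pos (n : ℕ) : 0 < rd n := by
  unfold rd
  have h1 : 1 / ((n : ℝ) + 2) ≤ 1 / 2 := by
    apply one_div_le_one_div_of_le (by norm_num)
    have : (0 : ℝ) ≤ n := Nat.cast_nonneg n
    linarith
  linarith

lemma rd_mono : Monotone rd := by
  intro m n hmn
  unfold rd
  have h1 : 1 / ((n : ℝ) + 2) ≤ 1 / ((m : ℝ) + 2) := by
    apply one_div_le_one_div_of_le (by positivity)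
    have : (m : ℝ) ≤ n := Nat.cast_le.mpr hmn
    linarith
  linarith

lemma rd_tendsto : Tendsto rd atTop (𝓝 1) := by
  have h1 : Tendsto (fun n : ℕ => 1 / ((n : ℝ) + 2)) atTop (𝓝 0) := by
    have h2 := (tendsto_add_atTop_iff_nat (f := fun n : ℕ => 1 / ((n : ℝ) + 1)) 1).mpr
      tendsto_one_div_add_atTop_nhds_zero_nat
    refine h2.congr fun n => ?_
    push_cast
    congr 1
    ring
  have h3 : Tendsto (fun n : ℕ => 1 - 1 / ((n : ℝ) + 2)) atTop (𝓝 (1 - 0)) := h1.const_sub 1
  rw [sub_zero] at h3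
  exact h3

lemma iUnion_rd : ⋃ n, ball (0 : ℂ) (rd n) = ball 0 1 := by
  ext z
  simp only [mem_iUnion, mem_ball_zero_iff]
  constructor
  · rintro ⟨n, hn⟩
    exact hn.trans (rd_lt n)
  · intro hz
    obtain ⟨n, hn⟩ := (rd_tendsto.eventually (lt_mem_nhds hz)).exists
    exact ⟨n, hn⟩

lemma tendsto_disc {f : ℂ → ℂ} (hf : IntegrableOn f (ball (0 : ℂ) 1)) :
    Tendsto (fun n => ∫ z in ball (0 : ℂ) (rd n), f z) atTop (𝓝 (∫ z in ball (0 : ℂ) 1, f z)) := by
  have h1 := tendsto_setIntegral_of_monotone (μ := volume) (f := f) (s := fun n => ball (0 : ℂ) (rd n))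
    (fun n => measurableSet_ball) (fun m n hmn => ball_subset_ball (rd_mono hmn))
    (by rw [iUnion_rd]; exact hf)
  rwa [iUnion_rd] at h1

/-- the boundary pairing is continuous in the radius -/
lemma J_tendsto {H k : ℂ → ℂ} (hH : DifferentiableOn ℂ H (ball 0 1))
    (hk : DifferentiableOn ℂ k (ball 0 1)) {x R : ℝ} (hx : 0 < x) (hx1 : x < 1) (hR : 0 < R)
    (hR1 : R < 1) :
    Tendsto (fun n => J H k x (R * rd n ^ 2)) atTop (𝓝 (J H k x R)) := by
  have hpi : -π ≤ π := by linarith [Real.pi_pos]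
  have hle : ∀ n, 0 ≤ R * rd n ^ 2 ∧ R * rd n ^ 2 ≤ R := by
    intro n
    have h1 := rd_pos n
    have h2 := rd_lt n
    have h3 : rd n ^ 2 ≤ 1 := by nlinarith
    exact ⟨by positivity, by nlinarith [sq_nonneg (rd n)]⟩
  obtain ⟨C, hC⟩ := (isCompact_closedBall (0 : ℂ) R).exists_bound_of_continuousOn (contF hk hR1)
  have cH : Continuous fun θ : ℝ => H (circleMap 0 x θ) := comp_circ' (contF hH hx1) hx.le le_rfl
  apply intervalIntegral.tendsto_integral_filter_of_dominated_convergence
    (fun θ => ‖H (circleMap 0 x θ)‖ * C)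
  · refine Eventually.of_forall fun n => ?_
    have c2 : Continuous fun θ : ℝ => k (circleMap 0 (R * rd n ^ 2) θ) :=
      comp_circ' (contF hk hR1) (hle n).1 (hle n).2
    exact (cH.mul (Complex.continuous_conj.comp c2)).aestronglyMeasurable
  · refine Eventually.of_forall fun n => Eventually.of_forall fun θ _ => ?_
    rw [norm_mul, RCLike.norm_conj]
    exact mul_le_mul_of_nonneg_left (hC _ (circ_mem (hle n).1 (hle n).2 θ)) (norm_nonneg _)
  · exact (cH.norm.mul continuous_const).intervalIntegrable _ _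
  · refine Eventually.of_forall fun θ _ => ?_
    apply Tendsto.const_mul
    apply (Complex.continuous_conj.tendsto _).comp
    have h1 : Tendsto (fun n => R * rd n ^ 2) atTop (𝓝 R) := by
      simpa using (rd_tendsto.pow 2).const_mul R
    have h2 : Continuous fun u : ℝ => circleMap 0 u θ := by
      unfold circleMap
      fun_prop
    have h3 : ContinuousAt k (circleMap 0 R θ) :=
      (hk.differentiableAt (isOpen_ball.mem_nhds (by simp [abs_of_pos hR, hR1]))).continuousAt
    exact h3.tendsto.comp ((h2.tendsto R).comp h1)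

/-- the main duality estimate -/
theorem duality {p q : ℝ} (hp : 1 < p) (hq : 1 < q) {k F : ℂ → ℂ}
    (hk : DifferentiableOn ℂ k (ball 0 1))
    (hkq : IntegrableOn (fun z => ‖k z‖ ^ q) (ball (0 : ℂ) 1))
    (hF : DifferentiableOn ℂ F (ball 0 1)) {M : ℝ} (hM0 : 0 < M)
    (hM : ∀ z ∈ ball (0 : ℂ) 1, ‖F z‖ ≤ M) {Λ : ℝ} (hΛ : 0 ≤ Λ)
    (hvar : ∀ g : ℂ → ℂ, DifferentiableOn ℂ g (ball 0 1) →
      (∃ B, ∀ z ∈ ball (0 : ℂ) 1, ‖g z‖ ≤ B) →
      ∫ z in ball (0 : ℂ) 1, g z * conj (k z) = Λ * ∫ z in ball (0 : ℂ) 1, g z * Ph p (F z))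
    {H : ℂ → ℂ} (hH : DifferentiableOn ℂ H (ball 0 1)) {x R : ℝ} (hx : 0 < x) (hx1 : x < 1)
    (hR : 0 < R) (hR1 : R < 1) :
    ‖J H k x R‖ ≤ 2 * Λ * (Cp p * M ^ (p - 1)) * ∫ θ in (-π)..π, ‖H (circleMap 0 x θ)‖ := by
  have hpi : -π ≤ π := by linarith [Real.pi_pos]
  set y : ℝ := R * x with hy
  have hy0 : 0 < y := by positivity
  have hy1 : y < 1 := by rw [hy]; nlinarith
  have hyx : y < x := by rw [hy]; nlinarith
  have hCp : 0 ≤ Cp p * M ^ (p - 1) := by
    unfold Cp
    have : 0 < p - 1 := by linarith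
    positivity
  -- the test function
  set h : ℂ → ℂ := fun z => H ((y : ℂ) * z) with hh
  have hmap : ∀ z ∈ ball (0 : ℂ) (1 / y), (y : ℂ) * z ∈ ball (0 : ℂ) 1 := by
    intro z hz
    rw [mem_ball_zero_iff] at hz ⊢
    rw [norm_mul, Complex.norm_real, Real.norm_of_nonneg hy0.le]
    rw [lt_div_iff₀ hy0] at hz
    linarith
  have hhd' : DifferentiableOn ℂ h (ball 0 (1 / y)) :=
    hH.comp ((differentiable_const _).mul differentiable_id).differentiableOn hmap
  have h1y : 1 < 1 / y := by rw [lt_div_iff₀ hy0]; linarith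
  have hhd : DifferentiableOn ℂ h (ball 0 1) := hhd'.mono (ball_subset_ball h1y.le)
  set g : ℂ → ℂ := fun z => h z + z * deriv h z with hg
  have hgd' : DifferentiableOn ℂ g (ball 0 (1 / y)) :=
    hhd'.add (differentiableOn_id.mul (hhd'.deriv isOpen_ball))
  have hgd : DifferentiableOn ℂ g (ball 0 1) := hgd'.mono (ball_subset_ball h1y.le)
  obtain ⟨B, hB⟩ := (isCompact_closedBall (0 : ℂ) 1).exists_bound_of_continuousOn
    (hgd'.continuousOn.mono (closedBall_subset_ball h1y))
  have hgB : ∀ z ∈ ball (0 : ℂ) 1, ‖g z‖ ≤ B := fun z hz => hB z (ball_subset_closedBall hz)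
  have hB0 : 0 ≤ B := (norm_nonneg _).trans (hgB 0 (by simp))
  have hv := hvar g hgd ⟨B, hgB⟩
  have hki := L1_of_Lq hk hq.le hkq
  have hconjk : IntegrableOn (fun z => conj (k z)) (ball (0 : ℂ) 1) :=
    Complex.conjCLE.toContinuousLinearMap.integrable_comp hki
  have i1 : IntegrableOn (fun z => g z * conj (k z)) (ball (0 : ℂ) 1) := by
    refine Integrable.bdd_mul (c := B) hconjk
      (hgd.continuousOn.aestronglyMeasurable measurableSet_ball) ?_
    exact (ae_restrict_iff' measurableSet_ball).mpr (Eventually.of_forall hgB)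
  have i2 : IntegrableOn (fun z => g z * Ph p (F z)) (ball (0 : ℂ) 1) := by
    refine int_bdd (B := B * M ^ (p - 1)) (hgd.continuousOn.mul
      ((continuous_Ph hp).comp_continuousOn hF.continuousOn)) ?_
    intro z hz
    rw [norm_mul, norm_Ph hp]
    have h1 := hgB z hz
    have h2 := hM z hz
    have h3 : 0 ≤ p - 1 := by linarith
    gcongr
  have t1 := tendsto_disc i1
  have t2 := tendsto_disc i2
  -- the left side
  have e1 : ∀ n, ∫ z in ball (0 : ℂ) (rd n), g z * conj (k z) =
      ((rd n ^ 2 / 2 : ℝ) : ℂ) * J H k x (R * rd n ^ 2) := by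
    intro n
    have h0 := rd_pos n
    have h1 := rd_lt n
    have S := (SW.holo hhd h1).mul (SW.holo hk h1).conj'
    have G := green1 h0 S
    have e2 : ∀ z, h z * conj (k z) + z * (deriv h z * conj (k z) + h z * conj 0) =
        g z * conj (k z) := by
      intro z
      simp only [hg, map_zero]
      ring
    simp_rw [e2] at G
    rw [G]
    congr 1
    have e3 : ∫ θ in (-π)..π, h (circleMap 0 (rd n) θ) * conj (k (circleMap 0 (rd n) θ)) =
        J H k (y * rd n) (rd n) := by
      rw [J]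
      congr 1
      funext θ
      simp only [hh]
      congr 2
      simp [circleMap]
      ring
    rw [e3]
    have h2 : y * rd n ≤ x := by nlinarith
    apply pair hH hk (by positivity) h2 hx1 h1 h0
    rw [hy]; ring
  simp_rw [e1] at t1
  have t3 : Tendsto (fun n => ((rd n ^ 2 / 2 : ℝ) : ℂ) * J H k x (R * rd n ^ 2)) atTop
      (𝓝 ((1 / 2 : ℝ) * J H k x R)) := by
    apply Tendsto.mul _ (J_tendsto hH hk hx hx1 hR hR1)
    apply (Complex.continuous_ofReal.tendsto _).comp
    have := (rd_tendsto.pow 2).div_const 2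
    simpa using this
  have e4 := tendsto_nhds_unique t1 t3
  -- the right side
  have b1 : ∀ n, ‖∫ z in ball (0 : ℂ) (rd n), g z * Ph p (F z)‖ ≤
      Cp p * M ^ (p - 1) * ∫ θ in (-π)..π, ‖H (circleMap 0 x θ)‖ := by
    intro n
    have h0 := rd_pos n
    have h1 := rd_lt n
    have h2 := main_est hF hhd hp hM0 hM h0 h1
    refine h2.trans (mul_le_mul_of_nonneg_left ?_ hCp)
    have e3 : ∫ θ in (-π)..π, ‖h (circleMap 0 (rd n) θ)‖ =
        ∫ θ in (-π)..π, ‖H (circleMap 0 (y * rd n) θ)‖ := by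
      congr 1
      funext θ
      simp only [hh]
      congr 2
      simp [circleMap]
      ring
    rw [e3]
    apply means_mono hH (by positivity) _ hx1
    nlinarith
  have b2 : ‖∫ z in ball (0 : ℂ) 1, g z * Ph p (F z)‖ ≤
      Cp p * M ^ (p - 1) * ∫ θ in (-π)..π, ‖H (circleMap 0 x θ)‖ :=
    le_of_tendsto' t2.norm b1
  rw [e4] at hv
  have e5 := congrArg norm hv
  rw [norm_mul, norm_mul, Complex.norm_real, Complex.norm_real, Real.norm_of_nonneg hΛ,
    Real.norm_of_nonneg (by norm_num)] at e5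
  have b3 := mul_le_mul_of_nonneg_left b2 hΛ
  rw [← e5] at b3
  linarith

/-- the Garsia bound -/
theorem garsia {k : ℂ → ℂ} (hk : DifferentiableOn ℂ k (ball 0 1)) {C : ℝ} (hC0 : 0 ≤ C)
    (hdual : ∀ H : ℂ → ℂ, DifferentiableOn ℂ H (ball 0 1) → ∀ x R : ℝ, 0 < x → x < 1 → 0 < R → R < 1 →
      ‖J H k x R‖ ≤ C * ∫ θ in (-π)..π, ‖H (circleMap 0 x θ)‖)
    {R : ℝ} (hR : 0 < R) (hR1 : R < 1) {a : ℂ} (ha : ‖a‖ < 1) :
    ∫ θ in (-π)..π, poissonKernel 0 a (circleMap 0 1 θ) *
      ‖k (circleMap 0 R θ) - k ((R : ℂ) * a)‖ ^ 2 ≤ 2 * π * C ^ 2 := by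
  have hpi : -π ≤ π := by linarith [Real.pi_pos]
  set m : ℝ := max R ‖a‖ with hm
  have hm0 : 0 < m := lt_max_of_lt_left hR
  have hm1 : m < 1 := max_lt hR1 ha
  set x : ℝ := (1 + m) / 2 with hx
  have hx0 : 0 < x := by rw [hx]; linarith
  have hx1 : x < 1 := by rw [hx]; linarith
  have hmx : m < x := by rw [hx]; linarith
  have hRx : R < x := (le_max_left _ _).trans_lt hmx
  have hax : ‖a‖ < x := (le_max_right _ _).trans_lt hmx
  set f : ℂ → ℂ := fun ζ => k ((R : ℂ) * ζ) - k ((R : ℂ) * a) with hf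
  have hmap : ∀ z ∈ ball (0 : ℂ) (1 / x), (R : ℂ) * z ∈ ball (0 : ℂ) 1 := by
    intro z hz
    rw [mem_ball_zero_iff] at hz ⊢
    rw [norm_mul, Complex.norm_real, Real.norm_of_nonneg hR.le]
    rw [lt_div_iff₀ hx0] at hz
    nlinarith [norm_nonneg z]
  have hfd : DifferentiableOn ℂ f (ball 0 (1 / x)) :=
    (hk.comp ((differentiable_const _).mul differentiable_id).differentiableOn hmap).sub_const _
  have h1x : 1 < 1 / x := by rw [lt_div_iff₀ hx0]; linarith
  have hfa : f a = 0 := by simp [hf]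
  have haB : a ∈ ball (0 : ℂ) (1 / x) := by
    rw [mem_ball_zero_iff]; linarith
  have hds : DifferentiableOn ℂ (dslope f a) (ball 0 (1 / x)) :=
    (Complex.differentiableOn_dslope (isOpen_ball.mem_nhds haB)).mpr hfd
  have hden : ∀ ζ ∈ ball (0 : ℂ) (1 / x), 1 - conj a * ζ ≠ 0 := by
    intro ζ hζ h0
    rw [mem_ball_zero_iff, lt_div_iff₀ hx0] at hζ
    have h1 : ‖conj a * ζ‖ = 1 := by
      rw [← sub_eq_zero.mp h0, norm_one]
    rw [norm_mul, RCLike.norm_conj] at h1
    nlinarith [norm_nonneg ζ, norm_nonneg a]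
  set h : ℂ → ℂ := fun ζ => (((1 - ‖a‖ ^ 2 : ℝ) : ℂ) * ζ * dslope f a ζ) / (1 - conj a * ζ) with hh
  have hhd : DifferentiableOn ℂ h (ball 0 (1 / x)) := by
    apply DifferentiableOn.div _ _ hden
    · exact ((differentiable_const _).mul differentiable_id).differentiableOn.mul hds
    · exact ((differentiable_const _).sub
        ((differentiable_const _).mul differentiable_id)).differentiableOn
  set H : ℂ → ℂ := fun z => h (z / x) with hH
  have hmap2 : ∀ z ∈ ball (0 : ℂ) 1, z / (x : ℂ) ∈ ball (0 : ℂ) (1 / x) := by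
    intro z hz
    rw [mem_ball_zero_iff] at hz ⊢
    rw [norm_div, Complex.norm_real, Real.norm_of_nonneg hx0.le]
    exact div_lt_div_of_pos_right hz hx0
  have hHd : DifferentiableOn ℂ H (ball 0 1) :=
    hhd.comp (differentiable_id.div_const _).differentiableOn hmap2
  have key := hdual H hHd x R hx0 hx1 hR hR1
  have hxc : (x : ℂ) ≠ 0 := by exact_mod_cast hx0.ne'
  have e0 : ∀ θ : ℝ, H (circleMap 0 x θ) = h (circleMap 0 1 θ) := by
    intro θ
    simp only [hH]
    congr 1
    simp only [circleMap, zero_add]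
    rw [Complex.ofReal_one, one_mul]
    field_simp
  have e1 : ∀ θ : ℝ, h (circleMap 0 1 θ) =
      ((poissonKernel 0 a (circleMap 0 1 θ) : ℝ) : ℂ) * f (circleMap 0 1 θ) := by
    intro θ
    set ζ := circleMap 0 1 θ with hζ
    have hn : ‖ζ‖ = 1 := by simp [hζ]
    have hne : ζ ≠ a := by
      intro h0
      rw [h0] at hn
      linarith
    have hz0 : ζ ≠ 0 := by
      intro h0
      rw [h0, norm_zero] at hn
      linarith
    have hsub : ζ - a ≠ 0 := sub_ne_zero.mpr hne
    have hcs : conj (ζ - a) ≠ 0 := by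
      rw [map_ne_zero]; exact hsub
    have hzz : ζ * conj ζ = 1 := by
      rw [Complex.mul_conj, Complex.normSq_eq_norm_sq, hn]; norm_num
    have hd : 1 - conj a * ζ = ζ * conj (ζ - a) := by
      rw [map_sub, mul_sub, hzz]; ring
    simp only [hh]
    rw [dslope_of_ne _ hne, slope_def_field, hfa, sub_zero, hd, poissonKernel_def]
    simp only [sub_zero, hn, one_pow]
    have hn2 : ((‖ζ - a‖ ^ 2 : ℝ) : ℂ) = (ζ - a) * conj (ζ - a) := by
      rw [Complex.mul_conj, Complex.normSq_eq_norm_sq]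
    rw [Complex.ofReal_div, hn2]
    field_simp
  have cf : Continuous fun θ : ℝ => f (circleMap 0 1 θ) := by
    have h1 : ContinuousOn f (closedBall 0 1) := hfd.continuousOn.mono (closedBall_subset_ball h1x)
    exact comp_circ' h1 zero_le_one le_rfl
  have cP : Continuous fun θ : ℝ => poissonKernel 0 a (circleMap 0 1 θ) := by
    simp only [poissonKernel_def, sub_zero]
    have c1 := continuous_circleMap 0 1
    apply ((c1.norm.pow 2).sub continuous_const).div (((c1.sub continuous_const)).norm.pow 2)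
    intro θ
    have hne : circleMap 0 1 θ - a ≠ 0 := by
      intro h0
      have hn : ‖circleMap 0 1 θ‖ = 1 := by simp
      rw [sub_eq_zero.mp h0] at hn
      linarith
    exact (pow_pos (norm_pos_iff.mpr hne) 2).ne'
  have hP0 : ∀ θ : ℝ, 0 ≤ poissonKernel 0 a (circleMap 0 1 θ) := pk_nonneg ha
  have efR : ∀ θ : ℝ, k (circleMap 0 R θ) - k ((R : ℂ) * a) = f (circleMap 0 1 θ) := by
    intro θ
    simp only [hf]
    congr 2
    simp [circleMap]
  have hJ : J H k x R = ((∫ θ in (-π)..π, poissonKernel 0 a (circleMap 0 1 θ) *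
      ‖f (circleMap 0 1 θ)‖ ^ 2 : ℝ) : ℂ) := by
    rw [J, ← intervalIntegral.integral_ofReal]
    have e2 : ∀ θ : ℝ, H (circleMap 0 x θ) * conj (k (circleMap 0 R θ)) =
        ((poissonKernel 0 a (circleMap 0 1 θ) * ‖f (circleMap 0 1 θ)‖ ^ 2 : ℝ) : ℂ) +
        conj (k ((R : ℂ) * a)) *
          (((poissonKernel 0 a (circleMap 0 1 θ) : ℝ) : ℂ) * f (circleMap 0 1 θ)) := by
      intro θ
      have e3 : k (circleMap 0 R θ) = f (circleMap 0 1 θ) + k ((R : ℂ) * a) := by
        rw [← efR]; ring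
      rw [e0, e1, e3, map_add]
      have e4 : ((‖f (circleMap 0 1 θ)‖ ^ 2 : ℝ) : ℂ) =
          f (circleMap 0 1 θ) * conj (f (circleMap 0 1 θ)) := by
        rw [Complex.mul_conj, Complex.normSq_eq_norm_sq]
      rw [Complex.ofReal_mul, e4]
      ring
    simp_rw [e2]
    rw [intervalIntegral.integral_add, intervalIntegral.integral_const_mul,
      poisson_pi hfd h1x one_pos ha, hfa]
    · simp
    · exact (Complex.continuous_ofReal.comp (cP.mul (cf.norm.pow 2))).intervalIntegrable _ _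
    · exact (continuous_const.mul ((Complex.continuous_ofReal.comp cP).mul cf)).intervalIntegrable _ _
  have hL : ∫ θ in (-π)..π, ‖H (circleMap 0 x θ)‖ =
      ∫ θ in (-π)..π, poissonKernel 0 a (circleMap 0 1 θ) * ‖f (circleMap 0 1 θ)‖ := by
    congr 1
    funext θ
    rw [e0, e1, norm_mul, Complex.norm_real, Real.norm_of_nonneg (hP0 θ)]
  simp_rw [efR]
  set X := ∫ θ in (-π)..π, poissonKernel 0 a (circleMap 0 1 θ) * ‖f (circleMap 0 1 θ)‖ ^ 2 with hX
  have hX0 : 0 ≤ X := intervalIntegral.integral_nonneg hpi fun θ _ => mul_nonneg (hP0 θ) (sq_nonneg _)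
  rw [hJ, hL, Complex.norm_real, Real.norm_of_nonneg hX0] at key
  have b1 : C * ∫ θ in (-π)..π, poissonKernel 0 a (circleMap 0 1 θ) * ‖f (circleMap 0 1 θ)‖ ≤
      ∫ θ in (-π)..π, (C ^ 2 / 2 * poissonKernel 0 a (circleMap 0 1 θ) +
        1 / 2 * (poissonKernel 0 a (circleMap 0 1 θ) * ‖f (circleMap 0 1 θ)‖ ^ 2)) := by
    rw [← intervalIntegral.integral_const_mul]
    apply intervalIntegral.integral_mono_on hpi
    · exact (continuous_const.mul (cP.mul cf.norm)).intervalIntegrable _ _
    · exact ((continuous_const.mul cP).add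
        (continuous_const.mul (cP.mul (cf.norm.pow 2)))).intervalIntegrable _ _
    · intro θ _
      have h1 := hP0 θ
      nlinarith [mul_nonneg h1 (sq_nonneg (C - ‖f (circleMap 0 1 θ)‖))]
  have c1 : Continuous fun θ : ℝ => C ^ 2 / 2 * poissonKernel 0 a (circleMap 0 1 θ) :=
    continuous_const.mul cP
  have c2 : Continuous fun θ : ℝ =>
      1 / 2 * (poissonKernel 0 a (circleMap 0 1 θ) * ‖f (circleMap 0 1 θ)‖ ^ 2) :=
    continuous_const.mul (cP.mul (cf.norm.pow 2))
  rw [intervalIntegral.integral_add (c1.intervalIntegrable _ _) (c2.intervalIntegrable _ _),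
    intervalIntegral.integral_const_mul, intervalIntegral.integral_const_mul,
    poisson_one one_pos ha, ← hX] at b1
  linarith

end Pool.Agent.Q94.BX
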