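import Pool.Agent.Q94.BXD
import Pool.Agent.Helper34.Wc.Disc2
import Pool.Agent.Helper203.Fatou

/-!
Radial limits and mean oscillation.
-/

set_option autoImplicit false

open Metric Filter Topology MeasureTheory Real Set

namespace Pool.Agent.Q94.BX

open scoped ComplexConjugate

/-- harmonic majorant -/
lemma majorant {k : ℂ → ℂ} (hk : DifferentiableOn ℂ k (ball 0 1)) {C : ℝ}
    (hC : ∀ r ∈ Ioo (0 : ℝ) 1, ∫ θ in (-π)..π, ‖k (circleMap 0 r θ)‖ ^ 2 ≤ C) :
    ∃ H : ℂ → ℂ, DifferentiableOn ℂ H (ball 0 1) ∧ ∀ z ∈ ball (0 : ℂ) 1, ‖k z‖ ≤ (H z).re := by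
  have hM : ∀ r ∈ Ioo (0 : ℝ) 1, ∫ t, ‖k (r * Helper34.Dg.pt t)‖ ^ 2 ∂Helper34.Dg.mu ≤
      (2 * π)⁻¹ * C := by
    intro r hr
    have h1 := Helper34.Dg.int_T (fun z => ‖k z‖ ^ 2) r
    have h2 : ∫ t, ‖k (r * Helper34.Dg.pt t)‖ ^ 2 ∂Helper34.Dg.mu =
        (2 * π)⁻¹ * ∫ θ in (-π)..π, ‖k (circleMap 0 r θ)‖ ^ 2 := by
      have hper : Function.Periodic (fun θ : ℝ => ‖k (circleMap 0 r θ)‖ ^ 2) (2 * π) := by
        intro θ
        simp only
        rw [periodic_circleMap 0 r θ]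
      have h3 := hper.intervalIntegral_add_eq (-π) 0
      have e1 : -π + 2 * π = π := by ring
      rw [e1, zero_add] at h3
      rw [h3]
      exact h1
    rw [h2]
    exact mul_le_mul_of_nonneg_left (hC r hr) (by positivity)
  obtain ⟨f, hf, hfe⟩ := Helper34.Wc.H2_rep hk hM
  obtain ⟨H, hH, hHe⟩ := Helper34.Wc.herg hf.norm
  refine ⟨H, hH, fun z hz => ?_⟩
  rw [hHe z hz, ← hfe z hz]
  refine (norm_integral_le_integral_norm _).trans (le_of_eq ?_)
  congr 1; funext t
  rw [norm_mul, Complex.norm_real, ← Helper34.Dg.pker_eq,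
    Real.norm_of_nonneg (Helper34.Wc.pker_nonneg hz t), mul_comm]

/-- a positive harmonic function is finite at almost every boundary point -/
lemma liminf_finite {H : ℂ → ℂ} (hH : DifferentiableOn ℂ H (ball 0 1))
    (hH0 : ∀ z ∈ ball (0 : ℂ) 1, 0 ≤ (H z).re) :
    ∀ᵐ θ : ℝ, liminf (fun n => ENNReal.ofReal (H (circleMap 0 (rd n) θ)).re) atTop < ⊤ := by
  have hc : ∀ n, Continuous fun θ : ℝ => (H (circleMap 0 (rd n) θ)).re := fun n =>
    Complex.continuous_re.comp (comp_circ' (contF hH (rd_lt n)) (rd_pos n).le le_rfl)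
  have h0 : ∀ n (θ : ℝ), 0 ≤ (H (circleMap 0 (rd n) θ)).re := fun n θ =>
    hH0 _ (by simp [abs_of_pos (rd_pos n), rd_lt n])
  have hmean : ∀ n, ∀ c : ℝ, ∫ θ in c..(c + 2 * π), (H (circleMap 0 (rd n) θ)).re =
      2 * π * (H 0).re := by
    intro n c
    have hper : Function.Periodic (fun θ : ℝ => (H (circleMap 0 (rd n) θ)).re) (2 * π) := by
      intro θ
      simp only
      rw [periodic_circleMap 0 (rd n) θ]
    rw [hper.intervalIntegral_add_eq c (-π)]
    have e1 : -π + 2 * π = π := by ring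
    rw [e1]
    have h1 := poisson_pi hH (rd_lt n) (rd_pos n) (w := 0) (by simpa using rd_pos n)
    have e2 : ∀ θ : ℝ, ((poissonKernel 0 0 (circleMap 0 (rd n) θ) : ℝ) : ℂ) = 1 := by
      intro θ
      rw [poissonKernel_def]
      simp only [sub_zero, norm_circleMap_zero, sq_abs, norm_zero]
      have := rd_pos n
      norm_num
      exact this.ne'
    simp_rw [e2, one_mul] at h1
    have h2 := congrArg Complex.re h1
    have h3 : (∫ θ in (-π)..π, H (circleMap 0 (rd n) θ)).re =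
        ∫ θ in (-π)..π, (H (circleMap 0 (rd n) θ)).re := by
      have hpi : -π ≤ π := by linarith [Real.pi_pos]
      rw [intervalIntegral.integral_of_le hpi, intervalIntegral.integral_of_le hpi]
      have hci : Continuous fun θ : ℝ => H (circleMap 0 (rd n) θ) :=
        comp_circ' (contF hH (rd_lt n)) (rd_pos n).le le_rfl
      exact (Complex.reCLM.integral_comp_comm ((hci.integrableOn_Icc).mono_set
        Ioc_subset_Icc_self)).symm
    rw [h3] at h2
    rw [h2]
    simp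
  have key : ∀ c : ℝ, ∀ᵐ θ ∂(volume.restrict (Ioc c (c + 2 * π))),
      liminf (fun n => ENNReal.ofReal (H (circleMap 0 (rd n) θ)).re) atTop < ⊤ := by
    intro c
    apply ae_lt_top
    · exact Measurable.liminf fun n => (hc n).measurable.ennreal_ofReal
    · have h1 : ∫⁻ θ in Ioc c (c + 2 * π),
          liminf (fun n => ENNReal.ofReal (H (circleMap 0 (rd n) θ)).re) atTop ≤
          ENNReal.ofReal (2 * π * (H 0).re) := by
        refine (lintegral_liminf_le fun n => (hc n).measurable.ennreal_ofReal).trans ?_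
        apply liminf_le_of_frequently_le'
        apply Frequently.of_forall
        intro n
        rw [← ofReal_integral_eq_lintegral_ofReal
          (((hc n).integrableOn_Icc).mono_set Ioc_subset_Icc_self) (Eventually.of_forall (h0 n))]
        rw [← intervalIntegral.integral_of_le (by linarith [Real.pi_pos]), hmean n c]
      exact (h1.trans_lt ENNReal.ofReal_lt_top).ne
  have h2 : ∀ᵐ θ ∂(volume.restrict (⋃ n : ℤ, Ioc (n • (2 * π)) (n • (2 * π) + 2 * π))),
      liminf (fun n => ENNReal.ofReal (H (circleMap 0 (rd n) θ)).re) atTop < ⊤ := by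
    rw [ae_restrict_iUnion_iff]
    intro n
    exact key _
  have h3 : (⋃ n : ℤ, Ioc (n • (2 * π)) (n • (2 * π) + 2 * π)) = univ := by
    have h4 := iUnion_Ioc_zsmul (p := 2 * π) (by positivity)
    rw [← h4]
    congr 1
    funext n
    rw [add_zsmul, one_zsmul]
  rwa [h3, Measure.restrict_univ] at h2

lemma radial {k H : ℂ → ℂ} (hk : DifferentiableOn ℂ k (ball 0 1))
    (hH : DifferentiableOn ℂ H (ball 0 1)) (hkH : ∀ z ∈ ball (0 : ℂ) 1, ‖k z‖ ≤ (H z).re) :
    ∀ᵐ θ : ℝ, ∃ l : ℂ, Tendsto (fun r : ℝ => k (circleMap 0 r θ)) (𝓝[<] 1) (𝓝 l) := by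
  have hH0 : ∀ z ∈ ball (0 : ℂ) 1, 0 ≤ (H z).re := fun z hz => (norm_nonneg _).trans (hkH z hz)
  set A : ℂ → ℂ := fun z => Complex.exp (-H z) with hA
  set B : ℂ → ℂ := fun z => k z * Complex.exp (-H z) with hB
  have hAd : DifferentiableOn ℂ A (ball 0 1) := hH.neg.cexp
  have hBd : DifferentiableOn ℂ B (ball 0 1) := hk.mul hAd
  have nA : ∀ z, ‖A z‖ = Real.exp (-(H z).re) := fun z => by
    simp [hA, Complex.norm_exp]
  have bA : ∀ z ∈ ball (0 : ℂ) 1, ‖A z‖ ≤ 1 := fun z hz => by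
    rw [nA, Real.exp_le_one_iff]
    linarith [hH0 z hz]
  have bB : ∀ z ∈ ball (0 : ℂ) 1, ‖B z‖ ≤ 1 := fun z hz => by
    have h1 : ‖B z‖ = ‖k z‖ * Real.exp (-(H z).re) := by
      rw [← nA]; simp [hB, hA]
    rw [h1, Real.exp_neg]
    rw [mul_inv_le_iff₀ (Real.exp_pos _), one_mul]
    have h2 := Real.add_one_le_exp (H z).re
    linarith [hkH z hz]
  filter_upwards [Helper203.Hardy.fatou hAd bA, Helper203.Hardy.fatou hBd bB, liminf_finite hH hH0]
    with θ ⟨lA, hlA⟩ ⟨lB, hlB⟩ hfin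
  have hne : lA ≠ 0 := by
    intro h0
    apply hfin.ne
    have hrd : Tendsto rd atTop (𝓝[<] 1) :=
      tendsto_nhdsWithin_iff.mpr ⟨rd_tendsto, Eventually.of_forall fun n => rd_lt n⟩
    have h1 : Tendsto (fun n => ‖A (circleMap 0 (rd n) θ)‖) atTop (𝓝 0) := by
      have := (hlA.comp hrd).norm
      rw [h0, norm_zero] at this
      exact this
    have h2 : Tendsto (fun n => (H (circleMap 0 (rd n) θ)).re) atTop atTop := by
      have h3 : ∀ n, -(H (circleMap 0 (rd n) θ)).re =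
          Real.log ‖A (circleMap 0 (rd n) θ)‖ := fun n => by
        rw [nA, Real.log_exp]
      have h4 : Tendsto (fun n => ‖A (circleMap 0 (rd n) θ)‖) atTop (𝓝[>] 0) := by
        rw [tendsto_nhdsWithin_iff]
        refine ⟨h1, Eventually.of_forall fun n => ?_⟩
        rw [nA]
        exact Real.exp_pos _
      have h5 := Real.tendsto_log_nhdsGT_zero.comp h4
      have h6 := tendsto_neg_atBot_atTop.comp h5
      refine h6.congr fun n => ?_
      simp only [Function.comp]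
      rw [← h3, neg_neg]
    have h7 : Tendsto (fun n => ENNReal.ofReal (H (circleMap 0 (rd n) θ)).re) atTop (𝓝 ⊤) :=
      ENNReal.tendsto_ofReal_atTop.comp h2
    exact h7.liminf_eq
  refine ⟨lB / lA, (hlB.div hlA hne).congr fun r => ?_⟩
  simp only [hA, hB, Pi.div_apply]
  rw [mul_div_assoc, div_self (Complex.exp_ne_zero _), mul_one]

lemma pk_lower {θ θ₀ η : ℝ} (hη : 0 < η) (hη1 : η ≤ 1) (hθ : |θ - θ₀| ≤ π * η) :
    1 / ((π + 1) ^ 2 * η) ≤ poissonKernel 0 (circleMap 0 (1 - η) θ₀) (circleMap 0 1 θ) := by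
  have hpi := Real.pi_pos
  have hη0 : 0 ≤ 1 - η := by linarith
  have hn : ‖circleMap 0 (1 - η) θ₀‖ = 1 - η := by simp [abs_of_nonneg hη0]
  have hn1 : ‖circleMap 0 1 θ‖ = 1 := by simp
  have hd : ‖circleMap 0 1 θ - circleMap 0 (1 - η) θ₀‖ ≤ (π + 1) * η := by
    have e1 : circleMap 0 1 θ - circleMap 0 (1 - η) θ₀ =
        (circleMap 0 1 θ - circleMap 0 1 θ₀) + (circleMap 0 1 θ₀ - circleMap 0 (1 - η) θ₀) := by ring
    have h1 : ‖circleMap 0 1 θ - circleMap 0 1 θ₀‖ ≤ π * η := by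
      have h2 := (lipschitzWith_circleMap 0 1).dist_le_mul θ θ₀
      rw [dist_eq_norm, Real.dist_eq] at h2
      simp at h2
      exact h2.trans hθ
    have h3 : ‖circleMap 0 1 θ₀ - circleMap 0 (1 - η) θ₀‖ = η := by
      have e2 : circleMap 0 1 θ₀ - circleMap 0 (1 - η) θ₀ = circleMap 0 η θ₀ := by
        simp only [circleMap, zero_add]
        push_cast
        ring
      rw [e2]
      simp [abs_of_pos hη]
    rw [e1]
    refine (norm_add_le _ _).trans ?_
    rw [h3]
    linarith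
  have hpos : 0 < ‖circleMap 0 1 θ - circleMap 0 (1 - η) θ₀‖ := by
    rw [norm_pos_iff, sub_ne_zero]
    intro h
    rw [h, hn] at hn1
    linarith
  rw [poissonKernel_def]
  simp only [sub_zero, hn, hn1]
  rw [div_le_div_iff₀ (by positivity) (by positivity)]
  have h4 : ‖circleMap 0 1 θ - circleMap 0 (1 - η) θ₀‖ ^ 2 ≤ ((π + 1) * η) ^ 2 := by gcongr
  have h5 : 1 * ‖circleMap 0 1 θ - circleMap 0 (1 - η) θ₀‖ ^ 2 ≤ (π + 1) ^ 2 * η * η := by
    linarith
  refine h5.trans ?_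
  have h6 : η ≤ 1 ^ 2 - (1 - η) ^ 2 := by nlinarith
  have h7 := mul_le_mul_of_nonneg_right h6 (by positivity : 0 ≤ (π + 1) ^ 2 * η)
  linarith

/-- from the Garsia bound to bounded mean oscillation -/
theorem bmo {k : ℂ → ℂ} (hk : DifferentiableOn ℂ k (ball 0 1)) {C : ℝ} (hC0 : 0 ≤ C)
    (hg : ∀ R ∈ Ioo (0 : ℝ) 1, ∀ a : ℂ, ‖a‖ < 1 →
      ∫ θ in (-π)..π, poissonKernel 0 a (circleMap 0 1 θ) *
        ‖k (circleMap 0 R θ) - k ((R : ℂ) * a)‖ ^ 2 ≤ 2 * π * C ^ 2) :
    (∃ C' : ℝ, ∀ r ∈ Ioo (0 : ℝ) 1, ∫ θ in (-π)..π, ‖k (circleMap 0 r θ)‖ ^ 2 ≤ C') ∧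
    ∃ g : ℝ → ℂ, (∀ᵐ θ : ℝ, Tendsto (fun r : ℝ => k (circleMap 0 r θ)) (𝓝[<] 1) (𝓝 (g θ))) ∧
      ∃ B : ℝ, ∀ α β : ℝ, α < β → β ≤ α + 2 * π → IntervalIntegrable g volume α β ∧
        (1 / (β - α)) * ∫ θ in α..β, ‖g θ - (1 / (β - α)) • ∫ φ in α..β, g φ‖ ≤ B := by
  have hpi := Real.pi_pos
  have hpi2 : -π ≤ π := by linarith
  have hH2 : ∀ r ∈ Ioo (0 : ℝ) 1, ∫ θ in (-π)..π, ‖k (circleMap 0 r θ)‖ ^ 2 ≤
      2 * (2 * π * C ^ 2) + 2 * π * (2 * ‖k 0‖ ^ 2) := by
    intro r hr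
    have h1 := hg r hr 0 (by simp)
    have ck : Continuous fun θ : ℝ => k (circleMap 0 r θ) :=
      comp_circ' (contF hk hr.2) hr.1.le le_rfl
    have h2 : ∀ θ : ℝ, poissonKernel 0 0 (circleMap 0 1 θ) = 1 := fun θ => by
      rw [poissonKernel_def]; simp
    simp_rw [h2, one_mul, mul_zero] at h1
    have h3 : ∫ θ in (-π)..π, ‖k (circleMap 0 r θ)‖ ^ 2 ≤
        ∫ θ in (-π)..π, (2 * ‖k (circleMap 0 r θ) - k 0‖ ^ 2 + 2 * ‖k 0‖ ^ 2) := by
      apply intervalIntegral.integral_mono_on hpi2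
      · exact (ck.norm.pow 2).intervalIntegrable _ _
      · exact ((continuous_const.mul ((ck.sub continuous_const).norm.pow 2)).add
          continuous_const).intervalIntegrable _ _
      · intro θ _
        have h4 : ‖k (circleMap 0 r θ)‖ ≤ ‖k (circleMap 0 r θ) - k 0‖ + ‖k 0‖ := by
          have := norm_add_le (k (circleMap 0 r θ) - k 0) (k 0)
          simpa using this
        have h5 := norm_nonneg (k (circleMap 0 r θ))
        nlinarith [sq_nonneg (‖k (circleMap 0 r θ) - k 0‖ - ‖k 0‖)]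
    refine h3.trans ?_
    have c1 : Continuous fun θ : ℝ => 2 * ‖k (circleMap 0 r θ) - k 0‖ ^ 2 :=
      continuous_const.mul ((ck.sub continuous_const).norm.pow 2)
    rw [intervalIntegral.integral_add (c1.intervalIntegrable _ _) (by simp),
      intervalIntegral.integral_const_mul, intervalIntegral.integral_const, smul_eq_mul]
    have e1 : (π - -π) * (2 * ‖k 0‖ ^ 2) = 2 * π * (2 * ‖k 0‖ ^ 2) := by ring
    rw [e1]
    linarith
  refine ⟨⟨_, hH2⟩, ?_⟩
  obtain ⟨H, hH, hkH⟩ := majorant hk hH2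
  have hrad := radial hk hH hkH
  set g : ℝ → ℂ := fun θ => limUnder (𝓝[<] (1 : ℝ)) (fun r : ℝ => k (circleMap 0 r θ)) with hgdef
  have hgt : ∀ᵐ θ : ℝ, Tendsto (fun r : ℝ => k (circleMap 0 r θ)) (𝓝[<] 1) (𝓝 (g θ)) := by
    filter_upwards [hrad] with θ hθ
    exact tendsto_nhds_limUnder hθ
  refine ⟨g, hgt, ?_⟩
  set K : ℝ := (π + 1) * (C + 1) with hK
  have hK0 : 0 < K := by positivity
  refine ⟨2 * K, fun α β hαβ hβ => ?_⟩
  set ℓ : ℝ := β - α with hℓ
  have hℓ0 : 0 < ℓ := by rw [hℓ]; linarith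
  set η : ℝ := ℓ / (2 * π) with hη
  have hη0 : 0 < η := by positivity
  have hη1 : η ≤ 1 := by
    rw [hη, div_le_one (by positivity)]
    linarith
  set θ₀ : ℝ := (α + β) / 2 with hθ₀
  set a : ℂ := circleMap 0 (1 - η) θ₀ with ha
  have hna : ‖a‖ < 1 := by
    rw [ha]
    simp only [norm_circleMap_zero]
    rw [abs_of_nonneg (by linarith)]
    linarith
  -- the bound on the arc
  have hrdm : ∀ n, rd n ∈ Ioo (0 : ℝ) 1 := fun n => ⟨rd_pos n, rd_lt n⟩
  have ck : ∀ n, Continuous fun θ : ℝ => k (circleMap 0 (rd n) θ) := fun n =>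
    comp_circ' (contF hk (rd_lt n)) (rd_pos n).le le_rfl
  have cP : Continuous fun θ : ℝ => poissonKernel 0 a (circleMap 0 1 θ) := by
    simp only [poissonKernel_def, sub_zero]
    have c1 := continuous_circleMap 0 1
    apply ((c1.norm.pow 2).sub continuous_const).div (((c1.sub continuous_const)).norm.pow 2)
    intro θ
    have hne : circleMap 0 1 θ - a ≠ 0 := by
      intro h0
      have hn : ‖circleMap 0 1 θ‖ = 1 := by simp
      rw [sub_eq_zero.mp h0] at hn
      linarith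
    exact (pow_pos (norm_pos_iff.mpr hne) 2).ne'
  have harc : ∀ n, ∫ θ in Ioc α β, ‖k (circleMap 0 (rd n) θ) - k ((rd n : ℂ) * a)‖ ^ 2 ≤
      K ^ 2 * ℓ := by
    intro n
    have h1 := hg (rd n) (hrdm n) a hna
    set P : ℝ → ℝ := fun θ => poissonKernel 0 a (circleMap 0 1 θ) *
      ‖k (circleMap 0 (rd n) θ) - k ((rd n : ℂ) * a)‖ ^ 2 with hP
    have hPper : Function.Periodic P (2 * π) := by
      intro θ
      simp only [hP]
      rw [periodic_circleMap 0 (rd n) θ, periodic_circleMap 0 1 θ]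
    have hPc : Continuous P := cP.mul (((ck n).sub continuous_const).norm.pow 2)
    have hP0 : ∀ θ, 0 ≤ P θ := fun θ => mul_nonneg (pk_nonneg hna θ) (sq_nonneg _)
    have h2 := hPper.intervalIntegral_add_eq (-π) α
    have e1 : -π + 2 * π = π := by ring
    rw [e1] at h2
    rw [h2] at h1
    have h3 : ∫ θ in α..β, P θ ≤ ∫ θ in α..(α + 2 * π), P θ := by
      apply intervalIntegral.integral_mono_interval le_rfl hαβ.le hβ
      · exact Eventually.of_forall hP0
      · exact hPc.intervalIntegrable _ _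
    have h4 : ∫ θ in α..β, (1 / ((π + 1) ^ 2 * η)) *
        ‖k (circleMap 0 (rd n) θ) - k ((rd n : ℂ) * a)‖ ^ 2 ≤ ∫ θ in α..β, P θ := by
      apply intervalIntegral.integral_mono_on hαβ.le
      · exact (continuous_const.mul (((ck n).sub continuous_const).norm.pow 2)).intervalIntegrable _ _
      · exact hPc.intervalIntegrable _ _
      · intro θ hθ
        apply mul_le_mul_of_nonneg_right _ (sq_nonneg _)
        apply pk_lower hη0 hη1
        have e2 : π * η = ℓ / 2 := by rw [hη]; field_simp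
        rw [e2, abs_le, hθ₀, hℓ]
        constructor <;> linarith [hθ.1, hθ.2]
    rw [intervalIntegral.integral_const_mul] at h4
    rw [← intervalIntegral.integral_of_le hαβ.le]
    have h5 : (1 / ((π + 1) ^ 2 * η)) *
        ∫ θ in α..β, ‖k (circleMap 0 (rd n) θ) - k ((rd n : ℂ) * a)‖ ^ 2 ≤ 2 * π * C ^ 2 :=
      h4.trans (h3.trans h1)
    have h6 : 0 < (π + 1) ^ 2 * η := by positivity
    rw [one_div, inv_mul_le_iff₀ h6] at h5
    refine h5.trans ?_
    have e3 : (π + 1) ^ 2 * η * (2 * π * C ^ 2) = (π + 1) ^ 2 * C ^ 2 * ℓ := by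
      rw [hη]; field_simp
    rw [e3, hK]
    have h7 : (π + 1) ^ 2 * C ^ 2 ≤ ((π + 1) * (C + 1)) ^ 2 := by
      rw [mul_pow]
      gcongr
      linarith
    exact mul_le_mul_of_nonneg_right h7 hℓ0.le
  have hrd : Tendsto rd atTop (𝓝[<] 1) :=
    tendsto_nhdsWithin_iff.mpr ⟨rd_tendsto, Eventually.of_forall fun n => rd_lt n⟩
  have hka : Tendsto (fun n => k ((rd n : ℂ) * a)) atTop (𝓝 (k a)) := by
    have h1 : ContinuousAt k a :=
      (hk.differentiableAt (isOpen_ball.mem_nhds (by simpa using hna))).continuousAt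
    have h2 : Tendsto (fun n => (rd n : ℂ) * a) atTop (𝓝 a) := by
      have h3 : Tendsto (fun n => ((rd n : ℝ) : ℂ)) atTop (𝓝 ((1 : ℝ) : ℂ)) :=
        (Complex.continuous_ofReal.tendsto _).comp rd_tendsto
      simpa using h3.mul_const a
    exact h1.tendsto.comp h2
  have hlim : ∀ᵐ θ ∂(volume.restrict (Ioc α β)),
      Tendsto (fun n => ‖k (circleMap 0 (rd n) θ) - k ((rd n : ℂ) * a)‖ ^ 2) atTop
        (𝓝 (‖g θ - k a‖ ^ 2)) := by
    filter_upwards [ae_restrict_of_ae hgt] with θ hθ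
    exact (((hθ.comp hrd).sub hka).norm.pow 2)
  have cX : ∀ n, Continuous fun θ : ℝ => ‖k (circleMap 0 (rd n) θ) - k ((rd n : ℂ) * a)‖ ^ 2 :=
    fun n => ((ck n).sub continuous_const).norm.pow 2
  obtain ⟨i1, -, b1⟩ := Helper34.Wc.fatouR (ν := volume.restrict (Ioc α β))
    (X := fun n θ => ‖k (circleMap 0 (rd n) θ) - k ((rd n : ℂ) * a)‖ ^ 2)
    (Y := fun θ => ‖g θ - k a‖ ^ 2) (C := K ^ 2 * ℓ)
    (fun n => ((cX n).integrableOn_Icc).mono_set Ioc_subset_Icc_self)
    (fun n => Eventually.of_forall fun θ => sq_nonneg _) hlim harc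
  have hgm : AEStronglyMeasurable g (volume.restrict (Ioc α β)) := by
    apply aestronglyMeasurable_of_tendsto_ae atTop (f := fun n θ => k (circleMap 0 (rd n) θ))
    · intro n
      exact (ck n).aestronglyMeasurable
    · filter_upwards [ae_restrict_of_ae hgt] with θ hθ
      exact hθ.comp hrd
  have hdi : IntegrableOn (fun θ => K / 2 + 1 / (2 * K) * ‖g θ - k a‖ ^ 2) (Ioc α β) :=
    (integrableOn_const (by simp)).add (i1.const_mul _)
  have hpt : ∀ θ, ‖g θ - k a‖ ≤ K / 2 + 1 / (2 * K) * ‖g θ - k a‖ ^ 2 := by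
    intro θ
    have h1 : K / 2 + 1 / (2 * K) * ‖g θ - k a‖ ^ 2 - ‖g θ - k a‖ =
        1 / (2 * K) * (K - ‖g θ - k a‖) ^ 2 := by
      field_simp
      ring
    have h2 : 0 ≤ 1 / (2 * K) * (K - ‖g θ - k a‖) ^ 2 := by positivity
    linarith
  have hsub : IntegrableOn (fun θ => g θ - k a) (Ioc α β) := by
    refine Integrable.mono' hdi (hgm.sub aestronglyMeasurable_const) ?_
    exact Eventually.of_forall hpt
  have hgi : IntegrableOn g (Ioc α β) := by
    have h1 : IntegrableOn (fun θ => (g θ - k a) + k a) (Ioc α β) :=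
      hsub.add (integrableOn_const (by simp))
    simpa using h1
  have hgii : IntervalIntegrable g volume α β := by
    rw [intervalIntegrable_iff_integrableOn_Ioc_of_le hαβ.le]
    exact hgi
  refine ⟨hgii, ?_⟩
  have b2 : ∫ θ in α..β, ‖g θ - k a‖ ≤ K * ℓ := by
    rw [intervalIntegral.integral_of_le hαβ.le]
    have h1 : ∫ θ in Ioc α β, ‖g θ - k a‖ ≤
        ∫ θ in Ioc α β, (K / 2 + 1 / (2 * K) * ‖g θ - k a‖ ^ 2) :=
      integral_mono hsub.norm hdi hpt
    have ic : IntegrableOn (fun _ : ℝ => K / 2) (Ioc α β) := integrableOn_const (by simp)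
    rw [integral_add ic (i1.const_mul _), integral_const_mul, setIntegral_const] at h1
    have h2 : (volume.real (Ioc α β)) • (K / 2) = ℓ * (K / 2) := by
      rw [Real.volume_real_Ioc_of_le hαβ.le, smul_eq_mul]
    rw [h2] at h1
    have h3 := mul_le_mul_of_nonneg_left b1 (by positivity : 0 ≤ 1 / (2 * K))
    have e1 : 1 / (2 * K) * (K ^ 2 * ℓ) = K * ℓ / 2 := by field_simp
    rw [e1] at h3
    linarith
  set A : ℂ := (1 / ℓ) • ∫ φ in α..β, g φ with hA
  have hsubi : IntervalIntegrable (fun θ => g θ - k a) volume α β := by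
    rw [intervalIntegrable_iff_integrableOn_Ioc_of_le hαβ.le]
    exact hsub
  have b3 : ‖k a - A‖ ≤ K := by
    have e1 : k a - A = -((1 / ℓ) • ∫ φ in α..β, (g φ - k a)) := by
      rw [hA, intervalIntegral.integral_sub hgii (by simp), intervalIntegral.integral_const, ← hℓ,
        smul_sub, smul_smul, one_div, inv_mul_cancel₀ hℓ0.ne', one_smul]
      ring
    rw [e1, norm_neg, norm_smul, Real.norm_of_nonneg (by positivity)]
    have h1 := (intervalIntegral.norm_integral_le_integral_norm (f := fun θ => g θ - k a)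
      (μ := volume) hαβ.le).trans b2
    rw [one_div, inv_mul_le_iff₀ hℓ0]
    linarith
  have b4 : ∫ θ in α..β, ‖g θ - A‖ ≤ ∫ θ in α..β, (‖g θ - k a‖ + K) := by
    apply intervalIntegral.integral_mono_on hαβ.le
    · have : IntervalIntegrable (fun θ => g θ - A) volume α β := hgii.sub (by simp)
      exact this.norm
    · exact hsubi.norm.add (by simp)
    · intro θ _
      have e1 : g θ - A = (g θ - k a) + (k a - A) := by ring
      rw [e1]
      exact (norm_add_le _ _).trans (by linarith)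
  rw [intervalIntegral.integral_add hsubi.norm (by simp), intervalIntegral.integral_const,
    smul_eq_mul, ← hℓ] at b4
  rw [one_div, inv_mul_le_iff₀ hℓ0]
  linarith

end Pool.Agent.Q94.BX
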