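import Pool.Agent.Q141.CP.Stm

/-! Project CP (helper141), job AN2: a numerical inequality. -/

set_option autoImplicit false

namespace Pool.Agent.Q94.CP

open Pool.Agent.Q141.CP

theorem t_AN2 : S_AN2 := by
  unfold S_AN2
  have h1 : (2.7182818283 : ℝ) ^ 25 ≤ Real.exp 1 ^ 25 :=
    pow_le_pow_left₀ (by norm_num) Real.exp_one_gt_d9.le 25
  have h2 : Real.exp (-25) ≤ ((2.7182818283 : ℝ) ^ 25)⁻¹ := by
    rw [Real.exp_neg, show (25 : ℝ) = ((25 : ℕ) : ℝ) * 1 by norm_num, Real.exp_nat_mul]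
    exact inv_anti₀ (by positivity) h1
  have h3 : ((25).factorial : ℝ) = 15511210043330985984000000 := by
    norm_num [Nat.factorial]
  have h4 : (Nat.choose 24 12 : ℝ) = 2704156 := by
    have : Nat.choose 24 12 = 2704156 := by decide +kernel
    rw [this]; norm_num
  rw [h3, h4]
  calc (25 : ℝ) ^ 25 * Real.exp (-25) / 15511210043330985984000000 * (1012 / 1000)
      ≤ (25 : ℝ) ^ 25 * ((2.7182818283 : ℝ) ^ 25)⁻¹ / 15511210043330985984000000 * (1012 / 1000) := by
        gcongr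
    _ < 2704156 / 2 ^ 25 := by norm_num

end Pool.Agent.Q94.CP
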