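import Mathlib

namespace Pool.Agent.Q94.CY

open Finset

noncomputable section

/-- Jensen on the triangular lattice: the `D`-centres are averages of the neighbouring
`U`-centres. -/
lemma jensen_sum {w0 w1 w2 : ℝ} (h0 : 0 ≤ w0) (h1 : 0 ≤ w1) (h2 : 0 ≤ w2)
    (hw : w0 + w1 + w2 = 1) {pU pD xU xD : ℤ × ℤ → ℝ}
    (hU : (Function.support pU).Finite) (hD : (Function.support pD).Finite)
    (hD0 : ∀ p, 0 ≤ pD p)
    (c0 c1 : ℤ × ℤ)
    (hA : ∀ p, pD p ≤ pU (p + c0)) (hB : ∀ p, pD p ≤ pU (p + c1)) (hC : ∀ p, pD p ≤ pU p)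
    (hx : ∀ p, xD p = w0 * xU (p + c0) + w1 * xU (p + c1) + w2 * xU p) :
    ∑' p, pD p * xD p ^ 2 ≤ ∑' p, pU p * xU p ^ 2 := by
  have hsU : ∀ (f : ℤ × ℤ → ℝ), Summable fun p => pU p * f p := fun f =>
    summable_of_hasFiniteSupport (hU.subset (fun p hp => by
      intro h; apply hp; simp [h]))
  have hsD : ∀ (f : ℤ × ℤ → ℝ), Summable fun p => pD p * f p := fun f =>
    summable_of_hasFiniteSupport (hD.subset (fun p hp => by
      intro h; apply hp; simp [h]))
  set F : ℤ × ℤ → ℝ := fun p => pU p * xU p ^ 2 with hF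
  have hFs : Summable F := hsU _
  have hF0 : Summable fun p => F (p + c0) := (Equiv.addRight c0).summable_iff.2 hFs
  have hF1 : Summable fun p => F (p + c1) := (Equiv.addRight c1).summable_iff.2 hFs
  have key : ∀ p, pD p * xD p ^ 2 ≤ w0 * F (p + c0) + w1 * F (p + c1) + w2 * F p := by
    intro p
    have hJ : xD p ^ 2 ≤ w0 * xU (p + c0) ^ 2 + w1 * xU (p + c1) ^ 2 + w2 * xU p ^ 2 := by
      rw [hx]
      have e : w2 = 1 - w0 - w1 := by linarith
      nlinarith [mul_nonneg (mul_nonneg h0 h1) (sq_nonneg (xU (p + c0) - xU (p + c1))),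
        mul_nonneg (mul_nonneg h0 h2) (sq_nonneg (xU (p + c0) - xU p)),
        mul_nonneg (mul_nonneg h1 h2) (sq_nonneg (xU (p + c1) - xU p))]
    have e1 : pD p * xU (p + c0) ^ 2 ≤ F (p + c0) :=
      mul_le_mul_of_nonneg_right (hA p) (sq_nonneg _)
    have e2 : pD p * xU (p + c1) ^ 2 ≤ F (p + c1) :=
      mul_le_mul_of_nonneg_right (hB p) (sq_nonneg _)
    have e3 : pD p * xU p ^ 2 ≤ F p := mul_le_mul_of_nonneg_right (hC p) (sq_nonneg _)
    calc pD p * xD p ^ 2 ≤ pD p * (w0 * xU (p + c0) ^ 2 + w1 * xU (p + c1) ^ 2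
          + w2 * xU p ^ 2) := mul_le_mul_of_nonneg_left hJ (hD0 p)
      _ = w0 * (pD p * xU (p + c0) ^ 2) + w1 * (pD p * xU (p + c1) ^ 2)
          + w2 * (pD p * xU p ^ 2) := by ring
      _ ≤ _ := by gcongr
  have hsum : Summable fun p => w0 * F (p + c0) + w1 * F (p + c1) + w2 * F p :=
    ((hF0.mul_left w0).add (hF1.mul_left w1)).add (hFs.mul_left w2)
  calc ∑' p, pD p * xD p ^ 2 ≤ ∑' p, (w0 * F (p + c0) + w1 * F (p + c1) + w2 * F p) :=
        (hsD _).tsum_le_tsum key hsum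
    _ = w0 * ∑' p, F (p + c0) + w1 * ∑' p, F (p + c1) + w2 * ∑' p, F p := by
        rw [Summable.tsum_add ((hF0.mul_left w0).add (hF1.mul_left w1)) (hFs.mul_left w2),
          Summable.tsum_add (hF0.mul_left w0) (hF1.mul_left w1), tsum_mul_left, tsum_mul_left,
          tsum_mul_left]
    _ = ∑' p, F p := by
        have e0 : ∑' p, F (p + c0) = ∑' p, F p := (Equiv.addRight c0).tsum_eq F
        have e1 : ∑' p, F (p + c1) = ∑' p, F p := (Equiv.addRight c1).tsum_eq F
        rw [e0, e1, ← add_mul, ← add_mul, hw, one_mul]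

/-- The same inequality with a real valued weight that may change sign. -/
lemma signed_ineq {w0 w1 w2 : ℝ} (h0 : 0 ≤ w0) (h1 : 0 ≤ w1) (h2 : 0 ≤ w2)
    (hw : w0 + w1 + w2 = 1) {wU wD xU xD : ℤ × ℤ → ℝ}
    (hU : (Function.support wU).Finite) (hD : (Function.support wD).Finite)
    (hA : ∀ p, wD p ≤ wU (p + (0, 1))) (hB : ∀ p, wD p ≤ wU (p + (-1, 0)))
    (hC : ∀ p, wD p ≤ wU p)
    (hx : ∀ p, xD p = w0 * xU (p + (0, 1)) + w1 * xU (p + (-1, 0)) + w2 * xU p)
    (hx' : ∀ p, xU p = w0 * xD (p + (0, -1)) + w1 * xD (p + (1, 0)) + w2 * xD p) :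
    ∑' p, wD p * xD p ^ 2 ≤ ∑' p, wU p * xU p ^ 2 := by
  have hfin : ∀ (f : ℤ × ℤ → ℝ) (g : ℝ → ℝ), g 0 = 0 → (Function.support f).Finite →
      (Function.support fun p => g (f p)).Finite := fun f g hg hf =>
    hf.subset (fun p hp h => hp (by simp only [h, hg]))
  have hs : ∀ (f x : ℤ × ℤ → ℝ), (Function.support f).Finite → Summable fun p => f p * x p :=
    fun f x hf => summable_of_hasFiniteSupport (hf.subset (fun p hp h => hp (by simp [h])))
  -- positive parts
  have P := jensen_sum h0 h1 h2 hw (pU := fun p => max (wU p) 0) (pD := fun p => max (wD p) 0)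
    (xU := xU) (xD := xD) (hfin wU (fun t => max t 0) (by simp) hU)
    (hfin wD (fun t => max t 0) (by simp) hD) (fun p => le_max_right _ _) (0, 1) (-1, 0)
    (fun p => max_le_max (hA p) le_rfl) (fun p => max_le_max (hB p) le_rfl)
    (fun p => max_le_max (hC p) le_rfl) hx
  -- negative parts
  have hA' : ∀ p, wD (p + (0, -1)) ≤ wU p := by
    intro p
    have := hA (p + (0, -1))
    rwa [add_assoc, show ((0, -1) : ℤ × ℤ) + (0, 1) = 0 by ext <;> simp, add_zero] at this
  have hB' : ∀ p, wD (p + (1, 0)) ≤ wU p := by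
    intro p
    have := hB (p + (1, 0))
    rwa [add_assoc, show ((1, 0) : ℤ × ℤ) + (-1, 0) = 0 by ext <;> simp, add_zero] at this
  have Nn := jensen_sum h0 h1 h2 hw (pU := fun p => max (-wD p) 0) (pD := fun p => max (-wU p) 0)
    (xU := xD) (xD := xU) (hfin wD (fun t => max (-t) 0) (by simp) hD)
    (hfin wU (fun t => max (-t) 0) (by simp) hU) (fun p => le_max_right _ _) (0, -1) (1, 0)
    (fun p => max_le_max (neg_le_neg (hA' p)) le_rfl)
    (fun p => max_le_max (neg_le_neg (hB' p)) le_rfl)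
    (fun p => max_le_max (neg_le_neg (hC p)) le_rfl) hx'
  have hdec : ∀ t : ℝ, t = max t 0 - max (-t) 0 := by
    intro t
    rcases le_total 0 t with h | h
    · rw [max_eq_left h, max_eq_right (by linarith)]; ring
    · rw [max_eq_right h, max_eq_left (by linarith)]; ring
  have eU : ∑' p, wU p * xU p ^ 2
      = ∑' p, max (wU p) 0 * xU p ^ 2 - ∑' p, max (-wU p) 0 * xU p ^ 2 := by
    rw [← Summable.tsum_sub (hs _ _ (hfin wU (fun t => max t 0) (by simp) hU))
      (hs _ _ (hfin wU (fun t => max (-t) 0) (by simp) hU))]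
    apply tsum_congr
    intro p
    rw [← sub_mul, ← hdec]
  have eD : ∑' p, wD p * xD p ^ 2
      = ∑' p, max (wD p) 0 * xD p ^ 2 - ∑' p, max (-wD p) 0 * xD p ^ 2 := by
    rw [← Summable.tsum_sub (hs _ _ (hfin wD (fun t => max t 0) (by simp) hD))
      (hs _ _ (hfin wD (fun t => max (-t) 0) (by simp) hD))]
    apply tsum_congr
    intro p
    rw [← sub_mul, ← hdec]
  rw [eU, eD]
  linarith

end

end Pool.Agent.Q94.CY
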