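import Pool.Agent.Q94.CYA

namespace Pool.Agent.Q94.CY

open Finset

noncomputable section

/-- The three steps of the triangular lattice. -/
def stp : Fin 3 → ℤ × ℤ := ![(1, 0), (0, 1), (-1, -1)]

/-- The lattice walk with steps `σ`. -/
def pos (σ : ℕ → Fin 3) : ℕ → ℤ × ℤ
  | 0 => (0, 0)
  | k + 1 => pos σ k + stp (σ k)

variable (σ : ℕ → Fin 3)

/-- multiplicities of the edges -/
def al (k : ℕ) (p : ℤ × ℤ) : ℝ := if σ k = 0 ∧ pos σ k = p then 1 else 0
def be (k : ℕ) (p : ℤ × ℤ) : ℝ := if σ k = 1 ∧ pos σ k = p then 1 else 0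
def ga (k : ℕ) (p : ℤ × ℤ) : ℝ := if σ k = 2 ∧ pos σ (k + 1) = p then 1 else 0

/-- contribution of a step to the winding function -/
def dD (k : ℕ) (p : ℤ × ℤ) : ℝ :=
  (if σ k = 0 ∧ (pos σ k).1 = p.1 ∧ (pos σ k).2 ≤ p.2 then 1 else 0)
    - (if σ k = 2 ∧ (pos σ (k + 1)).1 = p.1 ∧ (pos σ (k + 1)).2 ≤ p.2 then 1 else 0)

/-- boundary term -/
def bQ (k : ℕ) (p : ℤ × ℤ) : ℝ := if (pos σ k).1 = p.1 ∧ (pos σ k).2 ≤ p.2 then 1 else 0

lemma cases3 (x : Fin 3) : x = 0 ∨ x = 1 ∨ x = 2 := by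
  fin_cases x <;> simp

lemma alpha_step (k : ℕ) (p : ℤ × ℤ) :
    al σ k p = ga σ k p + dD σ k p - dD σ k (p + (0, -1)) := by
  obtain ⟨i, j⟩ := p
  unfold al ga dD
  rw [show pos σ (k + 1) = pos σ k + stp (σ k) from rfl]
  obtain ⟨a, b⟩ := pos σ k
  rcases cases3 (σ k) with h | h | h <;>
    simp only [h, stp, Matrix.cons_val_zero, Matrix.cons_val_one, Matrix.cons_val, Prod.mk_add_mk,
      Prod.mk.injEq, Fin.isValue, true_and, false_and, if_false, Fin.reduceEq]
  · split_ifs <;> first | omega | norm_num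
  · norm_num
  · split_ifs <;> first | omega | norm_num

lemma beta_step (k : ℕ) (p : ℤ × ℤ) :
    ga σ k (p + (-1, 0)) + dD σ k (p + (-1, 0)) - dD σ k p - be σ k p
      = bQ σ (k + 1) p - bQ σ k p := by
  obtain ⟨i, j⟩ := p
  unfold be ga dD bQ
  rw [show pos σ (k + 1) = pos σ k + stp (σ k) from rfl]
  obtain ⟨a, b⟩ := pos σ k
  rcases cases3 (σ k) with h | h | h <;>
    simp only [h, stp, Matrix.cons_val_zero, Matrix.cons_val_one, Matrix.cons_val, Prod.mk_add_mk,
      Prod.mk.injEq, Fin.isValue, true_and, false_and, if_false, Fin.reduceEq]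
  · split_ifs <;> first | omega | norm_num
  · split_ifs <;> first | omega | norm_num
  · split_ifs <;> first | omega | norm_num

lemma pos_bound (k : ℕ) : |(pos σ k).1| ≤ k ∧ |(pos σ k).2| ≤ k := by
  induction k with
  | zero => simp [pos]
  | succ k ih =>
    rw [show pos σ (k + 1) = pos σ k + stp (σ k) from rfl]
    generalize pos σ k = q at ih ⊢
    obtain ⟨a, b⟩ := q
    simp only [abs_le] at ih ⊢
    obtain ⟨⟨h1, h2⟩, h3, h4⟩ := ih
    rcases cases3 (σ k) with h | h | h <;>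
      simp only [h, stp, Matrix.cons_val_zero, Matrix.cons_val_one, Matrix.cons_val,
        Prod.mk_add_mk, Fin.isValue] <;> push_cast <;> refine ⟨⟨?_, ?_⟩, ?_, ?_⟩ <;> omega

/-- the winding functions -/
def wD (N : ℕ) (p : ℤ × ℤ) : ℝ := ∑ k ∈ range N, dD σ k p
def wU (N : ℕ) (p : ℤ × ℤ) : ℝ := ∑ k ∈ range N, (ga σ k p + dD σ k p)

lemma alpha_eq (N : ℕ) (p : ℤ × ℤ) :
    ∑ k ∈ range N, al σ k p = wU σ N p - wD σ N (p + (0, -1)) := by
  unfold wU wD
  rw [← sum_sub_distrib]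
  exact sum_congr rfl fun k _ => alpha_step σ k p

lemma beta_eq (N : ℕ) (hN : pos σ N = (0, 0)) (p : ℤ × ℤ) :
    ∑ k ∈ range N, be σ k p = wU σ N (p + (-1, 0)) - wD σ N p := by
  have h1 : ∑ k ∈ range N, (ga σ k (p + (-1, 0)) + dD σ k (p + (-1, 0)) - dD σ k p - be σ k p)
      = bQ σ N p - bQ σ 0 p := by
    rw [← sum_range_sub (fun k => bQ σ k p) N]
    exact sum_congr rfl fun k _ => beta_step σ k p
  have h2 : bQ σ N p = bQ σ 0 p := by
    unfold bQ
    rw [hN]
    rfl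
  rw [h2, sub_self, sum_sub_distrib, sum_sub_distrib] at h1
  unfold wU wD
  linarith

lemma gamma_eq (N : ℕ) (p : ℤ × ℤ) :
    ∑ k ∈ range N, ga σ k p = wU σ N p - wD σ N p := by
  unfold wU wD
  rw [← sum_sub_distrib]
  exact sum_congr rfl fun k _ => by ring

lemma wD_zero (N : ℕ) (hN : pos σ N = (0, 0)) (p : ℤ × ℤ)
    (hp : ¬ (|p.1| ≤ N ∧ |p.2| ≤ N)) : wD σ N p = 0 := by
  obtain ⟨i, j⟩ := p
  simp only [abs_le, not_and_or, not_le] at hp
  by_cases hj : (N : ℤ) < j
  · -- all heights are below `j`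
    have h1 : ∀ k ∈ range N, dD σ k (i, j)
        = (if i + 1 ≤ (pos σ (k + 1)).1 then (1 : ℝ) else 0)
          - (if i + 1 ≤ (pos σ k).1 then 1 else 0) := by
      intro k hk
      have hk' := mem_range.1 hk
      have hb := pos_bound σ k
      unfold dD
      rw [show pos σ (k + 1) = pos σ k + stp (σ k) from rfl]
      generalize pos σ k = q at hb ⊢
      obtain ⟨a, b⟩ := q
      simp only [abs_le] at hb
      rcases cases3 (σ k) with h | h | h <;>
        simp only [h, stp, Matrix.cons_val_zero, Matrix.cons_val_one, Matrix.cons_val,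
          Prod.mk_add_mk, Fin.isValue, true_and, false_and, if_false, Fin.reduceEq]
      · split_ifs <;> first | omega | norm_num
      · split_ifs <;> first | omega | norm_num
      · split_ifs <;> first | omega | norm_num
    unfold wD
    rw [sum_congr rfl h1, sum_range_sub (fun k => if i + 1 ≤ (pos σ k).1 then (1 : ℝ) else 0) N,
      hN]
    simp [pos]
  · apply sum_eq_zero
    intro k hk
    have hk' := mem_range.1 hk
    have hb := pos_bound σ k
    have hb' := pos_bound σ (k + 1)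
    simp only [abs_le] at hb hb'
    unfold dD
    have e1 : ¬ (σ k = 0 ∧ (pos σ k).1 = i ∧ (pos σ k).2 ≤ j) := by
      rintro ⟨-, h1, h2⟩
      omega
    have e2 : ¬ (σ k = 2 ∧ (pos σ (k + 1)).1 = i ∧ (pos σ (k + 1)).2 ≤ j) := by
      rintro ⟨-, h1, h2⟩
      push_cast at hb'
      omega
    simp only [e1, e2, if_false, sub_self]

lemma finite_box (N : ℕ) : {p : ℤ × ℤ | |p.1| ≤ N ∧ |p.2| ≤ N}.Finite := by
  apply ((Set.finite_Icc (-(N : ℤ)) N).prod (Set.finite_Icc (-(N : ℤ)) N)).subset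
  rintro ⟨i, j⟩ ⟨h1, h2⟩
  exact ⟨abs_le.1 h1, abs_le.1 h2⟩

lemma wD_fin (N : ℕ) (hN : pos σ N = (0, 0)) : (Function.support (wD σ N)).Finite :=
  (finite_box N).subset fun p hp => by
    by_contra h
    exact hp (wD_zero σ N hN p h)

lemma wU_fin (N : ℕ) (hN : pos σ N = (0, 0)) : (Function.support (wU σ N)).Finite :=
  (finite_box N).subset fun p hp => by
    by_contra h
    apply hp
    have h1 := gamma_eq σ N p
    rw [wD_zero σ N hN p h, sub_zero] at h1
    rw [← h1]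
    apply sum_eq_zero
    intro k hk
    have hk' := mem_range.1 hk
    have hb' := pos_bound σ (k + 1)
    unfold ga
    rw [if_neg]
    rintro ⟨-, h2⟩
    rw [h2] at hb'
    simp only [abs_le] at hb'
    push_cast at hb'
    exact h ⟨abs_le.2 ⟨by omega, by omega⟩, abs_le.2 ⟨by omega, by omega⟩⟩

end

end Pool.Agent.Q94.CY
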