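import Pool.Agent.Q94.CYB

namespace Pool.Agent.Q94.CY

open Finset

noncomputable section

variable (σ : ℕ → Fin 3)

/-- the position is the sum of the steps -/
lemma pos_eq (N : ℕ) : pos σ N = ∑ k ∈ range N, stp (σ k) := by
  induction N with
  | zero => simp [pos]
  | succ k ih => rw [sum_range_succ, ← ih]; rfl

lemma sum_by_type {M : Type*} [AddCommMonoid M] (N : ℕ) (f : Fin 3 → M) :
    ∑ k ∈ range N, f (σ k) = ∑ i : Fin 3, ((range N).filter fun k => σ k = i).card • f i := by
  rw [← sum_fiberwise_of_maps_to (s := range N) (t := (univ : Finset (Fin 3))) (g := σ)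
    (fun _ _ => mem_univ _)]
  apply sum_congr rfl
  intro i _
  rw [sum_congr rfl (g := fun _ => f i)]
  · rw [sum_const]
  · intro k hk
    rw [(mem_filter.1 hk).2]

lemma pos_closed (N n : ℕ) (hc : ∀ i : Fin 3, ((range N).filter fun k => σ k = i).card = n) :
    pos σ N = (0, 0) := by
  rw [pos_eq, sum_by_type]
  simp only [hc, Fin.sum_univ_three, stp, Matrix.cons_val_zero, Matrix.cons_val_one,
    Matrix.cons_val]
  ext <;> simp

/-- midpoints costs of the three kinds of edges -/
def gA (w a b t : ℝ) (p : ℤ × ℤ) : ℝ := w * (a * p.1 + b * p.2 + a / 2 - t) ^ 2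
def gB (w a b t : ℝ) (p : ℤ × ℤ) : ℝ := w * (a * p.1 + b * p.2 + b / 2 - t) ^ 2
def gC (w a b t : ℝ) (p : ℤ × ℤ) : ℝ := w * (a * p.1 + b * p.2 + (a + b) / 2 - t) ^ 2

lemma tsum_ind (P : Prop) [Decidable P] (q : ℤ × ℤ) (f : ℤ × ℤ → ℝ) :
    Summable (fun p => (if P ∧ q = p then (1 : ℝ) else 0) * f p) ∧
    ∑' p, (if P ∧ q = p then (1 : ℝ) else 0) * f p = if P then f q else 0 := by
  have h : (fun p => (if P ∧ q = p then (1 : ℝ) else 0) * f p)
      = fun p => if p = q then (if P then f q else 0) else 0 := by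
    funext p
    by_cases hp : P <;> by_cases hq : q = p
    · subst hq; simp [hp]
    · have : ¬ p = q := fun h => hq h.symm
      simp [hq, this]
    · subst hq; simp [hp]
    · have : ¬ p = q := fun h => hq h.symm
      simp [hq, this]
  rw [h]
  refine ⟨?_, ?_⟩
  · apply summable_of_hasFiniteSupport
    apply (Set.finite_singleton q).subset
    intro p hp
    by_contra hne
    exact hp (if_neg hne)
  · exact tsum_ite_eq q _

/-- The value of the walk. -/
lemma val_eq (v : Fin 3 → ℝ) (hv : v 0 + v 1 + v 2 = 0) (N : ℕ) :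
    ∑ k ∈ range N, v (σ k) = v 0 * (pos σ N).1 + v 1 * (pos σ N).2 := by
  induction N with
  | zero => simp [pos]
  | succ k ih =>
    rw [sum_range_succ, ih, show pos σ (k + 1) = pos σ k + stp (σ k) from rfl]
    obtain ⟨a, b⟩ := pos σ k
    rcases cases3 (σ k) with h | h | h <;>
      simp only [h, stp, Matrix.cons_val_zero, Matrix.cons_val_one, Matrix.cons_val,
        Prod.mk_add_mk, Fin.isValue] <;> push_cast
    · ring
    · ring
    · have : v 2 = -v 0 - v 1 := by linarith
      rw [this]; ring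

/-- The minimal variance. -/
def Vmin (w v : Fin 3 → ℝ) : ℝ :=
  (w 0 * w 1 * v 2 ^ 2 + w 1 * w 2 * v 0 ^ 2 + w 2 * w 0 * v 1 ^ 2) / 4

theorem walk_ineq (w v : Fin 3 → ℝ) (hw : ∀ i, 0 ≤ w i) (hw1 : w 0 + w 1 + w 2 = 1)
    (hv : v 0 + v 1 + v 2 = 0) (N n : ℕ)
    (hc : ∀ i : Fin 3, ((range N).filter fun k => σ k = i).card = n) (t : ℝ) :
    n * Vmin w v ≤ ∑ k ∈ range N,
      w (σ k) * ((∑ l ∈ range k, v (σ l)) + v (σ k) / 2 - t) ^ 2 := by
  have hN := pos_closed σ N n hc
  set a := v 0 with ha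
  set b := v 1 with hb
  have hv2 : v 2 = -a - b := by linarith
  set A := gA (w 0) a b t with hA
  set B := gB (w 1) a b t with hB
  set C := gC (w 2) a b t with hC
  -- cost of one step
  have hstep : ∀ k, w (σ k) * ((∑ l ∈ range k, v (σ l)) + v (σ k) / 2 - t) ^ 2
      = (if σ k = 0 then A (pos σ k) else 0) + (if σ k = 1 then B (pos σ k) else 0)
        + (if σ k = 2 then C (pos σ (k + 1)) else 0) := by
    intro k
    rw [val_eq σ v (by linarith) k, show pos σ (k + 1) = pos σ k + stp (σ k) from rfl]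
    obtain ⟨i, j⟩ := pos σ k
    rcases cases3 (σ k) with h | h | h <;>
      simp only [h, stp, Matrix.cons_val_zero, Matrix.cons_val_one, Matrix.cons_val,
        Prod.mk_add_mk, Fin.isValue, Fin.reduceEq, if_true, if_false, hA, hB, hC, gA, gB, gC]
    · ring
    · ring
    · rw [hv2]; push_cast; ring
  have hsumA : ∀ k, Summable (fun p => al σ k p * A p) ∧
      ∑' p, al σ k p * A p = if σ k = 0 then A (pos σ k) else 0 := fun k => tsum_ind _ _ _
  have hsumB : ∀ k, Summable (fun p => be σ k p * B p) ∧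
      ∑' p, be σ k p * B p = if σ k = 1 then B (pos σ k) else 0 := fun k => tsum_ind _ _ _
  have hsumC : ∀ k, Summable (fun p => ga σ k p * C p) ∧
      ∑' p, ga σ k p * C p = if σ k = 2 then C (pos σ (k + 1)) else 0 := fun k => tsum_ind _ _ _
  have hsum1 : ∀ k, Summable (fun p => ga σ k p * 1) ∧
      ∑' p, ga σ k p * 1 = if σ k = 2 then 1 else 0 := fun k => tsum_ind _ _ _
  have hUf := wU_fin σ N hN
  have hDf := wD_fin σ N hN
  have hs : ∀ (f x : ℤ × ℤ → ℝ), (Function.support f).Finite → Summable fun p => f p * x p :=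
    fun f x hf => summable_of_hasFiniteSupport (hf.subset (fun p hp h => hp (by simp [h])))
  -- total cost
  have hA1 : ∑ k ∈ range N, (if σ k = 0 then A (pos σ k) else 0)
      = ∑' p, wU σ N p * A p - ∑' p, wD σ N p * A (p + (0, 1)) := by
    have e1 : ∑ k ∈ range N, (if σ k = 0 then A (pos σ k) else 0)
        = ∑' p, (∑ k ∈ range N, al σ k p) * A p := by
      rw [show (fun p => (∑ k ∈ range N, al σ k p) * A p)
        = fun p => ∑ k ∈ range N, al σ k p * A p from funext fun p => sum_mul _ _ _]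
      rw [Summable.tsum_finsetSum (fun k _ => (hsumA k).1)]
      exact sum_congr rfl fun k _ => (hsumA k).2.symm
    have e2 : Summable fun p => wD σ N (p + (0, -1)) * A p := by
      have := (Equiv.addRight ((0, -1) : ℤ × ℤ)).summable_iff.2
        (hs (wD σ N) (fun p => A (p + (0, 1))) hDf)
      refine this.congr fun p => ?_
      simp only [Function.comp, Equiv.coe_addRight]
      rw [add_assoc, show ((0, -1) : ℤ × ℤ) + (0, 1) = 0 by ext <;> simp, add_zero]
    have e3 : ∑' p, wD σ N (p + (0, -1)) * A p = ∑' p, wD σ N p * A (p + (0, 1)) := by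
      rw [← (Equiv.addRight ((0, -1) : ℤ × ℤ)).tsum_eq (fun p => wD σ N p * A (p + (0, 1)))]
      apply tsum_congr
      intro p
      simp only [Equiv.coe_addRight]
      rw [add_assoc p, show ((0, -1) : ℤ × ℤ) + (0, 1) = 0 by ext <;> simp, add_zero]
    rw [e1, ← e3, ← Summable.tsum_sub (hs _ _ hUf) e2]
    apply tsum_congr
    intro p
    rw [alpha_eq, sub_mul]
  have hB1 : ∑ k ∈ range N, (if σ k = 1 then B (pos σ k) else 0)
      = ∑' p, wU σ N p * B (p + (1, 0)) - ∑' p, wD σ N p * B p := by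
    have e1 : ∑ k ∈ range N, (if σ k = 1 then B (pos σ k) else 0)
        = ∑' p, (∑ k ∈ range N, be σ k p) * B p := by
      rw [show (fun p => (∑ k ∈ range N, be σ k p) * B p)
        = fun p => ∑ k ∈ range N, be σ k p * B p from funext fun p => sum_mul _ _ _]
      rw [Summable.tsum_finsetSum (fun k _ => (hsumB k).1)]
      exact sum_congr rfl fun k _ => (hsumB k).2.symm
    have e2 : Summable fun p => wU σ N (p + (-1, 0)) * B p := by
      have := (Equiv.addRight ((-1, 0) : ℤ × ℤ)).summable_iff.2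
        (hs (wU σ N) (fun p => B (p + (1, 0))) hUf)
      refine this.congr fun p => ?_
      simp only [Function.comp, Equiv.coe_addRight]
      rw [add_assoc, show ((-1, 0) : ℤ × ℤ) + (1, 0) = 0 by ext <;> simp, add_zero]
    have e3 : ∑' p, wU σ N (p + (-1, 0)) * B p = ∑' p, wU σ N p * B (p + (1, 0)) := by
      rw [← (Equiv.addRight ((-1, 0) : ℤ × ℤ)).tsum_eq (fun p => wU σ N p * B (p + (1, 0)))]
      apply tsum_congr
      intro p
      simp only [Equiv.coe_addRight]
      rw [add_assoc p, show ((-1, 0) : ℤ × ℤ) + (1, 0) = 0 by ext <;> simp, add_zero]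
    rw [e1, ← e3, ← Summable.tsum_sub e2 (hs _ _ hDf)]
    apply tsum_congr
    intro p
    rw [beta_eq σ N hN, sub_mul]
  have hC1 : ∑ k ∈ range N, (if σ k = 2 then C (pos σ (k + 1)) else 0)
      = ∑' p, wU σ N p * C p - ∑' p, wD σ N p * C p := by
    have e1 : ∑ k ∈ range N, (if σ k = 2 then C (pos σ (k + 1)) else 0)
        = ∑' p, (∑ k ∈ range N, ga σ k p) * C p := by
      rw [show (fun p => (∑ k ∈ range N, ga σ k p) * C p)
        = fun p => ∑ k ∈ range N, ga σ k p * C p from funext fun p => sum_mul _ _ _]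
      rw [Summable.tsum_finsetSum (fun k _ => (hsumC k).1)]
      exact sum_congr rfl fun k _ => (hsumC k).2.symm
    rw [e1, ← Summable.tsum_sub (hs _ _ hUf) (hs _ _ hDf)]
    apply tsum_congr
    intro p
    rw [gamma_eq, sub_mul]
  have hn1 : (n : ℝ) = ∑' p, wU σ N p * 1 - ∑' p, wD σ N p * 1 := by
    have e1 : (n : ℝ) = ∑' p, (∑ k ∈ range N, ga σ k p) * 1 := by
      rw [show (fun p => (∑ k ∈ range N, ga σ k p) * 1)
        = fun p => ∑ k ∈ range N, ga σ k p * 1 from funext fun p => sum_mul _ _ _]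
      rw [Summable.tsum_finsetSum (fun k _ => (hsum1 k).1)]
      rw [sum_congr rfl (fun k _ => (hsum1 k).2), sum_boole, hc 2]
    rw [e1, ← Summable.tsum_sub (hs _ _ hUf) (hs _ _ hDf)]
    apply tsum_congr
    intro p
    rw [gamma_eq, sub_mul]
  -- triangles
  set κU : ℝ := w 0 * (a / 2) + w 1 * (a + b / 2) + w 2 * ((a + b) / 2) with hκU
  set κD : ℝ := w 1 * (b / 2) + w 0 * (b + a / 2) + w 2 * ((a + b) / 2) with hκD
  set xU : ℤ × ℤ → ℝ := fun p => a * p.1 + b * p.2 + κU - t with hxU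
  set xD : ℤ × ℤ → ℝ := fun p => a * p.1 + b * p.2 + κD - t with hxD
  have hw2 : w 2 = 1 - w 0 - w 1 := by linarith
  have tU : ∀ p, A p + B (p + (1, 0)) + C p = Vmin w v * 1 + xU p ^ 2 := by
    rintro ⟨i, j⟩
    simp only [hA, hB, hC, gA, gB, gC, hxU, hκU, Vmin, ← ha, ← hb, hv2, hw2, Prod.mk_add_mk]
    push_cast
    ring
  have tD : ∀ p, A (p + (0, 1)) + B p + C p = Vmin w v * 1 + xD p ^ 2 := by
    rintro ⟨i, j⟩
    simp only [hA, hB, hC, gA, gB, gC, hxD, hκD, Vmin, ← ha, ← hb, hv2, hw2, Prod.mk_add_mk]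
    push_cast
    ring
  have hal0 : ∀ p, 0 ≤ ∑ k ∈ range N, al σ k p := fun p => sum_nonneg fun k _ => by
    unfold al; split_ifs <;> norm_num
  have hbe0 : ∀ p, 0 ≤ ∑ k ∈ range N, be σ k p := fun p => sum_nonneg fun k _ => by
    unfold be; split_ifs <;> norm_num
  have hga0 : ∀ p, 0 ≤ ∑ k ∈ range N, ga σ k p := fun p => sum_nonneg fun k _ => by
    unfold ga; split_ifs <;> norm_num
  have hR : ∑' p, wD σ N p * xD p ^ 2 ≤ ∑' p, wU σ N p * xU p ^ 2 := by
    apply signed_ineq (hw 0) (hw 1) (hw 2) hw1 hUf hDf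
    · intro p
      have h1 := hal0 (p + (0, 1))
      rw [alpha_eq, add_assoc, show ((0, 1) : ℤ × ℤ) + (0, -1) = 0 by ext <;> simp,
        add_zero] at h1
      linarith
    · intro p
      have h1 := hbe0 p
      rw [beta_eq σ N hN] at h1
      linarith
    · intro p
      have h1 := hga0 p
      rw [gamma_eq] at h1
      linarith
    · rintro ⟨i, j⟩
      simp only [hxU, hxD, hκU, hκD, Prod.mk_add_mk, hw2]
      push_cast
      ring
    · rintro ⟨i, j⟩
      simp only [hxU, hxD, hκU, hκD, Prod.mk_add_mk, hw2]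
      push_cast
      ring
  have hU2 : ∑' p, wU σ N p * A p + ∑' p, wU σ N p * B (p + (1, 0)) + ∑' p, wU σ N p * C p
      = Vmin w v * ∑' p, wU σ N p * 1 + ∑' p, wU σ N p * xU p ^ 2 := by
    rw [← Summable.tsum_add (hs _ _ hUf) (hs _ _ hUf),
      ← Summable.tsum_add ((hs _ _ hUf).add (hs _ _ hUf)) (hs _ _ hUf), ← tsum_mul_left,
      ← Summable.tsum_add ((hs _ _ hUf).mul_left _) (hs _ _ hUf)]
    apply tsum_congr
    intro p
    have := tU p
    calc wU σ N p * A p + wU σ N p * B (p + (1, 0)) + wU σ N p * C p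
        = wU σ N p * (A p + B (p + (1, 0)) + C p) := by ring
      _ = _ := by rw [this]; ring
  have hD2 : ∑' p, wD σ N p * A (p + (0, 1)) + ∑' p, wD σ N p * B p + ∑' p, wD σ N p * C p
      = Vmin w v * ∑' p, wD σ N p * 1 + ∑' p, wD σ N p * xD p ^ 2 := by
    rw [← Summable.tsum_add (hs _ _ hDf) (hs _ _ hDf),
      ← Summable.tsum_add ((hs _ _ hDf).add (hs _ _ hDf)) (hs _ _ hDf), ← tsum_mul_left,
      ← Summable.tsum_add ((hs _ _ hDf).mul_left _) (hs _ _ hDf)]
    apply tsum_congr
    intro p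
    have := tD p
    calc wD σ N p * A (p + (0, 1)) + wD σ N p * B p + wD σ N p * C p
        = wD σ N p * (A (p + (0, 1)) + B p + C p) := by ring
      _ = _ := by rw [this]; ring
  rw [sum_congr rfl (fun k _ => hstep k), sum_add_distrib, sum_add_distrib, hA1, hB1, hC1]
  have hn2 : (n : ℝ) * Vmin w v = Vmin w v * ∑' p, wU σ N p * 1
      - Vmin w v * ∑' p, wD σ N p * 1 := by
    rw [hn1]; ring
  rw [hn2]
  linarith

end

end Pool.Agent.Q94.CY
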