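import Pool.Agent.Q94.CYC

namespace Pool.Agent.Q94.CY

open Finset

noncomputable section

/-- Green's function -/
def Gr (x y : ℝ) : ℝ := 1 / 2 * |x - y| ^ 2 - 1 / 2 * |x - y| + 1 / 12

/-- centres of the balls -/
def center (n : ℕ) (w : Fin 3 → ℝ) (c : ℕ → Fin 3) : ℕ → ℝ
  | 0 => 0
  | k + 1 => center n w c k + (w (c k) + w (c (k + 1))) / (2 * n)

lemma maxsum (q x : ℕ → ℝ) (hx : Monotone x) (N : ℕ) :
    ∑ k ∈ range N, ∑ m ∈ range N, q k * q m * max (x (k + 1)) (x (m + 1))
      = x N * (∑ l ∈ range N, q l) ^ 2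
        - ∑ k ∈ range N, (∑ l ∈ range k, q l) ^ 2 * (x (k + 1) - x k) := by
  induction N with
  | zero => simp
  | succ N ih =>
    rw [sum_range_succ]
    have h1 : ∑ k ∈ range N, ∑ m ∈ range (N + 1), q k * q m * max (x (k + 1)) (x (m + 1))
        = ∑ k ∈ range N, ∑ m ∈ range N, q k * q m * max (x (k + 1)) (x (m + 1))
          + (∑ l ∈ range N, q l) * (q N * x (N + 1)) := by
      rw [sum_mul, ← sum_add_distrib]
      apply sum_congr rfl
      intro k hk
      rw [sum_range_succ, max_eq_right (hx (by have := mem_range.1 hk; omega : k + 1 ≤ N + 1))]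
      ring
    have h2 : ∑ m ∈ range (N + 1), q N * q m * max (x (N + 1)) (x (m + 1))
        = (∑ l ∈ range N, q l) * (q N * x (N + 1)) + q N * q N * x (N + 1) := by
      rw [sum_range_succ, sum_mul]
      congr 1
      · apply sum_congr rfl
        intro k hk
        rw [max_eq_left (hx (by have := mem_range.1 hk; omega : k + 1 ≤ N + 1))]
        ring
      · rw [max_self]
    rw [h1, h2, ih, sum_range_succ (fun l => q l), sum_range_succ]
    ring

lemma linsum (q x : ℕ → ℝ) (N : ℕ) :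
    ∑ k ∈ range N, q k * x (k + 1)
      = x N * (∑ l ∈ range N, q l)
        - ∑ k ∈ range N, (∑ l ∈ range k, q l) * (x (k + 1) - x k) := by
  induction N with
  | zero => simp
  | succ N ih =>
    rw [sum_range_succ, ih, sum_range_succ (fun l => q l), sum_range_succ]
    ring

lemma dsum (r : ℝ) (a b : ℕ → ℝ) (N : ℕ) :
    ∑ k ∈ range N, ∑ m ∈ range N, r * (a k * b m)
      = r * ((∑ k ∈ range N, a k) * (∑ m ∈ range N, b m)) := by
  rw [Finset.sum_mul_sum, mul_sum]
  exact sum_congr rfl fun k _ => by rw [mul_sum]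

/-- the energy of neutral charges -/
lemma neutral_energy (q x : ℕ → ℝ) (hx : Monotone x) (N : ℕ) (hq : ∑ l ∈ range N, q l = 0) :
    ∑ k ∈ range N, ∑ m ∈ range N, q k * q m * Gr (x (k + 1)) (x (m + 1))
      = ∑ k ∈ range N, (∑ l ∈ range k, q l) ^ 2 * (x (k + 1) - x k)
        - (∑ k ∈ range N, (∑ l ∈ range k, q l) * (x (k + 1) - x k)) ^ 2 := by
  have hG : ∀ k m, q k * q m * Gr (x (k + 1)) (x (m + 1))
      = 1 / 2 * ((q k * x (k + 1) ^ 2) * q m)
        + (-1) * ((q k * x (k + 1)) * (q m * x (m + 1)))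
        + 1 / 2 * (q k * (q m * x (m + 1) ^ 2))
        + 1 / 2 * ((q k * x (k + 1)) * q m)
        + 1 / 2 * (q k * (q m * x (m + 1)))
        + 1 / 12 * (q k * q m)
        - (q k * q m * max (x (k + 1)) (x (m + 1))) := by
    intro k m
    have h1 : |x (k + 1) - x (m + 1)| = 2 * max (x (k + 1)) (x (m + 1)) - x (k + 1)
        - x (m + 1) := by
      rcases le_total (x (k + 1)) (x (m + 1)) with h | h
      · rw [max_eq_right h, abs_of_nonpos (by linarith)]; ring
      · rw [max_eq_left h, abs_of_nonneg (by linarith)]; ring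
    unfold Gr
    rw [sq_abs, h1]
    ring
  have d1 := dsum (1 / 2) (fun k => q k * x (k + 1) ^ 2) q N
  have d2 := dsum (-1) (fun k => q k * x (k + 1)) (fun k => q k * x (k + 1)) N
  have d3 := dsum (1 / 2) q (fun k => q k * x (k + 1) ^ 2) N
  have d4 := dsum (1 / 2) (fun k => q k * x (k + 1)) q N
  have d5 := dsum (1 / 2) q (fun k => q k * x (k + 1)) N
  have d6 := dsum (1 / 12) q q N
  simp only [hG, sum_add_distrib, sum_sub_distrib]
  rw [d1, d2, d3, d4, d5, d6, maxsum q x hx N, hq, linsum q x N, hq]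
  ring

lemma center_mono (n : ℕ) (w : Fin 3 → ℝ) (hw : ∀ i, 0 ≤ w i) (c : ℕ → Fin 3) :
    Monotone (center n w c) := by
  apply monotone_nat_of_le_succ
  intro k
  have : 0 ≤ (w (c k) + w (c (k + 1))) / (2 * n) :=
    div_nonneg (add_nonneg (hw _) (hw _)) (by positivity)
  show center n w c k ≤ center n w c k + _
  linarith

/-- energy of the rank one interaction `v v^T` -/
theorem energy_vv (n N : ℕ) (w v : Fin 3 → ℝ) (hw : ∀ i, 0 ≤ w i)
    (hv : v 0 + v 1 + v 2 = 0) (c : ℕ → Fin 3) (hc0 : c 0 = c N)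
    (hc : ∀ i : Fin 3, ((range N).filter fun k => c (k + 1) = i).card = n) (hn : 0 < n) :
    ∑ k ∈ range N, ∑ m ∈ range N, v (c (k + 1)) * v (c (m + 1))
        * Gr (center n w c (k + 1)) (center n w c (m + 1))
      = ∑ k ∈ range N, w (c (k + 1)) / n * ((∑ l ∈ range k, v (c (l + 1))) + v (c (k + 1)) / 2) ^ 2
        + (w 0 * v 0 ^ 2 + w 1 * v 1 ^ 2 + w 2 * v 2 ^ 2) / 4
        - (∑ k ∈ range N, w (c (k + 1)) / n
            * ((∑ l ∈ range k, v (c (l + 1))) + v (c (k + 1)) / 2)) ^ 2 := by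
  have hn' : (n : ℝ) ≠ 0 := by positivity
  have hS : ∑ l ∈ range N, v (c (l + 1)) = 0 := by
    rw [sum_by_type (fun k => c (k + 1)) N v]
    simp only [hc, Fin.sum_univ_three, nsmul_eq_mul]
    rw [← mul_add, ← mul_add, hv, mul_zero]
  rw [neutral_energy (fun k => v (c (k + 1))) (center n w c) (center_mono n w hw c) N hS]
  have hd : ∀ k, center n w c (k + 1) - center n w c k
      = (w (c k) + w (c (k + 1))) / (2 * n) := fun k => by
    show center n w c k + _ - _ = _
    ring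
  simp only [hd]
  set S : ℕ → ℝ := fun k => ∑ l ∈ range k, v (c (l + 1)) with hSdef
  have hS0 : S 0 = 0 := by simp [hSdef]
  have hSN : S N = 0 := hS
  have hSs : ∀ k, S (k + 1) = S k + v (c (k + 1)) := fun k => by
    simp only [hSdef]; rw [sum_range_succ]
  have shift : ∀ g : ℝ → ℝ, g 0 = 0 → ∑ k ∈ range N, g (S k) * w (c k)
      = ∑ k ∈ range N, g (S (k + 1)) * w (c (k + 1)) := by
    intro g hg
    have h1 := sum_range_succ (fun k => g (S k) * w (c k)) N
    have h2 := sum_range_succ' (fun k => g (S k) * w (c k)) N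
    rw [h1] at h2
    simp only [hS0, hSN, hg, zero_mul, add_zero] at h2
    exact h2
  have e2 : ∑ k ∈ range N, S k ^ 2 * ((w (c k) + w (c (k + 1))) / (2 * n))
      = ∑ k ∈ range N, w (c (k + 1)) / n * (S k + v (c (k + 1)) / 2) ^ 2
        + ∑ k ∈ range N, w (c (k + 1)) * v (c (k + 1)) ^ 2 / (4 * n) := by
    have h1 := shift (fun s => s ^ 2) (by norm_num)
    calc ∑ k ∈ range N, S k ^ 2 * ((w (c k) + w (c (k + 1))) / (2 * n))
        = (∑ k ∈ range N, S k ^ 2 * w (c k)) / (2 * n)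
          + (∑ k ∈ range N, S k ^ 2 * w (c (k + 1))) / (2 * n) := by
          rw [sum_div, sum_div, ← sum_add_distrib]
          exact sum_congr rfl fun k _ => by ring
      _ = (∑ k ∈ range N, S (k + 1) ^ 2 * w (c (k + 1))) / (2 * n)
          + (∑ k ∈ range N, S k ^ 2 * w (c (k + 1))) / (2 * n) := by rw [h1]
      _ = _ := by
          rw [sum_div, sum_div, ← sum_add_distrib, ← sum_add_distrib]
          apply sum_congr rfl
          intro k _
          rw [hSs]
          field_simp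
          ring
  have e1 : ∑ k ∈ range N, S k * ((w (c k) + w (c (k + 1))) / (2 * n))
      = ∑ k ∈ range N, w (c (k + 1)) / n * (S k + v (c (k + 1)) / 2) := by
    have h1 := shift (fun s => s) rfl
    calc ∑ k ∈ range N, S k * ((w (c k) + w (c (k + 1))) / (2 * n))
        = (∑ k ∈ range N, S k * w (c k)) / (2 * n)
          + (∑ k ∈ range N, S k * w (c (k + 1))) / (2 * n) := by
          rw [sum_div, sum_div, ← sum_add_distrib]
          exact sum_congr rfl fun k _ => by ring
      _ = (∑ k ∈ range N, S (k + 1) * w (c (k + 1))) / (2 * n)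
          + (∑ k ∈ range N, S k * w (c (k + 1))) / (2 * n) := by rw [h1]
      _ = _ := by
          rw [sum_div, sum_div, ← sum_add_distrib]
          apply sum_congr rfl
          intro k _
          rw [hSs]
          field_simp
          ring
  have e3 : ∑ k ∈ range N, w (c (k + 1)) * v (c (k + 1)) ^ 2 / (4 * n)
      = (w 0 * v 0 ^ 2 + w 1 * v 1 ^ 2 + w 2 * v 2 ^ 2) / 4 := by
    rw [sum_by_type (fun k => c (k + 1)) N (fun i => w i * v i ^ 2 / (4 * n))]
    simp only [hc, Fin.sum_univ_three, nsmul_eq_mul]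
    field_simp
  rw [e2, e1, e3]

/-- Lower bound for a rank one interaction. -/
theorem rank_one_lower (n N : ℕ) (w v : Fin 3 → ℝ) (hw : ∀ i, 0 ≤ w i)
    (hw1 : w 0 + w 1 + w 2 = 1)
    (hv : v 0 + v 1 + v 2 = 0) (c : ℕ → Fin 3) (hc0 : c 0 = c N)
    (hc : ∀ i : Fin 3, ((range N).filter fun k => c (k + 1) = i).card = n) (hn : 0 < n) :
    Vmin w v + (w 0 * v 0 ^ 2 + w 1 * v 1 ^ 2 + w 2 * v 2 ^ 2) / 4
      ≤ ∑ k ∈ range N, ∑ m ∈ range N, v (c (k + 1)) * v (c (m + 1))
        * Gr (center n w c (k + 1)) (center n w c (m + 1)) := by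
  rw [energy_vv n N w v hw hv c hc0 hc hn]
  have hn' : (0 : ℝ) < n := by exact_mod_cast hn
  set M : ℕ → ℝ := fun k => (∑ l ∈ range k, v (c (l + 1))) + v (c (k + 1)) / 2 with hM
  set t := ∑ k ∈ range N, w (c (k + 1)) / n * M k with ht
  have h1 := walk_ineq (fun k => c (k + 1)) w v hw hw1 hv N n hc t
  have hW : ∑ k ∈ range N, w (c (k + 1)) / n = 1 := by
    rw [sum_by_type (fun k => c (k + 1)) N (fun i => w i / n)]
    simp only [hc, Fin.sum_univ_three, nsmul_eq_mul]
    field_simp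
    linarith
  have h2 : ∑ k ∈ range N, w (c (k + 1)) * (M k - t) ^ 2
      = n * (∑ k ∈ range N, w (c (k + 1)) / n * M k ^ 2 - t ^ 2) := by
    have key : ∀ s : ℝ, ∑ k ∈ range N, w (c (k + 1)) * (M k - s) ^ 2
        = n * (∑ k ∈ range N, w (c (k + 1)) / n * M k ^ 2
          - 2 * s * ∑ k ∈ range N, w (c (k + 1)) / n * M k
          + s ^ 2 * ∑ k ∈ range N, w (c (k + 1)) / n) := by
      intro s
      rw [mul_sum (range N) (fun k => w (c (k + 1)) / n * M k),
        mul_sum (range N) (fun k => w (c (k + 1)) / n), ← sum_sub_distrib, ← sum_add_distrib,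
        mul_sum]
      apply sum_congr rfl
      intro k _
      field_simp
      ring
    rw [key t, ← ht, hW]
    ring
  have h3 : (n : ℝ) * Vmin w v
      ≤ n * (∑ k ∈ range N, w (c (k + 1)) / n * M k ^ 2 - t ^ 2) := by
    rw [← h2]; exact h1
  have h4 := le_of_mul_le_mul_left h3 hn'
  linarith

/-- sums of periodic functions -/
lemma periodic_sum (f : ℕ → ℝ) (hf : ∀ k, f (k + 3) = f k) (n : ℕ) :
    ∑ k ∈ range (3 * n), f k = n * (f 0 + f 1 + f 2) := by
  have hper : ∀ n k, f (k + 3 * n) = f k := by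
    intro n
    induction n with
    | zero => intro k; rfl
    | succ n ih =>
      intro k
      rw [show k + 3 * (n + 1) = (k + 3 * n) + 3 by ring, hf, ih]
  induction n with
  | zero => simp
  | succ n ih =>
    rw [show 3 * (n + 1) = 3 * n + 1 + 1 + 1 by ring, sum_range_succ, sum_range_succ,
      sum_range_succ, ih]
    have e0 := hper n 0
    have e1 := hper n 1
    have e2 := hper n 2
    rw [zero_add] at e0
    rw [add_comm] at e1 e2
    rw [e0, e1, show 3 * n + 1 + 1 = 3 * n + 2 by ring, e2]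
    push_cast
    ring

/-- the cyclic arrangement -/
def cyc (k : ℕ) : Fin 3 := ⟨k % 3, Nat.mod_lt _ (by norm_num)⟩

lemma cyc_add3 (k : ℕ) : cyc (k + 3) = cyc k := by
  apply Fin.ext
  simp [cyc]

lemma cyc_succ (k : ℕ) : cyc (k + 1) = cyc k + 1 := by
  apply Fin.ext
  simp [cyc, Fin.val_add]

lemma cyc_wrap (n : ℕ) : cyc 0 = cyc (3 * n) := by
  induction n with
  | zero => rfl
  | succ n ih => rw [show 3 * (n + 1) = 3 * n + 3 by ring, cyc_add3, ← ih]

lemma cyc_count (n : ℕ) (i : Fin 3) :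
    ((range (3 * n)).filter fun k => cyc (k + 1) = i).card = n := by
  have h1 : (((range (3 * n)).filter fun k => cyc (k + 1) = i).card : ℝ) = n := by
    rw [← sum_boole]
    rw [periodic_sum (fun k => if cyc (k + 1) = i then (1 : ℝ) else 0)
      (fun k => by
        show (if cyc (k + 3 + 1) = i then (1 : ℝ) else 0) = if cyc (k + 1) = i then (1 : ℝ) else 0
        rw [show k + 3 + 1 = (k + 1) + 3 by ring, cyc_add3])]
    have e1 : cyc 1 = 1 := rfl
    have e2 : cyc 2 = 2 := rfl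
    have e3 : cyc 3 = 0 := rfl
    simp only [zero_add, Nat.reduceAdd, e1, e2, e3]
    fin_cases i <;> simp
  exact_mod_cast h1

theorem rank_one_cyc (n : ℕ) (w v : Fin 3 → ℝ) (hw : ∀ i, 0 ≤ w i)
    (hw1 : w 0 + w 1 + w 2 = 1) (hv : v 0 + v 1 + v 2 = 0) (hn : 0 < n) :
    ∑ k ∈ range (3 * n), ∑ m ∈ range (3 * n), v (cyc (k + 1)) * v (cyc (m + 1))
        * Gr (center n w cyc (k + 1)) (center n w cyc (m + 1))
      = Vmin w v + (w 0 * v 0 ^ 2 + w 1 * v 1 ^ 2 + w 2 * v 2 ^ 2) / 4 := by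
  rw [energy_vv n (3 * n) w v hw hv cyc (cyc_wrap n) (cyc_count n) hn]
  have hn' : (n : ℝ) ≠ 0 := by positivity
  have hS : ∀ k, ∑ l ∈ range (k + 3), v (cyc (l + 1)) = ∑ l ∈ range k, v (cyc (l + 1)) := by
    intro k
    rw [show k + 3 = k + 1 + 1 + 1 by ring, sum_range_succ, sum_range_succ, sum_range_succ]
    have h3 : ∀ r : Fin 3, v (r + 1) + v (r + 2) + v (r + 3) = 0 := by
      intro r
      have a1 : (0 : Fin 3) + 1 = 1 := rfl
      have a2 : (0 : Fin 3) + 2 = 2 := rfl
      have a3 : (0 : Fin 3) + 3 = 0 := rfl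
      have b1 : (1 : Fin 3) + 1 = 2 := rfl
      have b2 : (1 : Fin 3) + 2 = 0 := rfl
      have b3 : (1 : Fin 3) + 3 = 1 := rfl
      have c1 : (2 : Fin 3) + 1 = 0 := rfl
      have c2 : (2 : Fin 3) + 2 = 1 := rfl
      have c3 : (2 : Fin 3) + 3 = 2 := rfl
      rcases cases3 r with h | h | h
      · rw [h, a1, a2, a3]; linarith
      · rw [h, b1, b2, b3]; linarith
      · rw [h, c1, c2, c3]; linarith
    have h4 := h3 (cyc k)
    have e1 : cyc (k + 1) = cyc k + 1 := cyc_succ k
    have e2 : cyc (k + 1 + 1) = cyc k + 2 := by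
      rw [cyc_succ, cyc_succ, add_assoc]; rfl
    have e3 : cyc (k + 1 + 1 + 1) = cyc k + 3 := by
      rw [cyc_succ, cyc_succ, cyc_succ, add_assoc, add_assoc]; rfl
    rw [e1, e2, e3]
    linarith
  have hc : ∀ k, cyc (k + 3 + 1) = cyc (k + 1) := fun k => by
    rw [show k + 3 + 1 = (k + 1) + 3 by ring, cyc_add3]
  rw [periodic_sum (fun k => w (cyc (k + 1)) / n
      * ((∑ l ∈ range k, v (cyc (l + 1))) + v (cyc (k + 1)) / 2) ^ 2)
      (fun k => by simp only [hS, hc]),
    periodic_sum (fun k => w (cyc (k + 1)) / n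
      * ((∑ l ∈ range k, v (cyc (l + 1))) + v (cyc (k + 1)) / 2))
      (fun k => by simp only [hS, hc])]
  have e1 : cyc 1 = 1 := rfl
  have e2 : cyc 2 = 2 := rfl
  have e3 : cyc 3 = 0 := rfl
  simp only [sum_range_succ, range_zero, sum_empty, zero_add, Nat.reduceAdd, e1, e2, e3, Vmin]
  have hv2 : v 2 = -v 0 - v 1 := by linarith
  have hw2 : w 2 = 1 - w 0 - w 1 := by linarith
  rw [hv2, hw2]
  field_simp
  ring

end

end Pool.Agent.Q94.CY
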