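import Mathlib

/-! Eigenvalue and torsional rigidity for seminorms in the plane: definitions, seminorms. -/

namespace Pool.Agent.MaxSemi

open MeasureTheory Set
open scoped NNReal

/-- The Euclidean norm of a vector of the plane. -/
noncomputable def en (ξ : ℝ × ℝ) : ℝ := Real.sqrt (ξ.1 ^ 2 + ξ.2 ^ 2)

/-- Seminorms `H` of norm `sup H(ξ)/|ξ|` equal to one. -/
def UnitSemi (H : Seminorm ℝ (ℝ × ℝ)) : Prop := sSup {t : ℝ | ∃ ξ, ξ ≠ 0 ∧ t = H ξ / en ξ} = 1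

/-- The gradient of `u` at `z` (almost everywhere defined, for Lipschitz functions). -/
noncomputable def grad (u : ℝ × ℝ → ℝ) (z : ℝ × ℝ) : ℝ × ℝ :=
  (fderiv ℝ u z (1, 0), fderiv ℝ u z (0, 1))

/-- Lipschitz functions with compact support contained in `Ω`. -/
def Adm (Ω : Set (ℝ × ℝ)) (u : ℝ × ℝ → ℝ) : Prop :=
  (∃ C : ℝ≥0, LipschitzWith C u) ∧ HasCompactSupport u ∧ tsupport u ⊆ Ω

/-- The anisotropic energy. -/
noncomputable def energy (Ω : Set (ℝ × ℝ)) (H : Seminorm ℝ (ℝ × ℝ)) (u : ℝ × ℝ → ℝ) : ℝ :=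
  ∫ z in Ω, H (grad u z) ^ 2

/-- The first eigenvalue. -/
noncomputable def lam (Ω : Set (ℝ × ℝ)) (H : Seminorm ℝ (ℝ × ℝ)) : ℝ :=
  sInf {t : ℝ | ∃ u, Adm Ω u ∧ u ≠ 0 ∧ t = energy Ω H u / ∫ z in Ω, u z ^ 2}

/-- The torsional rigidity. -/
noncomputable def tors (Ω : Set (ℝ × ℝ)) (H : Seminorm ℝ (ℝ × ℝ)) : ℝ :=
  sSup {t : ℝ | ∃ u, Adm Ω u ∧ u ≠ 0 ∧ t = (∫ z in Ω, u z) ^ 2 / energy Ω H u}

/-- The functional `F_q`. -/
noncomputable def Fq (q : ℝ) (Ω : Set (ℝ × ℝ)) (H : Seminorm ℝ (ℝ × ℝ)) : ℝ :=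
  lam Ω H * tors Ω H ^ q

/-- The values of `F_q` on the seminorms of norm one. -/
def values (q : ℝ) (Ω : Set (ℝ × ℝ)) : Set ℝ := {t : ℝ | ∃ H, UnitSemi H ∧ t = Fq q Ω H}

/-! ### Seminorms -/

theorem en_pos {ξ : ℝ × ℝ} (h : ξ ≠ 0) : 0 < en ξ := by
  unfold en
  apply Real.sqrt_pos.mpr
  rcases eq_or_ne ξ.1 0 with h1 | h1
  · rcases eq_or_ne ξ.2 0 with h2 | h2
    · exact absurd (Prod.ext h1 h2) h
    · positivity
  · positivity

theorem en_sq (ξ : ℝ × ℝ) : en ξ ^ 2 = ξ.1 ^ 2 + ξ.2 ^ 2 := by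
  unfold en
  rw [Real.sq_sqrt (by positivity)]

theorem en_nonneg (ξ : ℝ × ℝ) : 0 ≤ en ξ := Real.sqrt_nonneg _

theorem abs_fst_le (ξ : ℝ × ℝ) : |ξ.1| ≤ en ξ := by
  unfold en
  refine Real.le_sqrt_of_sq_le ?_
  rw [sq_abs]; nlinarith [sq_nonneg ξ.2]

theorem abs_snd_le (ξ : ℝ × ℝ) : |ξ.2| ≤ en ξ := by
  unfold en
  refine Real.le_sqrt_of_sq_le ?_
  rw [sq_abs]; nlinarith [sq_nonneg ξ.1]

theorem semi_le (H : Seminorm ℝ (ℝ × ℝ)) (ξ : ℝ × ℝ) :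
    H ξ ≤ (H (1, 0) + H (0, 1)) * en ξ := by
  have h1 : ξ = ξ.1 • ((1, 0) : ℝ × ℝ) + ξ.2 • ((0, 1) : ℝ × ℝ) := by
    ext <;> simp
  have h2 : H ξ ≤ |ξ.1| * H (1, 0) + |ξ.2| * H (0, 1) := by
    conv_lhs => rw [h1]
    refine (map_add_le_add H _ _).trans (le_of_eq ?_)
    rw [map_smul_eq_mul, map_smul_eq_mul, Real.norm_eq_abs, Real.norm_eq_abs]
  have h3 := abs_fst_le ξ
  have h4 := abs_snd_le ξ
  have h5 : 0 ≤ H (1, 0) := apply_nonneg H _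
  have h6 : 0 ≤ H (0, 1) := apply_nonneg H _
  nlinarith

theorem UnitSemi.le {H : Seminorm ℝ (ℝ × ℝ)} (h : UnitSemi H) (ξ : ℝ × ℝ) : H ξ ≤ en ξ := by
  by_cases h0 : ξ = 0
  · subst h0
    rw [map_zero]; exact en_nonneg _
  · have hb : BddAbove {t : ℝ | ∃ ξ, ξ ≠ 0 ∧ t = H ξ / en ξ} := by
      refine ⟨H (1, 0) + H (0, 1), ?_⟩
      rintro t ⟨η, hη, rfl⟩
      rw [div_le_iff₀ (en_pos hη)]
      exact semi_le H η
    have h1 := le_csSup hb ⟨ξ, h0, rfl⟩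
    rw [h, div_le_one (en_pos h0)] at h1
    exact h1

theorem semi_cont (H : Seminorm ℝ (ℝ × ℝ)) : Continuous H := by
  have hC : 0 ≤ H (1, 0) + H (0, 1) := add_nonneg (apply_nonneg H _) (apply_nonneg H _)
  have : LipschitzWith ((H (1, 0) + H (0, 1)) * 2).toNNReal H := by
    refine LipschitzWith.of_dist_le_mul fun ξ η => ?_
    rw [Real.coe_toNNReal _ (by positivity), Real.dist_eq]
    have h1 : |H ξ - H η| ≤ H (ξ - η) := abs_sub_map_le_sub H ξ η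
    have h2 := semi_le H (ξ - η)
    have h3 : en (ξ - η) ≤ 2 * dist ξ η := by
      have h4 : |(ξ - η).1| ≤ dist ξ η := by
        rw [Prod.dist_eq]
        exact le_max_left _ _
      have h5 : |(ξ - η).2| ≤ dist ξ η := by
        rw [Prod.dist_eq]
        exact le_max_right _ _
      unfold en
      rw [Real.sqrt_le_left (by positivity)]
      have h6 : (ξ - η).1 ^ 2 ≤ dist ξ η ^ 2 := by
        rw [← sq_abs]; gcongr
      have h7 : (ξ - η).2 ^ 2 ≤ dist ξ η ^ 2 := by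
        rw [← sq_abs]; gcongr
      nlinarith [sq_nonneg (dist ξ η)]
    calc |H ξ - H η| ≤ (H (1, 0) + H (0, 1)) * en (ξ - η) := h1.trans h2
      _ ≤ (H (1, 0) + H (0, 1)) * (2 * dist ξ η) := by gcongr
      _ = _ := by ring
  exact this.continuous

theorem en_cont : Continuous en := by
  unfold en; fun_prop

theorem UnitSemi.exists_max {H : Seminorm ℝ (ℝ × ℝ)} (h : UnitSemi H) :
    ∃ ν, en ν = 1 ∧ H ν = 1 := by
  have hcomp : IsCompact {ξ : ℝ × ℝ | en ξ = 1} := by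
    refine Metric.isCompact_of_isClosed_isBounded (isClosed_eq en_cont continuous_const) ?_
    refine (Metric.isBounded_closedBall (x := (0 : ℝ × ℝ)) (r := 1)).subset ?_
    intro ξ hξ
    have hξ' : en ξ = 1 := hξ
    rw [mem_closedBall_zero_iff, Prod.norm_def]
    refine max_le ?_ ?_
    · rw [Real.norm_eq_abs, ← hξ']; exact abs_fst_le ξ
    · rw [Real.norm_eq_abs, ← hξ']; exact abs_snd_le ξ
  have hne : {ξ : ℝ × ℝ | en ξ = 1}.Nonempty := ⟨(1, 0), by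
    change en (1, 0) = 1
    simp [en]⟩
  obtain ⟨ν, hν, hmax⟩ := hcomp.exists_isMaxOn hne (semi_cont H).continuousOn
  have hν' : en ν = 1 := hν
  refine ⟨ν, hν', le_antisymm ?_ ?_⟩
  · rw [← hν']; exact h.le ν
  · have h1 : sSup {t : ℝ | ∃ ξ, ξ ≠ 0 ∧ t = H ξ / en ξ} ≤ H ν := by
      refine csSup_le ⟨H (1, 0) / en (1, 0), (1, 0), by simp, rfl⟩ ?_
      rintro t ⟨ξ, hξ, rfl⟩
      have hp := en_pos hξ
      have h2 : en ((en ξ)⁻¹ • ξ) = 1 := by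
        have h4 : en ((en ξ)⁻¹ • ξ) ^ 2 = 1 := by
          rw [en_sq]
          simp only [Prod.smul_fst, Prod.smul_snd, smul_eq_mul, mul_pow]
          rw [← mul_add, ← en_sq]
          field_simp
        have h5 := en_nonneg ((en ξ)⁻¹ • ξ)
        nlinarith
      have h3 := hmax (show ((en ξ)⁻¹ • ξ) ∈ {ξ : ℝ × ℝ | en ξ = 1} from h2)
      simp only [Set.mem_ofPred_eq] at h3
      rw [map_smul_eq_mul, Real.norm_eq_abs, abs_of_pos (inv_pos.mpr hp)] at h3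
      rw [div_eq_inv_mul]
      exact h3
    rw [h] at h1
    exact h1

/-- support functionals -/
theorem exists_functional (H : Seminorm ℝ (ℝ × ℝ)) (v : ℝ × ℝ) :
    ∃ l : ℝ × ℝ, (∀ ξ : ℝ × ℝ, |l.1 * ξ.1 + l.2 * ξ.2| ≤ H ξ) ∧ l.1 * v.1 + l.2 * v.2 = H v := by
  by_cases hv : v = 0
  · refine ⟨0, fun ξ => by simp [apply_nonneg], ?_⟩
    rw [hv]; simp
  · set f : Module.Dual ℝ (Submodule.span ℝ {v}) :=
      (H v) • (LinearEquiv.coord ℝ (ℝ × ℝ) v hv : Submodule.span ℝ {v} →ₗ[ℝ] ℝ) with hf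
    have hfa : ∀ x : Submodule.span ℝ {v}, f x = H v * LinearEquiv.coord ℝ (ℝ × ℝ) v hv x := by
      intro x; rw [hf]; rfl
    obtain ⟨g, hg1, hg2⟩ := Module.Dual.exists_extension_of_le_seminorm_real
      (Submodule.span ℝ {v}) f (p := H) (by
        intro x
        have h1 := LinearEquiv.coord_apply_smul ℝ (ℝ × ℝ) v hv x
        have h2 : H (x : ℝ × ℝ) = |LinearEquiv.coord ℝ (ℝ × ℝ) v hv x| * H v := by
          conv_lhs => rw [← h1]
          rw [map_smul_eq_mul, Real.norm_eq_abs]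
        rw [h2, hfa, mul_comm]
        exact mul_le_mul_of_nonneg_right (le_abs_self _) (apply_nonneg H v))
    have hgl : ∀ ξ : ℝ × ℝ, g ξ = g (1, 0) * ξ.1 + g (0, 1) * ξ.2 := by
      intro ξ
      have h1 : ξ = ξ.1 • ((1, 0) : ℝ × ℝ) + ξ.2 • ((0, 1) : ℝ × ℝ) := by
        ext <;> simp
      conv_lhs => rw [h1]
      rw [map_add, map_smul, map_smul, smul_eq_mul, smul_eq_mul]; ring
    refine ⟨(g (1, 0), g (0, 1)), ?_, ?_⟩
    · intro ξ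
      simp only
      rw [← hgl]
      exact hg2 ξ
    · simp only
      rw [← hgl]
      have hmem : v ∈ Submodule.span ℝ {v} := Submodule.mem_span_singleton_self v
      have h1 := hg1 ⟨v, hmem⟩
      simp only at h1
      rw [h1, hfa]
      have h2 : LinearEquiv.coord ℝ (ℝ × ℝ) v hv ⟨v, hmem⟩ = 1 :=
        LinearEquiv.coord_self ℝ (ℝ × ℝ) v hv
      rw [h2, mul_one]

theorem UnitSemi.exists_dir {H : Seminorm ℝ (ℝ × ℝ)} (h : UnitSemi H) :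
    ∃ ν : ℝ × ℝ, ν.1 ^ 2 + ν.2 ^ 2 = 1 ∧ ∀ ξ : ℝ × ℝ, |ν.1 * ξ.1 + ν.2 * ξ.2| ≤ H ξ := by
  obtain ⟨ν, hν, hH⟩ := h.exists_max
  obtain ⟨l, hl, hlν⟩ := exists_functional H ν
  have h1 : ν.1 ^ 2 + ν.2 ^ 2 = 1 := by rw [← en_sq, hν]; norm_num
  have h2 : l.1 ^ 2 + l.2 ^ 2 ≤ 1 := by
    have h3 := (hl l).trans (h.le l)
    have h4 : l.1 * l.1 + l.2 * l.2 = en l ^ 2 := by rw [en_sq]; ring
    rw [h4, abs_of_nonneg (by positivity)] at h3
    have h5 := en_nonneg l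
    have h6 : en l ≤ 1 := by
      by_contra hcon
      push Not at hcon
      nlinarith
    rw [← en_sq]
    nlinarith
  rw [hH] at hlν
  have h3 : (l.1 - ν.1) ^ 2 + (l.2 - ν.2) ^ 2 ≤ 0 := by nlinarith
  have h4 : l.1 = ν.1 := by nlinarith [sq_nonneg (l.1 - ν.1), sq_nonneg (l.2 - ν.2)]
  have h5 : l.2 = ν.2 := by nlinarith [sq_nonneg (l.1 - ν.1), sq_nonneg (l.2 - ν.2)]
  exact ⟨ν, h1, fun ξ => by rw [← h4, ← h5]; exact hl ξ⟩

end Pool.Agent.MaxSemi
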