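import Pool.Agent.Q94.DCA

/-! Calculus of Lipschitz functions with compact support in the plane. -/

namespace Pool.Agent.MaxSemi

open MeasureTheory Set Filter Topology
open scoped NNReal

theorem integrable_of_bdd {f : ℝ × ℝ → ℝ} (hm : Measurable f) {M : ℝ} (hM : ∀ z, |f z| ≤ M)
    {K : Set (ℝ × ℝ)} (hK : IsCompact K) (h0 : ∀ z, z ∉ K → f z = 0) : Integrable f := by
  have h1 : IntegrableOn f K := by
    refine Measure.integrableOn_of_bounded (M := M) hK.measure_lt_top.ne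
      hm.aestronglyMeasurable (Eventually.of_forall fun z => ?_)
    rw [Real.norm_eq_abs]; exact hM z
  rwa [integrableOn_iff_integrable_of_support_subset] at h1
  intro z hz
  by_contra hcon
  exact hz (h0 z hcon)

section

variable {u : ℝ × ℝ → ℝ} {C : ℝ≥0}

theorem D_bound (hu : LipschitzWith C u) (z v : ℝ × ℝ) : |fderiv ℝ u z v| ≤ C * ‖v‖ := by
  have h1 := norm_fderiv_le_of_lipschitz ℝ hu (x₀ := z)
  have h2 := (fderiv ℝ u z).le_opNorm v
  rw [Real.norm_eq_abs] at h2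
  exact h2.trans (mul_le_mul_of_nonneg_right h1 (norm_nonneg _))

theorem D_off {z : ℝ × ℝ} (hz : z ∉ tsupport u) : fderiv ℝ u z = 0 :=
  fderiv_of_notMem_tsupport ℝ hz

theorem D_meas (u : ℝ × ℝ → ℝ) (v : ℝ × ℝ) : Measurable (fun z => fderiv ℝ u z v) :=
  measurable_fderiv_apply_const ℝ u v

theorem grad_meas (u : ℝ × ℝ → ℝ) : Measurable (grad u) :=
  (D_meas u (1, 0)).prodMk (D_meas u (0, 1))

theorem grad_off {z : ℝ × ℝ} (hz : z ∉ tsupport u) : grad u z = 0 := by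
  unfold grad
  rw [D_off hz]; rfl

theorem grad_dot (u : ℝ × ℝ → ℝ) (z v : ℝ × ℝ) :
    v.1 * (grad u z).1 + v.2 * (grad u z).2 = fderiv ℝ u z v := by
  have h1 : v = v.1 • ((1, 0) : ℝ × ℝ) + v.2 • ((0, 1) : ℝ × ℝ) := by
    ext <;> simp
  unfold grad
  conv_rhs => rw [h1]
  rw [map_add, map_smul, map_smul, smul_eq_mul, smul_eq_mul]

theorem grad_bound (hu : LipschitzWith C u) (z : ℝ × ℝ) : en (grad u z) ≤ 2 * C := by
  have h1 := D_bound hu z (1, 0)
  have h2 := D_bound hu z (0, 1)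
  have e1 : ‖((1, 0) : ℝ × ℝ)‖ = 1 := by simp [Prod.norm_def]
  have e2 : ‖((0, 1) : ℝ × ℝ)‖ = 1 := by simp [Prod.norm_def]
  rw [e1, mul_one] at h1
  rw [e2, mul_one] at h2
  unfold en grad
  rw [Real.sqrt_le_left (by positivity)]
  have h3 : (fderiv ℝ u z (1, 0)) ^ 2 ≤ (C : ℝ) ^ 2 := by rw [← sq_abs]; gcongr
  have h4 : (fderiv ℝ u z (0, 1)) ^ 2 ≤ (C : ℝ) ^ 2 := by rw [← sq_abs]; gcongr
  nlinarith [sq_nonneg (C : ℝ)]

theorem ae_diff (hu : LipschitzWith C u) : ∀ᵐ z : ℝ × ℝ, DifferentiableAt ℝ u z :=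
  hu.ae_differentiableAt

/-- integration by parts -/
theorem ibp {g : ℝ × ℝ → ℝ} {B : ℝ≥0} (hu : LipschitzWith C u) (hc : HasCompactSupport u)
    (hg : LipschitzWith B g) (v : ℝ × ℝ) :
    ∫ z, fderiv ℝ u z v * g z = - ∫ z, u z * fderiv ℝ g z v := by
  have h1 := LipschitzWith.integral_lineDeriv_mul_eq (μ := (volume : Measure (ℝ × ℝ))) hg hu hc (-v)
  rw [neg_neg] at h1
  have h2 : ∫ z, lineDeriv ℝ u z v * g z = ∫ z, fderiv ℝ u z v * g z := by
    refine integral_congr_ae ?_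
    filter_upwards [ae_diff hu] with z hz
    rw [hz.lineDeriv_eq_fderiv]
  have h3 : ∫ z, lineDeriv ℝ g z (-v) * u z = - ∫ z, u z * fderiv ℝ g z v := by
    rw [← integral_neg]
    refine integral_congr_ae ?_
    filter_upwards [ae_diff hg] with z hz
    rw [hz.lineDeriv_eq_fderiv, map_neg]; ring
  rw [← h2, ← h3, h1]

/-- gradient of a minimum -/
theorem min_ae {v : ℝ × ℝ → ℝ} {B : ℝ≥0} (hu : LipschitzWith C u) (hv : LipschitzWith B v) :
    ∀ᵐ z : ℝ × ℝ, (u z ≤ v z → fderiv ℝ (fun z => min (u z) (v z)) z = fderiv ℝ u z) ∧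
      (v z ≤ u z → fderiv ℝ (fun z => min (u z) (v z)) z = fderiv ℝ v z) := by
  have hm : LipschitzWith (max C B) (fun z => min (u z) (v z)) := hu.min hv
  filter_upwards [ae_diff hu, ae_diff hv, ae_diff hm] with z h1 h2 h3
  have key : ∀ w : ℝ × ℝ → ℝ, DifferentiableAt ℝ w z → (∀ y, min (u y) (v y) ≤ w y) →
      min (u z) (v z) = w z → fderiv ℝ (fun z => min (u z) (v z)) z = fderiv ℝ w z := by
    intro w hw hle heq
    have hloc : IsLocalMin (fun y => w y - min (u y) (v y)) z := by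
      refine Eventually.of_forall fun y => ?_
      simp only
      rw [heq, sub_self]
      have := hle y
      linarith
    have h4 := hloc.fderiv_eq_zero
    rw [fderiv_fun_sub hw h3] at h4
    exact (sub_eq_zero.mp h4).symm
  constructor
  · intro h
    exact key u h1 (fun y => min_le_left _ _) (min_eq_left h)
  · intro h
    exact key v h2 (fun y => min_le_right _ _) (min_eq_right h)

/-- gradient of the positive part -/
theorem pos_ae (hu : LipschitzWith C u) :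
    ∀ᵐ z : ℝ × ℝ, (0 ≤ u z → fderiv ℝ (fun z => max (u z) 0) z = fderiv ℝ u z) ∧
      (u z ≤ 0 → fderiv ℝ (fun z => max (u z) 0) z = 0) := by
  have hm : LipschitzWith C (fun z => max (u z) 0) := by
    have := hu.max (LipschitzWith.const (0 : ℝ) (α := ℝ × ℝ))
    simpa using this
  filter_upwards [ae_diff hu, ae_diff hm] with z h1 h3
  have key : ∀ w : ℝ × ℝ → ℝ, DifferentiableAt ℝ w z → (∀ y, w y ≤ max (u y) 0) →
      max (u z) 0 = w z → fderiv ℝ (fun z => max (u z) 0) z = fderiv ℝ w z := by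
    intro w hw hle heq
    have hloc : IsLocalMin (fun y => max (u y) 0 - w y) z := by
      refine Eventually.of_forall fun y => ?_
      simp only
      rw [heq, sub_self]
      have := hle y
      linarith
    have h4 := hloc.fderiv_eq_zero
    rw [fderiv_fun_sub h3 hw] at h4
    exact sub_eq_zero.mp h4
  constructor
  · intro h
    exact key u h1 (fun y => le_max_left _ _) (max_eq_left h)
  · intro h
    have := key (fun _ => 0) (differentiableAt_const _) (fun y => le_max_right _ _) (max_eq_right h)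
    rw [this]; simp

end

/-! ### admissible functions -/

variable {Ω : Set (ℝ × ℝ)}

theorem Adm.of_zero {u w : ℝ × ℝ → ℝ} (hu : Adm Ω u) (hw : ∃ C : ℝ≥0, LipschitzWith C w)
    (h : ∀ z, u z = 0 → w z = 0) : Adm Ω w := by
  obtain ⟨-, h2, h3⟩ := hu
  have hs : Function.support w ⊆ Function.support u := by
    intro z hz hz'
    exact hz (h z hz')
  refine ⟨hw, h2.mono hs, (closure_mono hs).trans h3⟩

theorem Adm.mono {Ω' : Set (ℝ × ℝ)} {u : ℝ × ℝ → ℝ} (hu : Adm Ω u) (h : Ω ⊆ Ω') : Adm Ω' u :=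
  ⟨hu.1, hu.2.1, hu.2.2.trans h⟩

theorem Adm.zero_off {u : ℝ × ℝ → ℝ} (hu : Adm Ω u) {z : ℝ × ℝ} (hz : z ∉ Ω) : u z = 0 := by
  by_contra h
  exact hz (hu.2.2 (subset_tsupport u h))

theorem Adm.cont {u : ℝ × ℝ → ℝ} (hu : Adm Ω u) : Continuous u := by
  obtain ⟨⟨C, hC⟩, -⟩ := hu
  exact hC.continuous

theorem Adm.integrable {u : ℝ × ℝ → ℝ} (hu : Adm Ω u) : Integrable u :=
  hu.cont.integrable_of_hasCompactSupport hu.2.1

theorem Adm.integrable_sq {u : ℝ × ℝ → ℝ} (hu : Adm Ω u) : Integrable (fun z => u z ^ 2) := by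
  refine (hu.cont.pow 2).integrable_of_hasCompactSupport ?_
  refine hu.2.1.mono ?_
  intro z hz hz'
  exact hz (by rw [Pi.pow_apply, hz']; norm_num)

theorem Adm.setInt {u : ℝ × ℝ → ℝ} (hu : Adm Ω u) : ∫ z in Ω, u z = ∫ z, u z :=
  setIntegral_eq_integral_of_forall_compl_eq_zero fun _ hz => hu.zero_off hz

theorem Adm.setInt_sq {u : ℝ × ℝ → ℝ} (hu : Adm Ω u) : ∫ z in Ω, u z ^ 2 = ∫ z, u z ^ 2 :=
  setIntegral_eq_integral_of_forall_compl_eq_zero fun _ hz => by rw [hu.zero_off hz]; norm_num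

/-- the energy on the whole plane -/
noncomputable def EE (H : Seminorm ℝ (ℝ × ℝ)) (u : ℝ × ℝ → ℝ) : ℝ := ∫ z, H (grad u z) ^ 2

theorem Adm.energy_eq {u : ℝ × ℝ → ℝ} (hu : Adm Ω u) (H : Seminorm ℝ (ℝ × ℝ)) :
    energy Ω H u = EE H u := by
  unfold energy EE
  refine setIntegral_eq_integral_of_forall_compl_eq_zero fun z hz => ?_
  rw [grad_off (fun h => hz (hu.2.2 h)), map_zero]; norm_num

theorem Adm.integrable_energy {u : ℝ × ℝ → ℝ} (hu : Adm Ω u) (H : Seminorm ℝ (ℝ × ℝ)) :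
    Integrable (fun z => H (grad u z) ^ 2) := by
  obtain ⟨⟨C, hC⟩, h2, h3⟩ := hu
  refine integrable_of_bdd (M := ((H (1, 0) + H (0, 1)) * (2 * C)) ^ 2)
    (((semi_cont H).measurable.comp (grad_meas u)).pow_const 2) ?_ h2 ?_
  · intro z
    have h0 : 0 ≤ H (grad u z) := apply_nonneg H _
    rw [abs_of_nonneg (by positivity)]
    have h1 := semi_le H (grad u z)
    have h4 := grad_bound hC z
    have hH : 0 ≤ H (1, 0) + H (0, 1) := add_nonneg (apply_nonneg H _) (apply_nonneg H _)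
    have h5 : H (grad u z) ≤ (H (1, 0) + H (0, 1)) * (2 * C) :=
      h1.trans (mul_le_mul_of_nonneg_left h4 hH)
    gcongr
  · intro z hz
    rw [grad_off hz, map_zero]; norm_num

theorem Adm.integrable_D {u : ℝ × ℝ → ℝ} (hu : Adm Ω u) (v : ℝ × ℝ) :
    Integrable (fun z => fderiv ℝ u z v) := by
  obtain ⟨⟨C, hC⟩, h2, h3⟩ := hu
  refine integrable_of_bdd (M := C * ‖v‖) (D_meas u v) (fun z => D_bound hC z v) h2 ?_
  intro z hz
  rw [D_off hz]; rfl

theorem Adm.integrable_D_mul {u : ℝ × ℝ → ℝ} (hu : Adm Ω u) (v : ℝ × ℝ) {g : ℝ × ℝ → ℝ}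
    (hg : Continuous g) : Integrable (fun z => fderiv ℝ u z v * g z) := by
  obtain ⟨⟨C, hC⟩, h2, h3⟩ := hu
  obtain ⟨M, hM⟩ := h2.isCompact.exists_bound_of_continuousOn hg.continuousOn
  refine integrable_of_bdd (M := C * ‖v‖ * |M|) ((D_meas u v).mul hg.measurable) ?_ h2 ?_
  · intro z
    rw [abs_mul]
    by_cases hz : z ∈ tsupport u
    · have h4 := hM z hz
      rw [Real.norm_eq_abs] at h4
      have h5 : |g z| ≤ |M| := h4.trans (le_abs_self M)
      have h6 := D_bound hC z v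
      gcongr
    · rw [D_off hz]
      simp only [zero_apply, abs_zero, zero_mul]
      positivity
  · intro z hz
    rw [D_off hz]; simp

theorem Adm.integrable_D_sq {u : ℝ × ℝ → ℝ} (hu : Adm Ω u) (v : ℝ × ℝ) :
    Integrable (fun z => (fderiv ℝ u z v) ^ 2) := by
  obtain ⟨⟨C, hC⟩, h2, h3⟩ := hu
  refine integrable_of_bdd (M := (C * ‖v‖) ^ 2) ((D_meas u v).pow_const 2) ?_ h2 ?_
  · intro z
    rw [abs_pow]
    have h6 := D_bound hC z v
    gcongr
  · intro z hz
    rw [D_off hz]; simp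

/-- energies dominate directional energies -/
theorem Adm.D_le {u : ℝ × ℝ → ℝ} (hu : Adm Ω u) {H : Seminorm ℝ (ℝ × ℝ)} {v : ℝ × ℝ}
    (hv : ∀ ξ : ℝ × ℝ, |v.1 * ξ.1 + v.2 * ξ.2| ≤ H ξ) : ∫ z, (fderiv ℝ u z v) ^ 2 ≤ EE H u := by
  unfold EE
  refine integral_mono (hu.integrable_D_sq v) (hu.integrable_energy H) fun z => ?_
  simp only
  rw [← grad_dot, ← sq_abs]
  have := hv (grad u z)
  gcongr

end Pool.Agent.MaxSemi
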