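import Pool.Agent.Q94.DCB

/-! The flux bound for the torsional rigidity; basic facts on the two functionals. -/

namespace Pool.Agent.MaxSemi

open MeasureTheory Set Filter Topology
open scoped NNReal

variable {Ω : Set (ℝ × ℝ)} {H : Seminorm ℝ (ℝ × ℝ)}

/-- the rectangle -/
def Rect : Set (ℝ × ℝ) := Ioo 0 2 ×ˢ Ioo 0 1

theorem grad_smul (t : ℝ) (u : ℝ × ℝ → ℝ) (z : ℝ × ℝ) :
    grad (fun z => t * u z) z = t • grad u z := by
  have h : fderiv ℝ (fun z => t * u z) z = t • fderiv ℝ u z := by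
    have := congrFun (fderiv_const_smul_field (𝕜 := ℝ) (f := u) t) z
    exact this
  unfold grad
  rw [h]; rfl

theorem EE_smul (t : ℝ) (u : ℝ × ℝ → ℝ) : EE H (fun z => t * u z) = t ^ 2 * EE H u := by
  unfold EE
  rw [← integral_const_mul]
  refine integral_congr_ae (Eventually.of_forall fun z => ?_)
  simp only
  rw [grad_smul, map_smul_eq_mul, mul_pow, Real.norm_eq_abs, sq_abs]

theorem Adm.smul {u : ℝ × ℝ → ℝ} (hu : Adm Ω u) (t : ℝ) : Adm Ω (fun z => t * u z) := by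
  refine hu.of_zero ?_ (fun z hz => by rw [hz, mul_zero])
  obtain ⟨⟨C, hC⟩, -⟩ := hu
  refine ⟨Real.nnabs t * C, ?_⟩
  refine LipschitzWith.of_dist_le_mul fun x y => ?_
  rw [Real.dist_eq, ← mul_sub, abs_mul]
  have h1 := hC.dist_le_mul x y
  rw [Real.dist_eq] at h1
  push_cast
  rw [mul_assoc]
  exact mul_le_mul_of_nonneg_left h1 (abs_nonneg t)

theorem EE_nonneg (u : ℝ × ℝ → ℝ) : 0 ≤ EE H u := integral_nonneg fun z => by positivity

/-- scaling -/
theorem sq_le_of_forall {A : ℝ} (hA : ∀ u, Adm Ω u → 2 * ∫ z, u z ≤ A + EE H u)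
    {u : ℝ × ℝ → ℝ} (hu : Adm Ω u) : (∫ z, u z) ^ 2 ≤ A * EE H u := by
  have h1 : ∀ t : ℝ, 2 * (t * ∫ z, u z) ≤ A + t ^ 2 * EE H u := by
    intro t
    have := hA _ (hu.smul t)
    rw [EE_smul, integral_const_mul] at this
    exact this
  have hE := EE_nonneg (H := H) u
  rcases hE.eq_or_lt with hE | hE
  · rw [← hE, mul_zero]
    rw [← hE] at h1
    by_contra hcon
    push Not at hcon
    have hI : ∫ z, u z ≠ 0 := by
      intro h0
      rw [h0] at hcon
      norm_num at hcon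
    have := h1 ((A + 1) / (2 * ∫ z, u z))
    have h3 : 2 * ((A + 1) / (2 * ∫ z, u z) * ∫ z, u z) = A + 1 := by field_simp
    rw [h3] at this
    linarith
  · have := h1 ((∫ z, u z) / EE H u)
    have h3 : 2 * ((∫ z, u z) / EE H u * ∫ z, u z) = 2 * ((∫ z, u z) ^ 2 / EE H u) := by
      field_simp
    have h4 : ((∫ z, u z) / EE H u) ^ 2 * EE H u = (∫ z, u z) ^ 2 / EE H u := by
      field_simp
    rw [h3, h4] at this
    have h5 : (∫ z, u z) ^ 2 / EE H u ≤ A := by linarith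
    rwa [div_le_iff₀ hE] at h5

theorem poly_int (a b c α β : ℝ) : ∫ y in α..β, (a - b * y + c * y ^ 2) =
    a * (β - α) - b * ((β ^ 2 - α ^ 2) / 2) + c * ((β ^ 3 - α ^ 3) / 3) := by
  rw [intervalIntegral.integral_add (Continuous.intervalIntegrable (by fun_prop) _ _)
      (Continuous.intervalIntegrable (by fun_prop) _ _),
    intervalIntegral.integral_sub (Continuous.intervalIntegrable (by fun_prop) _ _)
      (Continuous.intervalIntegrable (by fun_prop) _ _),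
    intervalIntegral.integral_const, intervalIntegral.integral_const_mul,
    intervalIntegral.integral_const_mul, integral_id, integral_pow]
  simp only [smul_eq_mul]
  norm_num
  ring

/-- the integral of the square of the flux potential -/
theorem flux_int (p : ℝ × ℝ) :
    ∫ z in Rect, (p.1 * (1 - z.1) + p.2 * (1 / 2 - z.2)) ^ 2 = (4 * p.1 ^ 2 + p.2 ^ 2) / 6 := by
  unfold Rect
  rw [Measure.volume_eq_prod, setIntegral_prod]
  · have h1 : ∀ x : ℝ, ∫ y in Ioo (0 : ℝ) 1, (p.1 * (1 - x) + p.2 * (1 / 2 - y)) ^ 2 =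
        (p.1 * (1 - x)) ^ 2 + p.2 ^ 2 / 12 := by
      intro x
      rw [← integral_Ioc_eq_integral_Ioo, ← intervalIntegral.integral_of_le (by norm_num)]
      have h2 : ∀ y : ℝ, (p.1 * (1 - x) + p.2 * (1 / 2 - y)) ^ 2 =
          ((p.1 * (1 - x)) ^ 2 + p.1 * (1 - x) * p.2 + p.2 ^ 2 / 4)
          - (2 * (p.1 * (1 - x)) * p.2 + p.2 ^ 2) * y + p.2 ^ 2 * y ^ 2 := by
        intro y; ring
      simp only [h2]
      rw [poly_int]
      ring
    simp only [h1]
    rw [← integral_Ioc_eq_integral_Ioo, ← intervalIntegral.integral_of_le (by norm_num)]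
    have h2 : ∀ x : ℝ, (p.1 * (1 - x)) ^ 2 + p.2 ^ 2 / 12 =
        (p.1 ^ 2 + p.2 ^ 2 / 12) - 2 * p.1 ^ 2 * x + p.1 ^ 2 * x ^ 2 := by
      intro x; ring
    simp only [h2]
    rw [poly_int]
    ring
  · rw [← Measure.volume_eq_prod]
    refine (Continuous.continuousOn (by fun_prop)).integrableOn_compact
      ((isCompact_Icc (a := (0 : ℝ)) (b := 2)).prod (isCompact_Icc (a := (0 : ℝ)) (b := 1)))
      |>.mono_set ?_
    exact prod_mono Ioo_subset_Icc_self Ioo_subset_Icc_self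

theorem lip_lin (p : ℝ × ℝ) : ∃ C : ℝ≥0, LipschitzWith C
    (fun z : ℝ × ℝ => p.1 * (1 - z.1) + p.2 * (1 / 2 - z.2)) := by
  have h1 : (fun z : ℝ × ℝ => p.1 * (1 - z.1) + p.2 * (1 / 2 - z.2)) =
      fun z => (-(p.1 • ContinuousLinearMap.fst ℝ ℝ ℝ + p.2 • ContinuousLinearMap.snd ℝ ℝ ℝ)
        : ℝ × ℝ →L[ℝ] ℝ) z + (p.1 + p.2 / 2) := by
    funext z
    simp
    ring
  rw [h1]
  exact ⟨_, (ContinuousLinearMap.lipschitz _).add (LipschitzWith.const _)⟩

theorem fderiv_lin (p z v : ℝ × ℝ) :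
    fderiv ℝ (fun z : ℝ × ℝ => p.1 * (1 - z.1) + p.2 * (1 / 2 - z.2)) z v
      = -(p.1 * v.1 + p.2 * v.2) := by
  have h1 : HasFDerivAt (fun z : ℝ × ℝ => p.1 * (1 - z.1) + p.2 * (1 / 2 - z.2))
      (-(p.1 • ContinuousLinearMap.fst ℝ ℝ ℝ + p.2 • ContinuousLinearMap.snd ℝ ℝ ℝ)) z := by
    have ha : HasFDerivAt (fun z : ℝ × ℝ => z.1) (ContinuousLinearMap.fst ℝ ℝ ℝ) z := hasFDerivAt_fst
    have hb : HasFDerivAt (fun z : ℝ × ℝ => z.2) (ContinuousLinearMap.snd ℝ ℝ ℝ) z := hasFDerivAt_snd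
    have hc := ((ha.const_sub 1).const_mul p.1).add ((hb.const_sub (1 / 2)).const_mul p.2)
    refine hc.congr_fderiv ?_
    simp
    abel
  rw [h1.fderiv]
  simp

/-- the flux bound -/
theorem flux_bound {u : ℝ × ℝ → ℝ} (hu : Adm Rect u) {ν p : ℝ × ℝ}
    (hp : p.1 * ν.1 + p.2 * ν.2 = 1) :
    2 * ∫ z, u z ≤ (4 * p.1 ^ 2 + p.2 ^ 2) / 6 + ∫ z, (fderiv ℝ u z ν) ^ 2 := by
  obtain ⟨B, hB⟩ := lip_lin p
  obtain ⟨C, hC⟩ := hu.1
  have h1 := ibp hC hu.2.1 hB ν
  simp only [fderiv_lin, hp] at h1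
  have h2 : ∫ z, u z * (-1 : ℝ) = - ∫ z, u z := by
    rw [integral_mul_const]; ring
  rw [h2, neg_neg] at h1
  have hoff : ∀ z, z ∉ Rect → fderiv ℝ u z ν = 0 := by
    intro z hz
    rw [D_off (fun h => hz (hu.2.2 h))]; rfl
  have h3 : ∫ z, fderiv ℝ u z ν * (p.1 * (1 - z.1) + p.2 * (1 / 2 - z.2)) =
      ∫ z in Rect, fderiv ℝ u z ν * (p.1 * (1 - z.1) + p.2 * (1 / 2 - z.2)) :=
    (setIntegral_eq_integral_of_forall_compl_eq_zero fun z hz => by rw [hoff z hz, zero_mul]).symm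
  have h4 : ∫ z, (fderiv ℝ u z ν) ^ 2 = ∫ z in Rect, (fderiv ℝ u z ν) ^ 2 :=
    (setIntegral_eq_integral_of_forall_compl_eq_zero fun z hz => by
      rw [hoff z hz]; norm_num).symm
  rw [← h1, h3, h4, ← flux_int p, ← integral_const_mul, ← integral_add]
  · refine integral_mono ?_ ?_ fun z => ?_
    · exact ((hu.integrable_D_mul ν hB.continuous).integrableOn).const_mul 2
    · refine Integrable.add ?_ (hu.integrable_D_sq ν).integrableOn
      refine (Continuous.continuousOn (by fun_prop)).integrableOn_compact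
        ((isCompact_Icc (a := (0 : ℝ)) (b := 2)).prod (isCompact_Icc (a := (0 : ℝ)) (b := 1)))
        |>.mono_set ?_
      exact prod_mono Ioo_subset_Icc_self Ioo_subset_Icc_self
    · simp only
      nlinarith [sq_nonneg (fderiv ℝ u z ν - (p.1 * (1 - z.1) + p.2 * (1 / 2 - z.2)))]
  · refine (Continuous.continuousOn (by fun_prop)).integrableOn_compact
      ((isCompact_Icc (a := (0 : ℝ)) (b := 2)).prod (isCompact_Icc (a := (0 : ℝ)) (b := 1)))
      |>.mono_set ?_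
    exact prod_mono Ioo_subset_Icc_self Ioo_subset_Icc_self
  · exact (hu.integrable_D_sq ν).integrableOn

end Pool.Agent.MaxSemi
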