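import Pool.Agent.Q94.DCC

/-! The torsional rigidity and the eigenvalue: extremal inequalities. -/

namespace Pool.Agent.MaxSemi

open MeasureTheory Set Filter Topology
open scoped NNReal

variable {Ω : Set (ℝ × ℝ)} {H : Seminorm ℝ (ℝ × ℝ)}

theorem exists_adm {Ω : Set (ℝ × ℝ)} (ho : IsOpen Ω) (hne : Ω.Nonempty) :
    ∃ u, Adm Ω u ∧ u ≠ 0 := by
  obtain ⟨z0, hz0⟩ := hne
  obtain ⟨r, hr, hball⟩ := Metric.isOpen_iff.mp ho z0 hz0
  have hsub : tsupport (fun z => max (r / 2 - dist z z0) 0) ⊆ Metric.closedBall z0 (r / 2) := by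
    refine closure_minimal ?_ Metric.isClosed_closedBall
    intro z hz
    rw [Metric.mem_closedBall]
    by_contra hcon
    push Not at hcon
    apply hz
    simp only
    rw [max_eq_right]
    linarith
  refine ⟨fun z => max (r / 2 - dist z z0) 0, ⟨⟨1, ?_⟩, ?_, ?_⟩, ?_⟩
  · have h1 : LipschitzWith 1 (fun z => r / 2 - dist z z0) := by
      refine LipschitzWith.of_dist_le_mul fun x y => ?_
      rw [Real.dist_eq, NNReal.coe_one, one_mul]
      have : r / 2 - dist x z0 - (r / 2 - dist y z0) = -(dist x z0 - dist y z0) := by ring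
      rw [this, abs_neg]
      exact abs_dist_sub_le x y z0
    have := h1.max (LipschitzWith.const (0 : ℝ) (α := ℝ × ℝ))
    simpa using this
  · exact (isCompact_closedBall z0 (r / 2)).of_isClosed_subset (isClosed_tsupport _) hsub
  · refine (hsub.trans ?_).trans hball
    exact Metric.closedBall_subset_ball (by linarith)
  · intro h
    have := congrFun h z0
    simp only [dist_self, sub_zero, Pi.zero_apply] at this
    rw [max_eq_left (by linarith)] at this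
    linarith

/-- an a priori bound -/
def TBound (Ω : Set (ℝ × ℝ)) (H : Seminorm ℝ (ℝ × ℝ)) (A : ℝ) : Prop :=
  ∀ u, Adm Ω u → 2 * ∫ z, u z ≤ A + EE H u

theorem TBound.ratio {A : ℝ} (hA : TBound Ω H A) {u : ℝ × ℝ → ℝ} (hu : Adm Ω u) (hA0 : 0 ≤ A) :
    (∫ z in Ω, u z) ^ 2 / energy Ω H u ≤ A := by
  rw [hu.setInt, hu.energy_eq]
  have h1 := sq_le_of_forall hA hu
  rcases (EE_nonneg (H := H) u).eq_or_lt with h | h
  · rw [← h, div_zero]; exact hA0
  · rwa [div_le_iff₀ h]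

theorem TBound.bdd {A : ℝ} (hA : TBound Ω H A) (hA0 : 0 ≤ A) :
    BddAbove {t : ℝ | ∃ u, Adm Ω u ∧ u ≠ 0 ∧ t = (∫ z in Ω, u z) ^ 2 / energy Ω H u} := by
  refine ⟨A, ?_⟩
  rintro t ⟨u, hu, -, rfl⟩
  exact hA.ratio hu hA0

theorem TBound.tors_le {A : ℝ} (hA : TBound Ω H A) (hA0 : 0 ≤ A) : tors Ω H ≤ A := by
  unfold tors
  refine Real.sSup_le ?_ hA0
  rintro t ⟨u, hu, -, rfl⟩
  exact hA.ratio hu hA0

theorem tors_nonneg : 0 ≤ tors Ω H := by
  unfold tors
  refine Real.sSup_nonneg ?_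
  rintro t ⟨u, hu, -, rfl⟩
  rw [hu.energy_eq]
  exact div_nonneg (sq_nonneg _) (EE_nonneg u)

/-- (T1) -/
theorem TBound.sq_le {A : ℝ} (hA : TBound Ω H A) (hA0 : 0 ≤ A) {u : ℝ × ℝ → ℝ} (hu : Adm Ω u) :
    (∫ z, u z) ^ 2 ≤ tors Ω H * EE H u := by
  by_cases h0 : u = 0
  · subst h0
    have h1 : EE H 0 = 0 := by
      unfold EE
      have : ∀ z, grad (0 : ℝ × ℝ → ℝ) z = 0 := by
        intro z
        unfold grad
        have : fderiv ℝ (0 : ℝ × ℝ → ℝ) z = 0 := by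
          have := fderiv_const_apply (𝕜 := ℝ) (E := ℝ × ℝ) (0 : ℝ) (x := z)
          exact this
        rw [this]; rfl
      simp [this]
    rw [h1]
    simp
  · rcases (EE_nonneg (H := H) u).eq_or_lt with h | h
    · have h1 := sq_le_of_forall hA hu
      rw [← h, mul_zero] at h1
      rw [← h, mul_zero]; exact h1
    · have h1 := le_csSup (hA.bdd hA0) ⟨u, hu, h0, rfl⟩
      rw [hu.setInt, hu.energy_eq, div_le_iff₀ h] at h1
      exact h1

theorem TBound.tors' {A : ℝ} (hA : TBound Ω H A) (hA0 : 0 ≤ A) : TBound Ω H (tors Ω H) := by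
  intro u hu
  have h1 := hA.sq_le hA0 hu
  have h2 := EE_nonneg (H := H) u
  have h3 := tors_nonneg (Ω := Ω) (H := H)
  by_contra hcon
  push Not at hcon
  have h4 : (tors Ω H + EE H u) ^ 2 < (2 * ∫ z, u z) ^ 2 := by
    have : 0 ≤ tors Ω H + EE H u := by positivity
    gcongr
  nlinarith [sq_nonneg (tors Ω H - EE H u)]

/-- (T2) -/
theorem exists_near (ho : IsOpen Ω) (hne : Ω.Nonempty) {ε : ℝ} (hε : 0 < ε) :
    ∃ u, Adm Ω u ∧ tors Ω H - ε ≤ 2 * (∫ z, u z) - EE H u := by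
  have hne' : {t : ℝ | ∃ u, Adm Ω u ∧ u ≠ 0 ∧ t = (∫ z in Ω, u z) ^ 2 / energy Ω H u}.Nonempty := by
    obtain ⟨u, hu, h0⟩ := exists_adm ho hne
    exact ⟨_, u, hu, h0, rfl⟩
  obtain ⟨t, ⟨u, hu, h0, rfl⟩, hlt⟩ := exists_lt_of_lt_csSup hne'
    (show tors Ω H - ε < sSup _ by unfold tors; linarith)
  rw [hu.setInt, hu.energy_eq] at hlt
  refine ⟨_, hu.smul ((∫ z, u z) / EE H u), ?_⟩
  rw [EE_smul, integral_const_mul]
  rcases (EE_nonneg (H := H) u).eq_or_lt with h | h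
  · rw [← h] at hlt ⊢
    simp only [div_zero] at hlt ⊢
    linarith
  · have h3 : 2 * ((∫ z, u z) / EE H u * ∫ z, u z) = 2 * ((∫ z, u z) ^ 2 / EE H u) := by
      field_simp
    have h4 : ((∫ z, u z) / EE H u) ^ 2 * EE H u = (∫ z, u z) ^ 2 / EE H u := by
      field_simp
    rw [h3, h4]
    linarith

/-! ### the eigenvalue -/

theorem lam_nonneg : 0 ≤ lam Ω H := by
  unfold lam
  refine Real.sInf_nonneg ?_
  rintro t ⟨u, hu, -, rfl⟩
  rw [hu.energy_eq, hu.setInt_sq]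
  exact div_nonneg (EE_nonneg u) (integral_nonneg fun z => sq_nonneg _)

theorem lam_mul_le {f : ℝ × ℝ → ℝ} (hf : Adm Ω f) : lam Ω H * ∫ z, f z ^ 2 ≤ EE H f := by
  have hI : 0 ≤ ∫ z, f z ^ 2 := integral_nonneg fun z => sq_nonneg _
  rcases hI.eq_or_lt with h | h
  · rw [← h, mul_zero]; exact EE_nonneg f
  · have h0 : f ≠ 0 := by
      rintro rfl
      simp at h
    have hb : BddBelow {t : ℝ | ∃ u, Adm Ω u ∧ u ≠ 0 ∧ t = energy Ω H u / ∫ z in Ω, u z ^ 2} := by
      refine ⟨0, ?_⟩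
      rintro t ⟨u, hu, -, rfl⟩
      rw [hu.energy_eq, hu.setInt_sq]
      exact div_nonneg (EE_nonneg u) (integral_nonneg fun z => sq_nonneg _)
    have h1 := csInf_le hb ⟨f, hf, h0, rfl⟩
    rw [hf.energy_eq, hf.setInt_sq, le_div_iff₀ h] at h1
    exact h1

theorem sq_pos_of_ne {f : ℝ × ℝ → ℝ} (hf : Adm Ω f) (h0 : f ≠ 0) : 0 < ∫ z, f z ^ 2 := by
  obtain ⟨z, hz⟩ := Function.ne_iff.mp h0
  have hz' : f z ≠ 0 := hz
  have h1 : Continuous (fun z => f z ^ 2) := hf.cont.pow 2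
  rw [integral_pos_iff_support_of_nonneg (fun z => sq_nonneg _) hf.integrable_sq]
  have h2 : IsOpen (Function.support fun z => f z ^ 2) := h1.isOpen_support
  refine h2.measure_pos volume ⟨z, ?_⟩
  simpa using hz'

theorem le_lam {c : ℝ} (ho : IsOpen Ω) (hne : Ω.Nonempty)
    (h : ∀ f, Adm Ω f → c * ∫ z, f z ^ 2 ≤ EE H f) : c ≤ lam Ω H := by
  unfold lam
  refine le_csInf ?_ ?_
  · obtain ⟨u, hu, h0⟩ := exists_adm ho hne
    exact ⟨_, u, hu, h0, rfl⟩
  · rintro t ⟨u, hu, h0, rfl⟩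
    rw [hu.energy_eq, hu.setInt_sq, le_div_iff₀ (sq_pos_of_ne hu h0)]
    exact h u hu

/-- Cauchy–Schwarz on the rectangle -/
theorem cs_rect {u : ℝ × ℝ → ℝ} (hu : Adm Rect u) : (∫ z, u z) ^ 2 ≤ 2 * ∫ z, u z ^ 2 := by
  have hvol : (volume : Measure (ℝ × ℝ)) Rect = 2 := by
    unfold Rect
    rw [Measure.volume_eq_prod, Measure.prod_prod, Real.volume_Ioo, Real.volume_Ioo]
    norm_num
  have hvr : (volume : Measure (ℝ × ℝ)).real Rect = 2 := by
    rw [measureReal_def, hvol]; norm_num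
  set I := ∫ z, u z with hI
  have h1 : 0 ≤ ∫ z in Rect, (u z - I / 2) ^ 2 := integral_nonneg fun z => sq_nonneg _
  have hfin : IsFiniteMeasure (volume.restrict Rect : Measure (ℝ × ℝ)) := by
    refine ⟨?_⟩
    rw [Measure.restrict_apply_univ, hvol]; norm_num
  have h2 : ∫ z in Rect, (u z - I / 2) ^ 2 =
      (∫ z in Rect, u z ^ 2) - I * (∫ z in Rect, u z) + I ^ 2 / 4 * 2 := by
    have h3 : ∀ z, (u z - I / 2) ^ 2 = u z ^ 2 - I * u z + I ^ 2 / 4 := by
      intro z; ring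
    simp only [h3]
    rw [integral_add, integral_sub, integral_const_mul, integral_const]
    · rw [measureReal_restrict_apply_univ, hvr, smul_eq_mul]; ring
    · exact hu.integrable_sq.integrableOn
    · exact hu.integrable.integrableOn.const_mul I
    · exact hu.integrable_sq.integrableOn.sub (hu.integrable.integrableOn.const_mul I)
    · exact integrable_const _
  rw [h2, hu.setInt_sq, hu.setInt, ← hI] at h1
  nlinarith

theorem lam_mul_tors_le (hΩ : Ω ⊆ Rect) (ho : IsOpen Ω) (hne : Ω.Nonempty) :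
    lam Ω H * tors Ω H ≤ 2 := by
  refine le_of_forall_pos_le_add fun ε hε => ?_
  set l := lam Ω H with hl
  have hl0 : 0 ≤ l := lam_nonneg
  obtain ⟨u, hu, hlt⟩ := exists_near (H := H) ho hne (ε := ε / (l + 1)) (by positivity)
  have h1 := lam_mul_le (H := H) hu
  rw [← hl] at h1
  have h2 := cs_rect (hu.mono hΩ)
  have h3 : l * (2 * (∫ z, u z) - EE H u) ≤ 2 := by
    have h4 : l * ((∫ z, u z) ^ 2 / 2) ≤ EE H u := by
      refine le_trans ?_ h1
      exact mul_le_mul_of_nonneg_left (by linarith) hl0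
    have h5 : l * (l * ((∫ z, u z) ^ 2 / 2)) ≤ l * EE H u := mul_le_mul_of_nonneg_left h4 hl0
    nlinarith [sq_nonneg (l * (∫ z, u z) - 2)]
  have h4 : l * (tors Ω H - ε / (l + 1)) ≤ 2 := (mul_le_mul_of_nonneg_left hlt hl0).trans h3
  have h5 : l * (ε / (l + 1)) ≤ ε := by
    rw [mul_div_assoc', div_le_iff₀ (by positivity)]
    nlinarith
  nlinarith

end Pool.Agent.MaxSemi
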