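import Pool.Agent.Q94.DCD

/-! The flux bound for `T`; the profile functions. -/

namespace Pool.Agent.MaxSemi

open MeasureTheory Set Filter Topology
open scoped NNReal

variable {Ω : Set (ℝ × ℝ)} {H : Seminorm ℝ (ℝ × ℝ)}

theorem tbound_flux (hΩ : Ω ⊆ Rect) {ν : ℝ × ℝ} (hν : ν.1 ^ 2 + ν.2 ^ 2 = 1)
    (hH : ∀ ξ : ℝ × ℝ, |ν.1 * ξ.1 + ν.2 * ξ.2| ≤ H ξ) : TBound Ω H ((2 / 3) / (4 - 3 * ν.1 ^ 2)) := by
  intro u hu
  have hpos : 0 < 4 - 3 * ν.1 ^ 2 := by nlinarith [sq_nonneg ν.2]
  have h1 := flux_bound (hu.mono hΩ) (ν := ν)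
    (p := (ν.1 / (4 - 3 * ν.1 ^ 2), 4 * ν.2 / (4 - 3 * ν.1 ^ 2))) (by
      simp only
      rw [div_mul_eq_mul_div, div_mul_eq_mul_div, ← add_div, div_eq_one_iff_eq hpos.ne']
      linear_combination 4 * hν)
  have h2 := hu.D_le hH
  have h3 : (4 * (ν.1 / (4 - 3 * ν.1 ^ 2)) ^ 2 + (4 * ν.2 / (4 - 3 * ν.1 ^ 2)) ^ 2) / 6
      = (2 / 3) / (4 - 3 * ν.1 ^ 2) := by
    rw [div_pow, div_pow, mul_div_assoc', ← add_div, div_div, div_eq_div_iff (by positivity)
      hpos.ne']
    linear_combination (16 * (4 - 3 * ν.1 ^ 2)) * hν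
  simp only at h1
  rw [h3] at h1
  linarith

/-! ### profile functions -/

/-- the derivative of the profile -/
noncomputable def gam (s : ℝ) : ℝ :=
  Real.pi ^ 2 / 4 * Real.sinc (Real.pi / 2 * Real.sqrt (1 - 2 * s))

theorem gam_cont : Continuous gam := by
  unfold gam
  exact continuous_const.mul (Real.continuous_sinc.comp (by fun_prop))

theorem gam_abs (s : ℝ) : |gam s| ≤ Real.pi ^ 2 / 4 := by
  unfold gam
  rw [abs_mul, abs_of_nonneg (by positivity)]
  have := Real.abs_sinc_le_one (Real.pi / 2 * Real.sqrt (1 - 2 * s))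
  have h2 : 0 ≤ Real.pi ^ 2 / 4 := by positivity
  nlinarith

theorem gam_nonneg {s : ℝ} (hs : 0 ≤ s) : 0 ≤ gam s := by
  unfold gam
  refine mul_nonneg (by positivity) ?_
  have h1 : Real.sqrt (1 - 2 * s) ≤ 1 := by
    rw [Real.sqrt_le_left (by norm_num)]; linarith
  have h0 := Real.sqrt_nonneg (1 - 2 * s)
  have hpi := Real.pi_pos
  set t := Real.pi / 2 * Real.sqrt (1 - 2 * s) with ht
  have ht0 : 0 ≤ t := by positivity
  have ht1 : t ≤ Real.pi / 2 := by rw [ht]; nlinarith
  rcases ht0.eq_or_lt with h | h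
  · rw [← h, Real.sinc_zero]; norm_num
  · rw [Real.sinc_of_ne_zero h.ne']
    exact div_nonneg (Real.sin_nonneg_of_nonneg_of_le_pi ht0 (by linarith)) ht0

/-- the one-dimensional torsion function -/
noncomputable def W (x : ℝ) : ℝ := x * (2 - x) / 2

theorem W_deriv (x : ℝ) : HasDerivAt W (1 - x) x := by
  unfold W
  have h1 : HasDerivAt (fun x : ℝ => x * (2 - x) / 2) ((1 * (2 - x) + x * (-1)) / 2) x := by
    have ha : HasDerivAt (fun x : ℝ => x) 1 x := hasDerivAt_id x
    have hb : HasDerivAt (fun x : ℝ => 2 - x) (-1) x := (hasDerivAt_id x).const_sub 2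
    exact (ha.mul hb).div_const 2
  refine h1.congr_deriv ?_
  ring

theorem gam_W (x : ℝ) : gam (W x) * (1 - x) = Real.pi / 2 * Real.cos (Real.pi * x / 2) := by
  unfold gam W
  have h1 : (1 : ℝ) - 2 * (x * (2 - x) / 2) = (1 - x) ^ 2 := by ring
  rw [h1, Real.sqrt_sq_eq_abs]
  have h2 : Real.sinc (Real.pi / 2 * |1 - x|) = Real.sinc (Real.pi / 2 * (1 - x)) := by
    rcases abs_cases (1 - x) with ⟨h, -⟩ | ⟨h, -⟩
    · rw [h]
    · rw [h, mul_neg, Real.sinc_neg]
  rw [h2]
  by_cases hx : 1 - x = 0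
  · have hx' : x = 1 := by linarith
    subst hx'
    simp
  · have hne : Real.pi / 2 * (1 - x) ≠ 0 := by positivity
    rw [Real.sinc_of_ne_zero hne]
    have h3 : Real.sin (Real.pi / 2 * (1 - x)) = Real.cos (Real.pi * x / 2) := by
      rw [← Real.sin_pi_div_two_sub]
      congr 1
      ring
    rw [h3]
    field_simp
    ring

/-- the profile -/
noncomputable def G (s : ℝ) : ℝ := ∫ t in (0 : ℝ)..s, gam t

/-- its energy density -/
noncomputable def Phi (s : ℝ) : ℝ := ∫ t in (0 : ℝ)..s, gam t ^ 2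

theorem G_deriv (s : ℝ) : HasDerivAt G (gam s) s := by
  unfold G
  exact intervalIntegral.integral_hasDerivAt_right (gam_cont.intervalIntegrable _ _)
    (gam_cont.stronglyMeasurableAtFilter _ _) gam_cont.continuousAt

theorem Phi_deriv (s : ℝ) : HasDerivAt Phi (gam s ^ 2) s := by
  unfold Phi
  have h := gam_cont.pow 2
  exact intervalIntegral.integral_hasDerivAt_right (h.intervalIntegrable _ _)
    (h.stronglyMeasurableAtFilter _ _) h.continuousAt

theorem G_zero : G 0 = 0 := by unfold G; simp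

theorem Phi_zero : Phi 0 = 0 := by unfold Phi; simp

theorem G_lip (s t : ℝ) : |G s - G t| ≤ Real.pi ^ 2 / 4 * |s - t| := by
  have h := Convex.norm_image_sub_le_of_norm_hasDerivWithin_le (f := G) (f' := gam)
    (C := Real.pi ^ 2 / 4) (s := univ) (fun x _ => (G_deriv x).hasDerivWithinAt)
    (fun x _ => by rw [Real.norm_eq_abs]; exact gam_abs x) convex_univ (mem_univ t) (mem_univ s)
  rw [Real.norm_eq_abs, Real.norm_eq_abs] at h
  exact h

theorem Phi_lip (s t : ℝ) : |Phi s - Phi t| ≤ (Real.pi ^ 2 / 4) ^ 2 * |s - t| := by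
  have h := Convex.norm_image_sub_le_of_norm_hasDerivWithin_le (f := Phi)
    (f' := fun s => gam s ^ 2)
    (C := (Real.pi ^ 2 / 4) ^ 2) (s := univ) (fun x _ => (Phi_deriv x).hasDerivWithinAt)
    (fun x _ => by
      rw [Real.norm_eq_abs, abs_pow]
      have := gam_abs x
      gcongr) convex_univ (mem_univ t) (mem_univ s)
  rw [Real.norm_eq_abs, Real.norm_eq_abs] at h
  exact h

theorem G_mono {s t : ℝ} (hs : 0 ≤ s) (hst : s ≤ t) : G s ≤ G t := by
  have h := monotoneOn_of_deriv_nonneg (convex_Ici (0 : ℝ)) (f := G)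
    (fun x _ => (G_deriv x).continuousAt.continuousWithinAt)
    (fun x _ => (G_deriv x).differentiableAt.differentiableWithinAt)
    (fun x hx => by
      rw [(G_deriv x).deriv]
      rw [interior_Ici] at hx
      exact gam_nonneg (le_of_lt hx))
  exact h hs (hs.trans hst) hst

theorem Phi_mono {s t : ℝ} (hst : s ≤ t) : Phi s ≤ Phi t := by
  have h := monotone_of_deriv_nonneg (f := Phi) (fun x => (Phi_deriv x).differentiableAt)
    (fun x => by rw [(Phi_deriv x).deriv]; positivity)
  exact h hst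

theorem G_W (x : ℝ) : G (W x) = Real.sin (Real.pi * x / 2) := by
  have h1 : ∀ x : ℝ, HasDerivAt (fun x => G (W x) - Real.sin (Real.pi * x / 2)) 0 x := by
    intro x
    have ha : HasDerivAt (fun x => G (W x)) (gam (W x) * (1 - x)) x :=
      (G_deriv (W x)).comp x (W_deriv x)
    have hb : HasDerivAt (fun x : ℝ => Real.sin (Real.pi * x / 2))
        (Real.cos (Real.pi * x / 2) * (Real.pi / 2)) x := by
      have hc : HasDerivAt (fun x : ℝ => Real.pi * x / 2) (Real.pi / 2) x := by
        have := ((hasDerivAt_id x).const_mul Real.pi).div_const 2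
        simpa using this
      exact hc.sin
    have := ha.sub hb
    rw [gam_W] at this
    refine this.congr_deriv ?_
    ring
  have h2 := is_const_of_deriv_eq_zero (fun x => (h1 x).differentiableAt)
    (fun x => (h1 x).deriv) x 0
  have h3 : W 0 = 0 := by unfold W; simp
  rw [h3, G_zero] at h2
  simp at h2
  linarith

theorem cos_sq_int : ∫ x in (0 : ℝ)..2, (Real.pi / 2 * Real.cos (Real.pi * x / 2)) ^ 2
    = Real.pi ^ 2 / 4 := by
  have hpi := Real.pi_pos
  have h1 : ∀ x ∈ uIcc (0 : ℝ) 2, HasDerivAt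
      (fun x => Real.pi ^ 2 / 8 * x + Real.pi / 8 * Real.sin (Real.pi * x))
      ((Real.pi / 2 * Real.cos (Real.pi * x / 2)) ^ 2) x := by
    intro x _
    have hc : HasDerivAt (fun x : ℝ => Real.pi * x) Real.pi x := by
      have := (hasDerivAt_id x).const_mul Real.pi
      simpa using this
    have ha : HasDerivAt (fun x : ℝ => Real.pi ^ 2 / 8 * x) (Real.pi ^ 2 / 8) x := by
      have := (hasDerivAt_id x).const_mul (Real.pi ^ 2 / 8)
      simpa using this
    have := ha.add (hc.sin.const_mul (Real.pi / 8))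
    refine this.congr_deriv ?_
    have h3 : Real.cos (Real.pi * x) = 2 * Real.cos (Real.pi * x / 2) ^ 2 - 1 := by
      rw [← Real.cos_two_mul]
      congr 1
      ring
    rw [h3]
    ring
  rw [intervalIntegral.integral_eq_sub_of_hasDerivAt h1
    (Continuous.intervalIntegrable (by fun_prop) _ _)]
  have h2 : Real.sin (Real.pi * 2) = 0 := by
    rw [mul_comm]; exact Real.sin_two_pi
  rw [h2]
  simp
  ring

theorem Phi_W_int : ∫ x in (0 : ℝ)..2, Phi (W x) = Real.pi ^ 2 / 4 := by
  have hcont : Continuous Phi := continuous_iff_continuousAt.mpr fun x => (Phi_deriv x).continuousAt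
  have hW : Continuous W := by unfold W; fun_prop
  have h1 : ∀ x ∈ uIcc (0 : ℝ) 2, HasDerivAt (fun x => (x - 1) * Phi (W x))
      (Phi (W x) - (Real.pi / 2 * Real.cos (Real.pi * x / 2)) ^ 2) x := by
    intro x _
    have ha : HasDerivAt (fun x => Phi (W x)) (gam (W x) ^ 2 * (1 - x)) x :=
      (Phi_deriv (W x)).comp x (W_deriv x)
    have hb : HasDerivAt (fun x : ℝ => x - 1) 1 x := (hasDerivAt_id x).sub_const 1
    have := hb.mul ha
    refine this.congr_deriv ?_
    rw [← gam_W]
    ring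
  have h2 := intervalIntegral.integral_eq_sub_of_hasDerivAt h1
    (Continuous.intervalIntegrable (by fun_prop) _ _)
  rw [intervalIntegral.integral_sub (Continuous.intervalIntegrable (by fun_prop) _ _)
    (Continuous.intervalIntegrable (by fun_prop) _ _), cos_sq_int] at h2
  have h3 : W 0 = 0 := by unfold W; simp
  have h4 : W 2 = 0 := by unfold W; simp
  rw [h3, h4, Phi_zero] at h2
  linarith

theorem W_int : ∫ x in (0 : ℝ)..2, W x = 2 / 3 := by
  have h2 : ∀ x : ℝ, W x = 0 - (-1) * x + (-1 / 2) * x ^ 2 := by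
    intro x; unfold W; ring
  simp only [h2]
  rw [poly_int]
  norm_num

theorem sin_sq_int : ∫ x in (0 : ℝ)..2, Real.sin (Real.pi * x / 2) ^ 2 = 1 := by
  have hpi := Real.pi_pos
  have h1 : ∀ x : ℝ, Real.sin (Real.pi * x / 2) ^ 2 =
      1 - 4 / Real.pi ^ 2 * (Real.pi / 2 * Real.cos (Real.pi * x / 2)) ^ 2 := by
    intro x
    rw [Real.sin_sq]
    field_simp
    ring
  simp only [h1]
  rw [intervalIntegral.integral_sub (Continuous.intervalIntegrable (by fun_prop) _ _)
    (Continuous.intervalIntegrable (by fun_prop) _ _), intervalIntegral.integral_const_mul,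
    cos_sq_int]
  simp
  field_simp
  ring

end Pool.Agent.MaxSemi
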