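import Pool.Agent.Q94.DCE

/-! Truncation of near-maximisers. -/

namespace Pool.Agent.MaxSemi

open MeasureTheory Set Filter Topology
open scoped NNReal

variable {Ω : Set (ℝ × ℝ)} {H : Seminorm ℝ (ℝ × ℝ)}

/-- the functional `J` -/
noncomputable def JJ (H : Seminorm ℝ (ℝ × ℝ)) (u : ℝ × ℝ → ℝ) : ℝ := 2 * (∫ z, u z) - EE H u

theorem Adm.pos {u : ℝ × ℝ → ℝ} (hu : Adm Ω u) : Adm Ω (fun z => max (u z) 0) := by
  refine hu.of_zero ?_ (fun z hz => by rw [hz]; simp)
  obtain ⟨⟨C, hC⟩, -⟩ := hu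
  have := hC.max (LipschitzWith.const (0 : ℝ) (α := ℝ × ℝ))
  exact ⟨_, this⟩

theorem JJ_pos {u : ℝ × ℝ → ℝ} (hu : Adm Ω u) : JJ H u ≤ JJ H (fun z => max (u z) 0) := by
  unfold JJ
  have h1 : ∫ z, u z ≤ ∫ z, max (u z) 0 :=
    integral_mono hu.integrable hu.pos.integrable fun z => le_max_left _ _
  have h2 : EE H (fun z => max (u z) 0) ≤ EE H u := by
    unfold EE
    refine integral_mono_ae (hu.pos.integrable_energy H) (hu.integrable_energy H) ?_
    obtain ⟨⟨C, hC⟩, -⟩ := hu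
    filter_upwards [pos_ae hC] with z hz
    rcases le_total 0 (u z) with h | h
    · unfold grad
      rw [hz.1 h]
    · have : grad (fun z => max (u z) 0) z = 0 := by
        unfold grad
        rw [hz.2 h]; rfl
      have h5 : H (grad (fun z => max (u z) 0) z) ^ 2 = 0 := by
        rw [this, map_zero]; norm_num
      rw [h5]
      exact sq_nonneg _
  linarith

/-- the torsion function of the strip, extended by zero -/
noncomputable def Wt (z : ℝ × ℝ) : ℝ := max (W z.1) 0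

theorem Wt_nonneg (z : ℝ × ℝ) : 0 ≤ Wt z := le_max_right _ _

theorem clamp_lip (x y : ℝ) : |max (W x) 0 - max (W y) 0| ≤ |x - y| := by
  wlog hxy : x ≤ y generalizing x y
  · have := this y x (by linarith)
    rw [abs_sub_comm, abs_sub_comm x y]
    exact this
  have hW : ∀ x, 0 ≤ x → x ≤ 2 → 0 ≤ W x := by
    intro x h1 h2
    unfold W
    nlinarith
  have hW' : ∀ x, x ≤ 0 → W x ≤ 0 := by
    intro x h1
    unfold W
    nlinarith
  have hW'' : ∀ x, 2 ≤ x → W x ≤ 0 := by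
    intro x h1
    unfold W
    nlinarith
  have habs : |x - y| = y - x := by rw [abs_of_nonpos (by linarith)]; ring
  rw [habs]
  rcases le_total x 0 with h1 | h1
  · rw [max_eq_right (hW' x h1)]
    rcases le_total y 0 with h2 | h2
    · rw [max_eq_right (hW' y h2)]; simp; exact hxy
    · rcases le_total y 2 with h3 | h3
      · rw [max_eq_left (hW y h2 h3), zero_sub, abs_neg, abs_of_nonneg (hW y h2 h3)]
        unfold W
        nlinarith
      · rw [max_eq_right (hW'' y h3)]; simp; exact hxy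
  · rcases le_total x 2 with h4 | h4
    · rw [max_eq_left (hW x h1 h4)]
      rcases le_total y 2 with h3 | h3
      · rw [max_eq_left (hW y (h1.trans hxy) h3)]
        have : W x - W y = (x - y) * (2 - x - y) / 2 := by unfold W; ring
        rw [this, abs_le]
        constructor <;> nlinarith
      · rw [max_eq_right (hW'' y h3), sub_zero, abs_of_nonneg (hW x h1 h4)]
        unfold W
        nlinarith
    · rw [max_eq_right (hW'' x h4), max_eq_right (hW'' y (h4.trans hxy))]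
      simp; exact hxy

theorem Wt_lip : LipschitzWith 1 Wt := by
  refine LipschitzWith.of_dist_le_mul fun z w => ?_
  rw [NNReal.coe_one, one_mul, Real.dist_eq]
  refine (clamp_lip z.1 w.1).trans ?_
  rw [Prod.dist_eq, ← Real.dist_eq]
  exact le_max_left _ _

theorem Wt_eq {z : ℝ × ℝ} (hz : z ∈ Rect) : Wt z = W z.1 := by
  unfold Wt
  refine max_eq_left ?_
  obtain ⟨⟨h1, h2⟩, -⟩ := hz
  unfold W
  nlinarith

theorem rect_open : IsOpen Rect := isOpen_Ioo.prod isOpen_Ioo

theorem Wt_fderiv {z : ℝ × ℝ} (hz : z ∈ Rect) (t : ℝ) (v : ℝ × ℝ) :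
    fderiv ℝ (fun z => t * Wt z) z v = t * (1 - z.1) * v.1 := by
  have h1 : (fun z => t * Wt z) =ᶠ[𝓝 z] fun z => t * W z.1 := by
    filter_upwards [rect_open.mem_nhds hz] with w hw
    rw [Wt_eq hw]
  rw [h1.fderiv_eq]
  have h2 : HasFDerivAt (fun z : ℝ × ℝ => z.1) (ContinuousLinearMap.fst ℝ ℝ ℝ) z := hasFDerivAt_fst
  have h3 := ((W_deriv z.1).comp_hasFDerivAt z h2).const_mul t
  have h4 : fderiv ℝ (fun z : ℝ × ℝ => t * W z.1) z
      = t • ((1 - z.1) • ContinuousLinearMap.fst ℝ ℝ ℝ) := h3.fderiv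
  rw [h4]
  simp
  ring

/-- truncation -/
theorem trunc {h : ℝ} (hΩ : Ω ⊆ Rect) (hh : h = H (1, 0) ^ 2) (h0 : 0 < h) {u : ℝ × ℝ → ℝ}
    (hu : Adm Ω u) :
    Adm Ω (fun z => min (u z) (h⁻¹ * Wt z)) ∧ JJ H u ≤ JJ H (fun z => min (u z) (h⁻¹ * Wt z)) := by
  have hi : 0 < h⁻¹ := inv_pos.mpr h0
  have hWl : ∃ B : ℝ≥0, LipschitzWith B (fun z => h⁻¹ * Wt z) := by
    refine ⟨Real.nnabs h⁻¹ * 1, ?_⟩
    refine LipschitzWith.of_dist_le_mul fun x y => ?_
    rw [Real.dist_eq, ← mul_sub, abs_mul]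
    have h1 := Wt_lip.dist_le_mul x y
    rw [Real.dist_eq] at h1
    push_cast
    rw [mul_assoc]
    exact mul_le_mul_of_nonneg_left h1 (abs_nonneg _)
  obtain ⟨B, hB⟩ := hWl
  obtain ⟨C, hC⟩ := hu.1
  have hm : Adm Ω (fun z => min (u z) (h⁻¹ * Wt z)) := by
    refine hu.of_zero ⟨_, hC.min hB⟩ (fun z hz => ?_)
    rw [hz]
    exact min_eq_left (mul_nonneg hi.le (Wt_nonneg z))
  refine ⟨hm, ?_⟩
  set m : ℝ × ℝ → ℝ := fun z => min (u z) (h⁻¹ * Wt z) with hmdef
  have hφ : Adm Ω (fun z => u z - m z) := by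
    refine hu.of_zero ?_ (fun z hz => ?_)
    · exact ⟨_, hC.sub (hC.min hB)⟩
    · simp only [hmdef]
      rw [hz, min_eq_left (mul_nonneg hi.le (Wt_nonneg z)), sub_zero]
  obtain ⟨D, hD⟩ := hφ.1
  obtain ⟨l, hl, hl1⟩ := exists_functional H (1, 0)
  simp only [mul_one, mul_zero, add_zero] at hl1
  have hH0 : 0 ≤ H (1, 0) := apply_nonneg H _
  have hHp : 0 < H (1, 0) := by
    rcases hH0.eq_or_lt with hc | hc
    · rw [← hc] at hh; rw [hh] at h0; norm_num at h0
    · exact hc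
  have key : ∀ᵐ z : ℝ × ℝ, H (grad m z) ^ 2 + 2 / H (1, 0) *
      (fderiv ℝ (fun z => u z - m z) z l * (1 * (1 - z.1) + 0 * (1 / 2 - z.2)))
      ≤ H (grad u z) ^ 2 := by
    filter_upwards [min_ae hC hB, ae_diff hC, ae_diff (hC.min hB)] with z h1 h2 h3
    have h4 : fderiv ℝ (fun z => u z - m z) z l = fderiv ℝ u z l - fderiv ℝ m z l := by
      rw [fderiv_fun_sub h2 h3]; rfl
    rcases le_or_gt (u z) (h⁻¹ * Wt z) with hc | hc
    · have h5 : fderiv ℝ m z = fderiv ℝ u z := h1.1 hc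
      have h6 : grad m z = grad u z := by unfold grad; rw [h5]
      rw [h4, h5, h6]; simp
    · have hz : z ∈ Rect := by
        apply hΩ
        by_contra hcon
        rw [hu.zero_off hcon] at hc
        have := mul_nonneg hi.le (Wt_nonneg z)
        linarith
      have h5 : fderiv ℝ m z = fderiv ℝ (fun z => h⁻¹ * Wt z) z := h1.2 hc.le
      have h6 : grad m z = (h⁻¹ * (1 - z.1)) • ((1, 0) : ℝ × ℝ) := by
        unfold grad
        rw [h5, Wt_fderiv hz, Wt_fderiv hz]
        ext <;> simp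
      have h7 : H (grad m z) ^ 2 = h⁻¹ * (1 - z.1) ^ 2 := by
        rw [h6, map_smul_eq_mul, mul_pow, ← hh, Real.norm_eq_abs, sq_abs]
        field_simp
      have h8 : fderiv ℝ m z l = h⁻¹ * (1 - z.1) * H (1, 0) := by
        rw [h5, Wt_fderiv hz, hl1]
      have h9 := hl (grad u z)
      rw [grad_dot] at h9
      have h10 : (fderiv ℝ u z l) ^ 2 ≤ H (grad u z) ^ 2 := by
        rw [← sq_abs]; gcongr
      rw [h4, h7, h8]
      refine le_trans ?_ h10
      have h11 : h⁻¹ * (1 - z.1) * H (1, 0) = (1 - z.1) / H (1, 0) := by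
        rw [hh]; field_simp
      have h12 : h⁻¹ * (1 - z.1) ^ 2 = ((1 - z.1) / H (1, 0)) ^ 2 := by
        rw [hh]; field_simp
      rw [h11, h12]
      have h13 : 2 / H (1, 0) * ((fderiv ℝ u z l - (1 - z.1) / H (1, 0)) *
          (1 * (1 - z.1) + 0 * (1 / 2 - z.2))) =
          2 * (fderiv ℝ u z l - (1 - z.1) / H (1, 0)) * ((1 - z.1) / H (1, 0)) := by
        field_simp
        ring
      rw [h13]
      nlinarith [sq_nonneg (fderiv ℝ u z l - (1 - z.1) / H (1, 0))]
  obtain ⟨B', hB'⟩ := lip_lin (1, 0)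
  have hibp := ibp hD hφ.2.1 hB' l
  simp only at hibp
  have hf : ∀ z, fderiv ℝ (fun z : ℝ × ℝ => (1 : ℝ) * (1 - z.1) + 0 * (1 / 2 - z.2)) z l
      = - H (1, 0) := by
    intro z
    have := fderiv_lin (1, 0) z l
    simp only at this
    rw [this, hl1]; ring
  simp only [hf] at hibp
  rw [integral_mul_const] at hibp
  have hint : ∫ z, (u z - m z) = (∫ z, u z) - ∫ z, m z :=
    integral_sub hu.integrable hm.integrable
  rw [hint] at hibp
  have hcontlin : Continuous (fun z : ℝ × ℝ => (1 : ℝ) * (1 - z.1) + 0 * (1 / 2 - z.2)) := by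
    fun_prop
  have h20 := integral_mono_ae ((hm.integrable_energy H).add
    ((hφ.integrable_D_mul l hcontlin).const_mul (2 / H (1, 0)))) (hu.integrable_energy H) key
  have h21 : ∫ z, (H (grad m z) ^ 2 + 2 / H (1, 0) *
      (fderiv ℝ (fun z => u z - m z) z l * (1 * (1 - z.1) + 0 * (1 / 2 - z.2)))) =
      EE H m + 2 * ((∫ z, u z) - ∫ z, m z) := by
    rw [integral_add (hm.integrable_energy H)
      ((hφ.integrable_D_mul l hcontlin).const_mul (2 / H (1, 0))), integral_const_mul, hibp]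
    unfold EE
    field_simp
  have h22 : EE H m + 2 * ((∫ z, u z) - ∫ z, m z) ≤ EE H u := by
    rw [← h21]; exact h20
  unfold JJ
  linarith

end Pool.Agent.MaxSemi
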