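import Pool.Agent.Q94.DCF

/-! The upper bound for the eigenvalue. -/

namespace Pool.Agent.MaxSemi

open MeasureTheory Set Filter Topology
open scoped NNReal

variable {Ω : Set (ℝ × ℝ)} {H : Seminorm ℝ (ℝ × ℝ)}

theorem Adm.comp {u : ℝ × ℝ → ℝ} (hu : Adm Ω u) {g : ℝ → ℝ} {K : ℝ} (hK : 0 ≤ K)
    (hg : ∀ s t, |g s - g t| ≤ K * |s - t|) (g0 : g 0 = 0) : Adm Ω (fun z => g (u z)) := by
  refine hu.of_zero ?_ (fun z hz => by rw [hz, g0])
  obtain ⟨⟨C, hC⟩, -⟩ := hu
  refine ⟨K.toNNReal * C, ?_⟩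
  refine LipschitzWith.of_dist_le_mul fun x y => ?_
  rw [Real.dist_eq]
  have h1 := hC.dist_le_mul x y
  rw [Real.dist_eq] at h1
  push_cast
  rw [Real.coe_toNNReal _ hK, mul_assoc]
  exact (hg _ _).trans (mul_le_mul_of_nonneg_left h1 hK)

theorem Adm.comp_grad {u : ℝ × ℝ → ℝ} (hu : Adm Ω u) {g g' : ℝ → ℝ}
    (hg : ∀ s, HasDerivAt g (g' s) s) :
    ∀ᵐ z : ℝ × ℝ, grad (fun z => g (u z)) z = g' (u z) • grad u z := by
  obtain ⟨⟨C, hC⟩, -⟩ := hu
  filter_upwards [ae_diff hC] with z hz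
  have h1 : fderiv ℝ (fun z => g (u z)) z = g' (u z) • fderiv ℝ u z :=
    ((hg (u z)).comp_hasFDerivAt z hz.hasFDerivAt).fderiv
  unfold grad
  rw [h1]; rfl

theorem rect_int {k : ℝ → ℝ} (hk : Continuous k) :
    ∫ z in Rect, k z.1 = ∫ x in (0 : ℝ)..2, k x := by
  unfold Rect
  rw [Measure.volume_eq_prod, setIntegral_prod]
  · simp only
    have h1 : ∀ x : ℝ, ∫ _ in Ioo (0 : ℝ) 1, k x = k x := by
      intro x
      rw [setIntegral_const]
      simp
    simp only [h1]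
    rw [← integral_Ioc_eq_integral_Ioo, ← intervalIntegral.integral_of_le (by norm_num)]
  · rw [← Measure.volume_eq_prod]
    refine (Continuous.continuousOn (by fun_prop)).integrableOn_compact
      ((isCompact_Icc (a := (0 : ℝ)) (b := 2)).prod (isCompact_Icc (a := (0 : ℝ)) (b := 1)))
      |>.mono_set ?_
    exact prod_mono Ioo_subset_Icc_self Ioo_subset_Icc_self

theorem rect_integrable {k : ℝ × ℝ → ℝ} (hk : Continuous k) : IntegrableOn k Rect := by
  refine (Continuous.continuousOn hk).integrableOn_compact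
    ((isCompact_Icc (a := (0 : ℝ)) (b := 2)).prod (isCompact_Icc (a := (0 : ℝ)) (b := 1)))
    |>.mono_set ?_
  exact prod_mono Ioo_subset_Icc_self Ioo_subset_Icc_self

theorem W_cont : Continuous W := by unfold W; fun_prop

theorem G_cont : Continuous G := continuous_iff_continuousAt.mpr fun x => (G_deriv x).continuousAt

theorem Phi_cont : Continuous Phi :=
  continuous_iff_continuousAt.mpr fun x => (Phi_deriv x).continuousAt

theorem measurable_rect : MeasurableSet Rect := rect_open.measurableSet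

section key

variable {h : ℝ} {u : ℝ × ℝ → ℝ}

theorem Gdiff (h : ℝ) (s : ℝ) : HasDerivAt (fun s => G (h * s)) (h * gam (h * s)) s := by
  have h1 : HasDerivAt (fun s : ℝ => h * s) h s := by
    simpa using (hasDerivAt_id s).const_mul h
  have := (G_deriv (h * s)).comp s h1
  refine this.congr_deriv ?_
  ring

theorem Pdiff (h r : ℝ) (s : ℝ) :
    HasDerivAt (fun s => s - r * (h * Phi (h * s))) (1 - r * (h * gam (h * s)) ^ 2) s := by
  have h1 : HasDerivAt (fun s : ℝ => h * s) h s := by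
    simpa using (hasDerivAt_id s).const_mul h
  have h2 := (((Phi_deriv (h * s)).comp s h1).const_mul h).const_mul r
  have h3 : HasDerivAt (fun s : ℝ => s) 1 s := hasDerivAt_id s
  have := h3.sub h2
  refine this.congr_deriv ?_
  ring

theorem Gadm (hu : Adm Ω u) (h0 : 0 ≤ h) : Adm Ω (fun z => G (h * u z)) := by
  refine hu.comp (g := fun s => G (h * s)) (K := Real.pi ^ 2 / 4 * h) (by positivity) ?_ ?_
  · intro s t
    refine (G_lip _ _).trans (le_of_eq ?_)
    rw [← mul_sub, abs_mul, abs_of_nonneg h0]; ring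
  · simp [G_zero]

theorem Phadm (hu : Adm Ω u) (h0 : 0 ≤ h) : Adm Ω (fun z => h * Phi (h * u z)) := by
  refine hu.comp (g := fun s => h * Phi (h * s)) (K := h * ((Real.pi ^ 2 / 4) ^ 2 * h))
    (by positivity) ?_ ?_
  · intro s t
    rw [← mul_sub, abs_mul, abs_of_nonneg h0, mul_assoc]
    refine mul_le_mul_of_nonneg_left ?_ h0
    refine (Phi_lip _ _).trans (le_of_eq ?_)
    rw [← mul_sub, abs_mul, abs_of_nonneg h0]; ring
  · simp [Phi_zero]

theorem Padm (hu : Adm Ω u) (h0 : 0 ≤ h) (r : ℝ) :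
    Adm Ω (fun z => u z - r * (h * Phi (h * u z))) := by
  have h1 := Phadm hu h0
  refine hu.of_zero ?_ (fun z hz => by rw [hz]; simp [Phi_zero])
  obtain ⟨⟨C, hC⟩, -⟩ := hu
  obtain ⟨⟨D, hD⟩, -⟩ := h1.smul r
  exact ⟨_, hC.sub hD⟩

theorem energy_G {T ε r : ℝ} (hT : TBound Ω H T) (hu : Adm Ω u) (h0 : 0 ≤ h) (hr : 0 < r)
    (hJ : T - ε ≤ JJ H u) :
    EE H (fun z => G (h * u z)) ≤ (∫ z, h * Phi (h * u z)) + ε / (2 * r)
      + r / 2 * (h * (Real.pi ^ 2 / 4)) ^ 4 * EE H u := by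
  have h1 := hT _ (Padm hu h0 r)
  have h2 : ∫ z, (u z - r * (h * Phi (h * u z))) = (∫ z, u z) - r * ∫ z, h * Phi (h * u z) := by
    rw [integral_sub hu.integrable ((Phadm hu h0).integrable.const_mul r), integral_const_mul]
  rw [h2] at h1
  have h3 : EE H (fun z => u z - r * (h * Phi (h * u z))) + 2 * r * EE H (fun z => G (h * u z))
      ≤ (1 + r ^ 2 * (h * (Real.pi ^ 2 / 4)) ^ 4) * EE H u := by
    unfold EE
    rw [← integral_const_mul, ← integral_const_mul, ← integral_add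
      ((Padm hu h0 r).integrable_energy H) (((Gadm hu h0).integrable_energy H).const_mul _)]
    refine integral_mono_ae (((Padm hu h0 r).integrable_energy H).add
      (((Gadm hu h0).integrable_energy H).const_mul _)) ((hu.integrable_energy H).const_mul _) ?_
    filter_upwards [hu.comp_grad (Gdiff h), hu.comp_grad (Pdiff h r)] with z hz1 hz2
    have q1 : H (grad (fun z => G (h * u z)) z) ^ 2 = (h * gam (h * u z)) ^ 2 *
        H (grad u z) ^ 2 := by
      rw [hz1, map_smul_eq_mul, mul_pow, Real.norm_eq_abs, sq_abs]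
    have q2 : H (grad (fun z => u z - r * (h * Phi (h * u z))) z) ^ 2 =
        (1 - r * (h * gam (h * u z)) ^ 2) ^ 2 * H (grad u z) ^ 2 := by
      rw [hz2, map_smul_eq_mul, mul_pow (‖_‖), Real.norm_eq_abs, sq_abs]
    rw [q1, q2]
    set a := (h * gam (h * u z)) ^ 2 with ha
    have ha0 : 0 ≤ a := sq_nonneg _
    have ha1 : a ≤ (h * (Real.pi ^ 2 / 4)) ^ 2 := by
      rw [ha, ← sq_abs]
      have : |h * gam (h * u z)| ≤ h * (Real.pi ^ 2 / 4) := by
        rw [abs_mul, abs_of_nonneg h0]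
        exact mul_le_mul_of_nonneg_left (gam_abs _) h0
      gcongr
    have ha2 : a ^ 2 ≤ (h * (Real.pi ^ 2 / 4)) ^ 4 := by
      calc a ^ 2 ≤ ((h * (Real.pi ^ 2 / 4)) ^ 2) ^ 2 := by gcongr
        _ = _ := by ring
    have hHn : 0 ≤ H (grad u z) ^ 2 := sq_nonneg _
    have h4 : (1 - r * a) ^ 2 + 2 * r * a ≤ 1 + r ^ 2 * (h * (Real.pi ^ 2 / 4)) ^ 4 := by
      have : (1 - r * a) ^ 2 + 2 * r * a = 1 + r ^ 2 * a ^ 2 := by ring
      rw [this]
      gcongr
    calc (1 - r * a) ^ 2 * H (grad u z) ^ 2 + 2 * r * (a * H (grad u z) ^ 2)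
        = ((1 - r * a) ^ 2 + 2 * r * a) * H (grad u z) ^ 2 := by ring
      _ ≤ _ := mul_le_mul_of_nonneg_right h4 hHn
  unfold JJ at hJ
  have h5 : 2 * r * EE H (fun z => G (h * u z)) ≤ ε + 2 * r * (∫ z, h * Phi (h * u z))
      + r ^ 2 * (h * (Real.pi ^ 2 / 4)) ^ 4 * EE H u := by nlinarith
  have h6 : ε + 2 * r * (∫ z, h * Phi (h * u z))
      + r ^ 2 * (h * (Real.pi ^ 2 / 4)) ^ 4 * EE H u = 2 * r * ((∫ z, h * Phi (h * u z))
      + ε / (2 * r) + r / 2 * (h * (Real.pi ^ 2 / 4)) ^ 4 * EE H u) := by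
    have h7 : ε = 2 * r * (ε / (2 * r)) := by field_simp
    linear_combination h7
  rw [h6] at h5
  exact le_of_mul_le_mul_left h5 (by positivity)

theorem int_Phi (hu : Adm Rect u) (h0 : 0 ≤ h) (huW : ∀ z, h * u z ≤ Wt z) :
    ∫ z, h * Phi (h * u z) ≤ h * (Real.pi ^ 2 / 4) := by
  rw [← (Phadm hu h0).setInt, integral_const_mul]
  refine mul_le_mul_of_nonneg_left ?_ h0
  rw [← Phi_W_int, ← rect_int (k := fun x => Phi (W x)) (Phi_cont.comp W_cont)]
  refine setIntegral_mono_on ?_ (rect_integrable (Phi_cont.comp (W_cont.comp continuous_fst)))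
    measurable_rect ?_
  · exact rect_integrable (Phi_cont.comp (continuous_const.mul hu.cont))
  · intro z hz
    refine Phi_mono ?_
    rw [← Wt_eq hz]
    exact huW z

theorem int_G (hu : Adm Rect u) (h0 : 0 ≤ h) (hu0 : ∀ z, 0 ≤ u z) (huW : ∀ z, h * u z ≤ Wt z) :
    1 - Real.pi ^ 2 / 2 * (2 / 3 - h * ∫ z, u z) ≤ ∫ z, G (h * u z) ^ 2 := by
  rw [← (Gadm hu h0).setInt_sq, ← hu.setInt]
  have hp : ∀ z ∈ Rect, Real.sin (Real.pi * z.1 / 2) ^ 2 - Real.pi ^ 2 / 2 * (W z.1 - h * u z)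
      ≤ G (h * u z) ^ 2 := by
    intro z hz
    have h1 : h * u z ≤ W z.1 := by rw [← Wt_eq hz]; exact huW z
    have h2 : 0 ≤ h * u z := mul_nonneg h0 (hu0 z)
    have h3 := G_mono h2 h1
    have h4 := G_lip (W z.1) (h * u z)
    have h5 : 0 ≤ G (h * u z) := by rw [← G_zero]; exact G_mono le_rfl h2
    rw [abs_of_nonneg (by linarith), abs_of_nonneg (by linarith)] at h4
    rw [← G_W]
    have h6 : G (W z.1) ≤ 1 := by rw [G_W]; exact Real.sin_le_one _
    have h7 : G (W z.1) ^ 2 - G (h * u z) ^ 2 ≤ (G (W z.1) - G (h * u z)) * 2 := by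
      have : G (W z.1) ^ 2 - G (h * u z) ^ 2 =
        (G (W z.1) - G (h * u z)) * (G (W z.1) + G (h * u z)) := by ring
      rw [this]
      refine mul_le_mul_of_nonneg_left ?_ (by linarith)
      linarith
    nlinarith
  have hcu := hu.cont
  have hcW := W_cont
  have hcG := G_cont
  have h1 := setIntegral_mono_on (rect_integrable (k := fun z => Real.sin (Real.pi * z.1 / 2) ^ 2
    - Real.pi ^ 2 / 2 * (W z.1 - h * u z)) (by fun_prop))
    (rect_integrable (k := fun z => G (h * u z) ^ 2) (by fun_prop)) measurable_rect hp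
  refine le_trans (le_of_eq ?_) h1
  rw [integral_sub (rect_integrable (by fun_prop)) (rect_integrable (by fun_prop)),
    integral_const_mul,
    integral_sub (rect_integrable (by fun_prop)) (rect_integrable (by fun_prop)),
    integral_const_mul, rect_int (k := fun x => Real.sin (Real.pi * x / 2) ^ 2) (by fun_prop),
    rect_int hcW, sin_sq_int, W_int]

end key

theorem le_of_forall_small {X Y K : ℝ} (hXY : ∀ δ : ℝ, 0 < δ → δ ≤ 1 → X ≤ Y + K * δ) : X ≤ Y := by
  refine le_of_forall_pos_le_add fun η hη => ?_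
  have hK : 0 < |K| + 1 := by positivity
  have h1 := hXY (min 1 (η / (|K| + 1))) (lt_min one_pos (by positivity)) (min_le_left _ _)
  have h2 : K * min 1 (η / (|K| + 1)) ≤ η := by
    have h3 : min 1 (η / (|K| + 1)) ≤ η / (|K| + 1) := min_le_right _ _
    have h4 : 0 ≤ min 1 (η / (|K| + 1)) := le_min zero_le_one (by positivity)
    calc K * min 1 (η / (|K| + 1)) ≤ (|K| + 1) * min 1 (η / (|K| + 1)) :=
          mul_le_mul_of_nonneg_right (by linarith [le_abs_self K]) h4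
      _ ≤ (|K| + 1) * (η / (|K| + 1)) := by gcongr
      _ = η := by field_simp
  linarith

/-- the key inequality -/
theorem key_ineq (hΩ : Ω ⊆ Rect) (ho : IsOpen Ω) (hne : Ω.Nonempty) {A : ℝ} (hA : TBound Ω H A)
    (hA0 : 0 ≤ A) (h0 : 0 < H (1, 0) ^ 2) :
    lam Ω H * (1 - Real.pi ^ 2 / 2 * (2 / 3 - H (1, 0) ^ 2 * tors Ω H))
      ≤ Real.pi ^ 2 / 4 * H (1, 0) ^ 2 := by
  set h := H (1, 0) ^ 2 with hh
  set T := tors Ω H with hTdef
  set l := lam Ω H with hl
  have hl0 : 0 ≤ l := lam_nonneg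
  have hT0 : 0 ≤ T := tors_nonneg
  have hT := hA.tors' hA0
  rw [← hTdef] at hT
  set B := (h * (Real.pi ^ 2 / 4)) ^ 4 with hB
  have hB0 : 0 ≤ B := by positivity
  refine le_of_forall_small (K := 1 / 2 + 1 / 2 * B * (4 / (3 * h) + 1)
    + l * (Real.pi ^ 2 / 2) * h * Real.sqrt T) fun δ hδ hδ1 => ?_
  obtain ⟨u1, hu1, hJ1⟩ := exists_near (H := H) ho hne (ε := δ ^ 2) (by positivity)
  rw [← hTdef] at hJ1
  have hJ2 := JJ_pos (H := H) hu1
  obtain ⟨hu3, hJ3⟩ := trunc (H := H) hΩ hh h0 hu1.pos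
  set u := fun z => min (max (u1 z) 0) (h⁻¹ * Wt z) with hu
  have hJ : T - δ ^ 2 ≤ JJ H u := by
    have : JJ H u1 = 2 * (∫ z, u1 z) - EE H u1 := rfl
    linarith
  have hu0 : ∀ z, 0 ≤ u z := fun z => le_min (le_max_right _ _)
    (mul_nonneg (inv_pos.mpr h0).le (Wt_nonneg z))
  have huW : ∀ z, h * u z ≤ Wt z := by
    intro z
    have h1 : u z ≤ h⁻¹ * Wt z := min_le_right _ _
    have h2 := mul_le_mul_of_nonneg_left h1 h0.le
    rwa [← mul_assoc, mul_inv_cancel₀ h0.ne', one_mul] at h2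
  have huR : Adm Rect u := hu3.mono hΩ
  have e1 := energy_G hT hu3 h0.le hδ hJ
  have e2 := int_Phi huR h0.le huW
  have e3 := int_G huR h0.le hu0 huW
  have e4 := lam_mul_le (H := H) (Gadm hu3 h0.le)
  rw [← hl] at e4
  -- the integral of u
  have hI0 : 0 ≤ ∫ z, u z := integral_nonneg hu0
  have hI1 : h * ∫ z, u z ≤ 2 / 3 := by
    rw [← W_int, ← rect_int W_cont, ← huR.setInt, ← integral_const_mul]
    refine setIntegral_mono_on (rect_integrable (continuous_const.mul huR.cont))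
      (rect_integrable (W_cont.comp continuous_fst)) measurable_rect ?_
    intro z hz
    rw [← Wt_eq hz]
    exact huW z
  have hE0 := EE_nonneg (H := H) u
  have hJ' : T - δ ^ 2 ≤ 2 * (∫ z, u z) - EE H u := hJ
  have hE1 : EE H u ≤ 4 / (3 * h) + 1 := by
    have h2 : 2 * (∫ z, u z) ≤ 4 / (3 * h) := by
      rw [le_div_iff₀ (by positivity)]
      nlinarith
    nlinarith
  have hI2 : T - (∫ z, u z) ≤ δ * Real.sqrt T := by
    have h2 := hA.sq_le hA0 hu3
    rw [← hTdef] at h2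
    have h3 : (T - ∫ z, u z) ^ 2 ≤ (δ * Real.sqrt T) ^ 2 := by
      rw [mul_pow, Real.sq_sqrt hT0]
      have h4 := mul_le_mul_of_nonneg_left hJ' hT0
      nlinarith
    exact le_of_abs_le (abs_le_of_sq_le_sq h3 (by positivity))
  have e5 : δ ^ 2 / (2 * δ) = δ / 2 := by field_simp
  rw [e5] at e1
  have e6 : δ / 2 * B * EE H u ≤ δ / 2 * B * (4 / (3 * h) + 1) :=
    mul_le_mul_of_nonneg_left hE1 (by positivity)
  have e7 : EE H (fun z => G (h * u z)) ≤ h * (Real.pi ^ 2 / 4) + δ / 2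
      + δ / 2 * B * (4 / (3 * h) + 1) := by
    rw [← hB] at e1
    linarith
  have e8 : l * (1 - Real.pi ^ 2 / 2 * (2 / 3 - h * ∫ z, u z)) ≤ l * ∫ z, G (h * u z) ^ 2 :=
    mul_le_mul_of_nonneg_left e3 hl0
  have e9 : l * (Real.pi ^ 2 / 2) * h * (T - ∫ z, u z) ≤
      l * (Real.pi ^ 2 / 2) * h * (δ * Real.sqrt T) :=
    mul_le_mul_of_nonneg_left hI2 (by positivity)
  have e10 : l * (1 - Real.pi ^ 2 / 2 * (2 / 3 - h * T)) =
      l * (1 - Real.pi ^ 2 / 2 * (2 / 3 - h * ∫ z, u z))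
        + l * (Real.pi ^ 2 / 2) * h * (T - ∫ z, u z) := by ring
  rw [e10]
  have e11 : Real.pi ^ 2 / 4 * h + (1 / 2 + 1 / 2 * B * (4 / (3 * h) + 1)
    + l * (Real.pi ^ 2 / 2) * h * Real.sqrt T) * δ = h * (Real.pi ^ 2 / 4) + δ / 2
      + δ / 2 * B * (4 / (3 * h) + 1) + l * (Real.pi ^ 2 / 2) * h * (δ * Real.sqrt T) := by ring
  rw [e11]
  linarith

end Pool.Agent.MaxSemi
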