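import Pool.Agent.Q94.DCG

/-! The Wirtinger inequality in a direction; degenerate seminorms. -/

namespace Pool.Agent.MaxSemi

open MeasureTheory Set Filter Topology
open scoped NNReal

variable {Ω : Set (ℝ × ℝ)} {H : Seminorm ℝ (ℝ × ℝ)}

/-- the cotangent -/
noncomputable def ct (x : ℝ) : ℝ := Real.cos (Real.pi * x / 2) / Real.sin (Real.pi * x / 2)

theorem sin_pos' {x : ℝ} (h0 : 0 < x) (h2 : x < 2) : 0 < Real.sin (Real.pi * x / 2) := by
  have hpi := Real.pi_pos
  exact Real.sin_pos_of_pos_of_lt_pi (by positivity) (by nlinarith)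

theorem ct_deriv {x : ℝ} (h0 : 0 < x) (h2 : x < 2) :
    HasDerivAt ct (-(Real.pi / 2) * (1 + ct x ^ 2)) x := by
  have hs := (sin_pos' h0 h2).ne'
  have hc : HasDerivAt (fun x : ℝ => Real.pi * x / 2) (Real.pi / 2) x := by
    have := ((hasDerivAt_id x).const_mul Real.pi).div_const 2
    simpa using this
  have h := hc.cos.div hc.sin hs
  refine h.congr_deriv ?_
  unfold ct
  field_simp
  ring

theorem exists_delta {f : ℝ × ℝ → ℝ} (hf : Adm Rect f) :
    ∃ δ : ℝ, 0 < δ ∧ δ < 1 ∧ ∀ z ∈ tsupport f, δ < z.1 ∧ z.1 < 2 - δ := by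
  by_cases hne : (tsupport f).Nonempty
  · obtain ⟨z1, hz1, hmin⟩ := hf.2.1.isCompact.exists_isMinOn hne
      (f := fun z : ℝ × ℝ => min z.1 (2 - z.1)) (by fun_prop)
    have h1 := hf.2.2 hz1
    obtain ⟨⟨h2, h3⟩, -⟩ := h1
    have h4 : 0 < min z1.1 (2 - z1.1) := lt_min h2 (by linarith)
    have h5 : min z1.1 (2 - z1.1) ≤ 1 := by
      rcases le_total z1.1 1 with h | h
      · exact (min_le_left _ _).trans h
      · exact (min_le_right _ _).trans (by linarith)
    refine ⟨min z1.1 (2 - z1.1) / 2, by linarith, by linarith, fun z hz => ?_⟩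
    have h6 := hmin hz
    simp only [Set.mem_ofPred_eq] at h6
    have h7 := h6.trans (min_le_left _ _)
    have h8 := h6.trans (min_le_right _ _)
    constructor <;> linarith
  · refine ⟨1 / 2, by norm_num, by norm_num, fun z hz => ?_⟩
    exact absurd ⟨z, hz⟩ hne

/-- Wirtinger's inequality in a direction -/
theorem wirtinger {f : ℝ × ℝ → ℝ} (hf : Adm Rect f) (ν : ℝ × ℝ) :
    (Real.pi / 2 * ν.1) ^ 2 * ∫ z, f z ^ 2 ≤ ∫ z, (fderiv ℝ f z ν) ^ 2 := by
  obtain ⟨δ, hδ0, hδ1, hδ⟩ := exists_delta hf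
  obtain ⟨C, hC⟩ := hf.1
  set cl : ℝ → ℝ := fun x => max δ (min (2 - δ) x) with hcl
  have hclm : ∀ x, δ ≤ cl x ∧ cl x ≤ 2 - δ := by
    intro x
    refine ⟨le_max_left _ _, max_le (by linarith) (min_le_left _ _)⟩
  have hcll : ∀ x y, |cl x - cl y| ≤ |x - y| := by
    intro x y
    refine (abs_max_sub_max_le_max _ _ _ _).trans ?_
    rw [sub_self, abs_zero]
    refine max_le (abs_nonneg _) ((abs_min_sub_min_le_max _ _ _ _).trans ?_)
    rw [sub_self, abs_zero]
    exact max_le (abs_nonneg _) le_rfl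
  -- Lipschitz constant of the cotangent
  obtain ⟨K, hK⟩ := (isCompact_Icc (a := δ) (b := 2 - δ)).exists_bound_of_continuousOn
    (f := fun x => -(Real.pi / 2) * (1 + ct x ^ 2)) (by
      refine ContinuousOn.mul continuousOn_const (ContinuousOn.add continuousOn_const
        (ContinuousOn.pow ?_ 2))
      intro x hx
      exact (ct_deriv (by linarith [hx.1]) (by linarith [hx.2])).continuousAt.continuousWithinAt)
  have hct : ∀ x ∈ Icc δ (2 - δ), ∀ y ∈ Icc δ (2 - δ), |ct x - ct y| ≤ K * |x - y| := by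
    intro x hx y hy
    have := Convex.norm_image_sub_le_of_norm_hasDerivWithin_le (f := ct)
      (f' := fun x => -(Real.pi / 2) * (1 + ct x ^ 2)) (C := K) (s := Icc δ (2 - δ))
      (fun x hx => (ct_deriv (by linarith [hx.1]) (by linarith [hx.2])).hasDerivWithinAt)
      (fun x hx => hK x hx) (convex_Icc _ _) hy hx
    rw [Real.norm_eq_abs, Real.norm_eq_abs] at this
    exact this
  have hK0 : 0 ≤ K := (norm_nonneg _).trans (hK 1 ⟨hδ1.le, by linarith⟩)
  set β : ℝ × ℝ → ℝ := fun z => ct (cl z.1) with hβ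
  have hβl : LipschitzWith K.toNNReal β := by
    refine LipschitzWith.of_dist_le_mul fun z w => ?_
    rw [Real.coe_toNNReal _ hK0, Real.dist_eq]
    refine (hct _ (hclm _) _ (hclm _)).trans (mul_le_mul_of_nonneg_left ?_ hK0)
    refine (hcll _ _).trans ?_
    rw [Prod.dist_eq, ← Real.dist_eq]
    exact le_max_left _ _
  -- the square of f
  obtain ⟨M, hM⟩ := hf.2.1.exists_bound_of_continuous hf.cont
  have hM0 : 0 ≤ M := (norm_nonneg _).trans (hM 0)
  have hsq : LipschitzWith (C * (2 * M).toNNReal) (fun z => f z ^ 2) := by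
    refine LipschitzWith.of_dist_le_mul fun z w => ?_
    push_cast
    rw [Real.coe_toNNReal _ (by positivity), Real.dist_eq]
    have h1 : f z ^ 2 - f w ^ 2 = (f z - f w) * (f z + f w) := by ring
    rw [h1, abs_mul]
    have h2 := hC.dist_le_mul z w
    rw [Real.dist_eq] at h2
    have h3 := hM z
    have h4 := hM w
    rw [Real.norm_eq_abs] at h3 h4
    have h5 : |f z + f w| ≤ 2 * M := by
      have := abs_add_le (f z) (f w)
      linarith
    calc |f z - f w| * |f z + f w| ≤ (C * dist z w) * (2 * M) := by gcongr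
      _ = _ := by ring
  have hf2 : Adm Rect (fun z => f z ^ 2) :=
    hf.of_zero ⟨_, hsq⟩ (fun z hz => by rw [hz]; norm_num)
  have hibp := ibp hsq hf2.2.1 hβl ν
  set k := Real.pi / 2 * ν.1 with hk
  have hDβ : ∀ z, f z ^ 2 * fderiv ℝ β z ν = -(k * f z ^ 2) - k * (f z ^ 2 * β z ^ 2) := by
    intro z
    by_cases hz : f z = 0
    · rw [hz]; ring
    · have hz1 : z ∈ tsupport f := subset_tsupport f hz
      obtain ⟨h1, h2⟩ := hδ z hz1
      have h3 : β =ᶠ[𝓝 z] fun z => ct z.1 := by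
        have h4 : ∀ᶠ w : ℝ × ℝ in 𝓝 z, δ < w.1 ∧ w.1 < 2 - δ := by
          have : IsOpen {w : ℝ × ℝ | δ < w.1 ∧ w.1 < 2 - δ} :=
            (isOpen_lt continuous_const continuous_fst).inter
              (isOpen_lt continuous_fst continuous_const)
          exact this.mem_nhds ⟨h1, h2⟩
        filter_upwards [h4] with w hw
        simp only [hβ, hcl]
        rw [min_eq_right hw.2.le, max_eq_right hw.1.le]
      have h4 : β z = ct z.1 := h3.self_of_nhds
      have h5 : HasFDerivAt (fun z : ℝ × ℝ => z.1) (ContinuousLinearMap.fst ℝ ℝ ℝ) z :=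
        hasFDerivAt_fst
      have h6 := (ct_deriv (x := z.1) (by linarith) (by linarith)).comp_hasFDerivAt z h5
      have h7 : fderiv ℝ (fun z : ℝ × ℝ => ct z.1) z =
        (-(Real.pi / 2) * (1 + ct z.1 ^ 2)) • ContinuousLinearMap.fst ℝ ℝ ℝ := h6.fderiv
      rw [h3.fderiv_eq, h7, h4]
      simp only [smul_apply, ContinuousLinearMap.coe_fst', smul_eq_mul]
      rw [hk]
      ring
  have hbc : Integrable (fun z => f z ^ 2 * β z ^ 2) := by
    refine ((hf.cont.pow 2).mul (hβl.continuous.pow 2)).integrable_of_hasCompactSupport ?_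
    refine hf.2.1.mono ?_
    intro z hz hz'
    apply hz
    change f z ^ 2 * β z ^ 2 = 0
    rw [hz']; ring
  have hf2i := hf.integrable_sq
  have h1 : ∫ z, f z ^ 2 * fderiv ℝ β z ν =
      -(k * ∫ z, f z ^ 2) - k * ∫ z, f z ^ 2 * β z ^ 2 := by
    have h2 : ∀ z, f z ^ 2 * fderiv ℝ β z ν = (-k) * f z ^ 2 - k * (f z ^ 2 * β z ^ 2) := by
      intro z
      rw [hDβ z]; ring
    simp only [h2]
    rw [integral_sub (hf2i.const_mul (-k)) (hbc.const_mul k), integral_const_mul,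
      integral_const_mul]
    ring
  rw [h1] at hibp
  have hD2 := hf2.integrable_D_mul ν hβl.continuous
  have hpos : 0 ≤ ∫ z, ((fderiv ℝ f z ν) ^ 2 - k * (fderiv ℝ (fun z => f z ^ 2) z ν * β z)
      + k ^ 2 * (f z ^ 2 * β z ^ 2)) := by
    refine integral_nonneg_of_ae ?_
    filter_upwards [ae_diff hC] with z hz
    have h2 : fderiv ℝ (fun z => f z ^ 2) z ν = 2 * f z * fderiv ℝ f z ν := by
      have := (hz.hasFDerivAt.pow 2).fderiv
      rw [this]
      simp
    rw [h2]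
    have : (fderiv ℝ f z ν) ^ 2 - k * (2 * f z * fderiv ℝ f z ν * β z)
      + k ^ 2 * (f z ^ 2 * β z ^ 2) = (fderiv ℝ f z ν - k * f z * β z) ^ 2 := by ring
    simp only [Pi.zero_apply]
    rw [this]
    positivity
  have i1 : Integrable (fun z => (fderiv ℝ f z ν) ^ 2 -
      k * (fderiv ℝ (fun z => f z ^ 2) z ν * β z)) :=
    (hf.integrable_D_sq ν).sub (hD2.const_mul k)
  rw [integral_add i1 (hbc.const_mul _),
    integral_sub (hf.integrable_D_sq ν) (hD2.const_mul k), integral_const_mul, integral_const_mul,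
    hibp] at hpos
  nlinarith

/-! ### degenerate seminorms -/

/-- the seminorm `|ν · ξ|` -/
noncomputable def dirS (ν : ℝ × ℝ) : Seminorm ℝ (ℝ × ℝ) :=
  (normSeminorm ℝ ℝ).comp (ν.1 • LinearMap.fst ℝ ℝ ℝ + ν.2 • LinearMap.snd ℝ ℝ ℝ)

theorem dirS_apply (ν ξ : ℝ × ℝ) : dirS ν ξ = |ν.1 * ξ.1 + ν.2 * ξ.2| := rfl

theorem dirS_unit {ν : ℝ × ℝ} (hν : ν.1 ^ 2 + ν.2 ^ 2 = 1) : UnitSemi (dirS ν) := by
  unfold UnitSemi
  have hen : en ν = 1 := by unfold en; rw [hν]; simp
  have hne : ν ≠ 0 := by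
    rintro rfl
    simp at hν
  have hle : ∀ ξ : ℝ × ℝ, dirS ν ξ ≤ en ξ := by
    intro ξ
    rw [dirS_apply]
    unfold en
    refine Real.le_sqrt_of_sq_le ?_
    rw [sq_abs]
    nlinarith [sq_nonneg (ν.1 * ξ.2 - ν.2 * ξ.1)]
  have hone : dirS ν ν / en ν = 1 := by
    rw [dirS_apply, hen, ← sq, ← sq, hν]; simp
  refine le_antisymm ?_ ?_
  · refine csSup_le ⟨_, ν, hne, rfl⟩ ?_
    rintro t ⟨ξ, hξ, rfl⟩
    rw [div_le_one (en_pos hξ)]
    exact hle ξ
  · refine le_csSup ⟨1, ?_⟩ ⟨ν, hne, hone.symm⟩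
    rintro t ⟨ξ, hξ, rfl⟩
    rw [div_le_one (en_pos hξ)]
    exact hle ξ

theorem EE_dirS (ν : ℝ × ℝ) (u : ℝ × ℝ → ℝ) : EE (dirS ν) u = ∫ z, (fderiv ℝ u z ν) ^ 2 := by
  unfold EE
  refine integral_congr_ae (Eventually.of_forall fun z => ?_)
  simp only
  rw [dirS_apply, grad_dot, sq_abs]

theorem lam_dirS (hΩ : Ω ⊆ Rect) (ho : IsOpen Ω) (hne : Ω.Nonempty) (ν : ℝ × ℝ) :
    (Real.pi / 2 * ν.1) ^ 2 ≤ lam Ω (dirS ν) := by
  refine le_lam ho hne fun f hf => ?_
  rw [EE_dirS]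
  exact wirtinger (hf.mono hΩ) ν

end Pool.Agent.MaxSemi
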