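import Pool.Agent.Q94.DCH

/-! Lower bound for the torsional rigidity of degenerate seminorms. -/

namespace Pool.Agent.MaxSemi

open MeasureTheory Set Filter Topology
open scoped NNReal

theorem lip_mul {a b : ℝ × ℝ → ℝ} {A B M N : ℝ} (hA : 0 ≤ A) (hB : 0 ≤ B)
    (ha : ∀ z w, |a z - a w| ≤ A * dist z w) (hb : ∀ z w, |b z - b w| ≤ B * dist z w)
    (hM : ∀ z, |a z| ≤ M) (hN : ∀ z, |b z| ≤ N) :
    ∃ C : ℝ≥0, LipschitzWith C (fun z => a z * b z) := by
  have hM0 : 0 ≤ M := (abs_nonneg _).trans (hM 0)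
  have hN0 : 0 ≤ N := (abs_nonneg _).trans (hN 0)
  refine ⟨(A * N + M * B).toNNReal, LipschitzWith.of_dist_le_mul fun z w => ?_⟩
  rw [Real.coe_toNNReal _ (by positivity), Real.dist_eq]
  have h1 : a z * b z - a w * b w = (a z - a w) * b z + a w * (b z - b w) := by ring
  rw [h1]
  refine (abs_add_le _ _).trans ?_
  rw [abs_mul, abs_mul, add_mul]
  have h2 := ha z w
  have h3 := hb z w
  have h4 := hM w
  have h5 := hN z
  refine add_le_add ?_ ?_
  · calc |a z - a w| * |b z| ≤ (A * dist z w) * N := by gcongr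
      _ = _ := by ring
  · calc |a w| * |b z - b w| ≤ M * (B * dist z w) := by gcongr
      _ = _ := by ring

/-- the truncated parabola -/
noncomputable def bump (β x : ℝ) : ℝ := max (max (W x) 0 - (1 - β ^ 2) / 2) 0

theorem bump_lip (β x y : ℝ) : |bump β x - bump β y| ≤ |x - y| := by
  unfold bump
  refine (abs_max_sub_max_le_max _ _ _ _).trans ?_
  rw [sub_self, abs_zero]
  refine max_le ?_ (abs_nonneg _)
  refine le_trans (le_of_eq ?_) (clamp_lip x y)
  congr 1
  ring

theorem W_eq (x : ℝ) : W x = (1 - (x - 1) ^ 2) / 2 := by unfold W; ring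

theorem bump_eq {β x : ℝ} (hβ0 : 0 < β) (hβ1 : β < 1) (hx : |x - 1| < β) :
    bump β x = (β ^ 2 - (x - 1) ^ 2) / 2 := by
  have h1 : (x - 1) ^ 2 < β ^ 2 := by
    rw [← sq_abs]; gcongr
  unfold bump
  rw [W_eq, max_eq_left (a := (1 - (x - 1) ^ 2) / 2), max_eq_left]
  · ring
  · linarith
  · nlinarith

theorem bump_zero {β x : ℝ} (hβ0 : 0 < β) (hβ1 : β < 1) (hx : β ≤ |x - 1|) : bump β x = 0 := by
  have h1 : β ^ 2 ≤ (x - 1) ^ 2 := by
    rw [← sq_abs (x - 1)]; gcongr
  unfold bump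
  refine max_eq_right ?_
  rw [sub_nonpos]
  refine max_le ?_ ?_
  · rw [W_eq]; linarith
  · nlinarith

theorem bump_nonneg (β x : ℝ) : 0 ≤ bump β x := le_max_right _ _

theorem bump_le {β x : ℝ} (hβ0 : 0 < β) (hβ1 : β < 1) : bump β x ≤ 1 := by
  rcases lt_or_ge (|x - 1|) β with h | h
  · rw [bump_eq hβ0 hβ1 h]; nlinarith [sq_nonneg (x - 1)]
  · rw [bump_zero hβ0 hβ1 h]; norm_num

/-- cutoff functions -/
noncomputable def chi (C : Set ℝ) (n : ℕ) (s : ℝ) : ℝ := min 1 (max 0 (n * Metric.infDist s C - 1))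

theorem chi_nonneg (C : Set ℝ) (n : ℕ) (s : ℝ) : 0 ≤ chi C n s :=
  le_min zero_le_one (le_max_left _ _)

theorem chi_le (C : Set ℝ) (n : ℕ) (s : ℝ) : chi C n s ≤ 1 := min_le_left _ _

theorem chi_lip (C : Set ℝ) (n : ℕ) (s t : ℝ) : |chi C n s - chi C n t| ≤ n * |s - t| := by
  unfold chi
  have hn : (0 : ℝ) ≤ n * |s - t| := by positivity
  refine (abs_min_sub_min_le_max _ _ _ _).trans ?_
  rw [sub_self, abs_zero]
  refine max_le hn ((abs_max_sub_max_le_max _ _ _ _).trans ?_)
  rw [sub_self, abs_zero]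
  refine max_le hn ?_
  have h1 : (n : ℝ) * Metric.infDist s C - 1 - (n * Metric.infDist t C - 1) =
      n * (Metric.infDist s C - Metric.infDist t C) := by ring
  rw [h1, abs_mul, abs_of_nonneg (by positivity : (0 : ℝ) ≤ n)]
  have h2 := (Metric.lipschitz_infDist_pt C).dist_le_mul s t
  rw [NNReal.coe_one, one_mul, Real.dist_eq, Real.dist_eq] at h2
  exact mul_le_mul_of_nonneg_left h2 (by positivity)

theorem chi_supp {C : Set ℝ} {n : ℕ} {s : ℝ} (h : chi C n s ≠ 0) : 1 ≤ n * Metric.infDist s C := by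
  by_contra hcon
  push Not at hcon
  apply h
  unfold chi
  rw [max_eq_left (by linarith), min_eq_right (by norm_num)]

theorem chi_cont (C : Set ℝ) (n : ℕ) : Continuous (chi C n) := by
  have : LipschitzWith n (chi C n) := by
    refine LipschitzWith.of_dist_le_mul fun s t => ?_
    rw [Real.dist_eq, Real.dist_eq]
    exact chi_lip C n s t
  exact this.continuous

/-- the closed exceptional set -/
def exc (K : Set (ℝ × ℝ)) (t : ℝ) : Set ℝ :=
  ((fun z : ℝ × ℝ => z.2 - t * z.1) '' K) ∪ (Iic 0 ∪ Ici (1 - 2 * t))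

theorem exc_closed {K : Set (ℝ × ℝ)} (hK : IsCompact K) (t : ℝ) : IsClosed (exc K t) :=
  (hK.image (by fun_prop)).isClosed.union (isClosed_Iic.union isClosed_Ici)

theorem exc_nonempty (K : Set (ℝ × ℝ)) (t : ℝ) : (exc K t).Nonempty :=
  ⟨0, Or.inr (Or.inl (Set.mem_Iic.mpr le_rfl))⟩

theorem chi_exc {K : Set (ℝ × ℝ)} {t : ℝ} {n : ℕ} {s : ℝ} (hs : s ∈ exc K t) :
    chi (exc K t) n s = 0 := by
  by_contra h
  have h1 := chi_supp h
  rw [Metric.infDist_zero_of_mem hs] at h1
  norm_num at h1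

/-- the test function -/
noncomputable def tst (K : Set (ℝ × ℝ)) (t β : ℝ) (n : ℕ) (z : ℝ × ℝ) : ℝ :=
  bump β z.1 * chi (exc K t) n (z.2 - t * z.1)

theorem tst_adm {K : Set (ℝ × ℝ)} (hK : IsCompact K) {t β : ℝ} (ht0 : 0 ≤ t)
    (hβ0 : 0 < β) (hβ1 : β < 1) (n : ℕ) : Adm (Rect \ K) (tst K t β n) := by
  set S : Set (ℝ × ℝ) := {z | |z.1 - 1| ≤ β ∧ 1 ≤ n * Metric.infDist (z.2 - t * z.1) (exc K t)}
    with hS
  have hSc : IsClosed S := by
    have hc1 : IsClosed {z : ℝ × ℝ | |z.1 - 1| ≤ β} := isClosed_le (by fun_prop) continuous_const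
    have hc2 : Continuous (fun z : ℝ × ℝ => Metric.infDist (z.2 - t * z.1) (exc K t)) :=
      (Metric.continuous_infDist_pt (exc K t)).comp
        (f := fun z : ℝ × ℝ => z.2 - t * z.1) (by fun_prop)
    have hc3 : IsClosed {z : ℝ × ℝ | 1 ≤ n * Metric.infDist (z.2 - t * z.1) (exc K t)} :=
      isClosed_le continuous_const (continuous_const.mul hc2)
    exact hc1.inter hc3
  have hsupp : Function.support (tst K t β n) ⊆ S := by
    intro z hz
    have h1 : bump β z.1 ≠ 0 := fun h => hz (by unfold tst; rw [h, zero_mul])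
    have h2 : chi (exc K t) n (z.2 - t * z.1) ≠ 0 := fun h => hz (by unfold tst; rw [h, mul_zero])
    refine ⟨?_, chi_supp h2⟩
    by_contra hcon
    push Not at hcon
    exact h1 (bump_zero hβ0 hβ1 hcon.le)
  have hSs : ∀ z ∈ S, z ∈ Rect \ K := by
    rintro z ⟨h1, h2⟩
    have h3 : z.2 - t * z.1 ∉ exc K t := by
      intro h
      rw [Metric.infDist_zero_of_mem h] at h2
      norm_num at h2
    have h4 : 0 < z.2 - t * z.1 := by
      by_contra hcon
      push Not at hcon
      exact h3 (Or.inr (Or.inl hcon))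
    have h5 : z.2 - t * z.1 < 1 - 2 * t := by
      by_contra hcon
      push Not at hcon
      exact h3 (Or.inr (Or.inr hcon))
    have h6 := abs_le.mp h1
    have h7 : 0 < z.1 := by linarith
    have h8 : z.1 < 2 := by linarith
    refine ⟨⟨⟨h7, h8⟩, ⟨by nlinarith, by nlinarith⟩⟩, fun h => h3 (Or.inl ⟨z, h, rfl⟩)⟩
  have hSb : IsCompact S := by
    refine Metric.isCompact_of_isClosed_isBounded hSc ?_
    refine ((Metric.isBounded_Icc (0 : ℝ) 2).prod (Metric.isBounded_Icc (0 : ℝ) 1)).subset ?_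
    intro z hz
    obtain ⟨⟨⟨h1, h2⟩, ⟨h3, h4⟩⟩, -⟩ := hSs z hz
    exact ⟨⟨h1.le, h2.le⟩, ⟨h3.le, h4.le⟩⟩
  have hts : tsupport (tst K t β n) ⊆ S := closure_minimal hsupp hSc
  refine ⟨?_, hSb.of_isClosed_subset (isClosed_tsupport _) hts, fun z hz => hSs z (hts hz)⟩
  refine lip_mul (A := 1) (B := n * (1 + t)) (M := 1) (N := 1) zero_le_one (by positivity)
    ?_ ?_ ?_ ?_
  · intro z w
    rw [one_mul]
    refine (bump_lip _ _ _).trans ?_
    rw [Prod.dist_eq, ← Real.dist_eq]
    exact le_max_left _ _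
  · intro z w
    refine (chi_lip _ _ _ _).trans ?_
    rw [mul_assoc]
    refine mul_le_mul_of_nonneg_left ?_ (by positivity)
    have h1 : |z.1 - w.1| ≤ dist z w := by
      rw [Prod.dist_eq, ← Real.dist_eq]; exact le_max_left _ _
    have h2 : |z.2 - w.2| ≤ dist z w := by
      rw [Prod.dist_eq, ← Real.dist_eq z.2]; exact le_max_right _ _
    have h3 : z.2 - t * z.1 - (w.2 - t * w.1) = (z.2 - w.2) + (-t) * (z.1 - w.1) := by ring
    rw [h3]
    refine (abs_add_le _ _).trans ?_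
    rw [abs_mul, abs_neg, abs_of_nonneg ht0]
    nlinarith
  · intro z
    rw [abs_of_nonneg (bump_nonneg _ _)]
    exact bump_le hβ0 hβ1
  · intro z
    rw [abs_of_nonneg (chi_nonneg _ _ _)]
    exact chi_le _ _ _

theorem bump_nhds {β x : ℝ} (hβ0 : 0 < β) (hβ1 : β < 1) (hx : |x - 1| < β) :
    HasDerivAt (bump β) (-(x - 1)) x := by
  have h1 : bump β =ᶠ[𝓝 x] fun x => (β ^ 2 - (x - 1) ^ 2) / 2 := by
    have : IsOpen {y : ℝ | |y - 1| < β} := isOpen_lt (by fun_prop) continuous_const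
    filter_upwards [this.mem_nhds hx] with y hy
    exact bump_eq hβ0 hβ1 hy
  refine HasDerivAt.congr_of_eventuallyEq ?_ h1
  have h2 : HasDerivAt (fun x : ℝ => x - 1) 1 x := (hasDerivAt_id x).sub_const 1
  have h3 := ((h2.pow 2).const_sub (β ^ 2)).div_const 2
  refine h3.congr_deriv ?_
  simp
  ring

theorem tst_D {K : Set (ℝ × ℝ)} {t β c : ℝ} (hβ0 : 0 < β) (hβ1 : β < 1) {n : ℕ} {z : ℝ × ℝ}
    (hz : DifferentiableAt ℝ (tst K t β n) z) (hx : |z.1 - 1| < β) :
    fderiv ℝ (tst K t β n) z (c, c * t) =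
      -(z.1 - 1) * c * chi (exc K t) n (z.2 - t * z.1) := by
  have h0 : HasDerivAt (fun τ : ℝ => z + τ • ((c, c * t) : ℝ × ℝ)) (c, c * t) 0 := by
    have h1 : HasDerivAt (fun τ : ℝ => τ • ((c, c * t) : ℝ × ℝ)) ((1 : ℝ) • ((c, c * t) : ℝ × ℝ)) 0 :=
      (hasDerivAt_id (0 : ℝ)).smul_const _
    rw [one_smul] at h1
    exact h1.const_add z
  have hz' : HasFDerivAt (tst K t β n) (fderiv ℝ (tst K t β n) z)
      (z + (0 : ℝ) • ((c, c * t) : ℝ × ℝ)) := by
    rw [zero_smul, add_zero]; exact hz.hasFDerivAt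
  have h2 := hz'.comp_hasDerivAt (0 : ℝ) h0
  have h3 : (tst K t β n ∘ fun τ : ℝ => z + τ • ((c, c * t) : ℝ × ℝ)) =
      fun τ => bump β (z.1 + τ * c) * chi (exc K t) n (z.2 - t * z.1) := by
    funext τ
    simp only [Function.comp, tst, Prod.fst_add, Prod.snd_add, Prod.smul_fst, Prod.smul_snd,
      smul_eq_mul]
    congr 2
    ring
  rw [h3] at h2
  have h4 : HasDerivAt (fun τ : ℝ => z.1 + τ * c) c 0 := by
    have := ((hasDerivAt_id (0 : ℝ)).mul_const c).const_add z.1
    simpa using this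
  have h5 : HasDerivAt (bump β) (-(z.1 - 1)) (z.1 + 0 * c) := by
    rw [zero_mul, add_zero]; exact bump_nhds hβ0 hβ1 hx
  have h6 := (h5.comp (0 : ℝ) h4).mul_const (chi (exc K t) n (z.2 - t * z.1))
  exact h2.unique h6

/-- the lower density -/
noncomputable def dens (β : ℝ) : ℝ → ℝ :=
  Set.indicator (Ioo (1 - β) (1 + β)) (fun x => β ^ 2 - 2 * (x - 1) ^ 2)

theorem dens_int {β : ℝ} (hβ0 : 0 < β) : ∫ x, dens β x = 2 / 3 * β ^ 3 := by
  unfold dens
  rw [integral_indicator measurableSet_Ioo, ← integral_Ioc_eq_integral_Ioo,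
    ← intervalIntegral.integral_of_le (by linarith)]
  have h2 : ∀ x : ℝ, β ^ 2 - 2 * (x - 1) ^ 2 = (β ^ 2 - 2) - (-4) * x + (-2) * x ^ 2 := by
    intro x; ring
  simp only [h2]
  rw [poly_int]
  ring

theorem tst_J {K : Set (ℝ × ℝ)} (hK : IsCompact K) {t β c : ℝ} (ht0 : 0 ≤ t)
    (hβ0 : 0 < β) (hβ1 : β < 1) (n : ℕ) (hc0 : 0 ≤ c) (hc1 : c ≤ 1) :
    (∫ x, dens β x) * (∫ s, chi (exc K t) n s) ≤
      2 * (∫ z, tst K t β n z) - EE (dirS (c, c * t)) (tst K t β n) := by
  have hadm := tst_adm hK ht0 hβ0 hβ1 n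
  have hmeas : Measurable (fun z : ℝ × ℝ => dens β z.1 * chi (exc K t) n (z.2 - t * z.1)) := by
    have h1 : Measurable (dens β) := by
      unfold dens
      exact (Continuous.measurable (by fun_prop)).indicator measurableSet_Ioo
    exact (h1.comp measurable_fst).mul ((chi_cont _ n).measurable.comp (by fun_prop))
  have hint : Integrable (fun z : ℝ × ℝ => dens β z.1 * chi (exc K t) n (z.2 - t * z.1)) := by
    refine integrable_of_bdd (M := 2) hmeas ?_
      ((isCompact_Icc (a := (0 : ℝ)) (b := 2)).prod (isCompact_Icc (a := (0 : ℝ)) (b := 1))) ?_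
    · intro z
      rw [abs_mul, abs_of_nonneg (chi_nonneg _ _ _)]
      have h1 := chi_le (exc K t) n (z.2 - t * z.1)
      have h2 := chi_nonneg (exc K t) n (z.2 - t * z.1)
      have h3 : |dens β z.1| ≤ 2 := by
        unfold dens
        by_cases h : z.1 ∈ Ioo (1 - β) (1 + β)
        · rw [Set.indicator_of_mem h]
          have h4 : (z.1 - 1) ^ 2 ≤ β ^ 2 := by nlinarith [h.1, h.2]
          rw [abs_le]
          constructor <;> nlinarith [sq_nonneg (z.1 - 1)]
        · rw [Set.indicator_of_notMem h]; norm_num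
      nlinarith [abs_nonneg (dens β z.1)]
    · intro z hz
      by_cases h : z.1 ∈ Ioo (1 - β) (1 + β)
      · have h3 : z.2 - t * z.1 ∈ exc K t := by
          by_contra h3
          have h4 : 0 < z.2 - t * z.1 := by
            by_contra hcon
            push Not at hcon
            exact h3 (Or.inr (Or.inl hcon))
          have h5 : z.2 - t * z.1 < 1 - 2 * t := by
            by_contra hcon
            push Not at hcon
            exact h3 (Or.inr (Or.inr hcon))
          have h7 : 0 < z.1 := by linarith [h.1]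
          have h8 : z.1 < 2 := by linarith [h.2]
          exact hz ⟨⟨h7.le, h8.le⟩, ⟨by nlinarith, by nlinarith⟩⟩
        rw [chi_exc h3, mul_zero]
      · unfold dens
        rw [Set.indicator_of_notMem h, zero_mul]
  have hF : ∫ z : ℝ × ℝ, dens β z.1 * chi (exc K t) n (z.2 - t * z.1) =
      (∫ x, dens β x) * (∫ s, chi (exc K t) n s) := by
    rw [Measure.volume_eq_prod] at hint ⊢
    rw [integral_prod _ hint]
    simp only [integral_const_mul]
    have h1 : ∀ x : ℝ, ∫ y, chi (exc K t) n (y - t * x) = ∫ s, chi (exc K t) n s := fun x =>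
      integral_sub_right_eq_self (fun s => chi (exc K t) n s) (t * x)
    simp only [h1]
    rw [integral_mul_const]
  rw [← hF, EE_dirS, ← integral_const_mul, ← integral_sub (hadm.integrable.const_mul 2)
    (hadm.integrable_D_sq _)]
  obtain ⟨L, hL⟩ := hadm.1
  refine integral_mono_ae hint ((hadm.integrable.const_mul 2).sub (hadm.integrable_D_sq _)) ?_
  filter_upwards [ae_diff hL] with z hz
  have h1 := chi_le (exc K t) n (z.2 - t * z.1)
  have h2 := chi_nonneg (exc K t) n (z.2 - t * z.1)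
  rcases lt_or_ge (|z.1 - 1|) β with hx | hx
  · rw [tst_D hβ0 hβ1 hz hx]
    unfold tst
    rw [bump_eq hβ0 hβ1 hx]
    have hmem : z.1 ∈ Ioo (1 - β) (1 + β) := by
      have := abs_lt.mp hx
      exact ⟨by linarith, by linarith⟩
    unfold dens
    rw [Set.indicator_of_mem hmem]
    set q := chi (exc K t) n (z.2 - t * z.1)
    have h3 : (-(z.1 - 1) * c * q) ^ 2 ≤ (z.1 - 1) ^ 2 * q := by
      have h4 : (-(z.1 - 1) * c * q) ^ 2 = (z.1 - 1) ^ 2 * (c ^ 2 * q ^ 2) := by ring
      rw [h4]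
      refine mul_le_mul_of_nonneg_left ?_ (sq_nonneg _)
      have h5 : c ^ 2 ≤ 1 := by nlinarith
      have h6 : q ^ 2 ≤ q := by nlinarith
      calc c ^ 2 * q ^ 2 ≤ 1 * q := by gcongr
        _ = q := one_mul q
    nlinarith
  · have h0 : tst K t β n z = 0 := by
      unfold tst; rw [bump_zero hβ0 hβ1 hx, zero_mul]
    have hmin : IsLocalMin (tst K t β n) z := by
      refine Eventually.of_forall fun w => ?_
      rw [h0]
      exact mul_nonneg (bump_nonneg _ _) (chi_nonneg _ _ _)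
    rw [hmin.fderiv_eq_zero, h0]
    have hmem : z.1 ∉ Ioo (1 - β) (1 + β) := by
      intro h
      have : |z.1 - 1| < β := by
        rw [abs_lt]; exact ⟨by linarith [h.1], by linarith [h.2]⟩
      linarith
    unfold dens
    rw [Set.indicator_of_notMem hmem]
    simp

theorem chi_lim {K : Set (ℝ × ℝ)} (hK : IsCompact K) {t : ℝ} (ht1 : 2 * t ≤ 1)
    (hnull : volume ((fun z : ℝ × ℝ => z.2 - t * z.1) '' K) = 0) :
    Tendsto (fun n : ℕ => ∫ s, chi (exc K t) n s) atTop (𝓝 (1 - 2 * t)) := by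
  have h1 : ∫ s, Set.indicator (Ioo 0 (1 - 2 * t)) (fun _ => (1 : ℝ)) s = 1 - 2 * t := by
    rw [integral_indicator measurableSet_Ioo, setIntegral_const]
    simp
    linarith
  rw [← h1]
  refine tendsto_integral_of_dominated_convergence
    (Set.indicator (Ioo 0 (1 - 2 * t)) (fun _ => (1 : ℝ))) ?_ ?_ ?_ ?_
  · intro n
    exact (chi_cont _ n).aestronglyMeasurable
  · rw [integrable_indicator_iff measurableSet_Ioo]
    exact integrableOn_const (by simp)
  · intro n
    refine Eventually.of_forall fun s => ?_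
    rw [Real.norm_eq_abs, abs_of_nonneg (chi_nonneg _ _ _)]
    by_cases hs : s ∈ Ioo 0 (1 - 2 * t)
    · rw [Set.indicator_of_mem hs]; exact chi_le _ _ _
    · rw [Set.indicator_of_notMem hs, chi_exc]
      by_contra hcon
      apply hs
      constructor
      · by_contra h
        push Not at h
        exact hcon (Or.inr (Or.inl h))
      · by_contra h
        push Not at h
        exact hcon (Or.inr (Or.inr h))
  · have hae : ∀ᵐ s : ℝ, s ∉ (fun z : ℝ × ℝ => z.2 - t * z.1) '' K := by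
      rw [ae_iff]
      simp only [not_not]
      exact hnull
    filter_upwards [hae] with s hs
    by_cases hs2 : s ∈ Ioo 0 (1 - 2 * t)
    · rw [Set.indicator_of_mem hs2]
      have h3 : s ∉ exc K t := by
        rintro (h | h | h)
        · exact hs h
        · exact absurd hs2.1 (not_lt.mpr h)
        · exact absurd hs2.2 (not_lt.mpr h)
      have h4 : 0 < Metric.infDist s (exc K t) :=
        ((exc_closed hK t).notMem_iff_infDist_pos (exc_nonempty K t)).mp h3
      refine tendsto_const_nhds.congr' ?_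
      obtain ⟨N, hN⟩ := exists_nat_ge (2 / Metric.infDist s (exc K t))
      filter_upwards [eventually_ge_atTop N] with n hn
      unfold chi
      have h5 : (2 : ℝ) ≤ n * Metric.infDist s (exc K t) := by
        rw [div_le_iff₀ h4] at hN
        have : (N : ℝ) ≤ n := by exact_mod_cast hn
        nlinarith
      rw [min_eq_left]
      exact le_trans (by linarith) (le_max_right _ _)
    · rw [Set.indicator_of_notMem hs2]
      refine tendsto_const_nhds.congr fun n => ?_
      rw [chi_exc]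
      by_contra hcon
      apply hs2
      constructor
      · by_contra h
        push Not at h
        exact hcon (Or.inr (Or.inl h))
      · by_contra h
        push Not at h
        exact hcon (Or.inr (Or.inr h))

theorem tors_dirS_ge {K : Set (ℝ × ℝ)} (hK : IsCompact K) {t c : ℝ} (ht0 : 0 ≤ t)
    (ht1 : 2 * t ≤ 1) (hc0 : 0 ≤ c) (hct : c ^ 2 + (c * t) ^ 2 = 1)
    (hnull : volume ((fun z : ℝ × ℝ => z.2 - t * z.1) '' K) = 0) :
    2 / 3 * (1 - 2 * t) ≤ tors (Rect \ K) (dirS (c, c * t)) := by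
  have hA := tbound_flux (Ω := Rect \ K) (H := dirS (c, c * t)) sdiff_subset (ν := (c, c * t)) hct
    (fun ξ => by rw [dirS_apply])
  have hpos : 0 < 4 - 3 * c ^ 2 := by nlinarith [sq_nonneg (c * t)]
  have hT := hA.tors' (by positivity)
  have hc1 : c ≤ 1 := by nlinarith [sq_nonneg (c * t)]
  have hlim : Tendsto (fun n : ℕ => 2 / 3 * (1 - 1 / ((n : ℝ) + 2)) ^ 3 *
      ∫ s, chi (exc K t) n s) atTop (𝓝 (2 / 3 * (1 - 0) ^ 3 * (1 - 2 * t))) := by
    refine Tendsto.mul (Tendsto.mul tendsto_const_nhds (Tendsto.pow ?_ 3)) (chi_lim hK ht1 hnull)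
    refine Tendsto.sub tendsto_const_nhds ?_
    refine Tendsto.div_atTop tendsto_const_nhds ?_
    exact tendsto_atTop_add_const_right _ _ tendsto_natCast_atTop_atTop
  have h1 : 2 / 3 * (1 - 0) ^ 3 * (1 - 2 * t) = 2 / 3 * (1 - 2 * t) := by ring
  rw [h1] at hlim
  refine le_of_tendsto' hlim fun n => ?_
  have hn : (0 : ℝ) < (n : ℝ) + 2 := by positivity
  have hβ0 : 0 < 1 - 1 / ((n : ℝ) + 2) := by
    rw [sub_pos, div_lt_one hn]
    have : (0 : ℝ) ≤ n := Nat.cast_nonneg n
    linarith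
  have hβ1 : 1 - 1 / ((n : ℝ) + 2) < 1 := by
    have : 0 < 1 / ((n : ℝ) + 2) := by positivity
    linarith
  have h2 := tst_J hK ht0 hβ0 hβ1 n hc0 hc1
  have h3 := hT _ (tst_adm hK ht0 hβ0 hβ1 n)
  rw [dens_int hβ0] at h2
  linarith

end Pool.Agent.MaxSemi
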