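import Pool.Agent.Q94.DCI

/-! The exceptional compact set. -/

namespace Pool.Agent.MaxSemi

open MeasureTheory Set Filter Topology
open scoped NNReal

/-- weighted digit sums -/
noncomputable def ds (w : ℕ → ℝ) (e : ℕ → Fin 2) : ℝ := ∑' i, w i * ((e i : ℕ) : ℝ)

/-- geometric bound for the weights -/
def GB (B : ℝ) (w : ℕ → ℝ) : Prop := ∀ i, |w i| ≤ B * (3 / 4) ^ (i + 1)

theorem geo_sum (B : ℝ) (M : ℕ) : HasSum (fun i : ℕ => B * (3 / 4 : ℝ) ^ (i + M + 1))
    (4 * B * (3 / 4) ^ (M + 1)) := by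
  have h1 := (hasSum_geometric_of_lt_one (r := (3 / 4 : ℝ)) (by norm_num) (by norm_num)).mul_left
    (B * (3 / 4 : ℝ) ^ (M + 1))
  have h2 : (fun i : ℕ => B * (3 / 4 : ℝ) ^ (i + M + 1)) =
      fun i => B * (3 / 4 : ℝ) ^ (M + 1) * (3 / 4 : ℝ) ^ i := by
    funext i
    rw [mul_assoc, ← pow_add]
    congr 2
    omega
  rw [h2]
  convert! h1 using 1
  norm_num
  ring

theorem dig_le (e : ℕ → Fin 2) (i : ℕ) : ((e i : ℕ) : ℝ) ≤ 1 := by
  have := (e i).isLt
  exact_mod_cast Nat.lt_succ_iff.mp this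

theorem GB.term {B : ℝ} {w : ℕ → ℝ} (h : GB B w) (e : ℕ → Fin 2) (i : ℕ) :
    |w i * ((e i : ℕ) : ℝ)| ≤ B * (3 / 4) ^ (i + 1) := by
  rw [abs_mul, Nat.abs_cast]
  have h1 := h i
  have h2 := dig_le e i
  nlinarith [abs_nonneg (w i)]

theorem GB.summable {B : ℝ} {w : ℕ → ℝ} (h : GB B w) (e : ℕ → Fin 2) :
    Summable (fun i => w i * ((e i : ℕ) : ℝ)) :=
  Summable.of_norm_bounded (geo_sum B 0).summable (fun i => h.term e i)

theorem GB.cont {B : ℝ} {w : ℕ → ℝ} (h : GB B w) : Continuous (ds w) := by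
  unfold ds
  refine continuous_tsum (u := fun i => B * (3 / 4) ^ (i + 1)) ?_ (geo_sum B 0).summable ?_
  · intro i
    exact continuous_const.mul ((continuous_of_discreteTopology (f := fun a : Fin 2 =>
      ((a : ℕ) : ℝ))).comp (continuous_apply i))
  · intro i e
    exact h.term e i

theorem GB.le {B : ℝ} {w : ℕ → ℝ} (h : GB B w) (e : ℕ → Fin 2) : ds w e ≤ 3 * B := by
  unfold ds
  refine ((h.summable e).tsum_le_tsum (fun i => (le_abs_self _).trans (h.term e i))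
    (geo_sum B 0).summable).trans (le_of_eq ?_)
  have := (geo_sum B 0).tsum_eq
  simp only [add_zero, zero_add, pow_one] at this
  rw [this]
  ring

theorem GB.approx {B : ℝ} {w : ℕ → ℝ} (h : GB B w) {N : ℕ} (hN : 1 ≤ N)
    (h0 : ∀ i, N ≤ i + 1 → i + 1 < 4 * N → w i = 0) (e : ℕ → Fin 2) :
    |ds w e - ∑ i ∈ Finset.range N, w i * ((e i : ℕ) : ℝ)| ≤ 4 * B * (3 / 4) ^ (4 * N) := by
  obtain ⟨M, hM⟩ : ∃ M, M + 1 = 4 * N := ⟨4 * N - 1, by omega⟩
  unfold ds
  rw [← (h.summable e).sum_add_tsum_nat_add M]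
  have h1 : ∑ i ∈ Finset.range N, w i * ((e i : ℕ) : ℝ) =
      ∑ i ∈ Finset.range M, w i * ((e i : ℕ) : ℝ) := by
    refine Finset.sum_subset ?_ ?_
    · intro i hi
      rw [Finset.mem_range] at hi ⊢
      omega
    · intro i hi hi'
      rw [Finset.mem_range] at hi hi'
      rw [h0 i (by omega) (by omega), zero_mul]
  rw [h1, add_sub_cancel_left, ← Real.norm_eq_abs, ← hM]
  refine tsum_of_norm_bounded (geo_sum B M) fun i => ?_
  exact h.term e (i + M)

/-- the null lemma -/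
theorem GB.null {w : ℕ → ℝ} (h : GB 3 w) (b : ℝ) {N : ℕ → ℕ} (hN : Tendsto N atTop atTop)
    (hN1 : ∀ l, 1 ≤ N l) (h0 : ∀ l i, N l ≤ i + 1 → i + 1 < 4 * N l → w i = 0) :
    volume (range fun e => b + ds w e) = 0 := by
  have hlim : Tendsto (fun l => ENNReal.ofReal (24 * (81 / 128 : ℝ) ^ N l)) atTop
      (𝓝 (ENNReal.ofReal 0)) := by
    refine ENNReal.tendsto_ofReal ?_
    have h1 : Tendsto (fun l => (81 / 128 : ℝ) ^ N l) atTop (𝓝 0) :=
      (tendsto_pow_atTop_nhds_zero_of_lt_one (by norm_num) (by norm_num)).comp hN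
    simpa using h1.const_mul 24
  rw [ENNReal.ofReal_zero] at hlim
  refine le_antisymm (ge_of_tendsto' hlim fun l => ?_) (zero_le)
  set R := 4 * 3 * (3 / 4 : ℝ) ^ (4 * N l) with hR
  have hsub : (range fun e => b + ds w e) ⊆ ⋃ S ∈ (Finset.range (N l)).powerset,
      Metric.closedBall (b + ∑ i ∈ S, w i) R := by
    rintro s ⟨e, rfl⟩
    have h1 := h.approx (hN1 l) (h0 l) e
    refine mem_biUnion (x := (Finset.range (N l)).filter (fun i => e i = 1)) ?_ ?_
    · rw [Finset.mem_coe, Finset.mem_powerset]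
      exact Finset.filter_subset _ _
    · rw [Metric.mem_closedBall, Real.dist_eq]
      have h2 : ∑ i ∈ (Finset.range (N l)).filter (fun i => e i = 1), w i =
          ∑ i ∈ Finset.range (N l), w i * ((e i : ℕ) : ℝ) := by
        rw [Finset.sum_filter]
        refine Finset.sum_congr rfl fun i _ => ?_
        by_cases hi : e i = 1
        · rw [if_pos hi, hi]; simp
        · rw [if_neg hi]
          have : e i = 0 := by omega
          rw [this]; simp
      rw [h2]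
      have h3 : b + ds w e - (b + ∑ i ∈ Finset.range (N l), w i * ((e i : ℕ) : ℝ)) =
        ds w e - ∑ i ∈ Finset.range (N l), w i * ((e i : ℕ) : ℝ) := by ring
      rw [h3]
      exact h1
  refine (measure_mono hsub).trans ((measure_biUnion_finset_le _ _).trans ?_)
  simp only [Real.volume_closedBall]
  rw [Finset.sum_const, Finset.card_powerset, Finset.card_range, nsmul_eq_mul]
  have h4 : ((2 ^ N l : ℕ) : ENNReal) = ENNReal.ofReal (2 ^ N l) := by
    rw [ENNReal.ofReal_pow (by norm_num)]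
    simp
  rw [h4, ← ENNReal.ofReal_mul (by positivity)]
  refine ENNReal.ofReal_le_ofReal (le_of_eq ?_)
  rw [hR, pow_mul]
  have h5 : (81 / 128 : ℝ) ^ N l = 2 ^ N l * ((3 / 4) ^ 4) ^ N l := by
    rw [← mul_pow]; norm_num
  rw [h5]
  ring

/-! ### the set -/

/-- the exponent of the block of the digit `i` -/
def blk (i : ℕ) : ℕ := (Nat.unpair (Nat.log 4 (i + 1))).1

/-- the vertical weights -/
noncomputable def wy (i : ℕ) : ℝ := ((2 : ℝ) ^ (i + 1))⁻¹

/-- the horizontal weights -/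
noncomputable def wx (i : ℕ) : ℝ := 2 ^ blk i * ((2 : ℝ) ^ (i + 1))⁻¹

theorem wy_pos (i : ℕ) : 0 < wy i := by unfold wy; positivity

theorem wx_pos (i : ℕ) : 0 < wx i := by unfold wx; positivity

theorem wy_le (i : ℕ) : wy i ≤ (3 / 4) ^ (i + 1) := by
  unfold wy
  rw [← inv_pow]
  gcongr
  norm_num

theorem wx_le (i : ℕ) : wx i ≤ 2 * (3 / 4) ^ (i + 1) := by
  have h1 : (2 : ℝ) ^ blk i ≤ 2 * (3 / 2 : ℝ) ^ (i + 1) := by
    have h2 : blk i ≤ Nat.log 4 (i + 1) := Nat.unpair_left_le _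
    have h3 : 4 ^ Nat.log 4 (i + 1) ≤ i + 1 := Nat.pow_log_le_self 4 (by omega)
    have h4 : 2 ^ blk i ≤ i + 1 :=
      (Nat.pow_le_pow_right (by norm_num) h2).trans
        ((Nat.pow_le_pow_left (by norm_num) _).trans h3)
    have h5 : ((2 ^ blk i : ℕ) : ℝ) ≤ ((i + 1 : ℕ) : ℝ) := by exact_mod_cast h4
    have h6 := one_add_mul_le_pow (a := (1 / 2 : ℝ)) (by norm_num) (i + 1)
    push_cast at h5 h6
    have h7 : (1 + 1 / 2 : ℝ) = 3 / 2 := by norm_num
    rw [h7] at h6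
    linarith
  unfold wx
  calc (2 : ℝ) ^ blk i * ((2 : ℝ) ^ (i + 1))⁻¹
      ≤ (2 * (3 / 2 : ℝ) ^ (i + 1)) * ((2 : ℝ) ^ (i + 1))⁻¹ := by gcongr
    _ = 2 * ((3 / 2) ^ (i + 1) * (2⁻¹) ^ (i + 1)) := by rw [inv_pow]; ring
    _ = 2 * (3 / 4) ^ (i + 1) := by rw [← mul_pow]; norm_num

theorem GB_wy : GB 1 wy := fun i => by
  rw [abs_of_pos (wy_pos i), one_mul]; exact wy_le i

theorem GB_wx : GB 2 wx := fun i => by
  rw [abs_of_pos (wx_pos i)]; exact wx_le i

theorem ds_wy (e : ℕ → Fin 2) : ds wy e = Real.ofDigits e := by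
  unfold ds Real.ofDigits Real.ofDigitsTerm wy
  refine tsum_congr fun i => ?_
  push_cast
  ring

theorem ds_nonneg {w : ℕ → ℝ} (hw : ∀ i, 0 < w i) (e : ℕ → Fin 2) : 0 ≤ ds w e :=
  tsum_nonneg fun i => mul_nonneg (hw i).le (Nat.cast_nonneg _)

/-- the parametrisation -/
noncomputable def par (e : ℕ → Fin 2) : ℝ × ℝ := (1 / 2 + 1 / 8 * ds wx e, 1 / 4 + 1 / 8 * ds wy e)

/-- the exceptional set -/
def KK : Set (ℝ × ℝ) := range par

theorem par_cont : Continuous par :=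
  (continuous_const.add (continuous_const.mul GB_wx.cont)).prodMk
    (continuous_const.add (continuous_const.mul GB_wy.cont))

theorem KK_compact : IsCompact KK := isCompact_range par_cont

theorem KK_sub {z : ℝ × ℝ} (hz : z ∈ KK) : 1 / 2 ≤ z.1 ∧ z.1 ≤ 5 / 4 ∧ 1 / 4 ≤ z.2 ∧ z.2 ≤ 3 / 8 := by
  obtain ⟨e, rfl⟩ := hz
  have h1 := ds_nonneg wx_pos e
  have h2 := ds_nonneg wy_pos e
  have h3 := GB_wx.le e
  have h4 := Real.ofDigits_le_one e
  rw [← ds_wy] at h4
  unfold par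
  refine ⟨?_, ?_, ?_, ?_⟩ <;> simp only <;> linarith

/-- (K1) -/
theorem KK_hits {y : ℝ} (h1 : 1 / 4 ≤ y) (h2 : y ≤ 3 / 8) : ∃ x, (x, y) ∈ KK := by
  obtain ⟨e, -, he⟩ := Real.ofDigits_SurjOn (b := 2) (by norm_num)
    (show 8 * (y - 1 / 4) ∈ Icc (0 : ℝ) 1 from ⟨by linarith, by linarith⟩)
  refine ⟨1 / 2 + 1 / 8 * ds wx e, e, ?_⟩
  unfold par
  rw [ds_wy, he]
  ext
  · rfl
  · simp only; ring

/-- (K2) -/
theorem KK_null (n : ℕ) :
    volume ((fun z : ℝ × ℝ => z.2 - ((2 : ℝ) ^ n)⁻¹ * z.1) '' KK) = 0 := by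
  set t : ℝ := ((2 : ℝ) ^ n)⁻¹ with ht
  have ht0 : 0 < t := by positivity
  have ht1 : t ≤ 1 := by
    rw [ht]
    exact inv_le_one_of_one_le₀ (one_le_pow₀ (by norm_num))
  set w : ℕ → ℝ := fun i => 1 / 8 * (wy i - t * wx i) with hw
  have h1 : (fun z : ℝ × ℝ => z.2 - t * z.1) '' KK = range fun e => (1 / 4 - t / 2) + ds w e := by
    unfold KK
    rw [← range_comp]
    congr 1
    funext e
    simp only [Function.comp, par]
    have h2 : ds w e = 1 / 8 * (ds wy e - t * ds wx e) := by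
      unfold ds
      rw [← tsum_mul_left, ← (GB_wy.summable e).tsum_sub ((GB_wx.summable e).mul_left t),
        ← tsum_mul_left]
      refine tsum_congr fun i => ?_
      simp only [hw]
      ring
    rw [h2]
    ring
  rw [h1]
  refine GB.null (w := w) ?_ _ (N := fun l => 4 ^ Nat.pair n l) ?_ ?_ ?_
  · intro i
    simp only [hw]
    rw [abs_mul, abs_of_nonneg (by norm_num : (0 : ℝ) ≤ 1 / 8)]
    have h3 : |wy i - t * wx i| ≤ wy i + t * wx i := by
      have h4 := wy_pos i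
      have h5 := wx_pos i
      have h6 := mul_pos ht0 h5
      rw [abs_le]
      constructor <;> linarith
    have h7 := wy_le i
    have h8 := wx_le i
    have h9 : t * wx i ≤ wx i := by nlinarith [wx_pos i]
    have h10 : (0 : ℝ) < (3 / 4) ^ (i + 1) := by positivity
    linarith
  · refine tendsto_atTop_mono (f := fun l => l) (fun l => ?_) tendsto_id
    exact (Nat.right_le_pair n l).trans (Nat.lt_pow_self (by norm_num)).le
  · intro l
    exact Nat.one_le_pow _ _ (by norm_num)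
  · intro l i hi1 hi2
    have h3 : Nat.log 4 (i + 1) = Nat.pair n l := by
      rw [Nat.log_eq_iff (Or.inr ⟨by norm_num, by omega⟩)]
      refine ⟨hi1, ?_⟩
      rw [pow_succ]
      omega
    have h4 : blk i = n := by
      unfold blk
      rw [h3, Nat.unpair_pair]
    simp only [hw]
    unfold wx wy
    rw [h4, ht]
    field_simp
    ring

end Pool.Agent.MaxSemi
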