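import Pool.Agent.Q94.DCJ

/-! The domain: connectedness, and the horizontal bound. -/

namespace Pool.Agent.MaxSemi

open MeasureTheory Set Filter Topology
open scoped NNReal

/-- the domain -/
def Om : Set (ℝ × ℝ) := Rect \ KK

theorem Om_open : IsOpen Om := rect_open.sdiff KK_compact.isClosed

theorem Om_sub : Om ⊆ Rect := sdiff_subset

theorem Om_bdd : Bornology.IsBounded Om := by
  refine ((Metric.isBounded_Icc (0 : ℝ) 2).prod (Metric.isBounded_Icc (0 : ℝ) 1)).subset ?_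
  intro z hz
  obtain ⟨⟨h1, h2⟩, ⟨h3, h4⟩⟩ := Om_sub hz
  exact ⟨⟨h1.le, h2.le⟩, ⟨h3.le, h4.le⟩⟩

/-- the upper strip and the right strip -/
def Cc : Set (ℝ × ℝ) := Ioo 0 2 ×ˢ Ioo (3 / 8) 1 ∪ Ioo (5 / 4) 2 ×ˢ Ioo 0 1

theorem Cc_sub : Cc ⊆ Om := by
  rintro z (⟨⟨h1, h2⟩, ⟨h3, h4⟩⟩ | ⟨⟨h1, h2⟩, ⟨h3, h4⟩⟩)
  · refine ⟨⟨⟨h1, h2⟩, ⟨by linarith, h4⟩⟩, fun h => ?_⟩
    have := (KK_sub h).2.2.2
    linarith
  · refine ⟨⟨⟨by linarith, h2⟩, ⟨h3, h4⟩⟩, fun h => ?_⟩
    have := (KK_sub h).2.1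
    linarith

theorem Cc_conn : IsPreconnected Cc := by
  refine IsPreconnected.union ((3 / 2 : ℝ), (1 / 2 : ℝ)) ?_ ?_
    (isPreconnected_Ioo.prod isPreconnected_Ioo) (isPreconnected_Ioo.prod isPreconnected_Ioo)
  · constructor <;> constructor <;> norm_num
  · constructor <;> constructor <;> norm_num

theorem Om_conn : IsConnected Om := by
  have hbase : ((3 / 2 : ℝ), (1 / 2 : ℝ)) ∈ Cc := by
    left
    constructor <;> constructor <;> norm_num
  refine ⟨⟨_, Cc_sub hbase⟩, ?_⟩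
  refine isPreconnected_of_forall ((3 / 2 : ℝ), (1 / 2 : ℝ)) fun z hz => ?_
  obtain ⟨r, hr, hball⟩ := Metric.isOpen_iff.mp Om_open z hz
  have hnull := KK_null 0
  simp only [pow_zero, inv_one, one_mul] at hnull
  -- a nearby point on a free line
  obtain ⟨s, hs, hsN⟩ : ∃ s ∈ Ioo (z.2 - z.1) (z.2 - z.1 + r),
      s ∉ (fun z : ℝ × ℝ => z.2 - z.1) '' KK := by
    by_contra hcon
    push Not at hcon
    have h1 : Ioo (z.2 - z.1) (z.2 - z.1 + r) ⊆ (fun z : ℝ × ℝ => z.2 - z.1) '' KK := hcon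
    have h2 := measure_mono (μ := (volume : Measure ℝ)) h1
    rw [hnull, Real.volume_Ioo] at h2
    simp at h2
    linarith
  set w : ℝ × ℝ := (z.1, s + z.1) with hw
  have hwb : w ∈ Metric.ball z r := by
    rw [Metric.mem_ball, Prod.dist_eq]
    simp only [hw, dist_self]
    refine max_lt hr ?_
    rw [Real.dist_eq, abs_lt]
    constructor <;> linarith [hs.1, hs.2]
  have hwO := hball hwb
  have hbc : IsPreconnected (Metric.ball z r) := (convex_ball z r).isPreconnected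
  have hzb : z ∈ Metric.ball z r := Metric.mem_ball_self hr
  obtain ⟨⟨⟨a1, a2⟩, ⟨a3, a4⟩⟩, -⟩ := hwO
  by_cases c1 : w ∈ Cc
  · exact ⟨Metric.ball z r ∪ Cc, union_subset hball Cc_sub, Or.inr hbase, Or.inl hzb,
      hbc.union w hwb c1 Cc_conn⟩
  · have b1 : w.2 ≤ 3 / 8 := by
      by_contra h
      push Not at h
      exact c1 (Or.inl ⟨⟨a1, a2⟩, ⟨h, a4⟩⟩)
    have b2 : w.1 ≤ 5 / 4 := by
      by_contra h
      push Not at h
      exact c1 (Or.inr ⟨⟨h, a2⟩, ⟨a3, a4⟩⟩)
    set S : Set (ℝ × ℝ) := (fun τ : ℝ => (w.1 + τ, w.2 + τ)) '' Icc 0 (1 / 2) with hS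
    have hSc : IsPreconnected S := isPreconnected_Icc.image _ (by fun_prop)
    have hSO : S ⊆ Om := by
      rintro _ ⟨τ, ⟨h1, h2⟩, rfl⟩
      refine ⟨⟨⟨by simp only; linarith, by simp only; linarith⟩,
        ⟨by simp only; linarith, by simp only; linarith⟩⟩, fun h => hsN ⟨_, h, ?_⟩⟩
      simp only [hw]
      ring
    have hwS : w ∈ S := ⟨0, ⟨le_rfl, by norm_num⟩, by simp⟩
    have heS : (w.1 + 1 / 2, w.2 + 1 / 2) ∈ S := ⟨1 / 2, ⟨by norm_num, le_rfl⟩, rfl⟩
    have heC : (w.1 + 1 / 2, w.2 + 1 / 2) ∈ Cc := by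
      left
      exact ⟨⟨by simp only; linarith, by simp only; linarith⟩,
        ⟨by simp only; linarith, by simp only; linarith⟩⟩
    exact ⟨(Metric.ball z r ∪ S) ∪ Cc, union_subset (union_subset hball hSO) Cc_sub,
      Or.inr hbase, Or.inl (Or.inl hzb),
      (hbc.union w hwb hwS hSc).union _ (Or.inr heS) heC Cc_conn⟩

/-! ### one-dimensional bound -/

theorem one_dim {f : ℝ → ℝ} {C : ℝ≥0} (hf : LipschitzWith C f) {p q : ℝ} (hpq : p ≤ q)
    (hp : f p = 0) (hq : f q = 0) :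
    2 * (∫ x in p..q, f x) - ∫ x in p..q, (deriv f x) ^ 2 ≤ (q - p) ^ 3 / 12 := by
  have hfa : AbsolutelyContinuousOnInterval f p q :=
    (hf.lipschitzOnWith (s := uIcc p q)).absolutelyContinuousOnInterval
  have hd : ∀ x, HasDerivAt (fun x : ℝ => (p + q) / 2 - x) (-1) x := fun x =>
    (hasDerivAt_id x).const_sub _
  have hsa : AbsolutelyContinuousOnInterval (fun x : ℝ => (p + q) / 2 - x) p q := by
    have h1 : LipschitzWith 1 (fun x : ℝ => (p + q) / 2 - x) := by
      refine LipschitzWith.of_dist_le_mul fun x y => ?_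
      rw [NNReal.coe_one, one_mul, Real.dist_eq, Real.dist_eq]
      have : (p + q) / 2 - x - ((p + q) / 2 - y) = -(x - y) := by ring
      rw [this, abs_neg]
    exact (h1.lipschitzOnWith (s := uIcc p q)).absolutelyContinuousOnInterval
  have h1 := hsa.integral_mul_deriv_eq_deriv_mul hfa
  have hder : ∀ x, deriv (fun x : ℝ => (p + q) / 2 - x) x = -1 := fun x => (hd x).deriv
  simp only [hp, hq, mul_zero, sub_zero, zero_sub, hder] at h1
  have h2 : ∫ x in p..q, -1 * f x = - ∫ x in p..q, f x := by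
    rw [intervalIntegral.integral_const_mul]; ring
  rw [h2, neg_neg] at h1
  have hmeas : Measurable (deriv f) := measurable_deriv f
  have hb : ∀ x, ‖deriv f x‖ ≤ C := fun x => norm_deriv_le_of_lipschitz hf
  have i1 : IntervalIntegrable (fun x => (deriv f x) ^ 2) volume p q := by
    rw [intervalIntegrable_iff]
    refine Measure.integrableOn_of_bounded (M := (C : ℝ) ^ 2) (by simp)
      (hmeas.pow_const 2).aestronglyMeasurable (Eventually.of_forall fun x => ?_)
    rw [norm_pow]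
    have := hb x
    gcongr
  have i2 : IntervalIntegrable (fun x => ((p + q) / 2 - x) * deriv f x) volume p q := by
    rw [intervalIntegrable_iff]
    refine Measure.integrableOn_of_bounded (M := |(q - p)| * (C : ℝ)) (by simp)
      (((Continuous.measurable (by fun_prop)).mul hmeas)).aestronglyMeasurable ?_
    refine (ae_restrict_iff' measurableSet_uIoc).mpr (Eventually.of_forall fun x hx => ?_)
    rw [norm_mul, Real.norm_eq_abs]
    have h3 := hb x
    rw [uIoc_of_le hpq] at hx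
    have h4 : |(p + q) / 2 - x| ≤ |q - p| := by
      rw [abs_of_nonneg (by linarith : 0 ≤ q - p), abs_le]
      constructor <;> linarith [hx.1, hx.2]
    gcongr
  have i3 : IntervalIntegrable (fun x => ((p + q) / 2 - x) ^ 2) volume p q :=
    Continuous.intervalIntegrable (by fun_prop) _ _
  have h3 : 2 * (∫ x in p..q, f x) - ∫ x in p..q, (deriv f x) ^ 2 =
      ∫ x in p..q, (2 * (((p + q) / 2 - x) * deriv f x) - (deriv f x) ^ 2) := by
    rw [← h1, intervalIntegral.integral_sub (i2.const_mul 2) i1,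
      intervalIntegral.integral_const_mul]
  have h4 : ∫ x in p..q, ((p + q) / 2 - x) ^ 2 = (q - p) ^ 3 / 12 := by
    have h5 : ∀ x : ℝ, ((p + q) / 2 - x) ^ 2 = ((p + q) / 2) ^ 2 - (p + q) * x + 1 * x ^ 2 := by
      intro x; ring
    simp only [h5]
    rw [poly_int]
    ring
  rw [h3, ← h4]
  refine intervalIntegral.integral_mono_on hpq ((i2.const_mul 2).sub i1) i3 fun x _ => ?_
  nlinarith [sq_nonneg (((p + q) / 2 - x) - deriv f x)]

end Pool.Agent.MaxSemi
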