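import Pool.Agent.Q94.DCK

/-! The horizontal bound by slices. -/

namespace Pool.Agent.MaxSemi

open MeasureTheory Set Filter Topology
open scoped NNReal

variable {u : ℝ × ℝ → ℝ}

theorem off_zero (hu : Adm Om u) {z : ℝ × ℝ} (hz : z ∉ Om) : u z = 0 := hu.zero_off hz

theorem off_D (hu : Adm Om u) {z : ℝ × ℝ} (hz : z ∉ Om) (v : ℝ × ℝ) : fderiv ℝ u z v = 0 := by
  rw [D_off (fun h => hz (hu.2.2 h))]; rfl

theorem slice_lip {C : ℝ≥0} (hC : LipschitzWith C u) (y : ℝ) :
    LipschitzWith C (fun x => u (x, y)) := by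
  refine LipschitzWith.of_dist_le_mul fun a b => ?_
  have := hC.dist_le_mul (a, y) (b, y)
  rw [Prod.dist_eq, dist_self, max_eq_left dist_nonneg] at this
  exact this

theorem slice_deriv {x y : ℝ} (h : DifferentiableAt ℝ u (x, y)) :
    deriv (fun x => u (x, y)) x = fderiv ℝ u (x, y) (1, 0) := by
  have h0 : HasDerivAt (fun x : ℝ => (x, y)) ((1 : ℝ), (0 : ℝ)) x :=
    (hasDerivAt_id x).prodMk (hasDerivAt_const x y)
  exact (h.hasFDerivAt.comp_hasDerivAt x h0).deriv

/-- the slice bound -/
noncomputable def cap (y : ℝ) : ℝ :=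
  Set.indicator (Ioo 0 1) (fun _ => (2 / 3 : ℝ)) y
    - Set.indicator (Icc (1 / 4) (3 / 8)) (fun _ => (3 / 8 : ℝ)) y

theorem cap_integrable : Integrable cap := by
  unfold cap
  refine Integrable.sub ?_ ?_
  · rw [integrable_indicator_iff measurableSet_Ioo]
    exact integrableOn_const (by simp)
  · rw [integrable_indicator_iff measurableSet_Icc]
    exact integrableOn_const (by simp)

theorem cap_int : ∫ y, cap y = 119 / 192 := by
  unfold cap
  rw [integral_sub, integral_indicator measurableSet_Ioo, integral_indicator measurableSet_Icc,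
    setIntegral_const, setIntegral_const]
  · simp only [Real.volume_real_Ioo, Real.volume_real_Icc, smul_eq_mul]
    norm_num
  · rw [integrable_indicator_iff measurableSet_Ioo]
    exact integrableOn_const (by simp)
  · rw [integrable_indicator_iff measurableSet_Icc]
    exact integrableOn_const (by simp)

theorem slice_int (hu : Adm Om u) (y : ℝ) : ∫ x, u (x, y) = ∫ x in (0 : ℝ)..2, u (x, y) := by
  rw [intervalIntegral.integral_of_le (by norm_num)]
  refine (setIntegral_eq_integral_of_forall_compl_eq_zero fun x hx => ?_).symm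
  refine off_zero hu fun h => hx ?_
  obtain ⟨⟨h1, h2⟩, -⟩ := Om_sub h
  exact ⟨h1, h2.le⟩

theorem slice_int_D (hu : Adm Om u) (y : ℝ) :
    ∫ x, (fderiv ℝ u (x, y) (1, 0)) ^ 2 = ∫ x in (0 : ℝ)..2, (fderiv ℝ u (x, y) (1, 0)) ^ 2 := by
  rw [intervalIntegral.integral_of_le (by norm_num)]
  refine (setIntegral_eq_integral_of_forall_compl_eq_zero fun x hx => ?_).symm
  rw [off_D hu fun h => hx ?_]
  · norm_num
  · obtain ⟨⟨h1, h2⟩, -⟩ := Om_sub h
    exact ⟨h1, h2.le⟩

theorem slice_bound (hu : Adm Om u) {y : ℝ} (hy : ∀ᵐ x : ℝ, DifferentiableAt ℝ u (x, y)) :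
    2 * (∫ x, u (x, y)) - ∫ x, (fderiv ℝ u (x, y) (1, 0)) ^ 2 ≤ cap y := by
  obtain ⟨C, hC⟩ := hu.1
  have hl := slice_lip hC y
  have hD : ∀ a b : ℝ, ∫ x in a..b, (fderiv ℝ u (x, y) (1, 0)) ^ 2 =
      ∫ x in a..b, (deriv (fun x => u (x, y)) x) ^ 2 := by
    intro a b
    refine intervalIntegral.integral_congr_ae ?_
    filter_upwards [hy] with x hx _
    rw [slice_deriv hx]
  rw [slice_int hu, slice_int_D hu, hD]
  have z0 : u (0, y) = 0 := off_zero hu fun h => by
    have := (Om_sub h).1.1
    norm_num at this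
  have z2 : u (2, y) = 0 := off_zero hu fun h => by
    have := (Om_sub h).1.2
    norm_num at this
  by_cases hy1 : y ∈ Icc (1 / 4 : ℝ) (3 / 8)
  · obtain ⟨x, hx⟩ := KK_hits hy1.1 hy1.2
    obtain ⟨k1, k2, -, -⟩ := KK_sub hx
    simp only at k1 k2
    have zx : u (x, y) = 0 := off_zero hu fun h => h.2 hx
    have a1 := one_dim hl (p := 0) (q := x) (by linarith) z0 zx
    have a2 := one_dim hl (p := x) (q := 2) (by linarith) zx z2
    have hmeas : Measurable (deriv (fun x => u (x, y))) := measurable_deriv _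
    have hi : ∀ a b : ℝ, IntervalIntegrable (fun x' => (deriv (fun x => u (x, y)) x') ^ 2)
        volume a b := by
      intro a b
      rw [intervalIntegrable_iff]
      refine Measure.integrableOn_of_bounded (M := (C : ℝ) ^ 2) (by simp)
        (hmeas.pow_const 2).aestronglyMeasurable (Eventually.of_forall fun x => ?_)
      rw [norm_pow]
      have := norm_deriv_le_of_lipschitz hl (x₀ := x)
      gcongr
    have b1 := intervalIntegral.integral_add_adjacent_intervals
      (hl.continuous.intervalIntegrable (μ := volume) 0 x) (hl.continuous.intervalIntegrable x 2)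
    have b2 := intervalIntegral.integral_add_adjacent_intervals (hi 0 x) (hi x 2)
    rw [← b1, ← b2]
    have hc : cap y = 7 / 24 := by
      unfold cap
      rw [Set.indicator_of_mem, Set.indicator_of_mem hy1]
      · norm_num
      · exact ⟨by linarith [hy1.1], by linarith [hy1.2]⟩
    rw [hc]
    have h5 : (x - 0) ^ 3 / 12 + (2 - x) ^ 3 / 12 ≤ 7 / 24 := by
      have : (x - 0) ^ 3 / 12 + (2 - x) ^ 3 / 12 = (2 + 6 * (x - 1) ^ 2) / 12 := by ring
      rw [this]
      nlinarith
    linarith
  · by_cases hy2 : y ∈ Ioo (0 : ℝ) 1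
    · have a1 := one_dim hl (p := 0) (q := 2) (by norm_num) z0 z2
      have hc : cap y = 2 / 3 := by
        unfold cap
        rw [Set.indicator_of_mem hy2, Set.indicator_of_notMem hy1]
        norm_num
      rw [hc]
      norm_num at a1 ⊢
      exact a1
    · have hz : ∀ x, u (x, y) = 0 := fun x => off_zero hu fun h => hy2 (Om_sub h).2
      have hc : cap y = 0 := by
        unfold cap
        rw [Set.indicator_of_notMem hy2, Set.indicator_of_notMem hy1]
        norm_num
      rw [hc]
      have : (fun x => u (x, y)) = fun _ => 0 := by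
        funext x; exact hz x
      rw [this]
      simp

theorem horizontal {H : Seminorm ℝ (ℝ × ℝ)} (hH : ∀ ξ : ℝ × ℝ, |ξ.1| ≤ H ξ) :
    TBound Om H (119 / 192) := by
  intro u hu
  obtain ⟨C, hC⟩ := hu.1
  have h1 : ∫ z, (fderiv ℝ u z (1, 0)) ^ 2 ≤ EE H u :=
    hu.D_le (v := (1, 0)) (fun ξ => by
      have := hH ξ
      simpa using this)
  have hae : ∀ᵐ y : ℝ, ∀ᵐ x : ℝ, DifferentiableAt ℝ u (x, y) := by
    have h2 := ae_diff hC
    rw [Measure.volume_eq_prod] at h2
    have h3 := (Measure.measurePreserving_swap (μ := (volume : Measure ℝ))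
      (ν := (volume : Measure ℝ))).quasiMeasurePreserving.ae h2
    exact Measure.ae_ae_of_ae_prod h3
  have i1 := hu.integrable
  have i2 := hu.integrable_D_sq (1, 0)
  have h4 : 2 * (∫ z, u z) - ∫ z, (fderiv ℝ u z (1, 0)) ^ 2 =
      ∫ y, (2 * (∫ x, u (x, y)) - ∫ x, (fderiv ℝ u (x, y) (1, 0)) ^ 2) := by
    rw [Measure.volume_eq_prod] at i1 i2 ⊢
    rw [integral_sub (i1.integral_prod_right.const_mul 2) i2.integral_prod_right,
      integral_const_mul, integral_prod_symm _ i1, integral_prod_symm _ i2]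
  have h5 : ∫ y, (2 * (∫ x, u (x, y)) - ∫ x, (fderiv ℝ u (x, y) (1, 0)) ^ 2) ≤ ∫ y, cap y := by
    rw [Measure.volume_eq_prod] at i1 i2
    refine integral_mono_ae ((i1.integral_prod_right.const_mul 2).sub i2.integral_prod_right)
      cap_integrable ?_
    filter_upwards [hae] with y hy
    exact slice_bound hu hy
  rw [cap_int] at h5
  linarith

end Pool.Agent.MaxSemi
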