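import Pool.Agent.Q94.DCL

/-! No maximiser: assembly. -/

namespace Pool.Agent.MaxSemi

open MeasureTheory Set Filter Topology
open scoped NNReal

theorem pow7 {z : ℝ} (h0 : 0 ≤ z) (h1 : z ≤ 1 / 10) : (1 - z) ^ 7 ≤ 1 - 7 * z + 21 * z ^ 2 := by
  have e : 1 - 7 * z + 21 * z ^ 2 - (1 - z) ^ 7 =
      35 * z ^ 3 * (1 - z) + 7 * z ^ 5 * (3 - z) + z ^ 7 := by ring
  have : 0 ≤ 35 * z ^ 3 * (1 - z) + 7 * z ^ 5 * (3 - z) + z ^ 7 := by
    have a1 : 0 ≤ 1 - z := by linarith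
    have a2 : 0 ≤ 3 - z := by linarith
    positivity
  linarith

theorem Om_nonempty : Om.Nonempty := Om_conn.nonempty

/-- every value is below the limit value -/
theorem upper {H : Seminorm ℝ (ℝ × ℝ)} (hu : UnitSemi H) {q : ℝ} (hq : 7 ≤ q) :
    Fq q Om H < Real.pi ^ 2 / 4 * (2 / 3 : ℝ) ^ q := by
  obtain ⟨ν, hν, hH⟩ := hu.exists_dir
  have hpos : 0 < 4 - 3 * ν.1 ^ 2 := by nlinarith [sq_nonneg ν.2]
  have hA := tbound_flux Om_sub hν hH
  have hA0 : (0 : ℝ) ≤ (2 / 3) / (4 - 3 * ν.1 ^ 2) := by positivity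
  set T := tors Om H with hT
  set l := lam Om H with hl
  have hl0 : 0 ≤ l := lam_nonneg
  have hT0 : 0 ≤ T := tors_nonneg
  have hTA : T ≤ (2 / 3) / (4 - 3 * ν.1 ^ 2) := hA.tors_le hA0
  have hTA' : T * (4 - 3 * ν.1 ^ 2) ≤ 2 / 3 := by rwa [le_div_iff₀ hpos] at hTA
  set h := H (1, 0) ^ 2 with hh
  have hH0 : 0 ≤ H (1, 0) := apply_nonneg H _
  have hH1 : H (1, 0) ≤ 1 := by
    refine (hu.le (1, 0)).trans (le_of_eq ?_)
    simp [en]
  have hh0 : 0 ≤ h := by positivity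
  have hh1 : h ≤ 1 := by rw [hh]; nlinarith
  have hνh : ν.1 ^ 2 ≤ h := by
    have h1 := hH (1, 0)
    simp only [mul_one, mul_zero, add_zero] at h1
    rw [hh, ← sq_abs ν.1]
    gcongr
  have hTlt : T < 2 / 3 := by
    by_cases h1 : ν.2 = 0
    · have h2 : ν.1 ^ 2 = 1 := by rw [h1] at hν; linarith
      have h3 : TBound Om H (119 / 192) := by
        refine horizontal fun ξ => ?_
        have h4 := hH ξ
        rw [h1, zero_mul, add_zero, abs_mul] at h4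
        have h5 : |ν.1| = 1 := by
          have : |ν.1| ^ 2 = 1 := by rw [sq_abs, h2]
          nlinarith [abs_nonneg ν.1]
        rwa [h5, one_mul] at h4
      have h4 := h3.tors_le (by norm_num)
      rw [← hT] at h4
      linarith
    · have h2 : 0 < ν.2 ^ 2 := by positivity
      by_contra hcon
      push Not at hcon
      nlinarith
  have hkey : l * (1 - Real.pi ^ 2 / 2 * (2 / 3 - h * T)) ≤ Real.pi ^ 2 / 4 * h := by
    rcases hh0.eq_or_lt with h1 | h1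
    · rw [← h1]
      have hpi := Real.pi_gt_three
      have : 1 - Real.pi ^ 2 / 2 * (2 / 3 - 0 * T) ≤ 0 := by nlinarith
      nlinarith
    · exact key_ineq Om_sub Om_open Om_nonempty hA hA0 h1
  have hlT : l * T ≤ 2 := lam_mul_tors_le Om_sub Om_open Om_nonempty
  -- the normalised rigidity
  set τ := 3 / 2 * T with hτ
  have hτ0 : 0 ≤ τ := by positivity
  have hτ1 : τ < 1 := by rw [hτ]; linarith
  have hTτ : T = 2 / 3 * τ := by rw [hτ]; ring
  set z := 1 - τ with hz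
  have hz0 : 0 < z := by rw [hz]; linarith
  have hpi3 := Real.pi_gt_three
  have hpi4 : Real.pi < 3.1416 := Real.pi_lt_d4
  have hpisq : Real.pi ^ 2 < 9.87 := by nlinarith
  have hpisq' : 9 < Real.pi ^ 2 := by nlinarith
  have hmain : l * (1 - 4 * Real.pi ^ 2 / 9 * z) ≤ Real.pi ^ 2 / 4 := by
    have h1 : 1 - h * τ ≤ 4 / 3 * z := by
      have h2 : T * (4 - 3 * h) ≤ 2 / 3 := by
        refine le_trans (mul_le_mul_of_nonneg_left ?_ hT0) hTA'
        linarith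
      rw [hz, hτ]
      nlinarith
    have h2 : 1 - 4 * Real.pi ^ 2 / 9 * z ≤ 1 - Real.pi ^ 2 / 2 * (2 / 3 - h * T) := by
      have h3 : Real.pi ^ 2 / 2 * (2 / 3 - h * T) = Real.pi ^ 2 / 3 * (1 - h * τ) := by
        rw [hτ]; ring
      rw [h3]
      have h4 : Real.pi ^ 2 / 3 * (1 - h * τ) ≤ Real.pi ^ 2 / 3 * (4 / 3 * z) :=
        mul_le_mul_of_nonneg_left h1 (by positivity)
      linarith
    calc l * (1 - 4 * Real.pi ^ 2 / 9 * z) ≤ l * (1 - Real.pi ^ 2 / 2 * (2 / 3 - h * T)) :=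
          mul_le_mul_of_nonneg_left h2 hl0
      _ ≤ Real.pi ^ 2 / 4 * h := hkey
      _ ≤ Real.pi ^ 2 / 4 := by nlinarith
  have hgoal : l * τ ^ q < Real.pi ^ 2 / 4 := by
    rcases hτ0.eq_or_lt with h0 | h0
    · rw [← h0, Real.zero_rpow (by linarith), mul_zero]; positivity
    · have h7 : τ ^ q ≤ τ ^ 7 := by
        have := Real.rpow_le_rpow_of_exponent_ge h0 hτ1.le hq
        refine this.trans (le_of_eq ?_)
        exact_mod_cast Real.rpow_natCast τ 7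
      have h8 : l * τ ^ q ≤ l * τ ^ 7 := mul_le_mul_of_nonneg_left h7 hl0
      refine h8.trans_lt ?_
      rcases le_or_gt z (1 / 10) with hz1 | hz1
      · have h9 := pow7 hz0.le hz1
        have h10 : τ = 1 - z := by rw [hz]; ring
        rw [h10]
        have h11 : (1 - z) ^ 7 < 1 - 4 * Real.pi ^ 2 / 9 * z := by
          nlinarith
        rcases hl0.eq_or_lt with hc | hc
        · rw [← hc, zero_mul]; positivity
        · exact lt_of_lt_of_le (mul_lt_mul_of_pos_left h11 hc) hmain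
      · have h9 : l * τ ≤ 3 := by rw [hτ]; linarith
        have h10 : τ ≤ 9 / 10 := by rw [hz] at hz1; linarith
        have h11 : τ ^ 6 ≤ (9 / 10) ^ 6 := by gcongr
        have h12 : l * τ ^ 7 = (l * τ) * τ ^ 6 := by ring
        rw [h12]
        have h13 : (l * τ) * τ ^ 6 ≤ 3 * (9 / 10) ^ 6 := by
          have : 0 ≤ τ ^ 6 := by positivity
          have h14 : 0 ≤ l * τ := by positivity
          nlinarith
        refine h13.trans_lt ?_
        norm_num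
        linarith
  unfold Fq
  rw [← hl, ← hT, hTτ, Real.mul_rpow (by norm_num) hτ0]
  have h23 : 0 < (2 / 3 : ℝ) ^ q := Real.rpow_pos_of_pos (by norm_num) q
  calc l * ((2 / 3 : ℝ) ^ q * τ ^ q) = (l * τ ^ q) * (2 / 3 : ℝ) ^ q := by ring
    _ < Real.pi ^ 2 / 4 * (2 / 3 : ℝ) ^ q := mul_lt_mul_of_pos_right hgoal h23

/-- the slopes -/
noncomputable def tn (n : ℕ) : ℝ := ((2 : ℝ) ^ (n + 1))⁻¹

/-- the first coordinates of the directions -/
noncomputable def cn (n : ℕ) : ℝ := (Real.sqrt (1 + tn n ^ 2))⁻¹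

theorem tn_pos (n : ℕ) : 0 < tn n := by unfold tn; positivity

theorem tn_le (n : ℕ) : 2 * tn n ≤ 1 := by
  unfold tn
  rw [pow_succ, mul_inv]
  have : ((2 : ℝ) ^ n)⁻¹ ≤ 1 := inv_le_one_of_one_le₀ (one_le_pow₀ (by norm_num))
  linarith

theorem cn_nonneg (n : ℕ) : 0 ≤ cn n := by unfold cn; positivity

theorem cn_unit (n : ℕ) : cn n ^ 2 + (cn n * tn n) ^ 2 = 1 := by
  have h1 : 0 < 1 + tn n ^ 2 := by positivity
  have h2 : cn n ^ 2 = (1 + tn n ^ 2)⁻¹ := by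
    unfold cn
    rw [inv_pow, Real.sq_sqrt h1.le]
  rw [mul_pow, h2]
  field_simp

theorem tn_lim : Tendsto tn atTop (𝓝 0) := by
  have h1 : Tendsto (fun n : ℕ => (1 / 2 : ℝ) ^ (n + 1)) atTop (𝓝 0) :=
    (tendsto_pow_atTop_nhds_zero_of_lt_one (by norm_num) (by norm_num)).comp
      (tendsto_add_atTop_nat 1)
  refine h1.congr fun n => ?_
  unfold tn
  rw [one_div, inv_pow]

theorem cn_lim : Tendsto cn atTop (𝓝 1) := by
  have h1 : Tendsto (fun n => (Real.sqrt (1 + tn n ^ 2))⁻¹) atTop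
      (𝓝 (Real.sqrt (1 + 0 ^ 2))⁻¹) := by
    refine Tendsto.inv₀ ?_ (by simp)
    exact (Real.continuous_sqrt.tendsto _).comp
      (tendsto_const_nhds.add (tn_lim.pow 2))
  have h2 : (Real.sqrt (1 + (0 : ℝ) ^ 2))⁻¹ = 1 := by simp
  rw [h2] at h1
  exact h1

theorem lower_n (n : ℕ) {q : ℝ} (hq : 7 ≤ q) :
    (Real.pi / 2 * cn n) ^ 2 * (2 / 3 * (1 - 2 * tn n)) ^ q ≤ Fq q Om (dirS (cn n, cn n * tn n)) := by
  unfold Fq
  have h1 := lam_dirS Om_sub Om_open Om_nonempty (cn n, cn n * tn n)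
  simp only at h1
  have h2 : 2 / 3 * (1 - 2 * tn n) ≤ tors Om (dirS (cn n, cn n * tn n)) :=
    tors_dirS_ge KK_compact (tn_pos n).le (tn_le n) (cn_nonneg n) (cn_unit n) (KK_null (n + 1))
  have h3 : 0 ≤ 2 / 3 * (1 - 2 * tn n) := by
    have := tn_le n
    linarith
  have h4 : (2 / 3 * (1 - 2 * tn n)) ^ q ≤ tors Om (dirS (cn n, cn n * tn n)) ^ q :=
    Real.rpow_le_rpow h3 h2 (by linarith)
  exact mul_le_mul h1 h4 (Real.rpow_nonneg h3 q) lam_nonneg

theorem EE_pos_le {Ω : Set (ℝ × ℝ)} {H : Seminorm ℝ (ℝ × ℝ)} {u : ℝ × ℝ → ℝ} (hu : Adm Ω u) :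
    EE H (fun z => max (u z) 0) ≤ EE H u := by
  unfold EE
  refine integral_mono_ae (hu.pos.integrable_energy H) (hu.integrable_energy H) ?_
  obtain ⟨⟨C, hC⟩, -⟩ := hu
  filter_upwards [pos_ae hC] with z hz
  rcases le_total 0 (u z) with h | h
  · unfold grad
    rw [hz.1 h]
  · have : grad (fun z => max (u z) 0) z = 0 := by
      unfold grad
      rw [hz.2 h]; rfl
    have h5 : H (grad (fun z => max (u z) 0) z) ^ 2 = 0 := by
      rw [this, map_zero]; norm_num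
    rw [h5]
    exact sq_nonneg _

theorem energy_pos_aux {H : Seminorm ℝ (ℝ × ℝ)} (hH : UnitSemi H) {u : ℝ × ℝ → ℝ}
    (hu : Adm Om u) {z : ℝ × ℝ} (hz : 0 < u z) : 0 < EE H u := by
  obtain ⟨ν, hν, hH⟩ := hH.exists_dir
  have hpos : 0 < 4 - 3 * ν.1 ^ 2 := by nlinarith [sq_nonneg ν.2]
  have hA := tbound_flux Om_sub hν hH
  have h1 := sq_le_of_forall hA hu.pos
  have h2 := EE_pos_le (H := H) hu
  have h3 : 0 < ∫ z, max (u z) 0 := by
    have hnn : 0 ≤ fun z => max (u z) 0 := fun z => le_max_right _ _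
    rw [integral_pos_iff_support_of_nonneg hnn hu.pos.integrable]
    have h4 : IsOpen (Function.support fun z => max (u z) 0) := hu.pos.cont.isOpen_support
    refine h4.measure_pos volume ⟨z, ?_⟩
    rw [Function.mem_support, max_eq_left hz.le]
    exact hz.ne'
  by_contra hcon
  have h5 : EE H u ≤ 0 := not_lt.mp hcon
  have h6 : EE H (fun z => max (u z) 0) = 0 :=
    le_antisymm (h2.trans h5) (EE_nonneg _)
  rw [h6, mul_zero] at h1
  have : 0 < (∫ z, max (u z) 0) ^ 2 := by positivity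
  linarith

theorem energy_pos {H : Seminorm ℝ (ℝ × ℝ)} (hH : UnitSemi H) {u : ℝ × ℝ → ℝ}
    (hu : Adm Om u) (h0 : u ≠ 0) : 0 < energy Om H u := by
  rw [hu.energy_eq]
  obtain ⟨z, hz⟩ := Function.ne_iff.mp h0
  have hz' : u z ≠ 0 := hz
  rcases lt_or_gt_of_ne hz' with h | h
  · have h1 := energy_pos_aux hH (hu.smul (-1)) (z := z) (by linarith)
    rw [EE_smul] at h1
    linarith
  · exact energy_pos_aux hH hu h

theorem tors_bdd {H : Seminorm ℝ (ℝ × ℝ)} (hH : UnitSemi H) :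
    BddAbove {t : ℝ | ∃ u, Adm Om u ∧ u ≠ 0 ∧ t = (∫ z in Om, u z) ^ 2 / energy Om H u} := by
  obtain ⟨ν, hν, hH⟩ := hH.exists_dir
  have hpos : 0 < 4 - 3 * ν.1 ^ 2 := by nlinarith [sq_nonneg ν.2]
  exact (tbound_flux Om_sub hν hH).bdd (by positivity)

/-- no maximiser -/
theorem main {q : ℝ} (hq : 7 ≤ q) :
    BddAbove (values q Om) ∧ ∀ H, UnitSemi H → Fq q Om H < sSup (values q Om) := by
  have hb : BddAbove (values q Om) := by
    refine ⟨Real.pi ^ 2 / 4 * (2 / 3 : ℝ) ^ q, ?_⟩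
    rintro t ⟨H, hH, rfl⟩
    exact (upper hH hq).le
  refine ⟨hb, fun H hH => (upper hH hq).trans_le ?_⟩
  have hlim : Tendsto (fun n => (Real.pi / 2 * cn n) ^ 2 * (2 / 3 * (1 - 2 * tn n)) ^ q) atTop
      (𝓝 ((Real.pi / 2 * 1) ^ 2 * (2 / 3 * (1 - 2 * 0)) ^ q)) := by
    refine Tendsto.mul (Tendsto.pow (tendsto_const_nhds.mul cn_lim) 2) ?_
    refine Tendsto.rpow_const ?_ (Or.inl (by norm_num))
    exact tendsto_const_nhds.mul (tendsto_const_nhds.sub (tendsto_const_nhds.mul tn_lim))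
  have h1 : (Real.pi / 2 * 1) ^ 2 * (2 / 3 * (1 - 2 * 0)) ^ q =
      Real.pi ^ 2 / 4 * (2 / 3 : ℝ) ^ q := by
    have : (2 / 3 : ℝ) * (1 - 2 * 0) = 2 / 3 := by norm_num
    rw [this]
    ring
  rw [h1] at hlim
  refine le_of_tendsto' hlim fun n => ?_
  refine (lower_n n hq).trans ?_
  exact le_csSup hb ⟨_, dirS_unit (cn_unit n), rfl⟩

end Pool.Agent.MaxSemi
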