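import Pool.Agent.Q127.DJ.Stm

/-!
# Project DJ, job EXPA: the expansion of the integral against the density to second order
-/

set_option autoImplicit false

namespace Pool.Agent.Q94.DJ_EXPA

open Pool.Agent.Q127.DJ MeasureTheory

theorem sum_bd (s : Finset ℕ) (α β : ℕ → ℝ) (A B : ℝ) (hα : ∀ i, 0 ≤ α i) (hβ : ∀ i, 0 ≤ β i)
    (hA : ∑ i ∈ s, α i ≤ A) (hB : ∑ i ∈ s, β i ≤ B) :
    ∑ i ∈ s, Real.sqrt (α i) * Real.sqrt (β i) ≤ Real.sqrt A * Real.sqrt B :=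
  (Real.sum_sqrt_mul_sqrt_le s hα hβ).trans
    (mul_le_mul (Real.sqrt_le_sqrt hA) (Real.sqrt_le_sqrt hB) (Real.sqrt_nonneg _)
      (Real.sqrt_nonneg _))

theorem bm_mul (h3 : S_inn) (μ : Measure (ℕ → ℕ)) [IsProbabilityMeasure μ] (m : ℕ) (f : ℕ → Fin m)
    (a : Fin m) (t : ℕ) (φ : (ℕ → ℕ) → ℝ) (hφ : BM 1 φ) : BM 1 (fun z => g μ f a t z * φ z) := by
  obtain ⟨-, ⟨k1, k2⟩, -, -⟩ := h3 μ m f a t
  refine ⟨k1.mul hφ.1, fun x => ?_⟩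
  rw [abs_mul]
  exact mul_le_one₀ (k2 x) (abs_nonneg _) (hφ.2 x)

theorem bm_E (h1 : S_ce1) (h3 : S_inn) (μ : Measure (ℕ → ℕ)) [IsProbabilityMeasure μ] (m : ℕ)
    (f : ℕ → Fin m) (a : Fin m) (t : ℕ) (φ : (ℕ → ℕ) → ℝ) (hφ : BM 1 φ) :
    BM 1 (fun x => E μ f t (fun z => g μ f a t z * φ z) x) :=
  (h1 μ m f t 1 _ zero_le_one (bm_mul h3 μ m f a t φ hφ)).2

theorem int_E (h2 : S_ce2) (h3 : S_inn) (μ : Measure (ℕ → ℕ)) [IsProbabilityMeasure μ] (m : ℕ)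
    (f : ℕ → Fin m) (a : Fin m) (t : ℕ) (φ : (ℕ → ℕ) → ℝ) (hφ : BM 1 φ) :
    ∫ x, E μ f t (fun z => g μ f a t z * φ z) x ∂μ = ∫ x, g μ f a t x * φ x ∂μ := by
  have h := h2 μ m f t 1 1 (fun z => g μ f a t z * φ z) (fun _ => 1) (bm_mul h3 μ m f a t φ hφ)
    ⟨measurable_const, fun _ => by simp⟩ (fun _ _ _ => rfl)
  simpa using h

theorem int_sq_le (μ : Measure (ℕ → ℕ)) [IsProbabilityMeasure μ] (φ : (ℕ → ℕ) → ℝ) (hφ : BM 1 φ) :
    ∫ x, (φ x) ^ 2 ∂μ ≤ 1 := by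
  have h : ∫ x, (φ x) ^ 2 ∂μ ≤ ∫ _x, (1 : ℝ) ∂μ := by
    refine integral_mono_of_nonneg (Filter.Eventually.of_forall fun x => sq_nonneg _)
      (integrable_const _) (Filter.Eventually.of_forall fun x => ?_)
    show φ x ^ 2 ≤ 1
    rw [← sq_abs]
    exact pow_le_one₀ (abs_nonneg _) (hφ.2 x)
  simpa using h

theorem expa (h1 : S_ce1) (h2 : S_ce2) (h3 : S_inn) (h4 : S_bes) (h5 : S_rec) (h6 : S_ltw) :
    S_expa := by
  intro μ ν _ _ m k f h a b ε T U φ ψ hε0 hε1 hφ hψ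
  have key : (∫ x, ∫ y, φ x * ψ y * D μ ν f h a b ε T U x y ∂ν ∂μ) - (∫ x, φ x ∂μ) * (∫ y, ψ y ∂ν) -
      ε * ∑ t ∈ Finset.Ico T U, (∫ x, g μ f a t x * φ x ∂μ) * (∫ y, g ν h b t y * ψ y ∂ν) =
      ε ^ 2 * ∑ t ∈ Finset.Ico T U, ∑ r ∈ Finset.Ico T t,
        ∫ x, ∫ y, E μ f r (fun z => g μ f a r z * E μ f t (fun w => g μ f a t w * φ w) z) x *
          E ν h r (fun z => g ν h b r z * E ν h t (fun w => g ν h b t w * ψ w) z) y *
            D μ ν f h a b ε T r x y ∂ν ∂μ := by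
    rw [h5 μ ν m k f h a b ε 1 1 T U φ ψ hε0 hε1 hφ hψ]
    have e : ∀ t ∈ Finset.Ico T U, (∫ x, ∫ y, E μ f t (fun z => g μ f a t z * φ z) x *
        E ν h t (fun z => g ν h b t z * ψ z) y * D μ ν f h a b ε T t x y ∂ν ∂μ) =
        (∫ x, g μ f a t x * φ x ∂μ) * (∫ y, g ν h b t y * ψ y ∂ν) +
        ε * ∑ r ∈ Finset.Ico T t,
        ∫ x, ∫ y, E μ f r (fun z => g μ f a r z * E μ f t (fun w => g μ f a t w * φ w) z) x *
          E ν h r (fun z => g ν h b r z * E ν h t (fun w => g ν h b t w * ψ w) z) y *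
            D μ ν f h a b ε T r x y ∂ν ∂μ := by
      intro t _
      rw [h5 μ ν m k f h a b ε 1 1 T t (fun x => E μ f t (fun z => g μ f a t z * φ z) x)
        (fun y => E ν h t (fun z => g ν h b t z * ψ z) y) hε0 hε1 (bm_E h1 h3 μ m f a t φ hφ)
        (bm_E h1 h3 ν k h b t ψ hψ), int_E h2 h3 μ m f a t φ hφ, int_E h2 h3 ν k h b t ψ hψ]
    rw [Finset.sum_congr rfl e, Finset.sum_add_distrib, ← Finset.mul_sum]
    ring
  rw [key, abs_mul, abs_of_nonneg (sq_nonneg ε)]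
  refine mul_le_of_le_one_right (sq_nonneg ε) ?_
  have b1 : ∀ t ∈ Finset.Ico T U, |∑ r ∈ Finset.Ico T t,
      ∫ x, ∫ y, E μ f r (fun z => g μ f a r z * E μ f t (fun w => g μ f a t w * φ w) z) x *
          E ν h r (fun z => g ν h b r z * E ν h t (fun w => g ν h b t w * ψ w) z) y *
            D μ ν f h a b ε T r x y ∂ν ∂μ| ≤
      Real.sqrt (∫ x, (E μ f t (fun w => g μ f a t w * φ w) x) ^ 2 ∂μ) *
      Real.sqrt (∫ y, (E ν h t (fun w => g ν h b t w * ψ w) y) ^ 2 ∂ν) := by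
    intro t _
    have hut := bm_E h1 h3 μ m f a t φ hφ
    have hvt := bm_E h1 h3 ν k h b t ψ hψ
    refine (Finset.abs_sum_le_sum_abs _ _).trans ?_
    refine (Finset.sum_le_sum fun r _ => h6 μ ν m k f h a b ε 1 1 T r _ _ hε0 hε1
      (bm_E h1 h3 μ m f a r _ hut) (bm_E h1 h3 ν k h b r _ hvt)).trans ?_
    exact sum_bd _ _ _ _ _ (fun r => integral_nonneg fun x => sq_nonneg _)
      (fun r => integral_nonneg fun x => sq_nonneg _)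
      (h4 μ m f a T t 1 _ hut) (h4 ν k h b T t 1 _ hvt)
  refine (Finset.abs_sum_le_sum_abs _ _).trans ((Finset.sum_le_sum b1).trans ?_)
  refine (sum_bd _ _ _ _ _ (fun r => integral_nonneg fun x => sq_nonneg _)
      (fun r => integral_nonneg fun x => sq_nonneg _)
      (h4 μ m f a T U 1 φ hφ) (h4 ν k h b T U 1 ψ hψ)).trans ?_
  have c1 : Real.sqrt (∫ x, (φ x) ^ 2 ∂μ) ≤ 1 := by
    rw [Real.sqrt_le_one]
    exact int_sq_le μ φ hφ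
  have c2 : Real.sqrt (∫ x, (ψ x) ^ 2 ∂ν) ≤ 1 := by
    rw [Real.sqrt_le_one]
    exact int_sq_le ν ψ hψ
  exact mul_le_one₀ c1 (Real.sqrt_nonneg _) c2

end Pool.Agent.Q94.DJ_EXPA
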