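import Mathlib

/-!
# Shifted Douglas-Rachford iterates for two balls
-/

open scoped Topology
open Filter Set

namespace Q94.DR

variable {H : Type*} [NormedAddCommGroup H] [InnerProductSpace ℝ H]

/-- `P` is the nearest point projection onto `C`. -/
def IsProj (C : Set H) (P : H → H) : Prop :=
  ∀ x, P x ∈ C ∧ ∀ y ∈ C, ‖x - P x‖ ≤ ‖x - y‖

/-- The reflector `2 P - Id`. -/
def refl (P : H → H) (x : H) : H := (2 : ℝ) • P x - x

/-- The Douglas-Rachford operator `(Id + R_B R_A) / 2`. -/
noncomputable def DRop (PA PB : H → H) (x : H) : H := (1 / 2 : ℝ) • (x + refl PB (refl PA x))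

/-- `v` is the element of least norm of the closure of the range of `Id - T`. -/
def IsMinDisp (T : H → H) (v : H) : Prop :=
  v ∈ closure (range fun x => x - T x) ∧ ∀ w ∈ closure (range fun x => x - T x), ‖v‖ ≤ ‖w‖

/-- The explicit projection onto a ball. -/
noncomputable def Q (a : H) (r : ℝ) (z : H) : H :=
  if ‖z - a‖ ≤ r then z else a + (r / ‖z - a‖) • (z - a)

lemma Q_mem {a : H} {r : ℝ} (hr : 0 ≤ r) (z : H) : ‖Q a r z - a‖ ≤ r := by
  unfold Q
  split_ifs with h
  · exact h
  · push Not at h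
    have : 0 < ‖z - a‖ := hr.trans_lt h
    rw [add_sub_cancel_left, norm_smul, norm_div, norm_norm, Real.norm_of_nonneg hr,
      div_mul_cancel₀ _ this.ne']

lemma Q_inner {a : H} {r : ℝ} (hr : 0 ≤ r) (z y : H) (hy : ‖y - a‖ ≤ r) :
    inner ℝ (z - Q a r z) (y - Q a r z) ≤ 0 := by
  unfold Q
  split_ifs with h
  · simp
  · push Not at h
    have h0 : 0 < ‖z - a‖ := hr.trans_lt h
    set ρ := ‖z - a‖ with hρ
    have e1 : z - (a + (r / ρ) • (z - a)) = (1 - r / ρ) • (z - a) := by
      rw [sub_smul, one_smul]; abel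
    have e2 : y - (a + (r / ρ) • (z - a)) = (y - a) - (r / ρ) • (z - a) := by abel
    rw [e1, e2, inner_smul_left, inner_sub_right, inner_smul_right, real_inner_self_eq_norm_sq,
      ← hρ]
    have h1 : inner ℝ (z - a) (y - a) ≤ ρ * r :=
      (real_inner_le_norm _ _).trans (mul_le_mul_of_nonneg_left hy h0.le)
    have h2 : r / ρ * ρ ^ 2 = ρ * r := by field_simp
    have h3 : r / ρ ≤ 1 := by rw [div_le_one h0]; exact h.le
    rw [h2]
    simp only [conj_trivial]
    exact mul_nonpos_of_nonneg_of_nonpos (by linarith) (by linarith)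

lemma proj_eq {a : H} {r : ℝ} (hr : 0 ≤ r) {P : H → H} (hP : IsProj (Metric.closedBall a r) P)
    (z : H) : P z = Q a r z := by
  have h1 := (hP z).1
  rw [mem_closedBall_iff_norm] at h1
  have h2 := (hP z).2 (Q a r z) (by rw [mem_closedBall_iff_norm]; exact Q_mem hr z)
  have h3 := Q_inner hr z (P z) h1
  have h4 : ‖z - P z‖ ^ 2 = ‖z - Q a r z‖ ^ 2 + ‖P z - Q a r z‖ ^ 2
      - 2 * inner ℝ (z - Q a r z) (P z - Q a r z) := by
    have : z - P z = (z - Q a r z) - (P z - Q a r z) := by abel
    rw [this, norm_sub_sq_real]; ring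
  have h5 : ‖z - P z‖ ^ 2 ≤ ‖z - Q a r z‖ ^ 2 := by gcongr
  have h6 : ‖P z - Q a r z‖ ^ 2 ≤ 0 := by linarith
  have h7 : ‖P z - Q a r z‖ = 0 := by
    have := sq_nonneg ‖P z - Q a r z‖
    exact pow_eq_zero_iff (two_ne_zero) |>.1 (le_antisymm h6 this)
  exact sub_eq_zero.1 (norm_eq_zero.1 h7)

/-- Firm nonexpansiveness of the projection. -/
lemma proj_firm {a : H} {r : ℝ} (hr : 0 ≤ r) {P : H → H}
    (hP : IsProj (Metric.closedBall a r) P) (x y : H) :
    ‖P x - P y‖ ^ 2 ≤ inner ℝ (P x - P y) (x - y) := by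
  have hx := Q_inner hr x (P y) (by rw [proj_eq hr hP]; exact Q_mem hr y)
  have hy := Q_inner hr y (P x) (by rw [proj_eq hr hP]; exact Q_mem hr x)
  rw [← proj_eq hr hP x] at hx
  rw [← proj_eq hr hP y] at hy
  rw [← real_inner_self_eq_norm_sq]
  have e : inner ℝ (P x - P y) (x - y) - inner ℝ (P x - P y) (P x - P y)
      = - inner ℝ (x - P x) (P y - P x) - inner ℝ (y - P y) (P x - P y) := by
    rw [real_inner_comm (x - y), real_inner_comm (P x - P y) (P x - P y)]
    simp only [inner_sub_left, inner_sub_right]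
    ring
  linarith

lemma refl_nonexp {a : H} {r : ℝ} (hr : 0 ≤ r) {P : H → H}
    (hP : IsProj (Metric.closedBall a r) P) (x y : H) :
    ‖refl P x - refl P y‖ ≤ ‖x - y‖ := by
  have h := proj_firm hr hP x y
  have e : refl P x - refl P y = (2 : ℝ) • (P x - P y) - (x - y) := by
    unfold refl; rw [smul_sub]; abel
  have h2 : ‖refl P x - refl P y‖ ^ 2 ≤ ‖x - y‖ ^ 2 := by
    rw [e, norm_sub_sq_real, inner_smul_left, norm_smul]
    simp only [conj_trivial, Real.norm_ofNat]
    nlinarith
  exact abs_le_of_sq_le_sq' h2 (norm_nonneg _) |>.2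

/-- Firm nonexpansiveness of the Douglas-Rachford operator. -/
lemma DR_firm {a b : H} {r s : ℝ} (hr : 0 ≤ r) (hs : 0 ≤ s) {PA PB : H → H}
    (hA : IsProj (Metric.closedBall a r) PA) (hB : IsProj (Metric.closedBall b s) PB) (x y : H) :
    ‖DRop PA PB x - DRop PA PB y‖ ^ 2 + ‖(x - DRop PA PB x) - (y - DRop PA PB y)‖ ^ 2
      ≤ ‖x - y‖ ^ 2 := by
  set N : H → H := fun z => refl PB (refl PA z) with hN
  have hNle : ‖N x - N y‖ ≤ ‖x - y‖ :=
    (refl_nonexp hs hB _ _).trans (refl_nonexp hr hA _ _)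
  have e1 : DRop PA PB x - DRop PA PB y = (1 / 2 : ℝ) • ((x - y) + (N x - N y)) := by
    unfold DRop; rw [← smul_sub]; congr 1; simp only [hN]; abel
  have e2 : (x - DRop PA PB x) - (y - DRop PA PB y) = (1 / 2 : ℝ) • ((x - y) - (N x - N y)) := by
    have hx : x - DRop PA PB x = (1 / 2 : ℝ) • (x - N x) := by
      unfold DRop
      rw [smul_add, smul_sub]
      nth_rewrite 1 [show x = (1 / 2 : ℝ) • x + (1 / 2 : ℝ) • x by rw [← add_smul]; norm_num]
      simp only [hN]; abel
    have hy : y - DRop PA PB y = (1 / 2 : ℝ) • (y - N y) := by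
      unfold DRop
      rw [smul_add, smul_sub]
      nth_rewrite 1 [show y = (1 / 2 : ℝ) • y + (1 / 2 : ℝ) • y by rw [← add_smul]; norm_num]
      simp only [hN]; abel
    rw [hx, hy, ← smul_sub]; congr 1; abel
  have h3 := parallelogram_law_with_norm ℝ (x - y) (N x - N y)
  have h4 : ‖N x - N y‖ ^ 2 ≤ ‖x - y‖ ^ 2 := by gcongr
  rw [e1, e2, norm_smul, norm_smul]
  norm_num
  nlinarith

lemma DR_eq (PA PB : H → H) (x : H) :
    DRop PA PB x = x - PA x + PB (refl PA x) := by
  unfold DRop
  have : x + refl PB (refl PA x) = (2 : ℝ) • (x - PA x + PB (refl PA x)) := by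
    unfold refl
    rw [two_smul, two_smul, two_smul]; abel
  rw [this, smul_smul]; norm_num

/-! ### Sequences -/

lemma descent {D c : ℕ → ℝ} (hD : ∀ n, 0 ≤ D n) (h : ∀ n, D (n + 1) + c n ^ 2 ≤ D n) :
    (∃ L, Tendsto D atTop (𝓝 L)) ∧ Tendsto c atTop (𝓝 0) := by
  have hanti : Antitone D := antitone_nat_of_succ_le fun n => by
    have := h n; nlinarith [sq_nonneg (c n)]
  have hbdd : BddBelow (range D) := ⟨0, by rintro _ ⟨n, rfl⟩; exact hD n⟩
  have hL := tendsto_atTop_ciInf hanti hbdd
  refine ⟨⟨_, hL⟩, ?_⟩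
  have h1 : Tendsto (fun n => D n - D (n + 1)) atTop (𝓝 0) := by
    have := hL.sub (hL.comp (tendsto_add_atTop_nat 1))
    simpa using this
  have h2 : Tendsto (fun n => c n ^ 2) atTop (𝓝 0) :=
    squeeze_zero (fun n => sq_nonneg _) (fun n => by have := h n; linarith) h1
  have h3 : Tendsto (fun n => √(c n ^ 2)) atTop (𝓝 0) := by
    have := h2.sqrt; simpa using this
  simp only [Real.sqrt_sq_eq_abs] at h3
  exact (tendsto_zero_iff_abs_tendsto_zero _).2 h3

/-- A real sequence with convergent absolute values and steps tending to `0` converges. -/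
lemma sign_settle {β : ℕ → ℝ} {m : ℝ} (h1 : Tendsto (fun n => |β n|) atTop (𝓝 m))
    (h2 : Tendsto (fun n => β (n + 1) - β n) atTop (𝓝 0)) : ∃ L, Tendsto β atTop (𝓝 L) := by
  have hm : 0 ≤ m := ge_of_tendsto' h1 fun n => abs_nonneg _
  rcases hm.eq_or_lt with rfl | hm
  · exact ⟨0, (tendsto_zero_iff_abs_tendsto_zero _).2 h1⟩
  · have e1 : ∀ᶠ n in atTop, m / 2 < |β n| := h1.eventually (lt_mem_nhds (by linarith))
    have e2 : ∀ᶠ n in atTop, |β (n + 1) - β n| < m / 2 := by
      have h3 : Tendsto (fun n => |β (n + 1) - β n|) atTop (𝓝 0) := by simpa using h2.abs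
      exact h3.eventually (gt_mem_nhds (by linarith))
    obtain ⟨N, hN⟩ := eventually_atTop.1 (e1.and e2)
    rcases le_or_gt 0 (β N) with h0 | h0
    · have hpos : ∀ n ≥ N, 0 < β n := by
        intro n hn
        induction n, hn using Nat.le_induction with
        | base =>
          have := (hN N le_rfl).1
          rw [abs_of_nonneg h0] at this; linarith
        | succ k hk ih =>
          have h4 := (hN k hk).1
          have h5 := (hN k hk).2
          rw [abs_of_pos ih] at h4
          have := (abs_lt.1 h5).1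
          linarith
      refine ⟨m, h1.congr' ?_⟩
      filter_upwards [eventually_ge_atTop N] with n hn
      exact abs_of_pos (hpos n hn)
    · have hneg : ∀ n ≥ N, β n < 0 := by
        intro n hn
        induction n, hn using Nat.le_induction with
        | base => exact h0
        | succ k hk ih =>
          have h4 := (hN k hk).1
          have h5 := (hN k hk).2
          rw [abs_of_neg ih] at h4
          have := (abs_lt.1 h5).2
          linarith
      refine ⟨-m, h1.neg.congr' ?_⟩
      filter_upwards [eventually_ge_atTop N] with n hn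
      rw [abs_of_neg (hneg n hn), neg_neg]

/-! ### Invariant plane -/

lemma Q_sub_mem (V : Submodule ℝ H) {a : H} {r : ℝ} {z : H} (hz : z - a ∈ V) :
    Q a r z - a ∈ V := by
  unfold Q
  split_ifs with h
  · exact hz
  · rw [add_sub_cancel_left]; exact V.smul_mem _ hz

lemma DR_mem (V : Submodule ℝ H) {a b : H} {r s : ℝ} (hr : 0 ≤ r) (hs : 0 ≤ s) {PA PB : H → H}
    (hA : IsProj (Metric.closedBall a r) PA) (hB : IsProj (Metric.closedBall b s) PB)
    (hab : b - a ∈ V) {z : H} (hz : z - a ∈ V) : DRop PA PB z - a ∈ V := by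
  have h1 : PA z - a ∈ V := by rw [proj_eq hr hA]; exact Q_sub_mem V hz
  have h2 : refl PA z - a ∈ V := by
    have : refl PA z - a = (2 : ℝ) • (PA z - a) - (z - a) := by
      unfold refl; rw [smul_sub, two_smul ℝ a]; abel
    rw [this]; exact V.sub_mem (V.smul_mem _ h1) hz
  have h3 : PB (refl PA z) - a ∈ V := by
    have h4 : refl PA z - b ∈ V := by
      have : refl PA z - b = (refl PA z - a) - (b - a) := by abel
      rw [this]; exact V.sub_mem h2 hab
    have h5 : PB (refl PA z) - b ∈ V := by rw [proj_eq hs hB]; exact Q_sub_mem V h4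
    have : PB (refl PA z) - a = (PB (refl PA z) - b) + (b - a) := by abel
    rw [this]; exact V.add_mem h5 hab
  rw [DR_eq]
  have : z - PA z + PB (refl PA z) - a = (z - a) - (PA z - a) + (PB (refl PA z) - a) := by abel
  rw [this]
  exact V.add_mem (V.sub_mem hz h1) h3

lemma DR_iter_mem (V : Submodule ℝ H) {a b : H} {r s : ℝ} (hr : 0 ≤ r) (hs : 0 ≤ s)
    {PA PB : H → H} (hA : IsProj (Metric.closedBall a r) PA)
    (hB : IsProj (Metric.closedBall b s) PB) (hab : b - a ∈ V) {z : H} (hz : z - a ∈ V) (n : ℕ) :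
    (DRop PA PB)^[n] z - a ∈ V := by
  induction n with
  | zero => simpa using hz
  | succ n ih => rw [Function.iterate_succ_apply']; exact DR_mem V hr hs hA hB hab ih

/-! ### Intersecting balls -/

lemma conv_of_fix {a b : H} {r s : ℝ} (hr : 0 ≤ r) (hs : 0 ≤ s) {PA PB : H → H}
    (hA : IsProj (Metric.closedBall a r) PA) (hB : IsProj (Metric.closedBall b s) PB)
    {p : H} (hp : DRop PA PB p = p) (x : H) :
    ∃ L, Tendsto (fun n : ℕ => (DRop PA PB)^[n] x) atTop (𝓝 L) := by
  set T := DRop PA PB with hT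
  have firm : ∀ y z, ‖T y - T z‖ ^ 2 + ‖(y - T y) - (z - T z)‖ ^ 2 ≤ ‖y - z‖ ^ 2 :=
    fun y z => DR_firm hr hs hA hB y z
  have nonexp : ∀ y z, ‖T y - T z‖ ≤ ‖y - z‖ := by
    intro y z
    have h := firm y z
    have : ‖T y - T z‖ ^ 2 ≤ ‖y - z‖ ^ 2 := by nlinarith [sq_nonneg ‖(y - T y) - (z - T z)‖]
    exact abs_le_of_sq_le_sq' this (norm_nonneg _) |>.2
  have hcont : Continuous T := by
    have : LipschitzWith 1 T := LipschitzWith.of_dist_le_mul fun y z => by
      rw [dist_eq_norm, dist_eq_norm]; simpa using nonexp y z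
    exact this.continuous
  -- descent with respect to a fixed point
  have desc : ∀ q, T q = q → ∀ n : ℕ,
      ‖T^[n + 1] x - q‖ ^ 2 + ‖T^[n] x - T^[n + 1] x‖ ^ 2 ≤ ‖T^[n] x - q‖ ^ 2 := by
    intro q hq n
    have := firm (T^[n] x) q
    rw [hq, sub_self, sub_zero] at this
    rw [Function.iterate_succ_apply']
    exact this
  set V : Submodule ℝ H := Submodule.span ℝ {b - a, x - a} with hV
  have hfin : FiniteDimensional ℝ V := FiniteDimensional.span_of_finite ℝ (by simp)
  have hmem : ∀ n : ℕ, T^[n] x - a ∈ V := DR_iter_mem V hr hs hA hB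
    (Submodule.subset_span (by simp)) (Submodule.subset_span (by simp))
  set z : ℕ → V := fun n => ⟨T^[n] x - a, hmem n⟩ with hz
  have hstep := (descent (D := fun n => ‖T^[n] x - p‖ ^ 2) (c := fun n => ‖T^[n] x - T^[n + 1] x‖)
    (fun n => by positivity) (desc p hp)).2
  have hle : ∀ n, ‖T^[n] x - p‖ ≤ ‖x - p‖ := by
    intro n
    induction n with
    | zero => simp
    | succ n ih =>
      refine le_trans ?_ ih
      have := nonexp (T^[n] x) p
      rw [hp] at this
      rw [Function.iterate_succ_apply']; exact this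
  have hbd : ∀ n, z n ∈ Metric.closedBall (0 : V) (‖x - p‖ + ‖p - a‖) := by
    intro n
    rw [mem_closedBall_zero_iff]
    change ‖T^[n] x - a‖ ≤ _
    have : T^[n] x - a = (T^[n] x - p) + (p - a) := by abel
    rw [this]
    exact (norm_add_le _ _).trans (by gcongr; exact hle n)
  obtain ⟨L, -, φ, hφ, hL⟩ := (isCompact_closedBall (0 : V) (‖x - p‖ + ‖p - a‖)).tendsto_subseq hbd
  have hL' : Tendsto (fun k => T^[φ k] x) atTop (𝓝 (a + L)) := by
    have h1 : Tendsto (fun k => ((z (φ k) : V) : H)) atTop (𝓝 (L : H)) :=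
      (continuous_subtype_val.tendsto L).comp hL
    have h2 := h1.const_add a
    refine h2.congr fun k => ?_
    simp [hz]
  have hfix : T (a + L) = a + L := by
    have h1 : Tendsto (fun k => T (T^[φ k] x)) atTop (𝓝 (T (a + L))) :=
      (hcont.tendsto _).comp hL'
    have h2 : Tendsto (fun k => T^[φ k] x - T (T^[φ k] x)) atTop (𝓝 0) := by
      rw [tendsto_zero_iff_norm_tendsto_zero]
      have := hstep.comp hφ.tendsto_atTop
      refine this.congr fun k => ?_
      simp only [Function.comp]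
      rw [Function.iterate_succ_apply']
    have h3 := hL'.sub h1
    have h4 := tendsto_nhds_unique h3 h2
    exact (sub_eq_zero.1 h4).symm
  refine ⟨a + L, ?_⟩
  obtain ⟨M, hM⟩ := (descent (D := fun n => ‖T^[n] x - (a + L)‖ ^ 2)
    (c := fun n => ‖T^[n] x - T^[n + 1] x‖) (fun n => by positivity) (desc _ hfix)).1
  have h5 : Tendsto (fun k => ‖T^[φ k] x - (a + L)‖ ^ 2) atTop (𝓝 0) := by
    have := (hL'.sub_const (a + L : H)).norm.pow 2
    simpa using this
  have hM0 : M = 0 := tendsto_nhds_unique (hM.comp hφ.tendsto_atTop) h5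
  rw [hM0] at hM
  have h6 : Tendsto (fun n => ‖T^[n] x - (a + L)‖) atTop (𝓝 0) := by
    have := hM.sqrt
    simpa [Real.sqrt_sq (norm_nonneg _)] using this
  have h7 := tendsto_zero_iff_norm_tendsto_zero.2 h6
  have h8 := h7.add_const (a + L : H)
  simpa using h8

/-! ### Disjoint balls -/

lemma Q_of_lt {a : H} {r : ℝ} {z : H} (h : r < ‖z - a‖) :
    Q a r z = a + (r / ‖z - a‖) • (z - a) := by
  unfold Q; rw [if_neg (not_le.2 h)]

/-- The operator on the ray. -/
lemma DR_ray {a e : H} (he : ‖e‖ = 1) {d r s : ℝ} (hr : 0 ≤ r) (hs : 0 ≤ s) (hd : r + s < d)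
    {PA PB : H → H}
    (hA : IsProj (Metric.closedBall a r) PA) (hB : IsProj (Metric.closedBall (a + d • e) s) PB)
    {t : ℝ} (ht : 0 ≤ t) :
    DRop PA PB (a + (r + t) • e) = a + (r + t + (d - r - s)) • e := by
  have h1 : PA (a + (r + t) • e) = a + r • e := by
    rw [proj_eq hr hA]
    have hn : ‖a + (r + t) • e - a‖ = r + t := by
      rw [add_sub_cancel_left, norm_smul, he, mul_one, Real.norm_of_nonneg (by linarith)]
    rcases ht.eq_or_lt with rfl | ht
    · unfold Q
      rw [if_pos (by rw [hn]; linarith)]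
      simp
    · rw [Q_of_lt (by rw [hn]; linarith), hn, add_sub_cancel_left, smul_smul,
        div_mul_cancel₀ _ (by linarith)]
  have h2 : refl PA (a + (r + t) • e) = a + (r - t) • e := by
    unfold refl
    rw [h1, smul_add, smul_smul, two_smul, show r - t = 2 * r - (r + t) by ring, sub_smul]
    abel
  have h3 : PB (a + (r - t) • e) = a + (d - s) • e := by
    rw [proj_eq hs hB]
    have hn0 : a + (r - t) • e - (a + d • e) = -((d - r + t) • e) := by
      module
    have hn : ‖a + (r - t) • e - (a + d • e)‖ = d - r + t := by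
      rw [hn0, norm_neg, norm_smul, he, mul_one, Real.norm_of_nonneg (by linarith)]
    rw [Q_of_lt (by rw [hn]; linarith), hn, hn0, smul_neg, smul_smul,
      div_mul_cancel₀ _ (by linarith)]
    module
  rw [DR_eq, h2, h3, h1]
  module

lemma DR_ray_iter {a e : H} (he : ‖e‖ = 1) {d r s : ℝ} (hr : 0 ≤ r) (hs : 0 ≤ s) (hd : r + s < d)
    {PA PB : H → H}
    (hA : IsProj (Metric.closedBall a r) PA) (hB : IsProj (Metric.closedBall (a + d • e) s) PB)
    {t : ℝ} (ht : 0 ≤ t) (n : ℕ) :
    (DRop PA PB)^[n] (a + (r + t) • e) = a + (r + t) • e + (n : ℝ) • (d - r - s) • e := by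
  have : ∀ n : ℕ, (DRop PA PB)^[n] (a + (r + t) • e)
      = a + (r + (t + n * (d - r - s))) • e := by
    intro n
    induction n with
    | zero => simp
    | succ n ih =>
      rw [Function.iterate_succ_apply', ih, DR_ray he hr hs hd hA hB
        (add_nonneg ht (mul_nonneg n.cast_nonneg (by linarith)))]
      congr 2
      push_cast
      ring
  rw [this n, smul_smul, ← add_assoc r t, add_smul, add_assoc]

/-- The minimal displacement vector for disjoint balls. -/
lemma minDisp_eq {a e : H} (he : ‖e‖ = 1) {d r s : ℝ} (hr : 0 ≤ r) (hs : 0 ≤ s) (hd : r + s < d)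
    {PA PB : H → H}
    (hA : IsProj (Metric.closedBall a r) PA) (hB : IsProj (Metric.closedBall (a + d • e) s) PB)
    {v : H} (hv : IsMinDisp (DRop PA PB) v) : v = -((d - r - s) • e) := by
  set g := d - r - s with hg
  have hg0 : 0 < g := by rw [hg]; linarith
  have h1 : ‖v‖ ≤ g := by
    have := hv.2 (-(g • e)) (subset_closure ⟨a + (r + 0) • e, by
      simp only
      rw [DR_ray he hr hs hd hA hB le_rfl, add_smul (r + 0) (d - r - s)]
      abel⟩)
    rwa [norm_neg, norm_smul, he, mul_one, Real.norm_of_nonneg hg0.le] at this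
  have hcl : IsClosed {w : H | g ≤ - inner ℝ w e} :=
    isClosed_le continuous_const (by fun_prop)
  have h2 : g ≤ - inner ℝ v e := by
    have hsub : (range fun x => x - DRop PA PB x) ⊆ {w : H | g ≤ - inner ℝ w e} := by
      rintro _ ⟨x, rfl⟩
      simp only [mem_ofPred_eq]
      rw [DR_eq]
      have e1 : x - (x - PA x + PB (refl PA x))
          = (PA x - a) - (PB (refl PA x) - (a + d • e)) - d • e := by abel
      rw [e1, inner_sub_left, inner_sub_left, inner_smul_left, real_inner_self_eq_norm_sq, he]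
      have ha : inner ℝ (PA x - a) e ≤ r := by
        refine (real_inner_le_norm _ _).trans ?_
        rw [he, mul_one, proj_eq hr hA]; exact Q_mem hr x
      have hb : - inner ℝ (PB (refl PA x) - (a + d • e)) e ≤ s := by
        rw [← inner_neg_left]
        refine (real_inner_le_norm _ _).trans ?_
        rw [he, mul_one, norm_neg, proj_eq hs hB]; exact Q_mem hs _
      simp only [conj_trivial]
      linarith
    exact (closure_minimal hsub hcl) hv.1
  have h3 : ‖v + g • e‖ ^ 2 ≤ 0 := by
    rw [norm_add_sq_real, inner_smul_right, norm_smul, he, mul_one, Real.norm_of_nonneg hg0.le]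
    nlinarith [norm_nonneg v]
  have h4 : ‖v + g • e‖ = 0 :=
    pow_eq_zero_iff (two_ne_zero) |>.1 (le_antisymm h3 (sq_nonneg _))
  exact eq_neg_of_add_eq_zero_left (norm_eq_zero.1 h4)

lemma conv_disjoint {a e : H} (he : ‖e‖ = 1) {d r s : ℝ} (hr : 0 ≤ r) (hs : 0 ≤ s)
    (hd : r + s < d) {PA PB : H → H}
    (hA : IsProj (Metric.closedBall a r) PA) (hB : IsProj (Metric.closedBall (a + d • e) s) PB)
    (x : H) : ∃ L, Tendsto (fun n : ℕ => (DRop PA PB)^[n] x + (n : ℝ) • (-((d - r - s) • e)))
      atTop (𝓝 L) := by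
  set T := DRop PA PB with hT
  set g := d - r - s with hg
  set y : ℕ → H := fun n => T^[n] x + (n : ℝ) • (-(g • e)) with hy
  have firm : ∀ y z, ‖T y - T z‖ ^ 2 + ‖(y - T y) - (z - T z)‖ ^ 2 ≤ ‖y - z‖ ^ 2 :=
    fun y z => DR_firm hr hs hA hB y z
  -- descent with respect to the points of the ray
  have desc : ∀ t : ℝ, 0 ≤ t → ∀ n : ℕ,
      ‖y (n + 1) - (a + (r + t) • e)‖ ^ 2 + ‖y n - y (n + 1)‖ ^ 2
        ≤ ‖y n - (a + (r + t) • e)‖ ^ 2 := by
    intro t ht n
    have h1 := firm (T^[n] x) (T^[n] (a + (r + t) • e))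
    rw [← Function.iterate_succ_apply' T, ← Function.iterate_succ_apply' T,
      DR_ray_iter he hr hs hd hA hB ht, DR_ray_iter he hr hs hd hA hB ht] at h1
    have e1 : ∀ k : ℕ, T^[k] x - (a + (r + t) • e + (k : ℝ) • (d - r - s) • e)
        = y k - (a + (r + t) • e) := by
      intro k; simp only [hy, smul_neg]; abel
    rw [e1 n, e1 (n + 1)] at h1
    have e2 : T^[n] x - T^[n + 1] x - (a + (r + t) • e + (n : ℝ) • (d - r - s) • e
        - (a + (r + t) • e + ((n + 1 : ℕ) : ℝ) • (d - r - s) • e)) = y n - y (n + 1) := by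
      simp only [hy, smul_neg]; abel
    rw [Nat.succ_eq_add_one, e2] at h1
    exact h1
  obtain ⟨⟨M0, hM0⟩, hstep⟩ := descent (D := fun n => ‖y n - (a + (r + 0) • e)‖ ^ 2)
    (c := fun n => ‖y n - y (n + 1)‖) (fun n => by positivity) (desc 0 le_rfl)
  obtain ⟨⟨M1, hM1⟩, -⟩ := descent (D := fun n => ‖y n - (a + (r + 1) • e)‖ ^ 2)
    (c := fun n => ‖y n - y (n + 1)‖) (fun n => by positivity) (desc 1 zero_le_one)
  set a0 : H := a + (r + 0) • e with ha0
  have ha1 : a + (r + 1) • e = a0 + e := by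
    rw [ha0, add_zero, add_smul, one_smul, add_assoc]
  -- the component along `e`
  set τ : ℕ → ℝ := fun n => inner ℝ (y n - a0) e with hτ
  have hτlim : ∃ L, Tendsto τ atTop (𝓝 L) := by
    refine ⟨(M0 - M1 + 1) / 2, ?_⟩
    have h1 := ((hM0.sub hM1).add_const 1).div_const 2
    refine h1.congr fun n => ?_
    rw [ha1]
    have : y n - (a0 + e) = (y n - a0) - e := by abel
    rw [this, norm_sub_sq_real (y n - a0) e, he]
    simp only [hτ]; ring
  obtain ⟨τ', hτ'⟩ := hτlim
  -- the orthogonal component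
  set u : H → H := fun z => z - inner ℝ z e • e with hu
  have hu_norm : ∀ z, ‖u z‖ ^ 2 = ‖z‖ ^ 2 - inner ℝ z e ^ 2 := by
    intro z
    simp only [hu]
    rw [norm_sub_sq_real, inner_smul_right, norm_smul, he, mul_one, Real.norm_eq_abs, sq_abs]
    ring
  have hu_add : ∀ z w, u (z + w) = u z + u w := by
    intro z w; simp only [hu]; rw [inner_add_left, add_smul]; abel
  have hu_sub : ∀ z w, u (z - w) = u z - u w := by
    intro z w; simp only [hu]; rw [inner_sub_left, sub_smul]; abel
  have hu_smul : ∀ (c : ℝ) z, u (c • z) = c • u z := by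
    intro c z; simp only [hu]; rw [inner_smul_left, smul_sub, smul_smul]; simp
  have hu_e : u e = 0 := by
    simp only [hu]; rw [real_inner_self_eq_norm_sq, he]; simp
  have hu_le : ∀ z, ‖u z‖ ≤ ‖z‖ := by
    intro z
    have h1 := hu_norm z
    have : ‖u z‖ ^ 2 ≤ ‖z‖ ^ 2 := by nlinarith [sq_nonneg (inner ℝ z e : ℝ)]
    exact abs_le_of_sq_le_sq' this (norm_nonneg _) |>.2
  -- the orthogonal component stays on a line
  set V : Submodule ℝ H := Submodule.span ℝ {e, x - a} with hV
  have heV : e ∈ V := Submodule.subset_span (by simp)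
  have hmem : ∀ n : ℕ, ∃ β : ℝ, u (y n - a0) = β • u (x - a) := by
    intro n
    have h1 : T^[n] x - a ∈ V := DR_iter_mem V hr hs hA hB
      (by rw [add_sub_cancel_left]; exact V.smul_mem _ heV) (Submodule.subset_span (by simp)) n
    have h2 : y n - a0 ∈ V := by
      have : y n - a0 = (T^[n] x - a) + (n : ℝ) • (-(g • e)) - (r + 0) • e := by
        simp only [hy, ha0]; abel
      rw [this]
      exact V.sub_mem (V.add_mem h1 (V.smul_mem _ (V.neg_mem (V.smul_mem _ heV))))
        (V.smul_mem _ heV)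
    obtain ⟨α, β, h3⟩ := Submodule.mem_span_pair.1 h2
    refine ⟨β, ?_⟩
    rw [← h3, hu_add, hu_smul, hu_smul, hu_e, smul_zero, zero_add]
  choose β hβ using hmem
  have hunorm : Tendsto (fun n => ‖u (y n - a0)‖) atTop (𝓝 (√(M0 - τ' ^ 2))) := by
    have h1 := (hM0.sub (hτ'.pow 2)).sqrt
    refine h1.congr fun n => ?_
    simp only [hτ]
    rw [← hu_norm, Real.sqrt_sq (norm_nonneg _)]
  have hustep : Tendsto (fun n => ‖u (y (n + 1) - a0) - u (y n - a0)‖) atTop (𝓝 0) := by
    refine squeeze_zero (fun n => norm_nonneg _) (fun n => ?_) hstep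
    rw [← hu_sub, show y (n + 1) - a0 - (y n - a0) = -(y n - y (n + 1)) by abel]
    refine (hu_le _).trans ?_
    rw [norm_neg]
  have hlim : ∃ L, Tendsto (fun n => u (y n - a0)) atTop (𝓝 L) := by
    by_cases hw : u (x - a) = 0
    · refine ⟨0, tendsto_const_nhds.congr fun n => ?_⟩
      rw [hβ n, hw, smul_zero]
    · have hw' : 0 < ‖u (x - a)‖ := norm_pos_iff.2 hw
      obtain ⟨L, hL⟩ := sign_settle (β := β) (m := √(M0 - τ' ^ 2) / ‖u (x - a)‖) (by
          refine (hunorm.div_const _).congr fun n => ?_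
          rw [hβ n, norm_smul, mul_div_cancel_right₀ _ hw'.ne', Real.norm_eq_abs]) (by
          rw [tendsto_zero_iff_norm_tendsto_zero]
          have h1 := hustep.div_const ‖u (x - a)‖
          rw [zero_div] at h1
          refine h1.congr fun n => ?_
          rw [hβ n, hβ (n + 1), ← sub_smul, norm_smul, mul_div_cancel_right₀ _ hw'.ne'])
      refine ⟨L • u (x - a), (hL.smul_const _).congr fun n => ?_⟩
      rw [hβ n]
  obtain ⟨L, hL⟩ := hlim
  refine ⟨a0 + τ' • e + L, ?_⟩
  have h1 := ((hτ'.smul_const e).const_add a0).add hL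
  refine h1.congr fun n => ?_
  simp only [hu, hτ]
  abel

/-- Main theorem. -/
theorem shifted_converge (a b : H) (r s : ℝ) (hr : 0 ≤ r) (hs : 0 ≤ s) (PA PB : H → H)
    (hA : IsProj (Metric.closedBall a r) PA) (hB : IsProj (Metric.closedBall b s) PB)
    (v : H) (hv : IsMinDisp (DRop PA PB) v) (x : H) :
    ∃ L, Tendsto (fun n : ℕ => (DRop PA PB)^[n] x + (n : ℝ) • v) atTop (𝓝 L) := by
  rcases lt_or_ge (r + s) ‖b - a‖ with h | h
  · have h0 : 0 < ‖b - a‖ := by linarith
    set e : H := ‖b - a‖⁻¹ • (b - a) with he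
    have hen : ‖e‖ = 1 := by
      rw [he, norm_smul, norm_inv, norm_norm, inv_mul_cancel₀ h0.ne']
    have hb : b = a + ‖b - a‖ • e := by
      rw [he, smul_smul, mul_inv_cancel₀ h0.ne', one_smul]; abel
    rw [hb] at hB
    rw [minDisp_eq hen hr hs h hA hB hv]
    exact conv_disjoint hen hr hs h hA hB x
  · -- a common point
    obtain ⟨p, hpA, hpB⟩ : ∃ p : H, ‖p - a‖ ≤ r ∧ ‖p - b‖ ≤ s := by
      rcases (add_nonneg hr hs).eq_or_lt with h0 | h0
      · refine ⟨a, by simpa using hr, ?_⟩
        rw [← h0] at h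
        rw [norm_sub_rev]; linarith
      · refine ⟨a + (r / (r + s)) • (b - a), ?_, ?_⟩
        · rw [add_sub_cancel_left, norm_smul, Real.norm_of_nonneg (by positivity), div_mul_eq_mul_div,
            div_le_iff₀ h0]
          exact mul_le_mul_of_nonneg_left h hr
        · have : a + (r / (r + s)) • (b - a) - b = -((s / (r + s)) • (b - a)) := by
            have e1 : s / (r + s) = 1 - r / (r + s) := by field_simp; ring
            rw [e1, sub_smul, one_smul]; abel
          rw [this, norm_neg, norm_smul, Real.norm_of_nonneg (by positivity), div_mul_eq_mul_div,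
            div_le_iff₀ h0]
          exact mul_le_mul_of_nonneg_left h hs
    have hPA : PA p = p := by rw [proj_eq hr hA]; unfold Q; rw [if_pos hpA]
    have hPB : PB p = p := by rw [proj_eq hs hB]; unfold Q; rw [if_pos hpB]
    have hTp : DRop PA PB p = p := by
      rw [DR_eq]
      have : refl PA p = p := by unfold refl; rw [hPA, two_smul]; abel
      rw [this, hPA, hPB]; abel
    have hv0 : v = 0 := by
      have := hv.2 0 (subset_closure ⟨p, by simp only; rw [hTp, sub_self]⟩)
      rw [norm_zero] at this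
      exact norm_le_zero_iff.1 this
    obtain ⟨L, hL⟩ := conv_of_fix hr hs hA hB hTp x
    exact ⟨L, by simpa [hv0] using hL⟩

end Q94.DR
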