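import Mathlib

/-!
Type B descents of signed permutations: insertion of the value of largest modulus.
-/

set_option autoImplicit false

namespace Q94.EB

/-- number of descents of a function on `0, ..., n` -/
def dn (f : ℕ → ℤ) (n : ℕ) : ℕ := ∑ i ∈ Finset.range n, if f (i + 1) < f i then 1 else 0

/-- insertion of the value `M` at the place `p` -/
def ins (f : ℕ → ℤ) (p : ℕ) (M : ℤ) (i : ℕ) : ℤ :=
  if i < p then f i else if i = p then M else f (i - 1)

theorem dn_succ (f : ℕ → ℤ) (n : ℕ) :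
    dn f (n + 1) = dn f n + if f (n + 1) < f n then 1 else 0 := Finset.sum_range_succ _ _

theorem dn_le (f : ℕ → ℤ) (n : ℕ) : dn f n ≤ n := by
  induction n with
  | zero => simp [dn]
  | succ n ih => rw [dn_succ]; split_ifs <;> omega

theorem ins_lt (f : ℕ → ℤ) (p : ℕ) (M : ℤ) (i : ℕ) (h : i < p) : ins f p M i = f i := if_pos h

theorem ins_eq (f : ℕ → ℤ) (p : ℕ) (M : ℤ) : ins f p M p = M := by simp [ins]

theorem ins_gt (f : ℕ → ℤ) (p : ℕ) (M : ℤ) (i : ℕ) (h : p ≤ i) : ins f p M (i + 1) = f i := by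
  unfold ins
  rw [if_neg (by omega), if_neg (by omega)]
  simp

theorem ins_last (f : ℕ → ℤ) (M : ℤ) (n : ℕ) :
    dn (ins f (n + 1) M) (n + 1) = dn f n + if M < f n then 1 else 0 := by
  rw [dn_succ, ins_eq, ins_lt _ _ _ _ (Nat.lt_succ_self n)]
  congr 1
  unfold dn
  apply Finset.sum_congr rfl
  intro i hi
  rw [Finset.mem_range] at hi
  rw [ins_lt _ _ _ _ (by omega), ins_lt _ _ _ _ (by omega)]

theorem ins_mid (f : ℕ → ℤ) (M : ℤ) (p n : ℕ) (hp : p + 1 ≤ n)
    (hM : (∀ i ≤ n, f i < M) ∨ (∀ i ≤ n, M < f i)) :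
    dn (ins f (p + 1) M) (n + 1) + (if f (p + 1) < f p then 1 else 0) = dn f n + 1 := by
  induction n, hp using Nat.le_induction with
  | base =>
    rw [dn_succ, ins_gt _ _ _ _ le_rfl, ins_eq, ins_last, dn_succ f p]
    rcases hM with hM | hM
    · have h1 := hM (p + 1) le_rfl
      have h2 := hM p (by omega)
      rw [if_pos h1, if_neg (not_lt.mpr h2.le)]
      omega
    · have h1 := hM (p + 1) le_rfl
      have h2 := hM p (by omega)
      rw [if_neg (not_lt.mpr h1.le), if_pos h2]
      omega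
  | succ n hn ih =>
    have h2 := ih (by
      rcases hM with hM | hM
      · exact Or.inl (fun i hi => hM i (by omega))
      · exact Or.inr (fun i hi => hM i (by omega)))
    rw [dn_succ, ins_gt _ _ _ (n + 1) (by omega), ins_gt _ _ _ n hn, dn_succ f n]
    omega

/-- sum over all insertions of `M` and `-M` -/
theorem sum_ins (f : ℕ → ℤ) (M : ℤ) (n : ℕ) (hM : ∀ i ≤ n, |f i| < M) (g : ℕ → ℝ) :
    ∑ p ∈ Finset.range (n + 1), (g (dn (ins f (p + 1) M) (n + 1)) +
      g (dn (ins f (p + 1) (-M)) (n + 1))) =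
    (2 * (dn f n : ℝ) + 1) * g (dn f n) + (2 * n - 2 * (dn f n : ℝ) + 1) * g (dn f n + 1) := by
  have hM1 : ∀ i ≤ n, f i < M := fun i hi => (abs_lt.mp (hM i hi)).2
  have hM2 : ∀ i ≤ n, -M < f i := fun i hi => (abs_lt.mp (hM i hi)).1
  rw [Finset.sum_range_succ, ins_last, ins_last, if_neg (by have := hM1 n le_rfl; omega),
    if_pos (hM2 n le_rfl), add_zero]
  have h1 : ∀ q ∈ Finset.range n, (g (dn (ins f (q + 1) M) (n + 1)) +
      g (dn (ins f (q + 1) (-M)) (n + 1))) =
      2 * ((if f (q + 1) < f q then (1 : ℝ) else 0) * g (dn f n) +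
      (1 - (if f (q + 1) < f q then (1 : ℝ) else 0)) * g (dn f n + 1)) := by
    intro q hq
    rw [Finset.mem_range] at hq
    have h2 := ins_mid f M q n (by omega) (Or.inl hM1)
    have h3 := ins_mid f (-M) q n (by omega) (Or.inr hM2)
    by_cases hd : f (q + 1) < f q
    · rw [if_pos hd] at h2 h3 ⊢
      have h4 : dn (ins f (q + 1) M) (n + 1) = dn f n := by omega
      have h5 : dn (ins f (q + 1) (-M)) (n + 1) = dn f n := by omega
      rw [h4, h5]
      ring
    · rw [if_neg hd] at h2 h3 ⊢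
      have h4 : dn (ins f (q + 1) M) (n + 1) = dn f n + 1 := by omega
      have h5 : dn (ins f (q + 1) (-M)) (n + 1) = dn f n + 1 := by omega
      rw [h4, h5]
      ring
  rw [Finset.sum_congr rfl h1, ← Finset.mul_sum, Finset.sum_add_distrib, ← Finset.sum_mul,
    ← Finset.sum_mul, Finset.sum_sub_distrib]
  have h5 : ∑ q ∈ Finset.range n, (if f (q + 1) < f q then (1 : ℝ) else 0) = dn f n := by
    unfold dn
    push_cast
    rfl
  rw [h5]
  simp only [Finset.sum_const, Finset.card_range, nsmul_eq_mul, mul_one]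
  ring

/-- signed permutations of `n` letters -/
abbrev SP (n : ℕ) := Equiv.Perm (Fin n) × (Fin n → Bool)

/-- the word `w(0) = 0, w(1), …, w(n)` of a signed permutation -/
def word {n : ℕ} (w : SP n) (i : ℕ) : ℤ :=
  if h : 0 < i ∧ i ≤ n then
    (if w.2 ⟨i - 1, by omega⟩ then -((w.1 ⟨i - 1, by omega⟩ : ℕ) + 1 : ℤ)
      else ((w.1 ⟨i - 1, by omega⟩ : ℕ) + 1 : ℤ))
  else 0

theorem word_zero {n : ℕ} (w : SP n) : word w 0 = 0 := by unfold word; simp

theorem word_succ {n : ℕ} (w : SP n) (i : Fin n) :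
    word w (i.val + 1) = if w.2 i then -((w.1 i : ℕ) + 1 : ℤ) else ((w.1 i : ℕ) + 1 : ℤ) := by
  unfold word
  rw [dif_pos ⟨by omega, by have := i.2; omega⟩]
  simp

/-- the number of type B descents -/
def desB {n : ℕ} (w : SP n) : ℕ := dn (word w) n

theorem word_abs {n : ℕ} (w : SP n) (i : ℕ) (hi : i ≤ n) : |word w i| < (n : ℤ) + 1 := by
  rcases Nat.eq_zero_or_pos i with h | h
  · rw [h, word_zero, abs_zero]; omega
  · have h1 := word_succ w ⟨i - 1, by omega⟩
    have h2 : i - 1 + 1 = i := by omega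
    simp only [h2] at h1
    rw [h1]
    have h3 := (w.1 ⟨i - 1, by omega⟩).2
    split_ifs
    · rw [abs_neg, abs_of_nonneg (by omega)]; omega
    · rw [abs_of_nonneg (by omega)]; omega

/-- insertion of the largest value at the place `p` -/
def Ph {n : ℕ} (p : Fin (n + 1)) (τ : Equiv.Perm (Fin n)) : Equiv.Perm (Fin (n + 1)) :=
  (finSuccEquiv' p).trans ((Equiv.optionCongr τ).trans (finSuccEquiv' (Fin.last n)).symm)

theorem Ph_self {n : ℕ} (p : Fin (n + 1)) (τ : Equiv.Perm (Fin n)) :
    Ph p τ p = Fin.last n := by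
  simp [Ph]

theorem Ph_succAbove {n : ℕ} (p : Fin (n + 1)) (τ : Equiv.Perm (Fin n)) (i : Fin n) :
    Ph p τ (p.succAbove i) = (τ i).castSucc := by
  simp [Ph]

/-- insertion for signed permutations -/
def Ins {n : ℕ} (x : (Fin (n + 1) × Bool) × SP n) : SP (n + 1) :=
  (Ph x.1.1 x.2.1, Fin.insertNth x.1.1 x.1.2 x.2.2)

theorem Ins_bij {n : ℕ} : Function.Bijective (Ins (n := n)) := by
  rw [Fintype.bijective_iff_injective_and_card]
  constructor
  · rintro ⟨⟨p, b⟩, ⟨τ, s⟩⟩ ⟨⟨p', b'⟩, ⟨τ', s'⟩⟩ h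
    have hA : Ph p τ = Ph p' τ' := congrArg Prod.fst h
    have hB : (Fin.insertNth p b s : Fin (n + 1) → Bool) = Fin.insertNth p' b' s' :=
      congrArg Prod.snd h
    have h1 : p = p' := by
      apply (Ph p τ).injective
      rw [Ph_self, hA, Ph_self]
    subst h1
    have h2 : b = b' := by
      have := congrFun hB p
      simpa using this
    have h3 : s = s' := by
      funext i
      have := congrFun hB (p.succAbove i)
      simpa using this
    have h4 : τ = τ' := by
      ext i
      have h5 := congrArg (fun e : Equiv.Perm (Fin (n + 1)) => (e (p.succAbove i)).val) hA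
      simp only [Ph_succAbove, Fin.val_castSucc] at h5
      exact h5
    rw [h2, h3, h4]
  · simp only [Fintype.card_prod, Fintype.card_perm, Fintype.card_fin, Fintype.card_bool,
      Fintype.card_fun, Nat.factorial_succ]
    ring

theorem word_Ins {n : ℕ} (p : Fin (n + 1)) (b : Bool) (w : SP n) (i : ℕ) (hi : i ≤ n + 1) :
    word (Ins ((p, b), w)) i =
      ins (word w) (p.val + 1) (if b then -((n : ℤ) + 1) else ((n : ℤ) + 1)) i := by
  rcases Nat.eq_zero_or_pos i with h0 | h0
  · rw [h0, word_zero, ins_lt _ _ _ _ (by omega), word_zero]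
  obtain ⟨j, rfl⟩ : ∃ j, i = j + 1 := ⟨i - 1, by omega⟩
  have e1 := word_succ (Ins ((p, b), w)) ⟨j, by omega⟩
  simp only at e1
  rw [e1]
  rcases lt_trichotomy j p.val with h | h | h
  · rw [ins_lt _ _ _ _ (by omega)]
    have hi' : j < n := by have := p.2; omega
    have h1 : p.succAbove ⟨j, hi'⟩ = ⟨j, by omega⟩ := by
      rw [Fin.succAbove_of_castSucc_lt]
      · rfl
      · exact h
    have h2 := word_succ w ⟨j, hi'⟩
    simp only at h2
    rw [h2, ← h1]
    simp only [Ins, Ph_succAbove, Fin.val_castSucc, Fin.insertNth_apply_succAbove]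
  · have h1 : (⟨j, by omega⟩ : Fin (n + 1)) = p := Fin.ext h
    rw [h1, h, ins_eq]
    simp only [Ins, Ph_self, Fin.insertNth_apply_same, Fin.val_last]
  · rw [ins_gt _ _ _ _ (by omega)]
    have hi' : j - 1 < n := by omega
    have h1 : p.succAbove ⟨j - 1, hi'⟩ = ⟨j, by omega⟩ := by
      rw [Fin.succAbove_of_le_castSucc]
      · apply Fin.ext
        simp only [Fin.val_succ]
        omega
      · rw [Fin.le_def]
        simp only [Fin.val_castSucc]
        omega
    have h2 := word_succ w ⟨j - 1, hi'⟩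
    simp only at h2
    have h3 : j = j - 1 + 1 := by omega
    have h4 : word w j = word w (j - 1 + 1) := by rw [← h3]
    rw [h4, h2, ← h1]
    simp only [Ins, Ph_succAbove, Fin.val_castSucc, Fin.insertNth_apply_succAbove]

theorem desB_Ins {n : ℕ} (p : Fin (n + 1)) (b : Bool) (w : SP n) :
    desB (Ins ((p, b), w)) =
      dn (ins (word w) (p.val + 1) (if b then -((n : ℤ) + 1) else ((n : ℤ) + 1))) (n + 1) := by
  unfold desB dn
  apply Finset.sum_congr rfl
  intro i hi
  rw [Finset.mem_range] at hi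
  rw [word_Ins p b w i (by omega), word_Ins p b w (i + 1) (by omega)]

/-- the functional recurrence of the type B Eulerian numbers -/
theorem sum_desB (n : ℕ) (g : ℕ → ℝ) :
    ∑ w : SP (n + 1), g (desB w) =
      ∑ w : SP n, ((2 * (desB w : ℝ) + 1) * g (desB w) +
        (2 * n - 2 * (desB w : ℝ) + 1) * g (desB w + 1)) := by
  rw [← Function.Bijective.sum_comp Ins_bij (fun w => g (desB w)), Fintype.sum_prod_type_right]
  apply Finset.sum_congr rfl
  intro w _
  have h := sum_ins (word w) ((n : ℤ) + 1) n (fun i hi => word_abs w i hi) g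
  unfold desB at *
  rw [← h, Fintype.sum_prod_type, Finset.sum_range]
  apply Finset.sum_congr rfl
  intro p _
  have e1 := desB_Ins p true w
  have e2 := desB_Ins p false w
  unfold desB at e1 e2
  rw [Fintype.sum_bool, e1, e2]
  simp only [if_true, Bool.false_eq_true, if_false]
  ring

end Q94.EB
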