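import Mathlib

/-!
Energy identity for bounded solutions of `(A w)' = g`, with `A` a bounded symmetric operator
without bounded inverse.
-/

open Set Filter Topology MeasureTheory intervalIntegral
open scoped RealInnerProductSpace

namespace Q94.EX

set_option linter.unusedSectionVars false

variable {H : Type*} [NormedAddCommGroup H] [InnerProductSpace ℝ H] [CompleteSpace H]

/-- bounded measurable functions are locally integrable -/
theorem locInt_of_bdd {f : ℝ → H} (hf : AEStronglyMeasurable f volume) {M : ℝ}
    (hM : ∀ᵐ t, ‖f t‖ ≤ M) : LocallyIntegrable f volume := by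
  have : MemLp f ⊤ volume := memLp_top_of_bound hf M hM
  exact this.locallyIntegrable le_top

theorem intInt_of_bdd {f : ℝ → H} (hf : AEStronglyMeasurable f volume) {M : ℝ}
    (hM : ∀ᵐ t, ‖f t‖ ≤ M) (a b : ℝ) : IntervalIntegrable f volume a b :=
  intervalIntegrable_iff.mpr
    (((locInt_of_bdd hf hM).integrableOn_isCompact isCompact_uIcc).mono_set uIoc_subset_uIcc)

theorem intInt_of_bdd' {f : ℝ → ℝ} (hf : AEStronglyMeasurable f volume) {M : ℝ}
    (hM : ∀ᵐ t, ‖f t‖ ≤ M) (a b : ℝ) : IntervalIntegrable f volume a b := by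
  have : MemLp f ⊤ volume := memLp_top_of_bound hf M hM
  exact intervalIntegrable_iff.mpr
    (((this.locallyIntegrable le_top).integrableOn_isCompact isCompact_uIcc).mono_set
      uIoc_subset_uIcc)

/-- The energy density. -/
noncomputable def en (A : H →L[ℝ] H) (w : ℝ → H) (t : ℝ) : ℝ := ⟪A (w t), w t⟫

variable {A : H →L[ℝ] H} {w g : ℝ → H} {M G : ℝ}

theorem en_meas (hw : AEStronglyMeasurable w volume) : AEStronglyMeasurable (en A w) volume := by
  unfold en
  exact (A.continuous.comp_aestronglyMeasurable hw).inner hw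

theorem en_le (t : ℝ) : |en A w t| ≤ ‖A‖ * ‖w t‖ ^ 2 := by
  unfold en
  refine (abs_real_inner_le_norm _ _).trans ?_
  have := A.le_opNorm (w t)
  nlinarith [norm_nonneg (w t)]

theorem en_bdd (hM : ∀ᵐ t, ‖w t‖ ≤ M) : ∀ᵐ t, ‖en A w t‖ ≤ ‖A‖ * M ^ 2 := by
  filter_upwards [hM] with t ht
  rw [Real.norm_eq_abs]
  refine (en_le t).trans ?_
  have := norm_nonneg (w t)
  gcongr

/-- shift of a null set statement -/
theorem ae_shift {p : ℝ → Prop} (h : ∀ᵐ t, p t) (c : ℝ) : ∀ᵐ t, p (t + c) :=
  (measurePreserving_add_right volume c).quasiMeasurePreserving.ae h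

/-- step sizes -/
noncomputable def hn (n : ℕ) : ℝ := 1 / ((n : ℝ) + 1)

theorem hn_pos (n : ℕ) : 0 < hn n := by unfold hn; positivity
theorem hn_tendsto : Tendsto hn atTop (𝓝 0) := tendsto_one_div_add_atTop_nhds_zero_nat

theorem slope_pos {E : Type*} [NormedAddCommGroup E] [NormedSpace ℝ E] {F : ℝ → E} {F' : E}
    {x : ℝ} (hF : HasDerivAt F F' x) :
    Tendsto (fun n => (hn n)⁻¹ • (F (x + hn n) - F x)) atTop (𝓝 F') := by
  have h1 := hF.tendsto_slope_zero
  have h2 : Tendsto hn atTop (𝓝[≠] 0) :=
    tendsto_nhdsWithin_iff.mpr ⟨hn_tendsto, Eventually.of_forall fun n => (hn_pos n).ne'⟩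
  exact h1.comp h2

theorem slope_neg {E : Type*} [NormedAddCommGroup E] [NormedSpace ℝ E] {F : ℝ → E} {F' : E}
    {x : ℝ} (hF : HasDerivAt F F' x) :
    Tendsto (fun n => (hn n)⁻¹ • (F x - F (x - hn n))) atTop (𝓝 F') := by
  have h1 := hF.tendsto_slope_zero
  have h2 : Tendsto (fun n => -hn n) atTop (𝓝[≠] 0) := by
    refine tendsto_nhdsWithin_iff.mpr ⟨by simpa using hn_tendsto.neg, ?_⟩
    exact Eventually.of_forall fun n => neg_ne_zero.mpr (hn_pos n).ne'
  refine (h1.comp h2).congr ?_
  intro n
  simp only [Function.comp_apply]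
  rw [inv_neg, neg_smul, ← smul_neg, neg_sub, ← sub_eq_add_neg]

/-- The energy identity. -/
theorem energy (hA : ∀ x y, ⟪A x, y⟫ = ⟪x, A y⟫)
    (hw : AEStronglyMeasurable w volume) (hg : AEStronglyMeasurable g volume)
    (hM : ∀ᵐ t, ‖w t‖ ≤ M) (hG : ∀ᵐ t, ‖g t‖ ≤ G) {y0 : H}
    (hy : ∀ᵐ t, 0 ≤ t → A (w t) = y0 + ∫ r in (0 : ℝ)..t, g r) :
    ∀ᵐ s, 0 ≤ s → ∀ᵐ t, s ≤ t → en A w t - en A w s = 2 * ∫ r in s..t, ⟪g r, w r⟫ := by
  have hq : LocallyIntegrable (en A w) volume :=
    (memLp_top_of_bound (en_meas hw) _ (en_bdd hM)).locallyIntegrable le_top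
  have hgl := locInt_of_bdd hg hG
  have hgi := intInt_of_bdd hg hG
  have hqi := intInt_of_bdd' (en_meas (A := A) hw) (en_bdd hM)
  have hM0 : 0 ≤ M := by
    obtain ⟨t, ht⟩ := hM.exists
    exact (norm_nonneg _).trans ht
  have hG0 : 0 ≤ G := by
    obtain ⟨t, ht⟩ := hG.exists
    exact (norm_nonneg _).trans ht
  have hLq := _root_.LocallyIntegrable.ae_hasDerivAt_integral hq
  have hLg := _root_.LocallyIntegrable.ae_hasDerivAt_integral hgl
  filter_upwards [hLq] with s hs hs0
  filter_upwards [hLq] with t ht hst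
  -- the averaged function
  set av : ℝ → ℝ → H := fun h r => h⁻¹ • ∫ x in r..(r + h), g x with hav
  have hav_bd : ∀ h : ℝ, 0 < h → ∀ r, ‖av h r‖ ≤ G := by
    intro h hh r
    simp only [hav]
    rw [norm_smul, norm_inv, Real.norm_eq_abs, abs_of_pos hh, inv_mul_le_iff₀ hh]
    have := intervalIntegral.norm_integral_le_of_norm_le_const_ae (a := r) (b := r + h) (f := g)
      (C := G) (by filter_upwards [hG] with x hx _ using hx)
    rw [add_sub_cancel_left, abs_of_pos hh] at this
    linarith
  have hav_cont : ∀ h, Continuous (av h) := by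
    intro h
    simp only [hav]
    have hc : Continuous fun x => ∫ r in (0 : ℝ)..x, g r :=
      intervalIntegral.continuous_primitive hgi 0
    have : (fun r => h⁻¹ • ∫ x in r..(r + h), g x) =
        fun r => h⁻¹ • ((∫ x in (0 : ℝ)..(r + h), g x) - ∫ x in (0 : ℝ)..r, g x) := by
      funext r
      rw [intervalIntegral.integral_interval_sub_left (hgi _ _) (hgi _ _)]
    rw [this]
    exact ((hc.comp (continuous_id.add continuous_const)).sub hc).const_smul _
  -- identity for fixed h
  have key : ∀ h : ℝ, 0 < h →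
      h⁻¹ * ((∫ r in t..(t + h), en A w r) - ∫ r in s..(s + h), en A w r) =
      (∫ r in s..t, ⟪av h r, w r⟫) + ∫ r in s..t, ⟪av h r, w (r + h)⟫ := by
    intro h hh
    have e1 : (∫ r in t..(t + h), en A w r) - ∫ r in s..(s + h), en A w r =
        (∫ r in s..t, en A w (r + h)) - ∫ r in s..t, en A w r := by
      rw [intervalIntegral.integral_comp_add_right (fun r => en A w r) h]
      have a1 := intervalIntegral.integral_add_adjacent_intervals (hqi s (s + h)) (hqi (s + h) (t + h))
      have a2 := intervalIntegral.integral_add_adjacent_intervals (hqi s t) (hqi t (t + h))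
      linarith
    have m1 : AEStronglyMeasurable (fun r => w (r + h)) volume :=
      hw.comp_quasiMeasurePreserving
        (measurePreserving_add_right volume h).quasiMeasurePreserving
    have b1 : ∀ᵐ r, ‖⟪av h r, w r⟫‖ ≤ G * M := by
      filter_upwards [hM] with r hr
      rw [Real.norm_eq_abs]
      refine (abs_real_inner_le_norm _ _).trans ?_
      have := hav_bd h hh r
      gcongr
    have b2 : ∀ᵐ r, ‖⟪av h r, w (r + h)⟫‖ ≤ G * M := by
      filter_upwards [ae_shift hM h] with r hr
      rw [Real.norm_eq_abs]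
      refine (abs_real_inner_le_norm _ _).trans ?_
      have := hav_bd h hh r
      gcongr
    have i1 : IntervalIntegrable (fun r => ⟪av h r, w r⟫) volume s t :=
      intInt_of_bdd' ((hav_cont h).aestronglyMeasurable.inner hw) b1 s t
    have i2 : IntervalIntegrable (fun r => ⟪av h r, w (r + h)⟫) volume s t :=
      intInt_of_bdd' ((hav_cont h).aestronglyMeasurable.inner m1) b2 s t
    have i3 : IntervalIntegrable (fun r => en A w (r + h)) volume s t :=
      intInt_of_bdd' ((en_meas (A := A) hw).comp_quasiMeasurePreserving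
        (measurePreserving_add_right volume h).quasiMeasurePreserving) (ae_shift (en_bdd hM) h) s t
    rw [e1, ← intervalIntegral.integral_sub i3 (hqi s t), ← intervalIntegral.integral_add i1 i2,
      ← intervalIntegral.integral_const_mul]
    refine intervalIntegral.integral_congr_ae ?_
    filter_upwards [hy, ae_shift hy h] with r hr hrh hrs
    rw [uIoc_of_le hst] at hrs
    have hr0 : 0 ≤ r := hs0.trans hrs.1.le
    have c1 := hr hr0
    have c2 := hrh (by linarith)
    have c3 : A (w (r + h)) - A (w r) = h • av h r := by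
      rw [c1, c2, hav]
      simp only
      rw [smul_smul, mul_inv_cancel₀ hh.ne', one_smul, add_sub_add_left_eq_sub,
        intervalIntegral.integral_interval_sub_left (hgi _ _) (hgi _ _)]
    have c4 : en A w (r + h) - en A w r = ⟪A (w (r + h)) - A (w r), w (r + h) + w r⟫ := by
      unfold en
      rw [inner_sub_left, inner_add_right, inner_add_right]
      have : ⟪A (w (r + h)), w r⟫ = ⟪A (w r), w (r + h)⟫ := by
        rw [hA, real_inner_comm]
      linarith
    rw [c4, c3, inner_smul_left, inner_add_right]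
    simp only [conj_trivial]
    field_simp
    ring
  -- limits along h = 1/(n+1)
  have hn0 : ∀ n, 0 < hn n := hn_pos
  have hnt : Tendsto hn atTop (𝓝 0) := hn_tendsto
  -- left side
  have L1 : Tendsto (fun n => (hn n)⁻¹ * ((∫ r in t..(t + hn n), en A w r) -
      ∫ r in s..(s + hn n), en A w r)) atTop (𝓝 (en A w t - en A w s)) := by
    have k1 := slope_pos (ht 0)
    have k2 := slope_pos (hs 0)
    refine (k1.sub k2).congr ?_
    intro n
    rw [intervalIntegral.integral_interval_sub_left (hqi _ _) (hqi _ _),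
      intervalIntegral.integral_interval_sub_left (hqi _ _) (hqi _ _)]
    simp only [smul_eq_mul]
    ring
  -- a.e. convergence of the averages
  have avlim : ∀ᵐ r, Tendsto (fun n => av (hn n) r) atTop (𝓝 (g r)) := by
    filter_upwards [hLg] with r hr
    refine (slope_pos (hr 0)).congr ?_
    intro n
    simp only [hav]
    rw [intervalIntegral.integral_interval_sub_left (hgi _ _) (hgi _ _)]
  have avlim' : ∀ᵐ r, Tendsto (fun n => av (hn n) (r - hn n)) atTop (𝓝 (g r)) := by
    filter_upwards [hLg] with r hr
    refine (slope_neg (hr 0)).congr ?_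
    intro n
    simp only [hav]
    rw [intervalIntegral.integral_interval_sub_left (hgi _ _) (hgi _ _), sub_add_cancel]
  have R1 : Tendsto (fun n => ∫ r in s..t, ⟪av (hn n) r, w r⟫) atTop
      (𝓝 (∫ r in s..t, ⟪g r, w r⟫)) := by
    refine intervalIntegral.tendsto_integral_filter_of_dominated_convergence (fun _ => G * M) ?_ ?_
      ?_ ?_
    · exact Eventually.of_forall fun n =>
        ((hav_cont _).aestronglyMeasurable.inner hw).restrict
    · refine Eventually.of_forall fun n => ?_
      filter_upwards [hM] with r hr _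
      rw [Real.norm_eq_abs]
      refine (abs_real_inner_le_norm _ _).trans ?_
      have := hav_bd (hn n) (hn0 n) r
      gcongr
    · exact intervalIntegrable_const
    · filter_upwards [avlim] with r hr _
      exact hr.inner tendsto_const_nhds
  have R2 : Tendsto (fun n => ∫ r in s..t, ⟪av (hn n) (r - hn n), w r⟫) atTop
      (𝓝 (∫ r in s..t, ⟪g r, w r⟫)) := by
    refine intervalIntegral.tendsto_integral_filter_of_dominated_convergence (fun _ => G * M) ?_ ?_
      ?_ ?_
    · exact Eventually.of_forall fun n =>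
        ((((hav_cont _).comp (continuous_id.sub continuous_const)).aestronglyMeasurable).inner
          hw).restrict
    · refine Eventually.of_forall fun n => ?_
      filter_upwards [hM] with r hr _
      rw [Real.norm_eq_abs]
      refine (abs_real_inner_le_norm _ _).trans ?_
      have := hav_bd (hn n) (hn0 n) (r - hn n)
      gcongr
    · exact intervalIntegrable_const
    · filter_upwards [avlim'] with r hr _
      exact hr.inner tendsto_const_nhds
  -- the shifted integral
  have sh : ∀ n, |(∫ r in s..t, ⟪av (hn n) r, w (r + hn n)⟫) -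
      ∫ r in s..t, ⟪av (hn n) (r - hn n), w r⟫| ≤ 2 * (G * M) * hn n := by
    intro n
    set f : ℝ → ℝ := fun r => ⟪av (hn n) (r - hn n), w r⟫ with hf
    have fb : ∀ᵐ r, ‖f r‖ ≤ G * M := by
      filter_upwards [hM] with r hr
      rw [Real.norm_eq_abs]
      refine (abs_real_inner_le_norm _ _).trans ?_
      have := hav_bd (hn n) (hn0 n) (r - hn n)
      gcongr
    have fm : AEStronglyMeasurable f volume :=
      (((hav_cont _).comp (continuous_id.sub continuous_const)).aestronglyMeasurable).inner hw
    have fi := intInt_of_bdd' fm fb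
    have e1 : ∫ r in s..t, ⟪av (hn n) r, w (r + hn n)⟫ = ∫ r in (s + hn n)..(t + hn n), f r := by
      rw [← intervalIntegral.integral_comp_add_right (fun r => f r) (hn n)]
      refine intervalIntegral.integral_congr fun r _ => ?_
      simp only [hf, add_sub_cancel_right]
    rw [e1]
    have a1 := intervalIntegral.integral_add_adjacent_intervals (fi s (s + hn n))
      (fi (s + hn n) (t + hn n))
    have a2 := intervalIntegral.integral_add_adjacent_intervals (fi s t) (fi t (t + hn n))
    have b1 := intervalIntegral.norm_integral_le_of_norm_le_const_ae (a := s) (b := s + hn n)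
      (f := f) (C := G * M) (by filter_upwards [fb] with x hx _ using hx)
    have b2 := intervalIntegral.norm_integral_le_of_norm_le_const_ae (a := t) (b := t + hn n)
      (f := f) (C := G * M) (by filter_upwards [fb] with x hx _ using hx)
    rw [add_sub_cancel_left, abs_of_pos (hn0 n), Real.norm_eq_abs] at b1 b2
    have e2 : (∫ r in (s + hn n)..(t + hn n), f r) - ∫ r in s..t, f r =
        (∫ r in t..(t + hn n), f r) - ∫ r in s..(s + hn n), f r := by linarith
    rw [e2]
    refine (abs_sub _ _).trans ?_
    linarith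
  have R3 : Tendsto (fun n => ∫ r in s..t, ⟪av (hn n) r, w (r + hn n)⟫) atTop
      (𝓝 (∫ r in s..t, ⟪g r, w r⟫)) := by
    have d : Tendsto (fun n => (∫ r in s..t, ⟪av (hn n) r, w (r + hn n)⟫) -
        ∫ r in s..t, ⟪av (hn n) (r - hn n), w r⟫) atTop (𝓝 0) := by
      refine squeeze_zero_norm (fun n => (Real.norm_eq_abs _).le.trans (sh n)) ?_
      simpa using hnt.const_mul (2 * (G * M))
    have := d.add R2
    simpa using this
  have fin := tendsto_nhds_unique L1 ((R1.add R3).congr fun n => (key (hn n) (hn0 n)).symm)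
  rw [fin]; ring

end Q94.EX
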