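import Pool.Agent.Q94.EXA

/-!
Square integrability and exponential decay of the tail energy for coercive pairs `(w, g)`.
-/

open Set Filter Topology MeasureTheory intervalIntegral
open scoped RealInnerProductSpace

namespace Q94.EX

set_option linter.unusedSectionVars false

variable {H : Type*} [NormedAddCommGroup H] [InnerProductSpace ℝ H] [CompleteSpace H]

theorem ae_exists_Icc {p : ℝ → Prop} (h : ∀ᵐ t, p t) {a b : ℝ} (hab : a < b) :
    ∃ t, a ≤ t ∧ t ≤ b ∧ p t := by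
  by_contra hcon
  push Not at hcon
  have h1 : Icc a b ⊆ {t | ¬ p t} := fun t ht => hcon t ht.1 ht.2
  have h2 : volume (Icc a b) = 0 := measure_mono_null h1 h
  rw [Real.volume_Icc, ENNReal.ofReal_eq_zero] at h2
  linarith

theorem ae_exists_ge {p : ℝ → Prop} (h : ∀ᵐ t, p t) (a : ℝ) : ∃ t, a ≤ t ∧ p t := by
  obtain ⟨t, ht, _, hp⟩ := ae_exists_Icc h (show a < a + 1 by linarith)
  exact ⟨t, ht, hp⟩

variable {A : H →L[ℝ] H} {w g : ℝ → H} {M G c : ℝ}

/-- the tail energy -/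
noncomputable def tail (w : ℝ → H) (τ : ℝ) : ℝ := ∫ r in Ioi τ, ‖w r‖ ^ 2

theorem sq_meas (hw : AEStronglyMeasurable w volume) :
    AEStronglyMeasurable (fun r => ‖w r‖ ^ 2) volume := hw.norm.pow 2

theorem sq_bdd (hM : ∀ᵐ t, ‖w t‖ ≤ M) : ∀ᵐ t, ‖‖w t‖ ^ 2‖ ≤ M ^ 2 := by
  filter_upwards [hM] with t ht
  rw [Real.norm_eq_abs, abs_of_nonneg (by positivity)]
  have := norm_nonneg (w t)
  gcongr

theorem sq_intInt (hw : AEStronglyMeasurable w volume) (hM : ∀ᵐ t, ‖w t‖ ≤ M) (a b : ℝ) :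
    IntervalIntegrable (fun r => ‖w r‖ ^ 2) volume a b :=
  intInt_of_bdd' (sq_meas hw) (sq_bdd hM) a b

/-- The coercive estimate. -/
theorem coercive (hA : ∀ x y, ⟪A x, y⟫ = ⟪x, A y⟫)
    (hw : AEStronglyMeasurable w volume) (hg : AEStronglyMeasurable g volume)
    (hM : ∀ᵐ t, ‖w t‖ ≤ M) (hG : ∀ᵐ t, ‖g t‖ ≤ G) {y0 : H}
    (hy : ∀ᵐ t, 0 ≤ t → A (w t) = y0 + ∫ r in (0 : ℝ)..t, g r) (hc : 0 < c)
    (hd : ∀ᵐ r, 0 ≤ r → ⟪g r, w r⟫ ≤ -c * ‖w r‖ ^ 2) :
    IntegrableOn (fun r => ‖w r‖ ^ 2) (Ioi 0) ∧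
      ∀ᵐ s, 0 ≤ s → 2 * c * tail w s ≤ en A w s := by
  have hE := energy hA hw hg hM hG hy
  have hsi := sq_intInt hw hM
  have gw_meas : AEStronglyMeasurable (fun r => ⟪g r, w r⟫) volume := hg.inner hw
  have gw_bdd : ∀ᵐ r, ‖⟪g r, w r⟫‖ ≤ G * M := by
    filter_upwards [hM, hG] with r h1 h2
    rw [Real.norm_eq_abs]
    refine (abs_real_inner_le_norm _ _).trans ?_
    exact mul_le_mul h2 h1 (norm_nonneg _) ((norm_nonneg _).trans h2)
  -- the energy inequality
  have hI : ∀ᵐ s, 0 ≤ s → ∀ᵐ t, s ≤ t → 2 * c * ∫ r in s..t, ‖w r‖ ^ 2 ≤ en A w s - en A w t := by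
    filter_upwards [hE] with s hs hs0
    filter_upwards [hs hs0] with t ht hst
    have h1 := ht hst
    have h2 : ∫ r in s..t, ⟪g r, w r⟫ ≤ ∫ r in s..t, -c * ‖w r‖ ^ 2 := by
      refine intervalIntegral.integral_mono_ae_restrict hst
        (intInt_of_bdd' gw_meas gw_bdd s t) ((hsi s t).const_mul _) ?_
      refine (ae_restrict_iff' measurableSet_Icc).mpr ?_
      filter_upwards [hd] with r hr hrs
      exact hr (hs0.trans hrs.1)
    rw [intervalIntegral.integral_const_mul] at h2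
    linarith
  -- integrability
  have hM0 : 0 ≤ M := by
    obtain ⟨t, ht⟩ := hM.exists
    exact (norm_nonneg _).trans ht
  have hint : ∀ᵐ s, 0 ≤ s → IntegrableOn (fun r => ‖w r‖ ^ 2) (Ioi s) := by
    filter_upwards [hI, en_bdd (A := A) hM] with s hs hes hs0
    have h1 := hs hs0
    have h2 : ∀ᵐ t, s ≤ t → ∫ r in s..t, ‖w r‖ ^ 2 ≤ ‖A‖ * M ^ 2 / c := by
      filter_upwards [h1, en_bdd (A := A) hM] with t ht het hst
      have h3 := ht hst
      rw [Real.norm_eq_abs] at hes het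
      have h4 := (abs_le.mp hes).2
      have h5 := (abs_le.mp het).1
      rw [le_div_iff₀ hc]
      linarith
    have hb : ∀ n : ℕ, ∃ t, s + n ≤ t ∧ (s ≤ t → ∫ r in s..t, ‖w r‖ ^ 2 ≤ ‖A‖ * M ^ 2 / c) :=
      fun n => ae_exists_ge h2 _
    choose b hb1 hb2 using hb
    have hbt : Tendsto b atTop atTop := by
      refine tendsto_atTop_mono hb1 ?_
      exact tendsto_atTop_add_const_left _ _ tendsto_natCast_atTop_atTop
    refine integrableOn_Ioi_of_intervalIntegral_norm_bounded (‖A‖ * M ^ 2 / c) s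
      (fun n => (hsi s (b n)).1) hbt (Eventually.of_forall fun n => ?_)
    have hsb : s ≤ b n := by
      have := hb1 n
      have : (0 : ℝ) ≤ n := Nat.cast_nonneg n
      linarith
    refine le_trans (le_of_eq ?_) (hb2 n hsb)
    refine intervalIntegral.integral_congr fun r _ => ?_
    rw [Real.norm_eq_abs, abs_of_nonneg (by positivity)]
  have hint0 : IntegrableOn (fun r => ‖w r‖ ^ 2) (Ioi 0) := by
    obtain ⟨s, hs0, hs⟩ := ae_exists_ge hint 0
    have h1 := hs hs0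
    have h2 : IntegrableOn (fun r => ‖w r‖ ^ 2) (Ioc 0 s) := (hsi 0 s).1
    rw [← Ioc_union_Ioi_eq_Ioi hs0]
    exact h2.union h1
  refine ⟨hint0, ?_⟩
  -- nonnegativity of the energy
  have hnn : ∀ᵐ s, 0 ≤ s → 0 ≤ en A w s := by
    filter_upwards [hI] with s hs hs0
    by_contra hneg
    push Not at hneg
    have h1 : ∀ᵐ t, s ≤ t → -en A w s ≤ ‖A‖ * ‖w t‖ ^ 2 := by
      filter_upwards [hs hs0] with t ht hst
      have h2 := ht hst
      have h3 : 0 ≤ ∫ r in s..t, ‖w r‖ ^ 2 :=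
        intervalIntegral.integral_nonneg hst fun r _ => by positivity
      have h4 : 0 ≤ 2 * c * ∫ r in s..t, ‖w r‖ ^ 2 := by positivity
      have h5 := en_le (A := A) (w := w) t
      have h6 := neg_abs_le (en A w t)
      linarith
    have hApos : 0 < ‖A‖ := by
      obtain ⟨t, ht, hp⟩ := ae_exists_ge h1 s
      have := hp ht
      by_contra hcon
      have hz : ‖A‖ = 0 := le_antisymm (not_lt.mp hcon) (norm_nonneg _)
      rw [hz, zero_mul] at this
      linarith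
    set η := -en A w s / ‖A‖ with hη
    have hη0 : 0 < η := div_pos (by linarith) hApos
    have hmeas : volume.restrict (Ioi s) {x | η ≤ ‖‖w x‖ ^ 2‖} < ⊤ :=
      (hint0.mono_set (Ioi_subset_Ioi hs0)).measure_norm_ge_lt_top hη0
    have hfull : ∀ᵐ x ∂(volume.restrict (Ioi s)), x ∈ {x | η ≤ ‖‖w x‖ ^ 2‖} := by
      refine (ae_restrict_iff' measurableSet_Ioi).mpr ?_
      filter_upwards [h1] with x hx hxs
      have h7 := hx (le_of_lt hxs)
      show η ≤ ‖‖w x‖ ^ 2‖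
      rw [Real.norm_eq_abs, abs_of_nonneg (by positivity), hη, div_le_iff₀ hApos]
      linarith
    have h8 : volume.restrict (Ioi s) {x | η ≤ ‖‖w x‖ ^ 2‖} = volume.restrict (Ioi s) univ := by
      refine measure_congr ?_
      filter_upwards [hfull] with x hx
      exact propext ⟨fun _ => trivial, fun _ => hx⟩
    rw [h8, Measure.restrict_apply_univ, Real.volume_Ioi] at hmeas
    exact lt_irrefl _ hmeas
  -- the tail estimate
  filter_upwards [hI] with s hs hs0
  have h1 := hs hs0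
  have h2 : ∀ᵐ t, s ≤ t → 2 * c * ∫ r in s..t, ‖w r‖ ^ 2 ≤ en A w s := by
    filter_upwards [h1, hnn] with t ht htn hst
    have := ht hst
    have := htn (hs0.trans hst)
    linarith
  have hb : ∀ n : ℕ, ∃ t, s + n ≤ t ∧ (s ≤ t → 2 * c * ∫ r in s..t, ‖w r‖ ^ 2 ≤ en A w s) :=
    fun n => ae_exists_ge h2 _
  choose b hb1 hb2 using hb
  have hbt : Tendsto b atTop atTop := by
    refine tendsto_atTop_mono hb1 ?_
    exact tendsto_atTop_add_const_left _ _ tendsto_natCast_atTop_atTop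
  have hlim := intervalIntegral_tendsto_integral_Ioi s (hint0.mono_set (Ioi_subset_Ioi hs0)) hbt
  have hlim2 := hlim.const_mul (2 * c)
  refine le_of_tendsto hlim2 (Eventually.of_forall fun n => hb2 n ?_)
  have := hb1 n
  have : (0 : ℝ) ≤ n := Nat.cast_nonneg n
  linarith

theorem tail_anti (hi : IntegrableOn (fun r => ‖w r‖ ^ 2) (Ioi 0)) {a b : ℝ} (ha : 0 ≤ a)
    (hab : a ≤ b) : tail w b ≤ tail w a := by
  unfold tail
  refine setIntegral_mono_set (hi.mono_set (Ioi_subset_Ioi ha)) ?_ ?_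
  · exact Eventually.of_forall fun r => by positivity
  · exact (Ioi_subset_Ioi hab).eventuallyLE

theorem tail_nonneg (a : ℝ) : 0 ≤ tail w a := by
  unfold tail
  exact setIntegral_nonneg measurableSet_Ioi fun r _ => by positivity

theorem int_le_tail (hi : IntegrableOn (fun r => ‖w r‖ ^ 2) (Ioi 0)) {a b : ℝ} (ha : 0 ≤ a)
    (hab : a ≤ b) : ∫ r in a..b, ‖w r‖ ^ 2 ≤ tail w a := by
  rw [intervalIntegral.integral_of_le hab]
  unfold tail
  refine setIntegral_mono_set (hi.mono_set (Ioi_subset_Ioi ha)) ?_ ?_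
  · exact Eventually.of_forall fun r => by positivity
  · exact Ioc_subset_Ioi_self.eventuallyLE

/-- One step of the decay. -/
theorem tail_step (hw : AEStronglyMeasurable w volume) (hM : ∀ᵐ t, ‖w t‖ ≤ M)
    (hi : IntegrableOn (fun r => ‖w r‖ ^ 2) (Ioi 0)) (hc : 0 < c)
    (h : ∀ᵐ s, 0 ≤ s → 2 * c * tail w s ≤ en A w s) {τ L : ℝ} (hτ : 0 ≤ τ) (hL : 0 < L)
    (hcL : ‖A‖ ≤ c * L) : tail w (τ + L) ≤ tail w τ / 2 := by
  have h1 : ∫ r in τ..(τ + L), 2 * c * tail w (τ + L) ≤ ∫ r in τ..(τ + L), ‖A‖ * ‖w r‖ ^ 2 := by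
    refine intervalIntegral.integral_mono_ae_restrict (by linarith) intervalIntegrable_const
      ((sq_intInt hw hM _ _).const_mul _) ?_
    refine (ae_restrict_iff' measurableSet_Icc).mpr ?_
    filter_upwards [h] with r hr hrs
    have hr0 : 0 ≤ r := hτ.trans hrs.1
    have h2 := hr hr0
    have h3 := (le_abs_self _).trans (en_le (A := A) (w := w) r)
    have h4 := tail_anti hi hr0 hrs.2
    have h5 : 2 * c * tail w (τ + L) ≤ 2 * c * tail w r := by gcongr
    linarith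
  rw [intervalIntegral.integral_const, intervalIntegral.integral_const_mul, smul_eq_mul,
    add_sub_cancel_left] at h1
  have h6 := int_le_tail hi hτ (show τ ≤ τ + L by linarith)
  have h7 : ‖A‖ * ∫ r in τ..(τ + L), ‖w r‖ ^ 2 ≤ (c * L) * tail w τ :=
    mul_le_mul hcL h6 (intervalIntegral.integral_nonneg (by linarith) fun r _ => by positivity)
      (by positivity)
  have h8 : 0 < c * L := mul_pos hc hL
  have h9 : (c * L) * (2 * tail w (τ + L)) ≤ (c * L) * tail w τ := by linarith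
  have := le_of_mul_le_mul_left h9 h8
  linarith

/-- Exponential decay of the tail. -/
theorem tail_exp (hw : AEStronglyMeasurable w volume) (hM : ∀ᵐ t, ‖w t‖ ≤ M)
    (hi : IntegrableOn (fun r => ‖w r‖ ^ 2) (Ioi 0)) (hc : 0 < c)
    (h : ∀ᵐ s, 0 ≤ s → 2 * c * tail w s ≤ en A w s) {L : ℝ} (hL : 0 < L)
    (hcL : ‖A‖ ≤ c * L) {τ : ℝ} (hτ : 1 ≤ τ) :
    tail w τ ≤ (‖A‖ * M ^ 2 / c) * Real.exp (-(Real.log 2 / L) * (τ - 1)) := by
  have hM0 : 0 ≤ M := by
    obtain ⟨t, ht⟩ := hM.exists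
    exact (norm_nonneg _).trans ht
  -- value at 1
  have h1 : tail w 1 ≤ ‖A‖ * M ^ 2 / (2 * c) := by
    have h2 : ∀ᵐ s, 0 ≤ s → 2 * c * tail w s ≤ ‖A‖ * M ^ 2 := by
      filter_upwards [h, en_bdd (A := A) hM] with s hs hes hs0
      exact (hs hs0).trans ((le_abs_self _).trans hes)
    obtain ⟨s, hs0, hs1, hs⟩ := ae_exists_Icc h2 (show (0 : ℝ) < 1 by norm_num)
    have h3 := hs hs0
    have h4 := tail_anti hi hs0 hs1
    rw [le_div_iff₀ (by positivity)]
    have h5 : tail w 1 * (2 * c) ≤ tail w s * (2 * c) := by gcongr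
    linarith
  have h6 : ∀ n : ℕ, tail w (1 + n * L) ≤ (1 / 2) ^ n * (‖A‖ * M ^ 2 / (2 * c)) := by
    intro n
    induction n with
    | zero => simpa using h1
    | succ n ih =>
      have h7 := tail_step hw hM hi hc h (τ := 1 + n * L) (by positivity) hL hcL
      have e : (1 : ℝ) + ((n + 1 : ℕ) : ℝ) * L = 1 + n * L + L := by push_cast; ring
      rw [e, pow_succ]
      linarith
  set n := ⌊(τ - 1) / L⌋₊ with hn
  have hn1 : (n : ℝ) ≤ (τ - 1) / L := Nat.floor_le (div_nonneg (by linarith) hL.le)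
  have hn2 : (τ - 1) / L < n + 1 := Nat.lt_floor_add_one _
  have h8 : 1 + n * L ≤ τ := by
    rw [le_div_iff₀ hL] at hn1
    linarith
  have h9 := tail_anti hi (show 0 ≤ 1 + n * L by positivity) h8
  refine h9.trans ((h6 n).trans ?_)
  have h10 : (1 / 2 : ℝ) ^ n ≤ 2 * Real.exp (-(Real.log 2 / L) * (τ - 1)) := by
    have e1 : (1 / 2 : ℝ) ^ n = Real.exp (-(Real.log 2) * n) := by
      rw [mul_comm, Real.exp_nat_mul, Real.exp_neg, Real.exp_log (by norm_num)]
      norm_num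
    have e2 : (2 : ℝ) * Real.exp (-(Real.log 2 / L) * (τ - 1)) =
        Real.exp (Real.log 2 - (Real.log 2) * ((τ - 1) / L)) := by
      rw [sub_eq_add_neg (Real.log 2), Real.exp_add, Real.exp_log (by norm_num)]
      congr 2
      field_simp
    rw [e1, e2]
    apply Real.exp_le_exp.mpr
    have hlog : 0 < Real.log 2 := Real.log_pos (by norm_num)
    nlinarith
  calc (1 / 2 : ℝ) ^ n * (‖A‖ * M ^ 2 / (2 * c))
      ≤ (2 * Real.exp (-(Real.log 2 / L) * (τ - 1))) * (‖A‖ * M ^ 2 / (2 * c)) := by gcongr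
    _ = _ := by field_simp

end Q94.EX
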