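import Pool.Agent.Q94.EXB

/-!
Pointwise exponential convergence of bounded solutions of `(A w)' = g` when all the
differences `w (· + h) - w` are coercive.
-/

open Set Filter Topology MeasureTheory intervalIntegral
open scoped RealInnerProductSpace

namespace Q94.EX

set_option linter.unusedSectionVars false

variable {H : Type*} [NormedAddCommGroup H] [InnerProductSpace ℝ H] [CompleteSpace H]

/-- Cauchy-Schwarz on an interval. -/
theorem cs_int {f : ℝ → ℝ} {a b : ℝ} (hab : a < b) (hf : IntervalIntegrable f volume a b)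
    (hf2 : IntervalIntegrable (fun r => f r ^ 2) volume a b) :
    (∫ r in a..b, f r) ^ 2 ≤ (b - a) * ∫ r in a..b, f r ^ 2 := by
  set I := ∫ r in a..b, f r with hI
  set J := ∫ r in a..b, f r ^ 2 with hJ
  have hba : 0 < b - a := by linarith
  have h1 : 0 ≤ ∫ r in a..b, (f r - I / (b - a)) ^ 2 :=
    intervalIntegral.integral_nonneg hab.le fun r _ => sq_nonneg _
  have h2 : ∫ r in a..b, (f r - I / (b - a)) ^ 2 =
      ∫ r in a..b, (f r ^ 2 - (2 * (I / (b - a))) * f r) + (I / (b - a)) ^ 2 := by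
    refine intervalIntegral.integral_congr fun r _ => ?_
    ring
  have i1 : IntervalIntegrable (fun r => (2 * (I / (b - a))) * f r) volume a b := hf.const_mul _
  have i2 : IntervalIntegrable (fun r => f r ^ 2 - (2 * (I / (b - a))) * f r) volume a b :=
    hf2.sub i1
  rw [h2, intervalIntegral.integral_add i2 intervalIntegrable_const,
    intervalIntegral.integral_sub hf2 i1, intervalIntegral.integral_const_mul,
    intervalIntegral.integral_const, smul_eq_mul, ← hI, ← hJ] at h1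
  have h3 : J - 2 * (I / (b - a)) * I + (b - a) * (I / (b - a)) ^ 2 = J - I ^ 2 / (b - a) := by
    field_simp
    ring
  rw [h3] at h1
  have h4 : I ^ 2 / (b - a) ≤ J := by linarith
  rw [div_le_iff₀ hba] at h4
  linarith

theorem cs_vec {v : ℝ → H} (hv : AEStronglyMeasurable v volume) {M : ℝ} (hM : ∀ᵐ t, ‖v t‖ ≤ M)
    {a b : ℝ} (hab : a < b) : ‖∫ r in a..b, v r‖ ^ 2 ≤ (b - a) * ∫ r in a..b, ‖v r‖ ^ 2 := by
  have hn : ∀ᵐ t, ‖(‖v t‖)‖ ≤ M := by
    filter_upwards [hM] with t ht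
    rwa [norm_norm]
  have h1 := cs_int hab (intInt_of_bdd' hv.norm hn a b) (sq_intInt hv hM a b)
  have h2 := intervalIntegral.norm_integral_le_integral_norm (f := v) (μ := volume) hab.le
  refine le_trans ?_ h1
  gcongr

variable {A : H →L[ℝ] H} {w g : ℝ → H} {M G c : ℝ}

/-- differences -/
noncomputable def df (w : ℝ → H) (h : ℝ) (r : ℝ) : H := w (r + h) - w r

theorem df_meas (hw : AEStronglyMeasurable w volume) (h : ℝ) :
    AEStronglyMeasurable (df w h) volume :=
  (hw.comp_quasiMeasurePreserving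
    (measurePreserving_add_right volume h).quasiMeasurePreserving).sub hw

theorem df_bdd (hM : ∀ᵐ t, ‖w t‖ ≤ M) (h : ℝ) : ∀ᵐ t, ‖df w h t‖ ≤ 2 * M := by
  filter_upwards [hM, ae_shift hM h] with t h1 h2
  unfold df
  exact (norm_sub_le _ _).trans (by linarith)

theorem df_eq (hg : AEStronglyMeasurable g volume) (hG : ∀ᵐ t, ‖g t‖ ≤ G) {y0 : H}
    (hy : ∀ᵐ t, 0 ≤ t → A (w t) = y0 + ∫ r in (0 : ℝ)..t, g r) {h : ℝ} (hh : 0 < h) :
    ∀ᵐ t, 0 ≤ t → A (df w h t) = (∫ r in (0 : ℝ)..h, g r) + ∫ r in (0 : ℝ)..t, df g h r := by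
  have hgi := intInt_of_bdd hg hG
  have hgi2 : ∀ a b, IntervalIntegrable (fun r => g (r + h)) volume a b := fun a b =>
    intInt_of_bdd (hg.comp_quasiMeasurePreserving
      (measurePreserving_add_right volume h).quasiMeasurePreserving) (ae_shift hG h) a b
  filter_upwards [hy, ae_shift hy h] with t h1 h2 ht
  unfold df
  rw [map_sub, h1 ht, h2 (by linarith), intervalIntegral.integral_sub (hgi2 _ _) (hgi _ _),
    intervalIntegral.integral_comp_add_right (fun r => g r) h, zero_add]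
  have := intervalIntegral.integral_add_adjacent_intervals (hgi 0 h) (hgi h (t + h))
  rw [← this]
  abel

theorem df_A_le (hg : AEStronglyMeasurable g volume) (hG : ∀ᵐ t, ‖g t‖ ≤ G) {y0 : H}
    (hy : ∀ᵐ t, 0 ≤ t → A (w t) = y0 + ∫ r in (0 : ℝ)..t, g r) {h : ℝ} (hh : 0 < h) :
    ∀ᵐ t, 0 ≤ t → ‖A (df w h t)‖ ≤ h * G := by
  have hgi := intInt_of_bdd hg hG
  filter_upwards [hy, ae_shift hy h] with t h1 h2 ht
  unfold df
  rw [map_sub, h1 ht, h2 (by linarith), add_sub_add_left_eq_sub,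
    intervalIntegral.integral_interval_sub_left (hgi _ _) (hgi _ _)]
  have := intervalIntegral.norm_integral_le_of_norm_le_const_ae (a := t) (b := t + h) (f := g)
    (C := G) (by filter_upwards [hG] with x hx _ using hx)
  rw [add_sub_cancel_left, abs_of_pos hh] at this
  linarith

section main

variable (hA : ∀ x y, ⟪A x, y⟫ = ⟪x, A y⟫)
    (hw : AEStronglyMeasurable w volume) (hg : AEStronglyMeasurable g volume)
    (hM : ∀ᵐ t, ‖w t‖ ≤ M) (hG : ∀ᵐ t, ‖g t‖ ≤ G) {y0 : H}
    (hy : ∀ᵐ t, 0 ≤ t → A (w t) = y0 + ∫ r in (0 : ℝ)..t, g r) (hc : 0 < c)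
    (hd : ∀ h : ℝ, 0 < h → ∀ᵐ r, 0 ≤ r → ⟪df g h r, df w h r⟫ ≤ -c * ‖df w h r‖ ^ 2)

include hA hw hg hM hG hy hc hd

theorem df_coercive {h : ℝ} (hh : 0 < h) :
    IntegrableOn (fun r => ‖df w h r‖ ^ 2) (Ioi 0) ∧
      ∀ᵐ s, 0 ≤ s → 2 * c * tail (df w h) s ≤ en A (df w h) s :=
  coercive hA (df_meas hw h) (df_meas hg h) (df_bdd hM h) (df_bdd hG h) (df_eq hg hG hy hh) hc
    (hd h hh)

theorem df_step {h : ℝ} (hh : 0 < h) {τ : ℝ} (hτ : 1 ≤ τ) :
    tail (df w h) τ ≤ (G / (2 * c)) * h * Real.sqrt (tail (df w h) (τ - 1)) := by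
  obtain ⟨hi, he⟩ := df_coercive hA hw hg hM hG hy hc hd hh
  have hG0 : 0 ≤ G := by
    obtain ⟨t, ht⟩ := hG.exists
    exact (norm_nonneg _).trans ht
  have h1 : ∫ r in (τ - 1)..τ, (2 * c * tail (df w h) τ) ^ 2 ≤
      ∫ r in (τ - 1)..τ, (h * G) ^ 2 * ‖df w h r‖ ^ 2 := by
    refine intervalIntegral.integral_mono_ae_restrict (by linarith) intervalIntegrable_const
      ((sq_intInt (df_meas hw h) (df_bdd hM h) _ _).const_mul _) ?_
    refine (ae_restrict_iff' measurableSet_Icc).mpr ?_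
    filter_upwards [he, df_A_le hg hG hy hh] with r hr hAr hrs
    have hr0 : 0 ≤ r := by linarith [hrs.1]
    have h2 := hr hr0
    have h3 := hAr hr0
    have h4 := tail_anti hi hr0 hrs.2
    have h5 : 2 * c * tail (df w h) τ ≤ 2 * c * tail (df w h) r := by gcongr
    have h6 : en A (df w h) r ≤ (h * G) * ‖df w h r‖ := by
      unfold en
      refine (real_inner_le_norm _ _).trans ?_
      gcongr
    have h7 : 0 ≤ 2 * c * tail (df w h) τ := by
      have := tail_nonneg (w := df w h) τ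
      positivity
    rw [← mul_pow]
    exact pow_le_pow_left₀ h7 (by linarith) 2
  rw [intervalIntegral.integral_const, intervalIntegral.integral_const_mul, smul_eq_mul] at h1
  have h8 := int_le_tail hi (show 0 ≤ τ - 1 by linarith) (show τ - 1 ≤ τ by linarith)
  have h9 : (2 * c * tail (df w h) τ) ^ 2 ≤ (h * G) ^ 2 * tail (df w h) (τ - 1) := by
    have e : (τ - (τ - 1)) * (2 * c * tail (df w h) τ) ^ 2 = (2 * c * tail (df w h) τ) ^ 2 := by
      ring
    rw [e] at h1
    refine h1.trans ?_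
    gcongr
  have h10 : 2 * c * tail (df w h) τ ≤ (h * G) * Real.sqrt (tail (df w h) (τ - 1)) := by
    have h11 : 0 ≤ (h * G) * Real.sqrt (tail (df w h) (τ - 1)) := by positivity
    refine le_of_sq_le_sq ?_ h11
    rw [mul_pow (h * G), Real.sq_sqrt (tail_nonneg _)]
    exact h9
  have e2 : (G / (2 * c)) * h * Real.sqrt (tail (df w h) (τ - 1)) =
      ((h * G) * Real.sqrt (tail (df w h) (τ - 1))) / (2 * c) := by field_simp
  rw [e2, le_div_iff₀ (by positivity)]
  linarith

variable {L : ℝ} (hL : 0 < L) (hcL : ‖A‖ ≤ c * L)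

include hL hcL

/-- Two steps: the tail is `O(h^(3/2))` with exponential decay. -/
theorem df_tail {h : ℝ} (hh : 0 < h) {τ : ℝ} (hτ : 3 ≤ τ) :
    tail (df w h) τ ≤ (G / (2 * c)) * h * Real.sqrt ((G / (2 * c)) * h *
      Real.sqrt ((‖A‖ * (2 * M) ^ 2 / c) * Real.exp (-(Real.log 2 / L) * (τ - 3)))) := by
  obtain ⟨hi, he⟩ := df_coercive hA hw hg hM hG hy hc hd hh
  have hG0 : 0 ≤ G := by
    obtain ⟨t, ht⟩ := hG.exists
    exact (norm_nonneg _).trans ht
  have h1 := df_step hA hw hg hM hG hy hc hd hh (τ := τ) (by linarith)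
  have h2 := df_step hA hw hg hM hG hy hc hd hh (τ := τ - 1) (by linarith)
  have h3 := tail_exp (df_meas hw h) (df_bdd hM h) hi hc he hL hcL (τ := τ - 1 - 1) (by linarith)
  have e : τ - 1 - 1 - 1 = τ - 3 := by ring
  rw [e] at h3
  refine h1.trans ?_
  have h4 := Real.sqrt_le_sqrt h3
  have h5 := Real.sqrt_le_sqrt (h2.trans (mul_le_mul_of_nonneg_left h4 (by positivity)))
  exact mul_le_mul_of_nonneg_left h5 (by positivity)

end main

end Q94.EX
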