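import Pool.Agent.Q94.EXC

/-!
Pointwise exponential convergence.
-/

open Set Filter Topology MeasureTheory intervalIntegral
open scoped RealInnerProductSpace

namespace Q94.EX

set_option linter.unusedSectionVars false

variable {H : Type*} [NormedAddCommGroup H] [InnerProductSpace ℝ H] [CompleteSpace H]

variable {A : H →L[ℝ] H} {w g : ℝ → H} {M G c : ℝ}

/-- dyadic forward averages -/
noncomputable def dav (w : ℝ → H) (τ : ℝ) (k : ℕ) : H :=
  (2 : ℝ) ^ k • ∫ r in τ..(τ + (1 / 2) ^ k), w r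

theorem dav_lim (hw : AEStronglyMeasurable w volume) (hM : ∀ᵐ t, ‖w t‖ ≤ M) :
    ∀ᵐ τ, Tendsto (dav w τ) atTop (𝓝 (w τ)) := by
  have hwi := intInt_of_bdd hw hM
  filter_upwards [_root_.LocallyIntegrable.ae_hasDerivAt_integral (locInt_of_bdd hw hM)] with τ hτ
  have h1 := slope_pos (hτ 0)
  have h2 : Tendsto (fun k : ℕ => 2 ^ k - 1) atTop (atTop : Filter ℕ) := by
    refine tendsto_atTop_mono (fun k => ?_) tendsto_id
    have := Nat.lt_two_pow_self (n := k)
    simp only [id]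
    omega
  refine (h1.comp h2).congr ?_
  intro k
  simp only [Function.comp_apply]
  have e : hn (2 ^ k - 1) = (1 / 2) ^ k := by
    unfold hn
    rw [Nat.cast_sub Nat.one_le_two_pow]
    push_cast
    rw [sub_add_cancel, one_div_pow]
  rw [e, intervalIntegral.integral_interval_sub_left (hwi _ _) (hwi _ _)]
  unfold dav
  congr 1
  rw [one_div_pow, one_div, inv_inv]

theorem dav_zero_norm (hM : ∀ᵐ t, ‖w t‖ ≤ M) (τ : ℝ) : ‖dav w τ 0‖ ≤ M := by
  unfold dav
  simp only [pow_zero, one_smul]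
  have := intervalIntegral.norm_integral_le_of_norm_le_const_ae (a := τ) (b := τ + 1) (f := w)
    (C := M) (by filter_upwards [hM] with x hx _ using hx)
  simpa using this

theorem dav_sub (hw : AEStronglyMeasurable w volume) (hM : ∀ᵐ t, ‖w t‖ ≤ M) (τ : ℝ) (k : ℕ) :
    dav w τ k - dav w τ (k + 1) =
      (2 : ℝ) ^ k • ∫ r in τ..(τ + (1 / 2) ^ (k + 1)), df w ((1 / 2) ^ (k + 1)) r := by
  have hwi := intInt_of_bdd hw hM
  set h : ℝ := (1 / 2) ^ (k + 1) with hh
  have hwi2 : ∀ a b, IntervalIntegrable (fun r => w (r + h)) volume a b := fun a b =>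
    intInt_of_bdd (hw.comp_quasiMeasurePreserving
      (measurePreserving_add_right volume h).quasiMeasurePreserving) (ae_shift hM h) a b
  have e1 : (1 / 2 : ℝ) ^ k = h + h := by rw [hh, pow_succ]; ring
  unfold dav df
  rw [intervalIntegral.integral_sub (hwi2 _ _) (hwi _ _),
    intervalIntegral.integral_comp_add_right (fun r => w r) h, e1, ← hh, pow_succ,
    ← intervalIntegral.integral_add_adjacent_intervals (hwi τ (τ + h)) (hwi (τ + h) (τ + (h + h)))]
  have e2 : τ + (h + h) = τ + h + h := by ring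
  rw [e2, mul_smul, two_smul, smul_sub, smul_add, smul_add]
  abel

section main

variable (hA : ∀ x y, ⟪A x, y⟫ = ⟪x, A y⟫)
    (hw : AEStronglyMeasurable w volume) (hg : AEStronglyMeasurable g volume)
    (hM : ∀ᵐ t, ‖w t‖ ≤ M) (hG : ∀ᵐ t, ‖g t‖ ≤ G) {y0 : H}
    (hy : ∀ᵐ t, 0 ≤ t → A (w t) = y0 + ∫ r in (0 : ℝ)..t, g r) (hc : 0 < c)
    (hd : ∀ h : ℝ, 0 < h → ∀ᵐ r, 0 ≤ r → ⟪df g h r, df w h r⟫ ≤ -c * ‖df w h r‖ ^ 2)
    {L : ℝ} (hL : 0 < L) (hcL : ‖A‖ ≤ c * L)

include hA hw hg hM hG hy hc hd hL hcL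

/-- the large-scale averages converge -/
theorem dav_conv : ∃ v : H, ‖v‖ ≤ M ∧ ∀ τ : ℝ, 1 ≤ τ → ‖dav w τ 0 - v‖ ≤
    Real.sqrt ((‖A‖ * (2 * M) ^ 2 / c) * Real.exp (-(Real.log 2 / L) * (τ - 1))) := by
  have hwi := intInt_of_bdd hw hM
  have step : ∀ τ : ℝ, 1 ≤ τ → ∀ h : ℝ, 0 < h → ‖dav w (τ + h) 0 - dav w τ 0‖ ≤
      Real.sqrt ((‖A‖ * (2 * M) ^ 2 / c) * Real.exp (-(Real.log 2 / L) * (τ - 1))) := by
    intro τ hτ h hh
    obtain ⟨hi, he⟩ := df_coercive hA hw hg hM hG hy hc hd hh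
    have hwi2 : ∀ a b, IntervalIntegrable (fun r => w (r + h)) volume a b := fun a b =>
      intInt_of_bdd (hw.comp_quasiMeasurePreserving
        (measurePreserving_add_right volume h).quasiMeasurePreserving) (ae_shift hM h) a b
    have e1 : dav w (τ + h) 0 - dav w τ 0 = ∫ r in τ..(τ + 1), df w h r := by
      unfold dav df
      simp only [pow_zero, one_smul]
      rw [intervalIntegral.integral_sub (hwi2 _ _) (hwi _ _),
        intervalIntegral.integral_comp_add_right (fun r => w r) h]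
      have e2 : τ + 1 + h = τ + h + 1 := by ring
      rw [e2]
    rw [e1]
    refine Real.le_sqrt_of_sq_le ?_
    have h1 := cs_vec (df_meas hw h) (df_bdd hM h) (show τ < τ + 1 by linarith)
    have h2 := int_le_tail hi (show 0 ≤ τ by linarith) (show τ ≤ τ + 1 by linarith)
    have h3 := tail_exp (df_meas hw h) (df_bdd hM h) hi hc he hL hcL hτ
    rw [add_sub_cancel_left, one_mul] at h1
    linarith
  -- Cauchy
  set a : ℕ → H := fun n => dav w ((n : ℝ) + 1) 0 with ha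
  set bd : ℝ → ℝ := fun τ =>
    Real.sqrt ((‖A‖ * (2 * M) ^ 2 / c) * Real.exp (-(Real.log 2 / L) * (τ - 1))) with hbd
  have hb0 : Tendsto (fun n : ℕ => bd ((n : ℝ) + 1)) atTop (𝓝 0) := by
    have h1 : Tendsto (fun n : ℕ => (‖A‖ * (2 * M) ^ 2 / c) *
        Real.exp (-(Real.log 2 / L) * ((n : ℝ) + 1 - 1))) atTop (𝓝 0) := by
      have h2 : Tendsto (fun n : ℕ => Real.exp (-(Real.log 2 / L) * ((n : ℝ) + 1 - 1)))
          atTop (𝓝 0) := by
        refine Real.tendsto_exp_atBot.comp ?_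
        have h3 : -(Real.log 2 / L) < 0 := by
          have := Real.log_pos (show (1 : ℝ) < 2 by norm_num)
          have : 0 < Real.log 2 / L := div_pos this hL
          linarith
        refine Tendsto.const_mul_atTop_of_neg h3 ?_
        simp only [add_sub_cancel_right]
        exact tendsto_natCast_atTop_atTop
      simpa using h2.const_mul (‖A‖ * (2 * M) ^ 2 / c)
    have h4 := (Real.continuous_sqrt.tendsto 0).comp h1
    simpa [hbd, Function.comp_def] using h4
  have hcau : CauchySeq a := by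
    refine cauchySeq_of_le_tendsto_0' (fun n : ℕ => bd ((n : ℝ) + 1)) ?_ hb0
    intro n m hnm
    rcases hnm.eq_or_lt with h | h
    · subst h
      rw [dist_self]
      exact Real.sqrt_nonneg _
    · rw [dist_comm, dist_eq_norm]
      have h1 := step ((n : ℝ) + 1) (by have : (0 : ℝ) ≤ n := Nat.cast_nonneg n
                                        linarith) ((m : ℝ) - n)
        (by have : (n : ℝ) < m := by exact_mod_cast h
            linarith)
      have e : (n : ℝ) + 1 + ((m : ℝ) - n) = (m : ℝ) + 1 := by ring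
      rw [e] at h1
      exact h1
  obtain ⟨v, hv⟩ := cauchySeq_tendsto_of_complete hcau
  refine ⟨v, ?_, ?_⟩
  · exact le_of_tendsto hv.norm (Eventually.of_forall fun n => dav_zero_norm hM _)
  · intro τ hτ
    have h1 : Tendsto (fun n : ℕ => ‖dav w τ 0 - a n‖) atTop (𝓝 ‖dav w τ 0 - v‖) :=
      (tendsto_const_nhds.sub hv).norm
    refine le_of_tendsto h1 ?_
    filter_upwards [eventually_gt_atTop ⌈τ⌉₊] with n hn
    have hn' : τ < (n : ℝ) + 1 := by
      have h2 : τ ≤ ⌈τ⌉₊ := Nat.le_ceil τ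
      have h3 : ((⌈τ⌉₊ : ℕ) : ℝ) < n := by exact_mod_cast hn
      linarith
    have h2 := step τ hτ ((n : ℝ) + 1 - τ) (by linarith)
    rw [norm_sub_rev]
    have e : τ + ((n : ℝ) + 1 - τ) = (n : ℝ) + 1 := by ring
    rw [e] at h2
    exact h2

/-- the fine-scale estimate -/
theorem dav_fine : ∃ C : ℝ, 0 ≤ C ∧ ∀ᵐ τ, 3 ≤ τ →
    ‖w τ - dav w τ 0‖ ≤ C * Real.exp (-(Real.log 2 / L / 8) * τ) := by
  have hG0 : 0 ≤ G := by
    obtain ⟨t, ht⟩ := hG.exists
    exact (norm_nonneg _).trans ht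
  set D := G / (2 * c) with hD
  have hD0 : 0 ≤ D := by positivity
  set K := ‖A‖ * (2 * M) ^ 2 / c with hK
  have hK0 : 0 ≤ K := by positivity
  set b := Real.log 2 / L with hb
  set ρ : ℝ := Real.sqrt (Real.sqrt (1 / 2)) with hρ
  have hρ0 : 0 ≤ ρ := Real.sqrt_nonneg _
  have hρ1 : ρ < 1 := by
    rw [hρ]
    have h1 : Real.sqrt (1 / 2) < 1 := by
      rw [Real.sqrt_lt' one_pos]; norm_num
    rw [Real.sqrt_lt' one_pos]
    simpa using h1
  have hρ4 : ρ ^ 4 = 1 / 2 := by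
    have h1 : ρ ^ 2 = Real.sqrt (1 / 2) := Real.sq_sqrt (Real.sqrt_nonneg _)
    have h2 : Real.sqrt (1 / 2) ^ 2 = 1 / 2 := Real.sq_sqrt (by norm_num)
    calc ρ ^ 4 = (ρ ^ 2) ^ 2 := by ring
      _ = 1 / 2 := by rw [h1, h2]
  -- constant: C1 = (D^3 K^(1/2))^(1/4) e^{3b/8}
  set C1 : ℝ := Real.sqrt (D * Real.sqrt (D * Real.sqrt K)) * Real.exp (b * 3 / 8) with hC1
  have hC10 : 0 ≤ C1 := by positivity
  refine ⟨C1 / (1 - ρ), div_nonneg hC10 (by linarith), ?_⟩
  filter_upwards [dav_lim hw hM] with τ hlim hτ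
  have hstep : ∀ k : ℕ, dist (dav w τ k) (dav w τ (k + 1)) ≤
      (C1 * Real.exp (-(b / 8) * τ)) * ρ ^ k := by
    intro k
    set h : ℝ := (1 / 2) ^ (k + 1) with hh
    have hh0 : 0 < h := by positivity
    obtain ⟨hi, he⟩ := df_coercive hA hw hg hM hG hy hc hd hh0
    rw [dist_eq_norm, dav_sub hw hM τ k, ← hh, norm_smul]
    have h1 := cs_vec (df_meas hw h) (df_bdd hM h) (show τ < τ + h by linarith)
    have h2 := int_le_tail hi (show 0 ≤ τ by linarith) (show τ ≤ τ + h by linarith)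
    have h3 := df_tail hA hw hg hM hG hy hc hd hL hcL hh0 hτ
    rw [← hD, ← hK, ← hb] at h3
    rw [add_sub_cancel_left] at h1
    -- exact value of the bound
    have hhρ : h = (ρ ^ (k + 1)) ^ 4 := by
      rw [hh, ← hρ4, ← pow_mul, ← pow_mul, mul_comm 4]
    set s := ρ ^ (k + 1) with hs
    have hs0 : 0 ≤ s := by positivity
    set E := Real.exp (-(b / 8) * τ) * Real.exp (b * 3 / 8) with hE
    have hE0 : 0 < E := by positivity
    have hE8 : Real.exp (-b * (τ - 3)) = E ^ 8 := by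
      rw [hE, ← Real.exp_add, ← Real.exp_nat_mul]
      congr 1
      push_cast
      ring
    have h4 : D * h * Real.sqrt (D * h * Real.sqrt (K * Real.exp (-b * (τ - 3)))) =
        (D * Real.sqrt (D * Real.sqrt K)) * (s ^ 6 * E ^ 2) := by
      have q1 : Real.sqrt (K * Real.exp (-b * (τ - 3))) = Real.sqrt K * E ^ 4 := by
        rw [hE8, Real.sqrt_mul hK0]
        congr 1
        rw [show E ^ 8 = (E ^ 4) ^ 2 by ring, Real.sqrt_sq (by positivity)]
      have q2 : Real.sqrt (D * h * (Real.sqrt K * E ^ 4)) =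
          Real.sqrt (D * Real.sqrt K) * (s ^ 2 * E ^ 2) := by
        have : D * h * (Real.sqrt K * E ^ 4) = (D * Real.sqrt K) * (s ^ 2 * E ^ 2) ^ 2 := by
          rw [hhρ]; ring
        rw [this, Real.sqrt_mul (by positivity), Real.sqrt_sq (by positivity)]
      rw [q1, q2, hhρ]
      ring
    have h5 : ‖∫ r in τ..(τ + h), df w h r‖ ^ 2 ≤
        (Real.sqrt (D * Real.sqrt (D * Real.sqrt K)) * (s ^ 5 * E)) ^ 2 := by
      rw [mul_pow, Real.sq_sqrt (by positivity)]
      calc ‖∫ r in τ..(τ + h), df w h r‖ ^ 2 ≤ h * tail (df w h) τ := by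
            refine h1.trans ?_
            gcongr
        _ ≤ h * ((D * Real.sqrt (D * Real.sqrt K)) * (s ^ 6 * E ^ 2)) := by
            rw [← h4]; gcongr
        _ = D * Real.sqrt (D * Real.sqrt K) * (s ^ 5 * E) ^ 2 := by
            rw [hhρ]; ring
    have h6 := le_of_sq_le_sq h5 (by positivity)
    have h7 : ‖(2 : ℝ) ^ k‖ * s ^ 4 = 1 / 2 := by
      rw [← hhρ, hh, Real.norm_eq_abs, abs_of_pos (by positivity), pow_succ, ← mul_assoc,
        ← mul_pow]
      norm_num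
    calc ‖(2 : ℝ) ^ k‖ * ‖∫ r in τ..(τ + h), df w h r‖
        ≤ ‖(2 : ℝ) ^ k‖ * (Real.sqrt (D * Real.sqrt (D * Real.sqrt K)) * (s ^ 5 * E)) := by
          gcongr
      _ = (‖(2 : ℝ) ^ k‖ * s ^ 4) * (Real.sqrt (D * Real.sqrt (D * Real.sqrt K)) * E) * s := by
          ring
      _ = (1 / 2) * (C1 * Real.exp (-(b / 8) * τ)) * s := by
          rw [h7, hC1, hE]; ring
      _ ≤ (C1 * Real.exp (-(b / 8) * τ)) * ρ ^ k := by
          have h8 : s ≤ ρ ^ k := by
            rw [hs, pow_succ]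
            have : 0 ≤ ρ ^ k := by positivity
            nlinarith
          have h9 : 0 ≤ C1 * Real.exp (-(b / 8) * τ) := by positivity
          have h10 : 0 ≤ ρ ^ k := by positivity
          nlinarith [mul_le_mul_of_nonneg_left h8 h9, mul_nonneg h9 hs0]
  have hfin := dist_le_of_le_geometric_of_tendsto₀ ρ _ hρ1 hstep hlim
  rw [dist_eq_norm, norm_sub_rev] at hfin
  refine hfin.trans (le_of_eq ?_)
  ring

/-- Pointwise exponential convergence. -/
theorem pointwise : ∃ (v : H) (C : ℝ), ‖v‖ ≤ M ∧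
    ∀ᵐ τ, 0 ≤ τ → ‖w τ - v‖ ≤ C * Real.exp (-(Real.log 2 / L / 8) * τ) := by
  obtain ⟨v, hvM, hv⟩ := dav_conv hA hw hg hM hG hy hc hd hL hcL
  obtain ⟨C2, hC2, hfine⟩ := dav_fine hA hw hg hM hG hy hc hd hL hcL
  have hM0 : 0 ≤ M := (norm_nonneg _).trans hvM
  set b := Real.log 2 / L with hb
  have hb0 : 0 < b := div_pos (Real.log_pos (by norm_num)) hL
  set K := ‖A‖ * (2 * M) ^ 2 / c with hK
  have hK0 : 0 ≤ K := by positivity
  set C3 := Real.sqrt K * Real.exp (b / 2) with hC3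
  have hC30 : 0 ≤ C3 := by positivity
  set C4 := 2 * M * Real.exp (b * 3 / 8) with hC4
  have hC40 : 0 ≤ C4 := by positivity
  refine ⟨v, C2 + C3 + C4, hvM, ?_⟩
  filter_upwards [hfine, hM] with τ h1 h2 hτ
  have hE0 : 0 < Real.exp (-(b / 8) * τ) := Real.exp_pos _
  rcases lt_or_ge τ 3 with h3 | h3
  · have h4 : ‖w τ - v‖ ≤ 2 * M := (norm_sub_le _ _).trans (by linarith)
    have h5 : 1 ≤ Real.exp (b * 3 / 8) * Real.exp (-(b / 8) * τ) := by
      rw [← Real.exp_add]
      refine Real.one_le_exp ?_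
      nlinarith
    calc ‖w τ - v‖ ≤ 2 * M * 1 := by linarith
      _ ≤ 2 * M * (Real.exp (b * 3 / 8) * Real.exp (-(b / 8) * τ)) := by gcongr
      _ = C4 * Real.exp (-(b / 8) * τ) := by rw [hC4]; ring
      _ ≤ (C2 + C3 + C4) * Real.exp (-(b / 8) * τ) := by
          refine mul_le_mul_of_nonneg_right ?_ hE0.le
          linarith
  · have h4 := h1 h3
    have h5 := hv τ (by linarith)
    have h6 : Real.sqrt (K * Real.exp (-b * (τ - 1))) ≤ C3 * Real.exp (-(b / 8) * τ) := by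
      rw [Real.sqrt_mul hK0, hC3, mul_assoc]
      refine mul_le_mul_of_nonneg_left ?_ (Real.sqrt_nonneg _)
      have e : Real.exp (-b * (τ - 1)) = Real.exp (-b * (τ - 1) / 2) ^ 2 := by
        rw [← Real.exp_nat_mul]; congr 1; push_cast; ring
      rw [e, Real.sqrt_sq (Real.exp_pos _).le, ← Real.exp_add]
      apply Real.exp_le_exp.mpr
      nlinarith
    calc ‖w τ - v‖ ≤ ‖w τ - dav w τ 0‖ + ‖dav w τ 0 - v‖ := norm_sub_le_norm_sub_add_norm_sub _ _ _
      _ ≤ C2 * Real.exp (-(b / 8) * τ) + C3 * Real.exp (-(b / 8) * τ) := by linarith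
      _ ≤ (C2 + C3 + C4) * Real.exp (-(b / 8) * τ) := by
          nlinarith [mul_nonneg hC40 hE0.le]

end main

end Q94.EX
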