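import Pool.Agent.Q94.EXD

/-!
The degenerate evolution equation `A u' = Q(u)`: data, solutions, coercivity.
-/

open Set Filter Topology MeasureTheory intervalIntegral
open scoped RealInnerProductSpace

namespace Q94.EX

variable {H : Type*} [NormedAddCommGroup H] [InnerProductSpace ℝ H] [CompleteSpace H]

/-- Data satisfying (H1), (H3), (H4), (H5). -/
structure Data (H : Type*) [NormedAddCommGroup H] [InnerProductSpace ℝ H] [CompleteSpace H] where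
  /-- the bounded operator `A` -/
  A : H →L[ℝ] H
  /-- the subspace -/
  V : Submodule ℝ H
  /-- the bilinear map -/
  B : H →L[ℝ] H →L[ℝ] H
  /-- the equilibrium `u^+` -/
  up : H
  /-- (H1): `A` is self-adjoint -/
  A_symm : ∀ x y, ⟪A x, y⟫ = ⟪x, A y⟫
  /-- (H1): `V` is closed -/
  V_closed : IsClosed (V : Set H)
  /-- (H1): `V` is a proper subspace -/
  V_ne : V ≠ ⊤
  /-- (H1): the orthogonal complement is finite-dimensional -/
  V_fin : FiniteDimensional ℝ Vᗮ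
  /-- (H1): `B` is symmetric -/
  B_symm : ∀ x y, B x y = B y x
  /-- (H1): `B` takes values in `V` -/
  B_mem : ∀ x y, B x y ∈ V
  /-- (H4): `A` is injective -/
  A_inj : Function.Injective A
  /-- (H5): `P A` restricted to the orthogonal complement of `V` is invertible on it, `P` being
  the orthogonal projection on this complement: `P A x = y` means `A x - y ∈ V`. -/
  PA_inv : ∀ y ∈ Vᗮ, ∃! x, x ∈ Vᗮ ∧ A x - y ∈ V
  /-- (H3): `Q(u^+) = 0` -/
  up_zero : B up up = 0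
  /-- (H3): `T = Q'(u^+) = 2 B(u^+, ·)` is self-adjoint -/
  T_symm : ∀ x y, ⟪(2 : ℝ) • B up x, y⟫ = ⟪x, (2 : ℝ) • B up y⟫
  /-- (H3): the kernel of `T` is the orthogonal complement of `V` -/
  T_ker : ∀ x, (2 : ℝ) • B up x = 0 ↔ x ∈ Vᗮ
  /-- (H3): `T ≤ -δ` on `V` -/
  T_neg : ∃ δ : ℝ, 0 < δ ∧ ∀ x ∈ V, ⟪(2 : ℝ) • B up x, x⟫ ≤ -δ * ‖x‖ ^ 2
  /-- (H3): the Kawashima condition -/
  kawashima : ∃ (K : H →L[ℝ] H) (γ : ℝ), 0 < γ ∧ (∀ x y, ⟪K x, y⟫ = -⟪x, K y⟫) ∧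
    ∀ x, γ * ‖x‖ ^ 2 ≤ ⟪K (A x) - (2 : ℝ) • B up x, x⟫

/-- Solutions on `[0, ∞)`. -/
structure IsSolution (D : Data H) (u : ℝ → H) : Prop where
  /-- strongly measurable on `[0, ∞)` -/
  meas : AEStronglyMeasurable u (volume.restrict (Ici 0))
  /-- essentially bounded -/
  bdd : ∃ M : ℝ, ∀ᵐ t ∂(volume.restrict (Ici 0)), ‖u t‖ ≤ M
  /-- `A u` is locally absolutely continuous -/
  ac : ∀ b : ℝ, 0 ≤ b → AbsolutelyContinuousOnInterval (fun t => D.A (u t)) 0 b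
  /-- `(A u)' = Q(u)` almost everywhere -/
  eq : ∀ᵐ t ∂(volume.restrict (Ici 0)), HasDerivAt (fun s => D.A (u s)) (D.B (u t) (u t)) t

namespace Data

variable (D : Data H)

theorem zero_of_mem {x : H} (hx : x ∈ D.Vᗮ) (hAx : D.A x ∈ D.V) : x = 0 := by
  obtain ⟨z, _, hz⟩ := D.PA_inv 0 (Submodule.zero_mem _)
  have h1 := hz x ⟨hx, by simpa using hAx⟩
  have h2 := hz 0 ⟨Submodule.zero_mem _, by simp⟩
  rw [h1, h2]

/-- A constant controlling the component in the complement of `V`. -/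
theorem exists_const : ∃ C0 : ℝ, 1 ≤ C0 ∧ ∀ z : H, D.A z ∈ D.V →
    ∃ v k : H, v ∈ D.V ∧ k ∈ D.Vᗮ ∧ z = v + k ∧ ‖z‖ ≤ C0 * ‖v‖ := by
  have := D.V_fin
  have hVc : CompleteSpace D.V := D.V_closed.completeSpace_coe
  have hVV : D.Vᗮᗮ = D.V := Submodule.orthogonal_orthogonal D.V
  -- the compression
  set Lc : D.Vᗮ →L[ℝ] D.Vᗮ := (D.Vᗮ.orthogonalProjectionOnto).comp (D.A.comp D.Vᗮ.subtypeL) with hLc
  have hker : LinearMap.ker (Lc : D.Vᗮ →ₗ[ℝ] D.Vᗮ) = ⊥ := by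
    rw [LinearMap.ker_eq_bot']
    intro x hx
    have h1 : D.Vᗮ.orthogonalProjectionOnto (D.A x) = 0 := hx
    have h2 : D.A x ∈ D.Vᗮᗮ := (Submodule.orthogonalProjectionOnto_eq_zero_iff).mp h1
    rw [hVV] at h2
    exact Subtype.ext (D.zero_of_mem x.2 h2)
  obtain ⟨κ, hκ, hanti⟩ := (Lc : D.Vᗮ →ₗ[ℝ] D.Vᗮ).exists_antilipschitzWith hker
  refine ⟨1 + κ * ‖D.A‖, by have : (0 : ℝ) ≤ κ * ‖D.A‖ := by positivity
                            linarith, ?_⟩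
  intro z hz
  obtain ⟨v, hv, k, hk, rfl⟩ := D.V.exists_add_mem_mem_orthogonal z
  refine ⟨v, k, hv, hk, rfl, ?_⟩
  have h1 : D.Vᗮ.orthogonalProjectionOnto (D.A (v + k)) = 0 := by
    rw [Submodule.orthogonalProjectionOnto_eq_zero_iff, hVV]
    exact hz
  have h2 : Lc ⟨k, hk⟩ = -D.Vᗮ.orthogonalProjectionOnto (D.A v) := by
    have h3 : Lc ⟨k, hk⟩ = D.Vᗮ.orthogonalProjectionOnto (D.A k) := rfl
    rw [h3, eq_neg_iff_add_eq_zero, ← map_add, ← map_add, add_comm k v]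
    exact h1
  have h4 : ‖k‖ ≤ κ * (‖D.A‖ * ‖v‖) := by
    have h5 := hanti.le_mul_dist ⟨k, hk⟩ 0
    rw [map_zero, dist_zero_right, dist_zero_right] at h5
    have h6 : ‖Lc ⟨k, hk⟩‖ ≤ ‖D.A‖ * ‖v‖ := by
      rw [h2, norm_neg]
      exact (Submodule.norm_orthogonalProjectionOnto_apply_le _ _).trans (D.A.le_opNorm v)
    calc ‖k‖ = ‖(⟨k, hk⟩ : D.Vᗮ)‖ := rfl
      _ ≤ κ * ‖Lc ⟨k, hk⟩‖ := h5
      _ ≤ κ * (‖D.A‖ * ‖v‖) := by gcongr
  calc ‖v + k‖ ≤ ‖v‖ + ‖k‖ := norm_add_le _ _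
    _ ≤ ‖v‖ + κ * (‖D.A‖ * ‖v‖) := by gcongr
    _ = (1 + κ * ‖D.A‖) * ‖v‖ := by ring

/-- Coercivity. -/
theorem exists_coercive : ∃ c ε : ℝ, 0 < c ∧ 0 < ε ∧ ∀ z a : H, D.A z ∈ D.V → ‖a‖ ≤ 2 * ε →
    ⟪(2 : ℝ) • D.B D.up z + D.B a z, z⟫ ≤ -c * ‖z‖ ^ 2 := by
  obtain ⟨C0, hC0, hdec⟩ := D.exists_const
  obtain ⟨δ, hδ, hneg⟩ := D.T_neg
  have hC0p : 0 < C0 := by linarith
  set ε := δ / (4 * (‖D.B‖ + 1) * C0) with hε
  have hε0 : 0 < ε := by positivity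
  refine ⟨δ / (2 * C0 ^ 2), ε, by positivity, hε0, ?_⟩
  intro z a hz ha
  obtain ⟨v, k, hv, hk, hzk, hle⟩ := hdec z hz
  have h1 : (2 : ℝ) • D.B D.up z = (2 : ℝ) • D.B D.up v := by
    rw [hzk, map_add, smul_add, (D.T_ker k).mpr hk, add_zero]
  have hmem1 : (2 : ℝ) • D.B D.up v ∈ D.V := D.V.smul_mem _ (D.B_mem _ _)
  have horth : ∀ x ∈ D.V, ⟪x, z⟫ = ⟪x, v⟫ := by
    intro x hx
    rw [hzk, inner_add_right, (Submodule.mem_orthogonal D.V k).mp hk x hx, add_zero]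
  have h2 : ⟪(2 : ℝ) • D.B D.up z, z⟫ ≤ -δ * ‖v‖ ^ 2 := by
    rw [h1, horth _ hmem1]
    exact hneg v hv
  have h3 : ⟪D.B a z, z⟫ ≤ (δ / 2) * ‖v‖ ^ 2 := by
    rw [horth _ (D.B_mem _ _)]
    calc ⟪D.B a z, v⟫ ≤ ‖D.B a z‖ * ‖v‖ := real_inner_le_norm _ _
      _ ≤ (‖D.B‖ * ‖a‖ * ‖z‖) * ‖v‖ := by
          gcongr
          exact D.B.le_opNorm₂ a z
      _ ≤ ((‖D.B‖ + 1) * (2 * ε) * (C0 * ‖v‖)) * ‖v‖ := by
          have := norm_nonneg D.B
          gcongr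
          linarith
      _ = (δ / 2) * ‖v‖ ^ 2 := by
          rw [hε]
          have : 0 < ‖D.B‖ + 1 := by positivity
          field_simp
          ring
  rw [inner_add_left]
  have h4 : ‖z‖ ^ 2 ≤ C0 ^ 2 * ‖v‖ ^ 2 := by
    rw [← mul_pow]
    exact pow_le_pow_left₀ (norm_nonneg _) hle 2
  have h5 : δ / (2 * C0 ^ 2) * ‖z‖ ^ 2 ≤ (δ / 2) * ‖v‖ ^ 2 := by
    calc δ / (2 * C0 ^ 2) * ‖z‖ ^ 2 ≤ δ / (2 * C0 ^ 2) * (C0 ^ 2 * ‖v‖ ^ 2) := by gcongr
      _ = (δ / 2) * ‖v‖ ^ 2 := by field_simp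
  linarith

end Data

/-- the deviation, extended by zero -/
noncomputable def dev (D : Data H) (u : ℝ → H) : ℝ → H := (Ici (0 : ℝ)).indicator fun t => u t - D.up

/-- the right-hand side, extended by zero -/
noncomputable def rhs (D : Data H) (u : ℝ → H) : ℝ → H :=
  (Ici (0 : ℝ)).indicator fun t => D.B (u t) (u t)

theorem dev_meas {D : Data H} {u : ℝ → H} (hu : IsSolution D u) :
    AEStronglyMeasurable (dev D u) volume := by
  unfold dev
  rw [aestronglyMeasurable_indicator_iff measurableSet_Ici]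
  exact hu.meas.sub aestronglyMeasurable_const

theorem rhs_meas {D : Data H} {u : ℝ → H} (hu : IsSolution D u) :
    AEStronglyMeasurable (rhs D u) volume := by
  unfold rhs
  rw [aestronglyMeasurable_indicator_iff measurableSet_Ici]
  exact D.B.aestronglyMeasurable_comp₂ hu.meas hu.meas

theorem rhs_bdd {D : Data H} {u : ℝ → H} (hu : IsSolution D u) :
    ∃ G : ℝ, ∀ᵐ t, ‖rhs D u t‖ ≤ G := by
  obtain ⟨M, hM⟩ := hu.bdd
  have hM' := (ae_restrict_iff' measurableSet_Ici).mp hM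
  refine ⟨‖D.B‖ * |M| * |M|, ?_⟩
  filter_upwards [hM'] with t ht
  unfold rhs
  by_cases h : t ∈ Ici (0 : ℝ)
  · rw [indicator_of_mem h]
    refine (D.B.le_opNorm₂ _ _).trans ?_
    have h1 : ‖u t‖ ≤ |M| := (ht h).trans (le_abs_self M)
    have := norm_nonneg (u t)
    gcongr
  · rw [indicator_of_notMem h, norm_zero]
    positivity

/-- The integral form of the equation. -/
theorem integral_form {D : Data H} {u : ℝ → H} (hu : IsSolution D u) {t : ℝ}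
    (ht : 0 ≤ t) : D.A (u t) = D.A (u 0) + ∫ r in (0 : ℝ)..t, rhs D u r := by
  obtain ⟨G, hG⟩ := rhs_bdd hu
  have hG0 : 0 ≤ G := by
    obtain ⟨t, ht⟩ := hG.exists
    exact (norm_nonneg _).trans ht
  have hgi := intInt_of_bdd (rhs_meas hu) hG
  have hlip : LipschitzOnWith (Real.toNNReal G) (fun x => ∫ r in (0 : ℝ)..x, rhs D u r)
      (uIcc 0 t) := by
    refine LipschitzOnWith.of_dist_le_mul fun x _ y _ => ?_
    rw [dist_eq_norm, intervalIntegral.integral_interval_sub_left (hgi _ _) (hgi _ _),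
      Real.coe_toNNReal _ hG0, dist_comm, Real.dist_eq, abs_sub_comm]
    exact intervalIntegral.norm_integral_le_of_norm_le_const_ae
      (by filter_upwards [hG] with x hx _ using hx)
  have hac : AbsolutelyContinuousOnInterval
      ((fun x => D.A (u x)) - fun x => ∫ r in (0 : ℝ)..x, rhs D u r) 0 t :=
    (hu.ac t ht).sub hlip.absolutelyContinuousOnInterval
  have hde : ∀ᵐ x, x ∈ uIcc 0 t →
      HasDerivAt ((fun x => D.A (u x)) - fun x => ∫ r in (0 : ℝ)..x, rhs D u r) 0 x := by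
    have h1 := (ae_restrict_iff' measurableSet_Ici).mp hu.eq
    filter_upwards [h1, _root_.LocallyIntegrable.ae_hasDerivAt_integral
      (locInt_of_bdd (rhs_meas hu) hG)] with x hx1 hx2 hx
    have hx0 : 0 ≤ x := by
      rw [uIcc_of_le ht] at hx
      exact hx.1
    have h2 : rhs D u x = D.B (u x) (u x) := indicator_of_mem (show x ∈ Ici (0 : ℝ) from hx0) _
    have h3 := (hx1 hx0).sub (hx2 0)
    rw [h2, sub_self] at h3
    exact h3
  obtain ⟨C, hC⟩ := hac.const_of_ae_hasDerivAt_zero hde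
  have e0 := hC 0 (by simp)
  have e1 := hC t (by simp)
  simp only [Pi.sub_apply] at e0 e1
  rw [intervalIntegral.integral_same, sub_zero] at e0
  rw [← e0, sub_eq_iff_eq_add] at e1
  exact e1

end Q94.EX
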