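import Pool.Agent.Q94.EXE

/-!
Pointwise exponential convergence of small bounded solutions.
-/

open Set Filter Topology MeasureTheory intervalIntegral
open scoped RealInnerProductSpace

namespace Q94.EX

variable {H : Type*} [NormedAddCommGroup H] [InnerProductSpace ℝ H] [CompleteSpace H]

theorem int_mem {V : Submodule ℝ H} (hV : IsClosed (V : Set H)) {f : ℝ → H} {a b : ℝ}
    (hf : IntervalIntegrable f volume a b) (h : ∀ r, f r ∈ V) : ∫ r in a..b, f r ∈ V := by
  have hVc : CompleteSpace V := hV.completeSpace_coe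
  rw [← Submodule.orthogonal_orthogonal V, Submodule.mem_orthogonal]
  intro k hk
  have h1 : ⟪k, ∫ r in a..b, f r⟫ = ∫ r in a..b, ⟪k, f r⟫ :=
    ((innerSL ℝ k).intervalIntegral_comp_comm hf).symm
  rw [h1]
  have h2 : ∀ r, ⟪k, f r⟫ = 0 := fun r => by
    rw [real_inner_comm]; exact (Submodule.mem_orthogonal V k).mp hk _ (h r)
  simp [h2]

variable {D : Data H} {u : ℝ → H}

theorem rhs_mem (D : Data H) (u : ℝ → H) (r : ℝ) : rhs D u r ∈ D.V := by
  unfold rhs
  by_cases h : r ∈ Ici (0 : ℝ)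
  · rw [indicator_of_mem h]; exact D.B_mem _ _
  · rw [indicator_of_notMem h]; exact D.V.zero_mem

theorem A_sub_mem (hu : IsSolution D u) {s t : ℝ} (hs : 0 ≤ s) (ht : 0 ≤ t) :
    D.A (u t) - D.A (u s) ∈ D.V := by
  obtain ⟨G, hG⟩ := rhs_bdd hu
  have hgi := intInt_of_bdd (rhs_meas hu) hG
  rw [integral_form hu hs, integral_form hu ht, add_sub_add_left_eq_sub,
    intervalIntegral.integral_interval_sub_left (hgi _ _) (hgi _ _)]
  exact int_mem D.V_closed (hgi _ _) (rhs_mem D u)

theorem B_sub (D : Data H) (x y : H) : D.B x x - D.B y y =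
    (2 : ℝ) • D.B D.up (x - y) + D.B ((x - D.up) + (y - D.up)) (x - y) := by
  simp only [map_sub, map_add, _root_.sub_apply, _root_.add_apply]
  rw [D.B_symm y x, two_smul]
  abel

theorem B_diff_le (D : Data H) (x v : H) :
    ‖D.B x x - D.B v v‖ ≤ ‖D.B‖ * (2 * ‖v‖ + ‖x - v‖) * ‖x - v‖ := by
  have e : D.B x x - D.B v v = D.B (x - v) x + D.B v (x - v) := by
    simp only [map_sub, _root_.sub_apply]
    abel
  rw [e]
  have h1 := D.B.le_opNorm₂ (x - v) x
  have h2 := D.B.le_opNorm₂ v (x - v)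
  have h3 : ‖x‖ ≤ ‖x - v‖ + ‖v‖ := by
    have := norm_add_le (x - v) v
    rwa [sub_add_cancel] at this
  have h4 := norm_nonneg D.B
  have h5 := norm_nonneg (x - v)
  calc ‖D.B (x - v) x + D.B v (x - v)‖ ≤ ‖D.B (x - v) x‖ + ‖D.B v (x - v)‖ := norm_add_le _ _
    _ ≤ ‖D.B‖ * ‖x - v‖ * ‖x‖ + ‖D.B‖ * ‖v‖ * ‖x - v‖ := add_le_add h1 h2
    _ ≤ ‖D.B‖ * ‖x - v‖ * (‖x - v‖ + ‖v‖) + ‖D.B‖ * ‖v‖ * ‖x - v‖ := by gcongr
    _ = _ := by ring

/-- the limit is an equilibrium -/
theorem limit_eq (hu : IsSolution D u) {v : H} {C β : ℝ} (hβ : 0 < β)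
    (h : ∀ᵐ t, 0 ≤ t → ‖u t - v‖ ≤ C * Real.exp (-β * t)) : D.B v v = 0 := by
  obtain ⟨G, hG⟩ := rhs_bdd hu
  have hgi := intInt_of_bdd (rhs_meas hu) hG
  have hC0 : 0 ≤ C := by
    obtain ⟨t, ht0, ht⟩ := ae_exists_ge h 0
    have h1 := (norm_nonneg _).trans (ht ht0)
    exact nonneg_of_mul_nonneg_left h1 (Real.exp_pos _)
  set K := 2 * ‖D.A‖ * C + ‖D.B‖ * (2 * ‖v‖ + C) * C with hK
  have key : ∀ᵐ t, 0 ≤ t → ‖D.B v v‖ ≤ K * Real.exp (-β * t) := by
    filter_upwards [h, ae_shift h 1] with t h1 h2 ht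
    have k1 := h1 ht
    have k2 := h2 (by linarith)
    have hexp : Real.exp (-β * (t + 1)) ≤ Real.exp (-β * t) :=
      Real.exp_le_exp.mpr (by nlinarith)
    have k2' : ‖u (t + 1) - v‖ ≤ C * Real.exp (-β * t) :=
      k2.trans (mul_le_mul_of_nonneg_left hexp hC0)
    have e1 : D.A (u (t + 1)) - D.A (u t) = ∫ r in t..(t + 1), rhs D u r := by
      rw [integral_form hu ht, integral_form hu (show 0 ≤ t + 1 by linarith),
        add_sub_add_left_eq_sub, intervalIntegral.integral_interval_sub_left (hgi _ _) (hgi _ _)]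
    have e2 : D.A (u (t + 1)) - D.A (u t) = D.A (u (t + 1) - v) - D.A (u t - v) := by
      rw [map_sub, map_sub]; abel
    have b1 : ‖∫ r in t..(t + 1), rhs D u r‖ ≤ 2 * ‖D.A‖ * C * Real.exp (-β * t) := by
      rw [← e1, e2]
      calc ‖D.A (u (t + 1) - v) - D.A (u t - v)‖
          ≤ ‖D.A (u (t + 1) - v)‖ + ‖D.A (u t - v)‖ := norm_sub_le _ _
        _ ≤ ‖D.A‖ * ‖u (t + 1) - v‖ + ‖D.A‖ * ‖u t - v‖ :=
            add_le_add (D.A.le_opNorm _) (D.A.le_opNorm _)
        _ ≤ ‖D.A‖ * (C * Real.exp (-β * t)) + ‖D.A‖ * (C * Real.exp (-β * t)) := by gcongr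
        _ = _ := by ring
    have b2 : ‖∫ r in t..(t + 1), (rhs D u r - D.B v v)‖ ≤
        (‖D.B‖ * (2 * ‖v‖ + C) * (C * Real.exp (-β * t))) * |t + 1 - t| := by
      refine intervalIntegral.norm_integral_le_of_norm_le_const_ae ?_
      filter_upwards [h] with r hr hrt
      rw [uIoc_of_le (by linarith)] at hrt
      have hr0 : 0 ≤ r := ht.trans hrt.1.le
      have e3 : rhs D u r = D.B (u r) (u r) := indicator_of_mem (show r ∈ Ici (0 : ℝ) from hr0) _
      rw [e3]
      refine (B_diff_le D _ _).trans ?_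
      have hexp2 : Real.exp (-β * r) ≤ Real.exp (-β * t) :=
        Real.exp_le_exp.mpr (by nlinarith [hrt.1])
      have hexp3 : Real.exp (-β * r) ≤ 1 := Real.exp_le_one_iff.mpr (by nlinarith)
      have k3 := hr hr0
      have k4 : ‖u r - v‖ ≤ C := k3.trans (by nlinarith)
      have k5 : ‖u r - v‖ ≤ C * Real.exp (-β * t) :=
        k3.trans (mul_le_mul_of_nonneg_left hexp2 hC0)
      have := norm_nonneg D.B
      have := norm_nonneg v
      gcongr
    rw [add_sub_cancel_left, abs_one, mul_one] at b2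
    have e4 : D.B v v = (∫ r in t..(t + 1), rhs D u r) -
        ∫ r in t..(t + 1), (rhs D u r - D.B v v) := by
      rw [intervalIntegral.integral_sub (hgi _ _) intervalIntegrable_const,
        intervalIntegral.integral_const, add_sub_cancel_left, one_smul, sub_sub_cancel]
    rw [e4]
    refine (norm_sub_le _ _).trans ?_
    refine (add_le_add b1 b2).trans (le_of_eq ?_)
    rw [hK]; ring
  -- let t → ∞
  have hlim : Tendsto (fun t : ℝ => K * Real.exp (-β * t)) atTop (𝓝 0) := by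
    have h1 : Tendsto (fun t : ℝ => Real.exp (-β * t)) atTop (𝓝 0) := by
      refine Real.tendsto_exp_atBot.comp ?_
      exact Tendsto.const_mul_atTop_of_neg (by linarith) tendsto_id
    simpa using h1.const_mul K
  rw [← norm_eq_zero]
  refine le_antisymm ?_ (norm_nonneg _)
  by_contra hcon
  push Not at hcon
  have hev := (hlim.eventually (gt_mem_nhds hcon))
  obtain ⟨T, hT⟩ := eventually_atTop.mp hev
  obtain ⟨t, ht, htk⟩ := ae_exists_ge key (max T 0)
  have h1 := htk ((le_max_right _ _).trans ht)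
  have h2 := hT t ((le_max_left _ _).trans ht)
  linarith

/-- Main theorem. -/
theorem main (D : Data H) : ∃ ε β : ℝ, 0 < ε ∧ 0 < β ∧ ∀ u : ℝ → H, IsSolution D u →
    (∀ᵐ t ∂(volume.restrict (Ici 0)), ‖u t - D.up‖ ≤ ε) →
    ∃ (v : H) (C : ℝ), D.B v v = 0 ∧
      (∀ᵐ t ∂(volume.restrict (Ici 0)), ‖u t - v‖ ≤ C * Real.exp (-β * t)) ∧
      (v = D.up ↔ D.A (u 0 - D.up) ∈ D.V) ∧
      (MemLp (fun t => u t - D.up) 2 (volume.restrict (Ici 0)) → v = D.up) := by
  obtain ⟨c, ε, hc, hε, hcoer⟩ := D.exists_coercive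
  set L : ℝ := ‖D.A‖ / c + 1 with hL
  have hL0 : 0 < L := by positivity
  have hcL : ‖D.A‖ ≤ c * L := by
    rw [hL, mul_add, mul_div_cancel₀ _ hc.ne']
    linarith
  set β := Real.log 2 / L / 8 with hβ
  have hβ0 : 0 < β := by
    have := Real.log_pos (show (1 : ℝ) < 2 by norm_num)
    positivity
  refine ⟨ε, β, hε, hβ0, ?_⟩
  intro u hu hsmall
  have hsmall' := (ae_restrict_iff' measurableSet_Ici).mp hsmall
  have hw := dev_meas hu
  have hg := rhs_meas hu
  have hM : ∀ᵐ t, ‖dev D u t‖ ≤ ε := by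
    filter_upwards [hsmall'] with t ht
    unfold dev
    by_cases h : t ∈ Ici (0 : ℝ)
    · rw [indicator_of_mem h]; exact ht h
    · rw [indicator_of_notMem h, norm_zero]; exact hε.le
  obtain ⟨G, hG⟩ := rhs_bdd hu
  have hdev : ∀ t, 0 ≤ t → dev D u t = u t - D.up := fun t ht =>
    indicator_of_mem (show t ∈ Ici (0 : ℝ) from ht) _
  have hrhs : ∀ t, 0 ≤ t → rhs D u t = D.B (u t) (u t) := fun t ht =>
    indicator_of_mem (show t ∈ Ici (0 : ℝ) from ht) _
  have hy : ∀ᵐ t, 0 ≤ t → D.A (dev D u t) = D.A (u 0 - D.up) +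
      ∫ r in (0 : ℝ)..t, rhs D u r := by
    refine Eventually.of_forall fun t ht => ?_
    rw [hdev t ht, map_sub, map_sub, integral_form hu ht]
    abel
  have hd : ∀ h : ℝ, 0 < h → ∀ᵐ r, 0 ≤ r →
      ⟪df (rhs D u) h r, df (dev D u) h r⟫ ≤ -c * ‖df (dev D u) h r‖ ^ 2 := by
    intro h hh
    filter_upwards [hsmall', ae_shift hsmall' h] with r h1 h2 hr
    have hrh : 0 ≤ r + h := by linarith
    have e1 : df (dev D u) h r = u (r + h) - u r := by
      unfold df
      rw [hdev _ hr, hdev _ hrh]; abel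
    have e2 : df (rhs D u) h r = (2 : ℝ) • D.B D.up (u (r + h) - u r) +
        D.B ((u (r + h) - D.up) + (u r - D.up)) (u (r + h) - u r) := by
      unfold df
      rw [hrhs _ hr, hrhs _ hrh, B_sub]
    rw [e1, e2]
    refine hcoer _ _ ?_ ?_
    · rw [map_sub]; exact A_sub_mem hu hr hrh
    · have k1 := h1 hr
      have k2 := h2 hrh
      refine (norm_add_le _ _).trans ?_
      linarith
  obtain ⟨v', C, hv', hconv⟩ := pointwise D.A_symm hw hg hM hG hy hc hd hL0 hcL
  have hconv' : ∀ᵐ t, 0 ≤ t → ‖u t - (D.up + v')‖ ≤ C * Real.exp (-β * t) := by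
    filter_upwards [hconv] with t ht h0
    have := ht h0
    rw [hdev t h0] at this
    rwa [← sub_sub]
  have hBv := limit_eq hu hβ0 hconv'
  have hC0 : 0 ≤ C := by
    obtain ⟨t, ht0, ht⟩ := ae_exists_ge hconv' 0
    have h1 := (norm_nonneg _).trans (ht ht0)
    exact nonneg_of_mul_nonneg_left h1 (Real.exp_pos _)
  have hVc : CompleteSpace D.V := D.V_closed.completeSpace_coe
  -- times along which u converges
  have htimes : ∀ n : ℕ, ∃ t : ℝ, (n : ℝ) ≤ t ∧ (0 ≤ t → ‖u t - (D.up + v')‖ ≤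
      C * Real.exp (-β * t)) := fun n => ae_exists_ge hconv' n
  choose tn htn1 htn2 using htimes
  have htn0 : ∀ n, 0 ≤ tn n := fun n => (Nat.cast_nonneg n).trans (htn1 n)
  have htnlim : Tendsto tn atTop atTop := tendsto_atTop_mono htn1 tendsto_natCast_atTop_atTop
  have hulim : Tendsto (fun n => u (tn n)) atTop (𝓝 (D.up + v')) := by
    rw [tendsto_iff_norm_sub_tendsto_zero]
    have h1 : Tendsto (fun n => C * Real.exp (-β * tn n)) atTop (𝓝 0) := by
      have h2 : Tendsto (fun n => Real.exp (-β * tn n)) atTop (𝓝 0) := by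
        refine Real.tendsto_exp_atBot.comp ?_
        exact Tendsto.const_mul_atTop_of_neg (by linarith) htnlim
      simpa using h2.const_mul C
    exact squeeze_zero (fun n => norm_nonneg _) (fun n => htn2 n (htn0 n)) h1
  -- the limit and the conserved quantity
  have hAlim : D.A (D.up + v') - D.A (u 0) ∈ D.V := by
    have h1 : Tendsto (fun n => D.A (u (tn n)) - D.A (u 0)) atTop
        (𝓝 (D.A (D.up + v') - D.A (u 0))) :=
      ((D.A.continuous.tendsto _).comp hulim).sub tendsto_const_nhds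
    exact D.V_closed.mem_of_tendsto h1 (Eventually.of_forall fun n => A_sub_mem hu le_rfl (htn0 n))
  have hiff : D.up + v' = D.up ↔ D.A (u 0 - D.up) ∈ D.V := by
    constructor
    · intro h
      rw [h] at hAlim
      rw [map_sub, ← neg_sub]
      exact D.V.neg_mem hAlim
    · intro h
      have h1 : D.A v' ∈ D.V := by
        have : D.A v' = (D.A (D.up + v') - D.A (u 0)) + D.A (u 0 - D.up) := by
          rw [map_add, map_sub]; abel
        rw [this]
        exact D.V.add_mem hAlim h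
      have h2 : (2 : ℝ) • D.B D.up v' + D.B v' v' = 0 := by
        have h3 : D.B (D.up + v') (D.up + v') = D.B D.up D.up + ((2 : ℝ) • D.B D.up v' +
            D.B v' v') := by
          simp only [map_add, _root_.add_apply]
          rw [D.B_symm v' D.up, two_smul]
          abel
        rw [hBv, D.up_zero, zero_add] at h3
        exact h3.symm
      have h4 := hcoer v' v' h1 (by linarith)
      rw [h2, inner_zero_left] at h4
      have h5 : ‖v'‖ = 0 := by
        by_contra hne
        have : 0 < ‖v'‖ ^ 2 := by positivity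
        nlinarith
      rw [norm_eq_zero.mp h5, add_zero]
  refine ⟨D.up + v', C, hBv, (ae_restrict_iff' measurableSet_Ici).mpr hconv', hiff, ?_⟩
  -- square integrable deviations
  intro hL2
  have hsq : Integrable (fun t => ‖u t - D.up‖ ^ 2) (volume.restrict (Ici 0)) :=
    (memLp_two_iff_integrable_sq_norm hL2.1).mp hL2
  have hexpi : IntegrableOn (fun t => Real.exp (-(2 * β) * t)) (Ici 0) := by
    rw [integrableOn_Ici_iff_integrableOn_Ioi]
    exact exp_neg_integrableOn_Ioi 0 (by positivity)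
  have hdom : Integrable (fun t => 2 * ‖u t - D.up‖ ^ 2 + 2 * C ^ 2 * Real.exp (-(2 * β) * t))
      (volume.restrict (Ici 0)) := (hsq.const_mul 2).add (hexpi.const_mul (2 * C ^ 2))
  have hconst : Integrable (fun _ : ℝ => ‖v'‖ ^ 2) (volume.restrict (Ici 0)) := by
    refine hdom.mono' aestronglyMeasurable_const ?_
    filter_upwards [(ae_restrict_iff' measurableSet_Ici).mpr hconv'] with t ht
    rw [Real.norm_eq_abs, abs_of_nonneg (by positivity)]
    have h1 : ‖v'‖ ≤ ‖u t - D.up‖ + C * Real.exp (-β * t) := by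
      have h2 : v' = (u t - D.up) - (u t - (D.up + v')) := by abel
      calc ‖v'‖ = ‖(u t - D.up) - (u t - (D.up + v'))‖ := by rw [← h2]
        _ ≤ ‖u t - D.up‖ + ‖u t - (D.up + v')‖ := norm_sub_le _ _
        _ ≤ _ := by linarith
    have h3 : Real.exp (-(2 * β) * t) = Real.exp (-β * t) ^ 2 := by
      rw [← Real.exp_nat_mul]; congr 1; push_cast; ring
    rw [h3]
    have h4 := norm_nonneg v'
    nlinarith [sq_nonneg (‖u t - D.up‖ - C * Real.exp (-β * t))]
  have hzero : ‖v'‖ ^ 2 = 0 := by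
    rw [integrable_const_iff] at hconst
    rcases hconst with h | h
    · exact h
    · exfalso
      have h1 := h.measure_univ_lt_top
      rw [Measure.restrict_apply_univ, Real.volume_Ici] at h1
      exact lt_irrefl _ h1
  have : v' = 0 := by
    rw [← norm_eq_zero]
    exact pow_eq_zero_iff (two_ne_zero) |>.mp hzero
  rw [this, add_zero]

end Q94.EX
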