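import Pool.Agent.Q94.EXE

/-!
Equilibria near `u^+` and an explicit instance of the data.
-/

open Set Filter Topology MeasureTheory
open scoped RealInnerProductSpace

namespace Q94.EX

variable {H : Type*} [NormedAddCommGroup H] [InnerProductSpace ℝ H] [CompleteSpace H]

/-- `T` is onto `V`. -/
theorem T_surj (D : Data H) : ∀ y ∈ D.V, ∃ x ∈ D.V, (2 : ℝ) • D.B D.up x = y := by
  have hVc : CompleteSpace D.V := D.V_closed.completeSpace_coe
  obtain ⟨δ, hδ, hneg⟩ := D.T_neg
  -- the bilinear form `-⟪T x, y⟫` on `V`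
  set b : D.V →L[ℝ] D.V →L[ℝ] ℝ :=
    -((innerSL ℝ).bilinearComp (((2 : ℝ) • D.B D.up).comp D.V.subtypeL) D.V.subtypeL) with hb
  have hbv : ∀ x y : D.V, b x y = -⟪(2 : ℝ) • D.B D.up x, (y : H)⟫ := fun x y => rfl
  have hco : IsCoercive b := by
    refine ⟨δ, hδ, fun x => ?_⟩
    rw [hbv]
    have := hneg x x.2
    have h2 : ‖(x : D.V)‖ = ‖(x : H)‖ := rfl
    rw [h2]
    nlinarith
  intro y hy
  set e := hco.continuousLinearEquivOfBilin with he
  set x : D.V := e.symm (-⟨y, hy⟩) with hx
  refine ⟨x, x.2, ?_⟩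
  have hTx : (2 : ℝ) • D.B D.up (x : H) ∈ D.V := D.V.smul_mem _ (D.B_mem _ _)
  have h1 : ∀ v : D.V, ⟪(2 : ℝ) • D.B D.up (x : H) - y, (v : H)⟫ = 0 := by
    intro v
    have h2 := hco.continuousLinearEquivOfBilin_apply x v
    rw [hbv] at h2
    have h3 : hco.continuousLinearEquivOfBilin x = -⟨y, hy⟩ := e.apply_symm_apply _
    rw [h3] at h2
    have h4 : ⟪(-⟨y, hy⟩ : D.V), v⟫ = -⟪y, (v : H)⟫ := by
      rw [inner_neg_left]; rfl
    rw [h4] at h2
    rw [inner_sub_left]
    linarith
  have h5 := h1 ⟨_, D.V.sub_mem hTx hy⟩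
  have h6 : (2 : ℝ) • D.B D.up (x : H) - y = 0 := inner_self_eq_zero.mp h5
  exact sub_eq_zero.mp h6

/-- Every neighbourhood of `u^+` contains other equilibria. -/
theorem exists_equilibrium (D : Data H) {ε : ℝ} (hε : 0 < ε) :
    ∃ v : H, v ≠ D.up ∧ ‖v - D.up‖ ≤ ε ∧ D.B v v = 0 := by
  have hVc : CompleteSpace D.V := D.V_closed.completeSpace_coe
  have hfin := D.V_fin
  set P : H →L[ℝ] D.V := D.V.orthogonalProjectionOnto with hP
  have hPV : ∀ x : H, x ∈ D.V → ((P x : D.V) : H) = x := fun x hx => by
    have := Submodule.orthogonalProjectionOnto_mem_subspace_eq_self (K := D.V) ⟨x, hx⟩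
    rw [hP]
    exact congrArg Subtype.val this
  set T : H →L[ℝ] H := (2 : ℝ) • D.B D.up with hT
  have hTm : ∀ x, T x ∈ D.V := fun x => D.V.smul_mem _ (D.B_mem _ _)
  set f : H → D.V := fun x => P (T x + D.B x x) with hf
  set f' : H →L[ℝ] D.V := P.comp T with hf'
  have hstrict : HasStrictFDerivAt f f' 0 := by
    have h1 : HasStrictFDerivAt (fun x => D.B x x)
        ((D.B 0).comp (ContinuousLinearMap.id ℝ H) + (D.B.flip 0)) 0 :=
      HasStrictFDerivAt.clm_apply (D.B.hasStrictFDerivAt (x := (0 : H)))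
        (hasStrictFDerivAt_id (𝕜 := ℝ) (0 : H))
    have h2 := P.hasStrictFDerivAt.comp (0 : H) ((T.hasStrictFDerivAt (x := (0 : H))).add h1)
    refine h2.congr_fderiv ?_
    ext x
    simp [hf']
  have hrange : f'.range = ⊤ := by
    rw [eq_top_iff]
    rintro ⟨y, hy⟩ -
    obtain ⟨x, -, hx⟩ := T_surj D y hy
    refine ⟨x, ?_⟩
    apply Subtype.ext
    show ((P (T x) : D.V) : H) = y
    rw [hPV _ (hTm x)]
    exact hx
  have hkereq : f'.ker = D.Vᗮ := by
    ext x
    rw [LinearMap.mem_ker]
    have h1 : (f' x = 0) ↔ T x = 0 := by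
      constructor
      · intro h
        have h2 : ((P (T x) : D.V) : H) = 0 := congrArg Subtype.val h
        rwa [hPV _ (hTm x)] at h2
      · intro h
        show P (T x) = 0
        rw [h, map_zero]
    exact h1.trans (D.T_ker x)
  have hkfin : FiniteDimensional ℝ f'.ker := by rw [hkereq]; exact hfin
  have hker : f'.ker.ClosedComplemented := Submodule.ClosedComplemented.of_finiteDimensional _
  -- a nonzero vector in the kernel
  have hbot : f'.ker ≠ ⊥ := by
    rw [hkereq]
    intro h
    exact D.V_ne (Submodule.orthogonal_eq_bot_iff.mp h)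
  obtain ⟨k, hk, hk0⟩ := Submodule.exists_mem_ne_zero_of_ne_bot hbot
  set e := hstrict.implicitToOpenPartialHomeomorphOfComplemented f f' hrange hker with he
  have he0 : e 0 = (f 0, 0) :=
    hstrict.implicitToOpenPartialHomeomorphOfComplemented_self hrange hker
  have hf0 : f 0 = 0 := by simp [hf]
  have htar : (f 0, (0 : f'.ker)) ∈ e.target :=
    hstrict.mem_implicitToOpenPartialHomeomorphOfComplemented_target hrange hker
  have hsrc : (0 : H) ∈ e.source :=
    hstrict.mem_implicitToOpenPartialHomeomorphOfComplemented_source hrange hker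
  have hsymm0 : e.symm (f 0, 0) = 0 := by rw [← he0]; exact e.left_inv hsrc
  -- the path
  set γ : ℝ → D.V × f'.ker := fun s => (f 0, s • ⟨k, hk⟩) with hγ
  have hγc : ContinuousAt γ 0 := by
    rw [hγ]; fun_prop
  have hγ0 : γ 0 = (f 0, 0) := by simp [hγ]
  have h1 : ∀ᶠ s in 𝓝 (0 : ℝ), γ s ∈ e.target := by
    refine hγc.eventually_mem ?_
    rw [hγ0]
    exact e.open_target.mem_nhds htar
  have h2 : ∀ᶠ s in 𝓝 (0 : ℝ), ‖e.symm (γ s)‖ < ε := by
    have hc : ContinuousAt (fun s => e.symm (γ s)) 0 := by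
      refine ContinuousAt.comp ?_ hγc
      rw [hγ0]
      exact e.continuousAt_symm htar
    have hc2 := hc.norm
    refine hc2.eventually_lt continuousAt_const ?_
    rw [hγ0, hsymm0, norm_zero]
    exact hε
  have h3 : ∀ᶠ s in 𝓝[≠] (0 : ℝ), γ s ∈ e.target ∧ ‖e.symm (γ s)‖ < ε :=
    (h1.and h2).filter_mono nhdsWithin_le_nhds
  obtain ⟨s, ⟨hs1, hs2⟩, hs0⟩ := (h3.and self_mem_nhdsWithin).exists
  set x := e.symm (γ s) with hx
  have hex : e x = γ s := e.right_inv hs1
  have hfx : f x = 0 := by
    have h4 : (e x).1 = f x :=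
      hstrict.implicitToOpenPartialHomeomorphOfComplemented_fst hrange hker x
    rw [← h4, hex]
    exact hf0
  have hx0 : x ≠ 0 := by
    intro h
    have h5 : e x = e 0 := by rw [h]
    rw [hex, he0] at h5
    have h6 : s • (⟨k, hk⟩ : f'.ker) = 0 := congrArg Prod.snd h5
    have h7 : s • k = 0 := congrArg Subtype.val h6
    rcases smul_eq_zero.mp h7 with h8 | h8
    · exact hs0 h8
    · exact hk0 h8
  refine ⟨D.up + x, ?_, ?_, ?_⟩
  · intro h
    exact hx0 (by simpa using h)
  · rw [add_sub_cancel_left]; exact hs2.le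
  · have h8 : T x + D.B x x ∈ D.V := D.V.add_mem (hTm x) (D.B_mem _ _)
    have h9 : T x + D.B x x = 0 := by
      rw [← hPV _ h8]
      exact congrArg Subtype.val hfx
    simp only [map_add, _root_.add_apply]
    rw [D.up_zero, D.B_symm x D.up, zero_add]
    have h10 : T x = D.B D.up x + D.B D.up x := by rw [hT]; simp [two_smul]
    rw [h10] at h9
    rw [← h9]
    abel

/-- constant functions at equilibria are solutions -/
theorem const_solution (D : Data H) {v : H} (hv : D.B v v = 0) : IsSolution D fun _ => v where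
  meas := aestronglyMeasurable_const
  bdd := ⟨‖v‖, Eventually.of_forall fun _ => le_rfl⟩
  ac := fun b _ => by
    have : LipschitzOnWith 0 (fun _ : ℝ => D.A v) (uIcc 0 b) :=
      (LipschitzWith.const (D.A v)).lipschitzOnWith
    exact this.absolutelyContinuousOnInterval
  eq := Eventually.of_forall fun t => by
    rw [hv]
    exact hasDerivAt_const t (D.A v)

/-- An explicit instance of the data, on the plane. -/
noncomputable def planeData : Data ℂ where
  A := Complex.imCLM.smulRight (1 : ℂ) + (Complex.reCLM + Complex.imCLM).smulRight Complex.I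
  V := LinearMap.ker Complex.imLm
  B := -((1 / 2 : ℝ) • (Complex.reCLM.smulRight (Complex.imCLM.smulRight (1 : ℂ)) +
    Complex.imCLM.smulRight (Complex.reCLM.smulRight (1 : ℂ))))
  up := Complex.I
  A_symm := by
    intro x y
    simp [Complex.inner]
    ring
  V_closed := by
    have : ((LinearMap.ker Complex.imLm : Submodule ℝ ℂ) : Set ℂ) = {z : ℂ | z.im = 0} := rfl
    rw [this]
    exact isClosed_eq Complex.continuous_im continuous_const
  V_ne := by
    intro h
    have : Complex.I ∈ (LinearMap.ker Complex.imLm : Submodule ℝ ℂ) := by rw [h]; trivial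
    simp at this
  V_fin := inferInstance
  B_symm := by
    intro x y
    simp
    ring
  B_mem := by
    intro x y
    simp
  A_inj := by
    intro x y h
    have h1 := congrArg Complex.re h
    have h2 := congrArg Complex.im h
    simp at h1 h2
    exact Complex.ext (by linarith) h1
  PA_inv := by
    have hmem : ∀ z : ℂ, z ∈ (LinearMap.ker Complex.imLm : Submodule ℝ ℂ)ᗮ ↔ z.re = 0 := by
      intro z
      rw [Submodule.mem_orthogonal]
      constructor
      · intro h
        have := h 1 (by simp)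
        simpa [Complex.inner] using this
      · intro h w hw
        have : w.im = 0 := by simpa using hw
        simp [Complex.inner, h, this]
    intro y hy
    rw [hmem] at hy
    refine ⟨y, ⟨(hmem y).mpr hy, ?_⟩, ?_⟩
    · simp [hy]
    · rintro z ⟨hz1, hz2⟩
      rw [hmem] at hz1
      have : z.re + z.im - y.im = 0 := by simpa using hz2
      exact Complex.ext (by rw [hz1, hy]) (by linarith)
  up_zero := by simp
  T_symm := by
    intro x y
    simp [Complex.inner]
  T_ker := by
    intro x
    have hmem : ∀ z : ℂ, z ∈ (LinearMap.ker Complex.imLm : Submodule ℝ ℂ)ᗮ ↔ z.re = 0 := by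
      intro z
      rw [Submodule.mem_orthogonal]
      constructor
      · intro h
        have := h 1 (by simp)
        simpa [Complex.inner] using this
      · intro h w hw
        have : w.im = 0 := by simpa using hw
        simp [Complex.inner, h, this]
    rw [hmem]
    simp
  T_neg := by
    refine ⟨1, one_pos, ?_⟩
    intro x hx
    have h : x.im = 0 := by simpa using hx
    have h2 : ‖x‖ ^ 2 = x.re ^ 2 := by
      rw [Complex.sq_norm, Complex.normSq_apply, h]; ring
    rw [h2]
    simp [Complex.inner]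
    nlinarith
  kawashima := by
    refine ⟨-(Complex.imCLM.smulRight ((1 / 2 : ℝ) : ℂ)) +
      Complex.reCLM.smulRight (((1 / 2 : ℝ) : ℂ) * Complex.I), 1 / 8, by norm_num, ?_, ?_⟩
    · intro x y
      simp [Complex.inner]
      ring
    · intro x
      have h2 : ‖x‖ ^ 2 = x.re ^ 2 + x.im ^ 2 := by
        rw [Complex.sq_norm, Complex.normSq_apply]; ring
      rw [h2]
      simp [Complex.inner]
      nlinarith [sq_nonneg (x.re - x.im), sq_nonneg (x.re + x.im), sq_nonneg x.re,
        sq_nonneg x.im]

end Q94.EX
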