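import Pool.Agent.Helper486.TP.Final

/-! The Riesz measure of the lower envelope: inequality for covers of the index set. -/

namespace Pool.Agent.Envelope94

open MeasureTheory Set Filter Topology Metric Pool.Agent.Helper486.TP
open scoped InnerProductSpace ContDiff Laplacian ENNReal

variable {n : ℕ} {Ω : Set (E n)}

theorem iInf_toReal {m : ℕ} (S : Finset (Fin m)) (hS : S.Nonempty) (a : Fin m → EReal)
    (ha : ∀ i, a i ≠ ⊥ ∧ a i ≠ ⊤) :
    (⨅ j ∈ S, a j).toReal = S.inf' hS (fun j => (a j).toReal) := by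
  rw [← toReal_inf' S hS a ha, Finset.inf'_eq_inf, Finset.inf_eq_iInf]

/-- the inequality for covers -/
theorem cover_envelope (hn : 0 < n) (hΩ : IsOpen Ω) (hΩc : IsPreconnected Ω) {m : ℕ}
    (w : Fin m → E n → EReal) (hw : ∀ j, DeltaSubharmonic Ω (w j)) {c : ℝ} (hc : 0 < c) :
    (∀ S : Finset (Fin m), S.Nonempty → ∃ μ, IsRiesz c Ω (fun x => ⨅ j ∈ S, w j x) μ) ∧
    ∀ (r : ℕ) (A : Fin r → Finset (Fin m)), 2 ≤ r → (∀ i, (A i).Nonempty) →
      (∀ j, ∃ i, j ∈ A i) → ∀ (μ : SignedRadon Ω) (ρ : Fin r → Fin r → SignedRadon Ω),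
      IsRiesz c Ω (fun x => ⨅ j, w j x) μ →
      (∀ i k, i < k → IsRiesz c Ω (fun x => ⨅ j ∈ A i ∪ A k, w j x) (ρ i k)) →
      (∃ I, IsGLB {κ | ∃ i k, i < k ∧ κ = ρ i k} I) ∧
      ∀ I, IsGLB {κ | ∃ i k, i < k ∧ κ = ρ i k} I → I ≤ μ := by
  have hfin : ∀ᵐ x ∂(volume : Measure (E n)), ∀ j, x ∈ Ω → w j x ≠ ⊥ ∧ w j x ≠ ⊤ :=
    ae_all_iff.2 fun j => (hw j).finite hn hΩ hΩc
  have hlap : ∀ j, ∃ P N, HasLap Ω (fun x => (w j x).toReal) P N := fun j =>
    (hw j).exists_lap hn hΩ hΩc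
  have hinf : ∀ (S : Finset (Fin m)) (hS : S.Nonempty), ∀ᵐ x ∂(volume : Measure (E n)),
      x ∈ Ω → S.inf' hS (fun j => (w j x).toReal) = (⨅ j ∈ S, w j x).toReal := by
    intro S hS
    filter_upwards [hfin] with x hx hxΩ
    rw [iInf_toReal S hS (fun j => w j x) (fun j => hx j hxΩ)]
  refine ⟨fun S hS => ?_, ?_⟩
  · obtain ⟨P, N, h⟩ := fam_hasLap hn hΩ hlap S hS
    exact (h.congr hΩ.measurableSet (hinf S hS)).isRiesz hc
  · intro r A hr hA hcov μ ρ hμ hρ
    set v : Fin r → E n → ℝ := fun i x => (A i).inf' (hA i) (fun j => (w j x).toReal) with hv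
    have hvlap : ∀ i, ∃ P N, HasLap Ω (fun x => c * v i x) P N := fun i => by
      obtain ⟨P, N, h⟩ := fam_hasLap hn hΩ hlap (A i) (hA i)
      exact ⟨_, _, h.const_mul hc⟩
    have : Nonempty (Fin r) := ⟨⟨0, by omega⟩⟩
    have hne : (Finset.univ : Finset (Fin r)).Nonempty := Finset.univ_nonempty
    have hneA : ∀ i k, (A i ∪ A k).Nonempty := fun i k => (hA i).mono Finset.subset_union_left
    have hminv : ∀ i k x, min (v i x) (v k x) =
        (A i ∪ A k).inf' (hneA i k) (fun j => (w j x).toReal) := by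
      intro i k x
      simp only [hv]
      rw [Finset.inf'_union (hA i) (hA k)]
    have hm : 0 < m := by
      obtain ⟨j, -⟩ := hA ⟨0, by omega⟩
      exact j.pos
    have : Nonempty (Fin m) := ⟨⟨0, hm⟩⟩
    have hneM : (Finset.univ : Finset (Fin m)).Nonempty := Finset.univ_nonempty
    have hallv : ∀ x, Finset.univ.inf' hne (fun i => v i x) =
        Finset.univ.inf' hneM (fun j => (w j x).toReal) := by
      intro x
      refine le_antisymm ?_ ?_
      · refine Finset.le_inf' _ _ fun j _ => ?_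
        obtain ⟨i, hi⟩ := hcov j
        refine (Finset.inf'_le _ (Finset.mem_univ i)).trans ?_
        simp only [hv]
        exact Finset.inf'_le (fun j => (w j x).toReal) hi
      · refine Finset.le_inf' _ _ fun i _ => ?_
        simp only [hv]
        refine Finset.le_inf' _ _ fun j hj => ?_
        exact Finset.inf'_le (fun j => (w j x).toReal) (Finset.mem_univ j)
    constructor
    · let ι : Type := {p : Fin r × Fin r // p.1 < p.2}
      have : Nonempty ι := ⟨⟨(⟨0, by omega⟩, ⟨1, by omega⟩), by simp [Fin.lt_def]⟩⟩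
      obtain ⟨I, hI⟩ := exists_glb hΩ (fun p : ι => ρ p.1.1 p.1.2)
      refine ⟨I, ?_⟩
      have hr : Set.range (fun p : ι => ρ p.1.1 p.1.2) = {κ | ∃ j k, j < k ∧ κ = ρ j k} := by
        ext κ
        constructor
        · rintro ⟨p, rfl⟩
          exact ⟨p.1.1, p.1.2, p.2, rfl⟩
        · rintro ⟨j, k, hjk, rfl⟩
          exact ⟨⟨(j, k), hjk⟩, rfl⟩
      rwa [← hr]
    · intro I hI
      refine SignedRadon.le_of_int hΩ fun φ hφ hφ0 => ?_
      have hIl : ∀ j k, j < k → ∀ ψ, TestOn Ω ψ → (∀ x, 0 ≤ ψ x) →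
          (∫ x, ψ x ∂I.pos) - (∫ x, ψ x ∂I.neg) ≤
            ∫ x, min (c * v j x) (c * v k x) * (Δ ψ) x := by
        intro j k hjk ψ hψ hψ0
        have h1 : I ≤ ρ j k := hI.1 ⟨j, k, hjk, rfl⟩
        refine (SignedRadon.int_le h1 hψ hψ0).trans (le_of_eq ?_)
        rw [(hρ j k hjk).2 ψ hψ.smooth hψ.cpt hψ.sub,
          ← int_congr_on (hinf (A j ∪ A k) (hneA j k)) hψ, ← integral_const_mul]
        refine integral_congr_ae (Eventually.of_forall fun x => ?_)
        simp only
        rw [← mul_min_of_nonneg _ _ hc.le, hminv]; ring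
      have hIl' : ∀ j k, j ≠ k → ∀ ψ, TestOn Ω ψ → (∀ x, 0 ≤ ψ x) →
          (∫ x, ψ x ∂I.pos) - (∫ x, ψ x ∂I.neg) ≤
            ∫ x, min (c * v j x) (c * v k x) * (Δ ψ) x := by
        intro j k hjk ψ hψ hψ0
        rcases lt_or_gt_of_ne hjk with h | h
        · exact hIl j k h ψ hψ hψ0
        · have := hIl k j h ψ hψ hψ0
          simpa only [min_comm (c * v k _)] using this
      have key := fam_le hn hΩ hvlap I.pos_lt_top I.neg_lt_top hIl' (r - 2) Finset.univ hne
        (by rw [Finset.card_univ, Fintype.card_fin]; omega) φ hφ hφ0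
      refine key.trans (le_of_eq ?_)
      have huniv : ∀ x, (⨅ j, w j x) = ⨅ j ∈ (Finset.univ : Finset (Fin m)), w j x := by
        intro x; simp
      have h2 := hinf Finset.univ hneM
      rw [hμ.2 φ hφ.smooth hφ.cpt hφ.sub]
      simp only [huniv]
      rw [← int_congr_on h2 hφ, ← integral_const_mul]
      refine integral_congr_ae (Eventually.of_forall fun x => ?_)
      simp only
      have hmm : Finset.univ.inf' hne (fun i => c * v i x) =
          c * Finset.univ.inf' hne (fun i => v i x) := by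
        rw [Finset.apply_inf'_eq_inf'_comp (s := Finset.univ) hne (g := fun r : ℝ => c * r)
          (fun x y => mul_min_of_nonneg _ _ hc.le)]
        rfl
      rw [hmm, hallv]; ring

end Pool.Agent.Envelope94
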