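import Mathlib

/-!
# The Hardy space of the bidisk as a sequence space: shifts, evaluation, kernel vectors
-/

open scoped ComplexConjugate Topology InnerProductSpace
open Filter MeasureTheory

noncomputable section

namespace F7

/-- The Hardy space `H^2` of the bidisk: square summable families of Taylor coefficients,
indexed by pairs of exponents. -/
abbrev H2 : Type := lp (fun _ : ℕ × ℕ => ℂ) 2

/-- The monomial `z_1^{a_1} z_2^{a_2}` as an element of the Hardy space. -/
def mono (a : ℕ × ℕ) : H2 := lp.single 2 a (1 : ℂ)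

/-- The points of the open unit bidisk. -/
abbrev D2 : Type := {z : ℂ × ℂ // ‖z.1‖ < 1 ∧ ‖z.2‖ < 1}

/-- The value `∑ f_{mn} z_1^m z_2^n` of the function of the Hardy space with coefficients `f`. -/
def ev (f : H2) (z : D2) : ℂ := ∑' n : ℕ × ℕ, f n * (z.1.1 ^ n.1 * z.1.2 ^ n.2)

theorem mono_apply (a n : ℕ × ℕ) : (mono a : H2) n = if n = a then 1 else 0 := by
  unfold mono
  rw [lp.single_apply]
  simp only [Pi.single_apply]

theorem inner_mono (a : ℕ × ℕ) (f : H2) : ⟪mono a, f⟫_ℂ = f a := by
  unfold mono
  rw [lp.inner_single_left]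
  simp

theorem mono_orthonormal : Orthonormal ℂ mono := by
  rw [orthonormal_iff_ite]
  intro a b
  rw [inner_mono, mono_apply]

theorem norm_mono (a : ℕ × ℕ) : ‖mono a‖ = 1 := mono_orthonormal.1 a

theorem ext_inner_mono {f g : H2} (h : ∀ a, ⟪mono a, f⟫_ℂ = ⟪mono a, g⟫_ℂ) : f = g := by
  apply lp.ext
  funext a
  have := h a
  rwa [inner_mono, inner_mono] at this

theorem hasSum_mono (f : H2) : HasSum (fun a => f a • mono a) f := by
  have h := lp.hasSum_single (p := 2) (by simp) f
  have e : (fun a => f a • mono a) = fun i => lp.single 2 i (f i) := by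
    funext a
    unfold mono
    rw [← lp.single_smul]
    simp
  rw [e]
  exact h

/-- Two continuous linear maps agreeing on all monomials are equal. -/
theorem clm_ext {E : Type*} [NormedAddCommGroup E] [NormedSpace ℂ E] {S T : H2 →L[ℂ] E}
    (h : ∀ a, S (mono a) = T (mono a)) : S = T := by
  ext1 f
  have h1 := (hasSum_mono f).mapL S
  have h2 := (hasSum_mono f).mapL T
  have e : (fun a => S (f a • mono a)) = fun a => T (f a • mono a) := by
    funext a
    rw [map_smul, map_smul, h a]
  rw [e] at h1
  exact h1.unique h2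

theorem mono_dense : (Submodule.span ℂ (Set.range mono)).topologicalClosure = ⊤ := by
  rw [Submodule.eq_top_iff']
  intro f
  refine mem_closure_of_tendsto (hasSum_mono f) (Eventually.of_forall fun s => ?_)
  exact Submodule.sum_mem _ fun a _ => Submodule.smul_mem _ _
    (Submodule.subset_span ⟨a, rfl⟩)

section iso

variable {E : Type*} [NormedAddCommGroup E] [InnerProductSpace ℂ E] [CompleteSpace E]

/-- The isometry of the Hardy space sending the monomials to a given orthonormal family. -/
def isoOf (v : ℕ × ℕ → E) (hv : Orthonormal ℂ v) : H2 →ₗᵢ[ℂ] E :=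
  hv.orthogonalFamily.linearIsometry

theorem isoOf_mono (v : ℕ × ℕ → E) (hv : Orthonormal ℂ v) (a : ℕ × ℕ) :
    isoOf v hv (mono a) = v a := by
  unfold isoOf mono
  rw [hv.orthogonalFamily.linearIsometry_apply_single]
  simp

end iso

theorem add_inj_family (a : ℕ × ℕ) : Orthonormal ℂ (fun b => mono (a + b)) :=
  mono_orthonormal.comp (fun b => a + b) (add_right_injective a)

/-- Multiplication by the monomial `z^a`: the isometry of the Hardy space sending each monomial
`z^b` to `z^{a+b}`. -/
def V (a : ℕ × ℕ) : H2 →L[ℂ] H2 :=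
  (isoOf (fun b => mono (a + b)) (add_inj_family a)).toContinuousLinearMap

theorem V_mono (a b : ℕ × ℕ) : V a (mono b) = mono (a + b) :=
  isoOf_mono _ (add_inj_family a) _

theorem V_norm (a : ℕ × ℕ) (f : H2) : ‖V a f‖ = ‖f‖ := LinearIsometry.norm_map _ _

theorem V_inner (a : ℕ × ℕ) (f g : H2) : ⟪V a f, V a g⟫_ℂ = ⟪f, g⟫_ℂ :=
  LinearIsometry.inner_map_map _ _ _

theorem V_comp (a b : ℕ × ℕ) : V a ∘L V b = V (a + b) := by
  apply clm_ext
  intro c
  simp only [ContinuousLinearMap.comp_apply, V_mono, add_assoc]

theorem V_V (a b : ℕ × ℕ) (f : H2) : V a (V b f) = V (a + b) f := by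
  rw [← V_comp]; rfl

theorem V_zero (f : H2) : V 0 f = f := by
  have : V 0 = ContinuousLinearMap.id ℂ H2 := by
    apply clm_ext
    intro c
    simp [V_mono]
  rw [this]; rfl

theorem V_adj_V (a : ℕ × ℕ) (f : H2) : (V a).adjoint (V a f) = f := by
  apply ext_inner_left ℂ
  intro g
  rw [ContinuousLinearMap.adjoint_inner_right, V_inner]

/-- The shifts by `z_1^m` and `z_2^n` doubly commute. -/
theorem V_doubly (m n : ℕ) (f : H2) :
    (V (m, 0)).adjoint (V (0, n) f) = V (0, n) ((V (m, 0)).adjoint f) := by
  have h : (V (m, 0)).adjoint ∘L V (0, n) = V (0, n) ∘L (V (m, 0)).adjoint := by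
    apply clm_ext
    rintro ⟨b1, b2⟩
    simp only [ContinuousLinearMap.comp_apply, V_mono]
    by_cases hb : m ≤ b1
    · obtain ⟨c, rfl⟩ := Nat.exists_eq_add_of_le hb
      have e1 : mono ((0, n) + (m + c, b2)) = V (m, 0) (mono ((0, n) + (c, b2))) := by
        rw [V_mono]
        congr 1
        ext <;> simp [add_comm]
      have e2 : mono (m + c, b2) = V (m, 0) (mono (c, b2)) := by
        rw [V_mono]
        congr 1
        ext <;> simp
      rw [e1, e2, V_adj_V, V_adj_V, V_mono]
    · have key : ∀ b : ℕ × ℕ, b.1 < m → (V (m, 0)).adjoint (mono b) = 0 := by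
        intro b hb
        apply ext_inner_mono
        intro a
        rw [ContinuousLinearMap.adjoint_inner_right, V_mono, inner_mono, mono_apply, inner_zero_right]
        rw [if_neg]
        intro h
        have := congrArg Prod.fst h
        simp at this
        omega
      rw [key _ (by simpa using hb), key _ (by simpa using hb), map_zero]
  exact congrArg (fun T : H2 →L[ℂ] H2 => T f) h

/-- The adjoint shift kills the monomials without the variable. -/
theorem V1_adj_mono (n : ℕ) : (V (1, 0)).adjoint (mono (0, n)) = 0 := by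
  apply ext_inner_mono
  intro a
  rw [ContinuousLinearMap.adjoint_inner_right, V_mono, inner_mono, mono_apply, inner_zero_right]
  rw [if_neg]
  intro h
  have := congrArg Prod.fst h
  simp at this

theorem V2_adj_mono (n : ℕ) : (V (0, 1)).adjoint (mono (n, 0)) = 0 := by
  apply ext_inner_mono
  intro a
  rw [ContinuousLinearMap.adjoint_inner_right, V_mono, inner_mono, mono_apply, inner_zero_right]
  rw [if_neg]
  intro h
  have := congrArg Prod.snd h
  simp at this

end F7
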