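import Pool.Agent.Q94.F7A

/-!
# Evaluation vectors and mean values over the torus
-/

open scoped ComplexConjugate Topology InnerProductSpace
open Filter MeasureTheory

noncomputable section

namespace F7

theorem summable_geom2 {a b : ℝ} (ha0 : 0 ≤ a) (ha : a < 1) (hb0 : 0 ≤ b) (hb : b < 1) :
    Summable (fun n : ℕ × ℕ => a ^ n.1 * b ^ n.2) :=
  (summable_geometric_of_lt_one ha0 ha).mul_of_nonneg (summable_geometric_of_lt_one hb0 hb)
    (fun _ => pow_nonneg ha0 _) (fun _ => pow_nonneg hb0 _)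

/-- An absolutely summable family is square summable. -/
theorem memlp_of_summable {c : ℕ × ℕ → ℂ} (hc : Summable fun n => ‖c n‖) :
    Memℓp (E := fun _ : ℕ × ℕ => ℂ) c 2 := by
  have h1 : Memℓp (E := fun _ : ℕ × ℕ => ℂ) c 1 := by
    apply memℓp_gen
    simpa using hc
  exact h1.of_exponent_ge (by norm_num)

/-- The family of coefficients as an element of the Hardy space. -/
def ofSum (c : ℕ × ℕ → ℂ) (hc : Summable fun n => ‖c n‖) : H2 := ⟨c, memlp_of_summable hc⟩

theorem ofSum_apply (c : ℕ × ℕ → ℂ) (hc : Summable fun n => ‖c n‖) (n : ℕ × ℕ) :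
    (ofSum c hc) n = c n := rfl

theorem summable_kv (z : D2) :
    Summable fun n : ℕ × ℕ => ‖conj (z.1.1 ^ n.1 * z.1.2 ^ n.2)‖ := by
  have h := summable_geom2 (norm_nonneg z.1.1) z.2.1 (norm_nonneg z.1.2) z.2.2
  refine h.congr fun n => ?_
  rw [RCLike.norm_conj, norm_mul, norm_pow, norm_pow]

/-- The evaluation (Szego kernel) vector at a point of the bidisk. -/
def kv (z : D2) : H2 := ofSum _ (summable_kv z)

theorem ev_eq (f : H2) (z : D2) : ev f z = ⟪kv z, f⟫_ℂ := by
  rw [lp.inner_eq_tsum]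
  unfold ev kv
  congr 1
  funext n
  rw [ofSum_apply]
  simp [RCLike.inner_apply]

theorem ev_add (f g : H2) (z : D2) : ev (f + g) z = ev f z + ev g z := by
  simp only [ev_eq, inner_add_right]

theorem ev_sub (f g : H2) (z : D2) : ev (f - g) z = ev f z - ev g z := by
  simp only [ev_eq, inner_sub_right]

theorem ev_smul (c : ℂ) (f : H2) (z : D2) : ev (c • f) z = c * ev f z := by
  simp only [ev_eq, inner_smul_right]

theorem ev_mono (a : ℕ × ℕ) (z : D2) : ev (mono a) z = z.1.1 ^ a.1 * z.1.2 ^ a.2 := by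
  rw [ev_eq, ← inner_conj_symm, inner_mono]
  unfold kv
  rw [ofSum_apply, Complex.conj_conj]

theorem ev_V (a : ℕ × ℕ) (f : H2) (z : D2) :
    ev (V a f) z = (z.1.1 ^ a.1 * z.1.2 ^ a.2) * ev f z := by
  have h : (innerSL ℂ (kv z)) ∘L V a = (z.1.1 ^ a.1 * z.1.2 ^ a.2) • innerSL ℂ (kv z) := by
    apply clm_ext
    intro b
    simp only [ContinuousLinearMap.comp_apply, smul_apply,
      innerSL_apply_apply, V_mono, smul_eq_mul]
    rw [← ev_eq, ← ev_eq, ev_mono, ev_mono]
    simp only [Prod.fst_add, Prod.snd_add, pow_add]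
    ring
  have := congrArg (fun T : H2 →L[ℂ] ℂ => T f) h
  simpa [← ev_eq] using this

theorem kv_inner (z w : D2) : ⟪kv z, kv w⟫_ℂ =
    ((1 - z.1.1 * conj w.1.1) * (1 - z.1.2 * conj w.1.2))⁻¹ := by
  rw [← ev_eq]
  have n1 : ‖z.1.1 * conj w.1.1‖ < 1 := by
    rw [norm_mul, RCLike.norm_conj]
    exact mul_lt_one_of_nonneg_of_lt_one_left (norm_nonneg _) z.2.1 w.2.1.le
  have n2 : ‖z.1.2 * conj w.1.2‖ < 1 := by
    rw [norm_mul, RCLike.norm_conj]
    exact mul_lt_one_of_nonneg_of_lt_one_left (norm_nonneg _) z.2.2 w.2.2.le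
  have e : ev (kv w) z = ∑' n : ℕ × ℕ, (z.1.1 * conj w.1.1) ^ n.1 * (z.1.2 * conj w.1.2) ^ n.2 := by
    unfold ev kv
    congr 1
    funext n
    rw [ofSum_apply]
    simp only [map_mul, map_pow, mul_pow]
    ring
  rw [e, ← tsum_mul_tsum_of_summable_norm, tsum_geometric_of_norm_lt_one n1,
    tsum_geometric_of_norm_lt_one n2, mul_inv]
  · exact summable_norm_geometric_of_norm_lt_one n1
  · exact summable_norm_geometric_of_norm_lt_one n2

/-! ### Mean values over the torus -/

/-- The normalised-free measure on the square `(0, 2π]^2`. -/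
def tor : Measure (ℝ × ℝ) :=
  (volume.restrict (Set.Ioc 0 (2 * Real.pi))).prod (volume.restrict (Set.Ioc 0 (2 * Real.pi)))

instance : IsFiniteMeasure tor := by
  unfold tor
  infer_instance

theorem tor_univ : tor.real Set.univ = (2 * Real.pi) ^ 2 := by
  unfold tor
  rw [Measure.real, ← Set.univ_prod_univ, Measure.prod_prod, Measure.restrict_apply_univ,
    Real.volume_Ioc, sub_zero, ENNReal.toReal_mul, ENNReal.toReal_ofReal (by positivity), sq]

/-- The character `x ↦ e^{i n·x}`. -/
def ch (n : ℕ × ℕ) (x : ℝ × ℝ) : ℂ :=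
  Complex.exp (x.1 * Complex.I) ^ n.1 * Complex.exp (x.2 * Complex.I) ^ n.2

theorem norm_ch (n : ℕ × ℕ) (x : ℝ × ℝ) : ‖ch n x‖ = 1 := by
  unfold ch
  rw [norm_mul, norm_pow, norm_pow, Complex.norm_exp_ofReal_mul_I, Complex.norm_exp_ofReal_mul_I]
  simp

theorem continuous_ch (n : ℕ × ℕ) : Continuous (ch n) := by
  unfold ch
  fun_prop

theorem ch_add (a b : ℕ × ℕ) (x : ℝ × ℝ) : ch (a + b) x = ch a x * ch b x := by
  unfold ch
  simp only [Prod.fst_add, Prod.snd_add, pow_add]
  ring

theorem one_dim (m n : ℕ) :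
    ∫ s in Set.Ioc 0 (2 * Real.pi), conj (Complex.exp (s * Complex.I) ^ m) *
      Complex.exp (s * Complex.I) ^ n = if m = n then (2 * Real.pi : ℂ) else 0 := by
  have e : ∀ s : ℝ, conj (Complex.exp (s * Complex.I) ^ m) * Complex.exp (s * Complex.I) ^ n
      = Complex.exp ((((n : ℂ) - m) * Complex.I) * s) := by
    intro s
    rw [map_pow, ← Complex.exp_conj, ← Complex.exp_nat_mul, ← Complex.exp_nat_mul,
      ← Complex.exp_add]
    congr 1
    simp
    ring
  simp_rw [e]
  rw [← intervalIntegral.integral_of_le (by positivity)]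
  split_ifs with h
  · subst h
    simp
  · have hne : ((n : ℂ) - m) * Complex.I ≠ 0 := by
      apply mul_ne_zero _ Complex.I_ne_zero
      exact sub_ne_zero.mpr fun h' => h (Nat.cast_injective h').symm
    rw [integral_exp_mul_complex hne]
    have : Complex.exp (((n : ℂ) - m) * Complex.I * ((2 * Real.pi : ℝ) : ℂ)) = 1 := by
      rw [Complex.exp_eq_one_iff]
      refine ⟨(n : ℤ) - m, ?_⟩
      push_cast
      ring
    rw [this]
    simp

theorem int_ch (m n : ℕ × ℕ) :
    ∫ x, conj (ch m x) * ch n x ∂tor = if m = n then ((2 * Real.pi) ^ 2 : ℂ) else 0 := by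
  have e : ∀ x : ℝ × ℝ, conj (ch m x) * ch n x =
      (conj (Complex.exp (x.1 * Complex.I) ^ m.1) * Complex.exp (x.1 * Complex.I) ^ n.1) *
      (conj (Complex.exp (x.2 * Complex.I) ^ m.2) * Complex.exp (x.2 * Complex.I) ^ n.2) := by
    intro x
    unfold ch
    rw [map_mul]
    ring
  simp_rw [e]
  unfold tor
  rw [integral_prod_mul (fun s : ℝ => conj (Complex.exp (s * Complex.I) ^ m.1) *
      Complex.exp (s * Complex.I) ^ n.1) (fun s : ℝ => conj (Complex.exp (s * Complex.I) ^ m.2) *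
      Complex.exp (s * Complex.I) ^ n.2), one_dim, one_dim]
  by_cases h1 : m.1 = n.1
  · by_cases h2 : m.2 = n.2
    · rw [if_pos h1, if_pos h2, if_pos (Prod.ext h1 h2)]
      ring
    · rw [if_neg h2, if_neg (fun h => h2 (congrArg Prod.snd h)), mul_zero]
  · rw [if_neg h1, if_neg (fun h => h1 (congrArg Prod.fst h)), zero_mul]

/-- The absolutely convergent trigonometric series with given coefficients. -/
def Fs (c : ℕ × ℕ → ℂ) (x : ℝ × ℝ) : ℂ := ∑' n, c n * ch n x

theorem summable_Fs {c : ℕ × ℕ → ℂ} (hc : Summable fun n => ‖c n‖) (x : ℝ × ℝ) :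
    Summable fun n => c n * ch n x := by
  apply Summable.of_norm
  refine hc.congr fun n => ?_
  rw [norm_mul, norm_ch, mul_one]

theorem continuous_Fs {c : ℕ × ℕ → ℂ} (hc : Summable fun n => ‖c n‖) : Continuous (Fs c) := by
  unfold Fs
  refine continuous_tsum (fun n => (continuous_ch n).const_mul _ |>.congr fun _ => rfl) hc ?_
  intro n x
  rw [norm_mul, norm_ch, mul_one]

theorem norm_Fs_le {c : ℕ × ℕ → ℂ} (hc : Summable fun n => ‖c n‖) (x : ℝ × ℝ) :
    ‖Fs c x‖ ≤ ∑' n, ‖c n‖ := by
  unfold Fs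
  refine (norm_tsum_le_tsum_norm ?_).trans (le_of_eq ?_)
  · refine hc.congr fun n => ?_
    rw [norm_mul, norm_ch, mul_one]
  · congr 1
    funext n
    rw [norm_mul, norm_ch, mul_one]

theorem interchange {c : ℕ × ℕ → ℂ} (hc : Summable fun n => ‖c n‖) {G : ℝ × ℝ → ℂ}
    (hG : Continuous G) {C : ℝ} (hC : ∀ x, ‖G x‖ ≤ C) :
    HasSum (fun n => c n * ∫ x, G x * ch n x ∂tor) (∫ x, G x * Fs c x ∂tor) := by
  have hint : ∀ n, Integrable (fun x => G x * (c n * ch n x)) tor := by
    intro n
    refine Integrable.of_bound (C := C * ‖c n‖)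
      ((hG.mul ((continuous_ch n).const_mul _ |>.congr fun _ => rfl)).aestronglyMeasurable) ?_
    refine Eventually.of_forall fun x => ?_
    rw [norm_mul, norm_mul, norm_ch, mul_one]
    exact mul_le_mul_of_nonneg_right (hC x) (norm_nonneg _)
  have hsum : Summable fun n => ∫ x, ‖G x * (c n * ch n x)‖ ∂tor := by
    refine Summable.of_nonneg_of_le (fun n => integral_nonneg fun x => norm_nonneg _)
      (fun n => ?_) (hc.mul_left (C * tor.real Set.univ))
    have : ∫ x, ‖G x * (c n * ch n x)‖ ∂tor ≤ ∫ x, C * ‖c n‖ ∂tor := by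
      refine integral_mono (hint n).norm (integrable_const _) fun x => ?_
      simp only
      rw [norm_mul, norm_mul, norm_ch, mul_one]
      exact mul_le_mul_of_nonneg_right (hC x) (norm_nonneg _)
    refine this.trans (le_of_eq ?_)
    rw [integral_const, smul_eq_mul]
    ring
  have h := hasSum_integral_of_summable_integral_norm hint hsum
  have e1 : (fun n => ∫ x, G x * (c n * ch n x) ∂tor) = fun n => c n * ∫ x, G x * ch n x ∂tor := by
    funext n
    rw [← integral_const_mul]
    congr 1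
    funext x
    ring
  have e2 : (fun x => ∑' n, G x * (c n * ch n x)) = fun x => G x * Fs c x := by
    funext x
    rw [tsum_mul_left]
    rfl
  rw [e1, e2] at h
  exact h

/-- Fourier coefficients of an absolutely convergent series. -/
theorem coeff_Fs {c : ℕ × ℕ → ℂ} (hc : Summable fun n => ‖c n‖) (m : ℕ × ℕ) :
    ∫ x, conj (ch m x) * Fs c x ∂tor = (2 * Real.pi) ^ 2 * c m := by
  have h := interchange hc (G := fun x => conj (ch m x)) (by
    have := continuous_ch m
    fun_prop) (C := 1) (fun x => by rw [RCLike.norm_conj, norm_ch])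
  simp_rw [int_ch] at h
  have h2 : HasSum (fun n => c n * if m = n then ((2 * Real.pi) ^ 2 : ℂ) else 0)
      ((2 * Real.pi) ^ 2 * c m) := by
    have := hasSum_single (f := fun n => c n * if m = n then ((2 * Real.pi) ^ 2 : ℂ) else 0) m
      (fun n hn => by rw [if_neg (fun h => hn h.symm), mul_zero])
    rw [if_pos rfl] at this
    convert this using 1
    ring
  exact h.unique h2

/-- Parseval's identity, polarised. -/
theorem parseval {c d : ℕ × ℕ → ℂ} (hc : Summable fun n => ‖c n‖) (hd : Summable fun n => ‖d n‖) :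
    ∫ x, conj (Fs c x) * Fs d x ∂tor = (2 * Real.pi) ^ 2 * ⟪ofSum c hc, ofSum d hd⟫_ℂ := by
  have h := interchange hd (G := fun x => conj (Fs c x)) (by
    have := continuous_Fs hc
    fun_prop) (C := ∑' n, ‖c n‖) (fun x => by rw [RCLike.norm_conj]; exact norm_Fs_le hc x)
  have e : ∀ n, ∫ x, conj (Fs c x) * ch n x ∂tor = (2 * Real.pi) ^ 2 * conj (c n) := by
    intro n
    have := congrArg conj (coeff_Fs hc n)
    rw [← integral_conj] at this
    simp only [map_mul, map_pow, Complex.conj_ofReal, Complex.conj_conj] at this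
    have e2 : (conj (2:ℂ)) = 2 := Complex.conj_ofNat 2
    rw [e2] at this
    rw [← this]
    congr 1
    funext x
    ring
  simp_rw [e] at h
  refine h.unique ?_
  have h3 := (lp.hasSum_inner (ofSum c hc) (ofSum d hd)).mul_left ((2 * Real.pi : ℂ) ^ 2)
  have e3 : (fun n => d n * ((2 * Real.pi : ℂ) ^ 2 * conj (c n))) =
      fun n => (2 * Real.pi : ℂ) ^ 2 * ⟪(ofSum c hc) n, (ofSum d hd) n⟫_ℂ := by
    funext n
    rw [ofSum_apply, ofSum_apply, RCLike.inner_apply]
    ring
  rw [e3]
  exact h3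

end F7
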