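import Pool.Agent.Q94.F7B

/-!
# Multiplication by a bounded analytic function with unimodular boundary values
-/

open scoped ComplexConjugate Topology InnerProductSpace
open Filter MeasureTheory

noncomputable section

namespace F7

/-- `f` has an absolutely convergent trigonometric series with sum `F`. -/
def Nice (f : H2) (F : ℝ × ℝ → ℂ) : Prop :=
  ∃ (c : ℕ × ℕ → ℂ) (hc : Summable fun n => ‖c n‖), f = ofSum c hc ∧ ∀ x, F x = Fs c x

theorem Nice.inner {f g : H2} {F G : ℝ × ℝ → ℂ} (hf : Nice f F) (hg : Nice g G) :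
    ∫ x, conj (F x) * G x ∂tor = (2 * Real.pi) ^ 2 * ⟪f, g⟫_ℂ := by
  obtain ⟨c, hc, rfl, hF⟩ := hf
  obtain ⟨d, hd, rfl, hG⟩ := hg
  simp_rw [hF, hG]
  exact parseval hc hd

theorem Nice.cont {f : H2} {F : ℝ × ℝ → ℂ} (hf : Nice f F) : Continuous F := by
  obtain ⟨c, hc, rfl, hF⟩ := hf
  rw [show F = Fs c from funext hF]
  exact continuous_Fs hc

theorem Nice.bdd {f : H2} {F : ℝ × ℝ → ℂ} (hf : Nice f F) : ∃ C : ℝ, ∀ x, ‖F x‖ ≤ C := by
  obtain ⟨c, hc, rfl, hF⟩ := hf
  refine ⟨∑' n, ‖c n‖, fun x => ?_⟩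
  rw [hF]
  exact norm_Fs_le hc x

theorem Nice.add {f g : H2} {F G : ℝ × ℝ → ℂ} (hf : Nice f F) (hg : Nice g G) :
    Nice (f + g) (fun x => F x + G x) := by
  obtain ⟨c, hc, rfl, hF⟩ := hf
  obtain ⟨d, hd, rfl, hG⟩ := hg
  refine ⟨fun n => c n + d n, ?_, ?_, ?_⟩
  · exact Summable.of_nonneg_of_le (fun _ => norm_nonneg _) (fun n => norm_add_le _ _) (hc.add hd)
  · apply lp.ext
    funext n
    rfl
  · intro x
    show F x + G x = _
    rw [hF, hG]
    unfold Fs
    rw [← (summable_Fs hc x).tsum_add (summable_Fs hd x)]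
    congr 1
    funext n
    ring

theorem Nice.smul {f : H2} {F : ℝ × ℝ → ℂ} (a : ℂ) (hf : Nice f F) :
    Nice (a • f) (fun x => a * F x) := by
  obtain ⟨c, hc, rfl, hF⟩ := hf
  refine ⟨fun n => a * c n, ?_, ?_, ?_⟩
  · refine (hc.mul_left ‖a‖).congr fun n => ?_
    rw [norm_mul]
  · apply lp.ext
    funext n
    rfl
  · intro x
    show a * F x = _
    rw [hF]
    unfold Fs
    rw [← tsum_mul_left]
    congr 1
    funext n
    ring

theorem Nice.zero : Nice 0 (fun _ => 0) := by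
  refine ⟨fun _ => 0, by simp, ?_, ?_⟩
  · apply lp.ext
    funext n
    rfl
  · intro x
    unfold Fs
    simp

theorem V_apply_add (b m : ℕ × ℕ) (f : H2) : (V b f) (b + m) = f m := by
  rw [← inner_mono, ← V_mono, V_inner, inner_mono]

theorem V_apply_of_notMem (b n : ℕ × ℕ) (f : H2) (h : n ∉ Set.range (fun m => b + m)) :
    (V b f) n = 0 := by
  rw [← inner_mono]
  have h1 := ((hasSum_mono f).mapL (V b)).mapL (innerSL ℂ (mono n))
  have h2 : (fun a => (innerSL ℂ (mono n)) ((V b) (f a • mono a))) = fun _ => (0 : ℂ) := by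
    funext a
    rw [map_smul, V_mono, innerSL_apply_apply, inner_smul_right, inner_mono, mono_apply, if_neg,
      mul_zero]
    intro h'
    exact h ⟨a, h'.symm⟩
  rw [h2] at h1
  exact (h1.unique hasSum_zero)

theorem Nice.shift {f : H2} {F : ℝ × ℝ → ℂ} (b : ℕ × ℕ) (hf : Nice f F) :
    Nice (V b f) (fun x => ch b x * F x) := by
  obtain ⟨c, hc, rfl, hF⟩ := hf
  have inj : Function.Injective (fun m : ℕ × ℕ => b + m) := add_right_injective b
  have hs : Summable fun n => ‖(V b (ofSum c hc)) n‖ := by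
    rw [← inj.summable_iff]
    · refine hc.congr fun m => ?_
      rw [Function.comp_apply, V_apply_add, ofSum_apply]
    · intro n hn
      rw [V_apply_of_notMem b n _ hn, norm_zero]
  refine ⟨fun n => (V b (ofSum c hc)) n, hs, ?_, ?_⟩
  · apply lp.ext
    funext n
    rfl
  · intro x
    show ch b x * F x = _
    rw [hF]
    unfold Fs
    have h1 : (∑' n, (V b (ofSum c hc)) n * ch n x) = ∑' m, (V b (ofSum c hc)) (b + m) * ch (b + m) x := by
      symm
      apply inj.tsum_eq (f := fun n => (V b (ofSum c hc)) n * ch n x)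
      intro n hn
      by_contra hcon
      apply hn
      simp only
      rw [V_apply_of_notMem b n _ hcon, zero_mul]
    rw [h1, ← tsum_mul_left]
    congr 1
    funext m
    rw [V_apply_add, ofSum_apply, ch_add]
    ring

theorem Nice.mono (a : ℕ × ℕ) : Nice (mono a) (ch a) := by
  have h0 : Nice (F7.mono 0) (fun _ => 1) := by
    refine ⟨fun n => if n = 0 then 1 else 0, ?_, ?_, ?_⟩
    · refine summable_of_ne_finset_zero (s := {0}) fun n hn => ?_
      have hn' : n ≠ 0 := by simpa using hn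
      simp [hn']
    · apply lp.ext
      funext n
      rw [mono_apply, ofSum_apply]
    · intro x
      unfold Fs
      rw [tsum_eq_single 0]
      · simp [ch]
      · intro n hn
        simp [hn]
  have h1 := h0.shift a
  rw [V_mono, add_zero] at h1
  simpa using h1

theorem Nice.sum (s : Finset (ℕ × ℕ)) (p : ℕ × ℕ → ℂ) (v : ℕ × ℕ → H2)
    (W : ℕ × ℕ → ℝ × ℝ → ℂ) (h : ∀ b, Nice (v b) (W b)) :
    Nice (∑ b ∈ s, p b • v b) (fun x => ∑ b ∈ s, p b * W b x) := by
  classical
  induction s using Finset.induction_on with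
  | empty => simpa using Nice.zero
  | insert a s ha ih =>
    have := ((h a).smul (p a)).add ih
    simpa [Finset.sum_insert ha] using this

theorem Nice.norm_sq {f : H2} {F : ℝ × ℝ → ℂ} (hf : Nice f F) :
    ∫ x, ‖F x‖ ^ 2 ∂tor = (2 * Real.pi) ^ 2 * ‖f‖ ^ 2 := by
  have h := hf.inner hf
  have e : ∀ x, conj (F x) * F x = ((‖F x‖ ^ 2 : ℝ) : ℂ) := by
    intro x
    rw [Complex.conj_mul']
    push_cast
    rfl
  simp_rw [e] at h
  rw [integral_complex_ofReal, inner_self_eq_norm_sq_to_K] at h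
  apply Complex.ofReal_injective
  rw [h]
  push_cast
  rfl

/-- A sequence of radii increasing to one. -/
def rs (k : ℕ) : ℝ := 1 - 1 / ((k : ℝ) + 2)

theorem rs_nonneg (k : ℕ) : 0 ≤ rs k := by
  unfold rs
  have : 1 / ((k : ℝ) + 2) ≤ 1 := by
    rw [div_le_one (by positivity)]
    have : (0:ℝ) ≤ k := Nat.cast_nonneg k
    linarith
  linarith

theorem rs_lt (k : ℕ) : rs k < 1 := by
  unfold rs
  have : 0 < 1 / ((k : ℝ) + 2) := by positivity
  linarith

theorem rs_tendsto : Tendsto rs atTop (𝓝[<] 1) := by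
  rw [tendsto_nhdsWithin_iff]
  refine ⟨?_, Eventually.of_forall fun k => rs_lt k⟩
  have h : Tendsto (fun k : ℕ => 1 / ((k : ℝ) + 2)) atTop (𝓝 0) := by
    refine tendsto_const_nhds.div_atTop ?_
    exact tendsto_atTop_add_const_right _ _ tendsto_natCast_atTop_atTop
  have h2 := h.const_sub 1
  rw [sub_zero] at h2
  exact h2

theorem rs_tendsto' : Tendsto rs atTop (𝓝 1) :=
  rs_tendsto.mono_right nhdsWithin_le_nhds

/-- The dilated family of coefficients. -/
def dil (r : ℝ) (c : ℕ × ℕ → ℂ) (n : ℕ × ℕ) : ℂ := c n * (r : ℂ) ^ (n.1 + n.2)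

theorem norm_dil {r : ℝ} (hr : 0 ≤ r) (c : ℕ × ℕ → ℂ) (n : ℕ × ℕ) :
    ‖dil r c n‖ = ‖c n‖ * r ^ (n.1 + n.2) := by
  unfold dil
  rw [norm_mul, norm_pow, Complex.norm_of_nonneg hr]

/-- A bounded family has absolutely summable dilations. -/
theorem summable_dil {r : ℝ} (hr : 0 ≤ r) (hr1 : r < 1) {c : ℕ × ℕ → ℂ} {C : ℝ}
    (hC : ∀ n, ‖c n‖ ≤ C) : Summable fun n => ‖dil r c n‖ := by
  refine Summable.of_nonneg_of_le (fun _ => norm_nonneg _) (fun n => ?_)
    ((summable_geom2 hr hr1 hr hr1).mul_left C)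
  rw [norm_dil hr, pow_add]
  exact mul_le_mul_of_nonneg_right (hC n) (by positivity)

/-- A point of the bidisk in polar form. -/
def pt (r : ℝ) (hr : 0 ≤ r) (hr1 : r < 1) (x : ℝ × ℝ) : D2 :=
  ⟨(r * Complex.exp (x.1 * Complex.I), r * Complex.exp (x.2 * Complex.I)), by
    constructor
    · simp only
      rw [norm_mul, Complex.norm_exp_ofReal_mul_I, mul_one, Complex.norm_of_nonneg hr]
      exact hr1
    · simp only
      rw [norm_mul, Complex.norm_exp_ofReal_mul_I, mul_one, Complex.norm_of_nonneg hr]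
      exact hr1⟩

theorem Fs_dil (r : ℝ) (hr : 0 ≤ r) (hr1 : r < 1) (c : ℕ × ℕ → ℂ) (x : ℝ × ℝ) :
    Fs (dil r c) x = ∑' n : ℕ × ℕ, c n *
      ((pt r hr hr1 x).1.1 ^ n.1 * (pt r hr hr1 x).1.2 ^ n.2) := by
  unfold Fs dil pt ch
  congr 1
  funext n
  simp only [mul_pow, pow_add]
  ring

theorem coeff_bound (f : H2) (n : ℕ × ℕ) : ‖f n‖ ≤ ‖f‖ := by
  rw [← inner_mono]
  refine (norm_inner_le_norm _ _).trans ?_
  rw [norm_mono, one_mul]

/-- The dilations of an element of the Hardy space converge to it. -/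
theorem dil_tendsto (f : H2) :
    Tendsto (fun k => ofSum (dil (rs k) (fun n => f n))
      (summable_dil (rs_nonneg k) (rs_lt k) (coeff_bound f))) atTop (𝓝 f) := by
  rw [tendsto_iff_norm_sub_tendsto_zero]
  have key : Tendsto (fun k => ∑' n : ℕ × ℕ, ‖f n‖ ^ 2 * (1 - rs k ^ (n.1 + n.2)) ^ 2) atTop
      (𝓝 (∑' n : ℕ × ℕ, (0 : ℝ))) := by
    have hsf : Summable fun n => ‖f n‖ ^ 2 := by
      have := (lp.memℓp f).summable (by norm_num)
      simpa using this
    refine tendsto_tsum_of_dominated_convergence (bound := fun n => ‖f n‖ ^ 2) hsf ?_ ?_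
    · intro n
      have h1 : Tendsto (fun k => rs k ^ (n.1 + n.2)) atTop (𝓝 1) := by
        simpa using rs_tendsto'.pow (n.1 + n.2)
      have h2 := ((h1.const_sub 1).pow 2).const_mul (‖f n‖ ^ 2)
      simpa using h2
    · refine Eventually.of_forall fun k n => ?_
      have h1 : rs k ^ (n.1 + n.2) ≤ 1 := pow_le_one₀ (rs_nonneg k) (rs_lt k).le
      have h2 : 0 ≤ rs k ^ (n.1 + n.2) := pow_nonneg (rs_nonneg k) _
      rw [Real.norm_of_nonneg (by positivity)]
      have h3 : (1 - rs k ^ (n.1 + n.2)) ^ 2 ≤ 1 := by nlinarith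
      nlinarith [sq_nonneg ‖f n‖]
  have e : ∀ k, ‖ofSum (dil (rs k) (fun n => f n))
      (summable_dil (rs_nonneg k) (rs_lt k) (coeff_bound f)) - f‖ ^ 2 =
      ∑' n : ℕ × ℕ, ‖f n‖ ^ 2 * (1 - rs k ^ (n.1 + n.2)) ^ 2 := by
    intro k
    have := lp.norm_rpow_eq_tsum (p := 2) (by norm_num) (ofSum (dil (rs k) (fun n => f n))
      (summable_dil (rs_nonneg k) (rs_lt k) (coeff_bound f)) - f)
    simp only [ENNReal.toReal_ofNat, Real.rpow_two] at this
    rw [this]
    congr 1
    funext n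
    have e1 : (ofSum (dil (rs k) (fun n => f n))
      (summable_dil (rs_nonneg k) (rs_lt k) (coeff_bound f)) - f) n =
      -(f n * ((1 - rs k ^ (n.1 + n.2) : ℝ) : ℂ)) := by
      rw [lp.coeFn_sub, Pi.sub_apply, ofSum_apply]
      unfold dil
      push_cast
      ring
    rw [e1, norm_neg, norm_mul, Complex.norm_real, mul_pow, Real.norm_eq_abs, sq_abs]
  rw [tsum_zero] at key
  have h3 : Tendsto (fun k => Real.sqrt (‖ofSum (dil (rs k) (fun n => f n))
      (summable_dil (rs_nonneg k) (rs_lt k) (coeff_bound f)) - f‖ ^ 2)) atTop (𝓝 0) := by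
    simp_rw [e]
    have h4 := (Real.continuous_sqrt.tendsto 0).comp key
    rw [Real.sqrt_zero] at h4
    exact h4
  simpa [Real.sqrt_sq (norm_nonneg _)] using h3

end F7
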