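import Pool.Agent.Q94.F7C

/-!
# The multiplication isometry of an inner function, and the cyclicity lemma
-/

open scoped ComplexConjugate Topology InnerProductSpace
open Filter MeasureTheory

noncomputable section

namespace F7

/-- Taylor coefficients of a bounded function on the bidisk with unimodular radial limits. -/
structure UniData (t : ℕ × ℕ → ℂ) (B : ℝ) : Prop where
  sum : ∀ r : ℝ, 0 ≤ r → r < 1 → Summable fun n => ‖dil r t n‖
  bdd : ∀ r : ℝ, 0 ≤ r → r < 1 → ∀ x, ‖Fs (dil r t) x‖ ≤ B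
  lim : ∀ᵐ x ∂tor, Tendsto (fun k => ‖Fs (dil (rs k) t) x‖) atTop (𝓝 1)

variable {t : ℕ × ℕ → ℂ} {B : ℝ}

/-- The dilated vector. -/
def tk (h : UniData t B) (k : ℕ) : H2 := ofSum (dil (rs k) t) (h.sum _ (rs_nonneg k) (rs_lt k))

theorem nice_tk (h : UniData t B) (k : ℕ) : Nice (tk h k) (Fs (dil (rs k) t)) :=
  ⟨_, h.sum _ (rs_nonneg k) (rs_lt k), rfl, fun _ => rfl⟩

theorem UniData.B_nonneg (h : UniData t B) : 0 ≤ B :=
  (norm_nonneg _).trans (h.bdd 0 le_rfl zero_lt_one 0)

theorem tk_norm (h : UniData t B) (k : ℕ) : ‖tk h k‖ ^ 2 ≤ B ^ 2 := by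
  have h1 := (nice_tk h k).norm_sq
  have hpi : 0 < (2 * Real.pi) ^ 2 := by positivity
  have h2 : ∫ x, ‖Fs (dil (rs k) t) x‖ ^ 2 ∂tor ≤ ∫ x, B ^ 2 ∂tor := by
    refine integral_mono ?_ (integrable_const _) fun x => ?_
    · refine Integrable.of_bound (C := B ^ 2) ?_ (Eventually.of_forall fun x => ?_)
      · have := (nice_tk h k).cont
        exact (by fun_prop : Continuous fun x => ‖Fs (dil (rs k) t) x‖ ^ 2).aestronglyMeasurable
      · rw [Real.norm_of_nonneg (by positivity)]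
        exact pow_le_pow_left₀ (norm_nonneg _) (h.bdd _ (rs_nonneg k) (rs_lt k) x) 2
    · exact pow_le_pow_left₀ (norm_nonneg _) (h.bdd _ (rs_nonneg k) (rs_lt k) x) 2
  rw [h1, integral_const, tor_univ, smul_eq_mul] at h2
  exact le_of_mul_le_mul_left h2 hpi

theorem sq_summable (h : UniData t B) : Summable fun n => ‖t n‖ ^ 2 := by
  refine summable_of_sum_le (c := B ^ 2) (fun n => by positivity) fun s => ?_
  have h1 : ∀ k, ∑ n ∈ s, (‖t n‖ * rs k ^ (n.1 + n.2)) ^ 2 ≤ B ^ 2 := by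
    intro k
    refine le_trans ?_ (tk_norm h k)
    have := lp.sum_rpow_le_norm_rpow (p := 2) (by norm_num) (tk h k) s
    simp only [ENNReal.toReal_ofNat, Real.rpow_two] at this
    refine le_trans (le_of_eq ?_) this
    refine Finset.sum_congr rfl fun n _ => ?_
    unfold tk
    rw [ofSum_apply, norm_dil (rs_nonneg k)]
  have h2 : Tendsto (fun k => ∑ n ∈ s, (‖t n‖ * rs k ^ (n.1 + n.2)) ^ 2) atTop
      (𝓝 (∑ n ∈ s, (‖t n‖ * 1 ^ (n.1 + n.2)) ^ 2)) := by
    refine tendsto_finsetSum _ fun n _ => ?_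
    exact ((rs_tendsto'.pow (n.1 + n.2)).const_mul _).pow 2
  have h3 := le_of_tendsto' h2 h1
  simpa using h3

/-- The inner function as an element of the Hardy space. -/
def tv (h : UniData t B) : H2 := ⟨t, memℓp_gen (by simpa using sq_summable h)⟩

theorem tv_apply (h : UniData t B) (n : ℕ × ℕ) : (tv h) n = t n := rfl

theorem tk_tendsto (h : UniData t B) : Tendsto (tk h) atTop (𝓝 (tv h)) := dil_tendsto (tv h)

theorem orth_tv (h : UniData t B) : Orthonormal ℂ (fun b => V b (tv h)) := by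
  rw [orthonormal_iff_ite]
  intro b c
  have h1 : Tendsto (fun k => ((2 * Real.pi : ℂ) ^ 2) * ⟪V b (tk h k), V c (tk h k)⟫_ℂ) atTop
      (𝓝 (((2 * Real.pi : ℂ) ^ 2) * ⟪V b (tv h), V c (tv h)⟫_ℂ)) := by
    refine Tendsto.const_mul _ ?_
    exact (((V b).continuous.tendsto _).comp (tk_tendsto h)).inner
      (((V c).continuous.tendsto _).comp (tk_tendsto h))
  have e : ∀ k, ((2 * Real.pi : ℂ) ^ 2) * ⟪V b (tk h k), V c (tk h k)⟫_ℂ =
      ∫ x, (conj (ch b x) * ch c x) * ((‖Fs (dil (rs k) t) x‖ ^ 2 : ℝ) : ℂ) ∂tor := by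
    intro k
    rw [← ((nice_tk h k).shift b).inner ((nice_tk h k).shift c)]
    congr 1
    funext x
    rw [map_mul]
    have : conj (Fs (dil (rs k) t) x) * Fs (dil (rs k) t) x =
        ((‖Fs (dil (rs k) t) x‖ ^ 2 : ℝ) : ℂ) := by
      rw [Complex.conj_mul']
      push_cast
      rfl
    rw [← this]
    ring
  simp_rw [e] at h1
  have h2 : Tendsto (fun k => ∫ x, (conj (ch b x) * ch c x) *
      ((‖Fs (dil (rs k) t) x‖ ^ 2 : ℝ) : ℂ) ∂tor) atTop
      (𝓝 (∫ x, (conj (ch b x) * ch c x) * 1 ∂tor)) := by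
    refine tendsto_integral_of_dominated_convergence (fun _ => B ^ 2) ?_ (integrable_const _) ?_ ?_
    · intro k
      have h3 := (nice_tk h k).cont
      have h4 := continuous_ch b
      have h5 := continuous_ch c
      exact (by fun_prop : Continuous fun x => (conj (ch b x) * ch c x) *
        ((‖Fs (dil (rs k) t) x‖ ^ 2 : ℝ) : ℂ)).aestronglyMeasurable
    · intro k
      refine Eventually.of_forall fun x => ?_
      rw [norm_mul, norm_mul, RCLike.norm_conj, norm_ch, norm_ch, Complex.norm_real,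
        Real.norm_of_nonneg (by positivity), one_mul, one_mul]
      exact pow_le_pow_left₀ (norm_nonneg _) (h.bdd _ (rs_nonneg k) (rs_lt k) x) 2
    · filter_upwards [h.lim] with x hx
      refine Tendsto.const_mul _ ?_
      have := (hx.pow 2)
      rw [one_pow] at this
      exact_mod_cast (Complex.continuous_ofReal.tendsto 1).comp this
  simp_rw [mul_one, int_ch] at h2
  have h3 := tendsto_nhds_unique h1 h2
  have hpi : ((2 * Real.pi : ℂ) ^ 2) ≠ 0 := by
    apply pow_ne_zero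
    exact_mod_cast (by positivity : (2 * Real.pi : ℝ) ≠ 0)
  split_ifs at h3 ⊢ with hbc
  · exact mul_left_cancel₀ hpi (by rw [h3, mul_one])
  · exact (mul_eq_zero.mp h3).resolve_left hpi

/-- Multiplication by the inner function. -/
def Mul (h : UniData t B) : H2 →ₗᵢ[ℂ] H2 := isoOf (fun b => V b (tv h)) (orth_tv h)

theorem Mul_mono (h : UniData t B) (b : ℕ × ℕ) : Mul h (mono b) = V b (tv h) :=
  isoOf_mono _ (orth_tv h) b

theorem V_opNorm (a : ℕ × ℕ) : ‖V a‖ ≤ 1 :=
  ContinuousLinearMap.opNorm_le_bound _ zero_le_one fun f => by rw [V_norm, one_mul]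

theorem summable_Mr (h : UniData t B) (k : ℕ) :
    Summable fun a => (dil (rs k) t a) • V a := by
  apply Summable.of_norm
  refine Summable.of_nonneg_of_le (fun _ => norm_nonneg _) (fun a => ?_)
    (h.sum _ (rs_nonneg k) (rs_lt k))
  rw [norm_smul]
  exact mul_le_of_le_one_right (norm_nonneg _) (V_opNorm a)

/-- Multiplication by the dilated inner function. -/
def Mr (h : UniData t B) (k : ℕ) : H2 →L[ℂ] H2 := ∑' a, (dil (rs k) t a) • V a

theorem Mr_hasSum (h : UniData t B) (k : ℕ) (f : H2) :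
    HasSum (fun a => (dil (rs k) t a) • V a f) (Mr h k f) := by
  have h1 := (summable_Mr h k).hasSum
  have h2 := h1.mapL (ContinuousLinearMap.apply ℂ H2 f)
  exact h2

theorem Mr_mono (h : UniData t B) (k : ℕ) (b : ℕ × ℕ) : Mr h k (mono b) = V b (tk h k) := by
  have h1 := (hasSum_mono (tk h k)).mapL (V b)
  have e : (fun a => V b ((tk h k) a • mono a)) = fun a => (dil (rs k) t a) • V a (mono b) := by
    funext a
    rw [map_smul, V_mono, V_mono, add_comm]
    rfl
  rw [e] at h1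
  exact (Mr_hasSum h k (mono b)).unique h1

theorem Mr_bound (h : UniData t B) (k : ℕ) (f : H2) : ‖Mr h k f‖ ≤ B * ‖f‖ := by
  have hcl : IsClosed {f : H2 | ‖Mr h k f‖ ≤ B * ‖f‖} := by
    refine isClosed_le ?_ ?_ <;> fun_prop
  have hfin : ∀ (s : Finset (ℕ × ℕ)) (p : ℕ × ℕ → ℂ),
      (∑ b ∈ s, p b • mono b) ∈ {f : H2 | ‖Mr h k f‖ ≤ B * ‖f‖} := by
    intro s p
    show ‖Mr h k _‖ ≤ B * ‖_‖
    have e : Mr h k (∑ b ∈ s, p b • mono b) = ∑ b ∈ s, p b • V b (tk h k) := by
      rw [map_sum]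
      refine Finset.sum_congr rfl fun b _ => ?_
      rw [map_smul, Mr_mono]
    rw [e]
    have n1 := (Nice.sum s p (fun b => V b (tk h k)) _ fun b => (nice_tk h k).shift b)
    have n2 := (Nice.sum s p mono _ fun b => Nice.mono b)
    have h1 := n1.norm_sq
    have h2 := n2.norm_sq
    have hpi : 0 < (2 * Real.pi) ^ 2 := by positivity
    have h3 : ∫ x, ‖∑ b ∈ s, p b * (ch b x * Fs (dil (rs k) t) x)‖ ^ 2 ∂tor ≤
        ∫ x, B ^ 2 * ‖∑ b ∈ s, p b * ch b x‖ ^ 2 ∂tor := by
      have pw : ∀ x, ‖∑ b ∈ s, p b * (ch b x * Fs (dil (rs k) t) x)‖ ^ 2 ≤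
          B ^ 2 * ‖∑ b ∈ s, p b * ch b x‖ ^ 2 := by
        intro x
        have : ∑ b ∈ s, p b * (ch b x * Fs (dil (rs k) t) x) =
            Fs (dil (rs k) t) x * ∑ b ∈ s, p b * ch b x := by
          rw [Finset.mul_sum]
          refine Finset.sum_congr rfl fun b _ => ?_
          ring
        rw [this, norm_mul, mul_pow]
        exact mul_le_mul_of_nonneg_right
          (pow_le_pow_left₀ (norm_nonneg _) (h.bdd _ (rs_nonneg k) (rs_lt k) x) 2) (sq_nonneg _)
      obtain ⟨C1, hC1⟩ := n1.bdd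
      obtain ⟨C2, hC2⟩ := n2.bdd
      refine integral_mono ?_ ?_ pw
      · refine Integrable.of_bound (C := C1 ^ 2) ?_ (Eventually.of_forall fun x => ?_)
        · have := n1.cont
          exact (this.norm.pow 2).aestronglyMeasurable
        · rw [Real.norm_of_nonneg (by positivity)]
          exact pow_le_pow_left₀ (norm_nonneg _) (hC1 x) 2
      · refine Integrable.const_mul ?_ _
        refine Integrable.of_bound (C := C2 ^ 2) ?_ (Eventually.of_forall fun x => ?_)
        · have := n2.cont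
          exact (this.norm.pow 2).aestronglyMeasurable
        · rw [Real.norm_of_nonneg (by positivity)]
          exact pow_le_pow_left₀ (norm_nonneg _) (hC2 x) 2
    rw [integral_const_mul, h1, h2] at h3
    have h4 : ‖∑ b ∈ s, p b • V b (tk h k)‖ ^ 2 ≤ (B * ‖∑ b ∈ s, p b • mono b‖) ^ 2 := by
      refine le_of_mul_le_mul_left (a := (2 * Real.pi) ^ 2) ?_ hpi
      calc _ ≤ _ := h3
        _ = _ := by ring
    exact (pow_le_pow_iff_left₀ (norm_nonneg _) (mul_nonneg h.B_nonneg (norm_nonneg _))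
      two_ne_zero).mp h4
  exact hcl.mem_of_tendsto (hasSum_mono f) (Eventually.of_forall fun s => hfin s _)

theorem Mr_tendsto (h : UniData t B) (f : H2) :
    Tendsto (fun k => Mr h k f) atTop (𝓝 (Mul h f)) := by
  have hfin : ∀ (s : Finset (ℕ × ℕ)) (p : ℕ × ℕ → ℂ),
      Tendsto (fun k => Mr h k (∑ b ∈ s, p b • mono b)) atTop (𝓝 (Mul h (∑ b ∈ s, p b • mono b))) := by
    intro s p
    simp only [map_sum, map_smul, Mul_mono, Mr_mono]
    refine tendsto_finsetSum _ fun b _ => ?_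
    exact (((V b).continuous.tendsto _).comp (tk_tendsto h)).const_smul _
  have hB := h.B_nonneg
  rw [Metric.tendsto_atTop]
  intro ε hε
  have hδ : 0 < ε / (2 * (B + 1)) := by positivity
  obtain ⟨s, hs⟩ := ((Metric.tendsto_atTop.mp (hasSum_mono f)) _ hδ)
  have hs' := hs s le_rfl
  obtain ⟨g, hg⟩ : ∃ g, g = ∑ b ∈ s, f b • mono b := ⟨_, rfl⟩
  rw [← hg, dist_eq_norm] at hs'
  have h1 := hfin s (fun b => f b)
  rw [← hg] at h1
  obtain ⟨N, hN⟩ := (Metric.tendsto_atTop.mp h1) (ε / 2) (by positivity)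
  refine ⟨N, fun k hk => ?_⟩
  have h2 := hN k hk
  rw [dist_eq_norm] at h2 ⊢
  have e : Mr h k f - Mul h f = (Mr h k g - Mul h g) - Mr h k (g - f) + Mul h (g - f) := by
    rw [map_sub, map_sub]
    abel
  rw [e]
  have h3 : ‖Mr h k (g - f)‖ ≤ B * ‖g - f‖ := Mr_bound h k _
  have h4 : ‖Mul h (g - f)‖ = ‖g - f‖ := (Mul h).norm_map _
  have h5 : (B + 1) * ‖g - f‖ < ε / 2 := by
    rw [lt_div_iff₀ (by positivity)] at hs'
    linarith
  calc ‖(Mr h k g - Mul h g) - Mr h k (g - f) + Mul h (g - f)‖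
      ≤ ‖(Mr h k g - Mul h g)‖ + ‖Mr h k (g - f)‖ + ‖Mul h (g - f)‖ := by
        refine (norm_add_le _ _).trans ?_
        gcongr
        exact norm_sub_le _ _
    _ < ε := by linarith

/-- Cyclicity lemma: a vector all of whose shifts are orthogonal to the range of the multiplication
by the inner function vanishes. -/
theorem lemmaZ (h : UniData t B) (f : H2) (hf : ∀ a g, ⟪V a f, Mul h g⟫_ℂ = 0) : f = 0 := by
  have h1 : ∀ k, ⟪Mr h k f, Mul h f⟫_ℂ = 0 := by
    intro k
    have h2 := (Mr_hasSum h k f).mapL (innerSL ℂ (Mul h f))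
    have e : (fun a => (innerSL ℂ (Mul h f)) ((dil (rs k) t a) • V a f)) = fun _ => (0 : ℂ) := by
      funext a
      rw [innerSL_apply_apply, inner_smul_right, ← inner_conj_symm, hf, map_zero, mul_zero]
    rw [e] at h2
    have h3 := h2.unique hasSum_zero
    rw [innerSL_apply_apply] at h3
    rw [← inner_conj_symm, h3, map_zero]
  have h2 : Tendsto (fun k => ⟪Mr h k f, Mul h f⟫_ℂ) atTop (𝓝 ⟪Mul h f, Mul h f⟫_ℂ) :=
    (Mr_tendsto h f).inner tendsto_const_nhds
  simp_rw [h1] at h2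
  have h3 := tendsto_nhds_unique tendsto_const_nhds h2
  have h4 : ⟪Mul h f, Mul h f⟫_ℂ = ⟪f, f⟫_ℂ := (Mul h).inner_map_map f f
  rw [h4] at h3
  exact inner_self_eq_zero.mp h3.symm

theorem Mul_V (h : UniData t B) (a : ℕ × ℕ) (f : H2) : Mul h (V a f) = V a (Mul h f) := by
  have e : (Mul h).toContinuousLinearMap ∘L V a = V a ∘L (Mul h).toContinuousLinearMap := by
    apply clm_ext
    intro b
    show Mul h (V a (mono b)) = V a (Mul h (mono b))
    rw [V_mono, Mul_mono, Mul_mono, V_V]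
  exact congrArg (fun T : H2 →L[ℂ] H2 => T f) e

theorem ev_Mul (h : UniData t B) (f : H2) (z : D2) : ev (Mul h f) z = ev (tv h) z * ev f z := by
  have e : (innerSL ℂ (kv z)) ∘L (Mul h).toContinuousLinearMap =
      (ev (tv h) z) • innerSL ℂ (kv z) := by
    apply clm_ext
    intro b
    show ⟪kv z, Mul h (mono b)⟫_ℂ = ev (tv h) z * ⟪kv z, mono b⟫_ℂ
    rw [Mul_mono, ← ev_eq, ← ev_eq, ev_V, ev_mono, mul_comm]
  have := congrArg (fun T : H2 →L[ℂ] ℂ => T f) e
  rw [ev_eq, ev_eq f]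
  exact this

/-- An element of the Hardy space is determined by its function. -/
theorem ev_injective {f : H2} (hf : ∀ z, ev f z = 0) : f = 0 := by
  have h1 : ∀ x, Fs (dil (1 / 2) (fun n => f n)) x = 0 := by
    intro x
    rw [Fs_dil (1 / 2) (by norm_num) (by norm_num)]
    exact hf _
  have hs := summable_dil (by norm_num : (0:ℝ) ≤ 1 / 2) (by norm_num) (coeff_bound f)
  apply lp.ext
  funext m
  have h2 := coeff_Fs hs m
  simp_rw [h1, mul_zero, integral_zero] at h2
  have hpi : ((2 * Real.pi : ℂ) ^ 2) ≠ 0 := by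
    apply pow_ne_zero
    exact_mod_cast (by positivity : (2 * Real.pi : ℝ) ≠ 0)
  have h3 := (mul_eq_zero.mp h2.symm).resolve_left hpi
  unfold dil at h3
  have h4 := (mul_eq_zero.mp h3).resolve_right (by
    apply pow_ne_zero
    exact_mod_cast (by norm_num : (1 / 2 : ℝ) ≠ 0))
  rw [h4]
  rfl

theorem ev_ext {f g : H2} (h : ∀ z, ev f z = ev g z) : f = g := by
  rw [← sub_eq_zero]
  apply ev_injective
  intro z
  rw [ev_sub, h z, sub_self]

end F7
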