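import Pool.Agent.Q94.F7D

/-!
# Two doubly commuting isometries and a reducing splitting: operator theory
-/

open scoped ComplexConjugate Topology InnerProductSpace
open Filter MeasureTheory

noncomputable section

set_option linter.unusedSectionVars false
set_option linter.unusedVariables false

namespace F7

variable {H : Type*} [NormedAddCommGroup H] [InnerProductSpace ℂ H] [CompleteSpace H]

/-- The situation: `U`, `W` are doubly commuting isometries, `K` is a closed subspace invariant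
under their adjoints, `E1`, `E2` are closed subspaces of `K`, invariant under the compression
of `U` to `K` and its adjoint, `U E1 ⊆ E1`, `W E2 ⊆ E2`, and `E1 + E2` is dense in `K`. -/
structure Split (U W : H →L[ℂ] H) (K E1 E2 : Submodule ℂ H) [K.HasOrthogonalProjection] : Prop where
  hU : ∀ f, U.adjoint (U f) = f
  hW : ∀ f, W.adjoint (W f) = f
  comm : ∀ f, U (W f) = W (U f)
  dcomm : ∀ f, U.adjoint (W f) = W (U.adjoint f)
  KU : ∀ f ∈ K, U.adjoint f ∈ K
  KW : ∀ f ∈ K, W.adjoint f ∈ K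
  Z : ∀ f, (∀ m n : ℕ, (W ^ m) ((U ^ n) f) ∈ K) → f = 0
  le1 : E1 ≤ K
  le2 : E2 ≤ K
  U1 : ∀ f ∈ E1, U f ∈ E1
  W2 : ∀ f ∈ E2, W f ∈ E2
  A1 : ∀ f ∈ E1, U.adjoint f ∈ E1
  A2 : ∀ f ∈ E2, K.starProjection (U f) ∈ E2
  A2' : ∀ f ∈ E2, U.adjoint f ∈ E2
  dense : ∀ g ∈ K, g ∈ E1ᗮ → g ∈ E2ᗮ → g = 0

variable {U W : H →L[ℂ] H} {K E1 E2 : Submodule ℂ H}

theorem norm_iso {U : H →L[ℂ] H} (hU : ∀ f, U.adjoint (U f) = f) (f g : H) :
    ⟪U f, U g⟫_ℂ = ⟪f, g⟫_ℂ := by
  rw [← ContinuousLinearMap.adjoint_inner_right, hU]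

theorem dcomm' (dcomm : ∀ f, U.adjoint (W f) = W (U.adjoint f)) (f : H) :
    W.adjoint (U f) = U (W.adjoint f) := by
  apply ext_inner_left ℂ
  intro g
  rw [ContinuousLinearMap.adjoint_inner_right, ← ContinuousLinearMap.adjoint_inner_left U, dcomm,
    ← ContinuousLinearMap.adjoint_inner_right, ← ContinuousLinearMap.adjoint_inner_left U]


/-- Inner products with vectors of `K` do not see the projection onto `K`. -/
theorem proj_inner {K : Submodule ℂ H} [K.HasOrthogonalProjection] {x y : H} (hx : x ∈ K) :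
    ⟪K.starProjection y, x⟫_ℂ = ⟪y, x⟫_ℂ := by
  rw [Submodule.inner_starProjection_left_eq_right, Submodule.starProjection_eq_self_iff.mpr hx]

variable [K.HasOrthogonalProjection] [E1.HasOrthogonalProjection] [E2.HasOrthogonalProjection]

/-- The compression. -/
def comp (U : H →L[ℂ] H) (K : Submodule ℂ H) [K.HasOrthogonalProjection] (f : H) : H :=
  K.starProjection (U f)

theorem comp_mem (f : H) : comp U K f ∈ K := Submodule.starProjection_apply_mem _ _

/-- The projection onto a closed subspace `E ≤ K` invariant under the compression of `U` commutes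
with the adjoint of `U` on `K`. -/
theorem proj_adj {E : Submodule ℂ H} [E.HasOrthogonalProjection] (hE : E ≤ K)
    (KU : ∀ f ∈ K, U.adjoint f ∈ K)
    (hA : ∀ f ∈ E, comp U K f ∈ E) (hA' : ∀ f ∈ E, U.adjoint f ∈ E) {x : H} (hx : x ∈ K) :
    E.starProjection (U.adjoint x) = U.adjoint (E.starProjection x) := by
  apply Submodule.eq_starProjection_of_mem_orthogonal
  · exact hA' _ (Submodule.starProjection_apply_mem _ _)
  · rw [← map_sub, Submodule.mem_orthogonal]
    intro e he
    have h1 : x - E.starProjection x ∈ K := K.sub_mem hx (hE (Submodule.starProjection_apply_mem _ _))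
    rw [ContinuousLinearMap.adjoint_inner_right, ← proj_inner h1]
    exact Submodule.inner_right_of_mem_orthogonal (hA e he)
      (Submodule.sub_starProjection_mem_orthogonal _)

theorem proj_comp {E : Submodule ℂ H} [E.HasOrthogonalProjection] (hE : E ≤ K)
    (hA : ∀ f ∈ E, comp U K f ∈ E) (hA' : ∀ f ∈ E, U.adjoint f ∈ E) (x : H) :
    E.starProjection (comp U K x) = comp U K (E.starProjection x) := by
  apply Submodule.eq_starProjection_of_mem_orthogonal
  · exact hA _ (Submodule.starProjection_apply_mem _ _)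
  · unfold comp
    rw [← map_sub, ← map_sub, Submodule.mem_orthogonal']
    intro e he
    rw [proj_inner (hE he), ← ContinuousLinearMap.adjoint_inner_right]
    exact Submodule.inner_left_of_mem_orthogonal (hA' e he)
      (Submodule.sub_starProjection_mem_orthogonal _)

theorem Split.comp1 (h : Split U W K E1 E2) {f : H} (hf : f ∈ E1) : comp U K f = U f := by
  unfold comp
  rw [Submodule.starProjection_eq_self_iff]
  exact h.le1 (h.U1 f hf)

theorem Split.Wpow (h : Split U W K E1 E2) {f : H} (hf : f ∈ E2) (m : ℕ) : (W ^ m) f ∈ E2 := by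
  induction m with
  | zero => simpa using hf
  | succ m ih =>
    rw [pow_succ']
    exact h.W2 _ ih

/-- The two closed pieces are orthogonal. -/
theorem Split.orth (h : Split U W K E1 E2) : E2 ≤ E1ᗮ := by
  have hA1 : ∀ f ∈ E1, comp U K f ∈ E1 := fun f hf => by rw [h.comp1 hf]; exact h.U1 f hf
  have hA2 : ∀ f ∈ E2, comp U K f ∈ E2 := h.A2
  -- the range of `P2 P1` on `E2` is invariant under `U`
  have key : ∀ e ∈ E2, ∃ e' ∈ E2, U (E2.starProjection (E1.starProjection e)) =
      E2.starProjection (E1.starProjection e') := by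
    intro e he
    obtain ⟨f, hf⟩ : ∃ f, f = E2.starProjection (E1.starProjection e) := ⟨_, rfl⟩
    have hfE : f ∈ E2 := by rw [hf]; exact Submodule.starProjection_apply_mem _ _
    have hAf : comp U K f = E2.starProjection (E1.starProjection (comp U K e)) := by
      rw [hf, ← proj_comp h.le2 hA2 h.A2', ← proj_comp h.le1 hA1 h.A1]
    have hAAf : U.adjoint (comp U K f) = f := by
      have h1 : comp U K f = E2.starProjection (U (E1.starProjection e)) := by
        rw [hf, ← proj_comp h.le2 hA2 h.A2', h.comp1 (Submodule.starProjection_apply_mem _ _)]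
      rw [h1, ← proj_adj h.le2 h.KU hA2 h.A2'
        (h.le1 (h.U1 _ (Submodule.starProjection_apply_mem _ _))), h.hU, ← hf]
    have hn : ‖comp U K f‖ = ‖U f‖ := by
      have h1 : ⟪comp U K f, comp U K f⟫_ℂ = ⟪U f, U f⟫_ℂ := by
        have h0 : ⟪comp U K f, comp U K f⟫_ℂ = ⟪U f, comp U K f⟫_ℂ := proj_inner (comp_mem f)
        rw [h0, ← ContinuousLinearMap.adjoint_inner_right, hAAf, norm_iso h.hU]
      rw [inner_self_eq_norm_sq_to_K, inner_self_eq_norm_sq_to_K] at h1
      have h2 : ‖comp U K f‖ ^ 2 = ‖U f‖ ^ 2 := by exact_mod_cast h1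
      exact (pow_left_inj₀ (norm_nonneg _) (norm_nonneg _) two_ne_zero).mp h2
    have hmem : U f ∈ K := (Submodule.mem_iff_norm_starProjection K (U f)).mpr hn
    have hUf : U f = comp U K f := by
      unfold comp
      rw [Submodule.starProjection_eq_self_iff.mpr hmem]
    exact ⟨comp U K e, hA2 e he, by rw [← hf, hUf, hAf]⟩
  have key2 : ∀ (n : ℕ), ∀ e ∈ E2, ∃ e' ∈ E2, (U ^ n) (E2.starProjection (E1.starProjection e)) =
      E2.starProjection (E1.starProjection e') := by
    intro n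
    induction n with
    | zero => intro e he; exact ⟨e, he, rfl⟩
    | succ n ih =>
      intro e he
      obtain ⟨e', he', h1⟩ := ih e he
      obtain ⟨e'', he'', h2⟩ := key e' he'
      refine ⟨e'', he'', ?_⟩
      rw [pow_succ']
      show U ((U ^ n) _) = _
      rw [h1, h2]
  intro e he
  have hz : E2.starProjection (E1.starProjection e) = 0 := by
    apply h.Z
    intro m n
    obtain ⟨e', he', h1⟩ := key2 n e he
    rw [h1]
    exact h.le2 (h.Wpow (Submodule.starProjection_apply_mem _ _) m)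
  have h1 : ⟪E1.starProjection e, E1.starProjection e⟫_ℂ = 0 := by
    rw [Submodule.inner_starProjection_left_eq_right,
      Submodule.starProjection_eq_self_iff.mpr (Submodule.starProjection_apply_mem _ _),
      ← inner_conj_symm, ← proj_inner he, hz, inner_zero_left, map_zero]
  have h2 := inner_self_eq_zero.mp h1
  exact (Submodule.starProjection_apply_eq_zero_iff _).mp h2

/-- Vectors of `K` orthogonal to `E1` are in `E2`. -/
theorem Split.mem2 (h : Split U W K E1 E2) {g : H} (hg : g ∈ K) (hg1 : g ∈ E1ᗮ) : g ∈ E2 := by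
  have h1 : g - E2.starProjection g = 0 := by
    apply h.dense
    · exact K.sub_mem hg (h.le2 (Submodule.starProjection_apply_mem _ _))
    · exact E1ᗮ.sub_mem hg1 (h.orth (Submodule.starProjection_apply_mem _ _))
    · exact Submodule.sub_starProjection_mem_orthogonal _
  rw [sub_eq_zero] at h1
  rw [h1]
  exact Submodule.starProjection_apply_mem _ _

theorem Split.Upow (h : Split U W K E1 E2) {f : H} (hf : f ∈ E1) (m : ℕ) : (U ^ m) f ∈ E1 := by
  induction m with
  | zero => simpa using hf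
  | succ m ih =>
    rw [pow_succ']
    exact h.U1 _ ih

/-- `E1` consists of the vectors all of whose `U`-shifts stay in `K`. -/
theorem Split.mem1 (h : Split U W K E1 E2) {g : H} (hg : ∀ n : ℕ, (U ^ n) g ∈ K) : g ∈ E1 := by
  obtain ⟨g2, hg2⟩ : ∃ g2, g2 = g - E1.starProjection g := ⟨_, rfl⟩
  have hgK : g ∈ K := by simpa using hg 0
  have h0 : g2 ∈ E2 := by
    rw [hg2]
    exact h.mem2 (K.sub_mem hgK (h.le1 (Submodule.starProjection_apply_mem _ _)))
      (Submodule.sub_starProjection_mem_orthogonal _)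
  have h1 : ∀ n : ℕ, (U ^ n) g2 ∈ K := by
    intro n
    rw [hg2, map_sub]
    exact K.sub_mem (hg n) (h.le1 (h.Upow (Submodule.starProjection_apply_mem _ _) n))
  have h2 : ∀ n : ℕ, (U ^ n) g2 ∈ E2 := by
    intro n
    induction n with
    | zero => simpa using h0
    | succ n ih =>
      have h3 := h1 (n + 1)
      rw [pow_succ'] at h3 ⊢
      have h4 : U ((U ^ n) g2) = K.starProjection (U ((U ^ n) g2)) :=
        (Submodule.starProjection_eq_self_iff.mpr h3).symm
      show U ((U ^ n) g2) ∈ E2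
      rw [h4]
      exact h.A2 _ ih
  have h3 : g2 = 0 := h.Z g2 fun m n => h.le2 (h.Wpow (h2 n) m)
  rw [hg2, sub_eq_zero] at h3
  rw [h3]
  exact Submodule.starProjection_apply_mem _ _

theorem adj_pow_comm (dcomm : ∀ f, U.adjoint (W f) = W (U.adjoint f)) (n : ℕ) (f : H) :
    (U ^ n) (W.adjoint f) = W.adjoint ((U ^ n) f) := by
  induction n with
  | zero => rfl
  | succ n ih =>
    rw [pow_succ']
    show U ((U ^ n) _) = W.adjoint (U ((U ^ n) f))
    rw [ih, dcomm' dcomm]

theorem Split.W1 (h : Split U W K E1 E2) {g : H} (hg : g ∈ E1) : W.adjoint g ∈ E1 := by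
  apply h.mem1
  intro n
  rw [adj_pow_comm h.dcomm]
  exact h.KW _ (h.le1 (h.Upow hg n))

/-! ### The complement of `E1` -/

theorem Split.NU (h : Split U W K E1 E2) {n : H} (hn : n ∈ E1ᗮ) : U n ∈ E1ᗮ := by
  rw [Submodule.mem_orthogonal']
  intro e he
  rw [← ContinuousLinearMap.adjoint_inner_right]
  exact Submodule.inner_left_of_mem_orthogonal (h.A1 e he) hn

theorem Split.NU' (h : Split U W K E1 E2) {n : H} (hn : n ∈ E1ᗮ) : U.adjoint n ∈ E1ᗮ := by
  rw [Submodule.mem_orthogonal']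
  intro e he
  rw [ContinuousLinearMap.adjoint_inner_left]
  exact Submodule.inner_left_of_mem_orthogonal (h.U1 e he) hn

theorem Split.NW (h : Split U W K E1 E2) {n : H} (hn : n ∈ E1ᗮ) : W n ∈ E1ᗮ := by
  rw [Submodule.mem_orthogonal']
  intro e he
  rw [← ContinuousLinearMap.adjoint_inner_right]
  exact Submodule.inner_left_of_mem_orthogonal (h.W1 he) hn

/-- The wandering vectors of `W` in the complement of `E1`. -/
def Wan (W : H →L[ℂ] H) (E1 : Submodule ℂ H) : Submodule ℂ H where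
  carrier := {w | w ∈ E1ᗮ ∧ ∀ n ∈ E1ᗮ, ⟪W n, w⟫_ℂ = 0}
  zero_mem' := ⟨Submodule.zero_mem _, fun n _ => inner_zero_right _⟩
  add_mem' := fun {a b} ha hb => ⟨Submodule.add_mem _ ha.1 hb.1, fun n hn => by
    rw [inner_add_right, ha.2 n hn, hb.2 n hn, add_zero]⟩
  smul_mem' := fun c {a} ha => ⟨Submodule.smul_mem _ c ha.1, fun n hn => by
    rw [inner_smul_right, ha.2 n hn, mul_zero]⟩

theorem Split.theta_mem (h : Split U W K E1 E2) {th : H} (hth : th ∈ Kᗮ)
    (hth2 : ∀ y ∈ Kᗮ, ⟪W y, th⟫_ℂ = 0) : th ∈ Wan W E1 := by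
  refine ⟨Submodule.orthogonal_le h.le1 hth, fun n hn => ?_⟩
  obtain ⟨p, hp⟩ : ∃ p, p = K.starProjection n := ⟨_, rfl⟩
  have hpK : p ∈ K := by rw [hp]; exact Submodule.starProjection_apply_mem _ _
  have hp2 : p ∈ E2 := by
    apply h.mem2 hpK
    rw [Submodule.mem_orthogonal']
    intro e he
    rw [hp, proj_inner (h.le1 he)]
    exact Submodule.inner_left_of_mem_orthogonal he hn
  have e : n = p + (n - p) := by abel
  rw [e, map_add, inner_add_left]
  have h1 : ⟪W p, th⟫_ℂ = 0 := Submodule.inner_right_of_mem_orthogonal (h.le2 (h.W2 p hp2)) hth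
  have h2 : ⟪W (n - p), th⟫_ℂ = 0 := by
    apply hth2
    rw [hp]
    exact Submodule.sub_starProjection_mem_orthogonal _
  rw [h1, h2, add_zero]

theorem Split.Wan_adj (h : Split U W K E1 E2) {w : H} (hw : w ∈ Wan W E1) :
    U.adjoint w ∈ Wan W E1 := by
  refine ⟨h.NU' hw.1, fun n hn => ?_⟩
  rw [ContinuousLinearMap.adjoint_inner_right, h.comm]
  exact hw.2 _ (h.NU hn)

theorem Split.Wan_U (h : Split U W K E1 E2) {w : H} (hw : w ∈ Wan W E1) :
    U w ∈ Wan W E1 := by
  refine ⟨h.NU hw.1, fun n hn => ?_⟩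
  rw [← ContinuousLinearMap.adjoint_inner_left, h.dcomm]
  exact hw.2 _ (h.NU' hn)

/-- Powers of the shifts applied to wandering vectors killed by `U*` are orthogonal. -/
theorem Split.wander (h : Split U W K E1 E2) {w w' : H} (hw : w ∈ Wan W E1) (hw' : w' ∈ Wan W E1)
    (hUw : U.adjoint w = 0) (hUw' : U.adjoint w' = 0) (a b c d : ℕ) :
    ⟪(U ^ a) ((W ^ b) w), (U ^ c) ((W ^ d) w')⟫_ℂ = if a = c ∧ b = d then ⟪w, w'⟫_ℂ else 0 := by
  have Wp : ∀ (v : H), v ∈ E1ᗮ → ∀ m : ℕ, (W ^ m) v ∈ E1ᗮ := by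
    intro v hv m
    induction m with
    | zero => simpa using hv
    | succ m ih => rw [pow_succ']; exact h.NW ih
  have UW : ∀ (v : H) (m : ℕ), U.adjoint v = 0 → U.adjoint ((W ^ m) v) = 0 := by
    intro v m hv
    induction m with
    | zero => simpa using hv
    | succ m ih =>
      rw [pow_succ']
      show U.adjoint (W ((W ^ m) v)) = 0
      rw [h.dcomm, ih, map_zero]
  have Ucan : ∀ (n : ℕ) (x y : H), ⟪(U ^ n) x, (U ^ n) y⟫_ℂ = ⟪x, y⟫_ℂ := by
    intro n x y
    induction n with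
    | zero => rfl
    | succ n ih =>
      rw [pow_succ']
      show ⟪U ((U ^ n) x), U ((U ^ n) y)⟫_ℂ = _
      rw [norm_iso h.hU, ih]
  have Wcan : ∀ (n : ℕ) (x y : H), ⟪(W ^ n) x, (W ^ n) y⟫_ℂ = ⟪x, y⟫_ℂ := by
    intro n x y
    induction n with
    | zero => rfl
    | succ n ih =>
      rw [pow_succ']
      show ⟪W ((W ^ n) x), W ((W ^ n) y)⟫_ℂ = _
      rw [norm_iso h.hW, ih]
  have Wpos : ∀ (x y : H), x ∈ Wan W E1 → y ∈ Wan W E1 → ∀ n : ℕ, ⟪(W ^ (n + 1)) x, y⟫_ℂ = 0 := by
    intro x y hx hy n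
    rw [pow_succ']
    exact hy.2 _ (Wp x hx.1 n)
  have Upos : ∀ (x y : H), U.adjoint y = 0 → ∀ n : ℕ, ⟪(U ^ (n + 1)) x, y⟫_ℂ = 0 := by
    intro x y hy n
    rw [pow_succ']
    show ⟪U ((U ^ n) x), y⟫_ℂ = 0
    rw [← ContinuousLinearMap.adjoint_inner_right, hy, inner_zero_right]
  rcases lt_trichotomy a c with hac | hac | hac
  · obtain ⟨k, rfl⟩ := Nat.exists_eq_add_of_lt hac
    rw [if_neg (by omega), add_assoc, pow_add]
    show ⟪(U ^ a) ((W ^ b) w), (U ^ a) ((U ^ (k + 1)) ((W ^ d) w'))⟫_ℂ = 0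
    rw [Ucan, ← inner_conj_symm, Upos _ _ (UW w b hUw), map_zero]
  · subst hac
    rw [Ucan]
    rcases lt_trichotomy b d with hbd | hbd | hbd
    · obtain ⟨k, rfl⟩ := Nat.exists_eq_add_of_lt hbd
      rw [if_neg (by omega), add_assoc, pow_add]
      show ⟪(W ^ b) w, (W ^ b) ((W ^ (k + 1)) w')⟫_ℂ = 0
      rw [Wcan, ← inner_conj_symm, Wpos _ _ hw' hw, map_zero]
    · subst hbd
      rw [Wcan, if_pos ⟨rfl, rfl⟩]
    · obtain ⟨k, rfl⟩ := Nat.exists_eq_add_of_lt hbd
      rw [if_neg (by omega), add_assoc, pow_add]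
      show ⟪(W ^ d) ((W ^ (k + 1)) w), (W ^ d) w'⟫_ℂ = 0
      rw [Wcan, Wpos _ _ hw hw']
  · obtain ⟨k, rfl⟩ := Nat.exists_eq_add_of_lt hac
    rw [if_neg (by omega), add_assoc, pow_add]
    show ⟪(U ^ c) ((U ^ (k + 1)) ((W ^ b) w)), (U ^ c) ((W ^ d) w')⟫_ℂ = 0
    rw [Ucan, Upos _ _ (UW w' d hUw')]

end F7
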