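import Pool.Agent.Q94.F7E

/-!
# A reducing splitting forces the coefficient matrix to have rank one
-/

open scoped ComplexConjugate Topology InnerProductSpace
open Filter MeasureTheory

noncomputable section

namespace F7

theorem V_pow1 (n : ℕ) (f : H2) : ((V (1, 0)) ^ n) f = V (n, 0) f := by
  induction n with
  | zero => exact (V_zero f).symm
  | succ n ih =>
    rw [pow_succ']
    show V (1, 0) (((V (1, 0)) ^ n) f) = _
    rw [ih, V_V]
    congr 2
    simp [add_comm]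

theorem V_pow2 (n : ℕ) (f : H2) : ((V (0, 1)) ^ n) f = V (0, n) f := by
  induction n with
  | zero => exact (V_zero f).symm
  | succ n ih =>
    rw [pow_succ']
    show V (0, 1) (((V (0, 1)) ^ n) f) = _
    rw [ih, V_V]
    congr 2
    simp [add_comm]

theorem ev_isoOf (χ : H2) (hχ : Orthonormal ℂ (fun b => V b χ)) (f : H2) (z : D2) :
    ev (isoOf _ hχ f) z = ev χ z * ev f z := by
  have e : (innerSL ℂ (kv z)) ∘L (isoOf _ hχ).toContinuousLinearMap =
      (ev χ z) • innerSL ℂ (kv z) := by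
    apply clm_ext
    intro b
    show ⟪kv z, isoOf _ hχ (mono b)⟫_ℂ = ev χ z * ⟪kv z, mono b⟫_ℂ
    rw [isoOf_mono, ← ev_eq, ← ev_eq, ev_V, ev_mono, mul_comm]
  have := congrArg (fun T : H2 →L[ℂ] ℂ => T f) e
  rw [ev_eq, ev_eq f]
  exact this

/-- There are no two mutually orthogonal wandering vectors. -/
theorem index_one (χ ψ : H2) (hχ : Orthonormal ℂ (fun b => V b χ))
    (hψ : Orthonormal ℂ (fun b => V b ψ)) (ho : ∀ a b, ⟪V a χ, V b ψ⟫_ℂ = 0) : False := by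
  have h1 : isoOf _ hχ ψ = isoOf _ hψ χ := by
    apply ev_ext
    intro z
    rw [ev_isoOf, ev_isoOf, mul_comm]
  have h2 : ∀ a g, ⟪isoOf _ hχ (mono a), isoOf _ hψ g⟫_ℂ = 0 := by
    intro a g
    have e : (innerSL ℂ (isoOf _ hχ (mono a))) ∘L (isoOf _ hψ).toContinuousLinearMap = 0 := by
      apply clm_ext
      intro b
      show ⟪isoOf _ hχ (mono a), isoOf _ hψ (mono b)⟫_ℂ = 0
      rw [isoOf_mono, isoOf_mono, ho]
    exact congrArg (fun T : H2 →L[ℂ] ℂ => T g) e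
  have h3 : ∀ f g, ⟪isoOf _ hψ g, isoOf _ hχ f⟫_ℂ = 0 := by
    intro f g
    have e : (innerSL ℂ (isoOf _ hψ g)) ∘L (isoOf _ hχ).toContinuousLinearMap = 0 := by
      apply clm_ext
      intro b
      show ⟪isoOf _ hψ g, isoOf _ hχ (mono b)⟫_ℂ = 0
      rw [← inner_conj_symm, h2, map_zero]
    exact congrArg (fun T : H2 →L[ℂ] ℂ => T f) e
  have h4 := h3 ψ χ
  rw [← h1] at h4
  have h5 := inner_self_eq_zero.mp h4
  have h6 : ‖isoOf _ hχ ψ‖ = ‖ψ‖ := LinearIsometry.norm_map _ _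
  rw [h5, norm_zero] at h6
  have h7 := hψ.1 0
  rw [V_norm, ← h6] at h7
  exact zero_ne_one h7

variable {t : ℕ × ℕ → ℂ} {B : ℝ}

/-- The model space. -/
def Kth (h : UniData t B) : Submodule ℂ H2 := (LinearMap.range (Mul h).toLinearMap)ᗮ

instance (h : UniData t B) : (Kth h).HasOrthogonalProjection := by
  unfold Kth
  infer_instance

theorem mem_Kth (h : UniData t B) {f : H2} : f ∈ Kth h ↔ ∀ g, ⟪Mul h g, f⟫_ℂ = 0 := by
  unfold Kth
  rw [Submodule.mem_orthogonal]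
  constructor
  · intro h1 g
    exact h1 _ ⟨g, rfl⟩
  · rintro h1 _ ⟨g, rfl⟩
    exact h1 g

theorem Kth_orth (h : UniData t B) {f : H2} (hf : f ∈ (Kth h)ᗮ) : ∃ g, f = Mul h g := by
  unfold Kth at hf
  have hc : IsClosed ((LinearMap.range (Mul h).toLinearMap : Submodule ℂ H2) : Set H2) := by
    exact (Mul h).isometry.isClosedEmbedding.isClosed_range
  have hcs : CompleteSpace (LinearMap.range (Mul h).toLinearMap : Submodule ℂ H2) :=
    hc.completeSpace_coe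
  rw [Submodule.orthogonal_orthogonal] at hf
  obtain ⟨g, hg⟩ := hf
  exact ⟨g, hg.symm⟩

theorem mul_mem_orth (h : UniData t B) (g : H2) : Mul h g ∈ (Kth h)ᗮ := by
  rw [Submodule.mem_orthogonal']
  intro f hf
  exact (mem_Kth h).mp hf g

theorem Kth_adj (h : UniData t B) (a : ℕ × ℕ) {f : H2} (hf : f ∈ Kth h) :
    (V a).adjoint f ∈ Kth h := by
  rw [mem_Kth] at hf ⊢
  intro g
  rw [ContinuousLinearMap.adjoint_inner_right, ← Mul_V]
  exact hf _

theorem Kth_Z (h : UniData t B) (f : H2) (hf : ∀ a, V a f ∈ Kth h) : f = 0 := by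
  apply lemmaZ h
  intro a g
  rw [← inner_conj_symm, (mem_Kth h).mp (hf a) g, map_zero]

/-- The coefficients factor. -/
theorem rank_one_aux (h : UniData t B) (U W : H2 →L[ℂ] H2) (E1 E2 : Submodule ℂ H2)
    [E1.HasOrthogonalProjection] [E2.HasOrthogonalProjection]
    (hs : Split U W (Kth h) E1 E2) (σ : ℕ × ℕ ≃ ℕ × ℕ)
    (hσ : ∀ a b f, (U ^ a) ((W ^ b) f) = V (σ (a, b)) f)
    (hU0 : ∀ n : ℕ, U.adjoint ((W ^ n) (mono 0)) = 0) (hW0 : W.adjoint (mono 0) = 0)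
    (hWM : ∀ f, W (Mul h f) = Mul h (W f)) :
    ∃ c q : ℕ → ℂ, ∀ m n, t (σ (m, n)) = c m * q n := by
  obtain ⟨th, hth⟩ : ∃ th, th = tv h := ⟨_, rfl⟩
  have hthM : th = Mul h (mono 0) := by rw [hth, Mul_mono, V_zero]
  have hmem : th ∈ Wan W E1 := by
    apply hs.theta_mem
    · rw [hthM]; exact mul_mem_orth h _
    · intro y hy
      obtain ⟨g, rfl⟩ := Kth_orth h hy
      rw [hWM, hthM]
      have : ⟪Mul h (W g), Mul h (mono 0)⟫_ℂ = ⟪W g, mono 0⟫_ℂ := (Mul h).inner_map_map _ _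
      rw [this, ← ContinuousLinearMap.adjoint_inner_right, hW0, inner_zero_right]
  -- any two vectors of the slice space are dependent
  have dep : ∀ w w' : H2, w ∈ Wan W E1 → w' ∈ Wan W E1 → U.adjoint w = 0 → U.adjoint w' = 0 →
      w ≠ 0 → ∃ c : ℂ, w' = c • w := by
    intro w w' hw hw' hUw hUw' hne
    have orth : ∀ v v' : H2, v ∈ Wan W E1 → v' ∈ Wan W E1 → U.adjoint v = 0 → U.adjoint v' = 0 →
        ∀ x y, ⟪V x v, V y v'⟫_ℂ = if x = y then ⟪v, v'⟫_ℂ else 0 := by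
      intro v v' hv hv' hUv hUv' x y
      obtain ⟨⟨a, b⟩, rfl⟩ := σ.surjective x
      obtain ⟨⟨c, d⟩, rfl⟩ := σ.surjective y
      rw [← hσ, ← hσ, hs.wander hv hv' hUv hUv']
      simp only [σ.injective.eq_iff, Prod.mk.injEq]
    refine ⟨⟪w, w'⟫_ℂ / ⟪w, w⟫_ℂ, ?_⟩
    by_contra hcon
    obtain ⟨u, hu⟩ : ∃ u, u = w' - (⟪w, w'⟫_ℂ / ⟪w, w⟫_ℂ) • w := ⟨_, rfl⟩
    have hu0 : u ≠ 0 := by
      intro h0
      rw [hu, sub_eq_zero] at h0
      exact hcon h0
    have huW : u ∈ Wan W E1 := by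
      rw [hu]
      exact Submodule.sub_mem _ hw' (Submodule.smul_mem _ _ hw)
    have huU : U.adjoint u = 0 := by
      rw [hu, map_sub, map_smul, hUw, hUw', smul_zero, sub_zero]
    have hww : ⟪w, w⟫_ℂ ≠ 0 := fun h0 => hne (inner_self_eq_zero.mp h0)
    have hwu : ⟪w, u⟫_ℂ = 0 := by
      rw [hu, inner_sub_right, inner_smul_right, div_mul_cancel₀ _ hww, sub_self]
    have unit : ∀ v : H2, v ≠ 0 → v ∈ Wan W E1 → U.adjoint v = 0 →
        Orthonormal ℂ (fun b => V b (((‖v‖ : ℂ)⁻¹) • v)) := by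
      intro v hv0 hv hUv
      rw [orthonormal_iff_ite]
      intro x y
      rw [map_smul, map_smul, inner_smul_left, inner_smul_right, orth v v hv hv hUv hUv]
      split_ifs
      · rw [inner_self_eq_norm_sq_to_K, map_inv₀, Complex.conj_ofReal]
        have : (‖v‖ : ℂ) ≠ 0 := by
          exact_mod_cast (norm_pos_iff.mpr hv0).ne'
        show (‖v‖ : ℂ)⁻¹ * ((‖v‖ : ℂ)⁻¹ * (‖v‖ : ℂ) ^ 2) = 1
        field_simp
      · simp
    refine index_one _ _ (unit w hne hw hUw) (unit u hu0 huW huU) fun a b => ?_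
    rw [map_smul, map_smul, inner_smul_left, inner_smul_right, orth w u hw huW hUw huU, hwu]
    simp
  -- the slices
  obtain ⟨g, hg⟩ : ∃ g : ℕ → H2, ∀ m, g m = (U.adjoint ^ m) th := ⟨fun m => (U.adjoint ^ m) th, fun _ => rfl⟩
  have hgm : ∀ m, g m ∈ Wan W E1 := by
    intro m
    rw [hg]
    induction m with
    | zero => simpa using hmem
    | succ m ih =>
      rw [pow_succ']
      exact hs.Wan_adj ih
  obtain ⟨s, hsl⟩ : ∃ s : ℕ → H2, ∀ m, s m = g m - U (U.adjoint (g m)) := ⟨_, fun _ => rfl⟩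
  have hsm : ∀ m, s m ∈ Wan W E1 := fun m => by
    rw [hsl]
    exact Submodule.sub_mem _ (hgm m) (hs.Wan_U (hs.Wan_adj (hgm m)))
  have hsU : ∀ m, U.adjoint (s m) = 0 := fun m => by
    rw [hsl, map_sub, hs.hU, sub_self]
  have coef : ∀ m n, t (σ (m, n)) = ⟪(W ^ n) (mono 0), s m⟫_ℂ := by
    intro m n
    have h1 : t (σ (m, n)) = ⟪(U ^ m) ((W ^ n) (mono 0)), th⟫_ℂ := by
      rw [hσ, V_mono, add_zero, inner_mono, hth]
      rfl
    have h2 : ∀ (m : ℕ) (x y : H2), ⟪(U ^ m) x, y⟫_ℂ = ⟪x, (U.adjoint ^ m) y⟫_ℂ := by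
      intro m
      induction m with
      | zero => intro x y; rfl
      | succ m ih =>
        intro x y
        rw [pow_succ', pow_succ]
        show ⟪U ((U ^ m) x), y⟫_ℂ = ⟪x, (U.adjoint ^ m) (U.adjoint y)⟫_ℂ
        rw [← ih, ContinuousLinearMap.adjoint_inner_right]
    rw [h1, h2, ← hg, hsl, inner_sub_right, ← ContinuousLinearMap.adjoint_inner_left, hU0,
      inner_zero_left, sub_zero]
  by_cases hall : ∀ m, s m = 0
  · refine ⟨fun _ => 0, fun _ => 0, fun m n => ?_⟩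
    rw [coef, hall m, inner_zero_right, zero_mul]
  · push Not at hall
    obtain ⟨m0, hm0⟩ := hall
    choose c hc using fun m => dep (s m0) (s m) (hsm m0) (hsm m) (hsU m0) (hsU m) hm0
    refine ⟨c, fun n => ⟪(W ^ n) (mono 0), s m0⟫_ℂ, fun m n => ?_⟩
    rw [coef, hc m, inner_smul_right]

theorem V_doubly' (f : H2) :
    (V (0, 1)).adjoint (V (1, 0) f) = V (1, 0) ((V (0, 1)).adjoint f) :=
  dcomm' (fun f => V_doubly 1 1 f) f

/-- The two cases together. -/
theorem rank_one (h : UniData t B) (E1 E2 : Submodule ℂ H2)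
    [E1.HasOrthogonalProjection] [E2.HasOrthogonalProjection]
    (hs : Split (V (1, 0)) (V (0, 1)) (Kth h) E1 E2 ∨
      Split (V (0, 1)) (V (1, 0)) (Kth h) E1 E2) :
    ∃ c q : ℕ → ℂ, ∀ m n, t (m, n) = c m * q n := by
  rcases hs with hs | hs
  · obtain ⟨c, q, hcq⟩ := rank_one_aux h _ _ E1 E2 hs (Equiv.refl _) (fun a b f => by
      rw [V_pow1, V_pow2, V_V]
      congr 2
      simp) (fun n => by
      rw [V_pow2, V_mono, add_zero]
      exact V1_adj_mono n) (V2_adj_mono 0) (fun f => (Mul_V h _ f).symm)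
    exact ⟨c, q, hcq⟩
  · obtain ⟨c, q, hcq⟩ := rank_one_aux h _ _ E1 E2 hs (Equiv.prodComm _ _) (fun a b f => by
      rw [V_pow1, V_pow2, V_V]
      congr 2
      simp) (fun n => by
      rw [V_pow1, V_mono, add_zero]
      exact V2_adj_mono n) (V1_adj_mono 0) (fun f => (Mul_V h _ f).symm)
    exact ⟨q, c, fun m n => by rw [mul_comm]; exact hcq n m⟩

end F7
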