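import Pool.Agent.Q94.F7F

/-!
# Power series of bounded holomorphic functions on the bidisk
-/

open scoped ComplexConjugate Topology InnerProductSpace
open Filter MeasureTheory

noncomputable section

namespace F7

/-- The open unit bidisk. -/
def bidisk : Set (ℂ × ℂ) := {z | ‖z.1‖ < 1 ∧ ‖z.2‖ < 1}

/-- The point `r e^{ix}`. -/
def pz (r : ℝ) (x : ℝ × ℝ) : ℂ × ℂ :=
  (r * Complex.exp (x.1 * Complex.I), r * Complex.exp (x.2 * Complex.I))

theorem norm_rexp {r : ℝ} (hr : 0 ≤ r) (s : ℝ) : ‖(r : ℂ) * Complex.exp (s * Complex.I)‖ = r := by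
  rw [norm_mul, Complex.norm_exp_ofReal_mul_I, mul_one, Complex.norm_of_nonneg hr]

theorem pz_mem {r : ℝ} (hr : 0 ≤ r) (hr1 : r < 1) (x : ℝ × ℝ) : pz r x ∈ bidisk := by
  refine ⟨?_, ?_⟩
  · show ‖(r : ℂ) * Complex.exp (x.1 * Complex.I)‖ < 1
    rw [norm_rexp hr]; exact hr1
  · show ‖(r : ℂ) * Complex.exp (x.2 * Complex.I)‖ < 1
    rw [norm_rexp hr]; exact hr1

theorem continuous_pz (r : ℝ) : Continuous (pz r) := by
  unfold pz
  fun_prop

/-- Cauchy's formula on a circle around the origin. -/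
theorem cauchy {f : ℂ → ℂ} (hf : DifferentiableOn ℂ f (Metric.ball 0 1)) {r : ℝ} (hr : 0 < r)
    (hr1 : r < 1) {w : ℂ} (hw : ‖w‖ < r) :
    ∫ s in Set.Ioc 0 (2 * Real.pi), (1 - w / (r * Complex.exp (s * Complex.I)))⁻¹ *
      f (r * Complex.exp (s * Complex.I)) = 2 * Real.pi * f w := by
  have hd : DiffContOnCl ℂ f (Metric.ball 0 r) := by
    apply (hf.mono ?_).diffContOnCl
    exact (Metric.closure_ball_subset_closedBall).trans (Metric.closedBall_subset_ball hr1)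
  have h := hd.circleIntegral_sub_inv_smul (w := w) (by simpa using hw)
  unfold circleIntegral at h
  rw [intervalIntegral.integral_of_le (by positivity)] at h
  have e : ∀ s : ℝ, deriv (circleMap 0 r) s • (circleMap 0 r s - w)⁻¹ • f (circleMap 0 r s) =
      Complex.I * ((1 - w / (r * Complex.exp (s * Complex.I)))⁻¹ *
      f (r * Complex.exp (s * Complex.I))) := by
    intro s
    rw [deriv_circleMap]
    have e1 : circleMap 0 r s = r * Complex.exp (s * Complex.I) := by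
      rw [circleMap, zero_add]
    rw [e1]
    have hne : (r : ℂ) * Complex.exp (s * Complex.I) ≠ 0 := by
      apply mul_ne_zero _ (Complex.exp_ne_zero _)
      exact_mod_cast hr.ne'
    obtain ⟨q, hq⟩ : ∃ q, q = (r : ℂ) * Complex.exp (s * Complex.I) := ⟨_, rfl⟩
    rw [← hq] at hne ⊢
    have e2 : q - w = q * (1 - w / q) := by field_simp
    obtain ⟨u, hu⟩ : ∃ u, u = (1 - w / q)⁻¹ := ⟨_, rfl⟩
    rw [e2, mul_inv, ← hu]
    simp only [smul_eq_mul]
    field_simp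
  simp_rw [e] at h
  rw [integral_const_mul, smul_eq_mul] at h
  have h2 : Complex.I * ∫ s in Set.Ioc 0 (2 * Real.pi),
      (1 - w / (r * Complex.exp (s * Complex.I)))⁻¹ * f (r * Complex.exp (s * Complex.I)) =
      Complex.I * (2 * Real.pi * f w) := by
    rw [h]
    ring
  exact mul_left_cancel₀ Complex.I_ne_zero h2

/-- The geometric kernel. -/
theorem kernel_series {r : ℝ} (hr : 0 < r) {z : ℂ × ℂ} (h1 : ‖z.1‖ < r) (h2 : ‖z.2‖ < r) :
    (Summable fun n : ℕ × ℕ => ‖conj ((z.1 / r) ^ n.1 * (z.2 / r) ^ n.2)‖) ∧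
    ∀ x, conj (Fs (fun n : ℕ × ℕ => conj ((z.1 / r) ^ n.1 * (z.2 / r) ^ n.2)) x) =
      (1 - z.1 / (r * Complex.exp (x.1 * Complex.I)))⁻¹ *
      (1 - z.2 / (r * Complex.exp (x.2 * Complex.I)))⁻¹ := by
  have hr' : ‖(r : ℂ)‖ = r := Complex.norm_of_nonneg hr.le
  have g1 : ‖z.1 / r‖ < 1 := by rw [norm_div, hr', div_lt_one hr]; exact h1
  have g2 : ‖z.2 / r‖ < 1 := by rw [norm_div, hr', div_lt_one hr]; exact h2
  refine ⟨?_, ?_⟩
  · refine (summable_geom2 (norm_nonneg (z.1 / r)) g1 (norm_nonneg (z.2 / r)) g2).congr fun n => ?_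
    rw [RCLike.norm_conj, norm_mul, norm_pow, norm_pow]
  · intro x
    have key : ∀ (w : ℂ) (s : ℝ), ‖w / r‖ < 1 → ‖w / (r * Complex.exp (s * Complex.I))‖ < 1 := by
      intro w s hw
      rw [norm_div] at hw ⊢
      rw [norm_mul, Complex.norm_exp_ofReal_mul_I, mul_one]
      exact hw
    have k1 := key z.1 x.1 g1
    have k2 := key z.2 x.2 g2
    rw [← tsum_geometric_of_norm_lt_one k1, ← tsum_geometric_of_norm_lt_one k2,
      tsum_mul_tsum_of_summable_norm (summable_norm_geometric_of_norm_lt_one k1)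
        (summable_norm_geometric_of_norm_lt_one k2)]
    unfold Fs ch
    rw [Complex.conj_tsum]
    congr 1
    funext n
    rw [map_mul, Complex.conj_conj, map_mul, map_pow, map_pow, ← Complex.exp_conj,
      ← Complex.exp_conj]
    have e : ∀ s : ℝ, Complex.exp (conj ((s : ℂ) * Complex.I)) =
        (Complex.exp (s * Complex.I))⁻¹ := by
      intro s
      rw [← Complex.exp_neg]
      congr 1
      simp
    rw [e, e]
    simp only [div_pow, mul_pow, inv_pow]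
    field_simp

variable {θ : ℂ × ℂ → ℂ} {C : ℝ}

theorem cont_pz (hd : DifferentiableOn ℂ θ bidisk) {r : ℝ} (hr : 0 ≤ r) (hr1 : r < 1) :
    Continuous (fun x => θ (pz r x)) := by
  have : ContinuousOn θ bidisk := hd.continuousOn
  exact this.comp_continuous (continuous_pz r) (pz_mem hr hr1)

/-- The iterated Cauchy formula. -/
theorem cauchy2 (hd : DifferentiableOn ℂ θ bidisk) (hC : ∀ z ∈ bidisk, ‖θ z‖ ≤ C) {r : ℝ}
    (hr : 0 < r) (hr1 : r < 1) {z : ℂ × ℂ} (h1 : ‖z.1‖ < r) (h2 : ‖z.2‖ < r) :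
    ∫ x, ((1 - z.1 / (r * Complex.exp (x.1 * Complex.I)))⁻¹ *
      (1 - z.2 / (r * Complex.exp (x.2 * Complex.I)))⁻¹) * θ (pz r x) ∂tor =
      (2 * Real.pi) ^ 2 * θ z := by
  obtain ⟨hs, hker⟩ := kernel_series hr h1 h2
  have hcont : Continuous (fun x : ℝ × ℝ => ((1 - z.1 / (r * Complex.exp (x.1 * Complex.I)))⁻¹ *
      (1 - z.2 / (r * Complex.exp (x.2 * Complex.I)))⁻¹) * θ (pz r x)) := by
    refine Continuous.mul ?_ (cont_pz hd hr.le hr1)
    have : (fun x : ℝ × ℝ => (1 - z.1 / (r * Complex.exp (x.1 * Complex.I)))⁻¹ *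
      (1 - z.2 / (r * Complex.exp (x.2 * Complex.I)))⁻¹) =
      fun x => conj (Fs (fun n : ℕ × ℕ => conj ((z.1 / r) ^ n.1 * (z.2 / r) ^ n.2)) x) := by
      funext x
      rw [hker]
    rw [this]
    exact Complex.continuous_conj.comp (continuous_Fs hs)
  have hint : Integrable (fun x : ℝ × ℝ => ((1 - z.1 / (r * Complex.exp (x.1 * Complex.I)))⁻¹ *
      (1 - z.2 / (r * Complex.exp (x.2 * Complex.I)))⁻¹) * θ (pz r x)) tor := by
    refine Integrable.of_bound (C := (∑' n : ℕ × ℕ, ‖conj ((z.1 / r) ^ n.1 * (z.2 / r) ^ n.2)‖) * C)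
      hcont.aestronglyMeasurable (Eventually.of_forall fun x => ?_)
    rw [norm_mul]
    refine mul_le_mul ?_ (hC _ (pz_mem hr.le hr1 x)) (norm_nonneg _) (tsum_nonneg fun _ => norm_nonneg _)
    rw [← hker, RCLike.norm_conj]
    exact norm_Fs_le hs x
  unfold tor at hint ⊢
  rw [integral_prod _ hint]
  have inner : ∀ s : ℝ, ∫ t in Set.Ioc 0 (2 * Real.pi),
      ((1 - z.1 / (r * Complex.exp (s * Complex.I)))⁻¹ *
      (1 - z.2 / (r * Complex.exp (t * Complex.I)))⁻¹) * θ (pz r (s, t)) =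
      (2 * Real.pi) * ((1 - z.1 / (r * Complex.exp (s * Complex.I)))⁻¹ *
        θ (r * Complex.exp (s * Complex.I), z.2)) := by
    intro s
    have hf : DifferentiableOn ℂ (fun w => θ (r * Complex.exp (s * Complex.I), w))
        (Metric.ball 0 1) := by
      refine hd.comp (by fun_prop) ?_
      intro w hw
      refine ⟨?_, by simpa using hw⟩
      show ‖(r : ℂ) * Complex.exp (s * Complex.I)‖ < 1
      rw [norm_rexp hr.le]; exact hr1
    have h := cauchy hf hr hr1 h2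
    have e : ∀ t : ℝ, ((1 - z.1 / (r * Complex.exp (s * Complex.I)))⁻¹ *
      (1 - z.2 / (r * Complex.exp (t * Complex.I)))⁻¹) * θ (pz r (s, t)) =
      (1 - z.1 / (r * Complex.exp (s * Complex.I)))⁻¹ *
      ((1 - z.2 / (r * Complex.exp (t * Complex.I)))⁻¹ *
        θ (r * Complex.exp (s * Complex.I), r * Complex.exp (t * Complex.I))) := by
      intro t
      unfold pz
      ring
    simp_rw [e]
    rw [integral_const_mul, h]
    ring
  simp only at inner ⊢
  simp_rw [inner]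
  rw [integral_const_mul]
  have hf : DifferentiableOn ℂ (fun w => θ (w, z.2)) (Metric.ball 0 1) := by
    refine hd.comp (by fun_prop) ?_
    intro w hw
    exact ⟨by simpa using hw, h2.trans hr1⟩
  rw [cauchy hf hr hr1 h1]
  ring

/-- Normalised Fourier coefficients on the torus of radius `r`. -/
def Tc (θ : ℂ × ℂ → ℂ) (r : ℝ) (n : ℕ × ℕ) : ℂ :=
  ((2 * Real.pi : ℂ) ^ 2)⁻¹ * ∫ x, conj (ch n x) * θ (pz r x) ∂tor

theorem pi_ne : ((2 * Real.pi : ℂ) ^ 2) ≠ 0 := by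
  apply pow_ne_zero
  exact_mod_cast (by positivity : (2 * Real.pi : ℝ) ≠ 0)

theorem Tc_bound (hC : ∀ z ∈ bidisk, ‖θ z‖ ≤ C) {r : ℝ} (hr : 0 ≤ r) (hr1 : r < 1) (n : ℕ × ℕ) :
    ‖Tc θ r n‖ ≤ C := by
  unfold Tc
  have h1 : ‖∫ x, conj (ch n x) * θ (pz r x) ∂tor‖ ≤ C * tor.real Set.univ := by
    apply norm_integral_le_of_norm_le_const
    refine Eventually.of_forall fun x => ?_
    rw [norm_mul, RCLike.norm_conj, norm_ch, one_mul]
    exact hC _ (pz_mem hr hr1 x)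
  rw [tor_univ] at h1
  have hpi : (0:ℝ) < (2 * Real.pi) ^ 2 := by positivity
  have h2 : ‖((2 * Real.pi : ℂ) ^ 2)⁻¹‖ = ((2 * Real.pi) ^ 2)⁻¹ := by
    rw [norm_inv, norm_pow, norm_mul, Complex.norm_ofNat, Complex.norm_of_nonneg Real.pi_pos.le]
  rw [norm_mul, h2, inv_mul_le_iff₀ hpi, mul_comm]
  exact h1

theorem Tc_hasSum (hd : DifferentiableOn ℂ θ bidisk) (hC : ∀ z ∈ bidisk, ‖θ z‖ ≤ C) {r : ℝ}
    (hr : 0 < r) (hr1 : r < 1) {z : ℂ × ℂ} (h1 : ‖z.1‖ < r) (h2 : ‖z.2‖ < r) :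
    HasSum (fun n : ℕ × ℕ => Tc θ r n * ((z.1 / r) ^ n.1 * (z.2 / r) ^ n.2)) (θ z) := by
  obtain ⟨hs, hker⟩ := kernel_series hr h1 h2
  have hG : Continuous (fun x => conj (θ (pz r x))) :=
    Complex.continuous_conj.comp (cont_pz hd hr.le hr1)
  have h := interchange hs hG (C := C) (fun x => by
    rw [RCLike.norm_conj]; exact hC _ (pz_mem hr.le hr1 x))
  have h3 := (h.mapL (Complex.conjCLE.toContinuousLinearMap)).mul_left (((2 * Real.pi : ℂ) ^ 2)⁻¹)
  have c1 := cauchy2 hd hC hr hr1 h1 h2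
  have e1 : ∫ x, conj (θ (pz r x)) *
      Fs (fun n : ℕ × ℕ => conj ((z.1 / r) ^ n.1 * (z.2 / r) ^ n.2)) x ∂tor =
      conj ((2 * Real.pi : ℂ) ^ 2 * θ z) := by
    rw [← c1, ← integral_conj]
    congr 1
    funext x
    rw [map_mul, ← hker x, Complex.conj_conj, mul_comm]
  rw [e1] at h3
  have e3 : (fun n : ℕ × ℕ => Tc θ r n * ((z.1 / r) ^ n.1 * (z.2 / r) ^ n.2)) =
      fun i => ((2 * Real.pi : ℂ) ^ 2)⁻¹ * (Complex.conjCLE.toContinuousLinearMap)
          (conj ((z.1 / r) ^ i.1 * (z.2 / r) ^ i.2) *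
            ∫ (x : ℝ × ℝ), conj (θ (pz r x)) * ch i x ∂tor) := by
    funext n
    rw [ContinuousLinearEquiv.coe_coe, Complex.conjCLE_apply, map_mul conj, Complex.conj_conj,
      ← integral_conj]
    unfold Tc
    have : (fun x => conj (conj (θ (pz r x)) * ch n x)) = fun x => conj (ch n x) * θ (pz r x) := by
      funext x
      rw [map_mul, Complex.conj_conj, mul_comm]
    rw [this]
    ring
  have e4 : θ z = ((2 * Real.pi : ℂ) ^ 2)⁻¹ * (Complex.conjCLE.toContinuousLinearMap)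
      (conj ((2 * Real.pi : ℂ) ^ 2 * θ z)) := by
    rw [ContinuousLinearEquiv.coe_coe, Complex.conjCLE_apply, Complex.conj_conj, ← mul_assoc,
      inv_mul_cancel₀ pi_ne, one_mul]
  rw [e3, e4]
  exact h3

theorem Tc_scale (hd : DifferentiableOn ℂ θ bidisk) (hC : ∀ z ∈ bidisk, ‖θ z‖ ≤ C) {ρ r : ℝ}
    (hρ : 0 < ρ) (hρr : ρ < r) (hr1 : r < 1) (n : ℕ × ℕ) :
    Tc θ ρ n = Tc θ r n * ((ρ / r : ℝ) : ℂ) ^ (n.1 + n.2) := by
  have hr : 0 < r := hρ.trans hρr
  have hq0 : 0 ≤ ρ / r := by positivity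
  have hq1 : ρ / r < 1 := (div_lt_one hr).mpr hρr
  have hs := summable_dil hq0 hq1 (Tc_bound hC hr.le hr1)
  have e : ∀ x, θ (pz ρ x) = Fs (dil (ρ / r) (Tc θ r)) x := by
    intro x
    have h := Tc_hasSum hd hC hr hr1 (z := pz ρ x) (by
      show ‖(ρ : ℂ) * Complex.exp (x.1 * Complex.I)‖ < r
      rw [norm_rexp hρ.le]; exact hρr) (by
      show ‖(ρ : ℂ) * Complex.exp (x.2 * Complex.I)‖ < r
      rw [norm_rexp hρ.le]; exact hρr)
    rw [← h.tsum_eq]
    unfold Fs dil ch pz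
    congr 1
    funext m
    push_cast
    simp only [pow_add, div_pow, mul_pow]
    field_simp
  have h2 := coeff_Fs hs n
  simp_rw [← e] at h2
  unfold Tc at h2 ⊢
  rw [h2, ← mul_assoc, inv_mul_cancel₀ pi_ne, one_mul]
  rfl

/-- The power series of a bounded holomorphic function on the bidisk. -/
theorem exists_series (hd : DifferentiableOn ℂ θ bidisk) (hC : ∀ z ∈ bidisk, ‖θ z‖ ≤ C) :
    ∃ t : ℕ × ℕ → ℂ, (∀ n, ‖t n‖ ≤ C) ∧
      ∀ z ∈ bidisk, HasSum (fun n => t n * (z.1 ^ n.1 * z.2 ^ n.2)) (θ z) := by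
  obtain ⟨t, ht⟩ : ∃ t : ℕ × ℕ → ℂ, ∀ n, t n = Tc θ (1 / 2) n * (2 : ℂ) ^ (n.1 + n.2) :=
    ⟨_, fun _ => rfl⟩
  have key : ∀ r : ℝ, 0 < r → r < 1 → ∀ n, Tc θ r n = t n * (r : ℂ) ^ (n.1 + n.2) := by
    intro r hr hr1 n
    rcases lt_trichotomy r (1 / 2) with h | h | h
    · rw [Tc_scale hd hC hr h (by norm_num) n, ht, mul_assoc, ← mul_pow]
      congr 2
      push_cast
      field_simp
    · subst h
      rw [ht, mul_assoc, ← mul_pow]
      have : (2 : ℂ) * ((1 / 2 : ℝ) : ℂ) = 1 := by push_cast; norm_num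
      rw [this, one_pow, mul_one]
    · have hr0 : (r : ℂ) ≠ 0 := by exact_mod_cast hr.ne'
      rw [ht, Tc_scale hd hC (by norm_num) h hr1 n, mul_assoc, mul_assoc, ← mul_pow, ← mul_pow]
      have : (((1 / 2 : ℝ) / r : ℝ) : ℂ) * (2 * (r : ℂ)) = 1 := by
        push_cast
        field_simp
      rw [this, one_pow, mul_one]
  refine ⟨t, fun n => ?_, fun z hz => ?_⟩
  · have h1 : ∀ k, ‖t n‖ * rs (k + 1) ^ (n.1 + n.2) ≤ C := by
      intro k
      have hpos : 0 < rs (k + 1) := by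
        unfold rs
        have : 1 / (((k + 1 : ℕ) : ℝ) + 2) < 1 := by
          rw [div_lt_one (by positivity)]
          push_cast
          have : (0:ℝ) ≤ k := Nat.cast_nonneg k
          linarith
        linarith
      have := Tc_bound hC (rs_nonneg (k + 1)) (rs_lt (k + 1)) n
      rwa [key _ hpos (rs_lt _) n, norm_mul, norm_pow, Complex.norm_of_nonneg (rs_nonneg _)] at this
    have h2 : Tendsto (fun k => ‖t n‖ * rs (k + 1) ^ (n.1 + n.2)) atTop
        (𝓝 (‖t n‖ * 1 ^ (n.1 + n.2))) :=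
      ((((tendsto_add_atTop_iff_nat 1).mpr rs_tendsto').pow _)).const_mul _
    have h3 := le_of_tendsto' h2 h1
    simpa using h3
  · obtain ⟨r, hr1, hr2⟩ := exists_between (max_lt hz.1 hz.2)
    have h1 : ‖z.1‖ < r := (le_max_left _ _).trans_lt hr1
    have h2 : ‖z.2‖ < r := (le_max_right _ _).trans_lt hr1
    have hr : 0 < r := (norm_nonneg _).trans_lt h1
    have hr0 : (r : ℂ) ≠ 0 := by exact_mod_cast hr.ne'
    have h := Tc_hasSum hd hC hr hr2 h1 h2
    convert h using 1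
    funext n
    rw [key r hr hr2 n, pow_add, div_pow, div_pow]
    field_simp

end F7
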