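import Pool.Agent.Q94.F7G

/-!
# Inner functions in one and two variables; factoring an inner function with a rank one
coefficient matrix
-/

open scoped ComplexConjugate Topology InnerProductSpace
open Filter MeasureTheory

noncomputable section

namespace F7

/-- Inner functions on the bidisk: bounded, holomorphic, with unimodular radial limits almost
everywhere on the torus. -/
structure IsInner2 (θ : ℂ × ℂ → ℂ) : Prop where
  holo : DifferentiableOn ℂ θ bidisk
  bdd : ∃ C : ℝ, ∀ z ∈ bidisk, ‖θ z‖ ≤ C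
  radial : ∀ᵐ x : ℝ × ℝ, ∃ ω : ℂ, ‖ω‖ = 1 ∧
    Tendsto (fun r : ℝ => θ (r * Complex.exp (x.1 * Complex.I), r * Complex.exp (x.2 * Complex.I)))
      (𝓝[<] 1) (𝓝 ω)

/-- Inner functions on the disk. -/
structure IsInner1 (φ : ℂ → ℂ) : Prop where
  holo : DifferentiableOn ℂ φ (Metric.ball 0 1)
  bdd : ∃ C : ℝ, ∀ z ∈ Metric.ball (0 : ℂ) 1, ‖φ z‖ ≤ C
  radial : ∀ᵐ s : ℝ, ∃ ω : ℂ, ‖ω‖ = 1 ∧
    Tendsto (fun r : ℝ => φ (r * Complex.exp (s * Complex.I))) (𝓝[<] 1) (𝓝 ω)

/-- An inner function on the bidisk gives the data used for the multiplication operator. -/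
theorem inner_data {θ : ℂ × ℂ → ℂ} (hθ : IsInner2 θ) :
    ∃ (t : ℕ × ℕ → ℂ) (B : ℝ) (h : UniData t B), ∀ z : D2, ev (tv h) z = θ z.1 := by
  obtain ⟨C, hC⟩ := hθ.bdd
  obtain ⟨t, ht, hs⟩ := exists_series hθ.holo hC
  have e : ∀ (r : ℝ) (hr : 0 ≤ r) (hr1 : r < 1) (x : ℝ × ℝ), Fs (dil r t) x = θ (pz r x) := by
    intro r hr hr1 x
    rw [Fs_dil r hr hr1]
    exact (hs _ (pz_mem hr hr1 x)).tsum_eq
  have hd : UniData t C := by
    refine ⟨fun r hr hr1 => summable_dil hr hr1 ht, fun r hr hr1 x => ?_, ?_⟩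
    · rw [e r hr hr1]
      exact hC _ (pz_mem hr hr1 x)
    · have h1 : ∀ᵐ x ∂tor, ∃ ω : ℂ, ‖ω‖ = 1 ∧
          Tendsto (fun r : ℝ => θ (r * Complex.exp (x.1 * Complex.I),
            r * Complex.exp (x.2 * Complex.I))) (𝓝[<] 1) (𝓝 ω) := by
        unfold tor
        rw [Measure.prod_restrict, ← Measure.volume_eq_prod]
        exact ae_restrict_of_ae hθ.radial
      filter_upwards [h1] with x hx
      obtain ⟨ω, hω, hlim⟩ := hx
      have h2 := (hlim.comp rs_tendsto).norm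
      rw [hω] at h2
      refine h2.congr fun k => ?_
      rw [e _ (rs_nonneg k) (rs_lt k)]
      rfl
  refine ⟨t, C, hd, fun z => ?_⟩
  unfold ev
  exact (hs z.1 z.2).tsum_eq

/-- Convergence of one factor along a radius. -/
theorem factor_conv {φ : ℂ → ℂ} (hφ : DifferentiableOn ℂ φ (Metric.ball 0 1)) {C1 C2 : ℝ}
    (hC1 : ∀ z ∈ Metric.ball (0 : ℂ) 1, ‖φ z‖ ≤ C1) {g : ℝ → ℂ}
    (hC2 : ∀ r : ℝ, 0 ≤ r → r < 1 → ‖g r‖ ≤ C2) {w : ℂ} (hw : ‖w‖ < 1) (hφw : φ w ≠ 0)
    (hlim : ∀ᵐ s : ℝ, ∃ ω : ℂ,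
      Tendsto (fun r : ℝ => φ (r * Complex.exp (s * Complex.I)) * g r) (𝓝[<] 1) (𝓝 ω)) :
    ∃ Ψ : ℂ, Tendsto g (𝓝[<] 1) (𝓝 Ψ) := by
  classical
  obtain ⟨ω, hω⟩ : ∃ ω : ℝ → ℂ, ∀ᵐ s : ℝ,
      Tendsto (fun r : ℝ => φ (r * Complex.exp (s * Complex.I)) * g r) (𝓝[<] 1) (𝓝 (ω s)) := by
    refine ⟨fun s => if h : ∃ ω : ℂ,
      Tendsto (fun r : ℝ => φ (r * Complex.exp (s * Complex.I)) * g r) (𝓝[<] 1) (𝓝 ω)
      then h.choose else 0, ?_⟩
    filter_upwards [hlim] with s hs
    rw [dif_pos hs]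
    exact hs.choose_spec
  obtain ⟨r1, hr1⟩ : ∃ r1, r1 = (1 + ‖w‖) / 2 := ⟨_, rfl⟩
  have hr1w : ‖w‖ < r1 := by rw [hr1]; linarith
  have hr11 : r1 < 1 := by rw [hr1]; linarith
  have hr10 : 0 < r1 := (norm_nonneg _).trans_lt hr1w
  have hq : ‖w‖ / r1 < 1 := (div_lt_one hr10).mpr hr1w
  have hC1' : 0 ≤ C1 := (norm_nonneg _).trans (hC1 0 (by simp))
  have hmem : ∀ᶠ r : ℝ in 𝓝[<] 1, r1 < r ∧ r < 1 := by
    have := Ioo_mem_nhdsLT hr11
    filter_upwards [this] with r hr
    exact hr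
  have hball : ∀ r : ℝ, 0 ≤ r → r < 1 → ∀ s : ℝ,
      (r : ℂ) * Complex.exp (s * Complex.I) ∈ Metric.ball (0 : ℂ) 1 := by
    intro r hr hr' s
    rw [mem_ball_zero_iff, norm_rexp hr]
    exact hr'
  have kb : ∀ r : ℝ, r1 < r → ∀ s : ℝ, 1 - ‖w‖ / r1 ≤ ‖1 - w / (r * Complex.exp (s * Complex.I))‖ := by
    intro r hr s
    have h0 : 0 < r := hr10.trans hr
    have h1 : ‖w / (r * Complex.exp (s * Complex.I))‖ ≤ ‖w‖ / r1 := by
      rw [norm_div, norm_rexp h0.le]
      exact div_le_div_of_nonneg_left (norm_nonneg _) hr10 hr.le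
    have h2 := norm_sub_norm_le (1 : ℂ) (w / (r * Complex.exp (s * Complex.I)))
    rw [norm_one] at h2
    linarith
  have key : Tendsto (fun r : ℝ => ∫ s in Set.Ioc 0 (2 * Real.pi),
      (1 - w / (r * Complex.exp (s * Complex.I)))⁻¹ *
        (φ (r * Complex.exp (s * Complex.I)) * g r)) (𝓝[<] 1)
      (𝓝 (∫ s in Set.Ioc 0 (2 * Real.pi), (1 - w / Complex.exp (s * Complex.I))⁻¹ * ω s)) := by
    refine tendsto_integral_filter_of_dominated_convergence
      (fun _ => (1 - ‖w‖ / r1)⁻¹ * (C1 * C2)) ?_ ?_ (integrable_const _) ?_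
    · filter_upwards [hmem] with r hr
      have h0 : 0 < r := hr10.trans hr.1
      apply Continuous.aestronglyMeasurable
      refine Continuous.mul ?_ (Continuous.mul ?_ continuous_const)
      · refine Continuous.inv₀ ?_ fun s => ?_
        · refine continuous_const.sub (continuous_const.div (by fun_prop) fun s => ?_)
          apply mul_ne_zero _ (Complex.exp_ne_zero _)
          exact_mod_cast h0.ne'
        · intro h
          have := kb r hr.1 s
          rw [h, norm_zero] at this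
          linarith
      · exact hφ.continuousOn.comp_continuous (by fun_prop) (hball r h0.le hr.2)
    · filter_upwards [hmem] with r hr
      have h0 : 0 < r := hr10.trans hr.1
      refine Eventually.of_forall fun s => ?_
      rw [norm_mul, norm_mul, norm_inv]
      have hpos : 0 < 1 - ‖w‖ / r1 := by linarith
      refine mul_le_mul (inv_anti₀ hpos (kb r hr.1 s)) ?_ (by positivity) (by positivity)
      exact mul_le_mul (hC1 _ (hball r h0.le hr.2 s)) (hC2 r h0.le hr.2) (norm_nonneg _) hC1'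
    · refine ae_restrict_of_ae ?_
      filter_upwards [hω] with s hs
      refine Tendsto.mul ?_ hs
      have hc : ContinuousAt (fun r : ℝ => (1 - w / (r * Complex.exp (s * Complex.I)))⁻¹) 1 := by
        refine ContinuousAt.inv₀ ?_ ?_
        · refine continuousAt_const.sub (continuousAt_const.div (by fun_prop) ?_)
          rw [Complex.ofReal_one, one_mul]
          exact Complex.exp_ne_zero _
        · intro h
          rw [Complex.ofReal_one, one_mul, sub_eq_zero] at h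
          have h2 := congrArg norm h
          rw [norm_one, norm_div, Complex.norm_exp_ofReal_mul_I, div_one] at h2
          linarith
      have := hc.tendsto
      rw [Complex.ofReal_one, one_mul] at this
      exact this.mono_left nhdsWithin_le_nhds
  have hpi : (2 * Real.pi * φ w : ℂ) ≠ 0 := by
    apply mul_ne_zero _ hφw
    exact_mod_cast (by positivity : (2 * Real.pi : ℝ) ≠ 0)
  refine ⟨(∫ s in Set.Ioc 0 (2 * Real.pi), (1 - w / Complex.exp (s * Complex.I))⁻¹ * ω s) /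
    (2 * Real.pi * φ w), ?_⟩
  refine (key.div_const (2 * Real.pi * φ w)).congr' ?_
  filter_upwards [hmem] with r hr
  have h0 : 0 < r := hr10.trans hr.1
  have e : ∀ s : ℝ, (1 - w / (r * Complex.exp (s * Complex.I)))⁻¹ *
        (φ (r * Complex.exp (s * Complex.I)) * g r) =
        ((1 - w / (r * Complex.exp (s * Complex.I)))⁻¹ *
        φ (r * Complex.exp (s * Complex.I))) * g r := fun s => by ring
  simp_rw [e]
  rw [integral_mul_const, cauchy hφ h0 hr.2 (hr1w.trans hr.1)]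
  field_simp

end F7
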