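import Pool.Agent.Q94.F7H

/-!
# Factoring an inner function whose coefficient matrix has rank one
-/

open scoped ComplexConjugate Topology InnerProductSpace
open Filter MeasureTheory

noncomputable section

namespace F7

theorem tv_ne {t : ℕ × ℕ → ℂ} {B : ℝ} (h : UniData t B) : tv h ≠ 0 := by
  intro h0
  have h1 := (orth_tv h).1 0
  rw [V_norm, h0, norm_zero] at h1
  exact zero_ne_one h1

theorem product_form {θ : ℂ × ℂ → ℂ} {t : ℕ × ℕ → ℂ} {B : ℝ} (h : UniData t B)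
    (hev : ∀ z : D2, ev (tv h) z = θ z.1) {c q : ℕ → ℂ} (hcq : ∀ m n, t (m, n) = c m * q n) :
    ∃ A D : ℂ → ℂ, ∀ z ∈ bidisk, θ z = A z.1 * D z.2 := by
  have hex : ∃ n, t n ≠ 0 := by
    by_contra hcon
    push Not at hcon
    apply tv_ne h
    apply lp.ext
    funext n
    exact hcon n
  obtain ⟨⟨m0, n0⟩, h0⟩ := hex
  refine ⟨fun z => ∑' m, t (m, n0) * z ^ m, fun z => ∑' n, (t (m0, n) / t (m0, n0)) * z ^ n,
    fun z hz => ?_⟩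
  have h1 := hev ⟨z, hz⟩
  rw [← h1]
  unfold ev
  have tb : ∀ n, ‖t n‖ ≤ ‖tv h‖ := coeff_bound (tv h)
  rw [tsum_mul_tsum_of_summable_norm]
  · congr 1
    funext n
    rw [tv_apply]
    have e : t n = t (n.1, n0) * (t (m0, n.2) / t (m0, n0)) := by
      rw [hcq] at h0
      have e0 : t n = c n.1 * q n.2 := hcq n.1 n.2
      rw [e0, hcq n.1 n0, hcq m0 n.2, hcq m0 n0]
      have hc : c m0 ≠ 0 := left_ne_zero_of_mul h0
      have hq : q n0 ≠ 0 := right_ne_zero_of_mul h0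
      field_simp
    rw [e]
    ring
  · refine Summable.of_nonneg_of_le (fun _ => norm_nonneg _) (fun m => ?_)
      ((summable_geometric_of_lt_one (norm_nonneg z.1) hz.1).mul_left ‖tv h‖)
    rw [norm_mul, norm_pow]
    exact mul_le_mul_of_nonneg_right (tb _) (by positivity)
  · refine Summable.of_nonneg_of_le (fun _ => norm_nonneg _) (fun m => ?_)
      ((summable_geometric_of_lt_one (norm_nonneg z.2) hz.2).mul_left (‖tv h‖ / ‖t (m0, n0)‖))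
    rw [norm_mul, norm_pow, norm_div]
    refine mul_le_mul_of_nonneg_right ?_ (by positivity)
    exact div_le_div_of_nonneg_right (tb _) (norm_nonneg _)

theorem factor_inner {θ : ℂ × ℂ → ℂ} (hθ : IsInner2 θ) {t : ℕ × ℕ → ℂ} {B : ℝ} (h : UniData t B)
    (hev : ∀ z : D2, ev (tv h) z = θ z.1) {c q : ℕ → ℂ} (hcq : ∀ m n, t (m, n) = c m * q n) :
    ∃ φ ψ : ℂ → ℂ, IsInner1 φ ∧ IsInner1 ψ ∧ ∀ z ∈ bidisk, θ z = φ z.1 * ψ z.2 := by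
  obtain ⟨A, D, hAD⟩ := product_form h hev hcq
  have hex : ∃ w : ℂ × ℂ, w ∈ bidisk ∧ θ w ≠ 0 := by
    by_contra hcon
    push Not at hcon
    apply tv_ne h
    apply ev_injective
    intro z
    rw [hev]
    exact hcon _ z.2
  obtain ⟨w, hw, hw0⟩ := hex
  obtain ⟨C, hC⟩ := hθ.bdd
  obtain ⟨φ, hφ⟩ : ∃ φ : ℂ → ℂ, ∀ z, φ z = θ (z, w.2) := ⟨_, fun _ => rfl⟩
  obtain ⟨ψ, hψ⟩ : ∃ ψ : ℂ → ℂ, ∀ z, ψ z = θ (w.1, z) / θ w := ⟨_, fun _ => rfl⟩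
  have m1 : ∀ z ∈ Metric.ball (0 : ℂ) 1, (z, w.2) ∈ bidisk := fun z hz =>
    ⟨by simpa using hz, hw.2⟩
  have m2 : ∀ z ∈ Metric.ball (0 : ℂ) 1, (w.1, z) ∈ bidisk := fun z hz =>
    ⟨hw.1, by simpa using hz⟩
  have hprod : ∀ z ∈ bidisk, θ z = φ z.1 * ψ z.2 := by
    intro z hz
    have hz1 : (z.1, w.2) ∈ bidisk := ⟨hz.1, hw.2⟩
    have hz2 : (w.1, z.2) ∈ bidisk := ⟨hw.1, hz.2⟩
    have hw0' := hw0
    rw [hAD w hw] at hw0'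
    have hA : A w.1 ≠ 0 := left_ne_zero_of_mul hw0'
    have hD : D w.2 ≠ 0 := right_ne_zero_of_mul hw0'
    rw [hφ, hψ, hAD z hz, hAD _ hz1, hAD _ hz2, hAD w hw]
    field_simp
  have dφ : DifferentiableOn ℂ φ (Metric.ball 0 1) := by
    rw [show φ = fun z => θ (z, w.2) from funext hφ]
    exact hθ.holo.comp (by fun_prop) m1
  have dψ : DifferentiableOn ℂ ψ (Metric.ball 0 1) := by
    rw [show ψ = fun z => θ (w.1, z) / θ w from funext hψ]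
    have : DifferentiableOn ℂ (fun z => θ (w.1, z)) (Metric.ball 0 1) :=
      hθ.holo.comp (by fun_prop) m2
    exact this.div_const _
  have bφ : ∀ z ∈ Metric.ball (0 : ℂ) 1, ‖φ z‖ ≤ C := fun z hz => by
    rw [hφ]; exact hC _ (m1 z hz)
  have bψ : ∀ z ∈ Metric.ball (0 : ℂ) 1, ‖ψ z‖ ≤ C / ‖θ w‖ := fun z hz => by
    rw [hψ, norm_div]
    exact div_le_div_of_nonneg_right (hC _ (m2 z hz)) (norm_nonneg _)
  have hφw : φ w.1 ≠ 0 := by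
    rw [hφ]; exact hw0
  have hψw : ψ w.2 ≠ 0 := by
    rw [hψ]
    exact (div_self hw0).symm ▸ one_ne_zero
  have hball : ∀ r : ℝ, 0 ≤ r → r < 1 → ∀ s : ℝ,
      (r : ℂ) * Complex.exp (s * Complex.I) ∈ Metric.ball (0 : ℂ) 1 := by
    intro r hr hr' s
    rw [mem_ball_zero_iff, norm_rexp hr]
    exact hr'
  have hev1 : ∀ᶠ r : ℝ in 𝓝[<] 1, 0 ≤ r ∧ r < 1 := by
    filter_upwards [Ico_mem_nhdsLT (zero_lt_one (α := ℝ))] with r hr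
    exact hr
  -- the property of good points
  obtain ⟨P, hP⟩ : ∃ P : ℝ → ℝ → Prop, ∀ s t, P s t ↔ ∃ ω : ℂ, ‖ω‖ = 1 ∧
    Tendsto (fun r : ℝ => φ (r * Complex.exp (s * Complex.I)) * ψ (r * Complex.exp (t * Complex.I)))
      (𝓝[<] 1) (𝓝 ω) := ⟨_, fun _ _ => Iff.rfl⟩
  have hPae : ∀ᵐ x : ℝ × ℝ, P x.1 x.2 := by
    filter_upwards [hθ.radial] with x hx
    rw [hP]
    obtain ⟨ω, h1, h2⟩ := hx
    refine ⟨ω, h1, h2.congr' ?_⟩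
    filter_upwards [hev1] with r hr
    exact hprod _ (pz_mem hr.1 hr.2 x)
  have hP1 : ∀ᵐ s : ℝ, ∀ᵐ t : ℝ, P s t := by
    rw [Measure.volume_eq_prod] at hPae
    exact Measure.ae_ae_of_ae_prod hPae
  have hP2 : ∀ᵐ t : ℝ, ∀ᵐ s : ℝ, P s t := by
    rw [Measure.volume_eq_prod] at hPae
    have h3 : ∀ᵐ x : ℝ × ℝ ∂((volume : Measure ℝ).prod volume), P x.2 x.1 := by
      have := Measure.measurePreserving_swap (μ := (volume : Measure ℝ)) (ν := (volume : Measure ℝ))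
      exact this.quasiMeasurePreserving.ae hPae
    exact Measure.ae_ae_of_ae_prod h3
  have limψ : ∀ᵐ t : ℝ, ∃ Ψ : ℂ,
      Tendsto (fun r : ℝ => ψ (r * Complex.exp (t * Complex.I))) (𝓝[<] 1) (𝓝 Ψ) := by
    filter_upwards [hP2] with t ht
    refine factor_conv dφ bφ (fun r hr hr1 => bψ _ (hball r hr hr1 t)) hw.1 hφw ?_
    filter_upwards [ht] with s hs
    obtain ⟨ω, h1, h2⟩ := (hP s t).mp hs
    exact ⟨ω, h2⟩
  have limφ : ∀ᵐ s : ℝ, ∃ Φ : ℂ,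
      Tendsto (fun r : ℝ => φ (r * Complex.exp (s * Complex.I))) (𝓝[<] 1) (𝓝 Φ) := by
    filter_upwards [hP1] with s hs
    refine factor_conv dψ bψ (fun r hr hr1 => bφ _ (hball r hr hr1 s)) hw.2 hψw ?_
    filter_upwards [hs] with t ht
    obtain ⟨ω, h1, h2⟩ := (hP s t).mp ht
    exact ⟨ω, h2.congr fun r => mul_comm _ _⟩
  obtain ⟨t0, ht0, Ψ0, hΨ0⟩ := (hP2.and limψ).exists
  have hΦ : ∀ᵐ s : ℝ, ∃ Φ : ℂ, ‖Φ‖ * ‖Ψ0‖ = 1 ∧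
      Tendsto (fun r : ℝ => φ (r * Complex.exp (s * Complex.I))) (𝓝[<] 1) (𝓝 Φ) := by
    filter_upwards [ht0, limφ] with s hs hl
    obtain ⟨Φ, hΦ⟩ := hl
    obtain ⟨ω, h1, h2⟩ := (hP s t0).mp hs
    refine ⟨Φ, ?_, hΦ⟩
    have h3 := tendsto_nhds_unique (hΦ.mul hΨ0) h2
    rw [← norm_mul, h3, h1]
  obtain ⟨s0, hs0, Φ0, hΦ0n, hΦ0⟩ := (hP1.and hΦ).exists
  have hγ : ‖Ψ0‖ ≠ 0 := right_ne_zero_of_mul (hΦ0n ▸ one_ne_zero)
  have hΨ : ∀ᵐ t : ℝ, ∃ Ψ : ℂ, ‖Ψ‖ = ‖Ψ0‖ ∧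
      Tendsto (fun r : ℝ => ψ (r * Complex.exp (t * Complex.I))) (𝓝[<] 1) (𝓝 Ψ) := by
    filter_upwards [hs0, limψ] with t ht hl
    obtain ⟨Ψ, hΨ⟩ := hl
    obtain ⟨ω, h1, h2⟩ := (hP s0 t).mp ht
    refine ⟨Ψ, ?_, hΨ⟩
    have h3 := tendsto_nhds_unique (hΦ0.mul hΨ) h2
    have h4 : ‖Φ0‖ * ‖Ψ‖ = 1 := by rw [← norm_mul, h3, h1]
    have h5 : ‖Φ0‖ ≠ 0 := left_ne_zero_of_mul (hΦ0n ▸ one_ne_zero)
    exact mul_left_cancel₀ h5 (h4.trans hΦ0n.symm)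
  have hγc : (‖Ψ0‖ : ℂ) ≠ 0 := by exact_mod_cast hγ
  refine ⟨fun z => (‖Ψ0‖ : ℂ) * φ z, fun z => (‖Ψ0‖ : ℂ)⁻¹ * ψ z, ⟨dφ.const_mul _, ?_, ?_⟩,
    ⟨dψ.const_mul _, ?_, ?_⟩, ?_⟩
  · refine ⟨‖Ψ0‖ * C, fun z hz => ?_⟩
    rw [norm_mul, Complex.norm_real, norm_norm]
    exact mul_le_mul_of_nonneg_left (bφ z hz) (norm_nonneg _)
  · filter_upwards [hΦ] with s hs
    obtain ⟨Φ, h1, h2⟩ := hs
    refine ⟨(‖Ψ0‖ : ℂ) * Φ, ?_, h2.const_mul _⟩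
    rw [norm_mul, Complex.norm_real, norm_norm, mul_comm, h1]
  · refine ⟨‖Ψ0‖⁻¹ * (C / ‖θ w‖), fun z hz => ?_⟩
    rw [norm_mul, norm_inv, Complex.norm_real, norm_norm]
    exact mul_le_mul_of_nonneg_left (bψ z hz) (by positivity)
  · filter_upwards [hΨ] with s hs
    obtain ⟨Ψ, h1, h2⟩ := hs
    refine ⟨(‖Ψ0‖ : ℂ)⁻¹ * Ψ, ?_, h2.const_mul _⟩
    rw [norm_mul, norm_inv, Complex.norm_real, norm_norm, h1, inv_mul_cancel₀ hγ]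
  · intro z hz
    rw [hprod z hz]
    field_simp

end F7
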