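import Pool.Agent.Q94.F7I

/-!
# Reproducing kernel Hilbert spaces on the bidisk and domination of kernels
-/

open scoped ComplexConjugate Topology InnerProductSpace ComplexOrder
open Filter MeasureTheory

noncomputable section

namespace F7

/-- `f` belongs to the reproducing kernel Hilbert space of functions on the bidisk with
reproducing kernel `k`. -/
def InRKHS (k : D2 → D2 → ℂ) (f : D2 → ℂ) : Prop :=
  ∃ (E : Type) (_ : NormedAddCommGroup E) (_ : InnerProductSpace ℂ E) (_ : CompleteSpace E)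
    (_ : RKHS ℂ E D2 ℂ), (∀ z w, RKHS.kernel E z w 1 = k z w) ∧ ∃ x : E, ∀ z, x z = f z

/-- The quadratic form of a kernel. -/
def Qf (k : D2 → D2 → ℂ) (c : D2 →₀ ℂ) : ℂ :=
  c.sum fun z a => c.sum fun w b => star a * k z w * b

/-- The pairing of a finite combination with a function. -/
def pair (c : D2 →₀ ℂ) (f : D2 → ℂ) : ℂ := c.sum fun z a => star a * f z

/-- The kernel `k` dominates the function `f`. -/
def Dom (k : D2 → D2 → ℂ) (f : D2 → ℂ) : Prop :=
  ∃ C : ℝ, 0 ≤ C ∧ ∀ c : D2 →₀ ℂ, ‖pair c f‖ ^ 2 ≤ C ^ 2 * (Qf k c).re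

section feature

variable {E : Type*} [NormedAddCommGroup E] [InnerProductSpace ℂ E]

/-- The finite combination of feature vectors. -/
def lc (u : D2 → E) (c : D2 →₀ ℂ) : E := Finsupp.linearCombination ℂ u c

theorem lc_inner (u : D2 → E) (c : D2 →₀ ℂ) (x : E) :
    ⟪lc u c, x⟫_ℂ = pair c (fun z => ⟪u z, x⟫_ℂ) := by
  unfold lc pair
  rw [Finsupp.linearCombination_apply, Finsupp.sum_inner]
  congr 1
  funext z a
  rw [inner_smul_left]
  rfl

theorem Qf_inner {k : D2 → D2 → ℂ} {u : D2 → E} (hk : ∀ z w, k z w = ⟪u z, u w⟫_ℂ)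
    (c : D2 →₀ ℂ) : Qf k c = ⟪lc u c, lc u c⟫_ℂ := by
  rw [lc_inner]
  unfold Qf pair lc
  congr 1
  funext z a
  show _ = star a * ⟪u z, Finsupp.linearCombination ℂ u c⟫_ℂ
  rw [Finsupp.linearCombination_apply, Finsupp.inner_sum, Finsupp.mul_sum]
  congr 1
  funext w b
  rw [hk, inner_smul_right]
  ring

theorem Qf_norm {k : D2 → D2 → ℂ} {u : D2 → E} (hk : ∀ z w, k z w = ⟪u z, u w⟫_ℂ)
    (c : D2 →₀ ℂ) : (Qf k c).re = ‖lc u c‖ ^ 2 := by
  rw [Qf_inner hk, inner_self_eq_norm_sq_to_K]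
  norm_cast

theorem psd_inner {k : D2 → D2 → ℂ} {u : D2 → E} (hk : ∀ z w, k z w = ⟪u z, u w⟫_ℂ) :
    (Matrix.of k).PosSemidef := by
  refine ⟨?_, fun c => ?_⟩
  · ext z w
    rw [Matrix.conjTranspose_apply, Matrix.of_apply, Matrix.of_apply, hk, hk]
    exact inner_conj_symm _ _
  · show 0 ≤ Qf k c
    rw [Qf_inner hk, inner_self_eq_norm_sq_to_K]
    simp

theorem dom_inner {k : D2 → D2 → ℂ} {u : D2 → E} (hk : ∀ z w, k z w = ⟪u z, u w⟫_ℂ)
    {f : D2 → ℂ} (x : E) (hf : ∀ z, f z = ⟪u z, x⟫_ℂ) : Dom k f := by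
  refine ⟨‖x‖, norm_nonneg _, fun c => ?_⟩
  rw [Qf_norm hk, show f = fun z => ⟪u z, x⟫_ℂ from funext hf, ← lc_inner]
  have := norm_inner_le_norm (𝕜 := ℂ) (lc u c) x
  calc ‖⟪lc u c, x⟫_ℂ‖ ^ 2 ≤ (‖lc u c‖ * ‖x‖) ^ 2 := pow_le_pow_left₀ (norm_nonneg _) this 2
    _ = _ := by ring

/-- Riesz representation of a dominated function. -/
theorem riesz [CompleteSpace E] {k : D2 → D2 → ℂ} {u : D2 → E}
    (hk : ∀ z w, k z w = ⟪u z, u w⟫_ℂ)
    (hd : (Submodule.span ℂ (Set.range u)).topologicalClosure = ⊤)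
    {f : D2 → ℂ} (hf : Dom k f) : ∃ x : E, ∀ z, ⟪u z, x⟫_ℂ = f z := by
  obtain ⟨C, hC, hdom⟩ := hf
  obtain ⟨e, he⟩ : ∃ e : (D2 →₀ ℂ) →ₗ[ℂ] E, e = Finsupp.linearCombination ℂ u := ⟨_, rfl⟩
  obtain ⟨g, hg⟩ : ∃ g : (D2 →₀ ℂ) →ₗ[ℂ] ℂ, g = Finsupp.linearCombination ℂ (fun z => conj (f z)) :=
    ⟨_, rfl⟩
  have hb : ∀ c, ‖g c‖ ≤ C * ‖e c‖ := by
    intro c
    have h1 : g c = conj (pair c f) := by
      rw [hg, Finsupp.linearCombination_apply]
      unfold pair Finsupp.sum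
      rw [map_sum]
      refine Finset.sum_congr rfl fun z _ => ?_
      simp
    have h2 : ‖e c‖ ^ 2 = (Qf k c).re := by
      rw [Qf_norm hk, he]
      rfl
    have h3 := hdom c
    rw [← h2] at h3
    rw [h1, RCLike.norm_conj]
    have h4 : ‖pair c f‖ ^ 2 ≤ (C * ‖e c‖) ^ 2 := by rw [mul_pow]; exact h3
    exact (pow_le_pow_iff_left₀ (norm_nonneg _) (by positivity) two_ne_zero).mp h4
  have hdr : DenseRange e := by
    have h1 : Set.range e = (Submodule.span ℂ (Set.range u) : Set E) := by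
      rw [← Finsupp.range_linearCombination, ← he]
      rfl
    unfold DenseRange
    rw [h1, dense_iff_closure_eq, ← Submodule.topologicalClosure_coe, hd]
    rfl
  obtain ⟨x, hx⟩ : ∃ x, x = (InnerProductSpace.toDual ℂ E).symm (g.extendOfNorm e) := ⟨_, rfl⟩
  refine ⟨x, fun z => ?_⟩
  have h1 : ⟪x, u z⟫_ℂ = conj (f z) := by
    rw [hx, InnerProductSpace.toDual_symm_apply]
    have h2 : u z = e (Finsupp.single z 1) := by
      rw [he, Finsupp.linearCombination_single, one_smul]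
    rw [h2, LinearMap.extendOfNorm_eq hdr ⟨C, hb⟩, hg, Finsupp.linearCombination_single, one_smul]
  rw [← inner_conj_symm, h1, Complex.conj_conj]

end feature

theorem rkhs_feature {E : Type} [NormedAddCommGroup E] [InnerProductSpace ℂ E] [CompleteSpace E]
    [RKHS ℂ E D2 ℂ] {k : D2 → D2 → ℂ} (hk : ∀ z w, RKHS.kernel E z w 1 = k z w) :
    (∀ z w, k z w = ⟪RKHS.kerFun E z 1, RKHS.kerFun E w 1⟫_ℂ) ∧
    ∀ (x : E) (z : D2), x z = ⟪RKHS.kerFun E z 1, x⟫_ℂ := by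
  have h2 : ∀ (x : E) (z : D2), x z = ⟪RKHS.kerFun E z 1, x⟫_ℂ := by
    intro x z
    rw [RKHS.kerFun_inner]
    simp
  refine ⟨fun z w => ?_, h2⟩
  rw [← h2, RKHS.kerFun_apply, hk]

theorem InRKHS.dom {k : D2 → D2 → ℂ} {f : D2 → ℂ} (h : InRKHS k f) : Dom k f := by
  obtain ⟨E, _, _, _, _, hk, x, hx⟩ := h
  obtain ⟨h1, h2⟩ := rkhs_feature hk
  exact dom_inner h1 x fun z => by rw [← hx, h2]

/-- The operator valued kernel. -/
def opK (k : D2 → D2 → ℂ) : Matrix D2 D2 (ℂ →L[ℂ] ℂ) :=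
  Matrix.of fun z w => k z w • (1 : ℂ →L[ℂ] ℂ)

theorem opK_psd {k : D2 → D2 → ℂ} (hk : (Matrix.of k).PosSemidef) : (opK k).PosSemidef := by
  have key := (RKHS.posSemidef_tfae (K := opK k)).out 0 2
  refine key.mpr ⟨?_, fun c => ?_⟩
  · ext z w
    rw [Matrix.conjTranspose_apply]
    unfold opK
    rw [Matrix.of_apply, Matrix.of_apply]
    have := congrFun (congrFun hk.1 z) w
    rw [Matrix.conjTranspose_apply, Matrix.of_apply, Matrix.of_apply] at this
    rw [← this]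
    simp
  · have h1 := hk.2 c
    have h2 : (c.sum fun x w => c.sum fun x' w' => ⟪opK k x' x w, w'⟫_ℂ) = conj (Qf k c) := by
      unfold Qf Finsupp.sum
      rw [map_sum, Finset.sum_comm]
      refine Finset.sum_congr rfl fun z _ => ?_
      rw [map_sum]
      refine Finset.sum_congr rfl fun w _ => ?_
      unfold opK
      simp [RCLike.inner_apply]
      ring
    rw [h2]
    have h3 : 0 ≤ Qf k c := h1
    have h4 := (Complex.le_def.mp h3).1
    simpa using h4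

theorem Dom.mem {k : D2 → D2 → ℂ} {f : D2 → ℂ} (hk : (Matrix.of k).PosSemidef) (h : Dom k f) :
    InRKHS k f := by
  have : Fact (opK k).PosSemidef := ⟨opK_psd hk⟩
  have hker : ∀ z w, RKHS.kernel (RKHS.OfKernel (opK k)) z w 1 = k z w := by
    intro z w
    rw [RKHS.OfKernel.kernel_ofKernel]
    unfold opK
    simp
  obtain ⟨h1, h2⟩ := rkhs_feature hker
  have hd : (Submodule.span ℂ (Set.range fun z => RKHS.kerFun (RKHS.OfKernel (opK k)) z
      (1 : ℂ))).topologicalClosure = ⊤ := by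
    rw [eq_top_iff, ← RKHS.kerFun_dense (𝕜 := ℂ) (X := D2) (V := ℂ) (RKHS.OfKernel (opK k))]
    apply Submodule.topologicalClosure_mono
    rw [Submodule.span_le]
    rintro _ ⟨z, v, rfl⟩
    have : RKHS.kerFun (RKHS.OfKernel (opK k)) z v =
        v • RKHS.kerFun (RKHS.OfKernel (opK k)) z (1 : ℂ) := by
      rw [← map_smul, smul_eq_mul, mul_one]
    rw [this]
    exact Submodule.smul_mem _ _ (Submodule.subset_span ⟨z, rfl⟩)
  obtain ⟨x, hx⟩ := riesz h1 hd h
  exact ⟨RKHS.OfKernel (opK k), inferInstance, inferInstance, inferInstance, inferInstance,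
    hker, x, fun z => by rw [h2, hx]⟩

end F7
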