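import Pool.Agent.Q94.F7J

/-!
# Agler kernels
-/

open scoped ComplexConjugate Topology InnerProductSpace ComplexOrder
open Filter MeasureTheory

noncomputable section

namespace F7

/-- Multiplying a finitely supported family by a function. -/
def mulf (g : D2 → ℂ) (c : D2 →₀ ℂ) : D2 →₀ ℂ :=
  Finsupp.onFinset c.support (fun z => g z * c z) (fun z hz => by
    rw [Finsupp.mem_support_iff]
    exact right_ne_zero_of_mul hz)

theorem pair_mulf (g : D2 → ℂ) (c : D2 →₀ ℂ) (f : D2 → ℂ) :
    pair (mulf g c) f = pair c (fun z => conj (g z) * f z) := by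
  unfold pair
  rw [Finsupp.sum_of_support_subset (mulf g c) (s := c.support) Finsupp.support_onFinset_subset _
    (fun z _ => by simp)]
  unfold Finsupp.sum mulf
  refine Finset.sum_congr rfl fun z _ => ?_
  rw [Finsupp.onFinset_apply]
  simp only [star_mul, Complex.star_def]
  ring

theorem Qf_mulf (g : D2 → ℂ) (c : D2 →₀ ℂ) (k : D2 → D2 → ℂ) :
    Qf k (mulf g c) = Qf (fun z w => conj (g z) * g w * k z w) c := by
  unfold Qf
  rw [Finsupp.sum_of_support_subset (mulf g c) (s := c.support) Finsupp.support_onFinset_subset _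
    (fun z _ => by simp)]
  conv_rhs => unfold Finsupp.sum
  refine Finset.sum_congr rfl fun z _ => ?_
  rw [Finsupp.sum_of_support_subset (mulf g c) (s := c.support) Finsupp.support_onFinset_subset _
    (fun z _ => by simp)]
  refine Finset.sum_congr rfl fun w _ => ?_
  unfold mulf
  rw [Finsupp.onFinset_apply, Finsupp.onFinset_apply]
  simp only [star_mul, Complex.star_def]
  ring

theorem Qf_add (k l : D2 → D2 → ℂ) (c : D2 →₀ ℂ) :
    Qf (fun z w => k z w + l z w) c = Qf k c + Qf l c := by
  unfold Qf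
  rw [← Finsupp.sum_add]
  congr 1
  funext z a
  rw [← Finsupp.sum_add]
  congr 1
  funext w b
  ring

theorem psd_re {k : D2 → D2 → ℂ} (hk : (Matrix.of k).PosSemidef) (c : D2 →₀ ℂ) :
    0 ≤ (Qf k c).re := by
  have h : 0 ≤ Qf k c := hk.2 c
  exact (Complex.le_def.mp h).1

/-- Domination passes to larger kernels. -/
theorem Dom.mono {k l : D2 → D2 → ℂ} {f : D2 → ℂ} (h : Dom k f)
    (hkl : ∀ c, (Qf k c).re ≤ (Qf l c).re) : Dom l f := by
  obtain ⟨C, hC, hd⟩ := h
  exact ⟨C, hC, fun c => (hd c).trans (mul_le_mul_of_nonneg_left (hkl c) (sq_nonneg C))⟩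

theorem pair_add (c : D2 →₀ ℂ) (f g : D2 → ℂ) :
    pair c (fun z => f z + g z) = pair c f + pair c g := by
  unfold pair
  rw [← Finsupp.sum_add]
  congr 1
  funext z a
  ring

theorem pair_smul (c : D2 →₀ ℂ) (f : D2 → ℂ) (a : ℂ) :
    pair c (fun z => a * f z) = a * pair c f := by
  unfold pair
  rw [Finsupp.mul_sum]
  congr 1
  funext z b
  ring

/-- The functions of the Hardy space dominated by a kernel. -/
def Sub (k : D2 → D2 → ℂ) (hk : (Matrix.of k).PosSemidef) : Submodule ℂ H2 where
  carrier := {f | Dom k (ev f)}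
  zero_mem' := by
    refine ⟨0, le_rfl, fun c => ?_⟩
    have : ev (0 : H2) = fun _ => 0 := by
      funext z
      rw [ev_eq, inner_zero_right]
    rw [this]
    unfold pair
    simp
  add_mem' := by
    rintro f g ⟨C, hC, hf⟩ ⟨D, hD, hg⟩
    refine ⟨C + D, by positivity, fun c => ?_⟩
    have e : ev (f + g) = fun z => ev f z + ev g z := by
      funext z
      rw [ev_add]
    rw [e, pair_add]
    obtain ⟨q, hq0, hq⟩ : ∃ q : ℝ, 0 ≤ q ∧ q ^ 2 = (Qf k c).re :=
      ⟨Real.sqrt (Qf k c).re, Real.sqrt_nonneg _, Real.sq_sqrt (psd_re hk c)⟩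
    have h1 := hf c
    have h2 := hg c
    rw [← hq, ← mul_pow] at h1 h2 ⊢
    have h3 := (pow_le_pow_iff_left₀ (norm_nonneg _) (by positivity) two_ne_zero).mp h1
    have h4 := (pow_le_pow_iff_left₀ (norm_nonneg _) (by positivity) two_ne_zero).mp h2
    refine pow_le_pow_left₀ (norm_nonneg _) ?_ 2
    refine (norm_add_le _ _).trans ?_
    rw [add_mul]
    exact add_le_add h3 h4
  smul_mem' := by
    rintro a f ⟨C, hC, hf⟩
    refine ⟨‖a‖ * C, by positivity, fun c => ?_⟩
    have e : ev (a • f) = fun z => a * ev f z := by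
      funext z
      rw [ev_smul]
    rw [e, pair_smul, norm_mul, mul_pow, mul_pow, mul_assoc]
    exact mul_le_mul_of_nonneg_left (hf c) (sq_nonneg _)

/-- The coordinates. -/
def co (j : Fin 2) (z : D2) : ℂ := if j = 0 then z.1.1 else z.1.2

theorem co_norm (j : Fin 2) (z : D2) : ‖co j z‖ < 1 := by
  unfold co
  split_ifs
  · exact z.2.1
  · exact z.2.2

theorem co_ne (j : Fin 2) (z w : D2) : 1 - co j z * conj (co j w) ≠ 0 := by
  intro h
  rw [sub_eq_zero] at h
  have h1 := congrArg norm h
  rw [norm_one, norm_mul, RCLike.norm_conj] at h1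
  have := mul_lt_one_of_nonneg_of_lt_one_left (norm_nonneg _) (co_norm j z) (co_norm j w).le
  linarith

/-- The kernel `K(z,w) / (1 - z_j conj w_j)`. -/
def divK (j : Fin 2) (K : D2 → D2 → ℂ) (z w : D2) : ℂ := K z w / (1 - co j z * conj (co j w))

theorem divK_psd (j : Fin 2) {K : D2 → D2 → ℂ} (hK : (Matrix.of K).PosSemidef) :
    (Matrix.of (divK j K)).PosSemidef := by
  refine ⟨?_, fun c => ?_⟩
  · ext z w
    have := congrFun (congrFun hK.1 z) w
    rw [Matrix.conjTranspose_apply, Matrix.of_apply, Matrix.of_apply] at this ⊢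
    unfold divK
    rw [← this, star_div₀]
    simp [mul_comm]
  · show 0 ≤ Qf (divK j K) c
    have h1 : HasSum (fun n : ℕ => Qf K (mulf (fun z => conj (co j z) ^ n) c)) (Qf (divK j K) c) := by
      have e : ∀ n : ℕ, Qf K (mulf (fun z => conj (co j z) ^ n) c) =
          ∑ z ∈ c.support, ∑ w ∈ c.support, star (c z) * ((co j z * conj (co j w)) ^ n * K z w) * c w := by
        intro n
        rw [Qf_mulf]
        unfold Qf Finsupp.sum
        refine Finset.sum_congr rfl fun z _ => Finset.sum_congr rfl fun w _ => ?_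
        show star (c z) * (conj (conj (co j z) ^ n) * conj (co j w) ^ n * K z w) * c w = _
        rw [map_pow, Complex.conj_conj, mul_pow]
      simp_rw [e]
      unfold Qf Finsupp.sum
      refine hasSum_sum fun z _ => hasSum_sum fun w _ => ?_
      have hn : ‖co j z * conj (co j w)‖ < 1 := by
        rw [norm_mul, RCLike.norm_conj]
        exact mul_lt_one_of_nonneg_of_lt_one_left (norm_nonneg _) (co_norm j z) (co_norm j w).le
      have h2 := (hasSum_geometric_of_norm_lt_one hn).mul_right (K z w)
      have h3 := (h2.mul_left (star (c z))).mul_right (c w)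
      have e4 : divK j K z w = (1 - co j z * conj (co j w))⁻¹ * K z w := by
        unfold divK
        rw [div_eq_inv_mul]
      show HasSum _ (star (c z) * divK j K z w * c w)
      rw [e4]
      exact h3
    exact h1.nonneg fun n => hK.2 _

/-- Multiplication by the coordinate preserves domination by `divK`. -/
theorem divK_shift (j : Fin 2) {K : D2 → D2 → ℂ} (hK : (Matrix.of K).PosSemidef) {f : D2 → ℂ}
    (hf : Dom (divK j K) f) : Dom (divK j K) (fun z => co j z * f z) := by
  obtain ⟨C, hC, hd⟩ := hf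
  refine ⟨C, hC, fun c => ?_⟩
  have h1 := hd (mulf (fun z => conj (co j z)) c)
  rw [pair_mulf] at h1
  simp only [Complex.conj_conj] at h1
  refine h1.trans (mul_le_mul_of_nonneg_left ?_ (sq_nonneg C))
  have h2 : Qf (divK j K) c = Qf (divK j K) (mulf (fun z => conj (co j z)) c) + Qf K c := by
    rw [Qf_mulf, ← Qf_add]
    congr 1
    funext z w
    unfold divK
    have := co_ne j z w
    rw [Complex.conj_conj]
    field_simp
    ring
  rw [h2, Complex.add_re]
  have := psd_re hK c
  linarith

/-- A positive kernel dominates its own sections. -/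
theorem dom_section {k : D2 → D2 → ℂ} (hk : (Matrix.of k).PosSemidef) (w : D2) :
    Dom k (fun z => k z w) := by
  have : Fact (opK k).PosSemidef := ⟨opK_psd hk⟩
  have hker : ∀ z w, RKHS.kernel (RKHS.OfKernel (opK k)) z w 1 = k z w := by
    intro z w
    rw [RKHS.OfKernel.kernel_ofKernel]
    unfold opK
    simp
  obtain ⟨h1, h2⟩ := rkhs_feature hker
  exact dom_inner h1 (RKHS.kerFun (RKHS.OfKernel (opK k)) w (1 : ℂ)) fun z => h1 z w

/-! ### The model space kernel -/

theorem kv_dense : (Submodule.span ℂ (Set.range kv)).topologicalClosure = ⊤ := by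
  rw [Submodule.topologicalClosure_eq_top_iff, Submodule.eq_bot_iff]
  intro f hf
  apply ev_injective
  intro z
  rw [ev_eq]
  have hz : kv z ∈ Submodule.span ℂ (Set.range kv) := Submodule.subset_span ⟨z, rfl⟩
  exact Submodule.inner_right_of_mem_orthogonal hz hf

variable {t : ℕ × ℕ → ℂ} {B : ℝ}

theorem Mul_adj_kv (h : UniData t B) (w : D2) :
    (Mul h).toContinuousLinearMap.adjoint (kv w) = conj (ev (tv h) w) • kv w := by
  apply ext_inner_left ℂ
  intro g
  rw [ContinuousLinearMap.adjoint_inner_right, inner_smul_right]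
  have h1 := ev_Mul h g w
  rw [ev_eq, ev_eq g] at h1
  have h2 := congrArg conj h1
  rw [map_mul, inner_conj_symm, inner_conj_symm] at h2
  exact h2

theorem proj_Mul (h : UniData t B) (g : H2) : (Kth h).starProjection (Mul h g) = 0 := by
  rw [Submodule.starProjection_apply_eq_zero_iff]
  exact mul_mem_orth h g

theorem proj_eq (h : UniData t B) (f : H2) : (Kth h).starProjection f =
    f - Mul h ((Mul h).toContinuousLinearMap.adjoint f) := by
  apply Submodule.eq_starProjection_of_mem_orthogonal
  · rw [mem_Kth]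
    intro g
    have h1 : ⟪Mul h g, f⟫_ℂ = ⟪g, (Mul h).toContinuousLinearMap.adjoint f⟫_ℂ := by
      rw [ContinuousLinearMap.adjoint_inner_right]
      rfl
    rw [inner_sub_right, (Mul h).inner_map_map, h1, sub_self]
  · rw [sub_sub_cancel]
    exact mul_mem_orth h _

theorem proj_kernel (h : UniData t B) (z w : D2) :
    ⟪kv z, (Kth h).starProjection (kv w)⟫_ℂ =
      (1 - ev (tv h) z * conj (ev (tv h) w)) * ⟪kv z, kv w⟫_ℂ := by
  rw [proj_eq, inner_sub_right]
  have h1 : ⟪kv z, Mul h ((Mul h).toContinuousLinearMap.adjoint (kv w))⟫_ℂ =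
      ⟪(Mul h).toContinuousLinearMap.adjoint (kv z), (Mul h).toContinuousLinearMap.adjoint (kv w)⟫_ℂ := by
    rw [ContinuousLinearMap.adjoint_inner_left]
    rfl
  rw [h1, Mul_adj_kv, Mul_adj_kv, inner_smul_left, inner_smul_right, Complex.conj_conj]
  ring

/-- The kernel of the model space. -/
def kth (h : UniData t B) (z w : D2) : ℂ :=
  (1 - ev (tv h) z * conj (ev (tv h) w)) * ⟪kv z, kv w⟫_ℂ

theorem kth_inner (h : UniData t B) (z w : D2) :
    kth h z w = ⟪(Kth h).starProjection (kv z), (Kth h).starProjection (kv w)⟫_ℂ := by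
  rw [Submodule.inner_starProjection_left_eq_right, Submodule.starProjection_eq_self_iff.mpr
    (Submodule.starProjection_apply_mem _ _), proj_kernel]
  rfl

theorem lc_proj (h : UniData t B) (c : D2 →₀ ℂ) :
    lc (fun z => (Kth h).starProjection (kv z)) c = (Kth h).starProjection (lc kv c) := by
  unfold lc
  rw [Finsupp.linearCombination_apply, Finsupp.linearCombination_apply, map_finsuppSum]
  congr 1
  funext z a
  rw [map_smul]

/-- Elements dominated by the kernel of the model space lie in the model space. -/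
theorem mem_of_dom (h : UniData t B) {f : H2} (hf : Dom (kth h) (ev f)) : f ∈ Kth h := by
  obtain ⟨C, hC, hd⟩ := hf
  have h1 : ∀ g : H2, ‖⟪g, f⟫_ℂ‖ ≤ C * ‖(Kth h).starProjection g‖ := by
    have hcl : IsClosed {g : H2 | ‖⟪g, f⟫_ℂ‖ ≤ C * ‖(Kth h).starProjection g‖} := by
      refine isClosed_le ?_ ?_ <;> fun_prop
    have hsub : (Submodule.span ℂ (Set.range kv) : Set H2) ⊆
        {g : H2 | ‖⟪g, f⟫_ℂ‖ ≤ C * ‖(Kth h).starProjection g‖} := by
      intro g hg
      rw [← Finsupp.range_linearCombination] at hg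
      obtain ⟨c, rfl⟩ := hg
      have h2 := hd c
      rw [Qf_norm (kth_inner h), lc_proj] at h2
      have h3 : pair c (ev f) = ⟪lc kv c, f⟫_ℂ := by
        rw [lc_inner]
        congr 1
        funext z
        exact ev_eq f z
      rw [h3, ← mul_pow] at h2
      exact (pow_le_pow_iff_left₀ (norm_nonneg _) (by positivity) two_ne_zero).mp h2
    intro g
    have h2 : g ∈ closure (Submodule.span ℂ (Set.range kv) : Set H2) := by
      rw [← Submodule.topologicalClosure_coe, kv_dense]
      trivial
    exact closure_minimal hsub hcl h2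
  rw [mem_Kth]
  intro g
  have h2 := h1 (Mul h g)
  rw [proj_Mul, norm_zero, mul_zero] at h2
  exact norm_le_zero_iff.mp h2

/-- A function dominated by the model kernel is the function of an element of the model space. -/
theorem exists_of_dom (h : UniData t B) {f : D2 → ℂ} (hf : Dom (kth h) f) :
    ∃ g : H2, ev g = f := by
  have h1 : Dom (fun z w => ⟪kv z, kv w⟫_ℂ) f := by
    apply hf.mono
    intro c
    rw [Qf_norm (kth_inner h), Qf_norm (u := kv) (fun _ _ => rfl), lc_proj]
    refine pow_le_pow_left₀ (norm_nonneg _) ?_ 2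
    exact Submodule.norm_starProjection_apply_le _ _
  obtain ⟨x, hx⟩ := riesz (u := kv) (fun _ _ => rfl) kv_dense h1
  refine ⟨x, ?_⟩
  funext z
  rw [ev_eq, hx]

end F7
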