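import Pool.Agent.Q94.F7K

/-!
# Reducing Agler subspaces: the statement, and the forward direction
-/

open scoped ComplexConjugate Topology InnerProductSpace ComplexOrder
open Filter MeasureTheory

noncomputable section

namespace F7

/-- The subspace `θ H^2` of the Hardy space of the bidisk: all elements whose function is `θ`
times the function of an element of the Hardy space. -/
def thetaH (θ : ℂ × ℂ → ℂ) : Submodule ℂ H2 where
  carrier := {g | ∃ f : H2, ∀ z : D2, ev g z = θ z.1 * ev f z}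
  zero_mem' := ⟨0, fun z => by rw [ev_eq, inner_zero_right, mul_zero]⟩
  add_mem' := by
    rintro a b ⟨f, hf⟩ ⟨g, hg⟩
    exact ⟨f + g, fun z => by rw [ev_add, ev_add, hf, hg]; ring⟩
  smul_mem' := by
    rintro c a ⟨f, hf⟩
    exact ⟨c • f, fun z => by rw [ev_smul, ev_smul, hf]; ring⟩

/-- The model space `K_θ = H^2 ⊖ θ H^2`. -/
def Kmod (θ : ℂ × ℂ → ℂ) : Submodule ℂ H2 := (thetaH θ)ᗮ

instance (θ : ℂ × ℂ → ℂ) : (Kmod θ).HasOrthogonalProjection := by
  unfold Kmod
  infer_instance

/-- The inner product of the Hardy space, conjugate linear in the first variable. -/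
def ip (f g : H2) : ℂ := ⟪f, g⟫_ℂ

/-- The orthogonal projection `P_θ` of the Hardy space onto the model space. -/
def proj (θ : ℂ × ℂ → ℂ) (f : H2) : H2 := (Kmod θ).starProjection f

/-- Multiplication by the coordinate function `z_1` (`j = 0`) or `z_2` (`j = 1`) on the Hardy
space: the monomial with exponents `b` is sent to the monomial with exponents `(1,0) + b`,
respectively `(0,1) + b`. -/
def coordMul (j : Fin 2) : H2 →L[ℂ] H2 := V (if j = 0 then (1, 0) else (0, 1))

/-- The compressed shift `S_{z_j} f = P_θ (z_j f)`, for `f` in the model space. -/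
def cshift (θ : ℂ × ℂ → ℂ) (j : Fin 2) (f : H2) : H2 := proj θ (coordMul j f)

/-- The vector `g` of the model space is the image of `f` under the adjoint `S_{z_j}^*`. -/
def IsAdj (θ : ℂ × ℂ → ℂ) (j : Fin 2) (f g : H2) : Prop :=
  g ∈ Kmod θ ∧ ∀ h ∈ Kmod θ, ip (cshift θ j h) f = ip h g

/-- `(K1, K2)` is a pair of Agler kernels of `θ`. -/
structure IsAgler (θ : ℂ × ℂ → ℂ) (K1 K2 : D2 → D2 → ℂ) : Prop where
  psd1 : (Matrix.of K1).PosSemidef
  psd2 : (Matrix.of K2).PosSemidef
  eq : ∀ z w : D2, 1 - θ z.1 * conj (θ w.1) =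
    (1 - z.1.1 * conj w.1.1) * K2 z w + (1 - z.1.2 * conj w.1.2) * K1 z w

/-- The functions of the reproducing kernel Hilbert space with kernel `k`, as elements of the model
space. -/
def AglerSet (θ : ℂ × ℂ → ℂ) (k : D2 → D2 → ℂ) : Set H2 :=
  {f | f ∈ Kmod θ ∧ InRKHS k (ev f)}

/-- The Agler subspace `S_1 = H(K_1(z,w) / (1 - z_1 conj w_1))`. -/
def AglerS1 (θ : ℂ × ℂ → ℂ) (K1 : D2 → D2 → ℂ) : Set H2 :=
  AglerSet θ (fun z w => K1 z w / (1 - z.1.1 * conj w.1.1))

/-- The Agler subspace `S_2 = H(K_2(z,w) / (1 - z_2 conj w_2))`. -/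
def AglerS2 (θ : ℂ × ℂ → ℂ) (K2 : D2 → D2 → ℂ) : Set H2 :=
  AglerSet θ (fun z w => K2 z w / (1 - z.1.2 * conj w.1.2))

/-- Invariance of a subset of the model space under the compressed shift and its adjoint. -/
def Reduces (θ : ℂ × ℂ → ℂ) (j : Fin 2) (S : Set H2) : Prop :=
  (∀ f ∈ S, cshift θ j f ∈ S) ∧ ∀ f ∈ S, ∃ g ∈ S, IsAdj θ j f g

/-- Norm closedness. -/
def NormClosed (S : Set H2) : Prop := IsClosed S

/-- `S_{z_j}` has reducing Agler subspaces. -/
def HasReducing (θ : ℂ × ℂ → ℂ) (j : Fin 2) : Prop :=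
  ∃ K1 K2 : D2 → D2 → ℂ, IsAgler θ K1 K2 ∧ Reduces θ j (AglerS1 θ K1) ∧ Reduces θ j (AglerS2 θ K2)

/-- `S_{z_j}` has reducing Agler subspaces which are moreover closed in the model space. -/
def HasClosedReducing (θ : ℂ × ℂ → ℂ) (j : Fin 2) : Prop :=
  ∃ K1 K2 : D2 → D2 → ℂ, IsAgler θ K1 K2 ∧ Reduces θ j (AglerS1 θ K1) ∧
    Reduces θ j (AglerS2 θ K2) ∧ NormClosed (AglerS1 θ K1) ∧ NormClosed (AglerS2 θ K2)

/-- Check of the definition: `coordMul` is multiplication by the coordinate. -/
theorem ev_coordMul (j : Fin 2) (f : H2) (z : D2) : ev (coordMul j f) z = co j z * ev f z := by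
  unfold coordMul co
  rw [ev_V]
  split_ifs <;> simp

variable {θ : ℂ × ℂ → ℂ} {t : ℕ × ℕ → ℂ} {B : ℝ}

theorem Kmod_eq (h : UniData t B) (hev : ∀ z : D2, ev (tv h) z = θ z.1) : Kmod θ = Kth h := by
  unfold Kmod Kth
  congr 1
  ext g
  constructor
  · rintro ⟨f, hf⟩
    refine ⟨f, ?_⟩
    apply ev_ext
    intro z
    rw [hf]
    show ev (Mul h f) z = _
    rw [ev_Mul, hev]
  · rintro ⟨f, rfl⟩
    refine ⟨f, fun z => ?_⟩
    show ev (Mul h f) z = _
    rw [ev_Mul, hev]

theorem proj_same {K L : Submodule ℂ H2} [K.HasOrthogonalProjection] [L.HasOrthogonalProjection]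
    (e : K = L) (f : H2) : K.starProjection f = L.starProjection f := by
  apply Submodule.eq_starProjection_of_mem_orthogonal
  · rw [e]; exact Submodule.starProjection_apply_mem _ _
  · rw [e]; exact Submodule.sub_starProjection_mem_orthogonal _

theorem adj_unique (j : Fin 2) {f g : H2} (hf : f ∈ Kmod θ)
    (hf' : (coordMul j).adjoint f ∈ Kmod θ) (h : IsAdj θ j f g) : g = (coordMul j).adjoint f := by
  obtain ⟨hg, h⟩ := h
  have h1 : g - (coordMul j).adjoint f ∈ Kmod θ := Submodule.sub_mem _ hg hf'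
  have h2 := h _ h1
  unfold cshift proj ip at h2
  rw [proj_inner hf, ← ContinuousLinearMap.adjoint_inner_right] at h2
  have h3 : ⟪g - (coordMul j).adjoint f, g - (coordMul j).adjoint f⟫_ℂ = 0 := by
    rw [inner_sub_right, ← h2, sub_self]
  exact sub_eq_zero.mp (inner_self_eq_zero.mp h3)

theorem isAdj_adjoint (j : Fin 2) {f : H2} (hf : f ∈ Kmod θ)
    (hf' : (coordMul j).adjoint f ∈ Kmod θ) : IsAdj θ j f ((coordMul j).adjoint f) := by
  refine ⟨hf', fun h _ => ?_⟩
  unfold cshift proj ip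
  rw [proj_inner hf, ContinuousLinearMap.adjoint_inner_right]

theorem clos_inv {S : Submodule ℂ H2} {T : H2 →L[ℂ] H2} (h : ∀ f ∈ S, T f ∈ S) :
    ∀ f ∈ S.topologicalClosure, T f ∈ S.topologicalClosure := by
  intro f hf
  exact map_mem_closure T.continuous hf h

theorem kth_split (h : UniData t B) (hev : ∀ z : D2, ev (tv h) z = θ z.1) {K1 K2 : D2 → D2 → ℂ}
    (hA : IsAgler θ K1 K2) (z w : D2) :
    kth h z w = divK 0 K1 z w + divK 1 K2 z w := by
  unfold kth divK
  rw [hev, hev, hA.eq, kv_inner]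
  have h1 := co_ne 0 z w
  have h2 := co_ne 1 z w
  have e1 : ∀ z : D2, co 0 z = z.1.1 := fun z => rfl
  have e2 : ∀ z : D2, co 1 z = z.1.2 := fun z => by unfold co; simp
  rw [e1, e1] at h1 ⊢
  rw [e2, e2] at h2 ⊢
  field_simp
  ring

theorem AglerS1_eq (θ : ℂ × ℂ → ℂ) (K1 : D2 → D2 → ℂ) : AglerS1 θ K1 = AglerSet θ (divK 0 K1) := rfl

theorem AglerS2_eq (θ : ℂ × ℂ → ℂ) (K2 : D2 → D2 → ℂ) : AglerS2 θ K2 = AglerSet θ (divK 1 K2) := by
  unfold AglerS2
  congr 1

theorem dom_kth1 (h : UniData t B) (hev : ∀ z : D2, ev (tv h) z = θ z.1) {K1 K2 : D2 → D2 → ℂ}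
    (hA : IsAgler θ K1 K2) {f : D2 → ℂ} (hf : Dom (divK 0 K1) f) : Dom (kth h) f := by
  apply hf.mono
  intro c
  have : kth h = fun z w => divK 0 K1 z w + divK 1 K2 z w := by
    funext z w
    exact kth_split h hev hA z w
  rw [this, Qf_add, Complex.add_re]
  have := psd_re (divK_psd 1 hA.psd2) c
  linarith

theorem dom_kth2 (h : UniData t B) (hev : ∀ z : D2, ev (tv h) z = θ z.1) {K1 K2 : D2 → D2 → ℂ}
    (hA : IsAgler θ K1 K2) {f : D2 → ℂ} (hf : Dom (divK 1 K2) f) : Dom (kth h) f := by
  apply hf.mono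
  intro c
  have : kth h = fun z w => divK 0 K1 z w + divK 1 K2 z w := by
    funext z w
    exact kth_split h hev hA z w
  rw [this, Qf_add, Complex.add_re]
  have := psd_re (divK_psd 0 hA.psd1) c
  linarith

/-- The Agler spaces are contained in the model space: every function of `H(K_1/(1 - z_1 w_1))`
or of `H(K_2/(1 - z_2 w_2))` is the function of an element of the model space. -/
theorem agler_inside (hθ : IsInner2 θ) {K1 K2 : D2 → D2 → ℂ} (hA : IsAgler θ K1 K2) (f : D2 → ℂ)
    (hf : InRKHS (fun z w => K1 z w / (1 - z.1.1 * conj w.1.1)) f ∨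
      InRKHS (fun z w => K2 z w / (1 - z.1.2 * conj w.1.2)) f) :
    ∃ g ∈ Kmod θ, ev g = f := by
  obtain ⟨t, B, h, hev⟩ := inner_data hθ
  have hd : Dom (kth h) f := by
    rcases hf with hf | hf
    · exact dom_kth1 h hev hA hf.dom
    · refine dom_kth2 h hev hA (K2 := K2) ?_
      have := hf.dom
      exact this
  obtain ⟨g, hg⟩ := exists_of_dom h hd
  refine ⟨g, ?_, hg⟩
  rw [Kmod_eq h hev]
  apply mem_of_dom
  rw [hg]
  exact hd

/-- Translation of the reducing hypothesis. -/
theorem reduce_sub (h : UniData t B) (hev : ∀ z : D2, ev (tv h) z = θ z.1) {k : D2 → D2 → ℂ}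
    (hk : (Matrix.of k).PosSemidef) (hsub : ∀ f ∈ Sub k hk, f ∈ Kth h) (j : Fin 2)
    (hr : Reduces θ j (AglerSet θ k)) :
    ∀ f ∈ Sub k hk, (Kth h).starProjection (coordMul j f) ∈ Sub k hk ∧
      (coordMul j).adjoint f ∈ Sub k hk := by
  intro f hf
  have hK := Kmod_eq h hev
  have hfK : f ∈ Kmod θ := by rw [hK]; exact hsub f hf
  have hfK' : (coordMul j).adjoint f ∈ Kmod θ := by
    rw [hK]
    exact Kth_adj h _ (hsub f hf)
  have hfA : f ∈ AglerSet θ k := ⟨hfK, Dom.mem hk hf⟩
  constructor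
  · have h3 : Dom k (ev (cshift θ j f)) := InRKHS.dom (hr.1 f hfA).2
    unfold cshift proj at h3
    rw [proj_same hK] at h3
    exact h3
  · obtain ⟨g, hg, hadj⟩ := hr.2 f hfA
    have h3 : Dom k (ev g) := InRKHS.dom hg.2
    rw [adj_unique j hfK hfK' hadj] at h3
    exact h3

/-- The forward direction: reducing Agler subspaces force a product. -/
theorem forward (hθ : IsInner2 θ) (j : Fin 2) (hr : HasReducing θ j) :
    ∃ φ ψ : ℂ → ℂ, IsInner1 φ ∧ IsInner1 ψ ∧ ∀ z ∈ bidisk, θ z = φ z.1 * ψ z.2 := by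
  obtain ⟨t, B, h, hev⟩ := inner_data hθ
  obtain ⟨K1, K2, hA, hr1, hr2⟩ := hr
  rw [AglerS1_eq] at hr1
  rw [AglerS2_eq] at hr2
  have p1 := divK_psd 0 hA.psd1
  have p2 := divK_psd 1 hA.psd2
  have sub1 : ∀ f ∈ Sub (divK 0 K1) p1, f ∈ Kth h := fun f hf => mem_of_dom h (dom_kth1 h hev hA hf)
  have sub2 : ∀ f ∈ Sub (divK 1 K2) p2, f ∈ Kth h := fun f hf => mem_of_dom h (dom_kth2 h hev hA hf)
  have r1 := reduce_sub h hev p1 sub1 j hr1
  have r2 := reduce_sub h hev p2 sub2 j hr2
  obtain ⟨E1, hE1⟩ : ∃ E1, E1 = (Sub (divK 0 K1) p1).topologicalClosure := ⟨_, rfl⟩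
  obtain ⟨E2, hE2⟩ : ∃ E2, E2 = (Sub (divK 1 K2) p2).topologicalClosure := ⟨_, rfl⟩
  have c1 : CompleteSpace E1 := by
    rw [hE1]; exact (Submodule.isClosed_topologicalClosure _).completeSpace_coe
  have c2 : CompleteSpace E2 := by
    rw [hE2]; exact (Submodule.isClosed_topologicalClosure _).completeSpace_coe
  have Kcl : IsClosed ((Kth h : Submodule ℂ H2) : Set H2) := by
    unfold Kth
    exact Submodule.isClosed_orthogonal _
  have le1 : E1 ≤ Kth h := by
    rw [hE1]
    exact Submodule.topologicalClosure_minimal _ sub1 Kcl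
  have le2 : E2 ≤ Kth h := by
    rw [hE2]
    exact Submodule.topologicalClosure_minimal _ sub2 Kcl
  have s1 : ∀ f ∈ E1, V (1, 0) f ∈ E1 := by
    rw [hE1]
    refine clos_inv fun f hf => ?_
    have := divK_shift 0 hA.psd1 (f := ev f) hf
    show Dom _ (ev (V (1, 0) f))
    have e : ev (V (1, 0) f) = fun z => co 0 z * ev f z := by
      funext z
      rw [ev_V]
      simp [co]
    rw [e]
    exact this
  have s2 : ∀ f ∈ E2, V (0, 1) f ∈ E2 := by
    rw [hE2]
    refine clos_inv fun f hf => ?_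
    have := divK_shift 1 hA.psd2 (f := ev f) hf
    show Dom _ (ev (V (0, 1) f))
    have e : ev (V (0, 1) f) = fun z => co 1 z * ev f z := by
      funext z
      rw [ev_V]
      simp [co]
    rw [e]
    exact this
  have a1 : ∀ f ∈ E1, (Kth h).starProjection (coordMul j f) ∈ E1 := by
    rw [hE1]
    exact clos_inv (T := (Kth h).starProjection ∘L coordMul j) fun f hf => (r1 f hf).1
  have a1' : ∀ f ∈ E1, (coordMul j).adjoint f ∈ E1 := by
    rw [hE1]
    exact clos_inv fun f hf => (r1 f hf).2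
  have a2 : ∀ f ∈ E2, (Kth h).starProjection (coordMul j f) ∈ E2 := by
    rw [hE2]
    exact clos_inv (T := (Kth h).starProjection ∘L coordMul j) fun f hf => (r2 f hf).1
  have a2' : ∀ f ∈ E2, (coordMul j).adjoint f ∈ E2 := by
    rw [hE2]
    exact clos_inv fun f hf => (r2 f hf).2
  have dense : ∀ g ∈ Kth h, g ∈ E1ᗮ → g ∈ E2ᗮ → g = 0 := by
    intro g hg hg1 hg2
    apply ev_injective
    intro w
    obtain ⟨f1, hf1⟩ := exists_of_dom h (dom_kth1 h hev hA (dom_section p1 w))
    obtain ⟨f2, hf2⟩ := exists_of_dom h (dom_kth2 h hev hA (dom_section p2 w))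
    have m1 : f1 ∈ E1 := by
      rw [hE1]
      apply Submodule.le_topologicalClosure
      show Dom _ (ev f1)
      rw [hf1]
      exact dom_section p1 w
    have m2 : f2 ∈ E2 := by
      rw [hE2]
      apply Submodule.le_topologicalClosure
      show Dom _ (ev f2)
      rw [hf2]
      exact dom_section p2 w
    have e : f1 + f2 = (Kth h).starProjection (kv w) := by
      apply ev_ext
      intro z
      rw [ev_add, hf1, hf2, ev_eq, proj_kernel]
      exact (kth_split h hev hA z w).symm
    rw [ev_eq, ← Submodule.starProjection_eq_self_iff.mpr hg,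
      ← Submodule.inner_starProjection_left_eq_right, ← e, inner_add_left,
      Submodule.inner_right_of_mem_orthogonal m1 hg1,
      Submodule.inner_right_of_mem_orthogonal m2 hg2, add_zero]
  have hcase : Split (V (1, 0)) (V (0, 1)) (Kth h) E1 E2 ∨
      Split (V (0, 1)) (V (1, 0)) (Kth h) E2 E1 := by
    by_cases hj : j = 0
    · left
      have ej : coordMul j = V (1, 0) := by unfold coordMul; rw [if_pos hj]
      rw [ej] at a1 a1' a2 a2'
      exact
        { hU := V_adj_V _
          hW := V_adj_V _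
          comm := fun f => by rw [V_V, V_V, add_comm]
          dcomm := fun f => V_doubly 1 1 f
          KU := fun f hf => Kth_adj h _ hf
          KW := fun f hf => Kth_adj h _ hf
          Z := fun f hf => by
            apply Kth_Z h
            rintro ⟨a, b⟩
            have := hf b a
            rw [V_pow1, V_pow2, V_V] at this
            simpa using this
          le1 := le1
          le2 := le2
          U1 := s1
          W2 := s2
          A1 := a1'
          A2 := a2
          A2' := a2'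
          dense := dense }
    · right
      have ej : coordMul j = V (0, 1) := by unfold coordMul; rw [if_neg hj]
      rw [ej] at a1 a1' a2 a2'
      exact
        { hU := V_adj_V _
          hW := V_adj_V _
          comm := fun f => by rw [V_V, V_V, add_comm]
          dcomm := fun f => V_doubly' f
          KU := fun f hf => Kth_adj h _ hf
          KW := fun f hf => Kth_adj h _ hf
          Z := fun f hf => by
            apply Kth_Z h
            rintro ⟨a, b⟩
            have := hf a b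
            rw [V_pow1, V_pow2, V_V] at this
            simpa using this
          le1 := le2
          le2 := le1
          U1 := s2
          W2 := s1
          A1 := a2'
          A2 := a1
          A2' := a1'
          dense := fun g hg h1 h2 => dense g hg h2 h1 }
  have hrank : ∃ c q : ℕ → ℂ, ∀ m n, t (m, n) = c m * q n := by
    rcases hcase with hc | hc
    · exact rank_one h E1 E2 (Or.inl hc)
    · exact rank_one h E2 E1 (Or.inr hc)
  obtain ⟨c, q, hcq⟩ := hrank
  exact factor_inner hθ h hev hcq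

end F7
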