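import Pool.Agent.Q94.F7L

/-!
# Products of one variable inner functions have reducing Agler subspaces
-/

open scoped ComplexConjugate Topology InnerProductSpace ComplexOrder
open Filter MeasureTheory

noncomputable section

namespace F7

theorem inner2_of_fst {φ : ℂ → ℂ} (hφ : IsInner1 φ) : IsInner2 (fun z => φ z.1) := by
  refine ⟨?_, ?_, ?_⟩
  · refine hφ.holo.comp (by fun_prop) ?_
    intro z hz
    simpa using hz.1
  · obtain ⟨C, hC⟩ := hφ.bdd
    exact ⟨C, fun z hz => hC _ (by simpa using hz.1)⟩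
  · rw [Measure.volume_eq_prod]
    exact Measure.quasiMeasurePreserving_fst.ae hφ.radial

theorem inner2_of_snd {φ : ℂ → ℂ} (hφ : IsInner1 φ) : IsInner2 (fun z => φ z.2) := by
  refine ⟨?_, ?_, ?_⟩
  · refine hφ.holo.comp (by fun_prop) ?_
    intro z hz
    simpa using hz.2
  · obtain ⟨C, hC⟩ := hφ.bdd
    exact ⟨C, fun z hz => hC _ (by simpa using hz.2)⟩
  · rw [Measure.volume_eq_prod]
    exact Measure.quasiMeasurePreserving_snd.ae hφ.radial

/-- The point `(0, z_2)`. -/
def z0 (z : D2) : D2 := ⟨(0, z.1.2), by simpa using z.2.2⟩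

/-- The point `(z_1, 0)`. -/
def z1 (z : D2) : D2 := ⟨(z.1.1, 0), by simpa using z.2.1⟩

/-- A function independent of the first variable is killed by the adjoint of the first shift. -/
theorem adj_of_indep (f : H2) (hf : ∀ z : D2, ev f z = ev f (z0 z)) :
    (V (1, 0)).adjoint f = 0 := by
  obtain ⟨g, hg⟩ : ∃ g, g = f - V (1, 0) ((V (1, 0)).adjoint f) := ⟨_, rfl⟩
  have h1 : (V (1, 0)).adjoint g = 0 := by
    rw [hg, map_sub, V_adj_V, sub_self]
  have h2 : ∀ n : ℕ × ℕ, n.1 ≠ 0 → g n = 0 := by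
    intro n hn
    obtain ⟨m, hm⟩ := Nat.exists_eq_succ_of_ne_zero hn
    have e : mono n = V (1, 0) (mono (m, n.2)) := by
      rw [V_mono]
      congr 1
      ext
      · simp only [Prod.fst_add]
        omega
      · simp
    rw [← inner_mono, e, ← ContinuousLinearMap.adjoint_inner_right, h1, inner_zero_right]
  have h3 : ∀ z : D2, ev g z = ev g (z0 z) := by
    intro z
    unfold ev z0
    congr 1
    funext n
    by_cases hn : n.1 = 0
    · simp [hn]
    · rw [h2 n hn, zero_mul, zero_mul]
  have h4 : ∀ z : D2, ev g (z0 z) = ev f (z0 z) := by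
    intro z
    rw [hg, ev_sub, ev_V]
    simp [z0]
  have h5 : f = g := by
    apply ev_ext
    intro z
    rw [hf z, h3 z, h4 z]
  rw [h5, h1]

variable {t : ℕ × ℕ → ℂ} {B : ℝ}

theorem Mul_doubly (h : UniData t B) (hV : (V (1, 0)).adjoint (tv h) = 0) (f : H2) :
    (V (1, 0)).adjoint (Mul h f) = Mul h ((V (1, 0)).adjoint f) := by
  have e : (V (1, 0)).adjoint ∘L (Mul h).toContinuousLinearMap =
      (Mul h).toContinuousLinearMap ∘L (V (1, 0)).adjoint := by
    apply clm_ext
    rintro ⟨b1, b2⟩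
    show (V (1, 0)).adjoint (Mul h (mono (b1, b2))) = Mul h ((V (1, 0)).adjoint (mono (b1, b2)))
    by_cases hb : b1 = 0
    · subst hb
      rw [V1_adj_mono, map_zero, Mul_mono, V_doubly, hV, map_zero]
    · obtain ⟨m, rfl⟩ := Nat.exists_eq_succ_of_ne_zero hb
      have e1 : mono (m.succ, b2) = V (1, 0) (mono (m, b2)) := by
        rw [V_mono]
        congr 1
        ext
        · simp only [Prod.fst_add]
          omega
        · simp
      rw [e1, V_adj_V, Mul_V, V_adj_V]
  exact congrArg (fun T : H2 →L[ℂ] H2 => T f) e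

/-- The backward direction. -/
theorem backward {θ : ℂ × ℂ → ℂ} (hθ : IsInner2 θ) {φ ψ : ℂ → ℂ} (hφ : IsInner1 φ)
    (hψ : IsInner1 ψ) (hprod : ∀ z ∈ bidisk, θ z = φ z.1 * ψ z.2) : HasClosedReducing θ 0 := by
  obtain ⟨t, B, h, hev⟩ := inner_data hθ
  obtain ⟨s, Bs, hs, hevs⟩ := inner_data (inner2_of_snd hψ)
  obtain ⟨u, Bu, hu, hevu⟩ := inner_data (inner2_of_fst hφ)
  have hK := Kmod_eq h hev
  have hMM : ∀ f, Mul h f = Mul hs (Mul hu f) := by
    intro f
    apply ev_ext
    intro z
    rw [ev_Mul, ev_Mul, ev_Mul, hev, hevs, hevu, hprod z.1 z.2]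
    ring
  have hsV : (V (1, 0)).adjoint (tv hs) = 0 := by
    apply adj_of_indep
    intro z
    rw [hevs, hevs]
    rfl
  obtain ⟨K1, hK1⟩ : ∃ K1 : D2 → D2 → ℂ, ∀ z w, K1 z w =
    (1 - ψ z.1.2 * conj (ψ w.1.2)) / (1 - z.1.2 * conj w.1.2) := ⟨_, fun _ _ => rfl⟩
  obtain ⟨K2, hK2⟩ : ∃ K2 : D2 → D2 → ℂ, ∀ z w, K2 z w =
    ψ z.1.2 * conj (ψ w.1.2) * (1 - φ z.1.1 * conj (φ w.1.1)) / (1 - z.1.1 * conj w.1.1) :=
    ⟨_, fun _ _ => rfl⟩
  have n1 : ∀ z w : D2, 1 - z.1.1 * conj w.1.1 ≠ 0 := fun z w => co_ne 0 z w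
  have n2 : ∀ z w : D2, 1 - z.1.2 * conj w.1.2 ≠ 0 := fun z w => by
    have := co_ne 1 z w
    simpa [co] using this
  have hA : IsAgler θ K1 K2 := by
    refine ⟨?_, ?_, ?_⟩
    · refine psd_inner (u := fun z => (Kth hs).starProjection (kv (z0 z))) fun z w => ?_
      rw [← kth_inner, hK1]
      unfold kth
      rw [hevs, hevs, kv_inner]
      simp [z0, div_eq_mul_inv]
    · refine psd_inner (u := fun z => conj (ψ z.1.2) • (Kth hu).starProjection (kv (z1 z)))
        fun z w => ?_
      rw [inner_smul_left, inner_smul_right, ← kth_inner, hK2, Complex.conj_conj]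
      unfold kth
      rw [hevu, hevu, kv_inner]
      simp only [z1, map_zero, mul_zero, sub_zero, mul_one, div_eq_mul_inv]
      ring
    · intro z w
      rw [hK1, hK2, hprod z.1 z.2, hprod w.1 w.2, map_mul]
      have a1 := n1 z w
      have a2 := n2 z w
      field_simp
      ring
  -- the first Agler space
  have hk1 : divK 0 K1 = kth hs := by
    funext z w
    unfold divK kth
    rw [hK1, hevs, hevs, kv_inner]
    have a1 := n1 z w
    have a2 := n2 z w
    show (1 - ψ z.1.2 * conj (ψ w.1.2)) / (1 - z.1.2 * conj w.1.2) / (1 - z.1.1 * conj w.1.1) = _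
    field_simp
  have hsub : ∀ f ∈ Kth hs, f ∈ Kmod θ := by
    intro f hf
    rw [hK, mem_Kth]
    intro g
    rw [hMM]
    exact (mem_Kth hs).mp hf _
  have S1 : ∀ f : H2, f ∈ AglerS1 θ K1 ↔ f ∈ Kth hs := by
    intro f
    rw [AglerS1_eq]
    constructor
    · intro hf
      have : Dom (divK 0 K1) (ev f) := InRKHS.dom hf.2
      rw [hk1] at this
      exact mem_of_dom hs this
    · intro hf
      refine ⟨hsub f hf, Dom.mem (divK_psd 0 hA.psd1) ?_⟩
      rw [hk1]
      refine dom_inner (kth_inner hs) f fun z => ?_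
      rw [Submodule.inner_starProjection_left_eq_right, Submodule.starProjection_eq_self_iff.mpr hf,
        ev_eq]
  -- the second Agler space
  have hk2 : ∀ z w, divK 1 K2 z w =
      ⟪(Kth hu).starProjection ((Mul hs).toContinuousLinearMap.adjoint (kv z)),
        (Kth hu).starProjection ((Mul hs).toContinuousLinearMap.adjoint (kv w))⟫_ℂ := by
    intro z w
    rw [Mul_adj_kv, Mul_adj_kv, map_smul, map_smul, inner_smul_left, inner_smul_right, ← kth_inner,
      Complex.conj_conj, hevs, hevs]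
    unfold divK kth
    rw [hK2, hevu, hevu, kv_inner]
    have a1 := n1 z w
    have a2 := n2 z w
    have e2 : 1 - co 1 z * conj (co 1 w) = 1 - z.1.2 * conj w.1.2 := by simp [co]
    rw [e2]
    field_simp
  have lcadj : ∀ c : D2 →₀ ℂ, lc (fun z => (Kth hu).starProjection
      ((Mul hs).toContinuousLinearMap.adjoint (kv z))) c =
      (Kth hu).starProjection ((Mul hs).toContinuousLinearMap.adjoint (lc kv c)) := by
    intro c
    unfold lc
    rw [Finsupp.linearCombination_apply, Finsupp.linearCombination_apply, map_finsuppSum,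
      map_finsuppSum]
    congr 1
    funext z a
    rw [map_smul, map_smul]
  have S2 : ∀ f : H2, f ∈ AglerS2 θ K2 ↔ f ∈ Kmod θ ∧ f ∈ (Kth hs)ᗮ := by
    intro f
    rw [AglerS2_eq]
    constructor
    · intro hf
      refine ⟨hf.1, ?_⟩
      obtain ⟨C, hC, hd⟩ : Dom (divK 1 K2) (ev (f : H2)) := InRKHS.dom hf.2
      have h1 : ∀ g : H2, ‖⟪g, (f : H2)⟫_ℂ‖ ≤ C * ‖(Kth hu).starProjection
          ((Mul hs).toContinuousLinearMap.adjoint g)‖ := by
        have hcl : IsClosed {g : H2 | ‖⟪g, (f : H2)⟫_ℂ‖ ≤ C * ‖(Kth hu).starProjection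
          ((Mul hs).toContinuousLinearMap.adjoint g)‖} := by
          refine isClosed_le ?_ ?_ <;> fun_prop
        have hsub : (Submodule.span ℂ (Set.range kv) : Set H2) ⊆
            {g : H2 | ‖⟪g, (f : H2)⟫_ℂ‖ ≤ C * ‖(Kth hu).starProjection
              ((Mul hs).toContinuousLinearMap.adjoint g)‖} := by
          intro g hg
          rw [← Finsupp.range_linearCombination] at hg
          obtain ⟨c, rfl⟩ := hg
          have h2 := hd c
          rw [Qf_norm hk2, lcadj] at h2
          have h3 : pair c (ev (f : H2)) = ⟪lc kv c, (f : H2)⟫_ℂ := by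
            rw [lc_inner]
            congr 1
            funext z
            exact ev_eq _ z
          rw [h3, ← mul_pow] at h2
          exact (pow_le_pow_iff_left₀ (norm_nonneg _) (by positivity) two_ne_zero).mp h2
        intro g
        have h2 : g ∈ closure (Submodule.span ℂ (Set.range kv) : Set H2) := by
          rw [← Submodule.topologicalClosure_coe, kv_dense]
          trivial
        exact closure_minimal hsub hcl h2
      rw [Submodule.mem_orthogonal]
      intro g hg
      have h2 := h1 g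
      have h3 : (Mul hs).toContinuousLinearMap.adjoint g = 0 := by
        apply ext_inner_left ℂ
        intro x
        rw [ContinuousLinearMap.adjoint_inner_right, inner_zero_right]
        exact (mem_Kth hs).mp hg x
      rw [h3, map_zero, norm_zero, mul_zero] at h2
      exact norm_le_zero_iff.mp h2
    · rintro ⟨hfK, hf⟩
      obtain ⟨g, hg⟩ := Kth_orth hs hf
      have hgK : g ∈ Kth hu := by
        rw [mem_Kth]
        intro x
        have h1 : (f : H2) ∈ Kth h := by rw [← hK]; exact hfK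
        have h2 := (mem_Kth h).mp h1 x
        rw [hMM, hg, (Mul hs).inner_map_map] at h2
        exact h2
      refine ⟨hfK, Dom.mem (divK_psd 1 hA.psd2) (dom_inner hk2 g fun z => ?_)⟩
      rw [Submodule.inner_starProjection_left_eq_right, Submodule.starProjection_eq_self_iff.mpr hgK,
        ContinuousLinearMap.adjoint_inner_left, ev_eq, hg]
      rfl
  have c0 : coordMul 0 = V (1, 0) := rfl
  have hVK : ∀ f ∈ Kth hs, V (1, 0) f ∈ Kth hs := by
    intro f hf
    rw [mem_Kth]
    intro g
    rw [← ContinuousLinearMap.adjoint_inner_left, Mul_doubly hs hsV]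
    exact (mem_Kth hs).mp hf _
  have adjK : ∀ f ∈ Kmod θ, (coordMul 0).adjoint f ∈ Kmod θ := by
    intro f hf
    exact (le_of_eq hK.symm) (Kth_adj h _ ((le_of_eq hK) hf))
  refine ⟨K1, K2, hA, ⟨?_, ?_⟩, ⟨?_, ?_⟩, ?_, ?_⟩
  · intro f hf
    rw [S1] at hf ⊢
    unfold cshift proj
    rw [c0]
    have h1 := hVK _ hf
    rw [Submodule.starProjection_eq_self_iff.mpr (hsub _ h1)]
    exact h1
  · intro f hf
    rw [S1] at hf
    refine ⟨(coordMul 0).adjoint f, ?_, isAdj_adjoint 0 (hsub _ hf) (adjK f (hsub _ hf))⟩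
    rw [S1, c0]
    exact Kth_adj hs _ hf
  · intro f hf
    rw [S2] at hf ⊢
    unfold cshift proj
    refine ⟨Submodule.starProjection_apply_mem _ _, ?_⟩
    rw [c0, Submodule.mem_orthogonal]
    intro g hg
    rw [← Submodule.inner_starProjection_left_eq_right,
      Submodule.starProjection_eq_self_iff.mpr (hsub _ hg),
      ← ContinuousLinearMap.adjoint_inner_left]
    exact Submodule.inner_right_of_mem_orthogonal (Kth_adj hs _ hg) hf.2
  · intro f hf
    rw [S2] at hf
    refine ⟨(coordMul 0).adjoint f, ?_, isAdj_adjoint 0 hf.1 (adjK f hf.1)⟩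
    rw [S2]
    refine ⟨adjK f hf.1, ?_⟩
    rw [c0, Submodule.mem_orthogonal]
    intro g hg
    rw [ContinuousLinearMap.adjoint_inner_right]
    exact Submodule.inner_right_of_mem_orthogonal (hVK _ hg) hf.2
  · have e : AglerS1 θ K1 = ((Kth hs : Submodule ℂ H2) : Set H2) := by
      ext f
      exact S1 f
    unfold NormClosed
    rw [e]
    unfold Kth
    exact Submodule.isClosed_orthogonal _
  · have e : AglerS2 θ K2 = ((Kmod θ : Submodule ℂ H2) : Set H2) ∩
        (((Kth hs)ᗮ : Submodule ℂ H2) : Set H2) := by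
      ext f
      exact S2 f
    unfold NormClosed
    rw [e]
    refine IsClosed.inter ?_ (Submodule.isClosed_orthogonal _)
    unfold Kmod
    exact Submodule.isClosed_orthogonal _

end F7
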