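import Mathlib

/-!
# One-dimensional tools: the Mehler kernel, the polar of a function, lower bounds for the
Fokker-Planck evolution
-/

set_option autoImplicit false

open MeasureTheory Set Filter Topology

namespace Q94.FP

/-- the functional polar on the line -/
noncomputable def polar1 (f : ℝ → ℝ) (y : ℝ) : ℝ :=
  ⨅ x : {x : ℝ // 0 < f x}, Real.exp (-(x.1 * y)) / f x.1

/-- the Mehler kernel, `s = exp (-t)` -/
noncomputable def ker (s x z : ℝ) : ℝ :=
  (Real.sqrt (2 * Real.pi * (1 - s ^ 2)))⁻¹ * Real.exp (-(x - s * z) ^ 2 / (2 * (1 - s ^ 2)))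

/-- the evolution, `s = exp (-t)` -/
noncomputable def ev (f : ℝ → ℝ) (s x : ℝ) : ℝ := ∫ z, f z * ker s x z

/-- the standard Gaussian -/
noncomputable def gs (x : ℝ) : ℝ := Real.exp (-x ^ 2 / 2)

theorem gs_pos (x : ℝ) : 0 < gs x := Real.exp_pos _

theorem v_pos {s : ℝ} (h0 : 0 < s) (h1 : s < 1) : 0 < 1 - s ^ 2 := by nlinarith

/-- the constant in the kernel -/
noncomputable def kc (s : ℝ) : ℝ := (Real.sqrt (2 * Real.pi * (1 - s ^ 2)))⁻¹

theorem kc_pos {s : ℝ} (h0 : 0 < s) (h1 : s < 1) : 0 < kc s := by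
  unfold kc
  have := v_pos h0 h1
  have := Real.pi_pos
  positivity

theorem ker_eq (s x z : ℝ) : ker s x z = kc s * Real.exp (-(x - s * z) ^ 2 / (2 * (1 - s ^ 2))) :=
  rfl

theorem ker_pos {s : ℝ} (h0 : 0 < s) (h1 : s < 1) (x z : ℝ) : 0 < ker s x z :=
  mul_pos (kc_pos h0 h1) (Real.exp_pos _)

theorem ker_le {s : ℝ} (h0 : 0 < s) (h1 : s < 1) (x z : ℝ) : ker s x z ≤ kc s := by
  rw [ker_eq]
  have h := kc_pos h0 h1
  have hv := v_pos h0 h1
  have : Real.exp (-(x - s * z) ^ 2 / (2 * (1 - s ^ 2))) ≤ 1 := by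
    rw [Real.exp_le_one_iff]
    apply div_nonpos_of_nonpos_of_nonneg
    · nlinarith [sq_nonneg (x - s * z)]
    · linarith
  nlinarith

theorem ker_cont (s : ℝ) : Continuous fun p : ℝ × ℝ => ker s p.1 p.2 := by
  unfold ker
  fun_prop

theorem ker_cont_z (s x : ℝ) : Continuous fun z : ℝ => ker s x z := by
  unfold ker
  fun_prop

theorem int_ker {f : ℝ → ℝ} (hf : Integrable f) {s : ℝ} (h0 : 0 < s) (h1 : s < 1) (x : ℝ) :
    Integrable fun z => f z * ker s x z := by
  have h : Integrable fun z => ker s x z * f z := by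
    refine hf.bdd_mul (c := kc s) (ker_cont_z s x).aestronglyMeasurable ?_
    refine Eventually.of_forall fun z => ?_
    rw [Real.norm_eq_abs, abs_of_pos (ker_pos h0 h1 x z)]
    exact ker_le h0 h1 x z
  exact h.congr (Eventually.of_forall fun z => mul_comm _ _)

theorem ev_nonneg {f : ℝ → ℝ} (hf : ∀ x, 0 ≤ f x) {s : ℝ} (h0 : 0 < s) (h1 : s < 1) (x : ℝ) :
    0 ≤ ev f s x :=
  integral_nonneg fun z => mul_nonneg (hf z) (ker_pos h0 h1 x z).le

theorem int_lin {f g h : ℝ → ℝ} (hf : Integrable f) (hg : Integrable g) (hh : Integrable h)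
    (A B C : ℝ) : ∫ z, (A * f z + B * g z - C * h z)
      = A * (∫ z, f z) + B * (∫ z, g z) - C * ∫ z, h z := by
  have h1 : Integrable fun z => A * f z + B * g z := (hf.const_mul A).add (hg.const_mul B)
  have h2 : Integrable fun z => C * h z := hh.const_mul C
  rw [integral_sub h1 h2, integral_add (hf.const_mul A) (hg.const_mul B),
    integral_const_mul, integral_const_mul, integral_const_mul]

/-- Jensen's inequality for the evolution. -/
theorem ev_ge {f : ℝ → ℝ} (hf : ∀ x, 0 ≤ f x) (hi : Integrable f)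
    (hi1 : Integrable fun x => x * f x) (hi2 : Integrable fun x => x ^ 2 * f x)
    (hW : 0 < ∫ x, f x) {s : ℝ} (h0 : 0 < s) (h1 : s < 1) (x : ℝ) :
    kc s * (∫ z, f z) * Real.exp (-((x ^ 2 - 2 * s * x * ((∫ z, z * f z) / ∫ z, f z)
      + s ^ 2 * ((∫ z, z ^ 2 * f z) / ∫ z, f z))
      / (2 * (1 - s ^ 2)))) ≤ ev f s x := by
  set W := ∫ z, f z with hWd
  set M1 := ∫ z, z * f z with hM1
  set M := ∫ z, z ^ 2 * f z with hM
  set v := 1 - s ^ 2 with hv
  have hvp : 0 < v := v_pos h0 h1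
  set m := (x ^ 2 - 2 * s * x * (M1 / W) + s ^ 2 * (M / W)) / (2 * v) with hm
  have hc := kc_pos h0 h1
  have key : ∀ z, (kc s * Real.exp (-m)) * ((1 + m - x ^ 2 / (2 * v)) * f z
      + (x * s / v) * (z * f z) - (s ^ 2 / (2 * v)) * (z ^ 2 * f z)) ≤ f z * ker s x z := by
    intro z
    rw [ker_eq]
    have h2 := Real.add_one_le_exp (m - (x - s * z) ^ 2 / (2 * v))
    have h3 : Real.exp (-(x - s * z) ^ 2 / (2 * v))
        = Real.exp (-m) * Real.exp (m - (x - s * z) ^ 2 / (2 * v)) := by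
      rw [← Real.exp_add]
      congr 1
      ring
    rw [h3]
    have h4 : (1 + m - x ^ 2 / (2 * v)) * f z
      + (x * s / v) * (z * f z) - (s ^ 2 / (2 * v)) * (z ^ 2 * f z)
      = f z * (m - (x - s * z) ^ 2 / (2 * v) + 1) := by
      field_simp
      ring
    rw [h4]
    have h5 : f z * (m - (x - s * z) ^ 2 / (2 * v) + 1)
        ≤ f z * Real.exp (m - (x - s * z) ^ 2 / (2 * v)) :=
      mul_le_mul_of_nonneg_left h2 (hf z)
    have h6 : 0 < kc s * Real.exp (-m) := mul_pos hc (Real.exp_pos _)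
    calc _ ≤ (kc s * Real.exp (-m)) * (f z * Real.exp (m - (x - s * z) ^ 2 / (2 * v))) :=
          mul_le_mul_of_nonneg_left h5 h6.le
      _ = _ := by ring
  have hint : Integrable fun z => (kc s * Real.exp (-m)) * ((1 + m - x ^ 2 / (2 * v)) * f z
      + (x * s / v) * (z * f z) - (s ^ 2 / (2 * v)) * (z ^ 2 * f z)) :=
    (((hi.const_mul _).add (hi1.const_mul _)).sub (hi2.const_mul _)).const_mul _
  have hle := integral_mono hint (int_ker hi h0 h1 x) key
  refine le_trans (le_of_eq ?_) hle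
  rw [integral_const_mul, int_lin hi hi1 hi2]
  rw [← hWd, ← hM1, ← hM]
  rw [show -((x ^ 2 - 2 * s * x * (M1 / W) + s ^ 2 * (M / W)) / (2 * v)) = -m from rfl]
  have h7 : (1 + m - x ^ 2 / (2 * v)) * W + (x * s / v) * M1 - (s ^ 2 / (2 * v)) * M = W := by
    rw [hm]
    field_simp
    ring
  rw [h7]
  ring

/-! ### The polar -/

theorem polar1_le {f : ℝ → ℝ} {x : ℝ} (hx : 0 < f x) (y : ℝ) :
    polar1 f y ≤ Real.exp (-(x * y)) / f x := by
  have hb : BddBelow (range fun x : {x : ℝ // 0 < f x} => Real.exp (-(x.1 * y)) / f x.1) := by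
    refine ⟨0, ?_⟩
    rintro _ ⟨x, rfl⟩
    exact (div_pos (Real.exp_pos _) x.2).le
  exact ciInf_le hb ⟨x, hx⟩

theorem le_polar1 {f : ℝ → ℝ} (hne : ∃ x, 0 < f x) {y a : ℝ}
    (h : ∀ x, 0 < f x → a ≤ Real.exp (-(x * y)) / f x) : a ≤ polar1 f y := by
  obtain ⟨x, hx⟩ := hne
  have : Nonempty {x : ℝ // 0 < f x} := ⟨⟨x, hx⟩⟩
  exact le_ciInf fun x => h x.1 x.2

theorem polar1_nonneg (f : ℝ → ℝ) (y : ℝ) : 0 ≤ polar1 f y :=
  Real.iInf_nonneg fun x => (div_pos (Real.exp_pos _) x.2).le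

theorem polar1_meas (f : ℝ → ℝ) : Measurable (polar1 f) := by
  have h : UpperSemicontinuous fun y => ⨅ x : {x : ℝ // 0 < f x}, Real.exp (-(x.1 * y)) / f x.1 := by
    refine upperSemicontinuous_ciInf ?_ ?_
    · intro y
      refine ⟨0, ?_⟩
      rintro _ ⟨x, rfl⟩
      exact (div_pos (Real.exp_pos _) x.2).le
    · intro x
      refine Continuous.upperSemicontinuous ?_
      fun_prop
  exact h.measurable

end Q94.FP
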