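import Pool.Agent.Q94.FPA

/-!
# Gaussian half-line moments and upper bounds for the polar of the evolution
-/

set_option autoImplicit false

open MeasureTheory Set Filter Topology

namespace Q94.FP

theorem gs_eq (x : ℝ) : gs x = Real.exp (-(1 / 2) * x ^ 2) := by
  unfold gs
  congr 1
  ring

theorem gmom_int (k : ℕ) : IntegrableOn (fun u : ℝ => u ^ k * gs u) (Ioi 0) := by
  have h := integrableOn_rpow_mul_exp_neg_mul_sq (b := 1 / 2) (by norm_num) (s := (k : ℝ))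
    (by have : (0 : ℝ) ≤ k := Nat.cast_nonneg k
        linarith)
  refine h.congr_fun (fun u _ => ?_) measurableSet_Ioi
  beta_reduce
  rw [Real.rpow_natCast, gs_eq]

theorem gmom (k : ℕ) : ∫ u in Ioi (0 : ℝ), u ^ k * gs u
    = (1 / 2 : ℝ) ^ (-((k : ℝ) + 1) / 2) * (1 / 2) * Real.Gamma (((k : ℝ) + 1) / 2) := by
  rw [← integral_rpow_mul_exp_neg_mul_rpow (p := 2) (q := (k : ℝ)) (b := 1 / 2) (by norm_num)
    (by have : (0 : ℝ) ≤ k := Nat.cast_nonneg k
        linarith) (by norm_num)]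
  refine setIntegral_congr_fun measurableSet_Ioi fun u _ => ?_
  beta_reduce
  rw [Real.rpow_natCast, gs_eq, Real.rpow_two]

/-- half of the Gaussian integral -/
noncomputable def hA : ℝ := Real.sqrt (2 * Real.pi) / 2

theorem hA_sq : hA ^ 2 = Real.pi / 2 := by
  unfold hA
  rw [div_pow, Real.sq_sqrt (by have := Real.pi_pos; positivity)]
  ring

theorem hA_pos : 0 < hA := by
  unfold hA
  have := Real.pi_pos
  positivity

theorem gint0 : IntegrableOn gs (Ioi 0) := by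
  have h := gmom_int 0
  simpa using h

theorem gs_integrable : Integrable gs := by
  have h := integrable_exp_neg_mul_sq (b := 1 / 2) (by norm_num)
  exact h.congr (Eventually.of_forall fun x => (gs_eq x).symm)

theorem gmom0 : ∫ u in Ioi (0 : ℝ), gs u = hA := by
  have h := integral_gaussian_Ioi (1 / 2)
  unfold hA
  rw [show (2 * Real.pi) = Real.pi / (1 / 2) by ring, ← h]
  exact setIntegral_congr_fun measurableSet_Ioi fun u _ => gs_eq u

theorem gmom1 : ∫ u in Ioi (0 : ℝ), u * gs u = 1 := by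
  have h := gmom 1
  have h1 : ∫ u in Ioi (0 : ℝ), u ^ 1 * gs u = ∫ u in Ioi (0 : ℝ), u * gs u := by
    simp only [pow_one]
  rw [← h1, h]
  norm_num

theorem rpow_half_neg (n : ℕ) : (1 / 2 : ℝ) ^ (-(n : ℝ)) = 2 ^ n := by
  rw [Real.rpow_neg (by norm_num), Real.rpow_natCast, one_div, inv_pow, inv_inv]

theorem gmom2 : ∫ u in Ioi (0 : ℝ), u ^ 2 * gs u = hA := by
  rw [gmom 2]
  have h1 : (((2 : ℕ) : ℝ) + 1) / 2 = 1 / 2 + 1 := by norm_num
  rw [show -(((2 : ℕ) : ℝ) + 1) / 2 = -(1 / 2) + -((1 : ℕ) : ℝ) by norm_num, h1,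
    Real.Gamma_add_one (by norm_num), Real.Gamma_one_half_eq, Real.rpow_add (by norm_num),
    rpow_half_neg, Real.rpow_neg (by norm_num), ← Real.sqrt_eq_rpow]
  unfold hA
  rw [Real.sqrt_mul (by norm_num), one_div, Real.sqrt_inv, inv_inv]
  ring

theorem gmom3 : ∫ u in Ioi (0 : ℝ), u ^ 3 * gs u = 2 := by
  rw [gmom 3]
  have h1 : (((3 : ℕ) : ℝ) + 1) / 2 = 2 := by norm_num
  rw [show -(((3 : ℕ) : ℝ) + 1) / 2 = -((2 : ℕ) : ℝ) by norm_num, h1, rpow_half_neg]
  rw [show (2 : ℝ) = 1 + 1 by norm_num, Real.Gamma_add_one (by norm_num), Real.Gamma_one]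
  norm_num

/-! ### Upper bounds for the polar of the evolution -/

theorem polar_ev_le {f : ℝ → ℝ} (hf : ∀ x, 0 ≤ f x) (hi : Integrable f)
    (hi1 : Integrable fun x => x * f x) (hi2 : Integrable fun x => x ^ 2 * f x)
    (hW : 0 < ∫ x, f x) {s : ℝ} (h0 : 0 < s) (h1 : s < 1) (μ V : ℝ)
    (hμ : μ = (∫ z, z * f z) / ∫ z, f z) (hV : V = (∫ z, z ^ 2 * f z) / ∫ z, f z) (y : ℝ) :
    polar1 (ev f s) y ≤ Real.exp (-(1 - s ^ 2) * y ^ 2 / 2 - s * μ * y
      + s ^ 2 * (V - μ ^ 2) / (2 * (1 - s ^ 2))) / (kc s * ∫ z, f z) := by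
  have hvp := v_pos h0 h1
  have hc := kc_pos h0 h1
  set x := (1 - s ^ 2) * y + s * μ with hx
  have h2 := ev_ge hf hi hi1 hi2 hW h0 h1 x
  rw [← hμ, ← hV] at h2
  have h3 : 0 < ev f s x := lt_of_lt_of_le (by positivity) h2
  refine (polar1_le h3 y).trans ?_
  rw [div_le_div_iff₀ h3 (by positivity)]
  calc Real.exp (-(x * y)) * (kc s * ∫ z, f z)
      = Real.exp (-(1 - s ^ 2) * y ^ 2 / 2 - s * μ * y
          + s ^ 2 * (V - μ ^ 2) / (2 * (1 - s ^ 2)))
        * (kc s * (∫ z, f z) * Real.exp (-((x ^ 2 - 2 * s * x * μ + s ^ 2 * V)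
          / (2 * (1 - s ^ 2))))) := by
        rw [mul_comm (Real.exp (-(x * y))), mul_comm (Real.exp (-(1 - s ^ 2) * y ^ 2 / 2 - s * μ * y
          + s ^ 2 * (V - μ ^ 2) / (2 * (1 - s ^ 2)))), mul_assoc (kc s * ∫ z, f z), ← Real.exp_add]
        congr 2
        rw [hx]
        field_simp
        ring
    _ ≤ _ := mul_le_mul_of_nonneg_left h2 (Real.exp_pos _).le

end Q94.FP
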