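import Pool.Agent.Q94.FPB

/-!
# The example with barycenter zero
-/

set_option autoImplicit false

open MeasureTheory Set Filter Topology

namespace Q94.FP

/-- half of a Gaussian, starting at `-a` -/
noncomputable def ga (a x : ℝ) : ℝ := (Ioi (-a)).indicator (fun x => gs (x + a)) x

/-- a small far bump -/
noncomputable def bp (L ε x : ℝ) : ℝ := (Icc (-(L + 1)) (-L)).indicator (fun _ => ε) x

/-- the example -/
noncomputable def fA (a L ε x : ℝ) : ℝ := ga a x + bp L ε x

theorem ga_shift (a : ℝ) (p : ℝ → ℝ) (x : ℝ) :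
    p x * ga a x = (Ioi (0 : ℝ)).indicator (fun u => p (u - a) * gs u) (x + a) := by
  unfold ga
  by_cases hx : -a < x
  · rw [indicator_of_mem (show x ∈ Ioi (-a) from hx),
      indicator_of_mem (show x + a ∈ Ioi (0 : ℝ) from by rw [mem_Ioi]; linarith),
      add_sub_cancel_right]
  · rw [indicator_of_notMem (show x ∉ Ioi (-a) from hx),
      indicator_of_notMem (show x + a ∉ Ioi (0 : ℝ) from by rw [mem_Ioi]; linarith), mul_zero]

theorem ga_int (a : ℝ) (p : ℝ → ℝ) (h : IntegrableOn (fun u => p (u - a) * gs u) (Ioi 0)) :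
    Integrable (fun x => p x * ga a x) := by
  have h1 : Integrable ((Ioi (0 : ℝ)).indicator (fun u => p (u - a) * gs u)) :=
    (integrable_indicator_iff measurableSet_Ioi).2 h
  exact (h1.comp_add_right a).congr (Eventually.of_forall fun x => (ga_shift a p x).symm)

theorem ga_integral (a : ℝ) (p : ℝ → ℝ) :
    ∫ x, p x * ga a x = ∫ u in Ioi (0 : ℝ), p (u - a) * gs u := by
  rw [integral_congr_ae (Eventually.of_forall (ga_shift a p)),
    integral_add_right_eq_self (fun y => (Ioi (0 : ℝ)).indicator (fun u => p (u - a) * gs u) y) a,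
    integral_indicator measurableSet_Ioi]

theorem ga0i (a : ℝ) : Integrable (ga a) := by
  have h := ga_int a (fun _ => 1) (by simpa using gint0)
  simpa using h

theorem ga0 (a : ℝ) : ∫ x, ga a x = hA := by
  have h := ga_integral a (fun _ => 1)
  simp only [one_mul] at h
  rw [h, gmom0]

theorem g1i : IntegrableOn (fun u : ℝ => u * gs u) (Ioi 0) := by
  have h := gmom_int 1
  simpa using h

theorem ga1i (a : ℝ) : Integrable fun x => x * ga a x := by
  refine ga_int a (fun x => x) ?_
  have h := g1i.sub (gint0.const_mul a)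
  refine h.congr_fun (fun u _ => ?_) measurableSet_Ioi
  simp only [Pi.sub_apply]
  ring

theorem ga1 (a : ℝ) : ∫ x, x * ga a x = 1 - a * hA := by
  rw [ga_integral a (fun x => x)]
  rw [← gmom1, ← gmom0, ← integral_const_mul, ← integral_sub g1i (gint0.const_mul a)]
  refine setIntegral_congr_fun measurableSet_Ioi fun u _ => ?_
  ring

theorem ga2i (a : ℝ) : Integrable fun x => x ^ 2 * ga a x := by
  refine ga_int a (fun x => x ^ 2) ?_
  have h := ((gmom_int 2).sub (g1i.const_mul (2 * a))).add (gint0.const_mul (a ^ 2))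
  refine h.congr_fun (fun u _ => ?_) measurableSet_Ioi
  simp only [Pi.sub_apply, Pi.add_apply]
  ring

theorem ga2 (a : ℝ) : ∫ x, x ^ 2 * ga a x = hA - 2 * a + a ^ 2 * hA := by
  rw [ga_integral a (fun x => x ^ 2)]
  have h : ∫ u in Ioi (0 : ℝ), (u - a) ^ 2 * gs u
      = ∫ u in Ioi (0 : ℝ), ((1 * (u ^ 2 * gs u) + (-(2 * a)) * (u * gs u)) - (-a ^ 2) * gs u) := by
    refine setIntegral_congr_fun measurableSet_Ioi fun u _ => ?_
    ring
  have i1 : IntegrableOn (fun u : ℝ => 1 * (u ^ 2 * gs u) + (-(2 * a)) * (u * gs u)) (Ioi 0) :=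
    ((gmom_int 2).const_mul 1).add (g1i.const_mul _)
  rw [h, integral_sub i1 (gint0.const_mul _),
    integral_add ((gmom_int 2).const_mul 1) (g1i.const_mul _), integral_const_mul,
    integral_const_mul, integral_const_mul, gmom0, gmom1, gmom2]
  ring

/-! ### The bump -/

theorem bp_mul (L ε : ℝ) (p : ℝ → ℝ) (x : ℝ) :
    p x * bp L ε x = (Icc (-(L + 1)) (-L)).indicator (fun x => p x * ε) x := by
  unfold bp
  by_cases hx : x ∈ Icc (-(L + 1)) (-L)
  · rw [indicator_of_mem hx, indicator_of_mem hx]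
  · rw [indicator_of_notMem hx, indicator_of_notMem hx, mul_zero]

theorem bp_int (L ε : ℝ) (p : ℝ → ℝ) (hp : Continuous p) : Integrable (fun x => p x * bp L ε x) := by
  refine Integrable.congr ?_ (Eventually.of_forall fun x => (bp_mul L ε p x).symm)
  exact (integrable_indicator_iff measurableSet_Icc).2
    ((hp.mul continuous_const).integrableOn_Icc)

theorem bp_integral (L ε : ℝ) (p : ℝ → ℝ) :
    ∫ x, p x * bp L ε x = (∫ x in (-(L + 1))..(-L), p x) * ε := by
  rw [integral_congr_ae (Eventually.of_forall (bp_mul L ε p)), integral_indicator measurableSet_Icc,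
    integral_Icc_eq_integral_Ioc, ← intervalIntegral.integral_of_le (by linarith),
    intervalIntegral.integral_mul_const]

theorem bp0i (L ε : ℝ) : Integrable (bp L ε) := by
  have h := bp_int L ε (fun _ => 1) continuous_const
  simpa using h

theorem bp0 (L ε : ℝ) : ∫ x, bp L ε x = ε := by
  have h := bp_integral L ε (fun _ => 1)
  simp only [one_mul] at h
  rw [h]
  simp

theorem bp1 (L ε : ℝ) : ∫ x, x * bp L ε x = -(ε * (L + 1 / 2)) := by
  rw [bp_integral L ε (fun x => x), integral_id]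
  ring

theorem bp2 (L ε : ℝ) (hL : 0 ≤ L) (hε : 0 ≤ ε) :
    ∫ x, x ^ 2 * bp L ε x ≤ ε * (L + 1) ^ 2 := by
  rw [bp_integral L ε (fun x => x ^ 2), integral_pow]
  push_cast
  have : ((-L) ^ (2 + 1) - (-(L + 1)) ^ (2 + 1)) / (2 + 1) ≤ (L + 1) ^ 2 := by
    rw [div_le_iff₀ (by norm_num)]
    have e : (-L) ^ (2 + 1) - (-(L + 1)) ^ (2 + 1) = 3 * L ^ 2 + 3 * L + 1 := by ring
    rw [e]
    nlinarith [mul_nonneg hL hL]
  nlinarith

theorem bp_nonneg {L ε : ℝ} (hε : 0 ≤ ε) (x : ℝ) : 0 ≤ bp L ε x :=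
  indicator_nonneg (fun _ _ => hε) x

theorem ga_nonneg (a x : ℝ) : 0 ≤ ga a x :=
  indicator_nonneg (fun _ _ => (gs_pos _).le) x

theorem gs_le_one (x : ℝ) : gs x ≤ 1 := by
  unfold gs
  rw [Real.exp_le_one_iff]
  nlinarith [sq_nonneg x]

theorem ga_le (a x : ℝ) : ga a x ≤ gs (x + a) := by
  unfold ga
  by_cases hx : x ∈ Ioi (-a)
  · rw [indicator_of_mem hx]
  · rw [indicator_of_notMem hx]
    exact (gs_pos _).le

theorem ga_meas (a : ℝ) : Measurable (ga a) := by
  refine Measurable.indicator ?_ measurableSet_Ioi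
  unfold gs
  fun_prop

theorem bp_meas (L ε : ℝ) : Measurable (bp L ε) :=
  Measurable.indicator measurable_const measurableSet_Icc

theorem fA_meas (a L ε : ℝ) : Measurable (fA a L ε) := (ga_meas a).add (bp_meas L ε)

theorem fA_nonneg {a L ε : ℝ} (hε : 0 ≤ ε) (x : ℝ) : 0 ≤ fA a L ε x :=
  add_nonneg (ga_nonneg a x) (bp_nonneg hε x)

theorem fA0i (a L ε : ℝ) : Integrable (fA a L ε) := (ga0i a).add (bp0i L ε)

theorem fA0 (a L ε : ℝ) : ∫ x, fA a L ε x = hA + ε := by
  unfold fA
  rw [integral_add (ga0i a) (bp0i L ε), ga0, bp0]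

theorem fA1i (a L ε : ℝ) : Integrable fun x => x * fA a L ε x := by
  have h := (ga1i a).add (bp_int L ε (fun x => x) continuous_id)
  refine h.congr (Eventually.of_forall fun x => ?_)
  simp only [fA, Pi.add_apply]
  ring

theorem fA1 (a L ε : ℝ) : ∫ x, x * fA a L ε x = 1 - a * hA - ε * (L + 1 / 2) := by
  have h : ∫ x, x * fA a L ε x = ∫ x, (x * ga a x + x * bp L ε x) := by
    refine integral_congr_ae (Eventually.of_forall fun x => ?_)
    simp only [fA]
    ring
  rw [h, integral_add (ga1i a) (bp_int L ε (fun x => x) continuous_id), ga1, bp1]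
  ring

theorem fA2i (a L ε : ℝ) : Integrable fun x => x ^ 2 * fA a L ε x := by
  have h := (ga2i a).add (bp_int L ε (fun x => x ^ 2) (by fun_prop))
  refine h.congr (Eventually.of_forall fun x => ?_)
  simp only [fA, Pi.add_apply]
  ring

theorem fA2 (a L ε : ℝ) (hL : 0 ≤ L) (hε : 0 ≤ ε) :
    ∫ x, x ^ 2 * fA a L ε x ≤ hA - 2 * a + a ^ 2 * hA + ε * (L + 1) ^ 2 := by
  have h : ∫ x, x ^ 2 * fA a L ε x = ∫ x, (x ^ 2 * ga a x + x ^ 2 * bp L ε x) := by
    refine integral_congr_ae (Eventually.of_forall fun x => ?_)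
    simp only [fA]
    ring
  rw [h, integral_add (ga2i a) (bp_int L ε (fun x => x ^ 2) (by fun_prop)), ga2]
  have := bp2 L ε hL hε
  linarith

/-! ### The polar of the example at time zero -/

theorem fA_right {a L ε x : ℝ} (haL : a ≤ L) (hx : -a < x) : fA a L ε x = gs (x + a) := by
  unfold fA ga bp
  rw [indicator_of_mem (show x ∈ Ioi (-a) from hx), indicator_of_notMem, add_zero]
  intro h
  rw [mem_Icc] at h
  linarith [h.2]

theorem fA_left {a L ε x : ℝ} (hx : x ≤ -a) : fA a L ε x = bp L ε x := by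
  unfold fA ga
  rw [indicator_of_notMem (show x ∉ Ioi (-a) from not_lt.2 hx), zero_add]

theorem fA_bump {a L ε x : ℝ} (haL : a ≤ L) (h1 : -(L + 1) ≤ x) (h2 : x ≤ -L) :
    fA a L ε x = ε := by
  rw [fA_left (by linarith)]
  unfold bp
  rw [indicator_of_mem (show x ∈ Icc (-(L + 1)) (-L) from ⟨h1, h2⟩)]

theorem fA_polar_ge {a L ε : ℝ} (haL : a ≤ L) (hε : 0 < ε) (hε1 : ε ≤ 1)
    {y : ℝ} (hy : 0 ≤ y) : Real.exp (a * y) * gs y ≤ polar1 (fA a L ε) y := by
  have e : Real.exp (a * y) * gs y = Real.exp (a * y - y ^ 2 / 2) := by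
    unfold gs
    rw [← Real.exp_add]
    congr 1
    ring
  rw [e]
  refine le_polar1 ⟨-a + 1, ?_⟩ ?_
  · rw [fA_right haL (by linarith)]
    exact gs_pos _
  · intro x hx
    by_cases hxa : -a < x
    · rw [fA_right haL hxa]
      unfold gs
      rw [← Real.exp_sub, Real.exp_le_exp]
      nlinarith [sq_nonneg (x + a - y)]
    · rw [fA_left (not_lt.1 hxa)] at hx
      have hmem : x ∈ Icc (-(L + 1)) (-L) := by
        by_contra hc
        unfold bp at hx
        rw [indicator_of_notMem hc] at hx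
        exact lt_irrefl _ hx
      rw [fA_bump haL hmem.1 hmem.2, le_div_iff₀ hε]
      have h1 : Real.exp (a * y - y ^ 2 / 2) ≤ Real.exp (-(x * y)) := by
        rw [Real.exp_le_exp]
        have h2 : a * y ≤ -x * y := mul_le_mul_of_nonneg_right (by linarith [hmem.2]) hy
        nlinarith [sq_nonneg y]
      have h3 := Real.exp_pos (a * y - y ^ 2 / 2)
      nlinarith

theorem fA_polar_le_right {a L ε : ℝ} (haL : a ≤ L) {y : ℝ} (hy : 0 < y) :
    polar1 (fA a L ε) y ≤ Real.exp (a * y) * gs y := by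
  have h : fA a L ε (y - a) = gs y := by
    rw [fA_right haL (by linarith)]
    congr 1
    ring
  have h1 : 0 < fA a L ε (y - a) := by rw [h]; exact gs_pos _
  refine (polar1_le h1 y).trans (le_of_eq ?_)
  rw [h]
  unfold gs
  rw [← Real.exp_sub, ← Real.exp_add]
  congr 1
  ring

theorem fA_polar_le_left {a L ε : ℝ} (haL : a ≤ L) (hε : 0 < ε) (y : ℝ) :
    polar1 (fA a L ε) y ≤ Real.exp (L * y) / ε := by
  have h : fA a L ε (-L) = ε := fA_bump haL (by linarith) le_rfl
  have h1 : 0 < fA a L ε (-L) := by rw [h]; exact hε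
  refine (polar1_le h1 y).trans (le_of_eq ?_)
  rw [h]
  congr 2
  ring

theorem exp_gs_int (a : ℝ) : Integrable fun y => Real.exp (a * y) * gs y := by
  have h : ∀ y, Real.exp (a * y) * gs y = Real.exp (a ^ 2 / 2) * gs (y - a) := by
    intro y
    unfold gs
    rw [← Real.exp_add, ← Real.exp_add]
    congr 1
    ring
  refine Integrable.congr ?_ (Eventually.of_forall fun y => (h y).symm)
  exact (gs_integrable.comp_sub_right a).const_mul _

theorem fA_polar_int {a L ε : ℝ} (hL : 0 < L) (haL : a ≤ L) (hε : 0 < ε) :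
    Integrable (polar1 (fA a L ε)) := by
  rw [← integrableOn_univ, ← Iic_union_Ioi (a := (0 : ℝ))]
  refine IntegrableOn.union ?_ ?_
  · have h1 : IntegrableOn (fun y => Real.exp (L * y) / ε) (Iic 0) :=
      (integrableOn_exp_mul_Iic hL 0).div_const ε
    refine Integrable.mono' h1 (polar1_meas _).aestronglyMeasurable ?_
    refine Eventually.of_forall fun y => ?_
    rw [Real.norm_eq_abs, abs_of_nonneg (polar1_nonneg _ _)]
    exact fA_polar_le_left haL hε y
  · have h1 : IntegrableOn (fun y => Real.exp (a * y) * gs y) (Ioi 0) :=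
      (exp_gs_int a).integrableOn
    refine Integrable.mono' h1 (polar1_meas _).aestronglyMeasurable ?_
    refine (ae_restrict_mem measurableSet_Ioi).mono fun y hy => ?_
    rw [Real.norm_eq_abs, abs_of_nonneg (polar1_nonneg _ _)]
    exact fA_polar_le_right haL hy

theorem fA_P0 {a L ε : ℝ} (ha : 0 ≤ a) (hL : 0 < L) (haL : a ≤ L) (hε : 0 < ε) (hε1 : ε ≤ 1) :
    hA + a + a ^ 2 * hA / 2 + a ^ 3 / 3 ≤ ∫ y, polar1 (fA a L ε) y := by
  have h1 : ∫ y in Ioi (0 : ℝ), Real.exp (a * y) * gs y ≤ ∫ y, polar1 (fA a L ε) y := by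
    calc ∫ y in Ioi (0 : ℝ), Real.exp (a * y) * gs y
        ≤ ∫ y in Ioi (0 : ℝ), polar1 (fA a L ε) y := by
          refine setIntegral_mono_on (exp_gs_int a).integrableOn
            (fA_polar_int hL haL hε).integrableOn measurableSet_Ioi fun y hy => ?_
          exact fA_polar_ge haL hε hε1 (le_of_lt hy)
      _ ≤ ∫ y, polar1 (fA a L ε) y := by
          refine setIntegral_le_integral (fA_polar_int hL haL hε) ?_
          exact Eventually.of_forall fun y => polar1_nonneg _ _
  refine le_trans ?_ h1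
  have h2 : ∀ y ∈ Ioi (0 : ℝ), ((1 * gs y + a * (y * gs y)) - (-(a ^ 2 / 2)) * (y ^ 2 * gs y))
      + (a ^ 3 / 6) * (y ^ 3 * gs y) ≤ Real.exp (a * y) * gs y := by
    intro y hy
    have h3 := Real.sum_le_exp_of_nonneg (mul_nonneg ha (le_of_lt hy)) 4
    simp only [Finset.sum_range_succ, Finset.sum_range_zero, Nat.factorial] at h3
    norm_num at h3
    have h4 := gs_pos y
    have h5 : (1 + a * y + (a * y) ^ 2 / 2 + (a * y) ^ 3 / 6) * gs y ≤ Real.exp (a * y) * gs y :=
      mul_le_mul_of_nonneg_right h3 h4.le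
    refine le_trans (le_of_eq ?_) h5
    ring
  have i1 : IntegrableOn (fun y => (1 * gs y + a * (y * gs y))) (Ioi 0) :=
    (gint0.const_mul 1).add (g1i.const_mul a)
  have i2 : IntegrableOn (fun y => ((1 * gs y + a * (y * gs y))
      - (-(a ^ 2 / 2)) * (y ^ 2 * gs y))) (Ioi 0) := i1.sub ((gmom_int 2).const_mul _)
  have i3 : IntegrableOn (fun y => ((1 * gs y + a * (y * gs y))
      - (-(a ^ 2 / 2)) * (y ^ 2 * gs y)) + (a ^ 3 / 6) * (y ^ 3 * gs y)) (Ioi 0) :=
    i2.add ((gmom_int 3).const_mul _)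
  have h6 := setIntegral_mono_on i3 (exp_gs_int a).integrableOn measurableSet_Ioi h2
  refine le_trans (le_of_eq ?_) h6
  rw [integral_add i2 ((gmom_int 3).const_mul _), integral_sub i1 ((gmom_int 2).const_mul _),
    integral_add (gint0.const_mul 1) (g1i.const_mul a), integral_const_mul, integral_const_mul,
    integral_const_mul, integral_const_mul, gmom0, gmom1, gmom2, gmom3]
  ring

end Q94.FP
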