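import Pool.Agent.Q94.FPC

/-!
# The example with barycenter zero: upper bound at a later time
-/

set_option autoImplicit false

open MeasureTheory Set Filter Topology

namespace Q94.FP

theorem gauss_scale_int {v : ℝ} (hv : 0 < v) (c : ℝ) :
    Integrable fun y : ℝ => Real.exp (-v * (y + c) ^ 2 / 2) := by
  have h := (integrable_exp_neg_mul_sq (b := v / 2) (by positivity)).comp_add_right c
  refine h.congr (Eventually.of_forall fun y => ?_)
  beta_reduce
  congr 1
  ring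

theorem gauss_scale {v : ℝ} (c : ℝ) :
    ∫ y : ℝ, Real.exp (-v * (y + c) ^ 2 / 2) = Real.sqrt (2 * Real.pi / v) := by
  rw [integral_add_right_eq_self (fun y => Real.exp (-v * y ^ 2 / 2)) c]
  have h := integral_gaussian (v / 2)
  rw [show 2 * Real.pi / v = Real.pi / (v / 2) by field_simp, ← h]
  refine integral_congr_ae (Eventually.of_forall fun y => ?_)
  beta_reduce
  congr 1
  ring

theorem gauss_scale_half {v : ℝ} :
    ∫ y in Ioi (0 : ℝ), Real.exp (-v * y ^ 2 / 2) = Real.sqrt (2 * Real.pi / v) / 2 := by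
  have h := integral_gaussian_Ioi (v / 2)
  rw [show 2 * Real.pi / v = Real.pi / (v / 2) by field_simp, ← h]
  refine setIntegral_congr_fun measurableSet_Ioi fun y _ => ?_
  congr 1
  ring

section General

variable {f : ℝ → ℝ} (hf : ∀ x, 0 ≤ f x) (hi : Integrable f)
    (hi1 : Integrable fun x => x * f x) (hi2 : Integrable fun x => x ^ 2 * f x)
    (hW : 0 < ∫ x, f x) {s : ℝ} (h0 : 0 < s) (h1 : s < 1)

include hf hi hi1 hi2 hW h0 h1

theorem polar_ev_le' (μ V : ℝ)
    (hμ : μ = (∫ z, z * f z) / ∫ z, f z) (hV : V = (∫ z, z ^ 2 * f z) / ∫ z, f z) (y : ℝ) :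
    polar1 (ev f s) y ≤ (Real.exp (s ^ 2 * V / (2 * (1 - s ^ 2))) / (kc s * ∫ z, f z))
      * Real.exp (-(1 - s ^ 2) * (y + s * μ / (1 - s ^ 2)) ^ 2 / 2) := by
  refine (polar_ev_le hf hi hi1 hi2 hW h0 h1 μ V hμ hV y).trans (le_of_eq ?_)
  have hvp := v_pos h0 h1
  rw [div_mul_eq_mul_div, ← Real.exp_add]
  congr 2
  field_simp
  ring

theorem polar_ev_int : Integrable (polar1 (ev f s)) := by
  have hvp := v_pos h0 h1
  have hc := kc_pos h0 h1
  refine Integrable.mono' ((gauss_scale_int hvp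
    (s * ((∫ z, z * f z) / ∫ z, f z) / (1 - s ^ 2))).const_mul
      (Real.exp (s ^ 2 * ((∫ z, z ^ 2 * f z) / ∫ z, f z) / (2 * (1 - s ^ 2)))
        / (kc s * ∫ z, f z))) (polar1_meas _).aestronglyMeasurable ?_
  refine Eventually.of_forall fun y => ?_
  rw [Real.norm_eq_abs, abs_of_nonneg (polar1_nonneg _ _)]
  exact polar_ev_le' hf hi hi1 hi2 hW h0 h1 _ _ rfl rfl y

/-- The upper bound for the volume product. -/
theorem prod_ev_le (V : ℝ) (hV : V = (∫ z, z ^ 2 * f z) / ∫ z, f z) :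
    (∫ z, f z) * ∫ y, polar1 (ev f s) y
      ≤ 2 * Real.pi * Real.exp (s ^ 2 * V / (2 * (1 - s ^ 2))) := by
  have hvp := v_pos h0 h1
  have hc := kc_pos h0 h1
  set μ := (∫ z, z * f z) / ∫ z, f z with hμ
  have h2 : ∫ y, polar1 (ev f s) y ≤ ∫ y, (Real.exp (s ^ 2 * V / (2 * (1 - s ^ 2)))
      / (kc s * ∫ z, f z)) * Real.exp (-(1 - s ^ 2) * (y + s * μ / (1 - s ^ 2)) ^ 2 / 2) :=
    integral_mono (polar_ev_int hf hi hi1 hi2 hW h0 h1) ((gauss_scale_int hvp _).const_mul _)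
      fun y => polar_ev_le' hf hi hi1 hi2 hW h0 h1 μ V hμ hV y
  rw [integral_const_mul, gauss_scale] at h2
  have h3 : Real.sqrt (2 * Real.pi / (1 - s ^ 2)) = 2 * Real.pi * kc s := by
    unfold kc
    rw [← div_eq_mul_inv]
    rw [eq_div_iff (by have := Real.pi_pos; positivity), ← Real.sqrt_mul (by
      have := Real.pi_pos; positivity)]
    rw [show 2 * Real.pi / (1 - s ^ 2) * (2 * Real.pi * (1 - s ^ 2)) = (2 * Real.pi) ^ 2 by
      field_simp]
    exact Real.sqrt_sq (by have := Real.pi_pos; positivity)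
  rw [h3] at h2
  calc (∫ z, f z) * ∫ y, polar1 (ev f s) y
      ≤ (∫ z, f z) * (Real.exp (s ^ 2 * V / (2 * (1 - s ^ 2))) / (kc s * ∫ z, f z)
        * (2 * Real.pi * kc s)) := mul_le_mul_of_nonneg_left h2 hW.le
    _ = _ := by field_simp

/-- Half-line bound for centred functions. -/
theorem half_ev_le (V : ℝ) (hμ : ∫ z, z * f z = 0)
    (hV : V = (∫ z, z ^ 2 * f z) / ∫ z, f z) :
    (∫ z, f z) * ∫ y in Ioi (0 : ℝ), polar1 (ev f s) y
      ≤ Real.pi * Real.exp (s ^ 2 * V / (2 * (1 - s ^ 2))) := by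
  have hvp := v_pos h0 h1
  have hc := kc_pos h0 h1
  have h2 : ∫ y in Ioi (0 : ℝ), polar1 (ev f s) y ≤ ∫ y in Ioi (0 : ℝ),
      (Real.exp (s ^ 2 * V / (2 * (1 - s ^ 2)))
      / (kc s * ∫ z, f z)) * Real.exp (-(1 - s ^ 2) * y ^ 2 / 2) := by
    refine setIntegral_mono (polar_ev_int hf hi hi1 hi2 hW h0 h1).integrableOn ?_ fun y => ?_
    · have := (gauss_scale_int hvp 0).const_mul (Real.exp (s ^ 2 * V / (2 * (1 - s ^ 2)))
        / (kc s * ∫ z, f z))
      simp only [add_zero] at this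
      exact this.integrableOn
    · have := polar_ev_le' hf hi hi1 hi2 hW h0 h1 0 V (by rw [hμ, zero_div]) hV y
      simpa using this
  rw [integral_const_mul, gauss_scale_half] at h2
  have h3 : Real.sqrt (2 * Real.pi / (1 - s ^ 2)) = 2 * Real.pi * kc s := by
    unfold kc
    rw [← div_eq_mul_inv]
    rw [eq_div_iff (by have := Real.pi_pos; positivity), ← Real.sqrt_mul (by
      have := Real.pi_pos; positivity)]
    rw [show 2 * Real.pi / (1 - s ^ 2) * (2 * Real.pi * (1 - s ^ 2)) = (2 * Real.pi) ^ 2 by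
      field_simp]
    exact Real.sqrt_sq (by have := Real.pi_pos; positivity)
  rw [h3] at h2
  calc (∫ z, f z) * ∫ y in Ioi (0 : ℝ), polar1 (ev f s) y
      ≤ (∫ z, f z) * (Real.exp (s ^ 2 * V / (2 * (1 - s ^ 2))) / (kc s * ∫ z, f z)
        * (2 * Real.pi * kc s / 2)) := mul_le_mul_of_nonneg_left h2 hW.le
    _ = _ := by field_simp

/-- Pointwise bound for centred functions. -/
theorem polar_ev_le_const (V : ℝ) (hμ : ∫ z, z * f z = 0)
    (hV : V = (∫ z, z ^ 2 * f z) / ∫ z, f z) (y : ℝ) :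
    polar1 (ev f s) y ≤ Real.exp (s ^ 2 * V / (2 * (1 - s ^ 2))) / (kc s * ∫ z, f z) := by
  have hvp := v_pos h0 h1
  have hc := kc_pos h0 h1
  have h := polar_ev_le' hf hi hi1 hi2 hW h0 h1 0 V (by rw [hμ, zero_div]) hV y
  refine h.trans ?_
  have h2 : Real.exp (-(1 - s ^ 2) * (y + s * 0 / (1 - s ^ 2)) ^ 2 / 2) ≤ 1 := by
    rw [Real.exp_le_one_iff]
    have := mul_nonneg hvp.le (sq_nonneg (y + s * 0 / (1 - s ^ 2)))
    linarith
  have h3 : 0 ≤ Real.exp (s ^ 2 * V / (2 * (1 - s ^ 2))) / (kc s * ∫ z, f z) := by positivity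
  nlinarith

end General

/-- The effect of the bump. -/
theorem polar_bump {a L ε : ℝ} (haL : a ≤ L) (hε : 0 < ε) {s : ℝ} (h0 : 0 < s) (h1 : s < 1)
    {y : ℝ} (hy : y ≤ 0) : polar1 (ev (fA a L ε) s) y
      ≤ (Real.exp (s ^ 2 / (2 * (1 - s ^ 2))) / (ε * kc s)) * Real.exp (s * L * y) := by
  have hvp := v_pos h0 h1
  have hc := kc_pos h0 h1
  set v := 1 - s ^ 2 with hv
  set x := v * y - s * L with hx
  have hker : ∀ z ∈ Icc (-(L + 1)) (-L),
      kc s * Real.exp (-(s ^ 2 + v ^ 2 * y ^ 2) / (2 * v)) ≤ ker s x z := by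
    intro z hz
    rw [ker_eq]
    refine mul_le_mul_of_nonneg_left ?_ hc.le
    rw [Real.exp_le_exp]
    refine div_le_div_of_nonneg_right ?_ (by positivity)
    have h2 : x - s * z = v * y + s * (-L - z) := by rw [hx]; ring
    have h3 : v * y ≤ 0 := mul_nonpos_of_nonneg_of_nonpos hvp.le hy
    have h4 : 0 ≤ -L - z := by linarith [hz.2]
    have h5 : -L - z ≤ 1 := by linarith [hz.1]
    have h6 : 0 ≤ s * (-L - z) := mul_nonneg h0.le h4
    have h7 : s * (-L - z) ≤ s := by nlinarith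
    rw [h2]
    nlinarith [mul_nonneg h6 (neg_nonneg.2 h3)]
  have hge : ε * (kc s * Real.exp (-(s ^ 2 + v ^ 2 * y ^ 2) / (2 * v))) ≤ ev (fA a L ε) s x := by
    set q := kc s * Real.exp (-(s ^ 2 + v ^ 2 * y ^ 2) / (2 * v)) with hq
    calc ε * q = ∫ z, bp L ε z * q := by
          rw [integral_mul_const, bp0]
      _ ≤ ∫ z, fA a L ε z * ker s x z := by
          refine integral_mono ((bp0i L ε).mul_const q) (int_ker (fA0i a L ε) h0 h1 x) fun z => ?_
          beta_reduce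
          by_cases hz : z ∈ Icc (-(L + 1)) (-L)
          · rw [fA_bump haL hz.1 hz.2]
            unfold bp
            rw [indicator_of_mem hz]
            exact mul_le_mul_of_nonneg_left (hker z hz) hε.le
          · have : bp L ε z = 0 := by
              unfold bp
              rw [indicator_of_notMem hz]
            rw [this, zero_mul]
            exact mul_nonneg (fA_nonneg hε.le z) (ker_pos h0 h1 x z).le
      _ = _ := rfl
  have hpos : 0 < ev (fA a L ε) s x := lt_of_lt_of_le (by positivity) hge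
  refine (polar1_le hpos y).trans ?_
  calc Real.exp (-(x * y)) / ev (fA a L ε) s x
      ≤ Real.exp (-(x * y)) / (ε * (kc s * Real.exp (-(s ^ 2 + v ^ 2 * y ^ 2) / (2 * v)))) :=
        div_le_div_of_nonneg_left (Real.exp_pos _).le (by positivity) hge
    _ = Real.exp (-(x * y) + (s ^ 2 + v ^ 2 * y ^ 2) / (2 * v)) / (ε * kc s) := by
        rw [Real.exp_add, neg_div, Real.exp_neg ((s ^ 2 + v ^ 2 * y ^ 2) / (2 * v))]
        field_simp
    _ ≤ Real.exp (s ^ 2 / (2 * v) + s * L * y) / (ε * kc s) := by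
        refine div_le_div_of_nonneg_right ?_ (by positivity)
        rw [Real.exp_le_exp]
        have : -(x * y) + (s ^ 2 + v ^ 2 * y ^ 2) / (2 * v)
            = s ^ 2 / (2 * v) + s * L * y - v * y ^ 2 / 2 := by
          rw [hx]
          field_simp
          ring
        rw [this]
        nlinarith [mul_nonneg hvp.le (sq_nonneg y)]
    _ = _ := by
        rw [Real.exp_add]
        ring

theorem prod_late_le {a L ε : ℝ} (hL : 0 < L) (haL : a ≤ L) (hε : 0 < ε)
    (hcent : a * hA = 1 - ε * (L + 1 / 2)) {s : ℝ} (h0 : 0 < s) (h1 : s < 1) {δ : ℝ}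
    (hδ : 0 ≤ δ) (V : ℝ) (hV : V = (∫ z, z ^ 2 * fA a L ε z) / ∫ z, fA a L ε z) :
    (∫ z, fA a L ε z) * ∫ y, polar1 (ev (fA a L ε) s) y
      ≤ Real.pi * Real.exp (s ^ 2 * V / (2 * (1 - s ^ 2)))
        + δ * Real.exp (s ^ 2 * V / (2 * (1 - s ^ 2))) / kc s
        + (hA + ε) * (Real.exp (s ^ 2 / (2 * (1 - s ^ 2))) / (ε * kc s))
          * (Real.exp (s * L * (-δ)) / (s * L)) := by
  have hc := kc_pos h0 h1
  have hf := fun x => fA_nonneg (a := a) (L := L) hε.le x
  have hW : 0 < ∫ x, fA a L ε x := by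
    rw [fA0]
    have := hA_pos
    positivity
  have hμ : ∫ z, z * fA a L ε z = 0 := by
    rw [fA1, hcent]
    ring
  have hint := polar_ev_int hf (fA0i a L ε) (fA1i a L ε) (fA2i a L ε) hW h0 h1
  have e1 : ∫ y, polar1 (ev (fA a L ε) s) y
      = ((∫ y in Iic (-δ), polar1 (ev (fA a L ε) s) y)
        + ∫ y in Ioc (-δ) 0, polar1 (ev (fA a L ε) s) y)
        + ∫ y in Ioi (0 : ℝ), polar1 (ev (fA a L ε) s) y := by
    rw [← setIntegral_union (Iic_disjoint_Ioc le_rfl) measurableSet_Ioc hint.integrableOn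
      hint.integrableOn, Iic_union_Ioc_eq_Iic (by linarith)]
    rw [← integral_add_compl (measurableSet_Iic (a := (0 : ℝ))) hint, compl_Iic]
  have b1 : ∫ y in Iic (-δ), polar1 (ev (fA a L ε) s) y
      ≤ (Real.exp (s ^ 2 / (2 * (1 - s ^ 2))) / (ε * kc s))
          * (Real.exp (s * L * (-δ)) / (s * L)) := by
    rw [← integral_exp_mul_Iic (mul_pos h0 hL), ← integral_const_mul]
    refine setIntegral_mono_on hint.integrableOn
      ((integrableOn_exp_mul_Iic (mul_pos h0 hL) _).const_mul _) measurableSet_Iic fun y hy => ?_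
    exact polar_bump haL hε h0 h1 (le_trans hy (by linarith))
  have b2 : ∫ y in Ioc (-δ) 0, polar1 (ev (fA a L ε) s) y
      ≤ δ * (Real.exp (s ^ 2 * V / (2 * (1 - s ^ 2))) / (kc s * ∫ z, fA a L ε z)) := by
    have h2 : ∫ y in Ioc (-δ) 0, polar1 (ev (fA a L ε) s) y ≤ ∫ _y in Ioc (-δ) (0 : ℝ),
        (Real.exp (s ^ 2 * V / (2 * (1 - s ^ 2))) / (kc s * ∫ z, fA a L ε z)) := by
      refine setIntegral_mono_on hint.integrableOn ?_ measurableSet_Ioc fun y _ => ?_
      · exact integrableOn_const (by simp)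
      · exact polar_ev_le_const hf (fA0i a L ε) (fA1i a L ε) (fA2i a L ε) hW h0 h1 V hμ hV y
    refine h2.trans (le_of_eq ?_)
    rw [setIntegral_const, smul_eq_mul]
    simp [Measure.real, hδ]
  have b3 := half_ev_le hf (fA0i a L ε) (fA1i a L ε) (fA2i a L ε) hW h0 h1 V hμ hV
  rw [e1, mul_add, mul_add]
  have c1 := mul_le_mul_of_nonneg_left b1 hW.le
  have c2 := mul_le_mul_of_nonneg_left b2 hW.le
  have e2 : (∫ z, fA a L ε z) * (δ * (Real.exp (s ^ 2 * V / (2 * (1 - s ^ 2)))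
      / (kc s * ∫ z, fA a L ε z))) = δ * Real.exp (s ^ 2 * V / (2 * (1 - s ^ 2))) / kc s := by
    field_simp
  rw [e2] at c2
  rw [fA0] at c1 ⊢
  rw [fA0] at c2 b3
  linarith

end Q94.FP
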