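import Pool.Agent.Q94.FPD

/-!
# The example with barycenter zero: choice of the parameters
-/

set_option autoImplicit false

open MeasureTheory Set Filter Topology

namespace Q94.FP

theorem exists_L : ∃ L : ℝ, 10 ≤ L ∧ L ^ 2 * Real.exp (-(L / 2000)) ≤ 1 / 10000 := by
  have h := (Real.tendsto_pow_mul_exp_neg_atTop_nhds_zero 2).comp
    (tendsto_id.atTop_div_const (show (0 : ℝ) < 2000 by norm_num))
  have h2 : ∀ᶠ L : ℝ in atTop, (L / 2000) ^ 2 * Real.exp (-(L / 2000)) < 1 / 40000000000 := by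
    have := h.eventually (gt_mem_nhds (show (0 : ℝ) < 1 / 40000000000 by norm_num))
    exact this
  obtain ⟨L, hL, hL2⟩ := (h2.and (eventually_ge_atTop 10)).exists
  refine ⟨L, hL2, ?_⟩
  have : L ^ 2 * Real.exp (-(L / 2000)) = 4000000 * ((L / 2000) ^ 2 * Real.exp (-(L / 2000))) := by
    ring
  rw [this]
  linarith

theorem hA_lb : (1253 / 1000 : ℝ) < hA := by
  have h1 := hA_sq
  have h2 := Real.pi_gt_d4
  have h3 := hA_pos
  by_contra hc
  rw [not_lt] at hc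
  nlinarith

theorem hA_ub : hA < 1254 / 1000 := by
  have h1 := hA_sq
  have h2 := Real.pi_lt_d4
  have h3 := hA_pos
  by_contra hc
  rw [not_lt] at hc
  nlinarith

theorem exp_small {x : ℝ} (hx : x ≤ 1 / 200) : Real.exp x ≤ 1006 / 1000 := by
  have h1 : Real.exp x ≤ Real.exp (1 / 200) := Real.exp_le_exp.2 hx
  have h2 : Real.exp (1 / 200) ≤ 1006 / 1000 := by
    have h3 := Real.add_one_le_exp (-(1 / 200 : ℝ))
    have h4 : Real.exp (1 / 200) * Real.exp (-(1 / 200)) = 1 := by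
      rw [← Real.exp_add]
      norm_num
    have h5 := Real.exp_pos (1 / 200 : ℝ)
    nlinarith
  exact h1.trans h2

theorem kc_inv_le (s : ℝ) : (kc s)⁻¹ ≤ 2508 / 1000 := by
  unfold kc
  rw [inv_inv]
  have h2 : Real.sqrt (2 * Real.pi * (1 - s ^ 2)) ≤ Real.sqrt (2 * Real.pi) := by
    refine Real.sqrt_le_sqrt ?_
    have := Real.pi_pos
    nlinarith [sq_nonneg s]
  have h3 : Real.sqrt (2 * Real.pi) = 2 * hA := by
    unfold hA
    ring
  have := hA_ub
  linarith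

/-- The one-dimensional example with barycenter zero. -/
theorem exA : ∃ a L ε s : ℝ, 0 < a ∧ 1 ≤ L ∧ a ≤ L ∧ 0 < ε ∧ ε ≤ 1 ∧ 0 < s ∧ s < 1 ∧
    a * hA = 1 - ε * (L + 1 / 2) ∧
    (∫ z, fA a L ε z) * ∫ y, polar1 (ev (fA a L ε) s) y
      < (∫ z, fA a L ε z) * ∫ y, polar1 (fA a L ε) y := by
  obtain ⟨L, hL, hLe⟩ := exists_L
  have hA0 := hA_pos
  have hAl := hA_lb
  have hAu := hA_ub
  set ε := 1 / L ^ 3 with hε
  have hL0 : 0 < L := by linarith
  have hε0 : 0 < ε := by positivity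
  have hεL : ε * L ^ 3 = 1 := by rw [hε]; field_simp
  have hL2 : 100 ≤ L ^ 2 := by nlinarith
  have hη : ε * (L + 1 / 2) ≤ 1 / 90 := by
    rw [hε, div_mul_eq_mul_div, one_mul, div_le_div_iff₀ (by positivity) (by norm_num)]
    nlinarith
  have hη0 : 0 < ε * (L + 1 / 2) := by positivity
  have hε1 : ε ≤ 1 / 900 := by
    rw [hε, div_le_div_iff₀ (by positivity) (by norm_num)]
    nlinarith
  set η := ε * (L + 1 / 2) with hηd
  set a := (1 - η) / hA with had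
  have hcent : a * hA = 1 - η := by rw [had]; field_simp
  have ha0 : 0 < a := by
    rw [had]
    apply div_pos _ hA0
    linarith
  have ha1 : a ≤ 1 := by
    by_contra hc
    rw [not_le] at hc
    nlinarith
  have haL : a ≤ L := by linarith
  refine ⟨a, L, ε, 1 / 20, ha0, by linarith, haL, hε0, by linarith, by norm_num, by norm_num,
    hcent, ?_⟩
  have h1 := fA_P0 ha0.le hL0 haL hε0 (by linarith : ε ≤ 1)
  have h2 := prod_late_le hL0 haL hε0 hcent (s := 1 / 20) (by norm_num) (by norm_num)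
    (δ := 1 / 100) (by norm_num) _ rfl
  set V := (∫ z, z ^ 2 * fA a L ε z) / ∫ z, fA a L ε z with hV
  have hVle : V ≤ 3 := by
    rw [hV, fA0, div_le_iff₀ (by positivity)]
    have h3 := fA2 a L ε hL0.le hε0.le
    have h4 : ε * (L + 1) ^ 2 ≤ 1 := by
      have : (L + 1) ^ 2 ≤ L ^ 3 := by nlinarith
      calc ε * (L + 1) ^ 2 ≤ ε * L ^ 3 := mul_le_mul_of_nonneg_left this hε0.le
        _ = 1 := hεL
    have h5 : a ^ 2 * hA ≤ a := by nlinarith
    nlinarith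
  have hexpV : Real.exp ((1 / 20 : ℝ) ^ 2 * V / (2 * (1 - (1 / 20) ^ 2))) ≤ 1006 / 1000 := by
    apply exp_small
    rw [div_le_iff₀ (by norm_num)]
    linarith
  have hexp1 : Real.exp ((1 / 20 : ℝ) ^ 2 / (2 * (1 - (1 / 20) ^ 2))) ≤ 1006 / 1000 := by
    apply exp_small
    norm_num
  have hk := kc_inv_le (1 / 20)
  have hkp := kc_pos (s := 1 / 20) (by norm_num) (by norm_num)
  have hki : 0 < (kc (1 / 20))⁻¹ := inv_pos.2 hkp
  have hpi := Real.pi_lt_d4
  have hpip := Real.pi_pos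
  -- the upper bound
  have u1 : Real.pi * Real.exp ((1 / 20 : ℝ) ^ 2 * V / (2 * (1 - (1 / 20) ^ 2))) ≤ 3161 / 1000 := by
    nlinarith
  have u2 : 1 / 100 * Real.exp ((1 / 20 : ℝ) ^ 2 * V / (2 * (1 - (1 / 20) ^ 2))) / kc (1 / 20)
      ≤ 26 / 1000 := by
    rw [div_eq_mul_inv]
    have := Real.exp_pos ((1 / 20 : ℝ) ^ 2 * V / (2 * (1 - (1 / 20) ^ 2)))
    nlinarith
  have u3 : (hA + ε) * (Real.exp ((1 / 20 : ℝ) ^ 2 / (2 * (1 - (1 / 20) ^ 2))) / (ε * kc (1 / 20)))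
      * (Real.exp ((1 / 20) * L * (-(1 / 100))) / ((1 / 20) * L)) ≤ 7 / 1000 := by
    have e1 : (hA + ε) * (Real.exp ((1 / 20 : ℝ) ^ 2 / (2 * (1 - (1 / 20) ^ 2)))
        / (ε * kc (1 / 20))) * (Real.exp ((1 / 20) * L * (-(1 / 100))) / ((1 / 20) * L))
        = 20 * (hA + ε) * (Real.exp ((1 / 20 : ℝ) ^ 2 / (2 * (1 - (1 / 20) ^ 2)))
          * (kc (1 / 20))⁻¹) * (L ^ 2 * Real.exp (-(L / 2000))) := by
      rw [show (1 / 20 : ℝ) * L * (-(1 / 100)) = -(L / 2000) by ring]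
      rw [hε]
      field_simp
    rw [e1]
    have e2 : Real.exp ((1 / 20 : ℝ) ^ 2 / (2 * (1 - (1 / 20) ^ 2))) * (kc (1 / 20))⁻¹
        ≤ 1006 / 1000 * (2508 / 1000) :=
      mul_le_mul hexp1 hk hki.le (by norm_num)
    have e3 : 20 * (hA + ε) ≤ 20 * (1256 / 1000) := by linarith
    have e4 : 20 * (hA + ε) * (Real.exp ((1 / 20 : ℝ) ^ 2 / (2 * (1 - (1 / 20) ^ 2)))
          * (kc (1 / 20))⁻¹) ≤ 20 * (1256 / 1000) * (1006 / 1000 * (2508 / 1000)) :=
      mul_le_mul e3 e2 (by positivity) (by norm_num)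
    have e5 : 0 ≤ L ^ 2 * Real.exp (-(L / 2000)) := by positivity
    calc _ ≤ 20 * (1256 / 1000) * (1006 / 1000 * (2508 / 1000))
          * (L ^ 2 * Real.exp (-(L / 2000))) := mul_le_mul_of_nonneg_right e4 e5
      _ ≤ 20 * (1256 / 1000) * (1006 / 1000 * (2508 / 1000)) * (1 / 10000) :=
          mul_le_mul_of_nonneg_left hLe (by norm_num)
      _ ≤ _ := by norm_num
  have hup : (∫ z, fA a L ε z) * ∫ y, polar1 (ev (fA a L ε) (1 / 20)) y ≤ 3194 / 1000 := by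
    linarith
  -- the lower bound
  have hlo : 32 / 10 ≤ (∫ z, fA a L ε z) * ∫ y, polar1 (fA a L ε) y := by
    rw [fA0]
    have h3 : hA * (hA + a + a ^ 2 * hA / 2 + a ^ 3 / 3)
        ≤ (hA + ε) * ∫ y, polar1 (fA a L ε) y :=
      mul_le_mul (by linarith) h1 (by positivity) (by positivity)
    refine le_trans ?_ h3
    have h4 : hA * (hA + a + a ^ 2 * hA / 2 + a ^ 3 / 3)
        = hA ^ 2 + a * hA + (a * hA) ^ 2 / 2 + (a * hA) * a ^ 2 / 3 := by ring
    rw [h4, hcent, hA_sq]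
    have h5 : 3 / 4 ≤ a := by
      rw [had, le_div_iff₀ hA0]
      linarith
    have h6 := Real.pi_gt_d4
    have h7 : 9 / 16 ≤ a ^ 2 := by nlinarith
    have h8 : 89 / 90 ≤ 1 - η := by linarith
    nlinarith [mul_nonneg (show (0 : ℝ) ≤ 1 - η by linarith) (sub_nonneg.2 h7)]
  linarith

end Q94.FP
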