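import Pool.Agent.Q94.FPE

/-!
# Mass conservation and the example whose polar has barycenter zero
-/

set_option autoImplicit false

open MeasureTheory Set Filter Topology

namespace Q94.FP

theorem kc_mul {s : ℝ} (h0 : 0 < s) (h1 : s < 1) :
    kc s * Real.sqrt (2 * Real.pi / (1 / (1 - s ^ 2))) = 1 := by
  have hvp := v_pos h0 h1
  have hpi := Real.pi_pos
  unfold kc
  rw [div_div_eq_mul_div, div_one]
  exact inv_mul_cancel₀ (by positivity)

theorem ker_form (s x z : ℝ) :
    ker s x z = kc s * Real.exp (-(1 / (1 - s ^ 2)) * (x + (-(s * z))) ^ 2 / 2) := by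
  rw [ker_eq]
  congr 2
  rw [← sub_eq_add_neg]
  field_simp

theorem ker_int_x_i {s : ℝ} (h0 : 0 < s) (h1 : s < 1) (z : ℝ) : Integrable fun x => ker s x z := by
  have hvp := v_pos h0 h1
  refine ((gauss_scale_int (v := 1 / (1 - s ^ 2)) (by positivity) (-(s * z))).const_mul
    (kc s)).congr (Eventually.of_forall fun x => ?_)
  exact (ker_form s x z).symm

theorem ker_int_x {s : ℝ} (h0 : 0 < s) (h1 : s < 1) (z : ℝ) : ∫ x, ker s x z = 1 := by
  rw [integral_congr_ae (Eventually.of_forall fun x => ker_form s x z), integral_const_mul,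
    gauss_scale, kc_mul h0 h1]

/-- the evolution preserves the mass -/
theorem ev_mass_i {f : ℝ → ℝ} (hi : Integrable f) {s : ℝ} (h0 : 0 < s) (h1 : s < 1) :
    Integrable (fun p : ℝ × ℝ => f p.2 * ker s p.1 p.2) := by
  have hm : AEStronglyMeasurable (fun p : ℝ × ℝ => f p.2 * ker s p.1 p.2)
      ((volume : Measure ℝ).prod volume) :=
    (hi.aestronglyMeasurable.comp_snd).mul (ker_cont s).aestronglyMeasurable
  have h : Integrable (fun p : ℝ × ℝ => f p.2 * ker s p.1 p.2)
      ((volume : Measure ℝ).prod volume) := by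
    rw [integrable_prod_iff' hm]
    constructor
    · exact Eventually.of_forall fun z => (ker_int_x_i h0 h1 z).const_mul (f z)
    · have e : ∀ z, ∫ x, ‖f z * ker s x z‖ = ‖f z‖ := by
        intro z
        have : ∀ x, ‖f z * ker s x z‖ = ‖f z‖ * ker s x z := by
          intro x
          rw [norm_mul, Real.norm_of_nonneg (ker_pos h0 h1 x z).le]
        rw [integral_congr_ae (Eventually.of_forall this), integral_const_mul,
          ker_int_x h0 h1, mul_one]
      refine hi.norm.congr (Eventually.of_forall fun z => (e z).symm)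
  exact h

theorem ev_int {f : ℝ → ℝ} (hi : Integrable f) {s : ℝ} (h0 : 0 < s) (h1 : s < 1) :
    Integrable (ev f s) := by
  have h := (ev_mass_i hi h0 h1).integral_prod_left
  exact h

theorem ev_mass {f : ℝ → ℝ} (hi : Integrable f) {s : ℝ} (h0 : 0 < s) (h1 : s < 1) :
    ∫ x, ev f s x = ∫ x, f x := by
  unfold ev
  rw [integral_integral_swap (ev_mass_i hi h0 h1)]
  refine integral_congr_ae (Eventually.of_forall fun z => ?_)
  beta_reduce
  rw [integral_const_mul, ker_int_x h0 h1, mul_one]

/-- the Gaussian is stationary -/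
theorem ev_gs {s : ℝ} (h0 : 0 < s) (h1 : s < 1) (x : ℝ) : ev gs s x = gs x := by
  have hvp := v_pos h0 h1
  have e : ∀ z, gs z * ker s x z
      = (gs x * kc s) * Real.exp (-(1 / (1 - s ^ 2)) * (z + (-(s * x))) ^ 2 / 2) := by
    intro z
    rw [ker_eq]
    unfold gs
    rw [mul_left_comm, ← Real.exp_add, mul_comm (Real.exp (-x ^ 2 / 2)), mul_assoc, ← Real.exp_add]
    congr 2
    field_simp
    ring
  unfold ev
  rw [integral_congr_ae (Eventually.of_forall e), integral_const_mul, gauss_scale, mul_assoc,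
    kc_mul h0 h1, mul_one]

theorem ker_int_z_i {s : ℝ} (h0 : 0 < s) (h1 : s < 1) (x : ℝ) : Integrable fun z => ker s x z := by
  have hvp := v_pos h0 h1
  have h := (gauss_scale_int (v := s ^ 2 / (1 - s ^ 2)) (by positivity) (-(x / s))).const_mul (kc s)
  refine h.congr (Eventually.of_forall fun z => ?_)
  beta_reduce
  rw [ker_eq]
  congr 2
  field_simp
  ring

theorem ker_int_z {s : ℝ} (h0 : 0 < s) (h1 : s < 1) (x : ℝ) : ∫ z, ker s x z = 1 / s := by
  have hvp := v_pos h0 h1
  have hpi := Real.pi_pos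
  have e : ∀ z, ker s x z
      = kc s * Real.exp (-(s ^ 2 / (1 - s ^ 2)) * (z + (-(x / s))) ^ 2 / 2) := by
    intro z
    rw [ker_eq]
    congr 2
    field_simp
    ring
  rw [integral_congr_ae (Eventually.of_forall e), integral_const_mul, gauss_scale]
  have h2 : Real.sqrt (2 * Real.pi / (s ^ 2 / (1 - s ^ 2)))
      = Real.sqrt (2 * Real.pi / (1 / (1 - s ^ 2))) * (1 / s) := by
    rw [show 2 * Real.pi / (s ^ 2 / (1 - s ^ 2))
      = (2 * Real.pi / (1 / (1 - s ^ 2))) * (1 / s) ^ 2 by field_simp,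
      Real.sqrt_mul (by positivity), Real.sqrt_sq (by positivity)]
  rw [h2, ← mul_assoc, kc_mul h0 h1, one_mul]

/-! ### The second example -/

/-- the indicator of the unit interval together with a short interval at `-1` -/
noncomputable def fB (ε x : ℝ) : ℝ :=
  (Icc (0 : ℝ) 1).indicator (fun _ => (1 : ℝ)) x
    + (Icc (-1 : ℝ) (-1 + ε)).indicator (fun _ => (1 : ℝ)) x

section B

variable {ε : ℝ} (h0 : 0 < ε) (h1 : ε < 1)

theorem fB_nonneg (ε x : ℝ) : 0 ≤ fB ε x :=
  add_nonneg (indicator_nonneg (fun _ _ => zero_le_one) x)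
    (indicator_nonneg (fun _ _ => zero_le_one) x)

theorem fB_meas (ε : ℝ) : Measurable (fB ε) :=
  (measurable_const.indicator measurableSet_Icc).add (measurable_const.indicator measurableSet_Icc)

theorem fB_split (ε : ℝ) (p : ℝ → ℝ) (x : ℝ) : p x * fB ε x
    = (Icc (0 : ℝ) 1).indicator p x + (Icc (-1 : ℝ) (-1 + ε)).indicator p x := by
  unfold fB
  rw [mul_add]
  congr 1
  · by_cases hx : x ∈ Icc (0 : ℝ) 1
    · rw [indicator_of_mem hx, indicator_of_mem hx, mul_one]
    · rw [indicator_of_notMem hx, indicator_of_notMem hx, mul_zero]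
  · by_cases hx : x ∈ Icc (-1 : ℝ) (-1 + ε)
    · rw [indicator_of_mem hx, indicator_of_mem hx, mul_one]
    · rw [indicator_of_notMem hx, indicator_of_notMem hx, mul_zero]

theorem fB_int (ε : ℝ) (p : ℝ → ℝ) (hp : Continuous p) : Integrable (fun x => p x * fB ε x) := by
  refine Integrable.congr ?_ (Eventually.of_forall fun x => (fB_split ε p x).symm)
  exact ((integrable_indicator_iff measurableSet_Icc).2 hp.integrableOn_Icc).add
    ((integrable_indicator_iff measurableSet_Icc).2 hp.integrableOn_Icc)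

include h0 in
theorem fB_integral (p : ℝ → ℝ) (hp : Continuous p) : ∫ x, p x * fB ε x
    = (∫ x in (0 : ℝ)..1, p x) + ∫ x in (-1 : ℝ)..(-1 + ε), p x := by
  rw [integral_congr_ae (Eventually.of_forall (fB_split ε p)),
    integral_add ((integrable_indicator_iff measurableSet_Icc).2 hp.integrableOn_Icc)
      ((integrable_indicator_iff measurableSet_Icc).2 hp.integrableOn_Icc),
    integral_indicator measurableSet_Icc, integral_indicator measurableSet_Icc,
    integral_Icc_eq_integral_Ioc, integral_Icc_eq_integral_Ioc,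
    ← intervalIntegral.integral_of_le (by norm_num), ← intervalIntegral.integral_of_le
      (by linarith)]

theorem fB0i (ε : ℝ) : Integrable (fB ε) := by
  have h := fB_int ε (fun _ => 1) continuous_const
  simpa using h

include h0 in
theorem fB0 : ∫ x, fB ε x = 1 + ε := by
  have h := fB_integral h0 (fun _ => 1) continuous_const
  simp only [one_mul] at h
  rw [h]
  simp

include h0 h1 in
theorem fB2 : ∫ x, x ^ 2 * fB ε x ≤ 1 + ε := by
  rw [fB_integral h0 (fun x => x ^ 2) (by fun_prop), integral_pow, integral_pow]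
  push_cast
  have : ((-1 + ε) ^ (2 + 1) - (-1 : ℝ) ^ (2 + 1)) / (2 + 1) = ε - ε ^ 2 + ε ^ 3 / 3 := by ring
  rw [this]
  have h2 : ε ^ 3 ≤ ε ^ 2 := by nlinarith [sq_nonneg ε]
  have h3 : 0 ≤ ε ^ 2 := sq_nonneg ε
  norm_num
  nlinarith

include h0 h1 in
theorem fB_one : fB ε 1 = 1 := by
  unfold fB
  rw [indicator_of_mem (show (1 : ℝ) ∈ Icc (0 : ℝ) 1 by simp), indicator_of_notMem, add_zero]
  intro h
  linarith [h.2]

include h0 in
theorem fB_neg_one : fB ε (-1) = 1 := by
  unfold fB
  rw [indicator_of_notMem (show (-1 : ℝ) ∉ Icc (0 : ℝ) 1 from fun h => by linarith [h.1]),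
    indicator_of_mem (show (-1 : ℝ) ∈ Icc (-1 : ℝ) (-1 + ε) from ⟨le_rfl, by linarith⟩), zero_add]

include h1 in
theorem fB_le_one (x : ℝ) : fB ε x ≤ 1 := by
  unfold fB
  by_cases hx : x ∈ Icc (0 : ℝ) 1
  · rw [indicator_of_mem hx, indicator_of_notMem, add_zero]
    intro h
    linarith [h.2, hx.1]
  · rw [indicator_of_notMem hx, zero_add]
    by_cases hy : x ∈ Icc (-1 : ℝ) (-1 + ε)
    · rw [indicator_of_mem hy]
    · rw [indicator_of_notMem hy]
      exact zero_le_one

include h1 in
theorem fB_supp {x : ℝ} (hx : 0 < fB ε x) : |x| ≤ 1 := by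
  unfold fB at hx
  by_cases h : x ∈ Icc (0 : ℝ) 1
  · rw [abs_le]
    exact ⟨by linarith [h.1], h.2⟩
  · rw [indicator_of_notMem h, zero_add] at hx
    by_cases h2 : x ∈ Icc (-1 : ℝ) (-1 + ε)
    · rw [abs_le]
      exact ⟨h2.1, by linarith [h2.2]⟩
    · rw [indicator_of_notMem h2] at hx
      exact absurd hx (lt_irrefl _)

include h0 h1 in
theorem fB_polar (y : ℝ) : polar1 (fB ε) y = Real.exp (-|y|) := by
  apply le_antisymm
  · rcases le_total 0 y with hy | hy
    · have h := polar1_le (f := fB ε) (x := 1) (by rw [fB_one h0 h1]; exact one_pos) y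
      rw [fB_one h0 h1, div_one, one_mul] at h
      rwa [abs_of_nonneg hy]
    · have h := polar1_le (f := fB ε) (x := -1) (by rw [fB_neg_one h0]; exact one_pos) y
      rw [fB_neg_one h0, div_one] at h
      rw [abs_of_nonpos hy]
      refine h.trans (le_of_eq ?_)
      congr 1
      ring
  · refine le_polar1 ⟨1, by rw [fB_one h0 h1]; exact one_pos⟩ fun x hx => ?_
    rw [le_div_iff₀ hx]
    have h2 : Real.exp (-|y|) ≤ Real.exp (-(x * y)) := by
      rw [Real.exp_le_exp, neg_le_neg_iff]
      calc x * y ≤ |x * y| := le_abs_self _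
        _ = |x| * |y| := abs_mul _ _
        _ ≤ 1 * |y| := mul_le_mul_of_nonneg_right (fB_supp h1 hx) (abs_nonneg _)
        _ = |y| := one_mul _
    have h3 := fB_le_one h1 x
    have h4 := Real.exp_pos (-|y|)
    nlinarith

/-- The key upper bound at an early time. -/
theorem evB_le (ε : ℝ) (h0 : 0 < ε) {s : ℝ} (hs0 : 0 < s) (hs1 : s < 1) {u : ℝ} (hu : 0 ≤ u)
    (x : ℝ) : ev (fB ε) s x ≤ Real.exp (x * u + (1 - s ^ 2) * u ^ 2 / 2)
      * (1 / s + ε * (kc s * Real.exp (s * u))) := by
  have hvp := v_pos hs0 hs1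
  have hc := kc_pos hs0 hs1
  set E := Real.exp (x * u + (1 - s ^ 2) * u ^ 2 / 2) with hE
  have hE0 : 0 < E := Real.exp_pos _
  have key : ∀ z, ker s x z = E * (Real.exp (-(s * z * u)) * ker s (x + (1 - s ^ 2) * u) z) := by
    intro z
    rw [ker_eq, ker_eq, hE, mul_left_comm (Real.exp (-(s * z * u))), mul_left_comm (Real.exp _),
      ← Real.exp_add, ← Real.exp_add]
    congr 2
    field_simp
    ring
  have hpt : ∀ z, fB ε z * ker s x z ≤ E * (ker s (x + (1 - s ^ 2) * u) z
      + (Icc (-1 : ℝ) (-1 + ε)).indicator (fun _ => (kc s * Real.exp (s * u))) z) := by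
    intro z
    rw [key z]
    unfold fB
    have k0 := (ker_pos hs0 hs1 (x + (1 - s ^ 2) * u) z).le
    have kle := ker_le hs0 hs1 (x + (1 - s ^ 2) * u) z
    rw [add_mul, mul_add]
    refine add_le_add ?_ ?_
    · by_cases hz : z ∈ Icc (0 : ℝ) 1
      · rw [indicator_of_mem hz, one_mul]
        refine mul_le_mul_of_nonneg_left ?_ hE0.le
        have : Real.exp (-(s * z * u)) ≤ 1 := by
          rw [Real.exp_le_one_iff]
          have := mul_nonneg (mul_nonneg hs0.le hz.1) hu
          linarith
        nlinarith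
      · rw [indicator_of_notMem hz, zero_mul]
        positivity
    · by_cases hz : z ∈ Icc (-1 : ℝ) (-1 + ε)
      · rw [indicator_of_mem hz, indicator_of_mem hz, one_mul]
        refine mul_le_mul_of_nonneg_left ?_ hE0.le
        have h2 : Real.exp (-(s * z * u)) ≤ Real.exp (s * u) := by
          rw [Real.exp_le_exp]
          have h3 := mul_nonneg hs0.le hu
          nlinarith [hz.1]
        calc Real.exp (-(s * z * u)) * ker s (x + (1 - s ^ 2) * u) z
            ≤ Real.exp (s * u) * kc s := mul_le_mul h2 kle k0 (Real.exp_pos _).le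
          _ = _ := mul_comm _ _
      · rw [indicator_of_notMem hz, indicator_of_notMem hz, zero_mul, mul_zero]
  have i1 : Integrable ((Icc (-1 : ℝ) (-1 + ε)).indicator
      (fun _ => (kc s * Real.exp (s * u)))) :=
    (integrable_indicator_iff measurableSet_Icc).2 continuous_const.integrableOn_Icc
  have i2 := ker_int_z_i hs0 hs1 (x + (1 - s ^ 2) * u)
  have h2 := integral_mono (int_ker (fB0i ε) hs0 hs1 x) ((i2.add i1).const_mul E) hpt
  refine h2.trans (le_of_eq ?_)
  rw [integral_const_mul]
  congr 1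
  have h3 := integral_add i2 i1
  refine h3.trans ?_
  rw [ker_int_z hs0 hs1, integral_indicator measurableSet_Icc, setIntegral_const, smul_eq_mul]
  congr 2
  simp [Measure.real, h0.le]

end B

end Q94.FP
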