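import Pool.Agent.Q94.FPF

/-!
# The example whose polar has barycenter zero: choice of the parameters
-/

set_option autoImplicit false

open MeasureTheory Set Filter Topology

namespace Q94.FP

theorem fB1i (ε : ℝ) : Integrable fun x => x * fB ε x := fB_int ε (fun x => x) continuous_id

theorem fB2i (ε : ℝ) : Integrable fun x => x ^ 2 * fB ε x :=
  fB_int ε (fun x => x ^ 2) (by fun_prop)

theorem fB_W {ε : ℝ} (h0 : 0 < ε) : 0 < ∫ x, fB ε x := by
  rw [fB0 h0]
  linarith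

theorem polarB_ge {ε : ℝ} (h0 : 0 < ε) {s : ℝ} (hs0 : 0 < s) (hs1 : s < 1) {u : ℝ} (hu : 0 ≤ u) :
    Real.exp (-((1 - s ^ 2) * u ^ 2 / 2)) / (1 / s + ε * (kc s * Real.exp (s * u)))
      ≤ polar1 (ev (fB ε) s) (-u) := by
  have hc := kc_pos hs0 hs1
  refine le_polar1 ⟨0, ?_⟩ ?_
  · refine lt_of_lt_of_le ?_ (ev_ge (fB_nonneg ε) (fB0i ε) (fB1i ε) (fB2i ε) (fB_W h0) hs0 hs1 0)
    have := fB_W h0
    positivity
  · intro x hx
    have h := evB_le ε h0 hs0 hs1 hu x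
    rw [div_le_div_iff₀ (by positivity) hx]
    calc Real.exp (-((1 - s ^ 2) * u ^ 2 / 2)) * ev (fB ε) s x
        ≤ Real.exp (-((1 - s ^ 2) * u ^ 2 / 2)) * (Real.exp (x * u + (1 - s ^ 2) * u ^ 2 / 2)
          * (1 / s + ε * (kc s * Real.exp (s * u)))) :=
          mul_le_mul_of_nonneg_left h (Real.exp_pos _).le
      _ = _ := by
          rw [← mul_assoc, ← Real.exp_add]
          congr 2
          ring

theorem polarB_int_ge {ε : ℝ} (h0 : 0 < ε) {s : ℝ} (hs0 : 0 < s) (hs1 : s < 1) {Y : ℝ}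
    (hY : 0 ≤ Y) :
    Y * (Real.exp (-((1 - s ^ 2) * Y ^ 2 / 2)) / (1 / s + ε * (kc s * Real.exp (s * Y))))
      ≤ ∫ y, polar1 (ev (fB ε) s) y := by
  have hc := kc_pos hs0 hs1
  have hvp := v_pos hs0 hs1
  have hint := polar_ev_int (fB_nonneg ε) (fB0i ε) (fB1i ε) (fB2i ε) (fB_W h0) hs0 hs1
  calc Y * (Real.exp (-((1 - s ^ 2) * Y ^ 2 / 2)) / (1 / s + ε * (kc s * Real.exp (s * Y))))
      = ∫ _y in Icc (-Y) 0, (Real.exp (-((1 - s ^ 2) * Y ^ 2 / 2))
        / (1 / s + ε * (kc s * Real.exp (s * Y)))) := by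
        rw [setIntegral_const, smul_eq_mul]
        simp [Measure.real, hY]
    _ ≤ ∫ y in Icc (-Y) 0, polar1 (ev (fB ε) s) y := by
        refine setIntegral_mono_on (integrableOn_const (by simp)) hint.integrableOn
          measurableSet_Icc fun y hy => ?_
        have h := polarB_ge h0 hs0 hs1 (u := -y) (by linarith [hy.2])
        rw [neg_neg] at h
        refine le_trans ?_ h
        have hy1 : 0 ≤ -y := by linarith [hy.2]
        have hy2 : -y ≤ Y := by linarith [hy.1]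
        refine div_le_div₀ (Real.exp_pos _).le ?_ (by positivity) ?_
        · rw [Real.exp_le_exp, neg_le_neg_iff]
          have : (-y) ^ 2 ≤ Y ^ 2 := by nlinarith
          nlinarith
        · have : Real.exp (s * (-y)) ≤ Real.exp (s * Y) := by
            rw [Real.exp_le_exp]
            nlinarith
          have h5 := mul_le_mul_of_nonneg_left this hc.le
          have h6 := mul_le_mul_of_nonneg_left h5 h0.le
          linarith
    _ ≤ _ := setIntegral_le_integral hint (Eventually.of_forall fun y => polar1_nonneg _ _)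

theorem exB : ∃ ε s₁ s₂ : ℝ, 0 < ε ∧ ε < 1 ∧ 0 < s₂ ∧ s₂ < s₁ ∧ s₁ < 1 ∧
    (∫ z, fB ε z) * ∫ y, polar1 (ev (fB ε) s₂) y
      < (∫ z, fB ε z) * ∫ y, polar1 (ev (fB ε) s₁) y := by
  set s₁ : ℝ := 511 / 512 with hs1
  have hs10 : 0 < s₁ := by rw [hs1]; norm_num
  have hs11 : s₁ < 1 := by rw [hs1]; norm_num
  have hc := kc_pos hs10 hs11
  set K := kc s₁ * Real.exp (s₁ * 16) with hK
  have hK0 : 0 < K := by positivity
  set ε := min (1 / 2) ((1 / 100) / K) with hε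
  have hε0 : 0 < ε := by
    rw [hε]
    exact lt_min (by norm_num) (by positivity)
  have hε1 : ε < 1 := lt_of_le_of_lt (min_le_left _ _) (by norm_num)
  have hεK : ε * K ≤ 1 / 100 := by
    have := min_le_right (1 / 2 : ℝ) ((1 / 100) / K)
    rw [← hε] at this
    rwa [le_div_iff₀ hK0] at this
  refine ⟨ε, s₁, 1 / 10, hε0, hε1, by norm_num, by rw [hs1]; norm_num, hs11, ?_⟩
  have hup := prod_ev_le (fB_nonneg ε) (fB0i ε) (fB1i ε) (fB2i ε) (fB_W hε0) (s := 1 / 10)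
    (by norm_num) (by norm_num) _ rfl
  set V := (∫ z, z ^ 2 * fB ε z) / ∫ z, fB ε z with hV
  have hVle : V ≤ 1 := by
    rw [hV, div_le_one (fB_W hε0), fB0 hε0]
    exact fB2 hε0 hε1
  have hexp : Real.exp ((1 / 10 : ℝ) ^ 2 * V / (2 * (1 - (1 / 10) ^ 2))) ≤ 102 / 100 := by
    have h1 : (1 / 10 : ℝ) ^ 2 * V / (2 * (1 - (1 / 10) ^ 2)) ≤ 1 / 100 := by
      rw [div_le_iff₀ (by norm_num)]
      linarith
    have h2 : Real.exp (1 / 100) ≤ 102 / 100 := by
      have h3 := Real.add_one_le_exp (-(1 / 100 : ℝ))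
      have h4 : Real.exp (1 / 100) * Real.exp (-(1 / 100)) = 1 := by
        rw [← Real.exp_add]
        norm_num
      have h5 := Real.exp_pos (1 / 100 : ℝ)
      nlinarith
    exact (Real.exp_le_exp.2 h1).trans h2
  have hpi := Real.pi_lt_d4
  have hpi0 := Real.pi_pos
  have hup2 : (∫ z, fB ε z) * ∫ y, polar1 (ev (fB ε) (1 / 10)) y < 7 := by
    refine lt_of_le_of_lt hup ?_
    have := Real.exp_pos ((1 / 10 : ℝ) ^ 2 * V / (2 * (1 - (1 / 10) ^ 2)))
    nlinarith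
  have hlo := polarB_int_ge hε0 hs10 hs11 (Y := 16) (by norm_num)
  rw [← hK] at hlo
  have hlo2 : 7 ≤ ∫ y, polar1 (ev (fB ε) s₁) y := by
    refine le_trans ?_ hlo
    have h1 : (1 / 2 : ℝ) ≤ Real.exp (-((1 - s₁ ^ 2) * 16 ^ 2 / 2)) := by
      have h2 : (1 - s₁ ^ 2) * 16 ^ 2 / 2 ≤ 1 / 2 := by
        rw [hs1]
        norm_num
      have h3 := Real.add_one_le_exp (-((1 - s₁ ^ 2) * 16 ^ 2 / 2))
      linarith
    have h2 : 1 / s₁ + ε * K ≤ 102 / 100 := by
      have : 1 / s₁ ≤ 101 / 100 := by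
        rw [hs1]
        norm_num
      linarith
    have h3 : (1 / 2 : ℝ) / (102 / 100)
        ≤ Real.exp (-((1 - s₁ ^ 2) * 16 ^ 2 / 2)) / (1 / s₁ + ε * K) := by
      refine div_le_div₀ (Real.exp_pos _).le h1 (by positivity) h2
    have h4 : (7 : ℝ) ≤ 16 * ((1 / 2 : ℝ) / (102 / 100)) := by norm_num
    linarith
  have hW1 : 1 ≤ ∫ z, fB ε z := by
    rw [fB0 hε0]
    linarith
  have : 7 ≤ (∫ z, fB ε z) * ∫ y, polar1 (ev (fB ε) s₁) y := by nlinarith
  linarith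

end Q94.FP
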