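import Pool.Agent.Q94.FPG

/-!
# Tensorization: from the line to `ℝⁿ`
-/

set_option autoImplicit false

open MeasureTheory Set Filter Topology
open scoped ENNReal

namespace Q94.FP

/-- Euclidean space -/
abbrev E (n : ℕ) := EuclideanSpace ℝ (Fin n)

/-- the functional polar -/
noncomputable def polar {n : ℕ} (f : E n → ℝ) (y : E n) : ℝ :=
  ⨅ x : {x : E n // 0 < f x}, Real.exp (-(inner ℝ x.1 y)) / f x.1

/-- the Fokker-Planck evolution (Mehler's formula) -/
noncomputable def fokkerPlanck {n : ℕ} (f : E n → ℝ) (t : ℝ) (x : E n) : ℝ :=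
  if t = 0 then f x else ∫ z, f z * ((2 * Real.pi * (1 - Real.exp (-2 * t))) ^ (-(n : ℝ) / 2)
    * Real.exp (-‖x - Real.exp (-t) • z‖ ^ 2 / (2 * (1 - Real.exp (-2 * t)))))

/-- the functional volume product -/
noncomputable def volProd {n : ℕ} (f : E n → ℝ) : ℝ≥0∞ :=
  (∫⁻ x, ENNReal.ofReal (f x)) * ∫⁻ y, ENNReal.ofReal (polar f y)

/-- the class of functions considered -/
def Admissible {n : ℕ} (f : E n → ℝ) : Prop :=
  (∀ x, 0 ≤ f x) ∧ Measurable f ∧ Integrable f ∧ 0 < ∫ x, f x

/-- the function has barycenter zero -/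
def BarycenterZero {n : ℕ} (g : E n → ℝ) : Prop :=
  Integrable g ∧ 0 < (∫ x, g x) ∧ Integrable (fun x => ‖x‖ * g x) ∧ ∫ x, g x • x = 0

section Prod

variable {n : ℕ}

theorem prod_int {k : Fin n → ℝ → ℝ} (hk : ∀ i, Integrable (k i)) :
    Integrable fun x : E n => ∏ i, k i (x i) := by
  have h := Integrable.fintype_prod (μ := fun _ : Fin n => (volume : Measure ℝ)) hk
  have h2 := ((EuclideanSpace.volume_preserving_symm_measurableEquiv_toLp
    (Fin n)).integrable_comp_emb (MeasurableEquiv.measurableEmbedding _)).2 h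
  exact h2

theorem prod_integral (k : Fin n → ℝ → ℝ) :
    ∫ x : E n, ∏ i, k i (x i) = ∏ i, ∫ x, k i x := by
  rw [← integral_fintype_prod_volume_eq_prod]
  exact (EuclideanSpace.volume_preserving_symm_measurableEquiv_toLp
    (Fin n)).integral_comp (MeasurableEquiv.measurableEmbedding _)
      (fun x : Fin n → ℝ => ∏ i, k i (x i))

variable (i₀ : Fin n)

/-- the factors -/
noncomputable def cf (h : ℝ → ℝ) (i : Fin n) : ℝ → ℝ := if i = i₀ then h else gs

/-- the tensor product with Gaussians -/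
noncomputable def T (h : ℝ → ℝ) (x : E n) : ℝ := ∏ i, cf i₀ h i (x i)

theorem cf_self (h : ℝ → ℝ) : cf i₀ h i₀ = h := if_pos rfl

theorem cf_ne (h : ℝ → ℝ) {i : Fin n} (hi : i ≠ i₀) : cf i₀ h i = gs := if_neg hi

theorem T_split (h : ℝ → ℝ) (x : E n) :
    T i₀ h x = h (x i₀) * ∏ i ∈ Finset.univ.erase i₀, gs (x i) := by
  unfold T
  rw [← Finset.mul_prod_erase Finset.univ _ (Finset.mem_univ i₀), cf_self]
  congr 1
  refine Finset.prod_congr rfl fun i hi => ?_
  rw [cf_ne i₀ h (Finset.ne_of_mem_erase hi)]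

theorem cf_int {h : ℝ → ℝ} (hh : Integrable h) (i : Fin n) : Integrable (cf i₀ h i) := by
  unfold cf
  split
  · exact hh
  · exact gs_integrable

theorem T_int {h : ℝ → ℝ} (hh : Integrable h) : Integrable (T i₀ h) :=
  prod_int (cf_int i₀ hh)

/-- the constant coming from the Gaussian factors -/
noncomputable def Cn : ℝ := ∏ _i ∈ Finset.univ.erase i₀, ∫ x, gs x

theorem gs_int_pos : 0 < ∫ x, gs x := by
  have h := integral_gaussian (1 / 2)
  have h2 : ∫ x, gs x = Real.sqrt (Real.pi / (1 / 2)) := by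
    rw [← h]
    exact integral_congr_ae (Eventually.of_forall fun x => gs_eq x)
  rw [h2]
  have := Real.pi_pos
  positivity

theorem Cn_pos : 0 < Cn i₀ := Finset.prod_pos fun _ _ => gs_int_pos

theorem T_integral (h : ℝ → ℝ) : ∫ x, T i₀ h x = (∫ x, h x) * Cn i₀ := by
  unfold T Cn
  rw [prod_integral, ← Finset.mul_prod_erase Finset.univ _ (Finset.mem_univ i₀), cf_self]
  congr 1
  refine Finset.prod_congr rfl fun i hi => ?_
  rw [cf_ne i₀ h (Finset.ne_of_mem_erase hi)]

theorem T_nonneg {h : ℝ → ℝ} (hh : ∀ x, 0 ≤ h x) (x : E n) : 0 ≤ T i₀ h x := by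
  rw [T_split]
  exact mul_nonneg (hh _) (Finset.prod_nonneg fun i _ => (gs_pos _).le)

theorem gs_cont : Continuous gs := by
  unfold gs
  fun_prop

theorem T_meas {h : ℝ → ℝ} (hh : Measurable h) : Measurable (T i₀ h) := by
  have : T i₀ h = fun x => h (x i₀) * ∏ i ∈ Finset.univ.erase i₀, gs (x i) := by
    ext x
    exact T_split i₀ h x
  rw [this]
  refine Measurable.mul ?_ ?_
  · exact hh.comp (by fun_prop : Continuous fun x : E n => x i₀).measurable
  · refine Finset.measurable_fun_prod _ fun i _ => ?_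
    exact (gs_cont.comp (by fun_prop : Continuous fun x : E n => x i)).measurable

/-- Inserting a factor depending on one coordinate. -/
theorem T_mul (h p : ℝ → ℝ) (j : Fin n) (x : E n) :
    T i₀ h x * p (x j) = ∏ i, (fun u => cf i₀ h i u * (if i = j then p u else 1)) (x i) := by
  unfold T
  rw [Finset.prod_mul_distrib]
  congr 1
  rw [Finset.prod_ite_eq' Finset.univ j (fun i => p (x i)), if_pos (Finset.mem_univ j)]

theorem gs1i : Integrable fun x => x * gs x := by
  have h := integrable_mul_exp_neg_mul_sq (b := 1 / 2) (by norm_num)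
  refine h.congr (Eventually.of_forall fun x => ?_)
  beta_reduce
  rw [gs_eq]

theorem odd_int (g : ℝ → ℝ) (hg : ∀ x, g (-x) = g x) : ∫ x, x * g x = 0 := by
  have h : ∫ x, x * g x = -∫ x, x * g x := by
    conv_lhs => rw [← integral_neg_eq_self]
    rw [← integral_neg]
    refine integral_congr_ae (Eventually.of_forall fun x => ?_)
    beta_reduce
    rw [hg]
    ring
  linarith

theorem gs_odd : ∫ x, x * gs x = 0 := by
  refine odd_int gs fun x => ?_
  unfold gs
  rw [neg_sq]

theorem T_coord_int {h : ℝ → ℝ} (hh : Integrable h) (hh1 : Integrable fun x => x * h x)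
    (j : Fin n) : Integrable fun x : E n => T i₀ h x * x j := by
  have e : (fun x : E n => T i₀ h x * x j)
      = fun x => ∏ i, (fun u => cf i₀ h i u * (if i = j then u else 1)) (x i) := by
    ext x
    exact T_mul i₀ h (fun u => u) j x
  rw [e]
  refine prod_int (k := fun i u => cf i₀ h i u * (if i = j then u else 1)) fun i => ?_
  by_cases hij : i = j
  · simp only [hij, if_true]
    by_cases hj : j = i₀
    · rw [hj, cf_self]
      exact hh1.congr (Eventually.of_forall fun x => mul_comm _ _)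
    · rw [cf_ne i₀ h hj]
      exact gs1i.congr (Eventually.of_forall fun x => mul_comm _ _)
  · simp only [hij, if_false, mul_one]
    exact cf_int i₀ hh i

theorem T_coord {h : ℝ → ℝ} (h1 : ∫ x, x * h x = 0) (j : Fin n) :
    ∫ x : E n, T i₀ h x * x j = 0 := by
  have e : (fun x : E n => T i₀ h x * x j)
      = fun x => ∏ i, (fun u => cf i₀ h i u * (if i = j then u else 1)) (x i) := by
    ext x
    exact T_mul i₀ h (fun u => u) j x
  rw [e, prod_integral (fun i u => cf i₀ h i u * (if i = j then u else 1))]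
  refine Finset.prod_eq_zero (Finset.mem_univ j) ?_
  simp only [if_true]
  by_cases hj : j = i₀
  · rw [hj, cf_self, ← h1]
    exact integral_congr_ae (Eventually.of_forall fun x => mul_comm _ _)
  · rw [cf_ne i₀ h hj, ← gs_odd]
    exact integral_congr_ae (Eventually.of_forall fun x => mul_comm _ _)

theorem T_bary {h : ℝ → ℝ} (hh0 : ∀ x, 0 ≤ h x) (hh : Integrable h)
    (hh1 : Integrable fun x => x * h x) (hpos : 0 < ∫ x, h x) (h1 : ∫ x, x * h x = 0) :
    BarycenterZero (T i₀ h) := by
  have hint := T_int i₀ hh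
  have hnorm : Integrable (fun x : E n => ‖x‖ * T i₀ h x) := by
    have hsum : Integrable (fun x : E n => ∑ j, ‖T i₀ h x * x j‖) :=
      integrable_finsetSum _ fun j _ => (T_coord_int i₀ hh hh1 j).norm
    refine Integrable.mono' hsum ?_ ?_
    · exact continuous_norm.aestronglyMeasurable.mul hint.aestronglyMeasurable
    · refine Eventually.of_forall fun x => ?_
      rw [Real.norm_eq_abs, abs_of_nonneg (mul_nonneg (norm_nonneg _) (T_nonneg i₀ hh0 x))]
      have h2 : ‖x‖ ≤ ∑ j, |x j| := by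
        rw [EuclideanSpace.norm_eq]
        refine Real.sqrt_le_iff.2 ⟨Finset.sum_nonneg fun j _ => abs_nonneg _, ?_⟩
        have := Finset.sum_sq_le_sq_sum_of_nonneg (s := Finset.univ) (f := fun j => |x j|)
          (fun j _ => abs_nonneg _)
        simpa using this
      calc ‖x‖ * T i₀ h x ≤ (∑ j, |x j|) * T i₀ h x :=
            mul_le_mul_of_nonneg_right h2 (T_nonneg i₀ hh0 x)
        _ = _ := by
            rw [Finset.sum_mul]
            refine Finset.sum_congr rfl fun j _ => ?_
            rw [norm_mul, Real.norm_of_nonneg (T_nonneg i₀ hh0 x), Real.norm_eq_abs, mul_comm]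
  refine ⟨hint, ?_, hnorm, ?_⟩
  · rw [T_integral]
    exact mul_pos hpos (Cn_pos i₀)
  · have hvec : Integrable fun x : E n => T i₀ h x • x := by
      refine Integrable.mono' hnorm
        (hint.aestronglyMeasurable.smul continuous_id.aestronglyMeasurable) ?_
      refine Eventually.of_forall fun x => ?_
      rw [norm_smul, Real.norm_of_nonneg (T_nonneg i₀ hh0 x), mul_comm]
    ext j
    have h2 := (EuclideanSpace.proj (𝕜 := ℝ) j : E n →L[ℝ] ℝ).integral_comp_comm hvec
    calc (∫ x : E n, T i₀ h x • x) j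
        = (EuclideanSpace.proj (𝕜 := ℝ) j : E n →L[ℝ] ℝ) (∫ x : E n, T i₀ h x • x) := rfl
      _ = ∫ x : E n, T i₀ h x * x j := h2.symm
      _ = 0 := T_coord i₀ h1 j

/-- The evolution of a tensor product. -/
theorem fp_T {h : ℝ → ℝ} {t : ℝ} (ht : 0 < t) (x : E n) :
    fokkerPlanck (T i₀ h) t x = T i₀ (ev h (Real.exp (-t))) x := by
  set s := Real.exp (-t) with hs
  have hs0 : 0 < s := Real.exp_pos _
  have hs1 : s < 1 := by
    rw [hs, Real.exp_lt_one_iff]
    linarith
  have hvp := v_pos hs0 hs1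
  have hpi := Real.pi_pos
  have e2 : Real.exp (-2 * t) = s ^ 2 := by
    rw [hs, ← Real.exp_nat_mul]
    congr 1
    push_cast
    ring
  unfold fokkerPlanck
  rw [if_neg ht.ne', e2, ← hs]
  have hconst : (2 * Real.pi * (1 - s ^ 2)) ^ (-(n : ℝ) / 2) = ∏ _i : Fin n, kc s := by
    rw [Finset.prod_const, Finset.card_univ, Fintype.card_fin]
    unfold kc
    generalize hAA : 2 * Real.pi * (1 - s ^ 2) = A
    have hA0 : 0 < A := by
      rw [← hAA]
      positivity
    rw [Real.sqrt_eq_rpow, ← Real.rpow_neg hA0.le, ← Real.rpow_natCast (A ^ (-(1 / 2 : ℝ))) n,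
      ← Real.rpow_mul hA0.le]
    congr 1
    ring
  have hker : ∀ z : E n, T i₀ h z * ((2 * Real.pi * (1 - s ^ 2)) ^ (-(n : ℝ) / 2)
      * Real.exp (-‖x - s • z‖ ^ 2 / (2 * (1 - s ^ 2))))
      = ∏ i, (fun u => cf i₀ h i u * ker s (x i) u) (z i) := by
    intro z
    rw [Finset.prod_mul_distrib]
    unfold T
    congr 1
    rw [hconst, EuclideanSpace.norm_sq_eq]
    have : Real.exp (-(∑ i, ‖(x - s • z) i‖ ^ 2) / (2 * (1 - s ^ 2)))
        = ∏ i, Real.exp (-(x i - s * z i) ^ 2 / (2 * (1 - s ^ 2))) := by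
      rw [← Real.exp_sum, ← Finset.sum_div, ← Finset.sum_neg_distrib]
      congr 2
      refine Finset.sum_congr rfl fun i _ => ?_
      rw [Real.norm_eq_abs, sq_abs]
      rfl
    rw [this, ← Finset.prod_mul_distrib]
    rfl
  rw [integral_congr_ae (Eventually.of_forall hker),
    prod_integral (fun i u => cf i₀ h i u * ker s (x i) u)]
  unfold T
  refine Finset.prod_congr rfl fun i _ => ?_
  by_cases hi : i = i₀
  · rw [hi, cf_self, cf_self]
    rfl
  · rw [cf_ne i₀ _ hi, cf_ne i₀ _ hi, ← ev_gs hs0 hs1]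
    rfl

/-- The polar of a tensor product. -/
theorem polar_T {h : ℝ → ℝ} (hne : ∃ x, 0 < h x) (y : E n) :
    polar (T i₀ h) y = T i₀ (polar1 h) y := by
  set C := ∏ i ∈ Finset.univ.erase i₀, gs (y i) with hC
  have hC0 : 0 < C := Finset.prod_pos fun i _ => gs_pos _
  have hbdd : BddBelow (range fun x : {x : E n // 0 < T i₀ h x} =>
      Real.exp (-(inner ℝ x.1 y)) / T i₀ h x.1) := by
    refine ⟨0, ?_⟩
    rintro _ ⟨x, rfl⟩
    exact (div_pos (Real.exp_pos _) x.2).le
  have hinner : ∀ x : E n, Real.exp (-(inner ℝ x y))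
      = Real.exp (-(x i₀ * y i₀)) * ∏ i ∈ Finset.univ.erase i₀, Real.exp (-(x i * y i)) := by
    intro x
    rw [Finset.mul_prod_erase Finset.univ (fun i => Real.exp (-(x i * y i)))
      (Finset.mem_univ i₀), ← Real.exp_sum]
    congr 1
    rw [Finset.sum_neg_distrib, PiLp.inner_apply]
    congr 1
    refine Finset.sum_congr rfl fun i _ => ?_
    rw [real_inner_comm]
    simp [mul_comm]
  rw [T_split i₀ (polar1 h), ← hC]
  apply le_antisymm
  · rw [← div_le_iff₀ hC0]
    refine le_polar1 hne fun x₀ hx₀ => ?_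
    rw [div_le_iff₀ hC0]
    set x : E n := WithLp.toLp 2 (fun i => if i = i₀ then x₀ else y i) with hx
    have hxi : x i₀ = x₀ := by simp [hx]
    have hxn : ∀ i ∈ Finset.univ.erase i₀, x i = y i := by
      intro i hi
      have := Finset.ne_of_mem_erase hi
      simp [hx, this]
    have hTx : T i₀ h x = h x₀ * C := by
      rw [T_split, hxi, hC]
      congr 1
      exact Finset.prod_congr rfl fun i hi => by rw [hxn i hi]
    have hpos : 0 < T i₀ h x := by
      rw [hTx]
      positivity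
    refine (ciInf_le hbdd ⟨x, hpos⟩).trans (le_of_eq ?_)
    rw [hinner x, hTx, hxi]
    have : ∏ i ∈ Finset.univ.erase i₀, Real.exp (-(x i * y i)) = C * C := by
      rw [hC, ← Finset.prod_mul_distrib]
      refine Finset.prod_congr rfl fun i hi => ?_
      rw [hxn i hi]
      unfold gs
      rw [← Real.exp_add]
      congr 1
      ring
    rw [this]
    field_simp
  · obtain ⟨x₁, hx₁⟩ := hne
    have : Nonempty {x : E n // 0 < T i₀ h x} := by
      refine ⟨⟨WithLp.toLp 2 (fun i => if i = i₀ then x₁ else 0), ?_⟩⟩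
      rw [T_split]
      refine mul_pos ?_ (Finset.prod_pos fun i _ => gs_pos _)
      simpa using hx₁
    refine le_ciInf fun x => ?_
    have hpos := x.2
    rw [T_split] at hpos
    have hD0 : 0 < ∏ i ∈ Finset.univ.erase i₀, gs (x.1 i) := Finset.prod_pos fun i _ => gs_pos _
    have hh0 : 0 < h (x.1 i₀) := pos_of_mul_pos_left hpos hD0.le
    rw [hinner x.1, T_split]
    have h1 := polar1_le hh0 (y i₀)
    have h2 : C ≤ (∏ i ∈ Finset.univ.erase i₀, Real.exp (-(x.1 i * y i)))
        / ∏ i ∈ Finset.univ.erase i₀, gs (x.1 i) := by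
      rw [← Finset.prod_div_distrib]
      refine Finset.prod_le_prod (fun i _ => (gs_pos _).le) fun i _ => ?_
      unfold gs
      rw [← Real.exp_sub, Real.exp_le_exp]
      nlinarith [sq_nonneg (x.1 i - y i)]
    calc polar1 h (y i₀) * C
        ≤ (Real.exp (-(x.1 i₀ * y i₀)) / h (x.1 i₀))
          * ((∏ i ∈ Finset.univ.erase i₀, Real.exp (-(x.1 i * y i)))
            / ∏ i ∈ Finset.univ.erase i₀, gs (x.1 i)) :=
          mul_le_mul h1 h2 hC0.le (by positivity)
      _ = _ := by field_simp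

theorem polar_nonneg' (f : E n → ℝ) (y : E n) : 0 ≤ polar f y :=
  Real.iInf_nonneg fun x => (div_pos (Real.exp_pos _) x.2).le

/-- The volume product of a tensor product. -/
theorem volProd_T {h : ℝ → ℝ} (hh0 : ∀ x, 0 ≤ h x) (hh : Integrable h) (hne : ∃ x, 0 < h x)
    (hp : Integrable (polar1 h)) :
    volProd (T i₀ h) = ENNReal.ofReal (Cn i₀ ^ 2 * ((∫ x, h x) * ∫ y, polar1 h y)) := by
  unfold volProd
  have h1 : (fun y => ENNReal.ofReal (polar (T i₀ h) y))
      = fun y => ENNReal.ofReal (T i₀ (polar1 h) y) := by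
    ext y
    rw [polar_T i₀ hne]
  rw [h1, ← ofReal_integral_eq_lintegral_ofReal (T_int i₀ hh)
    (Eventually.of_forall fun x => T_nonneg i₀ hh0 x),
    ← ofReal_integral_eq_lintegral_ofReal (T_int i₀ hp)
    (Eventually.of_forall fun x => T_nonneg i₀ (polar1_nonneg h) x),
    ← ENNReal.ofReal_mul (integral_nonneg fun x => T_nonneg i₀ hh0 x), T_integral, T_integral]
  congr 1
  ring

theorem T_admissible {h : ℝ → ℝ} (hh0 : ∀ x, 0 ≤ h x) (hm : Measurable h) (hh : Integrable h)
    (hpos : 0 < ∫ x, h x) : Admissible (T i₀ h) := by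
  refine ⟨T_nonneg i₀ hh0, T_meas i₀ hm, T_int i₀ hh, ?_⟩
  rw [T_integral]
  exact mul_pos hpos (Cn_pos i₀)

end Prod

end Q94.FP
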