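import Mathlib

/-! Flat torus embeddings: definitions, the trace bound and attainment of the minimum. -/

namespace Pool.Agent.FlatTorus

open Filter Topology
open scoped BigOperators

/-- Euclidean space of dimension `n`. -/
abbrev E (n : ℕ) : Type := EuclideanSpace ℝ (Fin n)

/-- The Euclidean inner product. -/
noncomputable def ip {n : ℕ} (u v : E n) : ℝ := inner ℝ u v

/-- `L` is an `n`-dimensional lattice: the integer span of a basis of `ℝⁿ`. -/
def IsLattice {n : ℕ} (L : Submodule ℤ (E n)) : Prop :=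
  ∃ b : Module.Basis (Fin n) ℝ (E n), L = Submodule.span ℤ (Set.range b)

/-- The dual lattice. -/
def dual {n : ℕ} (L : Submodule ℤ (E n)) : Set (E n) :=
  {u | ∀ v ∈ L, ∃ k : ℤ, ip u v = k}

/-- The Voronoi cell. -/
def Vor {n : ℕ} (L : Submodule ℤ (E n)) : Set (E n) := {x | ∀ v ∈ L, ‖x‖ ≤ ‖x - v‖}

/-- The distance of the flat torus `ℝⁿ/L` between the classes of `x` and `y`. -/
noncomputable def torDist {n : ℕ} (L : Submodule ℤ (E n)) (x y : E n) : ℝ :=
  Metric.infDist (x - y) (L : Set (E n))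

/-- `φ` is the lift to `ℝⁿ` of an injective map defined on `ℝⁿ/L`. -/
def TorusInj {n : ℕ} (L : Submodule ℤ (E n)) {H : Type} (φ : E n → H) : Prop :=
  ∀ x y, φ x = φ y ↔ x - y ∈ L

/-- The expansion of `φ`. -/
noncomputable def expansion {n : ℕ} (L : Submodule ℤ (E n)) {H : Type} [NormedAddCommGroup H]
    (φ : E n → H) : ENNReal :=
  ⨆ (x : E n) (y : E n) (_ : x - y ∉ L), ENNReal.ofReal (‖φ x - φ y‖ / torDist L x y)

/-- The contraction of `φ`. -/
noncomputable def contraction {n : ℕ} (L : Submodule ℤ (E n)) {H : Type} [NormedAddCommGroup H]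
    (φ : E n → H) : ENNReal :=
  ⨆ (x : E n) (y : E n) (_ : x - y ∉ L), ENNReal.ofReal (torDist L x y / ‖φ x - φ y‖)

/-- The distortion of `φ`. -/
noncomputable def distortion {n : ℕ} (L : Submodule ℤ (E n)) {H : Type} [NormedAddCommGroup H]
    (φ : E n → H) : ENNReal := expansion L φ * contraction L φ

/-- The Euclidean distortion `c₂(ℝⁿ/L)`: the infimum of the distortions of all injective maps of
`ℝⁿ/L` into complex Hilbert spaces. -/
noncomputable def c2 {n : ℕ} (L : Submodule ℤ (E n)) : ENNReal :=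
  sInf {D | ∃ (H : Type) (_ : NormedAddCommGroup H) (_ : InnerProductSpace ℂ H)
    (_ : CompleteSpace H) (φ : E n → H), TorusInj L φ ∧ D = distortion L φ}

/-- The function `F_z`. -/
noncomputable def Fz {n : ℕ} (L : Submodule ℤ (E n)) (z : dual L → ℝ) (x : E n) : ℝ :=
  2 * ∑' u : dual L, z u * (1 - Real.cos (2 * Real.pi * ip (u : E n) x))

/-- Admissible weights: nonnegative, even, summable functions on the dual lattice. -/
def Weight {n : ℕ} (L : Submodule ℤ (E n)) (z : dual L → ℝ) : Prop :=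
  (∀ u, 0 ≤ z u) ∧ (∀ u v : dual L, (u : E n) = -(v : E n) → z u = z v) ∧ Summable z

/-- `Φ` is the map `φ_z : ℝⁿ/L → ℓ²(L*)`. -/
def IsPhi {n : ℕ} (L : Submodule ℤ (E n)) (z : dual L → ℝ)
    (Φ : E n → lp (fun _ : dual L => ℂ) 2) : Prop :=
  ∀ (x : E n) (u : dual L),
    Φ x u = (Real.sqrt (z u) : ℂ) * Complex.exp (2 * Real.pi * Complex.I * (ip (u : E n) x : ℝ))

/-- `z` is optimal for `L`. -/
def Optimal {n : ℕ} (L : Submodule ℤ (E n)) (z : dual L → ℝ) : Prop :=
  Weight L z ∧ ∃ Φ : E n → lp (fun _ : dual L => ℂ) 2,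
    IsPhi L z Φ ∧ TorusInj L Φ ∧ distortion L Φ = c2 L

/-- `x` is a most contracted point of `φ_z`. -/
def MostContracted {n : ℕ} (L : Submodule ℤ (E n)) (z : dual L → ℝ) (x : E n) : Prop :=
  (x ∈ Vor L ∧ x ≠ 0) ∧
    ∀ y, y ∈ Vor L ∧ y ≠ 0 → ‖y‖ ^ 2 / Fz L z y ≤ ‖x‖ ^ 2 / Fz L z x

/-! ### Internal version -/

variable {n : ℕ}

/-- `F_z` for weights defined on the whole space. -/
noncomputable def F (z : E n → ℝ) (x : E n) : ℝ :=
  2 * ∑' u : E n, z u * (1 - Real.cos (2 * Real.pi * ip u x))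

/-- Feasible pairs. -/
structure Feas (L : Submodule ℤ (E n)) (C : ℝ) (z : E n → ℝ) : Prop where
  nonneg : ∀ u, 0 ≤ z u
  even : ∀ u, z (-u) = z u
  zero : z 0 = 0
  supp : ∀ u, z u ≠ 0 → u ∈ dual L
  summ : Summable z
  lower : ∀ x, Metric.infDist x (L : Set (E n)) ^ 2 ≤ F z x
  upper : ∀ x, F z x ≤ C * ‖x‖ ^ 2

theorem one_sub_cos_nonneg (t : ℝ) : 0 ≤ 1 - Real.cos t := by
  have := Real.cos_le_one t; linarith

theorem one_sub_cos_le_two (t : ℝ) : 1 - Real.cos t ≤ 2 := by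
  have := Real.neg_one_le_cos t; linarith

theorem one_sub_cos_eq (t : ℝ) : 1 - Real.cos t = t ^ 2 / 2 * Real.sinc (t / 2) ^ 2 := by
  by_cases h : t = 0
  · subst h; simp
  · have h2 : t / 2 ≠ 0 := by simpa using h
    rw [Real.sinc_of_ne_zero h2]
    have h3 : Real.cos t = 1 - 2 * Real.sin (t / 2) ^ 2 := by
      have := Real.cos_sq_add_sin_sq (t / 2)
      have h4 : Real.cos t = Real.cos (2 * (t / 2)) := by ring_nf
      rw [h4, Real.cos_two_mul]; linarith
    rw [h3]; field_simp; ring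

theorem summ_term {z : E n → ℝ} (h0 : ∀ u, 0 ≤ z u) (hs : Summable z) (x : E n) :
    Summable (fun u => z u * (1 - Real.cos (2 * Real.pi * ip u x))) := by
  refine Summable.of_nonneg_of_le (fun u => mul_nonneg (h0 u) (one_sub_cos_nonneg _))
    (fun u => ?_) (hs.mul_right 2)
  exact mul_le_mul_of_nonneg_left (one_sub_cos_le_two _) (h0 u)

theorem partial_le {z : E n → ℝ} (h0 : ∀ u, 0 ≤ z u) (hs : Summable z) (x : E n)
    (S : Finset (E n)) :
    2 * ∑ u ∈ S, z u * (1 - Real.cos (2 * Real.pi * ip u x)) ≤ F z x := by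
  unfold F
  have := (summ_term h0 hs x).sum_le_tsum S
    (fun u _ => mul_nonneg (h0 u) (one_sub_cos_nonneg _))
  linarith

theorem ip_single (u : E n) (i : Fin n) (t : ℝ) :
    ip u (EuclideanSpace.single i t) = t * u i := by
  unfold ip
  rw [EuclideanSpace.inner_single_right]
  simp

/-- coordinate version of the trace bound -/
theorem coord_bound {L : Submodule ℤ (E n)} {C : ℝ} {z : E n → ℝ} (h : Feas L C z)
    (S : Finset (E n)) (i : Fin n) :
    ∑ u ∈ S, z u * (2 * Real.pi * u i) ^ 2 ≤ C := by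
  set g : ℝ → ℝ := fun ε => ∑ u ∈ S, z u * (2 * Real.pi * u i) ^ 2 *
    Real.sinc (2 * Real.pi * (ε * u i) / 2) ^ 2 with hg
  have hcont : Continuous g := by
    refine continuous_finsetSum _ fun u _ => ?_
    refine continuous_const.mul ((Real.continuous_sinc.comp ?_).pow 2)
    fun_prop
  have hle : ∀ ε : ℝ, ε ≠ 0 → g ε ≤ C := by
    intro ε hε
    have h1 := (partial_le h.nonneg h.summ (EuclideanSpace.single i ε) S).trans
      (h.upper (EuclideanSpace.single i ε))
    have h2 : ‖(EuclideanSpace.single i ε : E n)‖ ^ 2 = ε ^ 2 := by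
      simp
    rw [h2] at h1
    have h3 : 2 * ∑ u ∈ S, z u * (1 - Real.cos (2 * Real.pi * ip u (EuclideanSpace.single i ε)))
        = ε ^ 2 * g ε := by
      rw [hg, Finset.mul_sum, Finset.mul_sum]
      refine Finset.sum_congr rfl fun u _ => ?_
      rw [ip_single, one_sub_cos_eq]
      ring
    rw [h3] at h1
    have h4 : 0 < ε ^ 2 := by positivity
    by_contra hcon
    push Not at hcon
    nlinarith
  have h0 : g 0 ≤ C := by
    have ht : Tendsto g (𝓝[≠] 0) (𝓝 (g 0)) := (hcont.tendsto 0).mono_left nhdsWithin_le_nhds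
    refine le_of_tendsto ht ?_
    filter_upwards [self_mem_nhdsWithin] with ε hε
    exact hle ε hε
  simpa [hg] using h0

theorem trace_bound {L : Submodule ℤ (E n)} {C : ℝ} {z : E n → ℝ} (h : Feas L C z)
    (S : Finset (E n)) :
    4 * Real.pi ^ 2 * ∑ u ∈ S, z u * ‖u‖ ^ 2 ≤ n * C := by
  have h1 : ∑ i : Fin n, ∑ u ∈ S, z u * (2 * Real.pi * u i) ^ 2 ≤ ∑ i : Fin n, C :=
    Finset.sum_le_sum fun i _ => coord_bound h S i
  rw [Finset.sum_comm] at h1
  simp only [Finset.sum_const, Finset.card_univ, Fintype.card_fin, nsmul_eq_mul] at h1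
  refine le_trans (le_of_eq ?_) h1
  rw [Finset.mul_sum]
  refine Finset.sum_congr rfl fun u _ => ?_
  rw [EuclideanSpace.norm_sq_eq, Finset.mul_sum, Finset.mul_sum]
  refine Finset.sum_congr rfl fun i _ => ?_
  rw [Real.norm_eq_abs, sq_abs]; ring

theorem tail_bound {L : Submodule ℤ (E n)} {C : ℝ} {z : E n → ℝ} (h : Feas L C z)
    (S : Finset (E n)) {R : ℝ} (hR : 0 < R) (hS : ∀ u ∈ S, z u ≠ 0 → R ≤ ‖u‖ ^ 2) :
    ∑ u ∈ S, z u ≤ n * C / (4 * Real.pi ^ 2 * R) := by
  have h1 := trace_bound h S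
  have h2 : R * ∑ u ∈ S, z u ≤ ∑ u ∈ S, z u * ‖u‖ ^ 2 := by
    rw [Finset.mul_sum]
    refine Finset.sum_le_sum fun u hu => ?_
    by_cases hz : z u = 0
    · simp [hz]
    · rw [mul_comm]
      exact mul_le_mul_of_nonneg_left (hS u hu hz) (h.nonneg u)
  rw [le_div_iff₀ (by positivity)]
  have h3 : (0 : ℝ) < Real.pi ^ 2 := by positivity
  nlinarith

theorem F_le_of_bound {z : E n → ℝ} (h0 : ∀ u, 0 ≤ z u) (hs : Summable z) {M : ℝ}
    (hM : ∀ S : Finset (E n), ∑ u ∈ S, z u ≤ M) (x : E n) : F z x ≤ 4 * M := by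
  unfold F
  have h1 : ∑' u, z u * (1 - Real.cos (2 * Real.pi * ip u x)) ≤ ∑' u, z u * 2 :=
    (summ_term h0 hs x).tsum_le_tsum
      (fun u => mul_le_mul_of_nonneg_left (one_sub_cos_le_two _) (h0 u)) (hs.mul_right 2)
  rw [tsum_mul_right] at h1
  have h2 : ∑' u, z u ≤ M := hs.tsum_le_of_sum_le hM
  linarith

/-- The lower bound for feasible constants. -/
theorem const_bound {L : Submodule ℤ (E n)} {C : ℝ} {z : E n → ℝ} (h : Feas L C z)
    {lam mu : ℝ} (hlam : 0 < lam) (hdual : ∀ u ∈ dual L, u ≠ 0 → lam ≤ ‖u‖ ^ 2)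
    (x : E n) (hx : mu ≤ Metric.infDist x (L : Set (E n)) ^ 2) :
    Real.pi ^ 2 * lam * mu ≤ n * C := by
  have h1 : ∀ S : Finset (E n), ∑ u ∈ S, z u ≤ n * C / (4 * Real.pi ^ 2 * lam) := by
    intro S
    refine tail_bound h S hlam fun u _ hz => hdual u (h.supp u hz) ?_
    rintro rfl
    exact hz h.zero
  have h2 := hx.trans ((h.lower x).trans (F_le_of_bound h.nonneg h.summ h1 x))
  have h3 : 4 * (n * C / (4 * Real.pi ^ 2 * lam)) = n * C / (Real.pi ^ 2 * lam) := by
    field_simp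
  rw [h3, le_div_iff₀ (by positivity)] at h2
  linarith

end Pool.Agent.FlatTorus
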