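import Pool.Agent.Q94.FTA

/-! The minimal constant is attained. -/

namespace Pool.Agent.FlatTorus

open Filter Topology
open scoped BigOperators

variable {n : ℕ}

theorem F_le_ball {L : Submodule ℤ (E n)} {C : ℝ} {z : E n → ℝ} (h : Feas L C z)
    {R : ℝ} (hR : 0 < R) (B : Finset (E n)) (hB : ∀ u ∈ dual L, ‖u‖ ^ 2 ≤ R → u ∈ B)
    (x : E n) :
    F z x ≤ 2 * ∑ u ∈ B, z u * (1 - Real.cos (2 * Real.pi * ip u x))
      + n * C / (Real.pi ^ 2 * R) := by
  classical
  unfold F
  have key : ∀ S : Finset (E n), ∑ u ∈ S, z u * (1 - Real.cos (2 * Real.pi * ip u x)) ≤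
      ∑ u ∈ B, z u * (1 - Real.cos (2 * Real.pi * ip u x))
        + 2 * (n * C / (4 * Real.pi ^ 2 * R)) := by
    intro S
    have h1 : ∑ u ∈ S, z u * (1 - Real.cos (2 * Real.pi * ip u x)) =
        ∑ u ∈ S.filter (· ∈ B), z u * (1 - Real.cos (2 * Real.pi * ip u x)) +
        ∑ u ∈ S.filter (· ∉ B), z u * (1 - Real.cos (2 * Real.pi * ip u x)) := by
      rw [Finset.sum_filter_add_sum_filter_not]
    have h2 : ∑ u ∈ S.filter (· ∈ B), z u * (1 - Real.cos (2 * Real.pi * ip u x)) ≤
        ∑ u ∈ B, z u * (1 - Real.cos (2 * Real.pi * ip u x)) := by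
      refine Finset.sum_le_sum_of_subset_of_nonneg (fun u hu => (Finset.mem_filter.mp hu).2)
        fun u _ _ => mul_nonneg (h.nonneg u) (one_sub_cos_nonneg _)
    have h3 : ∑ u ∈ S.filter (· ∉ B), z u * (1 - Real.cos (2 * Real.pi * ip u x)) ≤
        ∑ u ∈ S.filter (· ∉ B), z u * 2 :=
      Finset.sum_le_sum fun u _ => mul_le_mul_of_nonneg_left (one_sub_cos_le_two _) (h.nonneg u)
    have h4 : ∑ u ∈ S.filter (· ∉ B), z u ≤ n * C / (4 * Real.pi ^ 2 * R) := by
      refine tail_bound h _ hR fun u hu hz => ?_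
      by_contra hcon
      push Not at hcon
      exact (Finset.mem_filter.mp hu).2 (hB u (h.supp u hz) hcon.le)
    rw [← Finset.sum_mul] at h3
    linarith
  have h5 := (summ_term h.nonneg h.summ x).tsum_le_of_sum_le key
  have h6 : 2 * (2 * (n * C / (4 * Real.pi ^ 2 * R))) = n * C / (Real.pi ^ 2 * R) := by
    field_simp
    ring
  linarith

theorem attained {L : Submodule ℤ (E n)} (hn : 0 < n) {lam : ℝ} (hlam : 0 < lam)
    (hdual : ∀ u ∈ dual L, u ≠ 0 → lam ≤ ‖u‖ ^ 2)
    (hfin : ∀ R : ℝ, (dual L ∩ {u | ‖u‖ ^ 2 ≤ R}).Finite)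
    (hne : ∃ C z, Feas L C z) :
    ∃ C z, Feas L C z ∧ ∀ C' z', Feas L C' z' → C ≤ C' := by
  classical
  set K : Set ℝ := {C | ∃ z, Feas L C z} with hK
  have hKne : K.Nonempty := by
    obtain ⟨C, z, h⟩ := hne
    exact ⟨C, z, h⟩
  have hKb : BddBelow K := by
    refine ⟨0, ?_⟩
    rintro C ⟨z, h⟩
    have := coord_bound h ∅ ⟨0, hn⟩
    simpa using this
  set C1 := sInf K with hC1
  have hC0 : 0 ≤ C1 := by
    refine le_csInf hKne ?_
    rintro C ⟨z, h⟩
    have := coord_bound h ∅ ⟨0, hn⟩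
    simpa using this
  have hseq : ∀ k : ℕ, ∃ C z, Feas L C z ∧ C < C1 + 1 / ((k : ℝ) + 1) := by
    intro k
    have : sInf K < C1 + 1 / ((k : ℝ) + 1) := by
      rw [← hC1]
      have : (0 : ℝ) < 1 / ((k : ℝ) + 1) := by positivity
      linarith
    obtain ⟨C, ⟨z, hz⟩, hlt⟩ := exists_lt_of_csInf_lt hKne this
    exact ⟨C, z, hz, hlt⟩
  choose Cs zs hfeas hlt using hseq
  have hle1 : ∀ k, Cs k ≤ C1 + 1 := by
    intro k
    have h1 : 1 / ((k : ℝ) + 1) ≤ 1 := by
      rw [div_le_one (by positivity)]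
      have : (0 : ℝ) ≤ k := Nat.cast_nonneg k
      linarith
    have := hlt k
    linarith
  set M : ℝ := n * (C1 + 1) / (4 * Real.pi ^ 2 * lam) with hM
  have hsum : ∀ k (S : Finset (E n)), ∑ u ∈ S, zs k u ≤ M := by
    intro k S
    have h1 := tail_bound (hfeas k) S hlam fun u _ hz => hdual u ((hfeas k).supp u hz) (by
      rintro rfl
      exact hz (hfeas k).zero)
    refine h1.trans ?_
    rw [hM]
    gcongr
    exact hle1 k
  set U : Ultrafilter ℕ := hyperfilter ℕ with hU
  have hex : ∀ u : E n, ∃ y ∈ Set.Icc (0 : ℝ) M, Tendsto (fun k => zs k u) U (𝓝 y) := by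
    intro u
    have := (isCompact_Icc (a := (0 : ℝ)) (b := M)).ultrafilter_le_nhds'
      (U.map (fun k => zs k u)) (by
        rw [Ultrafilter.mem_map]
        refine Filter.Eventually.of_forall (f := (U : Filter ℕ)) fun k => ?_
        refine ⟨(hfeas k).nonneg u, ?_⟩
        have := hsum k {u}
        simpa using this)
    obtain ⟨y, hy, hle⟩ := this
    exact ⟨y, hy, hle⟩
  choose z hzI hzt using hex
  have hz0 : ∀ u, 0 ≤ z u := fun u => (hzI u).1
  have hfs : ∀ (S : Finset (E n)) (w : E n → ℝ),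
      Tendsto (fun k => ∑ u ∈ S, zs k u * w u) U (𝓝 (∑ u ∈ S, z u * w u)) := by
    intro S w
    exact tendsto_finsetSum S fun u _ => (hzt u).mul_const (w u)
  have hsM : ∀ S : Finset (E n), ∑ u ∈ S, z u ≤ M := by
    intro S
    have h1 := hfs S (fun _ => 1)
    simp only [mul_one] at h1
    exact le_of_tendsto h1 (Filter.Eventually.of_forall fun k => hsum k S)
  have hsumm : Summable z := summable_of_sum_le hz0 hsM
  have hsupp : ∀ u, z u ≠ 0 → u ∈ dual L := by
    intro u hu
    by_contra hcon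
    have h1 : ∀ k, zs k u = 0 := by
      intro k
      by_contra h2
      exact hcon ((hfeas k).supp u h2)
    have h2 := hzt u
    simp only [h1] at h2
    exact hu (tendsto_nhds_unique h2 tendsto_const_nhds)
  have hk0 : Tendsto (fun k : ℕ => C1 + 1 / ((k : ℝ) + 1)) U (𝓝 C1) := by
    have h1 : Tendsto (fun k : ℕ => C1 + 1 / ((k : ℝ) + 1)) atTop (𝓝 (C1 + 0)) :=
      tendsto_const_nhds.add tendsto_one_div_add_atTop_nhds_zero_nat
    rw [add_zero] at h1
    exact h1.mono_left Nat.hyperfilter_le_atTop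
  refine ⟨C1, z, ⟨hz0, ?_, ?_, hsupp, hsumm, ?_, ?_⟩, ?_⟩
  · intro u
    refine tendsto_nhds_unique (hzt (-u)) ?_
    have : (fun k => zs k (-u)) = fun k => zs k u := by
      funext k
      exact (hfeas k).even u
    rw [this]
    exact hzt u
  · refine tendsto_nhds_unique (hzt 0) ?_
    have : (fun k => zs k 0) = fun _ => (0 : ℝ) := by
      funext k
      exact (hfeas k).zero
    rw [this]
    exact tendsto_const_nhds
  · intro x
    have key : ∀ R : ℝ, 0 < R → Metric.infDist x (L : Set (E n)) ^ 2 ≤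
        F z x + n * (C1 + 1) / (Real.pi ^ 2 * R) := by
      intro R hR
      have h1 : ∀ k, Metric.infDist x (L : Set (E n)) ^ 2 ≤
          2 * ∑ u ∈ (hfin R).toFinset, zs k u * (1 - Real.cos (2 * Real.pi * ip u x))
            + n * (C1 + 1) / (Real.pi ^ 2 * R) := by
        intro k
        have h2 := F_le_ball (hfeas k) hR (hfin R).toFinset (by
          intro u hu hR'
          rw [Set.Finite.mem_toFinset]
          exact ⟨hu, hR'⟩) x
        have h3 : n * Cs k / (Real.pi ^ 2 * R) ≤ n * (C1 + 1) / (Real.pi ^ 2 * R) := by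
          gcongr
          exact hle1 k
        have h4 := (hfeas k).lower x
        linarith
      have h2 : Tendsto (fun k => 2 * ∑ u ∈ (hfin R).toFinset,
          zs k u * (1 - Real.cos (2 * Real.pi * ip u x)) + n * (C1 + 1) / (Real.pi ^ 2 * R)) U
          (𝓝 (2 * ∑ u ∈ (hfin R).toFinset, z u * (1 - Real.cos (2 * Real.pi * ip u x))
            + n * (C1 + 1) / (Real.pi ^ 2 * R))) :=
        ((hfs _ _).const_mul 2).add_const _
      have h3 := ge_of_tendsto h2 (Filter.Eventually.of_forall h1)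
      have h4 := partial_le hz0 hsumm x (hfin R).toFinset
      linarith
    refine le_of_forall_pos_le_add fun ε hε => ?_
    set R : ℝ := n * (C1 + 1) / (Real.pi ^ 2 * ε) with hR
    have hnpos : (0 : ℝ) < n := by exact_mod_cast hn
    have hRpos : 0 < R := by
      rw [hR]
      positivity
    have h1 := key R hRpos
    have h2 : n * (C1 + 1) / (Real.pi ^ 2 * R) = ε := by
      rw [hR]
      have : (0 : ℝ) < n * (C1 + 1) := by positivity
      field_simp
    rw [h2] at h1
    exact h1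
  · intro x
    have key : ∀ S : Finset (E n), ∑ u ∈ S, z u * (1 - Real.cos (2 * Real.pi * ip u x)) ≤
        C1 * ‖x‖ ^ 2 / 2 := by
      intro S
      have h1 : ∀ k, ∑ u ∈ S, zs k u * (1 - Real.cos (2 * Real.pi * ip u x)) ≤
          (C1 + 1 / ((k : ℝ) + 1)) * ‖x‖ ^ 2 / 2 := by
        intro k
        have h2 := partial_le (hfeas k).nonneg (hfeas k).summ x S
        have h3 := (hfeas k).upper x
        have h4 : Cs k * ‖x‖ ^ 2 ≤ (C1 + 1 / ((k : ℝ) + 1)) * ‖x‖ ^ 2 :=
          mul_le_mul_of_nonneg_right (hlt k).le (by positivity)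
        linarith
      exact le_of_tendsto_of_tendsto (hfs S _) ((hk0.mul_const _).div_const 2)
        (Filter.Eventually.of_forall h1)
    have h1 := (summ_term hz0 hsumm x).tsum_le_of_sum_le key
    unfold F
    linarith
  · intro C' z' h'
    exact csInf_le hKb ⟨z', h'⟩

end Pool.Agent.FlatTorus
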