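import Pool.Agent.Q94.FTB

/-! Fourier expansion of the averaged squared distance of a Hilbert space valued map on a torus. -/

namespace Pool.Agent.FlatTorus

open Filter Topology MeasureTheory UnitAddTorus
open scoped BigOperators ComplexConjugate

noncomputable local instance : MeasureSpace UnitAddCircle := ⟨AddCircle.haarAddCircle⟩

local instance : Measure.IsAddHaarMeasure (volume : Measure UnitAddCircle) :=
  inferInstanceAs (Measure.IsAddHaarMeasure AddCircle.haarAddCircle)

local instance : IsProbabilityMeasure (volume : Measure UnitAddCircle) :=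
  inferInstanceAs (IsProbabilityMeasure AddCircle.haarAddCircle)

section

variable {m : ℕ} {H : Type} [NormedAddCommGroup H] [InnerProductSpace ℂ H] [CompleteSpace H]

theorem integrable_cont {G : Type*} [NormedAddCommGroup G] {g : UnitAddTorus (Fin m) → G}
    (hg : Continuous g) : Integrable g (volume : Measure (UnitAddTorus (Fin m))) :=
  hg.integrable_of_hasCompactSupport (HasCompactSupport.of_compactSpace g)

theorem mFourier_add_arg (k : Fin m → ℤ) (x y : UnitAddTorus (Fin m)) :
    mFourier k (x + y) = mFourier k x * mFourier k y := by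
  simp only [mFourier, ContinuousMap.coe_mk, Pi.add_apply, ← Finset.prod_mul_distrib]
  refine Finset.prod_congr rfl fun i _ => ?_
  rw [fourier_apply, fourier_apply, fourier_apply, smul_add, AddCircle.toCircle_add]
  simp

theorem mFourier_mul_neg (k : Fin m → ℤ) (x : UnitAddTorus (Fin m)) :
    mFourier k x * mFourier (-k) x = 1 := by
  rw [← mFourier_add, add_neg_cancel, mFourier_zero]
  rfl

theorem integral_mFourier (k : Fin m → ℤ) :
    ∫ t : UnitAddTorus (Fin m), mFourier k t = if k = 0 then 1 else 0 := by
  have h1 := (orthonormal_iff_ite.mp (orthonormal_mFourier (d := Fin m))) 0 k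
  rw [ContinuousMap.inner_toLp] at h1
  simp only [mFourier_zero] at h1
  by_cases hk : k = 0
  · subst hk
    simp only [mFourier_zero]
    simp
  · rw [if_neg hk]
    rw [if_neg (Ne.symm hk)] at h1
    simpa using h1

/-- translation invariance -/
theorem integral_shift {G : Type*} [NormedAddCommGroup G] [NormedSpace ℝ G]
    (g : UnitAddTorus (Fin m) → G) (x : UnitAddTorus (Fin m)) :
    ∫ w, g (x + w) = ∫ w, g w := integral_add_left_eq_self g x

/-- the Fourier coefficients of a vector-valued map -/
noncomputable def hc (f : C(UnitAddTorus (Fin m), H)) (k : Fin m → ℤ) : H :=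
  ∫ t, mFourier (-k) t • f t

theorem integral_inner_fourier (f : C(UnitAddTorus (Fin m), H)) (k : Fin m → ℤ) (c : H) :
    ∫ w, inner ℂ (mFourier k w • c) (f w) = inner ℂ c (hc f k) := by
  unfold hc
  rw [← integral_inner (integrable_cont (by fun_prop))]
  refine integral_congr_ae (Eventually.of_forall fun w => ?_)
  simp only
  rw [inner_smul_left, inner_smul_right, mFourier_neg]

theorem integral_fourier_mul (k l : Fin m → ℤ) (c : H) :
    ∫ w : UnitAddTorus (Fin m), mFourier (-k) w • mFourier l w • c = if k = l then c else 0 := by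
  have h1 : ∀ w : UnitAddTorus (Fin m), mFourier (-k) w • mFourier l w • c =
      mFourier (-k + l) w • c := by
    intro w
    rw [smul_smul, mFourier_add]
  simp only [h1]
  rw [integral_smul_const, integral_mFourier]
  by_cases h : k = l
  · subst h; simp
  · have h2 : ¬ (-k + l = 0) := by
      intro h3
      exact h (neg_add_eq_zero.mp h3)
    rw [if_neg h, if_neg h2, zero_smul]

theorem re_integral {g : UnitAddTorus (Fin m) → ℂ} (hg : Continuous g) :
    (∫ w, g w).re = ∫ w, (g w).re :=
  (integral_re (integrable_cont hg)).symm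

theorem integral_norm_sub_sq {f g : UnitAddTorus (Fin m) → H} (hf : Continuous f)
    (hg : Continuous g) :
    ∫ w, ‖f w - g w‖ ^ 2 = (∫ w, ‖f w‖ ^ 2) - 2 * (∫ w, inner ℂ (g w) (f w)).re
      + (∫ w, ‖g w‖ ^ 2) := by
  rw [re_integral (by fun_prop), ← integral_const_mul, ← integral_sub, ← integral_add]
  · refine integral_congr_ae (Eventually.of_forall fun w => ?_)
    simp only
    rw [@norm_sub_sq ℂ]
    have : RCLike.re (inner ℂ (f w) (g w)) = (inner ℂ (g w) (f w)).re := inner_re_symm (𝕜 := ℂ) _ _
    rw [this]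
  · exact integrable_cont (by fun_prop)
  · exact integrable_cont (by fun_prop)
  · exact integrable_cont (by fun_prop)
  · exact integrable_cont (by fun_prop)

theorem re_integral_inner_self {g : UnitAddTorus (Fin m) → H} (hg : Continuous g) :
    (∫ w, inner ℂ (g w) (g w)).re = ∫ w, ‖g w‖ ^ 2 := by
  rw [re_integral (by fun_prop)]
  refine integral_congr_ae (Eventually.of_forall fun w => ?_)
  simp only
  exact (norm_sq_eq_re_inner (𝕜 := ℂ) (g w)).symm

/-- Bessel's inequality -/
theorem bessel (f : C(UnitAddTorus (Fin m), H)) (S : Finset (Fin m → ℤ)) :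
    ∑ k ∈ S, ‖hc f k‖ ^ 2 ≤ ∫ w, ‖f w‖ ^ 2 := by
  set g : UnitAddTorus (Fin m) → H := fun w => ∑ k ∈ S, mFourier k w • hc f k with hg
  have hgc : Continuous g := by
    rw [hg]
    exact continuous_finsetSum _ fun k _ => by fun_prop
  have h1 : ∫ w, inner ℂ (g w) (f w) = ((∑ k ∈ S, ‖hc f k‖ ^ 2 : ℝ) : ℂ) := by
    have h2 : ∀ w, inner ℂ (g w) (f w) =
        ∑ k ∈ S, inner ℂ (mFourier k w • hc f k) (f w) := by
      intro w
      rw [hg]
      simp only
      rw [sum_inner]
    simp only [h2]
    rw [integral_finsetSum]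
    · push_cast
      refine Finset.sum_congr rfl fun k _ => ?_
      rw [integral_inner_fourier, inner_self_eq_norm_sq_to_K]
      rfl
    · intro k _
      exact integrable_cont (by fun_prop)
  have h3 : ∫ w, inner ℂ (g w) (g w) = ((∑ k ∈ S, ‖hc f k‖ ^ 2 : ℝ) : ℂ) := by
    have h2 : ∀ w, inner ℂ (g w) (g w) =
        ∑ k ∈ S, inner ℂ (mFourier k w • hc f k) (g w) := by
      intro w
      conv_lhs => rw [hg]
      simp only
      rw [sum_inner]
    simp only [h2]
    rw [integral_finsetSum]
    · push_cast
      refine Finset.sum_congr rfl fun k hk => ?_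
      have h4 := integral_inner_fourier (⟨g, hgc⟩ : C(UnitAddTorus (Fin m), H)) k (hc f k)
      simp only [ContinuousMap.coe_mk] at h4
      rw [h4]
      have h5 : hc (⟨g, hgc⟩ : C(UnitAddTorus (Fin m), H)) k = hc f k := by
        unfold hc
        simp only [ContinuousMap.coe_mk, hg, Finset.smul_sum]
        rw [integral_finsetSum]
        · simp only [integral_fourier_mul]
          rw [Finset.sum_ite_eq]
          simp [hk, hc]
        · intro l _
          exact integrable_cont (by fun_prop)
      rw [h5, inner_self_eq_norm_sq_to_K]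
      rfl
    · intro k _
      exact integrable_cont (by fun_prop)
  have h6 : (0 : ℝ) ≤ ∫ w, ‖f w - g w‖ ^ 2 := integral_nonneg fun w => by positivity
  have h7 : ∫ w, ‖f w - g w‖ ^ 2 = (∫ w, ‖f w‖ ^ 2) - 2 * (∫ w, inner ℂ (g w) (f w)).re
      + (∫ w, inner ℂ (g w) (g w)).re := by
    rw [re_integral_inner_self hgc]
    exact integral_norm_sub_sq f.continuous hgc
  rw [h7, h1, h3] at h6
  simp only [Complex.ofReal_re] at h6
  linarith

/-- the averaged correlation function -/
noncomputable def corr (f : C(UnitAddTorus (Fin m), H)) (x : UnitAddTorus (Fin m)) : ℂ :=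
  ∫ w, inner ℂ (f w) (f (x + w))

theorem corr_cont (f : C(UnitAddTorus (Fin m), H)) : Continuous (corr f) := by
  have h := continuous_parametric_integral_of_continuous (μ := (volume : Measure
    (UnitAddTorus (Fin m)))) (f := fun x w : UnitAddTorus (Fin m) => inner ℂ (f w) (f (x + w)))
    (by
      unfold Function.uncurry
      fun_prop) (isCompact_univ)
  rw [Measure.restrict_univ] at h
  exact h

theorem corr_coeff (f : C(UnitAddTorus (Fin m), H)) (k : Fin m → ℤ) :
    mFourierCoeff (corr f) k = ((‖hc f k‖ ^ 2 : ℝ) : ℂ) := by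
  unfold mFourierCoeff corr
  have h1 : ∀ x : UnitAddTorus (Fin m), mFourier (-k) x • ∫ w, inner ℂ (f w) (f (x + w)) =
      ∫ w, inner ℂ (f w) (mFourier (-k) x • f (x + w)) := by
    intro x
    rw [← integral_smul]
    refine integral_congr_ae (Eventually.of_forall fun w => ?_)
    simp only
    rw [inner_smul_right, smul_eq_mul]
  simp only [h1]
  rw [integral_integral_swap]
  · have h2 : ∀ w : UnitAddTorus (Fin m),
        ∫ x, inner ℂ (f w) (mFourier (-k) x • f (x + w)) = inner ℂ (f w) (mFourier k w • hc f k) := by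
      intro w
      rw [integral_inner (integrable_cont (by fun_prop))]
      congr 1
      have h3 : ∀ x : UnitAddTorus (Fin m), mFourier (-k) x • f (x + w) =
          mFourier k w • (mFourier (-k) (w + x) • f (w + x)) := by
        intro x
        rw [smul_smul, mFourier_add_arg, ← mul_assoc, mFourier_mul_neg, one_mul, add_comm x w]
      simp only [h3]
      rw [integral_smul, integral_shift (fun y => mFourier (-k) y • f y) w]
      rfl
    simp only [h2]
    have h4 : ∀ w : UnitAddTorus (Fin m), inner ℂ (f w) (mFourier k w • hc f k) =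
        conj (inner ℂ (mFourier k w • hc f k) (f w)) := by
      intro w
      rw [inner_conj_symm]
    simp only [h4]
    rw [integral_conj, integral_inner_fourier, inner_self_eq_norm_sq_to_K]
    simp
  · refine Continuous.integrable_of_hasCompactSupport ?_ (HasCompactSupport.of_compactSpace _)
    unfold Function.uncurry
    fun_prop

theorem summ_hc (f : C(UnitAddTorus (Fin m), H)) : Summable (fun k => ‖hc f k‖ ^ 2) :=
  summable_of_sum_le (fun k => by positivity) (bessel f)

theorem hasSum_corr (f : C(UnitAddTorus (Fin m), H)) (x : UnitAddTorus (Fin m)) :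
    HasSum (fun k => ‖hc f k‖ ^ 2 * (mFourier k x).re) (corr f x).re := by
  have h1 : Summable (mFourierCoeff (⟨corr f, corr_cont f⟩ : C(UnitAddTorus (Fin m), ℂ))) := by
    have h2 : mFourierCoeff (⟨corr f, corr_cont f⟩ : C(UnitAddTorus (Fin m), ℂ)) =
        fun k => ((‖hc f k‖ ^ 2 : ℝ) : ℂ) := by
      funext k
      exact corr_coeff f k
    rw [h2]
    exact_mod_cast summ_hc f
  have h3 := hasSum_mFourier_series_apply_of_summable h1 x
  have h4 := Complex.hasSum_re h3
  have h5 : (fun k => ‖hc f k‖ ^ 2 * (mFourier k x).re) = fun k =>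
      (mFourierCoeff (⟨corr f, corr_cont f⟩ : C(UnitAddTorus (Fin m), ℂ)) k • mFourier k x).re := by
    funext k
    have h6 : mFourierCoeff (⟨corr f, corr_cont f⟩ : C(UnitAddTorus (Fin m), ℂ)) k =
        ((‖hc f k‖ ^ 2 : ℝ) : ℂ) := corr_coeff f k
    rw [h6, smul_eq_mul, Complex.re_ofReal_mul]
  rw [h5]
  exact h4

/-- The main expansion. -/
theorem hasSum_avg (f : C(UnitAddTorus (Fin m), H)) (x : UnitAddTorus (Fin m)) :
    HasSum (fun k => ‖hc f k‖ ^ 2 * (2 * (1 - (mFourier k x).re)))
      (∫ w, ‖f (x + w) - f w‖ ^ 2) := by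
  have h0 := hasSum_corr f 0
  have h1 := hasSum_corr f x
  have h2 := (h0.sub h1).mul_left 2
  have h3 : ∫ w, ‖f (x + w) - f w‖ ^ 2 = 2 * ((corr f 0).re - (corr f x).re) := by
    rw [integral_norm_sub_sq (f := fun w => f (x + w)) (by fun_prop) f.continuous]
    have h4 : ∫ w, ‖f (x + w)‖ ^ 2 = ∫ w, ‖f w‖ ^ 2 := integral_shift (fun w => ‖f w‖ ^ 2) x
    have h5 : (corr f 0).re = ∫ w, ‖f w‖ ^ 2 := by
      unfold corr
      simp only [zero_add]
      exact re_integral_inner_self f.continuous
    rw [h4, h5]
    unfold corr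
    ring
  rw [h3]
  have h6 : (fun k => ‖hc f k‖ ^ 2 * (2 * (1 - (mFourier k x).re))) = fun k =>
      2 * (‖hc f k‖ ^ 2 * (mFourier k (0 : UnitAddTorus (Fin m))).re
        - ‖hc f k‖ ^ 2 * (mFourier k x).re) := by
    funext k
    have h7 : mFourier k (0 : UnitAddTorus (Fin m)) = 1 := by
      simp [mFourier]
    rw [h7, Complex.one_re]
    ring
  rw [h6]
  exact h2

end

end Pool.Agent.FlatTorus
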