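import Pool.Agent.Q94.FTC

/-! Every bi-Lipschitz map of the torus gives a feasible weight. -/

namespace Pool.Agent.FlatTorus

open Filter Topology MeasureTheory UnitAddTorus
open scoped BigOperators ComplexConjugate

noncomputable local instance : MeasureSpace UnitAddCircle := ⟨AddCircle.haarAddCircle⟩

local instance : Measure.IsAddHaarMeasure (volume : Measure UnitAddCircle) :=
  inferInstanceAs (Measure.IsAddHaarMeasure AddCircle.haarAddCircle)

local instance : IsProbabilityMeasure (volume : Measure UnitAddCircle) :=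
  inferInstanceAs (IsProbabilityMeasure AddCircle.haarAddCircle)

section

variable {m : ℕ}

/-- the quotient map -/
noncomputable def qm (t : Fin m → ℝ) : UnitAddTorus (Fin m) := fun i => (t i : UnitAddCircle)

theorem qm_quot : IsOpenQuotientMap (qm (m := m)) := by
  have h := IsOpenQuotientMap.piMap (f := fun (_ : Fin m) (x : ℝ) => (x : UnitAddCircle))
    (fun i => QuotientAddGroup.isOpenQuotientMap_mk)
  exact h

theorem qm_add (s t : Fin m → ℝ) : qm (s + t) = qm s + qm t := by
  funext i
  simp [qm]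

theorem qm_eq {s t : Fin m → ℝ} (h : qm s = qm t) : ∀ i, ∃ k : ℤ, t i - s i = k := by
  intro i
  have h1 : ((s i : ℝ) : UnitAddCircle) = (t i : UnitAddCircle) := congrFun h i
  rw [QuotientAddGroup.eq, AddSubgroup.mem_zmultiples_iff] at h1
  obtain ⟨k, hk⟩ := h1
  refine ⟨k, ?_⟩
  simp at hk
  rw [hk]; ring

theorem mFourier_qm_re (k : Fin m → ℤ) (t : Fin m → ℝ) :
    (mFourier k (qm t)).re = Real.cos (2 * Real.pi * ∑ i, (k i : ℝ) * t i) := by
  have h1 : mFourier k (qm t) = Complex.exp ((2 * Real.pi * ∑ i, (k i : ℝ) * t i : ℝ) * Complex.I) := by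
    simp only [mFourier, ContinuousMap.coe_mk, qm]
    have h2 : ∀ i, fourier (k i) ((t i : ℝ) : UnitAddCircle) =
        Complex.exp (2 * Real.pi * Complex.I * (k i) * (t i)) := by
      intro i
      rw [fourier_coe_apply]
      simp
    simp only [h2]
    rw [← Complex.exp_sum]
    congr 1
    push_cast
    rw [Finset.mul_sum, Finset.sum_mul]
    refine Finset.sum_congr rfl fun i _ => ?_
    ring
  rw [h1, Complex.exp_ofReal_mul_I_re]

/-- the dual vector attached to integer coordinates -/
noncomputable def dv (b : Module.Basis (Fin m) ℝ (E m)) (k : Fin m → ℤ) : E m :=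
  (InnerProductSpace.toDual ℝ (E m)).symm
    (LinearMap.toContinuousLinearMap (∑ i, (k i : ℝ) • b.coord i))

theorem ip_dv (b : Module.Basis (Fin m) ℝ (E m)) (k : Fin m → ℤ) (x : E m) :
    ip (dv b k) x = ∑ i, (k i : ℝ) * b.repr x i := by
  unfold ip dv
  rw [InnerProductSpace.toDual_symm_apply]
  simp

theorem dv_inj (b : Module.Basis (Fin m) ℝ (E m)) : Function.Injective (dv b) := by
  intro k l h
  funext i
  have h1 := ip_dv b k (b i)
  have h2 := ip_dv b l (b i)
  rw [h, h2] at h1
  simp [Finsupp.single_apply] at h1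
  exact h1.symm

theorem dv_neg (b : Module.Basis (Fin m) ℝ (E m)) (k : Fin m → ℤ) : dv b (-k) = - dv b k := by
  have : ∀ x, ip (dv b (-k)) x = ip (- dv b k) x := by
    intro x
    have h1 : ip (- dv b k) x = - ip (dv b k) x := by
      unfold ip; rw [inner_neg_left]
    rw [h1, ip_dv, ip_dv, ← Finset.sum_neg_distrib]
    refine Finset.sum_congr rfl fun i _ => ?_
    simp
  exact ext_inner_right ℝ this

theorem dv_zero (b : Module.Basis (Fin m) ℝ (E m)) : dv b 0 = 0 := by
  unfold dv; simp

theorem repr_int (b : Module.Basis (Fin m) ℝ (E m)) {v : E m}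
    (hv : v ∈ Submodule.span ℤ (Set.range b)) (i : Fin m) : ∃ k : ℤ, b.repr v i = k := by
  have := (b.mem_span_iff_repr_mem ℤ v).mp hv i
  obtain ⟨k, hk⟩ := this
  refine ⟨k, ?_⟩
  rw [← hk]; simp

theorem dv_mem (b : Module.Basis (Fin m) ℝ (E m)) (k : Fin m → ℤ) :
    dv b k ∈ dual (Submodule.span ℤ (Set.range b)) := by
  intro v hv
  rw [ip_dv]
  choose l hl using fun i => repr_int b hv i
  refine ⟨∑ i, k i * l i, ?_⟩
  push_cast
  exact Finset.sum_congr rfl fun i _ => by rw [hl i]

theorem mem_span_of_int (b : Module.Basis (Fin m) ℝ (E m)) {v : E m}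
    (hv : ∀ i, ∃ k : ℤ, b.repr v i = k) : v ∈ Submodule.span ℤ (Set.range b) := by
  rw [b.mem_span_iff_repr_mem ℤ v]
  intro i
  obtain ⟨k, hk⟩ := hv i
  exact ⟨k, by rw [hk]; simp⟩

/-- integer coordinates of a dual vector -/
noncomputable def kk (b : Module.Basis (Fin m) ℝ (E m)) (u : E m) : Fin m → ℤ :=
  fun i => round (ip u (b i))

theorem kk_dv (b : Module.Basis (Fin m) ℝ (E m)) (k : Fin m → ℤ) : kk b (dv b k) = k := by
  funext i
  unfold kk
  rw [ip_dv]
  simp [Finsupp.single_apply]

open Classical in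
/-- the weight on the dual lattice attached to a family of coefficients -/
noncomputable def zc (b : Module.Basis (Fin m) ℝ (E m)) (c : (Fin m → ℤ) → ℝ) (u : E m) : ℝ :=
  if u ∈ Set.range (dv b) ∧ u ≠ 0 then (c (kk b u) + c (-kk b u)) / 2 else 0

theorem zc_dv (b : Module.Basis (Fin m) ℝ (E m)) (c : (Fin m → ℤ) → ℝ) (k : Fin m → ℤ)
    (hk : k ≠ 0) : zc b c (dv b k) = (c k + c (-k)) / 2 := by
  unfold zc
  rw [if_pos, kk_dv]
  refine ⟨⟨k, rfl⟩, ?_⟩
  rw [← dv_zero b]
  exact fun h => hk (dv_inj b h)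

theorem zc_zero (b : Module.Basis (Fin m) ℝ (E m)) (c : (Fin m → ℤ) → ℝ) : zc b c 0 = 0 := by
  unfold zc; simp

theorem zc_not (b : Module.Basis (Fin m) ℝ (E m)) (c : (Fin m → ℤ) → ℝ) (u : E m)
    (hu : u ∉ Set.range (dv b)) : zc b c u = 0 := by
  unfold zc; rw [if_neg]; tauto

theorem zc_neg (b : Module.Basis (Fin m) ℝ (E m)) (c : (Fin m → ℤ) → ℝ) (u : E m) :
    zc b c (-u) = zc b c u := by
  by_cases hu : u ∈ Set.range (dv b)
  · obtain ⟨k, rfl⟩ := hu
    by_cases hk : k = 0
    · subst hk; rw [dv_zero, neg_zero]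
    · rw [← dv_neg, zc_dv _ _ _ hk, zc_dv _ _ _ (by simpa using hk), neg_neg, add_comm]
  · rw [zc_not _ _ _ hu, zc_not]
    rintro ⟨k, hk⟩
    refine hu ⟨-k, ?_⟩
    rw [dv_neg, hk, neg_neg]

theorem zc_nonneg (b : Module.Basis (Fin m) ℝ (E m)) {c : (Fin m → ℤ) → ℝ} (hc : ∀ k, 0 ≤ c k)
    (u : E m) : 0 ≤ zc b c u := by
  unfold zc
  split_ifs
  · have h1 := hc (kk b u)
    have h2 := hc (-kk b u)
    positivity
  · exact le_rfl

theorem zc_summ (b : Module.Basis (Fin m) ℝ (E m)) {c : (Fin m → ℤ) → ℝ} (hc : ∀ k, 0 ≤ c k)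
    (hs : Summable c) : Summable (zc b c) := by
  have h1 : Summable (fun k => (c k + c (-k)) / 2) :=
    (hs.add ((Equiv.neg (Fin m → ℤ)).summable_iff.mpr hs)).div_const 2
  have h2 : Summable (zc b c ∘ dv b) := by
    refine Summable.of_nonneg_of_le (fun k => zc_nonneg b hc _) (fun k => ?_) h1
    simp only [Function.comp]
    by_cases hk : k = 0
    · subst hk
      rw [dv_zero, zc_zero]
      have := hc 0
      simp only [neg_zero]
      positivity
    · rw [zc_dv _ _ _ hk]
  exact ((dv_inj b).summable_iff (fun x hx => zc_not b c x hx)).mp h2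

theorem zc_F (b : Module.Basis (Fin m) ℝ (E m)) {c : (Fin m → ℤ) → ℝ} {I : ℝ} {x : E m}
    (hI : HasSum (fun k => c k * (2 * (1 - Real.cos (2 * Real.pi * ip (dv b k) x)))) I) :
    F (zc b c) x = I := by
  unfold F
  have h1 : HasSum (fun k => c (-k) * (2 * (1 - Real.cos (2 * Real.pi * ip (dv b k) x)))) I := by
    have h2 := (Equiv.neg (Fin m → ℤ)).hasSum_iff.mpr hI
    have h3 : ((fun k => c k * (2 * (1 - Real.cos (2 * Real.pi * ip (dv b k) x)))) ∘
        (Equiv.neg (Fin m → ℤ))) =
        fun k => c (-k) * (2 * (1 - Real.cos (2 * Real.pi * ip (dv b k) x))) := by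
      funext k
      simp only [Function.comp, Equiv.neg_apply]
      rw [dv_neg]
      have h4 : ip (- dv b k) x = - ip (dv b k) x := by
        unfold ip; rw [inner_neg_left]
      rw [h4, mul_neg, Real.cos_neg]
    rw [← h3]
    exact h2
  have h2 := (hI.add h1).div_const 4
  have h3 : (fun k => (c k * (2 * (1 - Real.cos (2 * Real.pi * ip (dv b k) x))) +
      c (-k) * (2 * (1 - Real.cos (2 * Real.pi * ip (dv b k) x)))) / 4) =
      (fun u => zc b c u * (1 - Real.cos (2 * Real.pi * ip u x))) ∘ dv b := by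
    funext k
    simp only [Function.comp]
    by_cases hk : k = 0
    · subst hk
      rw [dv_zero]
      have : ip (0 : E m) x = 0 := by unfold ip; simp
      rw [this]
      simp
    · rw [zc_dv _ _ _ hk]
      ring
  rw [h3] at h2
  have h4 := ((dv_inj b).hasSum_iff (fun u hu => by rw [zc_not b c u hu, zero_mul])).mp h2
  rw [h4.tsum_eq]
  ring

variable {H : Type} [NormedAddCommGroup H] [InnerProductSpace ℂ H] [CompleteSpace H]

theorem feas_of_map {L : Submodule ℤ (E m)} (b : Module.Basis (Fin m) ℝ (E m))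
    (hL : L = Submodule.span ℤ (Set.range b)) (ψ : E m → H) {s D : ℝ} (hs : 0 < s) (hD : 0 ≤ D)
    (hlow : ∀ x y, s * Metric.infDist (x - y) (L : Set (E m)) ≤ ‖ψ x - ψ y‖)
    (hup : ∀ x y, ‖ψ x - ψ y‖ ≤ D * s * Metric.infDist (x - y) (L : Set (E m))) :
    ∃ z, Feas L (D ^ 2) z := by
  classical
  have hper : ∀ x y, x - y ∈ L → ψ x = ψ y := by
    intro x y h
    have h1 := hup x y
    have h2 : Metric.infDist (x - y) (L : Set (E m)) = 0 := Metric.infDist_zero_of_mem h
    rw [h2, mul_zero] at h1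
    exact sub_eq_zero.mp (norm_le_zero_iff.mp h1)
  have hdle : ∀ x : E m, Metric.infDist x (L : Set (E m)) ≤ ‖x‖ := by
    intro x
    have := Metric.infDist_le_dist_of_mem (x := x) (s := (L : Set (E m))) L.zero_mem
    simpa using this
  have hψ : Continuous ψ := by
    have : LipschitzWith (D * s).toNNReal ψ := by
      refine LipschitzWith.of_dist_le_mul fun x y => ?_
      rw [dist_eq_norm, dist_eq_norm, Real.coe_toNNReal _ (by positivity)]
      exact (hup x y).trans (mul_le_mul_of_nonneg_left (hdle _) (by positivity))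
    exact this.continuous
  set P : (Fin m → ℝ) → E m := fun t => ∑ i, t i • b i with hP
  have hPc : Continuous P := by
    rw [hP]; fun_prop
  have hPrepr : ∀ t i, b.repr (P t) i = t i := by
    intro t i
    rw [hP]
    simp only
    rw [Module.Basis.repr_sum_self]
  have hPadd : ∀ s t, P (s + t) = P s + P t := by
    intro s t
    rw [hP]
    simp only [Pi.add_apply, add_smul, Finset.sum_add_distrib]
  set r : UnitAddCircle → ℝ := fun c => Quotient.out c with hr
  have hrc : ∀ c : UnitAddCircle, ((r c : ℝ) : UnitAddCircle) = c := by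
    intro c
    exact QuotientAddGroup.out_eq' c
  have hrw : ∀ w : UnitAddTorus (Fin m), qm (fun i => r (w i)) = w := by
    intro w
    funext i
    exact hrc (w i)
  set f0 : UnitAddTorus (Fin m) → H := fun w => ψ (P (fun i => r (w i))) with hf0
  have hf0q : ∀ t, f0 (qm t) = ψ (P t) := by
    intro t
    rw [hf0]
    simp only
    apply hper
    rw [hL]
    refine mem_span_of_int b fun i => ?_
    have h1 : qm (fun i => r (qm t i)) = qm t := hrw (qm t)
    obtain ⟨k, hk⟩ := qm_eq h1 i
    refine ⟨-k, ?_⟩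
    rw [map_sub, Finsupp.sub_apply, hPrepr, hPrepr]
    push_cast
    rw [← hk]; ring
  have hf0c : Continuous f0 := by
    rw [qm_quot.isQuotientMap.continuous_iff]
    have : f0 ∘ qm = ψ ∘ P := by
      funext t
      exact hf0q t
    rw [this]
    exact hψ.comp hPc
  set f : C(UnitAddTorus (Fin m), H) := ⟨f0, hf0c⟩ with hf
  set c : (Fin m → ℤ) → ℝ := fun k => ‖hc f k‖ ^ 2 / s ^ 2 with hcdef
  have hc0 : ∀ k, 0 ≤ c k := fun k => by positivity
  have hcs : Summable c := (summ_hc f).div_const _
  have hFval : ∀ x : E m, F (zc b c) x =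
      (∫ w, ‖f (qm (fun i => b.repr x i) + w) - f w‖ ^ 2) / s ^ 2 := by
    intro x
    apply zc_F
    have h1 := (hasSum_avg f (qm (fun i => b.repr x i))).div_const (s ^ 2)
    have h2 : (fun k => c k * (2 * (1 - Real.cos (2 * Real.pi * ip (dv b k) x)))) = fun k =>
        ‖hc f k‖ ^ 2 * (2 * (1 - (mFourier k (qm (fun i => b.repr x i))).re)) / s ^ 2 := by
      funext k
      rw [mFourier_qm_re, ip_dv, hcdef]
      ring
    rw [h2]
    exact h1
  have hpt : ∀ (x : E m) (w : UnitAddTorus (Fin m)),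
      s * Metric.infDist x (L : Set (E m)) ≤ ‖f (qm (fun i => b.repr x i) + w) - f w‖ ∧
      ‖f (qm (fun i => b.repr x i) + w) - f w‖ ≤ D * s * Metric.infDist x (L : Set (E m)) := by
    intro x w
    have h1 : f w = ψ (P (fun i => r (w i))) := by
      conv_lhs => rw [← hrw w]
      exact hf0q _
    have h2 : f (qm (fun i => b.repr x i) + w) = ψ (P (fun i => b.repr x i) + P (fun i => r (w i))) := by
      conv_lhs => rw [← hrw w]
      rw [← qm_add, ← hPadd]
      exact hf0q _
    have h3 : P (fun i => b.repr x i) = x := by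
      rw [hP]
      exact b.sum_repr x
    rw [h1, h2, h3]
    have h4 := hlow (x + P (fun i => r (w i))) (P (fun i => r (w i)))
    have h5 := hup (x + P (fun i => r (w i))) (P (fun i => r (w i)))
    rw [add_sub_cancel_right] at h4 h5
    exact ⟨h4, h5⟩
  have hfint : ∀ x : E m, Integrable (fun w : UnitAddTorus (Fin m) =>
      ‖f (qm (fun i => b.repr x i) + w) - f w‖ ^ 2) := fun x => integrable_cont (by fun_prop)
  have hnn : ∀ x : E m, 0 ≤ Metric.infDist x (L : Set (E m)) := fun x => Metric.infDist_nonneg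
  refine ⟨zc b c, ⟨zc_nonneg b hc0, zc_neg b c, zc_zero b c, ?_, zc_summ b hc0 hcs, ?_, ?_⟩⟩
  · intro u hu
    by_cases h : u ∈ Set.range (dv b)
    · obtain ⟨k, rfl⟩ := h
      rw [hL]
      exact dv_mem b k
    · exact absurd (zc_not b c u h) hu
  · intro x
    rw [hFval, le_div_iff₀ (by positivity)]
    have h1 : ∫ _w : UnitAddTorus (Fin m), (s * Metric.infDist x (L : Set (E m))) ^ 2 ≤
        ∫ w, ‖f (qm (fun i => b.repr x i) + w) - f w‖ ^ 2 := by
      refine integral_mono (integrable_const _) (hfint x) fun w => ?_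
      simp only
      have := (hpt x w).1
      have h0 := hnn x
      gcongr
    simp only [integral_const, probReal_univ, smul_eq_mul, one_mul] at h1
    linarith [h1, mul_pow s (Metric.infDist x (L : Set (E m))) 2]
  · intro x
    rw [hFval, div_le_iff₀ (by positivity)]
    have h1 : ∫ w, ‖f (qm (fun i => b.repr x i) + w) - f w‖ ^ 2 ≤
        ∫ _w : UnitAddTorus (Fin m), (D * s * ‖x‖) ^ 2 := by
      refine integral_mono (hfint x) (integrable_const _) fun w => ?_
      simp only
      have h2 := (hpt x w).2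
      have h3 := hdle x
      have h4 := hnn x
      gcongr
      exact h2.trans (mul_le_mul_of_nonneg_left h3 (by positivity))
    simp only [integral_const, probReal_univ, smul_eq_mul, one_mul] at h1
    calc _ ≤ _ := h1
      _ = _ := by ring

end

end Pool.Agent.FlatTorus
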