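import Pool.Agent.Q94.FTD

/-! Some weight is feasible for every lattice. -/

namespace Pool.Agent.FlatTorus

open Filter Topology
open scoped BigOperators

variable {m : ℕ}

theorem exists_feas {L : Submodule ℤ (E m)} (b : Module.Basis (Fin m) ℝ (E m))
    (hL : L = Submodule.span ℤ (Set.range b)) : ∃ C z, Feas L C z := by
  classical
  set a : ℝ := ∑ i, ‖b i‖ ^ 2 with ha
  have ha0 : 0 ≤ a := Finset.sum_nonneg fun i _ => by positivity
  set c : (Fin m → ℤ) → ℝ := fun k => ∑ i, (if k = Pi.single i 1 then a else 0) with hc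
  have hc0 : ∀ k, 0 ≤ c k := by
    intro k
    rw [hc]
    refine Finset.sum_nonneg fun i _ => ?_
    split_ifs
    · exact ha0
    · exact le_rfl
  have hone : ∀ (i : Fin m) (g : (Fin m → ℤ) → ℝ),
      HasSum (fun k => (if k = Pi.single i 1 then a else 0) * g k) (a * g (Pi.single i 1)) := by
    intro i g
    have h1 := hasSum_single (f := fun k => (if k = Pi.single i 1 then a else 0) * g k)
      (Pi.single i 1) (by
        intro k hk
        rw [if_neg hk, zero_mul])
    simpa using h1
  have hall : ∀ g : (Fin m → ℤ) → ℝ, HasSum (fun k => c k * g k) (∑ i, a * g (Pi.single i 1)) := by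
    intro g
    have h1 := hasSum_sum (s := Finset.univ) (fun (i : Fin m) _ => hone i g)
    have h2 : (fun k => c k * g k) = fun k => ∑ i, (if k = Pi.single i 1 then a else 0) * g k := by
      funext k
      rw [hc, Finset.sum_mul]
    rw [h2]
    exact h1
  have hcs : Summable c := by
    have := (hall (fun _ => 1)).summable
    simpa using this
  have hF : ∀ x : E m, F (zc b c) x = ∑ i, a * (2 * (1 - Real.cos (2 * Real.pi * b.repr x i))) := by
    intro x
    apply zc_F
    have h1 := hall (fun k => 2 * (1 - Real.cos (2 * Real.pi * ip (dv b k) x)))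
    have h2 : ∀ i : Fin m, ip (dv b (Pi.single i 1)) x = b.repr x i := by
      intro i
      rw [ip_dv]
      rw [Finset.sum_eq_single i]
      · simp
      · intro j _ hj
        simp [Pi.single_eq_of_ne hj]
      · simp
    simp only [h2] at h1
    exact h1
  refine ⟨∑ i, a * (2 * (2 * Real.pi ^ 2 * ‖dv b (Pi.single i 1)‖ ^ 2)), zc b c,
    ⟨zc_nonneg b hc0, zc_neg b c, zc_zero b c, ?_, zc_summ b hc0 hcs, ?_, ?_⟩⟩
  · intro u hu
    by_cases h : u ∈ Set.range (dv b)
    · obtain ⟨k, rfl⟩ := h
      rw [hL]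
      exact dv_mem b k
    · exact absurd (zc_not b c u h) hu
  · intro x
    rw [hF]
    set τ : Fin m → ℝ := fun i => b.repr x i - round (b.repr x i) with hτ
    set v : E m := ∑ i, (round (b.repr x i) : ℝ) • b i with hv
    have hvL : v ∈ L := by
      rw [hL]
      refine mem_span_of_int b fun i => ⟨round (b.repr x i), ?_⟩
      rw [hv, Module.Basis.repr_sum_self]
    have h1 : Metric.infDist x (L : Set (E m)) ≤ ‖x - v‖ := by
      have := Metric.infDist_le_dist_of_mem (x := x) (s := (L : Set (E m))) hvL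
      rwa [dist_eq_norm] at this
    have h2 : x - v = ∑ i, τ i • b i := by
      conv_lhs => rw [← b.sum_repr x]
      rw [hv, ← Finset.sum_sub_distrib]
      refine Finset.sum_congr rfl fun i _ => ?_
      rw [hτ]
      simp only
      rw [sub_smul]
    have h3 : ‖x - v‖ ≤ ∑ i, |τ i| * ‖b i‖ := by
      rw [h2]
      refine (norm_sum_le _ _).trans (le_of_eq ?_)
      refine Finset.sum_congr rfl fun i _ => ?_
      rw [norm_smul, Real.norm_eq_abs]
    have h4 : (∑ i, |τ i| * ‖b i‖) ^ 2 ≤ (∑ i, τ i ^ 2) * a := by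
      have := Finset.sum_mul_sq_le_sq_mul_sq Finset.univ (fun i => |τ i|) (fun i => ‖b i‖)
      simpa [sq_abs, ha] using this
    have h5 : ∀ i, 16 * τ i ^ 2 ≤ 2 * (1 - Real.cos (2 * Real.pi * b.repr x i)) := by
      intro i
      have h6 : Real.cos (2 * Real.pi * b.repr x i) = Real.cos (2 * Real.pi * τ i) := by
        have : 2 * Real.pi * τ i = 2 * Real.pi * b.repr x i
            - (round (b.repr x i) : ℤ) * (2 * Real.pi) := by
          rw [hτ]; simp only; ring
        rw [this, Real.cos_sub_int_mul_two_pi]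
      have h7 : |τ i| ≤ 1 / 2 := abs_sub_round _
      have h8 : |2 * Real.pi * τ i| ≤ Real.pi := by
        rw [abs_mul, abs_of_pos Real.two_pi_pos]
        nlinarith [Real.pi_pos]
      have h9 := Real.cos_le_one_sub_mul_cos_sq h8
      rw [h6]
      have h10 : 2 / Real.pi ^ 2 * (2 * Real.pi * τ i) ^ 2 = 8 * τ i ^ 2 := by
        have := Real.pi_pos.ne'
        field_simp
        ring
      rw [h10] at h9
      linarith
    have h6 : Metric.infDist x (L : Set (E m)) ^ 2 ≤ (∑ i, τ i ^ 2) * a := by
      have h0 : 0 ≤ Metric.infDist x (L : Set (E m)) := Metric.infDist_nonneg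
      calc Metric.infDist x (L : Set (E m)) ^ 2 ≤ (∑ i, |τ i| * ‖b i‖) ^ 2 := by
            gcongr
            exact h1.trans h3
        _ ≤ _ := h4
    refine h6.trans ?_
    rw [Finset.sum_mul]
    refine Finset.sum_le_sum fun i _ => ?_
    rw [mul_comm]
    refine mul_le_mul_of_nonneg_left ?_ ha0
    have := h5 i
    nlinarith [sq_nonneg (τ i)]
  · intro x
    rw [hF, Finset.sum_mul]
    refine Finset.sum_le_sum fun i _ => ?_
    have h1 : b.repr x i = ip (dv b (Pi.single i 1)) x := by
      rw [ip_dv, Finset.sum_eq_single i]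
      · simp
      · intro j _ hj
        simp [Pi.single_eq_of_ne hj]
      · simp
    have h2 : |b.repr x i| ≤ ‖dv b (Pi.single i 1)‖ * ‖x‖ := by
      rw [h1]
      exact abs_real_inner_le_norm _ _
    have h3 := Real.one_sub_sq_div_two_le_cos (x := 2 * Real.pi * b.repr x i)
    have h4 : (b.repr x i) ^ 2 ≤ (‖dv b (Pi.single i 1)‖ * ‖x‖) ^ 2 := by
      rw [← sq_abs]
      gcongr
    have h5 : 2 * (1 - Real.cos (2 * Real.pi * b.repr x i)) ≤
        2 * (2 * Real.pi ^ 2 * ‖dv b (Pi.single i 1)‖ ^ 2) * ‖x‖ ^ 2 := by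
      have h6 : 0 < Real.pi ^ 2 := by positivity
      nlinarith
    calc a * (2 * (1 - Real.cos (2 * Real.pi * b.repr x i)))
        ≤ a * (2 * (2 * Real.pi ^ 2 * ‖dv b (Pi.single i 1)‖ ^ 2) * ‖x‖ ^ 2) :=
          mul_le_mul_of_nonneg_left h5 ha0
      _ = _ := by ring

end Pool.Agent.FlatTorus
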