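import Mathlib

/-! The circle factor. -/

namespace Pool.Agent.FlatTorus

open Filter Topology

/-- the squared chord function of the circle factor, up to scaling -/
noncomputable def Gc (y : ℝ) : ℝ := Real.sin (Real.pi * y) ^ 2 + 0.69 * Real.sin (3 * Real.pi * y) ^ 2

theorem Gc_neg (y : ℝ) : Gc (-y) = Gc y := by
  unfold Gc
  rw [mul_neg, mul_neg, Real.sin_neg, Real.sin_neg]; ring

theorem Gc_upper (y : ℝ) : Gc y ≤ 7.21 * Real.pi ^ 2 * y ^ 2 := by
  unfold Gc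
  have h1 : Real.sin (Real.pi * y) ^ 2 ≤ (Real.pi * y) ^ 2 := by
    rw [sq_le_sq]; exact Real.abs_sin_le_abs
  have h2 : Real.sin (3 * Real.pi * y) ^ 2 ≤ (3 * Real.pi * y) ^ 2 := by
    rw [sq_le_sq]; exact Real.abs_sin_le_abs
  nlinarith

theorem Gc_lower4 {y : ℝ} (h0 : 0 ≤ y) (h1 : y ≤ 1 / 2) : 4 * y ^ 2 ≤ Gc y := by
  unfold Gc
  have hpi := Real.pi_pos
  have h2 : 2 / Real.pi * (Real.pi * y) ≤ Real.sin (Real.pi * y) :=
    Real.mul_le_sin (by positivity) (by nlinarith)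
  have h3 : 2 / Real.pi * (Real.pi * y) = 2 * y := by field_simp
  rw [h3] at h2
  have h4 : (2 * y) ^ 2 ≤ Real.sin (Real.pi * y) ^ 2 := by gcongr
  nlinarith [sq_nonneg (Real.sin (3 * Real.pi * y))]

theorem Gc_small {y : ℝ} (h0 : 0 < y) (h1 : y ≤ 1 / 10) : 6.75 * y ^ 2 ≤ Gc y := by
  unfold Gc
  have hpi := Real.pi_pos
  have hpi2 := Real.pi_gt_d2
  have hpi3 := Real.pi_lt_d2
  set x := Real.pi * y with hx
  have hx0 : 0 < x := by positivity
  have hx1 : x ≤ 0.315 := by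
    rw [hx]; nlinarith
  have h2 := Real.sin_gt_sub_cube hx0
  have h3 : 0.98 * x ≤ Real.sin x := by
    have : x ^ 3 ≤ 0.1 * x := by
      have : x ^ 2 ≤ 0.1 := by nlinarith
      nlinarith
    nlinarith
  have h4 : (0.98 * x) ^ 2 ≤ Real.sin x ^ 2 := by gcongr
  have h5 : (0.98 * x) ^ 2 = 0.9604 * (Real.pi ^ 2 * y ^ 2) := by rw [hx]; ring
  have h6 : 9 * y ^ 2 ≤ Real.pi ^ 2 * y ^ 2 := by
    have : (9 : ℝ) ≤ Real.pi ^ 2 := by nlinarith
    gcongr
  nlinarith [sq_nonneg (Real.sin (3 * Real.pi * y)), sq_nonneg y]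

theorem Gc_third : Gc (1 / 3) = 3 / 4 := by
  unfold Gc
  have h1 : Real.pi * (1 / 3) = Real.pi / 3 := by ring
  have h2 : 3 * Real.pi * (1 / 3) = Real.pi := by ring
  rw [h1, h2, Real.sin_pi, Real.sin_pi_div_three]
  have h3 : (Real.sqrt 3 / 2) ^ 2 = 3 / 4 := by
    rw [div_pow, Real.sq_sqrt (by norm_num)]; norm_num
  rw [h3]; norm_num

theorem Gc_half : Gc (1 / 2) = 1.69 := by
  unfold Gc
  have h1 : Real.pi * (1 / 2) = Real.pi / 2 := by ring
  have h2 : 3 * Real.pi * (1 / 2) = Real.pi / 2 + Real.pi := by ring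
  rw [h1, h2, Real.sin_add_pi, Real.sin_pi_div_two]
  norm_num

theorem circle_factor : ∃ m0 y0 : ℝ, 4 ≤ m0 ∧ 0 < y0 ∧ y0 < 1 / 2 ∧ Gc y0 = m0 * y0 ^ 2 ∧
    (∀ y, |y| ≤ 1 / 2 → m0 * y ^ 2 ≤ Gc y) ∧ ∀ y, Gc y ≤ 7.21 * Real.pi ^ 2 * y ^ 2 := by
  have hc : ContinuousOn (fun y => Gc y / y ^ 2) (Set.Icc (1 / 10 : ℝ) (1 / 2)) := by
    refine ContinuousOn.div ?_ (by fun_prop) ?_
    · unfold Gc; fun_prop
    · intro y hy
      have := hy.1
      have : 0 < y := by linarith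
      positivity
  obtain ⟨y0, hy0, hmin⟩ := isCompact_Icc.exists_isMinOn
    ⟨(1 / 3 : ℝ), by norm_num, by norm_num⟩ hc
  have hy0p : 0 < y0 := by have := hy0.1; linarith
  set m0 := Gc y0 / y0 ^ 2 with hm0
  have hmle : m0 ≤ 6.75 := by
    have h1 := hmin (show (1 / 3 : ℝ) ∈ Set.Icc (1 / 10 : ℝ) (1 / 2) from ⟨by norm_num, by norm_num⟩)
    simp only [Set.mem_ofPred_eq] at h1
    rw [Gc_third] at h1
    refine h1.trans ?_
    norm_num
  have hge : 4 ≤ m0 := by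
    rw [hm0, le_div_iff₀ (by positivity)]
    exact Gc_lower4 hy0p.le hy0.2
  have hlow : ∀ y, 0 ≤ y → y ≤ 1 / 2 → m0 * y ^ 2 ≤ Gc y := by
    intro y h0 h1
    rcases h0.eq_or_lt with h0 | h0
    · rw [← h0]
      unfold Gc; simp
    · by_cases h2 : y ≤ 1 / 10
      · have := Gc_small h0 h2
        have h3 : 0 ≤ y ^ 2 := by positivity
        nlinarith
      · push Not at h2
        have h3 := hmin (show y ∈ Set.Icc (1 / 10 : ℝ) (1 / 2) from ⟨h2.le, h1⟩)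
        simp only [Set.mem_ofPred_eq] at h3
        rwa [le_div_iff₀ (by positivity)] at h3
  refine ⟨m0, y0, hge, hy0p, ?_, ?_, ?_, Gc_upper⟩
  · refine lt_of_le_of_ne hy0.2 ?_
    intro h
    rw [hm0, h, Gc_half] at hmle
    norm_num at hmle
  · rw [hm0]; field_simp
  · intro y hy
    rcases le_total 0 y with h | h
    · exact hlow y h (by rwa [abs_of_nonneg h] at hy)
    · have := hlow (-y) (by linarith) (by rwa [abs_of_nonpos h] at hy)
      rw [Gc_neg] at this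
      simpa using this

end Pool.Agent.FlatTorus
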