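import Pool.Agent.Q94.FTE

/-! Subgroups between `ℤᵐ` and `(1/p)ℤᵐ` are lattices. -/

namespace Pool.Agent.FlatTorus

open Filter Topology
open scoped BigOperators

variable {m : ℕ}

/-- `L` lies between `ℤᵐ` and `(1/p)ℤᵐ`. -/
structure Between (L : Submodule ℤ (E m)) (p : ℕ) : Prop where
  pos : 0 < p
  one : ∀ i, EuclideanSpace.single i (1 : ℝ) ∈ L
  frac : ∀ x ∈ L, ∀ i, ∃ k : ℤ, (p : ℝ) * x i = k

theorem abs_coord_le (x : E m) (i : Fin m) : |x i| ≤ ‖x‖ := by
  have := EuclideanSpace.norm_eq x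
  rw [this]
  refine Real.le_sqrt_of_sq_le ?_
  rw [sq_abs]
  have h1 := Finset.single_le_sum (f := fun i => ‖x i‖ ^ 2) (fun i _ => by positivity)
    (Finset.mem_univ i)
  simpa using h1

theorem Between.min_norm {L : Submodule ℤ (E m)} {p : ℕ} (h : Between L p) {v : E m}
    (hv : v ∈ L) (h0 : v ≠ 0) : 1 / (p : ℝ) ≤ ‖v‖ := by
  have hp : (0 : ℝ) < p := by exact_mod_cast h.pos
  have : ∃ i, v i ≠ 0 := by
    by_contra hcon
    push Not at hcon
    exact h0 (by ext i; simpa using hcon i)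
  obtain ⟨i, hi⟩ := this
  obtain ⟨k, hk⟩ := h.frac v hv i
  have hk0 : k ≠ 0 := by
    rintro rfl
    simp only [Int.cast_zero, mul_eq_zero] at hk
    rcases hk with hk | hk
    · exact hp.ne' hk
    · exact hi hk
  have h1 : (1 : ℝ) ≤ |(k : ℝ)| := by
    have := Int.one_le_abs hk0
    exact_mod_cast this
  rw [← hk, abs_mul, abs_of_pos hp] at h1
  rw [div_le_iff₀ hp]
  have := abs_coord_le v i
  nlinarith

theorem Between.exists_basis {L : Submodule ℤ (E m)} {p : ℕ} (h : Between L p) :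
    ∃ b : Module.Basis (Fin m) ℝ (E m), L = Submodule.span ℤ (Set.range b) := by
  have hp : (0 : ℝ) < p := by exact_mod_cast h.pos
  haveI : DiscreteTopology L := by
    refine DiscreteTopology.of_forall_le_dist (r := 1 / (p : ℝ)) (by positivity) ?_
    intro x y hxy
    have h1 : (x : E m) - y ∈ L := L.sub_mem x.2 y.2
    have h2 : (x : E m) - y ≠ 0 := by
      intro h3
      exact hxy (Subtype.ext (sub_eq_zero.mp h3))
    have := h.min_norm h1 h2
    rwa [Subtype.dist_eq, dist_eq_norm]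
  haveI : IsZLattice ℝ L := by
    refine ⟨?_⟩
    rw [eq_top_iff, ← (EuclideanSpace.basisFun (Fin m) ℝ).toBasis.span_eq]
    refine Submodule.span_mono ?_
    rintro _ ⟨i, rfl⟩
    simpa using h.one i
  haveI : Module.Finite ℤ L := ZLattice.module_finite ℝ L
  haveI : Module.Free ℤ L := ZLattice.module_free ℝ L
  set b0 := Module.Free.chooseBasis ℤ L with hb0
  set b1 := b0.ofZLatticeBasis ℝ L with hb1
  have hcard : Fintype.card (Module.Free.ChooseBasisIndex ℤ L) = Fintype.card (Fin m) := by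
    rw [← Module.finrank_eq_card_basis b1]
    simp
  refine ⟨b1.reindex (Fintype.equivOfCardEq hcard), ?_⟩
  rw [Module.Basis.range_reindex]
  exact (b0.ofZLatticeBasis_span ℝ).symm

end Pool.Agent.FlatTorus
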