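import Pool.Agent.Q94.FTG

/-! The dual Reed–Solomon lattice. -/

namespace Pool.Agent.FlatTorus

open Filter Topology MeasureTheory
open scoped BigOperators Polynomial

variable {m : ℕ}

/-- The lattice generated by `ℤᵐ` and the vectors `(1/p)(iʲ)_i`, `j < r`. -/
def RS (m p r : ℕ) : Submodule ℤ (E m) where
  carrier := {x | ∃ c : Fin r → ℤ, ∀ i : Fin m, ∃ a : ℤ,
    (p : ℝ) * x i = ((∑ j : Fin r, c j * ((i : ℕ) : ℤ) ^ (j : ℕ) + p * a : ℤ) : ℝ)}
  zero_mem' := ⟨0, fun i => ⟨0, by simp⟩⟩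
  add_mem' := by
    rintro x y ⟨c, hc⟩ ⟨d, hd⟩
    refine ⟨c + d, fun i => ?_⟩
    obtain ⟨a, ha⟩ := hc i
    obtain ⟨b, hb⟩ := hd i
    refine ⟨a + b, ?_⟩
    have : (∑ j : Fin r, (c + d) j * ((i : ℕ) : ℤ) ^ (j : ℕ) + p * (a + b) : ℤ) =
        (∑ j : Fin r, c j * ((i : ℕ) : ℤ) ^ (j : ℕ) + p * a) +
        (∑ j : Fin r, d j * ((i : ℕ) : ℤ) ^ (j : ℕ) + p * b) := by
      simp only [Pi.add_apply, add_mul, Finset.sum_add_distrib]; ring
    rw [this, Int.cast_add, ← ha, ← hb]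
    simp only [PiLp.add_apply]; ring
  smul_mem' := by
    rintro k x ⟨c, hc⟩
    refine ⟨k • c, fun i => ?_⟩
    obtain ⟨a, ha⟩ := hc i
    refine ⟨k * a, ?_⟩
    have : (∑ j : Fin r, (k • c) j * ((i : ℕ) : ℤ) ^ (j : ℕ) + p * (k * a) : ℤ) =
        k * (∑ j : Fin r, c j * ((i : ℕ) : ℤ) ^ (j : ℕ) + p * a) := by
      rw [mul_add, Finset.mul_sum]
      congr 1
      · refine Finset.sum_congr rfl fun j _ => ?_
        simp [mul_assoc]
      · ring
    rw [this, Int.cast_mul, ← ha]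
    simp only [PiLp.smul_apply, zsmul_eq_mul]; ring

theorem RS_between (m r : ℕ) {p : ℕ} (hp : 0 < p) : Between (RS m p r) p := by
  refine ⟨hp, fun i => ⟨0, fun l => ⟨if l = i then 1 else 0, ?_⟩⟩, ?_⟩
  · by_cases h : l = i
    · subst h; simp
    · simp [h]
  · rintro x ⟨c, hc⟩ i
    obtain ⟨a, ha⟩ := hc i
    exact ⟨_, ha⟩

theorem RS_gen (m r : ℕ) {p : ℕ} (hp : 0 < p) (j : Fin r) :
    (WithLp.toLp 2 (fun i : Fin m => (((i : ℕ) : ℝ) ^ (j : ℕ)) / p) : E m) ∈ RS m p r := by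
  have hp' : (p : ℝ) ≠ 0 := by exact_mod_cast hp.ne'
  refine ⟨Pi.single j 1, fun i => ⟨0, ?_⟩⟩
  rw [Finset.sum_eq_single j]
  · simp
    field_simp
  · intro l _ hl
    simp [Pi.single_eq_of_ne hl]
  · simp

theorem RS_dual {m r p : ℕ} (hp : 0 < p) {u : E m} (hu : u ∈ dual (RS m p r)) :
    ∃ k : Fin m → ℤ, (∀ i, u i = k i) ∧
      ∀ j : Fin r, (p : ℤ) ∣ ∑ i : Fin m, k i * ((i : ℕ) : ℤ) ^ (j : ℕ) := by
  have h1 : ∀ i, ∃ k : ℤ, u i = k := by
    intro i
    obtain ⟨k, hk⟩ := hu _ ((RS_between m r hp).one i)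
    refine ⟨k, ?_⟩
    rw [ip_single, one_mul] at hk
    exact hk
  choose k hk using h1
  refine ⟨k, hk, fun j => ?_⟩
  obtain ⟨l, hl⟩ := hu _ (RS_gen m r hp j)
  refine ⟨l, ?_⟩
  have h2 : ip u (WithLp.toLp 2 (fun i : Fin m => (((i : ℕ) : ℝ) ^ (j : ℕ)) / p) : E m) =
      (∑ i : Fin m, (k i : ℝ) * ((i : ℕ) : ℝ) ^ (j : ℕ)) / p := by
    unfold ip
    rw [PiLp.inner_apply, Finset.sum_div]
    refine Finset.sum_congr rfl fun i _ => ?_
    simp only [RCLike.inner_apply, conj_trivial]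
    rw [hk i]; ring
  rw [h2, div_eq_iff (by exact_mod_cast hp.ne')] at hl
  have h3 : ((∑ i : Fin m, k i * ((i : ℕ) : ℤ) ^ (j : ℕ) : ℤ) : ℝ) = ((p * l : ℤ) : ℝ) := by
    push_cast
    rw [hl]; ring
  exact_mod_cast h3

theorem RS_dual_norm {m r p : ℕ} [hpp : Fact p.Prime] (hmp : m ≤ p) (hrp : r + 1 ≤ p ^ 2)
    {u : E m} (hu : u ∈ dual (RS m p r)) (hu0 : u ≠ 0) : (r : ℝ) + 1 ≤ ‖u‖ ^ 2 := by
  classical
  have hp : 0 < p := hpp.out.pos
  obtain ⟨k, hk, hdvd⟩ := RS_dual hp hu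
  have hnorm : ‖u‖ ^ 2 = ∑ i, (k i : ℝ) ^ 2 := by
    rw [EuclideanSpace.norm_sq_eq]
    refine Finset.sum_congr rfl fun i _ => ?_
    rw [hk i, Real.norm_eq_abs, sq_abs]
  set S : Finset (Fin m) := Finset.univ.filter (fun i => ((k i : ℤ) : ZMod p) ≠ 0) with hS
  have hinj : ∀ i l : Fin m, (((i : ℕ) : ℕ) : ZMod p) = ((l : ℕ) : ZMod p) → i = l := by
    intro i l h
    rw [ZMod.natCast_eq_natCast_iff'] at h
    rw [Nat.mod_eq_of_lt (lt_of_lt_of_le i.2 hmp), Nat.mod_eq_of_lt (lt_of_lt_of_le l.2 hmp)] at h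
    exact Fin.ext h
  by_cases hSe : S = ∅
  · -- all coordinates divisible by p
    have h1 : ∀ i, (p : ℤ) ∣ k i := by
      intro i
      rw [← ZMod.intCast_zmod_eq_zero_iff_dvd]
      by_contra h2
      have : i ∈ S := by rw [hS]; simp [h2]
      rw [hSe] at this
      simp at this
    have h2 : ∃ i, k i ≠ 0 := by
      by_contra hcon
      push Not at hcon
      exact hu0 (by ext i; rw [hk i, hcon i]; simp)
    obtain ⟨i, hi⟩ := h2
    have h3 : (p : ℤ) ≤ |k i| := Int.le_of_dvd (abs_pos.mpr hi) ((dvd_abs _ _).mpr (h1 i))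
    have h4 : (p : ℝ) ^ 2 ≤ (k i : ℝ) ^ 2 := by
      rw [← sq_abs (k i : ℝ)]
      have : (p : ℝ) ≤ |(k i : ℝ)| := by exact_mod_cast h3
      gcongr
    have h5 : (k i : ℝ) ^ 2 ≤ ∑ i, (k i : ℝ) ^ 2 :=
      Finset.single_le_sum (f := fun i => (k i : ℝ) ^ 2) (fun i _ => by positivity)
        (Finset.mem_univ i)
    have h6 : ((r : ℝ) + 1) ≤ (p : ℝ) ^ 2 := by exact_mod_cast hrp
    rw [hnorm]
    linarith
  · have hcard : r + 1 ≤ S.card := by
      by_contra hcon
      push Not at hcon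
      obtain ⟨i0, hi0⟩ := Finset.nonempty_iff_ne_empty.mpr hSe
      set P : (ZMod p)[X] := ∏ i ∈ S.erase i0, (Polynomial.X - Polynomial.C (((i : Fin m) : ℕ) : ZMod p)) with hP
      have hdeg : P.natDegree < r := by
        rw [hP, Polynomial.natDegree_prod_of_monic _ _ (fun i _ => Polynomial.monic_X_sub_C _)]
        simp only [Polynomial.natDegree_X_sub_C, Finset.sum_const, smul_eq_mul, mul_one]
        rw [Finset.card_erase_of_mem hi0]
        have : 0 < S.card := Finset.card_pos.mpr ⟨i0, hi0⟩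
        omega
      have h1 : ∑ i : Fin m, ((k i : ℤ) : ZMod p) * P.eval (((i : Fin m) : ℕ) : ZMod p) = 0 := by
        have h2 : ∀ i : Fin m, P.eval (((i : Fin m) : ℕ) : ZMod p) =
            ∑ j : Fin r, P.coeff j * (((i : ℕ) : ZMod p)) ^ (j : ℕ) := by
          intro i
          rw [Polynomial.eval_eq_sum_range' hdeg, Finset.sum_range]
        simp only [h2, Finset.mul_sum]
        rw [Finset.sum_comm]
        refine Finset.sum_eq_zero fun j _ => ?_
        have h3 : ∑ i : Fin m, ((k i : ℤ) : ZMod p) * (P.coeff j * (((i : ℕ) : ZMod p)) ^ (j : ℕ)) =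
            P.coeff j * ((∑ i : Fin m, k i * ((i : ℕ) : ℤ) ^ (j : ℕ) : ℤ) : ZMod p) := by
          push_cast
          rw [Finset.mul_sum]
          refine Finset.sum_congr rfl fun i _ => ?_
          ring
        rw [h3, (ZMod.intCast_zmod_eq_zero_iff_dvd _ _).mpr (hdvd j), mul_zero]
      rw [Finset.sum_eq_single i0] at h1
      · rw [mul_eq_zero] at h1
        rcases h1 with h1 | h1
        · have : ((k i0 : ℤ) : ZMod p) ≠ 0 := by
            have := hi0
            rw [hS] at this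
            simpa using this
          exact this h1
        · rw [hP, Polynomial.eval_prod, Finset.prod_eq_zero_iff] at h1
          obtain ⟨i, hi, hi2⟩ := h1
          simp only [Polynomial.eval_sub, Polynomial.eval_X, Polynomial.eval_C] at hi2
          exact (Finset.ne_of_mem_erase hi) (hinj _ _ (sub_eq_zero.mp hi2)).symm
      · intro i _ hi
        by_cases hiS : i ∈ S
        · have : P.eval (((i : Fin m) : ℕ) : ZMod p) = 0 := by
            rw [hP, Polynomial.eval_prod]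
            refine Finset.prod_eq_zero (Finset.mem_erase.mpr ⟨hi, hiS⟩) ?_
            simp
          rw [this, mul_zero]
        · have : ((k i : ℤ) : ZMod p) = 0 := by
            by_contra h3
            exact hiS (by rw [hS]; simp [h3])
          rw [this, zero_mul]
      · simp
    rw [hnorm]
    have h2 : ((r : ℝ) + 1) ≤ ∑ i ∈ S, (1 : ℝ) := by
      simp only [Finset.sum_const, nsmul_eq_mul, mul_one]
      exact_mod_cast hcard
    refine h2.trans ?_
    have h3 : ∑ i ∈ S, (1 : ℝ) ≤ ∑ i ∈ S, (k i : ℝ) ^ 2 := by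
      refine Finset.sum_le_sum fun i hi => ?_
      have hk0 : k i ≠ 0 := by
        rintro h4
        rw [hS] at hi
        simp [h4] at hi
      have h5 : (1 : ℝ) ≤ |(k i : ℝ)| := by
        have := Int.one_le_abs hk0
        exact_mod_cast this
      rw [← sq_abs]
      nlinarith
    exact h3.trans (Finset.sum_le_sum_of_subset_of_nonneg (Finset.subset_univ _)
      fun i _ _ => by positivity)

theorem RS_dual_finite {m r p : ℕ} (hp : 0 < p) (R : ℝ) :
    (dual (RS m p r) ∩ {u | ‖u‖ ^ 2 ≤ R}).Finite := by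
  have h1 : (dual (RS m p r) ∩ {u | ‖u‖ ^ 2 ≤ R}) ⊆
      (Metric.closedBall (0 : E m) (Real.sqrt R)) ∩
        (Submodule.span ℤ (Set.range (EuclideanSpace.basisFun (Fin m) ℝ).toBasis) : Set (E m)) := by
    rintro u ⟨hu, hR⟩
    refine ⟨?_, ?_⟩
    · rw [mem_closedBall_zero_iff]
      exact Real.le_sqrt_of_sq_le hR
    · refine mem_span_of_int _ fun i => ?_
      obtain ⟨k, hk, -⟩ := RS_dual hp hu
      exact ⟨k i, by simpa using hk i⟩
  exact (ZSpan.setFinite_inter _ Metric.isBounded_closedBall).subset h1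

end Pool.Agent.FlatTorus
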