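import Pool.Agent.Q94.FTH

/-! The covering radius of the dual Reed–Solomon lattice. -/

namespace Pool.Agent.FlatTorus

open Filter Topology MeasureTheory
open scoped BigOperators Pointwise

variable {m : ℕ}

/-- representatives of `RS` modulo `ℤᵐ` -/
noncomputable def rep (m p r : ℕ) (c : Fin r → Fin p) : E m :=
  WithLp.toLp 2 (fun i : Fin m => (∑ j : Fin r, ((c j : ℕ) : ℝ) * ((i : ℕ) : ℝ) ^ (j : ℕ)) / p)

/-- the standard basis -/
noncomputable def stdB (m : ℕ) : Module.Basis (Fin m) ℝ (E m) :=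
  (EuclideanSpace.basisFun (Fin m) ℝ).toBasis

theorem vol_fd (m : ℕ) : volume (ZSpan.fundamentalDomain (stdB m)) = 1 := by
  rw [measure_congr (ZSpan.fundamentalDomain_ae_parallelepiped (stdB m) volume)]
  have := (EuclideanSpace.basisFun (Fin m) ℝ).volume_parallelepiped
  simpa [stdB] using this

theorem RS_decomp {m r p : ℕ} (hp : 0 < p) {v : E m} (hv : v ∈ RS m p r) :
    ∃ c : Fin r → Fin p, v - rep m p r c ∈ Submodule.span ℤ (Set.range (stdB m)) := by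
  obtain ⟨c, hc⟩ := hv
  have hp' : (p : ℤ) ≠ 0 := by exact_mod_cast hp.ne'
  have hpr : (p : ℝ) ≠ 0 := by exact_mod_cast hp.ne'
  have hlt : ∀ j, (c j % p).toNat < p := by
    intro j
    have h1 := Int.emod_nonneg (c j) hp'
    have h2 := Int.emod_lt_of_pos (c j) (by exact_mod_cast hp : (0 : ℤ) < p)
    omega
  have hcast : ∀ j, (((c j % p).toNat : ℕ) : ℤ) = c j % p := by
    intro j
    exact Int.toNat_of_nonneg (Int.emod_nonneg (c j) hp')
  refine ⟨fun j => ⟨(c j % p).toNat, hlt j⟩, mem_span_of_int _ fun i => ?_⟩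
  obtain ⟨a, ha⟩ := hc i
  refine ⟨∑ j : Fin r, (c j / p) * ((i : ℕ) : ℤ) ^ (j : ℕ) + a, ?_⟩
  have h1 : (stdB m).repr (v - rep m p r (fun j => ⟨(c j % p).toNat, hlt j⟩)) i =
      v i - (∑ j : Fin r, (((c j % p).toNat : ℕ) : ℝ) * ((i : ℕ) : ℝ) ^ (j : ℕ)) / p := by
    simp [stdB, rep]
  rw [h1]
  have h2 : ∀ j, (c j : ℝ) = (((c j % p).toNat : ℕ) : ℝ) + p * ((c j / p : ℤ) : ℝ) := by
    intro j
    have h3 : c j = (((c j % p).toNat : ℕ) : ℤ) + p * (c j / p) := by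
      rw [hcast]; exact (Int.emod_add_mul_ediv (c j) p).symm
    have h4 : ((c j : ℤ) : ℝ) = (((((c j % p).toNat : ℕ) : ℤ) + p * (c j / p) : ℤ) : ℝ) := by
      rw [← h3]
    rw [h4]; push_cast; ring
  have h3 : (p : ℝ) * v i = (∑ j : Fin r, (((c j % p).toNat : ℕ) : ℝ) * ((i : ℕ) : ℝ) ^ (j : ℕ)) +
      p * (∑ j : Fin r, ((c j / p : ℤ) : ℝ) * ((i : ℕ) : ℝ) ^ (j : ℕ) + a) := by
    rw [ha]
    push_cast
    rw [mul_add, Finset.mul_sum, ← add_assoc, ← Finset.sum_add_distrib]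
    congr 1
    refine Finset.sum_congr rfl fun j _ => ?_
    rw [h2 j]; ring
  have h4 : v i = ((∑ j : Fin r, (((c j % p).toNat : ℕ) : ℝ) * ((i : ℕ) : ℝ) ^ (j : ℕ)) +
      p * (∑ j : Fin r, ((c j / p : ℤ) : ℝ) * ((i : ℕ) : ℝ) ^ (j : ℕ) + a)) / p := by
    rw [← h3]; field_simp
  rw [h4]
  push_cast
  field_simp
  ring

theorem RS_cover {m r p : ℕ} (hp : 0 < p) {μ : ℝ}
    (hvol : (p : ENNReal) ^ r * volume (Metric.ball (0 : E m) μ) < 1) :
    ∃ x : E m, μ ≤ Metric.infDist x (RS m p r : Set (E m)) := by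
  by_contra hcon
  push Not at hcon
  set D : Set (E m) := ZSpan.fundamentalDomain (stdB m) with hD
  set G := Submodule.span ℤ (Set.range (stdB m)) with hG
  have hfd : IsAddFundamentalDomain G D (volume : Measure (E m)) :=
    ZSpan.isAddFundamentalDomain (stdB m) volume
  have hinv : VAddInvariantMeasure G (E m) volume :=
    inferInstanceAs (VAddInvariantMeasure G.toAddSubgroup (E m) volume)
  have hsub : D ⊆ ⋃ c : Fin r → Fin p, ⋃ g : G, ((g +ᵥ Metric.ball (rep m p r c) μ) ∩ D) := by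
    intro x hx
    have hne : (RS m p r : Set (E m)).Nonempty := ⟨0, (RS m p r).zero_mem⟩
    obtain ⟨v, hv, hxv⟩ := (Metric.infDist_lt_iff hne).mp (hcon x)
    obtain ⟨c, hc⟩ := RS_decomp hp hv
    refine Set.mem_iUnion.mpr ⟨c, Set.mem_iUnion.mpr ⟨⟨_, hc⟩, ?_, hx⟩⟩
    rw [Set.mem_vadd_set_iff_neg_vadd_mem, Metric.mem_ball, dist_eq_norm]
    have : (-(⟨v - rep m p r c, hc⟩ : G) +ᵥ x) - rep m p r c = x - v := by
      rw [Submodule.vadd_def]
      simp
      abel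
    rw [this, ← dist_eq_norm]
    exact hxv
  have h1 : volume D ≤ ∑ c : Fin r → Fin p, volume (Metric.ball (rep m p r c) μ) := by
    calc volume D ≤ volume (⋃ c : Fin r → Fin p, ⋃ g : G,
          ((g +ᵥ Metric.ball (rep m p r c) μ) ∩ D)) := measure_mono hsub
      _ ≤ ∑ c : Fin r → Fin p, volume (⋃ g : G, ((g +ᵥ Metric.ball (rep m p r c) μ) ∩ D)) := by
          refine (measure_iUnion_le _).trans ?_
          rw [tsum_fintype]
      _ ≤ ∑ c : Fin r → Fin p, volume (Metric.ball (rep m p r c) μ) := by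
          refine Finset.sum_le_sum fun c _ => ?_
          rw [hfd.measure_eq_tsum (Metric.ball (rep m p r c) μ)]
          exact measure_iUnion_le _
  have h2 : ∀ c : Fin r → Fin p, volume (Metric.ball (rep m p r c) μ) =
      volume (Metric.ball (0 : E m) μ) := fun c => Measure.addHaar_ball_center _ _ _
  simp only [h2] at h1
  rw [hD, vol_fd] at h1
  simp only [Finset.sum_const, Finset.card_univ, Fintype.card_pi, Fintype.card_fin,
    Finset.prod_const, nsmul_eq_mul, Nat.cast_pow] at h1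
  exact absurd h1 (not_le.mpr hvol)

theorem big_nat : 1301 ^ 90 * (879648 ^ 130) ^ 5 < Nat.factorial 650 * (10 ^ 200) ^ 13 := by
  norm_num

theorem pow_split (x y : ℝ) : (x / y ^ 4) ^ 650 = (x ^ 130) ^ 5 / (y ^ 200) ^ 13 := by
  have h1 : (x / y ^ 4) ^ 650 = x ^ 650 / (y ^ 4) ^ 650 := div_pow _ _ _
  have h2 : (y ^ 4) ^ 650 = y ^ (4 * 650) := (pow_mul y 4 650).symm
  have h3 : (x ^ 130) ^ 5 = x ^ (130 * 5) := (pow_mul x 130 5).symm
  have h4 : (y ^ 200) ^ 13 = y ^ (200 * 13) := (pow_mul y 200 13).symm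
  have h5 : (130 * 5 : ℕ) = 650 := by norm_num
  have h6 : (200 * 13 : ℕ) = 4 * 650 := by norm_num
  rw [h1, h2, h3, h4, h5, h6]

theorem sqrt_pow_big {x : ℝ} (hx : 0 ≤ x) : Real.sqrt x ^ 1300 = x ^ 650 := by
  have h1 : (1300 : ℕ) = 2 * 650 := by norm_num
  have h2 : Real.sqrt x ^ (2 * 650) = (Real.sqrt x ^ 2) ^ 650 := pow_mul _ _ _
  rw [h1, h2, Real.sq_sqrt hx]

theorem vol_bound : ((1301 : ℕ) : ENNReal) ^ 90 *
    volume (Metric.ball (0 : E 1300) (Real.sqrt 28)) < 1 := by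
  rw [InnerProductSpace.volume_ball_of_dim_even (k := 650) (by simp)]
  rw [finrank_euclideanSpace, Fintype.card_fin]
  have h1 : ENNReal.ofReal (Real.sqrt 28) ^ 1300 = ENNReal.ofReal (28 ^ 650) := by
    rw [← ENNReal.ofReal_pow (Real.sqrt_nonneg _), sqrt_pow_big (by norm_num)]
  have h2 : ((1301 : ℕ) : ENNReal) ^ 90 = ENNReal.ofReal (1301 ^ 90) := by
    rw [ENNReal.ofReal_pow (by norm_num)]
    norm_num
  rw [h1, h2, ← ENNReal.ofReal_mul (by positivity), ← ENNReal.ofReal_mul (by positivity)]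
  rw [ENNReal.ofReal_lt_one]
  rw [← mul_div_assoc, ← mul_div_assoc, div_lt_one (by positivity)]
  have h3 : Real.pi < 3.1416 := Real.pi_lt_d4
  have h4 : (28 : ℝ) ^ 650 * Real.pi ^ 650 ≤ (87.9648 : ℝ) ^ 650 := by
    rw [← mul_pow]
    have := Real.pi_pos
    gcongr
    linarith
  have h5 : (1301 : ℝ) ^ 90 * (87.9648 : ℝ) ^ 650 < (Nat.factorial 650 : ℝ) := by
    have h6 : ((1301 ^ 90 * (879648 ^ 130) ^ 5 : ℕ) : ℝ) < ((Nat.factorial 650 * (10 ^ 200) ^ 13 : ℕ) : ℝ) := by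
      exact Nat.cast_lt.mpr big_nat
    have h7 : (87.9648 : ℝ) = 879648 / 10 ^ 4 := by norm_num
    rw [h7, pow_split, ← mul_div_assoc, div_lt_iff₀ (by positivity)]
    rw [Nat.cast_mul, Nat.cast_mul, Nat.cast_pow, Nat.cast_pow, Nat.cast_pow, Nat.cast_pow,
      Nat.cast_pow] at h6
    simpa only [Nat.cast_ofNat] using h6
  calc _ = (1301 : ℝ) ^ 90 * ((28 : ℝ) ^ 650 * Real.pi ^ 650) := by ring
    _ ≤ (1301 : ℝ) ^ 90 * (87.9648 : ℝ) ^ 650 := by gcongr
    _ < _ := h5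

end Pool.Agent.FlatTorus
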