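import Pool.Agent.Q94.FTG

/-! The map `φ_z` attached to a feasible weight. -/

namespace Pool.Agent.FlatTorus

open Filter Topology
open scoped BigOperators

variable {n : ℕ}

theorem Fz_eq {L : Submodule ℤ (E n)} {z : E n → ℝ} (hs : ∀ u, z u ≠ 0 → u ∈ dual L) (x : E n) :
    Fz L (fun u => z u) x = F z x := by
  unfold Fz F
  congr 1
  have h := tsum_subtype_eq_of_support_subset (f := fun u : E n =>
    z u * (1 - Real.cos (2 * Real.pi * ip u x))) (s := dual L) (by
      intro u hu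
      refine hs u ?_
      intro h0
      exact hu (by simp [h0]))
  exact h

theorem F_periodic {L : Submodule ℤ (E n)} {z : E n → ℝ} (hs : ∀ u, z u ≠ 0 → u ∈ dual L)
    (x : E n) {v : E n} (hv : v ∈ L) : F z (x - v) = F z x := by
  unfold F
  congr 1
  refine tsum_congr fun u => ?_
  by_cases h0 : z u = 0
  · rw [h0, zero_mul, zero_mul]
  · obtain ⟨k, hk⟩ := hs u h0 v hv
    have h1 : ip u (x - v) = ip u x - k := by
      rw [← hk]; unfold ip; rw [inner_sub_right]
    rw [h1]
    have h2 : 2 * Real.pi * (ip u x - k) = 2 * Real.pi * ip u x - (k : ℝ) * (2 * Real.pi) := by ring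
    rw [h2, Real.cos_sub_int_mul_two_pi]

theorem F_zero (z : E n → ℝ) : F z 0 = 0 := by
  unfold F
  have : ∀ u : E n, z u * (1 - Real.cos (2 * Real.pi * ip u 0)) = 0 := by
    intro u
    have : ip u (0 : E n) = 0 := by unfold ip; simp
    rw [this]; simp
  simp [this]

theorem Feas.upper' {L : Submodule ℤ (E n)} {C : ℝ} {z : E n → ℝ} (h : Feas L C z) (hC : 0 < C)
    (x : E n) : F z x ≤ C * Metric.infDist x (L : Set (E n)) ^ 2 := by
  have hF0 : 0 ≤ F z x := le_trans (by positivity) (h.lower x)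
  have h1 : Real.sqrt (F z x / C) ≤ Metric.infDist x (L : Set (E n)) := by
    rw [Metric.le_infDist ⟨0, L.zero_mem⟩]
    intro v hv
    rw [dist_eq_norm]
    refine Real.sqrt_le_iff.mpr ⟨norm_nonneg _, ?_⟩
    rw [div_le_iff₀ hC, mul_comm]
    rw [← F_periodic h.supp x hv]
    exact h.upper _
  have h2 : F z x / C ≤ Metric.infDist x (L : Set (E n)) ^ 2 := by
    rw [← Real.sq_sqrt (div_nonneg hF0 hC.le)]
    gcongr
  rw [div_le_iff₀ hC] at h2
  linarith

theorem norm_exp_sub_sq (a b : ℝ) :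
    ‖Complex.exp (2 * Real.pi * Complex.I * (a : ℝ)) - Complex.exp (2 * Real.pi * Complex.I * (b : ℝ))‖ ^ 2
      = 2 * (1 - Real.cos (2 * Real.pi * (a - b))) := by
  have h1 : ∀ t : ℝ, Complex.exp (2 * Real.pi * Complex.I * (t : ℝ)) =
      ((Real.cos (2 * Real.pi * t) : ℝ) : ℂ) + ((Real.sin (2 * Real.pi * t) : ℝ) : ℂ) * Complex.I := by
    intro t
    have : (2 * Real.pi * Complex.I * (t : ℝ) : ℂ) = ((2 * Real.pi * t : ℝ) : ℂ) * Complex.I := by
      push_cast; ring
    rw [this, Complex.exp_mul_I, Complex.ofReal_cos, Complex.ofReal_sin]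
  rw [h1, h1, ← Complex.normSq_eq_norm_sq, Complex.normSq_apply]
  simp only [Complex.sub_re, Complex.add_re, Complex.ofReal_re, Complex.mul_re, Complex.I_re,
    mul_zero, Complex.ofReal_im, Complex.I_im, mul_one, sub_self, add_zero, Complex.sub_im,
    Complex.add_im, Complex.mul_im, zero_add]
  have h2 : 2 * Real.pi * (a - b) = 2 * Real.pi * a - 2 * Real.pi * b := by ring
  rw [h2, Real.cos_sub]
  have h3 := Real.sin_sq_add_cos_sq (2 * Real.pi * a)
  have h4 := Real.sin_sq_add_cos_sq (2 * Real.pi * b)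
  nlinarith

theorem exists_phi {L : Submodule ℤ (E n)} {z : E n → ℝ} (h0 : ∀ u, 0 ≤ z u)
    (hs : ∀ u, z u ≠ 0 → u ∈ dual L) (hsum : Summable z) :
    ∃ Φ : E n → lp (fun _ : dual L => ℂ) 2, IsPhi L (fun u => z u) Φ ∧
      ∀ x y, ‖Φ x - Φ y‖ ^ 2 = F z (x - y) := by
  have hnorm : ∀ (x : E n) (u : dual L),
      ‖(Real.sqrt (z u) : ℂ) * Complex.exp (2 * Real.pi * Complex.I * (ip (u : E n) x : ℝ))‖ ^ 2
        = z u := by
    intro x u
    rw [norm_mul, mul_pow]
    have h1 : ‖Complex.exp (2 * Real.pi * Complex.I * (ip (u : E n) x : ℝ))‖ = 1 := by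
      have : (2 * Real.pi * Complex.I * (ip (u : E n) x : ℝ) : ℂ) =
        ((2 * Real.pi * ip (u : E n) x : ℝ) : ℂ) * Complex.I := by
        push_cast; ring
      rw [this, Complex.norm_exp_ofReal_mul_I]
    rw [h1, Complex.norm_real, Real.norm_eq_abs, sq_abs, Real.sq_sqrt (h0 _)]
    simp
  have hmem : ∀ x : E n, Memℓp (fun u : dual L => (Real.sqrt (z u) : ℂ) *
      Complex.exp (2 * Real.pi * Complex.I * (ip (u : E n) x : ℝ))) 2 := by
    intro x
    refine memℓp_gen ?_
    have h2 : (2 : ENNReal).toReal = ((2 : ℕ) : ℝ) := by simp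
    simp only [h2, Real.rpow_natCast]
    simp only [hnorm]
    exact hsum.subtype (dual L)
  refine ⟨fun x => ⟨_, hmem x⟩, fun x u => rfl, fun x y => ?_⟩
  have h3 := lp.norm_rpow_eq_tsum (p := 2) (by norm_num)
    ((⟨_, hmem x⟩ : lp (fun _ : dual L => ℂ) 2) - ⟨_, hmem y⟩)
  have h2 : (2 : ENNReal).toReal = ((2 : ℕ) : ℝ) := by simp
  simp only [h2, Real.rpow_natCast] at h3
  rw [h3, ← Fz_eq hs]
  unfold Fz
  rw [← tsum_mul_left]
  refine tsum_congr fun u => ?_
  have h4 : ((⟨_, hmem x⟩ : lp (fun _ : dual L => ℂ) 2) - ⟨_, hmem y⟩) u =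
      (Real.sqrt (z u) : ℂ) * (Complex.exp (2 * Real.pi * Complex.I * (ip (u : E n) x : ℝ)) -
        Complex.exp (2 * Real.pi * Complex.I * (ip (u : E n) y : ℝ))) := by
    rw [mul_sub]; rfl
  rw [h4, norm_mul, mul_pow, norm_exp_sub_sq, Complex.norm_real, Real.norm_eq_abs, sq_abs,
    Real.sq_sqrt (h0 _)]
  have h5 : ip (u : E n) (x - y) = ip (u : E n) x - ip (u : E n) y := by
    unfold ip; rw [inner_sub_right]
  rw [h5]; ring

theorem phi_main {L : Submodule ℤ (E n)} (hcl : IsClosed (L : Set (E n))) {C : ℝ} (hC : 0 < C)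
    {z : E n → ℝ} (h : Feas L C z) :
    ∃ Φ : E n → lp (fun _ : dual L => ℂ) 2, IsPhi L (fun u => z u) Φ ∧ TorusInj L Φ ∧
      distortion L Φ ≤ ENNReal.ofReal (Real.sqrt C) := by
  obtain ⟨Φ, hΦ, hn⟩ := exists_phi h.nonneg h.supp h.summ
  have hle : ∀ x y, torDist L x y ≤ ‖Φ x - Φ y‖ := by
    intro x y
    have h1 := h.lower (x - y)
    rw [← hn x y] at h1
    exact (pow_le_pow_iff_left₀ Metric.infDist_nonneg (norm_nonneg _) two_ne_zero).mp h1
  have hge : ∀ x y, ‖Φ x - Φ y‖ ≤ Real.sqrt C * torDist L x y := by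
    intro x y
    have h1 := h.upper' hC (x - y)
    rw [← hn x y] at h1
    have h2 : ‖Φ x - Φ y‖ ^ 2 ≤ (Real.sqrt C * torDist L x y) ^ 2 := by
      rw [mul_pow, Real.sq_sqrt hC.le]
      exact h1
    exact (pow_le_pow_iff_left₀ (norm_nonneg _)
      (mul_nonneg (Real.sqrt_nonneg _) Metric.infDist_nonneg) two_ne_zero).mp h2
  have hpos : ∀ x y, x - y ∉ L → 0 < torDist L x y := by
    intro x y hxy
    unfold torDist
    rw [← hcl.notMem_iff_infDist_pos ⟨0, L.zero_mem⟩]
    exact hxy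
  refine ⟨Φ, hΦ, ?_, ?_⟩
  · intro x y
    constructor
    · intro heq
      by_contra hxy
      have h1 := hpos x y hxy
      have h2 := hle x y
      rw [heq, sub_self, norm_zero] at h2
      linarith
    · intro hxy
      have h1 := hge x y
      have h2 : torDist L x y = 0 := Metric.infDist_zero_of_mem hxy
      rw [h2, mul_zero] at h1
      exact sub_eq_zero.mp (norm_le_zero_iff.mp h1)
  · unfold distortion
    have h1 : expansion L Φ ≤ ENNReal.ofReal (Real.sqrt C) := by
      unfold expansion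
      refine iSup_le fun x => iSup_le fun y => iSup_le fun hxy => ?_
      refine ENNReal.ofReal_le_ofReal ?_
      rw [div_le_iff₀ (hpos x y hxy)]
      exact hge x y
    have h2 : contraction L Φ ≤ 1 := by
      unfold contraction
      refine iSup_le fun x => iSup_le fun y => iSup_le fun hxy => ?_
      rw [← ENNReal.ofReal_one]
      refine ENNReal.ofReal_le_ofReal ?_
      have h3 := hpos x y hxy
      have h4 := hle x y
      rw [div_le_one (by linarith)]
      exact h4
    calc expansion L Φ * contraction L Φ ≤ ENNReal.ofReal (Real.sqrt C) * 1 := by gcongr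
      _ = _ := mul_one _

end Pool.Agent.FlatTorus
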