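import Pool.Agent.Q94.FTD
import Pool.Agent.Q94.FTF
import Pool.Agent.Q94.FTI
import Pool.Agent.Q94.FTK

/-! The orthogonal sum with a circle. -/

namespace Pool.Agent.FlatTorus

open Filter Topology
open scoped BigOperators

variable {m : ℕ}

/-- the tail -/
noncomputable def tl (x : E (m + 1)) : E m := WithLp.toLp 2 (fun i => x i.succ)

/-- cons -/
noncomputable def cn (t : ℝ) (y : E m) : E (m + 1) :=
  WithLp.toLp 2 (Fin.cons t (fun i => y i) : Fin (m + 1) → ℝ)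

@[simp] theorem tl_apply (x : E (m + 1)) (i : Fin m) : tl x i = x i.succ := rfl
@[simp] theorem cn_zero (t : ℝ) (y : E m) : cn t y 0 = t := rfl
@[simp] theorem cn_succ (t : ℝ) (y : E m) (i : Fin m) : cn t y i.succ = y i := rfl

theorem tl_cn (t : ℝ) (y : E m) : tl (cn t y) = y := by
  ext i; simp

theorem cn_tl (x : E (m + 1)) : cn (x 0) (tl x) = x := by
  ext i
  refine Fin.cases ?_ (fun i => ?_) i
  · simp
  · simp

theorem tl_sub (x y : E (m + 1)) : tl (x - y) = tl x - tl y := by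
  ext i; simp

theorem tl_add (x y : E (m + 1)) : tl (x + y) = tl x + tl y := by
  ext i; simp

theorem tl_neg (x : E (m + 1)) : tl (-x) = - tl x := by
  ext i; simp

theorem tl_zero : tl (0 : E (m + 1)) = 0 := by
  ext i; simp

theorem cn_sub (s t : ℝ) (x y : E m) : cn s x - cn t y = cn (s - t) (x - y) := by
  ext i
  refine Fin.cases ?_ (fun i => ?_) i
  · simp
  · simp

theorem ip_split (u x : E (m + 1)) : ip u x = u 0 * x 0 + ip (tl u) (tl x) := by
  unfold ip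
  rw [PiLp.inner_apply, PiLp.inner_apply, Fin.sum_univ_succ]
  simp only [RCLike.inner_apply, conj_trivial, tl_apply]
  rw [mul_comm (x 0)]

theorem norm_split (x : E (m + 1)) : ‖x‖ ^ 2 = x 0 ^ 2 + ‖tl x‖ ^ 2 := by
  rw [EuclideanSpace.norm_sq_eq, EuclideanSpace.norm_sq_eq, Fin.sum_univ_succ]
  simp only [Real.norm_eq_abs, sq_abs, tl_apply]

/-- the orthogonal sum `ℤ ⊕ L₁` -/
def osum (L1 : Submodule ℤ (E m)) : Submodule ℤ (E (m + 1)) where
  carrier := {x | (∃ k : ℤ, x 0 = k) ∧ tl x ∈ L1}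
  zero_mem' := ⟨⟨0, by simp⟩, by rw [tl_zero]; exact L1.zero_mem⟩
  add_mem' := by
    rintro x y ⟨⟨k, hk⟩, hx⟩ ⟨⟨l, hl⟩, hy⟩
    refine ⟨⟨k + l, ?_⟩, ?_⟩
    · rw [PiLp.add_apply, hk, hl]; push_cast; ring
    · rw [tl_add]; exact L1.add_mem hx hy
  smul_mem' := by
    rintro c x ⟨⟨k, hk⟩, hx⟩
    refine ⟨⟨c * k, ?_⟩, ?_⟩
    · rw [PiLp.smul_apply, hk]; simp
    · have : tl (c • x) = c • tl x := by
        ext i; simp
      rw [this]; exact L1.smul_mem c hx

theorem mem_osum {L1 : Submodule ℤ (E m)} {x : E (m + 1)} :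
    x ∈ osum L1 ↔ (∃ k : ℤ, x 0 = k) ∧ tl x ∈ L1 := Iff.rfl

theorem osum_between {L1 : Submodule ℤ (E m)} {p : ℕ} (h : Between L1 p) :
    Between (osum L1) p := by
  refine ⟨h.pos, ?_, ?_⟩
  · intro i
    refine Fin.cases ?_ (fun i => ?_) i
    · refine ⟨⟨1, by simp⟩, ?_⟩
      have : tl (EuclideanSpace.single (0 : Fin (m + 1)) (1 : ℝ)) = 0 := by
        ext i; simp
      rw [this]; exact L1.zero_mem
    · refine ⟨⟨0, by simp⟩, ?_⟩
      have : tl (EuclideanSpace.single (Fin.succ i) (1 : ℝ)) = EuclideanSpace.single i (1 : ℝ) := by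
        ext l; simp
      rw [this]; exact h.one i
  · rintro x ⟨⟨k, hk⟩, hx⟩ i
    refine Fin.cases ?_ (fun i => ?_) i
    · exact ⟨p * k, by rw [hk]; push_cast; ring⟩
    · obtain ⟨l, hl⟩ := h.frac _ hx i
      exact ⟨l, hl⟩

theorem mem_dual_osum {L1 : Submodule ℤ (E m)} {u : E (m + 1)} (h0 : ∃ k : ℤ, u 0 = k)
    (h1 : tl u ∈ dual L1) : u ∈ dual (osum L1) := by
  rintro v ⟨⟨l, hl⟩, hv⟩
  obtain ⟨k, hk⟩ := h0
  obtain ⟨j, hj⟩ := h1 _ hv
  exact ⟨k * l + j, by rw [ip_split, hk, hl, hj]; push_cast; ring⟩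

theorem Between.isClosed {n : ℕ} {L : Submodule ℤ (E n)} {p : ℕ} (h : Between L p) :
    IsClosed (L : Set (E n)) := by
  have hp : (0 : ℝ) < p := by exact_mod_cast h.pos
  have hd : DiscreteTopology L := by
    refine DiscreteTopology.of_forall_le_dist (r := 1 / (p : ℝ)) (by positivity) ?_
    intro x y hxy
    have h1 : (x : E n) - y ∈ L := L.sub_mem x.2 y.2
    have h2 : (x : E n) - y ≠ 0 := by
      intro h3
      exact hxy (Subtype.ext (sub_eq_zero.mp h3))
    have := h.min_norm h1 h2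
    rwa [Subtype.dist_eq, dist_eq_norm]
  have hd' : DiscreteTopology L.toAddSubgroup := hd
  have := AddSubgroup.isClosed_of_discrete (H := L.toAddSubgroup)
  exact this

/-- restriction to the slice `x₀ = 0` is isometric -/
theorem infDist_cn (L1 : Submodule ℤ (E m)) (x y : E m) :
    Metric.infDist (cn 0 x - cn 0 y) (osum L1 : Set (E (m + 1))) =
      Metric.infDist (x - y) (L1 : Set (E m)) := by
  rw [cn_sub, sub_zero]
  apply le_antisymm
  · rw [Metric.le_infDist ⟨0, L1.zero_mem⟩]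
    intro v hv
    have h1 : cn 0 v ∈ osum L1 := ⟨⟨0, by simp⟩, by rw [tl_cn]; exact hv⟩
    refine (Metric.infDist_le_dist_of_mem h1).trans (le_of_eq ?_)
    rw [dist_eq_norm, dist_eq_norm, cn_sub, sub_zero]
    have h2 := norm_split (cn 0 (x - y - v))
    rw [tl_cn, cn_zero] at h2
    have h3 : ‖cn 0 (x - y - v)‖ ^ 2 = ‖x - y - v‖ ^ 2 := by rw [h2]; ring
    exact (pow_left_inj₀ (norm_nonneg _) (norm_nonneg _) two_ne_zero).mp h3
  · rw [Metric.le_infDist ⟨0, (osum L1).zero_mem⟩]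
    intro v hv
    refine (Metric.infDist_le_dist_of_mem hv.2).trans ?_
    rw [dist_eq_norm, dist_eq_norm]
    have h2 := norm_split (cn 0 (x - y) - v)
    rw [tl_sub, tl_cn] at h2
    have h3 : ‖x - y - tl v‖ ^ 2 ≤ ‖cn 0 (x - y) - v‖ ^ 2 := by
      rw [h2]; nlinarith [sq_nonneg ((cn 0 (x - y) - v) 0)]
    exact (pow_le_pow_iff_left₀ (norm_nonneg _) (norm_nonneg _) two_ne_zero).mp h3

theorem infDist_osum_le (L1 : Submodule ℤ (E m)) (x : E (m + 1)) :
    Metric.infDist x (osum L1 : Set (E (m + 1))) ^ 2 ≤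
      (x 0 - round (x 0)) ^ 2 + Metric.infDist (tl x) (L1 : Set (E m)) ^ 2 := by
  by_contra hcon
  push Not at hcon
  set T := (x 0 - round (x 0)) ^ 2 with hT
  set D := Metric.infDist x (osum L1 : Set (E (m + 1))) with hD
  set d := Metric.infDist (tl x) (L1 : Set (E m)) with hd
  have hd0 : 0 ≤ d := Metric.infDist_nonneg
  have hT0 : 0 ≤ T := sq_nonneg _
  have hlt : d < Real.sqrt (D ^ 2 - T) := by
    rw [Real.lt_sqrt hd0]; linarith
  obtain ⟨v, hv, hdist⟩ := (Metric.infDist_lt_iff ⟨0, L1.zero_mem⟩).mp hlt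
  have h1 : cn (round (x 0)) v ∈ osum L1 := ⟨⟨round (x 0), by simp⟩, by rw [tl_cn]; exact hv⟩
  have h2 := Metric.infDist_le_dist_of_mem (x := x) h1
  rw [dist_eq_norm] at h2 hdist
  have h3 := norm_split (x - cn (round (x 0)) v)
  rw [tl_sub, tl_cn] at h3
  have h4 : (x - cn (round (x 0)) v) 0 = x 0 - round (x 0) := by simp
  rw [h4] at h3
  have h5 : ‖tl x - v‖ ^ 2 < D ^ 2 - T := by
    rw [← Real.sq_sqrt (show 0 ≤ D ^ 2 - T by nlinarith [sq_nonneg d])]
    gcongr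
  have h6 : D ^ 2 ≤ ‖x - cn (round (x 0)) v‖ ^ 2 := by
    have : 0 ≤ D := Metric.infDist_nonneg
    gcongr
  linarith

end Pool.Agent.FlatTorus
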