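import Pool.Agent.Q94.FTJ

/-! The feasible weight on the orthogonal sum. -/

namespace Pool.Agent.FlatTorus

open Filter Topology
open scoped BigOperators

variable {m : ℕ}

open Classical in
/-- weight supported on the hyperplane `w₀ = 0` -/
noncomputable def zA (z1 : E m → ℝ) (w : E (m + 1)) : ℝ := if w 0 = 0 then z1 (tl w) else 0

open Classical in
/-- point mass at `a` times the first basis vector -/
noncomputable def pm (a c : ℝ) (w : E (m + 1)) : ℝ := if w = cn a 0 then c else 0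

/-- weight supported on the first axis -/
noncomputable def zB (c1 c3 : ℝ) (w : E (m + 1)) : ℝ :=
  (pm 1 c1 w + pm (-1) c1 w) + (pm 3 c3 w + pm (-3) c3 w)

theorem cn_inj : Function.Injective (cn (m := m) 0) := by
  intro x y h
  have := congrArg tl h
  rwa [tl_cn, tl_cn] at this

theorem zA_hasSum {z1 : E m → ℝ} {g : E (m + 1) → ℝ} {a : ℝ}
    (h : HasSum (fun w => z1 w * g (cn 0 w)) a) : HasSum (fun w => zA z1 w * g w) a := by
  refine (cn_inj.hasSum_iff ?_).mp ?_
  · intro w hw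
    unfold zA
    rw [if_neg, zero_mul]
    intro h0
    exact hw ⟨tl w, by rw [← h0, cn_tl]⟩
  · have : (fun w => zA z1 w * g w) ∘ cn 0 = fun w => z1 w * g (cn 0 w) := by
      funext w
      simp only [Function.comp, zA]
      rw [if_pos (cn_zero _ _), tl_cn]
    rw [this]
    exact h

theorem pm_hasSum (a c : ℝ) (g : E (m + 1) → ℝ) :
    HasSum (fun w => pm a c w * g w) (c * g (cn a 0)) := by
  have h1 := hasSum_single (f := fun w => pm a c w * g w) (cn a 0) (by
    intro w hw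
    unfold pm
    rw [if_neg hw, zero_mul])
  have h2 : pm a c (cn a (0 : E m)) = c := by unfold pm; simp
  simp only [h2] at h1
  exact h1

theorem zB_hasSum (c1 c3 : ℝ) (g : E (m + 1) → ℝ) :
    HasSum (fun w => zB c1 c3 w * g w)
      ((c1 * g (cn 1 0) + c1 * g (cn (-1) 0)) + (c3 * g (cn 3 0) + c3 * g (cn (-3) 0))) := by
  have h := ((pm_hasSum 1 c1 g).add (pm_hasSum (-1) c1 g)).add
    ((pm_hasSum 3 c3 g).add (pm_hasSum (-3) c3 g))
  have h2 : (fun w => zB c1 c3 w * g w) = fun w => (pm 1 c1 w * g w + pm (-1) c1 w * g w) +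
      (pm 3 c3 w * g w + pm (-3) c3 w * g w) := by
    funext w; unfold zB; ring
  rw [h2]
  exact h

theorem F_zB (c1 c3 : ℝ) (x : E (m + 1)) : F (zB c1 c3) x =
    8 * c1 * Real.sin (Real.pi * x 0) ^ 2 + 8 * c3 * Real.sin (3 * Real.pi * x 0) ^ 2 := by
  unfold F
  rw [(zB_hasSum c1 c3 (fun w => 1 - Real.cos (2 * Real.pi * ip w x))).tsum_eq]
  have h1 : ∀ a : ℝ, ip (cn a (0 : E m)) x = a * x 0 := by
    intro a
    rw [ip_split, tl_cn, cn_zero]
    have : ip (0 : E m) (tl x) = 0 := by unfold ip; simp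
    rw [this, add_zero]
  simp only [h1]
  have h2 : ∀ t : ℝ, 1 - Real.cos (2 * t) = 2 * Real.sin t ^ 2 := by
    intro t
    rw [Real.cos_two_mul]
    have := Real.sin_sq_add_cos_sq t
    linarith
  have e1 : 2 * Real.pi * (1 * x 0) = 2 * (Real.pi * x 0) := by ring
  have e2 : 2 * Real.pi * (-1 * x 0) = -(2 * (Real.pi * x 0)) := by ring
  have e3 : 2 * Real.pi * (3 * x 0) = 2 * (3 * Real.pi * x 0) := by ring
  have e4 : 2 * Real.pi * (-3 * x 0) = -(2 * (3 * Real.pi * x 0)) := by ring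
  rw [e1, e2, e3, e4, Real.cos_neg, Real.cos_neg, h2, h2]
  ring

theorem F_zA {z1 : E m → ℝ} (h0 : ∀ u, 0 ≤ z1 u) (hs : Summable z1) (x : E (m + 1)) :
    F (zA z1) x = F z1 (tl x) := by
  unfold F
  have h1 := (summ_term h0 hs (tl x)).hasSum
  have h2 : HasSum (fun w => z1 w * (1 - Real.cos (2 * Real.pi * ip (cn 0 w) x)))
      (∑' u, z1 u * (1 - Real.cos (2 * Real.pi * ip u (tl x)))) := by
    have : (fun w => z1 w * (1 - Real.cos (2 * Real.pi * ip (cn 0 w) x))) =
        fun u => z1 u * (1 - Real.cos (2 * Real.pi * ip u (tl x))) := by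
      funext w
      rw [ip_split, cn_zero, tl_cn, zero_mul, zero_add]
    rw [this]
    exact h1
  rw [(zA_hasSum (g := fun w => 1 - Real.cos (2 * Real.pi * ip w x)) h2).tsum_eq]

theorem zA_nonneg {z1 : E m → ℝ} (h0 : ∀ u, 0 ≤ z1 u) (w : E (m + 1)) : 0 ≤ zA z1 w := by
  unfold zA
  split_ifs
  · exact h0 _
  · exact le_rfl

theorem pm_nonneg {a c : ℝ} (hc : 0 ≤ c) (w : E (m + 1)) : 0 ≤ pm a c w := by
  unfold pm
  split_ifs
  · exact hc
  · exact le_rfl

theorem zB_nonneg {c1 c3 : ℝ} (h1 : 0 ≤ c1) (h3 : 0 ≤ c3) (w : E (m + 1)) : 0 ≤ zB c1 c3 w := by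
  unfold zB
  have := pm_nonneg (a := 1) h1 w
  have := pm_nonneg (a := -1) h1 w
  have := pm_nonneg (a := 3) h3 w
  have := pm_nonneg (a := -3) h3 w
  positivity

theorem zA_summ {z1 : E m → ℝ} (hs : Summable z1) : Summable (zA z1 : E (m + 1) → ℝ) := by
  have h1 : HasSum (fun w => z1 w * (fun _ : E (m + 1) => (1 : ℝ)) (cn 0 w)) (∑' w, z1 w) := by
    simpa using hs.hasSum
  have := (zA_hasSum (g := fun _ : E (m + 1) => (1 : ℝ)) h1).summable
  simpa using this

theorem zB_summ (c1 c3 : ℝ) : Summable (zB c1 c3 : E (m + 1) → ℝ) := by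
  have := (zB_hasSum (m := m) c1 c3 (fun _ => 1)).summable
  simpa using this

theorem neg_cn (a : ℝ) (y : E m) : -cn a y = cn (-a) (-y) := by
  ext i
  refine Fin.cases ?_ (fun i => ?_) i
  · simp
  · simp

theorem pm_neg (a c : ℝ) (w : E (m + 1)) : pm a c (-w) = pm (-a) c w := by
  unfold pm
  have : (-w = cn a 0) ↔ (w = cn (-a) 0) := by
    rw [neg_eq_iff_eq_neg, neg_cn, neg_zero]
  by_cases h : w = cn (-a) 0
  · rw [if_pos (this.mpr h), if_pos h]
  · rw [if_neg (fun h' => h (this.mp h')), if_neg h]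

theorem zB_neg (c1 c3 : ℝ) (w : E (m + 1)) : zB c1 c3 (-w) = zB c1 c3 w := by
  unfold zB
  rw [pm_neg, pm_neg, pm_neg, pm_neg, neg_neg, neg_neg]
  ring

theorem zA_neg {z1 : E m → ℝ} (h : ∀ u, z1 (-u) = z1 u) (w : E (m + 1)) :
    zA z1 (-w) = zA z1 w := by
  unfold zA
  have h1 : (-w) 0 = - w 0 := by simp
  by_cases h0 : w 0 = 0
  · rw [if_pos h0, if_pos (by rw [h1, h0, neg_zero]), tl_neg, h]
  · rw [if_neg h0, if_neg (by rw [h1]; simpa using h0)]

theorem pm_zero {a c : ℝ} (ha : a ≠ 0) : pm a c (0 : E (m + 1)) = 0 := by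
  unfold pm
  rw [if_neg]
  intro h
  have : (0 : E (m + 1)) 0 = cn a (0 : E m) 0 := by rw [← h]
  rw [cn_zero] at this
  exact ha this.symm

theorem pm_ne {a c : ℝ} {w : E (m + 1)} (h : pm a c w ≠ 0) : w = cn a 0 := by
  unfold pm at h
  by_contra h0
  exact h (if_neg h0)

theorem sin_sq_periodic (k : ℤ) (y : ℝ) :
    Real.sin (Real.pi * (y - k)) ^ 2 = Real.sin (Real.pi * y) ^ 2 := by
  have h2 : ∀ t : ℝ, Real.sin t ^ 2 = (1 - Real.cos (2 * t)) / 2 := by
    intro t
    rw [Real.cos_two_mul]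
    have := Real.sin_sq_add_cos_sq t
    linarith
  rw [h2, h2]
  have : 2 * (Real.pi * (y - k)) = 2 * (Real.pi * y) - (k : ℝ) * (2 * Real.pi) := by ring
  rw [this, Real.cos_sub_int_mul_two_pi]

theorem Gc_periodic (k : ℤ) (y : ℝ) : Gc (y - k) = Gc y := by
  unfold Gc
  rw [sin_sq_periodic]
  have h1 : 3 * Real.pi * (y - k) = Real.pi * (3 * y - ((3 * k : ℤ) : ℝ)) := by push_cast; ring
  have h2 : 3 * Real.pi * y = Real.pi * (3 * y) := by ring
  rw [h1, sin_sq_periodic, h2]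

/-- The combined weight is feasible. -/
theorem feas_osum {L1 : Submodule ℤ (E m)} {C : ℝ} {z1 : E m → ℝ} (h : Feas L1 C z1) {m0 : ℝ}
    (hm0 : 4 ≤ m0) (hlow : ∀ y, |y| ≤ 1 / 2 → m0 * y ^ 2 ≤ Gc y)
    (hup : ∀ y, Gc y ≤ 7.21 * Real.pi ^ 2 * y ^ 2) (hC : 17.8 ≤ C) :
    Feas (osum L1) C (fun w => zA z1 w + zB (1 / (8 * m0)) (0.69 / (8 * m0)) w) ∧
    ∀ x, F (fun w => zA z1 w + zB (1 / (8 * m0)) (0.69 / (8 * m0)) w) x =
      F z1 (tl x) + Gc (x 0) / m0 := by
  have hm0p : 0 < m0 := by linarith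
  have hc1 : 0 ≤ 1 / (8 * m0) := by positivity
  have hc3 : 0 ≤ 0.69 / (8 * m0) := by positivity
  set c1 := 1 / (8 * m0) with hc1d
  set c3 := 0.69 / (8 * m0) with hc3d
  have hF : ∀ x, F (fun w => zA z1 w + zB c1 c3 w) x = F z1 (tl x) + Gc (x 0) / m0 := by
    intro x
    have h1 : F (fun w => zA z1 w + zB c1 c3 w) x = F (zA z1) x + F (zB c1 c3) x := by
      unfold F
      rw [← mul_add, ← (summ_term (zA_nonneg h.nonneg) (zA_summ h.summ) x).tsum_add
        (summ_term (zB_nonneg hc1 hc3) (zB_summ c1 c3) x)]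
      congr 1
      refine tsum_congr fun w => ?_
      ring
    rw [h1, F_zA h.nonneg h.summ, F_zB]
    congr 1
    unfold Gc
    rw [hc1d, hc3d]
    field_simp
  refine ⟨⟨?_, ?_, ?_, ?_, ?_, ?_, ?_⟩, hF⟩
  · intro u
    exact add_nonneg (zA_nonneg h.nonneg u) (zB_nonneg hc1 hc3 u)
  · intro u
    rw [zA_neg h.even, zB_neg]
  · have h1 : zA z1 (0 : E (m + 1)) = 0 := by
      unfold zA
      rw [if_pos (by simp), tl_zero, h.zero]
    have h2 : zB c1 c3 (0 : E (m + 1)) = 0 := by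
      unfold zB
      rw [pm_zero (by norm_num), pm_zero (by norm_num), pm_zero (by norm_num),
        pm_zero (by norm_num)]
      simp
    rw [h1, h2, add_zero]
  · intro u hu
    have hzd : (0 : E m) ∈ dual L1 := by
      intro v _
      exact ⟨0, by unfold ip; simp⟩
    by_cases hA : zA z1 u = 0
    · rw [hA, zero_add] at hu
      have hcase : u = cn 1 0 ∨ u = cn (-1) 0 ∨ u = cn 3 0 ∨ u = cn (-3) 0 := by
        by_contra hcon
        push Not at hcon
        obtain ⟨n1, n2, n3, n4⟩ := hcon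
        apply hu
        unfold zB pm
        rw [if_neg n1, if_neg n2, if_neg n3, if_neg n4]
        simp
      rcases hcase with h1 | h1 | h1 | h1
      · exact mem_dual_osum ⟨1, by rw [h1]; simp⟩ (by rw [h1, tl_cn]; exact hzd)
      · exact mem_dual_osum ⟨-1, by rw [h1]; simp⟩ (by rw [h1, tl_cn]; exact hzd)
      · exact mem_dual_osum ⟨3, by rw [h1]; simp⟩ (by rw [h1, tl_cn]; exact hzd)
      · exact mem_dual_osum ⟨-3, by rw [h1]; simp⟩ (by rw [h1, tl_cn]; exact hzd)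
    · unfold zA at hA
      by_cases h0 : u 0 = 0
      · rw [if_pos h0] at hA
        exact mem_dual_osum ⟨0, by rw [h0]; simp⟩ (h.supp _ hA)
      · rw [if_neg h0] at hA
        exact absurd rfl hA
  · exact (zA_summ h.summ).add (zB_summ c1 c3)
  · intro x
    rw [hF]
    refine (infDist_osum_le L1 x).trans ?_
    have h1 := h.lower (tl x)
    have h2 : (x 0 - round (x 0)) ^ 2 ≤ Gc (x 0) / m0 := by
      rw [le_div_iff₀ hm0p, mul_comm]
      rw [← Gc_periodic (round (x 0)) (x 0)]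
      exact hlow _ (abs_sub_round _)
    linarith
  · intro x
    rw [hF, norm_split]
    have h1 := h.upper (tl x)
    have h2 : Gc (x 0) / m0 ≤ C * x 0 ^ 2 := by
      rw [div_le_iff₀ hm0p]
      refine (hup (x 0)).trans ?_
      have hpi : Real.pi ^ 2 < 9.8697 := by
        have := Real.pi_lt_d6
        have h0 := Real.pi_pos
        nlinarith
      have hx : 0 ≤ x 0 ^ 2 := sq_nonneg _
      have h3 : 7.21 * Real.pi ^ 2 ≤ C * m0 := by nlinarith
      calc 7.21 * Real.pi ^ 2 * x 0 ^ 2 ≤ C * m0 * x 0 ^ 2 := by gcongr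
        _ = _ := by ring
    linarith

end Pool.Agent.FlatTorus
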