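import Pool.Agent.Q94.FTL

/-! A most contracted point in the interior of the Voronoi cell. -/

namespace Pool.Agent.FlatTorus

open Filter Topology
open scoped BigOperators

variable {m : ℕ}

theorem half_not_mem (L1 : Submodule ℤ (E m)) : cn (1 / 2) 0 - 0 ∉ osum L1 := by
  rintro ⟨⟨k, hk⟩, -⟩
  simp only [sub_zero, cn_zero] at hk
  have h1 : (1 : ℝ) = ((2 * k : ℤ) : ℝ) := by push_cast; linarith
  have h2 : (1 : ℤ) = 2 * k := by exact_mod_cast h1
  omega

theorem c2_lower {L1 : Submodule ℤ (E m)} (b : Module.Basis (Fin m) ℝ (E m))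
    (hL1 : L1 = Submodule.span ℤ (Set.range b)) (hcl : IsClosed (osum L1 : Set (E (m + 1))))
    {C1 : ℝ} (hmin : ∀ C' z', Feas L1 C' z' → C1 ≤ C') :
    ENNReal.ofReal (Real.sqrt C1) ≤ c2 (osum L1) := by
  unfold c2
  refine le_sInf ?_
  rintro D ⟨H, i1, i2, i3, φ, hφ, rfl⟩
  have hpos : ∀ x y, x - y ∉ osum L1 → 0 < torDist (osum L1) x y := by
    intro x y hxy
    unfold torDist
    rw [← hcl.notMem_iff_infDist_pos ⟨0, (osum L1).zero_mem⟩]
    exact hxy
  have hnpos : ∀ x y, x - y ∉ osum L1 → 0 < ‖φ x - φ y‖ := by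
    intro x y hxy
    rw [norm_pos_iff, sub_ne_zero]
    intro h
    exact hxy ((hφ x y).mp h)
  set A := expansion (osum L1) φ with hA
  set K := contraction (osum L1) φ with hK
  have hAle : ∀ x y, x - y ∉ osum L1 → ENNReal.ofReal (‖φ x - φ y‖ / torDist (osum L1) x y) ≤ A := by
    intro x y hxy
    rw [hA]
    unfold expansion
    exact le_iSup_of_le x (le_iSup_of_le y (le_iSup_of_le hxy le_rfl))
  have hKle : ∀ x y, x - y ∉ osum L1 → ENNReal.ofReal (torDist (osum L1) x y / ‖φ x - φ y‖) ≤ K := by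
    intro x y hxy
    rw [hK]
    unfold contraction
    exact le_iSup_of_le x (le_iSup_of_le y (le_iSup_of_le hxy le_rfl))
  have h0 := half_not_mem L1
  have hA0 : A ≠ 0 := by
    intro h
    have h1 := hAle _ _ h0
    rw [h, nonpos_iff_eq_zero, ENNReal.ofReal_eq_zero] at h1
    have := div_pos (hnpos _ _ h0) (hpos _ _ h0)
    linarith
  have hK0 : K ≠ 0 := by
    intro h
    have h1 := hKle _ _ h0
    rw [h, nonpos_iff_eq_zero, ENNReal.ofReal_eq_zero] at h1
    have := div_pos (hpos _ _ h0) (hnpos _ _ h0)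
    linarith
  unfold distortion
  rw [← hA, ← hK]
  by_cases hAt : A = ⊤
  · rw [hAt, ENNReal.top_mul hK0]; exact le_top
  by_cases hKt : K = ⊤
  · rw [hKt, ENNReal.mul_top hA0]; exact le_top
  set a := A.toReal with ha
  set k := K.toReal with hk
  have ha0 : 0 < a := ENNReal.toReal_pos hA0 hAt
  have hk0 : 0 < k := ENNReal.toReal_pos hK0 hKt
  have h1 : ∀ x y, ‖φ x - φ y‖ ≤ a * torDist (osum L1) x y := by
    intro x y
    by_cases hxy : x - y ∈ osum L1
    · rw [(hφ x y).mpr hxy, sub_self, norm_zero]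
      exact mul_nonneg ha0.le Metric.infDist_nonneg
    · have h2 := (ENNReal.ofReal_le_iff_le_toReal hAt).mp (hAle x y hxy)
      rwa [div_le_iff₀ (hpos x y hxy)] at h2
  have h2 : ∀ x y, torDist (osum L1) x y ≤ k * ‖φ x - φ y‖ := by
    intro x y
    by_cases hxy : x - y ∈ osum L1
    · have h3 : torDist (osum L1) x y = 0 := Metric.infDist_zero_of_mem hxy
      rw [h3]
      positivity
    · have h3 := (ENNReal.ofReal_le_iff_le_toReal hKt).mp (hKle x y hxy)
      rwa [div_le_iff₀ (hnpos x y hxy)] at h3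
  obtain ⟨z, hz⟩ := feas_of_map b hL1 (fun y => φ (cn 0 y)) (s := 1 / k) (D := a * k)
    (by positivity) (by positivity) (by
      intro x y
      have h3 := h2 (cn 0 x) (cn 0 y)
      unfold torDist at h3
      rw [infDist_cn] at h3
      rw [one_div, inv_mul_le_iff₀ hk0]
      exact h3) (by
      intro x y
      have h3 := h1 (cn 0 x) (cn 0 y)
      unfold torDist at h3
      rw [infDist_cn] at h3
      have h4 : a * k * (1 / k) = a := by field_simp
      rw [h4]
      exact h3)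
  have h3 := hmin _ _ hz
  have h4 : Real.sqrt C1 ≤ a * k := by
    rw [Real.sqrt_le_left (by positivity)]
    exact h3
  calc ENNReal.ofReal (Real.sqrt C1) ≤ ENNReal.ofReal (a * k) := ENNReal.ofReal_le_ofReal h4
    _ = A * K := by
      rw [ENNReal.ofReal_mul ha0.le, ha, hk, ENNReal.ofReal_toReal hAt, ENNReal.ofReal_toReal hKt]

/-- a neighbourhood inside the Voronoi cell -/
theorem nbhd_Vor {L1 : Submodule ℤ (E m)} {p : ℕ} (h : Between L1 p) {x : E (m + 1)}
    (h0 : |x 0| < 1 / 2) (h1 : ‖tl x‖ < 1 / (2 * p)) : x ∈ Vor (osum L1) := by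
  have hp : (0 : ℝ) < p := by exact_mod_cast h.pos
  rintro v ⟨⟨k, hk⟩, hv⟩
  have hx := norm_split x
  have hxv := norm_split (x - v)
  rw [tl_sub] at hxv
  have e0 : (x - v) 0 = x 0 - k := by rw [PiLp.sub_apply, hk]
  rw [e0] at hxv
  have h2 : x 0 ^ 2 ≤ (x 0 - k) ^ 2 := by
    by_cases hk0 : k = 0
    · rw [hk0]; simp
    · have h3 : (1 : ℝ) ≤ |(k : ℝ)| := by
        have := Int.one_le_abs hk0
        exact_mod_cast this
      have h4 : |(k : ℝ)| - |x 0| ≤ |x 0 - k| := by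
        rw [abs_sub_comm]; exact abs_sub_abs_le_abs_sub _ _
      rw [← sq_abs (x 0), ← sq_abs (x 0 - k)]
      have h5 : |x 0| ≤ |x 0 - k| := by linarith
      gcongr
  have h3 : ‖tl x‖ ≤ ‖tl x - tl v‖ := by
    by_cases hv0 : tl v = 0
    · rw [hv0, sub_zero]
    · have h4 := h.min_norm hv hv0
      have h5 : ‖tl v‖ - ‖tl x‖ ≤ ‖tl x - tl v‖ := by
        rw [norm_sub_rev]; exact norm_sub_norm_le _ _
      have h6 : (1 : ℝ) / p = 1 / (2 * p) + 1 / (2 * p) := by field_simp; norm_num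
      linarith
  have h4 : ‖tl x‖ ^ 2 ≤ ‖tl x - tl v‖ ^ 2 := by gcongr
  have h5 : ‖x‖ ^ 2 ≤ ‖x - v‖ ^ 2 := by rw [hx, hxv]; linarith
  exact (pow_le_pow_iff_left₀ (norm_nonneg _) (norm_nonneg _) two_ne_zero).mp h5

theorem continuous_tl : Continuous (tl (m := m)) := by
  unfold tl
  fun_prop

theorem interior_Vor {L1 : Submodule ℤ (E m)} {p : ℕ} (h : Between L1 p) {y0 : ℝ}
    (h0 : 0 < y0) (h1 : y0 < 1 / 2) : cn y0 0 ∈ interior (Vor (osum L1)) := by
  have hp : (0 : ℝ) < p := by exact_mod_cast h.pos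
  rw [mem_interior]
  refine ⟨{x | |x 0| < 1 / 2} ∩ {x | ‖tl x‖ < 1 / (2 * p)}, ?_, ?_, ?_⟩
  · rintro x ⟨ha, hb⟩
    exact nbhd_Vor h ha hb
  · refine IsOpen.inter ?_ ?_
    · exact isOpen_lt (by fun_prop) continuous_const
    · exact isOpen_lt continuous_tl.norm continuous_const
  · refine ⟨?_, ?_⟩
    · change |cn y0 (0 : E m) 0| < 1 / 2
      rw [cn_zero, abs_of_pos h0]; exact h1
    · change ‖tl (cn y0 (0 : E m))‖ < 1 / (2 * p)
      rw [tl_cn, norm_zero]; positivity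

theorem norm_le_infDist {n : ℕ} {L : Submodule ℤ (E n)} {y : E n} (hy : y ∈ Vor L) :
    ‖y‖ ≤ Metric.infDist y (L : Set (E n)) := by
  rw [Metric.le_infDist ⟨0, L.zero_mem⟩]
  intro v hv
  rw [dist_eq_norm]
  exact hy v hv

theorem final_aux {L1 : Submodule ℤ (E m)} {p : ℕ} (hbet : Between L1 p) {C1 : ℝ} {z1 : E m → ℝ}
    (hfeas : Feas L1 C1 z1) (hmin : ∀ C' z', Feas L1 C' z' → C1 ≤ C') (hC : 17.8 ≤ C1) :
    ∃ (z : dual (osum L1) → ℝ) (x : E (m + 1)), Optimal (osum L1) z ∧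
      MostContracted (osum L1) z x ∧ x ∈ interior (Vor (osum L1)) := by
  obtain ⟨b, hb⟩ := hbet.exists_basis
  obtain ⟨m0, y0, hm0, hy0, hy1, hG0, hGlow, hGup⟩ := circle_factor
  have hm0p : 0 < m0 := by linarith
  obtain ⟨hF, hFv⟩ := feas_osum hfeas hm0 hGlow hGup hC
  set z : E (m + 1) → ℝ := fun w => zA z1 w + zB (1 / (8 * m0)) (0.69 / (8 * m0)) w with hz
  have hcl : IsClosed (osum L1 : Set (E (m + 1))) := (osum_between hbet).isClosed
  have hCpos : 0 < C1 := by linarith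
  obtain ⟨Φ, hΦ, hinj, hdist⟩ := phi_main hcl hCpos hF
  have hlow := c2_lower b hb hcl hmin
  refine ⟨fun u => z u, cn y0 0, ⟨⟨fun u => hF.nonneg _, ?_, hF.summ.subtype _⟩, Φ, hΦ, hinj, ?_⟩,
    ⟨⟨?_, ?_⟩, ?_⟩, interior_Vor hbet hy0 hy1⟩
  · intro u v huv
    change z u = z v
    rw [huv, hF.even]
  · refine le_antisymm (hdist.trans hlow) ?_
    unfold c2
    exact sInf_le ⟨_, inferInstance, inferInstance, inferInstance, Φ, hinj, rfl⟩
  · exact interior_subset (interior_Vor hbet hy0 hy1)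
  · intro h
    have : cn y0 (0 : E m) 0 = (0 : E (m + 1)) 0 := by rw [h]
    rw [cn_zero] at this
    exact hy0.ne' this
  · rintro y ⟨hy, hyne⟩
    rw [Fz_eq hF.supp, Fz_eq hF.supp]
    have h1 : ‖cn y0 (0 : E m)‖ ^ 2 = y0 ^ 2 := by
      rw [norm_split, tl_cn, cn_zero, norm_zero]; ring
    have h2 : F z (cn y0 0) = y0 ^ 2 := by
      rw [hFv, tl_cn, cn_zero, F_zero, hG0]
      field_simp
      ring
    rw [h1, h2, div_self (by positivity)]
    have h3 : ‖y‖ ^ 2 ≤ F z y := by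
      refine le_trans ?_ (hF.lower y)
      have := norm_le_infDist hy
      gcongr
    have h4 : 0 < ‖y‖ := norm_pos_iff.mpr hyne
    have h5 : 0 < F z y := lt_of_lt_of_le (by positivity) h3
    rw [div_le_one h5]
    exact h3

instance fact_prime_1301 : Fact (Nat.Prime 1301) := ⟨by norm_num⟩

theorem main : ∃ (L : Submodule ℤ (E 1301)) (z : dual L → ℝ) (x : E 1301),
    IsLattice L ∧ Optimal L z ∧ MostContracted L z x ∧ x ∈ interior (Vor L) := by
  have hbet : Between (RS 1300 1301 90) 1301 := RS_between 1300 90 (by norm_num)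
  obtain ⟨b, hb⟩ := hbet.exists_basis
  have hdual : ∀ u ∈ dual (RS 1300 1301 90), u ≠ 0 → (91 : ℝ) ≤ ‖u‖ ^ 2 := by
    intro u hu hu0
    have := RS_dual_norm (m := 1300) (r := 90) (p := 1301) (by norm_num) (by norm_num) hu hu0
    norm_num at this ⊢
    linarith
  obtain ⟨C1, z1, hfeas, hmin⟩ := attained (L := RS 1300 1301 90) (by norm_num)
    (lam := 91) (by norm_num) hdual (fun R => RS_dual_finite (by norm_num) R) (exists_feas b hb)
  obtain ⟨x, hx⟩ := RS_cover (m := 1300) (r := 90) (p := 1301) (by norm_num) vol_bound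
  have hx2 : (28 : ℝ) ≤ Metric.infDist x (RS 1300 1301 90 : Set (E 1300)) ^ 2 := by
    rw [← Real.sq_sqrt (show (0 : ℝ) ≤ 28 by norm_num)]
    gcongr
  have hC := const_bound hfeas (lam := 91) (mu := 28) (by norm_num) hdual x hx2
  have hC1 : 17.8 ≤ C1 := by
    have hpi : 9.8 < Real.pi ^ 2 := by
      have := Real.pi_gt_d4
      nlinarith
    push_cast at hC
    linarith
  obtain ⟨z, x, h1, h2, h3⟩ := final_aux hbet hfeas hmin hC1
  exact ⟨osum (RS 1300 1301 90), z, x, (osum_between hbet).exists_basis, h1, h2, h3⟩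

end Pool.Agent.FlatTorus
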