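import Mathlib

/-!
# A nonexpansive analytic map whose fixed point set is not a `C¹` manifold
-/

open scoped Topology
open Filter Set

namespace Q94.FS

/-- `M` is a `C¹` embedded submanifold of `ℝ^n` near the point `p`: some `C¹` diffeomorphism `ψ`
from an open neighbourhood of `p` onto an open subset of `ℝ^n` maps the part of `M` in its domain
onto the part of `ℝ^k × {0}` in its range. -/
def IsC1At {n : ℕ} (M : Set (Fin n → ℝ)) (p : Fin n → ℝ) : Prop :=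
  ∃ ψ : OpenPartialHomeomorph (Fin n → ℝ) (Fin n → ℝ), p ∈ ψ.source ∧
    ContDiffOn ℝ 1 ψ ψ.source ∧ ContDiffOn ℝ 1 ψ.symm ψ.target ∧
    ∃ k : ℕ, ψ '' (ψ.source ∩ M) = ψ.target ∩ {y | ∀ i : Fin n, k ≤ i → y i = 0}

/-- `τ(t) = t³ / (1 + t²)`. -/
noncomputable def τ (t : ℝ) : ℝ := t ^ 3 / (1 + t ^ 2)

lemma τ_sub (a b : ℝ) : τ b - τ a = (b - a) * (1 - (1 - a * b) / ((1 + a ^ 2) * (1 + b ^ 2))) := by
  unfold τ
  field_simp
  ring

lemma τ_mono {a b : ℝ} (h : a ≤ b) : τ a ≤ τ b := by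
  have h1 : 0 ≤ 1 - (1 - a * b) / ((1 + a ^ 2) * (1 + b ^ 2)) := by
    rw [sub_nonneg, div_le_one (by positivity)]
    nlinarith [sq_nonneg (a + b), sq_nonneg (a * b)]
  have := τ_sub a b
  nlinarith [mul_nonneg (sub_nonneg.2 h) h1]

lemma τ_lip {a b : ℝ} (h : a ≤ b) : τ b - τ a ≤ 4 / 3 * (b - a) := by
  have h1 : 1 - (1 - a * b) / ((1 + a ^ 2) * (1 + b ^ 2)) ≤ 4 / 3 := by
    have : -(1 / 3 : ℝ) ≤ (1 - a * b) / ((1 + a ^ 2) * (1 + b ^ 2)) := by
      rw [le_div_iff₀ (by positivity)]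
      nlinarith [sq_nonneg (a - b), sq_nonneg (a * b - 1)]
    linarith
  rw [τ_sub]
  nlinarith [mul_nonneg (sub_nonneg.2 h) (sub_nonneg.2 h1)]

/-- The third coordinate. -/
noncomputable def g (x : Fin 3 → ℝ) : ℝ :=
  x 2 - 1 / 4 * (τ (x 2 - x 0) + τ (x 2 - x 1) + τ (x 2))

/-- The map. -/
noncomputable def f (x : Fin 3 → ℝ) : Fin 3 → ℝ := ![x 0, x 1, g x]

lemma g_mono {x y : Fin 3 → ℝ} (h : ∀ i, x i ≤ y i) : g x ≤ g y := by
  unfold g
  -- change the third coordinate first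
  have h2 := h 2
  have a1 := τ_lip (show x 2 - x 0 ≤ y 2 - x 0 by linarith)
  have a2 := τ_lip (show x 2 - x 1 ≤ y 2 - x 1 by linarith)
  have a3 := τ_lip h2
  have b1 := τ_mono (show y 2 - y 0 ≤ y 2 - x 0 by linarith [h 0])
  have b2 := τ_mono (show y 2 - y 1 ≤ y 2 - x 1 by linarith [h 1])
  linarith

lemma g_shift (x : Fin 3 → ℝ) {s : ℝ} (hs : 0 ≤ s) : g (fun i => x i + s) ≤ g x + s := by
  unfold g
  have := τ_mono (show x 2 ≤ x 2 + s by linarith)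
  rw [show x 2 + s - (x 0 + s) = x 2 - x 0 by ring, show x 2 + s - (x 1 + s) = x 2 - x 1 by ring]
  linarith

lemma g_nonexp (x y : Fin 3 → ℝ) : g x - g y ≤ ‖x - y‖ := by
  have h1 : ∀ i, x i ≤ y i + ‖x - y‖ := by
    intro i
    have := norm_le_pi_norm (x - y) i
    rw [Pi.sub_apply, Real.norm_eq_abs] at this
    linarith [le_abs_self (x i - y i)]
  have := (g_mono h1).trans (g_shift y (norm_nonneg (x - y)))
  linarith

lemma f_nonexp (x y : Fin 3 → ℝ) : ‖f x - f y‖ ≤ ‖x - y‖ := by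
  rw [pi_norm_le_iff_of_nonneg (norm_nonneg _)]
  intro i
  fin_cases i
  · simpa [f] using norm_le_pi_norm (x - y) 0
  · simpa [f] using norm_le_pi_norm (x - y) 1
  · simp only [f, Fin.reduceFinMk, Pi.sub_apply, Matrix.cons_val, Real.norm_eq_abs]
    rw [abs_le]
    have h1 := g_nonexp x y
    have h2 := g_nonexp y x
    rw [norm_sub_rev] at h2
    constructor <;> linarith

lemma f_analytic : AnalyticOnNhd ℝ f univ := by
  have hg : AnalyticOnNhd ℝ g univ := by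
    intro x _
    unfold g τ
    have p0 : AnalyticAt ℝ (fun x : Fin 3 → ℝ => x 0) x :=
      (ContinuousLinearMap.proj (R := ℝ) (φ := fun _ : Fin 3 => ℝ) 0).analyticAt x
    have p1 : AnalyticAt ℝ (fun x : Fin 3 → ℝ => x 1) x :=
      (ContinuousLinearMap.proj (R := ℝ) (φ := fun _ : Fin 3 => ℝ) 1).analyticAt x
    have p2 : AnalyticAt ℝ (fun x : Fin 3 → ℝ => x 2) x :=
      (ContinuousLinearMap.proj (R := ℝ) (φ := fun _ : Fin 3 => ℝ) 2).analyticAt x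
    have q : ∀ u : (Fin 3 → ℝ) → ℝ, AnalyticAt ℝ u x →
        AnalyticAt ℝ (fun x => u x ^ 3 / (1 + u x ^ 2)) x := by
      intro u hu
      exact (hu.pow 3).div (analyticAt_const.add (hu.pow 2)) (by positivity)
    exact p2.sub (analyticAt_const.mul
      (((q _ (p2.sub p0)).add (q _ (p2.sub p1))).add (q _ p2)))
  intro x hx
  unfold f
  rw [analyticAt_pi_iff]
  intro i
  fin_cases i
  · exact (ContinuousLinearMap.proj (R := ℝ) (φ := fun _ : Fin 3 => ℝ) 0).analyticAt x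
  · exact (ContinuousLinearMap.proj (R := ℝ) (φ := fun _ : Fin 3 => ℝ) 1).analyticAt x
  · exact hg x hx

/-- The rescaled equation of the fixed point set. -/
noncomputable def Θ (t : ℝ) (v : Fin 3 → ℝ) : ℝ :=
  (v 2 - v 0) ^ 3 / (1 + (t * (v 2 - v 0)) ^ 2) + (v 2 - v 1) ^ 3 / (1 + (t * (v 2 - v 1)) ^ 2)
    + v 2 ^ 3 / (1 + (t * v 2) ^ 2)

lemma Θ_cont : Continuous fun p : ℝ × (Fin 3 → ℝ) => Θ p.1 p.2 := by
  unfold Θ
  refine ((Continuous.div (by fun_prop) (by fun_prop) fun p => by positivity).add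
    (Continuous.div (by fun_prop) (by fun_prop) fun p => by positivity)).add
    (Continuous.div (by fun_prop) (by fun_prop) fun p => by positivity)

lemma Θ_tendsto {t : ℕ → ℝ} {v : ℕ → Fin 3 → ℝ} {a : ℝ} {w : Fin 3 → ℝ}
    (ht : Tendsto t atTop (𝓝 a)) (hv : Tendsto v atTop (𝓝 w)) :
    Tendsto (fun n => Θ (t n) (v n)) atTop (𝓝 (Θ a w)) := by
  have h1 : Tendsto (fun n => (t n, v n)) atTop (𝓝 (a, w)) := ht.prodMk_nhds hv
  have h2 := (Θ_cont.tendsto (a, w)).comp h1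
  simpa only [Function.comp_def] using h2

/-- The fixed point set. -/
def M : Set (Fin 3 → ℝ) := {x | f x = x}

lemma mem_M_iff (x : Fin 3 → ℝ) : x ∈ M ↔ τ (x 2 - x 0) + τ (x 2 - x 1) + τ (x 2) = 0 := by
  unfold M f g
  simp only [mem_ofPred_eq]
  constructor
  · intro h
    have := congrFun h 2
    simp at this
    linarith
  · intro h
    rw [h]
    ext i
    fin_cases i <;> simp

lemma smul_mem_M_iff {t : ℝ} (ht : t ≠ 0) (v : Fin 3 → ℝ) : t • v ∈ M ↔ Θ t v = 0 := by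
  rw [mem_M_iff]
  have : τ ((t • v) 2 - (t • v) 0) + τ ((t • v) 2 - (t • v) 1) + τ ((t • v) 2) = t ^ 3 * Θ t v := by
    unfold τ Θ
    simp only [Pi.smul_apply, smul_eq_mul]
    rw [← mul_sub, ← mul_sub]
    ring
  rw [this]
  simp [ht]

lemma zero_mem_M : (0 : Fin 3 → ℝ) ∈ M := by
  rw [mem_M_iff]; simp [τ]

/-! ### Tangent vectors -/

/-- The subspace `ℝ^k × {0}`. -/
def L (k : ℕ) : Submodule ℝ (Fin 3 → ℝ) where
  carrier := {y | ∀ i : Fin 3, k ≤ i → y i = 0}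
  add_mem' := by
    intro a b ha hb i hi
    simp [ha i hi, hb i hi]
  zero_mem' := by intro i _; rfl
  smul_mem' := by
    intro c a ha i hi
    simp [ha i hi]

lemma L_closed (k : ℕ) : IsClosed (L k : Set (Fin 3 → ℝ)) := (L k).closed_of_finiteDimensional

section
variable (ψ : OpenPartialHomeomorph (Fin 3 → ℝ) (Fin 3 → ℝ)) (h0 : (0 : Fin 3 → ℝ) ∈ ψ.source)
  (hψ : ContDiffOn ℝ 1 ψ ψ.source) (hψ' : ContDiffOn ℝ 1 ψ.symm ψ.target) (k : ℕ)
  (hk : ψ '' (ψ.source ∩ M) = ψ.target ∩ {y | ∀ i : Fin 3, k ≤ i → y i = 0})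

include h0 hψ in
lemma der1 : HasFDerivAt ψ (fderiv ℝ ψ 0) 0 :=
  ((hψ.contDiffAt (ψ.open_source.mem_nhds h0)).differentiableAt one_ne_zero).hasFDerivAt

include h0 hψ' in
lemma der2 : HasFDerivAt ψ.symm (fderiv ℝ ψ.symm (ψ 0)) (ψ 0) :=
  ((hψ'.contDiffAt (ψ.open_target.mem_nhds (ψ.map_source h0))).differentiableAt
    one_ne_zero).hasFDerivAt

include h0 hψ hψ' in
lemma der_comp (v : Fin 3 → ℝ) : fderiv ℝ ψ.symm (ψ 0) (fderiv ℝ ψ 0 v) = v := by
  have h1 : HasFDerivAt (ψ.symm ∘ ψ) ((fderiv ℝ ψ.symm (ψ 0)).comp (fderiv ℝ ψ 0)) 0 :=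
    (der2 ψ h0 hψ').comp 0 (der1 ψ h0 hψ)
  have h2 : HasFDerivAt (ψ.symm ∘ ψ) (ContinuousLinearMap.id ℝ (Fin 3 → ℝ)) 0 := by
    refine (hasFDerivAt_id (𝕜 := ℝ) (0 : Fin 3 → ℝ)).congr_of_eventuallyEq ?_
    filter_upwards [ψ.open_source.mem_nhds h0] with x hx
    simp [ψ.left_inv hx]
  have h3 := h1.unique h2
  have h4 := congrArg (fun A : (Fin 3 → ℝ) →L[ℝ] (Fin 3 → ℝ) => A v) h3
  simpa using h4

include h0 hψ hk in
/-- Limits of secants of `M` at `0` are mapped into `ℝ^k × {0}`. -/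
lemma tangent_mem {t : ℕ → ℝ} (ht0 : ∀ n, 0 < t n) (ht : Tendsto t atTop (𝓝 0))
    {v : ℕ → Fin 3 → ℝ} {w : Fin 3 → ℝ} (hv : Tendsto v atTop (𝓝 w)) (hM : ∀ n, t n • v n ∈ M) :
    fderiv ℝ ψ 0 w ∈ L k := by
  have h1 : Tendsto (fun n => (t n)⁻¹ • (ψ (0 + t n • v n) - ψ 0)) atTop
      (𝓝 (fderiv ℝ ψ 0 w)) := by
    refine (der1 ψ h0 hψ).hasFDerivWithinAt.lim (s := univ) ?_ (Filter.Eventually.of_forall
      fun _ => mem_univ _) ?_
    · simpa using ht.smul hv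
    · refine hv.congr fun n => ?_
      rw [smul_smul, inv_mul_cancel₀ (ht0 n).ne', one_smul]
  refine (L_closed k).mem_of_tendsto h1 ?_
  have h2 : ∀ᶠ n in atTop, t n • v n ∈ ψ.source := by
    have h3 : Tendsto (fun n => t n • v n) atTop (𝓝 0) := by simpa using ht.smul hv
    exact h3.eventually (ψ.open_source.mem_nhds h0)
  have h00 : ψ 0 ∈ L k := by
    have : ψ 0 ∈ ψ '' (ψ.source ∩ M) := ⟨0, ⟨h0, zero_mem_M⟩, rfl⟩
    rw [hk] at this
    exact this.2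
  filter_upwards [h2] with n hn
  have : ψ (t n • v n) ∈ ψ '' (ψ.source ∩ M) := ⟨_, ⟨hn, hM n⟩, rfl⟩
  rw [hk] at this
  rw [zero_add]
  exact (L k).smul_mem _ ((L k).sub_mem this.2 h00)

include h0 hψ hψ' hk in
/-- Vectors mapped into `ℝ^k × {0}` satisfy the cubic equation. -/
lemma cubic_of_mem {w : Fin 3 → ℝ} (hw : fderiv ℝ ψ 0 w ∈ L k) : Θ 0 w = 0 := by
  set t : ℕ → ℝ := fun n => 1 / ((n : ℝ) + 1) with ht
  have ht0 : ∀ n, 0 < t n := fun n => by simp only [ht]; positivity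
  have htt : Tendsto t atTop (𝓝 0) := tendsto_one_div_add_atTop_nhds_zero_nat
  set y : ℕ → Fin 3 → ℝ := fun n => ψ 0 + t n • fderiv ℝ ψ 0 w with hy
  have hyt : Tendsto y atTop (𝓝 (ψ 0)) := by
    have := (htt.smul_const (fderiv ℝ ψ 0 w)).const_add (ψ 0)
    simpa using this
  have h00 : ψ 0 ∈ L k := by
    have : ψ 0 ∈ ψ '' (ψ.source ∩ M) := ⟨0, ⟨h0, zero_mem_M⟩, rfl⟩
    rw [hk] at this
    exact this.2
  have h1 : ∀ᶠ n in atTop, y n ∈ ψ.target :=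
    hyt.eventually (ψ.open_target.mem_nhds (ψ.map_source h0))
  have h2 : ∀ᶠ n in atTop, ψ.symm (y n) ∈ M := by
    filter_upwards [h1] with n hn
    have h3a : y n ∈ L k := (L k).add_mem h00 ((L k).smul_mem _ hw)
    have h3 : y n ∈ ψ.target ∩ {y | ∀ i : Fin 3, k ≤ i → y i = 0} := ⟨hn, h3a⟩
    rw [← hk] at h3
    obtain ⟨x, ⟨hx1, hx2⟩, hx3⟩ := h3
    rw [← hx3, ψ.left_inv hx1]; exact hx2
  set q : ℕ → Fin 3 → ℝ := fun n => (t n)⁻¹ • ψ.symm (y n) with hq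
  have h3 : Tendsto q atTop (𝓝 w) := by
    have h4 : Tendsto (fun n => (t n)⁻¹ • (ψ.symm (ψ 0 + t n • fderiv ℝ ψ 0 w) - ψ.symm (ψ 0)))
        atTop (𝓝 (fderiv ℝ ψ.symm (ψ 0) (fderiv ℝ ψ 0 w))) := by
      refine (der2 ψ h0 hψ').hasFDerivWithinAt.lim (s := univ) ?_ (Filter.Eventually.of_forall
        fun _ => mem_univ _) ?_
      · simpa using htt.smul_const (fderiv ℝ ψ 0 w)
      · refine tendsto_const_nhds.congr fun n => ?_
        rw [smul_smul, inv_mul_cancel₀ (ht0 n).ne', one_smul]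
    rw [der_comp ψ h0 hψ hψ', ψ.left_inv h0] at h4
    simpa using h4
  have h5 : ∀ᶠ n in atTop, Θ (t n) (q n) = 0 := by
    filter_upwards [h2] with n hn
    rw [← smul_mem_M_iff (ht0 n).ne', hq]
    simp only
    rw [smul_smul, mul_inv_cancel₀ (ht0 n).ne', one_smul]
    exact hn
  have h6 : Tendsto (fun n => Θ (t n) (q n)) atTop (𝓝 (Θ 0 w)) := Θ_tendsto htt h3
  have h7 : Tendsto (fun _ : ℕ => (0 : ℝ)) atTop (𝓝 (Θ 0 w)) := h6.congr' h5
  exact (tendsto_nhds_unique h7 tendsto_const_nhds)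

end

/-- Secants of `M` in the direction of a coordinate vector. -/
lemma exists_secant (e : ℝ → Fin 3 → ℝ) (he : Continuous e)
    (h0 : ∀ t : ℝ, Θ t (e 0) ≤ 0) (h1 : ∀ t : ℝ, 0 ≤ Θ t (e 1)) :
    ∃ (t : ℕ → ℝ) (s : ℕ → ℝ) (c : ℝ), (∀ n, 0 < t n) ∧ Tendsto t atTop (𝓝 0) ∧
      Tendsto s atTop (𝓝 c) ∧ (∀ n, t n • e (s n) ∈ M) ∧ Θ 0 (e c) = 0 := by
  have hex : ∀ n : ℕ, ∃ s ∈ Icc (0 : ℝ) 1, Θ (1 / ((n : ℝ) + 1)) (e s) = 0 := by
    intro n
    have hc : ContinuousOn (fun s => Θ (1 / ((n : ℝ) + 1)) (e s)) (Icc 0 1) :=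
      (Θ_cont.comp (continuous_const.prodMk he)).continuousOn
    have := intermediate_value_Icc zero_le_one hc
    obtain ⟨s, hs, hs2⟩ := this ⟨h0 _, h1 _⟩
    exact ⟨s, hs, hs2⟩
  choose s hs hs2 using hex
  obtain ⟨c, -, φ, hφ, hc⟩ := isCompact_Icc.tendsto_subseq hs
  have htt : Tendsto (fun n => 1 / ((φ n : ℝ) + 1)) atTop (𝓝 0) :=
    tendsto_one_div_add_atTop_nhds_zero_nat.comp hφ.tendsto_atTop
  refine ⟨fun n => 1 / ((φ n : ℝ) + 1), fun n => s (φ n), c, fun n => by positivity, htt, hc,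
    fun n => ?_, ?_⟩
  · rw [smul_mem_M_iff (by positivity)]
    exact hs2 (φ n)
  · have h6 : Tendsto (fun n => Θ (1 / ((φ n : ℝ) + 1)) (e (s (φ n)))) atTop (𝓝 (Θ 0 (e c))) :=
      Θ_tendsto htt ((he.tendsto c).comp hc)
    have h7 : Tendsto (fun _ : ℕ => (0 : ℝ)) atTop (𝓝 (Θ 0 (e c))) :=
      h6.congr fun n => hs2 (φ n)
    exact (tendsto_nhds_unique h7 tendsto_const_nhds)

/-- The fixed point set is not a `C¹` manifold near `0`. -/
theorem not_C1 : ¬ IsC1At M 0 := by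
  rintro ⟨ψ, h0, hψ, hψ', k, hk⟩
  obtain ⟨t, s, c, ht0, ht, hs, hM, hc⟩ := exists_secant (fun s => ![1, 0, s])
    (by fun_prop)
    (fun t => by
      have : 0 ≤ (1 + t ^ 2)⁻¹ := by positivity
      simp only [Θ, Matrix.cons_val]
      norm_num
      ring_nf
      linarith)
    (fun t => by
      simp only [Θ, Matrix.cons_val]
      norm_num
      positivity)
  obtain ⟨t', s', c', ht0', ht', hs', hM', hc'⟩ := exists_secant (fun s => ![0, 1, s])
    (by fun_prop)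
    (fun t => by
      have : 0 ≤ (1 + t ^ 2)⁻¹ := by positivity
      simp only [Θ, Matrix.cons_val]
      norm_num
      ring_nf
      linarith)
    (fun t => by
      simp only [Θ, Matrix.cons_val]
      norm_num
      positivity)
  have hv : Tendsto (fun n => (![1, 0, s n] : Fin 3 → ℝ)) atTop (𝓝 ![1, 0, c]) := by
    have : Continuous fun s : ℝ => (![1, 0, s] : Fin 3 → ℝ) := by fun_prop
    exact (this.tendsto c).comp hs
  have hv' : Tendsto (fun n => (![0, 1, s' n] : Fin 3 → ℝ)) atTop (𝓝 ![0, 1, c']) := by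
    have : Continuous fun s : ℝ => (![0, 1, s] : Fin 3 → ℝ) := by fun_prop
    exact (this.tendsto c').comp hs'
  have m1 := tangent_mem ψ h0 hψ k hk ht0 ht hv hM
  have m2 := tangent_mem ψ h0 hψ k hk ht0' ht' hv' hM'
  have m3 := (L k).add_mem m1 m2
  rw [← map_add] at m3
  have m4 := cubic_of_mem ψ h0 hψ hψ' k hk m3
  simp only [Θ, Matrix.cons_val, Pi.add_apply] at hc hc' m4
  norm_num at hc hc' m4
  -- `c` and `c'` are both roots of `3 X³ - 3 X² + 3 X - 1`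
  have e1 : 3 * c ^ 3 - 3 * c ^ 2 + 3 * c - 1 = 0 := by nlinarith
  have e2 : 3 * c' ^ 3 - 3 * c' ^ 2 + 3 * c' - 1 = 0 := by nlinarith
  have e3 : (c - c') * (3 * (c ^ 2 + c * c' + c' ^ 2) - 3 * (c + c') + 3) = 0 := by
    linear_combination e1 - e2
  have e4 : 0 < 3 * (c ^ 2 + c * c' + c' ^ 2) - 3 * (c + c') + 3 := by
    nlinarith [sq_nonneg (c + c' - 2 / 3), sq_nonneg (c - c')]
  have e5 : c = c' := by
    rcases mul_eq_zero.1 e3 with h | h
    · linarith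
    · exact absurd h e4.ne'
  subst e5
  have e6 : 24 * c ^ 3 - 24 * c ^ 2 + 12 * c - 2 = 0 := by nlinarith
  have e7 : c = 1 / 2 := by linarith
  rw [e7] at e1
  norm_num at e1

end Q94.FS
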