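import Mathlib

/-!
# The fundamental solution of the Laplacian tested against a bump function
-/

open scoped BigOperators Topology ENNReal RealInnerProductSpace
open Set Filter MeasureTheory

namespace Q94.HP

/-- `ℝ^N`. -/
abbrev E (N : ℕ) : Type := EuclideanSpace ℝ (Fin N)

variable {N : ℕ}

/-- Unnormalised fundamental solution: `-log |v|` for `N = 2` and `|v|^{2-N}` otherwise. -/
noncomputable def Γ0 (N : ℕ) (v : E N) : ℝ :=
  if N = 2 then -Real.log ‖v‖ else ‖v‖ ^ ((2 : ℝ) - N)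

/-- `κ = 1` for `N = 2` and `κ = N - 2` otherwise. -/
noncomputable def κ (N : ℕ) : ℝ := if N = 2 then 1 else (N : ℝ) - 2

/-- Profile of the regularised kernel as a function of `t = |v|² + ε²`. -/
noncomputable def Gp (N : ℕ) (t : ℝ) : ℝ :=
  if N = 2 then -(1 / 2) * Real.log t else t ^ (((2 : ℝ) - N) / 2)

/-- Regularised kernel. -/
noncomputable def Γe (N : ℕ) (ε : ℝ) (v : E N) : ℝ := Gp N (‖v‖ ^ 2 + ε ^ 2)

lemma κ_pos (hN : 2 ≤ N) : 0 < κ N := by
  unfold κ
  split_ifs with h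
  · norm_num
  · have : (3 : ℝ) ≤ N := by exact_mod_cast (by omega : 3 ≤ N)
    linarith

lemma hasDerivAt_Gp {t : ℝ} (ht : 0 < t) :
    HasDerivAt (Gp N) (-(κ N / 2) * t ^ (-(N : ℝ) / 2)) t := by
  unfold Gp κ
  split_ifs with h
  · subst h
    have h1 := (Real.hasDerivAt_log ht.ne').const_mul (-(1 / 2))
    refine h1.congr_deriv ?_
    have : (-((2 : ℕ) : ℝ) / 2) = -1 := by norm_num
    rw [this, Real.rpow_neg_one]
  · have h1 := Real.hasDerivAt_rpow_const (x := t) (p := ((2 : ℝ) - N) / 2) (Or.inl ht.ne')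
    refine h1.congr_deriv ?_
    have : ((2 : ℝ) - N) / 2 - 1 = -(N : ℝ) / 2 := by ring
    rw [this]
    ring

lemma hasFDerivAt_Γe {ε : ℝ} (hε : 0 < ε) (v : E N) :
    HasFDerivAt (Γe N ε) ((-(κ N) * (‖v‖ ^ 2 + ε ^ 2) ^ (-(N : ℝ) / 2)) • innerSL ℝ v) v := by
  have h1 : HasFDerivAt (fun x : E N => ‖x‖ ^ 2 + ε ^ 2) (2 • (innerSL ℝ) v) v :=
    ((hasStrictFDerivAt_norm_sq v).hasFDerivAt).add_const _
  have ht : 0 < ‖v‖ ^ 2 + ε ^ 2 := by positivity
  have h2 := (hasDerivAt_Gp (N := N) ht).comp_hasFDerivAt v h1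
  refine h2.congr_fderiv ?_
  module

/-- The components of the vector field `v (|v|² + ε²)^{-N/2}`. -/
noncomputable def Fe (N : ℕ) (ε : ℝ) (w v : E N) : ℝ := ⟪v, w⟫ * (‖v‖ ^ 2 + ε ^ 2) ^ (-(N : ℝ) / 2)

lemma fderiv_Γe {ε : ℝ} (hε : 0 < ε) (v w : E N) : fderiv ℝ (Γe N ε) v w = -(κ N) * Fe N ε w v := by
  rw [(hasFDerivAt_Γe hε v).fderiv]
  unfold Fe
  simp only [smul_apply, innerSL_apply_apply, smul_eq_mul]
  ring

lemma hasFDerivAt_Fe {ε : ℝ} (hε : 0 < ε) (w v : E N) :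
    HasFDerivAt (Fe N ε w) ((‖v‖ ^ 2 + ε ^ 2) ^ (-(N : ℝ) / 2) • innerSL ℝ w
      + (⟪v, w⟫ * (-(N : ℝ) * (‖v‖ ^ 2 + ε ^ 2) ^ (-(N : ℝ) / 2 - 1))) • innerSL ℝ v) v := by
  have h1 : HasFDerivAt (fun x : E N => ‖x‖ ^ 2 + ε ^ 2) (2 • (innerSL ℝ) v) v :=
    ((hasStrictFDerivAt_norm_sq v).hasFDerivAt).add_const _
  have ht : 0 < ‖v‖ ^ 2 + ε ^ 2 := by positivity
  have h2 := (Real.hasDerivAt_rpow_const (p := -(N : ℝ) / 2) (Or.inl ht.ne')).comp_hasFDerivAt v h1
  have h3 : HasFDerivAt (fun x : E N => ⟪x, w⟫) (innerSL ℝ w) v := by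
    have h4 : (fun x : E N => ⟪x, w⟫) = fun x => innerSL ℝ w x := by
      funext x; rw [innerSL_apply_apply, real_inner_comm]
    rw [h4]
    exact (innerSL ℝ w).hasFDerivAt
  have h5 := h3.mul h2
  unfold Fe
  refine h5.congr_fderiv ?_
  simp only [Function.comp_apply]
  module

lemma sum_fderiv_Fe {ε : ℝ} (hε : 0 < ε) (v : E N) :
    ∑ i, fderiv ℝ (Fe N ε (EuclideanSpace.single i 1)) v (EuclideanSpace.single i 1)
      = N * ε ^ 2 * (‖v‖ ^ 2 + ε ^ 2) ^ (-(N : ℝ) / 2 - 1) := by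
  have ht : 0 < ‖v‖ ^ 2 + ε ^ 2 := by positivity
  have h1 : ∀ i, fderiv ℝ (Fe N ε (EuclideanSpace.single i 1)) v (EuclideanSpace.single i 1)
      = (‖v‖ ^ 2 + ε ^ 2) ^ (-(N : ℝ) / 2)
        + (-(N : ℝ) * (‖v‖ ^ 2 + ε ^ 2) ^ (-(N : ℝ) / 2 - 1)) * (v i) ^ 2 := by
    intro i
    rw [(hasFDerivAt_Fe hε _ v).fderiv]
    simp only [add_apply, smul_apply, innerSL_apply_apply, smul_eq_mul]
    have e1 : ⟪(EuclideanSpace.single i 1 : E N), EuclideanSpace.single i 1⟫ = 1 := by
      rw [real_inner_self_eq_norm_sq]; simp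
    have e2 : ⟪v, (EuclideanSpace.single i 1 : E N)⟫ = v i := by
      rw [EuclideanSpace.inner_single_right]; simp
    rw [e1, e2]
    ring
  simp_rw [h1]
  rw [Finset.sum_add_distrib, ← Finset.mul_sum]
  have h2 : ∑ i, (v i) ^ 2 = ‖v‖ ^ 2 := by
    rw [EuclideanSpace.norm_sq_eq]
    exact Finset.sum_congr rfl fun i _ => by rw [Real.norm_eq_abs, sq_abs]
  rw [h2]
  simp only [Finset.sum_const, Finset.card_univ, Fintype.card_fin, nsmul_eq_mul]
  rw [Real.rpow_sub_one ht.ne']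
  field_simp
  ring

/-! ### The bump function -/

/-- The bump function: `1` on `B(0,1)`, supported in `B(0,2)`. -/
noncomputable def bump (N : ℕ) : ContDiffBump (0 : E N) := ⟨1, 2, one_pos, one_lt_two⟩

/-- The bump as a function. -/
noncomputable def φ (N : ℕ) : E N → ℝ := bump N

/-- Directional derivatives. -/
noncomputable def dφ (N : ℕ) (i : Fin N) (z : E N) : ℝ := fderiv ℝ (φ N) z (EuclideanSpace.single i 1)

/-- The Laplacian of the bump function. -/
noncomputable def ψ (N : ℕ) (z : E N) : ℝ :=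
  ∑ i, fderiv ℝ (dφ N i) z (EuclideanSpace.single i 1)

lemma contDiff_φ : ContDiff ℝ ((⊤ : ℕ∞) : WithTop ℕ∞) (φ N) := (bump N).contDiff

lemma contDiff_dφ (i : Fin N) : ContDiff ℝ ((⊤ : ℕ∞) : WithTop ℕ∞) (dφ N i) := by
  unfold dφ
  have h : ContDiff ℝ ((⊤ : ℕ∞) : WithTop ℕ∞) (fderiv ℝ (φ N)) :=
    contDiff_φ.fderiv_right (m := ((⊤ : ℕ∞) : WithTop ℕ∞)) (by simp)
  exact h.clm_apply contDiff_const

lemma hasCompactSupport_φ : HasCompactSupport (φ N) := (bump N).hasCompactSupport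

lemma hasCompactSupport_dφ (i : Fin N) : HasCompactSupport (dφ N i) :=
  hasCompactSupport_φ.fderiv_apply ℝ _

lemma continuous_ddφ (i : Fin N) :
    Continuous fun z => fderiv ℝ (dφ N i) z (EuclideanSpace.single i 1) := by
  have h : ContDiff ℝ ((⊤ : ℕ∞) : WithTop ℕ∞) (fderiv ℝ (dφ N i)) :=
    (contDiff_dφ i).fderiv_right (m := ((⊤ : ℕ∞) : WithTop ℕ∞)) (by simp)
  exact (h.clm_apply contDiff_const).continuous

lemma hasCompactSupport_ddφ (i : Fin N) :
    HasCompactSupport fun z => fderiv ℝ (dφ N i) z (EuclideanSpace.single i 1) :=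
  (hasCompactSupport_dφ i).fderiv_apply ℝ _

lemma continuous_ψ : Continuous (ψ N) := by
  unfold ψ
  exact continuous_finsetSum _ fun i _ => continuous_ddφ i

lemma φ_nonneg (z : E N) : 0 ≤ φ N z := (bump N).nonneg

lemma φ_le_one (z : E N) : φ N z ≤ 1 := (bump N).le_one

lemma φ_one {z : E N} (hz : ‖z‖ ≤ 1) : φ N z = 1 :=
  (bump N).one_of_mem_closedBall (by simpa [bump] using hz)

lemma φ_zero {z : E N} (hz : 2 ≤ ‖z‖) : φ N z = 0 :=
  (bump N).zero_of_le_dist (by simpa [bump] using hz)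

lemma dφ_zero {i : Fin N} {z : E N} (hz : 2 < ‖z‖) : fderiv ℝ (dφ N i) z = 0 := by
  have h1 : tsupport (φ N) = Metric.closedBall 0 2 := (bump N).tsupport_eq
  have h2 : Function.support (dφ N i) ⊆ Metric.closedBall 0 2 := by
    intro w hw
    rw [← h1]
    refine support_fderiv_subset ℝ ?_
    intro h
    apply hw
    unfold dφ
    rw [h]; rfl
  have h3 : tsupport (dφ N i) ⊆ Metric.closedBall 0 2 :=
    closure_minimal h2 Metric.isClosed_closedBall
  by_contra hcon
  have h4 : z ∈ tsupport (dφ N i) := support_fderiv_subset ℝ hcon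
  have h5 := h3 h4
  rw [mem_closedBall_zero_iff] at h5
  linarith

lemma ψ_zero {z : E N} (hz : 2 < ‖z‖) : ψ N z = 0 := by
  unfold ψ
  exact Finset.sum_eq_zero fun i _ => by rw [dφ_zero hz]; rfl

lemma exists_bound_ψ : ∃ C : ℝ, 0 ≤ C ∧ ∀ z, |ψ N z| ≤ C := by
  obtain ⟨C, hC⟩ := (isCompact_closedBall (0 : E N) 2).exists_bound_of_continuousOn
    continuous_ψ.continuousOn
  refine ⟨max C 0, le_max_right _ _, fun z => ?_⟩
  by_cases hz : ‖z‖ ≤ 2
  · exact (hC z (by simpa using hz)).trans (le_max_left _ _)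
  · rw [ψ_zero (not_le.1 hz), abs_zero]; exact le_max_right _ _

/-- Integration by parts against a smooth function. -/
lemma integral_mul_fderiv {f g : E N → ℝ} (w : E N) (hf : ContDiff ℝ 1 f) (hg : ContDiff ℝ 1 g)
    (hgc : HasCompactSupport g) :
    ∫ x, f x * fderiv ℝ g x w = -∫ x, fderiv ℝ f x w * g x := by
  have hf' : Continuous fun x => fderiv ℝ f x w :=
    (hf.continuous_fderiv (by norm_num)).clm_apply continuous_const
  have hg' : Continuous fun x => fderiv ℝ g x w :=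
    (hg.continuous_fderiv (by norm_num)).clm_apply continuous_const
  refine integral_mul_fderiv_eq_neg_fderiv_mul_of_integrable ?_ ?_ ?_
    (fun x _ => (hf.differentiable (by norm_num)) x) (fun x _ => (hg.differentiable (by norm_num)) x)
  · exact (hf'.mul hg.continuous).integrable_of_hasCompactSupport hgc.mul_left
  · exact (hf.continuous.mul hg').integrable_of_hasCompactSupport (hgc.fderiv_apply ℝ w).mul_left
  · exact (hf.continuous.mul hg.continuous).integrable_of_hasCompactSupport hgc.mul_left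

lemma contDiff_Γe {ε : ℝ} (hε : 0 < ε) (y : E N) : ContDiff ℝ 1 fun z => Γe N ε (z - y) := by
  have h0 : ∀ z : E N, ‖z - y‖ ^ 2 + ε ^ 2 ≠ 0 := fun z => by positivity
  have h1 : ContDiff ℝ 1 fun z : E N => ‖z - y‖ ^ 2 + ε ^ 2 :=
    ((contDiff_id.sub contDiff_const).norm_sq ℝ).add contDiff_const
  unfold Γe Gp
  by_cases h : N = 2
  · simp only [if_pos h]
    exact contDiff_const.mul (h1.log h0)
  · simp only [if_neg h]
    exact h1.rpow_const_of_ne h0

lemma contDiff_Fe {ε : ℝ} (hε : 0 < ε) (w y : E N) : ContDiff ℝ 1 fun z => Fe N ε w (z - y) := by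
  have h0 : ∀ z : E N, ‖z - y‖ ^ 2 + ε ^ 2 ≠ 0 := fun z => by positivity
  have h1 : ContDiff ℝ 1 fun z : E N => ‖z - y‖ ^ 2 + ε ^ 2 :=
    ((contDiff_id.sub contDiff_const).norm_sq ℝ).add contDiff_const
  unfold Fe
  exact ((contDiff_id.sub contDiff_const).inner ℝ contDiff_const).mul (h1.rpow_const_of_ne h0)

lemma fderiv_shift (f : E N → ℝ) (y z : E N) :
    fderiv ℝ (fun z => f (z - y)) z = fderiv ℝ f (z - y) := by
  rw [fderiv_comp_sub]

/-- The regularised identity. -/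
lemma identity_eps {ε : ℝ} (hε : 0 < ε) (y : E N) :
    ∫ z, Γe N ε (z - y) * ψ N z
      = -(κ N) * ∫ z, N * ε ^ 2 * (‖z - y‖ ^ 2 + ε ^ 2) ^ (-(N : ℝ) / 2 - 1) * φ N z := by
  have h1 : ∀ i : Fin N, ∫ z, Γe N ε (z - y) * fderiv ℝ (dφ N i) z (EuclideanSpace.single i 1)
      = -(κ N) * ∫ z, fderiv ℝ (Fe N ε (EuclideanSpace.single i 1)) (z - y)
          (EuclideanSpace.single i 1) * φ N z := by
    intro i
    rw [integral_mul_fderiv (EuclideanSpace.single i 1) (contDiff_Γe hε y)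
      ((contDiff_dφ i).of_le (by simp)) (hasCompactSupport_dφ i)]
    have h2 : ∀ z : E N, fderiv ℝ (fun z => Γe N ε (z - y)) z (EuclideanSpace.single i 1) * dφ N i z
        = -(κ N) * (Fe N ε (EuclideanSpace.single i 1) (z - y)
          * fderiv ℝ (φ N) z (EuclideanSpace.single i 1)) := by
      intro z
      rw [fderiv_shift, fderiv_Γe hε]
      unfold dφ
      ring
    simp_rw [h2]
    rw [integral_const_mul, integral_mul_fderiv (EuclideanSpace.single i 1)
      (contDiff_Fe hε (EuclideanSpace.single i 1) y) (contDiff_φ.of_le (by simp))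
      hasCompactSupport_φ]
    simp_rw [fderiv_shift]
    ring
  have hint1 : ∀ i : Fin N, Integrable fun z =>
      Γe N ε (z - y) * fderiv ℝ (dφ N i) z (EuclideanSpace.single i 1) := fun i =>
    ((contDiff_Γe hε y).continuous.mul (continuous_ddφ i)).integrable_of_hasCompactSupport
      (hasCompactSupport_ddφ i).mul_left
  have hint2 : ∀ i : Fin N, Integrable fun z =>
      fderiv ℝ (Fe N ε (EuclideanSpace.single i 1)) (z - y) (EuclideanSpace.single i 1)
        * φ N z := fun i => by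
    have hc : Continuous fun z =>
        fderiv ℝ (Fe N ε (EuclideanSpace.single i 1)) (z - y) (EuclideanSpace.single i 1) := by
      have := ((contDiff_Fe hε (EuclideanSpace.single i 1) y).continuous_fderiv
        (by norm_num)).clm_apply (continuous_const (y := (EuclideanSpace.single i 1 : E N)))
      simp_rw [fderiv_shift] at this
      exact this
    exact (hc.mul contDiff_φ.continuous).integrable_of_hasCompactSupport
      hasCompactSupport_φ.mul_left
  unfold ψ
  simp_rw [Finset.mul_sum]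
  rw [integral_finsetSum _ fun i _ => hint1 i]
  simp_rw [h1]
  rw [← Finset.mul_sum, ← integral_finsetSum _ fun i _ => hint2 i]
  congr 1
  refine integral_congr_ae (Eventually.of_forall fun z => ?_)
  simp only
  rw [← Finset.sum_mul, sum_fderiv_Fe hε]

lemma integral_ψ : ∫ z, ψ N z = 0 := by
  unfold ψ
  rw [integral_finsetSum]
  · refine Finset.sum_eq_zero fun i _ => ?_
    have h := integral_mul_fderiv (f := fun _ : E N => (1 : ℝ)) (EuclideanSpace.single i 1)
      contDiff_const ((contDiff_dφ i).of_le (by simp)) (hasCompactSupport_dφ i)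
    simpa using h
  · intro i _
    exact (continuous_ddφ i).integrable_of_hasCompactSupport (hasCompactSupport_ddφ i)

end Q94.HP
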