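import Pool.Agent.Q94.HPA

/-!
# The fundamental solution: limit and scaling
-/

open scoped BigOperators Topology ENNReal RealInnerProductSpace
open Set Filter MeasureTheory

namespace Q94.HP

variable {N : ℕ}

/-- Radial profile of `Γ0`. -/
noncomputable def γ (N : ℕ) (t : ℝ) : ℝ := if N = 2 then -Real.log t else t ^ ((2 : ℝ) - N)

lemma Γ0_eq (v : E N) : Γ0 N v = γ N ‖v‖ := rfl

lemma measurable_γ : Measurable (γ N) := by
  unfold γ
  split_ifs
  · exact Real.measurable_log.neg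
  · exact measurable_id.pow_const _

lemma measurable_Γ0 : Measurable (Γ0 N) := measurable_γ.comp measurable_norm

lemma nontrivial_E (hN : 2 ≤ N) : Nontrivial (E N) := by
  apply Module.nontrivial_of_finrank_pos (R := ℝ)
  rw [finrank_euclideanSpace_fin]; omega

lemma integrableOn_ball (hN : 2 ≤ N) (R : ℝ) : IntegrableOn (Γ0 N) (Metric.ball 0 R) := by
  have := nontrivial_E hN
  have h1 : Integrable (fun x : E N => (Iio R).indicator (γ N) ‖x‖) := by
    rw [integrable_fun_norm_addHaar (μ := (volume : Measure (E N)))]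
    rw [finrank_euclideanSpace_fin]
    have h2 : (fun y : ℝ => y ^ (N - 1) • (Iio R).indicator (γ N) y)
        = (Iio R).indicator fun y => y ^ (N - 1) * γ N y := by
      funext y
      by_cases hy : y ∈ Iio R
      · rw [indicator_of_mem hy, indicator_of_mem hy, smul_eq_mul]
      · rw [indicator_of_notMem hy, indicator_of_notMem hy, smul_zero]
    rw [h2]
    unfold IntegrableOn
    rw [integrable_indicator_iff measurableSet_Iio]
    unfold IntegrableOn
    rw [Measure.restrict_restrict measurableSet_Iio]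
    have h3 : Iio R ∩ Ioi (0 : ℝ) = Ioo 0 R := by ext y; simp [and_comm]
    rw [h3]
    change IntegrableOn (fun y => y ^ (N - 1) * γ N y) (Ioo 0 R)
    by_cases h : N = 2
    · subst h
      have h4 : IntegrableOn (fun y : ℝ => -(y * Real.log y)) (Ioo 0 R) :=
        (Real.continuous_mul_log.neg.integrableOn_Icc (a := 0) (b := R)).mono_set Ioo_subset_Icc_self
      refine h4.congr_fun (fun y _ => ?_) measurableSet_Ioo
      simp only [γ, if_true]
      norm_num
    · have h4 : IntegrableOn (fun y : ℝ => y) (Ioo 0 R) :=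
        (continuous_id.integrableOn_Icc (a := 0) (b := R)).mono_set Ioo_subset_Icc_self
      refine h4.congr_fun (fun y hy => ?_) measurableSet_Ioo
      simp only [γ, if_neg h]
      have hy0 : (0 : ℝ) < y := hy.1
      rw [← Real.rpow_natCast, ← Real.rpow_add hy0, Nat.cast_sub (by omega)]
      have : ((N : ℝ) - (1 : ℕ) + (2 - N)) = 1 := by push_cast; ring
      rw [this, Real.rpow_one]
  have h2 : (fun x : E N => (Iio R).indicator (γ N) ‖x‖)
      = (Metric.ball (0 : E N) R).indicator (Γ0 N) := by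
    funext x
    by_cases hx : ‖x‖ < R
    · rw [indicator_of_mem (show ‖x‖ ∈ Iio R from hx),
        indicator_of_mem (show x ∈ Metric.ball (0 : E N) R by simpa using hx)]
      rfl
    · rw [indicator_of_notMem (show ‖x‖ ∉ Iio R from hx),
        indicator_of_notMem (show x ∉ Metric.ball (0 : E N) R by simpa using hx)]
  rw [h2, integrable_indicator_iff Metric.isOpen_ball.measurableSet] at h1
  exact h1

/-- `J R = ∫_{|v| < R} |Γ0|`. -/
noncomputable def J (N : ℕ) (R : ℝ) : ℝ := ∫ v in Metric.ball (0 : E N) R, |Γ0 N v|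

lemma J_nonneg (R : ℝ) : 0 ≤ J N R := by
  unfold J
  exact integral_nonneg fun v => abs_nonneg _

/-- Integrability of `Γ0(· - y) η`. -/
lemma integrable_shift (hN : 2 ≤ N) {η : E N → ℝ} (hη : Measurable η) {C : ℝ}
    (hC : ∀ z, |η z| ≤ C) {x0 y : E N} {ρ R : ℝ} (h0 : ∀ z, ρ < ‖z - x0‖ → η z = 0)
    (hR : ρ + ‖x0 - y‖ < R) :
    Integrable (fun z => Γ0 N (z - y) * η z) ∧ ∫ z, |Γ0 N (z - y) * η z| ≤ C * J N R := by
  have hC0 : 0 ≤ C := (abs_nonneg _).trans (hC 0)
  have h1 : Integrable fun z : E N =>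
      C * (Metric.ball (0 : E N) R).indicator (fun v => |Γ0 N v|) (z - y) := by
    refine Integrable.const_mul ?_ C
    have h2 : Integrable ((Metric.ball (0 : E N) R).indicator (fun v => |Γ0 N v|)) := by
      rw [integrable_indicator_iff Metric.isOpen_ball.measurableSet]
      exact (integrableOn_ball hN R).abs
    exact h2.comp_sub_right y
  have hpt : ∀ z, |Γ0 N (z - y) * η z|
      ≤ C * (Metric.ball (0 : E N) R).indicator (fun v => |Γ0 N v|) (z - y) := by
    intro z
    by_cases hz : ρ < ‖z - x0‖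
    · rw [h0 z hz, mul_zero, abs_zero]
      refine mul_nonneg hC0 (indicator_nonneg (fun _ _ => abs_nonneg _) _)
    · have hz2 : z - y ∈ Metric.ball (0 : E N) R := by
        rw [mem_ball_zero_iff]
        have : z - y = (z - x0) + (x0 - y) := by abel
        rw [this]
        refine (norm_add_le _ _).trans_lt ?_
        linarith [not_lt.1 hz]
      rw [indicator_of_mem hz2, abs_mul, mul_comm]
      exact mul_le_mul_of_nonneg_right (hC z) (abs_nonneg _)
  have hm : AEStronglyMeasurable (fun z => Γ0 N (z - y) * η z) volume :=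
    ((measurable_Γ0.comp (measurable_id.sub_const y)).mul hη).aestronglyMeasurable
  have hint : Integrable (fun z => Γ0 N (z - y) * η z) :=
    h1.mono' hm (Eventually.of_forall fun z => by rw [Real.norm_eq_abs]; exact hpt z)
  refine ⟨hint, ?_⟩
  refine (integral_mono hint.abs h1 hpt).trans (le_of_eq ?_)
  rw [integral_const_mul, integral_sub_right_eq_self
    (fun v => (Metric.ball (0 : E N) R).indicator (fun v => |Γ0 N v|) v) y,
    integral_indicator Metric.isOpen_ball.measurableSet]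
  rfl

/-- The regularised kernels are dominated. -/
lemma abs_Γe_le (hN : 2 ≤ N) {ε : ℝ} (hε : 0 < ε) (hε1 : ε ≤ 1) {v : E N} (hv : v ≠ 0) :
    |Γe N ε v| ≤ |Γ0 N v| + ‖v‖ ^ 2 := by
  have hv0 : 0 < ‖v‖ := norm_pos_iff.2 hv
  unfold Γe Gp Γ0
  split_ifs with h
  · have hlog : Real.log (‖v‖ ^ 2) = 2 * Real.log ‖v‖ := by
      rw [Real.log_pow]; norm_num
    rcases le_or_gt (‖v‖ ^ 2 + ε ^ 2) 1 with h1 | h1
    · have h2 : Real.log (‖v‖ ^ 2 + ε ^ 2) ≤ 0 := Real.log_nonpos (by positivity) h1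
      have h3 : Real.log (‖v‖ ^ 2) ≤ Real.log (‖v‖ ^ 2 + ε ^ 2) :=
        Real.log_le_log (by positivity) (by nlinarith)
      rw [abs_of_nonneg (by linarith)]
      have h4 := neg_le_abs (Real.log ‖v‖)
      rw [abs_neg]
      rw [hlog] at h3
      nlinarith [sq_nonneg ‖v‖]
    · have h2 : 0 ≤ Real.log (‖v‖ ^ 2 + ε ^ 2) := Real.log_nonneg h1.le
      have h3 : Real.log (‖v‖ ^ 2 + ε ^ 2) ≤ ‖v‖ ^ 2 := by
        have h4 := Real.log_le_sub_one_of_pos (show 0 < ‖v‖ ^ 2 + ε ^ 2 by positivity)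
        nlinarith
      rw [abs_of_nonpos (by linarith)]
      have := abs_nonneg (-Real.log ‖v‖)
      nlinarith [sq_nonneg ‖v‖]
  · have h3 : (3 : ℝ) ≤ N := by exact_mod_cast (by omega : 3 ≤ N)
    have h1 : (‖v‖ ^ 2 + ε ^ 2) ^ (((2 : ℝ) - N) / 2) ≤ ‖v‖ ^ ((2 : ℝ) - N) := by
      have h2 : ‖v‖ ^ ((2 : ℝ) - N) = (‖v‖ ^ 2) ^ (((2 : ℝ) - N) / 2) := by
        rw [← Real.rpow_natCast, ← Real.rpow_mul hv0.le]
        congr 1
        push_cast; ring
      rw [h2]
      exact Real.rpow_le_rpow_of_nonpos (by positivity) (by nlinarith) (by linarith)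
    rw [abs_of_nonneg (by positivity), abs_of_nonneg (by positivity)]
    nlinarith [sq_nonneg ‖v‖]

/-- Regularisation parameters. -/
noncomputable def en (n : ℕ) : ℝ := 1 / ((n : ℝ) + 1)

lemma en_pos (n : ℕ) : 0 < en n := by unfold en; positivity

lemma en_le_one (n : ℕ) : en n ≤ 1 := by
  unfold en
  rw [div_le_one (by positivity)]
  linarith [Nat.cast_nonneg (α := ℝ) n]

lemma tendsto_en : Tendsto en atTop (𝓝 0) := tendsto_one_div_add_atTop_nhds_zero_nat (𝕜 := ℝ)

lemma tendsto_Γe {v : E N} (hv : v ≠ 0) :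
    Tendsto (fun n => Γe N (en n) v) atTop (𝓝 (Γ0 N v)) := by
  have hv0 : 0 < ‖v‖ := norm_pos_iff.2 hv
  have h1 : Tendsto (fun n => ‖v‖ ^ 2 + en n ^ 2) atTop (𝓝 (‖v‖ ^ 2)) := by
    have := (tendsto_en.pow 2).const_add (‖v‖ ^ 2)
    simpa using this
  have h2 : Γ0 N v = Gp N (‖v‖ ^ 2) := by
    unfold Γ0 Gp
    split_ifs
    · rw [Real.log_pow]; push_cast; ring
    · rw [← Real.rpow_natCast, ← Real.rpow_mul hv0.le]
      congr 1
      push_cast; ring
  rw [h2]
  exact (hasDerivAt_Gp (N := N) (show 0 < ‖v‖ ^ 2 by positivity)).continuousAt.tendsto.comp h1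

/-- The constant. -/
noncomputable def c0 (N : ℕ) : ℝ := ∫ w : E N, N * (1 + ‖w‖ ^ 2) ^ (-((N : ℝ) + 2) / 2)

lemma integrable_c0 : Integrable fun w : E N => N * (1 + ‖w‖ ^ 2) ^ (-((N : ℝ) + 2) / 2) := by
  refine Integrable.const_mul ?_ _
  refine integrable_rpow_neg_one_add_norm_sq ?_
  rw [finrank_euclideanSpace_fin]
  linarith

lemma c0_pos (hN : 2 ≤ N) : 0 < c0 N := by
  unfold c0
  rw [integral_pos_iff_support_of_nonneg (fun w => by positivity) integrable_c0]
  have h1 : Function.support (fun w : E N => N * (1 + ‖w‖ ^ 2) ^ (-((N : ℝ) + 2) / 2)) = univ := by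
    ext w
    simp only [Function.mem_support, mem_univ, iff_true]
    have : (0 : ℝ) < N := by exact_mod_cast (by omega : 0 < N)
    positivity
  rw [h1]
  exact Measure.measure_univ_pos.2 (NeZero.ne _)

lemma rhs_eq {ε : ℝ} (hε : 0 < ε) (y : E N) :
    ∫ z, N * ε ^ 2 * (‖z - y‖ ^ 2 + ε ^ 2) ^ (-(N : ℝ) / 2 - 1) * φ N z
      = ∫ w : E N, N * (1 + ‖w‖ ^ 2) ^ (-((N : ℝ) + 2) / 2) * φ N (y + ε • w) := by
  have h1 : ∫ z, N * ε ^ 2 * (‖z - y‖ ^ 2 + ε ^ 2) ^ (-(N : ℝ) / 2 - 1) * φ N z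
      = ∫ v : E N, N * ε ^ 2 * (‖v‖ ^ 2 + ε ^ 2) ^ (-(N : ℝ) / 2 - 1) * φ N (y + v) := by
    rw [← integral_sub_right_eq_self (fun v : E N =>
      N * ε ^ 2 * (‖v‖ ^ 2 + ε ^ 2) ^ (-(N : ℝ) / 2 - 1) * φ N (y + v)) y]
    refine integral_congr_ae (Eventually.of_forall fun z => ?_)
    simp only
    congr 2
    abel
  rw [h1]
  have h2 := Measure.integral_comp_smul_of_nonneg (volume : Measure (E N)) (fun v : E N =>
    N * ε ^ 2 * (‖v‖ ^ 2 + ε ^ 2) ^ (-(N : ℝ) / 2 - 1) * φ N (y + v)) ε (hR := hε.le)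
  rw [finrank_euclideanSpace_fin, smul_eq_mul] at h2
  have h3 : ∫ v : E N, N * ε ^ 2 * (‖v‖ ^ 2 + ε ^ 2) ^ (-(N : ℝ) / 2 - 1) * φ N (y + v)
      = ε ^ N * ∫ x : E N, N * ε ^ 2 * (‖ε • x‖ ^ 2 + ε ^ 2) ^ (-(N : ℝ) / 2 - 1)
          * φ N (y + ε • x) := by
    rw [h2]
    have : ε ^ N ≠ 0 := by positivity
    field_simp
  rw [h3, ← integral_const_mul]
  refine integral_congr_ae (Eventually.of_forall fun w => ?_)
  simp only
  have h4 : ‖ε • w‖ ^ 2 + ε ^ 2 = ε ^ 2 * (1 + ‖w‖ ^ 2) := by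
    rw [norm_smul, Real.norm_eq_abs, abs_of_pos hε]; ring
  rw [h4, Real.mul_rpow (by positivity) (by positivity)]
  have h5 : (ε ^ 2) ^ (-(N : ℝ) / 2 - 1) = (ε ^ N * ε ^ 2)⁻¹ := by
    rw [← Real.rpow_natCast ε 2, ← Real.rpow_mul hε.le, ← Real.rpow_natCast ε N,
      ← Real.rpow_add hε, ← Real.rpow_neg hε.le]
    congr 1
    push_cast; ring
  have h6 : (-((N : ℝ) + 2) / 2) = -(N : ℝ) / 2 - 1 := by ring
  rw [h5, h6]
  have : ε ^ N ≠ 0 := by positivity
  field_simp

lemma tendsto_rhs (y : E N) :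
    Tendsto (fun n => ∫ w : E N, N * (1 + ‖w‖ ^ 2) ^ (-((N : ℝ) + 2) / 2) * φ N (y + en n • w))
      atTop (𝓝 (c0 N * φ N y)) := by
  have h0 : c0 N * φ N y = ∫ w : E N, N * (1 + ‖w‖ ^ 2) ^ (-((N : ℝ) + 2) / 2) * φ N y := by
    unfold c0
    rw [integral_mul_const]
  rw [h0]
  have hφc : Continuous (φ N) := contDiff_φ.continuous
  refine tendsto_integral_of_dominated_convergence
    (fun w : E N => N * (1 + ‖w‖ ^ 2) ^ (-((N : ℝ) + 2) / 2)) ?_ integrable_c0 ?_ ?_
  · intro n
    refine integrable_c0.aestronglyMeasurable.mul ?_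
    exact (hφc.comp (by fun_prop)).aestronglyMeasurable
  · intro n
    refine Eventually.of_forall fun w => ?_
    rw [Real.norm_eq_abs, abs_mul, abs_of_nonneg (φ_nonneg _), abs_of_nonneg (by positivity)]
    exact mul_le_of_le_one_right (by positivity) (φ_le_one _)
  · refine Eventually.of_forall fun w => ?_
    refine Tendsto.const_mul _ ?_
    have h1 : Tendsto (fun n => y + en n • w) atTop (𝓝 (y + (0 : ℝ) • w)) :=
      (tendsto_en.smul_const w).const_add y
    rw [zero_smul, add_zero] at h1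
    exact (hφc.tendsto y).comp h1

/-- The fundamental solution identity. -/
lemma identity (hN : 2 ≤ N) (y : E N) :
    ∫ z, Γ0 N (z - y) * ψ N z = -(κ N * c0 N) * φ N y := by
  have := nontrivial_E hN
  obtain ⟨C, hC0, hC⟩ := exists_bound_ψ (N := N)
  have h1 : Tendsto (fun n => ∫ z, Γe N (en n) (z - y) * ψ N z) atTop
      (𝓝 (-(κ N) * (c0 N * φ N y))) := by
    have h2 : ∀ n, ∫ z, Γe N (en n) (z - y) * ψ N z
        = -(κ N) * ∫ w : E N, N * (1 + ‖w‖ ^ 2) ^ (-((N : ℝ) + 2) / 2) * φ N (y + en n • w) := by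
      intro n
      rw [identity_eps (en_pos n), rhs_eq (en_pos n)]
    simp_rw [h2]
    exact (tendsto_rhs y).const_mul _
  have hint0 := (integrable_shift hN continuous_ψ.measurable hC (x0 := (0 : E N)) (y := y)
    (ρ := 2) (R := 2 + ‖(0 : E N) - y‖ + 1) (fun z hz => ψ_zero (by simpa using hz))
    (by linarith)).1
  have h3 : Tendsto (fun n => ∫ z, Γe N (en n) (z - y) * ψ N z) atTop
      (𝓝 (∫ z, Γ0 N (z - y) * ψ N z)) := by
    refine tendsto_integral_of_dominated_convergence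
      (fun z => |Γ0 N (z - y) * ψ N z| + ‖z - y‖ ^ 2 * |ψ N z|) ?_ ?_ ?_ ?_
    · intro n
      exact ((contDiff_Γe (en_pos n) y).continuous.mul continuous_ψ).aestronglyMeasurable
    · refine hint0.abs.add ?_
      refine Continuous.integrable_of_hasCompactSupport
        (by have := continuous_ψ (N := N); fun_prop) ?_
      refine HasCompactSupport.intro (isCompact_closedBall (0 : E N) 2) fun z hz => ?_
      have : 2 < ‖z‖ := by simpa using hz
      rw [ψ_zero this]; simp
    · intro n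
      have h4 : ∀ᵐ z : E N, z ≠ y := by
        rw [ae_iff]; simp
      filter_upwards [h4] with z hz
      rw [Real.norm_eq_abs, abs_mul, abs_mul, ← add_mul]
      exact mul_le_mul_of_nonneg_right
        (abs_Γe_le hN (en_pos n) (en_le_one n) (sub_ne_zero.2 hz)) (abs_nonneg _)
    · have h4 : ∀ᵐ z : E N, z ≠ y := by
        rw [ae_iff]; simp
      filter_upwards [h4] with z hz
      exact (tendsto_Γe (sub_ne_zero.2 hz)).mul_const _
  have h5 := tendsto_nhds_unique h3 h1
  rw [h5]; ring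

/-- The scaled identity. -/
lemma scaled (hN : 2 ≤ N) {r : ℝ} (hr : 0 < r) (x y : E N) :
    ∫ z, Γ0 N (z - y) * ψ N (r⁻¹ • (z - x)) = -(κ N * c0 N) * r ^ 2 * φ N (r⁻¹ • (y - x)) := by
  have := nontrivial_E hN
  obtain ⟨C, hC0, hC⟩ := exists_bound_ψ (N := N)
  set y' := r⁻¹ • (y - x) with hy'
  have h1 : ∫ z, Γ0 N (z - y) * ψ N (r⁻¹ • (z - x))
      = ∫ v, Γ0 N (v + (x - y)) * ψ N (r⁻¹ • v) := by
    rw [← integral_sub_right_eq_self (fun v => Γ0 N (v + (x - y)) * ψ N (r⁻¹ • v)) x]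
    refine integral_congr_ae (Eventually.of_forall fun z => ?_)
    simp only
    congr 2
    abel
  have h2 := Measure.integral_comp_smul_of_nonneg (volume : Measure (E N))
    (fun v => Γ0 N (v + (x - y)) * ψ N (r⁻¹ • v)) r (hR := hr.le)
  rw [finrank_euclideanSpace_fin, smul_eq_mul] at h2
  have h3 : ∫ v, Γ0 N (v + (x - y)) * ψ N (r⁻¹ • v)
      = r ^ N * ∫ w, Γ0 N (r • (w - y')) * ψ N w := by
    have h4 : ∫ w, Γ0 N (r • (w - y')) * ψ N w
        = ∫ w, Γ0 N (r • w + (x - y)) * ψ N (r⁻¹ • r • w) := by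
      refine integral_congr_ae (Eventually.of_forall fun w => ?_)
      simp only
      rw [hy', smul_sub, smul_smul, smul_smul, mul_inv_cancel₀ hr.ne', inv_mul_cancel₀ hr.ne',
        one_smul, one_smul]
      congr 2
      abel
    rw [h4, h2]
    have : r ^ N ≠ 0 := by positivity
    field_simp
  have hint0 := (integrable_shift hN continuous_ψ.measurable hC (x0 := (0 : E N)) (y := y')
    (ρ := 2) (R := 2 + ‖(0 : E N) - y'‖ + 1) (fun z hz => ψ_zero (by simpa using hz))
    (by linarith)).1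
  have hψi : Integrable (ψ N) := by
    refine Continuous.integrable_of_hasCompactSupport continuous_ψ ?_
    refine HasCompactSupport.intro (isCompact_closedBall (0 : E N) 2) fun z hz => ?_
    exact ψ_zero (by simpa using hz)
  have hne : ∀ᵐ w : E N, w ≠ y' := by
    rw [ae_iff]; simp
  have h5 : r ^ N * ∫ w, Γ0 N (r • (w - y')) * ψ N w
      = r ^ 2 * ∫ w, Γ0 N (w - y') * ψ N w := by
    by_cases h : N = 2
    · have h6 : ∫ w, Γ0 N (r • (w - y')) * ψ N w
          = ∫ w, (Γ0 N (w - y') * ψ N w + (-Real.log r) * ψ N w) := by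
        refine integral_congr_ae ?_
        filter_upwards [hne] with w hw
        have hw0 : ‖w - y'‖ ≠ 0 := norm_ne_zero_iff.2 (sub_ne_zero.2 hw)
        unfold Γ0
        rw [if_pos h, if_pos h, norm_smul, Real.norm_eq_abs, abs_of_pos hr,
          Real.log_mul hr.ne' hw0]
        ring
      have hrN : r ^ N = r ^ 2 := by rw [h]
      rw [h6, integral_add hint0 (hψi.const_mul _), integral_const_mul, integral_ψ, mul_zero,
        add_zero, hrN]
    · have h6 : ∫ w, Γ0 N (r • (w - y')) * ψ N w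
          = r ^ ((2 : ℝ) - N) * ∫ w, Γ0 N (w - y') * ψ N w := by
        rw [← integral_const_mul]
        refine integral_congr_ae (Eventually.of_forall fun w => ?_)
        simp only
        unfold Γ0
        rw [if_neg h, if_neg h, norm_smul, Real.norm_eq_abs, abs_of_pos hr,
          Real.mul_rpow hr.le (norm_nonneg _)]
        ring
      rw [h6, ← mul_assoc]
      congr 1
      rw [← Real.rpow_natCast r N, ← Real.rpow_add hr, ← Real.rpow_natCast r 2]
      congr 1
      push_cast; ring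
  rw [h1, h3, h5, identity hN]
  ring

end Q94.HP
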