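import Pool.Agent.Q94.HPB

/-!
# Measures with Hölder continuous potential: the scale estimate and densities
-/

open scoped BigOperators Topology ENNReal RealInnerProductSpace
open Set Filter MeasureTheory

namespace Q94.HP

variable {N : ℕ}

/-- The fundamental solution of `-Δ` in `ℝ^N` (`N |B_1|` is the area of the unit sphere). -/
noncomputable def Γ (N : ℕ) (v : E N) : ℝ :=
  (κ N * (N * (volume : Measure (E N)).real (Metric.ball 0 1)))⁻¹ * Γ0 N v

/-- The normalising constant. -/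
noncomputable def cN (N : ℕ) : ℝ := (κ N * (N * (volume : Measure (E N)).real (Metric.ball 0 1)))⁻¹

lemma cN_pos (hN : 2 ≤ N) : 0 < cN N := by
  unfold cN
  have h1 := κ_pos hN
  have h2 : (0 : ℝ) < N := by exact_mod_cast (by omega : 0 < N)
  have h3 : 0 < (volume : Measure (E N)).real (Metric.ball 0 1) := by
    unfold Measure.real
    exact ENNReal.toReal_pos (Metric.measure_ball_pos volume 0 one_pos).ne' measure_ball_lt_top.ne
  positivity

/-- The Newtonian potential of a pair of measures. -/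
noncomputable def pot2 (μ1 μ2 : Measure (E N)) (x : E N) : ℝ :=
  ∫ y, Γ N (x - y) ∂μ1 - ∫ y, Γ N (x - y) ∂μ2

/-- The scaled bump. -/
noncomputable def φr (x : E N) (r : ℝ) (y : E N) : ℝ := φ N (r⁻¹ • (y - x))

/-- Its Laplacian, up to scaling. -/
noncomputable def ψr (x : E N) (r : ℝ) (z : E N) : ℝ := ψ N (r⁻¹ • (z - x))

lemma measurable_ψr (x : E N) (r : ℝ) : Measurable (ψr x r) := by
  unfold ψr
  exact continuous_ψ.measurable.comp (by fun_prop)

lemma continuous_φr (x : E N) (r : ℝ) : Continuous (φr x r) := by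
  unfold φr
  exact contDiff_φ.continuous.comp (by fun_prop)

lemma norm_scaled {x z : E N} {r : ℝ} (hr : 0 < r) : ‖r⁻¹ • (z - x)‖ = ‖z - x‖ / r := by
  rw [norm_smul, Real.norm_eq_abs, abs_of_pos (inv_pos.2 hr)]; ring

lemma ψr_zero {x z : E N} {r : ℝ} (hr : 0 < r) (hz : 2 * r < ‖z - x‖) : ψr x r z = 0 := by
  unfold ψr
  refine ψ_zero ?_
  rw [norm_scaled hr, lt_div_iff₀ hr]; exact hz

lemma φr_zero {x z : E N} {r : ℝ} (hr : 0 < r) (hz : 2 * r < ‖z - x‖) : φr x r z = 0 := by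
  unfold φr
  refine φ_zero ?_
  rw [norm_scaled hr, le_div_iff₀ hr]; exact hz.le

lemma φr_one {x z : E N} {r : ℝ} (hr : 0 < r) (hz : ‖z - x‖ ≤ r) : φr x r z = 1 := by
  unfold φr
  refine φ_one ?_
  rw [norm_scaled hr, div_le_one hr]; exact hz

lemma φr_nonneg (x : E N) (r : ℝ) (z : E N) : 0 ≤ φr x r z := φ_nonneg _

lemma φr_le_one (x : E N) (r : ℝ) (z : E N) : φr x r z ≤ 1 := φ_le_one _

lemma integral_ψr (x : E N) {r : ℝ} (hr : 0 < r) : ∫ z, ψr x r z = 0 := by
  unfold ψr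
  have h1 : ∫ z, ψ N (r⁻¹ • (z - x)) = ∫ v, ψ N (r⁻¹ • v) :=
    integral_sub_right_eq_self (fun v => ψ N (r⁻¹ • v)) x
  have h2 := Measure.integral_comp_smul_of_nonneg (volume : Measure (E N)) (ψ N) r⁻¹
    (hR := (inv_pos.2 hr).le)
  rw [h1, h2, integral_ψ, smul_zero]

/-- Fubini for one measure. -/
lemma fubini (hN : 2 ≤ N) {μ : Measure (E N)} [IsFiniteMeasure μ] {x : E N} {r D : ℝ} (hr : 0 < r)
    (hD : ∀ᵐ y ∂μ, ‖x - y‖ ≤ D) :
    Integrable (fun z => (∫ y, Γ N (z - y) ∂μ) * ψr x r z) ∧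
    ∫ z, (∫ y, Γ N (z - y) ∂μ) * ψr x r z
      = -(cN N * (κ N * c0 N)) * r ^ 2 * ∫ y, φr x r y ∂μ := by
  obtain ⟨C, hC0, hC⟩ := exists_bound_ψ (N := N)
  have hm : Measurable (Function.uncurry fun (z y : E N) => Γ N (z - y) * ψr x r z) := by
    unfold Γ
    have h1 := measurable_Γ0 (N := N)
    have h2 := measurable_ψr x r
    exact ((h1.comp (measurable_fst.sub measurable_snd)).const_mul _).mul
      (h2.comp measurable_fst)
  have hsl : ∀ y : E N, Integrable (fun z => Γ N (z - y) * ψr x r z) ∧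
      ∫ z, |Γ N (z - y) * ψr x r z| ≤ cN N * (C * J N (2 * r + ‖x - y‖ + 1)) := by
    intro y
    obtain ⟨h1, h2⟩ := integrable_shift hN (measurable_ψr x r) (fun z => hC _)
      (x0 := x) (y := y) (ρ := 2 * r) (R := 2 * r + ‖x - y‖ + 1)
      (fun z hz => ψr_zero hr hz) (by linarith)
    have h3 : ∀ z, Γ N (z - y) * ψr x r z = cN N * (Γ0 N (z - y) * ψr x r z) := by
      intro z; unfold Γ cN; ring
    constructor
    · simp_rw [h3]; exact h1.const_mul _
    · simp_rw [h3, abs_mul (cN N), abs_of_pos (cN_pos hN)]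
      rw [integral_const_mul]
      exact mul_le_mul_of_nonneg_left h2 (cN_pos hN).le
  have hJ : ∀ {R R' : ℝ}, R ≤ R' → J N R ≤ J N R' := by
    intro R R' h
    unfold J
    exact setIntegral_mono_set (integrableOn_ball hN R').abs
      (Eventually.of_forall fun _ => abs_nonneg _)
      (Metric.ball_subset_ball h).eventuallyLE
  have hprod : Integrable (Function.uncurry fun (z y : E N) => Γ N (z - y) * ψr x r z)
      ((volume : Measure (E N)).prod μ) := by
    rw [integrable_prod_iff' hm.aestronglyMeasurable]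
    refine ⟨Eventually.of_forall fun y => (hsl y).1, ?_⟩
    refine Integrable.of_bound ?_ (cN N * (C * J N (2 * r + D + 1))) ?_
    · exact (hm.aestronglyMeasurable (μ := (volume : Measure (E N)).prod μ)).norm.prod_swap.integral_prod_right'
    · filter_upwards [hD] with y hy
      rw [Real.norm_eq_abs, abs_of_nonneg (integral_nonneg fun _ => norm_nonneg _)]
      simp only [Real.norm_eq_abs, Function.uncurry_apply_pair]
      refine (hsl y).2.trans ?_
      refine mul_le_mul_of_nonneg_left (mul_le_mul_of_nonneg_left (hJ (by linarith)) hC0)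
        (cN_pos hN).le
  have h1 : ∀ z, (∫ y, Γ N (z - y) ∂μ) * ψr x r z = ∫ y, Γ N (z - y) * ψr x r z ∂μ := fun z =>
    (integral_mul_const _ _).symm
  simp_rw [h1]
  refine ⟨hprod.integral_prod_left, ?_⟩
  rw [integral_integral_swap hprod, ← integral_const_mul]
  refine integral_congr_ae (Eventually.of_forall fun y => ?_)
  simp only
  have h2 := scaled hN hr x y
  have h3 : ∫ z, Γ N (z - y) * ψr x r z = cN N * ∫ z, Γ0 N (z - y) * ψ N (r⁻¹ • (z - x)) := by
    rw [← integral_const_mul]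
    refine integral_congr_ae (Eventually.of_forall fun z => ?_)
    simp only
    unfold Γ cN ψr
    ring
  rw [h3, h2]
  unfold φr
  ring

/-- The scale estimate. -/
lemma scale_estimate (hN : 2 ≤ N) {Ω : Set (E N)} (hΩ : Bornology.IsBounded Ω)
    {β : ℝ} (hβ : 0 < β) {μ1 μ2 : Measure (E N)} [IsFiniteMeasure μ1] [IsFiniteMeasure μ2]
    (h1 : μ1 Ωᶜ = 0) (h2 : μ2 Ωᶜ = 0) {h : E N → ℝ} {Ch : ℝ}
    (hh : ∀ x ∈ Ω, ∀ y ∈ Ω, |h x - h y| ≤ Ch * ‖x - y‖ ^ β)
    (hu : ∀ᵐ x ∂(volume.restrict Ω), pot2 μ1 μ2 x = h x) :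
    ∃ B : ℝ, 0 ≤ B ∧ ∀ x ∈ Ω, ∀ r : ℝ, 0 < r → Metric.closedBall x (2 * r) ⊆ Ω →
      |∫ y, φr x r y ∂μ1 - ∫ y, φr x r y ∂μ2| ≤ B * r ^ ((N : ℝ) - 2 + β) := by
  obtain ⟨C, hC0, hC⟩ := exists_bound_ψ (N := N)
  obtain ⟨D, hD⟩ := hΩ.exists_norm_le
  set A := cN N * (κ N * c0 N) with hA
  have hA0 : 0 < A := mul_pos (cN_pos hN) (mul_pos (κ_pos hN) (c0_pos hN))
  set V := (volume : Measure (E N)).real (Metric.ball 0 1) with hV
  refine ⟨A⁻¹ * (max Ch 0 * 2 ^ β * C * (2 ^ N * V)), by positivity, fun x hx r hr hball => ?_⟩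
  have hDi : ∀ {μ : Measure (E N)}, μ Ωᶜ = 0 → ∀ᵐ y ∂μ, ‖x - y‖ ≤ D + D := by
    intro μ hμ
    have : ∀ᵐ y ∂μ, y ∈ Ω := by rw [ae_iff]; exact hμ
    filter_upwards [this] with y hy
    exact (norm_sub_le _ _).trans (add_le_add (hD x hx) (hD y hy))
  obtain ⟨i1, e1⟩ := fubini hN (μ := μ1) (x := x) hr (hDi h1)
  obtain ⟨i2, e2⟩ := fubini hN (μ := μ2) (x := x) hr (hDi h2)
  have e3 : ∫ z, pot2 μ1 μ2 z * ψr x r z
      = -A * r ^ 2 * (∫ y, φr x r y ∂μ1 - ∫ y, φr x r y ∂μ2) := by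
    have : ∀ z, pot2 μ1 μ2 z * ψr x r z
        = (∫ y, Γ N (z - y) ∂μ1) * ψr x r z - (∫ y, Γ N (z - y) ∂μ2) * ψr x r z := by
      intro z; unfold pot2; ring
    simp_rw [this]
    rw [integral_sub i1 i2, e1, e2]
    ring
  set S := Metric.closedBall x (2 * r) with hS
  have hSm : MeasurableSet S := measurableSet_closedBall
  have e4 : ∫ z, pot2 μ1 μ2 z * ψr x r z = ∫ z in S, (h z - h x) * ψr x r z := by
    have hiu : Integrable fun z => pot2 μ1 μ2 z * ψr x r z := by
      have : (fun z => pot2 μ1 μ2 z * ψr x r z)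
          = fun z => (∫ y, Γ N (z - y) ∂μ1) * ψr x r z - (∫ y, Γ N (z - y) ∂μ2) * ψr x r z := by
        funext z; unfold pot2; ring
      rw [this]; exact i1.sub i2
    have hiψ : Integrable (ψr x r) := by
      refine Continuous.integrable_of_hasCompactSupport
        (by unfold ψr; exact continuous_ψ.comp (by fun_prop)) ?_
      refine HasCompactSupport.intro (isCompact_closedBall x (2 * r)) fun z hz => ?_
      refine ψr_zero hr ?_
      rw [Metric.mem_closedBall, not_le, dist_eq_norm] at hz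
      exact hz
    have h5 : ∫ z, pot2 μ1 μ2 z * ψr x r z = ∫ z, (pot2 μ1 μ2 z - h x) * ψr x r z := by
      have : ∀ z, (pot2 μ1 μ2 z - h x) * ψr x r z
          = pot2 μ1 μ2 z * ψr x r z - h x * ψr x r z := fun z => by ring
      simp_rw [this]
      rw [integral_sub hiu (hiψ.const_mul _), integral_const_mul, integral_ψr x hr, mul_zero,
        sub_zero]
    rw [h5, ← setIntegral_eq_integral_of_forall_compl_eq_zero (s := S)]
    · refine integral_congr_ae ?_
      have h6 : ∀ᵐ z ∂(volume.restrict S), pot2 μ1 μ2 z = h z :=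
        ae_mono (Measure.restrict_mono_set volume hball) hu
      filter_upwards [h6] with z hz
      rw [hz]
    · intro z hz
      rw [ψr_zero hr, mul_zero]
      rw [hS, Metric.mem_closedBall, not_le, dist_eq_norm] at hz
      exact hz
  have e5 : |∫ z in S, (h z - h x) * ψr x r z| ≤ (max Ch 0 * (2 * r) ^ β * C) * volume.real S := by
    rw [← Real.norm_eq_abs]
    refine norm_setIntegral_le_of_norm_le_const measure_closedBall_lt_top fun z hz => ?_
    rw [Real.norm_eq_abs, abs_mul]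
    have h6 : ‖z - x‖ ≤ 2 * r := by
      rw [hS, Metric.mem_closedBall, dist_eq_norm] at hz; exact hz
    have h7 : |h z - h x| ≤ max Ch 0 * (2 * r) ^ β := by
      refine (hh z (hball hz) x hx).trans ?_
      calc Ch * ‖z - x‖ ^ β ≤ max Ch 0 * ‖z - x‖ ^ β :=
            mul_le_mul_of_nonneg_right (le_max_left _ _) (by positivity)
        _ ≤ max Ch 0 * (2 * r) ^ β :=
            mul_le_mul_of_nonneg_left (Real.rpow_le_rpow (norm_nonneg _) h6 hβ.le)
              (le_max_right _ _)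
    exact mul_le_mul h7 (hC _) (abs_nonneg _) (by positivity)
  have e6 : volume.real S = (2 * r) ^ N * V := by
    rw [hS, hV]
    unfold Measure.real
    rw [Measure.addHaar_closedBall_center, Measure.addHaar_closedBall _ _ (by positivity),
      ENNReal.toReal_mul, ENNReal.toReal_ofReal (by positivity), finrank_euclideanSpace_fin]
  rw [← e4, e3, e6, abs_mul, abs_mul, abs_neg, abs_of_pos hA0, abs_of_pos (by positivity)] at e5
  set Q := |∫ y, φr x r y ∂μ1 - ∫ y, φr x r y ∂μ2| with hQ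
  have e7 : r ^ ((N : ℝ) - 2 + β) * r ^ 2 = r ^ β * r ^ N := by
    rw [← Real.rpow_natCast r 2, ← Real.rpow_add hr, ← Real.rpow_natCast r N, ← Real.rpow_add hr]
    congr 1
    push_cast; ring
  have e8 : A * r ^ 2 * Q ≤ A * r ^ 2
      * (A⁻¹ * (max Ch 0 * 2 ^ β * C * (2 ^ N * V)) * r ^ ((N : ℝ) - 2 + β)) := by
    refine e5.trans (le_of_eq ?_)
    have : (2 * r) ^ β = 2 ^ β * r ^ β := Real.mul_rpow (by norm_num) hr.le
    rw [this, mul_pow]
    calc max Ch 0 * (2 ^ β * r ^ β) * C * (2 ^ N * r ^ N * V)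
        = (max Ch 0 * 2 ^ β * C * (2 ^ N * V)) * (r ^ β * r ^ N) := by ring
      _ = (max Ch 0 * 2 ^ β * C * (2 ^ N * V)) * (r ^ ((N : ℝ) - 2 + β) * r ^ 2) := by rw [e7]
      _ = _ := by field_simp
  exact le_of_mul_le_mul_left e8 (by positivity)

end Q94.HP
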