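import Pool.Agent.Q94.HPC

/-!
# Densities and Hausdorff measure
-/

open scoped BigOperators Topology ENNReal NNReal RealInnerProductSpace
open Set Filter MeasureTheory

namespace Q94.HP

variable {N : ℕ}

/-- The recursion `b_{k+1} ≤ B + b_k / 2` implies `b_k ≤ 2B + 1` eventually. -/
lemma recursion {b : ℕ → ℝ} {B : ℝ} (hb : ∀ k, b (k + 1) ≤ B + b k / 2) :
    ∃ K, ∀ k, K ≤ k → b k ≤ 2 * B + 1 := by
  have h1 : ∀ k, b k ≤ 2 * B + (1 / 2) ^ k * |b 0 - 2 * B| := by
    intro k
    induction k with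
    | zero => have := le_abs_self (b 0 - 2 * B); simp; linarith
    | succ k ih =>
      have := hb k
      rw [pow_succ]
      nlinarith
  have h2 : Tendsto (fun k : ℕ => (1 / 2 : ℝ) ^ k * |b 0 - 2 * B|) atTop (𝓝 0) := by
    have := (tendsto_pow_atTop_nhds_zero_of_lt_one (r := (1 / 2 : ℝ)) (by norm_num)
      (by norm_num)).mul_const |b 0 - 2 * B|
    rwa [zero_mul] at this
  obtain ⟨K, hK⟩ := eventually_atTop.1 (h2.eventually_le_const one_pos)
  exact ⟨K, fun k hk => by have := h1 k; have := hK k hk; linarith⟩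

/-- Upper density bound. -/
lemma density {Ω : Set (E N)} (hΩo : IsOpen Ω) {s B : ℝ} (hs : 0 < s) (hB : 0 ≤ B)
    {μ1 μ2 : Measure (E N)} [IsFiniteMeasure μ1] [IsFiniteMeasure μ2] (hsing : μ2 ⟂ₘ μ1)
    (h1 : μ1 Ωᶜ = 0)
    (hest : ∀ x ∈ Ω, ∀ r : ℝ, 0 < r → Metric.closedBall x (2 * r) ⊆ Ω →
      ∫ y, φr x r y ∂μ1 - ∫ y, φr x r y ∂μ2 ≤ B * r ^ s) :
    ∀ᵐ x ∂μ1, ∃ δ : ℝ, 0 < δ ∧ ∀ r : ℝ, 0 < r → r ≤ δ →
      μ1 (Metric.closedBall x r) ≤ ENNReal.ofReal (2 ^ s * (2 * B + 1) * r ^ s) := by
  have hmem : ∀ᵐ x ∂μ1, x ∈ Ω := by rw [ae_iff]; exact h1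
  filter_upwards [hmem, Besicovitch.ae_tendsto_rnDeriv μ2 μ1, hsing.rnDeriv_ae_eq_zero]
    with x hx hlim hzero
  rw [hzero] at hlim
  simp only [Pi.zero_apply] at hlim
  set ε : ℝ := (1 / 2) * (2 : ℝ) ^ (-s) with hε
  have hε0 : 0 < ε := by positivity
  have hlt : ∀ᶠ r in 𝓝[>] (0 : ℝ), μ2 (Metric.closedBall x r) / μ1 (Metric.closedBall x r)
      < ENNReal.ofReal ε := hlim.eventually_lt_const (by simpa using hε0)
  obtain ⟨ρ, hρ0, hρ⟩ := mem_nhdsGT_iff_exists_Ioo_subset.1 hlt
  obtain ⟨ρ', hρ'0, hρ'⟩ := Metric.isOpen_iff.1 hΩo x hx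
  -- real form of the comparison
  have hcmp : ∀ r, 0 < r → r < ρ → μ2.real (Metric.closedBall x r)
      ≤ ε * μ1.real (Metric.closedBall x r) := by
    intro r hr hrρ
    have h2 : μ2 (Metric.closedBall x r) / μ1 (Metric.closedBall x r) < ENNReal.ofReal ε :=
      hρ ⟨hr, hrρ⟩
    have h3 : μ2 (Metric.closedBall x r) ≤ ENNReal.ofReal ε * μ1 (Metric.closedBall x r) := by
      by_cases h0 : μ1 (Metric.closedBall x r) = 0
      · rw [h0] at h2 ⊢
        by_contra hcon
        push Not at hcon
        rw [mul_zero] at hcon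
        rw [ENNReal.div_zero hcon.ne'] at h2
        exact absurd h2 (by simp)
      · exact (ENNReal.div_le_iff_le_mul (Or.inl h0) (Or.inl (measure_ne_top _ _))).1 h2.le
    have h4 := ENNReal.toReal_mono (ENNReal.mul_ne_top ENNReal.ofReal_ne_top (measure_ne_top _ _)) h3
    rw [ENNReal.toReal_mul, ENNReal.toReal_ofReal hε0.le] at h4
    exact h4
  set r0 : ℝ := min ρ ρ' / 2 with hr0
  have hr00 : 0 < r0 := by
    have : 0 < min ρ ρ' := lt_min hρ0 hρ'0
    positivity
  have hr0ρ : r0 < ρ := by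
    have := min_le_left ρ ρ'
    have : 0 < min ρ ρ' := lt_min hρ0 hρ'0
    linarith
  have hr0ρ' : r0 < ρ' := by
    have := min_le_right ρ ρ'
    have : 0 < min ρ ρ' := lt_min hρ0 hρ'0
    linarith
  set m1 : ℝ → ℝ := fun r => μ1.real (Metric.closedBall x r) with hm1
  have hstep : ∀ r, 0 < r → 2 * r ≤ r0 → m1 r ≤ B * r ^ s + ε * m1 (2 * r) := by
    intro r hr hr2
    have h2 := hest x hx r hr ((Metric.closedBall_subset_ball (lt_of_le_of_lt hr2 hr0ρ')).trans hρ')
    have hi : ∀ (μ : Measure (E N)) [IsFiniteMeasure μ], Integrable (φr x r) μ := fun μ _ =>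
      Integrable.of_bound (continuous_φr x r).aestronglyMeasurable 1
        (Eventually.of_forall fun y => by
          rw [Real.norm_eq_abs, abs_of_nonneg (φr_nonneg _ _ _)]; exact φr_le_one _ _ _)
    have h3 : m1 r ≤ ∫ y, φr x r y ∂μ1 := by
      have h4 : ∫ y, (Metric.closedBall x r).indicator (fun _ => (1 : ℝ)) y ∂μ1 = m1 r := by
        rw [integral_indicator_const _ measurableSet_closedBall, smul_eq_mul, mul_one]
      rw [← h4]
      refine integral_mono ?_ (hi μ1) fun y => ?_
      · exact (integrable_const _).indicator measurableSet_closedBall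
      · by_cases hy : y ∈ Metric.closedBall x r
        · rw [indicator_of_mem hy]
          rw [Metric.mem_closedBall, dist_eq_norm] at hy
          rw [φr_one hr hy]
        · rw [indicator_of_notMem hy]; exact φr_nonneg _ _ _
    have h5 : ∫ y, φr x r y ∂μ2 ≤ μ2.real (Metric.closedBall x (2 * r)) := by
      have h4 : ∫ y, (Metric.closedBall x (2 * r)).indicator (fun _ => (1 : ℝ)) y ∂μ2
          = μ2.real (Metric.closedBall x (2 * r)) := by
        rw [integral_indicator_const _ measurableSet_closedBall, smul_eq_mul, mul_one]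
      rw [← h4]
      refine integral_mono (hi μ2) ?_ fun y => ?_
      · exact (integrable_const _).indicator measurableSet_closedBall
      · by_cases hy : y ∈ Metric.closedBall x (2 * r)
        · rw [indicator_of_mem hy]; exact φr_le_one _ _ _
        · rw [indicator_of_notMem hy, φr_zero hr]
          rw [Metric.mem_closedBall, not_le, dist_eq_norm] at hy
          exact hy
    have h6 := hcmp (2 * r) (by linarith) (by linarith)
    simp only [hm1] at h3 ⊢
    linarith
  -- the recursion
  set rk : ℕ → ℝ := fun k => r0 * (1 / 2) ^ k with hrk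
  have hrk0 : ∀ k, 0 < rk k := fun k => by rw [hrk]; positivity
  have hrk1 : ∀ k, 2 * rk (k + 1) = rk k := fun k => by simp only [hrk, pow_succ]; ring
  set b : ℕ → ℝ := fun k => m1 (rk k) / rk k ^ s with hb
  have hrec : ∀ k, b (k + 1) ≤ B + b k / 2 := by
    intro k
    have h2 := hstep (rk (k + 1)) (hrk0 _) (by
      rw [hrk1, hrk]
      exact mul_le_of_le_one_right hr00.le (pow_le_one₀ (by norm_num) (by norm_num)))
    rw [hrk1] at h2
    have h3 : 0 < rk (k + 1) ^ s := Real.rpow_pos_of_pos (hrk0 _) _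
    have h4 : rk k ^ s = 2 ^ s * rk (k + 1) ^ s := by
      rw [← hrk1, Real.mul_rpow (by norm_num) (hrk0 _).le]
    simp only [hb]
    rw [div_le_iff₀ h3]
    refine h2.trans (le_of_eq ?_)
    rw [h4, hε, Real.rpow_neg (by norm_num)]
    have h5 : (0 : ℝ) < 2 ^ s := by positivity
    field_simp
  obtain ⟨K, hK⟩ := recursion hrec
  refine ⟨rk K, hrk0 K, fun r hr hrK => ?_⟩
  -- find the scale
  obtain ⟨n, hn1, hn2⟩ := exists_nat_pow_near (x := rk K / r) (y := (2 : ℝ))
    (by rw [le_div_iff₀ hr]; linarith) (by norm_num)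
  have hkn : rk (K + n) = rk K * (1 / 2) ^ n := by simp only [hrk, pow_add]; ring
  have h2n : (1 / 2 : ℝ) ^ n * 2 ^ n = 1 := by rw [← mul_pow]; norm_num
  have hrle : r ≤ rk (K + n) := by
    rw [hkn]
    rw [le_div_iff₀ hr] at hn1
    have : (0 : ℝ) < (1 / 2) ^ n := by positivity
    calc r = (1 / 2) ^ n * (2 ^ n * r) := by rw [← mul_assoc, h2n, one_mul]
      _ ≤ (1 / 2) ^ n * rk K := mul_le_mul_of_nonneg_left hn1 this.le
      _ = _ := mul_comm _ _
  have hrge : rk (K + n) ≤ 2 * r := by
    rw [hkn]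
    rw [div_lt_iff₀ hr, pow_succ] at hn2
    have : (0 : ℝ) < (1 / 2) ^ n := by positivity
    calc rk K * (1 / 2) ^ n ≤ (2 ^ n * 2 * r) * (1 / 2) ^ n := mul_le_mul_of_nonneg_right hn2.le this.le
      _ = ((1 / 2 : ℝ) ^ n * 2 ^ n) * (2 * r) := by ring
      _ = 2 * r := by rw [h2n, one_mul]
  have h3 : m1 (rk (K + n)) ≤ (2 * B + 1) * rk (K + n) ^ s := by
    have h4 := hK (K + n) (by omega)
    simp only [hb] at h4
    rwa [div_le_iff₀ (Real.rpow_pos_of_pos (hrk0 _) _)] at h4
  have h4 : m1 r ≤ 2 ^ s * (2 * B + 1) * r ^ s := by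
    calc m1 r ≤ m1 (rk (K + n)) := measureReal_mono (Metric.closedBall_subset_closedBall hrle)
      _ ≤ (2 * B + 1) * rk (K + n) ^ s := h3
      _ ≤ (2 * B + 1) * (2 * r) ^ s :=
          mul_le_mul_of_nonneg_left (Real.rpow_le_rpow (hrk0 _).le hrge hs.le) (by linarith)
      _ = _ := by rw [Real.mul_rpow (by norm_num) hr.le]; ring
  rw [← ofReal_measureReal (measure_ne_top _ _)]
  exact ENNReal.ofReal_le_ofReal h4

/-- From upper densities to Hausdorff measure. -/
lemma le_hausdorff {s C : ℝ} (hs : 0 < s) (hC : 0 < C) {μ : Measure (E N)} [IsFiniteMeasure μ]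
    (h : ∀ᵐ x ∂μ, ∃ δ : ℝ, 0 < δ ∧ ∀ r : ℝ, 0 < r → r ≤ δ →
      μ (Metric.closedBall x r) ≤ ENNReal.ofReal (C * r ^ s)) {A : Set (E N)}
    (hA : MeasurableSet A) :
    μ A ≤ ENNReal.ofReal (C * 2 ^ s) * Measure.hausdorffMeasure s A := by
  set S : ℕ → Set (E N) := fun k => {x | ∀ r : ℝ, 0 < r → r ≤ 1 / ((k : ℝ) + 1) →
    μ (Metric.closedBall x r) ≤ ENNReal.ofReal (C * r ^ s)} with hS
  have hmono : Monotone S := by
    intro k l hkl x hx r hr hr2
    refine hx r hr (hr2.trans ?_)
    have : (k : ℝ) ≤ l := by exact_mod_cast hkl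
    exact one_div_le_one_div_of_le (by positivity) (by linarith)
  set c := ENNReal.ofReal (C * 2 ^ s) with hc
  have hc0 : c ≠ 0 := by
    rw [hc]; simp only [ne_eq, ENNReal.ofReal_eq_zero, not_le]; positivity
  have hct : c ≠ ⊤ := ENNReal.ofReal_ne_top
  have key : ∀ k, c⁻¹ • μ.restrict (S k) ≤ Measure.hausdorffMeasure s := by
    intro k
    set δ : ℝ := 1 / ((k : ℝ) + 1) with hδ
    have hδ0 : 0 < δ := by positivity
    refine Measure.le_mkMetric _ _ (ENNReal.ofReal (δ / 2)) (by simpa using (by positivity : 0 < δ / 2)) ?_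
    intro U hU
    rw [Measure.smul_apply, smul_eq_mul]
    rw [ENNReal.inv_mul_le_iff hc0 hct]
    rcases U.eq_empty_or_nonempty with h0 | ⟨x, hx⟩
    · rw [h0]; simp
    have hUt : Metric.ediam U ≠ ⊤ := (lt_of_le_of_lt hU ENNReal.ofReal_lt_top).ne
    set D := (Metric.ediam U).toReal with hD
    have hDU : Metric.ediam U = ENNReal.ofReal D := (ENNReal.ofReal_toReal hUt).symm
    have hD0 : 0 ≤ D := ENNReal.toReal_nonneg
    have hDδ : D ≤ δ / 2 := by
      rw [hDU] at hU
      exact (ENNReal.ofReal_le_ofReal_iff (by positivity)).1 hU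
    have hsub : ∀ y ∈ U, dist x y ≤ D := by
      intro y hy
      have := Metric.edist_le_ediam_of_mem hx hy
      rw [hDU, edist_dist] at this
      exact (ENNReal.ofReal_le_ofReal_iff hD0).1 this
    by_cases hex : ∃ y ∈ S k, dist x y ≤ D
    · obtain ⟨y, hyS, hyD⟩ := hex
      have hUb : ∀ t, 2 * D ≤ t → U ⊆ Metric.closedBall y t := by
        intro t ht w hw
        rw [Metric.mem_closedBall]
        have h1 := hsub w hw
        have h2 := dist_triangle w x y
        rw [dist_comm w x] at h2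
        linarith
      rcases hD0.eq_or_lt with hD00 | hD00
      · -- zero diameter
        have h1 : μ.restrict (S k) U = 0 := by
          refine le_antisymm ?_ bot_le
          have h2 : Tendsto (fun n : ℕ => ENNReal.ofReal (C * (δ * (1 / ((n : ℝ) + 1))) ^ s)) atTop
              (𝓝 0) := by
            have h3 : Tendsto (fun n : ℕ => C * (δ * (1 / ((n : ℝ) + 1))) ^ s) atTop (𝓝 0) := by
              have h4 : Tendsto (fun n : ℕ => δ * (1 / ((n : ℝ) + 1))) atTop (𝓝 0) := by
                have := (tendsto_one_div_add_atTop_nhds_zero_nat (𝕜 := ℝ)).const_mul δ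
                rwa [mul_zero] at this
              have h5 := (h4.rpow_const (p := s) (Or.inr hs.le)).const_mul C
              rwa [Real.zero_rpow hs.ne', mul_zero] at h5
            have h6 := ENNReal.tendsto_ofReal h3
            rwa [ENNReal.ofReal_zero] at h6
          refine ge_of_tendsto h2 (Eventually.of_forall fun n => ?_)
          have hpos : 0 < δ * (1 / ((n : ℝ) + 1)) := by positivity
          have hle : δ * (1 / ((n : ℝ) + 1)) ≤ δ := by
            refine mul_le_of_le_one_right hδ0.le ?_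
            rw [div_le_one (by positivity)]
            linarith [Nat.cast_nonneg (α := ℝ) n]
          calc μ.restrict (S k) U ≤ μ U := Measure.restrict_apply_le _ _
            _ ≤ μ (Metric.closedBall y (δ * (1 / ((n : ℝ) + 1)))) :=
                measure_mono (hUb _ (by rw [← hD00]; linarith))
            _ ≤ _ := hyS _ hpos hle
        rw [h1]; exact bot_le
      · calc μ.restrict (S k) U ≤ μ U := Measure.restrict_apply_le _ _
          _ ≤ μ (Metric.closedBall y (2 * D)) := measure_mono (hUb _ le_rfl)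
          _ ≤ ENNReal.ofReal (C * (2 * D) ^ s) := hyS _ (by linarith) (by linarith)
          _ = c * Metric.ediam U ^ s := by
              rw [hDU, hc, ENNReal.ofReal_rpow_of_nonneg hD0 hs.le, ← ENNReal.ofReal_mul (by positivity),
                Real.mul_rpow (by norm_num) hD0]
              congr 1; ring
    · push Not at hex
      have h1 : μ.restrict (S k) U = 0 := by
        refine measure_mono_null (t := Metric.closedBall x D) (fun w hw => ?_) ?_
        · rw [Metric.mem_closedBall, dist_comm]; exact hsub w hw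
        · rw [Measure.restrict_apply measurableSet_closedBall]
          have : Metric.closedBall x D ∩ S k = ∅ := by
            ext w
            simp only [mem_inter_iff, mem_empty_iff_false, iff_false, not_and]
            intro hw hwS
            rw [Metric.mem_closedBall, dist_comm] at hw
            exact absurd hw (not_le.2 (hex w hwS))
          rw [this, measure_empty]
      rw [h1]; exact bot_le
  have hk : ∀ k, μ (A ∩ S k) ≤ c * Measure.hausdorffMeasure s A := by
    intro k
    have h1 := key k A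
    rw [Measure.smul_apply, smul_eq_mul, Measure.restrict_apply hA, ENNReal.inv_mul_le_iff hc0 hct] at h1
    exact h1
  have hunion : μ A ≤ μ (⋃ k, A ∩ S k) := by
    refine measure_mono_ae ?_
    filter_upwards [h] with x hx hxA
    obtain ⟨δ, hδ, hδ2⟩ := hx
    obtain ⟨k, hk2⟩ := exists_nat_one_div_lt hδ
    exact mem_iUnion.2 ⟨k, hxA, fun r hr hr2 => hδ2 r hr (hr2.trans hk2.le)⟩
  refine hunion.trans ?_
  rw [Monotone.measure_iUnion]
  · exact iSup_le hk
  · intro k l hkl
    exact inter_subset_inter_right _ (hmono hkl)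

end Q94.HP
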