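import Pool.Agent.Q94.HPD

/-!
# Measures with Hölder continuous potential are dominated by Hausdorff measure
-/

open scoped BigOperators Topology ENNReal NNReal RealInnerProductSpace
open Set Filter MeasureTheory

namespace Q94.HP

variable {N : ℕ}

/-- The Newtonian potential of a signed measure. -/
noncomputable def pot (μ : SignedMeasure (E N)) (x : E N) : ℝ :=
  ∫ y, Γ N (x - y) ∂μ.toJordanDecomposition.posPart
    - ∫ y, Γ N (x - y) ∂μ.toJordanDecomposition.negPart

/-- The potential agrees a.e. in `Ω` with a function which is Hölder continuous in `Ω` with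
exponent `β`. -/
def HasHolderPotential (Ω : Set (E N)) (β : ℝ) (μ : SignedMeasure (E N)) : Prop :=
  ∃ h : E N → ℝ, (∃ C : ℝ, ∀ x ∈ Ω, ∀ y ∈ Ω, |h x - h y| ≤ C * ‖x - y‖ ^ β) ∧
    ∀ᵐ x ∂(volume.restrict Ω), pot μ x = h x

theorem dominated (hN : 2 ≤ N) {Ω : Set (E N)} (hΩo : IsOpen Ω) (hΩb : Bornology.IsBounded Ω)
    {β : ℝ} (hβ : 0 < β) {μ : SignedMeasure (E N)} (hμ : μ.totalVariation Ωᶜ = 0)
    (hpot : HasHolderPotential Ω β μ) :
    ∃ c : ℝ≥0, ∀ A, MeasurableSet A →
      μ.totalVariation A ≤ c * Measure.hausdorffMeasure ((N : ℝ) - 2 + β) A := by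
  obtain ⟨h, ⟨Ch, hh⟩, hu⟩ := hpot
  set s : ℝ := (N : ℝ) - 2 + β with hs
  have hs0 : 0 < s := by
    have : (2 : ℝ) ≤ N := by exact_mod_cast hN
    linarith
  have htv : μ.toJordanDecomposition.posPart Ωᶜ + μ.toJordanDecomposition.negPart Ωᶜ = 0 := hμ
  have h1 : μ.toJordanDecomposition.posPart Ωᶜ = 0 := (add_eq_zero.1 htv).1
  have h2 : μ.toJordanDecomposition.negPart Ωᶜ = 0 := (add_eq_zero.1 htv).2
  obtain ⟨B, hB, hest⟩ := scale_estimate hN hΩb hβ h1 h2 hh hu
  have hsing := μ.toJordanDecomposition.mutuallySingular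
  have hC : 0 < 2 ^ s * (2 * B + 1) := by positivity
  have d1 := density hΩo hs0 hB hsing.symm h1 fun x hx r hr hball =>
    (le_abs_self _).trans (hest x hx r hr hball)
  have d2 := density hΩo hs0 hB hsing h2 fun x hx r hr hball => by
    have := (neg_abs_le (∫ y, φr x r y ∂μ.toJordanDecomposition.posPart
      - ∫ y, φr x r y ∂μ.toJordanDecomposition.negPart))
    have h3 := hest x hx r hr hball
    linarith
  refine ⟨2 * Real.toNNReal (2 ^ s * (2 * B + 1) * 2 ^ s), fun A hA => ?_⟩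
  have e1 := le_hausdorff hs0 hC d1 hA
  have e2 := le_hausdorff hs0 hC d2 hA
  calc μ.totalVariation A
      = μ.toJordanDecomposition.posPart A + μ.toJordanDecomposition.negPart A := rfl
    _ ≤ ENNReal.ofReal (2 ^ s * (2 * B + 1) * 2 ^ s) * Measure.hausdorffMeasure s A
        + ENNReal.ofReal (2 ^ s * (2 * B + 1) * 2 ^ s) * Measure.hausdorffMeasure s A :=
        add_le_add e1 e2
    _ = _ := by
        rw [← two_mul, ← mul_assoc]
        congr 1

theorem main (hN : 2 ≤ N) {Ω : Set (E N)} (hΩo : IsOpen Ω) (hΩb : Bornology.IsBounded Ω)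
    {β : ℝ} (hβ : 0 < β) {μ : SignedMeasure (E N)} (hμ : μ.totalVariation Ωᶜ = 0)
    (hpot : HasHolderPotential Ω β μ) :
    (∃ c : ℝ≥0, ∀ A, MeasurableSet A →
      μ.totalVariation A ≤ c * Measure.hausdorffMeasure ((N : ℝ) - 2 + β) A) ∧
    ∃ ν : ℕ → SignedMeasure (E N), (∀ n, (ν n).totalVariation Ωᶜ = 0) ∧
      (∀ n : ℕ, ∀ A, MeasurableSet A →
        (ν n).totalVariation A ≤ n * Measure.hausdorffMeasure ((N : ℝ) - 2 + β) A) ∧
      Tendsto (fun n => (ν n - μ).totalVariation univ) atTop (𝓝 0) := by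
  obtain ⟨c, hc⟩ := dominated hN hΩo hΩb hβ hμ hpot
  refine ⟨⟨c, hc⟩, ?_⟩
  obtain ⟨n0, hn0⟩ := exists_nat_ge c
  classical
  refine ⟨fun n => if n0 ≤ n then μ else 0, fun n => ?_, fun n A hA => ?_, ?_⟩
  · beta_reduce
    split_ifs
    · exact hμ
    · rw [SignedMeasure.totalVariation_zero]; rfl
  · beta_reduce
    split_ifs with h
    · refine (hc A hA).trans ?_
      gcongr
      have h1 : c ≤ (n : ℝ≥0) := hn0.trans (by exact_mod_cast h)
      exact_mod_cast h1
    · rw [SignedMeasure.totalVariation_zero]; exact bot_le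
  · refine tendsto_const_nhds.congr' ?_
    filter_upwards [eventually_ge_atTop n0] with n hn
    rw [if_pos hn, sub_self, SignedMeasure.totalVariation_zero]
    rfl

end Q94.HP
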