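import Mathlib

/-!
# Faces of polyhedral cones: coatoms of the face lattice
-/

set_option autoImplicit false

open Set

namespace Q94.HX

variable {V : Type*} [AddCommGroup V] [Module ℝ V]

/-- The faces of a convex set: its nonempty convex extreme subsets. -/
def Face (K : Set V) : Type _ := {F : Set V // F.Nonempty ∧ Convex ℝ F ∧ IsExtreme ℝ K F}

instance (K : Set V) : PartialOrder (Face K) := Subtype.partialOrder _

/-- the cone cut out by finitely many inequalities inside a subspace -/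
def Cone {ι : Type*} (M : Submodule ℝ V) (l : ι → V →ₗ[ℝ] ℝ) : Set V :=
  {x | x ∈ M ∧ ∀ i, 0 ≤ l i x}

section

variable {ι : Type*} {M : Submodule ℝ V} {l : ι → V →ₗ[ℝ] ℝ}

theorem cone_zero : (0 : V) ∈ Cone M l := ⟨M.zero_mem, fun i => by simp⟩

theorem cone_add {x y : V} (hx : x ∈ Cone M l) (hy : y ∈ Cone M l) : x + y ∈ Cone M l :=
  ⟨M.add_mem hx.1 hy.1, fun i => by rw [map_add]; exact add_nonneg (hx.2 i) (hy.2 i)⟩

theorem cone_smul {x : V} (hx : x ∈ Cone M l) {c : ℝ} (hc : 0 ≤ c) : c • x ∈ Cone M l :=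
  ⟨M.smul_mem c hx.1, fun i => by
    rw [map_smul, smul_eq_mul]; exact mul_nonneg hc (hx.2 i)⟩

theorem cone_convex : Convex ℝ (Cone M l) := by
  intro x hx y hy a b ha hb _
  exact cone_add (cone_smul hx ha) (cone_smul hy hb)

theorem face_zero (F : Face (Cone M l)) : (0 : V) ∈ F.1 := by
  obtain ⟨x, hx⟩ := F.2.1
  have hxK : x ∈ Cone M l := F.2.2.2.1 hx
  refine F.2.2.2.2 (cone_zero) (cone_smul hxK (c := 2) (by norm_num)) hx ?_
  refine ⟨1 / 2, 1 / 2, by norm_num, by norm_num, by norm_num, ?_⟩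
  rw [smul_zero, zero_add, smul_smul]
  norm_num

theorem face_smul (F : Face (Cone M l)) {x : V} (hx : x ∈ F.1) {c : ℝ} (hc : 0 ≤ c) :
    c • x ∈ F.1 := by
  rcases le_or_gt c 1 with h | h
  · have := F.2.2.1 hx (face_zero F) hc (sub_nonneg.2 h) (by ring)
    rwa [smul_zero, add_zero] at this
  · have hxK : x ∈ Cone M l := F.2.2.2.1 hx
    have hc0 : 0 < c := by linarith
    refine F.2.2.2.2 (cone_smul hxK hc) (cone_zero) hx ?_
    refine ⟨1 / c, 1 - 1 / c, by positivity, ?_, by ring, ?_⟩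
    · rw [sub_pos, div_lt_one hc0]
      exact h
    · rw [smul_zero, add_zero, smul_smul, one_div, inv_mul_cancel₀ hc0.ne', one_smul]

theorem face_add (F : Face (Cone M l)) {x y : V} (hx : x ∈ F.1) (hy : y ∈ F.1) :
    x + y ∈ F.1 := by
  have h := F.2.2.1 hx hy (show (0 : ℝ) ≤ 1 / 2 by norm_num) (show (0 : ℝ) ≤ 1 / 2 by norm_num)
    (by norm_num)
  have h2 := face_smul F h (show (0 : ℝ) ≤ 2 by norm_num)
  rw [smul_add, smul_smul, smul_smul] at h2
  norm_num at h2
  exact h2

theorem face_of_add (F : Face (Cone M l)) {x y : V} (hx : x ∈ Cone M l) (hy : y ∈ Cone M l)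
    (h : x + y ∈ F.1) : x ∈ F.1 := by
  have h2 := face_smul F h (show (0 : ℝ) ≤ 1 / 2 by norm_num)
  refine F.2.2.2.2 hx hy h2 ?_
  refine ⟨1 / 2, 1 / 2, by norm_num, by norm_num, by norm_num, ?_⟩
  rw [smul_add]

theorem face_sum (F : Face (Cone M l)) {κ : Type*} (s : Finset κ) (x : κ → V)
    (hx : ∀ i ∈ s, x i ∈ F.1) : ∑ i ∈ s, x i ∈ F.1 := by
  classical
  induction s using Finset.induction_on with
  | empty => simpa using face_zero F
  | insert a s ha ih =>
    rw [Finset.sum_insert ha]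
    exact face_add F (hx _ (Finset.mem_insert_self _ _))
      (ih fun i hi => hx i (Finset.mem_insert_of_mem hi))

/-- the whole cone as a face -/
def topFace : Face (Cone M l) :=
  ⟨Cone M l, ⟨0, cone_zero⟩, cone_convex, IsExtreme.refl ℝ _⟩

theorem le_topFace (F : Face (Cone M l)) : F ≤ topFace := F.2.2.2.1

/-- the face where the `i`-th inequality is an equality -/
def facet (M : Submodule ℝ V) (l : ι → V →ₗ[ℝ] ℝ) (i : ι) : Face (Cone M l) :=
  ⟨{x | x ∈ Cone M l ∧ l i x = 0}, ⟨0, cone_zero, by simp⟩, by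
    intro x hx y hy a b ha hb hab
    refine ⟨cone_convex hx.1 hy.1 ha hb hab, ?_⟩
    rw [map_add, map_smul, map_smul, hx.2, hy.2, smul_zero, smul_zero, add_zero], by
    refine ⟨fun x hx => hx.1, ?_⟩
    rintro x hx y hy z hz ⟨a, b, ha, hb, hab, rfl⟩
    refine ⟨hx, ?_⟩
    have h := hz.2
    rw [map_add, map_smul, map_smul, smul_eq_mul, smul_eq_mul] at h
    have h1 := mul_nonneg ha.le (hx.2 i)
    have h2 := mul_nonneg hb.le (hy.2 i)
    have h3 : a * l i x = 0 := by linarith
    exact (mul_eq_zero.1 h3).resolve_left ha.ne'⟩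

/-- Every proper face lies in one of the faces `facet i`. -/
theorem proper_le_facet [Fintype ι] (F : Face (Cone M l)) (hF : F ≠ topFace) :
    ∃ i, F ≤ facet M l i := by
  classical
  by_contra hcon
  push Not at hcon
  have h1 : ∀ i, ∃ x ∈ F.1, 0 < l i x := by
    intro i
    have h := hcon i
    by_contra h2
    push Not at h2
    refine h fun x hx => ?_
    have hxK : x ∈ Cone M l := F.2.2.2.1 hx
    exact ⟨hxK, le_antisymm (h2 x hx) (hxK.2 i)⟩
  choose x hx hpos using h1
  set e := ∑ i, x i with he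
  have heF : e ∈ F.1 := face_sum F _ _ fun i _ => hx i
  have heK : e ∈ Cone M l := F.2.2.2.1 heF
  have hepos : ∀ i, 0 < l i e := by
    intro i
    rw [he, map_sum]
    refine Finset.sum_pos' (fun j _ => ?_) ⟨i, Finset.mem_univ i, hpos i⟩
    exact (F.2.2.2.1 (hx j)).2 i
  apply hF
  refine le_antisymm (le_topFace F) ?_
  intro y hy
  have hyK : y ∈ Cone M l := hy
  -- a small multiple of `y` can be subtracted from `e`
  obtain ⟨δ, hδ, hδ2⟩ : ∃ δ : ℝ, 0 < δ ∧ ∀ i, δ * l i y ≤ l i e := by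
    have h2 : ∀ i, ∃ δ : ℝ, 0 < δ ∧ δ * l i y ≤ l i e := by
      intro i
      refine ⟨l i e / (l i y + 1), div_pos (hepos i) (by linarith [hyK.2 i]), ?_⟩
      have h3 : 0 < l i y + 1 := by linarith [hyK.2 i]
      rw [div_mul_eq_mul_div, div_le_iff₀ h3]
      have := hepos i
      have := hyK.2 i
      nlinarith
    choose d hd hd2 using h2
    rcases isEmpty_or_nonempty ι with hι | hι
    · exact ⟨1, one_pos, fun i => hι.elim i⟩
    · refine ⟨Finset.univ.inf' Finset.univ_nonempty d, ?_, fun i => ?_⟩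
      · rw [Finset.lt_inf'_iff]
        exact fun i _ => hd i
      · have h4 : Finset.univ.inf' Finset.univ_nonempty d ≤ d i :=
          Finset.inf'_le _ (Finset.mem_univ i)
        exact (mul_le_mul_of_nonneg_right h4 (hyK.2 i)).trans (hd2 i)
  have h5 : e - δ • y ∈ Cone M l := by
    refine ⟨M.sub_mem heK.1 (M.smul_mem δ hyK.1), fun i => ?_⟩
    rw [map_sub, map_smul, smul_eq_mul]
    linarith [hδ2 i]
  have h6 : δ • y ∈ F.1 := by
    refine face_of_add F (cone_smul hyK hδ.le) h5 ?_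
    rw [add_sub_cancel]
    exact heF
  have h7 := face_smul F h6 (inv_pos.2 hδ).le
  rwa [smul_smul, inv_mul_cancel₀ hδ.ne', one_smul] at h7

/-- an element which is maximal among the elements different from the greatest one -/
def Coatom {α : Type*} [PartialOrder α] (a : α) : Prop :=
  ¬ IsTop a ∧ ∀ b, a ≤ b → ¬ IsTop b → b = a

theorem isTop_iff {F : Face (Cone M l)} : IsTop F ↔ F = topFace :=
  ⟨fun h => le_antisymm (le_topFace F) (h topFace), fun h => h ▸ le_topFace⟩

/-- Every coatom is one of the faces `facet i`. -/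
theorem coatom_eq_facet [Fintype ι] {e : V} (heM : e ∈ M) (he : ∀ i, 0 < l i e)
    {F : Face (Cone M l)} (hF : Coatom F) : ∃ i, F = facet M l i := by
  obtain ⟨i, hi⟩ := proper_le_facet F fun h => hF.1 (isTop_iff.2 h)
  refine ⟨i, (hF.2 _ hi fun h => ?_).symm⟩
  have h2 := isTop_iff.1 h
  have h3 : e ∈ (topFace : Face (Cone M l)).1 := ⟨heM, fun i => (he i).le⟩
  rw [← h2] at h3
  have := h3.2
  have := he i
  linarith

/-- If the `i`-th inequality is irredundant then `facet i` is a coatom. -/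
theorem facet_coatom [Fintype ι] {p : ι → V} (hpM : ∀ i, p i ∈ M) (hp0 : ∀ i, l i (p i) = 0)
    (hp : ∀ i j, j ≠ i → 0 < l j (p i)) {e : V} (heM : e ∈ M) (he : ∀ i, 0 < l i e) (i : ι) :
    Coatom (facet M l i) := by
  have hpK : ∀ i, p i ∈ Cone M l := by
    intro i
    refine ⟨hpM i, fun j => ?_⟩
    by_cases h : j = i
    · rw [h, hp0]
    · exact (hp i j h).le
  constructor
  · intro h
    have h2 := isTop_iff.1 h
    have h3 : e ∈ (topFace : Face (Cone M l)).1 := ⟨heM, fun i => (he i).le⟩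
    rw [← h2] at h3
    have := h3.2
    have := he i
    linarith
  · intro G hG hGt
    obtain ⟨j, hj⟩ := proper_le_facet G fun h => hGt (isTop_iff.2 h)
    have h1 : p i ∈ (facet M l j).1 := hj (hG ⟨hpK i, hp0 i⟩)
    have h2 : j = i := by
      by_contra hne
      have := hp i j hne
      have := h1.2
      linarith
    rw [h2] at hj
    exact le_antisymm hj hG

theorem facet_injective {p : ι → V} (hpM : ∀ i, p i ∈ M) (hp0 : ∀ i, l i (p i) = 0)
    (hp : ∀ i j, j ≠ i → 0 < l j (p i)) : Function.Injective (facet M l) := by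
  intro i j hij
  by_contra hne
  have hpK : p i ∈ Cone M l := by
    refine ⟨hpM i, fun j => ?_⟩
    by_cases h : j = i
    · rw [h, hp0]
    · exact (hp i j h).le
  have h1 : p i ∈ (facet M l i).1 := ⟨hpK, hp0 i⟩
  rw [hij] at h1
  have h2 := h1.2
  have h3 := hp i j (Ne.symm hne)
  linarith

end

theorem coatom_map {α β : Type*} [PartialOrder α] [PartialOrder β] (e : α ≃o β) {a : α}
    (ha : Coatom a) : Coatom (e a) := by
  have hT : ∀ b, IsTop (e b) ↔ IsTop b := by
    intro b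
    constructor
    · intro h c
      have := h (e c)
      rwa [e.le_iff_le] at this
    · intro h c
      have := h (e.symm c)
      rwa [← e.le_iff_le, e.apply_symm_apply] at this
  refine ⟨fun h => ha.1 ((hT a).1 h), fun b hb hbt => ?_⟩
  have h1 : a ≤ e.symm b := by
    rw [← e.le_iff_le, e.apply_symm_apply]
    exact hb
  have h2 := ha.2 (e.symm b) h1 (fun h => hbt (by
    have := (hT (e.symm b)).2 h
    rwa [e.apply_symm_apply] at this))
  rw [← h2, e.apply_symm_apply]

/-- Two cones with different numbers of irredundant inequalities have different face lattices. -/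
theorem not_iso {V₁ V₂ : Type*} [AddCommGroup V₁] [Module ℝ V₁] [AddCommGroup V₂] [Module ℝ V₂]
    {ι₁ ι₂ : Type*} [Fintype ι₁] [Fintype ι₂] {M₁ : Submodule ℝ V₁} {M₂ : Submodule ℝ V₂}
    {l₁ : ι₁ → V₁ →ₗ[ℝ] ℝ} {l₂ : ι₂ → V₂ →ₗ[ℝ] ℝ} {e₁ : V₁} (he₁M : e₁ ∈ M₁)
    (he₁ : ∀ i, 0 < l₁ i e₁) {e₂ : V₂} (he₂M : e₂ ∈ M₂) (he₂ : ∀ i, 0 < l₂ i e₂)
    {p : ι₂ → V₂} (hpM : ∀ i, p i ∈ M₂) (hp0 : ∀ i, l₂ i (p i) = 0)
    (hp : ∀ i j, j ≠ i → 0 < l₂ j (p i)) (hcard : Fintype.card ι₁ < Fintype.card ι₂) :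
    IsEmpty (Face (Cone M₁ l₁) ≃o Face (Cone M₂ l₂)) := by
  refine ⟨fun e => ?_⟩
  have h1 : ∀ i : ι₂, ∃ j : ι₁, e.symm (facet M₂ l₂ i) = facet M₁ l₁ j := fun i =>
    coatom_eq_facet he₁M he₁ (coatom_map e.symm (facet_coatom hpM hp0 hp he₂M he₂ i))
  choose f hf using h1
  have hinj : Function.Injective f := by
    intro i j hij
    have h2 : e.symm (facet M₂ l₂ i) = e.symm (facet M₂ l₂ j) := by rw [hf, hf, hij]
    exact facet_injective hpM hp0 hp (e.symm.injective h2)
  have := Fintype.card_le_of_injective f hinj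
  omega

end Q94.HX
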