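import Pool.Agent.Q94.HXA

/-!
# Triangles with integer vertices in the plane
-/

set_option autoImplicit false

open Set MeasureTheory

namespace Q94.HX

/-- twice the signed area, integer version -/
def oz (a b c : ℤ × ℤ) : ℤ := (b.1 - a.1) * (c.2 - a.2) - (b.2 - a.2) * (c.1 - a.1)

/-- the point of the plane with given integer coordinates -/
def pt (a : ℤ × ℤ) : ℂ := ⟨(a.1 : ℝ), (a.2 : ℝ)⟩

/-- twice the signed area of the triangle `a b z` -/
def L (a b : ℤ × ℤ) (z : ℂ) : ℝ :=
  ((b.1 : ℝ) - a.1) * (z.im - a.2) - ((b.2 : ℝ) - a.2) * (z.re - a.1)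

theorem L_pt (a b c : ℤ × ℤ) : L a b (pt c) = (oz a b c : ℝ) := by
  unfold L pt oz
  push_cast
  ring

theorem L_swap (a b : ℤ × ℤ) (z : ℂ) : L b a z = -L a b z := by
  unfold L
  ring

theorem L_self (a : ℤ × ℤ) (z : ℂ) : L a a z = 0 := by
  unfold L
  ring

theorem L_sum (a b c : ℤ × ℤ) (z : ℂ) : L a b z + L b c z + L c a z = (oz a b c : ℝ) := by
  unfold L oz
  push_cast
  ring

theorem L_comb (a b : ℤ × ℤ) (z w : ℂ) {s t : ℝ} (h : s + t = 1) :
    L a b (s • z + t • w) = s * L a b z + t * L a b w := by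
  unfold L
  simp only [Complex.add_re, Complex.add_im, Complex.smul_re, Complex.smul_im, smul_eq_mul]
  have : t = 1 - s := by linarith
  rw [this]
  ring

theorem L_cont (a b : ℤ × ℤ) : Continuous (L a b) := by
  unfold L
  have h1 := Complex.continuous_re
  have h2 := Complex.continuous_im
  fun_prop

theorem half_convex (a b : ℤ × ℤ) : Convex ℝ {z | 0 ≤ L a b z} := by
  intro z hz w hw s t hs ht hst
  rw [mem_ofPred_eq, L_comb a b z w hst]
  exact add_nonneg (mul_nonneg hs hz) (mul_nonneg ht hw)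

theorem half_convex' (a b : ℤ × ℤ) : Convex ℝ {z | L a b z ≤ 0} := by
  intro z hz w hw s t hs ht hst
  rw [mem_ofPred_eq, L_comb a b z w hst]
  have h1 : s * L a b z ≤ 0 := mul_nonpos_of_nonneg_of_nonpos hs hz
  have h2 : t * L a b w ≤ 0 := mul_nonpos_of_nonneg_of_nonpos ht hw
  linarith

/-- the closed triangle -/
def tri (a b c : ℂ) : Set ℂ := convexHull ℝ {a, b, c}

theorem tri_nonneg {a b c p q : ℤ × ℤ} {z : ℂ} (hz : z ∈ tri (pt a) (pt b) (pt c))
    (ha : 0 ≤ oz p q a) (hb : 0 ≤ oz p q b) (hc : 0 ≤ oz p q c) : 0 ≤ L p q z := by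
  have h : tri (pt a) (pt b) (pt c) ⊆ {z | 0 ≤ L p q z} := by
    refine convexHull_min ?_ (half_convex p q)
    rintro w (rfl | rfl | rfl)
    · rw [mem_ofPred_eq, L_pt]; exact_mod_cast ha
    · rw [mem_ofPred_eq, L_pt]; exact_mod_cast hb
    · rw [mem_ofPred_eq, L_pt]; exact_mod_cast hc
  exact h hz

theorem tri_nonpos {a b c p q : ℤ × ℤ} {z : ℂ} (hz : z ∈ tri (pt a) (pt b) (pt c))
    (ha : oz p q a ≤ 0) (hb : oz p q b ≤ 0) (hc : oz p q c ≤ 0) : L p q z ≤ 0 := by
  have h : tri (pt a) (pt b) (pt c) ⊆ {z | L p q z ≤ 0} := by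
    refine convexHull_min ?_ (half_convex' p q)
    rintro w (rfl | rfl | rfl)
    · rw [mem_ofPred_eq, L_pt]; exact_mod_cast ha
    · rw [mem_ofPred_eq, L_pt]; exact_mod_cast hb
    · rw [mem_ofPred_eq, L_pt]; exact_mod_cast hc
  exact h hz

theorem mem_tri {a b c z : ℂ} {u v w : ℝ} (hu : 0 ≤ u) (hv : 0 ≤ v) (hw : 0 ≤ w)
    (h : u + v + w = 1) (hz : z = u • a + v • b + w • c) : z ∈ tri a b c := by
  have hc := convex_convexHull ℝ ({a, b, c} : Set ℂ)
  have ha : a ∈ convexHull ℝ ({a, b, c} : Set ℂ) := subset_convexHull _ _ (by simp)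
  have hb : b ∈ convexHull ℝ ({a, b, c} : Set ℂ) := subset_convexHull _ _ (by simp)
  have hc' : c ∈ convexHull ℝ ({a, b, c} : Set ℂ) := subset_convexHull _ _ (by simp)
  have := hc.sum_mem (t := Finset.univ) (w := ![u, v, w]) (z := ![a, b, c])
    (by intro i _; fin_cases i <;> simpa)
    (by simp [Fin.sum_univ_three, h])
    (by intro i _; fin_cases i <;> simpa)
  rw [hz]
  unfold tri
  simpa [Fin.sum_univ_three, add_assoc] using this

theorem mem_tri_of_sign {a b c : ℤ × ℤ} {z : ℂ}
    (h : (0 < L a b z ∧ 0 < L b c z ∧ 0 < L c a z) ∨ (L a b z < 0 ∧ L b c z < 0 ∧ L c a z < 0)) :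
    z ∈ tri (pt a) (pt b) (pt c) := by
  have hs := L_sum a b c z
  set D : ℝ := (oz a b c : ℝ) with hD
  have hD0 : D ≠ 0 := by
    rcases h with h | h
    · have : 0 < D := by linarith [h.1, h.2.1, h.2.2]
      exact this.ne'
    · have : D < 0 := by linarith [h.1, h.2.1, h.2.2]
      exact this.ne
  refine mem_tri (u := L b c z / D) (v := L c a z / D) (w := L a b z / D) ?_ ?_ ?_ ?_ ?_
  · rcases h with h | h
    · have : 0 < D := by linarith [h.1, h.2.1, h.2.2]
      exact (div_pos h.2.1 this).le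
    · have : D < 0 := by linarith [h.1, h.2.1, h.2.2]
      exact (div_pos_of_neg_of_neg h.2.1 this).le
  · rcases h with h | h
    · have : 0 < D := by linarith [h.1, h.2.1, h.2.2]
      exact (div_pos h.2.2 this).le
    · have : D < 0 := by linarith [h.1, h.2.1, h.2.2]
      exact (div_pos_of_neg_of_neg h.2.2 this).le
  · rcases h with h | h
    · have : 0 < D := by linarith [h.1, h.2.1, h.2.2]
      exact (div_pos h.1 this).le
    · have : D < 0 := by linarith [h.1, h.2.1, h.2.2]
      exact (div_pos_of_neg_of_neg h.1 this).le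
  · rw [← add_div, ← add_div, div_eq_one_iff_eq hD0]
    linarith
  · have e1 : D * z.re = L b c z * a.1 + L c a z * b.1 + L a b z * c.1 := by
      rw [hD]
      unfold L oz
      push_cast
      ring
    have e2 : D * z.im = L b c z * a.2 + L c a z * b.2 + L a b z * c.2 := by
      rw [hD]
      unfold L oz
      push_cast
      ring
    apply Complex.ext
    · simp only [Complex.add_re, Complex.smul_re, smul_eq_mul, pt]
      field_simp
      linarith
    · simp only [Complex.add_im, Complex.smul_im, smul_eq_mul, pt]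
      field_simp
      linarith

/-- A line is a null set. -/
theorem line_null {a b : ℤ × ℤ} (hab : a ≠ b) : volume {z : ℂ | L a b z = 0} = 0 := by
  set f : ℂ →ₗ[ℝ] ℝ :=
    { toFun := fun z => ((b.1 : ℝ) - a.1) * z.im - ((b.2 : ℝ) - a.2) * z.re
      map_add' := by
        intro x y
        simp only [Complex.add_re, Complex.add_im]
        ring
      map_smul' := by
        intro c x
        simp only [Complex.smul_re, Complex.smul_im, smul_eq_mul, RingHom.id_apply]
        ring } with hf
  have hfL : ∀ z, f (z - pt a) = L a b z := by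
    intro z
    rw [hf]
    unfold L pt
    simp only [LinearMap.coe_mk, AddHom.coe_mk, Complex.sub_re, Complex.sub_im]
  have hset : {z : ℂ | L a b z = 0} = (AffineSubspace.mk' (pt a) (LinearMap.ker f) : Set ℂ) := by
    ext z
    rw [mem_ofPred_eq, SetLike.mem_coe, AffineSubspace.mem_mk', LinearMap.mem_ker, vsub_eq_sub, hfL]
  rw [hset]
  refine Measure.addHaar_affineSubspace _ _ ?_
  intro htop
  have h1 : ∀ z : ℂ, L a b z = 0 := by
    intro z
    have : z ∈ (AffineSubspace.mk' (pt a) (LinearMap.ker f) : Set ℂ) := by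
      rw [htop]
      exact mem_univ z
    rw [← hset] at this
    exact this
  apply hab
  have h2 := h1 (pt a + 1)
  have h3 := h1 (pt a + Complex.I)
  unfold L pt at h2 h3
  simp at h2 h3
  refine Prod.ext ?_ ?_
  · have : (b.1 : ℝ) = a.1 := by linarith
    exact_mod_cast this.symm
  · have : (b.2 : ℝ) = a.2 := by linarith
    exact_mod_cast this.symm

theorem tri_compact (a b c : ℂ) : IsCompact (tri a b c) :=
  (Set.toFinite ({a, b, c} : Set ℂ)).isCompact_convexHull ℝ

theorem tri_fin (a b c : ℂ) : volume (tri a b c) < ⊤ := (tri_compact a b c).measure_lt_top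

theorem tri_meas (a b c : ℂ) : MeasurableSet (tri a b c) :=
  (tri_compact a b c).isClosed.measurableSet

end Q94.HX
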