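import Pool.Agent.Q94.HXB

/-!
# The cells of a convex hexagon with integer vertices
-/

set_option autoImplicit false

open Set MeasureTheory

namespace Q94.HX

/-- the signs of all lines, in terms of the signs of the nine diagonals -/
def sgn (b0 b1 b2 b3 b4 b5 b6 b7 b8 : Bool) (i j : Fin 6) : Bool :=
  [false, true, b0, b1, b2, false,
   false, false, true, b3, b4, b5,
   !b0, false, false, true, b6, b7,
   !b1, !b3, false, false, true, b8,
   !b2, !b4, !b6, false, false, true,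
   true, !b5, !b7, !b8, false, false].getD (i.val * 6 + j.val) false

/-- integer data for a hexagon -/
structure Hex where
  P : Fin 6 → ℤ × ℤ
  certs : List (List (Fin 6 × Fin 6 × ℕ))
  samples : List ((ℤ × ℤ) × List Bool)

/-- a certificate that some open half planes have no common point -/
def certOk (P : Fin 6 → ℤ × ℤ) (c : List (Fin 6 × Fin 6 × ℕ)) : Bool :=
  (!c.isEmpty) && c.all (fun l => decide (0 < l.2.2)) &&
  decide ((c.map fun l => (l.2.2 : ℤ) * ((P l.2.1).1 - (P l.1).1)).sum = 0) &&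
  decide ((c.map fun l => (l.2.2 : ℤ) * ((P l.2.1).2 - (P l.1).2)).sum = 0) &&
  decide ((c.map fun l => (l.2.2 : ℤ) * oz (P l.1) (P l.2.1) (0, 0)).sum ≤ 0)

/-- the signs of the diagonals at an integer point -/
def bits (P : Fin 6 → ℤ × ℤ) (q : ℤ × ℤ) : List Bool :=
  [decide (0 < oz (P 0) (P 2) q), decide (0 < oz (P 0) (P 3) q), decide (0 < oz (P 0) (P 4) q),
   decide (0 < oz (P 1) (P 3) q), decide (0 < oz (P 1) (P 4) q), decide (0 < oz (P 1) (P 5) q),
   decide (0 < oz (P 2) (P 4) q), decide (0 < oz (P 2) (P 5) q), decide (0 < oz (P 3) (P 5) q)]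

/-- the point is in the interior of the hexagon and off all lines -/
def inside (P : Fin 6 → ℤ × ℤ) (q : ℤ × ℤ) : Prop :=
  (∀ e : Fin 6, 0 < oz (P e) (P (e + 1)) q) ∧ ∀ i j : Fin 6, i ≠ j → oz (P i) (P j) q ≠ 0

instance (P : Fin 6 → ℤ × ℤ) (q : ℤ × ℤ) : Decidable (inside P q) := by
  unfold inside
  infer_instance

/-- the finite checks -/
structure HexOk (H : Hex) : Prop where
  conv : ∀ e m : Fin 6, 0 ≤ oz (H.P e) (H.P (e + 1)) (H.P m)
  inj : ∀ i j : Fin 6, i ≠ j → H.P i ≠ H.P j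
  cert : H.certs.all (certOk H.P) = true
  samp : ∀ s ∈ H.samples, inside H.P s.1 ∧ s.2 = bits H.P s.1
  cover : ∀ b0 b1 b2 b3 b4 b5 b6 b7 b8 : Bool,
    (H.certs.any (fun c => c.all fun l => sgn b0 b1 b2 b3 b4 b5 b6 b7 b8 l.1 l.2.1) ||
      H.samples.any (fun s => s.2 == [b0, b1, b2, b3, b4, b5, b6, b7, b8])) = true

theorem L_eq (a b : ℤ × ℤ) (z : ℂ) :
    L a b z = (oz a b (0, 0) : ℝ) + ((b.1 - a.1 : ℤ) : ℝ) * z.im - ((b.2 - a.2 : ℤ) : ℝ) * z.re := by
  unfold L oz
  push_cast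
  ring

theorem cert_sum (P : Fin 6 → ℤ × ℤ) (c : List (Fin 6 × Fin 6 × ℕ)) (z : ℂ) :
    (c.map fun l => (l.2.2 : ℝ) * L (P l.1) (P l.2.1) z).sum
      = (((c.map fun l => (l.2.2 : ℤ) * oz (P l.1) (P l.2.1) (0, 0)).sum : ℤ) : ℝ)
        + (((c.map fun l => (l.2.2 : ℤ) * ((P l.2.1).1 - (P l.1).1)).sum : ℤ) : ℝ) * z.im
        - (((c.map fun l => (l.2.2 : ℤ) * ((P l.2.1).2 - (P l.1).2)).sum : ℤ) : ℝ) * z.re := by
  induction c with
  | nil => simp
  | cons l c ih =>
    rw [List.map_cons, List.sum_cons, List.map_cons, List.sum_cons, List.map_cons, List.sum_cons,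
      List.map_cons, List.sum_cons, ih, L_eq]
    push_cast
    ring

theorem cert_false {P : Fin 6 → ℤ × ℤ} {c : List (Fin 6 × Fin 6 × ℕ)} (hc : certOk P c = true)
    (z : ℂ) (h : ∀ l ∈ c, 0 < L (P l.1) (P l.2.1) z) : False := by
  unfold certOk at hc
  simp only [Bool.and_eq_true, decide_eq_true_eq, Bool.not_eq_true', List.all_eq_true,
    List.isEmpty_eq_false_iff] at hc
  obtain ⟨⟨⟨⟨hne, hw⟩, h1⟩, h2⟩, h3⟩ := hc
  have hs := cert_sum P c z
  rw [h1, h2] at hs
  have h3' : (((c.map fun l => (l.2.2 : ℤ) * oz (P l.1) (P l.2.1) (0, 0)).sum : ℤ) : ℝ) ≤ 0 := by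
    exact_mod_cast h3
  have hpos : 0 < (c.map fun l => (l.2.2 : ℝ) * L (P l.1) (P l.2.1) z).sum := by
    refine List.sum_pos _ ?_ ?_
    · intro x hx
      rw [List.mem_map] at hx
      obtain ⟨l, hl, rfl⟩ := hx
      exact mul_pos (by exact_mod_cast hw l hl) (h l hl)
    · intro hcon
      rw [List.map_eq_nil_iff] at hcon
      exact hne hcon
  rw [hs, Int.cast_zero, zero_mul, zero_mul] at hpos
  linarith

/-- the cell of a sample point -/
def cell (P : Fin 6 → ℤ × ℤ) (q : ℤ × ℤ) : Set ℂ :=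
  {z | ∀ i j : Fin 6, 0 < oz (P i) (P j) q → 0 < L (P i) (P j) z}

/-- the triangle with three given vertices contains the cell of `q` -/
def In (P : Fin 6 → ℤ × ℤ) (i j k : Fin 6) (q : ℤ × ℤ) : Bool :=
  (decide (0 < oz (P i) (P j) q) && decide (0 < oz (P j) (P k) q)
    && decide (0 < oz (P k) (P i) q)) ||
  (decide (0 < oz (P j) (P i) q) && decide (0 < oz (P k) (P j) q)
    && decide (0 < oz (P i) (P k) q))

theorem cell_open (P : Fin 6 → ℤ × ℤ) (q : ℤ × ℤ) : IsOpen (cell P q) := by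
  have : cell P q = ⋂ i : Fin 6, ⋂ j : Fin 6, ⋂ _ : 0 < oz (P i) (P j) q,
      {z | 0 < L (P i) (P j) z} := by
    ext z
    simp [cell]
  rw [this]
  refine isOpen_iInter_of_finite fun i => isOpen_iInter_of_finite fun j =>
    isOpen_iInter_of_finite fun _ => ?_
  exact isOpen_lt continuous_const (L_cont _ _)

theorem pt_mem_cell (P : Fin 6 → ℤ × ℤ) (q : ℤ × ℤ) : pt q ∈ cell P q := by
  intro i j h
  rw [L_pt]
  exact_mod_cast h

theorem cell_pos (P : Fin 6 → ℤ × ℤ) (q : ℤ × ℤ) : 0 < volume (cell P q) :=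
  (cell_open P q).measure_pos volume ⟨_, pt_mem_cell P q⟩

theorem oz_swap (a b c : ℤ × ℤ) : oz b a c = -oz a b c := by
  unfold oz
  ring

theorem cell_ne {P : Fin 6 → ℤ × ℤ} {q : ℤ × ℤ} (hq : ∀ i j : Fin 6, i ≠ j → oz (P i) (P j) q ≠ 0)
    {z : ℂ} (hz : z ∈ cell P q) {i j : Fin 6} (hij : i ≠ j) : L (P i) (P j) z ≠ 0 := by
  rcases lt_or_gt_of_ne (hq i j hij) with h | h
  · have h2 : 0 < oz (P j) (P i) q := by rw [oz_swap]; omega
    have := hz j i h2
    rw [L_swap] at this
    exact (by linarith : L (P i) (P j) z < 0).ne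
  · exact (hz i j h).ne'

theorem cell_sign {P : Fin 6 → ℤ × ℤ} {q : ℤ × ℤ}
    (hq : ∀ i j : Fin 6, i ≠ j → oz (P i) (P j) q ≠ 0)
    {z : ℂ} (hz : z ∈ cell P q) {i j : Fin 6} (hij : i ≠ j) (h : 0 < L (P i) (P j) z) :
    0 < oz (P i) (P j) q := by
  rcases lt_or_gt_of_ne (hq i j hij) with h1 | h1
  · have h2 : 0 < oz (P j) (P i) q := by rw [oz_swap]; omega
    have := hz j i h2
    rw [L_swap] at this
    linarith
  · exact h1

theorem cell_sub {P : Fin 6 → ℤ × ℤ} {q : ℤ × ℤ} {i j k : Fin 6} (h : In P i j k q = true) :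
    cell P q ⊆ tri (pt (P i)) (pt (P j)) (pt (P k)) := by
  intro z hz
  refine mem_tri_of_sign ?_
  unfold In at h
  simp only [Bool.or_eq_true, Bool.and_eq_true, decide_eq_true_eq] at h
  rcases h with ⟨⟨h1, h2⟩, h3⟩ | ⟨⟨h1, h2⟩, h3⟩
  · exact Or.inl ⟨hz _ _ h1, hz _ _ h2, hz _ _ h3⟩
  · right
    have e1 := hz _ _ h1
    have e2 := hz _ _ h2
    have e3 := hz _ _ h3
    rw [L_swap] at e1 e2 e3
    exact ⟨by linarith, by linarith, by linarith⟩

theorem oz_self_left (a b : ℤ × ℤ) : oz a b a = 0 := by unfold oz; ring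
theorem oz_self_right (a b : ℤ × ℤ) : oz a b b = 0 := by unfold oz; ring
theorem oz_same (a b : ℤ × ℤ) : oz a a b = 0 := by unfold oz; ring
theorem oz_rot (a b c : ℤ × ℤ) : oz b c a = oz a b c := by unfold oz; ring

theorem cell_disj {P : Fin 6 → ℤ × ℤ} {q : ℤ × ℤ}
    (hq : ∀ i j : Fin 6, i ≠ j → oz (P i) (P j) q ≠ 0) {i j k : Fin 6}
    (h : In P i j k q = false) : Disjoint (cell P q) (tri (pt (P i)) (pt (P j)) (pt (P k))) := by
  rw [Set.disjoint_left]
  intro z hz ht
  unfold In at h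
  simp only [Bool.or_eq_false_iff, Bool.and_eq_false_iff, decide_eq_false_iff_not] at h
  obtain ⟨h1, h2⟩ := h
  have hr : oz (P k) (P i) (P j) = oz (P i) (P j) (P k) := by rw [oz_rot, oz_rot]
  have key : ∀ a b : Fin 6, a ≠ b → oz (P a) (P b) (P i) = 0 → oz (P a) (P b) (P j) = 0 →
      oz (P a) (P b) (P k) = 0 → False := by
    intro a b hab e1 e2 e3
    have u1 := tri_nonneg ht e1.ge e2.ge e3.ge
    have u2 := tri_nonpos ht e1.le e2.le e3.le
    exact cell_ne hq hz hab (le_antisymm u2 u1)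
  rcases lt_trichotomy (oz (P i) (P j) (P k)) 0 with hD | hD | hD
  · have hij : i ≠ j := by
      rintro rfl
      rw [oz_same] at hD
      exact lt_irrefl _ hD
    have hjk : j ≠ k := by
      rintro rfl
      rw [oz_self_right] at hD
      exact lt_irrefl _ hD
    have hki : k ≠ i := by
      rintro rfl
      rw [oz_self_left] at hD
      exact lt_irrefl _ hD
    have a1 : L (P i) (P j) z ≤ 0 := tri_nonpos ht (oz_self_left _ _).le (oz_self_right _ _).le
      hD.le
    have a2 : L (P j) (P k) z ≤ 0 := tri_nonpos ht (by rw [oz_rot]; exact hD.le)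
      (oz_self_left _ _).le (oz_self_right _ _).le
    have a3 : L (P k) (P i) z ≤ 0 := tri_nonpos ht (oz_self_right _ _).le (by rw [hr]; exact hD.le)
      (oz_self_left _ _).le
    have b1 : 0 < L (P j) (P i) z := by
      rw [L_swap]
      have := lt_of_le_of_ne a1 (cell_ne hq hz hij)
      linarith
    have b2 : 0 < L (P k) (P j) z := by
      rw [L_swap]
      have := lt_of_le_of_ne a2 (cell_ne hq hz hjk)
      linarith
    have b3 : 0 < L (P i) (P k) z := by
      rw [L_swap]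
      have := lt_of_le_of_ne a3 (cell_ne hq hz hki)
      linarith
    have c1 := cell_sign hq hz hij.symm b1
    have c2 := cell_sign hq hz hjk.symm b2
    have c3 := cell_sign hq hz hki.symm b3
    rcases h2 with (h2 | h2) | h2
    · exact h2 c1
    · exact h2 c2
    · exact h2 c3
  · by_cases hij : i = j
    · subst hij
      by_cases hik : i = k
      · subst hik
        obtain ⟨m, hm⟩ : ∃ m : Fin 6, i ≠ m := ⟨i + 1, by
          intro h
          have : (1 : Fin 6) = 0 := by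
            have h3 : i + 0 = i + 1 := by rw [add_zero]; exact h
            exact (add_left_cancel h3).symm
          exact absurd this (by decide)⟩
        exact key i m hm (oz_self_left _ _) (oz_self_left _ _) (oz_self_left _ _)
      · exact key i k hik (oz_self_left _ _) (oz_self_left _ _) (oz_self_right _ _)
    · exact key i j hij (oz_self_left _ _) (oz_self_right _ _) hD
  · have hij : i ≠ j := by
      rintro rfl
      rw [oz_same] at hD
      exact lt_irrefl _ hD
    have hjk : j ≠ k := by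
      rintro rfl
      rw [oz_self_right] at hD
      exact lt_irrefl _ hD
    have hki : k ≠ i := by
      rintro rfl
      rw [oz_self_left] at hD
      exact lt_irrefl _ hD
    have a1 : 0 ≤ L (P i) (P j) z := tri_nonneg ht (oz_self_left _ _).ge (oz_self_right _ _).ge
      hD.le
    have a2 : 0 ≤ L (P j) (P k) z := tri_nonneg ht (by rw [oz_rot]; exact hD.le)
      (oz_self_left _ _).ge (oz_self_right _ _).ge
    have a3 : 0 ≤ L (P k) (P i) z := tri_nonneg ht (oz_self_right _ _).ge (by rw [hr]; exact hD.le)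
      (oz_self_left _ _).ge
    have c1 := cell_sign hq hz hij (lt_of_le_of_ne a1 (cell_ne hq hz hij).symm)
    have c2 := cell_sign hq hz hjk (lt_of_le_of_ne a2 (cell_ne hq hz hjk).symm)
    have c3 := cell_sign hq hz hki (lt_of_le_of_ne a3 (cell_ne hq hz hki).symm)
    rcases h1 with (h1 | h1) | h1
    · exact h1 c1
    · exact h1 c2
    · exact h1 c3

/-- The sign table is correct at a point of the interior of the hexagon off the lines. -/
theorem sgn_eq {P : Fin 6 → ℤ × ℤ} {z : ℂ} (hE : ∀ e : Fin 6, 0 < L (P e) (P (e + 1)) z)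
    (hz : ∀ i j : Fin 6, i ≠ j → L (P i) (P j) z ≠ 0)
    {b0 b1 b2 b3 b4 b5 b6 b7 b8 : Bool}
    (h0 : b0 = true ↔ 0 < L (P 0) (P 2) z) (h1 : b1 = true ↔ 0 < L (P 0) (P 3) z)
    (h2 : b2 = true ↔ 0 < L (P 0) (P 4) z) (h3 : b3 = true ↔ 0 < L (P 1) (P 3) z)
    (h4 : b4 = true ↔ 0 < L (P 1) (P 4) z) (h5 : b5 = true ↔ 0 < L (P 1) (P 5) z)
    (h6 : b6 = true ↔ 0 < L (P 2) (P 4) z) (h7 : b7 = true ↔ 0 < L (P 2) (P 5) z)
    (h8 : b8 = true ↔ 0 < L (P 3) (P 5) z) (i j : Fin 6) :
    sgn b0 b1 b2 b3 b4 b5 b6 b7 b8 i j = true ↔ 0 < L (P i) (P j) z := by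
  have hrev : ∀ {b : Bool} {i j : Fin 6}, i ≠ j → (b = true ↔ 0 < L (P i) (P j) z) →
      ((!b) = true ↔ 0 < L (P j) (P i) z) := by
    intro b i j hij h
    rw [Bool.not_eq_true', L_swap, Left.neg_pos_iff]
    constructor
    · intro hb
      rcases lt_or_gt_of_ne (hz i j hij) with h' | h'
      · exact h'
      · rw [h.2 h'] at hb
        exact absurd hb (by decide)
    · intro hL
      by_contra hb
      rw [Bool.not_eq_false] at hb
      have := h.1 hb
      linarith
  have hdiag : ∀ i : Fin 6, (false = true ↔ 0 < L (P i) (P i) z) := by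
    intro i
    rw [L_self]
    simp
  have hfw : ∀ e : Fin 6, (true = true ↔ 0 < L (P e) (P (e + 1)) z) := fun e =>
    ⟨fun _ => hE e, fun _ => rfl⟩
  have hbw : ∀ e : Fin 6, (false = true ↔ 0 < L (P (e + 1)) (P e) z) := by
    intro e
    rw [L_swap]
    have := hE e
    constructor
    · intro h; exact absurd h (by decide)
    · intro h; linarith
  fin_cases i <;> fin_cases j
  · exact hdiag 0
  · exact hfw 0
  · exact h0
  · exact h1
  · exact h2
  · exact hbw 5
  · exact hbw 0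
  · exact hdiag 1
  · exact hfw 1
  · exact h3
  · exact h4
  · exact h5
  · exact hrev (by decide) h0
  · exact hbw 1
  · exact hdiag 2
  · exact hfw 2
  · exact h6
  · exact h7
  · exact hrev (by decide) h1
  · exact hrev (by decide) h3
  · exact hbw 2
  · exact hdiag 3
  · exact hfw 3
  · exact h8
  · exact hrev (by decide) h2
  · exact hrev (by decide) h4
  · exact hrev (by decide) h6
  · exact hbw 3
  · exact hdiag 4
  · exact hfw 4
  · exact hfw 5
  · exact hrev (by decide) h5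
  · exact hrev (by decide) h7
  · exact hrev (by decide) h8
  · exact hbw 4
  · exact hdiag 5

/-- Every point of the interior off the lines lies in the cell of a sample point. -/
theorem exists_cell {H : Hex} (hH : HexOk H) {z : ℂ}
    (hE : ∀ e : Fin 6, 0 < L (H.P e) (H.P (e + 1)) z)
    (hz : ∀ i j : Fin 6, i ≠ j → L (H.P i) (H.P j) z ≠ 0) :
    ∃ s ∈ H.samples, z ∈ cell H.P s.1 := by
  classical
  have hs := fun i j => sgn_eq (P := H.P) (z := z) hE hz
    (b0 := decide (0 < L (H.P 0) (H.P 2) z)) (b1 := decide (0 < L (H.P 0) (H.P 3) z))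
    (b2 := decide (0 < L (H.P 0) (H.P 4) z)) (b3 := decide (0 < L (H.P 1) (H.P 3) z))
    (b4 := decide (0 < L (H.P 1) (H.P 4) z)) (b5 := decide (0 < L (H.P 1) (H.P 5) z))
    (b6 := decide (0 < L (H.P 2) (H.P 4) z)) (b7 := decide (0 < L (H.P 2) (H.P 5) z))
    (b8 := decide (0 < L (H.P 3) (H.P 5) z))
    decide_eq_true_iff decide_eq_true_iff decide_eq_true_iff decide_eq_true_iff
    decide_eq_true_iff decide_eq_true_iff decide_eq_true_iff decide_eq_true_iff
    decide_eq_true_iff i j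
  have hc := hH.cover (decide (0 < L (H.P 0) (H.P 2) z)) (decide (0 < L (H.P 0) (H.P 3) z))
    (decide (0 < L (H.P 0) (H.P 4) z)) (decide (0 < L (H.P 1) (H.P 3) z))
    (decide (0 < L (H.P 1) (H.P 4) z)) (decide (0 < L (H.P 1) (H.P 5) z))
    (decide (0 < L (H.P 2) (H.P 4) z)) (decide (0 < L (H.P 2) (H.P 5) z))
    (decide (0 < L (H.P 3) (H.P 5) z))
  rw [Bool.or_eq_true, List.any_eq_true, List.any_eq_true] at hc
  rcases hc with ⟨c, hcm, hc⟩ | ⟨s, hsm, hse⟩
  · exfalso
    rw [List.all_eq_true] at hc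
    have hok := List.all_eq_true.1 hH.cert c hcm
    exact cert_false hok z fun l hl => (hs _ _).1 (hc l hl)
  · refine ⟨s, hsm, ?_⟩
    obtain ⟨hin, hb⟩ := hH.samp s hsm
    have he : s.2 = _ := eq_of_beq hse
    rw [hb] at he
    unfold bits at he
    simp only [List.cons.injEq, and_true, decide_eq_decide] at he
    obtain ⟨e0, e1, e2, e3, e4, e5, e6, e7, e8⟩ := he
    have hE' : ∀ e : Fin 6, 0 < L (H.P e) (H.P (e + 1)) (pt s.1) := by
      intro e
      rw [L_pt]
      exact_mod_cast hin.1 e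
    have hz' : ∀ i j : Fin 6, i ≠ j → L (H.P i) (H.P j) (pt s.1) ≠ 0 := by
      intro i j hij
      rw [L_pt]
      exact_mod_cast hin.2 i j hij
    have tr : ∀ {i j : Fin 6}, (0 < oz (H.P i) (H.P j) s.1 ↔ 0 < L (H.P i) (H.P j) z) →
        (decide (0 < L (H.P i) (H.P j) z) = true ↔ 0 < L (H.P i) (H.P j) (pt s.1)) := by
      intro i j h
      rw [decide_eq_true_iff, ← h, L_pt]
      exact_mod_cast Iff.rfl
    have hs' := fun i j => sgn_eq (P := H.P) (z := pt s.1) hE' hz' (tr e0) (tr e1) (tr e2) (tr e3)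
      (tr e4) (tr e5) (tr e6) (tr e7) (tr e8) i j
    intro i j hij
    rw [← hs i j, hs' i j, L_pt]
    exact_mod_cast hij

end Q94.HX
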