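import Pool.Agent.Q94.HXC

/-!
# The cone of non-negative polygonal measures of a hexagon
-/

set_option autoImplicit false

open Set MeasureTheory

namespace Q94.HX

instance tri_isFinite (a b c : ℂ) : IsFiniteMeasure (volume.restrict (tri a b c)) :=
  ⟨by rw [Measure.restrict_apply_univ]; exact tri_fin a b c⟩

/-- the standard measure of a closed triangle -/
noncomputable def muTri (a b c : ℂ) : SignedMeasure ℂ :=
  (volume.restrict (tri a b c)).toSignedMeasure

/-- the real span of the standard measures of the triangles with vertices in `S` -/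
noncomputable def MR (S : Set ℂ) : Submodule ℝ (SignedMeasure ℂ) :=
  Submodule.span ℝ {μ | ∃ a ∈ S, ∃ b ∈ S, ∃ c ∈ S, μ = muTri a b c}

/-- the cone of non-negative measures in the span -/
noncomputable def Kpos (S : Set ℂ) : Set (SignedMeasure ℂ) := {μ | μ ∈ MR S ∧ 0 ≤ μ}

theorem muTri_apply (a b c : ℂ) {A : Set ℂ} (hA : MeasurableSet A) :
    muTri a b c A = (volume (A ∩ tri a b c)).toReal := by
  unfold muTri
  rw [Measure.toSignedMeasure_apply_measurable hA, Measure.real, Measure.restrict_apply hA]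

/-- evaluation at a set -/
noncomputable def evl (A : Set ℂ) : SignedMeasure ℂ →ₗ[ℝ] ℝ where
  toFun := fun μ => μ A
  map_add' := fun μ ν => by
    rw [_root_.add_apply]
  map_smul' := fun c μ => by
    rw [_root_.smul_apply]
    rfl

theorem evl_apply (A : Set ℂ) (μ : SignedMeasure ℂ) : evl A μ = μ A := rfl

/-- the vertex set of the hexagon -/
def vert (H : Hex) : Set ℂ := range fun i : Fin 6 => pt (H.P i)

/-- the sample points -/
def smp (H : Hex) (i : Fin H.samples.length) : ℤ × ℤ := (H.samples.get i).1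

/-- further finite checks -/
structure HexOk2 (H : Hex) : Prop extends HexOk H where
  nodup : (H.samples.map Prod.snd).Nodup
  covered : ∀ s ∈ H.samples, ∃ k : Fin 6, In H.P 0 k (k + 1) s.1 = true

variable {H : Hex}

theorem smp_mem (i : Fin H.samples.length) : H.samples.get i ∈ H.samples := List.get_mem _ _

theorem smp_off (hH : HexOk2 H) (i : Fin H.samples.length) :
    ∀ a b : Fin 6, a ≠ b → oz (H.P a) (H.P b) (smp H i) ≠ 0 :=
  (hH.samp _ (smp_mem i)).1.2

theorem cells_disj (hH : HexOk2 H) {i j : Fin H.samples.length} (hij : i ≠ j) :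
    Disjoint (cell H.P (smp H i)) (cell H.P (smp H j)) := by
  rw [Set.disjoint_left]
  intro z hzi hzj
  apply hij
  have h1 : ∀ a b : Fin 6, (0 < oz (H.P a) (H.P b) (smp H i)
      ↔ 0 < oz (H.P a) (H.P b) (smp H j)) := by
    intro a b
    by_cases hab : a = b
    · rw [hab, oz_same, oz_same]
    · exact ⟨fun h => cell_sign (smp_off hH j) hzj hab (hzi _ _ h),
        fun h => cell_sign (smp_off hH i) hzi hab (hzj _ _ h)⟩
  have h2 : bits H.P (smp H i) = bits H.P (smp H j) := by
    unfold bits
    simp only [h1]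
  have h3 : (H.samples.get i).2 = (H.samples.get j).2 := by
    rw [(hH.samp _ (smp_mem i)).2, (hH.samp _ (smp_mem j)).2]
    exact h2
  have h4 := hH.nodup
  rw [List.nodup_iff_injective_get] at h4
  have h5 : (H.samples.map Prod.snd).get (Fin.cast (by rw [List.length_map]) i)
      = (H.samples.map Prod.snd).get (Fin.cast (by rw [List.length_map]) j) := by
    simpa using h3
  have h6 := h4 h5
  exact Fin.cast_injective _ h6

theorem cell_meas (P : Fin 6 → ℤ × ℤ) (q : ℤ × ℤ) : MeasurableSet (cell P q) :=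
  (cell_open P q).measurableSet

theorem cell_fin (hH : HexOk2 H) (i : Fin H.samples.length) :
    volume (cell H.P (smp H i)) < ⊤ := by
  obtain ⟨k, hk⟩ := hH.covered _ (smp_mem i)
  exact lt_of_le_of_lt (measure_mono (cell_sub hk)) (tri_fin _ _ _)

theorem cell_real_pos (hH : HexOk2 H) (i : Fin H.samples.length) :
    0 < (volume (cell H.P (smp H i))).toReal :=
  ENNReal.toReal_pos (cell_pos _ _).ne' (cell_fin hH i).ne

/-- the union of all lines is a null set -/
theorem lines_null (hH : HexOk H) :
    volume (⋃ i : Fin 6, ⋃ j : Fin 6, ⋃ _ : i ≠ j, {z : ℂ | L (H.P i) (H.P j) z = 0}) = 0 := by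
  refine measure_iUnion_null fun i => measure_iUnion_null fun j => measure_iUnion_null fun hij => ?_
  exact line_null (hH.inj i j hij)

/-- Almost every point of a triangle lies in some cell. -/
theorem tri_ae (hH : HexOk2 H) (a b c : Fin 6) :
    volume (tri (pt (H.P a)) (pt (H.P b)) (pt (H.P c))
      \ ⋃ i : Fin H.samples.length, cell H.P (smp H i)) = 0 := by
  refine measure_mono_null ?_ (lines_null hH.toHexOk)
  rintro z ⟨hz, hzn⟩
  by_contra hcon
  apply hzn
  have hoff : ∀ i j : Fin 6, i ≠ j → L (H.P i) (H.P j) z ≠ 0 := by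
    intro i j hij h0
    apply hcon
    simp only [mem_iUnion]
    exact ⟨i, j, hij, h0⟩
  have hE : ∀ e : Fin 6, 0 < L (H.P e) (H.P (e + 1)) z := by
    intro e
    have h1 : 0 ≤ L (H.P e) (H.P (e + 1)) z :=
      tri_nonneg hz (hH.conv e a) (hH.conv e b) (hH.conv e c)
    have h2 : e ≠ e + 1 := by
      intro h
      have h3 : e + 0 = e + 1 := by rw [add_zero]; exact h
      exact absurd (add_left_cancel h3) (by decide)
    exact lt_of_le_of_ne h1 (hoff _ _ h2).symm
  obtain ⟨s, hs, hzs⟩ := exists_cell hH.toHexOk hE hoff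
  obtain ⟨i, hi⟩ := List.get_of_mem hs
  rw [mem_iUnion]
  refine ⟨i, ?_⟩
  unfold smp
  rw [hi]
  exact hzs

theorem muTri_cell (hH : HexOk2 H) (a b c : Fin 6) (i : Fin H.samples.length) :
    muTri (pt (H.P a)) (pt (H.P b)) (pt (H.P c)) (cell H.P (smp H i))
      = if In H.P a b c (smp H i) = true then (volume (cell H.P (smp H i))).toReal else 0 := by
  rw [muTri_apply _ _ _ (cell_meas _ _)]
  split
  · rename_i h
    rw [inter_eq_left.2 (cell_sub h)]
  · rename_i h
    rw [Bool.not_eq_true] at h
    rw [(cell_disj (smp_off hH i) h).inter_eq, measure_empty, ENNReal.toReal_zero]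

theorem muTri_formula (hH : HexOk2 H) (a b c : Fin 6) {A : Set ℂ} (hA : MeasurableSet A) :
    muTri (pt (H.P a)) (pt (H.P b)) (pt (H.P c)) A
      = ∑ i : Fin H.samples.length, (volume (A ∩ cell H.P (smp H i))).toReal
          / (volume (cell H.P (smp H i))).toReal
          * muTri (pt (H.P a)) (pt (H.P b)) (pt (H.P c)) (cell H.P (smp H i)) := by
  set T := tri (pt (H.P a)) (pt (H.P b)) (pt (H.P c)) with hT
  have hTm : MeasurableSet T := tri_meas _ _ _
  have hTf : volume T < ⊤ := tri_fin _ _ _
  have h1 : volume (A ∩ T) = ∑ i : Fin H.samples.length, volume ((A ∩ T) ∩ cell H.P (smp H i)) := by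
    have e1 : volume (A ∩ T) = volume ((A ∩ T) ∩ ⋃ i, cell H.P (smp H i)) := by
      refine le_antisymm ?_ (measure_mono inter_subset_left)
      have : A ∩ T ⊆ ((A ∩ T) ∩ ⋃ i, cell H.P (smp H i)) ∪ (T \ ⋃ i, cell H.P (smp H i)) := by
        rintro z ⟨hzA, hzT⟩
        by_cases hz : z ∈ ⋃ i, cell H.P (smp H i)
        · exact Or.inl ⟨⟨hzA, hzT⟩, hz⟩
        · exact Or.inr ⟨hzT, hz⟩
      refine (measure_mono this).trans ((measure_union_le _ _).trans ?_)
      rw [tri_ae hH a b c, add_zero]
    rw [e1, inter_iUnion, measure_iUnion, tsum_fintype]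
    · intro i j hij
      exact (cells_disj hH hij).mono inter_subset_right inter_subset_right
    · intro i
      exact (hA.inter hTm).inter (cell_meas _ _)
  rw [muTri_apply _ _ _ hA, ← hT, h1, ENNReal.toReal_sum]
  · refine Finset.sum_congr rfl fun i _ => ?_
    rw [muTri_cell hH]
    split
    · rename_i h
      rw [div_mul_cancel₀ _ (cell_real_pos hH i).ne']
      congr 2
      ext z
      constructor
      · rintro ⟨⟨h1, _⟩, h2⟩
        exact ⟨h1, h2⟩
      · rintro ⟨h1, h2⟩
        exact ⟨⟨h1, cell_sub h h2⟩, h2⟩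
    · rename_i h
      rw [Bool.not_eq_true] at h
      rw [mul_zero]
      have : (A ∩ T) ∩ cell H.P (smp H i) = ∅ := by
        ext z
        simp only [mem_inter_iff, mem_empty_iff_false, iff_false, not_and]
        intro h2 h3
        exact (Set.disjoint_left.1 (cell_disj (smp_off hH i) h)) h3 h2.2
      rw [this, measure_empty, ENNReal.toReal_zero]
  · intro i _
    exact (lt_of_le_of_lt (measure_mono (inter_subset_left.trans inter_subset_right)) hTf).ne

theorem formula (hH : HexOk2 H) {μ : SignedMeasure ℂ} (hμ : μ ∈ MR (vert H)) {A : Set ℂ}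
    (hA : MeasurableSet A) :
    μ A = ∑ i : Fin H.samples.length, (volume (A ∩ cell H.P (smp H i))).toReal
          / (volume (cell H.P (smp H i))).toReal * μ (cell H.P (smp H i)) := by
  unfold MR at hμ
  induction hμ using Submodule.span_induction with
  | mem x hx =>
    obtain ⟨_, ⟨a, rfl⟩, _, ⟨b, rfl⟩, _, ⟨c, rfl⟩, rfl⟩ := hx
    exact muTri_formula hH a b c hA
  | zero => simp
  | add x y _ _ hx hy =>
    rw [_root_.add_apply, hx, hy, ← Finset.sum_add_distrib]
    refine Finset.sum_congr rfl fun i _ => ?_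
    rw [_root_.add_apply]
    ring
  | smul c x _ hx =>
    rw [_root_.smul_apply, hx, smul_eq_mul, Finset.mul_sum]
    refine Finset.sum_congr rfl fun i _ => ?_
    rw [_root_.smul_apply, smul_eq_mul]
    ring

theorem kpos_eq (hH : HexOk2 H) :
    Kpos (vert H) = Cone (MR (vert H)) fun i : Fin H.samples.length => evl (cell H.P (smp H i)) := by
  ext μ
  constructor
  · rintro ⟨h1, h2⟩
    refine ⟨h1, fun i => ?_⟩
    have := VectorMeasure.le_iff.1 h2 _ (cell_meas H.P (smp H i))
    simpa [evl_apply] using this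
  · rintro ⟨h1, h2⟩
    refine ⟨h1, ?_⟩
    rw [VectorMeasure.le_iff]
    intro A hA
    rw [formula hH h1 hA]
    have : (0 : SignedMeasure ℂ) A = 0 := by simp
    rw [this]
    refine Finset.sum_nonneg fun i _ => ?_
    exact mul_nonneg (div_nonneg ENNReal.toReal_nonneg ENNReal.toReal_nonneg) (h2 i)

theorem muTri_mem (a b c : Fin 6) :
    muTri (pt (H.P a)) (pt (H.P b)) (pt (H.P c)) ∈ MR (vert H) :=
  Submodule.subset_span ⟨_, ⟨a, rfl⟩, _, ⟨b, rfl⟩, _, ⟨c, rfl⟩, rfl⟩

/-- the sum of the triangles of a fan -/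
noncomputable def fan (H : Hex) : SignedMeasure ℂ :=
  ∑ k : Fin 6, muTri (pt (H.P 0)) (pt (H.P k)) (pt (H.P (k + 1)))

theorem fan_mem : fan H ∈ MR (vert H) := Submodule.sum_mem _ fun _ _ => muTri_mem _ _ _

theorem fan_pos (hH : HexOk2 H) (i : Fin H.samples.length) :
    0 < evl (cell H.P (smp H i)) (fan H) := by
  unfold fan
  rw [map_sum]
  obtain ⟨k, hk⟩ := hH.covered _ (smp_mem i)
  refine Finset.sum_pos' (fun j _ => ?_) ⟨k, Finset.mem_univ k, ?_⟩
  · rw [evl_apply, muTri_cell hH]
    split
    · exact ENNReal.toReal_nonneg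
    · exact le_rfl
  · rw [evl_apply, muTri_cell hH, if_pos (show In H.P 0 k (k + 1) (smp H i) = true from hk)]
    exact cell_real_pos hH i

/-- an integer combination of triangles with vertex `0` -/
noncomputable def comb (H : Hex) (c : List (Fin 6 × Fin 6 × ℤ)) : SignedMeasure ℂ :=
  (c.map fun t => (t.2.2 : ℝ) • muTri (pt (H.P 0)) (pt (H.P t.1)) (pt (H.P t.2.1))).sum

/-- its density at a sample point -/
def dens (H : Hex) (c : List (Fin 6 × Fin 6 × ℤ)) (q : ℤ × ℤ) : ℤ :=
  (c.map fun t => if In H.P 0 t.1 t.2.1 q = true then t.2.2 else 0).sum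

theorem comb_mem (c : List (Fin 6 × Fin 6 × ℤ)) : comb H c ∈ MR (vert H) := by
  unfold comb
  induction c with
  | nil => simp
  | cons t c ih =>
    rw [List.map_cons, List.sum_cons]
    exact Submodule.add_mem _ (Submodule.smul_mem _ _ (muTri_mem _ _ _)) ih

theorem evl_comb (hH : HexOk2 H) (c : List (Fin 6 × Fin 6 × ℤ)) (i : Fin H.samples.length) :
    evl (cell H.P (smp H i)) (comb H c)
      = (dens H c (smp H i) : ℝ) * (volume (cell H.P (smp H i))).toReal := by
  unfold comb dens
  induction c with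
  | nil => simp
  | cons t c ih =>
    rw [List.map_cons, List.sum_cons, map_add, ih, List.map_cons, List.sum_cons, map_smul,
      evl_apply, muTri_cell hH]
    push_cast
    split
    · rw [smul_eq_mul]
      ring
    · rw [smul_eq_mul]
      ring

end Q94.HX
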