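import Pool.Agent.Q94.HXD

/-!
# Two convex hexagons: data and finite checks
-/

set_option autoImplicit false
set_option maxRecDepth 100000

open Set MeasureTheory

namespace Q94.HX

def reg : Hex where
  P := ![(0, 0), (6, 0), (12, 6), (12, 12), (6, 12), (0, 6)]
  certs :=
    [[(0, 1, 2), (0, 3, 1), (2, 0, 2)],
     [(0, 1, 1), (0, 4, 1), (3, 0, 1)],
     [(0, 1, 1), (1, 4, 1), (3, 1, 1)],
     [(0, 1, 2), (1, 5, 2), (4, 1, 1)],
     [(1, 2, 1), (2, 5, 1), (4, 2, 1)],
     [(2, 3, 1), (3, 0, 1), (5, 3, 1)],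
     [(2, 3, 2), (0, 3, 1), (3, 1, 2)],
     [(3, 4, 2), (1, 4, 1), (4, 2, 2)],
     [(1, 2, 2), (2, 0, 2), (5, 2, 1)],
     [(3, 4, 1), (0, 4, 1), (4, 1, 1)],
     [(4, 5, 1), (1, 5, 1), (5, 2, 1)],
     [(4, 5, 2), (2, 5, 1), (5, 3, 2)],
     [(0, 3, 1), (2, 5, 1), (4, 1, 1)],
     [(1, 4, 1), (3, 0, 1), (5, 2, 1)]]
  samples :=
    [((1, 3), [true, true, true, true, true, true, true, true, true]),
     ((2, 3), [true, true, false, true, true, true, true, true, true]),
     ((2, 5), [true, true, true, true, true, false, true, true, true]),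
     ((3, 1), [false, false, false, true, true, true, true, true, true]),
     ((3, 2), [true, false, false, true, true, true, true, true, true]),
     ((3, 4), [true, true, false, true, true, false, true, true, true]),
     ((3, 7), [true, true, true, true, true, false, true, false, true]),
     ((3, 8), [true, true, true, true, true, false, true, false, false]),
     ((4, 3), [true, false, false, true, true, false, true, true, true]),
     ((4, 7), [true, true, false, true, true, false, true, false, true]),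
     ((5, 2), [false, false, false, true, true, false, true, true, true]),
     ((5, 9), [true, true, false, true, true, false, true, false, false]),
     ((7, 3), [false, false, false, true, false, false, true, true, true]),
     ((7, 4), [true, false, false, true, false, false, true, true, true]),
     ((7, 8), [true, true, false, true, false, false, true, false, true]),
     ((7, 10), [true, true, false, true, false, false, true, false, false]),
     ((8, 3), [false, false, false, false, false, false, true, true, true]),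
     ((8, 7), [true, false, false, true, false, false, true, false, true]),
     ((8, 11), [true, true, false, true, false, false, false, false, false]),
     ((9, 5), [true, false, false, false, false, false, true, true, true]),
     ((9, 10), [true, true, false, true, false, false, false, false, true]),
     ((10, 7), [true, false, false, false, false, false, true, false, true]),
     ((10, 9), [true, false, false, true, false, false, false, false, true]),
     ((11, 8), [true, false, false, false, false, false, false, false, true])]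

def gen : Hex where
  P := ![(0, 0), (10, -3), (13, 4), (9, 8), (2, 9), (-1, 6)]
  certs :=
    [[(0, 1, 68), (0, 3, 79), (2, 0, 107)],
     [(0, 1, 65), (0, 4, 107), (3, 0, 96)],
     [(0, 1, 76), (1, 4, 107), (3, 1, 96)],
     [(0, 1, 20), (1, 5, 32), (4, 1, 19)],
     [(1, 2, 12), (2, 5, 23), (4, 2, 26)],
     [(2, 3, 31), (3, 0, 24), (5, 3, 34)],
     [(2, 3, 107), (0, 3, 40), (3, 1, 68)],
     [(3, 4, 23), (1, 4, 6), (4, 2, 19)],
     [(1, 2, 82), (2, 0, 104), (5, 2, 79)],
     [(3, 4, 96), (0, 4, 76), (4, 1, 65)],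
     [(4, 5, 26), (1, 5, 12), (5, 2, 15)],
     [(4, 5, 2), (2, 5, 1), (5, 3, 2)],
     [(1, 4, 65), (3, 0, 76), (5, 2, 86)]]
  samples :=
    [((0, 1), [true, true, true, true, true, true, true, true, true]),
     ((0, 6), [true, true, true, true, true, false, true, false, true]),
     ((1, 0), [false, false, false, true, true, true, true, true, true]),
     ((1, 1), [true, true, false, true, true, true, true, true, true]),
     ((1, 5), [true, true, true, true, true, false, true, true, true]),
     ((1, 7), [true, true, true, true, true, false, true, false, false]),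
     ((2, 1), [true, false, false, true, true, true, true, true, true]),
     ((2, 4), [true, true, false, true, true, false, true, true, true]),
     ((2, 6), [true, true, false, true, true, false, true, false, true]),
     ((2, 7), [true, true, false, true, true, false, true, false, false]),
     ((3, 8), [true, true, false, true, false, false, true, false, false]),
     ((4, 2), [true, false, false, true, true, false, true, true, true]),
     ((5, 5), [true, true, false, true, false, false, true, true, true]),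
     ((5, 6), [true, true, false, true, false, false, true, false, true]),
     ((5, 8), [true, true, false, true, false, false, false, false, false]),
     ((6, 1), [false, false, false, true, true, false, true, true, true]),
     ((6, 4), [true, false, false, true, false, false, true, true, true]),
     ((7, 2), [false, false, false, true, false, false, true, true, true]),
     ((7, 5), [true, false, false, true, false, false, true, false, true]),
     ((7, 7), [true, true, false, true, false, false, false, false, true]),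
     ((8, 7), [true, false, false, true, false, false, false, false, true]),
     ((10, -2), [false, false, false, false, false, false, true, true, true]),
     ((10, 4), [true, false, false, false, false, false, true, true, true]),
     ((10, 5), [true, false, false, false, false, false, true, false, true]),
     ((10, 6), [true, false, false, false, false, false, false, false, true])]

def wit : List (List (Fin 6 × Fin 6 × ℤ)) :=
  [[(1, 2, 1), (1, 3, 1), (1, 4, 1), (1, 5, -2), (2, 3, 1), (2, 4, 2), (3, 4, 1), (3, 5, 1), (4, 5, 1)],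
   [(1, 2, 1), (1, 3, 1), (1, 4, 1), (1, 5, -2), (2, 3, 1), (2, 4, 1), (2, 5, 3), (3, 4, 2), (3, 5, -1), (4, 5, 1)],
   [(1, 2, 1), (1, 3, 1), (1, 4, -1), (1, 5, -1), (2, 3, 1), (2, 4, 2), (3, 4, 1), (3, 5, 1), (4, 5, 1)],
   [(1, 2, 1), (1, 3, 5), (1, 4, -2), (1, 5, -3), (2, 3, 1), (2, 4, 2), (2, 5, 1), (3, 4, 1), (3, 5, 1), (4, 5, 2)],
   [(1, 2, 1), (1, 3, 1), (1, 4, -1), (1, 5, 1), (2, 3, 1), (2, 4, 5), (2, 5, -2), (3, 4, 1), (3, 5, 1), (4, 5, 1)],
   [(1, 2, 1), (1, 3, 1), (1, 5, -1), (2, 3, 1), (2, 4, 1), (2, 5, 1), (3, 4, 1), (3, 5, 1)],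
   [(1, 2, 2), (1, 3, 1), (1, 4, -1), (1, 5, -1), (2, 3, 1), (2, 4, 2), (2, 5, -2), (3, 4, 1), (3, 5, 3), (4, 5, 1)],
   [(1, 2, 1), (1, 3, 4), (1, 4, -4), (1, 5, 1), (2, 3, 1), (2, 4, 4), (2, 5, -2), (3, 4, 1), (3, 5, 1), (4, 5, 2)],
   [(1, 2, 1), (1, 3, 3), (1, 4, -2), (1, 5, -1), (2, 3, 1), (2, 4, 1), (2, 5, 2), (3, 4, 2), (3, 5, -1), (4, 5, 2)],
   [(1, 2, 1), (1, 3, 4), (1, 4, -2), (1, 5, -2), (2, 3, 1), (2, 4, 1), (2, 5, 2), (3, 4, 1), (3, 5, 1), (4, 5, 1)],
   [(1, 2, 1), (1, 3, 1), (1, 4, 3), (1, 5, -4), (2, 3, 2), (2, 4, -1), (2, 5, 3), (3, 4, 1), (3, 5, 1), (4, 5, 1)],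
   [(1, 2, 2), (1, 3, 1), (1, 4, -2), (1, 5, 1), (2, 3, 1), (2, 4, 3), (2, 5, -3), (3, 4, 1), (3, 5, 3), (4, 5, 1)],
   [(1, 2, 1), (1, 4, 2), (1, 5, -1), (2, 3, 4), (2, 5, -2), (3, 4, 1), (3, 5, 1), (4, 5, 3)],
   [(1, 2, 1), (1, 3, 1), (1, 4, 3), (1, 5, -4), (2, 3, 2), (2, 4, -1), (2, 5, 4), (3, 4, 2), (3, 5, -1), (4, 5, 2)],
   [(1, 2, 1), (1, 3, 1), (1, 4, 1), (1, 5, -2), (2, 3, 1), (2, 4, 2), (2, 5, 1), (3, 5, 1), (4, 5, 1)],
   [(1, 2, 1), (1, 3, 1), (1, 4, -2), (1, 5, 1), (2, 3, 1), (2, 4, 4), (2, 5, -1), (3, 4, 1), (3, 5, 1), (4, 5, 1)],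
   [(1, 2, 2), (1, 3, -1), (1, 4, 2), (1, 5, -1), (2, 3, 2), (2, 4, 2), (2, 5, -3), (3, 4, 1), (3, 5, 4), (4, 5, 1)],
   [(1, 2, 1), (1, 3, -1), (1, 4, 2), (1, 5, -1), (2, 3, 2), (2, 4, 3), (3, 4, 1), (3, 5, 1), (4, 5, 1)],
   [(1, 2, 2), (1, 3, -1), (1, 4, 3), (1, 5, -3), (2, 3, 2), (2, 4, -1), (2, 5, 2), (3, 4, 2), (3, 5, 1), (4, 5, 1)],
   [(1, 2, 1), (1, 3, 1), (1, 4, 2), (1, 5, -3), (2, 3, 1), (2, 4, 2), (2, 5, 3), (3, 4, 1), (3, 5, -1), (4, 5, 2)],
   [(1, 2, 2), (1, 3, -1), (1, 4, 1), (1, 5, -1), (2, 3, 1), (2, 4, 3), (3, 4, 1), (3, 5, 1), (4, 5, 1)],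
   [(1, 3, 1), (1, 4, 1), (1, 5, -1), (2, 3, 1), (2, 4, 2), (3, 4, 1), (3, 5, 1), (4, 5, 1)],
   [(1, 2, 1), (1, 3, 1), (1, 4, 1), (1, 5, -1), (2, 3, 1), (2, 4, 2), (2, 5, -3), (3, 4, 1), (3, 5, 4), (4, 5, 1)],
   [(1, 2, 1), (1, 3, 1), (1, 4, 2), (1, 5, -3), (2, 3, 1), (2, 4, -1), (2, 5, 2), (3, 4, 2), (3, 5, 1), (4, 5, 1)],
   [(1, 2, 1), (1, 3, 1), (1, 5, -1), (2, 4, 2), (3, 4, 1), (3, 5, 1), (4, 5, 1)]]


theorem reg_ok : HexOk2 reg where
  conv := by decide +kernel
  inj := by decide +kernel
  cert := by decide +kernel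
  samp := by decide +kernel
  cover := by decide +kernel
  nodup := by decide +kernel
  covered := by decide +kernel

theorem gen_ok : HexOk2 gen where
  conv := by decide +kernel
  inj := by decide +kernel
  cert := by decide +kernel
  samp := by decide +kernel
  cover := by decide +kernel
  nodup := by decide +kernel
  covered := by decide +kernel

theorem reg_len : reg.samples.length = 24 := rfl

theorem gen_len : gen.samples.length = 25 := rfl

theorem wit_ok : ∀ i j : Fin 25,
    (i = j → dens gen (wit.getD i.val []) ((gen.samples.getD j.val ((0, 0), [])).1) = 0) ∧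
    (i ≠ j → 0 < dens gen (wit.getD i.val []) ((gen.samples.getD j.val ((0, 0), [])).1)) := by
  decide +kernel

/-- the two hexagons have the same oriented matroid -/
theorem same_om : ∀ i j k : Fin 6,
    SignType.sign (oz (reg.P i) (reg.P j) (reg.P k))
      = SignType.sign (oz (gen.P i) (gen.P j) (gen.P k)) := by
  decide +kernel

/-- no three vertices are collinear -/
theorem no_three : ∀ i j k : Fin 6, i ≠ j → j ≠ k → i ≠ k →
    oz (reg.P i) (reg.P j) (reg.P k) ≠ 0 ∧ oz (gen.P i) (gen.P j) (gen.P k) ≠ 0 := by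
  decide +kernel

end Q94.HX
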