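import Mathlib

/-!
# Legendre-Fenchel fixed point equation: basic definitions and the staircase functions
-/

open scoped RealInnerProductSpace

namespace Q94.LF

/-- The Legendre-Fenchel conjugate. -/
noncomputable def conj {X : Type*} [NormedAddCommGroup X] [InnerProductSpace ℝ X]
    (f : X → EReal) (y : X) : EReal :=
  ⨆ x : X, ((inner ℝ y x : ℝ) : EReal) - f x

/-- The equation `f(x) = τ f^*(E x + c) + ⟨w, x⟩ + β` for all `x`. -/
def Solves {X : Type*} [NormedAddCommGroup X] [InnerProductSpace ℝ X]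
    (τ : ℝ) (E : X ≃L[ℝ] X) (c w : X) (β : ℝ) (f : X → EReal) : Prop :=
  ∀ x : X, f x = (τ : EReal) * conj f (E x + c) + ((inner ℝ w x : ℝ) : EReal) + (β : EReal)

/-- `E` is self-adjoint and `⟨E x, x⟩ > 0` for `x ≠ 0`. -/
def PosDef {X : Type*} [NormedAddCommGroup X] [InnerProductSpace ℝ X] (E : X ≃L[ℝ] X) : Prop :=
  (∀ x y : X, inner ℝ (E x) y = inner ℝ x (E y)) ∧ ∀ x : X, x ≠ 0 → 0 < inner ℝ (E x) x

/-- The quadratic solution `f₀`. -/
noncomputable def f₀ {X : Type*} [NormedAddCommGroup X] [InnerProductSpace ℝ X]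
    (τ : ℝ) (E : X ≃L[ℝ] X) (c w : X) (β : ℝ) (x : X) : EReal :=
  ((1 / 2 * inner ℝ (√τ • E x) x
    + inner ℝ ((1 / (1 + √τ)) • (w + √τ • c)) x
    + (β * (1 + √τ) ^ 2 + 1 / 2 * √τ * inner ℝ (c - w) (E.symm (c - w)))
        / ((1 + √τ) ^ 2 * (τ + 1)) : ℝ) : EReal)

section real

/-- The multiplicative staircase function `F_l(r) = sup_k (l^k r - (l/(l+1)) l^(2k))`. -/
noncomputable def F (l r : ℝ) : ℝ := ⨆ k : ℤ, (l ^ k * r - l / (l + 1) * (l ^ k) ^ 2)

lemma F_bdd {l : ℝ} (hl : 0 < l) (r : ℝ) :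
    BddAbove (Set.range fun k : ℤ => (l ^ k * r - l / (l + 1) * (l ^ k) ^ 2)) := by
  have hk : 0 < l / (l + 1) := by positivity
  refine ⟨r ^ 2 / (4 * (l / (l + 1))), ?_⟩
  rintro _ ⟨k, rfl⟩
  simp only
  rw [le_div_iff₀ (by positivity)]
  nlinarith [sq_nonneg (r - 2 * (l / (l + 1)) * l ^ k)]

lemma le_F {l : ℝ} (hl : 0 < l) (r : ℝ) (k : ℤ) :
    l ^ k * r - l / (l + 1) * (l ^ k) ^ 2 ≤ F l r :=
  le_ciSup (F_bdd hl r) k

/-- For `l > 0` and integers, `(l^(d+1) - 1)(l^d - 1) ≥ 0`. -/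
lemma zpow_mul_nonneg {l : ℝ} (hl : 0 < l) (d : ℤ) : 0 ≤ (l ^ (d + 1) - 1) * (l ^ d - 1) := by
  rcases le_or_gt 1 l with h1 | h1
  · rcases le_or_gt 0 d with hd | hd
    · have a := one_le_zpow₀ h1 hd
      have b := one_le_zpow₀ h1 (show 0 ≤ d + 1 by omega)
      exact mul_nonneg (by linarith) (by linarith)
    · have a := zpow_le_one_of_nonpos₀ h1 (show d ≤ 0 by omega)
      have b := zpow_le_one_of_nonpos₀ h1 (show d + 1 ≤ 0 by omega)
      exact mul_nonneg_of_nonpos_of_nonpos (by linarith) (by linarith)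
  · rcases le_or_gt 0 d with hd | hd
    · have a := zpow_le_one₀ hl h1.le hd
      have b := zpow_le_one₀ hl h1.le (show 0 ≤ d + 1 by omega)
      exact mul_nonneg_of_nonpos_of_nonpos (by linarith) (by linarith)
    · have a := one_le_zpow_of_nonpos₀ hl h1.le (show d ≤ 0 by omega)
      have b := one_le_zpow_of_nonpos₀ hl h1.le (show d + 1 ≤ 0 by omega)
      exact mul_nonneg (by linarith) (by linarith)

lemma F_zpow {l : ℝ} (hl : 0 < l) (m : ℤ) : F l (l ^ m) = (l ^ m) ^ 2 / (l + 1) := by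
  have hl1 : 0 < l + 1 := by linarith
  apply le_antisymm
  · refine ciSup_le fun k => ?_
    have h := zpow_mul_nonneg hl (k - m)
    have e1 : l ^ (k - m + 1) = l ^ k * l / l ^ m := by
      rw [zpow_add₀ hl.ne', zpow_sub₀ hl.ne', zpow_one]; ring
    have e2 : l ^ (k - m) = l ^ k / l ^ m := zpow_sub₀ hl.ne' _ _
    have hm : 0 < l ^ m := zpow_pos hl m
    rw [e1, e2] at h
    have h2 : 0 ≤ (l ^ k * l - l ^ m) * (l ^ k - l ^ m) := by
      have : (l ^ k * l - l ^ m) * (l ^ k - l ^ m)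
          = (l ^ k * l / l ^ m - 1) * (l ^ k / l ^ m - 1) * (l ^ m) ^ 2 := by
        field_simp
      rw [this]; positivity
    rw [le_div_iff₀ hl1]
    have : (l ^ k * l ^ m - l / (l + 1) * (l ^ k) ^ 2) * (l + 1)
        = l ^ k * l ^ m * (l + 1) - l * (l ^ k) ^ 2 := by field_simp
    rw [this]
    nlinarith [h2]
  · have := le_F hl (l ^ m) m
    refine le_trans (le_of_eq ?_) this
    field_simp
    ring

lemma F_zero {l : ℝ} (hl : 0 < l) : F l 0 ≤ 0 := by
  refine ciSup_le fun k => ?_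
  have : 0 ≤ l / (l + 1) * (l ^ k) ^ 2 := by positivity
  simpa using this

/-- Key identity. -/
lemma F_key {l : ℝ} (hl : 0 < l) (r s : ℝ) (k : ℤ)
    (h : (r - l ^ k) * (s - l ^ (k + 1)) ≤ 0 ∨ (r - l ^ (k + 1)) * (s - l ^ (k + 1)) ≤ 0) :
    r * s ≤ l * F l r + F l s := by
  have hl1 : 0 < l + 1 := by linarith
  have e : l ^ (k + 1) = l ^ k * l := by rw [zpow_add₀ hl.ne', zpow_one]
  have h1 := le_F hl r k
  rcases h with h | h
  · have h2 := le_F hl s k
    rw [e] at h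
    have h1' : l * (l ^ k * r - l / (l + 1) * (l ^ k) ^ 2) ≤ l * F l r :=
      mul_le_mul_of_nonneg_left h1 hl.le
    have key : l * (l ^ k * r - l / (l + 1) * (l ^ k) ^ 2) +
        (l ^ k * s - l / (l + 1) * (l ^ k) ^ 2) = r * s - (r - l ^ k) * (s - l ^ k * l) := by
      field_simp
      ring
    linarith
  · have h2 := le_F hl s (k + 1)
    rw [e] at h h2
    have h1' : l * (l ^ k * r - l / (l + 1) * (l ^ k) ^ 2) ≤ l * F l r :=
      mul_le_mul_of_nonneg_left h1 hl.le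
    have key : l * (l ^ k * r - l / (l + 1) * (l ^ k) ^ 2) +
        (l ^ k * l * s - l / (l + 1) * (l ^ k * l) ^ 2)
          = r * s - (r - l ^ k * l) * (s - l ^ k * l) := by
      field_simp
      ring
    linarith

/-- For `l ≠ 1` every positive real lies in some interval `[μ^k, μ^(k+1))`, where
`μ = max l (1/l)`. -/
lemma F_young_pos {l : ℝ} (hl : 0 < l) (h1 : l ≠ 1) {r s : ℝ} (hr : 0 ≤ r) (hs : 0 < s) :
    r * s ≤ l * F l r + F l s := by
  rcases lt_or_gt_of_ne h1 with h1 | h1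
  · -- `l < 1`: find `m` with `l^(m+1) ≤ s < l^m`.
    have hμ : 1 < l⁻¹ := (one_lt_inv₀ hl).2 h1
    obtain ⟨n, hn1, hn2⟩ := exists_mem_Ico_zpow hs hμ
    rw [inv_zpow'] at hn1 hn2
    set m : ℤ := -(n + 1) with hm
    have hn : -n = m + 1 := by omega
    rw [hn] at hn1
    rcases le_or_gt r (l ^ (m + 1)) with h2 | h2
    · exact F_key hl r s m (Or.inr (mul_nonpos_of_nonpos_of_nonneg (by linarith) (by linarith)))
    · rcases le_or_gt r (l ^ m) with h3 | h3
      · exact F_key hl r s m (Or.inl (mul_nonpos_of_nonpos_of_nonneg (by linarith) (by linarith)))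
      · refine F_key hl r s (m - 1) (Or.inr ?_)
        rw [sub_add_cancel]
        exact mul_nonpos_of_nonneg_of_nonpos (by linarith) (by linarith)
  · -- `l > 1`: find `m` with `l^m ≤ s < l^(m+1)`.
    obtain ⟨m, hn1, hn2⟩ := exists_mem_Ico_zpow hs h1
    rcases le_or_gt r (l ^ m) with h2 | h2
    · refine F_key hl r s (m - 1) (Or.inr ?_)
      rw [sub_add_cancel]
      exact mul_nonpos_of_nonpos_of_nonneg (by linarith) (by linarith)
    · exact F_key hl r s m (Or.inl (mul_nonpos_of_nonneg_of_nonpos (by linarith) (by linarith)))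

lemma exists_zpow_le {l : ℝ} (hl : 0 < l) (h1 : l ≠ 1) {s : ℝ} (hs : 0 < s) :
    ∃ k : ℤ, l ^ k ≤ s := by
  rcases lt_or_gt_of_ne h1 with h1 | h1
  · have hμ : 1 < l⁻¹ := (one_lt_inv₀ hl).2 h1
    obtain ⟨n, hn1, -⟩ := exists_mem_Ico_zpow hs hμ
    rw [inv_zpow'] at hn1
    exact ⟨_, hn1⟩
  · obtain ⟨m, hn1, -⟩ := exists_mem_Ico_zpow hs h1
    exact ⟨m, hn1⟩

lemma F_nonneg {l : ℝ} (hl : 0 < l) (h1 : l ≠ 1) {r : ℝ} (hr : 0 ≤ r) : 0 ≤ F l r := by
  by_contra hneg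
  push Not at hneg
  have hk : 0 < l / (l + 1) := by positivity
  obtain ⟨k, hk2⟩ := exists_zpow_le hl h1
    (show 0 < min 1 (-F l r / (2 * (l / (l + 1)))) by
      apply lt_min one_pos
      apply div_pos (by linarith) (by positivity))
  have a1 : l ^ k ≤ 1 := hk2.trans (min_le_left _ _)
  have a2 : l ^ k ≤ -F l r / (2 * (l / (l + 1))) := hk2.trans (min_le_right _ _)
  rw [le_div_iff₀ (by positivity)] at a2
  have hp : 0 < l ^ k := zpow_pos hl k
  have h3 := le_F hl r k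
  have h4 : 0 ≤ l ^ k * r := by positivity
  have h5 : l / (l + 1) * (l ^ k) ^ 2 ≤ l / (l + 1) * (l ^ k) := by
    apply mul_le_mul_of_nonneg_left _ hk.le
    nlinarith
  nlinarith

lemma F_zero_eq {l : ℝ} (hl : 0 < l) (h1 : l ≠ 1) : F l 0 = 0 :=
  le_antisymm (F_zero hl) (F_nonneg hl h1 le_rfl)

/-- Young inequality for `F`. -/
lemma F_young {l : ℝ} (hl : 0 < l) (h1 : l ≠ 1) {r s : ℝ} (hr : 0 ≤ r) (hs : 0 ≤ s) :
    r * s ≤ l * F l r + F l s := by
  rcases hs.eq_or_lt with rfl | hs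
  · have a := F_nonneg hl h1 hr
    have b := F_nonneg hl h1 (le_refl 0)
    nlinarith
  · exact F_young_pos hl h1 hr hs

/-- Almost equality in the Young inequality for `F`. -/
lemma F_attain {l : ℝ} (hl : 0 < l) (r : ℝ) {ε : ℝ} (hε : 0 < ε) :
    ∃ s : ℝ, 0 < s ∧ l * F l r - ε ≤ r * s - F l s := by
  obtain ⟨k, hk⟩ := exists_lt_of_lt_ciSup (show F l r - ε / l < F l r by
    have : 0 < ε / l := by positivity
    linarith)
  refine ⟨l ^ (k + 1), zpow_pos hl _, ?_⟩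
  rw [F_zpow hl, zpow_add₀ hl.ne', zpow_one]
  have e : r * (l ^ k * l) - (l ^ k * l) ^ 2 / (l + 1)
      = l * (l ^ k * r - l / (l + 1) * (l ^ k) ^ 2) := by
    field_simp
  rw [e]
  have h2 : l * (F l r - ε / l) ≤ l * (l ^ k * r - l / (l + 1) * (l ^ k) ^ 2) :=
    mul_le_mul_of_nonneg_left hk.le hl.le
  have h3 : l * (F l r - ε / l) = l * F l r - ε := by field_simp
  linarith

/-- The additive staircase function `G(σ) = sup_k (k σ - k (k - 1) / 2)`. -/
noncomputable def G (σ : ℝ) : ℝ := ⨆ k : ℤ, ((k : ℝ) * σ - k * (k - 1) / 2)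

lemma G_bdd (σ : ℝ) : BddAbove (Set.range fun k : ℤ => ((k : ℝ) * σ - k * (k - 1) / 2)) := by
  refine ⟨(σ + 1 / 2) ^ 2 / 2, ?_⟩
  rintro _ ⟨k, rfl⟩
  simp only
  nlinarith [sq_nonneg (σ + 1 / 2 - (k : ℝ))]

lemma le_G (σ : ℝ) (k : ℤ) : (k : ℝ) * σ - k * (k - 1) / 2 ≤ G σ := le_ciSup (G_bdd σ) k

lemma int_mul_nonneg (d : ℤ) : 0 ≤ (d : ℝ) * (d + 1) := by
  have : 0 ≤ d * (d + 1) := by
    rcases le_or_gt 0 d with h | h
    · positivity
    · exact mul_nonneg_of_nonpos_of_nonpos h.le (by omega)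
  exact_mod_cast this

lemma G_int (k : ℤ) : G k ≤ k * (k + 1) / 2 := by
  refine ciSup_le fun j => ?_
  have := int_mul_nonneg (k - j)
  push_cast at this
  nlinarith

lemma G_of_mem {σ : ℝ} (h0 : 0 ≤ σ) (h1 : σ ≤ 1) : G σ = σ := by
  apply le_antisymm
  · refine ciSup_le fun k => ?_
    rcases le_or_gt k 0 with hk | hk
    · have hk' : (k : ℝ) ≤ 0 := by exact_mod_cast hk
      nlinarith [mul_nonneg (neg_nonneg.2 hk') h0, mul_nonneg (neg_nonneg.2 hk')
        (show (0 : ℝ) ≤ 1 - k by linarith)]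
    · rcases eq_or_lt_of_le (show (1 : ℤ) ≤ k by omega) with hk1 | hk1
      · subst hk1; norm_num
      · have hk' : (2 : ℝ) ≤ k := by exact_mod_cast hk1
        nlinarith [mul_nonneg (show (0 : ℝ) ≤ k - 1 by linarith)
          (show (0 : ℝ) ≤ k / 2 - σ by linarith)]
  · have := le_G σ 1
    norm_num at this
    linarith

/-- Young inequality for `G`. -/
lemma G_young (σ ρ : ℝ) : σ * ρ + ρ ≤ G σ + G ρ := by
  -- choose `m` with `m ≤ ρ < m + 1`
  set m : ℤ := ⌊ρ⌋ with hm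
  have hm1 : (m : ℝ) ≤ ρ := Int.floor_le ρ
  have hm2 : ρ < m + 1 := Int.lt_floor_add_one ρ
  rcases le_or_gt σ m with h | h
  · -- `(σ - m)(ρ - m) ≤ 0`, `k = m`, `j = m + 1`
    have h1 := le_G σ m
    have h2 := le_G ρ (m + 1)
    push_cast at h2
    nlinarith [mul_nonneg (sub_nonneg.2 h) (sub_nonneg.2 hm1)]
  · -- `k = m + 1`, `j = m + 1` : `(σ - m)(ρ - (m+1)) ≤ 0`
    have h1 := le_G σ (m + 1)
    have h2 := le_G ρ (m + 1)
    push_cast at h1 h2
    nlinarith [mul_nonneg (sub_nonneg.2 h.le) (sub_nonneg.2 hm2.le)]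

/-- Almost equality in the Young inequality for `G`. -/
lemma G_attain (σ : ℝ) {ε : ℝ} (hε : 0 < ε) :
    ∃ k : ℤ, G σ - ε ≤ σ * k + k - G k := by
  obtain ⟨k, hk⟩ := exists_lt_of_lt_ciSup (show G σ - ε < G σ by linarith)
  refine ⟨k, ?_⟩
  have := G_int k
  nlinarith

end real

end Q94.LF
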