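import Pool.Agent.Q94.LFBase

/-!
# Legendre-Fenchel fixed point equation: the non-quadratic solutions
-/

namespace Q94.LF

variable {X : Type*} [NormedAddCommGroup X] [InnerProductSpace ℝ X]

/-- The bilinear form `⟨E x, y⟩`. -/
noncomputable def B (E : X ≃L[ℝ] X) (x y : X) : ℝ := inner ℝ (E x) y

section form
variable {E : X ≃L[ℝ] X}

lemma B_symm (hE : PosDef E) (x y : X) : B E x y = B E y x := by
  unfold B; rw [hE.1, real_inner_comm]

lemma B_add_left (x y z : X) : B E (x + y) z = B E x z + B E y z := by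
  simp [B, inner_add_left]
lemma B_add_right (x y z : X) : B E x (y + z) = B E x y + B E x z := by
  simp [B, inner_add_right]
lemma B_sub_left (x y z : X) : B E (x - y) z = B E x z - B E y z := by
  simp [B, inner_sub_left]
lemma B_sub_right (x y z : X) : B E x (y - z) = B E x y - B E x z := by
  simp [B, inner_sub_right]
lemma B_smul_left (a : ℝ) (x y : X) : B E (a • x) y = a * B E x y := by
  simp [B, inner_smul_left]
lemma B_smul_right (a : ℝ) (x y : X) : B E x (a • y) = a * B E x y := by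
  simp [B, inner_smul_right]
lemma B_zero : B E (0 : X) 0 = 0 := by simp [B]

lemma B_nonneg (hE : PosDef E) (x : X) : 0 ≤ B E x x := by
  by_cases h : x = 0
  · subst h; simp [B]
  · exact (hE.2 x h).le

lemma B_pos (hE : PosDef E) {x : X} (h : x ≠ 0) : 0 < B E x x := hE.2 x h

/-- Cauchy-Schwarz. -/
lemma B_cs (hE : PosDef E) (x y : X) : (B E x y) ^ 2 ≤ B E x x * B E y y := by
  by_cases h : y = 0
  · subst h; simp [B]
  · have hy := B_pos hE h
    have h1 := B_nonneg hE (x - (B E x y / B E y y) • y)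
    rw [B_sub_left, B_sub_right, B_sub_right, B_smul_left, B_smul_left, B_smul_right,
      B_smul_right, B_symm hE y x] at h1
    have e : B E x x - B E x y / B E y y * B E x y
        - (B E x y / B E y y * B E x y - B E x y / B E y y * (B E x y / B E y y * B E y y))
        = (B E x x * B E y y - (B E x y) ^ 2) / B E y y := by
      field_simp
      ring
    rw [e] at h1
    have h2 := (div_nonneg_iff.1 h1)
    rcases h2 with h2 | h2
    · linarith [h2.1]
    · linarith [h2.2]

/-- The norm of the form. -/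
noncomputable def N (E : X ≃L[ℝ] X) (x : X) : ℝ := √(B E x x)

lemma N_nonneg (x : X) : 0 ≤ N E x := Real.sqrt_nonneg _

lemma N_sq (hE : PosDef E) (x : X) : N E x ^ 2 = B E x x := Real.sq_sqrt (B_nonneg hE x)

lemma B_le_N (hE : PosDef E) (x y : X) : B E x y ≤ N E x * N E y := by
  have h := B_cs hE x y
  rw [← N_sq hE x, ← N_sq hE y, ← mul_pow] at h
  exact (le_abs_self _).trans (abs_le_of_sq_le_sq h (mul_nonneg (N_nonneg x) (N_nonneg y)))

lemma N_smul {a : ℝ} (ha : 0 ≤ a) (x : X) : N E (a • x) = a * N E x := by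
  unfold N
  rw [B_smul_left, B_smul_right, ← mul_assoc, Real.sqrt_mul (by positivity),
    Real.sqrt_mul_self ha]

end form

/-- Computing a conjugate. -/
lemma conj_eq (φ : X → ℝ) (y : X) (V : ℝ) (h1 : ∀ z, inner ℝ y z - φ z ≤ V)
    (h2 : ∀ ε > 0, ∃ z, V - ε ≤ inner ℝ y z - φ z) :
    conj (fun z => ((φ z : ℝ) : EReal)) y = (V : EReal) := by
  apply le_antisymm
  · refine iSup_le fun z => ?_
    rw [← EReal.coe_sub]
    exact_mod_cast h1 z
  · refine EReal.ge_of_forall_gt_iff_ge.1 ?_
    intro a ha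
    have ha' : a < V := by exact_mod_cast ha
    obtain ⟨z, hz⟩ := h2 (V - a) (by linarith)
    refine le_trans ?_ (le_iSup _ z)
    rw [← EReal.coe_sub]
    have : a ≤ inner ℝ y z - φ z := by linarith
    exact_mod_cast this

/-- A function which solves the equation in the reals. -/
lemma solves_of (τ : ℝ) (E : X ≃L[ℝ] X) (c w : X) (β : ℝ) (φ V : X → ℝ)
    (h1 : ∀ x z, inner ℝ (E x + c) z - φ z ≤ V x)
    (h2 : ∀ x, ∀ ε > 0, ∃ z, V x - ε ≤ inner ℝ (E x + c) z - φ z)
    (h3 : ∀ x, φ x = τ * V x + inner ℝ w x + β) :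
    Solves τ E c w β (fun x => ((φ x : ℝ) : EReal)) := by
  intro x
  rw [conj_eq φ (E x + c) (V x) (h1 x) (h2 x)]
  simp only
  rw [h3 x]
  push_cast
  rfl

/-- If a real function equals `f₀`, its second differences are those of `√τ E`. -/
lemma second_diff (τ : ℝ) (E : X ≃L[ℝ] X) (c w : X) (β : ℝ) (φ : X → ℝ)
    (h : (fun x => ((φ x : ℝ) : EReal)) = f₀ τ E c w β) (x u : X) :
    φ (x + u) + φ (x - u) - 2 * φ x = √τ * B E u u := by
  have h' : ∀ x, φ x = 1 / 2 * inner ℝ (√τ • E x) x
    + inner ℝ ((1 / (1 + √τ)) • (w + √τ • c)) x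
    + (β * (1 + √τ) ^ 2 + 1 / 2 * √τ * inner ℝ (c - w) (E.symm (c - w)))
        / ((1 + √τ) ^ 2 * (τ + 1)) := by
    intro x
    have := congrFun h x
    simp only [f₀] at this
    exact_mod_cast this
  rw [h' (x + u), h' (x - u), h' x]
  have e1 : ∀ a : X, inner ℝ (√τ • E a) a = √τ * B E a a := by
    intro a; rw [inner_smul_left]; rfl
  rw [e1, e1, e1, inner_add_right, inner_sub_right, B_add_left, B_add_right, B_add_right,
    B_sub_left, B_sub_right, B_sub_right]
  ring

/-- Non-uniqueness for `τ ≠ 1`. -/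
theorem exists_ne_of_tau [Nontrivial X] (τ : ℝ) (hτ : 0 < τ) (h1 : τ ≠ 1)
    (E : X ≃L[ℝ] X) (hE : PosDef E) (c w : X) (β : ℝ) :
    ∃ f : X → EReal, Solves τ E c w β f ∧ f ≠ f₀ τ E c w β := by
  have hl : 0 < τ⁻¹ := inv_pos.2 hτ
  have hl1 : τ⁻¹ ≠ 1 := by simpa using h1
  have h1τ : (1 - τ) ≠ 0 := sub_ne_zero.2 (Ne.symm h1)
  set x0 : X := (1 - τ)⁻¹ • E.symm (w - c) with hx0
  have hEx0 : (1 - τ) • E x0 = w - c := by
    rw [hx0, map_smul, smul_smul, mul_inv_cancel₀ h1τ, one_smul, E.apply_symm_apply]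
  set γ : ℝ := (β - τ * B E x0 x0) / (1 + τ) with hγ
  set φ : X → ℝ := fun x => F τ⁻¹ (N E (x - x0)) + inner ℝ (c + E x0) x + γ with hφ
  set V : X → ℝ := fun x => τ⁻¹ * F τ⁻¹ (N E (x - x0)) + B E (x - x0) x0 - γ with hV
  have main : ∀ x z, inner ℝ (E x + c) z - φ z
      = B E (x - x0) (z - x0) - F τ⁻¹ (N E (z - x0)) + B E (x - x0) x0 - γ := by
    intro x z
    simp only [hφ]
    rw [inner_add_left, inner_add_left, B_sub_right, B_sub_left, B_sub_left]
    simp only [B]
    ring
  refine ⟨fun x => ((φ x : ℝ) : EReal), solves_of τ E c w β φ V ?_ ?_ ?_, ?_⟩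
  · intro x z
    rw [main]
    have := F_young hl hl1 (N_nonneg (E := E) (x - x0)) (N_nonneg (E := E) (z - x0))
    have := B_le_N hE (x - x0) (z - x0)
    simp only [hV]
    linarith
  · intro x ε hε
    obtain ⟨s, hs, hs2⟩ := F_attain hl (N E (x - x0)) hε
    by_cases hx : x - x0 = 0
    · obtain ⟨u, hu⟩ := exists_ne (0 : X)
      refine ⟨x0, ?_⟩
      rw [main, hx, sub_self]
      have : N E (0 : X) = 0 := by simp [N, B]
      simp only [hV]
      rw [hx, this, F_zero_eq hl hl1]
      have : B E (0 : X) 0 = 0 := B_zero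
      rw [this]
      linarith
    · have hN : 0 < N E (x - x0) := Real.sqrt_pos.2 (B_pos hE hx)
      refine ⟨x0 + (s / N E (x - x0)) • (x - x0), ?_⟩
      rw [main, add_sub_cancel_left, B_smul_right, ← N_sq hE, N_smul (by positivity),
        div_mul_cancel₀ _ hN.ne']
      simp only [hV]
      have : s / N E (x - x0) * N E (x - x0) ^ 2 = N E (x - x0) * s := by
        field_simp
      rw [this]
      linarith
  · intro x
    simp only [hφ, hV]
    have e1 : inner ℝ w x = inner ℝ c x + (1 - τ) * B E x0 x := by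
      have : w = c + (1 - τ) • E x0 := by rw [hEx0]; abel
      rw [this, inner_add_left, inner_smul_left]
      simp [B]
    have e2 : γ * (1 + τ) = β - τ * B E x0 x0 := by
      rw [hγ, div_mul_cancel₀]; positivity
    have e3 : inner ℝ (E x0) x = B E x0 x := rfl
    rw [inner_add_left, e1, e3, B_sub_left, B_symm hE x x0]
    have e4 : τ * (τ⁻¹ * F τ⁻¹ (N E (x - x0)) + (B E x0 x - B E x0 x0) - γ)
        = F τ⁻¹ (N E (x - x0)) + τ * (B E x0 x - B E x0 x0) - τ * γ := by
      field_simp
    rw [e4]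
    linarith
  · intro hcon
    obtain ⟨u, hu⟩ := exists_ne (0 : X)
    have hNu : 0 < N E u := Real.sqrt_pos.2 (B_pos hE hu)
    set e : X := (N E u)⁻¹ • u with he
    have hNe : N E e = 1 := by
      rw [he, N_smul (by positivity), inv_mul_cancel₀ hNu.ne']
    have hBe : B E e e = 1 := by rw [← N_sq hE, hNe]; norm_num
    have hs := second_diff τ E c w β φ hcon x0 e
    simp only [hφ] at hs
    have en : N E (-e) = 1 := by
      rw [← hNe]; unfold N
      rw [show (-e : X) = (-1 : ℝ) • e by simp, B_smul_left, B_smul_right]; norm_num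
    rw [add_sub_cancel_left, sub_self, show x0 - e - x0 = -e by abel, en, hNe,
      show N E (0 : X) = 0 by simp [N, B], F_zero_eq hl hl1, inner_add_right, inner_sub_right,
      hBe] at hs
    have hF : F τ⁻¹ 1 = 1 / (τ⁻¹ + 1) := by
      have := F_zpow hl 0
      simpa using this
    rw [hF] at hs
    have hsτ : 0 < √τ := Real.sqrt_pos.2 hτ
    have hsq : √τ ^ 2 = τ := Real.sq_sqrt hτ.le
    have h3 : 2 / (τ⁻¹ + 1) = √τ := by
      have : (2 : ℝ) / (τ⁻¹ + 1) = 1 / (τ⁻¹ + 1) + 1 / (τ⁻¹ + 1) := by ring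
      linarith
    have h3' : 2 * τ = (1 + τ) * √τ := by
      field_simp at h3
      exact h3
    have h4' : (√τ - 1) ^ 2 * √τ = 0 := by
      have : (√τ - 1) ^ 2 * √τ = (√τ ^ 2 + 1) * √τ - 2 * √τ ^ 2 := by ring
      rw [this, hsq]; linarith
    have h4 : (√τ - 1) ^ 2 = 0 := by
      rcases mul_eq_zero.1 h4' with h | h
      · exact h
      · exact absurd h hsτ.ne'
    have h5 : √τ = 1 := by nlinarith [pow_eq_zero_iff (two_ne_zero) |>.1 h4]
    apply h1
    rw [← hsq, h5]; norm_num

/-- Non-uniqueness for `τ = 1`, `c ≠ w`. -/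
theorem exists_ne_of_shift (E : X ≃L[ℝ] X) (hE : PosDef E) (c w : X) (hcw : c ≠ w) (β : ℝ) :
    ∃ f : X → EReal, Solves 1 E c w β f ∧ f ≠ f₀ 1 E c w β := by
  set v : X := E.symm (c - w) with hv
  have hEv : E v = c - w := by rw [hv, E.apply_symm_apply]
  have hv0 : v ≠ 0 := by
    intro h
    rw [h, map_zero] at hEv
    exact hcw (sub_eq_zero.1 hEv.symm)
  set q : ℝ := B E v v with hq
  have hq0 : 0 < q := B_pos hE hv0
  set h : X → ℝ := fun x => q * G (B E x v / q) + 1 / 2 * (B E x x - (B E x v) ^ 2 / q) with hh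
  set φ : X → ℝ := fun x => h x + inner ℝ w x + β / 2 with hφ
  set V : X → ℝ := fun x => h x - β / 2 with hV
  have main : ∀ x z, inner ℝ (E x + c) z - φ z = B E x z + B E z v - h z - β / 2 := by
    intro x z
    simp only [hφ]
    rw [B_symm hE z v]
    have : B E v z = inner ℝ c z - inner ℝ w z := by
      unfold B; rw [hEv, inner_sub_left]
    rw [this, inner_add_left]
    unfold B
    ring
  refine ⟨fun x => ((φ x : ℝ) : EReal), solves_of 1 E c w β φ V ?_ ?_ ?_, ?_⟩
  · intro x z
    rw [main]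
    simp only [hV, hh]
    have h1 := G_young (B E x v / q) (B E z v / q)
    have h2 := B_cs hE (x - z) v
    rw [B_sub_left, B_sub_left, B_sub_right, B_sub_right, B_symm hE z x, ← hq] at h2
    have h1' := mul_le_mul_of_nonneg_left h1 hq0.le
    have e1 : q * (B E x v / q * (B E z v / q) + B E z v / q)
        = B E x v * B E z v / q + B E z v := by
      field_simp
    rw [e1] at h1'
    have h3 : (B E x v - B E z v) ^ 2 / q ≤ B E x x - B E x z - (B E x z - B E z z) := by
      rw [div_le_iff₀ hq0]; exact h2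
    have e2 : (B E x v - B E z v) ^ 2 / q = B E x v ^ 2 / q - 2 * (B E x v * B E z v / q)
        + B E z v ^ 2 / q := by ring
    rw [e2] at h3
    nlinarith
  · intro x ε hε
    obtain ⟨k, hk⟩ := G_attain (B E x v / q) (show 0 < ε / q by positivity)
    refine ⟨x + ((k : ℝ) - B E x v / q) • v, ?_⟩
    rw [main]
    simp only [hV, hh]
    simp only [B_add_right, B_add_left, B_smul_left, B_smul_right]
    rw [B_symm hE v x, ← hq]
    have e0 : B E x v + ((k : ℝ) - B E x v / q) * q = k * q := by field_simp; ring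
    rw [e0, mul_div_cancel_right₀ _ hq0.ne']
    have hk' := mul_le_mul_of_nonneg_left hk hq0.le
    have e1 : q * (G (B E x v / q) - ε / q) = q * G (B E x v / q) - ε := by field_simp
    have e2 : q * (B E x v / q * k + k - G k) = B E x v * k + q * k - q * G k := by field_simp
    rw [e1, e2] at hk'
    have e3 : B E x x + ((k : ℝ) - B E x v / q) * B E x v + k * q -
        (q * G k + 1 / 2 * (B E x x + ((k : ℝ) - B E x v / q) * B E x v
          + ((k : ℝ) - B E x v / q) * (B E x v + ((k : ℝ) - B E x v / q) * q) - (k * q) ^ 2 / q))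
        = (B E x v * k + q * k - q * G k) + 1 / 2 * (B E x x - B E x v ^ 2 / q) := by
      field_simp
      ring
    have e4 : ∀ A : ℝ, A = (B E x v * k + q * k - q * G k) + 1 / 2 * (B E x x - B E x v ^ 2 / q) →
       q * G (B E x v / q) + 1 / 2 * (B E x x - B E x v ^ 2 / q) - β / 2 - ε ≤ A - β / 2 := by
      intro A hA
      rw [hA]; linarith
    refine e4 _ ?_
    field_simp
    ring
  · intro x
    simp only [hφ, hV]
    ring
  · intro hcon
    have hs := second_diff 1 E c w β φ hcon ((1 / 4 : ℝ) • v) ((1 / 4 : ℝ) • v)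
    have ha : ∀ t : ℝ, 0 ≤ t → t ≤ 1 → φ (t • v) = q * t + t * inner ℝ w v + β / 2 := by
      intro t ht0 ht1
      simp only [hφ, hh]
      rw [B_smul_left, B_smul_left, B_smul_right, ← hq, mul_div_cancel_right₀ _ hq0.ne',
        G_of_mem ht0 ht1, inner_smul_right]
      field_simp
      ring
    rw [← add_smul, sub_self, ← zero_smul ℝ v, ha _ (by norm_num) (by norm_num),
      ha _ (by norm_num) (by norm_num), ha _ (by norm_num) (by norm_num), B_smul_left,
      B_smul_right, ← hq] at hs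
    norm_num at hs
    nlinarith

lemma f₀_one (E : X ≃L[ℝ] X) (c : X) (β : ℝ) (x : X) :
    f₀ 1 E c c β x = ((1 / 2 * B E x x + inner ℝ c x + β / 2 : ℝ) : EReal) := by
  simp only [f₀, Real.sqrt_one, one_smul]
  rw [← two_smul ℝ c, smul_smul, sub_self]
  norm_num
  unfold B
  congr 1
  norm_num
  ring

/-- `f₀` solves the equation when `τ = 1` and `c = w`. -/
theorem f₀_solves (E : X ≃L[ℝ] X) (hE : PosDef E) (c : X) (β : ℝ) :
    Solves 1 E c c β (f₀ 1 E c c β) := by
  have e : f₀ 1 E c c β = fun x => ((1 / 2 * B E x x + inner ℝ c x + β / 2 : ℝ) : EReal) :=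
    funext fun x => f₀_one E c β x
  have main : ∀ x z, inner ℝ (E x + c) z - (1 / 2 * B E z z + inner ℝ c z + β / 2)
      = B E x z - 1 / 2 * B E z z - β / 2 := by
    intro x z
    rw [inner_add_left]
    unfold B
    ring
  rw [e]
  refine solves_of 1 E c c β _ (fun x => 1 / 2 * B E x x - β / 2) ?_ ?_ ?_
  · intro x z
    rw [main]
    have := B_nonneg hE (x - z)
    rw [B_sub_left, B_sub_right, B_sub_right, B_symm hE z x] at this
    linarith
  · intro x ε hε
    refine ⟨x, ?_⟩
    rw [main]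
    linarith
  · intro x
    ring

/-- Uniqueness when `τ = 1` and `c = w`. -/
theorem eq_f₀_of_solves (E : X ≃L[ℝ] X) (hE : PosDef E) (c : X) (β : ℝ) (f : X → EReal)
    (hf : Solves 1 E c c β f) : f = f₀ 1 E c c β := by
  have hf' : ∀ x, f x = conj f (E x + c) + ((inner ℝ c x : ℝ) : EReal) + (β : EReal) := by
    intro x
    have := hf x
    simpa using this
  have hbot : ∀ x, f x ≠ ⊥ := by
    intro x hx
    have h1 : ∀ y, conj f y = ⊤ := by
      intro y
      apply top_le_iff.1
      refine le_trans (le_of_eq ?_) (le_iSup _ x)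
      rw [hx]
      rfl
    have h2 := hf' x
    rw [h1, hx, EReal.top_add_coe, EReal.top_add_coe] at h2
    exact bot_ne_top h2
  have hge : ∀ x, f₀ 1 E c c β x ≤ f x := by
    intro x
    rw [f₀_one]
    induction h : f x with
    | bot => exact absurd h (hbot x)
    | top => exact le_top
    | coe r =>
      have h2 := hf' x
      have h3 : (((inner ℝ (E x + c) x - r : ℝ)) : EReal) ≤ conj f (E x + c) := by
        refine le_trans (le_of_eq ?_) (le_iSup _ x)
        rw [h, EReal.coe_sub]
      have h4 : ((inner ℝ (E x + c) x - r + inner ℝ c x + β : ℝ) : EReal) ≤ f x := by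
        rw [h2, EReal.coe_add, EReal.coe_add]
        gcongr
      rw [h] at h4
      have h5 : inner ℝ (E x + c) x - r + inner ℝ c x + β ≤ r := by exact_mod_cast h4
      rw [inner_add_left] at h5
      have h6 : 1 / 2 * B E x x + inner ℝ c x + β / 2 ≤ r := by
        unfold B; linarith
      exact_mod_cast h6
  funext x
  apply le_antisymm _ (hge x)
  have h1 : conj f (E x + c) ≤ conj (f₀ 1 E c c β) (E x + c) := by
    refine iSup_mono fun z => ?_
    exact EReal.sub_le_sub le_rfl (hge z)
  have h2 := f₀_solves E hE c β x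
  rw [hf' x, h2]
  have h3 : ((1 : ℝ) : EReal) * conj (f₀ 1 E c c β) (E x + c) = conj (f₀ 1 E c c β) (E x + c) := by
    simp
  rw [h3]
  gcongr

/-- The equation has `f₀` as its only solution exactly when `τ = 1` and `c = w`. -/
theorem unique_iff [Nontrivial X] (τ : ℝ) (hτ : 0 < τ)
    (E : X ≃L[ℝ] X) (hE : PosDef E) (c w : X) (β : ℝ) :
    (∀ f : X → EReal, Solves τ E c w β f ↔ f = f₀ τ E c w β) ↔ (τ = 1 ∧ c = w) := by
  constructor
  · intro h
    by_contra hcon
    by_cases h1 : τ = 1
    · subst h1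
      have hcw : c ≠ w := fun hc => hcon ⟨rfl, hc⟩
      obtain ⟨f, hf1, hf2⟩ := exists_ne_of_shift E hE c w hcw β
      exact hf2 ((h f).1 hf1)
    · obtain ⟨f, hf1, hf2⟩ := exists_ne_of_tau τ hτ h1 E hE c w β
      exact hf2 ((h f).1 hf1)
  · rintro ⟨rfl, rfl⟩ f
    refine ⟨fun hf => eq_f₀_of_solves E hE c β f hf, ?_⟩
    rintro rfl
    exact f₀_solves E hE c β

end Q94.LF
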