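import Mathlib

/-!
# The logarithmic distortion `K(F) = ‖dev₃ log U‖²`
-/

open scoped Topology Matrix
open Matrix Set Filter

namespace Q94.LH

/-- Real `3 × 3` matrices. -/
abbrev M3 := Matrix (Fin 3) (Fin 3) ℝ

/-- The right stretch tensor `U = √(FᵀF)` (functional calculus of symmetric matrices). -/
noncomputable def stretch (F : M3) : M3 := cfc Real.sqrt (Fᵀ * F)

/-- `log U`, the logarithm of the symmetric positive definite matrix `U`. -/
noncomputable def logU (F : M3) : M3 := cfc Real.log (stretch F)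

/-- The deviatoric part `X - (1/3) tr(X) 1`. -/
noncomputable def dev (X : M3) : M3 := X - (X.trace / 3) • (1 : M3)

/-- `K(F) = ‖dev₃ log U‖²`, with `‖X‖² = tr(X Xᵀ)`. -/
noncomputable def K (F : M3) : ℝ := (dev (logU F) * (dev (logU F))ᵀ).trace

/-- Legendre-Hadamard ellipticity of `F ↦ W(K(F))` on `GL⁺(3)`. -/
def LHElliptic (W : ℝ → ℝ) : Prop :=
  ∀ F : M3, 0 < F.det → ∀ ξ η : Fin 3 → ℝ, ξ ≠ 0 → η ≠ 0 →
    0 < deriv (deriv fun t : ℝ => W (K (F + t • vecMulVec ξ η))) 0

lemma herm (F : M3) : (Fᵀ * F).IsHermitian := by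
  have := isHermitian_conjTranspose_mul_self F
  rwa [conjTranspose_eq_transpose_of_trivial] at this

lemma posdef {F : M3} (h : F.det ≠ 0) : (Fᵀ * F).PosDef := by
  have h1 : Function.Injective F.mulVec :=
    Matrix.mulVec_injective_iff_isUnit.2 ((Matrix.isUnit_iff_isUnit_det F).2 (isUnit_iff_ne_zero.2 h))
  have := PosDef.conjTranspose_mul_self F h1
  rwa [conjTranspose_eq_transpose_of_trivial] at this

lemma spec_pos {F : M3} (h : F.det ≠ 0) {x : ℝ} (hx : x ∈ spectrum ℝ (Fᵀ * F)) : 0 < x := by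
  rw [(herm F).spectrum_real_eq_range_eigenvalues] at hx
  obtain ⟨i, rfl⟩ := hx
  exact (posdef h).eigenvalues_pos i

lemma logU_eq {F : M3} (h : F.det ≠ 0) : logU F = cfc (fun x => Real.log x / 2) (Fᵀ * F) := by
  unfold logU stretch
  have h1 : ContinuousOn Real.log (Real.sqrt '' spectrum ℝ (Fᵀ * F)) := by
    refine Real.continuousOn_log.mono ?_
    rintro _ ⟨x, hx, rfl⟩
    exact (Real.sqrt_pos.2 (spec_pos h hx)).ne'
  rw [← cfc_comp' Real.log Real.sqrt (Fᵀ * F) h1 Real.continuous_sqrt.continuousOn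
    (herm F).isSelfAdjoint]
  refine cfc_congr fun x hx => ?_
  exact Real.log_sqrt (spec_pos h hx).le

lemma trace_cfc (A : M3) (hA : A.IsHermitian) (f : ℝ → ℝ) :
    (cfc f A).trace = ∑ i, f (hA.eigenvalues i) := by
  rw [hA.cfc_eq, IsHermitian.cfc, Unitary.conjStarAlgAut_apply, Matrix.trace_mul_cycle]
  simp [Matrix.trace]

lemma spec_fin (A : M3) (f : ℝ → ℝ) : ContinuousOn f (spectrum ℝ A) := by
  have : (spectrum ℝ A).Finite := Matrix.finite_real_spectrum
  exact this.continuousOn f

/-- `K(F)` in terms of the eigenvalues of `FᵀF`. -/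
lemma K_eq {F : M3} (h : F.det ≠ 0) :
    K F = ∑ i, (Real.log ((herm F).eigenvalues i) / 2) ^ 2
      - (∑ i, Real.log ((herm F).eigenvalues i) / 2) ^ 2 / 3 := by
  unfold K
  rw [logU_eq h]
  set A := Fᵀ * F with hA
  set X : M3 := cfc (fun x => Real.log x / 2) A with hX
  have hXs : Xᵀ = X := by
    have h1 : IsSelfAdjoint X := cfc_predicate _ _
    have h2 := h1.star_eq
    rwa [star_eq_conjTranspose, conjTranspose_eq_transpose_of_trivial] at h2
  have hXX : X * X = cfc (fun x => (Real.log x / 2) ^ 2) A := by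
    rw [hX, ← cfc_mul _ _ A (spec_fin A _) (spec_fin A _)]
    refine cfc_congr fun x _ => ?_
    ring
  have hd : (dev X)ᵀ = dev X := by
    unfold dev
    rw [transpose_sub, hXs, transpose_smul, transpose_one]
  rw [hd]
  unfold dev
  rw [sub_mul, mul_sub, mul_sub, trace_sub, trace_sub, trace_sub, hXX]
  simp only [smul_mul_assoc, mul_smul_comm, one_mul, mul_one, trace_smul, trace_one,
    Fintype.card_fin, smul_eq_mul]
  rw [hX, trace_cfc A (herm F), trace_cfc A (herm F)]
  push_cast
  ring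

lemma K_eq_roots {F : M3} (h : F.det ≠ 0) :
    K F = ((Fᵀ * F).charpoly.roots.map fun x => (Real.log x / 2) ^ 2).sum
      - (((Fᵀ * F).charpoly.roots.map fun x => Real.log x / 2).sum) ^ 2 / 3 := by
  rw [K_eq h, (herm F).roots_charpoly_eq_eigenvalues]
  simp [Finset.sum]

lemma K_nonneg (F : M3) : 0 ≤ K F := by
  unfold K
  have := (posSemidef_self_mul_conjTranspose (dev (logU F))).trace_nonneg
  rwa [conjTranspose_eq_transpose_of_trivial] at this

/-- `K` of a diagonal matrix. -/
lemma K_diag (x y z : ℝ) :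
    K (diagonal ![Real.exp x, Real.exp y, Real.exp z])
      = x ^ 2 + y ^ 2 + z ^ 2 - (x + y + z) ^ 2 / 3 := by
  have hdet : (diagonal ![Real.exp x, Real.exp y, Real.exp z] : M3).det ≠ 0 := by
    rw [det_diagonal, Fin.prod_univ_three]
    simp only [Matrix.cons_val]
    positivity
  rw [K_eq_roots hdet, diagonal_transpose, diagonal_mul_diagonal, charpoly_diagonal]
  have hr : ∀ d : Fin 3 → ℝ, (∏ i, (Polynomial.X - Polynomial.C (d i))).roots
      = Finset.univ.val.map d := by
    intro d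
    have h := Polynomial.roots_multiset_prod_X_sub_C (Finset.univ.val.map d)
    rw [Multiset.map_map] at h
    exact h
  rw [hr]
  simp only [Multiset.map_map, Function.comp]
  have hs : ∀ g : Fin 3 → ℝ, (Multiset.map g Finset.univ.val).sum = g 0 + g 1 + g 2 := by
    intro g
    exact Fin.sum_univ_three g
  rw [hs, hs]
  simp only [Matrix.cons_val]
  rw [← Real.exp_add, ← Real.exp_add, ← Real.exp_add, Real.log_exp, Real.log_exp, Real.log_exp]
  ring

end Q94.LH
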