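import Pool.Agent.Q94.LHBase

/-!
# No energy `W(‖dev₃ log U‖²)` is Legendre-Hadamard elliptic
-/

open scoped Topology Matrix
open Matrix Set Filter

namespace Q94.LH

section cont
open scoped Matrix.Norms.L2Operator

/-- `K` is continuous along continuous paths in `GL⁺(3)`. -/
lemma K_continuousOn {G : ℝ → M3} {s : Set ℝ} (hG : ContinuousOn G s)
    (hd : ∀ t ∈ s, (G t).det ≠ 0) : ContinuousOn (fun t => K (G t)) s := by
  have hA : ContinuousOn (fun t => (G t)ᵀ * G t) s := by
    refine ContinuousOn.mul ?_ hG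
    exact (Continuous.matrix_transpose continuous_id).comp_continuousOn hG
  have h1 : ContinuousOn (fun t => cfc (fun x => Real.log x / 2) ((G t)ᵀ * G t)) s := by
    refine ContinuousOn.cfc_of_mem_nhdsSet (s := Ioi (0 : ℝ)) (fun x => Real.log x / 2) ?_ hA
      (fun t _ => (herm (G t)).isSelfAdjoint) ?_
    · rw [isOpen_Ioi.mem_nhdsSet]
      intro x hx
      simp only [mem_iUnion] at hx
      obtain ⟨t, ht, hx⟩ := hx
      exact spec_pos (hd t ht) hx
    · exact (Real.continuousOn_log.mono fun x (hx : 0 < x) => hx.ne').div_const 2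
  have h2 : ContinuousOn (fun t => logU (G t)) s :=
    h1.congr fun t ht => logU_eq (hd t ht)
  have h3 : Continuous fun X : M3 => (dev X * (dev X)ᵀ).trace := by
    unfold dev
    fun_prop
  exact h3.comp_continuousOn h2

end cont

/-- Convexity along rank-one segments. -/
lemma strictConvex {W : ℝ → ℝ} (hW : ContinuousOn W (Ici 0)) (hLH : LHElliptic W) (F : M3)
    {ξ η : Fin 3 → ℝ} (hξ : ξ ≠ 0) (hη : η ≠ 0) {a b : ℝ}
    (hd : ∀ t ∈ Icc a b, 0 < (F + t • vecMulVec ξ η).det) :
    StrictConvexOn ℝ (Icc a b) fun t => W (K (F + t • vecMulVec ξ η)) := by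
  refine strictConvexOn_of_deriv2_pos' (convex_Icc a b) ?_ ?_
  · refine hW.comp (K_continuousOn (by fun_prop) fun t ht => (hd t ht).ne') ?_
    intro t _
    exact K_nonneg _
  · intro t ht
    have h1 := hLH (F + t • vecMulVec ξ η) (hd t ht) ξ η hξ hη
    set g : ℝ → ℝ := fun t => W (K (F + t • vecMulVec ξ η)) with hg
    have e1 : (fun s : ℝ => W (K (F + t • vecMulVec ξ η + s • vecMulVec ξ η)))
        = fun s => g (t + s) := by
      funext s
      simp only [hg]
      rw [add_assoc, ← add_smul]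
    rw [e1] at h1
    have e2 : (deriv fun s => g (t + s)) = fun s => deriv g (t + s) := by
      funext s
      exact deriv_comp_const_add g t s
    rw [e2, deriv_comp_const_add (deriv g) t 0, add_zero] at h1
    exact h1

/-- `W` is strictly increasing. -/
lemma W_mono {W : ℝ → ℝ} (hW : ContinuousOn W (Ici 0)) (hLH : LHElliptic W) {k l : ℝ}
    (hk : 0 ≤ k) (hkl : k < l) : W k < W l := by
  set D : ℝ := √(k / 2) with hD
  set s : ℝ := √((l - k) * (3 / 2)) with hs
  have hD2 : 2 * D ^ 2 = k := by rw [hD, Real.sq_sqrt (by positivity)]; ring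
  have hs2 : s ^ 2 = (l - k) * (3 / 2) := by
    rw [hs, Real.sq_sqrt]; apply mul_nonneg <;> linarith
  have hs0 : 0 < s := Real.sqrt_pos.2 (by apply mul_pos <;> linarith)
  set F : M3 := Matrix.diagonal ![Real.exp D, Real.exp 0, Real.exp (-D)] with hF
  set e2 : Fin 3 → ℝ := ![0, 1, 0] with he2
  have he : e2 ≠ 0 := by
    intro h
    have := congrFun h 1
    simp [he2] at this
  have hpath : ∀ t : ℝ, F + t • vecMulVec e2 e2
      = Matrix.diagonal ![Real.exp D, 1 + t, Real.exp (-D)] := by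
    intro t
    ext i j
    fin_cases i <;> fin_cases j <;>
      simp [hF, he2, Matrix.diagonal, vecMulVec_apply]
  have hpath2 : ∀ u : ℝ, F + (Real.exp u - 1) • vecMulVec e2 e2
      = Matrix.diagonal ![Real.exp D, Real.exp u, Real.exp (-D)] := by
    intro u
    rw [hpath]
    congr 4
    ring
  have hKu : ∀ u : ℝ, K (F + (Real.exp u - 1) • vecMulVec e2 e2) = k + 2 / 3 * u ^ 2 := by
    intro u
    rw [hpath2, K_diag, ← hD2]
    ring
  have hconv := strictConvex hW hLH F he he (a := Real.exp (-s) - 1) (b := Real.exp s - 1) (by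
    intro t ht
    rw [hpath, det_diagonal, Fin.prod_univ_three]
    simp only [Matrix.cons_val]
    have : 0 < 1 + t := by linarith [ht.1, Real.exp_pos (-s)]
    positivity)
  have h1 : Real.exp (-s) < 1 := by
    rw [← Real.exp_zero]; exact Real.exp_lt_exp.2 (by linarith)
  have h2 : 1 < Real.exp s := Real.one_lt_exp_iff.2 hs0
  -- `0` is a convex combination of the endpoints
  set A := Real.exp (-s) - 1 with hA
  set B := Real.exp s - 1 with hB
  have hA0 : A < 0 := by rw [hA]; linarith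
  have hB0 : 0 < B := by rw [hB]; linarith
  have hAB : 0 < B - A := by linarith
  have hw1 : 0 < B / (B - A) := div_pos hB0 hAB
  have hw2 : 0 < -A / (B - A) := div_pos (by linarith) hAB
  have hw3 : B / (B - A) + -A / (B - A) = 1 := by field_simp; ring
  have h3 := hconv.2 (left_mem_Icc.2 (by linarith)) (right_mem_Icc.2 (by linarith))
    (show A ≠ B by linarith) hw1 hw2 hw3
  simp only [smul_eq_mul] at h3
  have e0 : B / (B - A) * A + -A / (B - A) * B = Real.exp 0 - 1 := by
    rw [Real.exp_zero]; field_simp; ring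
  rw [e0, hKu 0, hA, hB, hKu (-s), hKu s] at h3
  have e4 : k + 2 / 3 * (0 : ℝ) ^ 2 = k := by ring
  have e5 : k + 2 / 3 * (-s) ^ 2 = l := by rw [neg_sq, hs2]; ring
  have e6 : k + 2 / 3 * s ^ 2 = l := by rw [hs2]; ring
  rw [e4, e5, e6, ← hA, ← hB, ← add_mul] at h3
  have e7 : B / (B - A) + -A / (B - A) = 1 := by field_simp; ring
  rw [e7, one_mul] at h3
  exact h3

/-- Upper bound of `K` from one-sided bounds of the eigenvalues. -/
lemma K_le {F : M3} (hdet : F.det = 1) {B : ℝ}
    (h : (∀ i, Real.log ((herm F).eigenvalues i) ≤ B) ∨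
      ∀ i, -B ≤ Real.log ((herm F).eigenvalues i)) : K F ≤ 3 / 2 * B ^ 2 := by
  have hne : F.det ≠ 0 := by rw [hdet]; norm_num
  rw [K_eq hne]
  have hpos : ∀ i, 0 < (herm F).eigenvalues i := fun i => (posdef hne).eigenvalues_pos i
  have hprod : ∏ i, (herm F).eigenvalues i = 1 := by
    have h1 := (herm F).det_eq_prod_eigenvalues
    rw [det_mul, det_transpose, hdet] at h1
    simpa using h1.symm
  have hsum : ∑ i, Real.log ((herm F).eigenvalues i) = 0 := by
    rw [← Real.log_prod fun i _ => (hpos i).ne', hprod, Real.log_one]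
  rw [Fin.sum_univ_three] at hsum ⊢
  rw [Fin.sum_univ_three]
  set x := Real.log ((herm F).eigenvalues 0)
  set y := Real.log ((herm F).eigenvalues 1)
  set z := Real.log ((herm F).eigenvalues 2)
  have hz : z = -x - y := by linarith
  rcases h with h | h
  · have h0 : x ≤ B := h 0
    have h1 : y ≤ B := h 1
    have h2 : z ≤ B := h 2
    rw [hz] at h2 ⊢
    nlinarith [mul_nonneg (sub_nonneg.2 h0) (sub_nonneg.2 h1),
      mul_nonneg (sub_nonneg.2 h0) (sub_nonneg.2 h2), mul_nonneg (sub_nonneg.2 h1) (sub_nonneg.2 h2)]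
  · have h0 : -B ≤ x := h 0
    have h1 : -B ≤ y := h 1
    have h2 : -B ≤ z := h 2
    rw [hz] at h2 ⊢
    nlinarith [mul_nonneg (sub_nonneg.2 h0) (sub_nonneg.2 h1),
      mul_nonneg (sub_nonneg.2 h0) (sub_nonneg.2 h2), mul_nonneg (sub_nonneg.2 h1) (sub_nonneg.2 h2)]

/-- The trace of `FᵀF` bounds the eigenvalues. -/
lemma eig_le_trace {F : M3} (h : F.det ≠ 0) (i : Fin 3) :
    (herm F).eigenvalues i ≤ (Fᵀ * F).trace := by
  have h1 := (herm F).trace_eq_sum_eigenvalues
  simp only [RCLike.ofReal_real_eq_id, id_eq] at h1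
  rw [h1]
  exact Finset.single_le_sum (f := fun i => (herm F).eigenvalues i)
    (fun j _ => ((posdef h).eigenvalues_pos j).le) (Finset.mem_univ i)

/-- The trace of `G Gᵀ`, `G = F⁻¹`, bounds the inverse eigenvalues. -/
lemma eig_ge_trace {F G : M3} (h : F.det ≠ 0) (hG : G * F = 1) (i : Fin 3) :
    ((herm F).eigenvalues i)⁻¹ ≤ (G * Gᵀ).trace := by
  set A := Fᵀ * F with hA
  have hFG : F * G = 1 := mul_eq_one_comm.1 hG
  have h1 : A * (G * Gᵀ) = 1 := by
    rw [hA, Matrix.mul_assoc, ← Matrix.mul_assoc F G, hFG, Matrix.one_mul, ← transpose_mul, hG,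
      transpose_one]
  have h2 : cfc (fun x : ℝ => x⁻¹) A * A = 1 := by
    have h3 : cfc (fun x : ℝ => x) A = A := cfc_id' ℝ A (herm F).isSelfAdjoint
    nth_rewrite 2 [← h3]
    rw [← cfc_mul _ _ A (spec_fin A _) (spec_fin A _)]
    rw [← cfc_const_one ℝ A (herm F).isSelfAdjoint]
    refine cfc_congr fun x hx => ?_
    exact inv_mul_cancel₀ (spec_pos h hx).ne'
  have h4 : G * Gᵀ = cfc (fun x : ℝ => x⁻¹) A := by
    calc G * Gᵀ = (cfc (fun x : ℝ => x⁻¹) A * A) * (G * Gᵀ) := by rw [h2, Matrix.one_mul]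
      _ = cfc (fun x : ℝ => x⁻¹) A := by rw [Matrix.mul_assoc, h1, Matrix.mul_one]
  rw [h4, trace_cfc A (herm F)]
  exact Finset.single_le_sum (f := fun i => ((herm F).eigenvalues i)⁻¹)
    (fun j _ => (inv_pos.2 ((posdef h).eigenvalues_pos j)).le) (Finset.mem_univ i)

/-- No `W` gives a Legendre-Hadamard elliptic energy. -/
theorem not_LH {W : ℝ → ℝ} (hW : ContinuousOn W (Ici 0)) : ¬ LHElliptic W := by
  intro hLH
  -- `b = e^6`, `c = e^(-6)`, `s = √2`
  set b : ℝ := Real.exp 6 with hb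
  set c : ℝ := Real.exp (-6) with hc
  set r : ℝ := √2 with hr
  have hbc : b * c = 1 := by rw [hb, hc, ← Real.exp_add]; norm_num
  have hr2 : r ^ 2 = 2 := Real.sq_sqrt (by norm_num)
  have hb0 : 0 < b := Real.exp_pos _
  have hc0 : 0 < c := Real.exp_pos _
  have hb2 : b ^ 2 = Real.exp 12 := by rw [hb, ← Real.exp_nat_mul]; norm_num
  have hc2 : c ^ 2 = Real.exp (-12) := by rw [hc, ← Real.exp_nat_mul]; norm_num
  set F : M3 := Matrix.diagonal ![Real.exp 12, Real.exp 0, Real.exp (-12)] with hF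
  set ξ : Fin 3 → ℝ := ![b, r, c] with hξ
  set η : Fin 3 → ℝ := ![b, -r, c] with hη
  have hξ0 : ξ ≠ 0 := by
    intro h
    have := congrFun h 0
    simp [hξ] at this
    exact hb0.ne' this
  have hη0 : η ≠ 0 := by
    intro h
    have := congrFun h 0
    simp [hη] at this
    exact hb0.ne' this
  have hmat : ∀ t : ℝ, F + t • vecMulVec ξ η = !![b ^ 2 + t * (b * b), t * (b * -r), t * (b * c);
      t * (r * b), 1 + t * (r * -r), t * (r * c); t * (c * b), t * (c * -r), c ^ 2 + t * (c * c)] := by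
    intro t
    rw [hF, hξ, hη, ← hb2, ← hc2, Real.exp_zero]
    ext i j
    fin_cases i <;> fin_cases j <;>
      simp [Matrix.diagonal, vecMulVec_apply]
  have hdet : ∀ t : ℝ, (F + t • vecMulVec ξ η).det = 1 := by
    intro t
    rw [hmat, det_fin_three]
    simp only [of_apply, cons_val', cons_val_zero, cons_val_one, cons_val, cons_val_fin_one]
    have e : b ^ 2 * c ^ 2 = 1 := by rw [← mul_pow, hbc]; norm_num
    linear_combination (1 + 2 * t - t * r ^ 2) * e - t * hr2
  have hne : ∀ t : ℝ, (F + t • vecMulVec ξ η).det ≠ 0 := fun t => by rw [hdet]; norm_num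
  set R : ℝ := 11 + 4 * b ^ 2 + 4 * c ^ 2 with hR
  have hR0 : 0 < R := by positivity
  have hRle : Real.log R ≤ 27 / 2 := by
    rw [Real.log_le_iff_le_exp hR0]
    have e1 : (2.7182818283 : ℝ) < Real.exp 1 := Real.exp_one_gt_d9
    have h3 : Real.exp (3 / 2) ^ 2 = Real.exp 1 ^ 3 := by
      rw [← Real.exp_nat_mul, ← Real.exp_nat_mul]; norm_num
    have h4 : (20 : ℝ) < Real.exp 1 ^ 3 := by
      have : (2.7182818283 : ℝ) ^ 3 < Real.exp 1 ^ 3 := pow_lt_pow_left₀ e1 (by norm_num) (by norm_num)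
      refine lt_trans ?_ this
      norm_num
    have h5 : (4.4 : ℝ) < Real.exp (3 / 2) := by
      rw [← h3] at h4
      nlinarith [Real.exp_pos (3 / 2 : ℝ)]
    have h6 : (4096 : ℝ) ≤ b ^ 2 := by
      have h7 : Real.exp 12 = Real.exp 1 ^ 12 := by rw [← Real.exp_nat_mul]; norm_num
      rw [hb2, h7]
      have : (2 : ℝ) ^ 12 ≤ Real.exp 1 ^ 12 := pow_le_pow_left₀ (by norm_num) (by linarith) 12
      exact le_trans (by norm_num) this
    have h8 : c ^ 2 ≤ 1 := by
      rw [hc2]; exact Real.exp_le_one_iff.2 (by norm_num)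
    have h9 : Real.exp (27 / 2) = Real.exp (3 / 2) * b ^ 2 := by
      rw [hb2, ← Real.exp_add]; norm_num
    rw [h9, hR]
    nlinarith
  have hF288 : K F = 288 := by
    rw [hF, K_diag]; norm_num
  -- the two other matrices
  have hKm : K (F + (-1 : ℝ) • vecMulVec ξ η) ≤ 3 / 2 * (27 / 2) ^ 2 := by
    refine K_le (hdet _) (Or.inl fun i => ?_)
    refine le_trans (Real.log_le_log ((posdef (hne _)).eigenvalues_pos i)
      ((eig_le_trace (hne _) i).trans (le_of_eq ?_))) hRle
    rw [hmat, trace_fin_three]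
    simp [Matrix.mul_apply, Fin.sum_univ_three]
    rw [hR]
    linear_combination (2 * b ^ 2 + 2 * c ^ 2 + r ^ 2 + 4) * hr2 + 2 * (b * c + 1) * hbc
  have hKp : K (F + (1 : ℝ) • vecMulVec ξ η) ≤ 3 / 2 * (27 / 2) ^ 2 := by
    refine K_le (hdet _) (Or.inr fun i => ?_)
    set G : M3 := !![0, r * c, -1; -(r * c), 3, -(r * b); -1, r * b, 0] with hG
    have hGF : G * (F + (1 : ℝ) • vecMulVec ξ η) = 1 := by
      rw [hmat, hG]
      ext i j
      fin_cases i <;> fin_cases j <;> simp [Matrix.mul_apply, Fin.sum_univ_three]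
      · linear_combination b * c * hr2 + hbc
      · linear_combination (-r * c) * hr2
      · linear_combination c ^ 2 * hr2
      · linear_combination (-3 * r * b) * hbc
      · linear_combination 2 * r ^ 2 * hbc - hr2
      · linear_combination (-3 * r * c) * hbc
      · linear_combination b ^ 2 * hr2
      · linear_combination (-r * b) * hr2
      · linear_combination b * c * hr2 + hbc
    have h1 := eig_ge_trace (hne 1) hGF i
    have h2 : (G * Gᵀ).trace = R := by
      rw [hG, trace_fin_three]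
      simp [Matrix.mul_apply, Fin.sum_univ_three]
      rw [hR]
      linear_combination (2 * b ^ 2 + 2 * c ^ 2) * hr2
    rw [h2] at h1
    have hpos := (posdef (hne 1)).eigenvalues_pos i
    have h3 := Real.log_le_log (inv_pos.2 hpos) h1
    rw [Real.log_inv] at h3
    linarith
  have hconv := strictConvex hW hLH F hξ0 hη0 (a := -1) (b := 1) fun t _ => by
    rw [hdet]; norm_num
  have h3 := hconv.2 (left_mem_Icc.2 (by norm_num)) (right_mem_Icc.2 (by norm_num))
    (show (-1 : ℝ) ≠ 1 by norm_num) (show (0 : ℝ) < 1 / 2 by norm_num)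
    (show (0 : ℝ) < 1 / 2 by norm_num) (by norm_num)
  simp only [smul_eq_mul] at h3
  have e0 : F + ((1 : ℝ) / 2 * -1 + 1 / 2 * 1) • vecMulVec ξ η = F := by norm_num
  rw [e0, hF288] at h3
  have h4 := W_mono hW hLH (K_nonneg (F + (-1 : ℝ) • vecMulVec ξ η)) (l := 288)
    (lt_of_le_of_lt hKm (by norm_num))
  have h5 := W_mono hW hLH (K_nonneg (F + (1 : ℝ) • vecMulVec ξ η)) (l := 288)
    (lt_of_le_of_lt hKp (by norm_num))
  linarith

end Q94.LH
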