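import Mathlib

/-!
# Logarithmic potentials of harmonic measures of discs
-/

open scoped BigOperators Topology ENNReal Real
open Filter Finset MeasureTheory Set

namespace Q94.LC

/-- Normalised Lebesgue measure on `(0, 2π]`. -/
noncomputable def P : Measure ℝ := (ENNReal.ofReal (2 * π))⁻¹ • volume.restrict (Ioc 0 (2 * π))

instance : IsProbabilityMeasure P := by
  constructor
  unfold P
  rw [Measure.smul_apply, Measure.restrict_apply_univ, Real.volume_Ioc, sub_zero, smul_eq_mul]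
  exact ENNReal.inv_mul_cancel (by simp [Real.pi_pos]) ENNReal.ofReal_ne_top

lemma integral_P (f : ℝ → ℝ) : ∫ θ, f θ ∂P = (2 * π)⁻¹ * ∫ θ in (0 : ℝ)..2 * π, f θ := by
  unfold P
  rw [integral_smul_measure, intervalIntegral.integral_of_le (by positivity), ENNReal.toReal_inv,
    ENNReal.toReal_ofReal (by positivity)]
  rfl

lemma integrable_P {f : ℝ → ℝ} (h : IntervalIntegrable f volume 0 (2 * π)) : Integrable f P := by
  unfold P
  refine Integrable.smul_measure ?_ (by simp [Real.pi_pos])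
  exact (intervalIntegrable_iff_integrableOn_Ioc_of_le (by positivity)).1 h

/-- The point `e^{iθ}`. -/
noncomputable def ep (θ : ℝ) : ℂ := Complex.exp (θ * Complex.I)

lemma ep_cont : Continuous ep := by unfold ep; fun_prop

lemma norm_ep (θ : ℝ) : ‖ep θ‖ = 1 := Complex.norm_exp_ofReal_mul_I θ

lemma countable_ep (c : ℂ) : {θ : ℝ | ep θ = c}.Countable := by
  rcases Set.eq_empty_or_nonempty {θ : ℝ | ep θ = c} with h | ⟨θ₀, h⟩
  · rw [h]; exact Set.countable_empty
  · refine (Set.countable_range (fun k : ℤ => θ₀ + k * (2 * π))).mono ?_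
    intro θ hθ
    have h1 : Complex.exp (θ * Complex.I) = Complex.exp (θ₀ * Complex.I) := by
      have a : ep θ = c := hθ
      have b : ep θ₀ = c := h
      unfold ep at a b
      rw [a, b]
    obtain ⟨k, hk⟩ := Complex.exp_eq_exp_iff_exists_int.1 h1
    refine ⟨k, ?_⟩
    have h2 : (θ : ℂ) * Complex.I = ((θ₀ + k * (2 * π) : ℝ) : ℂ) * Complex.I := by
      rw [hk]; push_cast; ring
    have h3 := mul_right_cancel₀ Complex.I_ne_zero h2
    exact (Complex.ofReal_injective h3).symm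

lemma ae_ne (c : ℂ) : ∀ᵐ θ ∂P, ep θ ≠ c := by
  have h : ∀ᵐ θ : ℝ, ep θ ≠ c := (countable_ep c).ae_notMem volume
  unfold P
  exact Measure.ae_smul_measure (ae_restrict_of_ae h) _

lemma ae_ne_lin {α β : ℂ} (h : 0 < max ‖α‖ ‖β‖) : ∀ᵐ θ ∂P, α + β * ep θ ≠ 0 := by
  by_cases hβ : β = 0
  · subst hβ
    refine Filter.Eventually.of_forall fun θ => ?_
    simpa using h
  · filter_upwards [ae_ne (-α / β)] with θ hθ
    intro h0
    apply hθ
    rw [eq_div_iff hβ]
    linear_combination h0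

lemma log_lin {α β : ℂ} (h : 0 < max ‖α‖ ‖β‖) :
    Integrable (fun θ => Real.log ‖α + β * ep θ‖) P ∧
      ∫ θ, Real.log ‖α + β * ep θ‖ ∂P = Real.log (max ‖α‖ ‖β‖) := by
  by_cases hβ : β = 0
  · subst hβ
    simp
  · have e : (fun θ => Real.log ‖α + β * ep θ‖)
        =ᵐ[P] fun θ => Real.log ‖β‖ + Real.log ‖circleMap 0 1 θ - (-α / β)‖ := by
      filter_upwards [ae_ne (-α / β)] with θ hθ
      have h1 : circleMap 0 1 θ = ep θ := by simp [circleMap, ep]
      rw [h1, ← Real.log_mul (by simpa using hβ) (by simpa [sub_eq_zero] using hθ), ← norm_mul]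
      congr 2
      field_simp
      ring
    have hi : IntervalIntegrable (fun θ => Real.log ‖circleMap 0 1 θ - (-α / β)‖) volume 0
        (2 * π) := circleIntegrable_log_norm_sub_const (a := -α / β) (c := 0) 1
    have hi2 : Integrable (fun θ => Real.log ‖circleMap 0 1 θ - (-α / β)‖) P := integrable_P hi
    refine ⟨((integrable_const _).add hi2).congr e.symm, ?_⟩
    rw [integral_congr_ae e, integral_add (integrable_const _) hi2,
      integral_P (fun θ => Real.log ‖circleMap 0 1 θ - (-α / β)‖)]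
    have h2 := circleAverage_log_norm_sub_const_eq_posLog (a := -α / β)
    unfold Real.circleAverage at h2
    rw [smul_eq_mul] at h2
    simp only at h2
    rw [h2]
    simp only [integral_const, probReal_univ, smul_eq_mul, one_mul]
    rw [norm_div, norm_neg, Real.posLog]
    have hb : 0 < ‖β‖ := norm_pos_iff.2 hβ
    rcases le_total ‖α‖ ‖β‖ with h3 | h3
    · rw [max_eq_right h3, max_eq_left, add_zero]
      exact Real.log_nonpos (by positivity) ((div_le_one hb).2 h3)
    · have ha : 0 < ‖α‖ := hb.trans_le h3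
      rw [max_eq_left h3, max_eq_right, Real.log_div ha.ne' hb.ne']
      · ring
      · exact Real.log_nonneg ((one_le_div hb).2 h3)

/-- The Moebius map of the circle with `0 ↦ w`. -/
noncomputable def mob (w u : ℂ) : ℂ := (u + w) / (1 + (starRingEnd ℂ) w * u)

/-- Parametrisation of the circle of centre `ζ` and radius `ε`. -/
noncomputable def xp (ζ : ℂ) (ε : ℝ) (w : ℂ) (θ : ℝ) : ℂ := ζ + ε * mob w (ep θ)

lemma den_ne {w u : ℂ} (hw : ‖w‖ < 1) (hu : ‖u‖ = 1) : 1 + (starRingEnd ℂ) w * u ≠ 0 := by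
  intro h
  have h1 : (starRingEnd ℂ) w * u = -1 := by linear_combination h
  have h2 : ‖(starRingEnd ℂ) w * u‖ = 1 := by rw [h1]; simp
  rw [norm_mul, hu, mul_one, Complex.norm_conj] at h2
  linarith

lemma norm_mob {w u : ℂ} (hw : ‖w‖ < 1) (hu : ‖u‖ = 1) : ‖mob w u‖ = 1 := by
  have h1 : ‖u + w‖ = ‖1 + (starRingEnd ℂ) w * u‖ := by
    have h2 : ‖u + w‖ = ‖(starRingEnd ℂ) (u + w) * u‖ := by
      rw [norm_mul, Complex.norm_conj, hu, mul_one]
    rw [h2, map_add, add_mul]
    congr 2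
    rw [← Complex.normSq_eq_conj_mul_self, Complex.normSq_eq_norm_sq, hu]; norm_num
  unfold mob
  rw [norm_div, h1, div_self]
  rw [norm_ne_zero_iff]
  exact den_ne hw hu

lemma mob_cont {w : ℂ} (hw : ‖w‖ < 1) : Continuous fun θ : ℝ => mob w (ep θ) := by
  unfold mob
  exact (ep_cont.add continuous_const).div (continuous_const.add (continuous_const.mul ep_cont))
    fun θ => den_ne hw (norm_ep θ)

lemma xp_cont (ζ : ℂ) (ε : ℝ) {w : ℂ} (hw : ‖w‖ < 1) : Continuous (xp ζ ε w) := by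
  unfold xp
  exact continuous_const.add (continuous_const.mul (mob_cont hw))

lemma norm_xp_sub (ζ : ℂ) {ε : ℝ} (hε : 0 < ε) {w : ℂ} (hw : ‖w‖ < 1) (θ : ℝ) :
    ‖xp ζ ε w θ - ζ‖ = ε := by
  unfold xp
  rw [add_sub_cancel_left, norm_mul, norm_mob hw (norm_ep θ)]
  simp [abs_of_pos hε]

/-- The harmonic measure of the disc of centre `ζ` and radius `ε` at `ζ + ε w`. -/
noncomputable def ν (ζ : ℂ) (ε : ℝ) (w : ℂ) : Measure ℂ := P.map (xp ζ ε w)

/-- The exponential of the potential, in the normalised coordinate. -/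
noncomputable def m (w z : ℂ) : ℝ := max ‖z - w‖ ‖1 - (starRingEnd ℂ) w * z‖

lemma m_ge (w : ℂ) (z : ℂ) : 1 - ‖w‖ ≤ m w z := by
  rcases le_total 1 ‖z‖ with h | h
  · refine le_trans ?_ (le_max_left _ _)
    have := norm_sub_norm_le z w
    linarith
  · refine le_trans ?_ (le_max_right _ _)
    have h1 := norm_sub_norm_le (1 : ℂ) ((starRingEnd ℂ) w * z)
    rw [norm_one, norm_mul, Complex.norm_conj] at h1
    nlinarith [norm_nonneg w]

lemma m_pos {w : ℂ} (hw : ‖w‖ < 1) (z : ℂ) : 0 < m w z := by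
  have := m_ge w z
  linarith

/-- Comparison with the kernel. -/
lemma m_ge_dist {w₀ : ℂ} (hw₀ : ‖w₀‖ ≤ 1) {η : ℝ} (hη0 : 0 < η) (hη1 : η < 1) (z : ℂ) :
    √(1 - η) * ‖z - w₀‖ ≤ m ((1 - η : ℝ) * w₀) z := by
  have hs : 0 ≤ 1 - η := by linarith
  have key : ∀ A : ℝ, 0 ≤ A → (1 - η) * ‖z - w₀‖ ^ 2 ≤ A ^ 2 → √(1 - η) * ‖z - w₀‖ ≤ A := by
    intro A hA h
    refine abs_le_of_sq_le_sq' ?_ hA |>.2
    rw [mul_pow, Real.sq_sqrt hs]; exact h
  have hv : ‖w₀‖ ^ 2 ≤ 1 := by nlinarith [norm_nonneg w₀]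
  rcases le_total 1 ‖z‖ with h | h
  · refine le_trans ?_ (le_max_left _ _)
    apply key _ (norm_nonneg _)
    have hu : 1 ≤ ‖z‖ ^ 2 := by nlinarith [norm_nonneg z]
    rw [← Complex.normSq_eq_norm_sq, ← Complex.normSq_eq_norm_sq]
    rw [← Complex.normSq_eq_norm_sq] at hu hv
    rw [Complex.normSq_apply] at hu hv ⊢
    rw [Complex.normSq_apply]
    simp only [Complex.sub_re, Complex.sub_im, Complex.mul_re, Complex.mul_im, Complex.ofReal_re,
      Complex.ofReal_im, zero_mul, sub_zero, add_zero]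
    nlinarith [mul_nonneg hη0.le hs]
  · refine le_trans ?_ (le_max_right _ _)
    apply key _ (norm_nonneg _)
    have hu : ‖z‖ ^ 2 ≤ 1 := by nlinarith [norm_nonneg z]
    have hprod : 0 ≤ (1 - (1 - η) * ‖z‖ ^ 2) * (1 - (1 - η) * ‖w₀‖ ^ 2) := by
      apply mul_nonneg <;> nlinarith
    rw [← Complex.normSq_eq_norm_sq, ← Complex.normSq_eq_norm_sq]
    rw [← Complex.normSq_eq_norm_sq, ← Complex.normSq_eq_norm_sq] at hprod
    rw [Complex.normSq_apply, Complex.normSq_apply] at hprod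
    rw [Complex.normSq_apply, Complex.normSq_apply]
    simp only [Complex.sub_re, Complex.sub_im, Complex.mul_re, Complex.mul_im, Complex.ofReal_re,
      Complex.ofReal_im, Complex.one_re, Complex.one_im, Complex.conj_re, Complex.conj_im, map_mul,
      Complex.conj_ofReal, zero_mul, sub_zero, add_zero]
    nlinarith [hprod]

/-- The potential of `ν`. -/
lemma pot (ζ : ℂ) {ε : ℝ} (hε : 0 < ε) {w : ℂ} (hw : ‖w‖ < 1) (z : ℂ) :
    Integrable (fun y => Real.log ‖z - y‖) (ν ζ ε w) ∧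
      ∫ y, Real.log ‖z - y‖ ∂(ν ζ ε w) = Real.log ε + Real.log (m w ((z - ζ) / ε)) ∧
      ∀ᵐ y ∂(ν ζ ε w), z ≠ y := by
  have hε' : (ε : ℂ) ≠ 0 := by exact_mod_cast hε.ne'
  set z' : ℂ := (z - ζ) / ε with hz'
  have hz : z = ζ + ε * z' := by rw [hz']; field_simp; ring
  set α : ℂ := z' - w with hα
  set β : ℂ := z' * (starRingEnd ℂ) w - 1 with hβ
  have hmax : max ‖α‖ ‖β‖ = m w z' := by
    unfold m
    congr 1
    rw [hβ, norm_sub_rev, mul_comm]
  have hpos : 0 < max ‖α‖ ‖β‖ := by rw [hmax]; exact m_pos hw z'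
  have hpos2 : 0 < max ‖(1 : ℂ)‖ ‖(starRingEnd ℂ) w‖ := by simp
  have hmax2 : max ‖(1 : ℂ)‖ ‖(starRingEnd ℂ) w‖ = 1 := by
    rw [norm_one, Complex.norm_conj, max_eq_left hw.le]
  have hdiff : ∀ θ, z - xp ζ ε w θ
      = ε * ((α + β * ep θ) / (1 + (starRingEnd ℂ) w * ep θ)) := by
    intro θ
    have hd := den_ne hw (norm_ep θ)
    have h1 : z' - (ep θ + w) / (1 + (starRingEnd ℂ) w * ep θ)
        = (α + β * ep θ) / (1 + (starRingEnd ℂ) w * ep θ) := by
      rw [eq_div_iff hd, sub_mul, div_mul_cancel₀ _ hd, hα, hβ]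
      ring
    rw [hz, xp, mob, ← h1]
    ring
  have hae := ae_ne_lin hpos
  have e : (fun θ => Real.log ‖z - xp ζ ε w θ‖) =ᵐ[P] fun θ =>
      Real.log ε + (Real.log ‖α + β * ep θ‖ - Real.log ‖1 + (starRingEnd ℂ) w * ep θ‖) := by
    filter_upwards [hae] with θ hθ
    have hd := den_ne hw (norm_ep θ)
    rw [hdiff, norm_mul, norm_div, Real.log_mul, Real.log_div]
    · simp
    · simpa using hθ
    · simpa using hd
    · simpa using hε.ne'
    · have h1 : ‖α + β * ep θ‖ ≠ 0 := by simpa using hθ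
      have h2 : ‖1 + (starRingEnd ℂ) w * ep θ‖ ≠ 0 := by simpa using hd
      exact div_ne_zero h1 h2
  obtain ⟨i1, v1⟩ := log_lin hpos
  obtain ⟨i2, v2⟩ := log_lin hpos2
  have hmeas : Measurable (xp ζ ε w) := (xp_cont ζ ε hw).measurable
  have hlm : Measurable fun y : ℂ => Real.log ‖z - y‖ := by fun_prop
  have i12 : Integrable (fun θ =>
      Real.log ‖α + β * ep θ‖ - Real.log ‖1 + (starRingEnd ℂ) w * ep θ‖) P := i1.sub i2
  refine ⟨?_, ?_, ?_⟩
  · unfold ν
    rw [integrable_map_measure hlm.aestronglyMeasurable hmeas.aemeasurable]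
    exact ((integrable_const _).add i12).congr e.symm
  · unfold ν
    rw [integral_map hmeas.aemeasurable hlm.aestronglyMeasurable, integral_congr_ae e,
      integral_add (integrable_const _) i12, integral_sub i1 i2, v1, v2, hmax2, hmax]
    simp
  · unfold ν
    have hms : MeasurableSet {y : ℂ | z ≠ y} :=
      (measurableSet_eq_fun measurable_const measurable_id).compl
    rw [ae_map_iff hmeas.aemeasurable hms]
    filter_upwards [hae] with θ hθ h
    have h1 : z - xp ζ ε w θ = 0 := sub_eq_zero.2 h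
    rw [hdiff] at h1
    have hd := den_ne hw (norm_ep θ)
    rcases mul_eq_zero.1 h1 with h2 | h2
    · exact hε' h2
    · rcases div_eq_zero_iff.1 h2 with h3 | h3
      · exact hθ h3
      · exact hd h3

end Q94.LC
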