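import Pool.Agent.Q94.LogCapA

/-!
# Logarithmic energy, capacity and `n`-th diameter
-/

open scoped BigOperators Topology ENNReal Real
open Filter MeasureTheory Set

namespace Q94.LC

/-- The logarithmic kernel `log |z - w|`, with the value `-∞` for `z = w`. -/
noncomputable def ker (z w : ℂ) : EReal := ENNReal.log (edist z w)

/-- The logarithmic energy `∬ log |z - w| dμ(w) dμ(z)`: the integral of the positive part minus
the integral of the negative part of the kernel. -/
noncomputable def energy (μ : Measure ℂ) : EReal :=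
  ((∫⁻ z, ∫⁻ w, (ker z w).toENNReal ∂μ ∂μ : ℝ≥0∞) : EReal)
    - ((∫⁻ z, ∫⁻ w, (-ker z w).toENNReal ∂μ ∂μ : ℝ≥0∞) : EReal)

/-- The logarithmic capacity of a compact set. -/
noncomputable def cap (E : Set ℂ) : ℝ≥0∞ :=
  EReal.exp (⨆ μ : {μ : Measure ℂ // IsProbabilityMeasure μ ∧ μ Eᶜ = 0}, energy μ.1)

/-- The pairs `j < k` of indices. -/
def pairs (n : ℕ) : Finset (Fin n × Fin n) := Finset.univ.filter fun p => p.1 < p.2

/-- The `n`-th diameter. -/
noncomputable def diam (n : ℕ) (E : Set ℂ) : ℝ≥0∞ :=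
  ⨆ w : Fin n → E, ∏ p ∈ pairs n, edist (w p.1 : ℂ) (w p.2) ^ (2 / ((n : ℝ) * (n - 1)))

lemma pos_eq (z w : ℂ) : (ker z w).toENNReal = ENNReal.ofReal (Real.log ‖z - w‖) := by
  unfold ker
  rw [edist_dist, ENNReal.log_ofReal, dist_eq_norm]
  split_ifs with h
  · have : ‖z - w‖ = 0 := le_antisymm h (norm_nonneg _)
    rw [this]; simp
  · rw [EReal.toENNReal_of_ne_top (EReal.coe_ne_top _)]; simp

lemma neg_eq {z w : ℂ} (hzw : z ≠ w) :
    (-ker z w).toENNReal = ENNReal.ofReal (-Real.log ‖z - w‖) := by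
  unfold ker
  rw [edist_dist, ENNReal.log_ofReal, dist_eq_norm]
  have h : ¬ ‖z - w‖ ≤ 0 := by
    rw [not_le, norm_pos_iff]; exact sub_ne_zero.2 hzw
  rw [if_neg h, ← EReal.coe_neg, EReal.toENNReal_of_ne_top (EReal.coe_ne_top _)]; simp

lemma neg_diag (z : ℂ) : (-ker z z).toENNReal = ⊤ := by
  unfold ker; simp

lemma measurable_ker : Measurable (Function.uncurry ker) := by
  unfold ker
  have : Measurable fun p : ℂ × ℂ => edist p.1 p.2 := measurable_edist
  exact this.ennreal_log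

lemma measurable_pos : Measurable (Function.uncurry fun z w : ℂ => (ker z w).toENNReal) :=
  measurable_ker.ereal_toENNReal

lemma measurable_neg : Measurable (Function.uncurry fun z w : ℂ => (-ker z w).toENNReal) :=
  (measurable_ker.neg).ereal_toENNReal

/-- Computing the energy by real integrals. -/
lemma energy_eq (μ : Measure ℂ) [IsFiniteMeasure μ]
    (h1 : ∀ z, Integrable (fun y => Real.log ‖z - y‖) μ) (h2 : ∀ z, ∀ᵐ y ∂μ, z ≠ y)
    (C : ℝ) (h3 : ∀ z, -C ≤ ∫ y, Real.log ‖z - y‖ ∂μ) (R : ℝ) (h4 : ∀ᵐ y ∂μ, ‖y‖ ≤ R) :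
    energy μ = ((∫ z, ∫ y, Real.log ‖z - y‖ ∂μ ∂μ : ℝ) : EReal) ∧
      Integrable (fun z => ∫ y, Real.log ‖z - y‖ ∂μ) μ := by
  set P : ℂ → ℝ := fun z => (∫⁻ y, (ker z y).toENNReal ∂μ).toReal with hP
  set N : ℂ → ℝ := fun z => (∫⁻ y, (-ker z y).toENNReal ∂μ).toReal with hN
  have mP : Measurable P := (measurable_pos.lintegral_prod_right').ennreal_toReal
  have mN : Measurable N := (measurable_neg.lintegral_prod_right').ennreal_toReal
  have eP : ∀ z, (∫⁻ y, (ker z y).toENNReal ∂μ) = ∫⁻ y, ENNReal.ofReal (Real.log ‖z - y‖) ∂μ :=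
    fun z => lintegral_congr fun y => pos_eq z y
  have eN : ∀ z, (∫⁻ y, (-ker z y).toENNReal ∂μ)
      = ∫⁻ y, ENNReal.ofReal (-Real.log ‖z - y‖) ∂μ := by
    intro z
    refine lintegral_congr_ae ?_
    filter_upwards [h2 z] with y hy using neg_eq hy
  have fP : ∀ z, (∫⁻ y, (ker z y).toENNReal ∂μ) ≠ ⊤ := by
    intro z; rw [eP]; exact ((h1 z).lintegral_lt_top).ne
  have fN : ∀ z, (∫⁻ y, (-ker z y).toENNReal ∂μ) ≠ ⊤ := by
    intro z; rw [eN]; exact ((h1 z).neg.lintegral_lt_top).ne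
  have hPN : ∀ z, P z - N z = ∫ y, Real.log ‖z - y‖ ∂μ := by
    intro z
    rw [integral_eq_lintegral_pos_part_sub_lintegral_neg_part (h1 z)]
    simp only [hP, hN, eP, eN]
  have P0 : ∀ z, 0 ≤ P z := fun z => ENNReal.toReal_nonneg
  have N0 : ∀ z, 0 ≤ N z := fun z => ENNReal.toReal_nonneg
  have bP : ∀ᵐ z ∂μ, P z ≤ 2 * R * μ.real univ := by
    filter_upwards [h4] with z hz
    have hR : 0 ≤ R := (norm_nonneg z).trans hz
    have : (∫⁻ y, (ker z y).toENNReal ∂μ) ≤ ENNReal.ofReal (2 * R) * μ univ := by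
      rw [← lintegral_const]
      refine lintegral_mono_ae ?_
      filter_upwards [h4] with y hy
      rw [pos_eq]
      apply ENNReal.ofReal_le_ofReal
      refine (Real.log_le_self (norm_nonneg _)).trans ?_
      exact (norm_sub_le _ _).trans (by linarith)
    have h5 := ENNReal.toReal_mono (ENNReal.mul_ne_top ENNReal.ofReal_ne_top
      (measure_ne_top μ univ)) this
    rw [ENNReal.toReal_mul, ENNReal.toReal_ofReal (by positivity)] at h5
    exact h5
  have bN : ∀ᵐ z ∂μ, N z ≤ 2 * R * μ.real univ + C := by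
    filter_upwards [bP] with z hz
    have := h3 z
    rw [← hPN z] at this
    linarith
  have iP : Integrable P μ := by
    refine Integrable.of_bound mP.aestronglyMeasurable (2 * R * μ.real univ) ?_
    filter_upwards [bP] with z hz
    rw [Real.norm_of_nonneg (P0 z)]; exact hz
  have iN : Integrable N μ := by
    refine Integrable.of_bound mN.aestronglyMeasurable (2 * R * μ.real univ + C) ?_
    filter_upwards [bN] with z hz
    rw [Real.norm_of_nonneg (N0 z)]; exact hz
  have tP : (∫⁻ z, ∫⁻ y, (ker z y).toENNReal ∂μ ∂μ) = ENNReal.ofReal (∫ z, P z ∂μ) := by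
    rw [ofReal_integral_eq_lintegral_ofReal iP (Filter.Eventually.of_forall P0)]
    exact lintegral_congr fun z => (ENNReal.ofReal_toReal (fP z)).symm
  have tN : (∫⁻ z, ∫⁻ y, (-ker z y).toENNReal ∂μ ∂μ) = ENNReal.ofReal (∫ z, N z ∂μ) := by
    rw [ofReal_integral_eq_lintegral_ofReal iN (Filter.Eventually.of_forall N0)]
    exact lintegral_congr fun z => (ENNReal.ofReal_toReal (fN z)).symm
  have hU : (fun z => ∫ y, Real.log ‖z - y‖ ∂μ) = fun z => P z - N z :=
    funext fun z => (hPN z).symm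
  refine ⟨?_, ?_⟩
  · unfold energy
    rw [tP, tN, hU, integral_sub iP iN, EReal.coe_sub,
      EReal.coe_ennreal_ofReal, EReal.coe_ennreal_ofReal,
      max_eq_left (integral_nonneg P0), max_eq_left (integral_nonneg N0)]
  · rw [hU]; exact iP.sub iN

end Q94.LC
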