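import Pool.Agent.Q94.LogCapB

/-!
# A lower bound of the capacity by products of distances
-/

open scoped BigOperators Topology ENNReal Real
open Filter MeasureTheory Set

namespace Q94.LC

instance (ζ : ℂ) (ε : ℝ) (w : ℂ) [h : Fact (‖w‖ < 1)] : IsProbabilityMeasure (ν ζ ε w) :=
  Measure.isProbabilityMeasure_map (xp_cont ζ ε h.out).measurable.aemeasurable

lemma ν_prob (ζ : ℂ) (ε : ℝ) {w : ℂ} (hw : ‖w‖ < 1) : IsProbabilityMeasure (ν ζ ε w) :=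
  Measure.isProbabilityMeasure_map (xp_cont ζ ε hw).measurable.aemeasurable

lemma ν_ae (ζ : ℂ) {ε : ℝ} (hε : 0 < ε) {w : ℂ} (hw : ‖w‖ < 1) :
    ∀ᵐ y ∂(ν ζ ε w), y ∈ Metric.closedBall ζ ε := by
  unfold ν
  have hms : MeasurableSet {y : ℂ | y ∈ Metric.closedBall ζ ε} :=
    Metric.isClosed_closedBall.measurableSet
  rw [ae_map_iff (xp_cont ζ ε hw).measurable.aemeasurable hms]
  refine Filter.Eventually.of_forall fun θ => ?_
  rw [mem_closedBall_iff_norm, norm_xp_sub ζ hε hw]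

/-- The potential. -/
noncomputable def U (ζ : ℂ) (ε : ℝ) (w z : ℂ) : ℝ := Real.log ε + Real.log (m w ((z - ζ) / ε))

lemma U_cont (ζ : ℂ) (ε : ℝ) {w : ℂ} (hw : ‖w‖ < 1) : Continuous (U ζ ε w) := by
  unfold U
  refine continuous_const.add (Continuous.log ?_ fun z => (m_pos hw _).ne')
  unfold m
  fun_prop

lemma U_int (ζ ζ' : ℂ) {ε : ℝ} (hε : 0 < ε) {w w' : ℂ} (hw : ‖w‖ < 1) (hw' : ‖w'‖ < 1) :
    Integrable (U ζ ε w) (ν ζ' ε w') := by
  have := ν_prob ζ' ε hw'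
  obtain ⟨M, hM⟩ := (isCompact_closedBall ζ' ε).exists_bound_of_continuousOn
    (U_cont ζ ε hw).continuousOn
  refine Integrable.of_bound (U_cont ζ ε hw).aestronglyMeasurable M ?_
  filter_upwards [ν_ae ζ' hε hw'] with y hy using hM y hy

lemma U_ge (ζ : ℂ) {ε : ℝ} {w : ℂ} {η : ℝ} (hη : 0 < η) (hw : ‖w‖ ≤ 1 - η) (z : ℂ) :
    Real.log ε + Real.log η ≤ U ζ ε w z := by
  unfold U
  have h1 := m_ge w ((z - ζ) / ε)
  have : Real.log η ≤ Real.log (m w ((z - ζ) / ε)) := Real.log_le_log hη (by linarith)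
  linarith

lemma self_ge (ζ ζ' : ℂ) {ε : ℝ} (hε : 0 < ε) {w w' : ℂ} {η : ℝ} (hη : 0 < η)
    (hw : ‖w‖ ≤ 1 - η) (hw' : ‖w'‖ ≤ 1 - η) :
    Real.log ε + Real.log η ≤ ∫ z, U ζ ε w z ∂(ν ζ' ε w') := by
  have := ν_prob ζ' ε (w := w') (by linarith)
  have h := integral_mono (μ := ν ζ' ε w') (integrable_const (Real.log ε + Real.log η))
    (U_int ζ ζ' hε (w := w) (w' := w') (by linarith) (by linarith)) (fun z => U_ge ζ hη hw z)
  simpa using h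

lemma norm_scaled {a : ℂ} (ha : ‖a‖ ≤ 1) {η : ℝ} (hη1 : η < 1) :
    ‖((1 - η : ℝ) : ℂ) * a‖ ≤ 1 - η := by
  rw [norm_mul, Complex.norm_real, Real.norm_of_nonneg (by linarith)]
  nlinarith [norm_nonneg a]

lemma U_ge_log (ζ : ℂ) {ε : ℝ} (hε : 0 < ε) {a : ℂ} (ha : ‖a‖ ≤ 1) {η : ℝ} (hη : 0 < η)
    (hη1 : η < 1) {z : ℂ} (hz : z ≠ ζ + ε * a) :
    Real.log (1 - η) / 2 + Real.log ‖z - (ζ + ε * a)‖ ≤ U ζ ε (((1 - η : ℝ) : ℂ) * a) z := by
  have hε' : (ε : ℂ) ≠ 0 := by exact_mod_cast hε.ne'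
  have hs : 0 < 1 - η := by linarith
  have h1 := m_ge_dist ha hη hη1 ((z - ζ) / ε)
  have e : z - (ζ + ε * a) = ε * ((z - ζ) / ε - a) := by field_simp; ring
  have hne : (z - ζ) / ε - a ≠ 0 := by
    intro h0
    rw [h0, mul_zero] at e
    exact hz (sub_eq_zero.1 e)
  have hpos : 0 < ‖(z - ζ) / ε - a‖ := norm_pos_iff.2 hne
  have h2 := Real.log_le_log (by positivity) h1
  rw [Real.log_mul (by positivity) hpos.ne', Real.log_sqrt hs.le] at h2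
  unfold U
  rw [e, norm_mul, Real.log_mul (by simpa using hε.ne') hpos.ne', Complex.norm_real,
    Real.norm_of_nonneg hε.le]
  linarith

lemma pair_ge (ζ ζ' : ℂ) {ε : ℝ} (hε : 0 < ε) {a a' : ℂ} (ha : ‖a‖ ≤ 1) (ha' : ‖a'‖ ≤ 1)
    {η : ℝ} (hη : 0 < η) (hη1 : η < 1) (hne : ζ + ε * a ≠ ζ' + ε * a') :
    Real.log (1 - η) + Real.log ‖(ζ + ε * a) - (ζ' + ε * a')‖
      ≤ ∫ z, U ζ ε (((1 - η : ℝ) : ℂ) * a) z ∂(ν ζ' ε (((1 - η : ℝ) : ℂ) * a')) := by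
  have hw : ‖((1 - η : ℝ) : ℂ) * a‖ < 1 := (norm_scaled ha hη1).trans_lt (by linarith)
  have hw' : ‖((1 - η : ℝ) : ℂ) * a'‖ < 1 := (norm_scaled ha' hη1).trans_lt (by linarith)
  have := ν_prob ζ' ε hw'
  obtain ⟨i1, v1, n1⟩ := pot ζ' hε hw' (ζ + ε * a)
  have h2 := U_ge_log ζ' hε ha' hη hη1 hne
  unfold U at h2
  rw [← v1] at h2
  have h3 : ∫ z, (Real.log (1 - η) / 2 + Real.log ‖(ζ + ε * a) - z‖)
      ∂(ν ζ' ε (((1 - η : ℝ) : ℂ) * a'))
      ≤ ∫ z, U ζ ε (((1 - η : ℝ) : ℂ) * a) z ∂(ν ζ' ε (((1 - η : ℝ) : ℂ) * a')) := by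
    refine integral_mono_ae ((integrable_const _).add i1) (U_int ζ ζ' hε hw hw') ?_
    filter_upwards [n1] with z hz
    rw [norm_sub_rev]
    exact U_ge_log ζ hε ha hη hη1 (Ne.symm hz)
  rw [integral_add (integrable_const _) i1] at h3
  simp only [integral_const, probReal_univ, smul_eq_mul, one_mul] at h3
  linarith

/-- The lower bound of the capacity. -/
theorem cap_ge {E : Set ℂ} {n : ℕ} (hn : 0 < n) (ζ a : Fin n → ℂ) {ε : ℝ} (hε : 0 < ε)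
    (hE : ∀ j, Metric.closedBall (ζ j) ε ⊆ E) (ha : ∀ j, ‖a j‖ ≤ 1)
    (hne : ∀ j k, j ≠ k → ζ j + ε * a j ≠ ζ k + ε * a k) {η : ℝ} (hη : 0 < η) (hη1 : η < 1) :
    ENNReal.ofReal (Real.exp (((n : ℝ) ^ 2)⁻¹ * (n * (Real.log ε + Real.log η)
      + ∑ j, ∑ k ∈ Finset.univ.filter (fun k => k ≠ j),
        (Real.log (1 - η) + Real.log ‖(ζ j + ε * a j) - (ζ k + ε * a k)‖)))) ≤ cap E := by
  set w : Fin n → ℂ := fun j => ((1 - η : ℝ) : ℂ) * a j with hw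
  have hwn : ∀ j, ‖w j‖ ≤ 1 - η := fun j => norm_scaled (ha j) hη1
  have hw1 : ∀ j, ‖w j‖ < 1 := fun j => (hwn j).trans_lt (by linarith)
  set κ : Fin n → Measure ℂ := fun j => ν (ζ j) ε (w j) with hκ
  have hprob : ∀ j, IsProbabilityMeasure (κ j) := fun j => ν_prob (ζ j) ε (hw1 j)
  set μ : Measure ℂ := (n : ℝ≥0∞)⁻¹ • ∑ j, κ j with hμ
  have hn0 : (n : ℝ≥0∞) ≠ 0 := by simp [hn.ne']
  have hμp : IsProbabilityMeasure μ := by
    constructor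
    rw [hμ, Measure.smul_apply, Measure.finsetSum_apply]
    simp only [measure_univ, Finset.sum_const, Finset.card_univ, Fintype.card_fin, nsmul_eq_mul,
      mul_one, smul_eq_mul]
    exact ENNReal.inv_mul_cancel hn0 (ENNReal.natCast_ne_top n)
  have hsm : ∀ p : ℂ → Prop, (∀ j, ∀ᵐ y ∂(κ j), p y) → ∀ᵐ y ∂μ, p y := by
    intro p hp
    rw [hμ]
    apply Measure.ae_smul_measure
    rw [ae_finsetSum_measure_iff]
    exact fun j _ => hp j
  have hint : ∀ f : ℂ → ℝ, (∀ j, Integrable f (κ j)) →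
      Integrable f μ ∧ ∫ z, f z ∂μ = (n : ℝ)⁻¹ * ∑ j, ∫ z, f z ∂(κ j) := by
    intro f hf
    refine ⟨?_, ?_⟩
    · rw [hμ]
      refine Integrable.smul_measure ?_ (ENNReal.inv_ne_top.2 hn0)
      exact integrable_finsetSum_measure.2 fun j _ => hf j
    · rw [hμ, integral_smul_measure, integral_finsetSum_measure fun j _ => hf j,
        ENNReal.toReal_inv, ENNReal.toReal_natCast, smul_eq_mul]
  have hsupp : μ Eᶜ = 0 := by
    have : ∀ᵐ y ∂μ, y ∈ E := hsm _ fun j => by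
      filter_upwards [ν_ae (ζ j) hε (hw1 j)] with y hy using hE j hy
    exact this
  -- the potential of `μ`
  have hpot : ∀ z, Integrable (fun y => Real.log ‖z - y‖) μ ∧
      ∫ y, Real.log ‖z - y‖ ∂μ = (n : ℝ)⁻¹ * ∑ j, U (ζ j) ε (w j) z := by
    intro z
    obtain ⟨i, v⟩ := hint (fun y => Real.log ‖z - y‖) fun j => (pot (ζ j) hε (hw1 j) z).1
    refine ⟨i, v.trans ?_⟩
    congr 1
    exact Finset.sum_congr rfl fun j _ => (pot (ζ j) hε (hw1 j) z).2.1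
  have hne2 : ∀ z, ∀ᵐ y ∂μ, z ≠ y := fun z => hsm _ fun j => (pot (ζ j) hε (hw1 j) z).2.2
  have hlow : ∀ z, -(-(Real.log ε + Real.log η)) ≤ ∫ y, Real.log ‖z - y‖ ∂μ := by
    intro z
    rw [(hpot z).2, neg_neg]
    have : ∑ j : Fin n, (Real.log ε + Real.log η) ≤ ∑ j, U (ζ j) ε (w j) z :=
      Finset.sum_le_sum fun j _ => U_ge (ζ j) hη (hwn j) z
    rw [Finset.sum_const, Finset.card_univ, Fintype.card_fin, nsmul_eq_mul] at this
    have hn' : (0 : ℝ) < n := by exact_mod_cast hn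
    rw [← div_eq_inv_mul, le_div_iff₀ hn', mul_comm]
    exact this
  obtain ⟨R, hR⟩ : ∃ R : ℝ, ∀ j, ‖ζ j‖ + ε ≤ R :=
    ⟨∑ j, ‖ζ j‖ + ε, fun j => by
      have := Finset.single_le_sum (f := fun j => ‖ζ j‖) (fun i _ => norm_nonneg _)
        (Finset.mem_univ j)
      linarith⟩
  have hbd : ∀ᵐ y ∂μ, ‖y‖ ≤ R := hsm _ fun j => by
    filter_upwards [ν_ae (ζ j) hε (hw1 j)] with y hy
    rw [mem_closedBall_iff_norm] at hy
    have h1 : ‖y‖ ≤ ‖y - ζ j‖ + ‖ζ j‖ := by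
      have := norm_add_le (y - ζ j) (ζ j)
      rwa [sub_add_cancel] at this
    linarith [hR j]
  obtain ⟨hen, -⟩ := energy_eq μ (fun z => (hpot z).1) hne2 _ hlow R hbd
  have hval : ∫ z, ∫ y, Real.log ‖z - y‖ ∂μ ∂μ
      = ((n : ℝ) ^ 2)⁻¹ * ∑ k, ∑ j, ∫ z, U (ζ j) ε (w j) z ∂(κ k) := by
    have e1 : (fun z => ∫ y, Real.log ‖z - y‖ ∂μ) = fun z => (n : ℝ)⁻¹ * ∑ j, U (ζ j) ε (w j) z :=
      funext fun z => (hpot z).2
    rw [e1]
    have i1 : ∀ k, Integrable (fun z => (n : ℝ)⁻¹ * ∑ j, U (ζ j) ε (w j) z) (κ k) := fun k =>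
      (integrable_finsetSum _ fun j _ => U_int (ζ j) (ζ k) hε (hw1 j) (hw1 k)).const_mul _
    rw [(hint _ i1).2]
    have e2 : ∀ k, ∫ z, (n : ℝ)⁻¹ * ∑ j, U (ζ j) ε (w j) z ∂(κ k)
        = (n : ℝ)⁻¹ * ∑ j, ∫ z, U (ζ j) ε (w j) z ∂(κ k) := by
      intro k
      rw [integral_const_mul, integral_finsetSum _ fun j _ =>
        U_int (ζ j) (ζ k) hε (hw1 j) (hw1 k)]
    rw [Finset.sum_congr rfl fun k _ => e2 k, ← Finset.mul_sum]
    ring
  have hfin : ((n : ℝ) ^ 2)⁻¹ * (n * (Real.log ε + Real.log η)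
      + ∑ j, ∑ k ∈ Finset.univ.filter (fun k => k ≠ j),
        (Real.log (1 - η) + Real.log ‖(ζ j + ε * a j) - (ζ k + ε * a k)‖))
      ≤ ∫ z, ∫ y, Real.log ‖z - y‖ ∂μ ∂μ := by
    rw [hval]
    apply mul_le_mul_of_nonneg_left _ (by positivity)
    have h1 : ∀ j, (Real.log ε + Real.log η) + ∑ k ∈ Finset.univ.filter (fun k => k ≠ j),
        (Real.log (1 - η) + Real.log ‖(ζ j + ε * a j) - (ζ k + ε * a k)‖)
        ≤ ∑ k, ∫ z, U (ζ k) ε (w k) z ∂(κ j) := by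
      intro j
      rw [← Finset.add_sum_erase _ _ (Finset.mem_univ j)]
      apply add_le_add
      · exact self_ge (ζ j) (ζ j) hε hη (hwn j) (hwn j)
      · have hf : Finset.univ.filter (fun k => k ≠ j) = Finset.univ.erase j := by
          ext k; simp
        rw [hf]
        refine Finset.sum_le_sum fun k hk => ?_
        have hkj : k ≠ j := (Finset.mem_erase.1 hk).1
        have := pair_ge (ζ k) (ζ j) hε (ha k) (ha j) hη hη1 (hne k j hkj)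
        rw [norm_sub_rev]
        exact this
    have h2 := Finset.sum_le_sum fun j (_ : j ∈ Finset.univ) => h1 j
    rw [Finset.sum_add_distrib, Finset.sum_const, Finset.card_univ, Fintype.card_fin,
      nsmul_eq_mul] at h2
    exact h2
  unfold cap
  rw [← EReal.exp_coe]
  apply EReal.exp_monotone
  refine le_trans ?_ (le_iSup (fun μ : {μ : Measure ℂ // IsProbabilityMeasure μ ∧ μ Eᶜ = 0} =>
    energy μ.1) ⟨μ, hμp, hsupp⟩)
  rw [hen]
  exact_mod_cast hfin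

end Q94.LC
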