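import Pool.Agent.Q94.LogCapC

/-!
# The capacity is at most the `n`-th diameter
-/

open scoped BigOperators Topology ENNReal Real
open Filter MeasureTheory Set

namespace Q94.LC

lemma energy_prod (μ : Measure ℂ) [IsProbabilityMeasure μ]
    (hpos : (∫⁻ z, ∫⁻ w, (ker z w).toENNReal ∂μ ∂μ) ≠ ⊤)
    (hneg : (∫⁻ z, ∫⁻ w, (-ker z w).toENNReal ∂μ ∂μ) ≠ ⊤) :
    Integrable (fun p : ℂ × ℂ => Real.log ‖p.1 - p.2‖) (μ.prod μ) ∧
      energy μ = ((∫ p, Real.log ‖p.1 - p.2‖ ∂(μ.prod μ) : ℝ) : EReal) ∧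
      ∀ᵐ p ∂(μ.prod μ), p.1 ≠ p.2 := by
  have e1 : (∫⁻ z, ∫⁻ w, (ker z w).toENNReal ∂μ ∂μ)
      = ∫⁻ p, (ker p.1 p.2).toENNReal ∂(μ.prod μ) :=
    (lintegral_prod _ measurable_pos.aemeasurable).symm
  have e2 : (∫⁻ z, ∫⁻ w, (-ker z w).toENNReal ∂μ ∂μ)
      = ∫⁻ p, (-ker p.1 p.2).toENNReal ∂(μ.prod μ) :=
    (lintegral_prod _ measurable_neg.aemeasurable).symm
  have hae : ∀ᵐ p ∂(μ.prod μ), p.1 ≠ p.2 := by
    have hlt : ∀ᵐ p ∂(μ.prod μ), (-ker p.1 p.2).toENNReal < ⊤ :=
      ae_lt_top measurable_neg (by rw [← e2]; exact hneg)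
    filter_upwards [hlt] with p hp h
    rw [← h, neg_diag] at hp
    exact lt_irrefl _ hp
  have e3 : (∫⁻ z, ∫⁻ w, (ker z w).toENNReal ∂μ ∂μ)
      = ∫⁻ p, ENNReal.ofReal (Real.log ‖p.1 - p.2‖) ∂(μ.prod μ) := by
    rw [e1]; exact lintegral_congr fun p => pos_eq _ _
  have e4 : (∫⁻ z, ∫⁻ w, (-ker z w).toENNReal ∂μ ∂μ)
      = ∫⁻ p, ENNReal.ofReal (-Real.log ‖p.1 - p.2‖) ∂(μ.prod μ) := by
    rw [e2]
    refine lintegral_congr_ae ?_
    filter_upwards [hae] with p hp using neg_eq hp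
  have hm : Measurable fun p : ℂ × ℂ => Real.log ‖p.1 - p.2‖ := by fun_prop
  have hint : Integrable (fun p : ℂ × ℂ => Real.log ‖p.1 - p.2‖) (μ.prod μ) := by
    refine ⟨hm.aestronglyMeasurable, ?_⟩
    rw [hasFiniteIntegral_iff_norm]
    have : ∀ p : ℂ × ℂ, ENNReal.ofReal ‖Real.log ‖p.1 - p.2‖‖
        ≤ ENNReal.ofReal (Real.log ‖p.1 - p.2‖) + ENNReal.ofReal (-Real.log ‖p.1 - p.2‖) := by
      intro p
      rcases le_total 0 (Real.log ‖p.1 - p.2‖) with h | h
      · rw [Real.norm_of_nonneg h]; exact le_self_add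
      · rw [Real.norm_of_nonpos h]; exact le_add_self
    refine (lintegral_mono this).trans_lt ?_
    rw [lintegral_add_left (by fun_prop), ← e3, ← e4]
    exact ENNReal.add_lt_top.2 ⟨hpos.lt_top, hneg.lt_top⟩
  refine ⟨hint, ?_, hae⟩
  rw [integral_eq_lintegral_pos_part_sub_lintegral_neg_part hint, ← e3, ← e4]
  unfold energy
  rw [EReal.coe_sub, ← EReal.coe_ennreal_toReal hpos, ← EReal.coe_ennreal_toReal hneg]

lemma map_pair (μ : Measure ℂ) [IsProbabilityMeasure μ] {n : ℕ} {i j : Fin n} (hij : i ≠ j) :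
    (Measure.pi fun _ : Fin n => μ).map (fun w => (w i, w j)) = μ.prod μ := by
  have h := ProbabilityTheory.iIndepFun_pi (μ := fun _ : Fin n => μ)
    (X := fun _ : Fin n => (id : ℂ → ℂ)) (fun _ => aemeasurable_id)
  have h2 := h.indepFun hij
  have h3 := (ProbabilityTheory.indepFun_iff_map_prod_eq_prod_map_map
    (measurable_pi_apply i).aemeasurable (measurable_pi_apply j).aemeasurable).1 h2
  have hi : Measure.map (fun w : Fin n → ℂ => w i) (Measure.pi fun _ : Fin n => μ) = μ :=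
    (measurePreserving_eval (fun _ : Fin n => μ) i).map_eq
  have hj : Measure.map (fun w : Fin n → ℂ => w j) (Measure.pi fun _ : Fin n => μ) = μ :=
    (measurePreserving_eval (fun _ : Fin n => μ) j).map_eq
  rw [hi, hj] at h3
  exact h3

lemma card_pairs (n : ℕ) : ((pairs n).card : ℝ) = n * (n - 1) / 2 := by
  have h1 : (pairs n).card = ∑ i ∈ Finset.range n, (n - 1 - i) := by
    unfold pairs
    rw [Finset.card_filter, ← Finset.univ_product_univ, Finset.sum_product,
      ← Fin.sum_univ_eq_sum_range (fun i => n - 1 - i) n]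
    refine Finset.sum_congr rfl fun i _ => ?_
    rw [← Fin.card_Ioi i, ← Finset.card_filter]
    congr 1
    ext j
    simp
  rw [h1, Finset.sum_range_reflect (fun i => i) n]
  have h2 := Finset.sum_range_id_mul_two n
  rcases Nat.eq_zero_or_pos n with rfl | hn
  · simp
  · have h3 : ((∑ i ∈ Finset.range n, i : ℕ) : ℝ) * 2 = n * ((n - 1 : ℕ) : ℝ) := by
      exact_mod_cast h2
    rw [Nat.cast_sub hn, Nat.cast_one] at h3
    linarith

/-- The capacity is at most the `n`-th diameter. -/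
theorem cap_le {E : Set ℂ} (hE : IsCompact E) {n : ℕ} (hn : 2 ≤ n) : cap E ≤ diam n E := by
  unfold cap
  rw [← ENNReal.exp_log (diam n E)]
  apply EReal.exp_monotone
  refine iSup_le fun ⟨μ, hμp, hμE⟩ => ?_
  simp only
  by_cases hD : diam n E = ⊤
  · rw [hD, ENNReal.log_top]; exact le_top
  obtain ⟨R, hR⟩ := hE.isBounded.exists_norm_le
  have hEae : ∀ᵐ z ∂μ, z ∈ E := hμE
  have hpos : (∫⁻ z, ∫⁻ w, (ker z w).toENNReal ∂μ ∂μ) ≠ ⊤ := by
    have : (∫⁻ z, ∫⁻ w, (ker z w).toENNReal ∂μ ∂μ) ≤ ∫⁻ z, ENNReal.ofReal (2 * R) ∂μ := by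
      refine lintegral_mono_ae ?_
      filter_upwards [hEae] with z hz
      have : ∫⁻ w, (ker z w).toENNReal ∂μ ≤ ∫⁻ w, ENNReal.ofReal (2 * R) ∂μ := by
        refine lintegral_mono_ae ?_
        filter_upwards [hEae] with w hw
        rw [pos_eq]
        apply ENNReal.ofReal_le_ofReal
        refine (Real.log_le_self (norm_nonneg _)).trans ?_
        exact (norm_sub_le _ _).trans (by linarith [hR z hz, hR w hw])
      simpa using this
    refine (this.trans_lt ?_).ne
    rw [lintegral_const, measure_univ, mul_one]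
    exact ENNReal.ofReal_lt_top
  by_cases hneg : (∫⁻ z, ∫⁻ w, (-ker z w).toENNReal ∂μ ∂μ) = ⊤
  · have : energy μ = ⊥ := by
      unfold energy
      rw [hneg, ← EReal.coe_ennreal_toReal hpos]
      rfl
    rw [this]; exact bot_le
  obtain ⟨hint, hen, hae⟩ := energy_prod μ hpos hneg
  set M : Measure (Fin n → ℂ) := Measure.pi fun _ : Fin n => μ with hM
  set I : ℝ := ∫ p, Real.log ‖p.1 - p.2‖ ∂(μ.prod μ) with hI
  have hpair : ∀ p ∈ pairs n, Integrable (fun w : Fin n → ℂ => Real.log ‖w p.1 - w p.2‖) M ∧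
      ∫ w, Real.log ‖w p.1 - w p.2‖ ∂M = I ∧ ∀ᵐ w ∂M, w p.1 ≠ w p.2 := by
    intro p hp
    have hlt : p.1 < p.2 := (Finset.mem_filter.1 hp).2
    have hmap := map_pair μ (n := n) hlt.ne
    have hmeas : Measurable fun w : Fin n → ℂ => (w p.1, w p.2) := by fun_prop
    have hm : Measurable fun q : ℂ × ℂ => Real.log ‖q.1 - q.2‖ := by fun_prop
    rw [← hmap] at hint hae
    refine ⟨?_, ?_, ?_⟩
    · exact (integrable_map_measure hm.aestronglyMeasurable hmeas.aemeasurable).1 hint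
    · rw [hI, ← hmap, integral_map hmeas.aemeasurable hm.aestronglyMeasurable]
    · have hms : MeasurableSet {q : ℂ × ℂ | q.1 ≠ q.2} :=
        (measurableSet_eq_fun measurable_fst measurable_snd).compl
      exact (ae_map_iff hmeas.aemeasurable hms).1 hae
  have hall : ∀ᵐ w ∂M, (∀ i, w i ∈ E) ∧ ∀ p ∈ pairs n, w p.1 ≠ w p.2 := by
    refine Filter.Eventually.and ?_ ?_
    · rw [ae_all_iff]
      intro i
      have h1 := (measurePreserving_eval (fun _ : Fin n => μ) i)
      have h2 : ∀ᵐ z ∂(M.map (Function.eval i)), z ∈ E := by rw [h1.map_eq]; exact hEae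
      exact (ae_map_iff h1.measurable.aemeasurable hE.isClosed.measurableSet).1 h2
    · rw [eventually_all_finset]
      exact fun p hp => (hpair p hp).2.2
  set c : ℝ := 2 / ((n : ℝ) * (n - 1)) with hc
  have hn1 : (1 : ℝ) < n := by exact_mod_cast (by omega : 1 < n)
  have hc0 : 0 < c := by rw [hc]; apply div_pos two_pos; nlinarith
  have hbound : ∀ w : Fin n → ℂ, (∀ i, w i ∈ E) → (∀ p ∈ pairs n, w p.1 ≠ w p.2) →
      0 < (diam n E).toReal ∧
      c * ∑ p ∈ pairs n, Real.log ‖w p.1 - w p.2‖ ≤ Real.log (diam n E).toReal := by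
    intro w hw hne
    have h1 : ∏ p ∈ pairs n, edist (w p.1) (w p.2) ^ c ≤ diam n E :=
      le_iSup (fun w : Fin n → E => ∏ p ∈ pairs n, edist (w p.1 : ℂ) (w p.2) ^ c)
        (fun i => ⟨w i, hw i⟩)
    have h2 : ∏ p ∈ pairs n, edist (w p.1) (w p.2) ^ c
        = ENNReal.ofReal (∏ p ∈ pairs n, ‖w p.1 - w p.2‖ ^ c) := by
      rw [ENNReal.ofReal_prod_of_nonneg fun p _ => by positivity]
      refine Finset.prod_congr rfl fun p _ => ?_
      rw [edist_dist, dist_eq_norm, ENNReal.ofReal_rpow_of_nonneg (norm_nonneg _) hc0.le]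
    have hpp : ∀ p ∈ pairs n, 0 < ‖w p.1 - w p.2‖ := fun p hp =>
      norm_pos_iff.2 (sub_ne_zero.2 (hne p hp))
    have h3 : 0 < ∏ p ∈ pairs n, ‖w p.1 - w p.2‖ ^ c :=
      Finset.prod_pos fun p hp => Real.rpow_pos_of_pos (hpp p hp) _
    rw [h2] at h1
    have h4 : ∏ p ∈ pairs n, ‖w p.1 - w p.2‖ ^ c ≤ (diam n E).toReal := by
      have := ENNReal.toReal_mono hD h1
      rwa [ENNReal.toReal_ofReal h3.le] at this
    refine ⟨h3.trans_le h4, ?_⟩
    have h5 := Real.log_le_log h3 h4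
    rw [Real.log_prod (fun p hp => (Real.rpow_pos_of_pos (hpp p hp) _).ne')] at h5
    rw [Finset.mul_sum]
    refine le_trans (le_of_eq ?_) h5
    refine Finset.sum_congr rfl fun p hp => ?_
    rw [Real.log_rpow (hpp p hp)]
  have hexw : ∃ w : Fin n → ℂ, (∀ i, w i ∈ E) ∧ ∀ p ∈ pairs n, w p.1 ≠ w p.2 := hall.exists
  obtain ⟨w0, hw0, hw0'⟩ := hexw
  have hDpos := (hbound w0 hw0 hw0').1
  have hI2 : c * (((pairs n).card : ℝ) * I) ≤ Real.log (diam n E).toReal := by
    have h1 : ∫ w, c * ∑ p ∈ pairs n, Real.log ‖w p.1 - w p.2‖ ∂M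
        ≤ ∫ w, Real.log (diam n E).toReal ∂M := by
      refine integral_mono_ae ?_ (integrable_const _) ?_
      · exact (integrable_finsetSum _ fun p hp => (hpair p hp).1).const_mul _
      · filter_upwards [hall] with w hw using (hbound w hw.1 hw.2).2
    rw [integral_const_mul, integral_finsetSum _ fun p hp => (hpair p hp).1,
      Finset.sum_congr rfl fun p hp => (hpair p hp).2.1, Finset.sum_const, nsmul_eq_mul,
      integral_const] at h1
    simpa using h1
  have hcc : c * (((pairs n).card : ℝ) * I) = I := by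
    rw [card_pairs, hc]
    have : (n : ℝ) - 1 ≠ 0 := by linarith
    field_simp
  rw [hcc] at hI2
  rw [hen, ENNReal.log_pos_real' hDpos]
  exact_mod_cast hI2

lemma sum_offdiag {n : ℕ} (f : Fin n → Fin n → ℝ) (hf : ∀ j k, f j k = f k j) :
    ∑ j, ∑ k ∈ Finset.univ.filter (fun k => k ≠ j), f j k = 2 * ∑ p ∈ pairs n, f p.1 p.2 := by
  have h1 : ∑ p ∈ pairs n, f p.1 p.2 = ∑ j, ∑ k, if j < k then f j k else 0 := by
    unfold pairs
    rw [Finset.sum_filter, ← Finset.univ_product_univ, Finset.sum_product]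
  have h2 : ∑ j, ∑ k, (if j < k then f j k else 0) = ∑ j, ∑ k, if k < j then f j k else 0 := by
    rw [Finset.sum_comm]
    refine Finset.sum_congr rfl fun j _ => Finset.sum_congr rfl fun k _ => ?_
    rw [hf j k]
  rw [two_mul, h1]
  nth_rewrite 2 [h2]
  rw [← Finset.sum_add_distrib]
  refine Finset.sum_congr rfl fun j _ => ?_
  rw [Finset.sum_filter, ← Finset.sum_add_distrib]
  refine Finset.sum_congr rfl fun k _ => ?_
  rcases lt_trichotomy j k with h | h | h
  · rw [if_pos h.ne', if_pos h, if_neg h.not_gt, add_zero]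
  · subst h; simp
  · rw [if_pos h.ne, if_neg h.not_gt, if_pos h, zero_add]

/-- The comparison function. -/
noncomputable def g (D : ℝ) (n : ℕ) : ℝ :=
  Real.exp ((Real.log D + 2 * Real.log n) / n - ((n - 1) / n) * Real.log (1 - 1 / n))

lemma g_tendsto (D : ℝ) : Tendsto (g D) atTop (𝓝 1) := by
  unfold g
  have hn : Tendsto (fun n : ℕ => (n : ℝ)) atTop atTop := tendsto_natCast_atTop_atTop
  have h1 : Tendsto (fun n : ℕ => (1 : ℝ) / n) atTop (𝓝 0) := tendsto_one_div_atTop_nhds_zero_nat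
  have h2 : Tendsto (fun n : ℕ => Real.log n / n) atTop (𝓝 0) := by
    have := Real.isLittleO_log_id_atTop.tendsto_div_nhds_zero
    exact this.comp hn
  have h3 : Tendsto (fun n : ℕ => (Real.log D + 2 * Real.log n) / n) atTop (𝓝 0) := by
    have := (h1.const_mul (Real.log D)).add (h2.const_mul 2)
    simp only [mul_zero, add_zero] at this
    refine this.congr fun n => ?_
    ring
  have h4 : Tendsto (fun n : ℕ => Real.log (1 - 1 / (n : ℝ))) atTop (𝓝 0) := by
    have h5 : Tendsto (fun n : ℕ => (1 : ℝ) - 1 / n) atTop (𝓝 1) := by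
      have := h1.const_sub 1
      simpa using this
    have := (Real.continuousAt_log (one_ne_zero)).tendsto.comp h5
    rw [Real.log_one] at this
    exact this
  have h6 : Tendsto (fun n : ℕ => ((n : ℝ) - 1) / n) atTop (𝓝 1) := by
    have h5 : Tendsto (fun n : ℕ => (1 : ℝ) - 1 / n) atTop (𝓝 1) := by
      have := h1.const_sub 1
      simpa using this
    refine h5.congr' ?_
    filter_upwards [eventually_gt_atTop 0] with n hn
    have : (n : ℝ) ≠ 0 := by exact_mod_cast hn.ne'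
    field_simp
  have h7 := (h3.sub (h6.mul h4))
  simp only [mul_zero, sub_zero] at h7
  have := (Real.continuous_exp.tendsto 0).comp h7
  rw [Real.exp_zero] at this
  exact this

/-- Upper bound of the `n`-th diameter by the capacity. -/
theorem diam_le {K : Set ℂ} (hK : IsCompact K) {n : ℕ} (hn : 2 ≤ n) {D : ℝ} (hD : 1 ≤ D)
    (hdiam : ∀ z ∈ Metric.cthickening (1 / n) K, ∀ w ∈ Metric.cthickening (1 / n) K,
      ‖z - w‖ ≤ D) :
    diam n (Metric.cthickening (1 / n) K)
      ≤ ENNReal.ofReal (g D n) * cap (Metric.cthickening (1 / n) K) := by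
  set E := Metric.cthickening (1 / (n : ℝ)) K with hE
  have hn0 : (0 : ℝ) < n := by exact_mod_cast (by omega : 0 < n)
  have hn1 : (1 : ℝ) < n := by exact_mod_cast (by omega : 1 < n)
  set ε : ℝ := 1 / n with hε
  have hε0 : 0 < ε := by positivity
  have hε' : (ε : ℂ) ≠ 0 := by exact_mod_cast hε0.ne'
  have hε1 : ε < 1 := by rw [hε, div_lt_one hn0]; exact hn1
  set c : ℝ := 2 / ((n : ℝ) * (n - 1)) with hc
  have hc0 : 0 < c := by rw [hc]; apply div_pos two_pos; nlinarith
  refine iSup_le fun w => ?_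
  by_cases hdist : ∀ p ∈ pairs n, (w p.1 : ℂ) ≠ w p.2
  · have hball : E = ⋃ x ∈ K, Metric.closedBall x ε := hK.cthickening_eq_biUnion_closedBall hε0.le
    have hchoose : ∀ j, ∃ ζ ∈ K, ‖(w j : ℂ) - ζ‖ ≤ ε := by
      intro j
      have h1 : (w j : ℂ) ∈ ⋃ x ∈ K, Metric.closedBall x ε := by rw [← hball]; exact (w j).2
      simp only [mem_iUnion, mem_closedBall_iff_norm] at h1
      obtain ⟨ζ, h2, h3⟩ := h1
      exact ⟨ζ, h2, h3⟩
    choose ζ hζK hζ using hchoose
    set a : Fin n → ℂ := fun j => ((w j : ℂ) - ζ j) / ε with ha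
    have hwa : ∀ j, ζ j + ε * a j = w j := by
      intro j; simp only [ha]; field_simp; ring
    have ha1 : ∀ j, ‖a j‖ ≤ 1 := by
      intro j
      simp only [ha]
      rw [norm_div, Complex.norm_real, Real.norm_of_nonneg hε0.le, div_le_one hε0]
      exact hζ j
    have hsub : ∀ j, Metric.closedBall (ζ j) ε ⊆ E := by
      intro j z hz
      rw [hball]
      exact mem_iUnion₂.2 ⟨ζ j, hζK j, hz⟩
    have hne : ∀ j k, j ≠ k → ζ j + ε * a j ≠ ζ k + ε * a k := by
      intro j k hjk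
      rw [hwa, hwa]
      rcases lt_or_gt_of_ne hjk with h | h
      · exact hdist (j, k) (by simp [pairs, h])
      · exact (hdist (k, j) (by simp [pairs, h])).symm
    have hcap := cap_ge (E := E) (by omega : 0 < n) ζ a hε0 hsub ha1 hne (η := ε) hε0 hε1
    set S : ℝ := ∑ p ∈ pairs n, Real.log ‖(w p.1 : ℂ) - w p.2‖ with hS
    have hsum : ∑ j, ∑ k ∈ Finset.univ.filter (fun k => k ≠ j),
        (Real.log (1 - ε) + Real.log ‖(ζ j + ε * a j) - (ζ k + ε * a k)‖)
        = n * (n - 1) * Real.log (1 - ε) + 2 * S := by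
      rw [sum_offdiag (fun j k => Real.log (1 - ε) + Real.log ‖(ζ j + ε * a j) - (ζ k + ε * a k)‖)
        (fun j k => by rw [norm_sub_rev]), Finset.sum_add_distrib, Finset.sum_const, nsmul_eq_mul,
        card_pairs]
      simp only [hwa]
      ring
    rw [hsum] at hcap
    have hpp : ∀ p ∈ pairs n, 0 < ‖(w p.1 : ℂ) - w p.2‖ := fun p hp =>
      norm_pos_iff.2 (sub_ne_zero.2 (hdist p hp))
    have hSle : S ≤ (n * (n - 1) / 2) * Real.log D := by
      rw [← card_pairs, ← nsmul_eq_mul, ← Finset.sum_const, hS]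
      refine Finset.sum_le_sum fun p hp => ?_
      exact Real.log_le_log (hpp p hp) (hdiam _ (w p.1).2 _ (w p.2).2)
    have hV : ∏ p ∈ pairs n, edist (w p.1 : ℂ) (w p.2) ^ c = ENNReal.ofReal (Real.exp (c * S)) := by
      rw [hS, Finset.mul_sum, Real.exp_sum, ENNReal.ofReal_prod_of_nonneg fun p _ => by positivity]
      refine Finset.prod_congr rfl fun p hp => ?_
      rw [edist_dist, dist_eq_norm, ENNReal.ofReal_rpow_of_nonneg (norm_nonneg _) hc0.le,
        Real.rpow_def_of_pos (hpp p hp), mul_comm c]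
    rw [hV]
    refine le_trans ?_ (mul_le_mul_right hcap _)
    rw [← ENNReal.ofReal_mul (by unfold g; positivity)]
    apply ENNReal.ofReal_le_ofReal
    unfold g
    rw [← Real.exp_add]
    apply Real.exp_le_exp.2
    have hlog : Real.log ε = -Real.log n := by rw [hε, one_div, Real.log_inv]
    rw [hlog, ← hε]
    have hn10 : (n : ℝ) - 1 ≠ 0 := by linarith
    have e1 : (Real.log D + 2 * Real.log n) / n - ((n - 1) / n) * Real.log (1 - ε)
        + ((n : ℝ) ^ 2)⁻¹ * (n * (-Real.log n + -Real.log n)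
          + (n * (n - 1) * Real.log (1 - ε) + 2 * S))
        = Real.log D / n + 2 * S / n ^ 2 := by
      field_simp
      ring
    rw [e1]
    have e2 : c * S = 2 * S / n ^ 2 + 2 * S / (n ^ 2 * (n - 1)) := by
      rw [hc]; field_simp; ring
    rw [e2]
    have e3 : 2 * S / (n ^ 2 * (n - 1)) ≤ Real.log D / n := by
      rw [div_le_div_iff₀ (by apply mul_pos (by positivity) (by linarith)) hn0]
      have : 2 * S * n ≤ 2 * ((n * (n - 1) / 2) * Real.log D) * n := by gcongr
      refine this.trans (le_of_eq ?_)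
      ring
    linarith
  · push Not at hdist
    obtain ⟨p, hp, hp2⟩ := hdist
    rw [Finset.prod_eq_zero hp]
    · exact zero_le
    · rw [hp2, edist_self, ENNReal.zero_rpow_of_pos hc0]

/-- The limit of the ratio is `1`. -/
theorem ratio_tendsto {K : Set ℂ} (hK : IsCompact K) (hne : K.Nonempty) :
    Tendsto (fun n : ℕ => diam n (Metric.cthickening (1 / (n : ℝ)) K)
      / cap (Metric.cthickening (1 / (n : ℝ)) K)) atTop (𝓝 1) := by
  obtain ⟨R, hR⟩ := (hK.cthickening (r := 1)).isBounded.exists_norm_le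
  set D : ℝ := max 1 (2 * R) with hD
  have hsubset : ∀ n : ℕ, 2 ≤ n → Metric.cthickening (1 / (n : ℝ)) K ⊆ Metric.cthickening 1 K := by
    intro n hn
    apply Metric.cthickening_mono
    have : (1 : ℝ) ≤ n := by exact_mod_cast (by omega : 1 ≤ n)
    rw [div_le_one (by linarith)]; exact this
  have hdiam : ∀ n : ℕ, 2 ≤ n → ∀ z ∈ Metric.cthickening (1 / (n : ℝ)) K,
      ∀ w ∈ Metric.cthickening (1 / (n : ℝ)) K, ‖z - w‖ ≤ D := by
    intro n hn z hz w hw
    have h1 := hR z (hsubset n hn hz)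
    have h2 := hR w (hsubset n hn hw)
    refine (norm_sub_le _ _).trans (le_trans ?_ (le_max_right _ _))
    linarith
  have hcap0 : ∀ n : ℕ, 2 ≤ n → cap (Metric.cthickening (1 / (n : ℝ)) K) ≠ 0 := by
    intro n hn h0
    obtain ⟨x, hx⟩ := hne
    have hε : (0 : ℝ) < 1 / n := by
      have : (0 : ℝ) < n := by exact_mod_cast (by omega : 0 < n)
      positivity
    have := cap_ge (E := Metric.cthickening (1 / (n : ℝ)) K) (n := 1) one_pos (fun _ => x)
      (fun _ => 0) hε (fun _ => Metric.closedBall_subset_cthickening hx _) (fun _ => by simp)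
      (fun j k h => absurd (Subsingleton.elim j k) h) (η := 1 / 2) (by norm_num) (by norm_num)
    rw [h0] at this
    have h2 := le_antisymm this zero_le
    rw [ENNReal.ofReal_eq_zero] at h2
    exact absurd h2 (not_le.2 (Real.exp_pos _))
  have hcapT : ∀ n : ℕ, 2 ≤ n → cap (Metric.cthickening (1 / (n : ℝ)) K) ≠ ⊤ := by
    intro n hn
    have h1 := cap_le (hK.cthickening (r := 1 / (n : ℝ))) hn
    refine (h1.trans_lt ?_).ne
    have hn1 : (1 : ℝ) < n := by exact_mod_cast (by omega : 1 < n)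
    have hc0 : 0 < 2 / ((n : ℝ) * (n - 1)) := by apply div_pos two_pos; nlinarith
    have h2 : diam n (Metric.cthickening (1 / (n : ℝ)) K)
        ≤ ∏ p ∈ pairs n, ENNReal.ofReal D ^ (2 / ((n : ℝ) * (n - 1))) := by
      refine iSup_le fun w => Finset.prod_le_prod' fun p _ => ?_
      apply ENNReal.rpow_le_rpow _ hc0.le
      rw [edist_dist, dist_eq_norm]
      exact ENNReal.ofReal_le_ofReal (hdiam n hn _ (w p.1).2 _ (w p.2).2)
    refine h2.trans_lt ?_
    refine ENNReal.prod_lt_top fun p _ => ?_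
    exact ENNReal.rpow_lt_top_of_nonneg hc0.le ENNReal.ofReal_ne_top
  refine tendsto_of_tendsto_of_tendsto_of_le_of_le' tendsto_const_nhds
    (show Tendsto (fun n => ENNReal.ofReal (g D n)) atTop (𝓝 1) by
      have := ENNReal.tendsto_ofReal (g_tendsto D)
      simpa using this) ?_ ?_
  · filter_upwards [eventually_ge_atTop 2] with n hn
    rw [ENNReal.le_div_iff_mul_le (Or.inl (hcap0 n hn)) (Or.inl (hcapT n hn)), one_mul]
    exact cap_le hK.cthickening hn
  · filter_upwards [eventually_ge_atTop 2] with n hn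
    exact ENNReal.div_le_of_le_mul (diam_le hK hn (le_max_left _ _) (hdiam n hn))

end Q94.LC
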