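import Mathlib

open scoped InnerProductSpace ComplexOrder

namespace Pool.Agent.Q94.MA

noncomputable section

variable {H : Type*} [NormedAddCommGroup H] [InnerProductSpace ℂ H] [CompleteSpace H]

lemma sa_inner {A : H →L[ℂ] H} (hA : IsSelfAdjoint A) (x y : H) : ⟪A x, y⟫_ℂ = ⟪x, A y⟫_ℂ :=
  hA.isSymmetric x y

lemma star_inner (A : H →L[ℂ] H) (x y : H) : ⟪star A x, y⟫_ℂ = ⟪x, A y⟫_ℂ := by
  rw [ContinuousLinearMap.star_eq_adjoint, ContinuousLinearMap.adjoint_inner_left]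

lemma star_inner' (A : H →L[ℂ] H) (x y : H) : ⟪x, star A y⟫_ℂ = ⟪A x, y⟫_ℂ := by
  rw [ContinuousLinearMap.star_eq_adjoint, ContinuousLinearMap.adjoint_inner_right]

lemma sq_inner {A : H →L[ℂ] H} (hA : IsSelfAdjoint A) (x : H) :
    RCLike.re ⟪(A * A) x, x⟫_ℂ = ‖A x‖ ^ 2 := by
  rw [mul_apply_eq_comp, sa_inner hA, inner_self_eq_norm_sq]

/-- Monotonicity of the square root. -/
lemma loewner {X Y : H →L[ℂ] H} (hX : 0 ≤ X) (hY : 0 ≤ Y) (h : ∀ x, ‖X x‖ ≤ ‖Y x‖) (x : H) :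
    RCLike.re ⟪X x, x⟫_ℂ ≤ RCLike.re ⟪Y x, x⟫_ℂ := by
  have hXs : IsSelfAdjoint X := hX.isSelfAdjoint
  have hYs : IsSelfAdjoint Y := hY.isSelfAdjoint
  have h1 : X * X ≤ Y * Y := by
    rw [ContinuousLinearMap.le_def]
    rw [ContinuousLinearMap.isPositive_iff_complex]
    intro z
    have hsa : IsSelfAdjoint (Y * Y - X * X) := by
      have e1 : IsSelfAdjoint (Y * Y) := by
        rw [IsSelfAdjoint, star_mul, hYs.star_eq]
      have e2 : IsSelfAdjoint (X * X) := by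
        rw [IsSelfAdjoint, star_mul, hXs.star_eq]
      exact e1.sub e2
    constructor
    · have := hsa.isSymmetric.coe_re_inner_apply_self z
      simpa using this
    · have e : RCLike.re ⟪(Y * Y - X * X) z, z⟫_ℂ = ‖Y z‖ ^ 2 - ‖X z‖ ^ 2 := by
        rw [_root_.sub_apply, inner_sub_left, map_sub, sq_inner hYs, sq_inner hXs]
      rw [e]
      have := h z
      have h0 := norm_nonneg (X z)
      nlinarith
  have h2 := CFC.monotone_sqrt h1
  rw [CFC.sqrt_mul_self X hX, CFC.sqrt_mul_self Y hY] at h2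
  rw [ContinuousLinearMap.le_def] at h2
  have h3 := h2.re_inner_nonneg_left x
  rw [_root_.sub_apply, inner_sub_left, map_sub] at h3
  linarith

end

end Pool.Agent.Q94.MA
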