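import Pool.Agent.Q94.MAA

open scoped InnerProductSpace ComplexOrder

namespace Pool.Agent.Q94.MA

noncomputable section

variable {H : Type*} [NormedAddCommGroup H] [InnerProductSpace ℂ H] [CompleteSpace H]

/-- A vector orthogonal to the kernel of a self-adjoint operator is in the closure of its range. -/
lemma norm_le_of_range {b : H →L[ℂ] H} (hb : IsSelfAdjoint b) {ξ : H} {C : ℝ} (hC : 0 ≤ C)
    (h1 : ∀ n, b n = 0 → ⟪n, ξ⟫_ℂ = 0) (h2 : ∀ w, ‖⟪ξ, b w⟫_ℂ‖ ≤ C * ‖b w‖) : ‖ξ‖ ≤ C := by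
  set K : Submodule ℂ H := LinearMap.range b.toLinearMap with hK
  have hmem : ξ ∈ K.topologicalClosure := by
    rw [← Submodule.orthogonal_orthogonal_eq_closure, Submodule.mem_orthogonal]
    intro n hn
    apply h1
    have h3 : ∀ z, ⟪b z, n⟫_ℂ = 0 := fun z =>
      (Submodule.mem_orthogonal K n).1 hn (b z) ⟨z, rfl⟩
    have h4 : ⟪b n, b n⟫_ℂ = 0 := by
      have := h3 (b n)
      rwa [sa_inner hb] at this
    exact inner_self_eq_zero.1 h4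
  have hcl : IsClosed {η : H | ‖⟪ξ, η⟫_ℂ‖ ≤ C * ‖η‖} :=
    isClosed_le (by fun_prop) (by fun_prop)
  have hsub : (K : Set H) ⊆ {η : H | ‖⟪ξ, η⟫_ℂ‖ ≤ C * ‖η‖} := by
    rintro _ ⟨z, rfl⟩
    exact h2 z
  have h5 : ‖⟪ξ, ξ⟫_ℂ‖ ≤ C * ‖ξ‖ := (closure_minimal hsub hcl) hmem
  rw [inner_self_eq_norm_sq_to_K] at h5
  have h6 : ‖ξ‖ ^ 2 ≤ C * ‖ξ‖ := by
    simpa using h5
  rcases eq_or_ne ξ 0 with h | h
  · rw [h, norm_zero]; exact hC
  · have : 0 < ‖ξ‖ := norm_pos_iff.2 h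
    nlinarith

/-- The relations satisfied by the polar data of a fixed point: `b = |T|^{1/2}`,
`r = |Δ(T)|^{1/2}`. -/
structure Data (b r V W : H →L[ℂ] H) : Prop where
  b_nn : 0 ≤ b
  r_nn : 0 ≤ r
  Vb : star V * V * b = b
  Wb : star W * W * b = b
  Wr : star W * W * r = r
  VVV : V * star V * V = V
  WWW : W * star W * W = W
  S : b * V * b = W * (r * r)
  T : (2 : ℂ) • (V * (b * b)) = W * (r * r) + r * r * W
  kerV : ∀ x, b x = 0 → V x = 0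

variable {b r V W : H →L[ℂ] H}

lemma contr {V : H →L[ℂ] H} (h : V * star V * V = V) (x : H) : ‖V x‖ ≤ ‖x‖ := by
  have e1 : ‖star V (V x)‖ ^ 2 = ‖V x‖ ^ 2 := by
    have e : (‖star V (V x)‖ ^ 2 : ℝ) = RCLike.re ⟪V (star V (V x)), V x⟫_ℂ := by
      rw [← star_inner', inner_self_eq_norm_sq]
    have e' : V (star V (V x)) = V x := congrArg (fun A : H →L[ℂ] H => A x) h
    rw [e, e', inner_self_eq_norm_sq]
  have e2 : ‖V x‖ ^ 2 = RCLike.re ⟪star V (V x), x⟫_ℂ := by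
    rw [star_inner, inner_self_eq_norm_sq]
  have e3 : RCLike.re ⟪star V (V x), x⟫_ℂ ≤ ‖star V (V x)‖ * ‖x‖ := re_inner_le_norm _ _
  have e4 : ‖star V (V x)‖ = ‖V x‖ := by
    have := congrArg Real.sqrt e1
    rwa [Real.sqrt_sq (norm_nonneg _), Real.sqrt_sq (norm_nonneg _)] at this
  rw [← e2, e4] at e3
  rcases eq_or_lt_of_le (norm_nonneg (V x)) with h0 | h0
  · rw [← h0]; exact norm_nonneg _
  · nlinarith

lemma contr_star {V : H →L[ℂ] H} (h : V * star V * V = V) (x : H) : ‖star V x‖ ≤ ‖x‖ := by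
  apply contr
  have := congrArg star h
  rw [star_mul, star_mul, star_star, ← mul_assoc] at this
  rw [star_star]
  exact this

lemma isom {V b : H →L[ℂ] H} (h : star V * V * b = b) (x : H) : ‖V (b x)‖ = ‖b x‖ := by
  have e : ‖V (b x)‖ ^ 2 = ‖b x‖ ^ 2 := by
    have e1 : (‖V (b x)‖ ^ 2 : ℝ) = RCLike.re ⟪star V (V (b x)), b x⟫_ℂ := by
      rw [star_inner, inner_self_eq_norm_sq]
    have e' : star V (V (b x)) = b x := congrArg (fun A : H →L[ℂ] H => A x) h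
    rw [e1, e', inner_self_eq_norm_sq]
  have := congrArg Real.sqrt e
  rwa [Real.sqrt_sq (norm_nonneg _), Real.sqrt_sq (norm_nonneg _)] at this

namespace Data

lemma b_sa (h : Data b r V W) : IsSelfAdjoint b := h.b_nn.isSelfAdjoint
lemma r_sa (h : Data b r V W) : IsSelfAdjoint r := h.r_nn.isSelfAdjoint

/-- `2 W^* T = c + W^* c W` -/
lemma Q_eq (h : Data b r V W) :
    (2 : ℂ) • (star W * (V * (b * b))) = r * r + star (r * W) * (r * W) := by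
  have h1 : (2 : ℂ) • (star W * (V * (b * b))) = star W * ((2 : ℂ) • (V * (b * b))) := by
    rw [mul_smul_comm]
  rw [h1, h.T, mul_add, star_mul, h.r_sa.star_eq]
  have h2 : star W * (W * (r * r)) = r * r := by
    rw [← mul_assoc, ← mul_assoc, h.Wr]
  rw [h2]
  noncomm_ring

lemma Q_nn (h : Data b r V W) : 0 ≤ star W * (V * (b * b)) := by
  have h1 : star W * (V * (b * b)) = (1 / 2 : ℝ) • (r * r + star (r * W) * (r * W)) := by
    rw [← h.Q_eq, ← Complex.coe_smul, smul_smul]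
    norm_num
  rw [h1]
  have h2 : 0 ≤ r * r := by
    have := star_mul_self_nonneg r
    rwa [h.r_sa.star_eq] at this
  exact smul_nonneg (by norm_num) (add_nonneg h2 (star_mul_self_nonneg _))

lemma Q_re (h : Data b r V W) (x : H) :
    2 * RCLike.re ⟪(star W * (V * (b * b))) x, x⟫_ℂ = ‖r x‖ ^ 2 + ‖r (W x)‖ ^ 2 := by
  have h1 : RCLike.re ⟪((2 : ℂ) • (star W * (V * (b * b)))) x, x⟫_ℂ
      = 2 * RCLike.re ⟪(star W * (V * (b * b))) x, x⟫_ℂ := by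
    rw [_root_.smul_apply, inner_smul_left]
    simp
  rw [← h1, h.Q_eq, _root_.add_apply, inner_add_left, map_add, sq_inner h.r_sa]
  congr 1
  rw [mul_apply_eq_comp, star_inner, inner_self_eq_norm_sq]
  rfl

lemma bb_nn (h : Data b r V W) : 0 ≤ b * b := by
  have := star_mul_self_nonneg b
  rwa [h.b_sa.star_eq] at this

lemma rr_nn (h : Data b r V W) : 0 ≤ r * r := by
  have := star_mul_self_nonneg r
  rwa [h.r_sa.star_eq] at this

lemma K1 (h : Data b r V W) (x : H) : ‖r x‖ ^ 2 + ‖r (W x)‖ ^ 2 ≤ 2 * ‖b x‖ ^ 2 := by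
  rw [← h.Q_re, ← sq_inner h.b_sa]
  have := loewner h.Q_nn h.bb_nn (fun z => by
    calc ‖(star W * (V * (b * b))) z‖ = ‖star W (V (b (b z)))‖ := rfl
      _ ≤ ‖V (b (b z))‖ := contr_star h.WWW _
      _ = ‖b (b z)‖ := isom h.Vb _) x
  linarith

lemma K2 (h : Data b r V W) (x : H) : ‖r x‖ ^ 2 ≤ ‖b (W x)‖ * ‖b x‖ := by
  have e : RCLike.re ⟪b (W x), V (b x)⟫_ℂ = ‖r x‖ ^ 2 := by
    rw [sa_inner h.b_sa]
    have e1 : b (V (b x)) = W (r (r x)) := congrArg (fun A : H →L[ℂ] H => A x) h.S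
    have e2 : star W (W (r (r x))) = r (r x) := congrArg (fun A : H →L[ℂ] H => A (r x)) h.Wr
    rw [e1, ← star_inner', e2, ← sa_inner h.r_sa, inner_self_eq_norm_sq]
  rw [← e]
  refine (re_inner_le_norm _ _).trans ?_
  rw [isom h.Vb]

/-- upper and lower constants -/
lemma K3 (h : Data b r V W) {m : ℝ} (hm0 : 0 ≤ m) (hm : ∀ x, m * ‖b x‖ ^ 2 ≤ ‖r x‖ ^ 2) (x : H) :
    m * (‖r x‖ ^ 2) ^ 2 ≤ (2 * ‖b x‖ ^ 2 - ‖r x‖ ^ 2) * ‖b x‖ ^ 2 := by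
  have h1 := h.K1 x
  have h2 := h.K2 x
  have h3 := hm (W x)
  have h4 : (‖r x‖ ^ 2) ^ 2 ≤ ‖b (W x)‖ ^ 2 * ‖b x‖ ^ 2 := by
    rw [← mul_pow]
    exact pow_le_pow_left₀ (sq_nonneg _) h2 2
  calc m * (‖r x‖ ^ 2) ^ 2 ≤ m * (‖b (W x)‖ ^ 2 * ‖b x‖ ^ 2) := by gcongr
    _ = (m * ‖b (W x)‖ ^ 2) * ‖b x‖ ^ 2 := by ring
    _ ≤ (2 * ‖b x‖ ^ 2 - ‖r x‖ ^ 2) * ‖b x‖ ^ 2 := by
      apply mul_le_mul_of_nonneg_right _ (sq_nonneg _)
      linarith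

lemma K4 (h : Data b r V W) {m l : ℝ} (hl0 : 0 ≤ l)
    (hm : ∀ x, m * ‖b x‖ ^ 2 ≤ ‖r x‖ ^ 2) (hl : ∀ x, ‖r x‖ ^ 2 ≤ l * ‖b x‖ ^ 2)
    (hm2 : m ≤ 2) (x : H) :
    2 * ‖b (b x)‖ ≤ (1 + √(l * (2 - m))) * ‖r (r x)‖ := by
  set ξ : H := (2 : ℂ) • b (b x) - star V (b (V (b x))) with hξ
  set C : ℝ := √(l * (2 - m)) * ‖r (r x)‖ with hC
  have hC0 : 0 ≤ C := by positivity
  have hSx : b (V (b x)) = W (r (r x)) := congrArg (fun A : H →L[ℂ] H => A x) h.S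
  have hVbb : ∀ z, star V (V (b z)) = b z := fun z => congrArg (fun A : H →L[ℂ] H => A z) h.Vb
  have hrVb : ‖r (V (b x))‖ ^ 2 ≤ l * ‖r (r x)‖ ^ 2 := by
    refine (hl _).trans ?_
    rw [hSx]
    gcongr
    exact contr h.WWW _
  have hrW : ∀ w, ‖r (W w)‖ ^ 2 ≤ (2 - m) * ‖b w‖ ^ 2 := by
    intro w
    have h1 := h.K1 w
    have h2 := hm w
    linarith
  have h1 : ∀ w, ⟪ξ, b w⟫_ℂ = ⟪r (V (b x)), r (W w)⟫_ℂ := by
    intro w
    have e1 : (2 : ℂ) • V (b (b w)) = W (r (r w)) + r (r (W w)) :=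
      congrArg (fun A : H →L[ℂ] H => A w) h.T
    have e2 : W (r (r w)) = b (V (b w)) := (congrArg (fun A : H →L[ℂ] H => A w) h.S).symm
    have e3 : r (r (W w)) = (2 : ℂ) • V (b (b w)) - b (V (b w)) := by
      rw [e1, e2]; abel
    have f1 : ⟪b (b x), b w⟫_ℂ = ⟪V (b x), V (b (b w))⟫_ℂ := by
      rw [sa_inner h.b_sa, ← star_inner' V, hVbb]
    have f2 : ⟪star V (b (V (b x))), b w⟫_ℂ = ⟪V (b x), b (V (b w))⟫_ℂ := by
      rw [star_inner, ← sa_inner h.b_sa]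
    have f3 : (starRingEnd ℂ) 2 = 2 := Complex.conj_ofNat 2
    rw [sa_inner h.r_sa, e3, hξ, inner_sub_left, inner_sub_right, inner_smul_left,
      inner_smul_right, f1, f2, f3]
  have h2 : ∀ w, ‖⟪ξ, b w⟫_ℂ‖ ≤ C * ‖b w‖ := by
    intro w
    rw [h1]
    refine (norm_inner_le_norm _ _).trans ?_
    apply le_of_sq_le_sq _ (by positivity)
    have hlm : 0 ≤ l * (2 - m) := mul_nonneg hl0 (by linarith)
    calc (‖r (V (b x))‖ * ‖r (W w)‖) ^ 2 = ‖r (V (b x))‖ ^ 2 * ‖r (W w)‖ ^ 2 := by ring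
      _ ≤ (l * ‖r (r x)‖ ^ 2) * ((2 - m) * ‖b w‖ ^ 2) :=
        mul_le_mul hrVb (hrW w) (sq_nonneg _) (by positivity)
      _ = (l * (2 - m)) * (‖r (r x)‖ * ‖b w‖) ^ 2 := by ring
      _ = (√(l * (2 - m))) ^ 2 * (‖r (r x)‖ * ‖b w‖) ^ 2 := by rw [Real.sq_sqrt hlm]
      _ = (C * ‖b w‖) ^ 2 := by rw [hC]; ring
  have h3 : ‖ξ‖ ≤ C := by
    apply norm_le_of_range h.b_sa hC0 _ h2
    intro n hn
    rw [hξ, inner_sub_right, inner_smul_right, ← sa_inner h.b_sa, hn, inner_zero_left,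
      star_inner', h.kerV n hn, inner_zero_left]
    simp
  have h4 : 2 * ‖b (b x)‖ ≤ ‖ξ‖ + ‖r (r x)‖ := by
    have e : (2 : ℂ) • b (b x) = ξ + star V (b (V (b x))) := by rw [hξ]; abel
    calc 2 * ‖b (b x)‖ = ‖(2 : ℂ) • b (b x)‖ := by rw [norm_smul]; simp
      _ ≤ ‖ξ‖ + ‖star V (b (V (b x)))‖ := by rw [e]; exact norm_add_le _ _
      _ ≤ ‖ξ‖ + ‖r (r x)‖ := by
        gcongr
        refine (contr_star h.VVV _).trans ?_
        rw [hSx]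
        exact contr h.WWW _
  rw [hC] at h3
  linarith

/-- the improved lower constant -/
lemma K5 (h : Data b r V W) {m l : ℝ} (hl0 : 0 ≤ l)
    (hm : ∀ x, m * ‖b x‖ ^ 2 ≤ ‖r x‖ ^ 2) (hl : ∀ x, ‖r x‖ ^ 2 ≤ l * ‖b x‖ ^ 2)
    (hm2 : m ≤ 2) (x : H) :
    (2 / (1 + √(l * (2 - m)))) * ‖b x‖ ^ 2 ≤ ‖r x‖ ^ 2 := by
  set q : ℝ := 2 / (1 + √(l * (2 - m))) with hq
  have hd : 0 < 1 + √(l * (2 - m)) := by positivity
  have hq0 : 0 ≤ q := by positivity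
  have h1 : ∀ z, ‖((q : ℝ) • (b * b)) z‖ ≤ ‖(r * r) z‖ := by
    intro z
    have h2 := h.K4 hl0 hm hl hm2 z
    rw [_root_.smul_apply, norm_smul, Real.norm_eq_abs, abs_of_nonneg hq0, hq, div_mul_eq_mul_div,
      div_le_iff₀ hd]
    change 2 * ‖b (b z)‖ ≤ ‖r (r z)‖ * _
    linarith
  have h3 := loewner (smul_nonneg hq0 h.bb_nn) h.rr_nn h1 x
  rw [sq_inner h.r_sa, _root_.smul_apply] at h3
  have h4 : RCLike.re ⟪q • (b * b) x, x⟫_ℂ = q * ‖b x‖ ^ 2 := by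
    rw [← sq_inner h.b_sa, ← Complex.coe_smul, inner_smul_left]
    simp
  rwa [h4] at h3

end Data

end

end Pool.Agent.Q94.MA
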