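import Pool.Agent.Q94.MAB

open scoped InnerProductSpace ComplexOrder

namespace Pool.Agent.Q94.MA

noncomputable section

variable {H : Type*} [NormedAddCommGroup H] [InnerProductSpace ℂ H] [CompleteSpace H]

/-- The two scalar inequalities force `l = m = 1`. -/
lemma scalar_eq {l m : ℝ} (hm0 : 0 ≤ m) (hml : m ≤ l) (hl2 : l ≤ 2) (h1 : m * l ^ 2 + l ≤ 2)
    (h2 : 2 ≤ m * (1 + √(l * (2 - m)))) : l = 1 ∧ m = 1 := by
  have hl0 : 0 ≤ l := hm0.trans hml
  have hm2 : m ≤ 2 := hml.trans hl2
  have hs0 : 0 ≤ √(l * (2 - m)) := Real.sqrt_nonneg _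
  have hs : √(l * (2 - m)) ^ 2 = l * (2 - m) := Real.sq_sqrt (mul_nonneg hl0 (by linarith))
  have h3 : 2 - m ≤ m * √(l * (2 - m)) := by linarith
  have h4 : (2 - m) ^ 2 ≤ m ^ 2 * (l * (2 - m)) := by
    rw [← hs, ← mul_pow]
    exact pow_le_pow_left₀ (by linarith) h3 2
  have h5 : 2 ≤ m ^ 2 * l + m := by
    rcases eq_or_lt_of_le hm2 with h | h
    · rw [h] at hml ⊢; nlinarith
    · have h6 : 0 < 2 - m := by linarith
      have h7 : (2 - m) * (2 - m) ≤ (m ^ 2 * l) * (2 - m) := by nlinarith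
      have := le_of_mul_le_mul_right h7 h6
      linarith
  have h6 : 0 ≤ (m - l) * (m * l + 1) := by nlinarith
  have h7 : l ≤ m := by
    by_contra hh
    push Not at hh
    have : 0 < m * l + 1 := by positivity
    nlinarith
  have h8 : m = l := le_antisymm hml h7
  subst h8
  have h9 : (m - 1) * (m ^ 2 + m + 2) = 0 := by
    have : m * m ^ 2 + m = 2 := le_antisymm h1 (by nlinarith)
    nlinarith
  rcases mul_eq_zero.1 h9 with h | h
  · constructor <;> linarith
  · nlinarith [sq_nonneg m]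

variable {b r V W : H →L[ℂ] H}

namespace Data

lemma r_eq_zero (h : Data b r V W) {x : H} (hx : b x = 0) : r x = 0 := by
  have := h.K1 x
  rw [hx, norm_zero] at this
  have h2 : ‖r x‖ ^ 2 ≤ 0 := by nlinarith [sq_nonneg ‖r (W x)‖]
  have h3 : ‖r x‖ = 0 := by nlinarith [norm_nonneg (r x)]
  exact norm_eq_zero.1 h3

/-- The two quadratic forms coincide. -/
lemma forms_eq (h : Data b r V W) (x : H) : ‖r x‖ ^ 2 = ‖b x‖ ^ 2 := by
  by_cases hb : ∀ z, b z = 0
  · rw [hb x, h.r_eq_zero (hb x)]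
  push Not at hb
  obtain ⟨z, hz⟩ := hb
  have hz0 : 0 < ‖b z‖ ^ 2 := by positivity
  set L : Set ℝ := {l | 0 ≤ l ∧ ∀ x, ‖r x‖ ^ 2 ≤ l * ‖b x‖ ^ 2} with hL
  set M : Set ℝ := {m | 0 ≤ m ∧ ∀ x, m * ‖b x‖ ^ 2 ≤ ‖r x‖ ^ 2} with hM
  have hLc : IsClosed L := by
    rw [hL, Set.ofPred_and, Set.ofPred_forall]
    exact (isClosed_le continuous_const continuous_id).inter
      (isClosed_iInter fun x => isClosed_le (by fun_prop) (by fun_prop))
  have hMc : IsClosed M := by
    rw [hM, Set.ofPred_and, Set.ofPred_forall]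
    exact (isClosed_le continuous_const continuous_id).inter
      (isClosed_iInter fun x => isClosed_le (by fun_prop) (by fun_prop))
  have hL2 : (2 : ℝ) ∈ L := ⟨by norm_num, fun x => by
    have := h.K1 x
    nlinarith [sq_nonneg ‖r (W x)‖]⟩
  have hM0 : (0 : ℝ) ∈ M := ⟨le_refl _, fun x => by rw [zero_mul]; exact sq_nonneg _⟩
  have hLb : BddBelow L := ⟨0, fun l hl => hl.1⟩
  have hMb : BddAbove M := ⟨2, fun m hm => by
    have h1 := hm.2 z
    have h2 := hL2.2 z
    exact le_of_mul_le_mul_right (h1.trans h2) hz0⟩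
  set l := sInf L with hl
  set m := sSup M with hm
  have hlL : l ∈ L := hLc.csInf_mem ⟨2, hL2⟩ hLb
  have hmM : m ∈ M := hMc.csSup_mem ⟨0, hM0⟩ hMb
  have hl0 : 0 ≤ l := hlL.1
  have hm0 : 0 ≤ m := hmM.1
  have hl2 : l ≤ 2 := csInf_le hLb hL2
  have hml : m ≤ l := le_of_mul_le_mul_right ((hmM.2 z).trans (hlL.2 z)) hz0
  -- the lower constant
  have hq := fun x => h.K5 hl0 hmM.2 hlL.2 (hml.trans hl2) x
  have hd : 0 < 1 + √(l * (2 - m)) := by positivity
  have h2 : 2 ≤ m * (1 + √(l * (2 - m))) := by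
    rw [← div_le_iff₀ hd]
    exact le_csSup hMb ⟨by positivity, hq⟩
  -- the upper constant
  have h1 : m * l ^ 2 + l ≤ 2 := by
    by_contra hh
    push Not at hh
    have hlpos : 0 < l := by
      rcases eq_or_lt_of_le hl0 with h0 | h0
      · rw [← h0] at hh; norm_num at hh
      · exact h0
    have hden : 0 < 2 * m * l + 1 := by positivity
    set ε := min l ((m * l ^ 2 + l - 2) / (2 * m * l + 1)) with hε
    have hε0 : 0 < ε := lt_min hlpos (div_pos (by linarith) hden)
    have hεl : ε ≤ l := min_le_left _ _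
    have hε2 : ε * (2 * m * l + 1) ≤ m * l ^ 2 + l - 2 := by
      rw [← le_div_iff₀ hden]; exact min_le_right _ _
    have hmem : l - ε ∈ L := by
      refine ⟨by linarith, fun x => ?_⟩
      by_contra hx
      push Not at hx
      have hK := h.K3 hm0 hmM.2 x
      set t := ‖r x‖ ^ 2 with ht
      set s := ‖b x‖ ^ 2 with hs
      have hs0 : 0 ≤ s := sq_nonneg _
      have hspos : 0 < s := by
        rcases eq_or_lt_of_le hs0 with h0 | h0
        · exfalso
          have hb0 : b x = 0 := by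
            have : ‖b x‖ = 0 := by nlinarith [norm_nonneg (b x)]
            exact norm_eq_zero.1 this
          have : t = 0 := by rw [ht, h.r_eq_zero hb0]; simp
          rw [this, ← h0] at hx
          simp at hx
        · exact h0
      have hle : 0 ≤ (l - ε) * s := mul_nonneg (by linarith) hs0
      have h5 : m * ((l - ε) * s) ^ 2 ≤ m * t ^ 2 := by
        gcongr
      have h6 : m * ((l - ε) * s) ^ 2 + t * s ≤ 2 * s * s := by nlinarith
      have h7 : (l - ε) * s * s < t * s := mul_lt_mul_of_pos_right hx hspos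
      have h8 : (m * (l - ε) ^ 2 + (l - ε)) * (s * s) < 2 * (s * s) := by nlinarith
      have h9 : m * (l - ε) ^ 2 + (l - ε) < 2 := lt_of_mul_lt_mul_right h8 (by positivity)
      nlinarith [mul_nonneg hm0 (sq_nonneg ε)]
    have := csInf_le hLb hmem
    linarith
  obtain ⟨e1, e2⟩ := scalar_eq hm0 hml hl2 h1 h2
  have h3 := hlL.2 x
  have h4 := hmM.2 x
  rw [e1, one_mul] at h3
  rw [e2, one_mul] at h4
  exact le_antisymm h3 h4

/-- A self-adjoint operator with zero quadratic form is zero. -/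
lemma _root_.Pool.Agent.Q94.MA.eq_of_forms {X Y : H →L[ℂ] H} (hX : IsSelfAdjoint X)
    (hY : IsSelfAdjoint Y) (h : ∀ x, RCLike.re ⟪X x, x⟫_ℂ = RCLike.re ⟪Y x, x⟫_ℂ) : X = Y := by
  have h1 : 0 ≤ X - Y := by
    rw [ContinuousLinearMap.nonneg_iff_isPositive, ContinuousLinearMap.isPositive_iff_complex]
    intro z
    have := (hX.sub hY).isSymmetric.coe_re_inner_apply_self z
    refine ⟨by simpa using this, ?_⟩
    rw [_root_.sub_apply, inner_sub_left, map_sub, h, sub_self]
  have h2 : 0 ≤ Y - X := by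
    rw [ContinuousLinearMap.nonneg_iff_isPositive, ContinuousLinearMap.isPositive_iff_complex]
    intro z
    have := (hY.sub hX).isSymmetric.coe_re_inner_apply_self z
    refine ⟨by simpa using this, ?_⟩
    rw [_root_.sub_apply, inner_sub_left, map_sub, h, sub_self]
  exact le_antisymm (sub_nonneg.1 h2) (sub_nonneg.1 h1)

/-- Main algebraic conclusion. -/
theorem comm (h : Data b r V W) : V * b = b * V := by
  have hr : r * r = b * b := by
    apply eq_of_forms h.rr_nn.isSelfAdjoint h.bb_nn.isSelfAdjoint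
    intro x
    rw [sq_inner h.r_sa, sq_inner h.b_sa, h.forms_eq]
  have hbW : ∀ x, ‖b (W x)‖ ^ 2 = ‖b x‖ ^ 2 := by
    intro x
    have h1 := h.K1 x
    have h2 := h.K2 x
    rw [h.forms_eq, h.forms_eq] at h1
    rw [h.forms_eq] at h2
    apply le_antisymm (by linarith)
    have h3 := norm_nonneg (b x)
    have h4 := norm_nonneg (b (W x))
    rcases eq_or_lt_of_le h3 with h0 | h0
    · rw [← h0]; simpa using sq_nonneg ‖b (W x)‖
    · have : ‖b x‖ ≤ ‖b (W x)‖ := by nlinarith
      exact pow_le_pow_left₀ h3 this 2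
  have hQ : star W * (V * (b * b)) = b * b := by
    apply eq_of_forms h.Q_nn.isSelfAdjoint h.bb_nn.isSelfAdjoint
    intro x
    have h1 := h.Q_re x
    rw [h.forms_eq, h.forms_eq, hbW] at h1
    rw [sq_inner h.b_sa]
    linarith
  have hVW : V * (b * b) = W * (b * b) := by
    ext x
    have e1 : ‖V (b (b x))‖ = ‖b (b x)‖ := isom h.Vb _
    have e2 : ‖W (b (b x))‖ = ‖b (b x)‖ := isom h.Wb _
    have e3 : ⟪V (b (b x)), W (b (b x))⟫_ℂ = ⟪b (b x), b (b x)⟫_ℂ := by
      rw [← star_inner]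
      congr 1
      exact congrArg (fun A : H →L[ℂ] H => A x) hQ
    have e4 : ‖V (b (b x)) - W (b (b x))‖ ^ 2 = 0 := by
      rw [@norm_sub_sq ℂ, e1, e2, e3, inner_self_eq_norm_sq]
      ring
    have e5 : V (b (b x)) - W (b (b x)) = 0 := by
      rw [← norm_eq_zero]
      nlinarith [norm_nonneg (V (b (b x)) - W (b (b x)))]
    exact sub_eq_zero.1 e5
  have hVb : V * (b * b) = b * V * b := by
    rw [hVW, h.S, hr]
  have hD : (V * b - b * V) * b = 0 := by
    rw [sub_mul, mul_assoc, hVb, sub_self]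
  have h3 : b * star (V * b - b * V) = 0 := by
    have := congrArg star hD
    rwa [star_mul, h.b_sa.star_eq, star_zero] at this
  have h4 : (V * b - b * V) * star (V * b - b * V) = 0 := by
    ext x
    have hx : b (star (V * b - b * V) x) = 0 := by
      have := congrArg (fun A : H →L[ℂ] H => A x) h3
      simpa using this
    have hk : ∀ y, b y = 0 → (V * b - b * V) y = 0 := by
      intro y hy
      change V (b y) - b (V y) = 0
      rw [h.kerV y hy, hy]
      simp
    simpa using hk _ hx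
  exact sub_eq_zero.1 ((CStarRing.mul_star_self_eq_zero_iff _).1 h4)

end Data

end

end Pool.Agent.Q94.MA
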