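import Pool.Agent.Q94.MAC

open scoped InnerProductSpace ComplexOrder

namespace Pool.Agent.Q94.MA

noncomputable section

universe u

variable {H : Type u} [NormedAddCommGroup H] [InnerProductSpace ℂ H] [CompleteSpace H]

/-- `T = V|T|` is the canonical polar decomposition: `V` is a partial isometry and
`ker V = ker T`. -/
def IsPolar (T V : H →L[ℂ] H) : Prop :=
  T = V * CFC.abs T ∧ V * star V * V = V ∧ ∀ x : H, V x = 0 ↔ T x = 0

/-- `C` vanishes if it vanishes on the range and on the kernel of a self-adjoint operator. -/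
lemma eq_zero_of (P C : H →L[ℂ] H) (hP : IsSelfAdjoint P) (h1 : C * P = 0)
    (h2 : ∀ x, P x = 0 → C x = 0) : C = 0 := by
  have h3 : P * star C = 0 := by
    have := congrArg star h1
    rwa [star_mul, hP.star_eq, star_zero] at this
  have h4 : C * star C = 0 := by
    ext x
    have : P (star C x) = 0 := by
      have := congrArg (fun A : H →L[ℂ] H => A x) h3
      simpa using this
    simpa using h2 _ this
  exact (CStarRing.mul_star_self_eq_zero_iff C).1 h4

lemma abs_sa (T : H →L[ℂ] H) : IsSelfAdjoint (CFC.abs T) := (CFC.abs_nonneg T).isSelfAdjoint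

lemma abs_norm (T : H →L[ℂ] H) (x : H) : ‖CFC.abs T x‖ = ‖T x‖ := by
  have h1 : ‖CFC.abs T x‖ ^ 2 = ‖T x‖ ^ 2 := by
    have e1 : (‖CFC.abs T x‖ ^ 2 : ℝ) = RCLike.re ⟪(star T * T) x, x⟫_ℂ := by
      rw [← CFC.abs_mul_abs T, mul_apply_eq_comp]
      have := (abs_sa T).isSymmetric (CFC.abs T x) x
      have h : ⟪CFC.abs T (CFC.abs T x), x⟫_ℂ = ⟪CFC.abs T x, CFC.abs T x⟫_ℂ := this
      rw [h, inner_self_eq_norm_sq]
    rw [e1, mul_apply_eq_comp, ContinuousLinearMap.star_eq_adjoint,
      ContinuousLinearMap.adjoint_inner_left, inner_self_eq_norm_sq]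
  have h2 := congrArg Real.sqrt h1
  rwa [Real.sqrt_sq (norm_nonneg _), Real.sqrt_sq (norm_nonneg _)] at h2

lemma abs_ker (T : H →L[ℂ] H) (x : H) : CFC.abs T x = 0 ↔ T x = 0 := by
  rw [← norm_eq_zero, abs_norm, norm_eq_zero]

/-- Every operator has a canonical polar decomposition. -/
theorem exists_polar (T : H →L[ℂ] H) : ∃ V, IsPolar T V := by
  set P := CFC.abs T with hP
  have hPsa : IsSelfAdjoint P := abs_sa T
  set K : Submodule ℂ H := (LinearMap.range P.toLinearMap).topologicalClosure with hK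
  have hKc : IsClosed (K : Set H) := Submodule.isClosed_topologicalClosure _
  have : CompleteSpace K := hKc.completeSpace_coe
  have hmem : ∀ x, P x ∈ K := fun x =>
    Submodule.le_topologicalClosure _ ⟨x, rfl⟩
  let e : H →ₗ[ℂ] K := LinearMap.codRestrict K P.toLinearMap hmem
  have he : ∀ x, ((e x : K) : H) = P x := fun x => rfl
  have hdense : DenseRange e := by
    intro k
    rw [Metric.mem_closure_iff]
    intro ε hε
    have hk : (k : H) ∈ closure (LinearMap.range P.toLinearMap : Set H) := k.2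
    rw [Metric.mem_closure_iff] at hk
    obtain ⟨y, ⟨x, hx⟩, hy⟩ := hk ε hε
    refine ⟨e x, ⟨x, rfl⟩, ?_⟩
    rw [Subtype.dist_eq, he]
    have : P x = y := hx
    rw [this]
    exact hy
  have hnorm : ∀ x, ‖T.toLinearMap x‖ = ‖e x‖ := fun x => by
    change ‖T x‖ = ‖P x‖
    exact (abs_norm T x).symm
  have hbd : ∃ C, ∀ x, ‖T.toLinearMap x‖ ≤ C * ‖e x‖ := ⟨1, fun x => by rw [one_mul, hnorm]⟩
  let U : K →L[ℂ] H := T.toLinearMap.extendOfNorm e
  have hU : ∀ x, U (e x) = T x := fun x => LinearMap.extendOfNorm_eq hdense hbd x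
  have hUn : ∀ k, ‖U k‖ = ‖k‖ := by
    intro k
    have h1 : IsClosed {k : K | ‖U k‖ = ‖k‖} :=
      isClosed_eq (U.continuous.norm) continuous_norm
    have h2 : Set.range e ⊆ {k : K | ‖U k‖ = ‖k‖} := by
      rintro _ ⟨x, rfl⟩
      change ‖U (e x)‖ = ‖e x‖
      rw [hU]
      exact hnorm x
    exact (closure_minimal h2 h1) (hdense k)
  let UI : K →ₗᵢ[ℂ] H := ⟨U.toLinearMap, hUn⟩
  have hUI : ∀ k, UI k = U k := fun k => rfl
  let V : H →L[ℂ] H := U ∘L K.orthogonalProjectionOnto
  have hV : ∀ x, V x = U (K.orthogonalProjectionOnto x) := fun x => rfl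
  have hVP : ∀ x, V (P x) = T x := by
    intro x
    rw [hV]
    have : K.orthogonalProjectionOnto (P x) = e x := by
      apply Subtype.ext
      rw [he]
      exact Submodule.starProjection_eq_self_iff.2 (hmem x)
    rw [this, hU]
  have hVV : star V * V = K.starProjection := by
    ext x
    apply ext_inner_right ℂ
    intro z
    rw [mul_apply_eq_comp, ContinuousLinearMap.star_eq_adjoint,
      ContinuousLinearMap.adjoint_inner_left, hV, hV, ← hUI, ← hUI, UI.inner_map_map,
      Submodule.coe_inner]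
    change ⟪K.starProjection x, K.starProjection z⟫_ℂ = _
    rw [← Submodule.inner_starProjection_left_eq_right]
    congr 1
    exact Submodule.starProjection_eq_self_iff.2 (Submodule.starProjection_apply_mem K x)
  refine ⟨V, ?_, ?_, ?_⟩
  · ext x
    exact (hVP x).symm
  · rw [mul_assoc, hVV]
    ext x
    change U (K.orthogonalProjectionOnto (K.starProjection x)) = U (K.orthogonalProjectionOnto x)
    congr 1
    apply Subtype.ext
    exact Submodule.starProjection_eq_self_iff.2 (Submodule.starProjection_apply_mem K x)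
  · intro x
    have h1 : V x = 0 ↔ K.starProjection x = 0 := by
      rw [← norm_eq_zero, hV, hUn, norm_eq_zero]
      exact Subtype.ext_iff
    rw [h1, Submodule.starProjection_apply_eq_zero_iff, ← abs_ker T x]
    constructor
    · intro hx
      have h2 : ⟪P (P x), x⟫_ℂ = 0 := (Submodule.mem_orthogonal K x).1 hx _ (hmem _)
      have h3 : ⟪P (P x), x⟫_ℂ = ⟪P x, P x⟫_ℂ := hPsa.isSymmetric (P x) x
      rw [h3, inner_self_eq_zero] at h2
      exact h2
    · intro hx
      rw [hK, Submodule.mem_orthogonal]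
      intro u hu
      have hcl : IsClosed {u : H | ⟪u, x⟫_ℂ = 0} :=
        isClosed_eq (continuous_id.inner continuous_const) continuous_const
      have hsub : (LinearMap.range P.toLinearMap : Set H) ⊆ {u : H | ⟪u, x⟫_ℂ = 0} := by
        rintro _ ⟨y, rfl⟩
        change ⟪P y, x⟫_ℂ = 0
        have h3 : ⟪P y, x⟫_ℂ = ⟪y, P x⟫_ℂ := hPsa.isSymmetric y x
        have hx' : P x = 0 := hx
        rw [h3, hx', inner_zero_right]
      exact (closure_minimal hsub hcl) hu

theorem polar_unique (T V V' : H →L[ℂ] H) (h : IsPolar T V) (h' : IsPolar T V') : V' = V := by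
  have h0 : V' - V = 0 := by
    apply eq_zero_of (CFC.abs T) _ (abs_sa T)
    · rw [sub_mul, ← h.1, ← h'.1, sub_self]
    · intro x hx
      rw [abs_ker] at hx
      simp [(h.2.2 x).2 hx, (h'.2.2 x).2 hx]
  exact sub_eq_zero.1 h0

/-- `|T|^{1/2}` -/
def half (T : H →L[ℂ] H) : H →L[ℂ] H := CFC.sqrt (CFC.abs T)

lemma half_nn (T : H →L[ℂ] H) : 0 ≤ half T := CFC.sqrt_nonneg _

lemma half_mul (T : H →L[ℂ] H) : half T * half T = CFC.abs T :=
  CFC.sqrt_mul_sqrt_self _ (CFC.abs_nonneg T)

lemma half_ker (T : H →L[ℂ] H) (x : H) : half T x = 0 ↔ T x = 0 := by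
  rw [← abs_ker T x, ← half_mul T]
  constructor
  · intro h
    change half T (half T x) = 0
    rw [h, map_zero]
  · intro h
    have h1 := sq_inner (half_nn T).isSelfAdjoint x
    rw [h, inner_zero_left] at h1
    have h2 : ‖half T x‖ ^ 2 = 0 := by rw [← h1]; simp
    exact norm_eq_zero.1 (pow_eq_zero_iff (two_ne_zero) |>.1 h2)

lemma proj_lemma {V b : H →L[ℂ] H} (hb : IsSelfAdjoint b) (hV : V * star V * V = V)
    (hk : ∀ x, V x = 0 → b x = 0) : star V * V * b = b := by
  set D := b - star V * V * b with hD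
  have h1 : V * D = 0 := by
    rw [hD, mul_sub]
    have : V * (star V * V * b) = V * star V * V * b := by noncomm_ring
    rw [this, hV, sub_self]
  have h2 : b * D = 0 := by
    ext x
    have : V (D x) = 0 := congrArg (fun A : H →L[ℂ] H => A x) h1
    exact hk _ this
  have h3 : star D * D = 0 := by
    have e : star D = b - b * (star V * V) := by
      rw [hD, star_sub, star_mul, star_mul, star_star, hb.star_eq]
    rw [e]
    calc (b - b * (star V * V)) * D = b * D - b * star V * (V * D) := by noncomm_ring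
      _ = 0 := by rw [h1, h2]; simp
  have h4 : D = 0 := (CStarRing.star_mul_self_eq_zero_iff D).1 h3
  rw [hD] at h4
  exact (sub_eq_zero.1 h4).symm

/-- The data of a fixed point. -/
lemma data_of {T V S W : H →L[ℂ] H} (hTV : IsPolar T V) (hS : S = half T * V * half T)
    (hSW : IsPolar S W) (hfix : (1 / 2 : ℂ) • (W * CFC.abs S + CFC.abs S * W) = T) :
    Data (half T) (half S) V W := by
  have hfix2 : (2 : ℂ) • T = W * CFC.abs S + CFC.abs S * W := by
    rw [← hfix, smul_smul]; norm_num
  have hWT : ∀ x, W x = 0 → half T x = 0 := by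
    intro x hx
    rw [half_ker]
    have h1 : CFC.abs S x = 0 := by rw [abs_ker]; exact (hSW.2.2 x).1 hx
    have h2 : (2 : ℂ) • T x = W (CFC.abs S x) + CFC.abs S (W x) :=
      congrArg (fun A : H →L[ℂ] H => A x) hfix2
    rw [h1, hx, map_zero, map_zero, add_zero] at h2
    exact (smul_eq_zero.1 h2).resolve_left two_ne_zero
  refine ⟨half_nn T, half_nn S, ?_, ?_, ?_, hTV.2.1, hSW.2.1, ?_, ?_, ?_⟩
  · exact proj_lemma (half_nn T).isSelfAdjoint hTV.2.1
      (fun x hx => (half_ker T x).2 ((hTV.2.2 x).1 hx))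
  · exact proj_lemma (half_nn T).isSelfAdjoint hSW.2.1 hWT
  · exact proj_lemma (half_nn S).isSelfAdjoint hSW.2.1
      (fun x hx => (half_ker S x).2 ((hSW.2.2 x).1 hx))
  · rw [half_mul, ← hSW.1, hS]
  · rw [half_mul, half_mul, ← hTV.1, hfix2]
  · intro x hx
    exact (hTV.2.2 x).2 ((half_ker T x).1 hx)

/-- `T` commutes with `T^* T`. -/
def QuasiNormal (T : H →L[ℂ] H) : Prop := T * (star T * T) = star T * T * T

theorem quasi_of_fixed {T V S W : H →L[ℂ] H} (hTV : IsPolar T V) (hS : S = half T * V * half T)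
    (hSW : IsPolar S W) (hfix : (1 / 2 : ℂ) • (W * CFC.abs S + CFC.abs S * W) = T) :
    QuasiNormal T := by
  have hc : V * half T = half T * V := (data_of hTV hS hSW hfix).comm
  have hTT : T = V * (half T * half T) := by rw [half_mul]; exact hTV.1
  have hc1 : Commute V (half T) := hc
  have hc2 : Commute T (CFC.abs T) := by
    rw [← half_mul]
    have : Commute T (half T) := by
      conv_lhs => rw [hTT]
      exact hc1.mul_left ((Commute.refl _).mul_left (Commute.refl _))
    exact this.mul_right this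
  have : Commute T (star T * T) := by
    rw [← CFC.abs_mul_abs]
    exact hc2.mul_right hc2
  exact this

lemma abs_comm_of_quasi {T V : H →L[ℂ] H} (h : IsPolar T V) (hq : QuasiNormal T) :
    Commute (CFC.abs T) V := by
  set P := CFC.abs T with hP
  have hPsa : IsSelfAdjoint P := abs_sa T
  have hTP : T = V * P := h.1
  have hcomm : Commute T (star T * T) := hq
  have hcP : Commute T P := (Commute.cfcₙ_nnreal hcomm.symm _).symm
  have h0 : V * P - P * V = 0 := by
    apply eq_zero_of P _ hPsa
    · rw [sub_mul, sub_eq_zero]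
      calc V * P * P = T * P := by rw [← hTP]
        _ = P * T := hcP
        _ = P * V * P := by rw [mul_assoc, ← hTP]
    · intro x hx
      have hT : T x = 0 := (abs_ker T x).1 hx
      have hV : V x = 0 := (h.2.2 x).2 hT
      simp [hx, hV]
  exact (sub_eq_zero.1 h0).symm

theorem aluthge_of_quasi {T V : H →L[ℂ] H} (h : IsPolar T V) (hq : QuasiNormal T) :
    half T * V * half T = T := by
  have h1 : Commute (CFC.abs T) V := abs_comm_of_quasi h hq
  have h2 : Commute (half T) V := Commute.cfcₙ_nnreal h1 _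
  rw [h2.eq, mul_assoc, half_mul]
  exact h.1.symm

end

end Pool.Agent.Q94.MA
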