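import Pool.Agent.Q88.MD.Stm

set_option autoImplicit false

/-!
Project MD, job CPT: sets of positive measure with compact subsets of finite energy are not polar.
-/

open MeasureTheory Set Filter Topology
open scoped ENNReal NNReal

namespace Pool.Agent.Q94.MDCPT

open Pool.Agent.Q88.MD

/-- **CPT** -/
theorem cpt (h : S_qap) (h1 : S_eng) : S_cpt := by
  intro s hs μ hμ A hA hpos hfin hpol
  have hm : MeasurableSet (A ∩ Ico (0 : ℝ) 1) := hA.inter measurableSet_Ico
  obtain ⟨C, hCA, hC, hC0⟩ := hm.exists_lt_isCompact_of_ne_top (measure_ne_top μ _) hpos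
  have hCm : MeasurableSet C := hC.isClosed.measurableSet
  have hfi : IsFiniteMeasure (μ.restrict C) := inferInstance
  have h2 : μ.restrict C (Ico (0 : ℝ) 1)ᶜ = 0 := by
    rw [Measure.restrict_apply measurableSet_Ico.compl]
    have : (Ico (0 : ℝ) 1)ᶜ ∩ C = ∅ := by
      ext x
      simp only [mem_inter_iff, mem_compl_iff, mem_empty_iff_false, iff_false, not_and]
      intro hx hxC
      exact hx (hCA hxC).2
    rw [this, measure_empty]
  have h3 := h1 s hs (μ.restrict C) hfi h2 (hfin C hCA hC)
  rcases hpol with hp | hp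
  · exact absurd hp hs.2.ne
  · refine h3 ((h _ A).1 hp (μ.restrict C) hfi
      ⟨C, hC.isClosed, fun x hx => (hCA hx).1, ?_⟩ ?_)
    · rw [Measure.restrict_apply hCm.compl, compl_inter_self, measure_empty]
    · intro h0
      rw [Measure.restrict_eq_zero] at h0
      exact hC0.ne' h0

end Pool.Agent.Q94.MDCPT
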