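import Pool.Agent.Q88.MD.Stm

set_option autoImplicit false

/-!
Project MD, job INV: the interval of the states is invariant.
-/

open Set

namespace Pool.Agent.Q94.MDINV

open Pool.Agent.Q88.MD

theorem between {a b z0 z c w : ℝ} (h0 : z0 ∈ Icc a b) (hz : z ∈ Icc a b) (hc0 : 0 ≤ c)
    (hc1 : c ≤ 1) (hw : w = z0 + c * (z - z0)) : w ∈ Icc a b := by
  rw [hw]
  have h1 : 0 ≤ 1 - c := by linarith
  constructor
  · nlinarith [mul_nonneg hc0 (sub_nonneg.2 hz.1), mul_nonneg h1 (sub_nonneg.2 h0.1)]
  · nlinarith [mul_nonneg hc0 (sub_nonneg.2 hz.2), mul_nonneg h1 (sub_nonneg.2 h0.2)]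

/-- **INV** -/
theorem inv : S_inv := by
  intro g lam q hg hlam hq
  have hl : 0 < lam - 1 := by linarith
  have hz0 : g / (lam - 1) ∈ Icc (za g lam q) (zb g lam q) :=
    ⟨(min_le_right _ _).trans (min_le_left _ _), (le_max_left _ _).trans (le_max_right _ _)⟩
  have hz1 : q - g ∈ Icc (za g lam q) (zb g lam q) :=
    ⟨(min_le_right _ _).trans (min_le_right _ _), (le_max_right _ _).trans (le_max_right _ _)⟩
  have hone : (1 : ℝ) ∈ Icc (za g lam q) (zb g lam q) := ⟨min_le_left _ _, le_max_left _ _⟩
  have hpos : 0 < za g lam q :=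
    lt_min one_pos (lt_min (div_pos hg hl) (by linarith))
  have hmap : ∀ z ∈ Icc (za g lam q) (zb g lam q),
      G0 g lam z ∈ Icc (za g lam q) (zb g lam q) ∧ G1 g q z ∈ Icc (za g lam q) (zb g lam q) := by
    intro z hz
    have hz' : 0 < z := lt_of_lt_of_le hpos hz.1
    have hzg : 0 < z + g := by linarith
    constructor
    · refine between (c := 1 / lam) hz0 hz (by positivity) ?_ ?_
      · rw [div_le_one (by linarith)]
        exact hlam.le
      · unfold G0
        field_simp
        ring
    · refine between (c := g / (z + g)) hz1 hz (by positivity) ?_ ?_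
      · rw [div_le_one hzg]
        linarith
      · unfold G1
        field_simp
        ring
  refine ⟨hpos, hmap, fun n => ?_⟩
  induction n with
  | zero =>
    intro k
    exact hone
  | succ n ih =>
    intro k
    show (if k % 2 = 0 then G0 g lam (st g lam q n (k / 2)) else G1 g q (st g lam q n (k / 2))) ∈ _
    split_ifs
    · exact (hmap _ (ih _)).1
    · exact (hmap _ (ih _)).2

end Pool.Agent.Q94.MDINV
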