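import Mathlib
import Pool.Agent.Q61.MH.Stm

/-!
# Job BIG of project MH
-/

set_option autoImplicit false

open Real Filter Topology

noncomputable section

namespace Pool.Agent.Q61.MH

private lemma big_S (j : ℕ) (hj : 1 ≤ j) (r : ℝ) (hr : 0 < r) :
    S j r * (1 - Real.exp (-(r / j))) ≤ (j : ℝ) ^ r := by
  have hj0 : (0 : ℝ) < j := by exact_mod_cast hj
  have hrj : 0 < r / j := by positivity
  obtain ⟨q, hq⟩ : ∃ q, q = Real.exp (-(r / j)) := ⟨_, rfl⟩
  have hq0 : 0 < q := by rw [hq]; exact Real.exp_pos _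
  have hq1 : q < 1 := by rw [hq, Real.exp_lt_one_iff]; linarith
  have h1 : ∀ i ∈ Finset.range j, (((j - 1 - i : ℕ) : ℝ) + 1) ^ r ≤ (j : ℝ) ^ r * q ^ i := by
    intro i hi
    have hi' : i < j := Finset.mem_range.1 hi
    have hiR : (i : ℝ) < j := by exact_mod_cast hi'
    have e1 : ((j - 1 - i : ℕ) : ℝ) + 1 = j * (1 - i / j) := by
      have e2 : ((j - 1 - i : ℕ) : ℝ) + 1 + i = j := by
        have : j - 1 - i + 1 + i = j := by omega
        exact_mod_cast this
      have e3 : (j : ℝ) * (1 - i / j) = j - i := by field_simp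
      rw [e3]; linarith
    have h0 : 0 ≤ 1 - (i : ℝ) / j := by
      rw [sub_nonneg, div_le_one hj0]; exact hiR.le
    rw [e1, Real.mul_rpow hj0.le h0]
    refine mul_le_mul_of_nonneg_left ?_ (by positivity)
    have h2 : 1 - (i : ℝ) / j ≤ Real.exp (-(i / j)) := by
      have := Real.add_one_le_exp (-((i : ℝ) / j))
      linarith
    refine (Real.rpow_le_rpow h0 h2 hr.le).trans (le_of_eq ?_)
    rw [← Real.exp_mul, hq, ← Real.exp_nat_mul]
    congr 1
    ring
  have h2 : S j r ≤ (j : ℝ) ^ r * ∑ i ∈ Finset.range j, q ^ i := by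
    unfold S
    rw [← Finset.sum_range_reflect, Finset.mul_sum]
    exact Finset.sum_le_sum h1
  rw [← hq]
  have h3 := geom_sum_mul_neg q j
  calc S j r * (1 - q) ≤ ((j : ℝ) ^ r * ∑ i ∈ Finset.range j, q ^ i) * (1 - q) :=
        mul_le_mul_of_nonneg_right h2 (by linarith)
    _ = (j : ℝ) ^ r * (1 - q ^ j) := by rw [mul_assoc, h3]
    _ ≤ (j : ℝ) ^ r * 1 := by
        refine mul_le_mul_of_nonneg_left ?_ (by positivity)
        have : 0 < q ^ j := by positivity
        linarith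
    _ = (j : ℝ) ^ r := mul_one _

private lemma big_S_pos (j : ℕ) (hj : 1 ≤ j) (r : ℝ) : 0 < S j r := by
  unfold S
  refine Finset.sum_pos (fun i _ => by positivity) ⟨0, Finset.mem_range.2 hj⟩

private lemma big_low (j : ℕ) (hj : 1 ≤ j) (r : ℝ) (hr : 0 < r) :
    (2 : ℝ) ^ r * (Real.exp (-(r / (2 * j - 1))) * (1 - Real.exp (-(r / j)))) ≤ g j r := by
  have hj0 : (1 : ℝ) ≤ j := by exact_mod_cast hj
  have hj1 : (0 : ℝ) < 2 * j - 1 := by linarith
  unfold g
  rw [le_div_iff₀ (big_S_pos j hj r)]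
  have h1 := big_S j hj r hr
  have e1 : (2 * (j : ℝ) - 1) ^ r = 2 ^ r * ((j : ℝ) ^ r * (1 - 1 / (2 * j)) ^ r) := by
    have h0 : (0 : ℝ) ≤ 1 - 1 / (2 * j) := by
      rw [sub_nonneg, div_le_one (by linarith)]; linarith
    rw [← Real.mul_rpow (by linarith) h0, ← Real.mul_rpow (by norm_num) (by positivity)]
    congr 1
    field_simp
  have h2 : Real.exp (-(r / (2 * j - 1))) ≤ (1 - 1 / (2 * (j : ℝ))) ^ r := by
    have hx : (0 : ℝ) < 1 - 1 / (2 * j) := by
      rw [sub_pos, div_lt_one (by linarith)]; linarith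
    rw [Real.rpow_def_of_pos hx]
    refine Real.exp_le_exp.2 ?_
    have h3 := Real.one_sub_inv_le_log_of_pos hx
    have h4 : 1 - (1 - 1 / (2 * (j : ℝ)))⁻¹ = -(1 / (2 * j - 1)) := by
      have : 1 - 1 / (2 * (j : ℝ)) = (2 * j - 1) / (2 * j) := by field_simp
      rw [this]
      field_simp
      ring
    rw [h4] at h3
    have h5 := mul_le_mul_of_nonneg_right h3 hr.le
    refine le_trans (le_of_eq ?_) h5
    ring
  rw [e1]
  have h6 : 0 < Real.exp (-(r / (2 * j - 1))) := Real.exp_pos _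
  calc (2 : ℝ) ^ r * (Real.exp (-(r / (2 * j - 1))) * (1 - Real.exp (-(r / j)))) * S j r
      = 2 ^ r * (Real.exp (-(r / (2 * j - 1))) * (S j r * (1 - Real.exp (-(r / j))))) := by ring
    _ ≤ 2 ^ r * (Real.exp (-(r / (2 * j - 1))) * (j : ℝ) ^ r) := by
        refine mul_le_mul_of_nonneg_left ?_ (by positivity)
        exact mul_le_mul_of_nonneg_left h1 h6.le
    _ ≤ 2 ^ r * ((1 - 1 / (2 * (j : ℝ))) ^ r * (j : ℝ) ^ r) := by
        refine mul_le_mul_of_nonneg_left ?_ (by positivity)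
        exact mul_le_mul_of_nonneg_right h2 (by positivity)
    _ = 2 ^ r * ((j : ℝ) ^ r * (1 - 1 / (2 * j)) ^ r) := by ring

private lemma big_base (r : ℝ) (hr : 30 ≤ r) : base r ≤ (2 : ℝ) ^ r * Real.exp (-(60 / 61)) := by
  unfold base
  have hr0 : 0 < r := by linarith
  have e1 : 2 * r / (r + 1) = 2 * (r / (r + 1)) := by ring
  rw [e1, Real.mul_rpow (by norm_num) (by positivity)]
  refine mul_le_mul_of_nonneg_left ?_ (by positivity)
  have hx : 0 < r / (r + 1) := by positivity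
  rw [Real.rpow_def_of_pos hx]
  refine Real.exp_le_exp.2 ?_
  have h1 := Real.le_log_one_add_of_nonneg (x := 1 / r) (by positivity)
  have h2 : Real.log (r / (r + 1)) = -Real.log (1 + 1 / r) := by
    rw [← Real.log_inv]
    congr 1
    field_simp
  rw [h2]
  have h3 : 60 / 61 ≤ 2 * (1 / r) / (1 / r + 2) * r := by
    have : 2 * (1 / r) / (1 / r + 2) * r = 2 * r / (1 + 2 * r) := by field_simp
    rw [this, div_le_div_iff₀ (by norm_num) (by positivity)]
    linarith
  have h4 := mul_le_mul_of_nonneg_right h1 hr0.le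
  linarith

theorem big : S_big := by
  intro r hr
  obtain ⟨j, hj⟩ : ∃ j, j = ⌊10 * r / 11⌋₊ := ⟨_, rfl⟩
  have hj1 : (j : ℝ) ≤ 10 * r / 11 := by rw [hj]; exact Nat.floor_le (by positivity)
  have hj2 : 10 * r / 11 < j + 1 := by rw [hj]; exact Nat.lt_floor_add_one _
  have hj27 : 27 ≤ j := by rw [hj]; exact Nat.le_floor (by push_cast; linarith)
  have hjR : (27 : ℝ) ≤ j := by exact_mod_cast hj27
  have hj0 : (0 : ℝ) < j := by linarith
  have hr0 : 0 < r := by linarith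
  obtain ⟨ρ, hρ⟩ : ∃ ρ, ρ = r / j := ⟨_, rfl⟩
  have hρ1 : 1.1 ≤ ρ := by
    rw [hρ, le_div_iff₀ hj0]; linarith
  have hρ2 : ρ ≤ 1.14075 := by
    rw [hρ, div_le_iff₀ hj0]; linarith
  refine ⟨j, by omega, ?_⟩
  have hA := big_low j (by omega) r hr0
  have hB := big_base r hr
  have h2r : (0 : ℝ) < 2 ^ r := by positivity
  -- the numbers
  obtain ⟨z, hz⟩ : ∃ z, z = Real.exp (-(ρ / 2)) := ⟨_, rfl⟩
  have hzlow : 0.5652 ≤ z := by
    rw [hz]
    have h1 : Real.exp (0.570375 : ℝ) ≤ 1.7692 := by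
      have := Real.exp_bound' (x := 0.570375) (by norm_num) (by norm_num) (n := 8) (by norm_num)
      refine this.trans ?_
      norm_num [Finset.sum_range_succ, Nat.factorial]
    have h2 : Real.exp (-(0.570375 : ℝ)) ≤ Real.exp (-(ρ / 2)) := by
      refine Real.exp_le_exp.2 ?_
      linarith
    refine le_trans ?_ h2
    rw [Real.exp_neg, ← one_div, le_div_iff₀ (Real.exp_pos _)]
    nlinarith
  have hzup : z ≤ 0.577 := by
    rw [hz]
    have h1 : (1.7332 : ℝ) ≤ Real.exp (0.55 : ℝ) := by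
      have := Real.sum_le_exp_of_nonneg (x := 0.55) (by norm_num) 7
      refine le_trans ?_ this
      norm_num [Finset.sum_range_succ, Nat.factorial]
    have h2 : Real.exp (-(ρ / 2)) ≤ Real.exp (-(0.55 : ℝ)) := by
      refine Real.exp_le_exp.2 ?_
      linarith
    refine h2.trans ?_
    rw [Real.exp_neg, ← one_div, div_le_iff₀ (Real.exp_pos _)]
    nlinarith
  have hz3 : 0.3846 ≤ z - z ^ 3 := by
    nlinarith [mul_nonneg (sub_nonneg.2 hzlow) (sub_nonneg.2 hzup),
      mul_nonneg (mul_nonneg (sub_nonneg.2 hzlow) (sub_nonneg.2 hzup)) (by linarith : (0:ℝ) ≤ z)]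
  have hE : z * 0.9892 ≤ Real.exp (-(r / (2 * j - 1))) := by
    have h1 : (0 : ℝ) < 2 * j - 1 := by linarith
    have h2 : r / (2 * j - 1) ≤ ρ / 2 + 0.0108 := by
      have h3 : r = ρ * j := by rw [hρ]; field_simp
      rw [h3, div_le_iff₀ h1]
      nlinarith
    have h4 : Real.exp (-(ρ / 2)) * Real.exp (-0.0108) ≤ Real.exp (-(r / (2 * j - 1))) := by
      rw [← Real.exp_add]
      refine Real.exp_le_exp.2 ?_
      linarith
    refine le_trans ?_ h4
    rw [hz]
    refine mul_le_mul_of_nonneg_left ?_ (Real.exp_pos _).le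
    have := Real.add_one_le_exp (-0.0108 : ℝ)
    linarith
  have hq : Real.exp (-(r / j)) = z ^ 2 := by
    rw [hz, ← Real.exp_nat_mul, ← hρ]
    congr 1
    push_cast
    ring
  have hz0 : 0 < z := by linarith
  have hlow : 0.3804 ≤ Real.exp (-(r / (2 * j - 1))) * (1 - Real.exp (-(r / j))) := by
    rw [hq]
    have h1 : 0 ≤ 1 - z ^ 2 := by nlinarith
    have h2 := mul_le_mul_of_nonneg_right hE h1
    nlinarith
  have hup : 1.012 * Real.exp (-(60 / 61)) ≤ 0.3804 := by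
    have h1 : Real.exp (-(60 / 61 : ℝ)) = (Real.exp 1 * Real.exp (-(1 / 61)))⁻¹ := by
      rw [← Real.exp_add, ← Real.exp_neg]
      congr 1
      norm_num
    have h2 : (2.67 : ℝ) ≤ Real.exp 1 * Real.exp (-(1 / 61)) := by
      have h3 := Real.exp_one_gt_d9
      have h4 := Real.add_one_le_exp (-(1 / 61 : ℝ))
      have h5 : (0 : ℝ) < Real.exp (-(1 / 61)) := Real.exp_pos _
      nlinarith
    rw [h1]
    have h6 : (Real.exp 1 * Real.exp (-(1 / 61)))⁻¹ ≤ (2.67 : ℝ)⁻¹ :=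
      inv_anti₀ (by norm_num) h2
    have h7 : 1.012 * (2.67 : ℝ)⁻¹ ≤ 0.3804 := by norm_num
    linarith [mul_le_mul_of_nonneg_left h6 (by norm_num : (0:ℝ) ≤ 1.012)]
  calc 1.012 * base r ≤ 1.012 * (2 ^ r * Real.exp (-(60 / 61))) :=
        mul_le_mul_of_nonneg_left hB (by norm_num)
    _ = 2 ^ r * (1.012 * Real.exp (-(60 / 61))) := by ring
    _ ≤ 2 ^ r * 0.3804 := mul_le_mul_of_nonneg_left hup h2r.le
    _ ≤ 2 ^ r * (Real.exp (-(r / (2 * j - 1))) * (1 - Real.exp (-(r / j)))) :=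
        mul_le_mul_of_nonneg_left hlow h2r.le
    _ ≤ g j r := hA

end Pool.Agent.Q61.MH
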