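import Mathlib
import Pool.Agent.Q49.MR.Stm

set_option autoImplicit false

/-!
Project MR, job F: a solution gives an element with the relation.
-/

namespace Q94.MR_F

open Q49.MR

theorem key {L : Type} [Field L] (κ N a b c a1 b1 c1 A A1 : L) (hκ : κ * (N - 1) = N + 1)
    (e1 : b ^ 2 - 4 * a * c = 1) (e1' : b1 ^ 2 - 4 * a1 * c1 = 1)
    (e2 : b * b1 - 2 * a * c1 - 2 * a1 * c = -κ) (hA : 2 * a * A = 1) (hA1 : 2 * a1 * A1 = 1) :
    ((1 - b1) * A1 - (1 - b) * A) * (-((1 + b1) * A1) - -((1 + b) * A)) =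
      N * ((-((1 + b1) * A1) - (1 - b) * A) * ((1 - b1) * A1 - -((1 + b) * A))) := by
  linear_combination (1 - N) * (A ^ 2 * e1 + A1 ^ 2 * e1' + (2 * c * A - 2 * c1 * A1) * hA +
    (2 * c1 * A1 - 2 * c * A) * hA1) - 2 * (1 - N) * A * A1 * e2 - 2 * A * A1 * hκ

theorem aux {K L : Type} [Field K] [Finite K] [Field L] [Finite L] [Algebra K L]
    (σ : L ≃ₐ[K] L) (h2 : (2 : L) ≠ 0) (κ N : L) (hκ : κ * (N - 1) = N + 1)
    (α β γ : L) (hα : σ (σ (σ (σ α))) = -α) (hβ : σ (σ (σ (σ β))) = -β)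
    (h0 : α ≠ 0) (e1 : β ^ 2 - 4 * α * γ = 1)
    (e2 : β * σ β - 2 * α * σ γ - 2 * σ α * γ = -κ) : ∃ x : L, σ x ≠ x ∧ Q49.MR.Rel σ N x := by
  have hs0 : σ α ≠ 0 := (map_ne_zero σ).2 h0
  have h20 : (2 : L) * α ≠ 0 := mul_ne_zero h2 h0
  have h21 : (2 : L) * σ α ≠ 0 := mul_ne_zero h2 hs0
  have hm : σ (σ (σ (σ ((1 - β) * (2 * α)⁻¹)))) = -((1 + β) * (2 * α)⁻¹) := by
    simp only [map_sub, map_one, map_mul, map_ofNat, map_inv₀, hα, hβ]
    rw [sub_neg_eq_add, mul_neg, inv_neg, mul_neg]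
  have h1 : σ ((1 - β) * (2 * α)⁻¹) = (1 - σ β) * (2 * σ α)⁻¹ := by
    simp only [map_sub, map_one, map_mul, map_ofNat, map_inv₀]
  have h5 : σ (-((1 + β) * (2 * α)⁻¹)) = -((1 + σ β) * (2 * σ α)⁻¹) := by
    simp only [map_add, map_one, map_mul, map_ofNat, map_neg, map_inv₀]
  have e1' : (σ β) ^ 2 - 4 * σ α * σ γ = 1 := by
    have := congrArg σ e1
    simpa only [map_sub, map_pow, map_mul, map_ofNat, map_one] using this
  refine ⟨(1 - β) * (2 * α)⁻¹, ?_, ?_⟩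
  · intro hx
    have h6 : σ (σ (σ (σ ((1 - β) * (2 * α)⁻¹)))) = (1 - β) * (2 * α)⁻¹ := by
      rw [hx, hx, hx, hx]
    rw [hm, ← neg_mul] at h6
    have h8 := mul_right_cancel₀ (inv_ne_zero h20) h6
    exact h2 (by linear_combination -h8)
  · unfold Q49.MR.Rel
    rw [hm, h5, h1]
    exact key κ N α β γ (σ α) (σ β) (σ γ) _ _ hκ e1 e1' e2 (mul_inv_cancel₀ h20)
      (mul_inv_cancel₀ h21)

/-- **F** -/
theorem fff : S_F := by
  intro K L _ _ _ _ _ σ hσ κ N _ hκ hsol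
  obtain ⟨α, hα, β, hβ, γ, hγ, e1, e2⟩ := hsol
  have h2 : (2 : L) ≠ 0 := by
    have h := (map_ne_zero (algebraMap K L)).2 hσ.two
    rwa [map_ofNat] at h
  have hα' : σ (σ (σ (σ α))) = -α := hα
  have hβ' : σ (σ (σ (σ β))) = -β := hβ
  have hγ' : σ (σ (σ (σ γ))) = -γ := hγ
  by_cases h0 : α = 0
  · by_cases h0' : γ = 0
    · exfalso
      rw [h0, h0'] at e1
      have e3 : (β - 1) * (β + 1) = 0 := by linear_combination e1
      rcases mul_eq_zero.1 e3 with h | h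
      · have hb : β = 1 := by linear_combination h
        rw [hb] at hβ'
        simp only [map_one] at hβ'
        exact h2 (by linear_combination hβ')
      · have hb : β = -1 := by linear_combination h
        rw [hb] at hβ'
        simp only [map_one, map_neg, neg_neg] at hβ'
        exact h2 (by linear_combination -hβ')
    · exact aux σ h2 κ N hκ γ β α hγ' hβ' h0' (by linear_combination e1)
        (by linear_combination e2)
  · exact aux σ h2 κ N hκ α β γ hα' hβ' h0 e1 e2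

end Q94.MR_F
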