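import Mathlib
import Pool.Agent.Q82.QD.Stm

set_option autoImplicit false

open MeasureTheory Filter Topology Real Set
open Pool.Agent.Q82.QC (E)

namespace Pool.Agent.Q82.QD

theorem th2 : S_TH2 := by
  intro a ha
  have h0 : ∫ x in Metric.closedBall (0 : E) (5 / 3), (fun _ : E => (0 : ℝ)) x = 0 := by simp
  rw [← h0]
  have hfin : (volume : Measure E) (Metric.closedBall (0 : E) (5 / 3)) < ⊤ := measure_closedBall_lt_top
  refine tendsto_integral_filter_of_dominated_convergence (fun _ : E => (2 : ℝ)) ?_ ?_ ?_ ?_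
  · refine Eventually.of_forall fun N => ?_
    exact (Continuous.aestronglyMeasurable (by fun_prop))
  · filter_upwards [eventually_ge_atTop (0 : ℝ)] with N hN
    refine Eventually.of_forall fun x => ?_
    rw [Real.norm_eq_abs, abs_of_pos (by positivity)]
    have h1 : Real.exp (-(a * N ^ 10 * ‖x - x1‖ ^ 2)) ≤ 1 := by
      rw [Real.exp_le_one_iff]
      have : 0 ≤ a * N ^ 10 * ‖x - x1‖ ^ 2 := by positivity
      linarith
    have h2 : Real.exp (-N) ≤ 1 := by
      rw [Real.exp_le_one_iff]
      linarith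
    linarith
  · exact (integrableOn_const (s := Metric.closedBall (0 : E) (5 / 3)) (C := (2 : ℝ)) (by exact hfin.ne))
  · refine ae_restrict_of_ae ?_
    have hn : ∀ᵐ x : E, x ≠ x1 := by
      rw [ae_iff]
      simp
    filter_upwards [hn] with x hx
    have hpos : 0 < ‖x - x1‖ := norm_pos_iff.2 (sub_ne_zero.2 hx)
    have e1 : Tendsto (fun N : ℝ => Real.exp (-(a * N ^ 10 * ‖x - x1‖ ^ 2))) atTop (𝓝 0) := by
      refine Real.tendsto_exp_atBot.comp ?_
      refine tendsto_neg_atTop_atBot.comp ?_
      have h1 : Tendsto (fun N : ℝ => N ^ 10) atTop atTop := tendsto_pow_atTop (by norm_num)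
      exact (h1.const_mul_atTop ha).atTop_mul_const (by positivity)
    have e2 : Tendsto (fun N : ℝ => Real.exp (-N)) atTop (𝓝 0) :=
      Real.tendsto_exp_neg_atTop_nhds_zero
    simpa using e1.add e2

end Pool.Agent.Q82.QD
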