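import Mathlib
import Pool.Agent.Q82.QD.Stm
import Pool.Agent.Q16.QC_WL
import Pool.Agent.Q16.QC_LAP

set_option autoImplicit false

open MeasureTheory Filter Topology Real InnerProductSpace Laplacian Set
open Pool.Agent.Q82.QC (E wl_smooth wl_trans lap_radial)

namespace Pool.Agent.Q82.QD

/-- smooth with bilaplacian `G` -/
def wl2_P (f G : E → ℝ) : Prop := (∀ n : ℕ, ContDiff ℝ n f) ∧ ∀ x, Δ (Δ f) x = G x

theorem wl2_smooth (f : E → ℝ) (hf : ∀ n : ℕ, ContDiff ℝ n f) (n : ℕ) : ContDiff ℝ n (Δ f) :=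
  contDiff_iff_contDiffAt.2 fun x => wl_smooth f x (fun n => (hf n).contDiffAt) n

theorem wl2_add {f G f' G' : E → ℝ} (h : wl2_P f G) (h' : wl2_P f' G') : wl2_P (f + f') (G + G') := by
  refine ⟨fun n => (h.1 n).add (h'.1 n), fun x => ?_⟩
  have h1 : Δ (f + f') = Δ f + Δ f' := by
    funext z
    exact ContDiffAt.laplacian_add (by exact_mod_cast (h.1 2).contDiffAt) (by exact_mod_cast (h'.1 2).contDiffAt)
  rw [h1, ContDiffAt.laplacian_add (by exact_mod_cast (wl2_smooth f h.1 2).contDiffAt)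
    (by exact_mod_cast (wl2_smooth f' h'.1 2).contDiffAt), h.2, h'.2]
  rfl

theorem wl2_smul {f G : E → ℝ} (h : wl2_P f G) (c : ℝ) : wl2_P (c • f) (c • G) := by
  refine ⟨fun n => contDiff_const.smul (h.1 n), fun x => ?_⟩
  have h1 : Δ (c • f) = c • Δ f := by
    funext z
    exact laplacian_smul _ (by exact_mod_cast (h.1 2).contDiffAt)
  rw [h1, laplacian_smul _ (by exact_mod_cast (wl2_smooth f h.1 2).contDiffAt), h.2]
  rfl

theorem wl2_const (c : ℝ) : wl2_P (fun _ => c) 0 := by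
  refine ⟨fun n => contDiff_const, fun x => ?_⟩
  have h1 : Δ (fun _ : E => c) = 0 := laplacian_const (E := E) (c := c)
  have h2 : Δ (0 : E → ℝ) = 0 := laplacian_const (E := E) (c := (0 : ℝ))
  rw [h1, h2]

theorem wl2_scl (f : E → ℝ) (hf : ∀ n : ℕ, ContDiff ℝ n f) (c : ℝ) :
    Δ (fun x => f (c • x)) = fun x => c ^ 2 * Δ f (c • x) := by
  funext x
  have h : (fun x : E => f (c • x)) = f ∘ (c • ContinuousLinearMap.id ℝ E) := by
    funext x
    rfl
  rw [laplacian_eq_iteratedFDeriv_orthonormalBasis _ (EuclideanSpace.basisFun (Fin 4) ℝ),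
    laplacian_eq_iteratedFDeriv_orthonormalBasis _ (EuclideanSpace.basisFun (Fin 4) ℝ)]
  simp only
  rw [h, Finset.mul_sum]
  refine Finset.sum_congr rfl fun i _ => ?_
  rw [ContinuousLinearMap.iteratedFDeriv_comp_right (c • ContinuousLinearMap.id ℝ E)
    (hf 2) x (by exact_mod_cast le_rfl)]
  rw [ContinuousMultilinearMap.compContinuousLinearMap_apply]
  have e : (fun j => (c • ContinuousLinearMap.id ℝ E)
      (![(EuclideanSpace.basisFun (Fin 4) ℝ) i, (EuclideanSpace.basisFun (Fin 4) ℝ) i] j)) =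
      fun j : Fin 2 => (fun _ : Fin 2 => c) j •
        ![(EuclideanSpace.basisFun (Fin 4) ℝ) i, (EuclideanSpace.basisFun (Fin 4) ℝ) i] j := by
    funext j
    rfl
  rw [e, ContinuousMultilinearMap.map_smul_univ]
  simp only [Finset.prod_const, Finset.card_univ, Fintype.card_fin, smul_eq_mul]
  rfl

theorem wl2_scale {f G : E → ℝ} (h : wl2_P f G) (c : ℝ) :
    wl2_P (fun x => f (c • x)) (fun x => c ^ 4 * G (c • x)) := by
  refine ⟨fun n => (h.1 n).comp (contDiff_const_smul c), fun x => ?_⟩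
  rw [wl2_scl f h.1]
  have h1 : (fun x => c ^ 2 * Δ f (c • x)) = c ^ 2 • (fun x => Δ f (c • x)) := by
    funext x
    rfl
  have h3 : ContDiff ℝ 2 (fun x => Δ f (c • x)) :=
    (by exact_mod_cast wl2_smooth f h.1 2 : ContDiff ℝ 2 (Δ f)).comp (contDiff_const_smul c)
  rw [h1, laplacian_smul _ h3.contDiffAt, wl2_scl (Δ f) (wl2_smooth f h.1)]
  simp only [smul_eq_mul]
  rw [h.2]
  ring

theorem wl2_tr {f G : E → ℝ} (h : wl2_P f G) (a : E) : wl2_P (fun x => f (x - a)) (fun x => G (x - a)) := by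
  refine ⟨fun n => (h.1 n).comp (contDiff_id.sub contDiff_const), fun x => ?_⟩
  rw [wl_trans, wl_trans]
  exact h.2 _

theorem wl2_sq : wl2_P (fun x : E => ‖x‖ ^ 2) 0 := by
  refine ⟨fun n => contDiff_norm_sq ℝ, fun x => ?_⟩
  have h1 : Δ (fun y : E => ‖y‖ ^ 2) = fun _ => 8 := by
    funext z
    have := lap_radial (fun s => s) (fun _ => 1) 0 z (Eventually.of_forall fun s => hasDerivAt_id s)
      (hasDerivAt_const _ _)
    rw [this]
    ring
  have h2 : Δ (fun _ : E => (8 : ℝ)) = 0 := laplacian_const (E := E) (c := (8 : ℝ))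
  rw [h1, h2]

theorem wl2 (h1 : S_ETA) (h2 : S_PP) : S_WL2 := by
  intro F hF a N hN
  have hη : wl2_P (fun y : E => F (‖y‖ ^ 2)) (fun y => 6 * Real.exp (4 * F (‖y‖ ^ 2))) := h1 F hF
  have hPP : wl2_P PP 0 := ⟨h2.1, h2.2.1⟩
  have hA := wl2_smul hPP (-(bet a N))
  have hB := wl2_tr (wl2_scale hη (N ^ 5)) x0
  have hC := wl2_smul (wl2_tr wl2_sq x0) (a * (N ^ 5) ^ 2)
  have hD := wl2_const (Real.log (N ^ 5))
  have hS := wl2_add (wl2_add hA (wl2_add hB hC)) hD
  have hn : ∀ x : E, ‖(N ^ 5) • (x - x0)‖ ^ 2 = (N ^ 5) ^ 2 * ‖x - x0‖ ^ 2 := by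
    intro x
    rw [norm_smul, mul_pow, Real.norm_eq_abs, sq_abs]
  have e1 : W F a N = -(bet a N) • PP + ((fun x : E => F (‖(N ^ 5) • (x - x0)‖ ^ 2)) +
      (a * (N ^ 5) ^ 2) • (fun x : E => ‖x - x0‖ ^ 2)) + fun _ => Real.log (N ^ 5) := by
    funext x
    simp only [W, Pi.add_apply, Pi.smul_apply, smul_eq_mul, hn]
    ring
  rw [e1]
  refine ⟨hS.1, fun x => (hS.2 x).trans ?_⟩
  simp only [Pi.add_apply, Pi.smul_apply, Pi.zero_apply, smul_eq_mul, mul_zero, add_zero, zero_add, hn]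
  rfl

end Pool.Agent.Q82.QD
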