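import Mathlib

/-!
# Quaternionic Hardy space: an inner symmetrization of a function which is not inner
-/

open scoped Quaternion BigOperators Topology
open Filter Finset

namespace Q94.QI

/-- The restriction of `f` to the slice `ℝ + ℝ I`, as a function of `(x, y)`. -/
noncomputable def slice (f : ℍ[ℝ] → ℍ[ℝ]) (I : ℍ[ℝ]) (p : ℝ × ℝ) : ℍ[ℝ] :=
  f ((p.1 : ℍ[ℝ]) + p.2 • I)

/-- `f` is slice regular on the unit ball: on every slice `ℝ + ℝ I`, `I² = -1`, it is continuously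
differentiable with `(∂_x + I ∂_y) f = 0`. -/
def SliceRegular (f : ℍ[ℝ] → ℍ[ℝ]) : Prop :=
  ∀ I : ℍ[ℝ], I * I = -1 →
    ContDiffOn ℝ 1 (slice f I) {p : ℝ × ℝ | p.1 ^ 2 + p.2 ^ 2 < 1} ∧
    ∀ p : ℝ × ℝ, p.1 ^ 2 + p.2 ^ 2 < 1 →
      fderiv ℝ (slice f I) p (1, 0) + I * fderiv ℝ (slice f I) p (0, 1) = 0

/-- `f(q) = ∑ q^n a_n` on the unit ball. -/
def HasSeries (f : ℍ[ℝ] → ℍ[ℝ]) (a : ℕ → ℍ[ℝ]) : Prop :=
  ∀ q : ℍ[ℝ], ‖q‖ < 1 → HasSum (fun n => q ^ n * a n) (f q)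

/-- The coefficients of the `*`-product. -/
noncomputable def starMul (a b : ℕ → ℍ[ℝ]) (n : ℕ) : ℍ[ℝ] := ∑ k ∈ range (n + 1), a k * b (n - k)

/-- The coefficients of the conjugate. -/
noncomputable def conjCoeff (a : ℕ → ℍ[ℝ]) (n : ℕ) : ℍ[ℝ] := star (a n)

/-- The boundary point `e^{tI} = cos t + sin t I`, where `I` is the imaginary unit given by a point
`v` of the unit sphere of `ℝ³`. -/
noncomputable def bdry (v : EuclideanSpace ℝ (Fin 3)) (t : ℝ) : ℍ[ℝ] :=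
  ⟨Real.cos t, Real.sin t * v 0, Real.sin t * v 1, Real.sin t * v 2⟩

/-- Inner functions: slice regular, bounded by `1` on the ball, with radial limits of modulus `1`
at almost every boundary point `e^{tI}` with respect to `dσ(I) dt`. -/
def IsInner (φ : ℍ[ℝ] → ℍ[ℝ]) : Prop :=
  SliceRegular φ ∧ (∀ q : ℍ[ℝ], ‖q‖ < 1 → ‖φ q‖ ≤ 1) ∧
    ∀ᵐ p : Metric.sphere (0 : EuclideanSpace ℝ (Fin 3)) 1 × ℝ
      ∂((MeasureTheory.volume : MeasureTheory.Measure (EuclideanSpace ℝ (Fin 3))).toSphere.prod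
          MeasureTheory.volume),
      ∃ L : ℍ[ℝ], ‖L‖ = 1 ∧ Tendsto (fun r : ℝ => φ (r • bdry p.1 p.2)) (𝓝[<] 1) (𝓝 L)

/-- `f` lies in the Hardy space `H²` of the ball. -/
def MemH2 (f : ℍ[ℝ] → ℍ[ℝ]) (a : ℕ → ℍ[ℝ]) : Prop :=
  SliceRegular f ∧ HasSeries f a ∧ Summable fun n => ‖a n‖ ^ 2

/-- The imaginary unit used in the example. -/
def J : ℍ[ℝ] := ⟨0, 1, 0, 0⟩

lemma re_J : J.re = 0 := rfl
lemma imI_J : J.imI = 1 := rfl
lemma imJ_J : J.imJ = 0 := rfl
lemma imK_J : J.imK = 0 := rfl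

lemma J_mul : J * J = -1 := by
  ext <;> simp [re_J, imI_J, imJ_J, imK_J]

lemma J_norm : ‖J‖ = 1 := by
  have h : ‖J‖ * ‖J‖ = 1 := by rw [← norm_mul, J_mul, norm_neg, norm_one]
  nlinarith [norm_nonneg J]

lemma star_J : star J = -J := by
  ext <;> simp [re_J, imI_J, imJ_J, imK_J]

/-- The coefficients of the example. -/
noncomputable def a : ℕ → ℍ[ℝ]
  | 0 => 0
  | n + 1 => ((n.factorial : ℝ)⁻¹) • J ^ n

lemma norm_a_succ (n : ℕ) : ‖a (n + 1)‖ = (n.factorial : ℝ)⁻¹ := by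
  simp [a, norm_smul, J_norm]

lemma summable_a : Summable fun n => ‖a n‖ := by
  rw [← summable_nat_add_iff 1]
  refine (Real.summable_pow_div_factorial 1).congr fun n => ?_
  rw [norm_a_succ]; simp

lemma summable_a_sq : Summable fun n => ‖a n‖ ^ 2 := by
  rw [← summable_nat_add_iff 1]
  refine Summable.of_nonneg_of_le (fun n => by positivity) (fun n => ?_)
    (Real.summable_pow_div_factorial 1)
  rw [norm_a_succ]
  have h1 : (1 : ℝ) ≤ n.factorial := by exact_mod_cast Nat.one_le_iff_ne_zero.2 n.factorial_ne_zero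
  have h2 : (n.factorial : ℝ)⁻¹ ≤ 1 := inv_le_one_of_one_le₀ h1
  have h3 : 0 ≤ (n.factorial : ℝ)⁻¹ := by positivity
  simp only [one_pow, one_div]
  nlinarith

/-- The embedding of `ℂ` onto the slice of `I`. -/
noncomputable def Φ (I : ℍ[ℝ]) (hI : I * I = -1) : ℂ →ₐ[ℝ] ℍ[ℝ] := Complex.liftAux I hI

lemma Φ_apply (I : ℍ[ℝ]) (hI : I * I = -1) (z : ℂ) : Φ I hI z = (z.re : ℍ[ℝ]) + z.im • I := by
  simp [Φ, Complex.liftAux_apply]

lemma Φ_cont (I : ℍ[ℝ]) (hI : I * I = -1) : Continuous (Φ I hI) :=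
  (Φ I hI).toLinearMap.continuous_of_finiteDimensional

/-- The embedding as a continuous linear map. -/
noncomputable def ΦL (I : ℍ[ℝ]) (hI : I * I = -1) : ℂ →L[ℝ] ℍ[ℝ] :=
  ⟨(Φ I hI).toLinearMap, Φ_cont I hI⟩

lemma ΦL_apply (I : ℍ[ℝ]) (hI : I * I = -1) (z : ℂ) : ΦL I hI z = Φ I hI z := rfl

lemma Φ_I (I : ℍ[ℝ]) (hI : I * I = -1) : Φ I hI Complex.I = I := by simp [Φ]

/-- The example. -/
noncomputable def f (q : ℍ[ℝ]) : ℍ[ℝ] := ∑' n, q ^ n * a n

lemma J_pow_even (m : ℕ) : J ^ (2 * m) = ((-1 : ℝ) ^ m) • (1 : ℍ[ℝ]) := by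
  rw [pow_mul, pow_two, J_mul]
  rcases Nat.even_or_odd m with h | h
  · rw [h.neg_one_pow, h.neg_one_pow, one_smul]
  · rw [h.neg_one_pow, h.neg_one_pow]; simp

lemma J_pow_odd (m : ℕ) : J ^ (2 * m + 1) = ((-1 : ℝ) ^ m) • J := by
  rw [pow_succ, J_pow_even]; simp

lemma hasSum_f (I : ℍ[ℝ]) (hI : I * I = -1) (z : ℂ) :
    HasSum (fun n => (Φ I hI z) ^ n * a n)
      (Φ I hI (z * Complex.cos z) + Φ I hI (z * Complex.sin z) * J) := by
  have hc := (((Complex.hasSum_cos z).mul_left z).mapL (ΦL I hI))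
  have hs := ((((Complex.hasSum_sin z).mul_left z).mapL (ΦL I hI))).mul_right J
  have h := HasSum.even_add_odd (f := fun n => (Φ I hI z) ^ (n + 1) * a (n + 1))
    (m := Φ I hI (z * Complex.cos z)) (m' := Φ I hI (z * Complex.sin z) * J) ?_ ?_
  · have h2 := (hasSum_nat_add_iff (f := fun n => (Φ I hI z) ^ n * a n) 1).1 h
    simpa [a] using h2
  · refine hc.congr_fun ?_ |> fun h => h
    intro m
    simp only [ΦL_apply, a]
    rw [J_pow_even]
    have : z * ((-1) ^ m * z ^ (2 * m) / ((2 * m).factorial : ℂ))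
        = (((-1 : ℝ) ^ m * ((2 * m).factorial : ℝ)⁻¹ : ℝ) : ℂ) * z ^ (2 * m + 1) := by
      push_cast; ring
    rw [this, ← Complex.real_smul, map_smul, map_pow, smul_smul]
    simp [mul_comm]
  · refine hs.congr_fun ?_ |> fun h => h
    intro m
    simp only [ΦL_apply, a]
    rw [J_pow_odd]
    have : z * ((-1) ^ m * z ^ (2 * m + 1) / ((2 * m + 1).factorial : ℂ))
        = (((-1 : ℝ) ^ m * ((2 * m + 1).factorial : ℝ)⁻¹ : ℝ) : ℂ) * z ^ (2 * m + 1 + 1) := by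
      push_cast; ring
    rw [this, ← Complex.real_smul, map_smul, map_pow, smul_smul]
    simp [mul_comm]

/-- The point of `ℂ` with the coordinates of `p`. -/
noncomputable def toC : ℝ × ℝ →L[ℝ] ℂ :=
  (ContinuousLinearMap.fst ℝ ℝ ℝ).smulRight (1 : ℂ)
    + (ContinuousLinearMap.snd ℝ ℝ ℝ).smulRight Complex.I

lemma toC_apply (p : ℝ × ℝ) : toC p = p.1 + p.2 * Complex.I := by
  simp [toC]

lemma Φ_toC (I : ℍ[ℝ]) (hI : I * I = -1) (p : ℝ × ℝ) :
    Φ I hI (toC p) = (p.1 : ℍ[ℝ]) + p.2 • I := by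
  rw [Φ_apply, toC_apply]; simp

lemma contDiff_comp (I : ℍ[ℝ]) (hI : I * I = -1) (h : ℂ → ℂ) (hh : ContDiff ℝ 1 h) (c : ℍ[ℝ]) :
    ContDiff ℝ 1 (fun p : ℝ × ℝ => Φ I hI (h (toC p)) * c) := by
  have h1 : ContDiff ℝ 1 (fun p : ℝ × ℝ => ΦL I hI (h (toC p))) :=
    (ΦL I hI).contDiff.comp (hh.comp toC.contDiff)
  exact h1.mul contDiff_const

lemma hasFDerivAt_comp (I : ℍ[ℝ]) (hI : I * I = -1) (h : ℂ → ℂ) (h' : ℂ) (c : ℍ[ℝ])
    (p : ℝ × ℝ) (hh : HasDerivAt h h' (toC p)) :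
    HasFDerivAt (fun p : ℝ × ℝ => Φ I hI (h (toC p)) * c)
      (((ContinuousLinearMap.mul ℝ ℍ[ℝ]).flip c).comp
          ((ΦL I hI).comp (((ContinuousLinearMap.toSpanSingleton ℂ h').restrictScalars ℝ).comp
            toC))) p := by
  have h1 : HasFDerivAt (fun p : ℝ × ℝ => h (toC p))
      (((ContinuousLinearMap.toSpanSingleton ℂ h').restrictScalars ℝ).comp toC) p :=
    (hh.hasFDerivAt.restrictScalars ℝ).comp p toC.hasFDerivAt
  have h2 := (ΦL I hI).hasFDerivAt.comp p h1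
  exact ((ContinuousLinearMap.mul ℝ ℍ[ℝ]).flip c).hasFDerivAt.comp p h2

lemma cr_comp (I : ℍ[ℝ]) (hI : I * I = -1) (h : ℂ → ℂ) (h' : ℂ) (c : ℍ[ℝ])
    (p : ℝ × ℝ) (hh : HasDerivAt h h' (toC p)) :
    fderiv ℝ (fun p : ℝ × ℝ => Φ I hI (h (toC p)) * c) p (1, 0)
      + I * fderiv ℝ (fun p : ℝ × ℝ => Φ I hI (h (toC p)) * c) p (0, 1) = 0 := by
  rw [(hasFDerivAt_comp I hI h h' c p hh).fderiv]
  have e0 : ∀ w : ℂ, ((ContinuousLinearMap.toSpanSingleton ℂ h').restrictScalars ℝ) w = w • h' :=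
    fun _ => rfl
  simp only [ContinuousLinearMap.comp_apply, ContinuousLinearMap.flip_apply,
    ContinuousLinearMap.mul_apply', ΦL_apply, e0]
  have e1 : toC (1, 0) • h' = h' := by simp [toC_apply]
  have e2 : toC (0, 1) • h' = Complex.I * h' := by simp [toC_apply]
  rw [e1, e2, map_mul, Φ_I, ← mul_assoc, ← mul_assoc, hI]
  simp

/-- Functions given on each slice by two entire functions are slice regular. -/
lemma sliceRegular_of (g : ℍ[ℝ] → ℍ[ℝ]) (h1 h2 : ℂ → ℂ) (d1 : Differentiable ℂ h1)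
    (d2 : Differentiable ℂ h2) (c1 c2 : ℍ[ℝ])
    (hg : ∀ (I : ℍ[ℝ]) (hI : I * I = -1) (z : ℂ),
      g (Φ I hI z) = Φ I hI (h1 z) * c1 + Φ I hI (h2 z) * c2) : SliceRegular g := by
  intro I hI
  have e : slice g I = fun p : ℝ × ℝ =>
      Φ I hI (h1 (toC p)) * c1 + Φ I hI (h2 (toC p)) * c2 := by
    funext p
    unfold slice
    rw [← Φ_toC I hI p, hg]
  have k1 := contDiff_comp I hI h1 (d1.contDiff.restrict_scalars ℝ) c1
  have k2 := contDiff_comp I hI h2 (d2.contDiff.restrict_scalars ℝ) c2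
  rw [e]
  refine ⟨(k1.add k2).contDiffOn, fun p _ => ?_⟩
  have a1 := cr_comp I hI h1 _ c1 p (d1 (toC p)).hasDerivAt
  have a2 := cr_comp I hI h2 _ c2 p (d2 (toC p)).hasDerivAt
  have b1 : DifferentiableAt ℝ (fun p : ℝ × ℝ => Φ I hI (h1 (toC p)) * c1) p :=
    (k1.differentiable one_ne_zero) p
  have b2 : DifferentiableAt ℝ (fun p : ℝ × ℝ => Φ I hI (h2 (toC p)) * c2) p :=
    (k2.differentiable one_ne_zero) p
  have := fderiv_add b1 b2
  rw [show (fun p : ℝ × ℝ => Φ I hI (h1 (toC p)) * c1 + Φ I hI (h2 (toC p)) * c2)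
    = (fun p : ℝ × ℝ => Φ I hI (h1 (toC p)) * c1)
      + (fun p : ℝ × ℝ => Φ I hI (h2 (toC p)) * c2) from rfl, this]
  simp only [add_apply, mul_add]
  calc _ = (fderiv ℝ (fun p : ℝ × ℝ => Φ I hI (h1 (toC p)) * c1) p (1, 0)
      + I * fderiv ℝ (fun p : ℝ × ℝ => Φ I hI (h1 (toC p)) * c1) p (0, 1))
      + (fderiv ℝ (fun p : ℝ × ℝ => Φ I hI (h2 (toC p)) * c2) p (1, 0)
      + I * fderiv ℝ (fun p : ℝ × ℝ => Φ I hI (h2 (toC p)) * c2) p (0, 1)) := by abel
    _ = 0 := by rw [a1, a2, add_zero]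

lemma f_apply (I : ℍ[ℝ]) (hI : I * I = -1) (z : ℂ) :
    f (Φ I hI z) = Φ I hI (z * Complex.cos z) * 1 + Φ I hI (z * Complex.sin z) * J := by
  rw [mul_one]
  exact (hasSum_f I hI z).tsum_eq

lemma f_regular : SliceRegular f :=
  sliceRegular_of f (fun z => z * Complex.cos z) (fun z => z * Complex.sin z)
    (differentiable_id.mul Complex.differentiable_cos)
    (differentiable_id.mul Complex.differentiable_sin) 1 J f_apply

lemma summable_terms (q : ℍ[ℝ]) (hq : ‖q‖ < 1) : Summable fun n => q ^ n * a n := by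
  refine Summable.of_norm_bounded summable_a fun n => ?_
  rw [norm_mul, norm_pow]
  have : ‖q‖ ^ n ≤ 1 := pow_le_one₀ (norm_nonneg q) hq.le
  nlinarith [norm_nonneg (a n)]

lemma f_series : HasSeries f a := fun q hq => (summable_terms q hq).hasSum

lemma f_bounded : ∃ C : ℝ, ∀ q : ℍ[ℝ], ‖q‖ < 1 → ‖f q‖ ≤ C := by
  refine ⟨∑' n, ‖a n‖, fun q hq => ?_⟩
  refine tsum_of_norm_bounded summable_a.hasSum fun n => ?_
  rw [norm_mul, norm_pow]
  have : ‖q‖ ^ n ≤ 1 := pow_le_one₀ (norm_nonneg q) hq.le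
  nlinarith [norm_nonneg (a n)]

/-- The coefficients of `q²`. -/
noncomputable def b (n : ℕ) : ℍ[ℝ] := if n = 2 then 1 else 0

lemma sq_series : HasSeries (fun q => q ^ 2) b := by
  intro q _
  have := hasSum_single (f := fun n => q ^ n * b n) 2 (fun n hn => by simp [b, hn])
  simpa [b] using this

lemma sq_regular : SliceRegular (fun q => q ^ 2) :=
  sliceRegular_of _ (fun z => z ^ 2) (fun z => z) (differentiable_id.pow 2) differentiable_id 1 0
    (fun I hI z => by simp [map_pow])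

lemma norm_bdry (v : EuclideanSpace ℝ (Fin 3)) (hv : ‖v‖ = 1) (t : ℝ) : ‖bdry v t‖ = 1 := by
  have h1 : v 0 ^ 2 + v 1 ^ 2 + v 2 ^ 2 = 1 := by
    have := EuclideanSpace.norm_sq_eq v
    rw [hv, Fin.sum_univ_three] at this
    simp only [Real.norm_eq_abs, sq_abs] at this
    linarith
  have h2 : ‖bdry v t‖ * ‖bdry v t‖ = 1 := by
    rw [← Quaternion.normSq_eq_norm_mul_self, Quaternion.normSq_def']
    simp only [bdry]
    have := Real.sin_sq_add_cos_sq t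
    nlinarith
  nlinarith [norm_nonneg (bdry v t)]

lemma sq_inner : IsInner (fun q => q ^ 2) := by
  refine ⟨sq_regular, fun q hq => ?_, ?_⟩
  · rw [norm_pow]; exact pow_le_one₀ (norm_nonneg q) hq.le
  · refine Filter.Eventually.of_forall fun p => ⟨bdry p.1 p.2 ^ 2, ?_, ?_⟩
    · rw [norm_pow, norm_bdry _ (by simpa using p.1.2)]; norm_num
    · have : Continuous fun r : ℝ => (r • bdry p.1 p.2) ^ 2 := by fun_prop
      have h := (this.tendsto 1).mono_left (nhdsWithin_le_nhds (s := Set.Iio 1))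
      simpa using h

lemma f_not_inner : ¬ IsInner f := by
  intro h
  have h1 := h.2.1 (Φ J J_mul (-(9 / 10 : ℝ) * Complex.I)) ?_
  · rw [f_apply] at h1
    have e1 : Complex.cos (-(9 / 10 : ℝ) * Complex.I) = (Real.cosh (9 / 10) : ℂ) := by
      rw [neg_mul, Complex.cos_neg, Complex.cos_mul_I, Complex.ofReal_cosh]
    have e2 : Complex.sin (-(9 / 10 : ℝ) * Complex.I)
        = -((Real.sinh (9 / 10) : ℂ) * Complex.I) := by
      rw [neg_mul, Complex.sin_neg, Complex.sin_mul_I, Complex.ofReal_sinh]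
    rw [e1, e2] at h1
    have e3 : (-((9 / 10 : ℝ) : ℂ) * Complex.I * (Real.cosh (9 / 10) : ℂ))
        = ((-(9 / 10) * Real.cosh (9 / 10) : ℝ) : ℂ) * Complex.I := by push_cast; ring
    have e4 : (-((9 / 10 : ℝ) : ℂ) * Complex.I * -((Real.sinh (9 / 10) : ℂ) * Complex.I))
        = ((-(9 / 10) * Real.sinh (9 / 10) : ℝ) : ℂ) * 1 := by
      push_cast
      linear_combination (9 / 10 : ℂ) * Complex.sinh (9 / 10) * Complex.I_mul_I
    rw [e3, e4, ← Complex.real_smul, ← Complex.real_smul, map_smul, map_smul, Φ_I, map_one,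
      mul_one, smul_mul_assoc, one_mul, ← add_smul, norm_smul, J_norm, mul_one] at h1
    have e5 : -(9 / 10) * Real.cosh (9 / 10) + -(9 / 10) * Real.sinh (9 / 10)
        = -((9 / 10) * Real.exp (9 / 10)) := by
      rw [← Real.cosh_add_sinh]; ring
    rw [e5, norm_neg, Real.norm_of_nonneg (by positivity)] at h1
    have := Real.add_one_le_exp (9 / 10 : ℝ)
    nlinarith
  · have e : (-((9 / 10 : ℝ) : ℂ) * Complex.I) = ((-(9 / 10) : ℝ) : ℂ) * Complex.I := by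
      push_cast; ring
    rw [e, ← Complex.real_smul, map_smul, Φ_I, norm_smul, J_norm]
    norm_num

lemma star_pow_J (n : ℕ) : star (J ^ n) = (-J) ^ n := by
  rw [star_pow, star_J]

lemma conj_a_succ (n : ℕ) : conjCoeff a (n + 1) = ((n.factorial : ℝ)⁻¹) • (-J) ^ n := by
  unfold conjCoeff
  rw [a, Quaternion.star_smul, star_pow_J]

/-- The exponential identity. -/
lemma exp_coeff (x y : ℍ[ℝ]) (h : Commute x y) (n : ℕ) :
    ∑ p ∈ antidiagonal n, (((p.1.factorial : ℝ)⁻¹) • x ^ p.1) * (((p.2.factorial : ℝ)⁻¹) • y ^ p.2)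
      = ((n.factorial : ℝ)⁻¹) • (x + y) ^ n := by
  rw [h.add_pow', Finset.smul_sum]
  refine Finset.sum_congr rfl fun p hp => ?_
  have hp' : p.1 + p.2 = n := mem_antidiagonal.1 hp
  rw [smul_mul_smul_comm, ← Nat.cast_smul_eq_nsmul ℝ, smul_smul]
  congr 1
  have h1 := Nat.add_choose_mul_factorial_mul_factorial p.1 p.2
  rw [← Nat.choose_symm_add, hp'] at h1
  have h2 : ((n.choose p.1 : ℕ) : ℝ) * p.1.factorial * p.2.factorial = n.factorial := by
    exact_mod_cast h1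
  have h3 : (p.1.factorial : ℝ) ≠ 0 := by positivity
  have h4 : (p.2.factorial : ℝ) ≠ 0 := by positivity
  have h5 : (n.factorial : ℝ) ≠ 0 := by positivity
  field_simp
  linarith

lemma starMul_aux (x y : ℕ → ℍ[ℝ]) (u v : ℍ[ℝ]) (huv : Commute u v) (h0 : u + v = 0)
    (x0 : x 0 = 0) (y0 : y 0 = 0) (hx : ∀ n, x (n + 1) = ((n.factorial : ℝ)⁻¹) • u ^ n)
    (hy : ∀ n, y (n + 1) = ((n.factorial : ℝ)⁻¹) • v ^ n) : starMul x y = b := by
  funext n
  unfold starMul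
  rw [← Finset.Nat.sum_antidiagonal_eq_sum_range_succ (fun i j => x i * y j)]
  match n with
  | 0 => simp [x0, b]
  | 1 => simp [x0, y0, b, Finset.Nat.antidiagonal_succ]
  | n + 2 =>
    rw [Finset.Nat.antidiagonal_succ_succ', Finset.sum_cons, Finset.sum_cons, Finset.sum_map]
    simp only [x0, y0, zero_mul, mul_zero, zero_add, Function.Embedding.prodMap,
      Function.Embedding.coeFn_mk, Prod.map, Nat.succ_eq_add_one, hx, hy]
    rw [exp_coeff u v huv, h0]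
    rcases Nat.eq_zero_or_pos n with rfl | hn
    · simp [b]
    · rw [zero_pow hn.ne', smul_zero]
      simp [b, hn.ne']

lemma a_star_conj : starMul a (conjCoeff a) = b :=
  starMul_aux a (conjCoeff a) J (-J) ((Commute.refl J).neg_right) (add_neg_cancel J) rfl
    (by simp [conjCoeff, a]) (fun _ => rfl) conj_a_succ

lemma conj_star_a : starMul (conjCoeff a) a = b :=
  starMul_aux (conjCoeff a) a (-J) J ((Commute.refl J).neg_left) (neg_add_cancel J)
    (by simp [conjCoeff, a]) rfl conj_a_succ (fun _ => rfl)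

end Q94.QI
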