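import Mathlib

/-!
# Radial limits: one-variable facts
-/

open scoped BigOperators Topology ENNReal
open Set Filter MeasureTheory

namespace Q94.RL

/-- The circle `𝕋 = ℝ/ℤ`. -/
abbrev T : Type := UnitAddCircle

/-- `e(t) = exp(2πit)`. -/
noncomputable def e (t : T) : ℂ := (AddCircle.toCircle t : ℂ)

/-- The Poisson kernel `P_r(θ - x) = (1 - r²)/|e(x) - r e(θ)|²`. -/
noncomputable def PK (r : ℝ) (θ x : T) : ℝ := (1 - r ^ 2) / ‖e x - r * e θ‖ ^ 2

lemma norm_e (t : T) : ‖e t‖ = 1 := Circle.norm_coe _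

lemma continuous_e : Continuous e := by
  unfold e
  exact continuous_subtype_val.comp AddCircle.continuous_toCircle

lemma e_coe (x : ℝ) : e (x : T) = Complex.exp (2 * Real.pi * x * Complex.I) := by
  unfold e
  rw [AddCircle.toCircle_apply_mk, Circle.coe_exp]
  push_cast
  congr 1
  ring

lemma e_nsmul (q : ℕ) (t : T) : e (q • t) = e t ^ q := by
  unfold e
  rw [AddCircle.toCircle_nsmul, Circle.coe_pow]

lemma integral_eq_circleAverage (F : ℂ → ℂ) :
    ∫ t : T, F (e t) = Real.circleAverage F 0 1 := by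
  rw [← UnitAddCircle.intervalIntegral_preimage 0, Real.circleAverage_def, zero_add]
  have h := intervalIntegral.smul_integral_comp_mul_left (a := 0) (b := 1)
    (fun θ : ℝ => F (circleMap 0 1 θ)) (2 * Real.pi)
  rw [mul_zero, mul_one] at h
  rw [← h, smul_smul, inv_mul_cancel₀ (by have := Real.pi_pos; positivity), one_smul]
  refine intervalIntegral.integral_congr fun x _ => ?_
  congr 1
  rw [e_coe, circleMap]
  push_cast
  simp

instance : NullSingletonClass (volume : Measure T) := by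
  constructor
  intro x
  have h := AddCircle.volume_closedBall (1 : ℝ) (x := x) 0
  rw [Metric.closedBall_zero] at h
  rw [h]
  simp

lemma ae_pow_ne_one {q : ℕ} (hq : 1 ≤ q) : ∀ᵐ t : T, e t ^ q ≠ 1 := by
  have hq0 : (q : ℝ) ≠ 0 := by
    have : (0 : ℝ) < q := by exact_mod_cast hq
    exact this.ne'
  have h1 : {t : T | e t ^ q = 1} ⊆ range fun k : ℤ => (((k : ℝ) / q : ℝ) : T) := by
    intro t ht
    obtain ⟨x, rfl⟩ := QuotientAddGroup.mk_surjective t
    change e (x : T) ^ q = 1 at ht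
    rw [e_coe, ← Complex.exp_nat_mul] at ht
    rw [Complex.exp_eq_one_iff] at ht
    obtain ⟨k, hk⟩ := ht
    refine ⟨k, ?_⟩
    have h2 : (q : ℂ) * x = k := by
      have h3 : (2 * (Real.pi : ℂ) * Complex.I) ≠ 0 := Complex.two_pi_I_ne_zero
      have h4 : (2 * (Real.pi : ℂ) * Complex.I) * (q * x) = (2 * (Real.pi : ℂ) * Complex.I) * k := by
        linear_combination hk
      exact mul_left_cancel₀ h3 h4
    have h3 : (q : ℝ) * x = k := by exact_mod_cast h2
    simp only
    congr 1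
    rw [← h3]
    field_simp
  rw [ae_iff]
  simp only [ne_eq, not_not]
  have h2 : (range fun k : ℤ => (((k : ℝ) / q : ℝ) : T)).Countable := countable_range _
  have h3 : (volume : Measure T) (range fun k : ℤ => (((k : ℝ) / q : ℝ) : T)) = 0 :=
    h2.measure_zero volume
  exact measure_mono_null h1 h3

/-- The one-variable inner function. -/
noncomputable def g (a : ℝ) (q : ℕ) (z : ℂ) : ℂ := Complex.exp (-a * ((1 + z ^ q) / (1 - z ^ q)))

lemma re_herg (w : ℂ) : ((1 + w) / (1 - w)).re = (1 - ‖w‖ ^ 2) / ‖1 - w‖ ^ 2 := by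
  rw [Complex.div_re, ← Complex.normSq_eq_norm_sq, ← Complex.normSq_eq_norm_sq,
    Complex.normSq_apply w, ← add_div]
  congr 1
  simp only [Complex.add_re, Complex.sub_re, Complex.add_im, Complex.sub_im, Complex.one_re,
    Complex.one_im]
  ring

lemma norm_g (a : ℝ) (q : ℕ) (z : ℂ) :
    ‖g a q z‖ = Real.exp (-(a * ((1 - ‖z ^ q‖ ^ 2) / ‖1 - z ^ q‖ ^ 2))) := by
  unfold g
  rw [Complex.norm_exp]
  congr 1
  have : (-(a : ℂ) * ((1 + z ^ q) / (1 - z ^ q))).re = -a * ((1 + z ^ q) / (1 - z ^ q)).re := by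
    rw [← Complex.ofReal_neg, Complex.re_ofReal_mul]
  rw [this, re_herg]
  ring

lemma norm_g_le_one {a : ℝ} (ha : 0 ≤ a) (q : ℕ) {z : ℂ} (hz : ‖z‖ ≤ 1) : ‖g a q z‖ ≤ 1 := by
  rw [norm_g, Real.exp_le_one_iff, neg_nonpos]
  refine mul_nonneg ha (div_nonneg ?_ (by positivity))
  have : ‖z ^ q‖ ≤ 1 := by rw [norm_pow]; exact pow_le_one₀ (norm_nonneg _) hz
  have h0 := norm_nonneg (z ^ q)
  nlinarith

lemma norm_g_circle (a : ℝ) (q : ℕ) (t : T) : ‖g a q (e t)‖ = 1 := by
  rw [norm_g, norm_pow, norm_e]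
  simp

lemma measurable_G (a : ℝ) (q : ℕ) : Measurable fun t : T => g a q (e t) := by
  unfold g
  have := continuous_e.measurable
  fun_prop

lemma one_sub_pow_ne {q : ℕ} (hq : 1 ≤ q) {z : ℂ} (hz : ‖z‖ < 1) : 1 - z ^ q ≠ 0 := by
  intro h
  have h1 : z ^ q = 1 := (sub_eq_zero.1 h).symm
  have h2 : ‖z‖ ^ q = 1 := by rw [← norm_pow, h1, norm_one]
  have h3 : ‖z‖ ^ q < 1 := pow_lt_one₀ (norm_nonneg _) hz (by omega)
  linarith

lemma differentiableAt_g {a : ℝ} {q : ℕ} {z : ℂ} (h : 1 - z ^ q ≠ 0) :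
    DifferentiableAt ℂ (g a q) z := by
  unfold g
  fun_prop (disch := assumption)

lemma diffContOnCl_g {a : ℝ} {q : ℕ} (hq : 1 ≤ q) {s : ℝ} (hs0 : 0 ≤ s) (hs : s < 1) :
    DiffContOnCl ℂ (fun z => g a q (s * z)) (Metric.ball 0 1) := by
  apply DifferentiableOn.diffContOnCl
  intro z hz
  have hz1 : ‖z‖ ≤ 1 := by
    have := Metric.closure_ball_subset_closedBall hz
    simpa using this
  have h1 : ‖(s : ℂ) * z‖ < 1 := by
    rw [norm_mul, Complex.norm_real, Real.norm_eq_abs, abs_of_nonneg hs0]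
    nlinarith [norm_nonneg z]
  refine DifferentiableAt.differentiableWithinAt ?_
  exact (differentiableAt_g (one_sub_pow_ne hq h1)).comp z
    ((differentiableAt_id).const_mul (s : ℂ))

lemma PK_nonneg {r : ℝ} (hr0 : 0 ≤ r) (hr : r < 1) (θ x : T) : 0 ≤ PK r θ x := by
  unfold PK
  refine div_nonneg ?_ (by positivity)
  nlinarith

lemma PK_le {r : ℝ} (hr0 : 0 ≤ r) (hr : r < 1) (θ x : T) : PK r θ x ≤ (1 - r ^ 2) / (1 - r) ^ 2 := by
  unfold PK
  have h1 : 1 - r ≤ ‖e x - r * e θ‖ := by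
    have h2 := norm_sub_norm_le (e x) (r * e θ)
    rw [norm_mul, norm_e, norm_e, mul_one, Complex.norm_real, Real.norm_eq_abs,
      abs_of_nonneg hr0] at h2
    exact h2
  apply div_le_div_of_nonneg_left
  · nlinarith
  · have : 0 < 1 - r := by linarith
    positivity
  · exact pow_le_pow_left₀ (by linarith) h1 2

lemma PK_zero (θ x : T) : PK 0 θ x = 1 := by
  unfold PK
  simp [norm_e]

lemma measurable_PK (r : ℝ) (θ : T) : Measurable (PK r θ) := by
  unfold PK
  have := continuous_e.measurable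
  fun_prop

/-- Radii increasing to one. -/
noncomputable def sq (k : ℕ) : ℝ := 1 - 1 / ((k : ℝ) + 1)

lemma sq_nonneg' (k : ℕ) : 0 ≤ sq k := by
  unfold sq
  rw [sub_nonneg, div_le_one (by positivity)]
  linarith [Nat.cast_nonneg (α := ℝ) k]

lemma sq_lt_one (k : ℕ) : sq k < 1 := by
  unfold sq
  have : 0 < 1 / ((k : ℝ) + 1) := by positivity
  linarith

lemma tendsto_sq : Tendsto sq atTop (𝓝 1) := by
  have h := tendsto_one_div_add_atTop_nhds_zero_nat (𝕜 := ℝ)
  have h2 := h.const_sub 1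
  rw [sub_zero] at h2
  exact h2

lemma tendsto_g_radial {a : ℝ} {q : ℕ} {z : ℂ} (h : 1 - z ^ q ≠ 0) :
    Tendsto (fun k => g a q (sq k * z)) atTop (𝓝 (g a q z)) := by
  have h1 : Tendsto (fun k => (sq k : ℂ) * z) atTop (𝓝 z) := by
    have h2 : Tendsto (fun k => (sq k : ℂ)) atTop (𝓝 ((1 : ℝ) : ℂ)) :=
      (Complex.continuous_ofReal.tendsto 1).comp tendsto_sq
    have h3 := h2.mul_const z
    simpa using h3
  exact (differentiableAt_g h).continuousAt.tendsto.comp h1

/-- Bounded kernels: passage to the boundary. -/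
lemma tendsto_integral {a : ℝ} (ha : 0 ≤ a) {q : ℕ} (hq : 1 ≤ q) {κ : T → ℂ} (hκ : Measurable κ)
    {C : ℝ} (hC : ∀ t, ‖κ t‖ ≤ C) :
    Tendsto (fun k => ∫ t : T, κ t * g a q (sq k * e t)) atTop
      (𝓝 (∫ t : T, κ t * g a q (e t))) := by
  refine tendsto_integral_of_dominated_convergence (fun _ => C) ?_ (integrable_const C) ?_ ?_
  · intro k
    refine Measurable.aestronglyMeasurable ?_
    refine hκ.mul ?_
    unfold g
    have := continuous_e.measurable
    fun_prop
  · intro k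
    refine Eventually.of_forall fun t => ?_
    rw [norm_mul]
    have h1 : ‖g a q (sq k * e t)‖ ≤ 1 := by
      refine norm_g_le_one ha q ?_
      rw [norm_mul, norm_e, mul_one, Complex.norm_real, Real.norm_eq_abs,
        abs_of_nonneg (sq_nonneg' k)]
      exact (sq_lt_one k).le
    calc ‖κ t‖ * ‖g a q (sq k * e t)‖ ≤ C * 1 :=
          mul_le_mul (hC t) h1 (norm_nonneg _) ((norm_nonneg _).trans (hC t))
      _ = C := mul_one C
  · filter_upwards [ae_pow_ne_one hq] with t ht
    exact (tendsto_g_radial (by rw [sub_ne_zero]; exact ht.symm)).const_mul _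

/-- The Poisson integral of the inner function. -/
lemma integral_g_PK {a : ℝ} (ha : 0 ≤ a) {q : ℕ} (hq : 1 ≤ q) {r : ℝ} (hr0 : 0 ≤ r) (hr : r < 1)
    (θ : T) : ∫ t : T, g a q (e t) * (PK r θ t : ℂ) = g a q (r * e θ) := by
  have hw : ‖(r : ℂ) * e θ‖ < 1 := by
    rw [norm_mul, norm_e, mul_one, Complex.norm_real, Real.norm_eq_abs, abs_of_nonneg hr0]
    exact hr
  have h1 := tendsto_integral ha hq (κ := fun t => (PK r θ t : ℂ))
    (Complex.measurable_ofReal.comp (measurable_PK r θ)) (C := (1 - r ^ 2) / (1 - r) ^ 2)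
    (fun t => by
      rw [Complex.norm_real, Real.norm_eq_abs, abs_of_nonneg (PK_nonneg hr0 hr θ t)]
      exact PK_le hr0 hr θ t)
  have h2 : ∀ k, ∫ t : T, (PK r θ t : ℂ) * g a q (sq k * e t) = g a q (sq k * (r * e θ)) := by
    intro k
    have h3 := (diffContOnCl_g (a := a) hq (sq_nonneg' k)
      (sq_lt_one k)).circleAverage_poissonKernel_smul (w := r * e θ) (by simpa using hw)
    rw [← integral_eq_circleAverage] at h3
    rw [← h3]
    refine integral_congr_ae (Eventually.of_forall fun t => ?_)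
    simp only [Pi.smul_apply', poissonKernel, sub_zero, Complex.real_smul]
    congr 2
    unfold PK
    rw [norm_e, norm_mul, norm_e, mul_one, Complex.norm_real, Real.norm_eq_abs, sq_abs, one_pow]
  simp_rw [h2] at h1
  have h3 : Tendsto (fun k => g a q (sq k * (r * e θ))) atTop (𝓝 (g a q (r * e θ))) :=
    tendsto_g_radial (one_sub_pow_ne hq hw)
  have h4 := tendsto_nhds_unique h1 h3
  rw [← h4]
  refine integral_congr_ae (Eventually.of_forall fun t => ?_)
  simp only
  ring

/-- Negative Fourier coefficients vanish. -/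
lemma integral_g_pow {a : ℝ} (ha : 0 ≤ a) {q : ℕ} (hq : 1 ≤ q) {k : ℕ} (hk : k ≠ 0) :
    ∫ t : T, g a q (e t) * e t ^ k = 0 := by
  have h1 := tendsto_integral ha hq (κ := fun t => e t ^ k)
    (continuous_e.measurable.pow_const k) (C := 1)
    (fun t => by rw [norm_pow, norm_e, one_pow])
  have h2 : ∀ j, ∫ t : T, e t ^ k * g a q (sq j * e t) = 0 := by
    intro j
    have h3 : DiffContOnCl ℂ (fun z => z ^ k * g a q (sq j * z)) (Metric.ball 0 1) :=
      ((differentiable_pow k).diffContOnCl).smul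
        (diffContOnCl_g (a := a) hq (sq_nonneg' j) (sq_lt_one j))
    have h4 : DiffContOnCl ℂ (fun z => z ^ k * g a q (sq j * z)) (Metric.ball 0 |1|) := by
      rw [abs_one]; exact h3
    have h5 := h4.circleAverage
    rw [← integral_eq_circleAverage (fun z => z ^ k * g a q (sq j * z))] at h5
    rw [h5, zero_pow hk, zero_mul]
  simp_rw [h2] at h1
  have h4 := tendsto_nhds_unique h1 tendsto_const_nhds
  rw [← h4]
  refine integral_congr_ae (Eventually.of_forall fun t => ?_)
  simp only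
  ring

lemma g_zero (a : ℝ) {q : ℕ} (hq : 1 ≤ q) : g a q 0 = (Real.exp (-a) : ℂ) := by
  unfold g
  rw [zero_pow (by omega)]
  simp

lemma integral_g {a : ℝ} (ha : 0 ≤ a) {q : ℕ} (hq : 1 ≤ q) :
    ∫ t : T, g a q (e t) = (Real.exp (-a) : ℂ) := by
  have h := integral_g_PK ha hq le_rfl one_pos (0 : T)
  simp only [PK_zero, Complex.ofReal_one, mul_one, Complex.ofReal_zero, zero_mul] at h
  rw [h, g_zero a hq]

end Q94.RL
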