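import Pool.Agent.Q94.RLA

/-!
# Radial limits: the infinite product
-/

open scoped BigOperators Topology ENNReal NNReal
open Set Filter MeasureTheory

namespace Q94.RL

instance : IsProbabilityMeasure (volume : Measure T) :=
  ⟨by rw [UnitAddCircle.measure_univ]⟩

/-- `𝕋^∞`. -/
abbrev Ω : Type := ℕ → T

/-- Haar measure on `𝕋^∞`: the product of the normalised Haar measures. -/
noncomputable def m : Measure Ω := Measure.infinitePi fun _ => (volume : Measure T)

instance : IsProbabilityMeasure m := by unfold m; infer_instance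

/-- Fourier coefficients on `𝕋^∞`. -/
noncomputable def coeff (f : Ω → ℂ) (ν : ℕ →₀ ℤ) : ℂ :=
  ∫ x, f x * ∏ n ∈ ν.support, e (x n) ^ (-(ν n)) ∂m

/-- `f ∈ H^∞(𝕋^∞)`. -/
structure MemHinf (f : Ω → ℂ) : Prop where
  meas : AEStronglyMeasurable f m
  bdd : ∃ C : ℝ, ∀ᵐ x ∂m, ‖f x‖ ≤ C
  coeff_eq : ∀ ν : ℕ →₀ ℤ, (∃ n, ν n < 0) → coeff f ν = 0

/-- The Poisson integral `f(r e^{iθ}) = (f * P_r)(θ)`, for radii `r = (r_0, r_1, …)` only finitely
many of which are nonzero (note `PK 0 = 1`). -/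
noncomputable def radial (f : Ω → ℂ) (r : ℕ → ℝ) (θ : Ω) : ℂ :=
  ∫ x, f x * ∏ᶠ n, (PK (r n) (θ n) (x n) : ℂ) ∂m

lemma integral_prod {𝕜 : Type*} [RCLike 𝕜] (s : Finset ℕ) (h : ℕ → T → 𝕜)
    (hm : ∀ n, Measurable (h n)) :
    ∫ x, ∏ n ∈ s, h n (x n) ∂m = ∏ n ∈ s, ∫ t, h n t := by
  have h1 : ∀ x : Ω, ∏ n ∈ s, h n (x n) = (fun y : (i : s) → T => ∏ i : s, h i (y i)) (s.restrict x) := by
    intro x
    simp only [Finset.restrict]
    exact (Finset.prod_coe_sort s fun n => h n (x n)).symm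
  rw [integral_congr_ae (Eventually.of_forall h1)]
  unfold m
  rw [integral_restrict_infinitePi (fun _ : ℕ => (volume : Measure T)) (s := s)
    (f := fun y : (i : s) → T => ∏ i : s, h i (y i))]
  · rw [integral_fintype_prod_eq_prod (fun (i : s) => h i)]
    exact Finset.prod_coe_sort s fun n => ∫ t, h n t
  · refine Measurable.aestronglyMeasurable ?_
    exact Finset.measurable_fun_prod _ fun i _ => (hm i).comp (measurable_pi_apply i)

/-- Parameters of the product. -/
structure Data (a : ℕ → ℝ) (q N : ℕ → ℕ) : Prop where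
  a0 : ∀ n, 0 ≤ a n
  q1 : ∀ n, 1 ≤ q n
  mono : StrictMono N
  sum : ∀ j, ∑ n ∈ Finset.Ico (N j) (N (j + 1)), a n ≤ (1 / 4) ^ j

variable {a : ℕ → ℝ} {q N : ℕ → ℕ}

/-- Partial products. -/
noncomputable def F (a : ℕ → ℝ) (q : ℕ → ℕ) (s : Finset ℕ) (x : Ω) : ℂ :=
  ∏ n ∈ s, g (a n) (q n) (e (x n))

lemma measurable_F (s : Finset ℕ) : Measurable (F a q s) := by
  unfold F
  exact Finset.measurable_fun_prod _ fun n _ =>
    (measurable_G (a n) (q n)).comp (measurable_pi_apply n)

lemma norm_F (s : Finset ℕ) (x : Ω) : ‖F a q s x‖ = 1 := by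
  unfold F
  rw [norm_prod]
  exact Finset.prod_eq_one fun n _ => norm_g_circle _ _ _

lemma integrable_F (s : Finset ℕ) : Integrable (F a q s) m :=
  Integrable.of_bound (measurable_F s).aestronglyMeasurable 1
    (Eventually.of_forall fun x => (norm_F s x).le)

lemma integral_F (hD : Data a q N) (s : Finset ℕ) :
    ∫ x, F a q s x ∂m = (Real.exp (-∑ n ∈ s, a n) : ℂ) := by
  unfold F
  rw [integral_prod s (fun n t => g (a n) (q n) (e t)) fun n => measurable_G _ _]
  rw [← Finset.sum_neg_distrib, Real.exp_sum]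
  push_cast
  refine Finset.prod_congr rfl fun n _ => ?_
  rw [integral_g (hD.a0 n) (hD.q1 n)]
  push_cast
  rfl

/-- The block product is close to one in mean. -/
lemma block_close (hD : Data a q N) (j : ℕ) :
    ∫ x, ‖F a q (Finset.Ico (N j) (N (j + 1))) x - 1‖ ∂m ≤ 3 / 2 * (1 / 2) ^ j := by
  set s := Finset.Ico (N j) (N (j + 1)) with hs
  have hpt : ∀ x, ‖F a q s x - 1‖ ≤ 2 ^ j * (1 - (F a q s x).re) + (1 / 2) ^ j / 2 := by
    intro x
    have h1 : ‖F a q s x - 1‖ ^ 2 = 2 - 2 * (F a q s x).re := by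
      have h2 := norm_F (a := a) (q := q) s x
      have h3 : ‖F a q s x‖ ^ 2 = (F a q s x).re ^ 2 + (F a q s x).im ^ 2 := by
        rw [← Complex.normSq_eq_norm_sq, Complex.normSq_apply]; ring
      rw [← Complex.normSq_eq_norm_sq, Complex.normSq_apply]
      simp only [Complex.sub_re, Complex.sub_im, Complex.one_re, Complex.one_im]
      rw [h2] at h3
      linarith
    have h4 : (0 : ℝ) < 2 ^ j := by positivity
    have h5 : (1 / 2 : ℝ) ^ j * 2 ^ j = 1 := by rw [← mul_pow]; norm_num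
    have h6 : 0 ≤ (2 ^ j * ‖F a q s x - 1‖ - 1) ^ 2 := sq_nonneg _
    have h7 : 2 * 2 ^ j * ‖F a q s x - 1‖ ≤ 2 ^ j * 2 ^ j * (2 - 2 * (F a q s x).re) + 1 := by
      rw [← h1]; nlinarith
    have h8 : 2 * 2 ^ j * ‖F a q s x - 1‖
        ≤ 2 * 2 ^ j * (2 ^ j * (1 - (F a q s x).re) + (1 / 2) ^ j / 2) := by
      calc 2 * 2 ^ j * ‖F a q s x - 1‖ ≤ 2 ^ j * 2 ^ j * (2 - 2 * (F a q s x).re) + 1 := h7
        _ = 2 * 2 ^ j * (2 ^ j * (1 - (F a q s x).re)) + (1 / 2) ^ j * 2 ^ j := by rw [h5]; ring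
        _ = _ := by ring
    exact le_of_mul_le_mul_left h8 (by positivity)
  have hre : ∫ x, (F a q s x).re ∂m = Real.exp (-∑ n ∈ s, a n) := by
    have h1 := integral_F hD s
    have h2 : ∫ x, (F a q s x).re ∂m = (∫ x, F a q s x ∂m).re := integral_re (integrable_F s)
    rw [h2, h1, Complex.ofReal_re]
  have hrei : Integrable (fun x => (F a q s x).re) m := (integrable_F s).re
  have hrei2 : Integrable (fun x => 1 - (F a q s x).re) m := (integrable_const 1).sub hrei
  calc ∫ x, ‖F a q s x - 1‖ ∂m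
      ≤ ∫ x, (2 ^ j * (1 - (F a q s x).re) + (1 / 2) ^ j / 2) ∂m := by
        refine integral_mono ?_ ?_ hpt
        · exact ((integrable_F s).sub (integrable_const 1)).norm
        · exact (hrei2.const_mul _).add (integrable_const _)
    _ = 2 ^ j * (1 - Real.exp (-∑ n ∈ s, a n)) + (1 / 2) ^ j / 2 := by
        rw [integral_add (hrei2.const_mul _) (integrable_const _),
          integral_const_mul, integral_sub (integrable_const 1) hrei, hre]
        simp
    _ ≤ 2 ^ j * (1 / 4) ^ j + (1 / 2) ^ j / 2 := by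
        have h1 := Real.add_one_le_exp (-∑ n ∈ s, a n)
        have h2 := hD.sum j
        have h3 : 1 - Real.exp (-∑ n ∈ s, a n) ≤ (1 / 4) ^ j := by linarith
        gcongr
    _ = 3 / 2 * (1 / 2) ^ j := by
        have : (2 : ℝ) ^ j * (1 / 4) ^ j = (1 / 2) ^ j := by rw [← mul_pow]; norm_num
        rw [this]; ring

/-- Partial products up to block `j`. -/
noncomputable def fJ (a : ℕ → ℝ) (q N : ℕ → ℕ) (j : ℕ) (x : Ω) : ℂ := F a q (Finset.range (N j)) x

/-- The inner function. -/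
noncomputable def f (a : ℕ → ℝ) (q N : ℕ → ℕ) (x : Ω) : ℂ := limUnder atTop fun j => fJ a q N j x

lemma fJ_succ (hD : Data a q N) (j : ℕ) (x : Ω) :
    fJ a q N (j + 1) x = fJ a q N j x * F a q (Finset.Ico (N j) (N (j + 1))) x := by
  unfold fJ F
  rw [Finset.range_eq_Ico, Finset.range_eq_Ico,
    Finset.prod_Ico_consecutive _ (Nat.zero_le _) (hD.mono (Nat.lt_succ_self j)).le]

lemma ae_tendsto (hD : Data a q N) :
    ∀ᵐ x ∂m, Tendsto (fun j => fJ a q N j x) atTop (𝓝 (f a q N x)) := by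
  have h1 : ∫⁻ x, ∑' j, ‖F a q (Finset.Ico (N j) (N (j + 1))) x - 1‖ₑ ∂m < ⊤ := by
    rw [lintegral_tsum fun j => ((measurable_F _).sub_const 1).enorm.aemeasurable]
    have h2 : ∀ j, ∫⁻ x, ‖F a q (Finset.Ico (N j) (N (j + 1))) x - 1‖ₑ ∂m
        ≤ ENNReal.ofReal (3 / 2 * (1 / 2) ^ j) := by
      intro j
      have hi : Integrable (fun x => F a q (Finset.Ico (N j) (N (j + 1))) x - 1) m :=
        (integrable_F _).sub (integrable_const 1)
      rw [← ofReal_integral_norm_eq_lintegral_enorm hi]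
      exact ENNReal.ofReal_le_ofReal (block_close hD j)
    refine lt_of_le_of_lt (ENNReal.tsum_le_tsum h2) ?_
    rw [← ENNReal.ofReal_tsum_of_nonneg (fun j => by positivity)
      ((summable_geometric_of_lt_one (by norm_num) (by norm_num)).mul_left _)]
    exact ENNReal.ofReal_lt_top
  have h3 : ∀ᵐ x ∂m, ∑' j, ‖F a q (Finset.Ico (N j) (N (j + 1))) x - 1‖ₑ < ⊤ := by
    refine ae_lt_top ?_ h1.ne
    exact Measurable.tsum fun j => ((measurable_F _).sub_const 1).enorm
  filter_upwards [h3] with x hx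
  have h4 : Summable fun j => dist (fJ a q N j x) (fJ a q N (j + 1) x) := by
    have h5 : Summable fun j => ‖F a q (Finset.Ico (N j) (N (j + 1))) x - 1‖₊ := by
      rw [← ENNReal.tsum_coe_ne_top_iff_summable]
      exact hx.ne
    have h6 : (fun j => dist (fJ a q N j x) (fJ a q N (j + 1) x))
        = fun j => ((‖F a q (Finset.Ico (N j) (N (j + 1))) x - 1‖₊ : ℝ≥0) : ℝ) := by
      funext j
      rw [fJ_succ hD, dist_comm, dist_eq_norm, coe_nnnorm]
      have : fJ a q N j x * F a q (Finset.Ico (N j) (N (j + 1))) x - fJ a q N j x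
          = fJ a q N j x * (F a q (Finset.Ico (N j) (N (j + 1))) x - 1) := by ring
      rw [this, norm_mul]
      unfold fJ
      rw [norm_F, one_mul]
    rw [h6]
    exact NNReal.summable_coe.2 h5
  have h5 := cauchySeq_of_summable_dist h4
  exact h5.tendsto_limUnder

lemma aestronglyMeasurable_f (hD : Data a q N) : AEStronglyMeasurable (f a q N) m :=
  aestronglyMeasurable_of_tendsto_ae atTop
    (fun j => (measurable_F (Finset.range (N j))).aestronglyMeasurable) (ae_tendsto hD)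

lemma ae_norm_f (hD : Data a q N) : ∀ᵐ x ∂m, ‖f a q N x‖ = 1 := by
  filter_upwards [ae_tendsto hD] with x hx
  have h1 := hx.norm
  have h2 : (fun j => ‖fJ a q N j x‖) = fun _ => (1 : ℝ) := by
    funext j; unfold fJ; exact norm_F _ x
  rw [h2] at h1
  exact tendsto_nhds_unique h1 tendsto_const_nhds

/-- Dominated convergence against a bounded kernel. -/
lemma tendsto_integral_fJ (hD : Data a q N) {κ : Ω → ℂ} (hκ : Measurable κ) {C : ℝ}
    (hC : ∀ x, ‖κ x‖ ≤ C) :
    Tendsto (fun j => ∫ x, fJ a q N j x * κ x ∂m) atTop (𝓝 (∫ x, f a q N x * κ x ∂m)) := by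
  refine tendsto_integral_of_dominated_convergence (fun _ => C) ?_ (integrable_const C) ?_ ?_
  · intro j
    exact ((measurable_F (Finset.range (N j))).mul hκ).aestronglyMeasurable
  · intro j
    refine Eventually.of_forall fun x => ?_
    rw [norm_mul]
    unfold fJ
    rw [norm_F, one_mul]
    exact hC x
  · filter_upwards [ae_tendsto hD] with x hx
    exact hx.mul_const _

lemma exists_range (hD : Data a q N) (s : Finset ℕ) : ∃ J, ∀ j, J ≤ j → s ⊆ Finset.range (N j) := by
  refine ⟨s.sup id + 1, fun j hj n hn => ?_⟩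
  rw [Finset.mem_range]
  have h1 : n ≤ s.sup id := Finset.le_sup (f := id) hn
  have h2 : j ≤ N j := hD.mono.id_le j
  omega

/-- The product belongs to `H^∞(𝕋^∞)`. -/
lemma memHinf_f (hD : Data a q N) : MemHinf (f a q N) := by
  refine ⟨aestronglyMeasurable_f hD, ⟨1, (ae_norm_f hD).mono fun x hx => hx.le⟩, ?_⟩
  rintro ν ⟨n0, hn0⟩
  unfold coeff
  have hκm : Measurable fun x : Ω => ∏ n ∈ ν.support, e (x n) ^ (-(ν n)) := by
    refine Finset.measurable_fun_prod _ fun n _ => ?_
    have h1 : Measurable fun t : T => e t ^ (-(ν n)) := by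
      have := continuous_e.measurable
      fun_prop
    exact h1.comp (measurable_pi_apply n)
  have h1 := tendsto_integral_fJ hD hκm (C := 1) (fun x => by
    rw [norm_prod]
    refine le_of_eq (Finset.prod_eq_one fun n _ => ?_)
    rw [norm_zpow, norm_e, one_zpow])
  obtain ⟨J, hJ⟩ := exists_range hD ν.support
  have h2 : ∀ j, J ≤ j → ∫ x, fJ a q N j x * ∏ n ∈ ν.support, e (x n) ^ (-(ν n)) ∂m = 0 := by
    intro j hj
    have h3 : ∀ x : Ω, fJ a q N j x * ∏ n ∈ ν.support, e (x n) ^ (-(ν n))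
        = ∏ n ∈ Finset.range (N j), (fun n t => g (a n) (q n) (e t) * e t ^ (-(ν n))) n (x n) := by
      intro x
      have h4 : ∏ n ∈ ν.support, e (x n) ^ (-(ν n)) = ∏ n ∈ Finset.range (N j), e (x n) ^ (-(ν n)) := by
        refine Finset.prod_subset (hJ j hj) fun n _ hn => ?_
        rw [Finsupp.notMem_support_iff.1 hn]
        simp
      rw [h4]
      unfold fJ F
      rw [← Finset.prod_mul_distrib]
    rw [integral_congr_ae (Eventually.of_forall h3),
      integral_prod (Finset.range (N j)) (fun n t => g (a n) (q n) (e t) * e t ^ (-(ν n)))]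
    · refine Finset.prod_eq_zero (i := n0) ?_ ?_
      · exact hJ j hj (Finsupp.mem_support_iff.2 hn0.ne)
      · obtain ⟨k, hk⟩ : ∃ k : ℕ, -(ν n0) = k := ⟨(-(ν n0)).toNat, by
          rw [Int.toNat_of_nonneg (by omega)]⟩
        have hk0 : k ≠ 0 := by omega
        rw [hk]
        simp only [zpow_natCast]
        exact integral_g_pow (hD.a0 n0) (hD.q1 n0) hk0
    · intro n
      have := continuous_e.measurable
      exact (measurable_G (a n) (q n)).mul (by fun_prop)
  have h3 : Tendsto (fun j => ∫ x, fJ a q N j x * ∏ n ∈ ν.support, e (x n) ^ (-(ν n)) ∂m) atTop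
      (𝓝 0) := by
    refine tendsto_const_nhds.congr' ?_
    filter_upwards [eventually_ge_atTop J] with j hj
    exact (h2 j hj).symm
  exact tendsto_nhds_unique h1 h3

/-- Bound for the Poisson integral by the factors of one block. -/
lemma norm_radial_le (hD : Data a q N) {r : ℕ → ℝ} (hr0 : ∀ n, 0 ≤ r n) (hr1 : ∀ n, r n < 1)
    (hfin : {n | r n ≠ 0}.Finite) (θ : Ω) (s : Finset ℕ) :
    ‖radial (f a q N) r θ‖ ≤ ∏ n ∈ s, ‖g (a n) (q n) (r n * e (θ n))‖ := by
  set S := hfin.toFinset with hS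
  have hfp : ∀ t : Finset ℕ, S ⊆ t → ∀ x : Ω, ∏ᶠ n, (PK (r n) (θ n) (x n) : ℂ)
      = ∏ n ∈ t, (PK (r n) (θ n) (x n) : ℂ) := by
    intro t ht x
    refine finprod_eq_prod_of_mulSupport_subset _ ?_
    intro n hn
    rw [Function.mem_mulSupport] at hn
    by_contra hnt
    apply hn
    have hrn : r n = 0 := by
      by_contra hne
      exact hnt (ht (hfin.mem_toFinset.2 hne))
    rw [hrn, PK_zero, Complex.ofReal_one]
  have hκm : Measurable fun x : Ω => ∏ᶠ n, (PK (r n) (θ n) (x n) : ℂ) := by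
    have : (fun x : Ω => ∏ᶠ n, (PK (r n) (θ n) (x n) : ℂ))
        = fun x => ∏ n ∈ S, (PK (r n) (θ n) (x n) : ℂ) := funext fun x => hfp S subset_rfl x
    rw [this]
    refine Finset.measurable_fun_prod _ fun n _ => ?_
    exact (Complex.measurable_ofReal.comp (measurable_PK (r n) (θ n))).comp
      (measurable_pi_apply n)
  have h1 := tendsto_integral_fJ hD hκm
    (C := ∏ n ∈ S, ((1 - r n ^ 2) / (1 - r n) ^ 2)) (fun x => by
      rw [hfp S subset_rfl x, norm_prod]
      refine Finset.prod_le_prod (fun n _ => norm_nonneg _) fun n _ => ?_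
      rw [Complex.norm_real, Real.norm_eq_abs, abs_of_nonneg (PK_nonneg (hr0 n) (hr1 n) _ _)]
      exact PK_le (hr0 n) (hr1 n) _ _)
  obtain ⟨J, hJ⟩ := exists_range hD (S ∪ s)
  have h2 : ∀ j, J ≤ j → ‖∫ x, fJ a q N j x * ∏ᶠ n, (PK (r n) (θ n) (x n) : ℂ) ∂m‖
      ≤ ∏ n ∈ s, ‖g (a n) (q n) (r n * e (θ n))‖ := by
    intro j hj
    have hsub := hJ j hj
    have h3 : ∀ x : Ω, fJ a q N j x * ∏ᶠ n, (PK (r n) (θ n) (x n) : ℂ)
        = ∏ n ∈ Finset.range (N j),
          (fun n t => g (a n) (q n) (e t) * (PK (r n) (θ n) t : ℂ)) n (x n) := by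
      intro x
      rw [hfp _ (Finset.subset_union_left.trans hsub) x]
      unfold fJ F
      rw [← Finset.prod_mul_distrib]
    rw [integral_congr_ae (Eventually.of_forall h3),
      integral_prod (Finset.range (N j))
        (fun n t => g (a n) (q n) (e t) * (PK (r n) (θ n) t : ℂ))]
    · rw [norm_prod]
      have h4 : ∀ n, ∫ t : T, g (a n) (q n) (e t) * (PK (r n) (θ n) t : ℂ)
          = g (a n) (q n) (r n * e (θ n)) := fun n =>
        integral_g_PK (hD.a0 n) (hD.q1 n) (hr0 n) (hr1 n) (θ n)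
      simp_rw [h4]
      have hss : s ⊆ Finset.range (N j) := Finset.subset_union_right.trans hsub
      rw [← Finset.prod_sdiff hss]
      refine mul_le_of_le_one_left (Finset.prod_nonneg fun n _ => norm_nonneg _) ?_
      refine Finset.prod_le_one (fun n _ => norm_nonneg _) fun n _ => ?_
      refine norm_g_le_one (hD.a0 n) _ ?_
      rw [norm_mul, norm_e, mul_one, Complex.norm_real, Real.norm_eq_abs, abs_of_nonneg (hr0 n)]
      exact (hr1 n).le
    · intro n
      exact (measurable_G (a n) (q n)).mul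
        (Complex.measurable_ofReal.comp (measurable_PK (r n) (θ n)))
  refine le_of_tendsto h1.norm ?_
  filter_upwards [eventually_ge_atTop J] with j hj
  exact h2 j hj

end Q94.RL
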