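import Pool.Agent.Q94.RLB

/-!
# Radial limits: parameters, radii and the probabilistic estimate
-/

open scoped BigOperators Topology ENNReal NNReal
open Set Filter MeasureTheory

namespace Q94.RL

/-! ### Parameters -/

/-- Number of levels in block `j`. -/
def L (j : ℕ) : ℕ := 108 * (j + 1) * 4 ^ j

/-- Number of variables in block `j`. -/
def M (j : ℕ) : ℕ := 2 ^ L j

/-- First index of block `j`. -/
def N (j : ℕ) : ℕ := ∑ i ∈ Finset.range j, M i

/-- The block of an index. -/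
def blk (n : ℕ) : ℕ := Nat.findGreatest (fun j => N j ≤ n) n

/-- Coefficient in block `j`. -/
noncomputable def α (j : ℕ) : ℝ := (1 / 4) ^ j / M j

/-- Coefficients. -/
noncomputable def aa (n : ℕ) : ℝ := α (blk n)

/-- Exponents. -/
def qq (n : ℕ) : ℕ := (2 ^ L (blk n)) ^ (N (blk n + 1) - 1 - n)

lemma L_pos (j : ℕ) : 0 < L j := by unfold L; positivity

lemma M_pos (j : ℕ) : 0 < M j := by unfold M; positivity

lemma N_succ (j : ℕ) : N (j + 1) = N j + M j := by unfold N; rw [Finset.sum_range_succ]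

lemma N_strictMono : StrictMono N := strictMono_nat_of_lt_succ fun j => by
  rw [N_succ]; have := M_pos j; omega

lemma L_mono : Monotone L := monotone_nat_of_le_succ fun j => by
  unfold L
  rw [pow_succ]
  have h : 0 < 4 ^ j := by positivity
  nlinarith

lemma M_mono : Monotone M := fun _ _ h => Nat.pow_le_pow_right (by norm_num) (L_mono h)

lemma blk_eq {n j : ℕ} (h1 : N j ≤ n) (h2 : n < N (j + 1)) : blk n = j := by
  unfold blk
  rw [Nat.findGreatest_eq_iff]
  refine ⟨(N_strictMono.id_le j).trans h1, fun _ => h1, fun i hi _ hcon => ?_⟩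
  have : N (j + 1) ≤ N i := N_strictMono.monotone hi
  omega

lemma aa_eq {n j : ℕ} (h1 : N j ≤ n) (h2 : n < N (j + 1)) : aa n = α j := by
  unfold aa; rw [blk_eq h1 h2]

lemma α_nonneg (j : ℕ) : 0 ≤ α j := by unfold α; positivity

lemma qq_pos (n : ℕ) : 0 < qq n := by unfold qq; positivity

lemma M_mul_α (j : ℕ) : (M j : ℝ) * α j = (1 / 4) ^ j := by
  unfold α
  have : (M j : ℝ) ≠ 0 := by exact_mod_cast (M_pos j).ne'
  field_simp

lemma data : Data aa qq N where
  a0 n := α_nonneg _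
  q1 n := qq_pos n
  mono := N_strictMono
  sum j := by
    have h1 : ∀ n ∈ Finset.Ico (N j) (N (j + 1)), aa n = α j := by
      intro n hn
      rw [Finset.mem_Ico] at hn
      exact aa_eq hn.1 hn.2
    rw [Finset.sum_congr rfl h1, Finset.sum_const, Nat.card_Ico, N_succ, nsmul_eq_mul,
      Nat.add_sub_cancel_left, M_mul_α]

/-! ### Radii -/

/-- `ρ_i = 1 - 2^{-(i+1)}`. -/
noncomputable def ρ (i : ℕ) : ℝ := 1 - (1 / 2) ^ (i + 1)

lemma ρ_ge (i : ℕ) : 1 / 2 ≤ ρ i := by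
  unfold ρ
  have : (1 / 2 : ℝ) ^ (i + 1) ≤ (1 / 2) ^ 1 := pow_le_pow_of_le_one (by norm_num) (by norm_num) (by omega)
  linarith

lemma ρ_pos (i : ℕ) : 0 < ρ i := by linarith [ρ_ge i]

lemma ρ_lt_one (i : ℕ) : ρ i < 1 := by
  unfold ρ
  have : (0 : ℝ) < (1 / 2) ^ (i + 1) := by positivity
  linarith

lemma ρ_mono : Monotone ρ := fun i j h => by
  unfold ρ
  have : (1 / 2 : ℝ) ^ (j + 1) ≤ (1 / 2) ^ (i + 1) :=
    pow_le_pow_of_le_one (by norm_num) (by norm_num) (by omega)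
  linarith

/-- The radius used in all blocks before block `j`. -/
noncomputable def R (j : ℕ) : ℝ := ρ (L j) ^ (1 / (((2 ^ L j) ^ M j : ℕ) : ℝ))

/-- The radii at stage `j` with levels `c`. -/
noncomputable def rad (j : ℕ) (c : ℕ → ℕ) (n : ℕ) : ℝ :=
  if n < N j then R j else if n < N (j + 1) then ρ (c n) ^ (1 / (qq n : ℝ)) else 0

/-- Admissible levels. -/
def Adm (j : ℕ) (c : ℕ → ℕ) : Prop := ∀ n, N j ≤ n → n < N (j + 1) → c n < L j

lemma rpow_inv_mono {x y : ℝ} (hx : 0 < x) (hxy : x ≤ y) (hy : y < 1) {a b : ℕ} (ha : 0 < a)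
    (hab : a ≤ b) : x ^ (1 / (a : ℝ)) ≤ y ^ (1 / (b : ℝ)) := by
  have ha' : (0 : ℝ) < a := by exact_mod_cast ha
  have hb' : (0 : ℝ) < b := by exact_mod_cast (by omega : 0 < b)
  have hab' : (a : ℝ) ≤ b := by exact_mod_cast hab
  calc x ^ (1 / (a : ℝ)) ≤ y ^ (1 / (a : ℝ)) := Real.rpow_le_rpow hx.le hxy (by positivity)
    _ ≤ y ^ (1 / (b : ℝ)) :=
      Real.rpow_le_rpow_of_exponent_ge (by linarith) hy.le (one_div_le_one_div_of_le ha' hab')

lemma rpow_lt_one' {x : ℝ} (hx : 0 < x) (hx1 : x < 1) {a : ℕ} (ha : 0 < a) :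
    x ^ (1 / (a : ℝ)) < 1 := by
  have ha' : (0 : ℝ) < a := by exact_mod_cast ha
  exact Real.rpow_lt_one hx.le hx1 (by positivity)

lemma pow_pow_pos (j : ℕ) : 0 < (2 ^ L j) ^ M j := by positivity

lemma R_pos (j : ℕ) : 0 < R j := by unfold R; exact Real.rpow_pos_of_pos (ρ_pos _) _

lemma R_lt_one (j : ℕ) : R j < 1 := by
  unfold R
  exact rpow_lt_one' (ρ_pos _) (ρ_lt_one _) (pow_pow_pos j)

lemma R_mono : Monotone R := fun i j h => by
  unfold R
  refine rpow_inv_mono (ρ_pos _) (ρ_mono (L_mono h)) (ρ_lt_one _) (pow_pow_pos i) ?_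
  exact Nat.pow_le_pow_left (Nat.pow_le_pow_right (by norm_num) (L_mono h)) _ |>.trans
    (Nat.pow_le_pow_right (by positivity) (M_mono h))

lemma qq_le {n j : ℕ} (h1 : N j ≤ n) (h2 : n < N (j + 1)) : qq n ≤ (2 ^ L j) ^ M j := by
  unfold qq
  rw [blk_eq h1 h2, N_succ]
  exact Nat.pow_le_pow_right (by positivity) (by omega)

lemma rad_block_le_R {j : ℕ} {c : ℕ → ℕ} (hc : Adm j c) {n : ℕ} (h1 : N j ≤ n)
    (h2 : n < N (j + 1)) : ρ (c n) ^ (1 / (qq n : ℝ)) ≤ R j := by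
  unfold R
  exact rpow_inv_mono (ρ_pos _) (ρ_mono (hc n h1 h2).le) (ρ_lt_one _) (qq_pos n) (qq_le h1 h2)

lemma rad_nonneg (j : ℕ) (c : ℕ → ℕ) (n : ℕ) : 0 ≤ rad j c n := by
  unfold rad
  split_ifs
  · exact (R_pos j).le
  · exact (Real.rpow_pos_of_pos (ρ_pos _) _).le
  · exact le_rfl

lemma rad_lt_one (j : ℕ) (c : ℕ → ℕ) (n : ℕ) : rad j c n < 1 := by
  unfold rad
  split_ifs
  · exact R_lt_one j
  · exact rpow_lt_one' (ρ_pos _) (ρ_lt_one _) (qq_pos n)
  · norm_num

lemma rad_finite (j : ℕ) (c : ℕ → ℕ) : {n | rad j c n ≠ 0}.Finite := by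
  refine (Finset.range (N (j + 1))).finite_toSet.subset fun n hn => ?_
  rw [Finset.coe_range, mem_Iio]
  by_contra hcon
  apply hn
  have h1 : N j ≤ N (j + 1) := N_strictMono.monotone (Nat.le_succ j)
  unfold rad
  rw [if_neg (by omega), if_neg hcon]

lemma rad_mono {j : ℕ} {c c' : ℕ → ℕ} (hc : Adm j c) (n : ℕ) : rad j c n ≤ rad (j + 1) c' n := by
  have h1 : N j ≤ N (j + 1) := N_strictMono.monotone (Nat.le_succ j)
  by_cases h2 : n < N j
  · have e1 : rad j c n = R j := by unfold rad; rw [if_pos h2]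
    have e2 : rad (j + 1) c' n = R (j + 1) := by unfold rad; rw [if_pos (by omega)]
    rw [e1, e2]; exact R_mono (Nat.le_succ j)
  · by_cases h3 : n < N (j + 1)
    · have e1 : rad j c n = ρ (c n) ^ (1 / (qq n : ℝ)) := by unfold rad; rw [if_neg h2, if_pos h3]
      have e2 : rad (j + 1) c' n = R (j + 1) := by unfold rad; rw [if_pos h3]
      rw [e1, e2]
      exact (rad_block_le_R hc (not_lt.1 h2) h3).trans (R_mono (Nat.le_succ j))
    · have e1 : rad j c n = 0 := by unfold rad; rw [if_neg h2, if_neg h3]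
      rw [e1]; exact rad_nonneg _ _ _

lemma one_sub_pow_le (l : ℕ) : (1 - (1 / 2 : ℝ) ^ l) ^ (2 ^ l) ≤ 1 / 2 := by
  have h1 : (1 - (1 / 2 : ℝ) ^ l) ≤ Real.exp (-(1 / 2) ^ l) := by
    have := Real.add_one_le_exp (-(1 / 2 : ℝ) ^ l)
    linarith
  have h0 : (0 : ℝ) ≤ 1 - (1 / 2) ^ l := by
    have : (1 / 2 : ℝ) ^ l ≤ 1 := pow_le_one₀ (by norm_num) (by norm_num)
    linarith
  have h2 := pow_le_pow_left₀ h0 h1 (2 ^ l)
  rw [← Real.exp_nat_mul] at h2
  have h3 : ((2 ^ l : ℕ) : ℝ) * -(1 / 2) ^ l = -1 := by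
    push_cast
    rw [mul_neg, ← mul_pow]; norm_num
  rw [h3] at h2
  refine h2.trans ?_
  rw [Real.exp_neg]
  have h4 := Real.add_one_le_exp (1 : ℝ)
  rw [inv_le_comm₀ (Real.exp_pos _) (by norm_num)]
  linarith

lemma rad_anti_succ {j : ℕ} {c : ℕ → ℕ} (hc : Adm j c) (n : ℕ) : rad j c (n + 1) ≤ rad j c n := by
  have h1 : N j ≤ N (j + 1) := N_strictMono.monotone (Nat.le_succ j)
  by_cases h2 : n < N j
  · have e1 : rad j c n = R j := by unfold rad; rw [if_pos h2]
    rw [e1]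
    unfold rad
    split_ifs with h3 h4
    · exact le_rfl
    · exact rad_block_le_R hc (not_lt.1 h3) h4
    · exact (R_pos j).le
  · by_cases h3 : n + 1 < N (j + 1)
    · have e1 : rad j c n = ρ (c n) ^ (1 / (qq n : ℝ)) := by
        unfold rad; rw [if_neg h2, if_pos (by omega)]
      have e2 : rad j c (n + 1) = ρ (c (n + 1)) ^ (1 / (qq (n + 1) : ℝ)) := by
        unfold rad; rw [if_neg (by omega), if_pos h3]
      rw [e1, e2]
      push Not at h2
      have hq : qq n = 2 ^ L j * qq (n + 1) := by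
        unfold qq
        rw [blk_eq h2 (by omega), blk_eq (by omega) h3, ← pow_succ']
        congr 1
        omega
      have hq0 : (0 : ℝ) < qq (n + 1) := by exact_mod_cast qq_pos (n + 1)
      have hL0 : (0 : ℝ) < ((2 ^ L j : ℕ) : ℝ) := by positivity
      have hcL : c (n + 1) < L j := hc (n + 1) (by omega) h3
      have h4 : ρ (c (n + 1)) ^ (2 ^ L j) ≤ ρ (c n) := by
        refine le_trans ?_ (ρ_ge _)
        refine le_trans ?_ (one_sub_pow_le (L j))
        refine pow_le_pow_left₀ (ρ_pos _).le ?_ _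
        unfold ρ
        have : (1 / 2 : ℝ) ^ L j ≤ (1 / 2) ^ (c (n + 1) + 1) :=
          pow_le_pow_of_le_one (by norm_num) (by norm_num) (by omega)
        linarith
      calc ρ (c (n + 1)) ^ (1 / (qq (n + 1) : ℝ))
          = (ρ (c (n + 1)) ^ (2 ^ L j)) ^ (1 / (qq n : ℝ)) := by
            rw [← Real.rpow_natCast, ← Real.rpow_mul (ρ_pos _).le, hq]
            congr 1
            push_cast at hL0 ⊢
            field_simp
        _ ≤ ρ (c n) ^ (1 / (qq n : ℝ)) :=
            Real.rpow_le_rpow (pow_nonneg (ρ_pos _).le _) h4 (by positivity)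
    · have e1 : rad j c (n + 1) = 0 := by
        unfold rad; rw [if_neg (by omega), if_neg h3]
      rw [e1]; exact rad_nonneg _ _ _

lemma rad_antitone {j : ℕ} {c : ℕ → ℕ} (hc : Adm j c) : Antitone (rad j c) :=
  antitone_nat_of_succ_le fun n => rad_anti_succ hc n

lemma tendsto_R : Tendsto R atTop (𝓝 1) := by
  have h1 : ∀ j, ρ j ≤ R j := by
    intro j
    have h2 : ρ j ≤ ρ (L j) := ρ_mono (by
      unfold L
      have : 0 < 4 ^ j := by positivity
      nlinarith)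
    refine h2.trans ?_
    have h3 := rpow_inv_mono (ρ_pos (L j)) le_rfl (ρ_lt_one (L j)) one_pos (pow_pow_pos j)
    simpa [R] using h3
  have h2 : Tendsto ρ atTop (𝓝 1) := by
    unfold ρ
    have h3 : Tendsto (fun i : ℕ => (1 / 2 : ℝ) ^ (i + 1)) atTop (𝓝 0) :=
      (tendsto_pow_atTop_nhds_zero_of_lt_one (by norm_num) (by norm_num)).comp (tendsto_add_atTop_nat 1)
    have h4 := h3.const_sub 1
    rwa [sub_zero] at h4
  exact tendsto_of_tendsto_of_tendsto_of_le_of_le h2 tendsto_const_nhds h1 fun j => (R_lt_one j).le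

end Q94.RL
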