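import Pool.Agent.Q94.RLC

/-!
# Radial limits: the probabilistic estimate
-/

open scoped BigOperators Topology ENNReal NNReal
open Set Filter MeasureTheory

namespace Q94.RL

/-- The level set `{2^{-(i+2)} < ‖t‖ ≤ 2^{-(i+1)}}`. -/
def lvl (i : ℕ) : Set T := Metric.closedBall 0 ((1 / 2) ^ (i + 1)) \ Metric.closedBall 0 ((1 / 2) ^ (i + 2))

lemma mem_lvl {i : ℕ} {t : T} : t ∈ lvl i ↔ ‖t‖ ≤ (1 / 2) ^ (i + 1) ∧ (1 / 2) ^ (i + 2) < ‖t‖ := by
  unfold lvl
  rw [Set.mem_sdiff, mem_closedBall_zero_iff, mem_closedBall_zero_iff, not_le]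

lemma measurableSet_lvl (i : ℕ) : MeasurableSet (lvl i) :=
  MeasurableSet.diff measurableSet_closedBall measurableSet_closedBall

lemma volume_ball (i : ℕ) : (volume : Measure T).real (Metric.closedBall 0 ((1 / 2) ^ (i + 1)))
    = (1 / 2) ^ i := by
  unfold Measure.real
  rw [AddCircle.volume_closedBall]
  have h1 : (2 : ℝ) * (1 / 2) ^ (i + 1) = (1 / 2) ^ i := by rw [pow_succ]; ring
  rw [h1, min_eq_right (pow_le_one₀ (by norm_num) (by norm_num)),
    ENNReal.toReal_ofReal (by positivity)]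

lemma volume_lvl (i : ℕ) : (volume : Measure T).real (lvl i) = (1 / 2) ^ (i + 1) := by
  unfold lvl
  rw [measureReal_sdiff _ measurableSet_closedBall, volume_ball, volume_ball]
  · rw [pow_succ]; ring
  · apply Metric.closedBall_subset_closedBall
    exact pow_le_pow_of_le_one (by norm_num) (by norm_num) (by omega)

lemma lvl_disjoint {i j : ℕ} (h : i < j) {t : T} (hi : t ∈ lvl i) (hj : t ∈ lvl j) : False := by
  rw [mem_lvl] at hi hj
  have : (1 / 2 : ℝ) ^ (j + 1) ≤ (1 / 2) ^ (i + 2) :=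
    pow_le_pow_of_le_one (by norm_num) (by norm_num) (by omega)
  linarith [hi.2, hj.1]

/-- The function `W`. -/
noncomputable def W (j : ℕ) (t : T) : ℝ :=
  ∑ i ∈ Finset.range (L j), (lvl i).indicator (fun _ => α j * 2 ^ (i + 1) / 54) t

lemma W_nonneg (j : ℕ) (t : T) : 0 ≤ W j t := by
  unfold W
  refine Finset.sum_nonneg fun i _ => ?_
  refine indicator_nonneg (fun _ _ => ?_) t
  have := α_nonneg j
  positivity

lemma W_of_mem {j i : ℕ} (hi : i < L j) {t : T} (ht : t ∈ lvl i) :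
    W j t = α j * 2 ^ (i + 1) / 54 := by
  unfold W
  rw [Finset.sum_eq_single_of_mem i (Finset.mem_range.2 hi)]
  · rw [indicator_of_mem ht]
  · intro k _ hk
    rw [indicator_of_notMem]
    intro hkt
    rcases lt_or_gt_of_ne hk with h | h
    · exact lvl_disjoint h hkt ht
    · exact lvl_disjoint h ht hkt

lemma W_of_notMem {j : ℕ} {t : T} (h : ∀ i < L j, t ∉ lvl i) : W j t = 0 := by
  unfold W
  exact Finset.sum_eq_zero fun i hi => indicator_of_notMem (h i (Finset.mem_range.1 hi)) _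

lemma W_le_one (j : ℕ) (t : T) : W j t ≤ 1 := by
  by_cases h : ∃ i < L j, t ∈ lvl i
  · obtain ⟨i, hi, ht⟩ := h
    rw [W_of_mem hi ht]
    have h1 : α j * 2 ^ (i + 1) ≤ α j * 2 ^ L j :=
      mul_le_mul_of_nonneg_left (pow_le_pow_right₀ (by norm_num) hi) (α_nonneg j)
    have h2 : α j * 2 ^ L j ≤ 1 := by
      have h3 := M_mul_α j
      unfold M at h3
      push_cast at h3
      rw [mul_comm, h3]
      exact pow_le_one₀ (by norm_num) (by norm_num)
    rw [div_le_one (by norm_num)]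
    linarith
  · push Not at h
    rw [W_of_notMem h]; norm_num

lemma measurable_W (j : ℕ) : Measurable (W j) := by
  unfold W
  exact Finset.measurable_fun_sum _ fun i _ => measurable_const.indicator (measurableSet_lvl i)

lemma integrable_W (j : ℕ) : Integrable (W j) (volume : Measure T) :=
  Integrable.of_bound (measurable_W j).aestronglyMeasurable 1 (Eventually.of_forall fun t => by
    rw [Real.norm_eq_abs, abs_of_nonneg (W_nonneg j t)]; exact W_le_one j t)

lemma integral_W (j : ℕ) : ∫ t, W j t = α j * L j / 54 := by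
  unfold W
  rw [integral_finsetSum]
  · have h1 : ∀ i ∈ Finset.range (L j),
        ∫ t, (lvl i).indicator (fun _ => α j * 2 ^ (i + 1) / 54) t = α j / 54 := by
      intro i _
      rw [integral_indicator_const _ (measurableSet_lvl i), volume_lvl, smul_eq_mul]
      have : (1 / 2 : ℝ) ^ (i + 1) * 2 ^ (i + 1) = 1 := by rw [← mul_pow]; norm_num
      calc (1 / 2 : ℝ) ^ (i + 1) * (α j * 2 ^ (i + 1) / 54)
          = ((1 / 2 : ℝ) ^ (i + 1) * 2 ^ (i + 1)) * (α j / 54) := by ring
        _ = α j / 54 := by rw [this, one_mul]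
    rw [Finset.sum_congr rfl h1, Finset.sum_const, Finset.card_range, nsmul_eq_mul]
    ring
  · intro i _
    exact (integrable_const _).indicator (measurableSet_lvl i)

lemma exp_neg_le {x : ℝ} (h0 : 0 ≤ x) (h1 : x ≤ 1) : Real.exp (-x) ≤ 1 - x / 2 := by
  rw [Real.exp_neg, inv_le_comm₀ (Real.exp_pos _) (by linarith)]
  have h2 := Real.add_one_le_exp x
  refine le_trans ?_ h2
  rw [inv_le_iff_one_le_mul₀ (by linarith)]
  nlinarith

lemma integral_exp_W (j : ℕ) : ∫ t, Real.exp (-W j t) ≤ Real.exp (-(α j * L j / 108)) := by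
  calc ∫ t, Real.exp (-W j t) ≤ ∫ t, (1 - W j t / 2) := by
        refine integral_mono ?_ ?_ fun t => exp_neg_le (W_nonneg j t) (W_le_one j t)
        · refine Integrable.of_bound ((measurable_W j).neg.exp).aestronglyMeasurable 1
            (Eventually.of_forall fun t => ?_)
          rw [Real.norm_eq_abs, abs_of_pos (Real.exp_pos _), Real.exp_le_one_iff]
          linarith [W_nonneg j t]
        · exact (integrable_const _).sub ((integrable_W j).div_const 2)
    _ = 1 - α j * L j / 108 := by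
        rw [integral_sub (integrable_const _) ((integrable_W j).div_const 2), integral_div,
          integral_W]
        simp
        ring
    _ ≤ _ := by
        have := Real.add_one_le_exp (-(α j * L j / 108))
        linarith

lemma mp_nsmul {q : ℕ} (hq : 0 < q) :
    MeasurePreserving (fun t : T => q • t) (volume : Measure T) volume := by
  rcases Nat.lt_or_ge 1 q with h | h
  · exact (AddCircle.ergodic_nsmul h).toMeasurePreserving
  · have : q = 1 := by omega
    subst this
    simp only [one_smul]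
    exact MeasurePreserving.id _

/-- The block of indices. -/
def B (j : ℕ) : Finset ℕ := Finset.Ico (N j) (N (j + 1))

lemma card_B (j : ℕ) : (B j).card = M j := by
  unfold B
  rw [Nat.card_Ico, N_succ, Nat.add_sub_cancel_left]

/-- The sum over the block. -/
noncomputable def SW (j : ℕ) (x : Ω) : ℝ := ∑ n ∈ B j, W j (qq n • x n)

lemma measurable_SW (j : ℕ) : Measurable (SW j) := by
  unfold SW
  refine Finset.measurable_fun_sum _ fun n _ => ?_
  exact (measurable_W j).comp ((mp_nsmul (qq_pos n)).measurable.comp (measurable_pi_apply n))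

lemma integral_exp_SW (j : ℕ) : ∫ x, Real.exp (-SW j x) ∂m ≤ Real.exp (-(j + 1)) := by
  have h1 : ∀ x, Real.exp (-SW j x)
      = ∏ n ∈ B j, (fun n t => Real.exp (-W j (qq n • t))) n (x n) := by
    intro x
    unfold SW
    rw [← Finset.sum_neg_distrib, Real.exp_sum]
  rw [integral_congr_ae (Eventually.of_forall h1),
    integral_prod (B j) (fun n t => Real.exp (-W j (qq n • t))) (fun n =>
      ((measurable_W j).comp (mp_nsmul (qq_pos n)).measurable).neg.exp)]
  have h2 : ∀ n ∈ B j, ∫ t : T, Real.exp (-W j (qq n • t)) = ∫ t, Real.exp (-W j t) := by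
    intro n _
    have h3 := integral_map (μ := (volume : Measure T)) (φ := fun t : T => qq n • t)
      (mp_nsmul (qq_pos n)).measurable.aemeasurable (f := fun t => Real.exp (-W j t))
      ((measurable_W j).neg.exp).aestronglyMeasurable
    rw [(mp_nsmul (qq_pos n)).map_eq] at h3
    exact h3.symm
  rw [Finset.prod_congr rfl h2, Finset.prod_const, card_B]
  have h4 : (0 : ℝ) ≤ ∫ t, Real.exp (-W j t) := integral_nonneg fun t => (Real.exp_pos _).le
  refine (pow_le_pow_left₀ h4 (integral_exp_W j) (M j)).trans ?_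
  rw [← Real.exp_nat_mul]
  apply le_of_eq
  congr 1
  have h5 := M_mul_α j
  have h6 : (M j : ℝ) * -(α j * L j / 108) = -((M j : ℝ) * α j * L j / 108) := by ring
  rw [h6, h5]
  unfold L
  push_cast
  have h7 : (1 / 4 : ℝ) ^ j * 4 ^ j = 1 := by rw [← mul_pow]; norm_num
  calc -((1 / 4 : ℝ) ^ j * (108 * (j + 1) * 4 ^ j) / 108)
      = -(((1 / 4 : ℝ) ^ j * 4 ^ j) * (j + 1)) := by ring
    _ = -(j + 1) := by rw [h7, one_mul]

/-- The bad event of block `j`. -/
def Bad (j : ℕ) : Set Ω := {x | SW j x ≤ 1}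

lemma measure_Bad (j : ℕ) : m (Bad j) ≤ ENNReal.ofReal (Real.exp (-j)) := by
  have h1 : Integrable (fun x => Real.exp (-SW j x)) m := by
    refine Integrable.of_bound ((measurable_SW j).neg.exp).aestronglyMeasurable 1
      (Eventually.of_forall fun x => ?_)
    rw [Real.norm_eq_abs, abs_of_pos (Real.exp_pos _), Real.exp_le_one_iff, neg_nonpos]
    exact Finset.sum_nonneg fun n _ => W_nonneg _ _
  have h2 := mul_meas_ge_le_integral_of_nonneg (μ := m)
    (Eventually.of_forall fun x => (Real.exp_pos (-SW j x)).le) h1 (Real.exp (-1))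
  have h3 : Bad j ⊆ {x | Real.exp (-1) ≤ Real.exp (-SW j x)} := by
    intro x hx
    rw [mem_ofPred_eq, Real.exp_le_exp]
    have : SW j x ≤ 1 := hx
    linarith
  have h4 : m.real (Bad j) ≤ Real.exp (-j) := by
    have h5 : m.real (Bad j) ≤ m.real {x | Real.exp (-1) ≤ Real.exp (-SW j x)} :=
      measureReal_mono h3
    have h6 := h2.trans (integral_exp_SW j)
    have h7 : Real.exp (-1) * Real.exp (-(j : ℝ)) = Real.exp (-((j : ℝ) + 1)) := by
      rw [← Real.exp_add]; congr 1; ring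
    rw [← h7] at h6
    exact h5.trans (le_of_mul_le_mul_left h6 (Real.exp_pos _))
  rw [← ofReal_measureReal (measure_ne_top _ _)]
  exact ENNReal.ofReal_le_ofReal h4

lemma ae_good : ∀ᵐ x ∂m, ∀ᶠ j in atTop, x ∉ Bad j := by
  refine ae_eventually_notMem ?_
  refine ne_of_lt (lt_of_le_of_lt (ENNReal.tsum_le_tsum measure_Bad) ?_)
  have h1 : ∀ j : ℕ, Real.exp (-j) = (Real.exp (-1)) ^ j := by
    intro j
    rw [← Real.exp_nat_mul]; congr 1; ring
  simp_rw [h1]
  rw [← ENNReal.ofReal_tsum_of_nonneg (fun j => by positivity)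
    (summable_geometric_of_lt_one (Real.exp_pos _).le (by rw [Real.exp_lt_one_iff]; norm_num))]
  exact ENNReal.ofReal_lt_top

/-! ### Choice of the levels -/

lemma norm_one_sub_e_le (t : T) : ‖1 - e t‖ ≤ 2 * Real.pi * ‖t‖ := by
  obtain ⟨x, hx, rfl⟩ : ∃ x : ℝ, ‖(x : T)‖ = |x| ∧ (x : T) = t := by
    obtain ⟨y, hy⟩ := QuotientAddGroup.mk_surjective t
    refine ⟨y - round y, ?_, ?_⟩
    · rw [AddCircle.norm_coe_eq_abs_iff (1 : ℝ) one_ne_zero, abs_one]
      exact abs_sub_round y
    · rw [← hy]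
      rw [AddCircle.coe_sub]
      have : ((round y : ℝ) : T) = 0 := by
        rw [AddCircle.coe_eq_zero_iff]
        exact ⟨round y, by simp⟩
      rw [this, sub_zero]
  rw [hx, e_coe]
  have h1 : Complex.exp (2 * Real.pi * x * Complex.I) = Complex.exp (Complex.I * ((2 * Real.pi * x : ℝ) : ℂ)) := by
    congr 1; push_cast; ring
  rw [norm_sub_rev, h1, Complex.norm_exp_I_mul_ofReal_sub_one, Real.norm_eq_abs, abs_mul]
  have h2 := Real.abs_sin_le_abs (x := 2 * Real.pi * x / 2)
  have h3 : |2 * Real.pi * x / 2| = Real.pi * |x| := by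
    rw [show 2 * Real.pi * x / 2 = Real.pi * x by ring, abs_mul, abs_of_pos Real.pi_pos]
  rw [h3] at h2
  norm_num
  linarith

lemma herg_lower {i : ℕ} {t : T} (ht : ‖t‖ ≤ (1 / 2) ^ (i + 1)) :
    2 ^ (i + 1) / 54 ≤ (1 - ρ i ^ 2) / ‖1 - (ρ i : ℂ) * e t‖ ^ 2 := by
  set δ : ℝ := (1 / 2) ^ (i + 1) with hδ
  have hδ0 : 0 < δ := by positivity
  have hρ : ρ i = 1 - δ := rfl
  have hρ0 := ρ_pos i
  have hρ1 := ρ_lt_one i
  have h1 : ‖1 - (ρ i : ℂ) * e t‖ ≤ δ * (1 + 2 * Real.pi) := by
    have h2 : (1 : ℂ) - (ρ i : ℂ) * e t = ((1 - ρ i : ℝ) : ℂ) + (ρ i : ℂ) * (1 - e t) := by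
      push_cast; ring
    rw [h2]
    refine (norm_add_le _ _).trans ?_
    rw [norm_mul, Complex.norm_real, Complex.norm_real, Real.norm_eq_abs, Real.norm_eq_abs,
      abs_of_pos (by linarith), abs_of_pos hρ0]
    have h3 := norm_one_sub_e_le t
    have h4 : ρ i * ‖1 - e t‖ ≤ 1 * (2 * Real.pi * δ) := by
      refine mul_le_mul hρ1.le (h3.trans ?_) (norm_nonneg _) (by norm_num)
      have := Real.pi_pos
      gcongr
    rw [hρ] at *
    linarith
  have hpos : 0 < ‖1 - (ρ i : ℂ) * e t‖ := by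
    rw [norm_pos_iff, sub_ne_zero]
    intro h
    have h2 : ‖(1 : ℂ)‖ = ‖(ρ i : ℂ) * e t‖ := by rw [← h]
    rw [norm_mul, norm_e, norm_one, mul_one, Complex.norm_real, Real.norm_eq_abs,
      abs_of_pos hρ0] at h2
    linarith
  have h2 : ‖1 - (ρ i : ℂ) * e t‖ ^ 2 ≤ δ ^ 2 * 54 := by
    refine (pow_le_pow_left₀ (norm_nonneg _) h1 2).trans ?_
    rw [mul_pow]
    refine mul_le_mul_of_nonneg_left ?_ (by positivity)
    have h3 := Real.pi_lt_d2
    have h4 := Real.pi_pos
    nlinarith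
  have h3 : δ ≤ 1 - ρ i ^ 2 := by rw [hρ]; nlinarith
  have h5 : (2 : ℝ) ^ (i + 1) = 1 / δ := by
    rw [hδ, one_div_pow, one_div_one_div]
  calc (2 : ℝ) ^ (i + 1) / 54 = δ / (δ ^ 2 * 54) := by rw [h5]; field_simp
    _ ≤ (1 - ρ i ^ 2) / ‖1 - (ρ i : ℂ) * e t‖ ^ 2 :=
      div_le_div₀ (by nlinarith) h3 (by positivity) h2

/-- Existence of good levels. -/
lemma exists_level (j : ℕ) (t : T) : ∃ i < L j,
    W j t ≤ α j * ((1 - ρ i ^ 2) / ‖1 - (ρ i : ℂ) * e t‖ ^ 2) := by
  by_cases h : ∃ i < L j, t ∈ lvl i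
  · obtain ⟨i, hi, ht⟩ := h
    refine ⟨i, hi, ?_⟩
    rw [W_of_mem hi ht, mul_div_assoc]
    exact mul_le_mul_of_nonneg_left (herg_lower (mem_lvl.1 ht).1) (α_nonneg j)
  · push Not at h
    refine ⟨0, L_pos j, ?_⟩
    rw [W_of_notMem h]
    refine mul_nonneg (α_nonneg j) (div_nonneg ?_ (by positivity))
    have h1 := ρ_pos 0
    have h2 := ρ_lt_one 0
    nlinarith

/-- The chosen level. -/
noncomputable def lev (j : ℕ) (t : T) : ℕ := Classical.choose (exists_level j t)

lemma lev_lt (j : ℕ) (t : T) : lev j t < L j := (Classical.choose_spec (exists_level j t)).1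

lemma lev_spec (j : ℕ) (t : T) :
    W j t ≤ α j * ((1 - ρ (lev j t) ^ 2) / ‖1 - (ρ (lev j t) : ℂ) * e t‖ ^ 2) :=
  (Classical.choose_spec (exists_level j t)).2

/-- The levels attached to a point. -/
noncomputable def lv (j : ℕ) (θ : Ω) (n : ℕ) : ℕ := lev j (qq n • θ n)

lemma adm_lv (j : ℕ) (θ : Ω) : Adm j (lv j θ) := fun _ _ _ => lev_lt _ _

/-- On the good event the Poisson integral is small. -/
lemma radial_small {j : ℕ} {θ : Ω} (hθ : θ ∉ Bad j) {c : ℕ → ℕ}
    (hc : ∀ n, N j ≤ n → n < N (j + 1) → c n = lv j θ n) :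
    ‖radial (f aa qq N) (rad j c) θ‖ ≤ Real.exp (-1) := by
  have h1 := norm_radial_le data (rad_nonneg j c) (rad_lt_one j c) (rad_finite j c) θ (B j)
  refine h1.trans ?_
  have h2 : ∀ n ∈ B j, ‖g (aa n) (qq n) (rad j c n * e (θ n))‖ ≤ Real.exp (-W j (qq n • θ n)) := by
    intro n hn
    unfold B at hn
    rw [Finset.mem_Ico] at hn
    have hr : rad j c n = ρ (lev j (qq n • θ n)) ^ (1 / (qq n : ℝ)) := by
      unfold rad
      rw [if_neg (by omega), if_pos hn.2, hc n hn.1 hn.2, lv]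
    have hpow : ((rad j c n : ℂ) * e (θ n)) ^ qq n
        = (ρ (lev j (qq n • θ n)) : ℂ) * e (qq n • θ n) := by
      rw [mul_pow, e_nsmul, hr]
      congr 1
      rw [← Complex.ofReal_pow, ← Real.rpow_natCast, ← Real.rpow_mul (ρ_pos _).le,
        one_div_mul_cancel (by exact_mod_cast (qq_pos n).ne'), Real.rpow_one]
    rw [norm_g, hpow, Real.exp_le_exp, neg_le_neg_iff, norm_mul, norm_e, mul_one,
      Complex.norm_real, Real.norm_eq_abs, sq_abs, aa_eq hn.1 hn.2]
    exact lev_spec j _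
  refine (Finset.prod_le_prod (fun n _ => norm_nonneg _) h2).trans ?_
  rw [← Real.exp_sum, Real.exp_le_exp, Finset.sum_neg_distrib, neg_le_neg_iff]
  have : ¬ SW j θ ≤ 1 := hθ
  unfold SW at this
  linarith

end Q94.RL
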