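import Pool.Agent.Q94.RLD

/-!
# Radial limits: the two theorems
-/

open scoped BigOperators Topology ENNReal NNReal
open Set Filter MeasureTheory

namespace Q94.RL

/-- Approaches depending on the point. -/
theorem main_dep : ∃ f : Ω → ℂ, MemHinf f ∧ ∀ᵐ θ ∂m, ∃ r : ℕ → ℕ → ℝ,
    (∀ k n, 0 ≤ r k n ∧ r k n < 1) ∧ (∀ k, {n | r k n ≠ 0}.Finite) ∧
    (∀ n, Monotone fun k => r k n) ∧ (∀ n, Tendsto (fun k => r k n) atTop (𝓝 1)) ∧
    (∀ k, Antitone (r k)) ∧
    ¬ Tendsto (fun k => radial f (r k) θ) atTop (𝓝 (f θ)) := by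
  refine ⟨f aa qq N, memHinf_f data, ?_⟩
  filter_upwards [ae_norm_f data, ae_good] with θ hθ1 hθ2
  refine ⟨fun k => rad k (lv k θ), fun k n => ⟨rad_nonneg _ _ _, rad_lt_one _ _ _⟩,
    fun k => rad_finite _ _, fun n => ?_, fun n => ?_, fun k => rad_antitone (adm_lv k θ), ?_⟩
  · exact monotone_nat_of_le_succ fun k => rad_mono (adm_lv k θ) n
  · refine tendsto_R.congr' ?_
    filter_upwards [eventually_gt_atTop n] with k hk
    have h1 : n < N k := lt_of_lt_of_le hk (N_strictMono.id_le k)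
    unfold rad
    rw [if_pos h1]
  · intro hcon
    have h1 := hcon.norm
    rw [hθ1] at h1
    have h2 : ∀ᶠ k in atTop, ‖radial (f aa qq N) (rad k (lv k θ)) θ‖ ≤ Real.exp (-1) := by
      filter_upwards [hθ2] with k hk
      exact radial_small hk fun _ _ _ => rfl
    have h3 := le_of_tendsto h1 h2
    have h4 : Real.exp (-1) < 1 := by rw [Real.exp_lt_one_iff]; norm_num
    linarith

/-- Index type for the point-independent approach. -/
abbrev Idx : Type := Σ j : ℕ, (Fin (M j) → Fin (L j))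

instance (j : ℕ) : Nonempty (Fin (M j) → Fin (L j)) := ⟨fun _ => ⟨0, L_pos j⟩⟩

instance : Infinite Idx :=
  Infinite.of_injective (fun j : ℕ => (⟨j, Classical.arbitrary _⟩ : Idx)) fun _ _ h =>
    congrArg Sigma.fst h

/-- Levels of an index. -/
def lvI (v : Idx) (n : ℕ) : ℕ :=
  if h : N v.1 ≤ n ∧ n < N (v.1 + 1) then
    (v.2 ⟨n - N v.1, by have := N_succ v.1; omega⟩ : ℕ)
  else 0

lemma adm_lvI (v : Idx) : Adm v.1 (lvI v) := by
  intro n h1 h2
  unfold lvI
  rw [dif_pos ⟨h1, h2⟩]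
  exact (v.2 _).2

/-- The index of a point. -/
noncomputable def idx (j : ℕ) (θ : Ω) : Idx :=
  ⟨j, fun l => ⟨lv j θ (N j + l), lev_lt _ _⟩⟩

lemma lvI_idx (j : ℕ) (θ : Ω) (n : ℕ) (h1 : N j ≤ n) (h2 : n < N (j + 1)) :
    lvI (idx j θ) n = lv j θ n := by
  unfold lvI idx
  simp only
  rw [dif_pos ⟨h1, h2⟩]
  congr 1
  omega

/-- A single approach. -/
theorem main_indep : ∃ f : Ω → ℂ, MemHinf f ∧ ∃ r : ℕ → ℕ → ℝ,
    (∀ k n, 0 ≤ r k n ∧ r k n < 1) ∧ (∀ k, {n | r k n ≠ 0}.Finite) ∧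
    (∀ n, Tendsto (fun k => r k n) atTop (𝓝 1)) ∧ (∀ k, Antitone (r k)) ∧
    ∀ᵐ θ ∂m, ¬ Tendsto (fun k => radial f (r k) θ) atTop (𝓝 (f θ)) := by
  obtain ⟨E⟩ : Nonempty (ℕ ≃ Idx) := nonempty_equiv_of_countable
  refine ⟨f aa qq N, memHinf_f data, fun k => rad (E k).1 (lvI (E k)),
    fun k n => ⟨rad_nonneg _ _ _, rad_lt_one _ _ _⟩, fun k => rad_finite _ _, fun n => ?_,
    fun k => rad_antitone (adm_lvI _), ?_⟩
  · have h1 : Tendsto (fun k => (E k).1) atTop atTop := by
      rw [tendsto_atTop]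
      intro J
      rw [← Nat.cofinite_eq_atTop, Filter.eventually_cofinite]
      have h2 : {k | ¬ J ≤ (E k).1} ⊆ E ⁻¹' (((Finset.range J).sigma fun j =>
          (Finset.univ : Finset (Fin (M j) → Fin (L j)))) : Finset Idx) := by
        intro k hk
        simp only [mem_preimage, Finset.mem_coe, Finset.mem_sigma, Finset.mem_range,
          Finset.mem_univ, and_true]
        exact not_le.1 hk
      exact (Set.Finite.preimage E.injective.injOn (Finset.finite_toSet _)).subset h2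
    refine (tendsto_R.comp h1).congr' ?_
    filter_upwards [h1.eventually_gt_atTop n] with k hk
    have h2 : n < N (E k).1 := lt_of_lt_of_le hk (N_strictMono.id_le _)
    unfold rad
    rw [if_pos h2]
    rfl
  · filter_upwards [ae_norm_f data, ae_good] with θ hθ1 hθ2 hcon
    have hinj : Function.Injective fun j => E.symm (idx j θ) := by
      intro i j h
      have := E.symm.injective h
      exact congrArg Sigma.fst this
    have h0 := hcon.comp hinj.nat_tendsto_atTop
    have h1 := h0.norm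
    rw [hθ1] at h1
    have h2 : ∀ᶠ j in atTop, ‖((fun k => radial (f aa qq N) (rad (E k).1 (lvI (E k))) θ) ∘
        fun j => E.symm (idx j θ)) j‖ ≤ Real.exp (-1) := by
      filter_upwards [hθ2] with j hj
      simp only [Function.comp_apply, Equiv.apply_symm_apply]
      exact radial_small hj fun n hn1 hn2 => lvI_idx j θ n hn1 hn2
    have h3 := le_of_tendsto h1 h2
    have h4 : Real.exp (-1) < 1 := by rw [Real.exp_lt_one_iff]; norm_num
    linarith

end Q94.RL
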