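import Mathlib

/-!
The one-dimensional profile: a `C^2` function `U` with compact support in `(0, 4)`,
`|U'' - U| <= 1`, `|U'| <= 1`, and `U(t) > t^2 / 2` by a fixed factor on an interval.
-/

open Set Filter Topology Asymptotics

namespace Q94.RN

/-- truncated linear function -/
noncomputable def pp (a t : ℝ) : ℝ := max (t - a) 0

theorem pp_of_le {a t : ℝ} (h : t ≤ a) : pp a t = 0 := max_eq_right (by linarith)
theorem pp_of_ge {a t : ℝ} (h : a ≤ t) : pp a t = t - a := max_eq_left (by linarith)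
theorem pp_nonneg (a t : ℝ) : 0 ≤ pp a t := le_max_right _ _
theorem pp_cont (a : ℝ) : Continuous (pp a) := by unfold pp; fun_prop

theorem pp_pow_deriv (m : ℕ) (hm : 1 ≤ m) (a t : ℝ) :
    HasDerivAt (fun s => pp a s ^ (m + 1)) ((m + 1) * pp a t ^ m) t := by
  rcases lt_trichotomy t a with h | h | h
  · rw [pp_of_le h.le, zero_pow (by omega), mul_zero]
    refine (hasDerivAt_const t (0 : ℝ)).congr_of_eventuallyEq ?_
    filter_upwards [Iio_mem_nhds h] with s hs
    rw [pp_of_le (le_of_lt hs), zero_pow (by omega)]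
  · subst h
    rw [pp_of_le le_rfl, zero_pow (by omega), mul_zero]
    rw [hasDerivAt_iff_isLittleO]
    simp only [pp_of_le (le_refl t), smul_zero, sub_zero]
    rw [zero_pow (by omega)]
    simp only [sub_zero]
    refine (IsBigO.of_bound 1 ?_).trans_isLittleO
      (isLittleO_pow_sub_sub t (m := m + 1) (by omega))
    filter_upwards with s
    rw [Real.norm_eq_abs, abs_pow, abs_of_nonneg (pp_nonneg t s), one_mul, norm_pow, norm_norm,
      Real.norm_eq_abs]
    refine pow_le_pow_left₀ (pp_nonneg t s) ?_ _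
    unfold pp
    exact max_le (le_abs_self _) (abs_nonneg _)
  · have h1 : HasDerivAt (fun s => (s - a) ^ (m + 1)) ((m + 1) * pp a t ^ m) t := by
      rw [pp_of_ge h.le]
      refine HasDerivAt.congr_deriv (((hasDerivAt_id t).sub_const a).pow (m + 1)) ?_
      simp
    refine h1.congr_of_eventuallyEq ?_
    filter_upwards [Ioi_mem_nhds h] with s hs
    rw [pp_of_ge (le_of_lt hs)]

theorem pp_right_deriv (a t : ℝ) :
    HasDerivWithinAt (pp a) (if a ≤ t then 1 else 0) (Ici t) t := by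
  split_ifs with h
  · have h1 : HasDerivWithinAt (fun s => s - a) 1 (Ici t) t :=
      ((hasDerivAt_id t).sub_const a).hasDerivWithinAt
    refine h1.congr (fun s hs => pp_of_ge (le_trans h hs)) (pp_of_ge h)
  · push Not at h
    have : HasDerivAt (pp a) 0 t := by
      refine (hasDerivAt_const t (0 : ℝ)).congr_of_eventuallyEq ?_
      filter_upwards [Iio_mem_nhds h] with s hs
      exact pp_of_le (le_of_lt hs)
    exact this.hasDerivWithinAt

noncomputable def vf (t : ℝ) : ℝ :=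
  (if (0 : ℝ) ≤ t then 1 else 0) + (1 / 32) * (if (1 / 4 : ℝ) ≤ t then 1 else 0)
  - (45 / 32) * (if (1 / 2 : ℝ) ≤ t then 1 else 0)
  + (45 / 32) * (if (77 / 24 : ℝ) ≤ t then 1 else 0)
  - (1 / 32) * (if (83 / 24 : ℝ) ≤ t then 1 else 0) - (if (89 / 24 : ℝ) ≤ t then 1 else 0)

noncomputable def v1 (t : ℝ) : ℝ :=
  pp 0 t + (1 / 32) * pp (1 / 4) t - (45 / 32) * pp (1 / 2) t + (45 / 32) * pp (77 / 24) t
  - (1 / 32) * pp (83 / 24) t - pp (89 / 24) t

noncomputable def vv (t : ℝ) : ℝ :=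
  (pp 0 t ^ 2 + (1 / 32) * pp (1 / 4) t ^ 2 - (45 / 32) * pp (1 / 2) t ^ 2
  + (45 / 32) * pp (77 / 24) t ^ 2 - (1 / 32) * pp (83 / 24) t ^ 2 - pp (89 / 24) t ^ 2) / 2

noncomputable def ww (t : ℝ) : ℝ :=
  (pp 0 t ^ 3 + (1 / 32) * pp (1 / 4) t ^ 3 - (45 / 32) * pp (1 / 2) t ^ 3
  + (45 / 32) * pp (77 / 24) t ^ 3 - (1 / 32) * pp (83 / 24) t ^ 3 - pp (89 / 24) t ^ 3) / 6

theorem ww_deriv (t : ℝ) : HasDerivAt ww (vv t) t := by
  have h := fun a => pp_pow_deriv 2 (by norm_num) a t
  have := ((((((h 0).add ((h (1 / 4)).const_mul (1 / 32))).sub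
    ((h (1 / 2)).const_mul (45 / 32))).add ((h (77 / 24)).const_mul (45 / 32))).sub
    ((h (83 / 24)).const_mul (1 / 32))).sub (h (89 / 24))).div_const 6
  refine this.congr_deriv ?_
  unfold vv
  push_cast
  ring

theorem vv_deriv (t : ℝ) : HasDerivAt vv (v1 t) t := by
  have h := fun a => pp_pow_deriv 1 (by norm_num) a t
  have := ((((((h 0).add ((h (1 / 4)).const_mul (1 / 32))).sub
    ((h (1 / 2)).const_mul (45 / 32))).add ((h (77 / 24)).const_mul (45 / 32))).sub
    ((h (83 / 24)).const_mul (1 / 32))).sub (h (89 / 24))).div_const 2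
  refine this.congr_deriv ?_
  unfold v1
  push_cast
  ring

theorem v1_right (t : ℝ) : HasDerivWithinAt v1 (vf t) (Ici t) t := by
  have h := fun a => pp_right_deriv a t
  exact (((((h 0).add ((h (1 / 4)).const_mul (1 / 32))).sub
    ((h (1 / 2)).const_mul (45 / 32))).add ((h (77 / 24)).const_mul (45 / 32))).sub
    ((h (83 / 24)).const_mul (1 / 32))).sub (h (89 / 24))

theorem v1_cont : Continuous v1 := by
  unfold v1
  have := pp_cont
  fun_prop

/-- Case distinction. -/
theorem cases (t : ℝ) :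
    (t < 0 ∧ vf t = 0 ∧ v1 t = 0 ∧ vv t = 0) ∨
    ((0 ≤ t ∧ t < 1 / 4) ∧ vf t = 1 ∧ v1 t = t ∧ vv t = t ^ 2 / 2) ∨
    ((1 / 4 ≤ t ∧ t < 1 / 2) ∧ vf t = 33 / 32 ∧ v1 t = t + (t - 1 / 4) / 32 ∧
      vv t = t ^ 2 / 2 + (t - 1 / 4) ^ 2 / 64) ∨
    ((1 / 2 ≤ t ∧ t < 77 / 24) ∧ vf t = -3 / 8 ∧ v1 t = 65 / 128 - 3 / 8 * (t - 1 / 2) ∧
      vv t = 129 / 1024 + 65 / 128 * (t - 1 / 2) - 3 / 16 * (t - 1 / 2) ^ 2) ∨
    ((77 / 24 ≤ t ∧ t < 83 / 24) ∧ vf t = 33 / 32 ∧
      v1 t = -(89 / 24 - t) - (83 / 24 - t) / 32 ∧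
      vv t = (89 / 24 - t) ^ 2 / 2 + (83 / 24 - t) ^ 2 / 64) ∨
    ((83 / 24 ≤ t ∧ t < 89 / 24) ∧ vf t = 1 ∧ v1 t = -(89 / 24 - t) ∧
      vv t = (89 / 24 - t) ^ 2 / 2) ∨
    (89 / 24 ≤ t ∧ vf t = 0 ∧ v1 t = 0 ∧ vv t = 0) := by
  unfold vf v1 vv
  rcases lt_or_ge t 0 with h0 | h0
  · left
    rw [if_neg (by linarith), if_neg (by linarith), if_neg (by linarith), if_neg (by linarith),
      if_neg (by linarith), if_neg (by linarith), pp_of_le (by linarith), pp_of_le (by linarith),
      pp_of_le (by linarith), pp_of_le (by linarith), pp_of_le (by linarith),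
      pp_of_le (by linarith)]
    refine ⟨h0, ?_, ?_, ?_⟩ <;> ring
  rcases lt_or_ge t (1 / 4) with h1 | h1
  · right; left
    rw [if_pos (by linarith), if_neg (by linarith), if_neg (by linarith), if_neg (by linarith),
      if_neg (by linarith), if_neg (by linarith), pp_of_ge (by linarith), pp_of_le (by linarith),
      pp_of_le (by linarith), pp_of_le (by linarith), pp_of_le (by linarith),
      pp_of_le (by linarith)]
    refine ⟨⟨h0, h1⟩, ?_, ?_, ?_⟩ <;> ring
  rcases lt_or_ge t (1 / 2) with h2 | h2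
  · right; right; left
    rw [if_pos (by linarith), if_pos (by linarith), if_neg (by linarith), if_neg (by linarith),
      if_neg (by linarith), if_neg (by linarith), pp_of_ge (by linarith), pp_of_ge (by linarith),
      pp_of_le (by linarith), pp_of_le (by linarith), pp_of_le (by linarith),
      pp_of_le (by linarith)]
    refine ⟨⟨h1, h2⟩, ?_, ?_, ?_⟩ <;> ring
  rcases lt_or_ge t (77 / 24) with h3 | h3
  · right; right; right; left
    rw [if_pos (by linarith), if_pos (by linarith), if_pos (by linarith), if_neg (by linarith),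
      if_neg (by linarith), if_neg (by linarith), pp_of_ge (by linarith), pp_of_ge (by linarith),
      pp_of_ge (by linarith), pp_of_le (by linarith), pp_of_le (by linarith),
      pp_of_le (by linarith)]
    refine ⟨⟨h2, h3⟩, ?_, ?_, ?_⟩ <;> ring
  rcases lt_or_ge t (83 / 24) with h4 | h4
  · right; right; right; right; left
    rw [if_pos (by linarith), if_pos (by linarith), if_pos (by linarith), if_pos (by linarith),
      if_neg (by linarith), if_neg (by linarith), pp_of_ge (by linarith), pp_of_ge (by linarith),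
      pp_of_ge (by linarith), pp_of_ge (by linarith), pp_of_le (by linarith),
      pp_of_le (by linarith)]
    refine ⟨⟨h3, h4⟩, ?_, ?_, ?_⟩ <;> ring
  rcases lt_or_ge t (89 / 24) with h5 | h5
  · right; right; right; right; right; left
    rw [if_pos (by linarith), if_pos (by linarith), if_pos (by linarith), if_pos (by linarith),
      if_pos (by linarith), if_neg (by linarith), pp_of_ge (by linarith), pp_of_ge (by linarith),
      pp_of_ge (by linarith), pp_of_ge (by linarith), pp_of_ge (by linarith),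
      pp_of_le (by linarith)]
    refine ⟨⟨h4, h5⟩, ?_, ?_, ?_⟩ <;> ring
  · right; right; right; right; right; right
    rw [if_pos (by linarith), if_pos (by linarith), if_pos (by linarith), if_pos (by linarith),
      if_pos (by linarith), if_pos (by linarith), pp_of_ge (by linarith), pp_of_ge (by linarith),
      pp_of_ge (by linarith), pp_of_ge (by linarith), pp_of_ge (by linarith),
      pp_of_ge (by linarith)]
    refine ⟨h5, ?_, ?_, ?_⟩ <;> ring

theorem vf_sub (t : ℝ) : |vf t - vv t| ≤ 1 := by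
  rw [abs_le]
  rcases cases t with ⟨h, a, b, c⟩ | ⟨h, a, b, c⟩ | ⟨h, a, b, c⟩ | ⟨h, a, b, c⟩ | ⟨h, a, b, c⟩ |
    ⟨h, a, b, c⟩ | ⟨h, a, b, c⟩ <;> rw [a, c]
  · constructor <;> norm_num
  · obtain ⟨h1, h2⟩ := h
    constructor <;> nlinarith
  · obtain ⟨h1, h2⟩ := h
    constructor <;> nlinarith
  · obtain ⟨h1, h2⟩ := h
    constructor
    · nlinarith [sq_nonneg (t - 1 / 2 - 65 / 48)]
    · nlinarith
  · obtain ⟨h1, h2⟩ := h
    constructor <;> nlinarith
  · obtain ⟨h1, h2⟩ := h
    constructor <;> nlinarith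
  · constructor <;> norm_num

theorem v1_bd (t : ℝ) : |v1 t| ≤ 1 := by
  rw [abs_le]
  rcases cases t with ⟨h, a, b, c⟩ | ⟨h, a, b, c⟩ | ⟨h, a, b, c⟩ | ⟨h, a, b, c⟩ | ⟨h, a, b, c⟩ |
    ⟨h, a, b, c⟩ | ⟨h, a, b, c⟩ <;> rw [b]
  · constructor <;> norm_num
  · obtain ⟨h1, h2⟩ := h
    constructor <;> linarith
  · obtain ⟨h1, h2⟩ := h
    constructor <;> linarith
  · obtain ⟨h1, h2⟩ := h
    constructor <;> linarith
  · obtain ⟨h1, h2⟩ := h
    constructor <;> linarith
  · obtain ⟨h1, h2⟩ := h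
    constructor <;> linarith
  · constructor <;> norm_num

/-- `V' - W` is `1`-Lipschitz. -/
theorem dd_lip {s t : ℝ} (h : s ≤ t) : |(v1 t - ww t) - (v1 s - ww s)| ≤ t - s := by
  have := norm_image_sub_le_of_norm_deriv_right_le_segment (f := fun t => v1 t - ww t)
    (f' := fun t => vf t - vv t) (C := 1) (a := s) (b := t)
    ((v1_cont.sub (continuous_iff_continuousAt.mpr fun x => (ww_deriv x).continuousAt)).continuousOn)
    (fun x _ => (v1_right x).sub (ww_deriv x).hasDerivWithinAt)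
    (fun x _ => by rw [Real.norm_eq_abs]; exact vf_sub x) t ⟨h, le_rfl⟩
  rw [Real.norm_eq_abs, one_mul] at this
  exact this

/-- `V` is `1`-Lipschitz. -/
theorem vv_lip {s t : ℝ} (h : s ≤ t) : |vv t - vv s| ≤ t - s := by
  have := norm_image_sub_le_of_norm_deriv_right_le_segment (f := vv)
    (f' := v1) (C := 1) (a := s) (b := t)
    ((continuous_iff_continuousAt.mpr fun x => (vv_deriv x).continuousAt).continuousOn)
    (fun x _ => (vv_deriv x).hasDerivWithinAt)
    (fun x _ => by rw [Real.norm_eq_abs]; exact v1_bd x) t ⟨h, le_rfl⟩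
  rw [Real.norm_eq_abs, one_mul] at this
  exact this

theorem ww_left {t : ℝ} (h : t ≤ 0) : ww t = 0 := by
  unfold ww
  rw [pp_of_le (by linarith), pp_of_le (by linarith), pp_of_le (by linarith),
    pp_of_le (by linarith), pp_of_le (by linarith), pp_of_le (by linarith)]
  ring

theorem ww_right {t : ℝ} (h : 89 / 24 ≤ t) : ww t = ww (89 / 24) := by
  unfold ww
  rw [pp_of_ge (by linarith), pp_of_ge (by linarith), pp_of_ge (by linarith),
    pp_of_ge (by linarith), pp_of_ge (by linarith), pp_of_ge (by linarith),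
    pp_of_ge (by norm_num), pp_of_ge (by norm_num), pp_of_ge (by norm_num),
    pp_of_ge (by norm_num), pp_of_ge (by norm_num), pp_of_ge (by norm_num)]
  ring

theorem profile : ∃ U U1 U2 : ℝ → ℝ, Continuous U2 ∧ (∀ t, HasDerivAt U (U1 t) t) ∧
    (∀ t, HasDerivAt U1 (U2 t) t) ∧ (∀ t, t ≤ 1 / 10000 → U t = 0) ∧
    (∀ t, 4 ≤ t → U t = 0) ∧ (∀ t, |U2 t - U t| ≤ 1) ∧ (∀ t, |U1 t| ≤ 1) ∧
    (∀ t, 23 / 50 ≤ t → t ≤ 1 / 2 → 201 / 400 * t ^ 2 ≤ U t) := by
  refine ⟨fun t => 10000 * (ww (t - 1 / 10000) - ww (t - 2 / 10000)),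
    fun t => 10000 * (vv (t - 1 / 10000) - vv (t - 2 / 10000)),
    fun t => 10000 * (v1 (t - 1 / 10000) - v1 (t - 2 / 10000)), ?_, ?_, ?_, ?_, ?_, ?_, ?_, ?_⟩
  · have := v1_cont
    fun_prop
  · intro t
    have h1 : HasDerivAt (fun t => ww (t - 1 / 10000)) (vv (t - 1 / 10000)) t :=
      HasDerivAt.comp_sub_const t _ (ww_deriv _)
    have h2 : HasDerivAt (fun t => ww (t - 2 / 10000)) (vv (t - 2 / 10000)) t :=
      HasDerivAt.comp_sub_const t _ (ww_deriv _)
    exact (h1.sub h2).const_mul _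
  · intro t
    have h1 : HasDerivAt (fun t => vv (t - 1 / 10000)) (v1 (t - 1 / 10000)) t :=
      HasDerivAt.comp_sub_const t _ (vv_deriv _)
    have h2 : HasDerivAt (fun t => vv (t - 2 / 10000)) (v1 (t - 2 / 10000)) t :=
      HasDerivAt.comp_sub_const t _ (vv_deriv _)
    exact (h1.sub h2).const_mul _
  · intro t ht
    simp only
    rw [ww_left (by linarith), ww_left (by linarith)]
    ring
  · intro t ht
    simp only
    rw [ww_right (t := t - 1 / 10000) (by linarith), ww_right (t := t - 2 / 10000) (by linarith)]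
    ring
  · intro t
    have := dd_lip (s := t - 2 / 10000) (t := t - 1 / 10000) (by linarith)
    simp only
    have e : 10000 * (v1 (t - 1 / 10000) - v1 (t - 2 / 10000)) -
        10000 * (ww (t - 1 / 10000) - ww (t - 2 / 10000)) =
        10000 * ((v1 (t - 1 / 10000) - ww (t - 1 / 10000)) -
          (v1 (t - 2 / 10000) - ww (t - 2 / 10000))) := by ring
    rw [e, abs_mul, abs_of_nonneg (by norm_num : (0 : ℝ) ≤ 10000)]
    linarith
  · intro t
    have := vv_lip (s := t - 2 / 10000) (t := t - 1 / 10000) (by linarith)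
    simp only
    rw [abs_mul, abs_of_nonneg (by norm_num : (0 : ℝ) ≤ 10000)]
    linarith
  · intro t h1 h2
    simp only
    obtain ⟨ξ, ⟨hξ1, hξ2⟩, hξ⟩ := exists_hasDerivAt_eq_slope ww vv
      (show t - 2 / 10000 < t - 1 / 10000 by linarith)
      (continuous_iff_continuousAt.mpr fun x => (ww_deriv x).continuousAt).continuousOn
      (fun x _ => ww_deriv x)
    have e : 10000 * (ww (t - 1 / 10000) - ww (t - 2 / 10000)) = vv ξ := by
      rw [hξ]
      have : t - 1 / 10000 - (t - 2 / 10000) = 1 / 10000 := by ring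
      rw [this]; ring
    rw [e]
    have hv : vv ξ = ξ ^ 2 / 2 + (ξ - 1 / 4) ^ 2 / 64 := by
      rcases cases ξ with ⟨h, a, b, c⟩ | ⟨h, a, b, c⟩ | ⟨h, a, b, c⟩ | ⟨h, a, b, c⟩ |
        ⟨h, a, b, c⟩ | ⟨h, a, b, c⟩ | ⟨h, a, b, c⟩
      · linarith
      · linarith [h.2]
      · exact c
      · linarith [h.1]
      · linarith [h.1]
      · linarith [h.1]
      · linarith
    rw [hv]
    nlinarith [mul_nonneg (sub_nonneg.mpr h1) (sub_nonneg.mpr h2)]

end Q94.RN
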