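import Mathlib

/-!
The Laplacian of `Re (z^l) G(|x|^2)` in `R^N`, where `z` is an isotropic linear form.
-/

open Set Filter Topology

namespace Q94.RN

theorem dir2 {N : ℕ} {W : EuclideanSpace ℝ (Fin N) → ℂ} (hW : ContDiff ℝ 2 W)
    (x v : EuclideanSpace ℝ (Fin N)) {φ1 : ℝ → ℂ} {d : ℂ}
    (h1 : ∀ t : ℝ, HasDerivAt (fun t : ℝ => W (x + t • v)) (φ1 t) t)
    (h2 : HasDerivAt φ1 d 0) : iteratedFDeriv ℝ 2 W x ![v, v] = d := by
  have hd : Differentiable ℝ W := hW.differentiable (by norm_num)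
  have line : ∀ t : ℝ, HasDerivAt (fun t : ℝ => x + t • v) v t := by
    intro t
    simpa using ((hasDerivAt_id t).smul_const v).const_add x
  have e1 : φ1 = fun t : ℝ => fderiv ℝ W (x + t • v) v := by
    funext t
    exact (h1 t).unique ((hd (x + t • v)).hasFDerivAt.comp_hasDerivAt t (line t))
  have hd2 : Differentiable ℝ (fderiv ℝ W) :=
    (hW.fderiv_right (m := 1) (by norm_num)).differentiable (by norm_num)
  have e2 : HasDerivAt (fun t : ℝ => fderiv ℝ W (x + t • v) v)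
      (fderiv ℝ (fderiv ℝ W) x v v) 0 := by
    have h3 : HasFDerivAt (fderiv ℝ W) (fderiv ℝ (fderiv ℝ W) x) (x + (0 : ℝ) • v) := by
      rw [zero_smul, add_zero]; exact (hd2 x).hasFDerivAt
    have h4 := h3.comp_hasDerivAt (0 : ℝ) (line 0)
    exact (ContinuousLinearMap.apply ℝ ℂ v).hasFDerivAt.comp_hasDerivAt (0 : ℝ) h4
  rw [iteratedFDeriv_two_apply]
  simp only [Matrix.cons_val_zero, Matrix.cons_val_one]
  rw [e1] at h2
  exact e2.unique h2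

/-- the linear form with coefficients `c` -/
noncomputable def lin {N : ℕ} (c : Fin N → ℂ) (x : EuclideanSpace ℝ (Fin N)) : ℂ :=
  ∑ i, c i * (x i : ℂ)

theorem lin_contDiff {N : ℕ} (c : Fin N → ℂ) : ContDiff ℝ 2 (lin c) := by
  unfold lin
  refine ContDiff.sum fun i _ => contDiff_const.mul ?_
  refine Complex.ofRealCLM.contDiff.comp ?_
  fun_prop

theorem lin_line {N : ℕ} (c : Fin N → ℂ) (x : EuclideanSpace ℝ (Fin N)) (i : Fin N) (t : ℝ) :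
    lin c (x + t • EuclideanSpace.single i (1 : ℝ)) = lin c x + t * c i := by
  unfold lin
  have : ∀ j, c j * (((x + t • EuclideanSpace.single i (1 : ℝ)) j : ℝ) : ℂ) =
      c j * (x j : ℂ) + (if j = i then t * c i else 0) := by
    intro j
    by_cases h : j = i
    · subst h
      simp
      ring
    · simp [h]
  rw [Finset.sum_congr rfl fun j _ => this j, Finset.sum_add_distrib]
  simp

theorem normSq_line {N : ℕ} (x : EuclideanSpace ℝ (Fin N)) (i : Fin N) (t : ℝ) :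
    ‖x + t • EuclideanSpace.single i (1 : ℝ)‖ ^ 2 = ‖x‖ ^ 2 + 2 * t * x i + t ^ 2 := by
  rw [norm_add_sq_real, inner_smul_right, norm_smul, EuclideanSpace.inner_single_right]
  simp
  ring

/-- The complex test function. -/
noncomputable def WW {N : ℕ} (c : Fin N → ℂ) (L : ℕ) (G : ℝ → ℝ)
    (x : EuclideanSpace ℝ (Fin N)) : ℂ :=
  lin c x ^ (L + 1) * ((G (‖x‖ ^ 2) : ℝ) : ℂ)

theorem WW_contDiff {N : ℕ} (c : Fin N → ℂ) (L : ℕ) {G : ℝ → ℝ} (hG : ContDiff ℝ 2 G) :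
    ContDiff ℝ 2 (WW (N := N) c L G) := by
  unfold WW
  refine ((lin_contDiff c).pow _).mul ?_
  refine Complex.ofRealCLM.contDiff.comp ?_
  exact hG.comp (contDiff_norm_sq ℝ)

theorem WW_dir {N : ℕ} (c : Fin N → ℂ) (L : ℕ) {G G1 G2 : ℝ → ℝ} (hG : ContDiff ℝ 2 G)
    (h1 : ∀ s, HasDerivAt G (G1 s) s) (h2 : ∀ s, HasDerivAt G1 (G2 s) s)
    (x : EuclideanSpace ℝ (Fin N)) (i : Fin N) :
    iteratedFDeriv ℝ 2 (WW c L G) x ![EuclideanSpace.single i (1 : ℝ),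
      EuclideanSpace.single i (1 : ℝ)] =
    (L + 1) * L * lin c x ^ (L - 1) * c i ^ 2 * (G (‖x‖ ^ 2) : ℝ) +
      4 * (L + 1) * lin c x ^ L * (c i * (x i : ℂ)) * (G1 (‖x‖ ^ 2) : ℝ) +
      lin c x ^ (L + 1) * (4 * (G2 (‖x‖ ^ 2) : ℝ) * ((x i : ℂ)) ^ 2 + 2 * (G1 (‖x‖ ^ 2) : ℝ)) := by
  set s0 : ℝ := ‖x‖ ^ 2 with hs0
  set z0 : ℂ := lin c x with hz0
  have e0 : (fun t : ℝ => WW c L G (x + t • EuclideanSpace.single i (1 : ℝ))) =
      fun t : ℝ => (z0 + t * c i) ^ (L + 1) * ((G (s0 + 2 * t * x i + t ^ 2) : ℝ) : ℂ) := by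
    funext t
    unfold WW
    rw [lin_line, normSq_line]
  have hz : ∀ t : ℝ, HasDerivAt (fun t : ℝ => z0 + (t : ℂ) * c i) (c i) t := by
    intro t
    have := ((Complex.ofRealCLM.hasDerivAt (x := t)).mul_const (c i)).const_add z0
    simpa using this
  have hs : ∀ t : ℝ, HasDerivAt (fun t : ℝ => s0 + 2 * t * x i + t ^ 2) (2 * x i + 2 * t) t := by
    intro t
    have h3 := ((((hasDerivAt_id t).const_mul 2).mul_const (x i)).const_add s0).add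
      ((hasDerivAt_id t).pow 2)
    refine h3.congr_deriv ?_
    simp
  have hGc : ∀ t : ℝ, HasDerivAt (fun t : ℝ => ((G (s0 + 2 * t * x i + t ^ 2) : ℝ) : ℂ))
      (((G1 (s0 + 2 * t * x i + t ^ 2) * (2 * x i + 2 * t) : ℝ)) : ℂ) t := by
    intro t
    exact ((h1 _).comp t (hs t)).ofReal_comp
  have hG1c : ∀ t : ℝ, HasDerivAt
      (fun t : ℝ => (((G1 (s0 + 2 * t * x i + t ^ 2) * (2 * x i + 2 * t) : ℝ)) : ℂ))
      (((G2 (s0 + 2 * t * x i + t ^ 2) * (2 * x i + 2 * t) * (2 * x i + 2 * t) +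
        G1 (s0 + 2 * t * x i + t ^ 2) * 2 : ℝ)) : ℂ) t := by
    intro t
    have h5 : HasDerivAt (fun t : ℝ => 2 * x i + 2 * t) 2 t := by
      have := ((hasDerivAt_id t).const_mul (2 : ℝ)).const_add (2 * x i)
      simpa using this
    exact (((h2 _).comp t (hs t)).mul h5).ofReal_comp
  refine dir2 (WW_contDiff c L hG) x _
    (φ1 := fun t : ℝ => ((L + 1 : ℕ) : ℂ) * (z0 + t * c i) ^ L * c i *
      ((G (s0 + 2 * t * x i + t ^ 2) : ℝ) : ℂ) + (z0 + t * c i) ^ (L + 1) *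
      (((G1 (s0 + 2 * t * x i + t ^ 2) * (2 * x i + 2 * t) : ℝ)) : ℂ)) ?_ ?_
  · intro t
    rw [e0]
    have := ((hz t).pow (L + 1)).mul (hGc t)
    refine this.congr_deriv ?_
    simp
  · have hzL : HasDerivAt (fun t : ℝ => (z0 + (t : ℂ) * c i) ^ L)
        ((L : ℂ) * (z0 + ((0 : ℝ) : ℂ) * c i) ^ (L - 1) * c i) 0 := (hz 0).pow L
    have hzL1 : HasDerivAt (fun t : ℝ => (z0 + (t : ℂ) * c i) ^ (L + 1))
        (((L + 1 : ℕ) : ℂ) * (z0 + ((0 : ℝ) : ℂ) * c i) ^ (L + 1 - 1) * c i) 0 :=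
      (hz 0).pow (L + 1)
    have := ((((hzL.const_mul ((L + 1 : ℕ) : ℂ)).mul_const (c i)).mul (hGc 0)).add
      (hzL1.mul (hG1c 0)))
    refine this.congr_deriv ?_
    simp only [Complex.ofReal_zero, zero_mul, add_zero, mul_zero, ne_eq, OfNat.ofNat_ne_zero,
      not_false_eq_true, zero_pow, Nat.add_sub_cancel]
    push_cast
    ring

open Laplacian InnerProductSpace in
/-- The Laplacian of the complex test function. -/
theorem WW_laplacian {N : ℕ} (c : Fin N → ℂ) (hc : ∑ i, c i ^ 2 = 0) (L : ℕ) {G G1 G2 : ℝ → ℝ}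
    (hG : ContDiff ℝ 2 G) (h1 : ∀ s, HasDerivAt G (G1 s) s) (h2 : ∀ s, HasDerivAt G1 (G2 s) s)
    (x : EuclideanSpace ℝ (Fin N)) :
    (Δ (WW (N := N) c L G)) x = lin c x ^ (L + 1) *
      ((4 * ‖x‖ ^ 2 * G2 (‖x‖ ^ 2) + (4 * (L + 1) + 2 * N) * G1 (‖x‖ ^ 2) : ℝ) : ℂ) := by
  rw [laplacian_eq_iteratedFDeriv_orthonormalBasis _ (EuclideanSpace.basisFun (Fin N) ℝ)]
  simp only [EuclideanSpace.basisFun_apply]
  rw [Finset.sum_congr rfl fun i _ => WW_dir c L hG h1 h2 x i]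
  rw [Finset.sum_add_distrib, Finset.sum_add_distrib]
  have s1 : ∑ i, ((L : ℂ) + 1) * L * lin c x ^ (L - 1) * c i ^ 2 * (G (‖x‖ ^ 2) : ℝ) = 0 := by
    rw [← Finset.sum_mul, ← Finset.mul_sum, hc]; ring
  have s2 : ∑ i, 4 * ((L : ℂ) + 1) * lin c x ^ L * (c i * (x i : ℂ)) * (G1 (‖x‖ ^ 2) : ℝ) =
      4 * (L + 1) * lin c x ^ (L + 1) * (G1 (‖x‖ ^ 2) : ℝ) := by
    rw [← Finset.sum_mul, ← Finset.mul_sum, pow_succ]
    unfold lin
    ring
  have s3 : ∑ i, lin c x ^ (L + 1) * (4 * ((G2 (‖x‖ ^ 2) : ℝ) : ℂ) * ((x i : ℂ)) ^ 2 +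
      2 * (G1 (‖x‖ ^ 2) : ℝ)) = lin c x ^ (L + 1) * (4 * ((G2 (‖x‖ ^ 2) : ℝ) : ℂ) *
      ((‖x‖ ^ 2 : ℝ) : ℂ) + 2 * N * (G1 (‖x‖ ^ 2) : ℝ)) := by
    rw [← Finset.mul_sum, Finset.sum_add_distrib, ← Finset.mul_sum]
    have : ∑ i, ((x i : ℝ) : ℂ) ^ 2 = ((‖x‖ ^ 2 : ℝ) : ℂ) := by
      rw [EuclideanSpace.norm_sq_eq]
      push_cast
      refine Finset.sum_congr rfl fun i _ => ?_
      rw [Real.norm_eq_abs, ← Complex.ofReal_pow, ← Complex.ofReal_pow, sq_abs]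
    rw [this]
    simp only [Finset.sum_const, Finset.card_univ, Fintype.card_fin, nsmul_eq_mul]
    ring
  rw [s1, s2, s3]
  push_cast
  ring

open Laplacian InnerProductSpace in
/-- The Laplacian of the real test function. -/
theorem re_laplacian {N : ℕ} (c : Fin N → ℂ) (hc : ∑ i, c i ^ 2 = 0) (L : ℕ) {G G1 G2 : ℝ → ℝ}
    (hG : ContDiff ℝ 2 G) (h1 : ∀ s, HasDerivAt G (G1 s) s) (h2 : ∀ s, HasDerivAt G1 (G2 s) s)
    (x : EuclideanSpace ℝ (Fin N)) :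
    (Δ (fun x : EuclideanSpace ℝ (Fin N) => (WW c L G x).re)) x = (lin c x ^ (L + 1)).re *
      (4 * ‖x‖ ^ 2 * G2 (‖x‖ ^ 2) + (4 * (L + 1) + 2 * N) * G1 (‖x‖ ^ 2)) := by
  have h := (WW_contDiff (N := N) c L hG).contDiffAt (x := x) |>.laplacian_CLM_comp_left
    (l := Complex.reCLM)
  have e : (fun x : EuclideanSpace ℝ (Fin N) => (WW c L G x).re) =
      (Complex.reCLM ∘ WW (N := N) c L G) := rfl
  rw [e, h]
  simp only [Function.comp_apply, Complex.reCLM_apply]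
  rw [WW_laplacian c hc L hG h1 h2 x, Complex.re_mul_ofReal]

end Q94.RN
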