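import Pool.Agent.Q94.RNA
import Pool.Agent.Q94.RNB

/-!
The radial factor `G(s) = s^(-m) U(a (b - log s))`.
-/

open Set Filter Topology

namespace Q94.RN

section

variable (U U1 U2 : ℝ → ℝ) (m : ℕ) (a b : ℝ)

noncomputable def GG (s : ℝ) : ℝ := (s ^ m)⁻¹ * U (a * (b - Real.log s))
noncomputable def GG1 (s : ℝ) : ℝ :=
  (s ^ (m + 1))⁻¹ * (-(m * U (a * (b - Real.log s))) - a * U1 (a * (b - Real.log s)))
noncomputable def GG2 (s : ℝ) : ℝ :=
  (s ^ (m + 2))⁻¹ * ((m + 1) * (m * U (a * (b - Real.log s)) + a * U1 (a * (b - Real.log s))) +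
    a * (m * U1 (a * (b - Real.log s)) + a * U2 (a * (b - Real.log s))))

end

variable {U U1 U2 : ℝ → ℝ} {m : ℕ} {a b : ℝ}

theorem inner_deriv {s : ℝ} (hs : s ≠ 0) :
    HasDerivAt (fun s => a * (b - Real.log s)) (-(a * s⁻¹)) s := by
  have := (((Real.hasDerivAt_log hs).const_sub b).const_mul a)
  refine this.congr_deriv ?_
  ring

theorem pow_inv_deriv (k : ℕ) {s : ℝ} (hs : s ≠ 0) :
    HasDerivAt (fun s : ℝ => (s ^ k)⁻¹) (-(k * (s ^ (k + 1))⁻¹)) s := by
  have h := (hasDerivAt_pow k s).fun_inv (pow_ne_zero k hs)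
  refine h.congr_deriv ?_
  rcases k with _ | k
  · simp
  · simp only [Nat.add_sub_cancel]
    field_simp
    ring

theorem GG_deriv_ne (h1 : ∀ t, HasDerivAt U (U1 t) t) {s : ℝ} (hs : s ≠ 0) :
    HasDerivAt (GG U m a b) (GG1 U U1 m a b s) s := by
  have := (pow_inv_deriv m hs).mul ((h1 _).comp s (inner_deriv (a := a) (b := b) hs))
  refine this.congr_deriv ?_
  unfold GG1
  simp only [Function.comp_apply]
  rw [pow_succ]
  field_simp
  ring

theorem GG1_deriv_ne (h1 : ∀ t, HasDerivAt U (U1 t) t) (h2 : ∀ t, HasDerivAt U1 (U2 t) t)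
    {s : ℝ} (hs : s ≠ 0) :
    HasDerivAt (GG1 U U1 m a b) (GG2 U U1 U2 m a b s) s := by
  have hu := (h1 _).comp s (inner_deriv (a := a) (b := b) hs)
  have hu1 := (h2 _).comp s (inner_deriv (a := a) (b := b) hs)
  have := (pow_inv_deriv (m + 1) hs).mul (((hu.const_mul (m : ℝ)).neg).sub (hu1.const_mul a))
  refine this.congr_deriv ?_
  unfold GG2
  simp only [Function.comp_apply, Pi.sub_apply, Pi.neg_apply]
  rw [pow_succ s (m + 1), pow_succ s m]
  field_simp
  push_cast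
  ring

/-- Near `0` everything vanishes. -/
theorem near_zero (ha : 0 < a) : ∀ᶠ s in 𝓝 (0 : ℝ), s ≠ 0 → 4 < a * (b - Real.log s) := by
  have h1 : Tendsto Real.log (𝓝[≠] 0) atBot := Real.tendsto_log_nhdsNE_zero
  have h2 : ∀ᶠ s in 𝓝[≠] (0 : ℝ), Real.log s < b - 4 / a := h1.eventually_lt_atBot _
  rw [eventually_nhdsWithin_iff] at h2
  filter_upwards [h2] with s hs hs0
  have := hs hs0
  have h3 : 4 / a < b - Real.log s := by linarith
  rw [div_lt_iff₀ ha] at h3
  linarith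

theorem U1_zero (h1 : ∀ t, HasDerivAt U (U1 t) t) (h4 : ∀ t, 4 ≤ t → U t = 0) {t : ℝ}
    (ht : 4 < t) : U1 t = 0 := by
  have : HasDerivAt U 0 t := by
    refine (hasDerivAt_const t (0 : ℝ)).congr_of_eventuallyEq ?_
    filter_upwards [Ioi_mem_nhds ht] with s hs
    exact h4 s (le_of_lt hs)
  exact (h1 t).unique this

theorem U2_zero (h1 : ∀ t, HasDerivAt U (U1 t) t) (h2 : ∀ t, HasDerivAt U1 (U2 t) t)
    (h4 : ∀ t, 4 ≤ t → U t = 0) {t : ℝ} (ht : 4 < t) : U2 t = 0 := by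
  have : HasDerivAt U1 0 t := by
    refine (hasDerivAt_const t (0 : ℝ)).congr_of_eventuallyEq ?_
    filter_upwards [Ioi_mem_nhds ht] with s hs
    exact U1_zero h1 h4 hs
  exact (h2 t).unique this

theorem GG_near (ha : 0 < a) (hm : 1 ≤ m) (h4 : ∀ t, 4 ≤ t → U t = 0) :
    ∀ᶠ s in 𝓝 (0 : ℝ), GG U m a b s = 0 := by
  filter_upwards [near_zero (b := b) ha] with s hs
  unfold GG
  by_cases h : s = 0
  · subst h; rw [zero_pow (by omega)]; simp
  · rw [h4 _ (hs h).le, mul_zero]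

theorem GG1_near (ha : 0 < a) (h1 : ∀ t, HasDerivAt U (U1 t) t)
    (h4 : ∀ t, 4 ≤ t → U t = 0) : ∀ᶠ s in 𝓝 (0 : ℝ), GG1 U U1 m a b s = 0 := by
  filter_upwards [near_zero (b := b) ha] with s hs
  unfold GG1
  by_cases h : s = 0
  · subst h; rw [zero_pow (by omega)]; simp
  · rw [h4 _ (hs h).le, U1_zero h1 h4 (hs h)]; ring

theorem GG2_near (ha : 0 < a) (h1 : ∀ t, HasDerivAt U (U1 t) t)
    (h2 : ∀ t, HasDerivAt U1 (U2 t) t)
    (h4 : ∀ t, 4 ≤ t → U t = 0) : ∀ᶠ s in 𝓝 (0 : ℝ), GG2 U U1 U2 m a b s = 0 := by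
  filter_upwards [near_zero (b := b) ha] with s hs
  unfold GG2
  by_cases h : s = 0
  · subst h; rw [zero_pow (by omega)]; simp
  · rw [h4 _ (hs h).le, U1_zero h1 h4 (hs h), U2_zero h1 h2 h4 (hs h)]; ring

theorem GG_deriv (ha : 0 < a) (hm : 1 ≤ m) (h1 : ∀ t, HasDerivAt U (U1 t) t)
    (h4 : ∀ t, 4 ≤ t → U t = 0) (s : ℝ) : HasDerivAt (GG U m a b) (GG1 U U1 m a b s) s := by
  by_cases hs : s = 0
  · subst hs
    rw [(GG1_near (m := m) (b := b) ha h1 h4).self_of_nhds]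
    exact (hasDerivAt_const (0 : ℝ) (0 : ℝ)).congr_of_eventuallyEq
      (GG_near ha hm h4)
  · exact GG_deriv_ne h1 hs

theorem GG1_deriv (ha : 0 < a) (h1 : ∀ t, HasDerivAt U (U1 t) t)
    (h2 : ∀ t, HasDerivAt U1 (U2 t) t)
    (h4 : ∀ t, 4 ≤ t → U t = 0) (s : ℝ) :
    HasDerivAt (GG1 U U1 m a b) (GG2 U U1 U2 m a b s) s := by
  by_cases hs : s = 0
  · subst hs
    rw [(GG2_near (m := m) (b := b) ha h1 h2 h4).self_of_nhds]
    exact (hasDerivAt_const (0 : ℝ) (0 : ℝ)).congr_of_eventuallyEq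
      (GG1_near ha h1 h4)
  · exact GG1_deriv_ne h1 h2 hs

theorem GG2_cont (ha : 0 < a) (h1 : ∀ t, HasDerivAt U (U1 t) t)
    (h2 : ∀ t, HasDerivAt U1 (U2 t) t) (hc : Continuous U2)
    (h4 : ∀ t, 4 ≤ t → U t = 0) : Continuous (GG2 U U1 U2 m a b) := by
  rw [continuous_iff_continuousAt]
  intro s
  by_cases hs : s = 0
  · subst hs
    have h := GG2_near (m := m) (b := b) ha h1 h2 h4
    have h0 : GG2 U U1 U2 m a b =ᶠ[𝓝 0] fun _ => (0 : ℝ) := h
    exact (continuousAt_const).congr h0.symm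
  · have hU : Continuous U := continuous_iff_continuousAt.mpr fun t => (h1 t).continuousAt
    have hU1 : Continuous U1 := continuous_iff_continuousAt.mpr fun t => (h2 t).continuousAt
    have hl : ContinuousAt (fun s => a * (b - Real.log s)) s := (inner_deriv hs).continuousAt
    have c0 : ContinuousAt (fun s => U (a * (b - Real.log s))) s := hU.continuousAt.comp hl
    have c1 : ContinuousAt (fun s => U1 (a * (b - Real.log s))) s := hU1.continuousAt.comp hl
    have c2 : ContinuousAt (fun s => U2 (a * (b - Real.log s))) s := hc.continuousAt.comp hl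
    have cp : ContinuousAt (fun s : ℝ => (s ^ (m + 2))⁻¹) s :=
      ContinuousAt.inv₀ (by fun_prop) (pow_ne_zero _ hs)
    unfold GG2
    exact cp.mul ((((c0.const_mul _).add (c1.const_mul _)).const_mul _).add
      (((c1.const_mul _).add (c2.const_mul _)).const_mul _))

theorem contDiff_two {G G1 G2 : ℝ → ℝ} (h1 : ∀ s, HasDerivAt G (G1 s) s)
    (h2 : ∀ s, HasDerivAt G1 (G2 s) s) (hc : Continuous G2) : ContDiff ℝ 2 G := by
  have e1 : deriv G = G1 := funext fun s => (h1 s).deriv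
  have e2 : deriv G1 = G2 := funext fun s => (h2 s).deriv
  have k1 : ContDiff ℝ 1 G1 := by
    rw [contDiff_one_iff_deriv]
    exact ⟨fun s => (h2 s).differentiableAt, by rw [e2]; exact hc⟩
  have : ContDiff ℝ (1 + 1) G := by
    rw [contDiff_succ_iff_deriv]
    refine ⟨fun s => (h1 s).differentiableAt, ?_, ?_⟩
    · intro h; simp at h
    · rw [e1]; exact k1
  exact this

/-- The radial operator. -/
theorem radial_formula (N : ℕ) (hab : 4 * m ^ 2 + 2 * m * ((N : ℝ) - 2) = 4 * a ^ 2) (s : ℝ) :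
    4 * s * GG2 U U1 U2 m a b s + (8 * m + 2 * N) * GG1 U U1 m a b s =
    (s ^ (m + 1))⁻¹ * ((4 * a ^ 2) * (U2 (a * (b - Real.log s)) - U (a * (b - Real.log s))) -
      2 * ((N : ℝ) - 2) * a * U1 (a * (b - Real.log s))) := by
  by_cases hs : s = 0
  · subst hs
    unfold GG1 GG2
    rw [zero_pow (by omega), zero_pow (by omega)]
    simp
  · unfold GG1 GG2
    have e : s * (s ^ (m + 2))⁻¹ = (s ^ (m + 1))⁻¹ := by
      rw [pow_succ s (m + 1)]; field_simp
    set V := U (a * (b - Real.log s))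
    set V1 := U1 (a * (b - Real.log s))
    set V2 := U2 (a * (b - Real.log s))
    have : 4 * s * ((s ^ (m + 2))⁻¹ * ((m + 1) * (m * V + a * V1) + a * (m * V1 + a * V2))) =
        4 * (s * (s ^ (m + 2))⁻¹) * ((m + 1) * (m * V + a * V1) + a * (m * V1 + a * V2)) := by
      ring
    rw [this, e]
    linear_combination ((s ^ (m + 1))⁻¹ * (-V)) * hab

end Q94.RN
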