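import Mathlib

/-!
Integrals of functions homogeneous of degree `-N` over annuli.
-/

open Set Filter Topology MeasureTheory

namespace Q94.RN

/-- The annulus `a < |x| <= b`. -/
def Ann (N : ℕ) (a b : ℝ) : Set (EuclideanSpace ℝ (Fin N)) := {x | a < ‖x‖ ∧ ‖x‖ ≤ b}

theorem Ann_meas (N : ℕ) (a b : ℝ) : MeasurableSet (Ann N a b) := by
  unfold Ann
  exact (measurableSet_lt measurable_const measurable_norm).inter
    (measurableSet_le measurable_norm measurable_const)

/-- The integral over the annulus. -/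
noncomputable def JJ {N : ℕ} (w : EuclideanSpace ℝ (Fin N) → ℝ) (a b : ℝ) : ENNReal :=
  ∫⁻ x in Ann N a b, ENNReal.ofReal (w x)

theorem JJ_scale {N : ℕ} {w : EuclideanSpace ℝ (Fin N) → ℝ} (hw : Measurable w)
    (hs : ∀ (t : ℝ) (x : EuclideanSpace ℝ (Fin N)), 0 < t → w (t • x) = (t ^ N)⁻¹ * w x)
    {t : ℝ} (ht : 0 < t) (a b : ℝ) : JJ w (t * a) (t * b) = JJ w a b := by
  unfold JJ
  have hmap := Measure.map_addHaar_smul (volume : Measure (EuclideanSpace ℝ (Fin N))) ht.ne'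
  rw [finrank_euclideanSpace_fin, abs_of_pos (by positivity)] at hmap
  have hm : Measurable fun x : EuclideanSpace ℝ (Fin N) => t • x := measurable_const_smul t
  have hf : Measurable fun x => (Ann N (t * a) (t * b)).indicator (fun x => ENNReal.ofReal (w x)) x :=
    (hw.ennreal_ofReal).indicator (Ann_meas _ _ _)
  have h1 : ∫⁻ x, (Ann N (t * a) (t * b)).indicator (fun x => ENNReal.ofReal (w x)) (t • x) =
      ENNReal.ofReal ((t ^ N)⁻¹) *
        ∫⁻ x, (Ann N (t * a) (t * b)).indicator (fun x => ENNReal.ofReal (w x)) x := by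
    rw [← lintegral_map hf hm, hmap, lintegral_smul_measure, smul_eq_mul]
  have h2 : ∀ x, (Ann N (t * a) (t * b)).indicator (fun x => ENNReal.ofReal (w x)) (t • x) =
      ENNReal.ofReal ((t ^ N)⁻¹) * (Ann N a b).indicator (fun x => ENNReal.ofReal (w x)) x := by
    intro x
    have hiff : t • x ∈ Ann N (t * a) (t * b) ↔ x ∈ Ann N a b := by
      unfold Ann
      simp only [mem_ofPred_eq]
      rw [norm_smul, Real.norm_eq_abs, abs_of_pos ht, mul_lt_mul_iff_right₀ ht,
        mul_le_mul_iff_right₀ ht]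
    by_cases hx : x ∈ Ann N a b
    · rw [indicator_of_mem (hiff.mpr hx), indicator_of_mem hx, hs t x ht,
        ENNReal.ofReal_mul (by positivity)]
    · rw [indicator_of_notMem (fun h => hx (hiff.mp h)), indicator_of_notMem hx, mul_zero]
  rw [lintegral_congr h2, lintegral_const_mul _ ((hw.ennreal_ofReal).indicator (Ann_meas _ _ _)),
    lintegral_indicator (Ann_meas _ _ _), lintegral_indicator (Ann_meas _ _ _)] at h1
  have hne : ENNReal.ofReal ((t ^ N)⁻¹) ≠ 0 := by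
    rw [Ne, ENNReal.ofReal_eq_zero, not_le]; positivity
  exact ((ENNReal.mul_right_inj hne ENNReal.ofReal_ne_top).mp h1).symm

theorem JJ_add {N : ℕ} (w : EuclideanSpace ℝ (Fin N) → ℝ) {a b c : ℝ} (hab : a ≤ b)
    (hbc : b ≤ c) : JJ w a c = JJ w a b + JJ w b c := by
  unfold JJ
  have hU : Ann N a c = Ann N a b ∪ Ann N b c := by
    ext x
    unfold Ann
    simp only [mem_ofPred_eq, mem_union]
    constructor
    · rintro ⟨h1, h2⟩
      rcases le_or_gt ‖x‖ b with h | h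
      · left; exact ⟨h1, h⟩
      · right; exact ⟨h, h2⟩
    · rintro (⟨h1, h2⟩ | ⟨h1, h2⟩)
      · exact ⟨h1, h2.trans hbc⟩
      · exact ⟨lt_of_le_of_lt hab h1, h2⟩
  have hd : Disjoint (Ann N a b) (Ann N b c) := by
    rw [Set.disjoint_left]
    rintro x ⟨_, h2⟩ ⟨h3, _⟩
    linarith
  rw [hU, lintegral_union (Ann_meas _ _ _) hd]

theorem JJ_pow {N : ℕ} {w : EuclideanSpace ℝ (Fin N) → ℝ} (hw : Measurable w)
    (hs : ∀ (t : ℝ) (x : EuclideanSpace ℝ (Fin N)), 0 < t → w (t • x) = (t ^ N)⁻¹ * w x)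
    {q R : ℝ} (hq : 0 < q) (hq1 : q ≤ 1) (hR : 0 < R) (n : ℕ) :
    JJ w (q ^ n * R) R = n * JJ w (q * R) R := by
  induction n with
  | zero =>
    simp only [pow_zero, one_mul, Nat.cast_zero, zero_mul]
    unfold JJ Ann
    have : {x : EuclideanSpace ℝ (Fin N) | R < ‖x‖ ∧ ‖x‖ ≤ R} = ∅ := by
      ext x; simp
    rw [this]; simp
  | succ n ih =>
    have h1 : q ^ (n + 1) * R ≤ q ^ n * R := by
      rw [pow_succ]
      have : q ^ n * q ≤ q ^ n := by
        nlinarith [pow_pos hq n]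
      nlinarith
    have h2 : q ^ n * R ≤ R := by
      have := pow_le_one₀ hq.le hq1 (n := n)
      nlinarith
    rw [JJ_add w h1 h2, ih]
    have e : q ^ (n + 1) * R = q ^ n * (q * R) := by ring
    rw [e, JJ_scale hw hs (pow_pos hq n) (q * R) R]
    push_cast
    ring

theorem JJ_lt_top {N : ℕ} {w : EuclideanSpace ℝ (Fin N) → ℝ} {a b : ℝ} (ha : 0 < a)
    (hw : ∀ x, w x ≤ (‖x‖ ^ N)⁻¹) : JJ w a b < ⊤ := by
  unfold JJ
  have h1 : ∫⁻ x in Ann N a b, ENNReal.ofReal (w x) ≤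
      ∫⁻ x in Ann N a b, ENNReal.ofReal ((a ^ N)⁻¹) := by
    refine setLIntegral_mono' (Ann_meas _ _ _) ?_
    intro x hx
    apply ENNReal.ofReal_le_ofReal
    refine (hw x).trans ?_
    have := hx.1
    gcongr
  refine lt_of_le_of_lt h1 ?_
  rw [setLIntegral_const]
  refine ENNReal.mul_lt_top ENNReal.ofReal_lt_top ?_
  refine lt_of_le_of_lt (measure_mono (t := Metric.closedBall 0 b) ?_) measure_closedBall_lt_top
  intro x hx
  simp only [Metric.mem_closedBall, dist_zero_right]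
  exact hx.2

theorem JJ_pos {N : ℕ} {w : EuclideanSpace ℝ (Fin N) → ℝ} (hw : Measurable w)
    {a b : ℝ} {x0 : EuclideanSpace ℝ (Fin N)}
    (hx0 : a < ‖x0‖ ∧ ‖x0‖ < b) (hc : ContinuousAt w x0) (hp : 0 < w x0) : 0 < JJ w a b := by
  unfold JJ
  rw [lintegral_pos_iff_support hw.ennreal_ofReal, Measure.restrict_apply]
  · have h1 : ∀ᶠ x in 𝓝 x0, 0 < w x := hc.eventually (lt_mem_nhds hp)
    have h2 : ∀ᶠ x in 𝓝 x0, a < ‖x‖ := (continuous_norm.continuousAt).eventually (lt_mem_nhds hx0.1)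
    have h3 : ∀ᶠ x in 𝓝 x0, ‖x‖ < b := (continuous_norm.continuousAt).eventually (gt_mem_nhds hx0.2)
    have h4 := h1.and (h2.and h3)
    rw [eventually_nhds_iff] at h4
    obtain ⟨t, ht, hto, hxt⟩ := h4
    refine lt_of_lt_of_le (hto.measure_pos volume ⟨x0, hxt⟩) (measure_mono ?_)
    intro x hx
    obtain ⟨k1, k2, k3⟩ := ht x hx
    refine ⟨?_, k2, k3.le⟩
    rw [Function.mem_support, Ne, ENNReal.ofReal_eq_zero, not_le]
    exact k1
  · exact measurableSet_support hw.ennreal_ofReal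

end Q94.RN
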