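import Pool.Agent.Q94.RNC
import Pool.Agent.Q94.RND

/-!
The failure of the critical Rellich inequality of second order with logarithmic weight in high
dimension.
-/

open Set Filter Topology MeasureTheory

namespace Q94.RN

section angular

variable {N : ℕ} (i0 i1 : Fin N)

/-- isotropic coefficients -/
noncomputable def cc : Fin N → ℂ := fun i => if i = i0 then 1 else if i = i1 then Complex.I else 0

theorem cc_sq (h : i0 ≠ i1) : ∑ i, cc i0 i1 i ^ 2 = 0 := by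
  have : ∀ i, cc i0 i1 i ^ 2 = (if i = i0 then 1 else 0) + (if i = i1 then -1 else 0) := by
    intro i
    unfold cc
    by_cases h0 : i = i0
    · subst h0
      simp [h]
    · by_cases h1 : i = i1
      · subst h1
        simp [h0]
      · simp [h0, h1]
  rw [Finset.sum_congr rfl fun i _ => this i, Finset.sum_add_distrib]
  simp

theorem lin_cc (h : i0 ≠ i1) (x : EuclideanSpace ℝ (Fin N)) :
    lin (cc i0 i1) x = (x i0 : ℂ) + (x i1 : ℂ) * Complex.I := by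
  unfold lin
  have : ∀ i, cc i0 i1 i * (x i : ℂ) = (if i = i0 then (x i0 : ℂ) else 0) +
      (if i = i1 then (x i1 : ℂ) * Complex.I else 0) := by
    intro i
    unfold cc
    by_cases h0 : i = i0
    · subst h0
      simp [h]
    · by_cases h1 : i = i1
      · subst h1
        simp [h0, mul_comm]
      · simp [h0, h1]
  rw [Finset.sum_congr rfl fun i _ => this i, Finset.sum_add_distrib]
  simp

theorem lin_cc_norm (h : i0 ≠ i1) (x : EuclideanSpace ℝ (Fin N)) :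
    ‖lin (cc i0 i1) x‖ ≤ ‖x‖ := by
  rw [lin_cc i0 i1 h]
  refine le_of_sq_le_sq ?_ (norm_nonneg _)
  rw [Complex.sq_norm, Complex.normSq_add_mul_I, EuclideanSpace.norm_sq_eq]
  have h1 : ∑ i ∈ ({i0, i1} : Finset (Fin N)), ‖x i‖ ^ 2 ≤ ∑ i, ‖x i‖ ^ 2 :=
    Finset.sum_le_univ_sum_of_nonneg fun i => by positivity
  rw [Finset.sum_pair h, Real.norm_eq_abs, Real.norm_eq_abs, sq_abs, sq_abs] at h1
  exact h1

theorem lin_smul (c : Fin N → ℂ) (t : ℝ) (x : EuclideanSpace ℝ (Fin N)) :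
    lin c (t • x) = (t : ℂ) * lin c x := by
  unfold lin
  rw [Finset.mul_sum]
  refine Finset.sum_congr rfl fun i _ => ?_
  simp
  ring

end angular

/-- The weight. -/
noncomputable def wt {N : ℕ} (c : Fin N → ℂ) (m : ℕ) (x : EuclideanSpace ℝ (Fin N)) : ℝ :=
  (|(lin c x ^ (2 * m)).re| / ‖x‖ ^ (2 * m)) ^ ((N : ℝ) / 2) / ‖x‖ ^ N

theorem wt_meas {N : ℕ} (c : Fin N → ℂ) (m : ℕ) : Measurable (wt c m) := by
  have h1 : Measurable (lin c) := (lin_contDiff c).continuous.measurable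
  unfold wt
  have h2 : Measurable fun x => (lin c x ^ (2 * m)).re := Complex.measurable_re.comp (h1.pow_const _)
  have h3 : Measurable fun x => |(lin c x ^ (2 * m)).re| := h2.abs
  have h4 : Measurable fun x : EuclideanSpace ℝ (Fin N) => ‖x‖ := measurable_norm
  exact ((h3.div (h4.pow_const _)).pow_const _).div (h4.pow_const _)

theorem wt_smul {N : ℕ} (c : Fin N → ℂ) (m : ℕ) (t : ℝ)
    (x : EuclideanSpace ℝ (Fin N)) (ht : 0 < t) : wt c m (t • x) = (t ^ N)⁻¹ * wt c m x := by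
  unfold wt
  rw [lin_smul, mul_pow, ← Complex.ofReal_pow, Complex.re_ofReal_mul, abs_mul,
    abs_of_pos (pow_pos ht (2 * m)), norm_smul, Real.norm_eq_abs, abs_of_pos ht, mul_pow, mul_pow,
    mul_div_mul_left _ _ (pow_pos ht (2 * m)).ne']
  rw [div_mul_eq_div_div_swap, div_eq_mul_inv _ (t ^ N), mul_comm]

theorem wt_le {N : ℕ} (c : Fin N → ℂ) (hc : ∀ x, ‖lin c x‖ ≤ ‖x‖) (m : ℕ)
    (x : EuclideanSpace ℝ (Fin N)) : wt c m x ≤ (‖x‖ ^ N)⁻¹ := by
  unfold wt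
  rw [div_eq_mul_inv]
  have h1 : |(lin c x ^ (2 * m)).re| / ‖x‖ ^ (2 * m) ≤ 1 := by
    refine div_le_one_of_le₀ ?_ (by positivity)
    refine (Complex.abs_re_le_norm _).trans ?_
    rw [norm_pow]
    exact pow_le_pow_left₀ (norm_nonneg _) (hc x) _
  have h2 : (|(lin c x ^ (2 * m)).re| / ‖x‖ ^ (2 * m)) ^ ((N : ℝ) / 2) ≤ 1 :=
    Real.rpow_le_one (by positivity) h1 (by positivity)
  calc (|(lin c x ^ (2 * m)).re| / ‖x‖ ^ (2 * m)) ^ ((N : ℝ) / 2) * (‖x‖ ^ N)⁻¹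
      ≤ 1 * (‖x‖ ^ N)⁻¹ := by gcongr
    _ = (‖x‖ ^ N)⁻¹ := one_mul _

theorem wt_single {N : ℕ} {i0 i1 : Fin N} (h : i0 ≠ i1) (m : ℕ) {r : ℝ} (hr : 0 < r) :
    wt (cc i0 i1) m (EuclideanSpace.single i0 r) = (r ^ N)⁻¹ := by
  unfold wt
  have h1 : lin (cc i0 i1) (EuclideanSpace.single i0 r) = (r : ℂ) := by
    rw [lin_cc i0 i1 h]
    simp [h.symm]
  rw [h1, ← Complex.ofReal_pow, Complex.ofReal_re, PiLp.norm_single, Real.norm_eq_abs,
    abs_of_pos hr, abs_of_pos (pow_pos hr _), div_self (pow_pos hr _).ne', Real.one_rpow]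
  rw [one_div]

theorem wt_contAt {N : ℕ} (c : Fin N → ℂ) (m : ℕ) {x : EuclideanSpace ℝ (Fin N)} (hx : x ≠ 0) :
    ContinuousAt (wt c m) x := by
  have h1 : Continuous (lin c) := (lin_contDiff c).continuous
  have hn : ‖x‖ ≠ 0 := norm_ne_zero_iff.mpr hx
  unfold wt
  have h2 : ContinuousAt (fun x => |(lin c x ^ (2 * m)).re|) x :=
    (Complex.continuous_re.comp (h1.pow _)).abs.continuousAt
  have h3 : ContinuousAt (fun x : EuclideanSpace ℝ (Fin N) => ‖x‖ ^ (2 * m)) x :=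
    (continuous_norm.pow _).continuousAt
  have h4 : ContinuousAt (fun x : EuclideanSpace ℝ (Fin N) => ‖x‖ ^ N) x :=
    (continuous_norm.pow _).continuousAt
  exact ((h2.div h3 (pow_ne_zero _ hn)).rpow_const (Or.inr (by positivity))).div h4
    (pow_ne_zero _ hn)

/-- numerical constant -/
theorem numeric {p : ℝ} (hp : 1550 ≤ p) : (101 : ℝ) < (5019 / 5000 : ℝ) ^ p := by
  have h1 : (5019 / 5000 : ℝ) ^ (1500 : ℝ) ≤ (5019 / 5000 : ℝ) ^ p :=
    Real.rpow_le_rpow_of_exponent_le (by norm_num) (by linarith)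
  have h2 : (5019 / 5000 : ℝ) ^ (1500 : ℝ) = (((5019 / 5000 : ℝ) ^ 10) ^ 10) ^ 15 := by
    rw [← pow_mul, ← pow_mul]
    have : (1500 : ℝ) = ((10 * 10 * 15 : ℕ) : ℝ) := by norm_num
    rw [this, Real.rpow_natCast]
  have h3 : (1038 / 1000 : ℝ) ≤ (5019 / 5000 : ℝ) ^ 10 := by norm_num
  have h4 : (145 / 100 : ℝ) ≤ ((5019 / 5000 : ℝ) ^ 10) ^ 10 := by
    calc (145 / 100 : ℝ) ≤ (1038 / 1000 : ℝ) ^ 10 := by norm_num
      _ ≤ _ := pow_le_pow_left₀ (by norm_num) h3 _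
  have h5 : (101 : ℝ) < (((5019 / 5000 : ℝ) ^ 10) ^ 10) ^ 15 := by
    calc (101 : ℝ) < (145 / 100 : ℝ) ^ 15 := by norm_num
      _ ≤ _ := pow_le_pow_left₀ (by norm_num) h4 _
  linarith

end Q94.RN
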