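import Pool.Agent.Q94.RNE

/-!
Assembly: the test function and the two integrals.
-/

open Set Filter Topology MeasureTheory Laplacian InnerProductSpace

namespace Q94.RN

/-- The core result, for the Laplacian. -/
theorem core {N : ℕ} (hN : 3100 ≤ N) {R : ℝ} (hR : 0 < R) :
    ∃ u : EuclideanSpace ℝ (Fin N) → ℝ, ContDiff ℝ 2 u ∧ HasCompactSupport u ∧
      tsupport u ⊆ Metric.ball 0 R ∧
      ∫⁻ x in Metric.ball (0 : EuclideanSpace ℝ (Fin N)) R,
        ENNReal.ofReal (|(Δ u) x| ^ ((N : ℝ) / 2)) <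
      ENNReal.ofReal (((((N : ℝ) - 2) / N) * ((2 * (N : ℝ) - 2) / N)) ^ ((N : ℝ) / 2)) *
      ∫⁻ x in Metric.ball (0 : EuclideanSpace ℝ (Fin N)) R,
        ENNReal.ofReal (|u x| ^ ((N : ℝ) / 2) / (‖x‖ ^ N * (Real.log (R / ‖x‖)) ^ N)) := by
  obtain ⟨U, U1, U2, hU2c, hU, hU1, hU0, hU4, hUU, hUb, hUl⟩ := profile
  have hNr : (3100 : ℝ) ≤ N := by exact_mod_cast hN
  have hN0 : (0 : ℝ) < N := by linarith
  -- indices
  set i0 : Fin N := ⟨0, by omega⟩ with hi0
  set i1 : Fin N := ⟨1, by omega⟩ with hi1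
  have hne : i0 ≠ i1 := by rw [hi0, hi1, Ne, Fin.mk.injEq]; norm_num
  -- parameters
  set m : ℕ := N ^ 2 with hm
  have hm1 : 1 ≤ m := Nat.one_le_pow _ _ (by omega)
  have hmr : (m : ℝ) = (N : ℝ) ^ 2 := by rw [hm]; push_cast; ring
  obtain ⟨L, hL⟩ : ∃ L, L + 1 = 2 * m := ⟨2 * m - 1, by omega⟩
  set a : ℝ := Real.sqrt ((m : ℝ) ^ 2 + m * ((N : ℝ) - 2) / 2) with ha
  have hrad : 0 ≤ (m : ℝ) * ((N : ℝ) - 2) / 2 := by
    have : 0 ≤ (N : ℝ) - 2 := by linarith
    positivity
  have ha2 : a ^ 2 = (m : ℝ) ^ 2 + m * ((N : ℝ) - 2) / 2 := by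
    rw [ha, Real.sq_sqrt (by positivity)]
  have ham : (m : ℝ) ≤ a := by
    rw [ha]; refine Real.le_sqrt_of_sq_le ?_; linarith
  have hm0 : (0 : ℝ) < m := by exact_mod_cast hm1
  have ha0 : 0 < a := lt_of_lt_of_le hm0 ham
  have hab : 4 * (m : ℝ) ^ 2 + 2 * m * ((N : ℝ) - 2) = 4 * a ^ 2 := by rw [ha2]; ring
  set b : ℝ := 2 * Real.log R with hb
  set c := cc i0 i1 with hc
  have hcsq := cc_sq i0 i1 hne
  have hcn := lin_cc_norm i0 i1 hne
  have hG1 := fun s => GG_deriv (m := m) (b := b) ha0 hm1 hU hU4 s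
  have hG2 := fun s => GG1_deriv (m := m) (b := b) ha0 hU hU1 hU4 s
  have hG2c := GG2_cont (m := m) (b := b) ha0 hU hU1 hU2c hU4
  have hG : ContDiff ℝ 2 (GG U m a b) := contDiff_two hG1 hG2 hG2c
  set u : EuclideanSpace ℝ (Fin N) → ℝ := fun x => (WW c L (GG U m a b) x).re with hu
  have hu2 : ContDiff ℝ 2 u := by
    have := Complex.reCLM.contDiff.comp (WW_contDiff (N := N) c L hG)
    exact this
  -- formulas
  have hlogsq : ∀ x : EuclideanSpace ℝ (Fin N), a * (b - Real.log (‖x‖ ^ 2)) =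
      2 * a * (Real.log R - Real.log ‖x‖) := by
    intro x; rw [Real.log_pow, hb]; push_cast; ring
  have hux : ∀ x, u x = (lin c x ^ (2 * m)).re * ((‖x‖ ^ (2 * m))⁻¹ *
      U (2 * a * (Real.log R - Real.log ‖x‖))) := by
    intro x
    rw [hu]
    simp only [WW, GG]
    rw [hL, Complex.re_mul_ofReal, hlogsq, ← pow_mul]
  have hlap : ∀ x, (Δ u) x = (lin c x ^ (2 * m)).re * ((‖x‖ ^ (2 * m + 2))⁻¹ *
      (4 * a ^ 2 * (U2 (2 * a * (Real.log R - Real.log ‖x‖)) -
        U (2 * a * (Real.log R - Real.log ‖x‖))) -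
        2 * ((N : ℝ) - 2) * a * U1 (2 * a * (Real.log R - Real.log ‖x‖)))) := by
    intro x
    have h1 := re_laplacian c hcsq L hG hG1 hG2 x
    rw [hu, h1, hL]
    congr 1
    have h2 : 4 * ((L : ℝ) + 1) + 2 * N = 8 * m + 2 * N := by
      have : (L : ℝ) + 1 = 2 * m := by exact_mod_cast hL
      rw [this]; ring
    rw [h2, radial_formula N hab, hlogsq, ← pow_mul]
    ring_nf
  -- support
  have hsupp : ∀ x, u x ≠ 0 → ‖x‖ ≤ R * Real.exp (-(1 / 10000 / (2 * a))) := by
    intro x hx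
    by_contra hcon
    push Not at hcon
    apply hx
    have hx0 : 0 < ‖x‖ := lt_of_lt_of_le (by positivity) hcon.le
    rw [hux, hU0, mul_zero, mul_zero]
    have h1 := Real.log_lt_log (by positivity) hcon
    rw [Real.log_mul hR.ne' (Real.exp_pos _).ne', Real.log_exp] at h1
    have h2 : Real.log R - Real.log ‖x‖ ≤ 1 / 10000 / (2 * a) := by linarith
    rw [le_div_iff₀ (by positivity)] at h2
    linarith
  have hsub : Function.support u ⊆
      Metric.closedBall (0 : EuclideanSpace ℝ (Fin N)) (R * Real.exp (-(1 / 10000 / (2 * a)))) := by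
    intro x hx
    rw [Metric.mem_closedBall, dist_zero_right]
    exact hsupp x hx
  have hcs : HasCompactSupport u :=
    HasCompactSupport.of_support_subset_isCompact (isCompact_closedBall _ _) hsub
  have hts : tsupport u ⊆ Metric.ball 0 R := by
    refine (closure_minimal hsub Metric.isClosed_closedBall).trans ?_
    refine Metric.closedBall_subset_ball ?_
    have : Real.exp (-(1 / 10000 / (2 * a))) < 1 := by
      rw [Real.exp_lt_one_iff]
      have : 0 < 1 / 10000 / (2 * a) := by positivity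
      linarith
    nlinarith
  refine ⟨u, hu2, hcs, hts, ?_⟩
  -- the annuli
  set w := wt c m with hw
  have hwm : Measurable w := wt_meas c m
  have hws : ∀ (t : ℝ) (x : EuclideanSpace ℝ (Fin N)), 0 < t → w (t • x) = (t ^ N)⁻¹ * w x :=
    fun t x ht => wt_smul c m t x ht
  set q : ℝ := Real.exp (-(1 / 25 / (2 * a))) with hq
  have hq0 : 0 < q := Real.exp_pos _
  have hq1 : q ≤ 1 := by
    rw [hq, Real.exp_le_one_iff]
    have : 0 < 1 / 25 / (2 * a) := by positivity
    linarith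
  have hq1' : q < 1 := by
    rw [hq, Real.exp_lt_one_iff]
    have : 0 < 1 / 25 / (2 * a) := by positivity
    linarith
  set J := JJ w (q * R) R with hJ
  have hJtop : J < ⊤ := JJ_lt_top (by positivity) (wt_le c hcn m)
  have hJpos : 0 < J := by
    have hmid : q * R < R := by nlinarith
    set r := (q * R + R) / 2 with hr
    have hr0 : 0 < r := by rw [hr]; positivity
    have hnorm : ‖(EuclideanSpace.single i0 r : EuclideanSpace ℝ (Fin N))‖ = r := by
      rw [PiLp.norm_single, Real.norm_eq_abs, abs_of_pos hr0]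
    refine JJ_pos hwm (x0 := EuclideanSpace.single i0 r) ?_ (wt_contAt c m ?_) ?_
    · rw [hnorm, hr]; constructor <;> linarith
    · rw [← norm_pos_iff, hnorm]; exact hr0
    · rw [hw, hc, wt_single hne m hr0]; positivity
  have hJ101 : JJ w (q ^ 101 * R) R = 101 * J := by
    have := JJ_pow hwm hws hq0 hq1 hR 101
    rw [this]; norm_num; rfl
  -- the annulus where the potential term is big
  set R1 : ℝ := R * Real.exp (-(23 / 50 / (2 * a))) with hR1
  have hR10 : 0 < R1 := by positivity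
  have hJ1 : JJ w (q * R1) R1 = J := by
    have := JJ_scale hwm hws (t := R1 / R) (by positivity) (q * R) R
    rw [show R1 / R * (q * R) = q * R1 by field_simp, show R1 / R * R = R1 by field_simp] at this
    exact this
  -- constants
  set p : ℝ := (N : ℝ) / 2 with hp
  have hp0 : 0 < p := by positivity
  set κ : ℝ := 1 / 6200 with hκ
  set B : ℝ := (((N : ℝ) - 2) / N) * ((2 * (N : ℝ) - 2) / N) with hB
  have hB0 : 0 ≤ B := by
    have h1 : 0 ≤ (N : ℝ) - 2 := by linarith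
    have h2 : 0 ≤ 2 * (N : ℝ) - 2 := by linarith
    positivity
  have hBlow : 2 - 6 / (N : ℝ) ≤ B := by
    rw [hB]
    have : ((N : ℝ) - 2) / N * ((2 * (N : ℝ) - 2) / N) = 2 - 6 / N + 4 / N ^ 2 := by
      field_simp; ring
    rw [this]
    have : 0 ≤ 4 / (N : ℝ) ^ 2 := by positivity
    linarith
  have hBbig : 5019 / 5000 * (1 + κ) ≤ B * (201 / 400) := by
    have h1 : 6 / (N : ℝ) ≤ 6 / 3100 := by gcongr
    have h2 : 2 - 6 / 3100 ≤ B := by linarith
    have h3 : (2 - 6 / 3100) * (201 / 400) ≤ B * (201 / 400) := by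
      exact mul_le_mul_of_nonneg_right h2 (by norm_num)
    refine le_trans ?_ h3
    rw [hκ]; norm_num
  have hfin : 101 * (1 + κ) ^ p < B ^ p * (201 / 400) ^ p := by
    rw [← Real.mul_rpow hB0 (by norm_num)]
    have hk : 0 < 1 + κ := by rw [hκ]; norm_num
    have h1 : (5019 / 5000 * (1 + κ)) ^ p ≤ (B * (201 / 400)) ^ p :=
      Real.rpow_le_rpow (by positivity) hBbig hp0.le
    rw [Real.mul_rpow (by norm_num) hk.le] at h1
    refine lt_of_lt_of_le ?_ h1
    have := numeric (p := p) (by rw [hp]; linarith)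
    have h2 : 0 < (1 + κ) ^ p := Real.rpow_pos_of_pos hk p
    exact mul_lt_mul_of_pos_right this h2
  -- powers
  have hpowN : ∀ y : ℝ, 0 ≤ y → (y ^ 2) ^ p = y ^ N := by
    intro y hy
    rw [← Real.rpow_natCast y 2, ← Real.rpow_mul hy, hp]
    have : ((2 : ℕ) : ℝ) * ((N : ℝ) / 2) = (N : ℝ) := by push_cast; ring
    rw [this, Real.rpow_natCast]
  have hpowInv : ∀ y : ℝ, 0 ≤ y → ((y ^ 2)⁻¹) ^ p = (y ^ N)⁻¹ := by
    intro y hy
    rw [Real.inv_rpow (by positivity), hpowN y hy]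
  -- upper bound
  have hupper : ∫⁻ x in Metric.ball (0 : EuclideanSpace ℝ (Fin N)) R,
      ENNReal.ofReal (|(Δ u) x| ^ p) ≤ ENNReal.ofReal ((4 * a ^ 2 * (1 + κ)) ^ p) * (101 * J) := by
    rw [← hJ101]
    unfold JJ
    rw [← lintegral_const_mul _ hwm.ennreal_ofReal, ← lintegral_indicator (Ann_meas _ _ _),
      ← lintegral_indicator Metric.isOpen_ball.measurableSet]
    refine lintegral_mono fun x => ?_
    by_cases hxR : x ∈ Metric.ball (0 : EuclideanSpace ℝ (Fin N)) R
    swap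
    · rw [indicator_of_notMem hxR]; exact zero_le
    rw [indicator_of_mem hxR]
    rw [Metric.mem_ball, dist_zero_right] at hxR
    by_cases hx : x ∈ Ann N (q ^ 101 * R) R
    · rw [indicator_of_mem hx, ← ENNReal.ofReal_mul (by positivity)]
      apply ENNReal.ofReal_le_ofReal
      have hx0 : 0 < ‖x‖ := lt_trans (by positivity) hx.1
      set θ := 2 * a * (Real.log R - Real.log ‖x‖) with hθ
      have hbd : |4 * a ^ 2 * (U2 θ - U θ) - 2 * ((N : ℝ) - 2) * a * U1 θ| ≤
          4 * a ^ 2 * (1 + κ) := by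
        have h1 := hUU θ
        have h2 := hUb θ
        have h3 : |4 * a ^ 2 * (U2 θ - U θ)| ≤ 4 * a ^ 2 * 1 := by
          rw [abs_mul, abs_of_nonneg (by positivity : 0 ≤ 4 * a ^ 2)]
          exact mul_le_mul_of_nonneg_left h1 (by positivity)
        have hN2 : 0 ≤ 2 * ((N : ℝ) - 2) * a := by
          have : 0 ≤ (N : ℝ) - 2 := by linarith
          positivity
        have h4 : |2 * ((N : ℝ) - 2) * a * U1 θ| ≤ 2 * ((N : ℝ) - 2) * a * 1 := by
          rw [abs_mul, abs_of_nonneg hN2]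
          exact mul_le_mul_of_nonneg_left h2 hN2
        have h5 : 2 * ((N : ℝ) - 2) * a * 1 ≤ 4 * a ^ 2 * κ := by
          have h6 : ((N : ℝ) - 2) ≤ 2 * a * κ := by
            rw [hκ]
            have h7 : (N : ℝ) ^ 2 ≤ a := by rw [← hmr]; exact ham
            nlinarith
          nlinarith
        calc |4 * a ^ 2 * (U2 θ - U θ) - 2 * ((N : ℝ) - 2) * a * U1 θ|
            ≤ |4 * a ^ 2 * (U2 θ - U θ)| + |2 * ((N : ℝ) - 2) * a * U1 θ| := abs_sub _ _
          _ ≤ 4 * a ^ 2 * 1 + 4 * a ^ 2 * κ := by linarith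
          _ = 4 * a ^ 2 * (1 + κ) := by ring
      have hlx : |(Δ u) x| ≤ (4 * a ^ 2 * (1 + κ)) *
          ((|(lin c x ^ (2 * m)).re| / ‖x‖ ^ (2 * m)) * (‖x‖ ^ 2)⁻¹) := by
        rw [hlap x, abs_mul, abs_mul, abs_of_nonneg (by positivity : 0 ≤ (‖x‖ ^ (2 * m + 2))⁻¹)]
        have e : |(lin c x ^ (2 * m)).re| * ((‖x‖ ^ (2 * m + 2))⁻¹ *
            |4 * a ^ 2 * (U2 θ - U θ) - 2 * ((N : ℝ) - 2) * a * U1 θ|) =
            |4 * a ^ 2 * (U2 θ - U θ) - 2 * ((N : ℝ) - 2) * a * U1 θ| *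
            ((|(lin c x ^ (2 * m)).re| / ‖x‖ ^ (2 * m)) * (‖x‖ ^ 2)⁻¹) := by
          rw [pow_add, mul_inv]; ring
        rw [e]
        exact mul_le_mul_of_nonneg_right hbd (by positivity)
      have h8 : |(Δ u) x| ^ p ≤ ((4 * a ^ 2 * (1 + κ)) *
          ((|(lin c x ^ (2 * m)).re| / ‖x‖ ^ (2 * m)) * (‖x‖ ^ 2)⁻¹)) ^ p :=
        Real.rpow_le_rpow (abs_nonneg _) hlx hp0.le
      refine h8.trans (le_of_eq ?_)
      have hk : 0 < 1 + κ := by rw [hκ]; norm_num
      have hH0 : 0 ≤ |(lin c x ^ (2 * m)).re| / ‖x‖ ^ (2 * m) := by positivity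
      have e3 : w x = (|(lin c x ^ (2 * m)).re| / ‖x‖ ^ (2 * m)) ^ p * (‖x‖ ^ N)⁻¹ := by
        rw [hw]
        unfold wt
        rw [← hp, div_eq_mul_inv _ (‖x‖ ^ N)]
      rw [e3]
      generalize |(lin c x ^ (2 * m)).re| / ‖x‖ ^ (2 * m) = H0 at hH0
      have hA0 : 0 ≤ 4 * a ^ 2 * (1 + κ) := by positivity
      generalize 4 * a ^ 2 * (1 + κ) = A0 at hA0
      rw [Real.mul_rpow hA0 (by positivity), Real.mul_rpow hH0 (by positivity), hpowInv _ hx0.le]
    · rw [indicator_of_notMem hx]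
      have hz : (Δ u) x = 0 := by
        by_cases hx0 : ‖x‖ = 0
        · rw [hlap x, hx0, zero_pow (by omega)]; simp
        have hxp : 0 < ‖x‖ := lt_of_le_of_ne (norm_nonneg _) (Ne.symm hx0)
        have h1 : ‖x‖ ≤ q ^ 101 * R := by
          by_contra h
          exact hx ⟨not_le.mp h, hxR.le⟩
        have h2 := Real.log_le_log hxp h1
        rw [Real.log_mul (by positivity) hR.ne', Real.log_pow, hq, Real.log_exp] at h2
        have h3 : (4 : ℝ) < 2 * a * (Real.log R - Real.log ‖x‖) := by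
          have h4 : 101 * (1 / 25 / (2 * a)) ≤ Real.log R - Real.log ‖x‖ := by
            push_cast at h2; linarith
          have h5 : 2 * a * (101 * (1 / 25 / (2 * a))) ≤ 2 * a * (Real.log R - Real.log ‖x‖) :=
            mul_le_mul_of_nonneg_left h4 (by positivity)
          have h6 : 2 * a * (101 * (1 / 25 / (2 * a))) = 101 / 25 := by field_simp
          linarith
        rw [hlap x, U2_zero hU hU1 hU4 h3, U1_zero hU hU4 h3, hU4 _ h3.le]
        ring
      rw [hz, abs_zero, Real.zero_rpow hp0.ne']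
      simp
  -- lower bound
  have hlower : ENNReal.ofReal ((4 * a ^ 2) ^ p * (201 / 400) ^ p) * J ≤
      ∫⁻ x in Metric.ball (0 : EuclideanSpace ℝ (Fin N)) R,
        ENNReal.ofReal (|u x| ^ p / (‖x‖ ^ N * (Real.log (R / ‖x‖)) ^ N)) := by
    rw [← hJ1]
    unfold JJ
    rw [← lintegral_const_mul _ hwm.ennreal_ofReal, ← lintegral_indicator (Ann_meas _ _ _),
      ← lintegral_indicator Metric.isOpen_ball.measurableSet]
    refine lintegral_mono fun x => ?_
    by_cases hx : x ∈ Ann N (q * R1) R1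
    swap
    · rw [indicator_of_notMem hx]; exact zero_le
    have hx0 : 0 < ‖x‖ := lt_trans (by positivity) hx.1
    have hR1R : R1 < R := by
      rw [hR1]
      have : Real.exp (-(23 / 50 / (2 * a))) < 1 := by
        rw [Real.exp_lt_one_iff]
        have : 0 < 23 / 50 / (2 * a) := by positivity
        linarith
      nlinarith
    have hxR : x ∈ Metric.ball (0 : EuclideanSpace ℝ (Fin N)) R := by
      rw [Metric.mem_ball, dist_zero_right]
      exact lt_of_le_of_lt hx.2 hR1R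
    rw [indicator_of_mem hx, indicator_of_mem hxR, ← ENNReal.ofReal_mul (by positivity)]
    apply ENNReal.ofReal_le_ofReal
    set θ := 2 * a * (Real.log R - Real.log ‖x‖) with hθ
    have hlog : Real.log (R / ‖x‖) = θ / (2 * a) := by
      rw [Real.log_div hR.ne' hx0.ne', hθ]; field_simp
    have hθ1 : 23 / 50 ≤ θ := by
      have h1 := Real.log_le_log hx0 hx.2
      rw [hR1, Real.log_mul hR.ne' (Real.exp_pos _).ne', Real.log_exp] at h1
      have h4 : 23 / 50 / (2 * a) ≤ Real.log R - Real.log ‖x‖ := by linarith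
      have h5 : 2 * a * (23 / 50 / (2 * a)) ≤ θ :=
        mul_le_mul_of_nonneg_left h4 (by positivity)
      have h6 : 2 * a * (23 / 50 / (2 * a)) = 23 / 50 := by field_simp
      linarith
    have hθ2 : θ ≤ 1 / 2 := by
      have h1 := Real.log_lt_log (by positivity) hx.1
      rw [hR1, Real.log_mul hq0.ne' (by positivity), Real.log_mul hR.ne' (Real.exp_pos _).ne',
        hq, Real.log_exp, Real.log_exp] at h1
      have h4 : Real.log R - Real.log ‖x‖ ≤ 1 / 2 / (2 * a) := by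
        have : (1 : ℝ) / 2 / (2 * a) = 1 / 25 / (2 * a) + 23 / 50 / (2 * a) := by
          field_simp; norm_num
        rw [this]; linarith
      have h5 : θ ≤ 2 * a * (1 / 2 / (2 * a)) :=
        mul_le_mul_of_nonneg_left h4 (by positivity)
      have h6 : 2 * a * (1 / 2 / (2 * a)) = 1 / 2 := by field_simp
      linarith
    have hθ0 : 0 < θ := by linarith
    have hUθ := hUl θ hθ1 hθ2
    have hUx : |u x| = (|(lin c x ^ (2 * m)).re| / ‖x‖ ^ (2 * m)) * |U θ| := by
      rw [hux x, abs_mul, abs_mul, abs_of_nonneg (by positivity : 0 ≤ (‖x‖ ^ (2 * m))⁻¹)]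
      ring
    have hUabs : (201 / 400) * θ ^ 2 ≤ |U θ| := hUθ.trans (le_abs_self _)
    have h9 : (201 / 400 : ℝ) ^ p * θ ^ N ≤ |U θ| ^ p := by
      rw [← hpowN θ hθ0.le, ← Real.mul_rpow (by norm_num) (by positivity)]
      exact Real.rpow_le_rpow (by positivity) hUabs hp0.le
    have e1 : (4 * a ^ 2) ^ p = (2 * a) ^ N := by
      rw [← hpowN (2 * a) (by positivity)]; congr 1; ring
    rw [e1, hUx, Real.mul_rpow (by positivity) (abs_nonneg (U θ)), hlog, div_pow]
    rw [hw]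
    unfold wt
    rw [← hp]
    set H := (|(lin c x ^ (2 * m)).re| / ‖x‖ ^ (2 * m)) ^ p with hH
    have hH0 : 0 ≤ H := by rw [hH]; positivity
    have e2 : H * |U θ| ^ p / (‖x‖ ^ N * (θ ^ N / (2 * a) ^ N)) =
        (H / ‖x‖ ^ N) * (2 * a) ^ N * (|U θ| ^ p / θ ^ N) := by
      field_simp
    rw [e2]
    have h10 : (201 / 400 : ℝ) ^ p ≤ |U θ| ^ p / θ ^ N := by
      rw [le_div_iff₀ (by positivity)]; exact h9
    calc (2 * a) ^ N * (201 / 400) ^ p * (H / ‖x‖ ^ N)
        = (H / ‖x‖ ^ N) * (2 * a) ^ N * (201 / 400) ^ p := by ring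
      _ ≤ _ := mul_le_mul_of_nonneg_left h10 (by positivity)
  -- conclusion
  refine lt_of_le_of_lt hupper (lt_of_lt_of_le ?_ (mul_le_mul_right hlower _))
  rw [← mul_assoc, ← mul_assoc, ← ENNReal.ofReal_mul (by positivity)]
  have e101 : ENNReal.ofReal ((4 * a ^ 2 * (1 + κ)) ^ p) * 101 =
      ENNReal.ofReal ((4 * a ^ 2 * (1 + κ)) ^ p * 101) := by
    rw [ENNReal.ofReal_mul (by have : 0 < 1 + κ := by rw [hκ]; norm_num
                               positivity)]
    norm_num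
  rw [e101]
  refine (ENNReal.mul_lt_mul_iff_left hJpos.ne' hJtop.ne).mpr ?_
  rw [ENNReal.ofReal_lt_ofReal_iff_of_nonneg]
  · have hk : 0 < 1 + κ := by rw [hκ]; norm_num
    rw [Real.mul_rpow (by positivity) hk.le]
    have h1 : 0 < (4 * a ^ 2) ^ p := Real.rpow_pos_of_pos (by positivity) p
    nlinarith [mul_lt_mul_of_pos_left hfin h1]
  · have hk : 0 < 1 + κ := by rw [hκ]; norm_num
    positivity

end Q94.RN
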