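import Mathlib

/-!
Spirallike functions `z (1-z)^(-c)`, `|c|^2 ≤ 2 Re c`: univalence, Taylor coefficients,
and uniqueness of Taylor coefficients.
-/

set_option autoImplicit false

namespace Q94.SN

open Complex Filter Topology Metric

/-- Taylor coefficient at `0` -/
noncomputable def coeff (F : ℂ → ℂ) (n : ℕ) : ℂ := iteratedDeriv n F 0 / (n.factorial : ℂ)

theorem hasSum_coeff {F : ℂ → ℂ} (hF : DifferentiableOn ℂ F (ball (0:ℂ) 1)) {z : ℂ}
    (hz : z ∈ ball (0:ℂ) 1) : HasSum (fun n => coeff F n * z ^ n) (F z) := by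
  have h := Complex.hasSum_taylorSeries_on_ball hF hz
  have e : (fun n : ℕ ↦ ((n.factorial : ℂ))⁻¹ • (z - 0) ^ n • iteratedDeriv n F 0) =
      fun n => coeff F n * z ^ n := by
    funext n
    simp only [smul_eq_mul, sub_zero, coeff]
    ring
  rw [e] at h
  exact h

theorem coeff_unique {F : ℂ → ℂ} (hF : DifferentiableOn ℂ F (ball (0:ℂ) 1)) {a : ℕ → ℂ}
    (h : ∀ z ∈ ball (0:ℂ) 1, HasSum (fun n => a n * z ^ n) (F z)) (n : ℕ) : coeff F n = a n := by
  have h1 : HasFPowerSeriesAt F (FormalMultilinearSeries.ofScalars ℂ a) 0 := by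
    rw [hasFPowerSeriesAt_iff]
    filter_upwards [ball_mem_nhds (0:ℂ) one_pos] with z hz
    rw [zero_add]
    have := h z hz
    simpa [FormalMultilinearSeries.coeff_ofScalars, mul_comm] using this
  have h2 : AnalyticAt ℂ F 0 := hF.analyticAt (ball_mem_nhds (0:ℂ) one_pos)
  have h3 := h2.hasFPowerSeriesAt
  have h4 := h1.eq_formalMultilinearSeries h3
  have h5 := congrArg (fun p => FormalMultilinearSeries.coeff p n) h4
  simp only [FormalMultilinearSeries.coeff_ofScalars] at h5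
  exact h5.symm

/-- Cauchy-type bound for Taylor coefficients -/
theorem coeff_bound {F : ℂ → ℂ} (hF : DifferentiableOn ℂ F (ball (0:ℂ) 1)) {s : ℝ} (h0 : 0 < s)
    (h1 : s < 1) : ∃ C : ℝ, 0 ≤ C ∧ ∀ n, ‖coeff F n‖ * s ^ n ≤ C := by
  have hz : (s : ℂ) ∈ ball (0:ℂ) 1 := by
    rw [mem_ball_zero_iff, norm_real, Real.norm_of_nonneg h0.le]; exact h1
  have h := (hasSum_coeff hF hz).summable.tendsto_atTop_zero.norm.bddAbove_range
  obtain ⟨C, hC⟩ := h
  refine ⟨max C 0, le_max_right _ _, fun n => ?_⟩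
  have h2 : ‖coeff F n * (s:ℂ) ^ n‖ ≤ C := hC ⟨n, rfl⟩
  rw [norm_mul, norm_pow, norm_real, Real.norm_of_nonneg h0.le] at h2
  exact h2.trans (le_max_left _ _)

/-- `(1-z)^(-c)` -/
noncomputable def P (c z : ℂ) : ℂ := exp (-c * log (1 - z))

/-- the coefficients of `(1-z)^(-c)` -/
noncomputable def pc (c : ℂ) (m : ℕ) : ℂ := ∏ k ∈ Finset.range m, (c + k) / (k + 1)

/-- Pochhammer symbol -/
noncomputable def A (c : ℂ) (m : ℕ) : ℂ := ∏ k ∈ Finset.range m, (c + k)

theorem pc_zero (c : ℂ) : pc c 0 = 1 := by unfold pc; simp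

theorem pc_succ (c : ℂ) (m : ℕ) : pc c (m + 1) = pc c m * ((c + m) / (m + 1)) := by
  unfold pc; rw [Finset.prod_range_succ]

theorem one_sub_re {z : ℂ} (hz : z ∈ ball (0:ℂ) 1) : 0 < (1 - z).re := by
  have h1 : ‖z‖ < 1 := by simpa using hz
  have h2 := abs_re_le_norm z
  have h3 := le_abs_self z.re
  simp only [sub_re, one_re]
  linarith

theorem one_sub_mem {z : ℂ} (hz : z ∈ ball (0:ℂ) 1) : 1 - z ∈ slitPlane :=
  Or.inl (one_sub_re hz)

theorem one_sub_ne {z : ℂ} (hz : z ∈ ball (0:ℂ) 1) : 1 - z ≠ 0 :=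
  slitPlane_ne_zero (one_sub_mem hz)

theorem P_add (c d z : ℂ) : P (c + d) z = P c z * P d z := by
  unfold P; rw [← exp_add]; congr 1; ring

theorem P_zero (c : ℂ) : P c 0 = 1 := by unfold P; simp

theorem P_ne (c z : ℂ) : P c z ≠ 0 := exp_ne_zero _

theorem P_one {z : ℂ} (hz : z ∈ ball (0:ℂ) 1) : P 1 z = 1 / (1 - z) := by
  unfold P
  rw [neg_one_mul, exp_neg, exp_log (one_sub_ne hz), one_div]

theorem P_deriv (c : ℂ) {z : ℂ} (hz : z ∈ ball (0:ℂ) 1) :
    HasDerivAt (P c) (c * P (c + 1) z) z := by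
  have h1 : HasDerivAt (fun w : ℂ => 1 - w) (-1) z := by
    simpa using (hasDerivAt_id z).const_sub 1
  have h2 := ((h1.clog (one_sub_mem hz)).const_mul (-c)).cexp
  have h3 : exp (-c * log (1 - z)) * (-c * (-1 / (1 - z))) = c * P (c + 1) z := by
    rw [P_add, P_one hz]
    unfold P
    ring
  rw [h3] at h2
  exact h2

theorem P_diff (c : ℂ) : DifferentiableOn ℂ (P c) (ball (0:ℂ) 1) :=
  fun _ hz => (P_deriv c hz).differentiableAt.differentiableWithinAt

theorem P_iter (c : ℂ) (m : ℕ) : ∀ z ∈ ball (0:ℂ) 1,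
    iteratedDeriv m (P c) z = A c m * P (c + m) z := by
  induction m with
  | zero => intro z _; simp [A]
  | succ m ih =>
    intro z hz
    rw [iteratedDeriv_succ]
    have h1 : iteratedDeriv m (P c) =ᶠ[𝓝 z] fun z => A c m * P (c + m) z := by
      filter_upwards [isOpen_ball.mem_nhds hz] with w hw
      exact ih w hw
    rw [h1.deriv_eq, ((P_deriv (c + m) hz).const_mul (A c m)).deriv]
    have e1 : A c (m + 1) = A c m * (c + m) := by
      unfold A; rw [Finset.prod_range_succ]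
    have e2 : c + ((m + 1 : ℕ) : ℂ) = c + m + 1 := by push_cast; ring
    rw [e1, e2]
    ring

theorem A_div (c : ℂ) (m : ℕ) : A c m / (m.factorial : ℂ) = pc c m := by
  unfold A pc
  rw [Finset.prod_div_distrib]
  have h1 : ∏ k ∈ Finset.range m, ((k : ℂ) + 1) = (m.factorial : ℂ) := by
    rw [← Finset.prod_range_add_one_eq_factorial]
    push_cast
    rfl
  rw [h1]

theorem coeff_P (c : ℂ) (m : ℕ) : coeff (P c) m = pc c m := by
  unfold coeff
  rw [P_iter c m 0 (mem_ball_self zero_lt_one), P_zero, mul_one, A_div]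

theorem hasSum_P (c : ℂ) {z : ℂ} (hz : z ∈ ball (0:ℂ) 1) :
    HasSum (fun m => pc c m * z ^ m) (P c z) := by
  have h := hasSum_coeff (P_diff c) hz
  simp only [coeff_P] at h
  exact h

/-- the basic function `z (1-z)^(-c)` -/
noncomputable def Q (c z : ℂ) : ℂ := z * P c z

theorem Q_deriv (c : ℂ) {z : ℂ} (hz : z ∈ ball (0:ℂ) 1) :
    HasDerivAt (Q c) (P c z + z * (c * P (c + 1) z)) z := by
  have := (hasDerivAt_id z).mul (P_deriv c hz)
  simp only [id, one_mul] at this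
  exact this

theorem Q_diff (c : ℂ) : DifferentiableOn ℂ (Q c) (ball (0:ℂ) 1) :=
  fun _ hz => (Q_deriv c hz).differentiableAt.differentiableWithinAt

/-- the shifted sequence `0, a 0, a 1, …` -/
def shift (a : ℕ → ℂ) : ℕ → ℂ
  | 0 => 0
  | n + 1 => a n

theorem hasSum_shift {a : ℕ → ℂ} {z s : ℂ} (h : HasSum (fun n => a n * z ^ n) s) :
    HasSum (fun n => shift a n * z ^ n) (z * s) := by
  rw [← hasSum_nat_add_iff' 1]
  simp only [Finset.range_one, Finset.sum_singleton, shift, zero_mul, sub_zero]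
  have := h.mul_left z
  refine this.congr_fun ?_ |> fun h => h
  intro n
  ring

theorem coeff_Q (c : ℂ) (m : ℕ) : coeff (Q c) m = shift (pc c) m := by
  refine coeff_unique (Q_diff c) (fun z hz => ?_) m
  exact hasSum_shift (hasSum_P c hz)

/-! ### univalence -/

/-- logarithm of `Q c (exp ζ)` -/
noncomputable def ell (c ζ : ℂ) : ℂ := ζ - c * log (1 - exp ζ)

theorem exp_mem {ζ : ℂ} (h : ζ.re < 0) : exp ζ ∈ ball (0:ℂ) 1 := by
  rw [mem_ball_zero_iff, norm_exp]
  exact Real.exp_lt_one_iff.mpr h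

theorem ell_deriv (c : ℂ) {ζ : ℂ} (h : ζ.re < 0) :
    HasDerivAt (ell c) (1 + c * exp ζ / (1 - exp ζ)) ζ := by
  have h1 : HasDerivAt (fun w : ℂ => 1 - exp w) (-exp ζ) ζ := (hasDerivAt_exp ζ).const_sub 1
  have h2 := (hasDerivAt_id ζ).sub ((h1.clog (one_sub_mem (exp_mem h))).const_mul c)
  have h3 : 1 - c * (-exp ζ / (1 - exp ζ)) = 1 + c * exp ζ / (1 - exp ζ) := by ring
  rw [h3] at h2
  exact h2

theorem ell_pos {c : ℂ} (hc0 : c ≠ 0) (hc : normSq c ≤ 2 * c.re) {ζ : ℂ} (h : ζ.re < 0) :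
    0 < ((starRingEnd ℂ) c * (1 + c * exp ζ / (1 - exp ζ))).re := by
  have hm := exp_mem h
  generalize exp ζ = w at hm
  have hw : ‖w‖ < 1 := by simpa using hm
  have hne := one_sub_ne hm
  have hcc : (normSq c : ℂ) = (starRingEnd ℂ) c * c := normSq_eq_conj_mul_self
  have e1 : (starRingEnd ℂ) c * (1 + c * w / (1 - w)) =
      ((starRingEnd ℂ) c - (normSq c : ℂ)) + (normSq c : ℂ) * (1 - w)⁻¹ := by
    rw [hcc]
    field_simp
    ring
  rw [e1]
  have e2 : (((starRingEnd ℂ) c - (normSq c : ℂ)) + (normSq c : ℂ) * (1 - w)⁻¹ : ℂ).re =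
      c.re - normSq c + normSq c * ((1 - w)⁻¹).re := by
    rw [add_re, re_ofReal_mul]
    simp
  rw [e2, inv_re]
  have h3 : 0 < normSq (1 - w) := normSq_pos.mpr hne
  have h4 : 1 / 2 < (1 - w).re / normSq (1 - w) := by
    rw [lt_div_iff₀ h3, normSq_apply]
    simp only [sub_re, one_re, sub_im, one_im]
    have h5 : w.re * w.re + w.im * w.im < 1 := by
      rw [← normSq_apply, normSq_eq_norm_sq]
      nlinarith [norm_nonneg w]
    nlinarith
  have h6 : 0 < normSq c := normSq_pos.mpr hc0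
  nlinarith

theorem ell_inj {c : ℂ} (hc0 : c ≠ 0) (hc : normSq c ≤ 2 * c.re) {ζ ξ : ℂ} (h1 : ζ.re < 0)
    (h2 : ξ.re < 0) (h : ell c ζ = ell c ξ) : ζ = ξ := by
  by_contra hne
  have hD : ζ - ξ ≠ 0 := sub_ne_zero.mpr hne
  let p : ℝ → ℂ := fun s => ξ + s * (ζ - ξ)
  have hp : ∀ s ∈ Set.Icc (0:ℝ) 1, (p s).re < 0 := by
    intro s hs
    have e : (p s).re = (1 - s) * ξ.re + s * ζ.re := by
      simp only [p, add_re, re_ofReal_mul, sub_re]
      ring
    rw [e]
    rcases eq_or_lt_of_le hs.1 with h0 | h0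
    · rw [← h0]; linarith
    · nlinarith [hs.2]
  let u : ℝ → ℝ := fun s => ((starRingEnd ℂ) c * (ell c (p s) / (ζ - ξ))).re
  have hu : ∀ s ∈ Set.Icc (0:ℝ) 1, HasDerivAt u
      (((starRingEnd ℂ) c * (1 + c * exp (p s) / (1 - exp (p s)))).re) s := by
    intro s hs
    have hps : HasDerivAt p (ζ - ξ) s := by
      have := ((hasDerivAt_id (s:ℝ)).ofReal_comp.mul_const (ζ - ξ)).const_add ξ
      exact this.congr_deriv (by simp)
    have hcc := (ell_deriv c (hp s hs)).comp s hps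
    have hc2 := (hcc.div_const (ζ - ξ)).const_mul ((starRingEnd ℂ) c)
    have e : (starRingEnd ℂ) c * ((1 + c * exp (p s) / (1 - exp (p s))) * (ζ - ξ) / (ζ - ξ)) =
        (starRingEnd ℂ) c * (1 + c * exp (p s) / (1 - exp (p s))) := by
      rw [mul_div_assoc, div_self hD, mul_one]
    rw [e] at hc2
    exact (Complex.reCLM.hasFDerivAt.comp_hasDerivAt s hc2)
  obtain ⟨s, hs, hs'⟩ := exists_hasDerivAt_eq_slope u _ zero_lt_one
    (fun s hs => (hu s hs).continuousAt.continuousWithinAt)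
    (fun s hs => hu s (Set.Ioo_subset_Icc_self hs))
  have hpos := ell_pos hc0 hc (hp s (Set.Ioo_subset_Icc_self hs))
  have e0 : u 1 - u 0 = 0 := by
    simp only [u, p]
    have a1 : ξ + ((1:ℝ):ℂ) * (ζ - ξ) = ζ := by push_cast; ring
    have a0 : ξ + ((0:ℝ):ℂ) * (ζ - ξ) = ξ := by push_cast; ring
    rw [a1, a0, h]
    ring
  rw [e0] at hs'
  simp only [sub_zero, div_one] at hs'
  rw [hs'] at hpos
  exact lt_irrefl _ hpos

theorem ell_add (c ζ : ℂ) (n : ℤ) :
    ell c (ζ + n * (2 * Real.pi * I)) = ell c ζ + n * (2 * Real.pi * I) := by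
  unfold ell
  rw [exp_add, exp_int_mul_two_pi_mul_I, mul_one]
  ring

theorem Q_inj {c : ℂ} (hc0 : c ≠ 0) (hc : normSq c ≤ 2 * c.re) :
    Set.InjOn (Q c) (ball (0:ℂ) 1) := by
  intro z hz z' hz' h
  by_cases h0 : z = 0
  · rw [h0] at h ⊢
    unfold Q at h
    rw [zero_mul] at h
    rcases mul_eq_zero.mp h.symm with h1 | h1
    · exact h1.symm
    · exact absurd h1 (P_ne _ _)
  by_cases h0' : z' = 0
  · rw [h0'] at h ⊢
    unfold Q at h
    rw [zero_mul] at h
    rcases mul_eq_zero.mp h with h1 | h1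
    · exact h1
    · exact absurd h1 (P_ne _ _)
  have hlog : ∀ w ∈ ball (0:ℂ) 1, w ≠ 0 → (log w).re < 0 ∧
      Q c w = exp (ell c (log w)) := by
    intro w hw hw0
    have hw1 : ‖w‖ < 1 := by simpa using hw
    refine ⟨?_, ?_⟩
    · rw [log_re]
      exact Real.log_neg (norm_pos_iff.mpr hw0) hw1
    · unfold Q ell P
      rw [exp_log hw0, show log w - c * log (1 - w) = log w + (-c * log (1 - w)) by ring,
        exp_add, exp_log hw0]
  obtain ⟨r1, e1⟩ := hlog z hz h0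
  obtain ⟨r2, e2⟩ := hlog z' hz' h0'
  rw [e1, e2] at h
  obtain ⟨n, hn⟩ := exp_eq_exp_iff_exists_int.mp h
  rw [← ell_add] at hn
  have hre : (log z' + n * (2 * Real.pi * I)).re < 0 := by
    have : (log z' + n * (2 * Real.pi * I)).re = (log z').re := by simp
    rw [this]; exact r2
  have h3 := ell_inj hc0 hc r1 hre hn
  have h4 := congrArg exp h3
  rw [exp_add, exp_int_mul_two_pi_mul_I, mul_one, exp_log h0, exp_log h0'] at h4
  exact h4

end Q94.SN
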