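import Pool.Agent.Q94.SNA

/-!
The pairing of `z (1-z)^(-(1+γ))` with `(1-z)^(1+iε)` is of size `1/ε`.
-/

set_option autoImplicit false

namespace Q94.SN

open Complex Filter Topology Metric

/-- exponent of the spirallike function: `c = 2 - ε² + iε` -/
noncomputable def cc (ε : ℝ) : ℂ := (2 - ε ^ 2) + ε * I

/-- exponent parameter of the neighbourhood function -/
noncomputable def bb (ε : ℝ) : ℂ := -(1 + ε * I)

theorem cc_re (ε : ℝ) : (cc ε).re = 2 - ε ^ 2 := by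
  unfold cc
  simp [← ofReal_pow]

theorem cc_im (ε : ℝ) : (cc ε).im = ε := by
  unfold cc
  simp [← ofReal_pow]

theorem cc_ne {ε : ℝ} (h0 : 0 < ε) : cc ε ≠ 0 := by
  intro h
  have := cc_im ε
  rw [h] at this
  simp at this
  exact h0.ne this

theorem cc_spiral {ε : ℝ} (h1 : ε ^ 2 ≤ 1) : normSq (cc ε) ≤ 2 * (cc ε).re := by
  rw [normSq_apply, cc_re, cc_im]
  nlinarith [sq_nonneg ε]

/-- the products of coefficients -/
noncomputable def t (ε : ℝ) (m : ℕ) : ℂ := pc (cc ε) m * pc (bb ε) m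

noncomputable def X (ε : ℝ) (m : ℕ) : ℂ := m * t ε m

theorem t_zero (ε : ℝ) : t ε 0 = 1 := by unfold t; rw [pc_zero, pc_zero, mul_one]

theorem t_succ (ε : ℝ) (m : ℕ) :
    t ε (m + 1) = t ε m * ((cc ε + m) * (m - 1 - ε * I) / ((m + 1) * (m + 1))) := by
  unfold t
  rw [pc_succ, pc_succ]
  have h : (m : ℂ) + 1 ≠ 0 := Nat.cast_add_one_ne_zero m
  unfold bb
  field_simp
  ring

/-- norm of the first factor -/
theorem norm_cc_add {ε : ℝ} (h1 : ε ^ 2 ≤ 1) (m : ℕ) : ‖cc ε + m‖ ≤ m + 2 := by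
  have h : ‖cc ε + m‖ ^ 2 ≤ ((m : ℝ) + 2) ^ 2 := by
    rw [← normSq_eq_norm_sq, normSq_apply, add_re, add_im, cc_re, cc_im]
    simp only [natCast_re, natCast_im, add_zero]
    have hm : (0 : ℝ) ≤ m := Nat.cast_nonneg m
    nlinarith [sq_nonneg ε, mul_nonneg hm (sq_nonneg ε)]
  have hm : (0 : ℝ) ≤ m := Nat.cast_nonneg m
  exact le_of_sq_le_sq h (by linarith)

theorem norm_second (ε : ℝ) (m : ℕ) : ‖(m : ℂ) - 1 - ε * I‖ ^ 2 = ((m : ℝ) - 1) ^ 2 + ε ^ 2 := by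
  rw [← normSq_eq_norm_sq, normSq_apply]
  simp
  ring

theorem norm_t_succ {ε : ℝ} (h1 : ε ^ 2 ≤ 1) (m : ℕ) {x : ℝ} (hx : 0 ≤ x)
    (hx2 : ((m : ℝ) - 1) ^ 2 + ε ^ 2 ≤ x ^ 2) :
    ‖t ε (m + 1)‖ ≤ ‖t ε m‖ * ((m + 2) * x / (m + 1) ^ 2) := by
  have e1 : ‖(m : ℂ) + 1‖ = (m : ℝ) + 1 := by
    have : (m : ℂ) + 1 = ((m + 1 : ℕ) : ℂ) := by push_cast; ring
    rw [this, norm_natCast]; push_cast; ring
  rw [t_succ, norm_mul, norm_div, norm_mul, norm_mul, e1, ← sq]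
  have h2 := norm_cc_add h1 m
  have h3 : ‖(m : ℂ) - 1 - ε * I‖ ≤ x := by
    apply le_of_sq_le_sq _ hx
    rw [norm_second]; exact hx2
  have hm : (0 : ℝ) ≤ m := Nat.cast_nonneg m
  gcongr

theorem norm_t_one {ε : ℝ} (h1 : ε ^ 2 ≤ 1 / 100) : ‖t ε 1‖ ≤ 201 / 100 := by
  have h := norm_t_succ (ε := ε) (by linarith) 0 (x := 1005 / 1000) (by norm_num)
    (by norm_num; linarith)
  rw [t_zero] at h
  norm_num at h
  linarith

theorem norm_t_two {ε : ℝ} (h0 : 0 < ε) (h1 : ε ^ 2 ≤ 1 / 100) : ‖t ε 2‖ ≤ 6030 / 4000 * ε := by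
  have h := norm_t_succ (ε := ε) (by linarith) 1 (x := ε) h0.le (by norm_num)
  norm_num at h
  have h2 := norm_t_one h1
  calc ‖t ε 2‖ ≤ ‖t ε 1‖ * (3 * ε / 4) := h
    _ ≤ 201 / 100 * (3 * ε / 4) := by gcongr
    _ = _ := by ring

theorem norm_t_three {ε : ℝ} (h0 : 0 < ε) (h1 : ε ^ 2 ≤ 1 / 100) :
    ‖t ε 3‖ ≤ 674 / 1000 * ε := by
  have h := norm_t_succ (ε := ε) (by linarith) 2 (x := 1005 / 1000) (by norm_num)
    (by norm_num; linarith)
  norm_num at h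
  have h2 := norm_t_two h0 h1
  nlinarith [norm_nonneg (t ε 2)]

theorem norm_t_four {ε : ℝ} (h0 : 0 < ε) (h1 : ε ^ 2 ≤ 1 / 100) :
    ‖t ε 4‖ ≤ 423 / 1000 * ε := by
  have h := norm_t_succ (ε := ε) (by linarith) 3 (x := 2005 / 1000) (by norm_num)
    (by norm_num; linarith)
  norm_num at h
  have h2 := norm_t_three h0 h1
  nlinarith [norm_nonneg (t ε 3)]

/-- `X_{m+1} = X_m (m+c)(m-1-iε) / (m (m+1))` -/
theorem X_succ (ε : ℝ) (m : ℕ) (hm : 1 ≤ m) :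
    X ε (m + 1) = X ε m * ((cc ε + m) * (m - 1 - ε * I) / (m * (m + 1))) := by
  unfold X
  rw [t_succ]
  have h : (m : ℂ) + 1 ≠ 0 := Nat.cast_add_one_ne_zero m
  have h' : (m : ℂ) ≠ 0 := by exact_mod_cast (by omega : m ≠ 0)
  push_cast
  field_simp

theorem ratio_bound {ε : ℝ} (h1 : ε ^ 2 ≤ 1 / 100) (m : ℕ) (hm : 1 ≤ m) :
    ‖(cc ε + m) * (m - 1 - ε * I) / (m * (m + 1))‖ ≤ 1 - ε ^ 2 / (m + 1) := by
  have hm' : (1 : ℝ) ≤ m := by exact_mod_cast hm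
  have he : 0 ≤ ε ^ 2 := sq_nonneg ε
  have hpos : 0 < 1 - ε ^ 2 / ((m : ℝ) + 1) := by
    have : ε ^ 2 / ((m : ℝ) + 1) < 1 := by
      rw [div_lt_one (by linarith)]; linarith
    linarith
  apply le_of_sq_le_sq _ hpos.le
  rw [norm_div, norm_mul, div_pow, mul_pow, norm_second]
  have e1 : ‖cc ε + (m : ℂ)‖ ^ 2 = (m + 2 - ε ^ 2) ^ 2 + ε ^ 2 := by
    rw [← normSq_eq_norm_sq, normSq_apply, add_re, add_im, cc_re, cc_im]
    simp only [natCast_re, natCast_im, add_zero]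
    ring
  have e3 : ‖(m : ℂ) * (m + 1)‖ ^ 2 = ((m:ℝ) * (m + 1)) ^ 2 := by
    rw [← normSq_eq_norm_sq, normSq_apply]
    simp
    ring
  rw [e1, e3, div_le_iff₀ (by positivity)]
  have e4 : (1 - ε ^ 2 / ((m:ℝ) + 1)) ^ 2 * ((m:ℝ) * (m + 1)) ^ 2 =
      (m * (m + 1 - ε ^ 2)) ^ 2 := by
    field_simp
  rw [e4]
  generalize ε ^ 2 = e at h1 he
  have k1 : ((m:ℝ) + 2 - e) ^ 2 * ((m:ℝ) - 1) ^ 2 = (m * (m + 1 - e)) ^ 2
      - 2 * (2 - e) * (m * (m + 1 - e)) + (2 - e) ^ 2 := by ring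
  have k2 : (((m:ℝ) + 2 - e) ^ 2 + e) * (((m:ℝ) - 1) ^ 2 + e) =
      (m * (m + 1 - e)) ^ 2 - 2 * (2 - e) * (m * (m + 1 - e)) + (2 - e) ^ 2 +
      e * ((m - 1) ^ 2 + (m + 2 - e) ^ 2) + e ^ 2 := by
    rw [← k1]; ring
  rw [k2]
  have k3 : (m - 1) ^ 2 + (m + 2 - e) ^ 2 ≤ 10 * (m:ℝ) ^ 2 := by nlinarith
  have k4 : e * ((m - 1) ^ 2 + (m + 2 - e) ^ 2) ≤ 1 / 100 * (10 * (m:ℝ) ^ 2) := by
    apply mul_le_mul h1 k3 (by positivity) (by norm_num)
  have k5 : 398 / 100 * ((m:ℝ) * (m + 99 / 100)) ≤ 2 * (2 - e) * (m * (m + 1 - e)) := by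
    apply mul_le_mul (by linarith) _ (by positivity) (by linarith)
    apply mul_le_mul_of_nonneg_left (by linarith) (by linarith)
  nlinarith

theorem X_step {ε : ℝ} (h1 : ε ^ 2 ≤ 1 / 100) (m : ℕ) (hm : 1 ≤ m) :
    ‖X ε (m + 1)‖ ≤ (1 - ε ^ 2 / (m + 1)) * ‖X ε m‖ := by
  rw [X_succ ε m hm, norm_mul, mul_comm]
  exact mul_le_mul_of_nonneg_right (ratio_bound h1 m hm) (norm_nonneg _)

theorem X_bound {ε : ℝ} (h0 : 0 < ε) (h1 : ε ^ 2 ≤ 1 / 100) (m : ℕ) (hm : 4 ≤ m) :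
    ‖X ε m‖ ≤ 1692 / 1000 * ε := by
  induction m, hm using Nat.le_induction with
  | base =>
    unfold X
    rw [norm_mul]
    have := norm_t_four h0 h1
    have e : ‖((4 : ℕ) : ℂ)‖ = 4 := by simp
    rw [e]
    linarith
  | succ m hm ih =>
    refine (X_step h1 m (by omega)).trans ?_
    have h1 : (0:ℝ) ≤ ε ^ 2 / (m + 1) := by positivity
    nlinarith [norm_nonneg (X ε m)]

theorem X_exp {ε : ℝ} (h0 : 0 < ε) (h1 : ε ^ 2 ≤ 1 / 100) (n : ℕ) : ‖X ε (n + 4)‖ ≤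
    (1692 / 1000 * ε * Real.exp (ε ^ 2 * ∑ i ∈ Finset.range 4, 1 / ((i : ℝ) + 1))) *
      Real.exp (-(ε ^ 2 * ∑ i ∈ Finset.range (n + 4), 1 / ((i : ℝ) + 1))) := by
  induction n with
  | zero =>
    rw [zero_add, mul_assoc, ← Real.exp_add]
    simp only [add_neg_cancel, Real.exp_zero, mul_one]
    exact X_bound h0 h1 4 le_rfl
  | succ n ih =>
    have h2 := X_step h1 (n + 4) (by omega)
    have e : n + 1 + 4 = n + 4 + 1 := by ring
    rw [e]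
    refine h2.trans ?_
    have h3 : 1 - ε ^ 2 / (((n + 4 : ℕ) : ℝ) + 1) ≤
        Real.exp (-(ε ^ 2 * (1 / (((n + 4 : ℕ) : ℝ) + 1)))) := by
      have := Real.add_one_le_exp (-(ε ^ 2 * (1 / (((n + 4 : ℕ) : ℝ) + 1))))
      refine le_trans (le_of_eq ?_) this
      ring
    calc (1 - ε ^ 2 / (((n + 4 : ℕ) : ℝ) + 1)) * ‖X ε (n + 4)‖
        ≤ Real.exp (-(ε ^ 2 * (1 / (((n + 4 : ℕ) : ℝ) + 1)))) * _ :=
          mul_le_mul h3 ih (norm_nonneg _) (Real.exp_pos _).le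
      _ = _ := by
        rw [Finset.sum_range_succ _ (n + 4), mul_comm, mul_assoc, ← Real.exp_add]
        congr 2
        ring

theorem X_tendsto {ε : ℝ} (h0 : 0 < ε) (h1 : ε ^ 2 ≤ 1 / 100) : Tendsto (X ε) atTop (𝓝 0) := by
  rw [← tendsto_add_atTop_iff_nat 4]
  apply squeeze_zero_norm (X_exp h0 h1)
  rw [← mul_zero (1692 / 1000 * ε * Real.exp (ε ^ 2 * ∑ i ∈ Finset.range 4, 1 / ((i : ℝ) + 1)))]
  apply Tendsto.const_mul
  apply Real.tendsto_exp_neg_atTop_nhds_zero.comp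
  apply Tendsto.const_mul_atTop (by positivity)
  exact (Real.tendsto_sum_range_one_div_nat_succ_atTop).comp (tendsto_add_atTop_nat 4)

/-- the telescoping identity -/
theorem telescope (ε : ℝ) (M : ℕ) : X ε M = -(ε : ℂ) ^ 2 * ∑ m ∈ Finset.range M, t ε m +
    ((ε : ℂ) ^ 2 - cc ε * (1 + ε * I)) * ∑ m ∈ Finset.range M, t ε m / (m + 1) := by
  induction M with
  | zero => unfold X; simp
  | succ M ih =>
    rw [Finset.sum_range_succ, Finset.sum_range_succ]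
    have h : (M : ℂ) + 1 ≠ 0 := Nat.cast_add_one_ne_zero M
    have e : X ε (M + 1) = X ε M - (ε : ℂ) ^ 2 * t ε M +
        ((ε : ℂ) ^ 2 - cc ε * (1 + ε * I)) * (t ε M / (M + 1)) := by
      unfold X
      rw [t_succ]
      unfold cc
      push_cast
      field_simp
      ring
    rw [e, ih]
    ring

noncomputable def qs (ε : ℝ) (M : ℕ) : ℂ := ∑ m ∈ Finset.range M, t ε m / (m + 1)

theorem term_bound {ε : ℝ} (h0 : 0 < ε) (h1 : ε ^ 2 ≤ 1 / 100) (n : ℕ) :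
    ‖t ε (n + 4) / (((n + 4 : ℕ) : ℂ) + 1)‖ ≤
    1692 / 1000 * ε * (1 / ((n + 4 : ℝ)) - 1 / ((n + 5 : ℝ))) := by
  have h1 := X_bound h0 h1 (n + 4) (by omega)
  unfold X at h1
  rw [norm_mul] at h1
  have e1 : ‖((n + 4 : ℕ) : ℂ)‖ = (n : ℝ) + 4 := by
    rw [norm_natCast]; push_cast; ring
  rw [e1] at h1
  have e2 : ‖((n + 4 : ℕ) : ℂ) + 1‖ = (n : ℝ) + 5 := by
    have : ((n + 4 : ℕ) : ℂ) + 1 = ((n + 5 : ℕ) : ℂ) := by push_cast; ring
    rw [this, norm_natCast]; push_cast; ring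
  rw [norm_div, e2]
  have hn : (0:ℝ) ≤ n := Nat.cast_nonneg n
  have e3 : 1 / ((n + 4 : ℝ)) - 1 / ((n + 5 : ℝ)) = 1 / ((n + 4) * (n + 5)) := by
    field_simp
    ring
  rw [e3, div_le_iff₀ (by linarith)]
  have e4 : 1692 / 1000 * ε * (1 / (((n : ℝ) + 4) * (n + 5))) * (n + 5) =
      1692 / 1000 * ε / (n + 4) := by
    field_simp
  rw [e4, le_div_iff₀ (by linarith)]
  linarith

theorem qs_bound {ε : ℝ} (h0 : 0 < ε) (h1 : ε ^ 2 ≤ 1 / 100) (n : ℕ) :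
    ‖qs ε (n + 4) - qs ε 4‖ ≤ 1692 / 1000 * ε * (1 / 4 - 1 / ((n + 4 : ℝ))) := by
  induction n with
  | zero => simp
  | succ n ih =>
    have e : qs ε (n + 1 + 4) = qs ε (n + 4) + t ε (n + 4) / (((n + 4 : ℕ) : ℂ) + 1) := by
      unfold qs
      rw [show n + 1 + 4 = (n + 4) + 1 by ring, Finset.sum_range_succ]
    rw [e]
    have h1 := term_bound h0 h1 n
    have h2 : qs ε (n + 4) + t ε (n + 4) / (((n + 4 : ℕ) : ℂ) + 1) - qs ε 4 =
        (qs ε (n + 4) - qs ε 4) + t ε (n + 4) / (((n + 4 : ℕ) : ℂ) + 1) := by ring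
    rw [h2]
    refine (norm_add_le _ _).trans ?_
    refine (add_le_add ih h1).trans (le_of_eq ?_)
    push_cast
    ring

theorem summable_q {ε : ℝ} (h0 : 0 < ε) (h1 : ε ^ 2 ≤ 1 / 100) :
    Summable (fun m : ℕ => t ε m / ((m : ℂ) + 1)) := by
  rw [← summable_nat_add_iff 4]
  apply Summable.of_norm_bounded (g := fun n : ℕ => 1 / ((n + 1 : ℕ) : ℝ) ^ 2)
  · exact (summable_nat_add_iff 1).mpr (Real.summable_one_div_nat_pow.mpr one_lt_two)
  · intro n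
    refine (term_bound h0 h1 n).trans ?_
    have hn : (0:ℝ) ≤ n := Nat.cast_nonneg n
    have e3 : 1 / ((n + 4 : ℝ)) - 1 / ((n + 5 : ℝ)) = 1 / ((n + 4) * (n + 5)) := by
      field_simp
      ring
    rw [e3]
    push_cast
    have h1' : 1 / (((n : ℝ) + 4) * (n + 5)) ≤ 1 / ((n : ℝ) + 1) ^ 2 := by
      apply one_div_le_one_div_of_le (by positivity)
      nlinarith
    have h2 : 0 ≤ 1 / (((n : ℝ) + 4) * (n + 5)) := by positivity
    have h3 : ε ≤ 1 / 10 := by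
      by_contra hcon
      push Not at hcon
      nlinarith
    nlinarith

/-- the limit of the pairing is large -/
theorem exists_limit {ε : ℝ} (h0 : 0 < ε) (h1 : ε ^ 2 ≤ 1 / 100) :
    ∃ l : ℂ, Tendsto (fun M => ∑ m ∈ Finset.range M, t ε m) atTop (𝓝 l) ∧
    3 / (4 * ε) ≤ ‖l‖ := by
  obtain ⟨κ, hκ⟩ : ∃ κ, κ = ((ε : ℂ) ^ 2 - cc ε * (1 + ε * I) : ℂ) := ⟨_, rfl⟩
  obtain ⟨q, hq⟩ := summable_q h0 h1
  have hq' : Tendsto (qs ε) atTop (𝓝 q) := hq.tendsto_sum_nat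
  have hε : (ε : ℂ) ≠ 0 := by exact_mod_cast h0.ne'
  refine ⟨((ε : ℂ) ^ 2)⁻¹ * (κ * q), ?_, ?_⟩
  · have h1' : (fun M => ∑ m ∈ Finset.range M, t ε m) =
        fun M => ((ε : ℂ) ^ 2)⁻¹ * (κ * qs ε M - X ε M) := by
      funext M
      rw [telescope ε M, ← hκ]
      unfold qs
      field_simp
      ring
    rw [h1']
    have h2 := ((hq'.const_mul κ).sub (X_tendsto h0 h1)).const_mul ((ε : ℂ) ^ 2)⁻¹
    rw [sub_zero] at h2
    exact h2
  · have hkn : 197 / 100 ≤ ‖κ‖ := by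
      have h2 := abs_re_le_norm κ
      have h3 : κ.re = -(2 - 3 * ε ^ 2) := by
        rw [hκ]
        unfold cc
        simp [← ofReal_pow]
        ring
      rw [h3, abs_neg, abs_of_nonneg (by linarith)] at h2
      linarith
    have hq4n : 82 / 100 * ε ≤ ‖qs ε 4‖ := by
      have hexp : qs ε 4 = (t ε 0 + t ε 1 / 2) + t ε 2 / 3 + t ε 3 / 4 := by
        unfold qs
        rw [Finset.sum_range_succ, Finset.sum_range_succ, Finset.sum_range_succ,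
          Finset.sum_range_one]
        push_cast
        norm_num
      have h01 : 1495 / 1000 * ε ≤ ‖t ε 0 + t ε 1 / 2‖ := by
        have h2 := abs_im_le_norm (t ε 0 + t ε 1 / 2)
        have h3 : (t ε 0 + t ε 1 / 2).im = -(ε * (3 - ε ^ 2) / 2) := by
          have h4 : t ε 1 = -(cc ε * (1 + ε * I)) := by
            have := t_succ ε 0
            rw [t_zero] at this
            rw [this]
            push_cast
            ring
          rw [t_zero, h4]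
          have : ((1:ℂ) + -(cc ε * (1 + ε * I)) / 2).im = -((cc ε * (1 + ε * I)).im) / 2 := by
            simp
          rw [this]
          unfold cc
          simp [← ofReal_pow]
          ring
        rw [h3, abs_neg, abs_of_nonneg (by nlinarith)] at h2
        nlinarith
      have n2 : ‖t ε 2 / 3‖ ≤ 503 / 1000 * ε := by
        rw [norm_div]
        have := norm_t_two h0 h1
        norm_num
        linarith
      have n3 : ‖t ε 3 / 4‖ ≤ 169 / 1000 * ε := by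
        rw [norm_div]
        have := norm_t_three h0 h1
        norm_num
        linarith
      have key : ‖t ε 0 + t ε 1 / 2‖ ≤ ‖qs ε 4‖ + ‖t ε 2 / 3‖ + ‖t ε 3 / 4‖ := by
        have e : t ε 0 + t ε 1 / 2 = qs ε 4 - t ε 2 / 3 - t ε 3 / 4 := by rw [hexp]; ring
        rw [e]
        exact (norm_sub_le _ _).trans (by gcongr; exact norm_sub_le _ _)
      nlinarith
    have htail : ‖q - qs ε 4‖ ≤ 423 / 1000 * ε := by
      have h1' : Tendsto (fun n => ‖qs ε (n + 4) - qs ε 4‖) atTop (𝓝 ‖q - qs ε 4‖) :=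
        ((hq'.comp (tendsto_add_atTop_nat 4)).sub_const (qs ε 4)).norm
      apply le_of_tendsto h1'
      filter_upwards with n
      refine (qs_bound h0 h1 n).trans ?_
      have hn : (0:ℝ) ≤ n := Nat.cast_nonneg n
      have : 0 ≤ 1 / ((n + 4 : ℝ)) := by positivity
      nlinarith
    have hqn : 397 / 1000 * ε ≤ ‖q‖ := by
      have h1' : ‖qs ε 4‖ ≤ ‖q‖ + ‖q - qs ε 4‖ := by
        have := norm_sub_le q (q - qs ε 4)
        rw [sub_sub_cancel] at this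
        exact this
      linarith
    have h1' : ‖((ε : ℂ) ^ 2)⁻¹ * (κ * q)‖ = (ε ^ 2)⁻¹ * (‖κ‖ * ‖q‖) := by
      rw [norm_mul, norm_mul, norm_inv, norm_pow, norm_real, Real.norm_of_nonneg h0.le]
    rw [h1']
    have h2 : (197 / 100) * (397 / 1000 * ε) ≤ ‖κ‖ * ‖q‖ :=
      mul_le_mul hkn hqn (by positivity) (norm_nonneg _)
    calc 3 / (4 * ε) ≤ (ε ^ 2)⁻¹ * ((197 / 100) * (397 / 1000 * ε)) := by
          rw [div_le_iff₀ (by positivity)]
          field_simp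
          norm_num
      _ ≤ _ := by gcongr

/-- the pairing is arbitrarily large -/
theorem exists_pair (K : ℝ) : ∃ ε : ℝ, 0 < ε ∧ ε ^ 2 ≤ 1 / 100 ∧
    ∃ r : ℝ, 0 < r ∧ r < 1 ∧ K < ‖(∑' n : ℕ, t ε n * (r : ℂ) ^ n) - 1‖ := by
  obtain ⟨ε, h0, h1, h2⟩ : ∃ ε : ℝ, 0 < ε ∧ ε ≤ 1 / 10 ∧ |K| + 2 ≤ 3 / (4 * ε) := by
    refine ⟨min (1 / 10) (3 / (4 * (|K| + 2))), ?_, min_le_left _ _, ?_⟩
    · have : 0 < 3 / (4 * (|K| + 2)) := by positivity
      exact lt_min (by norm_num) this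
    · have hpos : 0 < min (1 / 10) (3 / (4 * (|K| + 2))) := by
        have : 0 < 3 / (4 * (|K| + 2)) := by positivity
        exact lt_min (by norm_num) this
      rw [le_div_iff₀ (by positivity)]
      have h3 : min (1 / 10) (3 / (4 * (|K| + 2))) ≤ 3 / (4 * (|K| + 2)) := min_le_right _ _
      rw [le_div_iff₀ (by positivity)] at h3
      nlinarith
  have h1' : ε ^ 2 ≤ 1 / 100 := by nlinarith
  obtain ⟨l, hl, hl5⟩ := exists_limit h0 h1'
  refine ⟨ε, h0, h1', ?_⟩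
  have h3 := Complex.tendsto_tsum_powerSeries_nhdsWithin_lt hl
  rw [tendsto_map'_iff] at h3
  have h4 : Tendsto (fun r : ℝ => ‖(∑' n : ℕ, t ε n * (r : ℂ) ^ n) - 1‖) (𝓝[<] 1) (𝓝 ‖l - 1‖) :=
    (h3.sub_const 1).norm
  have h5 : K < ‖l - 1‖ := by
    have := norm_sub_norm_le l 1
    rw [norm_one] at this
    have := le_abs_self K
    linarith
  have h6 := h4.eventually (lt_mem_nhds h5)
  have h7 : ∀ᶠ r : ℝ in 𝓝[<] 1, r < 1 := eventually_mem_nhdsWithin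
  have h8 : ∀ᶠ r : ℝ in 𝓝[<] 1, 0 < r := by
    apply mem_nhdsWithin_of_mem_nhds
    exact lt_mem_nhds zero_lt_one
  obtain ⟨r, hr1, hr2, hr3⟩ := (h6.and (h7.and h8)).exists
  exact ⟨r, hr3, hr2, hr1⟩

end Q94.SN
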