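import Pool.Agent.Q94.SNB

/-!
Hadamard products of power series on the unit disc, and the functions
`w (P b (u w) - 1)`.
-/

set_option autoImplicit false

namespace Q94.SN

open Complex Filter Topology Metric

/-- a sequence of Taylor coefficients of growth rate at most one -/
def Sub (a : ℕ → ℂ) : Prop := ∀ s : ℝ, 0 < s → s < 1 → ∃ C : ℝ, 0 ≤ C ∧ ∀ n, ‖a n‖ * s ^ n ≤ C

theorem sub_coeff {F : ℂ → ℂ} (hF : DifferentiableOn ℂ F (ball (0:ℂ) 1)) : Sub (coeff F) :=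
  fun _ h0 h1 => coeff_bound hF h0 h1

theorem sub_pc (c : ℂ) : Sub (pc c) := by
  have h := sub_coeff (P_diff c)
  have e : coeff (P c) = pc c := by funext m; exact coeff_P c m
  rwa [e] at h

theorem sub_succ {a : ℕ → ℂ} (h : Sub a) : Sub (fun n => a (n + 1)) := by
  intro s h0 h1
  obtain ⟨C, hC0, hC⟩ := h s h0 h1
  refine ⟨C / s, by positivity, fun n => ?_⟩
  rw [le_div_iff₀ h0]
  have := hC (n + 1)
  calc ‖a (n + 1)‖ * s ^ n * s = ‖a (n + 1)‖ * s ^ (n + 1) := by ring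
    _ ≤ C := this

theorem had_term {a p : ℕ → ℂ} (ha : Sub a) (hp : Sub p) {R : ℝ} (hR0 : 0 < R) (hR : R < 1) :
    ∃ v : ℕ → ℝ, Summable v ∧ ∀ n, ∀ z : ℂ, ‖z‖ ≤ R → ‖a n * p n * z ^ n‖ ≤ v n := by
  obtain ⟨s, hs⟩ : ∃ s, s = (1 + R) / 2 := ⟨_, rfl⟩
  have h0 : 0 < s := by rw [hs]; linarith
  have h1 : s < 1 := by rw [hs]; linarith
  have h2 : R < s ^ 2 := by rw [hs]; nlinarith [sq_nonneg (1 - R), mul_pos (sub_pos.mpr hR) (sub_pos.mpr hR)]
  obtain ⟨C, hC0, hC⟩ := ha s h0 h1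
  obtain ⟨D, hD0, hD⟩ := hp s h0 h1
  refine ⟨fun n => C * D * (R / s ^ 2) ^ n, ?_, ?_⟩
  · apply Summable.mul_left
    apply summable_geometric_of_lt_one (by positivity)
    rw [div_lt_one (by positivity)]
    exact h2
  · intro n z hz
    have e1 : C * D * (R / s ^ 2) ^ n = (C / s ^ n) * (D / s ^ n) * R ^ n := by
      rw [div_pow]
      field_simp
      ring
    show _ ≤ C * D * (R / s ^ 2) ^ n
    rw [e1, norm_mul, norm_mul, norm_pow]
    have k1 : ‖a n‖ ≤ C / s ^ n := by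
      rw [le_div_iff₀ (by positivity)]; exact hC n
    have k2 : ‖p n‖ ≤ D / s ^ n := by
      rw [le_div_iff₀ (by positivity)]; exact hD n
    gcongr

theorem had_summable {a p : ℕ → ℂ} (ha : Sub a) (hp : Sub p) {z : ℂ} (hz : ‖z‖ < 1) :
    Summable (fun n => a n * p n * z ^ n) := by
  have hR0 : 0 < (1 + ‖z‖) / 2 := by have := norm_nonneg z; linarith
  obtain ⟨v, hv, hv2⟩ := had_term ha hp hR0 (by linarith : (1 + ‖z‖) / 2 < 1)
  exact Summable.of_norm_bounded hv (fun n => hv2 n z (by linarith))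

theorem had_diff {a p : ℕ → ℂ} (ha : Sub a) (hp : Sub p) :
    DifferentiableOn ℂ (fun z => ∑' n, a n * p n * z ^ n) (ball (0:ℂ) 1) := by
  intro z hz
  have hz1 : ‖z‖ < 1 := by simpa using hz
  have hR0 : 0 < (1 + ‖z‖) / 2 := by have := norm_nonneg z; linarith
  obtain ⟨v, hv, hv2⟩ := had_term ha hp hR0 (by linarith : (1 + ‖z‖) / 2 < 1)
  have h1 : DifferentiableOn ℂ (fun z => ∑' n, a n * p n * z ^ n) (ball (0:ℂ) ((1 + ‖z‖) / 2)) := by
    apply differentiableOn_tsum_of_summable_norm hv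
    · intro n
      exact ((differentiable_id.pow n).const_mul _).differentiableOn
    · exact isOpen_ball
    · intro n w hw
      refine hv2 n w ?_
      have : ‖w‖ < (1 + ‖z‖) / 2 := by simpa using hw
      exact this.le
  have h2 : z ∈ ball (0:ℂ) ((1 + ‖z‖) / 2) := by
    rw [mem_ball_zero_iff]; linarith
  exact (h1.differentiableAt (isOpen_ball.mem_nhds h2)).differentiableWithinAt

/-- the neighbourhood direction `w ((1-uw)^(-b) - 1)` -/
noncomputable def G (ε : ℝ) (u w : ℂ) : ℂ := w * (P (bb ε) (u * w) - 1)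

theorem rot_mem {u w : ℂ} (hu : ‖u‖ = 1) (hw : w ∈ ball (0:ℂ) 1) : u * w ∈ ball (0:ℂ) 1 := by
  rw [mem_ball_zero_iff] at hw ⊢
  rw [norm_mul, hu, one_mul]; exact hw

theorem G_deriv (ε : ℝ) {u w : ℂ} (hu : ‖u‖ = 1) (hw : w ∈ ball (0:ℂ) 1) :
    HasDerivAt (G ε u) ((P (bb ε) (u * w) - 1) + u * w * (bb ε * P (bb ε + 1) (u * w))) w := by
  have h1 : HasDerivAt (fun w : ℂ => u * w) u w := by
    simpa using (hasDerivAt_id w).const_mul u
  have h2 := (P_deriv (bb ε) (rot_mem hu hw)).comp w h1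
  have h3 := (hasDerivAt_id w).mul (h2.sub_const 1)
  refine h3.congr_deriv ?_
  simp only [id, one_mul, Function.comp]
  ring

theorem G_diff (ε : ℝ) {u : ℂ} (hu : ‖u‖ = 1) : DifferentiableOn ℂ (G ε u) (ball (0:ℂ) 1) :=
  fun _ hz => (G_deriv ε hu hz).differentiableAt.differentiableWithinAt

theorem G_zero (ε : ℝ) (u : ℂ) : G ε u 0 = 0 := by unfold G; simp

theorem G_hasSum (ε : ℝ) {u z : ℂ} (hu : ‖u‖ = 1) (hz : z ∈ ball (0:ℂ) 1) :
    HasSum (fun n => shift (fun m => pc (bb ε) m * u ^ m - (if m = 0 then 1 else 0)) n * z ^ n)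
      (G ε u z) := by
  unfold G
  apply hasSum_shift
  have h1 := hasSum_P (bb ε) (rot_mem hu hz)
  have h2 : HasSum (fun m : ℕ => if m = 0 then (1:ℂ) else 0) 1 := hasSum_ite_eq 0 1
  refine (h1.sub h2).congr_fun ?_ |> fun h => h
  intro n
  rcases Nat.eq_zero_or_pos n with h | h
  · subst h; simp
  · rw [if_neg h.ne', mul_pow]; ring

theorem norm_P_small {ε : ℝ} (h0 : 0 < ε) (h1 : ε ^ 2 ≤ 1 / 100) {z : ℂ}
    (hz : z ∈ ball (0:ℂ) 1) : ‖P (bb ε + 1) z‖ ≤ 119 / 100 := by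
  unfold P
  rw [norm_exp]
  have hre : (-(bb ε + 1) * log (1 - z)).re = ε * -(arg (1 - z)) := by
    unfold bb
    simp [log_im]
  rw [hre]
  have harg := abs_arg_lt_pi_div_two_iff.mpr (Or.inl (one_sub_re hz))
  have h3 : ε ≤ 1 / 10 := by
    by_contra hcon
    push Not at hcon
    nlinarith
  have h1 : ε * -(arg (1 - z)) ≤ 79 / 500 := by
    have h4 := (abs_lt.mp harg).1
    have := Real.pi_lt_d2
    have h5 : -(arg (1 - z)) ≤ 1.575 := by linarith
    rcases le_total 0 (-(arg (1 - z))) with h6 | h6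
    · nlinarith
    · nlinarith
  calc Real.exp (ε * -(arg (1 - z))) ≤ Real.exp (79 / 500) := Real.exp_le_exp.mpr h1
    _ ≤ 119 / 100 := by
      have h := Real.exp_bound_div_one_sub_of_interval (x := 79 / 500) (by norm_num) (by norm_num)
      refine h.trans ?_
      norm_num

theorem P_b (ε : ℝ) {z : ℂ} (hz : z ∈ ball (0:ℂ) 1) :
    P (bb ε) z = (1 - z) * P (bb ε + 1) z := by
  have h := P_add (bb ε) 1 z
  rw [P_one hz] at h
  rw [h]
  have := one_sub_ne hz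
  field_simp

theorem norm_b {ε : ℝ} (h1 : ε ^ 2 ≤ 1 / 100) : ‖bb ε‖ ≤ 1006 / 1000 := by
  have h : ‖bb ε‖ ^ 2 ≤ (1006 / 1000) ^ 2 := by
    unfold bb
    rw [← normSq_eq_norm_sq, normSq_apply]
    simp
    nlinarith
  exact le_of_sq_le_sq h (by norm_num)

theorem norm_b2 {ε : ℝ} (h1 : ε ^ 2 ≤ 1 / 100) : ‖bb ε - 2‖ ≤ 3003 / 1000 := by
  have h : ‖bb ε - 2‖ ^ 2 ≤ (3003 / 1000) ^ 2 := by
    unfold bb
    rw [← normSq_eq_norm_sq, normSq_apply]
    simp
    nlinarith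
  exact le_of_sq_le_sq h (by norm_num)

/-- the two norms of the neighbourhood direction -/
theorem G_norm {ε : ℝ} (h0 : 0 < ε) (h1 : ε ^ 2 ≤ 1 / 100) {u w : ℂ} (hu : ‖u‖ = 1)
    (hw : w ∈ ball (0:ℂ) 1) :
    ‖deriv (G ε u) w - G ε u w / w‖ + ‖deriv (G ε u) w + G ε u w / w‖ < 10 := by
  rw [(G_deriv ε hu hw).deriv]
  have e0 : G ε u w / w = P (bb ε) (u * w) - 1 := by
    unfold G
    rcases eq_or_ne w 0 with h | h
    · rw [h, mul_zero, P_zero]; simp
    · field_simp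
  rw [e0]
  have hz := rot_mem hu hw
  generalize u * w = z at hz
  have e1 : (P (bb ε) z - 1) + z * (bb ε * P (bb ε + 1) z) - (P (bb ε) z - 1) =
      z * (bb ε * P (bb ε + 1) z) := by ring
  have e2 : (P (bb ε) z - 1) + z * (bb ε * P (bb ε + 1) z) + (P (bb ε) z - 1) =
      P (bb ε + 1) z * (2 + (bb ε - 2) * z) - 2 := by
    rw [P_b ε hz]
    ring
  rw [e1, e2]
  have hz1 : ‖z‖ < 1 := by simpa using hz
  have hP := norm_P_small h0 h1 hz
  have hPn := norm_nonneg (P (bb ε + 1) z)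
  have n1 : ‖z * (bb ε * P (bb ε + 1) z)‖ ≤ 1006 / 1000 * (119 / 100) := by
    rw [norm_mul, norm_mul]
    have h1 : ‖bb ε‖ * ‖P (bb ε + 1) z‖ ≤ 1006 / 1000 * (119 / 100) :=
      mul_le_mul (norm_b h1) hP hPn (by norm_num)
    have h2 : 0 ≤ ‖bb ε‖ * ‖P (bb ε + 1) z‖ := by positivity
    nlinarith [norm_nonneg z]
  have n2 : ‖P (bb ε + 1) z * (2 + (bb ε - 2) * z) - 2‖ ≤ 119 / 100 * (5003 / 1000) + 2 := by
    have h1 : ‖2 + (bb ε - 2) * z‖ ≤ 5003 / 1000 := by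
      have a1 := norm_add_le (2 : ℂ) ((bb ε - 2) * z)
      have a2 : ‖(2:ℂ)‖ = 2 := by simp
      have a3 : ‖(bb ε - 2) * z‖ ≤ 3003 / 1000 := by
        rw [norm_mul]
        have := norm_b2 h1
        nlinarith [norm_nonneg (bb ε - 2), norm_nonneg z]
      linarith
    have h2 : ‖P (bb ε + 1) z * (2 + (bb ε - 2) * z)‖ ≤ 119 / 100 * (5003 / 1000) := by
      rw [norm_mul]
      exact mul_le_mul hP h1 (norm_nonneg _) (by norm_num)
    have h3 := norm_sub_le (P (bb ε + 1) z * (2 + (bb ε - 2) * z)) 2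
    have a2 : ‖(2:ℂ)‖ = 2 := by simp
    linarith
  linarith

/-- minimum principle: a function which is larger than one on a circle and equals one at the
centre vanishes somewhere inside -/
theorem exists_zero {Φ : ℂ → ℂ} (hΦ : DifferentiableOn ℂ Φ (ball (0:ℂ) 1)) {r : ℝ} (h0 : 0 < r)
    (h1 : r < 1) {k : ℝ} (hk : 1 < k) (hb : ∀ z : ℂ, ‖z‖ = r → k ≤ ‖Φ z‖) (hΦ0 : Φ 0 = 1) :
    ∃ z : ℂ, z ≠ 0 ∧ ‖z‖ < r ∧ Φ z = 0 := by
  by_contra hcon
  push Not at hcon
  have hne : ∀ z : ℂ, ‖z‖ ≤ r → Φ z ≠ 0 := by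
    intro z hz h
    rcases eq_or_ne z 0 with h2 | h2
    · rw [h2, hΦ0] at h; exact one_ne_zero h
    · rcases lt_or_eq_of_le hz with h3 | h3
      · exact hcon z h2 h3 h
      · have := hb z h3
        rw [h, norm_zero] at this
        linarith
  have hd : DiffContOnCl ℂ (fun z => (Φ z)⁻¹) (ball (0:ℂ) r) := by
    apply DifferentiableOn.diffContOnCl
    rw [closure_ball _ h0.ne']
    intro z hz
    have hz' : ‖z‖ ≤ r := by simpa using hz
    have hz1 : z ∈ ball (0:ℂ) 1 := by rw [mem_ball_zero_iff]; linarith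
    exact ((hΦ.differentiableAt (isOpen_ball.mem_nhds hz1)).inv (hne z hz')).differentiableWithinAt
  have hfr : ∀ z ∈ frontier (ball (0:ℂ) r), ‖(Φ z)⁻¹‖ ≤ 1 / k := by
    intro z hz
    rw [frontier_ball _ h0.ne'] at hz
    have hz' : ‖z‖ = r := by simpa using hz
    rw [norm_inv, one_div]
    exact inv_anti₀ (by linarith) (hb z hz')
  have h2 := Complex.norm_le_of_forall_mem_frontier_norm_le isBounded_ball hd hfr
    (subset_closure (mem_ball_self h0))
  rw [hΦ0, inv_one, norm_one] at h2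
  rw [le_div_iff₀ (by linarith)] at h2
  linarith

end Q94.SN
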