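import Mathlib

/-!
# A snowflake arc in `ℝ⁸`

`γ : ℝ → ℝ⁸` continuous with `|s - t| ≤ ‖γ s - γ t‖²` for `|s - t| ≤ 1`.
-/

open scoped BigOperators Topology ENNReal
open Set Filter

namespace Q94.KP

/-- `e n t = exp(i π 4ⁿ t)`. -/
noncomputable def e (n : ℕ) (t : ℝ) : ℂ :=
  Complex.exp (Complex.I * ((Real.pi * 4 ^ n * t : ℝ) : ℂ))

/-- `term j t i = 2^{-(4i+j)} exp(i π 4^{4i+j} t)`. -/
noncomputable def term (j : ℕ) (t : ℝ) (i : ℕ) : ℂ := (1 / 2 : ℝ) ^ (4 * i + j) • e (4 * i + j) t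

/-- `z j t = ∑_i 2^{-(4i+j)} exp(i π 4^{4i+j} t)`. -/
noncomputable def z (j : ℕ) (t : ℝ) : ℂ := ∑' i, term j t i

lemma norm_e (n : ℕ) (t : ℝ) : ‖e n t‖ = 1 := by
  unfold e
  rw [mul_comm]
  exact Complex.norm_exp_ofReal_mul_I _

lemma norm_e_sub (n : ℕ) (s t : ℝ) :
    ‖e n s - e n t‖ = |2 * Real.sin (Real.pi * 4 ^ n * (s - t) / 2)| := by
  have h1 : e n s - e n t
      = e n t * (Complex.exp (Complex.I * ((Real.pi * 4 ^ n * (s - t) : ℝ) : ℂ)) - 1) := by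
    unfold e
    rw [mul_sub, mul_one, ← Complex.exp_add]
    congr 2
    push_cast
    ring
  rw [h1, norm_mul, norm_e, one_mul, Complex.norm_exp_I_mul_ofReal_sub_one, Real.norm_eq_abs]

lemma norm_e_sub_le (n : ℕ) (s t : ℝ) : ‖e n s - e n t‖ ≤ Real.pi * 4 ^ n * |s - t| := by
  rw [norm_e_sub, abs_mul]
  have h := Real.abs_sin_le_abs (x := Real.pi * 4 ^ n * (s - t) / 2)
  rw [abs_div, abs_mul, abs_of_pos (by positivity : (0 : ℝ) < Real.pi * 4 ^ n)] at h
  norm_num at h ⊢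
  linarith

lemma norm_e_sub_le_two (n : ℕ) (s t : ℝ) : ‖e n s - e n t‖ ≤ 2 := by
  refine (norm_sub_le _ _).trans ?_
  rw [norm_e, norm_e]; norm_num

lemma norm_e_sub_ge {n : ℕ} {s t : ℝ} (h1 : 1 / 4 < 4 ^ n * |s - t|) (h2 : 4 ^ n * |s - t| ≤ 1) :
    1 / 2 ≤ ‖e n s - e n t‖ := by
  have h3 : ‖e n s - e n t‖ = 2 * Real.sin (Real.pi * (4 ^ n * |s - t|) / 2) := by
    rw [norm_e_sub]
    have h5 : 0 ≤ Real.sin (Real.pi * (4 ^ n * |s - t|) / 2) := by
      apply Real.sin_nonneg_of_nonneg_of_le_pi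
      · positivity
      · have := Real.pi_pos
        nlinarith
    rcases le_total 0 (s - t) with h | h
    · rw [abs_of_nonneg h] at h5 ⊢
      rw [abs_of_nonneg]
      · congr 2; ring
      · have : Real.pi * 4 ^ n * (s - t) / 2 = Real.pi * (4 ^ n * (s - t)) / 2 := by ring
        rw [this]; linarith
    · rw [abs_of_nonpos h] at h5 ⊢
      have : Real.pi * 4 ^ n * (s - t) / 2 = -(Real.pi * (4 ^ n * -(s - t)) / 2) := by ring
      rw [this, Real.sin_neg, mul_neg, abs_neg, abs_of_nonneg (by linarith)]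
  rw [h3]
  have h4 := Real.mul_le_sin (x := Real.pi * (4 ^ n * |s - t|) / 2) (by positivity)
    (by have := Real.pi_pos; nlinarith)
  have h5 : 2 / Real.pi * (Real.pi * (4 ^ n * |s - t|) / 2) = 4 ^ n * |s - t| := by
    have := Real.pi_pos.ne'
    field_simp
  rw [h5] at h4
  linarith

lemma norm_term (j : ℕ) (t : ℝ) (i : ℕ) : ‖term j t i‖ = (1 / 2 : ℝ) ^ (4 * i + j) := by
  unfold term
  rw [norm_smul, norm_e, mul_one, Real.norm_eq_abs, abs_of_pos (by positivity)]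

lemma hasSum_bound (m : ℕ) :
    HasSum (fun i : ℕ => (1 / 2 : ℝ) ^ (4 * i + m)) ((1 / 2 : ℝ) ^ m * (16 / 15)) := by
  have h := (hasSum_geometric_of_lt_one (r := (1 / 16 : ℝ)) (by norm_num) (by norm_num)).mul_left
    ((1 / 2 : ℝ) ^ m)
  have h2 : (1 - (1 / 16 : ℝ))⁻¹ = 16 / 15 := by norm_num
  rw [h2] at h
  have h3 : (fun i : ℕ => (1 / 2 : ℝ) ^ (4 * i + m)) = fun i => (1 / 2 : ℝ) ^ m * (1 / 16) ^ i := by
    funext i
    rw [pow_add, pow_mul, mul_comm]
    norm_num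
  rw [h3]
  exact h

lemma summable_term (j : ℕ) (t : ℝ) : Summable (term j t) :=
  Summable.of_norm_bounded (hasSum_bound j).summable fun i => (norm_term j t i).le

lemma continuous_e (n : ℕ) : Continuous (e n) := by
  unfold e
  exact Complex.continuous_exp.comp
    (continuous_const.mul (Complex.continuous_ofReal.comp (continuous_const.mul continuous_id)))

lemma continuous_z (j : ℕ) : Continuous (z j) := by
  unfold z
  refine continuous_tsum (fun i => ?_) (hasSum_bound j).summable fun i t => (norm_term j t i).le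
  unfold term
  exact (continuous_e (4 * i + j)).const_smul ((1 / 2 : ℝ) ^ (4 * i + j))

/-- The key lower bound. -/
lemma z_lower {s t : ℝ} (h0 : s ≠ t) (h1 : |s - t| ≤ 1) :
    ∃ j < 4, |s - t| ≤ 49 * ‖z j s - z j t‖ ^ 2 := by
  have hδ : 0 < |s - t| := abs_pos.2 (sub_ne_zero.2 h0)
  set δ := |s - t| with hδdef
  obtain ⟨k, hk1, hk2⟩ := exists_nat_pow_near (x := 1 / δ) (y := (4 : ℝ))
    (by rw [le_div_iff₀ hδ]; linarith) (by norm_num)
  have hk1' : 4 ^ k * δ ≤ 1 := by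
    rw [le_div_iff₀ hδ] at hk1; exact hk1
  have hk2' : 1 / 4 < 4 ^ k * δ := by
    rw [div_lt_iff₀ hδ, pow_succ] at hk2
    linarith
  refine ⟨k % 4, Nat.mod_lt _ (by norm_num), ?_⟩
  set j := k % 4 with hj
  set i0 := k / 4 with hi0
  have hk : 4 * i0 + j = k := Nat.div_add_mod k 4
  set f : ℕ → ℂ := fun i => term j s i - term j t i with hf
  have hfs : Summable f := (summable_term j s).sub (summable_term j t)
  have hz : z j s - z j t = ∑' i, f i := by
    unfold z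
    exact ((summable_term j s).tsum_sub (summable_term j t)).symm
  have hf2 : ∀ i, f i = (1 / 2 : ℝ) ^ (4 * i + j) • (e (4 * i + j) s - e (4 * i + j) t) := by
    intro i
    simp only [hf, term]
    rw [smul_sub]
  have hfn : ∀ i, ‖f i‖ = (1 / 2 : ℝ) ^ (4 * i + j) * ‖e (4 * i + j) s - e (4 * i + j) t‖ := by
    intro i
    rw [hf2, norm_smul, Real.norm_eq_abs, abs_of_pos (by positivity)]
  -- main term
  have hmain : (1 / 2 : ℝ) ^ k * (1 / 2) ≤ ‖f i0‖ := by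
    rw [hfn, hk]
    exact mul_le_mul_of_nonneg_left (norm_e_sub_ge hk2' hk1') (by positivity)
  -- low terms
  have hlow : ‖∑ i ∈ Finset.range i0, f i‖ ≤ (1 / 2 : ℝ) ^ k * (Real.pi / 15) := by
    have h2 : ∀ i ∈ Finset.range i0, ‖f i‖ ≤ Real.pi * δ * 2 ^ j * 16 ^ i := by
      intro i _
      rw [hfn]
      have h3 := norm_e_sub_le (4 * i + j) s t
      refine (mul_le_mul_of_nonneg_left h3 (by positivity)).trans (le_of_eq ?_)
      rw [← hδdef]
      have h4 : (1 / 2 : ℝ) ^ (4 * i + j) * 4 ^ (4 * i + j) = 16 ^ i * 2 ^ j := by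
        rw [← mul_pow, pow_add, pow_mul]; norm_num
      calc (1 / 2 : ℝ) ^ (4 * i + j) * (Real.pi * 4 ^ (4 * i + j) * δ)
          = ((1 / 2 : ℝ) ^ (4 * i + j) * 4 ^ (4 * i + j)) * (Real.pi * δ) := by ring
        _ = _ := by rw [h4]; ring
    refine (norm_sum_le_of_le _ h2).trans ?_
    rw [← Finset.mul_sum, geom_sum_eq (by norm_num)]
    have h5 : (2 : ℝ) ^ j * 16 ^ i0 = 2 ^ k := by
      rw [← hk, pow_add, pow_mul]; norm_num; ring
    have h6 : (2 : ℝ) ^ k * δ ≤ (1 / 2) ^ k := by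
      have : (4 : ℝ) ^ k = 2 ^ k * 2 ^ k := by rw [← mul_pow]; norm_num
      rw [this] at hk1'
      rw [one_div, inv_pow, ← one_div, le_div_iff₀ (by positivity)]
      linarith
    have h7 : (0 : ℝ) < 2 ^ j := by positivity
    calc Real.pi * δ * 2 ^ j * (((16 : ℝ) ^ i0 - 1) / (16 - 1))
        ≤ Real.pi * δ * 2 ^ j * ((16 : ℝ) ^ i0 / (16 - 1)) := by
          gcongr
          linarith
      _ = (2 ^ j * 16 ^ i0) * δ * (Real.pi / 15) := by ring
      _ = 2 ^ k * δ * (Real.pi / 15) := by rw [h5]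
      _ ≤ (1 / 2) ^ k * (Real.pi / 15) := by
          have := Real.pi_pos
          gcongr
  -- tail
  have htail : ‖∑' i, f (i + (i0 + 1))‖ ≤ (1 / 2 : ℝ) ^ k * (2 / 15) := by
    have h2 := (hasSum_bound (k + 4)).mul_left 2
    have h3 : 2 * ((1 / 2 : ℝ) ^ (k + 4) * (16 / 15)) = (1 / 2 : ℝ) ^ k * (2 / 15) := by
      rw [pow_add]; norm_num; ring
    rw [h3] at h2
    refine tsum_of_norm_bounded h2 fun i => ?_
    rw [hfn, show 4 * (i + (i0 + 1)) + j = 4 * i + (k + 4) by omega, mul_comm]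
    exact mul_le_mul_of_nonneg_right (norm_e_sub_le_two _ s t) (by positivity)
  have hsplit : ∑' i, f i = ∑ i ∈ Finset.range i0, f i + f i0 + ∑' i, f (i + (i0 + 1)) := by
    rw [← Finset.sum_range_succ]
    exact (hfs.sum_add_tsum_nat_add (i0 + 1)).symm
  have hfin : (1 / 2 : ℝ) ^ k * (1 / 7) ≤ ‖z j s - z j t‖ := by
    rw [hz, hsplit]
    have h2 : ‖f i0‖ ≤ ‖∑ i ∈ Finset.range i0, f i + f i0 + ∑' i, f (i + (i0 + 1))‖
        + ‖∑ i ∈ Finset.range i0, f i‖ + ‖∑' i, f (i + (i0 + 1))‖ := by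
      have h3 : f i0 = (∑ i ∈ Finset.range i0, f i + f i0 + ∑' i, f (i + (i0 + 1)))
          - ∑ i ∈ Finset.range i0, f i - ∑' i, f (i + (i0 + 1)) := by ring
      calc ‖f i0‖ = ‖(∑ i ∈ Finset.range i0, f i + f i0 + ∑' i, f (i + (i0 + 1)))
          - ∑ i ∈ Finset.range i0, f i - ∑' i, f (i + (i0 + 1))‖ := by rw [← h3]
        _ ≤ _ := (norm_sub_le _ _).trans (add_le_add_left (norm_sub_le _ _) _)
    have h4 : (0 : ℝ) < (1 / 2 : ℝ) ^ k := by positivity
    have h5 := Real.pi_lt_d2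
    nlinarith
  have h8 : ((1 / 2 : ℝ) ^ k * (1 / 7)) ^ 2 ≤ ‖z j s - z j t‖ ^ 2 :=
    pow_le_pow_left₀ (by positivity) hfin 2
  have h9 : δ ≤ ((1 / 2 : ℝ) ^ k) ^ 2 := by
    rw [← pow_mul, mul_comm k 2, pow_mul]
    have : ((1 / 2 : ℝ) ^ 2) ^ k * 4 ^ k = 1 := by rw [← mul_pow]; norm_num
    have h4 : (0 : ℝ) < 4 ^ k := by positivity
    by_contra hcon
    push Not at hcon
    nlinarith
  nlinarith

/-- The arc. -/
noncomputable def γ (t : ℝ) : EuclideanSpace ℝ (Fin 8) :=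
  WithLp.toLp 2 fun i =>
    7 * (if (i : ℕ) % 2 = 0 then (z ((i : ℕ) / 2) t).re else (z ((i : ℕ) / 2) t).im)

lemma continuous_γ : Continuous γ := by
  unfold γ
  refine (PiLp.continuous_toLp 2 _).comp (continuous_pi fun i => ?_)
  refine continuous_const.mul ?_
  split_ifs
  · exact Complex.continuous_re.comp (continuous_z _)
  · exact Complex.continuous_im.comp (continuous_z _)

lemma γ_lower {s t : ℝ} (h1 : |s - t| ≤ 1) : |s - t| ≤ ‖γ s - γ t‖ ^ 2 := by
  rcases eq_or_ne s t with h0 | h0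
  · subst h0; simp
  obtain ⟨j, hj, h⟩ := z_lower h0 h1
  refine h.trans ?_
  have h2 : ‖z j s - z j t‖ ^ 2 = ((z j s).re - (z j t).re) ^ 2 + ((z j s).im - (z j t).im) ^ 2 := by
    rw [← Complex.normSq_eq_norm_sq, Complex.normSq_apply]
    simp only [Complex.sub_re, Complex.sub_im]
    ring
  rw [h2, EuclideanSpace.norm_sq_eq]
  simp only [γ, PiLp.sub_apply, Real.norm_eq_abs, sq_abs]
  rw [Fin.sum_univ_eight]
  simp only [Fin.val_zero, Fin.val_one, Fin.val_two]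
  norm_num
  interval_cases j
  all_goals
    nlinarith [sq_nonneg ((z 0 s).re - (z 0 t).re), sq_nonneg ((z 0 s).im - (z 0 t).im),
      sq_nonneg ((z 1 s).re - (z 1 t).re), sq_nonneg ((z 1 s).im - (z 1 t).im),
      sq_nonneg ((z 2 s).re - (z 2 t).re), sq_nonneg ((z 2 s).im - (z 2 t).im),
      sq_nonneg ((z 3 s).re - (z 3 t).re), sq_nonneg ((z 3 s).im - (z 3 t).im)]

end Q94.KP
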