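import Pool.Agent.Q94.SnowA

/-!
# Non-uniqueness of Kantorovich potentials on a snowflake arc, quadratic cost
-/

open scoped BigOperators Topology ENNReal
open Set Filter MeasureTheory

namespace Q94.KP

/-- `ℝ^d`. -/
abbrev E (d : ℕ) : Type := EuclideanSpace ℝ (Fin d)

/-- Competitors in the dual problem. -/
structure Feasible {d : ℕ} (ρ μ : Measure (E d)) (c : E d → E d → ℝ) (φ ψ : E d → ℝ) : Prop where
  intφ : Integrable φ ρ
  intψ : Integrable ψ μ
  le : ∀ x y, φ x + ψ y ≤ c x y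

/-- Optimal pairs (Kantorovich potentials). -/
def IsOptimal {d : ℕ} (ρ μ : Measure (E d)) (c : E d → E d → ℝ) (φ ψ : E d → ℝ) : Prop :=
  Feasible ρ μ c φ ψ ∧ ∀ φ' ψ' : E d → ℝ, Feasible ρ μ c φ' ψ' →
    ∫ x, φ' x ∂ρ + ∫ y, ψ' y ∂μ ≤ ∫ x, φ x ∂ρ + ∫ y, ψ y ∂μ

/-- The standing hypotheses (H). -/
structure Hyp {d : ℕ} (ρ μ : Measure (E d)) (c : E d → E d → ℝ) (a b : E d → ℝ) : Prop where
  bdd : Bornology.IsBounded μ.support
  c1 : ContDiff ℝ 1 fun z : E d × E d => c z.1 z.2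
  usca : UpperSemicontinuous a
  uscb : UpperSemicontinuous b
  inta : Integrable a ρ
  intb : Integrable b μ
  bound : ∀ x y, |c x y| ≤ a x + b y

/-- Uniqueness of the potentials up to a constant. -/
def UniqueUpToConst {d : ℕ} (ρ μ : Measure (E d)) (c : E d → E d → ℝ) : Prop :=
  ∀ φ₀ ψ₀ φ₁ ψ₁ : E d → ℝ, IsOptimal ρ μ c φ₀ ψ₀ → IsOptimal ρ μ c φ₁ ψ₁ →
    ∃ l : ℝ, (∀ᵐ x ∂ρ, φ₀ x - φ₁ x = l) ∧ ∀ᵐ y ∂μ, ψ₀ y - ψ₁ y = -l

/-- The arc as a set. -/
def K : Set (E 8) := γ '' Icc 0 1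

/-- The measure: image of Lebesgue measure on `[0,1]`. -/
noncomputable def ρ : Measure (E 8) := (volume.restrict (Icc (0 : ℝ) 1)).map γ

instance : IsProbabilityMeasure (volume.restrict (Icc (0 : ℝ) 1)) := by
  constructor
  rw [Measure.restrict_apply_univ, Real.volume_Icc]
  norm_num

instance : IsProbabilityMeasure ρ := by
  unfold ρ
  exact Measure.isProbabilityMeasure_map continuous_γ.aemeasurable

lemma isCompact_K : IsCompact K := isCompact_Icc.image continuous_γ

lemma injOn_γ : InjOn γ (Icc 0 1) := by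
  intro s hs t ht hst
  have h := γ_lower (s := s) (t := t) (by rw [abs_le]; constructor <;> linarith [hs.1, hs.2, ht.1, ht.2])
  rw [hst] at h
  simp only [sub_self, norm_zero] at h
  have : |s - t| = 0 := le_antisymm (by simpa using h) (abs_nonneg _)
  linarith [abs_eq_zero.1 this]

/-- The inverse of the arc. -/
noncomputable def u (x : E 8) : ℝ := Function.invFunOn γ (Icc 0 1) x

lemma u_mem {x : E 8} (hx : x ∈ K) : u x ∈ Icc (0 : ℝ) 1 := Function.invFunOn_mem hx

lemma γ_u {x : E 8} (hx : x ∈ K) : γ (u x) = x := Function.invFunOn_eq hx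

lemma u_γ {t : ℝ} (ht : t ∈ Icc (0 : ℝ) 1) : u (γ t) = t :=
  injOn_γ (u_mem ⟨t, ht, rfl⟩) ht (γ_u ⟨t, ht, rfl⟩)

lemma u_holder {x y : E 8} (hx : x ∈ K) (hy : y ∈ K) : |u x - u y| ≤ ‖x - y‖ ^ 2 := by
  have h1 := u_mem hx
  have h2 := u_mem hy
  have h := γ_lower (s := u x) (t := u y)
    (by rw [abs_le]; constructor <;> linarith [h1.1, h1.2, h2.1, h2.2])
  rwa [γ_u hx, γ_u hy] at h

lemma continuousOn_u : ContinuousOn u K := by
  rw [Metric.continuousOn_iff]
  intro x hx ε hε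
  refine ⟨Real.sqrt ε, Real.sqrt_pos.2 hε, fun y hy h => ?_⟩
  rw [Real.dist_eq]
  refine (u_holder hy hx).trans_lt ?_
  rw [dist_eq_norm] at h
  calc ‖y - x‖ ^ 2 < (Real.sqrt ε) ^ 2 := pow_lt_pow_left₀ h (norm_nonneg _) (by norm_num)
    _ = ε := Real.sq_sqrt hε.le

open Classical in
/-- The second pair of potentials. -/
noncomputable def φ₁ : E 8 → ℝ := K.piecewise u fun _ => -1

open Classical in
/-- The second pair of potentials. -/
noncomputable def ψ₁ : E 8 → ℝ := K.piecewise (fun x => -u x) fun _ => -1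

open Classical in
lemma φ₁_mem {x : E 8} (hx : x ∈ K) : φ₁ x = u x := by
  unfold φ₁; rw [Set.piecewise_eq_of_mem _ _ _ hx]

open Classical in
lemma φ₁_notMem {x : E 8} (hx : x ∉ K) : φ₁ x = -1 := by
  unfold φ₁; rw [Set.piecewise_eq_of_notMem _ _ _ hx]

open Classical in
lemma ψ₁_mem {x : E 8} (hx : x ∈ K) : ψ₁ x = -u x := by
  unfold ψ₁; rw [Set.piecewise_eq_of_mem _ _ _ hx]

open Classical in
lemma ψ₁_notMem {x : E 8} (hx : x ∉ K) : ψ₁ x = -1 := by
  unfold ψ₁; rw [Set.piecewise_eq_of_notMem _ _ _ hx]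

lemma ae_mem_K : ∀ᵐ x ∂ρ, x ∈ K := by
  unfold ρ
  refine (ae_map_iff (p := fun x => x ∈ K) continuous_γ.aemeasurable
    isCompact_K.measurableSet).2 ?_
  filter_upwards [ae_restrict_mem measurableSet_Icc] with t ht
  exact ⟨t, ht, rfl⟩

open Classical in
lemma integrable_φ₁ : Integrable φ₁ ρ := by
  refine Integrable.of_bound (C := 1) ?_ (Eventually.of_forall fun x => ?_)
  · unfold φ₁
    exact (continuousOn_u.measurable_piecewise continuousOn_const
      isCompact_K.measurableSet).aestronglyMeasurable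
  · rw [Real.norm_eq_abs]
    by_cases hx : x ∈ K
    · rw [φ₁_mem hx, abs_le]
      have := u_mem hx
      constructor <;> linarith [this.1, this.2]
    · rw [φ₁_notMem hx]; norm_num

open Classical in
lemma integrable_ψ₁ : Integrable ψ₁ ρ := by
  refine Integrable.of_bound (C := 1) ?_ (Eventually.of_forall fun x => ?_)
  · unfold ψ₁
    exact (continuousOn_u.neg.measurable_piecewise continuousOn_const
      isCompact_K.measurableSet).aestronglyMeasurable
  · rw [Real.norm_eq_abs]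
    by_cases hx : x ∈ K
    · rw [ψ₁_mem hx, abs_le]
      have := u_mem hx
      constructor <;> linarith [this.1, this.2]
    · rw [ψ₁_notMem hx]; norm_num

/-- For `ρ = μ` and a cost vanishing on the diagonal, the dual value is at most zero. -/
lemma dual_le {φ ψ : E 8 → ℝ} (h : Feasible ρ ρ (fun x y => ‖x - y‖ ^ 2) φ ψ) :
    ∫ x, φ x ∂ρ + ∫ y, ψ y ∂ρ ≤ 0 := by
  rw [← integral_add h.intφ h.intψ]
  refine integral_nonpos fun x => ?_
  have := h.le x x
  simpa using this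

lemma optimal_zero : IsOptimal ρ ρ (fun x y => ‖x - y‖ ^ 2) (fun _ => 0) (fun _ => 0) := by
  refine ⟨⟨integrable_zero _ _ _, integrable_zero _ _ _, fun x y => ?_⟩, ?_⟩
  · simp only [add_zero]
    positivity
  intro φ' ψ' h
  refine (dual_le h).trans ?_
  simp

lemma optimal_one : IsOptimal ρ ρ (fun x y => ‖x - y‖ ^ 2) φ₁ ψ₁ := by
  refine ⟨⟨integrable_φ₁, integrable_ψ₁, fun x y => ?_⟩, ?_⟩
  · by_cases hx : x ∈ K <;> by_cases hy : y ∈ K
    · rw [φ₁_mem hx, ψ₁_mem hy]
      have := (le_abs_self _).trans (u_holder hx hy)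
      linarith
    · rw [φ₁_mem hx, ψ₁_notMem hy]
      have := (u_mem hx).2
      have h2 : 0 ≤ ‖x - y‖ ^ 2 := by positivity
      linarith
    · rw [φ₁_notMem hx, ψ₁_mem hy]
      have := (u_mem hy).1
      have h2 : 0 ≤ ‖x - y‖ ^ 2 := by positivity
      linarith
    · rw [φ₁_notMem hx, ψ₁_notMem hy]
      have h2 : 0 ≤ ‖x - y‖ ^ 2 := by positivity
      linarith
  · intro φ' ψ' h
    refine (dual_le h).trans ?_
    rw [← integral_add integrable_φ₁ integrable_ψ₁]
    refine le_of_eq ?_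
    symm
    refine integral_eq_zero_of_ae ?_
    filter_upwards [ae_mem_K] with x hx
    rw [φ₁_mem hx, ψ₁_mem hx]
    simp

lemma not_const (l : ℝ) : ¬ ∀ᵐ x ∂ρ, (0 : ℝ) - φ₁ x = l := by
  intro h
  unfold ρ at h
  have h1 := ae_of_ae_map continuous_γ.aemeasurable h
  have h2 : ∀ᵐ t ∂(volume.restrict (Icc (0 : ℝ) 1)), t = -l := by
    filter_upwards [h1, ae_restrict_mem measurableSet_Icc] with t ht ht2
    rw [φ₁_mem ⟨t, ht2, rfl⟩, u_γ ht2] at ht
    linarith
  rw [ae_restrict_iff' measurableSet_Icc] at h2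
  have h3 : volume (Icc (0 : ℝ) 1 \ {-l}) = 0 := by
    refine measure_mono_null ?_ h2
    intro t ht
    simp only [mem_compl_iff, mem_ofPred_eq]
    intro hcon
    exact ht.2 (hcon ht.1)
  rw [measure_sdiff_null (by simp), Real.volume_Icc] at h3
  norm_num at h3

lemma support_ρ : ρ.support = K := by
  ext x
  rw [Measure.mem_support_iff_forall]
  constructor
  · intro h
    by_contra hx
    have h1 := h Kᶜ (isCompact_K.isClosed.isOpen_compl.mem_nhds hx)
    have h2 : ρ Kᶜ = 0 := ae_mem_K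
    rw [h2] at h1
    exact lt_irrefl _ h1
  · rintro ⟨t, ht, rfl⟩ U hU
    obtain ⟨V, hVU, hVo, hV⟩ := mem_nhds_iff.1 hU
    refine lt_of_lt_of_le ?_ (measure_mono hVU)
    unfold ρ
    rw [Measure.map_apply continuous_γ.measurable hVo.measurableSet,
      Measure.restrict_apply (hVo.preimage continuous_γ).measurableSet]
    have h1 : t ∈ closure (Ioo (0 : ℝ) 1) := by
      rw [closure_Ioo (by norm_num)]; exact ht
    obtain ⟨s, hs1, hs2⟩ := mem_closure_iff.1 h1 _ (hVo.preimage continuous_γ) hV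
    have h2 : (γ ⁻¹' V ∩ Ioo (0 : ℝ) 1) ⊆ γ ⁻¹' V ∩ Icc (0 : ℝ) 1 :=
      inter_subset_inter_right _ Ioo_subset_Icc_self
    refine lt_of_lt_of_le ?_ (measure_mono h2)
    exact ((hVo.preimage continuous_γ).inter isOpen_Ioo).measure_pos volume ⟨s, hs1, hs2⟩

lemma pathConnected : IsPathConnected K := by
  unfold K
  exact ((convex_Icc (0 : ℝ) 1).isPathConnected ⟨0, by norm_num⟩).image continuous_γ

lemma hyp : Hyp ρ ρ (fun x y : E 8 => ‖x - y‖ ^ 2) (fun x => 2 * ‖x‖ ^ 2) (fun x => 2 * ‖x‖ ^ 2) := by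
  have hcont : Continuous fun x : E 8 => 2 * ‖x‖ ^ 2 := by fun_prop
  have hint : Integrable (fun x : E 8 => 2 * ‖x‖ ^ 2) ρ := by
    obtain ⟨C, hC⟩ := isCompact_K.isBounded.exists_norm_le
    refine Integrable.of_bound (C := 2 * C ^ 2) hcont.aestronglyMeasurable ?_
    filter_upwards [ae_mem_K] with x hx
    rw [Real.norm_eq_abs, abs_of_nonneg (by positivity)]
    have := hC x hx
    have h0 := norm_nonneg x
    nlinarith
  refine ⟨?_, ?_, hcont.upperSemicontinuous, hcont.upperSemicontinuous, hint, hint, ?_⟩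
  · rw [support_ρ]; exact isCompact_K.isBounded
  · exact ((contDiff_fst.sub contDiff_snd).norm_sq ℝ)
  · intro x y
    rw [abs_of_nonneg (by positivity)]
    have h1 := norm_sub_le x y
    have h0 := norm_nonneg (x - y)
    nlinarith [sq_nonneg (‖x‖ - ‖y‖), norm_nonneg x, norm_nonneg y]

end Q94.KP
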