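import Mathlib

/-!
Rank-one convexity for upper triangular 2x2 matrices: basic definitions and
the convexity lemmas used to build certificates.
-/

open Set

namespace Q94.TR

/-- `(u, v, w)` is a rank-one direction: nonzero and `u * v = 0`. -/
def RankOne (C : ℝ × ℝ × ℝ) : Prop := C ≠ 0 ∧ C.1 * C.2.1 = 0

/-- Convex along every line whose direction is a rank-one direction. -/
def RankOneConvex (f : ℝ × ℝ × ℝ → ℝ) : Prop :=
  ∀ A C : ℝ × ℝ × ℝ, RankOne C → ConvexOn ℝ univ (fun t : ℝ => f (A + t • C))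

/-- The rank-one convex hull. -/
def rcHull (K : Set (ℝ × ℝ × ℝ)) : Set (ℝ × ℝ × ℝ) :=
  {A | ∀ f : ℝ × ℝ × ℝ → ℝ, RankOneConvex f → (∀ p ∈ K, f p = 0) → f A ≤ 0}

/-- `T4` configurations (degenerate ones, with some `α j = 1`, are allowed). -/
def IsT4 (k : Fin 4 → ℝ × ℝ × ℝ) : Prop :=
  ∃ (P : ℝ × ℝ × ℝ) (C : Fin 4 → ℝ × ℝ × ℝ) (α : Fin 4 → ℝ),
    (∀ j, RankOne (C j)) ∧ C 0 + C 1 + C 2 + C 3 = 0 ∧ (∀ j, 1 ≤ α j) ∧
    k 0 = P + α 0 • C 0 ∧
    k 1 = P + C 0 + α 1 • C 1 ∧
    k 2 = P + C 0 + C 1 + α 2 • C 2 ∧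
    k 3 = P + C 0 + C 1 + C 2 + α 3 • C 3

/-- The sets `K^(i)`. -/
def iter (K : Set (ℝ × ℝ × ℝ)) : ℕ → Set (ℝ × ℝ × ℝ)
  | 0 => K
  | (i + 1) => iter K i ∪
      {A | ∃ k : Fin 4 → ℝ × ℝ × ℝ, IsT4 k ∧ (∀ j, k j ∈ iter K i) ∧ A ∈ rcHull (range k)} ∪
      {A | ∃ p ∈ iter K i, ∃ q ∈ iter K i, RankOne (q - p) ∧ A ∈ segment ℝ p q}

/-- The `T4`-convex hull. -/
def t4Hull (K : Set (ℝ × ℝ × ℝ)) : Set (ℝ × ℝ × ℝ) := ⋃ i, iter K i

/-- Separately convex functions of two variables. -/
def SepConvex (F : ℝ → ℝ → ℝ) : Prop :=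
  (∀ y, ConvexOn ℝ univ (fun x => F x y)) ∧ (∀ x, ConvexOn ℝ univ (fun y => F x y))

theorem rc_of_sep {F : ℝ → ℝ → ℝ} (hF : SepConvex F) (c : ℝ) :
    RankOneConvex (fun p => F p.1 p.2.1 + c * p.2.2) := by
  intro A C hC
  refine ⟨convex_univ, ?_⟩
  intro s _ t _ a b ha hb hab
  have hb' : b = 1 - a := by linarith
  obtain ⟨A1, A2, A3⟩ := A
  obtain ⟨C1, C2, C3⟩ := C
  have h0 : C1 * C2 = 0 := hC.2
  simp only [Prod.smul_mk, Prod.mk_add_mk, smul_eq_mul]
  rcases mul_eq_zero.mp h0 with h | h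
  · subst h
    have := (hF.2 A1).2 (mem_univ (A2 + s * C2)) (mem_univ (A2 + t * C2)) ha hb hab
    simp only [smul_eq_mul] at this
    have e : a * (A2 + s * C2) + b * (A2 + t * C2) = A2 + (a * s + b * t) * C2 := by
      subst hb'; ring
    rw [e] at this
    simp only [mul_zero, add_zero]
    subst hb'
    nlinarith [this]
  · subst h
    have := (hF.1 A2).2 (mem_univ (A1 + s * C1)) (mem_univ (A1 + t * C1)) ha hb hab
    simp only [smul_eq_mul] at this
    have e : a * (A1 + s * C1) + b * (A1 + t * C1) = A1 + (a * s + b * t) * C1 := by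
      subst hb'; ring
    rw [e] at this
    simp only [mul_zero, add_zero]
    subst hb'
    nlinarith [this]

theorem rc_add {f g : ℝ × ℝ × ℝ → ℝ} (hf : RankOneConvex f) (hg : RankOneConvex g)
    {t : ℝ} (ht : 0 ≤ t) : RankOneConvex (fun p => g p + t * f p) := by
  intro A C hC
  exact (hg A C hC).add ((hf A C hC).smul ht)

theorem rc_sup {f : ℝ × ℝ × ℝ → ℝ} (hf : RankOneConvex f) :
    RankOneConvex (fun p => max (f p) 0) := by
  intro A C hC
  exact (hf A C hC).sup (convexOn_const 0 convex_univ)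

/-- A point of the hull satisfies every rank-one convex inequality valid on the set. -/
theorem le_of_mem_rcHull {K : Set (ℝ × ℝ × ℝ)} {A : ℝ × ℝ × ℝ} (hA : A ∈ rcHull K)
    {f : ℝ × ℝ × ℝ → ℝ} (hf : RankOneConvex f) (h : ∀ p ∈ K, f p ≤ 0) : f A ≤ 0 := by
  have := hA _ (rc_sup hf) (fun p hp => max_eq_right (h p hp))
  exact le_trans (le_max_left _ _) this

/-- If `g ≤ 0` on a finite set and `g` vanishes at a point of its hull, the point lies in the hull
of the zero set of `g`. -/
theorem mem_rcHull_top {n : ℕ} {k : Fin n → ℝ × ℝ × ℝ} {A : ℝ × ℝ × ℝ}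
    (hA : A ∈ rcHull (range k)) {g : ℝ × ℝ × ℝ → ℝ} (hg : RankOneConvex g)
    (h : ∀ j, g (k j) ≤ 0) (hgA : g A = 0) {f : ℝ × ℝ × ℝ → ℝ} (hf : RankOneConvex f)
    (hfk : ∀ j, g (k j) = 0 → f (k j) ≤ 0) : f A ≤ 0 := by
  have key : ∃ t : ℝ, 0 < t ∧ ∀ j, g (k j) + t * f (k j) ≤ 0 := by
    have h1 : ∀ j : Fin n, ∃ t : ℝ, 0 < t ∧ ∀ s, 0 < s → s ≤ t → g (k j) + s * f (k j) ≤ 0 := by
      intro j
      rcases (h j).lt_or_eq with hj | hj
      · refine ⟨-g (k j) / (|f (k j)| + 1), div_pos (by linarith) (by positivity), ?_⟩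
        intro s hs hst
        have h2 : s * (|f (k j)| + 1) ≤ -g (k j) := by
          rwa [le_div_iff₀ (by positivity)] at hst
        have h3 : s * f (k j) ≤ s * |f (k j)| := mul_le_mul_of_nonneg_left (le_abs_self _) hs.le
        nlinarith
      · refine ⟨1, one_pos, ?_⟩
        intro s hs _
        have := hfk j hj
        nlinarith
    choose t ht1 ht2 using h1
    rcases Nat.eq_zero_or_pos n with hn | hn
    · subst hn
      exact ⟨1, one_pos, fun j => j.elim0⟩
    · have : Nonempty (Fin n) := ⟨⟨0, hn⟩⟩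
      obtain ⟨j0, hj0⟩ := Finite.exists_min t
      exact ⟨t j0, ht1 j0, fun j => ht2 j _ (ht1 j0) (hj0 j)⟩
  obtain ⟨t, ht, htk⟩ := key
  have := le_of_mem_rcHull hA (rc_add hf hg ht.le) (by rintro _ ⟨j, rfl⟩; exact htk j)
  rw [hgA] at this
  have h5 : t * f A ≤ 0 := by linarith
  by_contra hcon
  push Not at hcon
  nlinarith

/-! ### Building blocks -/

theorem conv_pos (a : ℝ) : ConvexOn ℝ univ (fun x : ℝ => max (x - a) 0) := by
  refine ConvexOn.sup ?_ (convexOn_const 0 convex_univ)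
  refine ⟨convex_univ, ?_⟩
  intro x _ y _ p q hp hq hpq
  simp only [smul_eq_mul]
  have : q = 1 - p := by linarith
  subst this
  apply le_of_eq; ring

theorem conv_neg (a : ℝ) : ConvexOn ℝ univ (fun x : ℝ => max (a - x) 0) := by
  refine ConvexOn.sup ?_ (convexOn_const 0 convex_univ)
  refine ⟨convex_univ, ?_⟩
  intro x _ y _ p q hp hq hpq
  simp only [smul_eq_mul]
  have : q = 1 - p := by linarith
  subst this
  apply le_of_eq; ring

theorem conv_abs (a : ℝ) : ConvexOn ℝ univ (fun x : ℝ => |x - a|) := by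
  have h := (conv_pos a).add (conv_neg a)
  refine h.congr ?_
  intro x _
  simp only [Pi.add_apply]
  rcases le_total x a with hx | hx
  · rw [abs_of_nonpos (by linarith), max_eq_right (by linarith), max_eq_left (by linarith)]; ring
  · rw [abs_of_nonneg (by linarith), max_eq_left (by linarith), max_eq_right (by linarith)]; ring

theorem sep_prod {u v : ℝ → ℝ} (hu : ConvexOn ℝ univ u) (hv : ConvexOn ℝ univ v)
    (hu0 : ∀ x, 0 ≤ u x) (hv0 : ∀ x, 0 ≤ v x) : SepConvex (fun x y => u x * v y) := by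
  constructor
  · intro y
    refine (hu.smul (hv0 y)).congr ?_
    intro x _
    simp only [smul_eq_mul]; ring
  · intro x
    exact hv.smul (hu0 x)

theorem sep_biaffine (a b c d : ℝ) :
    SepConvex (fun x y => a + b * x + c * y + d * (x * y)) := by
  constructor
  · intro y
    refine ⟨convex_univ, ?_⟩
    intro s _ t _ p q hp hq hpq
    simp only [smul_eq_mul]
    have : q = 1 - p := by linarith
    subst this
    apply le_of_eq; ring
  · intro x
    refine ⟨convex_univ, ?_⟩
    intro s _ t _ p q hp hq hpq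
    simp only [smul_eq_mul]
    have : q = 1 - p := by linarith
    subst this
    apply le_of_eq; ring

/-- Planar hull property of a point `(x, y)` with respect to three points. -/
def InHull3 (a b c A : ℝ × ℝ) : Prop :=
  ∀ F : ℝ → ℝ → ℝ, SepConvex F → F a.1 a.2 ≤ 0 → F b.1 b.2 ≤ 0 → F c.1 c.2 ≤ 0 → F A.1 A.2 ≤ 0

theorem prod_zero {a b c A : ℝ × ℝ} (H : InHull3 a b c A) {u v : ℝ → ℝ}
    (hu : ConvexOn ℝ univ u) (hv : ConvexOn ℝ univ v)
    (hu0 : ∀ x, 0 ≤ u x) (hv0 : ∀ x, 0 ≤ v x)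
    (ha : u a.1 * v a.2 = 0) (hb : u b.1 * v b.2 = 0) (hc : u c.1 * v c.2 = 0) :
    u A.1 * v A.2 = 0 :=
  le_antisymm (H _ (sep_prod hu hv hu0 hv0) ha.le hb.le hc.le)
    (mul_nonneg (hu0 _) (hv0 _))

/-- Beyond the middle `x`, the hull lies on the horizontal line of the extreme point. -/
theorem right_strip {a b c A : ℝ × ℝ} (H : InHull3 a b c A) (h1 : a.1 ≤ b.1)
    (hA : b.1 < A.1) : A.2 = c.2 := by
  have := prod_zero H (conv_pos b.1) (conv_abs c.2) (fun x => le_max_right _ _)
    (fun x => abs_nonneg _) (by rw [max_eq_right (by linarith)]; ring)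
    (by rw [max_eq_right (by linarith)]; ring) (by rw [sub_self, abs_zero]; ring)
  rw [max_eq_left (by linarith)] at this
  rcases mul_eq_zero.mp this with h | h
  · linarith
  · have := abs_eq_zero.mp h; linarith

theorem left_strip {a b c A : ℝ × ℝ} (H : InHull3 a b c A) (h2 : b.1 ≤ c.1)
    (hA : A.1 < b.1) : A.2 = a.2 := by
  have := prod_zero H (conv_neg b.1) (conv_abs a.2) (fun x => le_max_right _ _)
    (fun x => abs_nonneg _) (by rw [sub_self, abs_zero]; ring)
    (by rw [max_eq_right (by linarith)]; ring) (by rw [max_eq_right (by linarith)]; ring)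
  rw [max_eq_left (by linarith)] at this
  rcases mul_eq_zero.mp this with h | h
  · linarith
  · have := abs_eq_zero.mp h; linarith

theorem inHull3_swap {a b c A : ℝ × ℝ} (H : InHull3 a b c A) :
    InHull3 a.swap b.swap c.swap A.swap := by
  intro F hF h1 h2 h3
  exact H (fun x y => F y x) ⟨fun y => hF.2 y, fun x => hF.1 x⟩ h1 h2 h3

theorem inHull3_perm {a b c A : ℝ × ℝ} (H : InHull3 a b c A) :
    InHull3 b a c A ∧ InHull3 a c b A ∧ InHull3 c b a A ∧ InHull3 b c a A ∧ InHull3 c a b A := by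
  refine ⟨?_, ?_, ?_, ?_, ?_⟩ <;> intro F hF h1 h2 h3
  · exact H F hF h2 h1 h3
  · exact H F hF h1 h3 h2
  · exact H F hF h3 h2 h1
  · exact H F hF h3 h1 h2
  · exact H F hF h2 h3 h1

/-- The corner argument: on the two lines through the corner of `b` and `c`, only `b` and `c`. -/
theorem corner {a b c A : ℝ × ℝ} (H : InHull3 a b c A) (hab : a.1 ≠ b.1) (hbc : b.1 ≠ c.1)
    (hac2 : a.2 ≠ c.2) (hbc2 : b.2 ≠ c.2) (hA : A.1 = b.1 ∨ A.2 = c.2) : A = b ∨ A = c := by
  have e1 : c.1 - b.1 ≠ 0 := sub_ne_zero.mpr (Ne.symm hbc)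
  have e2 : b.2 - c.2 ≠ 0 := sub_ne_zero.mpr hbc2
  have e3 : a.1 - b.1 ≠ 0 := sub_ne_zero.mpr hab
  have e4 : a.2 - c.2 ≠ 0 := sub_ne_zero.mpr hac2
  -- L(x,y) = 1 - (x-b1)/(c1-b1) - (y-c2)/(b2-c2) + m (x-b1)(y-c2)
  obtain ⟨m, hm⟩ : ∃ m : ℝ, 1 - (a.1 - b.1) / (c.1 - b.1) - (a.2 - c.2) / (b.2 - c.2) +
      m * ((a.1 - b.1) * (a.2 - c.2)) = 0 := by
    refine ⟨-(1 - (a.1 - b.1) / (c.1 - b.1) - (a.2 - c.2) / (b.2 - c.2)) /
      ((a.1 - b.1) * (a.2 - c.2)), ?_⟩
    rw [div_mul_cancel₀ _ (mul_ne_zero e3 e4)]; ring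
  set L : ℝ → ℝ → ℝ := fun x y => 1 - (x - b.1) / (c.1 - b.1) - (y - c.2) / (b.2 - c.2) +
      m * ((x - b.1) * (y - c.2)) with hL
  have hLs : ∀ s : ℝ, SepConvex (fun x y => s * L x y) := by
    intro s
    have := sep_biaffine (s * (1 + b.1 / (c.1 - b.1) + c.2 / (b.2 - c.2) + m * (b.1 * c.2)))
      (s * (-1 / (c.1 - b.1) - m * c.2)) (s * (-1 / (b.2 - c.2) - m * b.1)) (s * m)
    convert this using 3
    simp only [hL]
    ring
  have ha0 : L a.1 a.2 = 0 := hm
  have hb0 : L b.1 b.2 = 0 := by simp only [hL]; field_simp; ring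
  have hc0 : L c.1 c.2 = 0 := by simp only [hL]; field_simp; ring
  have hA0 : L A.1 A.2 = 0 := by
    have h1 := H _ (hLs 1) (by rw [ha0]; simp) (by rw [hb0]; simp) (by rw [hc0]; simp)
    have h2 := H _ (hLs (-1)) (by rw [ha0]; simp) (by rw [hb0]; simp) (by rw [hc0]; simp)
    linarith
  rcases hA with h | h
  · left
    simp only [hL, h] at hA0
    have : (A.2 - c.2) / (b.2 - c.2) = 1 := by
      simp at hA0; linarith
    rw [div_eq_one_iff_eq e2] at this
    exact Prod.ext h (by linarith)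
  · right
    simp only [hL, h] at hA0
    have : (A.1 - b.1) / (c.1 - b.1) = 1 := by
      simp at hA0; linarith
    rw [div_eq_one_iff_eq e1] at this
    exact Prod.ext (by linarith) h

/-- The planar hull of three points with distinct abscissae and distinct ordinates is trivial. -/
theorem three {a b c A : ℝ × ℝ} (H : InHull3 a b c A) (h1 : a.1 < b.1) (h2 : b.1 < c.1)
    (n1 : a.2 ≠ b.2) (n2 : b.2 ≠ c.2) (n3 : a.2 ≠ c.2) : A = a ∨ A = b ∨ A = c := by
  have hR := fun h => right_strip H h1.le h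
  have hL := fun h => left_strip H h2.le h
  obtain ⟨p1, p2, p3, p4, p5⟩ := inHull3_perm H
  -- strips in the other variable
  have S0 := inHull3_swap H      -- a b c
  have S1 := inHull3_swap p1     -- b a c
  have S2 := inHull3_swap p2     -- a c b
  have S3 := inHull3_swap p3     -- c b a
  have S4 := inHull3_swap p4     -- b c a
  have S5 := inHull3_swap p5     -- c a b
  have up : ∀ {p q r : ℝ × ℝ}, InHull3 p.swap q.swap r.swap A.swap → p.2 ≤ q.2 → q.2 < A.2 →
      A.1 = r.1 := fun h hh hh' => right_strip h hh hh'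
  have dn : ∀ {p q r : ℝ × ℝ}, InHull3 p.swap q.swap r.swap A.swap → q.2 ≤ r.2 → A.2 < q.2 →
      A.1 = p.1 := fun h hh hh' => left_strip h hh hh'
  rcases lt_or_gt_of_ne n1 with m1 | m1 <;> rcases lt_or_gt_of_ne n2 with m2 | m2 <;>
    rcases lt_or_gt_of_ne n3 with m3 | m3
  · -- a < b < c
    rcases lt_trichotomy A.1 b.1 with hx | hx | hx
    · have hy := hL hx
      left
      exact Prod.ext (dn S0 m2.le (by linarith)) hy
    · right; left
      refine Prod.ext hx ?_
      rcases lt_trichotomy A.2 b.2 with hy | hy | hy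
      · have := dn S0 m2.le hy; linarith
      · exact hy
      · have := up S0 m1.le hy; linarith
    · have hy := hR hx
      right; right
      exact Prod.ext (up S0 m1.le (by linarith)) hy
  · linarith
  · -- a < c < b
    rcases lt_or_ge A.1 b.1 with hx | hx
    · have hy := hL hx
      left
      exact Prod.ext (dn S2 m2.le (by linarith)) hy
    · right
      refine corner H h1.ne h2.ne n3 n2 ?_
      rcases hx.lt_or_eq with hx | hx
      · right; exact hR hx
      · left; exact hx.symm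
  · -- a < b, c < b, c < a : c < a < b
    rcases lt_or_ge b.1 A.1 with hx | hx
    · have hy := hR hx
      right; right
      exact Prod.ext (dn S5 m1.le (by linarith)) hy
    · have := corner p3 h2.ne' h1.ne' n3.symm n1.symm ?_
      · rcases this with h | h
        · right; left; exact h
        · left; exact h
      · rcases hx.lt_or_eq with hx | hx
        · right; exact hL hx
        · left; exact hx
  · -- b < a, b < c, a < c : b < a < c
    rcases lt_or_ge b.1 A.1 with hx | hx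
    · have hy := hR hx
      right; right
      exact Prod.ext (up S1 m1.le (by linarith)) hy
    · have := corner p3 h2.ne' h1.ne' n3.symm n1.symm ?_
      · rcases this with h | h
        · right; left; exact h
        · left; exact h
      · rcases hx.lt_or_eq with hx | hx
        · right; exact hL hx
        · left; exact hx
  · -- b < c < a
    rcases lt_or_ge A.1 b.1 with hx | hx
    · have hy := hL hx
      left
      exact Prod.ext (up S4 m2.le (by linarith)) hy
    · right
      refine corner H h1.ne h2.ne n3 n2 ?_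
      rcases hx.lt_or_eq with hx | hx
      · right; exact hR hx
      · left; exact hx.symm
  · linarith
  · -- c < b < a
    rcases lt_trichotomy A.1 b.1 with hx | hx | hx
    · have hy := hL hx
      left
      exact Prod.ext (up S3 m2.le (by linarith)) hy
    · right; left
      refine Prod.ext hx ?_
      rcases lt_trichotomy A.2 b.2 with hy | hy | hy
      · have := dn S3 m1.le hy; linarith
      · exact hy
      · have := up S3 m2.le hy; linarith
    · have hy := hR hx
      right; right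
      exact Prod.ext (dn S3 m1.le (by linarith)) hy

end Q94.TR
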