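import Pool.Agent.Q94.TRA

/-!
The geometry of `T4` configurations in the plane, and the finite combinatorics of the
six-point set.
-/

open Set

namespace Q94.TR

/-- The sign pattern of a `T4` configuration. -/
def Pat (x y : Fin 4 → ℝ) : Prop :=
  0 < (x 0 - x 1) * (x 1 - x 3) ∧ 0 < (x 1 - x 3) * (x 3 - x 2) ∧
    0 < (y 1 - y 2) * (y 2 - y 0) ∧ 0 < (y 2 - y 0) * (y 0 - y 3)

theorem t4_pattern {k : Fin 4 → ℝ × ℝ × ℝ} (hk : IsT4 k)
    (hx : ∀ i j, i ≠ j → (k i).1 ≠ (k j).1) (hy : ∀ i j, i ≠ j → (k i).2.1 ≠ (k j).2.1) :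
    Pat (fun j => (k j).1) (fun j => (k j).2.1) ∨ Pat (fun j => (k j).2.1) (fun j => (k j).1) := by
  obtain ⟨P, C, α, hC, hsum, hα, h0, h1, h2, h3⟩ := hk
  have x0 : (k 0).1 = P.1 + α 0 * (C 0).1 := by rw [h0]; simp
  have x1 : (k 1).1 = P.1 + (C 0).1 + α 1 * (C 1).1 := by rw [h1]; simp
  have x2 : (k 2).1 = P.1 + (C 0).1 + (C 1).1 + α 2 * (C 2).1 := by rw [h2]; simp
  have x3 : (k 3).1 = P.1 + (C 0).1 + (C 1).1 + (C 2).1 + α 3 * (C 3).1 := by rw [h3]; simp
  have y0 : (k 0).2.1 = P.2.1 + α 0 * (C 0).2.1 := by rw [h0]; simp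
  have y1 : (k 1).2.1 = P.2.1 + (C 0).2.1 + α 1 * (C 1).2.1 := by rw [h1]; simp
  have y2 : (k 2).2.1 = P.2.1 + (C 0).2.1 + (C 1).2.1 + α 2 * (C 2).2.1 := by rw [h2]; simp
  have y3 : (k 3).2.1 = P.2.1 + (C 0).2.1 + (C 1).2.1 + (C 2).2.1 + α 3 * (C 3).2.1 := by
    rw [h3]; simp
  have sx : (C 0).1 + (C 1).1 + (C 2).1 + (C 3).1 = 0 := by
    have := congrArg Prod.fst hsum; simpa using this
  have sy : (C 0).2.1 + (C 1).2.1 + (C 2).2.1 + (C 3).2.1 = 0 := by
    have := congrArg (fun p => p.2.1) hsum; simpa using this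
  have c0 := (hC 0).2
  have c1 := (hC 1).2
  have c2 := (hC 2).2
  have c3 := (hC 3).2
  have a0 := hα 0
  have a1 := hα 1
  have a2 := hα 2
  have a3 := hα 3
  have nx01 := hx 0 1 (by decide)
  have nx12 := hx 1 2 (by decide)
  have nx23 := hx 2 3 (by decide)
  have nx30 := hx 3 0 (by decide)
  have ny01 := hy 0 1 (by decide)
  have ny12 := hy 1 2 (by decide)
  have ny23 := hy 2 3 (by decide)
  have ny30 := hy 3 0 (by decide)
  simp only [Pat]
  generalize (k 0).1 = X0 at *
  generalize (k 1).1 = X1 at *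
  generalize (k 2).1 = X2 at *
  generalize (k 3).1 = X3 at *
  generalize (k 0).2.1 = Y0 at *
  generalize (k 1).2.1 = Y1 at *
  generalize (k 2).2.1 = Y2 at *
  generalize (k 3).2.1 = Y3 at *
  generalize (C 0).1 = u0 at *
  generalize (C 1).1 = u1 at *
  generalize (C 2).1 = u2 at *
  generalize (C 3).1 = u3 at *
  generalize (C 0).2.1 = v0 at *
  generalize (C 1).2.1 = v1 at *
  generalize (C 2).2.1 = v2 at *
  generalize (C 3).2.1 = v3 at *
  generalize α 0 = A0 at *
  generalize α 1 = A1 at *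
  generalize α 2 = A2 at *
  generalize α 3 = A3 at *
  have aux : ∀ s a : ℝ, 1 ≤ s → (s - 1) * a ≠ 0 → 0 < (s - 1) * a * a := by
    intro s a hs h
    have h1 : s - 1 ≠ 0 := left_ne_zero_of_mul h
    have h2 : a ≠ 0 := right_ne_zero_of_mul h
    have h3 : 0 < s - 1 := lt_of_le_of_ne (by linarith) (Ne.symm h1)
    have h4 : 0 < a * a := mul_self_pos.mpr h2
    nlinarith
  rcases mul_eq_zero.mp c0 with h | h
  · -- C 0 vertical
    subst h
    rcases mul_eq_zero.mp c1 with h | h
    · subst h; exact absurd (by linarith) nx01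
    · subst h
      rcases mul_eq_zero.mp c2 with h | h
      · subst h
        rcases mul_eq_zero.mp c3 with h | h
        · subst h; exact absurd (by linarith) nx30
        · subst h
          right
          have e2 : v2 = -v0 := by linarith
          have e3 : u3 = -u1 := by linarith
          subst e2; subst e3
          have d1 : Y0 - Y1 = (A0 - 1) * v0 := by rw [y0, y1]; ring
          have d2 : Y1 - Y3 = v0 := by rw [y1, y3]; ring
          have d3 : Y3 - Y2 = (A2 - 1) * v0 := by rw [y3, y2]; ring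
          have d4 : X1 - X2 = (A1 - 1) * u1 := by rw [x1, x2]; ring
          have d5 : X2 - X0 = u1 := by rw [x2, x0]; ring
          have d6 : X0 - X3 = (A3 - 1) * u1 := by rw [x0, x3]; ring
          rw [d1, d2, d3, d4, d5, d6]
          refine ⟨aux _ _ a0 ?_, ?_, aux _ _ a1 ?_, ?_⟩
          · rw [← d1]; exact sub_ne_zero.mpr ny01
          · rw [mul_comm]; refine aux _ _ a2 ?_
            rw [← d3]; exact sub_ne_zero.mpr ny23.symm
          · rw [← d4]; exact sub_ne_zero.mpr nx12
          · rw [mul_comm]; refine aux _ _ a3 ?_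
            rw [← d6]; exact sub_ne_zero.mpr nx30.symm
      · subst h; exact absurd (by linarith) ny12
  · -- C 0 horizontal
    subst h
    rcases mul_eq_zero.mp c1 with h | h
    · subst h
      rcases mul_eq_zero.mp c2 with h | h
      · subst h; exact absurd (by linarith) nx12
      · subst h
        rcases mul_eq_zero.mp c3 with h | h
        · subst h
          left
          have e2 : u2 = -u0 := by linarith
          have e3 : v3 = -v1 := by linarith
          subst e2; subst e3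
          have d1 : X0 - X1 = (A0 - 1) * u0 := by rw [x0, x1]; ring
          have d2 : X1 - X3 = u0 := by rw [x1, x3]; ring
          have d3 : X3 - X2 = (A2 - 1) * u0 := by rw [x3, x2]; ring
          have d4 : Y1 - Y2 = (A1 - 1) * v1 := by rw [y1, y2]; ring
          have d5 : Y2 - Y0 = v1 := by rw [y2, y0]; ring
          have d6 : Y0 - Y3 = (A3 - 1) * v1 := by rw [y0, y3]; ring
          rw [d1, d2, d3, d4, d5, d6]
          refine ⟨aux _ _ a0 ?_, ?_, aux _ _ a1 ?_, ?_⟩
          · rw [← d1]; exact sub_ne_zero.mpr nx01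
          · rw [mul_comm]; refine aux _ _ a2 ?_
            rw [← d3]; exact sub_ne_zero.mpr nx23.symm
          · rw [← d4]; exact sub_ne_zero.mpr ny12
          · rw [mul_comm]; refine aux _ _ a3 ?_
            rw [← d6]; exact sub_ne_zero.mpr ny30.symm
        · subst h; exact absurd (by linarith) ny30
    · subst h; exact absurd (by linarith) ny01

/-! ### The six points -/

/-- Abscissae. -/
def eX (e : Fin 6) : ℤ := (e : ℕ) + 1
/-- Ordinates. -/
def eY : Fin 6 → ℤ := ![2, 6, 3, 1, 5, 4]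
/-- Heights. -/
def eZ : Fin 6 → ℤ := ![0, 0, 1, 0, 0, 0]

/-- The six points, ordered by abscissa:
`(1,2,0), (2,6,0), (3,3,1), (4,1,0), (5,5,0), (6,4,0)`. -/
def pt (e : Fin 6) : ℝ × ℝ × ℝ := ((eX e : ℝ), (eY e : ℝ), (eZ e : ℝ))

theorem pt_x_ne {i j : Fin 6} (h : i ≠ j) : (pt i).1 ≠ (pt j).1 := by
  simp only [pt]
  have : ∀ i j : Fin 6, i ≠ j → eX i ≠ eX j := by decide
  exact_mod_cast this i j h

theorem pt_y_ne {i j : Fin 6} (h : i ≠ j) : (pt i).2.1 ≠ (pt j).2.1 := by
  simp only [pt]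
  have : ∀ i j : Fin 6, i ≠ j → eY i ≠ eY j := by decide
  exact_mod_cast this i j h

theorem finite_check : ∀ a b c d : Fin 6,
    (a = 2 ∨ b = 2 ∨ c = 2 ∨ d = 2) →
    ¬ ((0 < (eX a - eX b) * (eX b - eX d) ∧ 0 < (eX b - eX d) * (eX d - eX c) ∧
      0 < (eY b - eY c) * (eY c - eY a) ∧ 0 < (eY c - eY a) * (eY a - eY d)) ∨
      (0 < (eY a - eY b) * (eY b - eY d) ∧ 0 < (eY b - eY d) * (eY d - eY c) ∧
      0 < (eX b - eX c) * (eX c - eX a) ∧ 0 < (eX c - eX a) * (eX a - eX d))) := by
  decide +kernel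

/-- No `T4` configuration consists of four distinct points among the six, one of them the raised
point. -/
theorem no_t4 {k : Fin 4 → ℝ × ℝ × ℝ} (hk : IsT4 k) {idx : Fin 4 → Fin 6}
    (hidx : ∀ j, k j = pt (idx j)) (hinj : Function.Injective idx) (h2 : ∃ j, idx j = 2) :
    False := by
  have hp := t4_pattern hk
    (fun i j hij => by rw [hidx, hidx]; exact pt_x_ne (fun h => hij (hinj h)))
    (fun i j hij => by rw [hidx, hidx]; exact pt_y_ne (fun h => hij (hinj h)))
  refine finite_check (idx 0) (idx 1) (idx 2) (idx 3) ?_ ?_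
  · obtain ⟨j, hj⟩ := h2
    fin_cases j
    · left; exact hj
    · right; left; exact hj
    · right; right; left; exact hj
    · right; right; right; exact hj
  · simp only [Pat, hidx, pt] at hp
    exact_mod_cast hp

theorem three_subset : ∀ J : Finset (Fin 6), J.card ≤ 3 →
    ∃ a b c : Fin 6, a < b ∧ b < c ∧ ∀ e ∈ J, e = a ∨ e = b ∨ e = c := by
  decide +kernel

end Q94.TR
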