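import Pool.Agent.Q94.TRB

/-!
The separately concave certificate `U` and the six-point set.
-/

open Set

namespace Q94.TR

/-! ### Hat functions -/

noncomputable def h1 (x : ℝ) : ℝ := (|x - 2| - |x - 1| + 1) / 2
noncomputable def h2 (x : ℝ) : ℝ := (|x - 1| - 2 * |x - 2| + |x - 3|) / 2
noncomputable def h3 (x : ℝ) : ℝ := (|x - 2| - 2 * |x - 3| + |x - 4|) / 2
noncomputable def h4 (x : ℝ) : ℝ := (|x - 3| - 2 * |x - 4| + |x - 5|) / 2
noncomputable def h5 (x : ℝ) : ℝ := (|x - 4| - 2 * |x - 5| + |x - 6|) / 2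
noncomputable def h6 (x : ℝ) : ℝ := (|x - 5| - |x - 6| + 1) / 2
/-- distance to `[1, 6]` -/
noncomputable def dd (x : ℝ) : ℝ := (|x - 1| + |x - 6| - 5) / 2

theorem hsum (x : ℝ) : h1 x + h2 x + h3 x + h4 x + h5 x + h6 x = 1 := by
  unfold h1 h2 h3 h4 h5 h6; ring

theorem h1_nonneg (x : ℝ) : 0 ≤ h1 x := by
  unfold h1
  have := abs_sub_abs_le_abs_sub (x - 1) (x - 2)
  have e : |x - 1 - (x - 2)| = 1 := by norm_num
  linarith

theorem h6_nonneg (x : ℝ) : 0 ≤ h6 x := by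
  unfold h6
  have := abs_sub_abs_le_abs_sub (x - 6) (x - 5)
  have e : |x - 6 - (x - 5)| = 1 := by norm_num
  linarith

theorem mid_abs (x a : ℝ) : 0 ≤ (|x - (a - 1)| - 2 * |x - a| + |x - (a + 1)|) / 2 := by
  have := abs_add_le (x - (a - 1)) (x - (a + 1))
  have e : |x - (a - 1) + (x - (a + 1))| = 2 * |x - a| := by
    rw [show x - (a - 1) + (x - (a + 1)) = 2 * (x - a) by ring, abs_mul, abs_two]
  linarith

theorem h2_nonneg (x : ℝ) : 0 ≤ h2 x := by
  have := mid_abs x 2; norm_num at this; unfold h2; linarith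
theorem h3_nonneg (x : ℝ) : 0 ≤ h3 x := by
  have := mid_abs x 3; norm_num at this; unfold h3; linarith
theorem h4_nonneg (x : ℝ) : 0 ≤ h4 x := by
  have := mid_abs x 4; norm_num at this; unfold h4; linarith
theorem h5_nonneg (x : ℝ) : 0 ≤ h5 x := by
  have := mid_abs x 5; norm_num at this; unfold h5; linarith

/-- A row: the clamped piecewise linear interpolation, minus a multiple of the distance. -/
noncomputable def row (r1 r2 r3 r4 r5 r6 : ℝ) (x : ℝ) : ℝ :=
  r1 * h1 x + r2 * h2 x + r3 * h3 x + r4 * h4 x + r5 * h5 x + r6 * h6 x - 2000 * dd x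

theorem row_concave {r1 r2 r3 r4 r5 r6 : ℝ} (c1 : r2 - r1 ≤ 2000) (c2 : r1 + r3 ≤ 2 * r2)
    (c3 : r2 + r4 ≤ 2 * r3) (c4 : r3 + r5 ≤ 2 * r4) (c5 : r4 + r6 ≤ 2 * r5)
    (c6 : r5 - r6 ≤ 2000) : ConvexOn ℝ univ (fun x => -row r1 r2 r3 r4 r5 r6 x) := by
  have e : (fun x => -row r1 r2 r3 r4 r5 r6 x) = fun x =>
      ((2000 - (r2 - r1)) / 2) * |x - 1| + ((2 * r2 - r1 - r3) / 2) * |x - 2| +
      ((2 * r3 - r2 - r4) / 2) * |x - 3| + ((2 * r4 - r3 - r5) / 2) * |x - 4| +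
      ((2 * r5 - r4 - r6) / 2) * |x - 5| + ((2000 - (r5 - r6)) / 2) * |x - 6| +
      (-(r1 + r6) / 2 - 5000) := by
    funext x
    unfold row h1 h2 h3 h4 h5 h6 dd
    ring
  rw [e]
  have s : ∀ (c a : ℝ), 0 ≤ c → ConvexOn ℝ univ (fun x : ℝ => c * |x - a|) :=
    fun c a hc => (conv_abs a).smul hc
  exact ((((((s _ 1 (by linarith)).add (s _ 2 (by linarith))).add (s _ 3 (by linarith))).add
    (s _ 4 (by linarith))).add (s _ 5 (by linarith))).add (s _ 6 (by linarith))).add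
    (convexOn_const _ convex_univ)

/-- The certificate. -/
noncomputable def U (x y : ℝ) : ℝ :=
  h1 y * row (-822) (-548) (-274) 0 (-642) (-1284) x +
  h2 y * row 0 12 24 36 (-410) (-856) x +
  h3 y * row (-304) 9 322 72 (-178) (-428) x +
  h4 y * row (-608) 6 162 108 54 0 x +
  h5 y * row (-912) 3 2 1 0 (-2) x +
  h6 y * row (-1216) 0 (-158) (-316) (-474) (-632) x - 2000 * dd y

theorem U_cols (x y : ℝ) : U x y =
    h1 x * row (-822) 0 (-304) (-608) (-912) (-1216) y +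
    h2 x * row (-548) 12 9 6 3 0 y +
    h3 x * row (-274) 24 322 162 2 (-158) y +
    h4 x * row 0 36 72 108 1 (-316) y +
    h5 x * row (-642) (-410) (-178) 54 0 (-474) y +
    h6 x * row (-1284) (-856) (-428) 0 (-2) (-632) y - 2000 * dd x := by
  have e1 := hsum x
  have e2 := hsum y
  have f1 : h6 x = 1 - h1 x - h2 x - h3 x - h4 x - h5 x := by linarith
  have f2 : h6 y = 1 - h1 y - h2 y - h3 y - h4 y - h5 y := by linarith
  unfold U row
  rw [f1, f2]
  ring

theorem U_sep : SepConvex (fun x y => -U x y) := by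
  constructor
  · intro y
    have e : (fun x => -U x y) = fun x =>
        (h1 y) * (-row (-822) (-548) (-274) 0 (-642) (-1284) x) +
        (h2 y) * (-row 0 12 24 36 (-410) (-856) x) +
        (h3 y) * (-row (-304) 9 322 72 (-178) (-428) x) +
        (h4 y) * (-row (-608) 6 162 108 54 0 x) +
        (h5 y) * (-row (-912) 3 2 1 0 (-2) x) +
        (h6 y) * (-row (-1216) 0 (-158) (-316) (-474) (-632) x) + 2000 * dd y := by
      funext x; unfold U; ring
    rw [e]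
    refine (((((((row_concave ?_ ?_ ?_ ?_ ?_ ?_).smul (h1_nonneg y)).add
      ((row_concave ?_ ?_ ?_ ?_ ?_ ?_).smul (h2_nonneg y))).add
      ((row_concave ?_ ?_ ?_ ?_ ?_ ?_).smul (h3_nonneg y))).add
      ((row_concave ?_ ?_ ?_ ?_ ?_ ?_).smul (h4_nonneg y))).add
      ((row_concave ?_ ?_ ?_ ?_ ?_ ?_).smul (h5_nonneg y))).add
      ((row_concave ?_ ?_ ?_ ?_ ?_ ?_).smul (h6_nonneg y))).add
      (convexOn_const _ convex_univ) <;> norm_num
  · intro x
    have e : (fun y => -U x y) = fun y =>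
        (h1 x) * (-row (-822) 0 (-304) (-608) (-912) (-1216) y) +
        (h2 x) * (-row (-548) 12 9 6 3 0 y) +
        (h3 x) * (-row (-274) 24 322 162 2 (-158) y) +
        (h4 x) * (-row 0 36 72 108 1 (-316) y) +
        (h5 x) * (-row (-642) (-410) (-178) 54 0 (-474) y) +
        (h6 x) * (-row (-1284) (-856) (-428) 0 (-2) (-632) y) + 2000 * dd x := by
      funext y; rw [U_cols]; ring
    rw [e]
    refine (((((((row_concave ?_ ?_ ?_ ?_ ?_ ?_).smul (h1_nonneg x)).add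
      ((row_concave ?_ ?_ ?_ ?_ ?_ ?_).smul (h2_nonneg x))).add
      ((row_concave ?_ ?_ ?_ ?_ ?_ ?_).smul (h3_nonneg x))).add
      ((row_concave ?_ ?_ ?_ ?_ ?_ ?_).smul (h4_nonneg x))).add
      ((row_concave ?_ ?_ ?_ ?_ ?_ ?_).smul (h5_nonneg x))).add
      ((row_concave ?_ ?_ ?_ ?_ ?_ ?_).smul (h6_nonneg x))).add
      (convexOn_const _ convex_univ) <;> norm_num

/-- The rank-one convex certificate. -/
noncomputable def g (p : ℝ × ℝ × ℝ) : ℝ := -U p.1 p.2.1 + 322 * p.2.2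

theorem g_rc : RankOneConvex g := rc_of_sep U_sep 322

/-! ### Values of the hat functions on the cells -/

theorem hats_01 {x : ℝ} (a : 1 ≤ x) (b : x ≤ 2) :
    h1 x = 2 - x ∧ h2 x = x - 1 ∧ h3 x = 0 ∧ h4 x = 0 ∧ h5 x = 0 ∧ h6 x = 0 ∧ dd x = 0 := by
  unfold h1 h2 h3 h4 h5 h6 dd
  rw [abs_of_nonneg (show 0 ≤ x - 1 by linarith), abs_of_nonpos (show x - 2 ≤ 0 by linarith),
    abs_of_nonpos (show x - 3 ≤ 0 by linarith), abs_of_nonpos (show x - 4 ≤ 0 by linarith),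
    abs_of_nonpos (show x - 5 ≤ 0 by linarith), abs_of_nonpos (show x - 6 ≤ 0 by linarith)]
  refine ⟨?_, ?_, ?_, ?_, ?_, ?_, ?_⟩ <;> ring

theorem hats_12 {x : ℝ} (a : 2 ≤ x) (b : x ≤ 3) :
    h1 x = 0 ∧ h2 x = 3 - x ∧ h3 x = x - 2 ∧ h4 x = 0 ∧ h5 x = 0 ∧ h6 x = 0 ∧ dd x = 0 := by
  unfold h1 h2 h3 h4 h5 h6 dd
  rw [abs_of_nonneg (show 0 ≤ x - 1 by linarith), abs_of_nonneg (show 0 ≤ x - 2 by linarith),
    abs_of_nonpos (show x - 3 ≤ 0 by linarith), abs_of_nonpos (show x - 4 ≤ 0 by linarith),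
    abs_of_nonpos (show x - 5 ≤ 0 by linarith), abs_of_nonpos (show x - 6 ≤ 0 by linarith)]
  refine ⟨?_, ?_, ?_, ?_, ?_, ?_, ?_⟩ <;> ring

theorem hats_23 {x : ℝ} (a : 3 ≤ x) (b : x ≤ 4) :
    h1 x = 0 ∧ h2 x = 0 ∧ h3 x = 4 - x ∧ h4 x = x - 3 ∧ h5 x = 0 ∧ h6 x = 0 ∧ dd x = 0 := by
  unfold h1 h2 h3 h4 h5 h6 dd
  rw [abs_of_nonneg (show 0 ≤ x - 1 by linarith), abs_of_nonneg (show 0 ≤ x - 2 by linarith),
    abs_of_nonneg (show 0 ≤ x - 3 by linarith), abs_of_nonpos (show x - 4 ≤ 0 by linarith),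
    abs_of_nonpos (show x - 5 ≤ 0 by linarith), abs_of_nonpos (show x - 6 ≤ 0 by linarith)]
  refine ⟨?_, ?_, ?_, ?_, ?_, ?_, ?_⟩ <;> ring

theorem hats_34 {x : ℝ} (a : 4 ≤ x) (b : x ≤ 5) :
    h1 x = 0 ∧ h2 x = 0 ∧ h3 x = 0 ∧ h4 x = 5 - x ∧ h5 x = x - 4 ∧ h6 x = 0 ∧ dd x = 0 := by
  unfold h1 h2 h3 h4 h5 h6 dd
  rw [abs_of_nonneg (show 0 ≤ x - 1 by linarith), abs_of_nonneg (show 0 ≤ x - 2 by linarith),
    abs_of_nonneg (show 0 ≤ x - 3 by linarith), abs_of_nonneg (show 0 ≤ x - 4 by linarith),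
    abs_of_nonpos (show x - 5 ≤ 0 by linarith), abs_of_nonpos (show x - 6 ≤ 0 by linarith)]
  refine ⟨?_, ?_, ?_, ?_, ?_, ?_, ?_⟩ <;> ring

theorem hats_45 {x : ℝ} (a : 5 ≤ x) (b : x ≤ 6) :
    h1 x = 0 ∧ h2 x = 0 ∧ h3 x = 0 ∧ h4 x = 0 ∧ h5 x = 6 - x ∧ h6 x = x - 5 ∧ dd x = 0 := by
  unfold h1 h2 h3 h4 h5 h6 dd
  rw [abs_of_nonneg (show 0 ≤ x - 1 by linarith), abs_of_nonneg (show 0 ≤ x - 2 by linarith),
    abs_of_nonneg (show 0 ≤ x - 3 by linarith), abs_of_nonneg (show 0 ≤ x - 4 by linarith),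
    abs_of_nonneg (show 0 ≤ x - 5 by linarith), abs_of_nonpos (show x - 6 ≤ 0 by linarith)]
  refine ⟨?_, ?_, ?_, ?_, ?_, ?_, ?_⟩ <;> ring

/-- On `[2,4]` only the hats `2, 3, 4` live. -/
theorem hats_mid {x : ℝ} (a : 2 ≤ x) (b : x ≤ 4) :
    h1 x = 0 ∧ h5 x = 0 ∧ h6 x = 0 ∧ dd x = 0 ∧ h2 x + h3 x + h4 x = 1 := by
  rcases le_total x 3 with h | h
  · obtain ⟨a1, a2, a3, a4, a5, a6, a7⟩ := hats_12 a h
    refine ⟨a1, a5, a6, a7, ?_⟩
    rw [a2, a3, a4]; ring
  · obtain ⟨a1, a2, a3, a4, a5, a6, a7⟩ := hats_23 h b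
    refine ⟨a1, a5, a6, a7, ?_⟩
    rw [a2, a3, a4]; ring

/-- On `[2,5]` only the hats `2, 3, 4, 5` live. -/
theorem hats_mid' {x : ℝ} (a : 2 ≤ x) (b : x ≤ 5) :
    h1 x = 0 ∧ h6 x = 0 ∧ dd x = 0 ∧ h2 x + h3 x + h4 x + h5 x = 1 := by
  rcases le_total x 4 with h | h
  · obtain ⟨a1, a2, a3, a4, a5⟩ := hats_mid a h
    refine ⟨a1, a3, a4, ?_⟩
    rw [a2]; linarith
  · obtain ⟨a1, a2, a3, a4, a5, a6, a7⟩ := hats_34 h b
    refine ⟨a1, a6, a7, ?_⟩
    rw [a2, a3, a4, a5]; ring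

/-- `U` is at least `1` on `[2,4] x [2,5]`. -/
theorem U_core {x y : ℝ} (x1 : 2 ≤ x) (x2 : x ≤ 4) (y1 : 2 ≤ y) (y2 : y ≤ 5) : 1 ≤ U x y := by
  obtain ⟨a1, a2, a3, a4, a5⟩ := hats_mid x1 x2
  obtain ⟨b1, b2, b3, b4⟩ := hats_mid' y1 y2
  have p2 := h2_nonneg x
  have p3 := h3_nonneg x
  have p4 := h4_nonneg x
  have q2 := h2_nonneg y
  have q3 := h3_nonneg y
  have q4 := h4_nonneg y
  have q5 := h5_nonneg y
  unfold U row
  rw [a1, a2, a3, a4, b1, b2, b3]
  have e : h4 x = 1 - h2 x - h3 x := by linarith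
  have r2 : 1 ≤ h2 x * 12 + h3 x * 24 + h4 x * 36 := by linarith
  have r3 : 1 ≤ h2 x * 9 + h3 x * 322 + h4 x * 72 := by linarith
  have r4 : 1 ≤ h2 x * 6 + h3 x * 162 + h4 x * 108 := by linarith
  have r5 : 1 ≤ h2 x * 3 + h3 x * 2 + h4 x * 1 := by linarith
  have m2 := mul_le_mul_of_nonneg_left r2 q2
  have m3 := mul_le_mul_of_nonneg_left r3 q3
  have m4 := mul_le_mul_of_nonneg_left r4 q4
  have m5 := mul_le_mul_of_nonneg_left r5 q5
  nlinarith [m2, m3, m4, m5, b4]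

theorem pt_vals : pt 0 = (1, 2, 0) ∧ pt 1 = (2, 6, 0) ∧ pt 2 = (3, 3, 1) ∧ pt 3 = (4, 1, 0) ∧
    pt 4 = (5, 5, 0) ∧ pt 5 = (6, 4, 0) := by
  refine ⟨?_, ?_, ?_, ?_, ?_, ?_⟩ <;> simp [pt, eX, eY, eZ]

theorem g_pt (e : Fin 6) : g (pt e) = 0 := by
  obtain ⟨e0, e1, e2, e3, e4, e5⟩ := pt_vals
  have c1 := hats_01 (x := 1) (by norm_num) (by norm_num)
  have c2 := hats_01 (x := 2) (by norm_num) (by norm_num)
  have c3 := hats_12 (x := 3) (by norm_num) (by norm_num)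
  have c4 := hats_23 (x := 4) (by norm_num) (by norm_num)
  have c5 := hats_34 (x := 5) (by norm_num) (by norm_num)
  have c6 := hats_45 (x := 6) (by norm_num) (by norm_num)
  obtain ⟨c11, c12, c13, c14, c15, c16, c17⟩ := c1
  obtain ⟨c21, c22, c23, c24, c25, c26, c27⟩ := c2
  obtain ⟨c31, c32, c33, c34, c35, c36, c37⟩ := c3
  obtain ⟨c41, c42, c43, c44, c45, c46, c47⟩ := c4
  obtain ⟨c51, c52, c53, c54, c55, c56, c57⟩ := c5
  obtain ⟨c61, c62, c63, c64, c65, c66, c67⟩ := c6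
  fin_cases e
  · show g (pt 0) = 0
    rw [e0]; simp only [g, U, row]
    rw [c11, c12, c13, c14, c15, c16, c17, c21, c22, c23, c24, c25, c26, c27]; norm_num
  · show g (pt 1) = 0
    rw [e1]; simp only [g, U, row]
    rw [c61, c62, c63, c64, c65, c66, c67, c21, c22, c23, c24, c25, c26, c27]; norm_num
  · show g (pt 2) = 0
    rw [e2]; simp only [g, U, row]
    rw [c31, c32, c33, c34, c35, c36, c37]; norm_num
  · show g (pt 3) = 0
    rw [e3]; simp only [g, U, row]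
    rw [c11, c12, c13, c14, c15, c16, c17, c41, c42, c43, c44, c45, c46, c47]; norm_num
  · show g (pt 4) = 0
    rw [e4]; simp only [g, U, row]
    rw [c51, c52, c53, c54, c55, c56, c57]; norm_num
  · show g (pt 5) = 0
    rw [e5]; simp only [g, U, row]
    rw [c61, c62, c63, c64, c65, c66, c67, c41, c42, c43, c44, c45, c46, c47]; norm_num

/-- A point over one of the six places at the critical height is one of the six points. -/
theorem eq_pt_of_top {A : ℝ × ℝ × ℝ} (hA : g A = 0) {e : Fin 6} (h1 : A.1 = (pt e).1)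
    (h2 : A.2.1 = (pt e).2.1) : A = pt e := by
  have h := g_pt e
  simp only [g] at hA h
  rw [h1, h2] at hA
  have h3 : A.2.2 = (pt e).2.2 := by linarith
  exact Prod.ext h1 (Prod.ext h2 h3)

/-- Facts about a point that satisfies all planar inequalities for the five ground points. -/
theorem ground {A : ℝ × ℝ × ℝ} (hgA : g A = 0)
    (H : ∀ f : ℝ × ℝ × ℝ → ℝ, RankOneConvex f → (∀ e : Fin 6, e ≠ 2 → f (pt e) ≤ 0) → f A ≤ 0) :
    ∃ e : Fin 6, A = pt e := by
  obtain ⟨v0, v1, v2, v3, v4, v5⟩ := pt_vals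
  have all : ∀ f : ℝ × ℝ × ℝ → ℝ, f (1, 2, 0) ≤ 0 → f (2, 6, 0) ≤ 0 → f (4, 1, 0) ≤ 0 →
      f (5, 5, 0) ≤ 0 → f (6, 4, 0) ≤ 0 → ∀ e : Fin 6, e ≠ 2 → f (pt e) ≤ 0 := by
    intro f k0 k1 k3 k4 k5 e he
    fin_cases e
    · show f (pt 0) ≤ 0
      rw [v0]; exact k0
    · show f (pt 1) ≤ 0
      rw [v1]; exact k1
    · exact absurd rfl he
    · show f (pt 3) ≤ 0
      rw [v3]; exact k3
    · show f (pt 4) ≤ 0
      rw [v4]; exact k4
    · show f (pt 5) ≤ 0
      rw [v5]; exact k5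
  have prod : ∀ u v : ℝ → ℝ, ConvexOn ℝ univ u → ConvexOn ℝ univ v → (∀ x, 0 ≤ u x) →
      (∀ x, 0 ≤ v x) → u 1 * v 2 ≤ 0 → u 2 * v 6 ≤ 0 → u 4 * v 1 ≤ 0 → u 5 * v 5 ≤ 0 →
      u 6 * v 4 ≤ 0 → u A.1 * v A.2.1 ≤ 0 := by
    intro u v hu hv hu0 hv0 k0 k1 k3 k4 k5
    have := H (fun p => u p.1 * v p.2.1 + 0 * p.2.2) (rc_of_sep (sep_prod hu hv hu0 hv0) 0)
      (all (fun p => u p.1 * v p.2.1 + 0 * p.2.2) (by simpa using k0) (by simpa using k1)
        (by simpa using k3) (by simpa using k4) (by simpa using k5))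
    simpa using this
  have hz : A.2.2 = 0 := by
    have hs : ∀ c : ℝ, RankOneConvex (fun p => (0 : ℝ) * 0 + c * p.2.2) := by
      intro c
      exact rc_of_sep (F := fun _ _ => (0 : ℝ) * 0)
        ⟨fun _ => convexOn_const _ convex_univ, fun _ => convexOn_const _ convex_univ⟩ c
    have z1 := H (fun p => (0 : ℝ) * 0 + 1 * p.2.2) (hs 1)
      (all (fun p => (0 : ℝ) * 0 + 1 * p.2.2) (by simp) (by simp) (by simp) (by simp) (by simp))
    have z2 := H (fun p => (0 : ℝ) * 0 + (-1) * p.2.2) (hs (-1))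
      (all (fun p => (0 : ℝ) * 0 + (-1) * p.2.2) (by simp) (by simp) (by simp) (by simp) (by simp))
    linarith
  have hU : U A.1 A.2.1 = 0 := by
    simp only [g, hz] at hgA; linarith
  have p0 : ∀ a : ℝ, ∀ x : ℝ, 0 ≤ max (x - a) 0 := fun a x => le_max_right _ _
  have n0 : ∀ a : ℝ, ∀ x : ℝ, 0 ≤ max (a - x) 0 := fun a x => le_max_right _ _
  have one : ConvexOn ℝ univ (fun _ : ℝ => (1 : ℝ)) := convexOn_const _ convex_univ
  -- bounding box
  have bx1 : 1 ≤ A.1 := by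
    have := prod _ _ (conv_neg 1) one (n0 1) (fun _ => zero_le_one) (by norm_num) (by norm_num)
      (by norm_num) (by norm_num) (by norm_num)
    by_contra hc
    push Not at hc
    rw [max_eq_left (by linarith)] at this
    linarith
  have bx6 : A.1 ≤ 6 := by
    have := prod _ _ (conv_pos 6) one (p0 6) (fun _ => zero_le_one) (by norm_num) (by norm_num)
      (by norm_num) (by norm_num) (by norm_num)
    by_contra hc
    push Not at hc
    rw [max_eq_left (by linarith)] at this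
    linarith
  have by1 : 1 ≤ A.2.1 := by
    have := prod _ _ one (conv_neg 1) (fun _ => zero_le_one) (n0 1) (by norm_num) (by norm_num)
      (by norm_num) (by norm_num) (by norm_num)
    by_contra hc
    push Not at hc
    rw [max_eq_left (by linarith)] at this
    linarith
  have by6 : A.2.1 ≤ 6 := by
    have := prod _ _ one (conv_pos 6) (fun _ => zero_le_one) (p0 6) (by norm_num) (by norm_num)
      (by norm_num) (by norm_num) (by norm_num)
    by_contra hc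
    push Not at hc
    rw [max_eq_left (by linarith)] at this
    linarith
  -- empty quadrants
  have q1 : ¬ (5 < A.1 ∧ 4 < A.2.1) := by
    rintro ⟨ha, hb⟩
    have := prod _ _ (conv_pos 5) (conv_pos 4) (p0 5) (p0 4) (by norm_num) (by norm_num)
      (by norm_num) (by norm_num) (by norm_num)
    rw [max_eq_left (by linarith), max_eq_left (by linarith)] at this
    nlinarith [mul_pos (sub_pos.mpr ha) (sub_pos.mpr hb)]
  have q2 : ¬ (2 < A.1 ∧ 5 < A.2.1) := by
    rintro ⟨ha, hb⟩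
    have := prod _ _ (conv_pos 2) (conv_pos 5) (p0 2) (p0 5) (by norm_num) (by norm_num)
      (by norm_num) (by norm_num) (by norm_num)
    rw [max_eq_left (by linarith), max_eq_left (by linarith)] at this
    nlinarith [mul_pos (sub_pos.mpr ha) (sub_pos.mpr hb)]
  have q3 : ¬ (4 < A.1 ∧ A.2.1 < 4) := by
    rintro ⟨ha, hb⟩
    have := prod _ _ (conv_pos 4) (conv_neg 4) (p0 4) (n0 4) (by norm_num) (by norm_num)
      (by norm_num) (by norm_num) (by norm_num)
    rw [max_eq_left (by linarith), max_eq_left (by linarith)] at this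
    nlinarith [mul_pos (sub_pos.mpr ha) (sub_pos.mpr hb)]
  have q4 : ¬ (A.1 < 4 ∧ A.2.1 < 2) := by
    rintro ⟨ha, hb⟩
    have := prod _ _ (conv_neg 4) (conv_neg 2) (n0 4) (n0 2) (by norm_num) (by norm_num)
      (by norm_num) (by norm_num) (by norm_num)
    rw [max_eq_left (by linarith), max_eq_left (by linarith)] at this
    nlinarith [mul_pos (sub_pos.mpr ha) (sub_pos.mpr hb)]
  have q5 : ¬ (A.1 < 2 ∧ 2 < A.2.1) := by
    rintro ⟨ha, hb⟩
    have := prod _ _ (conv_neg 2) (conv_pos 2) (n0 2) (p0 2) (by norm_num) (by norm_num)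
      (by norm_num) (by norm_num) (by norm_num)
    rw [max_eq_left (by linarith), max_eq_left (by linarith)] at this
    nlinarith [mul_pos (sub_pos.mpr ha) (sub_pos.mpr hb)]
  have finish : ∀ e : Fin 6, A.1 = (pt e).1 → A.2.1 = (pt e).2.1 → ∃ e : Fin 6, A = pt e :=
    fun e ha hb => ⟨e, eq_pt_of_top hgA ha hb⟩
  rcases lt_or_ge A.1 2 with hx | hx
  · -- left whisker
    have y2 : A.2.1 = 2 := by
      apply le_antisymm
      · by_contra hc; exact q5 ⟨hx, not_le.mp hc⟩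
      · by_contra hc; exact q4 ⟨by linarith, not_le.mp hc⟩
    obtain ⟨a1, a2, a3, a4, a5, a6, a7⟩ := hats_01 bx1 hx.le
    obtain ⟨b1, b2, b3, b4, b5, b6, b7⟩ := hats_01 (x := 2) (by norm_num) le_rfl
    rw [y2] at hU
    unfold U row at hU
    rw [a1, a2, a3, a4, a5, a6, a7, b1, b2, b3, b4, b5, b6, b7] at hU
    refine finish 0 ?_ ?_
    · rw [v0]; show A.1 = 1; linarith
    · rw [v0]; exact y2
  · rcases le_or_gt A.1 4 with hx4 | hx4
    · rcases lt_or_ge A.2.1 2 with hy | hy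
      · -- bottom whisker
        have x4 : A.1 = 4 := by
          apply le_antisymm hx4
          by_contra hc
          exact q4 ⟨not_le.mp hc, hy⟩
        obtain ⟨a1, a2, a3, a4, a5, a6, a7⟩ := hats_23 (x := 4) (by norm_num) le_rfl
        obtain ⟨b1, b2, b3, b4, b5, b6, b7⟩ := hats_01 by1 hy.le
        rw [x4] at hU
        unfold U row at hU
        rw [a1, a2, a3, a4, a5, a6, a7, b1, b2, b3, b4, b5, b6, b7] at hU
        refine finish 3 ?_ ?_
        · rw [v3]; exact x4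
        · rw [v3]; show A.2.1 = 1; linarith
      · rcases le_or_gt A.2.1 5 with hy5 | hy5
        · have := U_core hx hx4 hy hy5
          linarith
        · -- top whisker
          have x2 : A.1 = 2 := by
            apply le_antisymm _ hx
            by_contra hc
            exact q2 ⟨not_le.mp hc, hy5⟩
          obtain ⟨a1, a2, a3, a4, a5, a6, a7⟩ := hats_01 (x := 2) (by norm_num) le_rfl
          obtain ⟨b1, b2, b3, b4, b5, b6, b7⟩ := hats_45 hy5.le by6
          rw [x2] at hU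
          unfold U row at hU
          rw [a1, a2, a3, a4, a5, a6, a7, b1, b2, b3, b4, b5, b6, b7] at hU
          refine finish 1 ?_ ?_
          · rw [v1]; exact x2
          · rw [v1]; show A.2.1 = 6; linarith
    · have hy4 : 4 ≤ A.2.1 := by
        by_contra hc
        exact q3 ⟨hx4, not_le.mp hc⟩
      rcases le_or_gt A.1 5 with hx5 | hx5
      · have hy5 : A.2.1 ≤ 5 := by
          by_contra hc
          exact q2 ⟨by linarith, not_le.mp hc⟩
        obtain ⟨a1, a2, a3, a4, a5, a6, a7⟩ := hats_34 hx4.le hx5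
        obtain ⟨b1, b2, b3, b4, b5, b6, b7⟩ := hats_34 hy4 hy5
        unfold U row at hU
        rw [a1, a2, a3, a4, a5, a6, a7, b1, b2, b3, b4, b5, b6, b7] at hU
        set s := A.1
        set t := A.2.1
        have k1 : 0 ≤ (5 - t) * (5 - s) := mul_nonneg (by linarith) (by linarith)
        have k2 : 0 ≤ (5 - t) * (s - 4) := mul_nonneg (by linarith) (by linarith)
        have k3 : 0 ≤ (t - 4) * (5 - s) := mul_nonneg (by linarith) (by linarith)
        have z1 : (5 - t) * (5 - s) = 0 := by nlinarith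
        have z2 : (5 - t) * (s - 4) = 0 := by nlinarith
        have z3 : (t - 4) * (5 - s) = 0 := by nlinarith
        have t5 : t = 5 := by nlinarith
        have s5 : s = 5 := by rw [t5] at z3; linarith
        refine finish 4 ?_ ?_
        · rw [v4]; exact s5
        · rw [v4]; exact t5
      · -- right whisker
        have y4 : A.2.1 = 4 := by
          apply le_antisymm _ hy4
          by_contra hc
          exact q1 ⟨hx5, not_le.mp hc⟩
        obtain ⟨a1, a2, a3, a4, a5, a6, a7⟩ := hats_45 hx5.le bx6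
        obtain ⟨b1, b2, b3, b4, b5, b6, b7⟩ := hats_23 (x := 4) (by norm_num) le_rfl
        rw [y4] at hU
        unfold U row at hU
        rw [a1, a2, a3, a4, a5, a6, a7, b1, b2, b3, b4, b5, b6, b7] at hU
        refine finish 5 ?_ ?_
        · rw [v5]; show A.1 = 6; linarith
        · rw [v5]; exact y4

end Q94.TR
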