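import Pool.Agent.Q94.TRC

/-!
The descent: no point of an iterate other than the six points is at the critical height.
-/

open Set

namespace Q94.TR

/-- The six-point set. -/
def K6 : Set (ℝ × ℝ × ℝ) := range pt

theorem g_le_of_hull {S : Set (ℝ × ℝ × ℝ)} (hS : ∀ p ∈ S, g p ≤ 0) {A : ℝ × ℝ × ℝ}
    (hA : A ∈ rcHull S) : g A ≤ 0 := le_of_mem_rcHull hA g_rc hS

/-- A rank-one convex function is at most the larger of the end values on a segment in a
rank-one direction. -/
theorem segment_le {f : ℝ × ℝ × ℝ → ℝ} (hf : RankOneConvex f) {p q : ℝ × ℝ × ℝ}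
    (h : RankOne (q - p)) {a b : ℝ} (ha : 0 ≤ a) (hb : 0 ≤ b) (hab : a + b = 1) :
    f (a • p + b • q) ≤ a * f p + b * f q := by
  have := (hf p (q - p) h).2 (mem_univ (0 : ℝ)) (mem_univ (1 : ℝ)) ha hb hab
  simp only [smul_eq_mul, mul_zero, mul_one, zero_add, zero_smul, add_zero, one_smul,
    add_sub_cancel] at this
  have e : p + b • (q - p) = a • p + b • q := by
    have : a = 1 - b := by linarith
    subst this
    rw [sub_smul, one_smul, smul_sub]; abel
  rw [e] at this
  exact this

theorem g_nonpos_iter : ∀ i, ∀ A ∈ iter K6 i, g A ≤ 0 := by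
  intro i
  induction i with
  | zero =>
    rintro A ⟨e, rfl⟩
    exact (g_pt e).le
  | succ i ih =>
    rintro A ((hA | ⟨k, -, hk, hA⟩) | ⟨p, hp, q, hq, hpq, hA⟩)
    · exact ih A hA
    · exact g_le_of_hull (by rintro _ ⟨j, rfl⟩; exact ih _ (hk j)) hA
    · obtain ⟨a, b, ha, hb, hab, rfl⟩ := hA
      have := segment_le g_rc hpq ha hb hab
      have h1 := mul_nonpos_of_nonneg_of_nonpos ha (ih p hp)
      have h2 := mul_nonpos_of_nonneg_of_nonpos hb (ih q hq)
      linarith

/-- Main descent. -/
theorem top_mem : ∀ i, ∀ A ∈ iter K6 i, g A = 0 → ∃ e, A = pt e := by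
  intro i
  induction i with
  | zero =>
    rintro A ⟨e, rfl⟩ _
    exact ⟨e, rfl⟩
  | succ i ih =>
    rintro A ((hA | ⟨k, hT, hk, hA⟩) | ⟨p, hp, q, hq, hpq, hA⟩) hgA
    · exact ih A hA hgA
    · -- hull of a `T4` configuration
      classical
      have hle : ∀ j, g (k j) ≤ 0 := fun j => g_nonpos_iter i _ (hk j)
      have htop : ∀ f : ℝ × ℝ × ℝ → ℝ, RankOneConvex f → (∀ j, g (k j) = 0 → f (k j) ≤ 0) →
          f A ≤ 0 := fun f hf hfk => mem_rcHull_top hA g_rc hle hgA hf hfk
      -- index of the top points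
      have hidx : ∀ j, ∃ e : Fin 6, g (k j) = 0 → k j = pt e := by
        intro j
        by_cases h : g (k j) = 0
        · obtain ⟨e, he⟩ := ih _ (hk j) h
          exact ⟨e, fun _ => he⟩
        · exact ⟨0, fun h' => absurd h' h⟩
      choose idx hidx using hidx
      by_cases h2 : ∃ j, g (k j) = 0 ∧ idx j = 2
      · -- the raised point is used
        set T : Finset (Fin 4) := Finset.univ.filter (fun j => g (k j) = 0) with hTdef
        by_cases hall : T.card = 4 ∧ Set.InjOn idx (T : Set (Fin 4))
        · exfalso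
          have hTu : T = Finset.univ := by
            rw [← Finset.card_eq_iff_eq_univ]; simpa using hall.1
          have hz : ∀ j, g (k j) = 0 := by
            intro j
            have : j ∈ T := by rw [hTu]; exact Finset.mem_univ j
            rw [hTdef] at this
            exact (Finset.mem_filter.mp this).2
          have hinj : Function.Injective idx := by
            intro a b hab
            exact hall.2 (by rw [hTu]; simp) (by rw [hTu]; simp) hab
          obtain ⟨j, -, hj⟩ := h2
          exact no_t4 hT (fun j => hidx j (hz j)) hinj ⟨j, hj⟩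
        · have hcard : (T.image idx).card ≤ 3 := by
            have h4 : T.card ≤ 4 := by simpa using Finset.card_le_univ T
            have h5 : (T.image idx).card ≤ T.card := Finset.card_image_le
            by_contra hc
            push Not at hc
            have h6 : T.card = 4 := by omega
            have h7 : (T.image idx).card = T.card := by omega
            exact hall ⟨h6, Finset.card_image_iff.mp h7⟩
          obtain ⟨a, b, c, hab, hbc, habc⟩ := three_subset _ hcard
          have H3 : InHull3 ((pt a).1, (pt a).2.1) ((pt b).1, (pt b).2.1)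
              ((pt c).1, (pt c).2.1) (A.1, A.2.1) := by
            intro F hF fa fb fc
            have := htop (fun p => F p.1 p.2.1 + 0 * p.2.2) (rc_of_sep hF 0) ?_
            · simpa using this
            · intro j hj
              rw [hidx j hj]
              have hm : idx j ∈ T.image idx :=
                Finset.mem_image_of_mem _ (by rw [hTdef]; simp [hj])
              rcases habc _ hm with h | h | h
              · rw [h]; simpa using fa
              · rw [h]; simpa using fb
              · rw [h]; simpa using fc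
          have xlt : ∀ {e e' : Fin 6}, e < e' → (pt e).1 < (pt e').1 := by
            intro e e' h
            simp only [pt]
            have : ∀ e e' : Fin 6, e < e' → eX e < eX e' := by decide
            exact_mod_cast this e e' h
          have hac : a < c := lt_trans hab hbc
          rcases three H3 (xlt hab) (xlt hbc) (pt_y_ne hab.ne) (pt_y_ne hbc.ne)
            (pt_y_ne hac.ne) with h | h | h
          · exact ⟨a, eq_pt_of_top hgA (Prod.mk.inj h).1 (Prod.mk.inj h).2⟩
          · exact ⟨b, eq_pt_of_top hgA (Prod.mk.inj h).1 (Prod.mk.inj h).2⟩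
          · exact ⟨c, eq_pt_of_top hgA (Prod.mk.inj h).1 (Prod.mk.inj h).2⟩
      · refine ground hgA ?_
        intro f hf hfe
        refine htop f hf ?_
        intro j hj
        rw [hidx j hj]
        exact hfe _ (fun h => h2 ⟨j, hj, h⟩)
    · obtain ⟨a, b, ha, hb, hab, rfl⟩ := hA
      have hs := segment_le g_rc hpq ha hb hab
      have gp := g_nonpos_iter i p hp
      have gq := g_nonpos_iter i q hq
      rw [hgA] at hs
      rcases ha.eq_or_lt with ha0 | ha0
      · subst ha0
        have : b = 1 := by linarith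
        subst this
        simp only [zero_smul, one_smul, zero_add] at hgA ⊢
        exact ih q hq hgA
      rcases hb.eq_or_lt with hb0 | hb0
      · subst hb0
        have : a = 1 := by linarith
        subst this
        simp only [zero_smul, one_smul, add_zero] at hgA ⊢
        exact ih p hp hgA
      exfalso
      have hp0 : g p = 0 := by
        by_contra hc
        have : g p < 0 := lt_of_le_of_ne gp hc
        nlinarith [mul_neg_of_pos_of_neg ha0 this, mul_nonpos_of_nonneg_of_nonpos hb gq]
      have hq0 : g q = 0 := by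
        by_contra hc
        have : g q < 0 := lt_of_le_of_ne gq hc
        nlinarith [mul_neg_of_pos_of_neg hb0 this, mul_nonpos_of_nonneg_of_nonpos ha gp]
      obtain ⟨e, rfl⟩ := ih p hp hp0
      obtain ⟨e', rfl⟩ := ih q hq hq0
      have hne : e' ≠ e := by
        rintro rfl
        exact hpq.1 (sub_self _)
      rcases mul_eq_zero.mp hpq.2 with h | h
      · exact pt_x_ne hne (by simpa [sub_eq_zero] using h)
      · exact pt_y_ne hne (by simpa [sub_eq_zero] using h)

/-- The top point over `(2, 2)`. -/
noncomputable def P1 : ℝ × ℝ × ℝ := (2, 2, 6 / 161)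

theorem P1_top : g P1 = 0 := by
  obtain ⟨a1, a2, a3, a4, a5, a6, a7⟩ := hats_01 (x := 2) (by norm_num) le_rfl
  simp only [g, P1, U, row]
  rw [a1, a2, a3, a4, a5, a6, a7]
  norm_num

theorem P1_not_pt (e : Fin 6) : P1 ≠ pt e := by
  intro h
  have h1 : (2 : ℝ) = (eX e : ℝ) := congrArg Prod.fst h
  have h2 : (2 : ℝ) = (eY e : ℝ) := congrArg (fun p => p.2.1) h
  have h1' : (2 : ℤ) = eX e := by exact_mod_cast h1
  have h2' : (2 : ℤ) = eY e := by exact_mod_cast h2
  have : ∀ e : Fin 6, ¬ ((2 : ℤ) = eX e ∧ (2 : ℤ) = eY e) := by decide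
  exact this e ⟨h1', h2'⟩

/-- The top point lies in no iterate. -/
theorem P1_not_mem (i : ℕ) : P1 ∉ iter K6 i := by
  intro h
  obtain ⟨e, he⟩ := top_mem i P1 h P1_top
  exact P1_not_pt e he

theorem comb {f : ℝ × ℝ × ℝ → ℝ} (hf : RankOneConvex f) (p q r : ℝ × ℝ × ℝ) (a b : ℝ)
    (ha : 0 ≤ a) (hb : 0 ≤ b) (hab : a + b = 1) (hr : r = a • p + b • q)
    (h : RankOne (q - p)) : f r ≤ a * f p + b * f q := by
  rw [hr]; exact segment_le hf h ha hb hab

/-- The top point lies in the rank-one convex hull. -/
theorem P1_mem : P1 ∈ rcHull K6 := by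
  intro f hf hK
  obtain ⟨v0, v1, v2, v3, v4, v5⟩ := pt_vals
  have k0 : f (1, 2, 0) = 0 := by rw [← v0]; exact hK _ ⟨0, rfl⟩
  have k1 : f (2, 6, 0) = 0 := by rw [← v1]; exact hK _ ⟨1, rfl⟩
  have k2 : f (3, 3, 1) = 0 := by rw [← v2]; exact hK _ ⟨2, rfl⟩
  have k3 : f (4, 1, 0) = 0 := by rw [← v3]; exact hK _ ⟨3, rfl⟩
  have k4 : f (5, 5, 0) = 0 := by rw [← v4]; exact hK _ ⟨4, rfl⟩
  have k5 : f (6, 4, 0) = 0 := by rw [← v5]; exact hK _ ⟨5, rfl⟩
  -- the six-cycle
  have s1 := comb hf (1, 2, 0) (4, 2, 18 / 161) (2, 2, 6 / 161) (2 / 3) (1 / 3) (by norm_num)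
    (by norm_num) (by norm_num)
    (by simp only [Prod.smul_mk, Prod.mk_add_mk, smul_eq_mul]; norm_num)
    ⟨by intro h; have := congrArg Prod.fst h; norm_num at this, by norm_num⟩
  have s2 := comb hf (4, 1, 0) (4, 4, 54 / 161) (4, 2, 18 / 161) (2 / 3) (1 / 3) (by norm_num)
    (by norm_num) (by norm_num)
    (by simp only [Prod.smul_mk, Prod.mk_add_mk, smul_eq_mul]; norm_num)
    ⟨by intro h; have := congrArg (fun p => p.2.1) h; norm_num at this, by norm_num⟩
  have s3 := comb hf (6, 4, 0) (3, 4, 81 / 161) (4, 4, 54 / 161) (1 / 3) (2 / 3) (by norm_num)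
    (by norm_num) (by norm_num)
    (by simp only [Prod.smul_mk, Prod.mk_add_mk, smul_eq_mul]; norm_num)
    ⟨by intro h; have := congrArg Prod.fst h; norm_num at this, by norm_num⟩
  have s4 := comb hf (3, 3, 1) (3, 5, 1 / 161) (3, 4, 81 / 161) (1 / 2) (1 / 2) (by norm_num)
    (by norm_num) (by norm_num)
    (by simp only [Prod.smul_mk, Prod.mk_add_mk, smul_eq_mul]; norm_num)
    ⟨by intro h; have := congrArg (fun p => p.2.1) h; norm_num at this, by norm_num⟩
  have s5 := comb hf (5, 5, 0) (2, 5, 3 / 322) (3, 5, 1 / 161) (1 / 3) (2 / 3) (by norm_num)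
    (by norm_num) (by norm_num)
    (by simp only [Prod.smul_mk, Prod.mk_add_mk, smul_eq_mul]; norm_num)
    ⟨by intro h; have := congrArg Prod.fst h; norm_num at this, by norm_num⟩
  have s6 := comb hf (2, 6, 0) (2, 2, 6 / 161) (2, 5, 3 / 322) (3 / 4) (1 / 4) (by norm_num)
    (by norm_num) (by norm_num)
    (by simp only [Prod.smul_mk, Prod.mk_add_mk, smul_eq_mul]; norm_num)
    ⟨by intro h; have := congrArg (fun p => p.2.1) h; norm_num at this, by norm_num⟩
  rw [k0] at s1
  rw [k3] at s2
  rw [k5] at s3
  rw [k2] at s4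
  rw [k4] at s5
  rw [k1] at s6
  show f (2, 2, 6 / 161) ≤ 0
  linarith

end Q94.TR
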