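import Mathlib

/-!
# Walsh functions on `{0,1}^ℕ`
-/

open scoped BigOperators Topology ENNReal
open MeasureTheory Finset

namespace Q94.WF

/-- The group `G = {0,1}^ℕ` (`true` stands for `1`). -/
abbrev G : Type := ℕ → Bool

/-- The uniform probability measure on `{0,1}`. -/
noncomputable def coin : Measure Bool := (2 : ℝ≥0∞)⁻¹ • Measure.count

instance : IsProbabilityMeasure coin := by
  constructor
  unfold coin
  rw [Measure.smul_apply, Measure.count_univ]
  simp only [smul_eq_mul]
  rw [ENat.card_eq_coe_fintype_card]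
  simp [ENNReal.inv_mul_cancel]

/-- The product probability measure on `G`. -/
noncomputable def μ : Measure G := Measure.infinitePi fun _ : ℕ => coin

instance : IsProbabilityMeasure μ := by unfold μ; infer_instance

/-- Rademacher functions `r_k(x) = (-1)^{x_k}`. -/
noncomputable def r (k : ℕ) (x : G) : ℝ := if x k then -1 else 1

/-- Walsh functions `w_n = ∏_k r_k^{n_k}`, where `n = ∑ n_k 2^k` (all binary digits of `n` of
index `≥ n` vanish). -/
noncomputable def w (n : ℕ) (x : G) : ℝ := ∏ k ∈ range n, if n.testBit k then r k x else 1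

/-- The Dirichlet kernels. -/
noncomputable def D (n : ℕ) (x : G) : ℝ := ∑ i ∈ range n, w i x

lemma r_sq (k : ℕ) (x : G) : r k x * r k x = 1 := by unfold r; split_ifs <;> norm_num

lemma abs_r (k : ℕ) (x : G) : |r k x| = 1 := by unfold r; split_ifs <;> simp

lemma w_eq {n K : ℕ} (h : n < 2 ^ K) (x : G) :
    w n x = ∏ k ∈ range K, if n.testBit k then r k x else 1 := by
  unfold w
  have h1 : ∀ a b : ℕ, a ≤ b → n < 2 ^ a →
      ∏ k ∈ range b, (if n.testBit k then r k x else 1)
        = ∏ k ∈ range a, if n.testBit k then r k x else 1 := by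
    intro a b hab ha
    symm
    refine Finset.prod_subset (range_mono hab) fun k _ hk => ?_
    have : n.testBit k = false := Nat.testBit_lt_two_pow
      (ha.trans_le (Nat.pow_le_pow_right (by norm_num) (by simpa using hk)))
    rw [this]; simp
  rcases le_total n K with hnK | hnK
  · exact (h1 n K hnK Nat.lt_two_pow_self).symm
  · exact h1 K n hnK h

lemma w_zero (x : G) : w 0 x = 1 := by simp [w]

lemma abs_w (n : ℕ) (x : G) : |w n x| = 1 := by
  unfold w
  rw [Finset.abs_prod]
  refine Finset.prod_eq_one fun k _ => ?_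
  split_ifs
  · exact abs_r k x
  · simp

lemma w_sq (n : ℕ) (x : G) : w n x * w n x = 1 := by
  have h := abs_w n x
  have : w n x * w n x = |w n x| * |w n x| := (abs_mul_abs_self _).symm
  rw [this, h]; norm_num

lemma w_two_pow (t : ℕ) (x : G) : w (2 ^ t) x = r t x := by
  rw [w_eq (K := t + 1) (Nat.pow_lt_pow_right (by norm_num) (by omega))]
  rw [Finset.prod_range_succ]
  have h1 : ∏ k ∈ range t, (if (2 ^ t).testBit k then r k x else 1) = 1 := by
    refine Finset.prod_eq_one fun k hk => ?_
    have : (2 ^ t).testBit k = false := by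
      rw [Nat.testBit_two_pow]
      have := Finset.mem_range.1 hk
      simp; omega
    rw [this]; simp
  rw [h1, one_mul]
  simp [Nat.testBit_two_pow_self]

/-- `w_{2^t l + m} = w_{2^t l} w_m` for `m < 2^t`. -/
lemma w_add {t m : ℕ} (l : ℕ) (hm : m < 2 ^ t) (x : G) :
    w (2 ^ t * l + m) x = w (2 ^ t * l) x * w m x := by
  set K := 2 ^ t * l + m + t with hK
  have hlt : 2 ^ t * l + m < 2 ^ K := by
    have : K < 2 ^ K := Nat.lt_two_pow_self
    omega
  have h2 : 2 ^ t * l < 2 ^ K := lt_of_le_of_lt (by omega) hlt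
  have h3 : m < 2 ^ K := lt_of_le_of_lt (by omega) hlt
  rw [w_eq hlt, w_eq h2, w_eq h3, ← Finset.prod_mul_distrib]
  refine Finset.prod_congr rfl fun k _ => ?_
  rw [Nat.testBit_two_pow_mul_add l hm k]
  have h0 := Nat.testBit_two_pow_mul_add l (Nat.two_pow_pos t) k
  rw [add_zero] at h0
  rw [h0]
  by_cases hk : k < t
  · simp [hk]
  · have : m.testBit k = false := Nat.testBit_lt_two_pow
      (hm.trans_le (Nat.pow_le_pow_right (by norm_num) (by omega)))
    simp [hk, this]

/-- `w_{2^N - 1 - i} = w_{2^N - 1} w_i` for `i < 2^N`. -/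
lemma w_compl {N i : ℕ} (hi : i < 2 ^ N) (x : G) :
    w (2 ^ N - (i + 1)) x = w (2 ^ N - 1) x * w i x := by
  have h0 : 0 < 2 ^ N := Nat.two_pow_pos N
  rw [w_eq (K := N) (by omega), w_eq (n := 2 ^ N - 1) (K := N) (by omega), w_eq hi,
    ← Finset.prod_mul_distrib]
  refine Finset.prod_congr rfl fun k hk => ?_
  have hk' := Finset.mem_range.1 hk
  rw [Nat.testBit_two_pow_sub_succ hi, Nat.testBit_two_pow_sub_one]
  by_cases h : i.testBit k
  · simp [h, hk', r_sq]
  · simp [h, hk']

lemma D_zero (x : G) : D 0 x = 0 := by simp [D]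

lemma D_succ (n : ℕ) (x : G) : D (n + 1) x = D n x + w n x := by
  unfold D; rw [Finset.sum_range_succ]

/-- `D_{2^t l + m} = D_{2^t l} + w_{2^t l} D_m` for `m ≤ 2^t`. -/
lemma D_add {t m : ℕ} (l : ℕ) (hm : m ≤ 2 ^ t) (x : G) :
    D (2 ^ t * l + m) x = D (2 ^ t * l) x + w (2 ^ t * l) x * D m x := by
  unfold D
  rw [Finset.sum_range_add, Finset.mul_sum]
  congr 1
  refine Finset.sum_congr rfl fun i hi => ?_
  exact w_add l ((Finset.mem_range.1 hi).trans_le hm) x

lemma D_two_pow_succ (t : ℕ) (x : G) : D (2 ^ (t + 1)) x = (1 + r t x) * D (2 ^ t) x := by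
  have := D_add (t := t) (m := 2 ^ t) 1 le_rfl x
  rw [mul_one, w_two_pow] at this
  rw [pow_succ, mul_two, this]
  ring

/-- `D_{2^t}` vanishes where one of the first `t` digits is `1`. -/
lemma D_two_pow_eq_zero {s t : ℕ} (hst : s < t) {x : G} (hx : x s = true) : D (2 ^ t) x = 0 := by
  induction t with
  | zero => omega
  | succ t ih =>
    rw [D_two_pow_succ]
    rcases Nat.lt_succ_iff_lt_or_eq.1 hst with h | h
    · rw [ih h, mul_zero]
    · subst h
      have : r s x = -1 := by simp [r, hx]
      rw [this]; ring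

lemma D_mul_eq_zero {t : ℕ} {x : G} (hx : D (2 ^ t) x = 0) (l : ℕ) : D (2 ^ t * l) x = 0 := by
  induction l with
  | zero => simp [D]
  | succ l ih =>
    rw [Nat.mul_succ, D_add l le_rfl, ih, hx]; ring

/-- `D_m(x) = m` if `m ≤ 2^s` and the first `s` digits of `x` vanish. -/
lemma w_eq_one {s i : ℕ} (hi : i < 2 ^ s) {x : G} (hx : ∀ k < s, x k = false) : w i x = 1 := by
  rw [w_eq hi]
  refine Finset.prod_eq_one fun k hk => ?_
  have : r k x = 1 := by simp [r, hx k (Finset.mem_range.1 hk)]
  rw [this]; simp

lemma D_eq_self {s m : ℕ} (hm : m ≤ 2 ^ s) {x : G} (hx : ∀ k < s, x k = false) :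
    D m x = m := by
  unfold D
  rw [Finset.sum_congr rfl fun i hi => w_eq_one ((Finset.mem_range.1 hi).trans_le hm) hx]
  simp

/-- The reflection formula `D_{2^N - j} = D_{2^N} - w_{2^N - 1} D_j`. -/
lemma D_reflect {N j : ℕ} (hj : j ≤ 2 ^ N) (x : G) :
    D (2 ^ N - j) x = D (2 ^ N) x - w (2 ^ N - 1) x * D j x := by
  induction j with
  | zero => simp [D]
  | succ j ih =>
    have h1 := ih (by omega)
    have h2 : 2 ^ N - j = (2 ^ N - (j + 1)) + 1 := by omega
    rw [h2, D_succ, w_compl (by omega : j < 2 ^ N)] at h1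
    rw [D_succ]
    linarith

/-! ### Flips -/

/-- The flip of the digit `k`. -/
def flip (k : ℕ) (x : G) : G := fun i => if i = k then !(x i) else x i

lemma flip_flip (k : ℕ) (x : G) : flip k (flip k x) = x := by
  funext i
  unfold flip
  split_ifs <;> simp

lemma measurable_flip (k : ℕ) : Measurable (flip k) := by
  rw [measurable_pi_iff]
  intro i
  unfold flip
  split_ifs
  · exact (measurable_of_finite (fun b : Bool => !b)).comp (measurable_pi_apply i)
  · exact measurable_pi_apply i

lemma map_flip (k : ℕ) : μ.map (flip k) = μ := by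
  have h := Measure.infinitePi_map_pi (fun _ : ℕ => coin)
    (f := fun i (b : Bool) => if i = k then !b else b) (fun i => measurable_of_finite _)
  have h2 : (fun i => coin.map (fun b : Bool => if i = k then !b else b)) = fun _ : ℕ => coin := by
    funext i
    split_ifs
    · ext s hs
      rw [Measure.map_apply (measurable_of_finite _) hs]
      unfold coin
      rw [Measure.smul_apply, Measure.smul_apply]
      congr 1
      have : (fun b : Bool => !b) ⁻¹' s = (Equiv.boolNot) ⁻¹' s := rfl
      rw [this]
      rw [Measure.count_apply (by measurability), Measure.count_apply hs]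
      congr 1
      exact_mod_cast Set.encard_preimage_of_bijective Equiv.boolNot.bijective s
    · exact Measure.map_id'
  rw [h2] at h
  exact h

lemma mp_flip (k : ℕ) : MeasurePreserving (flip k) μ μ := ⟨measurable_flip k, map_flip k⟩

lemma measurable_r (k : ℕ) : Measurable (r k) := by
  unfold r
  exact (measurable_of_finite (fun b : Bool => if b then (-1 : ℝ) else 1)).comp
    (measurable_pi_apply k)

lemma measurable_w (n : ℕ) : Measurable (w n) := by
  unfold w
  refine Finset.measurable_fun_prod _ fun k _ => ?_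
  split_ifs
  · exact measurable_r k
  · exact measurable_const

lemma r_flip (j k : ℕ) (x : G) : r j (flip k x) = if j = k then -r j x else r j x := by
  unfold r flip
  by_cases h : j = k
  · subst h
    cases x j <;> simp
  · simp [h]

lemma w_flip (n k : ℕ) (x : G) : w n (flip k x) = if n.testBit k then -w n x else w n x := by
  have h0 : n < 2 ^ (n + k + 1) := lt_of_lt_of_le Nat.lt_two_pow_self
    (Nat.pow_le_pow_right (by norm_num) (by omega))
  rw [w_eq h0, w_eq h0]
  have hk : k ∈ range (n + k + 1) := Finset.mem_range.2 (by omega)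
  rw [← Finset.mul_prod_erase _ _ hk, ← Finset.mul_prod_erase (range (n + k + 1))
    (fun k => if n.testBit k then r k x else 1) hk]
  have h1 : ∏ j ∈ (range (n + k + 1)).erase k, (if n.testBit j then r j (flip k x) else 1)
      = ∏ j ∈ (range (n + k + 1)).erase k, if n.testBit j then r j x else 1 := by
    refine Finset.prod_congr rfl fun j hj => ?_
    rw [r_flip, if_neg (Finset.ne_of_mem_erase hj)]
  rw [h1, r_flip, if_pos rfl]
  split_ifs
  · ring
  · rfl

/-- An integral which changes sign under a flip vanishes. -/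
lemma integral_eq_zero_of_flip (k : ℕ) {f : G → ℝ} (hf : ∀ x, f (flip k x) = -f x)
    (hm : Measurable f) : ∫ x, f x ∂μ = 0 := by
  have h1 : ∫ x, f x ∂μ = ∫ x, f (flip k x) ∂μ := by
    conv_lhs => rw [← map_flip k]
    exact integral_map (measurable_flip k).aemeasurable hm.aestronglyMeasurable
  simp_rw [hf] at h1
  rw [integral_neg] at h1
  linarith

lemma integral_w_mul (i j : ℕ) : ∫ x, w i x * w j x ∂μ = if i = j then 1 else 0 := by
  split_ifs with h
  · subst h
    simp_rw [w_sq]
    simp
  · obtain ⟨k, hk⟩ : ∃ k, i.testBit k ≠ j.testBit k := by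
      by_contra hcon
      push Not at hcon
      exact h (Nat.eq_of_testBit_eq hcon)
    refine integral_eq_zero_of_flip k (fun x => ?_) ((measurable_w i).mul (measurable_w j))
    rw [w_flip, w_flip]
    cases hi : i.testBit k <;> cases hj : j.testBit k <;> simp_all

end Q94.WF
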