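import Pool.Agent.Q94.WalshA

/-!
# Martingales, Walsh-Fourier coefficients and partial sums
-/

open scoped BigOperators Topology ENNReal
open MeasureTheory Finset Filter

namespace Q94.WF

/-- The filtration: `ℱ n` is generated by the first `n` digits, i.e. by the sets `I_n(x)`. -/
def ℱ : Filtration ℕ (inferInstance : MeasurableSpace G) where
  seq n := MeasurableSpace.comap (fun (x : G) (k : Fin n) => x k) inferInstance
  mono' := by
    intro i j hij
    rw [← measurable_iff_comap_le]
    rw [@measurable_pi_iff]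
    intro k
    have h1 : Measurable[MeasurableSpace.comap (fun (x : G) (k : Fin j) => x k) inferInstance]
        (fun (x : G) (k : Fin j) => x k) := comap_measurable _
    exact (measurable_pi_apply (⟨k, k.2.trans_le hij⟩ : Fin j)).comp h1
  le' := by
    intro n
    rw [← measurable_iff_comap_le]
    rw [measurable_pi_iff]
    intro k
    exact measurable_pi_apply (k : ℕ)

/-- Walsh-Fourier coefficients `lim_k ∫ f^{(k)} w_i dμ` of a martingale. -/
noncomputable def coef (f : ℕ → G → ℝ) (i : ℕ) : ℝ :=
  limUnder atTop fun k => ∫ x, f k x * w i x ∂μ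

/-- Partial sums `S_k f = ∑_{j < k} f̂(j) w_j`. -/
noncomputable def S (f : ℕ → G → ℝ) (k : ℕ) (x : G) : ℝ := ∑ j ∈ range k, coef f j * w j x

/-- `‖g‖_p`, for `0 < p < ∞`. -/
noncomputable def Lnorm (p : ℝ) (g : G → ℝ) : ℝ≥0∞ := (∫⁻ x, ‖g x‖ₑ ^ p ∂μ) ^ (1 / p)

/-- `‖f‖_{H_p} = ‖sup_n |f^{(n)}|‖_p`. -/
noncomputable def Hnorm (p : ℝ) (f : ℕ → G → ℝ) : ℝ≥0∞ :=
  (∫⁻ x, (⨆ n, ‖f n x‖ₑ) ^ p ∂μ) ^ (1 / p)

/-! ### The test martingale -/

/-- The terminal value `A w_{2^N} D_{2^N}` of the test martingale. -/
noncomputable def atom (A : ℝ) (N : ℕ) (x : G) : ℝ := A * (r N x * D (2 ^ N) x)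

/-- The test martingale. -/
noncomputable def mart (A : ℝ) (N : ℕ) (n : ℕ) (x : G) : ℝ := if n ≤ N then 0 else atom A N x

lemma measurable_D (n : ℕ) : Measurable (D n) := by
  unfold D
  exact Finset.measurable_fun_sum _ fun i _ => measurable_w i

lemma measurable_atom (A : ℝ) (N : ℕ) : Measurable (atom A N) := by
  unfold atom
  exact ((measurable_r N).mul (measurable_D _)).const_mul A

lemma digit_meas {n k : ℕ} (hk : k < n) : Measurable[ℱ n] (fun x : G => x k) := by
  have h1 : Measurable[ℱ n] (fun (x : G) (k : Fin n) => x k) := comap_measurable _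
  exact (measurable_pi_apply (⟨k, hk⟩ : Fin n)).comp h1

lemma r_meas {n k : ℕ} (hk : k < n) : Measurable[ℱ n] (r k) := by
  unfold r
  exact (measurable_of_finite (fun b : Bool => if b then (-1 : ℝ) else 1)).comp (digit_meas hk)

lemma w_meas {n i : ℕ} (hi : i < 2 ^ n) : Measurable[ℱ n] (w i) := by
  have : w i = fun x => ∏ k ∈ range n, if i.testBit k then r k x else 1 :=
    funext fun x => w_eq hi x
  rw [this]
  refine Finset.measurable_fun_prod _ fun k hk => ?_
  split_ifs
  · exact r_meas (Finset.mem_range.1 hk)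
  · exact measurable_const

lemma D_meas {n m : ℕ} (hm : m ≤ 2 ^ n) : Measurable[ℱ n] (D m) := by
  unfold D
  refine Finset.measurable_fun_sum _ fun i hi => ?_
  exact w_meas ((Finset.mem_range.1 hi).trans_le hm)

lemma abs_D_le (n : ℕ) (x : G) : |D n x| ≤ n := by
  unfold D
  refine (Finset.abs_sum_le_sum_abs _ _).trans ?_
  simp [abs_w]

lemma abs_atom_le (A : ℝ) (N : ℕ) (x : G) : |atom A N x| ≤ |A| * 2 ^ N := by
  unfold atom
  rw [abs_mul, abs_mul, abs_r, one_mul]
  have := abs_D_le (2 ^ N) x
  push_cast at this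
  exact mul_le_mul_of_nonneg_left this (abs_nonneg A)

lemma integrable_atom (A : ℝ) (N : ℕ) : Integrable (atom A N) μ :=
  Integrable.of_bound (measurable_atom A N).aestronglyMeasurable (|A| * 2 ^ N)
    (Eventually.of_forall fun x => abs_atom_le A N x)

lemma D_two_pow_flip (N : ℕ) (x : G) : D (2 ^ N) (flip N x) = D (2 ^ N) x := by
  unfold D
  refine Finset.sum_congr rfl fun i hi => ?_
  rw [w_flip, Nat.testBit_lt_two_pow (Finset.mem_range.1 hi)]
  simp

lemma atom_flip (A : ℝ) (N : ℕ) (x : G) : atom A N (flip N x) = -atom A N x := by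
  unfold atom
  rw [r_flip, if_pos rfl, D_two_pow_flip]
  ring

lemma mart_martingale (A : ℝ) (N : ℕ) : Martingale (mart A N) ℱ μ := by
  refine martingale_of_setIntegral_eq_succ ?_ ?_ ?_
  · intro n
    unfold mart
    split_ifs with h
    · exact stronglyMeasurable_const
    · push Not at h
      refine Measurable.stronglyMeasurable ?_
      unfold atom
      refine Measurable.const_mul ?_ A
      exact (r_meas h).mul (D_meas (Nat.pow_le_pow_right (by norm_num) h.le))
  · intro n
    unfold mart
    split_ifs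
    · exact integrable_zero _ _ _
    · exact integrable_atom A N
  · intro n s hs
    by_cases h1 : n + 1 ≤ N
    · have e1 : mart A N n = mart A N (n + 1) := by
        funext x; unfold mart; rw [if_pos (by omega), if_pos h1]
      rw [e1]
    · by_cases h2 : n ≤ N
      · have hnN : n = N := by omega
        subst hnN
        have e1 : ∀ x, mart A n n x = 0 := fun x => by unfold mart; rw [if_pos le_rfl]
        have e2 : ∀ x, mart A n (n + 1) x = atom A n x := fun x => by
          unfold mart; rw [if_neg (by omega)]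
        simp_rw [e1, e2]
        have hs' : MeasurableSet s := ℱ.le n s hs
        obtain ⟨t, ht, rfl⟩ := hs
        have e3 : ∫ _ in (fun (x : G) (k : Fin n) => x k) ⁻¹' t, (0 : ℝ) ∂μ = 0 := by simp
        rw [e3, ← integral_indicator hs']
        symm
        refine integral_eq_zero_of_flip n (fun x => ?_) ((measurable_atom A n).indicator hs')
        have hmem : flip n x ∈ (fun (x : G) (k : Fin n) => x k) ⁻¹' t
            ↔ x ∈ (fun (x : G) (k : Fin n) => x k) ⁻¹' t := by
          simp only [Set.mem_preimage]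
          have : (fun k : Fin n => flip n x k) = fun k : Fin n => x k := by
            funext k
            unfold flip
            rw [if_neg k.2.ne]
          rw [this]
        by_cases hx : x ∈ (fun (x : G) (k : Fin n) => x k) ⁻¹' t
        · rw [Set.indicator_of_mem hx, Set.indicator_of_mem (hmem.2 hx), atom_flip]
        · rw [Set.indicator_of_notMem hx, Set.indicator_of_notMem (fun h => hx (hmem.1 h)),
            neg_zero]
      · have e1 : mart A N n = mart A N (n + 1) := by
          funext x; unfold mart; rw [if_neg h2, if_neg (by omega)]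
        rw [e1]

lemma coef_mart (A : ℝ) (N i : ℕ) :
    coef (mart A N) i = if 2 ^ N ≤ i ∧ i < 2 ^ (N + 1) then A else 0 := by
  have h1 : ∀ x, r N x * D (2 ^ N) x = ∑ j ∈ range (2 ^ N), w (2 ^ N + j) x := by
    intro x
    unfold D
    rw [Finset.mul_sum]
    refine Finset.sum_congr rfl fun j hj => ?_
    have := w_add (t := N) 1 (Finset.mem_range.1 hj) x
    rw [mul_one, w_two_pow] at this
    exact this.symm
  have h2 : ∀ k, N < k → ∫ x, mart A N k x * w i x ∂μ
      = if 2 ^ N ≤ i ∧ i < 2 ^ (N + 1) then A else 0 := by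
    intro k hk
    have e1 : ∀ x, mart A N k x * w i x = ∑ j ∈ range (2 ^ N), A * (w (2 ^ N + j) x * w i x) := by
      intro x
      unfold mart atom
      rw [if_neg (by omega), h1, Finset.mul_sum, Finset.sum_mul]
      refine Finset.sum_congr rfl fun j _ => ?_
      ring
    simp_rw [e1]
    rw [integral_finsetSum]
    · simp_rw [integral_const_mul, integral_w_mul]
      split_ifs with h
      · have hj : i - 2 ^ N ∈ range (2 ^ N) := by
          rw [Finset.mem_range]; rw [pow_succ] at h; omega
        rw [Finset.sum_eq_single_of_mem _ hj]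
        · rw [if_pos (by omega), mul_one]
        · intro j _ hne
          rw [if_neg (by omega), mul_zero]
      · refine Finset.sum_eq_zero fun j hj => ?_
        have := Finset.mem_range.1 hj
        rw [if_neg ?_, mul_zero]
        intro h3
        apply h
        rw [pow_succ]; omega
    · intro j _
      refine Integrable.const_mul ?_ A
      refine Integrable.of_bound ((measurable_w _).mul (measurable_w _)).aestronglyMeasurable 1
        (Eventually.of_forall fun x => ?_)
      rw [Real.norm_eq_abs, abs_mul, abs_w, abs_w]; norm_num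
  unfold coef
  refine Tendsto.limUnder_eq ?_
  refine tendsto_const_nhds.congr' ?_
  filter_upwards [eventually_gt_atTop N] with k hk
  exact (h2 k hk).symm

/-- Partial sums of the test martingale. -/
lemma S_mart_low (A : ℝ) {N k : ℕ} (hk : k ≤ 2 ^ N) (x : G) : S (mart A N) k x = 0 := by
  unfold S
  refine Finset.sum_eq_zero fun j hj => ?_
  have := Finset.mem_range.1 hj
  rw [coef_mart, if_neg (by omega), zero_mul]

lemma S_mart_high (A : ℝ) {N j : ℕ} (hj : j ≤ 2 ^ N) (x : G) :
    S (mart A N) (2 ^ N + j) x = A * (r N x * D j x) := by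
  have h0 : S (mart A N) (2 ^ N + j) x = S (mart A N) (2 ^ N) x
      + ∑ i ∈ range j, coef (mart A N) (2 ^ N + i) * w (2 ^ N + i) x := by
    unfold S; rw [Finset.sum_range_add]
  rw [h0, S_mart_low A le_rfl, zero_add]
  unfold D
  rw [Finset.mul_sum, Finset.mul_sum]
  refine Finset.sum_congr rfl fun i hi => ?_
  have hi' := Finset.mem_range.1 hi
  rw [coef_mart, if_pos ⟨by omega, by rw [pow_succ]; omega⟩]
  have := w_add (t := N) 1 (hi'.trans_le hj) x
  rw [mul_one, w_two_pow] at this
  rw [this]

lemma coin_singleton (b : Bool) : coin {b} = (2 : ℝ≥0∞)⁻¹ := by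
  unfold coin
  rw [Measure.smul_apply, Measure.count_singleton]
  simp

/-- Measure of a cylinder. -/
lemma measure_cyl (n : ℕ) (b : ℕ → Bool) :
    μ {x | ∀ k < n, x k = b k} = ENNReal.ofReal ((1 / 2) ^ n) := by
  have h1 : {x : G | ∀ k < n, x k = b k} = Set.pi (range n : Set ℕ) fun k => {b k} := by
    ext x
    simp [Set.mem_pi]
  rw [h1]
  unfold μ
  rw [Measure.infinitePi_pi _ (fun _ _ => measurableSet_singleton _)]
  simp only [coin_singleton, Finset.prod_const, Finset.card_range]
  rw [ENNReal.ofReal_pow (by norm_num)]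
  congr 1
  rw [one_div, ENNReal.ofReal_inv_of_pos (by norm_num)]
  simp

lemma measurableSet_cyl (n : ℕ) (b : ℕ → Bool) : MeasurableSet {x : G | ∀ k < n, x k = b k} := by
  have h1 : {x : G | ∀ k < n, x k = b k} = Set.pi (range n : Set ℕ) fun k => {b k} := by
    ext x
    simp [Set.mem_pi]
  rw [h1]
  exact MeasurableSet.pi (Finset.countable_toSet _) fun _ _ => measurableSet_singleton _

lemma D_two_pow_of_mem {N : ℕ} {x : G} (hx : ∀ k < N, x k = false) : D (2 ^ N) x = 2 ^ N := by
  rw [D_eq_self le_rfl hx]; push_cast; rfl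

lemma D_two_pow_of_notMem {N : ℕ} {x : G} (hx : ¬ ∀ k < N, x k = false) : D (2 ^ N) x = 0 := by
  push Not at hx
  obtain ⟨k, hk, hk2⟩ := hx
  exact D_two_pow_eq_zero hk (by simpa using hk2)

/-- The Hardy norm of the test martingale. -/
lemma Hnorm_mart {p A : ℝ} (hp : 0 < p) (hA : 0 ≤ A) (N : ℕ) :
    ∫⁻ x, (⨆ n, ‖mart A N n x‖ₑ) ^ p ∂μ = ENNReal.ofReal ((A * 2 ^ N) ^ p * (1 / 2) ^ N) := by
  have h1 : ∀ x, (⨆ n, ‖mart A N n x‖ₑ) = ‖atom A N x‖ₑ := by
    intro x
    apply le_antisymm
    · refine iSup_le fun n => ?_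
      unfold mart
      split_ifs
      · simp
      · exact le_rfl
    · refine le_trans (le_of_eq ?_) (le_iSup _ (N + 1))
      unfold mart
      rw [if_neg (by omega)]
  simp_rw [h1]
  have h2 : ∀ x, ‖atom A N x‖ₑ ^ p
      = ({x : G | ∀ k < N, x k = false}).indicator
        (fun _ => ENNReal.ofReal ((A * 2 ^ N) ^ p)) x := by
    intro x
    by_cases hx : ∀ k < N, x k = false
    · rw [Set.indicator_of_mem (show x ∈ {x : G | ∀ k < N, x k = false} from hx)]
      unfold atom
      rw [D_two_pow_of_mem hx, Real.enorm_eq_ofReal_abs, abs_mul, abs_mul, abs_r, one_mul,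
        abs_of_nonneg hA, abs_of_pos (by positivity : (0 : ℝ) < 2 ^ N),
        ENNReal.ofReal_rpow_of_nonneg (by positivity) hp.le]
    · rw [Set.indicator_of_notMem (show x ∉ {x : G | ∀ k < N, x k = false} from hx)]
      unfold atom
      rw [D_two_pow_of_notMem hx]
      simp [hp]
  simp_rw [h2]
  rw [lintegral_indicator_const (measurableSet_cyl N fun _ => false), measure_cyl N fun _ => false,
    ← ENNReal.ofReal_mul (by positivity)]

end Q94.WF
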