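import Pool.Agent.Q94.WalshB

/-!
# Lower bounds for Nörlund means of the test martingale
-/

open scoped BigOperators Topology ENNReal
open MeasureTheory Finset Filter

namespace Q94.WF

/-- The (unnormalised) Nörlund sum `∑_{k=1}^n q_{n-k} S_k f`. -/
noncomputable def T (q : ℕ → ℝ) (f : ℕ → G → ℝ) (n : ℕ) (x : G) : ℝ :=
  ∑ k ∈ Icc 1 n, q (n - k) * S f k x

/-- `∑_{i < M} q_i D_i`. -/
noncomputable def K (q : ℕ → ℝ) (M : ℕ) (x : G) : ℝ := ∑ i ∈ range M, q i * D i x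

lemma T_mart (q : ℕ → ℝ) (A : ℝ) (N : ℕ) {x : G} (hx : D (2 ^ N) x = 0) :
    T q (mart A N) (2 ^ (N + 1)) x = -A * r N x * w (2 ^ N - 1) x * K q (2 ^ N) x := by
  unfold T
  have h0 : 0 < 2 ^ N := Nat.two_pow_pos N
  -- reindex by `i = n - k`
  have h1 : ∑ k ∈ Icc 1 (2 ^ (N + 1)), q (2 ^ (N + 1) - k) * S (mart A N) k x
      = ∑ i ∈ range (2 ^ (N + 1)), q i * S (mart A N) (2 ^ (N + 1) - i) x := by
    refine Finset.sum_bij' (fun k _ => 2 ^ (N + 1) - k) (fun i _ => 2 ^ (N + 1) - i) ?_ ?_ ?_ ?_ ?_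
    · intro k hk; rw [Finset.mem_Icc] at hk; rw [Finset.mem_range]; omega
    · intro i hi; rw [Finset.mem_range] at hi; rw [Finset.mem_Icc]; omega
    · intro k hk; rw [Finset.mem_Icc] at hk; omega
    · intro i hi; rw [Finset.mem_range] at hi; omega
    · intro k hk
      rw [Finset.mem_Icc] at hk
      congr 2
      omega
  rw [h1, pow_succ, mul_two, Finset.sum_range_add]
  have h2 : ∑ i ∈ range (2 ^ N), q (2 ^ N + i) * S (mart A N) (2 ^ N + 2 ^ N - (2 ^ N + i)) x = 0 := by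
    refine Finset.sum_eq_zero fun i _ => ?_
    rw [S_mart_low A (by omega), mul_zero]
  rw [h2, add_zero]
  unfold K
  rw [Finset.mul_sum]
  refine Finset.sum_congr rfl fun i hi => ?_
  have hi' := Finset.mem_range.1 hi
  have h3 : 2 ^ N + 2 ^ N - i = 2 ^ N + (2 ^ N - i) := by omega
  rw [h3, S_mart_high A (by omega), D_reflect hi'.le, hx]
  ring

/-- The tent function. -/
noncomputable def h (s m : ℕ) : ℝ := if m ≤ 2 ^ s then (m : ℝ) else 2 ^ (s + 1) - m

lemma h_nonneg {s m : ℕ} (hm : m ≤ 2 ^ (s + 1)) : 0 ≤ h s m := by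
  unfold h
  split_ifs
  · positivity
  · have : (m : ℝ) ≤ 2 ^ (s + 1) := by exact_mod_cast hm
    linarith

/-- The cell `x_0 = … = x_{s-1} = 0`, `x_s = x_{s+1} = 1`. -/
def cell (s : ℕ) : Set G := {x | ∀ k < s + 2, x k = decide (s ≤ k)}

lemma cell_low {s : ℕ} {x : G} (hx : x ∈ cell s) : ∀ k < s, x k = false := by
  intro k hk
  rw [hx k (by omega)]
  simp; omega

lemma cell_s {s : ℕ} {x : G} (hx : x ∈ cell s) : x s = true := by
  rw [hx s (by omega)]; simp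

lemma cell_s1 {s : ℕ} {x : G} (hx : x ∈ cell s) : x (s + 1) = true := by
  rw [hx (s + 1) (by omega)]; simp

lemma D_cell {s m : ℕ} (hm : m ≤ 2 ^ (s + 1)) {x : G} (hx : x ∈ cell s) : D m x = h s m := by
  unfold h
  split_ifs with h1
  · exact D_eq_self h1 (cell_low hx)
  · push Not at h1
    have h2 : m - 2 ^ s ≤ 2 ^ s := by rw [pow_succ] at hm; omega
    have h3 := D_add (t := s) 1 h2 x
    rw [mul_one, w_two_pow] at h3
    have h4 : 2 ^ s + (m - 2 ^ s) = m := by omega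
    rw [h4, D_eq_self le_rfl (cell_low hx), D_eq_self h2 (cell_low hx)] at h3
    have h5 : r s x = -1 := by simp [r, cell_s hx]
    rw [h3, h5, Nat.cast_sub h1.le]
    push_cast
    ring

lemma D_cell2 {s m : ℕ} (hm : m ≤ 2 ^ (s + 1)) {x : G} (hx : x ∈ cell s) :
    D (2 ^ (s + 1) + m) x = -h s m := by
  have h3 := D_add (t := s + 1) 1 hm x
  rw [mul_one, w_two_pow] at h3
  rw [h3, D_two_pow_eq_zero (Nat.lt_succ_self s) (cell_s hx), D_cell hm hx]
  have h5 : r (s + 1) x = -1 := by simp [r, cell_s1 hx]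
  rw [h5]; ring

/-- The blocks `e_l`. -/
noncomputable def e (q : ℕ → ℝ) (s l : ℕ) : ℝ :=
  ∑ m ∈ range (2 ^ (s + 1)), h s m * (q (2 ^ (s + 2) * l + m) - q (2 ^ (s + 2) * l + (2 ^ (s + 1) + m)))

/-- `c_0`. -/
noncomputable def c0 (q : ℕ → ℝ) (s : ℕ) : ℝ := ∑ m ∈ range (2 ^ (s + 1)), h s m * q m

lemma K_block (q : ℕ → ℝ) (s L : ℕ) {x : G} (hx : x ∈ cell s) :
    K q (2 ^ (s + 2) * L) x = ∑ l ∈ range L, w (2 ^ (s + 2) * l) x * e q s l := by
  induction L with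
  | zero => simp [K]
  | succ L ih =>
    have hD : D (2 ^ (s + 2)) x = 0 := D_two_pow_eq_zero (by omega) (cell_s hx)
    rw [Finset.sum_range_succ, ← ih]
    unfold K
    rw [Nat.mul_succ, Finset.sum_range_add]
    congr 1
    have h1 : ∀ m ∈ range (2 ^ (s + 2)), q (2 ^ (s + 2) * L + m) * D (2 ^ (s + 2) * L + m) x
        = w (2 ^ (s + 2) * L) x * (q (2 ^ (s + 2) * L + m) * D m x) := by
      intro m hm
      rw [D_add L (Finset.mem_range.1 hm).le, D_mul_eq_zero hD L]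
      ring
    rw [Finset.sum_congr rfl h1, ← Finset.mul_sum]
    congr 1
    rw [show (2 : ℕ) ^ (s + 2) = 2 ^ (s + 1) + 2 ^ (s + 1) by rw [pow_succ 2 (s + 1)]; ring,
      Finset.sum_range_add]
    unfold e
    rw [show (2 : ℕ) ^ (s + 2) = 2 ^ (s + 1) + 2 ^ (s + 1) by rw [pow_succ 2 (s + 1)]; ring,
      ← Finset.sum_add_distrib]
    refine Finset.sum_congr rfl fun m hm => ?_
    have hm' := (Finset.mem_range.1 hm).le
    rw [D_cell hm' hx, D_cell2 hm' hx]
    ring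

/-- Hypotheses on the weights. -/
structure Good (q : ℕ → ℝ) (ρ c α : ℝ) : Prop where
  pos : ∀ k, 0 < q k
  anti : Antitone q
  ratio : ∀ L m : ℕ, m < L → q (L + m) ≤ ρ * q m
  lower : ∀ m : ℕ, c * ((m : ℝ) + 1) ^ (α - 1) ≤ q m

variable {q : ℕ → ℝ} {ρ c α : ℝ}

lemma e_nonneg (hq : Good q ρ c α) (s l : ℕ) : 0 ≤ e q s l := by
  unfold e
  refine Finset.sum_nonneg fun m hm => ?_
  have hm' := (Finset.mem_range.1 hm).le
  exact mul_nonneg (h_nonneg hm') (sub_nonneg.2 (hq.anti (by omega)))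

lemma sum_e_le (hq : Good q ρ c α) (s L : ℕ) : ∑ l ∈ range L, e q s l ≤ c0 q s := by
  have h1 : ∀ L, ∑ l ∈ range L, e q s l
      ≤ ∑ m ∈ range (2 ^ (s + 1)), h s m * (q m - q (2 ^ (s + 2) * L + m)) := by
    intro L
    induction L with
    | zero => simp
    | succ L ih =>
      rw [Finset.sum_range_succ]
      refine (add_le_add_left ih _).trans ?_
      unfold e
      rw [← Finset.sum_add_distrib]
      refine Finset.sum_le_sum fun m hm => ?_
      have hm' := (Finset.mem_range.1 hm)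
      have h2 : q (2 ^ (s + 2) * (L + 1) + m) ≤ q (2 ^ (s + 2) * L + (2 ^ (s + 1) + m)) := by
        apply hq.anti
        have : (2 : ℕ) ^ (s + 2) = 2 ^ (s + 1) + 2 ^ (s + 1) := by rw [pow_succ 2 (s + 1)]; ring
        rw [Nat.mul_succ]
        omega
      have h3 := h_nonneg hm'.le
      nlinarith
  refine (h1 L).trans ?_
  unfold c0
  refine Finset.sum_le_sum fun m hm => ?_
  have h3 := h_nonneg (Finset.mem_range.1 hm).le
  have := hq.pos (2 ^ (s + 2) * L + m)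
  exact mul_le_mul_of_nonneg_left (by linarith) h3

lemma e_zero_ge (hq : Good q ρ c α) (s : ℕ) : (1 - ρ) * c0 q s ≤ e q s 0 := by
  unfold e c0
  rw [Finset.mul_sum]
  refine Finset.sum_le_sum fun m hm => ?_
  have hm' := (Finset.mem_range.1 hm)
  have h3 := h_nonneg hm'.le
  have h4 := hq.ratio (2 ^ (s + 1)) m hm'
  rw [mul_zero, zero_add, zero_add]
  have h5 : (1 - ρ) * q m ≤ q m - q (2 ^ (s + 1) + m) := by linarith
  calc (1 - ρ) * (h s m * q m) = h s m * ((1 - ρ) * q m) := by ring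
    _ ≤ _ := mul_le_mul_of_nonneg_left h5 h3

lemma c0_ge (hq : Good q ρ c α) (hc : 0 < c) (hα : α < 1) (s : ℕ) :
    c * 2 ^ (α - 2) * ((2 : ℝ) ^ (s : ℝ)) ^ (1 + α) ≤ c0 q s := by
  have h1 : ∀ m ∈ range (2 ^ (s + 1)), h s m * (c * (2 ^ (s + 1) : ℝ) ^ (α - 1)) ≤ h s m * q m := by
    intro m hm
    have hm' := Finset.mem_range.1 hm
    refine mul_le_mul_of_nonneg_left ?_ (h_nonneg hm'.le)
    refine le_trans ?_ (hq.lower m)
    refine mul_le_mul_of_nonneg_left ?_ hc.le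
    apply Real.rpow_le_rpow_of_nonpos (by positivity) _ (by linarith)
    exact_mod_cast hm'
  have h2 : (2 ^ s : ℝ) * 2 ^ s / 2 ≤ ∑ m ∈ range (2 ^ (s + 1)), h s m := by
    have h3 : ∑ m ∈ range (2 ^ s + 1), (m : ℝ) ≤ ∑ m ∈ range (2 ^ (s + 1)), h s m := by
      have h4 : ∑ m ∈ range (2 ^ s + 1), (m : ℝ) = ∑ m ∈ range (2 ^ s + 1), h s m := by
        refine Finset.sum_congr rfl fun m hm => ?_
        unfold h
        rw [if_pos (by have := Finset.mem_range.1 hm; omega)]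
      rw [h4]
      refine Finset.sum_le_sum_of_subset_of_nonneg ?_ ?_
      · apply Finset.range_mono
        have : 0 < 2 ^ s := Nat.two_pow_pos s
        rw [pow_succ]; omega
      · intro m hm _
        exact h_nonneg (Finset.mem_range.1 hm).le
    refine le_trans ?_ h3
    have h5 := Finset.sum_range_id_mul_two (2 ^ s + 1)
    have h6 : (∑ m ∈ range (2 ^ s + 1), (m : ℝ)) * 2 = (2 ^ s + 1) * 2 ^ s := by
      have : ((∑ m ∈ range (2 ^ s + 1), m : ℕ) : ℝ) * 2 = ((2 ^ s + 1 : ℕ) : ℝ) * ((2 ^ s + 1 - 1 : ℕ) : ℝ) := by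
        exact_mod_cast h5
      rw [Nat.add_sub_cancel] at this
      push_cast at this
      exact this
    have : (0 : ℝ) < 2 ^ s := by positivity
    nlinarith
  have h3 : (∑ m ∈ range (2 ^ (s + 1)), h s m) * (c * (2 ^ (s + 1) : ℝ) ^ (α - 1)) ≤ c0 q s := by
    rw [Finset.sum_mul]
    exact Finset.sum_le_sum h1
  refine le_trans ?_ h3
  refine le_trans ?_ (mul_le_mul_of_nonneg_right h2 (by positivity))
  apply le_of_eq
  have e1 : ((2 : ℝ) ^ (s + 1) : ℝ) ^ (α - 1) = (2 ^ (s : ℝ)) ^ (α - 1) * 2 ^ (α - 1) := by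
    rw [pow_succ, Real.mul_rpow (by positivity) (by positivity), Real.rpow_natCast]
  have e2 : ((2 : ℝ) ^ (s : ℝ)) ^ (1 + α) = (2 ^ (s : ℝ)) ^ (α - 1) * (2 ^ s * 2 ^ s) := by
    rw [show (1 + α) = (α - 1) + 2 by ring, Real.rpow_add (by positivity)]
    congr 1
    rw [show (2 : ℝ) = ((2 : ℕ) : ℝ) by norm_num, Real.rpow_natCast, Real.rpow_natCast]
    ring
  have e3 : (2 : ℝ) ^ (α - 2) = 2 ^ (α - 1) / 2 := by
    rw [show α - 2 = (α - 1) - 1 by ring, Real.rpow_sub_one (by norm_num)]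
  rw [e1, e2, e3]
  ring

end Q94.WF
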