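import Pool.Agent.Q94.WalshC

/-!
# The `L_p` lower bound at the endpoint `p = 1/(1+α)`
-/

open scoped BigOperators Topology ENNReal
open MeasureTheory Finset Filter

namespace Q94.WF

variable {q : ℕ → ℝ} {ρ c α : ℝ}

lemma measurableSet_cell (s : ℕ) : MeasurableSet (cell s) := measurableSet_cyl (s + 2) _

lemma measure_cell (s : ℕ) : μ (cell s) = ENNReal.ofReal ((1 / 2) ^ (s + 2)) := measure_cyl _ _

lemma cell_disjoint {s t : ℕ} (h : s ≠ t) : Disjoint (cell s) (cell t) := by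
  have aux : ∀ {s t : ℕ}, s < t → Disjoint (cell s) (cell t) := by
    intro s t hst
    rw [Set.disjoint_left]
    intro x hx hx2
    have h1 := cell_s hx
    have h2 := cell_low hx2 s hst
    rw [h1] at h2
    exact absurd h2 (by decide)
  rcases lt_or_gt_of_ne h with h | h
  · exact aux h
  · exact (aux h).symm

lemma flip_mem_cell {s k : ℕ} (hk : s + 2 ≤ k) (x : G) : flip k x ∈ cell s ↔ x ∈ cell s := by
  unfold cell
  simp only [Set.mem_ofPred_eq]
  refine forall_congr' fun i => ?_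
  refine imp_congr_right fun hi => ?_
  unfold flip
  rw [if_neg (by omega)]

lemma integral_cell_w {s l : ℕ} (hl : l ≠ 0) : ∫ x in cell s, w (2 ^ (s + 2) * l) x ∂μ = 0 := by
  obtain ⟨j, hj⟩ := Nat.exists_testBit_of_ne_zero hl
  have hk : (2 ^ (s + 2) * l).testBit (s + 2 + j) = true := by
    rw [Nat.testBit_two_pow_mul]
    simp [hj]
  rw [← integral_indicator (measurableSet_cell s)]
  refine integral_eq_zero_of_flip (s + 2 + j) (fun x => ?_)
    ((measurable_w _).indicator (measurableSet_cell s))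
  by_cases hx : x ∈ cell s
  · rw [Set.indicator_of_mem hx, Set.indicator_of_mem ((flip_mem_cell (by omega) x).2 hx), w_flip,
      hk, if_pos rfl]
  · rw [Set.indicator_of_notMem hx,
      Set.indicator_of_notMem (fun h => hx ((flip_mem_cell (by omega) x).1 h)), neg_zero]

lemma measurable_K (q : ℕ → ℝ) (M : ℕ) : Measurable (K q M) := by
  unfold K
  exact Finset.measurable_fun_sum _ fun i _ => (measurable_D i).const_mul _

lemma abs_K_le (hq : Good q ρ c α) (s L : ℕ) {x : G} (hx : x ∈ cell s) :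
    |K q (2 ^ (s + 2) * L) x| ≤ c0 q s := by
  rw [K_block q s L hx]
  refine (Finset.abs_sum_le_sum_abs _ _).trans ?_
  refine le_trans (le_of_eq ?_) (sum_e_le hq s L)
  refine Finset.sum_congr rfl fun l _ => ?_
  rw [abs_mul, abs_w, one_mul, abs_of_nonneg (e_nonneg hq s l)]

lemma measureReal_cell (s : ℕ) : μ.real (cell s) = (1 / 2) ^ (s + 2) := by
  unfold Measure.real
  rw [measure_cell, ENNReal.toReal_ofReal (by positivity)]

lemma integral_cell_K (q : ℕ → ℝ) (s : ℕ) {L : ℕ} (hL : 0 < L) :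
    ∫ x in cell s, K q (2 ^ (s + 2) * L) x ∂μ = e q s 0 * (1 / 2) ^ (s + 2) := by
  rw [setIntegral_congr_fun (measurableSet_cell s) fun x hx => K_block q s L hx]
  rw [integral_finsetSum]
  · rw [Finset.sum_eq_single_of_mem 0 (Finset.mem_range.2 hL)]
    · simp_rw [mul_zero, w_zero, one_mul]
      rw [setIntegral_const, measureReal_cell, smul_eq_mul, mul_comm]
    · intro l _ hl
      rw [integral_mul_const, integral_cell_w hl, zero_mul]
  · intro l _
    refine Integrable.mul_const ?_ _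
    refine Integrable.integrableOn ?_
    exact Integrable.of_bound (measurable_w _).aestronglyMeasurable 1
      (Eventually.of_forall fun x => by rw [Real.norm_eq_abs, abs_w])

lemma pow_ge {g C p : ℝ} (hp : 0 < p) (hp1 : p ≤ 1) (hg : |g| ≤ C) :
    |g| * C ^ (p - 1) ≤ |g| ^ p := by
  rcases eq_or_lt_of_le (abs_nonneg g) with h | h
  · rw [← h, zero_mul, Real.zero_rpow hp.ne']
  · have h1 : C ^ (p - 1) ≤ |g| ^ (p - 1) := Real.rpow_le_rpow_of_nonpos h hg (by linarith)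
    calc |g| * C ^ (p - 1) ≤ |g| * |g| ^ (p - 1) := mul_le_mul_of_nonneg_left h1 h.le
      _ = |g| ^ p := by
        rw [Real.rpow_sub_one h.ne']; field_simp

/-- The lower bound on one cell. -/
lemma cell_lower (hq : Good q ρ c α) (hc : 0 < c) (hρ : ρ < 1) (hα0 : 0 < α) (hα1 : α < 1)
    (s : ℕ) {L : ℕ} (hL : 0 < L) :
    ENNReal.ofReal ((1 - ρ) * (c * 2 ^ (α - 2)) ^ (1 / (1 + α)) / 4)
      ≤ ∫⁻ x in cell s, ‖K q (2 ^ (s + 2) * L) x‖ₑ ^ (1 / (1 + α)) ∂μ := by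
  set p : ℝ := 1 / (1 + α) with hp
  have hp0 : 0 < p := by positivity
  have hp1 : p ≤ 1 := by rw [hp, div_le_one (by linarith)]; linarith
  have hpα : (1 + α) * p = 1 := by rw [hp]; field_simp
  have hge := c0_ge hq hc hα1 s
  have hC : 0 < c0 q s := lt_of_lt_of_le (by positivity) hge
  set C := c0 q s
  have hKi : IntegrableOn (K q (2 ^ (s + 2) * L)) (cell s) μ := by
    refine Measure.integrableOn_of_bounded (M := C) (measure_ne_top _ _)
      (measurable_K _ _).aestronglyMeasurable ?_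
    filter_upwards [ae_restrict_mem (measurableSet_cell s)] with x hx
    rw [Real.norm_eq_abs]
    exact abs_K_le hq s L hx
  have h1 : ∫⁻ x in cell s, ENNReal.ofReal (C ^ (p - 1) * |K q (2 ^ (s + 2) * L) x|) ∂μ
      ≤ ∫⁻ x in cell s, ‖K q (2 ^ (s + 2) * L) x‖ₑ ^ p ∂μ := by
    refine setLIntegral_mono ((measurable_K _ _).enorm.pow_const p) fun x hx => ?_
    rw [Real.enorm_eq_ofReal_abs, ENNReal.ofReal_rpow_of_nonneg (abs_nonneg _) hp0.le]
    apply ENNReal.ofReal_le_ofReal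
    rw [mul_comm]
    exact pow_ge hp0 hp1 (abs_K_le hq s L hx)
  refine le_trans ?_ h1
  rw [← ofReal_integral_eq_lintegral_ofReal (hKi.abs.const_mul _)
    (Eventually.of_forall fun x => by positivity)]
  apply ENNReal.ofReal_le_ofReal
  rw [integral_const_mul]
  have h2 : e q s 0 * (1 / 2) ^ (s + 2) ≤ ∫ x in cell s, |K q (2 ^ (s + 2) * L) x| ∂μ := by
    rw [← integral_cell_K q s hL]
    exact integral_mono hKi hKi.abs fun x => le_abs_self _
  refine le_trans ?_ (mul_le_mul_of_nonneg_left h2 (by positivity))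
  have h3 := e_zero_ge hq s
  have h4 : C ^ (p - 1) * ((1 - ρ) * C * (1 / 2) ^ (s + 2)) ≤ C ^ (p - 1) * (e q s 0 * (1 / 2) ^ (s + 2)) := by
    gcongr
  refine le_trans ?_ h4
  have h5 : C ^ (p - 1) * ((1 - ρ) * C * (1 / 2) ^ (s + 2))
      = (1 - ρ) * C ^ p * (1 / 2) ^ (s + 2) := by
    rw [Real.rpow_sub_one hC.ne']; field_simp
  rw [h5]
  have h6 : (c * 2 ^ (α - 2)) ^ p * 2 ^ s ≤ C ^ p := by
    have := Real.rpow_le_rpow (by positivity) hge hp0.le
    rw [Real.mul_rpow (by positivity) (by positivity), ← Real.rpow_mul (by positivity), hpα,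
      Real.rpow_one, Real.rpow_natCast] at this
    exact this
  have h7 : (1 - ρ) * ((c * 2 ^ (α - 2)) ^ p * 2 ^ s) * (1 / 2) ^ (s + 2)
      ≤ (1 - ρ) * C ^ p * (1 / 2) ^ (s + 2) := by
    have : 0 < 1 - ρ := by linarith
    gcongr
  refine le_trans (le_of_eq ?_) h7
  have h8 : (2 : ℝ) ^ s * (1 / 2) ^ (s + 2) = 1 / 4 := by
    rw [pow_add, ← mul_assoc, ← mul_pow]; norm_num
  calc (1 - ρ) * (c * 2 ^ (α - 2)) ^ p / 4
      = (1 - ρ) * (c * 2 ^ (α - 2)) ^ p * (1 / 4) := by ring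
    _ = _ := by rw [← h8]; ring

/-- The lower bound on the whole space. -/
lemma T_lower (hq : Good q ρ c α) (hc : 0 < c) (hρ : ρ < 1) (hα0 : 0 < α) (hα1 : α < 1)
    {A : ℝ} (hA : 0 < A) (N : ℕ) :
    ENNReal.ofReal (((N : ℝ) - 1) * (A ^ (1 / (1 + α))
        * ((1 - ρ) * (c * 2 ^ (α - 2)) ^ (1 / (1 + α)) / 4)))
      ≤ ∫⁻ x, ‖T q (mart A N) (2 ^ (N + 1)) x‖ₑ ^ (1 / (1 + α)) ∂μ := by
  set p : ℝ := 1 / (1 + α) with hp
  have hp0 : 0 < p := by positivity
  set κ := (1 - ρ) * (c * 2 ^ (α - 2)) ^ p / 4 with hκ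
  have hκ0 : 0 ≤ κ := by
    have : 0 < 1 - ρ := by linarith
    positivity
  rcases Nat.eq_zero_or_pos N with h0 | h0
  · subst h0
    rw [ENNReal.ofReal_of_nonpos]
    · exact bot_le
    · have : 0 ≤ A ^ p * κ := by positivity
      push_cast; linarith
  have hcell : ∀ s ∈ range (N - 1), ENNReal.ofReal (A ^ p * κ)
      ≤ ∫⁻ x in cell s, ‖T q (mart A N) (2 ^ (N + 1)) x‖ₑ ^ p ∂μ := by
    intro s hs
    have hs' : s + 2 ≤ N := by have := Finset.mem_range.1 hs; omega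
    have h2N : 2 ^ N = 2 ^ (s + 2) * 2 ^ (N - (s + 2)) := by
      rw [← pow_add]; congr 1; omega
    have h1 : Set.EqOn (fun x => ‖T q (mart A N) (2 ^ (N + 1)) x‖ₑ ^ p)
        (fun x => ENNReal.ofReal (A ^ p) * ‖K q (2 ^ (s + 2) * 2 ^ (N - (s + 2))) x‖ₑ ^ p)
        (cell s) := by
      intro x hx
      have hD : D (2 ^ N) x = 0 := D_two_pow_eq_zero (by omega) (cell_s hx)
      simp only
      rw [T_mart q A N hD, ← h2N, Real.enorm_eq_ofReal_abs, Real.enorm_eq_ofReal_abs,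
        ENNReal.ofReal_rpow_of_nonneg (abs_nonneg _) hp0.le,
        ENNReal.ofReal_rpow_of_nonneg (abs_nonneg _) hp0.le, ← ENNReal.ofReal_mul (by positivity),
        ← Real.mul_rpow hA.le (abs_nonneg _)]
      congr 2
      rw [abs_mul, abs_mul, abs_mul, abs_neg, abs_r, abs_w, abs_of_pos hA]
      ring
    rw [setLIntegral_congr_fun (measurableSet_cell s) h1,
      lintegral_const_mul _ ((measurable_K _ _).enorm.pow_const p),
      ENNReal.ofReal_mul (by positivity)]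
    exact mul_le_mul_right (cell_lower hq hc hρ hα0 hα1 s (by positivity)) _
  have hdis : ((range (N - 1) : Finset ℕ) : Set ℕ).PairwiseDisjoint cell := by
    intro s _ t _ hst
    exact cell_disjoint hst
  calc ENNReal.ofReal (((N : ℝ) - 1) * (A ^ p * κ))
      = ∑ s ∈ range (N - 1), ENNReal.ofReal (A ^ p * κ) := by
        rw [Finset.sum_const, Finset.card_range, nsmul_eq_mul]
        rw [ENNReal.ofReal_mul]
        · congr 1
          rw [show (N : ℝ) - 1 = ((N - 1 : ℕ) : ℝ) by rw [Nat.cast_sub h0]; simp]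
          simp
        · have : (1 : ℝ) ≤ N := by exact_mod_cast h0
          linarith
    _ ≤ ∑ s ∈ range (N - 1), ∫⁻ x in cell s, ‖T q (mart A N) (2 ^ (N + 1)) x‖ₑ ^ p ∂μ :=
        Finset.sum_le_sum hcell
    _ = ∫⁻ x in ⋃ s ∈ range (N - 1), cell s, ‖T q (mart A N) (2 ^ (N + 1)) x‖ₑ ^ p ∂μ :=
        (lintegral_biUnion_finset hdis (fun s _ => measurableSet_cell s) _).symm
    _ ≤ ∫⁻ x, ‖T q (mart A N) (2 ^ (N + 1)) x‖ₑ ^ p ∂μ := setLIntegral_le_lintegral _ _

/-- Nörlund means `(1/Q_n) ∑_{k=1}^n q_{n-k} S_k f`. -/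
noncomputable def norlund (q Q : ℕ → ℝ) (f : ℕ → G → ℝ) (n : ℕ) (x : G) : ℝ :=
  1 / Q n * T q f n x

/-- Main estimate: along `2^n` the Nörlund means grow at least like `n^{1+α}`. -/
theorem main {Q : ℕ → ℝ} {B : ℝ} (hq : Good q ρ c α) (hc : 0 < c) (hρ : ρ < 1) (hα0 : 0 < α)
    (hα1 : α < 1) (hB : 0 < B) (hQ0 : ∀ n, 1 ≤ n → 0 < Q n)
    (hQ : ∀ n : ℕ, 1 ≤ n → Q n ≤ B * (n : ℝ) ^ α) :
    ∃ κ : ℝ, 0 < κ ∧ ∀ n : ℕ, 3 ≤ n → ∃ f : ℕ → G → ℝ, Martingale f ℱ μ ∧
      Hnorm (1 / (1 + α)) f = 1 ∧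
      ENNReal.ofReal (κ * (n : ℝ) ^ (1 + α))
        ≤ Lnorm (1 / (1 + α)) (norlund q Q f (2 ^ n)) := by
  set p : ℝ := 1 / (1 + α) with hp
  have hp0 : 0 < p := by positivity
  have hpα : (1 + α) * p = 1 := by rw [hp]; field_simp
  have hpi : 1 / p = 1 + α := by rw [hp]; field_simp
  set κ₀ := (1 - ρ) * (c * 2 ^ (α - 2)) ^ p / 4 with hκ₀
  have hκ0 : 0 < κ₀ := by
    have : 0 < 1 - ρ := by linarith
    positivity
  set κ₁ := κ₀ / (B * 2 ^ α) ^ p with hκ₁
  have hκ1 : 0 < κ₁ := by positivity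
  refine ⟨(κ₁ / 3) ^ (1 + α), by positivity, fun n hn => ?_⟩
  obtain ⟨N, rfl⟩ : ∃ N, n = N + 1 := ⟨n - 1, by omega⟩
  set A : ℝ := (2 ^ N : ℝ) ^ α with hA
  have hA0 : 0 < A := by positivity
  refine ⟨mart A N, mart_martingale A N, ?_, ?_⟩
  · unfold Hnorm
    rw [Hnorm_mart hp0 hA0.le]
    have h1 : (A * 2 ^ N) ^ p * (1 / 2) ^ N = 1 := by
      have h2 : A * 2 ^ N = (2 ^ N : ℝ) ^ (1 + α) := by
        rw [hA, Real.rpow_add (by positivity), Real.rpow_one]; ring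
      rw [h2, ← Real.rpow_mul (by positivity), hpα, Real.rpow_one, ← mul_pow]
      norm_num
    rw [h1]
    simp
  · have hQ1 := hQ0 (2 ^ (N + 1)) Nat.one_le_two_pow
    have hQ2 := hQ (2 ^ (N + 1)) Nat.one_le_two_pow
    set R := Q (2 ^ (N + 1)) with hR
    have h1 : ∫⁻ x, ‖norlund q Q (mart A N) (2 ^ (N + 1)) x‖ₑ ^ p ∂μ
        = ENNReal.ofReal ((1 / R) ^ p) * ∫⁻ x, ‖T q (mart A N) (2 ^ (N + 1)) x‖ₑ ^ p ∂μ := by
      rw [← lintegral_const_mul']
      · refine lintegral_congr fun x => ?_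
        unfold norlund
        rw [← hR, enorm_mul, ENNReal.mul_rpow_of_nonneg _ _ hp0.le]
        congr 1
        rw [Real.enorm_eq_ofReal_abs, abs_of_pos (by positivity),
          ENNReal.ofReal_rpow_of_nonneg (by positivity) hp0.le]
      · exact ENNReal.ofReal_ne_top
    unfold Lnorm
    rw [h1]
    have h2 := T_lower hq hc hρ hα0 hα1 hA0 N
    rw [← hp, ← hκ₀] at h2
    have hN : ((N + 1 : ℕ) : ℝ) / 3 ≤ (N : ℝ) - 1 := by
      have : (2 : ℝ) ≤ N := by exact_mod_cast (by omega : 2 ≤ N)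
      push_cast; linarith
    have h3 : κ₁ / 3 * ((N + 1 : ℕ) : ℝ) ≤ (1 / R) ^ p * (((N : ℝ) - 1) * (A ^ p * κ₀)) := by
      have h4 : R ^ p ≤ (B * 2 ^ α) ^ p * A ^ p := by
        rw [← Real.mul_rpow (by positivity) hA0.le]
        apply Real.rpow_le_rpow hQ1.le _ hp0.le
        refine hQ2.trans (le_of_eq ?_)
        push_cast
        rw [hA, pow_succ, Real.mul_rpow (by positivity) (by norm_num)]
        ring
      have h5 : κ₁ ≤ (1 / R) ^ p * (A ^ p * κ₀) := by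
        rw [one_div, Real.inv_rpow hQ1.le, hκ₁, div_le_iff₀ (by positivity)]
        have hRp : 0 < R ^ p := by positivity
        rw [show (R ^ p)⁻¹ * (A ^ p * κ₀) * (B * 2 ^ α) ^ p
          = κ₀ * ((B * 2 ^ α) ^ p * A ^ p / R ^ p) by field_simp]
        have : 1 ≤ (B * 2 ^ α) ^ p * A ^ p / R ^ p := by
          rw [le_div_iff₀ hRp]; linarith
        nlinarith
      calc κ₁ / 3 * ((N + 1 : ℕ) : ℝ) = κ₁ * (((N + 1 : ℕ) : ℝ) / 3) := by ring
        _ ≤ ((1 / R) ^ p * (A ^ p * κ₀)) * ((N : ℝ) - 1) := by gcongr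
        _ = _ := by ring
    calc ENNReal.ofReal ((κ₁ / 3) ^ (1 + α) * ((N + 1 : ℕ) : ℝ) ^ (1 + α))
        = (ENNReal.ofReal (κ₁ / 3 * ((N + 1 : ℕ) : ℝ))) ^ (1 / p) := by
          rw [hpi, ← Real.mul_rpow (by positivity) (by positivity),
            ENNReal.ofReal_rpow_of_nonneg (by positivity) (by positivity)]
      _ ≤ (ENNReal.ofReal ((1 / R) ^ p)
            * ∫⁻ x, ‖T q (mart A N) (2 ^ (N + 1)) x‖ₑ ^ p ∂μ) ^ (1 / p) := by
          apply ENNReal.rpow_le_rpow _ (by positivity)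
          refine (ENNReal.ofReal_le_ofReal h3).trans ?_
          rw [ENNReal.ofReal_mul (by positivity)]
          exact mul_le_mul_right h2 _

end Q94.WF
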