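import Pool.Agent.Q94.WalshD

/-!
# The `U^α` means and the Cesàro means
-/

open scoped BigOperators Topology ENNReal
open MeasureTheory Finset Filter

namespace Q94.WF

/-- The means `U^α_n f = Q_n^{-1} ∑_{k=1}^n (n+1-k)^{α-1} S_k f`, `Q_n = ∑_{k=1}^n k^{α-1}`. -/
noncomputable def Umean (α : ℝ) (f : ℕ → G → ℝ) (n : ℕ) (x : G) : ℝ :=
  1 / (∑ k ∈ Icc 1 n, (k : ℝ) ^ (α - 1))
    * ∑ k ∈ Icc 1 n, ((n : ℝ) + 1 - k) ^ (α - 1) * S f k x

/-- The Cesàro numbers `A_n^α = (α+1)⋯(α+n)/n!`. -/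
noncomputable def cesA (α : ℝ) (n : ℕ) : ℝ := (∏ j ∈ Icc 1 n, (α + j)) / (n.factorial : ℝ)

/-- The Cesàro means `σ^α_n f = (A_n^α)^{-1} ∑_{k=1}^n A_{n-k}^{α-1} S_k f`. -/
noncomputable def cesMean (α : ℝ) (f : ℕ → G → ℝ) (n : ℕ) (x : G) : ℝ :=
  1 / cesA α n * ∑ k ∈ Icc 1 n, cesA (α - 1) (n - k) * S f k x

/-! ### `U^α` -/

lemma goodU {α : ℝ} (hα1 : α < 1) :
    Good (fun k : ℕ => ((k : ℝ) + 1) ^ (α - 1)) (2 ^ (α - 1)) 1 α where
  pos k := by positivity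
  anti := by
    intro a b hab
    apply Real.rpow_le_rpow_of_nonpos (by positivity) _ (by linarith)
    have : (a : ℝ) ≤ b := by exact_mod_cast hab
    linarith
  ratio L m h := by
    rw [← Real.mul_rpow (by norm_num) (by positivity)]
    apply Real.rpow_le_rpow_of_nonpos (by positivity) _ (by linarith)
    have : (m : ℝ) + 1 ≤ L := by exact_mod_cast h
    push_cast
    linarith
  lower m := by rw [one_mul]

lemma Q_le {α : ℝ} (hα0 : 0 < α) (hα1 : α < 1) (n : ℕ) :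
    ∑ k ∈ Icc 1 n, (k : ℝ) ^ (α - 1) ≤ 1 / α * (n : ℝ) ^ α := by
  induction n with
  | zero => simp [Real.zero_rpow hα0.ne']
  | succ n ih =>
    rw [Finset.sum_Icc_succ_top (by omega)]
    have hn : (0 : ℝ) < ((n + 1 : ℕ) : ℝ) := by positivity
    have h1 : ((n : ℝ)) ^ α ≤ ((n + 1 : ℕ) : ℝ) ^ α * (1 - α / ((n + 1 : ℕ) : ℝ)) := by
      have h2 : (n : ℝ) = ((n + 1 : ℕ) : ℝ) * (1 + -(1 / ((n + 1 : ℕ) : ℝ))) := by
        rw [mul_add, mul_neg, mul_one_div_cancel hn.ne']; push_cast; ring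
      have h3 : (0 : ℝ) ≤ 1 + -(1 / ((n + 1 : ℕ) : ℝ)) := by
        have : 1 / ((n + 1 : ℕ) : ℝ) ≤ 1 := by
          rw [div_le_one hn]; push_cast; linarith [Nat.cast_nonneg (α := ℝ) n]
        linarith
      have h4 := _root_.rpow_one_add_le_one_add_mul_self (s := -(1 / ((n + 1 : ℕ) : ℝ)))
        (by linarith) hα0.le hα1.le
      conv_lhs => rw [h2]
      rw [Real.mul_rpow hn.le h3]
      refine mul_le_mul_of_nonneg_left (h4.trans (le_of_eq ?_)) (by positivity)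
      ring
    have h5 : ((n + 1 : ℕ) : ℝ) ^ (α - 1) = ((n + 1 : ℕ) : ℝ) ^ α / ((n + 1 : ℕ) : ℝ) :=
      Real.rpow_sub_one hn.ne' α
    rw [h5]
    have h6 : 1 / α * (n : ℝ) ^ α ≤ 1 / α * (((n + 1 : ℕ) : ℝ) ^ α * (1 - α / ((n + 1 : ℕ) : ℝ))) :=
      mul_le_mul_of_nonneg_left h1 (by positivity)
    have h7 : 1 / α * (((n + 1 : ℕ) : ℝ) ^ α * (1 - α / ((n + 1 : ℕ) : ℝ)))
        = 1 / α * ((n + 1 : ℕ) : ℝ) ^ α - ((n + 1 : ℕ) : ℝ) ^ α / ((n + 1 : ℕ) : ℝ) := by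
      field_simp
    linarith

theorem U_main {α : ℝ} (hα0 : 0 < α) (hα1 : α < 1) :
    ∃ κ : ℝ, 0 < κ ∧ ∀ n : ℕ, 3 ≤ n → ∃ f : ℕ → G → ℝ, Martingale f ℱ μ ∧
      Hnorm (1 / (1 + α)) f = 1 ∧
      ENNReal.ofReal (κ * (n : ℝ) ^ (1 + α)) ≤ Lnorm (1 / (1 + α)) (Umean α f (2 ^ n)) := by
  have hpos : ∀ n : ℕ, 1 ≤ n → 0 < ∑ k ∈ Icc 1 n, (k : ℝ) ^ (α - 1) := by
    intro n hn
    refine Finset.sum_pos (fun k hk => ?_) ⟨1, Finset.mem_Icc.2 ⟨le_rfl, hn⟩⟩
    have : 0 < k := (Finset.mem_Icc.1 hk).1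
    positivity
  obtain ⟨κ, hκ, h⟩ := main (Q := fun n => ∑ k ∈ Icc 1 n, (k : ℝ) ^ (α - 1)) (B := 1 / α)
    (goodU hα1) one_pos (Real.rpow_lt_one_of_one_lt_of_neg (by norm_num) (by linarith)) hα0 hα1
    (by positivity) hpos (fun n _ => Q_le hα0 hα1 n)
  refine ⟨κ, hκ, fun n hn => ?_⟩
  obtain ⟨f, hf1, hf2, hf3⟩ := h n hn
  refine ⟨f, hf1, hf2, hf3.trans (le_of_eq ?_)⟩
  congr 1
  funext x
  unfold norlund Umean T
  congr 1
  refine Finset.sum_congr rfl fun k hk => ?_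
  rw [Finset.mem_Icc] at hk
  beta_reduce
  rw [Nat.cast_sub hk.2]
  congr 2
  ring

/-! ### Cesàro -/

lemma cesA_zero (α : ℝ) : cesA α 0 = 1 := by simp [cesA]

lemma cesA_succ (α : ℝ) (n : ℕ) :
    cesA α (n + 1) = cesA α n * ((α + ((n : ℝ) + 1)) / ((n : ℝ) + 1)) := by
  unfold cesA
  rw [Finset.prod_Icc_succ_top (by omega), Nat.factorial_succ]
  push_cast
  field_simp

lemma cesA_pos {α : ℝ} (hα : -1 < α) (n : ℕ) : 0 < cesA α n := by
  induction n with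
  | zero => rw [cesA_zero]; norm_num
  | succ n ih =>
    rw [cesA_succ]
    have : (0 : ℝ) ≤ n := Nat.cast_nonneg n
    exact mul_pos ih (div_pos (by linarith) (by linarith))

lemma cesA_anti {α : ℝ} (hα0 : 0 < α) (hα1 : α < 1) : Antitone (cesA (α - 1)) := by
  refine antitone_nat_of_succ_le fun n => ?_
  rw [cesA_succ]
  have h0 := cesA_pos (α := α - 1) (by linarith) n
  have : (0 : ℝ) ≤ n := Nat.cast_nonneg n
  refine mul_le_of_le_one_right h0.le ?_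
  rw [div_le_one (by linarith)]
  linarith

lemma cesA_ratio_aux {α : ℝ} (hα0 : 0 < α) (hα1 : α < 1) (m : ℕ) {i : ℕ} (hi : i ≤ m + 1) :
    cesA (α - 1) (m + i) ≤ cesA (α - 1) m * Real.exp (-((1 - α) / (2 * ((m : ℝ) + 1)) * i)) := by
  induction i with
  | zero => simp
  | succ i ih =>
    have ih' := ih (by omega)
    rw [← add_assoc, cesA_succ]
    have h0 : (0 : ℝ) ≤ m := Nat.cast_nonneg m
    have h1 : (0 : ℝ) ≤ i := Nat.cast_nonneg i
    have h2 : (i : ℝ) + 1 ≤ m + 1 := by exact_mod_cast hi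
    have h3 : (α - 1 + (((m + i : ℕ) : ℝ) + 1)) / (((m + i : ℕ) : ℝ) + 1)
        ≤ Real.exp (-((1 - α) / (2 * ((m : ℝ) + 1)))) := by
      have h4 := Real.add_one_le_exp (-((1 - α) / (2 * ((m : ℝ) + 1))))
      refine le_trans ?_ h4
      have h5 : (α - 1 + (((m + i : ℕ) : ℝ) + 1)) / (((m + i : ℕ) : ℝ) + 1)
          = 1 - (1 - α) / ((m : ℝ) + i + 1) := by
        push_cast
        field_simp
        ring
      rw [h5]
      have h6 : (1 - α) / (2 * ((m : ℝ) + 1)) ≤ (1 - α) / ((m : ℝ) + i + 1) := by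
        apply div_le_div_of_nonneg_left (by linarith) (by linarith) (by linarith)
      linarith
    have h7 : (0 : ℝ) ≤ (α - 1 + (((m + i : ℕ) : ℝ) + 1)) / (((m + i : ℕ) : ℝ) + 1) := by
      push_cast
      apply div_nonneg <;> linarith
    calc cesA (α - 1) (m + i) * ((α - 1 + (((m + i : ℕ) : ℝ) + 1)) / (((m + i : ℕ) : ℝ) + 1))
        ≤ (cesA (α - 1) m * Real.exp (-((1 - α) / (2 * ((m : ℝ) + 1)) * i)))
          * Real.exp (-((1 - α) / (2 * ((m : ℝ) + 1)))) :=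
          mul_le_mul ih' h3 h7 (mul_nonneg (cesA_pos (by linarith) m).le (Real.exp_pos _).le)
      _ = cesA (α - 1) m * Real.exp (-((1 - α) / (2 * ((m : ℝ) + 1)) * ((i + 1 : ℕ) : ℝ))) := by
          rw [mul_assoc, ← Real.exp_add]
          congr 2
          push_cast
          ring

lemma cesA_lower_aux {α : ℝ} (hα0 : 0 < α) (hα1 : α < 1) {m : ℕ} (hm : 1 ≤ m) :
    α * (m : ℝ) ^ (α - 1) ≤ cesA (α - 1) m := by
  induction m, hm using Nat.le_induction with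
  | base =>
    have := cesA_succ (α - 1) 0
    rw [cesA_zero] at this
    norm_num at this ⊢
    rw [this]
  | succ m hm ih =>
    rw [cesA_succ]
    have hm0 : (0 : ℝ) < m := by exact_mod_cast hm
    have h1 : (((m : ℝ)) / ((m : ℝ) + 1)) ^ (1 - α) ≤ (α - 1 + ((m : ℝ) + 1)) / ((m : ℝ) + 1) := by
      have h4 := _root_.rpow_one_add_le_one_add_mul_self (s := -(1 / ((m : ℝ) + 1))) (p := 1 - α)
        (by
          have : 1 / ((m : ℝ) + 1) ≤ 1 := by rw [div_le_one (by linarith)]; linarith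
          linarith) (by linarith) (by linarith)
      have h5 : (1 + -(1 / ((m : ℝ) + 1))) = (m : ℝ) / ((m : ℝ) + 1) := by field_simp; ring
      rw [h5] at h4
      refine h4.trans (le_of_eq ?_)
      field_simp
      ring
    have h2 : ((m + 1 : ℕ) : ℝ) ^ (α - 1)
        = (m : ℝ) ^ (α - 1) * (((m : ℝ)) / ((m : ℝ) + 1)) ^ (1 - α) := by
      push_cast
      rw [Real.div_rpow hm0.le (by positivity), show (1 - α) = -(α - 1) by ring,
        Real.rpow_neg hm0.le, Real.rpow_neg (by positivity)]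
      have : (m : ℝ) ^ (α - 1) ≠ 0 := (by positivity : (0 : ℝ) < (m : ℝ) ^ (α - 1)).ne'
      field_simp
    rw [h2, ← mul_assoc]
    exact mul_le_mul ih h1 (by positivity) (cesA_pos (by linarith) m).le

lemma goodC {α : ℝ} (hα0 : 0 < α) (hα1 : α < 1) :
    Good (cesA (α - 1)) (Real.exp (-((1 - α) / 2))) α α where
  pos k := cesA_pos (by linarith) k
  anti := cesA_anti hα0 hα1
  ratio L m h := by
    have h1 : cesA (α - 1) (L + m) ≤ cesA (α - 1) (m + (m + 1)) :=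
      cesA_anti hα0 hα1 (by omega)
    refine h1.trans ((cesA_ratio_aux hα0 hα1 m le_rfl).trans (le_of_eq ?_))
    rw [mul_comm]
    congr 2
    push_cast
    field_simp
  lower m := by
    rcases Nat.eq_zero_or_pos m with h | h
    · subst h
      rw [cesA_zero]
      simp
      linarith
    · refine le_trans ?_ (cesA_lower_aux hα0 hα1 h)
      refine mul_le_mul_of_nonneg_left ?_ hα0.le
      have : (0 : ℝ) < m := by exact_mod_cast h
      exact Real.rpow_le_rpow_of_nonpos this (by linarith) (by linarith)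

lemma cesA_upper {α : ℝ} (hα0 : 0 < α) (hα1 : α < 1) {n : ℕ} (hn : 1 ≤ n) :
    cesA α n ≤ 2 * (n : ℝ) ^ α := by
  induction n, hn using Nat.le_induction with
  | base =>
    have := cesA_succ α 0
    rw [cesA_zero] at this
    norm_num at this ⊢
    rw [this]
    linarith
  | succ m hm ih =>
    rw [cesA_succ]
    have hm0 : (0 : ℝ) < m := by exact_mod_cast hm
    have h1 : (((m : ℝ)) / ((m : ℝ) + 1)) ^ α ≤ 1 - α / ((m : ℝ) + 1) := by
      have h4 := _root_.rpow_one_add_le_one_add_mul_self (s := -(1 / ((m : ℝ) + 1))) (p := α)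
        (by
          have : 1 / ((m : ℝ) + 1) ≤ 1 := by rw [div_le_one (by linarith)]; linarith
          linarith) (by linarith) (by linarith)
      have h5 : (1 + -(1 / ((m : ℝ) + 1))) = (m : ℝ) / ((m : ℝ) + 1) := by field_simp; ring
      rw [h5] at h4
      refine h4.trans (le_of_eq ?_)
      ring
    have h2 : (m : ℝ) ^ α = ((m + 1 : ℕ) : ℝ) ^ α * (((m : ℝ)) / ((m : ℝ) + 1)) ^ α := by
      rw [← Real.mul_rpow (by positivity) (by positivity)]
      congr 1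
      push_cast
      field_simp
    have h3 : (m : ℝ) ^ α * ((α + ((m : ℝ) + 1)) / ((m : ℝ) + 1)) ≤ ((m + 1 : ℕ) : ℝ) ^ α := by
      rw [h2, mul_assoc]
      refine mul_le_of_le_one_right (by positivity) ?_
      refine (mul_le_mul_of_nonneg_right h1 (by positivity)).trans ?_
      have h6 : (1 - α / ((m : ℝ) + 1)) * ((α + ((m : ℝ) + 1)) / ((m : ℝ) + 1))
          = 1 - (α / ((m : ℝ) + 1)) ^ 2 := by
        field_simp
        ring
      rw [h6]
      have := sq_nonneg (α / ((m : ℝ) + 1))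
      linarith
    calc cesA α m * ((α + ((m : ℝ) + 1)) / ((m : ℝ) + 1))
        ≤ 2 * (m : ℝ) ^ α * ((α + ((m : ℝ) + 1)) / ((m : ℝ) + 1)) :=
          mul_le_mul_of_nonneg_right ih (by positivity)
      _ = 2 * ((m : ℝ) ^ α * ((α + ((m : ℝ) + 1)) / ((m : ℝ) + 1))) := by ring
      _ ≤ 2 * ((m + 1 : ℕ) : ℝ) ^ α := by linarith

theorem C_main {α : ℝ} (hα0 : 0 < α) (hα1 : α < 1) :
    ∃ κ : ℝ, 0 < κ ∧ ∀ n : ℕ, 3 ≤ n → ∃ f : ℕ → G → ℝ, Martingale f ℱ μ ∧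
      Hnorm (1 / (1 + α)) f = 1 ∧
      ENNReal.ofReal (κ * (n : ℝ) ^ (1 + α)) ≤ Lnorm (1 / (1 + α)) (cesMean α f (2 ^ n)) := by
  obtain ⟨κ, hκ, h⟩ := main (Q := cesA α) (B := 2)
    (goodC hα0 hα1) hα0 (by rw [Real.exp_lt_one_iff]; linarith) hα0 hα1
    (by norm_num) (fun n _ => cesA_pos (by linarith) n) (fun n hn => cesA_upper hα0 hα1 hn)
  exact ⟨κ, hκ, h⟩

/-- From growth to the failure of a uniform bound. -/
lemma no_bound {p : ℝ} {M : (ℕ → G → ℝ) → ℕ → G → ℝ} {β : ℝ} (hβ : 0 < β)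
    (h : ∃ κ : ℝ, 0 < κ ∧ ∀ n : ℕ, 3 ≤ n → ∃ f : ℕ → G → ℝ, Martingale f ℱ μ ∧
      Hnorm p f = 1 ∧ ENNReal.ofReal (κ * (n : ℝ) ^ β) ≤ Lnorm p (M f (2 ^ n))) :
    ¬ ∃ C : ℝ, ∀ f : ℕ → G → ℝ, Martingale f ℱ μ → Hnorm p f < ⊤ →
      ∀ n : ℕ, Lnorm p (M f (2 ^ n)) ≤ ENNReal.ofReal C * Hnorm p f := by
  rintro ⟨C, hC⟩
  obtain ⟨κ, hκ, h⟩ := h
  have h1 : Tendsto (fun n : ℕ => κ * (n : ℝ) ^ β) atTop atTop :=
    ((tendsto_rpow_atTop hβ).comp tendsto_natCast_atTop_atTop).const_mul_atTop hκ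
  obtain ⟨n, hn1, hn2, hn3⟩ := ((h1.eventually_gt_atTop C).and
    ((eventually_ge_atTop 3).and (eventually_ge_atTop 3))).exists
  obtain ⟨f, hf1, hf2, hf3⟩ := h n hn2
  have h2 := hC f hf1 (by rw [hf2]; simp) n
  rw [hf2, mul_one] at h2
  have h3 := hf3.trans h2
  have h4 : 0 < κ * (n : ℝ) ^ β := by
    have : 0 < n := by omega
    positivity
  rcases le_or_gt C 0 with h5 | h5
  · rw [ENNReal.ofReal_of_nonpos h5] at h3
    simp only [nonpos_iff_eq_zero, ENNReal.ofReal_eq_zero] at h3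
    linarith
  · rw [ENNReal.ofReal_le_ofReal_iff h5.le] at h3
    linarith

end Q94.WF
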